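import Pool.Agent.Lib.MP_03e5d0_nt.Iface

/-! Definitions shared by the files of the analytic core. -/

set_option autoImplicit false

noncomputable section

namespace Pool.Agent.Lib.MP_03e5d0_nt

open Complex Finset MeasureTheory
open scoped NumberTheorySymbols Real ContDiff

/-- Admissible values at the primes. -/
def Adm (x : ℕ → ℝ) : Prop := ∀ p, x p = 0 ∨ x p = 1 ∨ x p = -1

/-- The completely multiplicative function with values `x p` at the primes. -/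
def cm (x : ℕ → ℝ) (n : ℕ) : ℝ := if n = 0 then 0 else (n.primeFactorsList.map x).prod

/-- The point attached to an integer. -/
def jac (m : ℤ) : ℕ → ℝ := fun p => (J(m | p) : ℝ)

/-- The sum with weight `V (log n)`. -/
def sm (D : Data) (x : ℕ → ℝ) (V : ℝ → ℂ) : ℂ :=
  ∑' n : ℕ, ((D.lam n * cm x n / √n : ℝ) : ℂ) * V (Real.log n)

/-- Smooth, supported in `[a, b]`, derivatives up to order `j` bounded by `B`. -/
structure Sm (j : ℕ) (a b B : ℝ) (W : ℝ → ℂ) : Prop where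
  smooth : ContDiff ℝ ∞ W
  supp : ∀ y, y < a ∨ b < y → W y = 0
  bd : ∀ i ≤ j, ∀ y, ‖iteratedDeriv i W y‖ ≤ B

/-- `exp (i t y)`. -/
def ex (t y : ℝ) : ℂ := cexp (I * t * y)

/-- Fourier transform, normalised so that `W y = ∫ ft W t * ex t y`. -/
def ft (W : ℝ → ℂ) (t : ℝ) : ℂ := (2 * π : ℂ)⁻¹ * ∫ y : ℝ, W y * ex (-t) y

/-- Equal to one on `[-ρ, ρ]`, zero outside `(-ρ - 1, ρ + 1)`. -/
def bump (ρ y : ℝ) : ℝ := Real.smoothTransition (y + ρ + 1) * Real.smoothTransition (ρ + 1 - y)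

/-- Supported in `(-1, 1)`; the integer translates sum to one. -/
def psi (y : ℝ) : ℝ := Real.smoothTransition (y + 1) - Real.smoothTransition y

/-- The basic family of sums of length `exp L`. -/
def tw (D : Data) (x : ℕ → ℝ) (ρ L t : ℝ) : ℂ :=
  sm D x fun y => (bump ρ (y - L) : ℂ) * ex t (y - L)

/-- The Euclidean norm over a finite set. -/
def nrm {ι : Type} (T : Finset ι) (a : ι → ℂ) : ℝ := √(∑ k ∈ T, ‖a k‖ ^ 2)

/-- All integers with `|m| ≤ X`. -/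
def allm (X : ℝ) : Finset ℤ := Icc (-(⌊X⌋₊ : ℤ)) ⌊X⌋₊

open Classical in
/-- The squarefree integers with `|k| ≤ M`. -/
def sqf (M : ℝ) : Finset ℤ := (allm M).filter Squarefree

/-- The slowly growing factor. -/
def ll (M : ℝ) : ℝ := 1 + Real.log (1 + Real.log M)

/-- A bound for the second moments of the basic family, uniform in the length. -/
structure IH (D : Data) (A a : ℕ) (Θ : ℝ → ℝ) : Prop where
  pos : ∀ M, 1 ≤ M → 0 ≤ Θ M
  mono : ∀ M M', 1 ≤ M → M ≤ M' → Θ M ≤ Θ M'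
  grow : ∀ M T, 1 ≤ M → 1 ≤ T → Θ (M * T) ≤ Θ M * T ^ a
  bd : ∀ M, 1 ≤ M → ∀ L t, nrm (sqf M) (fun k => tw D (jac k) 5 L t) ≤ Θ M * √M * (1 + |t|) ^ A

/-- The Gaussian average over all integers. -/
def gsum (X : ℝ) (f : (ℕ → ℝ) → ℂ) : ℂ :=
  ∑' m : ℤ, (Real.exp (-(π * ((m : ℝ) / X) ^ 2)) : ℂ) * f (jac m)

/-- The mean value of a random completely multiplicative function. -/
def rho (δ : ℕ → ℝ) (n : ℕ) : ℝ := if IsSquare n then ∏ p ∈ n.primeFactors, (1 - δ p) else 0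

/-- The probability of the value zero for all integers. -/
def dl0 (p : ℕ) : ℝ := 1 / p

/-- The probability of the value zero for squarefree integers. -/
def dl1 (p : ℕ) : ℝ := 1 / (p + 1)

/-- Admissible probabilities of the value zero. -/
def Dl (δ : ℕ → ℝ) : Prop := ∀ p : ℕ, p.Prime → 0 ≤ δ p ∧ δ p ≤ 1 / p

/-- The primes up to `exp Λ` not dividing `q`. -/
def pr (D : Data) (Λ : ℝ) : Finset ℕ :=
  (range (⌊Real.exp Λ⌋₊ + 1)).filter fun p => p.Prime ∧ ¬p ∣ D.q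

/-- Weight of a sign. -/
def wt (δ : ℝ) (s : SignType) : ℝ := if s = 0 then δ else (1 - δ) / 2

/-- Extension by zero. -/
def ext (P : Finset ℕ) (w : P → SignType) : ℕ → ℝ :=
  fun p => if h : p ∈ P then ((w ⟨p, h⟩ : SignType) : ℝ) else 0

/-- Expectation in the random model. -/
def Ex {E : Type} [AddCommMonoid E] [Module ℝ E] (P : Finset ℕ) (δ : ℕ → ℝ)
    (f : (ℕ → ℝ) → E) : E :=
  ∑ w : P → SignType, (∏ p : P, wt (δ p) (w p)) • f (ext P w)

/-- Expectation over one coordinate. -/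
def e1 {E : Type} [AddCommMonoid E] [Module ℝ E] (δ : ℝ) (f : ℝ → E) : E :=
  δ • f 0 + ((1 - δ) / 2) • (f 1 + f (-1))

/-- A Dirichlet polynomial of length and mass at most `Y`. -/
def Poly (D : Data) (Y : ℝ) (f : (ℕ → ℝ) → ℝ) : Prop :=
  ∃ l : List (ℕ × ℝ), (∀ c ∈ l, c.1 ≠ 0 ∧ c.1.Coprime D.q ∧ (c.1 : ℝ) ≤ Y) ∧
    (l.map fun c => |c.2|).sum ≤ Y ∧ ∀ x, f x = (l.map fun c => c.2 * cm x c.1).sum

/-- The inverse of the local polynomial, `z` standing for `p ^ (-s)`. -/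
def lf (l u : ℝ) (z : ℂ) : ℂ := (1 - (l * u : ℝ) * z + (u ^ 2 : ℝ) * z ^ 2)⁻¹

/-- Finite Euler product. -/
def LP (D : Data) (S : Finset ℕ) (x : ℕ → ℝ) (s : ℂ) : ℂ :=
  ∏ p ∈ S, lf (D.lam p) (x p) ((p : ℂ) ^ (-s))

/-- The base weight. -/
def om (ξ y : ℝ) : ℂ := (Real.exp y : ℂ) * cexp (-((1 - I * ξ) * Real.exp y))

end Pool.Agent.Lib.MP_03e5d0_nt
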