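import Pool.Agent.Lib.MP_03e5d0_nt.KDef

set_option autoImplicit false

noncomputable section

namespace Pool.Agent.Lib.MP_03e5d0_nt

open Complex Finset MeasureTheory
open scoped NumberTheorySymbols Real ContDiff

/-! Inflation: from squarefree `k` to all integers `k p²`. -/

theorem kinf_upd (x : ℕ → ℝ) {p : ℕ} (hp : p.Prime) (m : ℕ) :
    cm (Function.update x p 0) (p * m) = 0 := by
  rw [cm_mul, cm_prime _ hp, Function.update_self, zero_mul]

theorem kinf_upd' (x : ℕ → ℝ) {p n : ℕ} (h : ¬p ∣ n) :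
    cm (Function.update x p 0) n = cm x n :=
  cm_congr fun r _ hr => Function.update_of_ne (fun e : r = p => h (e ▸ hr)) _ _

theorem kinf_lam1 (D : Data) {p m : ℕ} (hp : p.Prime) (h : ¬p ∣ m) :
    D.lam (p * m) = D.lam p * D.lam m :=
  D.lam_mul p m ((Nat.Prime.coprime_iff_not_dvd hp).2 h)

theorem kinf_lam2 (D : Data) {p : ℕ} (hp : p.Prime) (hq : ¬p ∣ D.q) (m : ℕ) :
    D.lam (p * (p * m)) = D.lam p * D.lam (p * m) - D.lam m := by
  rcases eq_or_ne m 0 with rfl | hm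
  · simp [D.lam0]
  obtain ⟨j, m', h, rfl⟩ := Nat.exists_eq_pow_mul_and_not_dvd hm p hp.ne_one
  have hc : ∀ i : ℕ, (p ^ i).Coprime m' := fun i =>
    Nat.Coprime.pow_left i ((Nat.Prime.coprime_iff_not_dvd hp).2 h)
  rw [show p * (p * (p ^ j * m')) = p ^ (j + 2) * m' by ring,
    show p * (p ^ j * m') = p ^ (j + 1) * m' by ring, D.lam_mul _ _ (hc _), D.lam_mul _ _ (hc _),
    D.lam_mul _ _ (hc _), D.lam_rec p j hp hq]
  ring

theorem kinf_hasSum (D : Data) (x : ℕ → ℝ) {V : ℝ → ℂ} {L : ℝ} (hV : ∀ y, L < y → V y = 0) :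
    HasSum (fun n : ℕ => ((D.lam n * cm x n / √n : ℝ) : ℂ) * V (Real.log n)) (sm D x V) := by
  refine Summable.hasSum (summable_of_ne_finset_zero (s := range (⌊Real.exp L⌋₊ + 1)) fun n hn => ?_)
  have h1 : ((⌊Real.exp L⌋₊ + 1 : ℕ) : ℝ) ≤ n := by exact_mod_cast not_lt.mp (mem_range.not.mp hn)
  have h2 : Real.exp L < n := by
    refine lt_of_lt_of_le ?_ h1
    push_cast
    exact Nat.lt_floor_add_one _
  rw [hV _ ((Real.lt_log_iff_exp_lt ((Real.exp_pos _).trans h2)).mpr h2), mul_zero]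

theorem kinf_dil {f : ℕ → ℂ} {s : ℂ} (h : HasSum f s) {r : ℕ} (hr : r ≠ 0) :
    HasSum (fun n => if r ∣ n then f (n / r) else 0) s := by
  have hi : Function.Injective fun m : ℕ => r * m := fun a b e => Nat.eq_of_mul_eq_mul_left
    (Nat.pos_of_ne_zero hr) e
  rw [← hi.hasSum_iff]
  · refine h.congr_fun ?_
    intro m
    simp [Nat.mul_div_cancel_left m (Nat.pos_of_ne_zero hr)]
  · intro n hn
    exact if_neg fun ⟨m, e⟩ => hn ⟨m, e.symm⟩

/-- Coefficientwise: with `c n = lam n * cm x n`, `c' n = lam n * cm (update x p 0) n`: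
`c' n = c n - lam p * x p * c (n/p) [p ∣ n] + x p ^ 2 * c (n/p²) [p² ∣ n]` (write `n = p^j n'`, `lam_rec`). -/
theorem sm_infl (D : Data) (x : ℕ → ℝ) {p : ℕ} (hp : p.Prime) (hq : ¬p ∣ D.q) {V : ℝ → ℂ} {L : ℝ}
    (hV : ∀ y, L < y → V y = 0) :
    sm D x V = sm D (Function.update x p 0) V +
      ((D.lam p * x p / √p : ℝ) : ℂ) * sm D x (fun y => V (y + Real.log p)) -
      ((x p ^ 2 / p : ℝ) : ℂ) * sm D x fun y => V (y + 2 * Real.log p) := by
  have hl : 0 ≤ Real.log p := Real.log_natCast_nonneg p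
  have hp0 : (0 : ℝ) < p := by exact_mod_cast hp.pos
  have h0 := kinf_hasSum D x hV
  have h1 := kinf_hasSum D (Function.update x p 0) hV
  have h2 := kinf_dil ((kinf_hasSum D x (V := fun y => V (y + Real.log p)) (L := L)
    fun y hy => hV _ (by linarith)).mul_left ((D.lam p * x p / √p : ℝ) : ℂ)) hp.ne_zero
  have h3 := kinf_dil (kinf_dil ((kinf_hasSum D x (V := fun y => V (y + 2 * Real.log p)) (L := L)
    fun y hy => hV _ (by linarith)).mul_left ((x p ^ 2 / p : ℝ) : ℂ)) hp.ne_zero) hp.ne_zero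
  refine h0.unique (((h1.add h2).sub h3).congr_fun ?_)
  intro n
  by_cases hn : p ∣ n
  · obtain ⟨m, rfl⟩ := hn
    simp only [dvd_mul_right, if_true, Nat.mul_div_cancel_left m hp.pos, kinf_upd x hp]
    rcases eq_or_ne m 0 with rfl | hm
    · simp [cm_zero]
    have hm0 : (0 : ℝ) < m := by exact_mod_cast Nat.pos_of_ne_zero hm
    have e1 : Real.log ((p * m : ℕ) : ℝ) = Real.log m + Real.log p := by
      rw [Nat.cast_mul, Real.log_mul hp0.ne' hm0.ne', add_comm]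
    have e2 : √((p * m : ℕ) : ℝ) = √p * √m := by rw [Nat.cast_mul, Real.sqrt_mul hp0.le]
    have hs : (0 : ℝ) < √p := Real.sqrt_pos.2 hp0
    rw [e1, e2, cm_mul, cm_prime x hp]
    by_cases hm' : p ∣ m
    · obtain ⟨k, rfl⟩ := hm'
      have hk : k ≠ 0 := fun e => hm (by simp [e])
      have hk0 : (0 : ℝ) < k := by exact_mod_cast Nat.pos_of_ne_zero hk
      have e3 : Real.log ((p * k : ℕ) : ℝ) + Real.log p = Real.log k + 2 * Real.log p := by
        rw [Nat.cast_mul, Real.log_mul hp0.ne' hk0.ne']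
        ring
      have e4 : √((p * k : ℕ) : ℝ) = √p * √k := by rw [Nat.cast_mul, Real.sqrt_mul hp0.le]
      have hs' : (0 : ℝ) < √k := Real.sqrt_pos.2 hk0
      simp only [dvd_mul_right, if_true, Nat.mul_div_cancel_left k hp.pos]
      rw [e3, kinf_lam2 D hp hq, e4, cm_mul, cm_prime x hp]
      have e5 : (D.lam p * D.lam (p * k) - D.lam k) * (x p * (x p * cm x k)) / (√p * (√p * √k)) =
          D.lam p * x p / √p * (D.lam (p * k) * (x p * cm x k) / (√p * √k)) -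
            x p ^ 2 / p * (D.lam k * cm x k / √k) := by
        have e6 : (p : ℝ) = √p * √p := (Real.mul_self_sqrt hp0.le).symm
        generalize √(p : ℝ) = s at hs e6 ⊢
        rw [e6]
        field_simp
      rw [e5]
      push_cast
      ring
    · rw [if_neg hm', kinf_lam1 D hp hm']
      push_cast
      ring
  · simp only [hn, if_false, kinf_upd' x hn, add_zero, sub_zero]

theorem cm_jac_mul_sq (k : ℤ) {p : ℕ} (hp : p.Prime) (n : ℕ) :
    cm (jac (k * (p : ℤ) ^ 2)) n = cm (Function.update (jac k) p 0) n := by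
  refine cm_congr fun r hr _ => ?_
  rcases eq_or_ne r p with rfl | h
  · rw [Function.update_self, jac]
    have : J(k * (r : ℤ) ^ 2 | r) = 0 := by
      rw [jacobiSym.mul_left, jacobiSym.pow_left, jacobiSym.mod_left (r : ℤ) r, Int.emod_self,
        jacobiSym.zero_left hr.one_lt]
      simp
    simp [this]
  · rw [Function.update_of_ne h, jac, jac]
    have : (p : ℤ).gcd r = 1 := by
      rw [Int.gcd_natCast_natCast]
      exact (Nat.coprime_primes hp hr).2 h.symm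
    simp only [jacobiSym.mul_left, jacobiSym.sq_one' this, mul_one]

/-- `Chebyshev.psi_ge`, `Chebyshev.psi_le_primeCounting_mul_log` (or `Chebyshev.pi_ge`). -/
theorem many_primes {q : ℕ} (hq : q ≠ 0) : ∃ P₀ : ℝ, 1 ≤ P₀ ∧ ∀ P : ℝ, P₀ ≤ P → ∃ S : Finset ℕ,
    (∀ p ∈ S, p.Prime ∧ ¬p ∣ q ∧ (p : ℝ) ≤ P) ∧ √P ≤ S.card := by
  obtain ⟨c, hc⟩ : ∃ c : ℝ, c = (q.primeFactors.card : ℝ) := ⟨_, rfl⟩
  have hc0 : 0 ≤ c := hc ▸ Nat.cast_nonneg _
  have h1 : (1 : ℝ) ≤ (20 + c) ^ 4 := one_le_pow₀ (by linarith)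
  refine ⟨(20 + c) ^ 4, h1, fun P hP => ⟨Nat.primesLE ⌊P⌋₊ \ q.primeFactors, fun p hp => ?_, ?_⟩⟩
  · rw [mem_sdiff, Nat.mem_primesLE, Nat.mem_primeFactors_of_ne_zero hq] at hp
    exact ⟨hp.1.2, fun h => hp.2 ⟨hp.1.2, h⟩, (Nat.le_floor_iff (by linarith)).1 hp.1.1⟩
  have hP0 : 0 ≤ P := by linarith
  have h2 : (Nat.primeCounting ⌊P⌋₊ : ℝ) ≤ (Nat.primesLE ⌊P⌋₊ \ q.primeFactors).card + c := by
    rw [hc, ← Nat.primesLE_card_eq_primeCounting]
    exact_mod_cast card_le_card_sdiff_add_card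
  have h3 := (Chebyshev.psi_ge' hP0).trans (Chebyshev.psi_le_primeCounting_mul_log' P)
  obtain ⟨w, hw0, hw, hw'⟩ : ∃ w : ℝ, 0 ≤ w ∧ √P = w ^ 2 ∧ P = w ^ 4 := by
    refine ⟨√√P, Real.sqrt_nonneg _, (Real.sq_sqrt (Real.sqrt_nonneg _)).symm, ?_⟩
    rw [show 4 = 2 * 2 by norm_num, pow_mul, Real.sq_sqrt (Real.sqrt_nonneg _), Real.sq_sqrt hP0]
  have h4 : 20 + c ≤ w := by
    rw [hw'] at hP
    exact le_of_pow_le_pow_left₀ (by norm_num) hw0 hP
  have hw1 : 0 < w := by linarith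
  have h5 : Real.log P ≤ 4 * w := by
    rw [hw', Real.log_pow]
    have := Real.log_le_sub_one_of_pos hw1
    push_cast
    linarith
  have h6 : 2 ≤ P := by
    have : (20 : ℝ) ^ 4 ≤ (20 + c) ^ 4 := pow_le_pow_left₀ (by norm_num) (by linarith) 4
    linarith
  have h7 : Real.log (P + 2) ≤ 8 * w := by
    have : Real.log (P + 2) ≤ Real.log (P ^ 2) := Real.log_le_log (by linarith) (by nlinarith)
    rw [Real.log_pow] at this
    push_cast at this
    linarith
  have h8 : (P - 1) / 2 ≤ (P - 1) * Real.log 2 := by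
    have := Real.log_two_gt_d9
    nlinarith
  have h9 : (Nat.primeCounting ⌊P⌋₊ : ℝ) * Real.log P ≤ (Nat.primeCounting ⌊P⌋₊ : ℝ) * (4 * w) :=
    mul_le_mul_of_nonneg_left h5 (Nat.cast_nonneg _)
  rw [hw]
  by_contra hlt
  have h10 : (Nat.primeCounting ⌊P⌋₊ : ℝ) * (4 * w) ≤ (w ^ 2 + c) * (4 * w) :=
    mul_le_mul_of_nonneg_right (by linarith [not_le.1 hlt]) (by linarith)
  have h11 : (20 + c) * w ^ 3 ≤ w * w ^ 3 := mul_le_mul_of_nonneg_right h4 (by positivity)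
  have h12 : 400 ≤ w ^ 2 := by nlinarith
  have h13 : 400 * w ≤ w ^ 3 := by nlinarith
  have h14 : c * (400 * w) ≤ c * w ^ 3 := mul_le_mul_of_nonneg_left h13 hc0
  have h15 : 0 ≤ c * w := mul_nonneg hc0 hw0
  have h16 : w * w ^ 3 = P := by rw [hw']; ring
  nlinarith

theorem kinf_tw (D : Data) {p : ℕ} (hp : p.Prime) (hq : ¬p ∣ D.q) (k : ℤ) (L t : ℝ) :
    ‖tw D (jac k) 5 L t‖ ≤ ‖tw D (jac (k * (p : ℤ) ^ 2)) 5 L t‖ +
      (1 / 50 * ‖tw D (jac k) 5 (L - Real.log p) t‖ +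
        1 / 200 * ‖tw D (jac k) 5 (L - 2 * Real.log p) t‖) := by
  have h0 := sm_infl D (jac k) hp hq (V := fun y => (bump 5 (y - L) : ℂ) * ex t (y - L))
    (L := L + |5| + 1) fun y hy => by simp [tbas_bump hy]
  have e0 : tw D (jac (k * (p : ℤ) ^ 2)) 5 L t = sm D (Function.update (jac k) p 0)
      fun y => (bump 5 (y - L) : ℂ) * ex t (y - L) := by
    unfold tw sm
    simp only [cm_jac_mul_sq k hp]
  have e1 : tw D (jac k) 5 (L - Real.log p) t = sm D (jac k)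
      fun y => (bump 5 (y + Real.log p - L) : ℂ) * ex t (y + Real.log p - L) := by
    unfold tw
    congr 1
    funext y
    rw [show y - (L - Real.log p) = y + Real.log p - L by ring]
  have e2 : tw D (jac k) 5 (L - 2 * Real.log p) t = sm D (jac k)
      fun y => (bump 5 (y + 2 * Real.log p - L) : ℂ) * ex t (y + 2 * Real.log p - L) := by
    unfold tw
    congr 1
    funext y
    rw [show y - (L - 2 * Real.log p) = y + 2 * Real.log p - L by ring]
  rw [← e0, ← e1, ← e2] at h0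
  have hb : (10000 : ℝ) ≤ p := by exact_mod_cast D.big hp hq
  have hx : |jac k p| ≤ 1 := by
    rcases adm_jac k p with e | e | e <;> simp [e]
  have hs : (100 : ℝ) ≤ √p := Real.le_sqrt_of_sq_le (by linarith)
  have c1 : |D.lam p * jac k p / √p| ≤ 1 / 50 := by
    rw [abs_div, abs_mul, abs_of_pos (show (0 : ℝ) < √p by linarith), div_le_iff₀ (by linarith)]
    have := mul_le_mul (D.lam_le p hp) hx (abs_nonneg _) zero_le_two
    linarith
  have c2 : |jac k p ^ 2 / p| ≤ 1 / 200 := by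
    rw [abs_div, abs_pow, abs_of_pos (show (0 : ℝ) < p by linarith), div_le_iff₀ (by linarith)]
    have := pow_le_one₀ (abs_nonneg _) hx (n := 2)
    linarith
  change tw D (jac k) 5 L t = _ at h0
  rw [h0, add_sub_assoc]
  refine (norm_add_le _ _).trans (add_le_add le_rfl ((norm_sub_le _ _).trans (add_le_add ?_ ?_)))
  · rw [norm_mul, norm_real, Real.norm_eq_abs]
    exact mul_le_mul_of_nonneg_right c1 (norm_nonneg _)
  · rw [norm_mul, norm_real, Real.norm_eq_abs]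
    exact mul_le_mul_of_nonneg_right c2 (norm_nonneg _)

theorem kinf_inj {p p' : ℕ} (hp : p.Prime) (hp' : p'.Prime) {k k' : ℤ} (hk' : Squarefree k')
    (e : k * (p : ℤ) ^ 2 = k' * (p' : ℤ) ^ 2) : p = p' := by
  by_contra h
  have h1 : IsCoprime ((p : ℤ) ^ 2) ((p' : ℤ) ^ 2) :=
    IsCoprime.pow (Nat.isCoprime_iff_coprime.2 ((Nat.coprime_primes hp hp').2 h))
  have h2 : (p : ℤ) * p ∣ k' := by
    rw [← sq]
    exact h1.dvd_of_dvd_mul_right ⟨k, by rw [← e, mul_comm]⟩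
  have h3 := Int.isUnit_iff_natAbs_eq.1 (hk' _ h2)
  rw [Int.natAbs_natCast] at h3
  exact hp.one_lt.ne' h3

/-- For each `p ∈ S`: `nrm ≤ n p + (2/√p + 1/p) G`, `p ≥ 10000`, `n p = nrm (tw (jac (k p²)))`; the map
`(p, k) ↦ k p²` is injective, so `∑ (n p)² ≤ nrm (allm ..)²`; take the minimal `n p`. -/
theorem infl (D : Data) {M P G L t : ℝ} (hM : 1 ≤ M) (hP : 1 ≤ P) {S : Finset ℕ} (hne : S.Nonempty)
    (hS : ∀ p ∈ S, p.Prime ∧ ¬p ∣ D.q ∧ (p : ℝ) ≤ P)
    (hG : ∀ L', L' ≤ L → nrm (sqf M) (fun k => tw D (jac k) 5 L' t) ≤ G) :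
    nrm (sqf M) (fun k => tw D (jac k) 5 L t) ≤
      nrm (allm (M * P ^ 2)) (fun m => tw D (jac m) 5 L t) / √(S.card) + G / 40 := by
  have hM0 : 0 ≤ M := by linarith
  have hc : (0 : ℝ) < S.card := by exact_mod_cast hne.card_pos
  have h1 : ∑ p ∈ S, nrm (sqf M) (fun k => tw D (jac (k * (p : ℤ) ^ 2)) 5 L t) ^ 2 ≤
      ∑ _p ∈ S, (nrm (allm (M * P ^ 2)) (fun m => tw D (jac m) 5 L t) / √(S.card)) ^ 2 := by
    rw [sum_const, nsmul_eq_mul, div_pow, Real.sq_sqrt hc.le, mul_div_cancel₀ _ hc.ne', nrm_sq]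
    simp only [nrm_sq]
    rw [← sum_product' (s := S) (t := sqf M)
      (f := fun (p : ℕ) (k : ℤ) => ‖tw D (jac (k * (p : ℤ) ^ 2)) 5 L t‖ ^ 2),
      ← sum_image (s := S ×ˢ sqf M) (g := fun z : ℕ × ℤ => z.2 * (z.1 : ℤ) ^ 2)
        (f := fun m => ‖tw D (jac m) 5 L t‖ ^ 2)]
    · refine sum_le_sum_of_subset_of_nonneg (fun m hm => ?_) fun _ _ _ => sq_nonneg _
      obtain ⟨z, hz, rfl⟩ := mem_image.1 hm
      rw [mem_product, mem_sqf hM0] at hz
      rw [mem_allm (by positivity)]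
      push_cast
      rw [abs_mul, abs_pow, Nat.abs_cast]
      exact mul_le_mul hz.2.1 (pow_le_pow_left₀ (Nat.cast_nonneg _) (hS _ hz.1).2.2 2)
        (by positivity) hM0
    · intro z hz z' hz' e
      rw [mem_coe, mem_product, mem_sqf hM0] at hz hz'
      have e1 := kinf_inj (hS _ hz.1).1 (hS _ hz'.1).1 hz'.2.2 e
      refine Prod.ext e1 ?_
      simp only [← e1] at e
      exact mul_right_cancel₀ (pow_ne_zero 2 (by exact_mod_cast (hS _ hz.1).1.ne_zero)) e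
  obtain ⟨p, hp, h2⟩ := exists_le_of_sum_le hne h1
  have h3 := le_of_pow_le_pow_left₀ two_ne_zero
    (div_nonneg (nrm_nonneg _ _) (Real.sqrt_nonneg _)) h2
  have hl : 0 ≤ Real.log p := Real.log_natCast_nonneg p
  have h4 := hG (L - Real.log p) (by linarith)
  have h5 := hG (L - 2 * Real.log p) (by linarith)
  have h6 : nrm (sqf M) (fun k => tw D (jac k) 5 L t) ≤
      nrm (sqf M) (fun k => tw D (jac (k * (p : ℤ) ^ 2)) 5 L t) +
        nrm (sqf M) fun k => ((1 / 50 * ‖tw D (jac k) 5 (L - Real.log p) t‖ +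
          1 / 200 * ‖tw D (jac k) 5 (L - 2 * Real.log p) t‖ : ℝ) : ℂ) := by
    refine nrm_add_le fun k _ => ?_
    rw [norm_real, Real.norm_of_nonneg (by positivity)]
    exact kinf_tw D (hS p hp).1 (hS p hp).2.1 k L t
  have h7 : (nrm (sqf M) fun k => ((1 / 50 * ‖tw D (jac k) 5 (L - Real.log p) t‖ +
          1 / 200 * ‖tw D (jac k) 5 (L - 2 * Real.log p) t‖ : ℝ) : ℂ)) ≤
      nrm (sqf M) (fun k => (1 / 50 : ℝ) * tw D (jac k) 5 (L - Real.log p) t) +
        nrm (sqf M) fun k => (1 / 200 : ℝ) * tw D (jac k) 5 (L - 2 * Real.log p) t := by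
    refine nrm_add_le fun k _ => ?_
    rw [norm_real, Real.norm_of_nonneg (by positivity), norm_mul, norm_mul, norm_real, norm_real,
      Real.norm_of_nonneg (by norm_num), Real.norm_of_nonneg (by norm_num)]
  have h8 : nrm (sqf M) (fun k => (1 / 50 : ℝ) * tw D (jac k) 5 (L - Real.log p) t) ≤
      1 / 50 * nrm (sqf M) fun k => tw D (jac k) 5 (L - Real.log p) t :=
    nrm_le_mul (by norm_num) fun k _ => by
      rw [norm_mul, norm_real, Real.norm_of_nonneg (by norm_num)]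
  have h9 : nrm (sqf M) (fun k => (1 / 200 : ℝ) * tw D (jac k) 5 (L - 2 * Real.log p) t) ≤
      1 / 200 * nrm (sqf M) fun k => tw D (jac k) 5 (L - 2 * Real.log p) t :=
    nrm_le_mul (by norm_num) fun k _ => by
      rw [norm_mul, norm_real, Real.norm_of_nonneg (by norm_num)]
  linarith

end Pool.Agent.Lib.MP_03e5d0_nt
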