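import Pool.Agent.Lib.MP_03e5d0_nt.KDef

set_option autoImplicit false

noncomputable section

namespace Pool.Agent.Lib.MP_03e5d0_nt

open Complex Finset MeasureTheory
open scoped NumberTheorySymbols Real ContDiff

/-! The functional equation in terms of the base weight. -/

/-- `sm D (jac k) (om ξ (· - L)) = F k z / N` for `N = exp L`, `z = (ξ + I) / (2 π N)`. -/
theorem sm_om_eq (D : Data) (k : ℤ) (ξ L : ℝ) :
    (sm D (jac k) fun y => om ξ (y - L)) =
      D.F k ((ξ + I) / (2 * π * Real.exp L)) / Real.exp L := by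
  rw [sm, Data.F, ← tsum_div_const]
  refine tsum_congr fun n => ?_
  rcases Nat.eq_zero_or_pos n with rfl | hn
  · simp [Data.co, D.lam0]
  have h1 : (0 : ℝ) < n := by exact_mod_cast hn
  have h2 : (√(n : ℝ) : ℂ) ≠ 0 := ofReal_ne_zero.2 (Real.sqrt_pos.2 h1).ne'
  have h3 : (√(n : ℝ) : ℂ) * √(n : ℝ) = n := by
    rw [← ofReal_mul, Real.mul_self_sqrt h1.le, ofReal_natCast]
  have h4 : ((Real.exp L : ℝ) : ℂ) ≠ 0 := ofReal_ne_zero.2 (Real.exp_pos L).ne'
  have hp : (π : ℂ) ≠ 0 := ofReal_ne_zero.mpr Real.pi_ne_zero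
  have h5 : 2 * π * I * n * ((ξ + I) / (2 * π * Real.exp L)) =
      -((1 - I * ξ) * ((n : ℝ) / Real.exp L : ℝ)) := by
    rw [ofReal_div, ofReal_natCast]
    field_simp
    linear_combination (n : ℂ) * I_sq
  rw [om, Data.co, cm_jac k hn.ne', Real.exp_sub, Real.exp_log h1, h5]
  generalize cexp _ = E
  rw [ofReal_div, ofReal_div, ofReal_mul _ √(n : ℝ), ofReal_natCast]
  generalize (√(n : ℝ) : ℂ) = r at h2 h3
  rw [← h3]
  field_simp

/-- Apply `Dual` at `z' = (-ξ + I) / (2 π N')`, `N' = C (1+ξ²) / (4 π² N)`: `-1/(C z') = z`,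
`n z' = (-ξ + I) / (2 π (N'/n))`, `C ‖z'‖² N' / N = 1`. The term `n = 0` vanishes. -/
theorem fe_om (D : Data) {k : ℤ} {C : ℝ} {γ gb : ℕ → ℝ} (hC : 0 < C) (h : D.Dual k C γ)
    (hγ : ∀ n, |γ n| ≤ gb n) (ξ L : ℝ)
    (hs : Summable fun n : ℕ => gb n * ‖sm D (jac k) fun y =>
      om (-ξ) (y - (Real.log (C * (1 + ξ ^ 2) / (4 * π ^ 2)) - L - Real.log n))‖) :
    ‖sm D (jac k) fun y => om ξ (y - L)‖ ≤ ∑' n : ℕ, gb n * ‖sm D (jac k) fun y =>
      om (-ξ) (y - (Real.log (C * (1 + ξ ^ 2) / (4 * π ^ 2)) - L - Real.log n))‖ := by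
  set L' := Real.log (C * (1 + ξ ^ 2) / (4 * π ^ 2)) - L with hL'
  have hp : (π : ℂ) ≠ 0 := ofReal_ne_zero.mpr Real.pi_ne_zero
  have hN := Real.exp_pos L
  have hN' := Real.exp_pos L'
  have e1 : Real.exp L' = C * (1 + ξ ^ 2) / (4 * π ^ 2) / Real.exp L := by
    rw [hL', Real.exp_sub, Real.exp_log (by positivity)]
  have e2 : 4 * π ^ 2 * Real.exp L * Real.exp L' = C * (1 + ξ ^ 2) := by
    rw [e1]
    field_simp
  have e3 : (4 * π ^ 2 * Real.exp L * Real.exp L' : ℂ) = C * (1 + ξ ^ 2) := by exact_mod_cast e2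
  have c1 : ((Real.exp L : ℝ) : ℂ) ≠ 0 := ofReal_ne_zero.2 hN.ne'
  have c2 : ((Real.exp L' : ℝ) : ℂ) ≠ 0 := ofReal_ne_zero.2 hN'.ne'
  have c3 : (C : ℂ) ≠ 0 := ofReal_ne_zero.2 hC.ne'
  have c4 : ((-ξ : ℝ) : ℂ) + I ≠ 0 := fun h0 => by simpa using congrArg im h0
  set z : ℂ := ((-ξ : ℝ) + I) / (2 * π * Real.exp L') with hz
  have z0 : z ≠ 0 := div_ne_zero c4 (mul_ne_zero (mul_ne_zero two_ne_zero hp) c2)
  have z1 : 0 < z.im := by
    rw [hz, show (2 * π * Real.exp L' : ℂ) = ((2 * π * Real.exp L' : ℝ) : ℂ) by push_cast; ring,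
      div_ofReal_im]
    simp only [add_im, ofReal_im, I_im, zero_add]
    positivity
  have z2 : -1 / (C * z) = (ξ + I) / (2 * π * Real.exp L) := by
    rw [hz]
    field_simp
    rw [ofReal_neg]
    linear_combination -e3 - C * I_sq
  have z3 : ‖z‖ ^ 2 = (1 + ξ ^ 2) / (2 * π * Real.exp L') ^ 2 := by
    rw [hz, norm_div, div_pow, Complex.sq_norm, normSq_apply,
      show (2 * π * Real.exp L' : ℂ) = ((2 * π * Real.exp L' : ℝ) : ℂ) by push_cast; ring,
      norm_real, Real.norm_eq_abs, sq_abs]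
    congr 1
    simp
    ring
  have z4 : ‖C * z ^ 2 / Real.exp L‖ * Real.exp L' = 1 := by
    rw [norm_div, norm_mul, norm_pow, z3, norm_real, norm_real, Real.norm_eq_abs, Real.norm_eq_abs,
      abs_of_pos hC, abs_of_pos hN]
    field_simp
    linear_combination -e2
  have h1 := (h z z1).mul_left (C * z ^ 2 / Real.exp L)
  have h2 : C * z ^ 2 / Real.exp L * (D.F k (-1 / (C * z)) / (C * z ^ 2)) =
      sm D (jac k) fun y => om ξ (y - L) := by
    rw [sm_om_eq, z2]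
    field_simp
  rw [h2] at h1
  refine h1.norm_le_of_bounded hs.hasSum fun n => ?_
  have g0 : 0 ≤ gb n := (abs_nonneg _).trans (hγ n)
  rcases Nat.eq_zero_or_pos n with rfl | hn
  · simp only [Nat.cast_zero, mul_zero, zero_mul, norm_zero]
    positivity
  have n1 : (0 : ℝ) < n := by exact_mod_cast hn
  have n2 : (n : ℂ) ≠ 0 := by exact_mod_cast hn.ne'
  have h3 : (γ n : ℂ) * n * D.F k (n * z) =
      (Real.exp L' : ℝ) * (γ n * sm D (jac k) fun y => om (-ξ) (y - (L' - Real.log n))) := by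
    rw [sm_om_eq, Real.exp_sub L', Real.exp_log n1, ofReal_div, ofReal_natCast,
      show (((-ξ : ℝ) : ℂ) + I) / (2 * π * ((Real.exp L' : ℝ) / n)) = n * z by
        rw [hz]; field_simp]
    field_simp
  rw [h3, norm_mul, norm_mul, norm_mul, norm_real (Real.exp L'), norm_real (γ n), Real.norm_eq_abs,
    Real.norm_eq_abs, abs_of_pos hN', ← mul_assoc, z4, one_mul]
  exact mul_le_mul_of_nonneg_right (hγ n) (norm_nonneg _)

end Pool.Agent.Lib.MP_03e5d0_nt
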