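import Pool.Agent.Lib.MP_03e5d0_nt.KBT
import Pool.Agent.Lib.MP_03e5d0_nt.KFE

set_option autoImplicit false

noncomputable section

namespace Pool.Agent.Lib.MP_03e5d0_nt

open Complex Finset MeasureTheory
open scoped NumberTheorySymbols Real ContDiff

/-! Long sums are reduced to short sums by the functional equation. -/

theorem kred_exp {C₀ M L ξ : ℝ} (hC : 0 < C₀) (hM : 1 ≤ M) (hL : M < Real.exp L) (n : ℕ) :
    1 + Real.exp (Real.log (C₀ * M ^ 2 * (1 + ξ ^ 2) / (4 * π ^ 2)) - L - Real.log n) / M ≤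
      (1 + C₀) * (1 + |ξ|) ^ 2 := by
  have hπ : 1 ≤ 4 * π ^ 2 := by nlinarith [Real.pi_gt_three]
  have h0 : 0 < C₀ * M ^ 2 * (1 + ξ ^ 2) := by positivity
  have h1 : Real.exp (Real.log (C₀ * M ^ 2 * (1 + ξ ^ 2) / (4 * π ^ 2)) - L - Real.log n) ≤
      C₀ * M ^ 2 * (1 + ξ ^ 2) / M := by
    refine (Real.exp_le_exp.2 (sub_le_self _ (Real.log_natCast_nonneg n))).trans ?_
    rw [Real.exp_sub, Real.exp_log (by positivity)]
    exact div_le_div₀ h0.le (div_le_self h0.le hπ) (by linarith) hL.le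
  have h2 : Real.exp (Real.log (C₀ * M ^ 2 * (1 + ξ ^ 2) / (4 * π ^ 2)) - L - Real.log n) / M ≤
      C₀ * (1 + ξ ^ 2) := by
    refine (div_le_div_of_nonneg_right h1 (by linarith)).trans (le_of_eq ?_)
    field_simp
  have h3 : 1 + ξ ^ 2 ≤ (1 + |ξ|) ^ 2 := by nlinarith [abs_nonneg ξ, sq_abs ξ]
  have h4 : 1 ≤ (1 + |ξ|) ^ 2 := by nlinarith [sq_nonneg ξ]
  nlinarith

theorem kred_log {c₀ C₀ C M k ξ : ℝ} (hc : 0 < c₀) (hC : 0 < C₀) (hM : 1 ≤ M) (h1 : M / 2 ≤ |k|)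
    (h2 : |k| ≤ M) (h3 : c₀ * k ^ 2 ≤ C) (h4 : C ≤ C₀ * k ^ 2) :
    0 < C ∧ Real.log (C₀ * M ^ 2 * (1 + ξ ^ 2) / (4 * π ^ 2)) - Real.log (4 * C₀ / c₀) ≤
      Real.log (C * (1 + ξ ^ 2) / (4 * π ^ 2)) ∧
      Real.log (C * (1 + ξ ^ 2) / (4 * π ^ 2)) ≤
        Real.log (C₀ * M ^ 2 * (1 + ξ ^ 2) / (4 * π ^ 2)) := by
  have a1 : M ^ 2 / 4 ≤ k ^ 2 := by nlinarith [sq_abs k]
  have a2 : k ^ 2 ≤ M ^ 2 := by nlinarith [sq_abs k, abs_nonneg k]
  have a3 : c₀ * (M ^ 2 / 4) ≤ C := (mul_le_mul_of_nonneg_left a1 hc.le).trans h3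
  have a4 : C ≤ C₀ * M ^ 2 := h4.trans (mul_le_mul_of_nonneg_left a2 hC.le)
  have a5 : 0 < C := lt_of_lt_of_le (by positivity) a3
  have hπ := Real.pi_pos
  refine ⟨a5, ?_, Real.log_le_log (by positivity) (by gcongr)⟩
  rw [← Real.log_div (by positivity) (by positivity)]
  refine Real.log_le_log (by positivity) (le_trans (le_of_eq ?_)
    (div_le_div_of_nonneg_right (mul_le_mul_of_nonneg_right a3 (by positivity)) (by positivity)))
  field_simp

/-- One shell. If `exp L ≤ M` the hypothesis suffices. Otherwise `tb` with `j = A + 6`, `nrm_integral`,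
`fe_om`, `nrm_tsum`, `bt` with `L* = log (C₀ M² (1+ξ²)/(4π²)) - L - log n`, `ρ = log (4 C₀/c₀)`;
`exp L* / M ≤ C₀ (1+ξ²)`. -/
theorem red_shell (D : Data) (hFE : D.FE) (A : ℕ) : ∃ C : ℝ, 0 ≤ C ∧ ∀ (T : Finset ℤ) (G M : ℝ),
    0 ≤ G → 1 ≤ M → (∀ k ∈ T, Squarefree k ∧ M / 2 ≤ |(k : ℝ)| ∧ |(k : ℝ)| ≤ M) →
    (∀ L t, nrm T (fun k => tw D (jac k) 5 L t) ≤ G * (1 + |t|) ^ A * (1 + Real.exp L / M)) →
    ∀ L t, nrm T (fun k => tw D (jac k) 5 L t) ≤ C * G * (1 + |t|) ^ (A + 6) := by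
  obtain ⟨c₀, C₀, -, gb, -, hc, -, hg, hs, hk, -⟩ := hFE
  have hC : 0 < C₀ := by
    obtain ⟨C, -, h1, h2, -⟩ := hk 1 squarefree_one
    norm_num at h1 h2
    linarith
  have hs' : Summable gb := Summable.of_nonneg_of_le hg
    (fun n => le_mul_of_one_le_right (hg n) (by linarith [Real.log_natCast_nonneg n])) hs
  have hS : 0 ≤ ∑' n, gb n := tsum_nonneg hg
  obtain ⟨Cb, hCb, hb⟩ := bt A (Real.log (4 * C₀ / c₀))
  obtain ⟨Ct, hCt, ht⟩ := tb (A + 6) (by omega)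
  choose! Ck γ k1 k2 k3 k4 using hk
  refine ⟨2 + 2 * (Ct * ((∑' n, gb n) * (Cb * (1 + C₀)))), by positivity,
    fun T G M hG hM hT h L t => ?_⟩
  have t1 : 1 ≤ 1 + |t| := by linarith [abs_nonneg t]
  have p0 : 0 ≤ G * (1 + |t|) ^ (A + 6) := by positivity
  have p1 : 0 ≤ 2 * (Ct * ((∑' n, gb n) * (Cb * (1 + C₀)))) * (G * (1 + |t|) ^ (A + 6)) := by
    positivity
  rcases le_or_gt (Real.exp L) M with hL | hL
  · have a1 : Real.exp L / M ≤ 1 := (div_le_one (by linarith)).2 hL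
    have a2 : G * (1 + |t|) ^ A ≤ G * (1 + |t|) ^ (A + 6) :=
      mul_le_mul_of_nonneg_left (pow_le_pow_right₀ t1 (by omega)) hG
    have a3 : G * (1 + |t|) ^ A * (1 + Real.exp L / M) ≤ G * (1 + |t|) ^ (A + 6) * 2 :=
      mul_le_mul a2 (by linarith) (by positivity) p0
    linarith [h L t]
  have key : ∀ ξ, nrm T (fun k => sm D (jac k) fun y => om ξ (y - L)) ≤
      (∑' n, gb n) * (Cb * (1 + C₀)) * G * (1 + |ξ|) ^ (A + 4) := by
    intro ξ
    have b1 : ∀ n : ℕ, nrm T (fun k => sm D (jac k) fun y => om (-ξ)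
        (y - (Real.log (Ck k * (1 + ξ ^ 2) / (4 * π ^ 2)) - L - Real.log n))) ≤
        Cb * (1 + C₀) * G * (1 + |ξ|) ^ (A + 4) := by
      intro n
      refine (hb D ℤ T jac G M (-ξ)
        (Real.log (C₀ * M ^ 2 * (1 + ξ ^ 2) / (4 * π ^ 2)) - L - Real.log n) _ hG (by linarith)
        (fun k _ => adm_jac k) h fun k hk => ?_).trans ?_
      · obtain ⟨u1, u2, u3⟩ := hT k hk
        obtain ⟨-, v1, v2⟩ := kred_log (ξ := ξ) hc hC hM u2 u3 (k1 k u1) (k2 k u1)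
        constructor <;> linarith
      · rw [abs_neg]
        refine (mul_le_mul_of_nonneg_left (kred_exp hC hM hL n) (by positivity)).trans
          (le_of_eq ?_)
        ring
    have b2 : Summable fun n => gb n * (Cb * (1 + C₀) * G * (1 + |ξ|) ^ (A + 4)) :=
      hs'.mul_right _
    refine (nrm_tsum hg (fun k hk => ?_) b1 b2).trans (le_of_eq ?_)
    · obtain ⟨u1, u2, u3⟩ := hT k hk
      refine fe_om D (kred_log (ξ := ξ) hc hC hM u2 u3 (k1 k u1) (k2 k u1)).1 (k4 k u1) (k3 k u1)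
        ξ L (Summable.of_nonneg_of_le (fun n => mul_nonneg (hg n) (norm_nonneg _)) (fun n => ?_) b2)
      exact mul_le_mul_of_nonneg_left ((tnrm_single hk fun k => sm D (jac k) fun y => om (-ξ)
        (y - (Real.log (Ck k * (1 + ξ ^ 2) / (4 * π ^ 2)) - L - Real.log n))).trans (b1 n)) (hg n)
    · rw [tsum_mul_right]
      ring
  have e : ∀ ξ : ℝ, Ct * (1 + |t|) ^ (A + 6) / (1 + |ξ|) ^ (A + 6) *
      ((∑' n, gb n) * (Cb * (1 + C₀)) * G * (1 + |ξ|) ^ (A + 4)) =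
      Ct * ((∑' n, gb n) * (Cb * (1 + C₀))) * (G * (1 + |t|) ^ (A + 6)) * (1 / (1 + |ξ|) ^ 2) := by
    intro ξ
    have : 0 < 1 + |ξ| := by positivity
    field_simp
    ring
  have := nrm_integral (T := T) (a := fun k => tw D (jac k) 5 L t)
    (env := fun ξ => Ct * (1 + |t|) ^ (A + 6) / (1 + |ξ|) ^ (A + 6)) (fun ξ => by positivity)
    (continuous_const.div (by fun_prop) fun ξ => by positivity)
    (fun k _ => continuous_sm_om D (adm_jac k) L) (fun k _ => ht D (jac k) (adm_jac k) L t) key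
    (by simp only [e]; exact integrable_inv_sq.const_mul _)
  simp only [e] at this
  rw [integral_const_mul, integral_inv_sq] at this
  linarith

/-- Dyadic shells `M / 2^i ≥ 1`, `nrm_biUnion`, `∑ 2^(-i/2) ≤ 4`. -/
theorem red_all (D : Data) (hFE : D.FE) (A : ℕ) : ∃ C : ℝ, 0 ≤ C ∧ ∀ Θ : ℝ → ℝ,
    (∀ M, 1 ≤ M → 0 ≤ Θ M) → (∀ M M', 1 ≤ M → M ≤ M' → Θ M ≤ Θ M') → WB D A Θ →
    ∀ M, 1 ≤ M → ∀ L t, nrm (sqf M) (fun k => tw D (jac k) 5 L t) ≤
      C * Θ M * √M * (1 + |t|) ^ (A + 6) := by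
  classical
  obtain ⟨C, hC, h⟩ := red_shell D hFE A
  refine ⟨4 * C, by positivity, fun Θ h0 h1 hW M hM L t => ?_⟩
  have hM0 : 0 < M := by linarith
  refine (nrm_biUnion ((range ⌈M⌉₊).filter fun i => 1 ≤ M / 2 ^ i)
    (fun i => (sqf (M / 2 ^ i)).filter fun k : ℤ => M / 2 ^ i / 2 ≤ |(k : ℝ)|) fun k hk => ?_).trans ?_
  · obtain ⟨k1, k2⟩ := (mem_sqf hM0.le).1 hk
    have k3 : (1 : ℝ) ≤ |(k : ℝ)| := by exact_mod_cast Int.one_le_abs k2.ne_zero
    have k4 : (0 : ℝ) < |(k : ℝ)| := by linarith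
    obtain ⟨i, i1, i2⟩ := exists_nat_pow_near ((one_le_div k4).2 k1) one_lt_two
    have p : (0 : ℝ) < 2 ^ i := by positivity
    have i3 : |(k : ℝ)| ≤ M / 2 ^ i := by
      rw [le_div_iff₀ k4] at i1
      rw [le_div_iff₀ p]
      linarith
    have i4 : (2 : ℝ) ^ i ≤ M := (one_le_div p).1 (k3.trans i3)
    refine ⟨i, mem_filter.2 ⟨mem_range.2 (Nat.lt_ceil.2 (lt_of_lt_of_le ?_ i4)), k3.trans i3⟩,
      mem_filter.2 ⟨(mem_sqf (by positivity)).2 ⟨i3, k2⟩, ?_⟩⟩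
    · exact_mod_cast Nat.lt_two_pow_self
    · rw [div_lt_iff₀ k4, pow_succ] at i2
      rw [div_div, div_le_iff₀ (by positivity)]
      linarith
  have p0 : 0 ≤ C * Θ M * √M * (1 + |t|) ^ (A + 6) := by
    have := h0 M hM
    positivity
  refine (sum_le_sum (g := fun i => C * Θ M * √M * (1 + |t|) ^ (A + 6) * (3 / 4) ^ i)
    fun i hi => ?_).trans ?_
  · have hi1 := (mem_filter.1 hi).2
    have p : (1 : ℝ) ≤ 2 ^ i := one_le_pow₀ one_le_two
    have g0 := h0 _ hi1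
    refine (h _ (Θ (M / 2 ^ i) * √(M / 2 ^ i)) (M / 2 ^ i) (by positivity) hi1 (fun k hk => ?_)
      (fun L t => (nrm_subset (filter_subset _ _)).trans (hW _ hi1 L t)) L t).trans ?_
    · obtain ⟨k1, k2⟩ := mem_filter.1 hk
      obtain ⟨k3, k4⟩ := (mem_sqf (by positivity)).1 k1
      exact ⟨k4, k2, k3⟩
    · have a1 := h1 _ M hi1 (div_le_self hM0.le p)
      have a2 : √(M / 2 ^ i) ≤ √M * (3 / 4) ^ i := by
        refine Real.sqrt_le_iff.2 ⟨by positivity, ?_⟩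
        rw [mul_pow, Real.sq_sqrt hM0.le, ← pow_mul, mul_comm i 2, pow_mul, div_eq_mul_inv,
          ← inv_pow]
        exact mul_le_mul_of_nonneg_left (pow_le_pow_left₀ (by norm_num) (by norm_num) i) hM0.le
      have a3 := mul_le_mul a1 a2 (Real.sqrt_nonneg _) (h0 M hM)
      refine (mul_le_mul_of_nonneg_right (mul_le_mul_of_nonneg_left a3 hC)
        (by positivity)).trans (le_of_eq ?_)
      ring
  · rw [← mul_sum]
    have a : ∑ i ∈ (range ⌈M⌉₊).filter (fun i => 1 ≤ M / 2 ^ i), (3 / 4 : ℝ) ^ i ≤ 4 := by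
      refine ((summable_geometric_of_lt_one (by norm_num) (by norm_num)).sum_le_tsum _
        fun i _ => by positivity).trans (le_of_eq ?_)
      rw [tsum_geometric_of_lt_one (by norm_num) (by norm_num)]
      norm_num
    refine (mul_le_mul_of_nonneg_left a p0).trans (le_of_eq ?_)
    ring

end Pool.Agent.Lib.MP_03e5d0_nt
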