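import Pool.Agent.Lib.MP_03e5d0_nt.KAll
import Pool.Agent.Lib.MP_03e5d0_nt.KInf
import Pool.Agent.Lib.MP_03e5d0_nt.KRed

set_option autoImplicit false

noncomputable section

namespace Pool.Agent.Lib.MP_03e5d0_nt

open Complex Finset MeasureTheory
open scoped NumberTheorySymbols Real ContDiff

/-! The recursion. -/

theorem kli_pos {R M : ℝ} (hR : 1 ≤ R) (hM : 1 ≤ M) : 1 ≤ ll M * (1 + M / R) := by
  have h1 := one_le_ll hM
  have h2 : 0 ≤ M / R := by positivity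
  nlinarith

theorem kli_mono {R M M' : ℝ} (hR : 1 ≤ R) (hM : 1 ≤ M) (h : M ≤ M') :
    ll M * (1 + M / R) ≤ ll M' * (1 + M' / R) := by
  have h1 := one_le_ll hM
  have h2 := ll_mono hM h
  gcongr
  linarith

theorem kli_grow {R M T : ℝ} (hR : 1 ≤ R) (hM : 1 ≤ M) (hT : 1 ≤ T) :
    ll (M * T) * (1 + M * T / R) ≤ ll M * (1 + M / R) * T ^ 2 := by
  have h1 := one_le_ll hM
  have h2 := ll_mul hM hT
  have h3 : 1 + M * T / R ≤ (1 + M / R) * T := by
    have : M * T / R = M / R * T := by ring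
    rw [this]; nlinarith
  calc _ ≤ ll M * T * ((1 + M / R) * T) :=
        mul_le_mul h2 h3 (by positivity) (by positivity)
    _ = _ := by ring

theorem kli_log {M P L : ℝ} (hM : 1 ≤ M) (hP : 1 ≤ P) (hL : Real.exp L ≤ M * P) :
    1 + Real.log (1 + max 1 (L + 7)) ≤ 9 * P * ll M := by
  have hm := Real.log_nonneg hM
  have hp := Real.log_nonneg hP
  have hp' : Real.log P ≤ P - 1 := Real.log_le_sub_one_of_pos (by linarith)
  have h1 : L ≤ Real.log M + Real.log P := by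
    rw [← Real.log_mul (by linarith) (by linarith)]
    exact (Real.le_log_iff_exp_le (by positivity)).2 hL
  have h2 : 1 + max 1 (L + 7) ≤ (1 + Real.log M) * (8 + Real.log P) := by
    have : max 1 (L + 7) ≤ 7 + Real.log M + Real.log P := max_le (by linarith) (by linarith)
    nlinarith [mul_nonneg hm hp]
  have h3 : Real.log (1 + max 1 (L + 7)) ≤ Real.log (1 + Real.log M) + Real.log (8 + Real.log P) := by
    rw [← Real.log_mul (by linarith) (by linarith)]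
    exact Real.log_le_log (by have := le_max_left 1 (L + 7); linarith) h2
  have h4 : Real.log (8 + Real.log P) ≤ 8 + Real.log P - 1 :=
    Real.log_le_sub_one_of_pos (by linarith)
  have h5 := one_le_ll hM
  have h6 : ll M = 1 + Real.log (1 + Real.log M) := rfl
  nlinarith [mul_nonneg (sub_nonneg.2 hP) (sub_nonneg.2 h5)]

theorem kli_half {M L : ℝ} (hM : 1 ≤ M) : Real.exp (L / 2) ≤ √M * (1 + Real.exp L / M) := by
  have h0 : 0 < M := by linarith
  have h1 : Real.exp L = Real.exp (L / 2) ^ 2 := by rw [← Real.exp_nat_mul]; congr 1; push_cast; ring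
  have h2 := Real.sqrt_pos.2 h0
  have h3 : √M * (1 + Real.exp L / M) = √M + Real.exp (L / 2) ^ 2 / √M := by
    rw [h1]; field_simp; rw [Real.sq_sqrt h0.le]
  rw [h3, ← sub_le_iff_le_add', le_div_iff₀ h2]
  nlinarith [sq_nonneg (Real.exp (L / 2) - √M), sq_nonneg (Real.exp (L / 2)), sq_nonneg √M]

theorem kli_exp {M P L : ℝ} (hM : 1 ≤ M) (hP : 1 ≤ P) (hL : Real.exp L ≤ M * P) :
    1 + Real.exp (2 * L + 12) / (M * P ^ 2) ≤ M * (2 * Real.exp 12) := by
  have he : 1 ≤ Real.exp 12 := Real.one_le_exp (by norm_num)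
  have h4 : Real.exp (2 * L + 12) / (M * P ^ 2) ≤ M * Real.exp 12 := by
    rw [div_le_iff₀ (by positivity), Real.exp_add, two_mul, Real.exp_add]
    have h5 : Real.exp L * Real.exp L ≤ M * P * (M * P) :=
      mul_le_mul hL hL (Real.exp_pos _).le (by positivity)
    nlinarith
  nlinarith

theorem kli_diag {M R P₁ s L : ℝ} (j e : ℕ) (hM : 1 ≤ M) (hR : 1 ≤ R) (hP : 1 ≤ P₁ * s ^ e)
    (hs : 1 ≤ s) (hL : Real.exp L ≤ M * (P₁ * s ^ e)) :
    √(M * (P₁ * s ^ e) ^ 2) * s ^ j * (1 + Real.log (1 + max 1 (L + 7))) ≤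
      9 * P₁ ^ 2 * (ll M * (1 + M / R) * (√M * s ^ (j + 2 * e) * (1 + Real.exp L / M))) := by
  have hM0 : 0 < M := by linarith
  have h5 := kli_log hM hP hL
  have h0 := one_le_ll hM
  have h6 : ll M ≤ ll M * (1 + M / R) := by
    have h7 : 0 ≤ M / R := by positivity
    nlinarith
  have h8 : 1 ≤ 1 + Real.exp L / M := by
    have : 0 ≤ Real.exp L / M := by positivity
    linarith
  rw [Real.sqrt_mul hM0.le, Real.sqrt_sq (by linarith)]
  calc _ ≤ √M * (P₁ * s ^ e) * s ^ j * (9 * (P₁ * s ^ e) * (ll M * (1 + M / R))) := by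
        gcongr
        exact h5.trans (by gcongr)
    _ = 9 * P₁ ^ 2 * (ll M * (1 + M / R) * (√M * s ^ (j + 2 * e) * 1)) := by ring
    _ ≤ _ := by gcongr

theorem kli_off {M s L C₁ C₂ U V N : ℝ} (A c : ℕ) (hM : 1 ≤ M) (hs : 1 ≤ s) (h₁ : 0 ≤ C₁)
    (h₂ : 0 ≤ C₂) (hU : 0 ≤ U) (hV0 : 0 ≤ V) (hV : V ≤ U * (2 * Real.exp 12) ^ 2)
    (hN : 16 * Real.exp 12 ^ 2 * C₂ * C₁ * s ^ (c + 6) ≤ N) :
    C₂ * (s ^ (A + 6 + c) * Real.exp (L / 2) * (C₁ * V)) ≤
      U * (√M * s ^ A * (1 + Real.exp L / M)) / 4 * N := by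
  have h6 := kli_half (L := L) hM
  calc _ ≤ C₂ * (s ^ (A + 6 + c) * (√M * (1 + Real.exp L / M)) *
        (C₁ * (U * (2 * Real.exp 12) ^ 2))) := by gcongr
    _ = U * (√M * s ^ A * (1 + Real.exp L / M)) / 4 *
        (16 * Real.exp 12 ^ 2 * C₂ * C₁ * s ^ (c + 6)) := by ring
    _ ≤ _ := by gcongr

theorem kli_long {M s L C₁ P₁ U : ℝ} (A e : ℕ) (he : 6 ≤ e) (hM : 1 ≤ M) (hs : 1 ≤ s) (h₁ : 0 ≤ C₁)
    (hP₁ : 2 * C₁ ≤ P₁) (hU : 0 ≤ U) (hL : M * (P₁ * s ^ e) ≤ Real.exp L) :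
    C₁ * U * √M * s ^ (A + 6) ≤ U * (√M * s ^ A * (1 + Real.exp L / M)) / 2 := by
  have hM0 : 0 < M := by linarith
  have h2 : 2 * C₁ * s ^ 6 ≤ 1 + Real.exp L / M := by
    have h3 : P₁ * s ^ e ≤ Real.exp L / M := by rw [le_div_iff₀ hM0]; linarith
    have h4 : s ^ 6 ≤ s ^ e := pow_le_pow_right₀ hs he
    have h5 : 2 * C₁ * s ^ 6 ≤ P₁ * s ^ e := mul_le_mul hP₁ h4 (by positivity) (by linarith)
    linarith
  calc _ = U * √M * s ^ A * (2 * C₁ * s ^ 6) / 2 := by ring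
    _ ≤ U * √M * s ^ A * (1 + Real.exp L / M) / 2 := by gcongr
    _ = _ := by ring

theorem kli_fin {a b N u v w C : ℝ} (hN : 1 ≤ N) (hC : 0 ≤ C) (hv : 0 ≤ v) (h : a ≤ C * (u + b))
    (hu : u ≤ v) (hb : C * b ≤ w * N) : a / N ≤ C * v + w := by
  rw [div_le_iff₀ (by linarith)]
  have h7 := mul_le_mul_of_nonneg_left hu hC
  have h9 := mul_le_mul_of_nonneg_left hN (mul_nonneg hC hv)
  rw [mul_add] at h
  rw [add_mul]
  linarith

/-- Take `j, c` from `allm_le`, `e = 4 (c + 6)`, `A = j + 2 e`, `P = P₁ (1+|t|)^e`. By `red_all`,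
`IH D (A+6) 2 (C₁ Θ)`. If `exp L ≥ M P` use it directly. Otherwise `infl` with `X = M P²`, at least `√P`
primes, `exp (2L)/X ≤ M`. -/
theorem wb_step (D : Data) (hFE : D.FE) (hd : DiagOne D) (ho : Off D) : ∃ (A : ℕ) (C : ℝ), 0 ≤ C ∧
    ∀ R Q : ℝ, 1 ≤ R → 0 ≤ Q → WB D A (fun M => Q * (ll M * (1 + M / R))) →
      WB D A fun M => (C + Q / 2) * (ll M * (1 + M / R)) := by
  obtain ⟨j, c, hjc⟩ := allm_le D hd ho
  obtain ⟨e, he⟩ : ∃ e, e = 4 * (c + 6) := ⟨_, rfl⟩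
  obtain ⟨C₁, hC₁0, hC₁⟩ := red_all D hFE (j + 2 * e)
  obtain ⟨C₂, hC₂0, hC₂⟩ := hjc (j + 2 * e + 6) 2
  obtain ⟨P₀, hP₀, hpr⟩ := many_primes D.q_ne
  obtain ⟨K, hK⟩ : ∃ K, K = 16 * Real.exp 12 ^ 2 * C₂ * C₁ := ⟨_, rfl⟩
  have hK0 : 0 ≤ K := by rw [hK]; positivity
  obtain ⟨P₁, hP₁⟩ : ∃ P₁, P₁ = P₀ + 2 * C₁ + K ^ 4 := ⟨_, rfl⟩
  have hK4 : 0 ≤ K ^ 4 := by positivity
  have hP₁1 : P₀ ≤ P₁ := by linarith
  have hP₁2 : 2 * C₁ ≤ P₁ := by linarith
  have hP₁3 : K ^ 4 ≤ P₁ := by linarith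
  refine ⟨j + 2 * e, C₂ * (9 * P₁ ^ 2), by positivity, ?_⟩
  intro R Q hR hQ hW M hM L t
  have hpos : ∀ M, 1 ≤ M → 0 ≤ Q * (ll M * (1 + M / R)) := fun M hM =>
    mul_nonneg hQ (zero_le_one.trans (kli_pos hR hM))
  have hmono : ∀ M M', 1 ≤ M → M ≤ M' → Q * (ll M * (1 + M / R)) ≤ Q * (ll M' * (1 + M' / R)) :=
    fun M M' hM h => mul_le_mul_of_nonneg_left (kli_mono hR hM h) hQ
  have hgrow : ∀ M T, 1 ≤ M → 1 ≤ T →
      Q * (ll (M * T) * (1 + M * T / R)) ≤ Q * (ll M * (1 + M / R)) * T ^ 2 := fun M T hM hT =>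
    (mul_le_mul_of_nonneg_left (kli_grow hR hM hT) hQ).trans (le_of_eq (by ring))
  have hIH : IH D (j + 2 * e + 6) 2 fun M => C₁ * (Q * (ll M * (1 + M / R))) :=
    ⟨fun M hM => mul_nonneg hC₁0 (hpos M hM),
      fun M M' hM h => mul_le_mul_of_nonneg_left (hmono M M' hM h) hC₁0,
      fun M T hM hT => (mul_le_mul_of_nonneg_left (hgrow M T hM hT) hC₁0).trans (le_of_eq (by ring)),
      fun M hM L t => hC₁ _ hpos hmono hW M hM L t⟩
  have hs1 : 1 ≤ 1 + |t| := by have := abs_nonneg t; linarith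
  have hse : 1 ≤ (1 + |t|) ^ e := one_le_pow₀ hs1
  have hP0 : P₀ ≤ P₁ * (1 + |t|) ^ e := hP₁1.trans (le_mul_of_one_le_right (by linarith) hse)
  have hP1 : 1 ≤ P₁ * (1 + |t|) ^ e := hP₀.trans hP0
  have hM0 : 0 < M := by linarith
  have hZ1 : 1 ≤ ll M * (1 + M / R) := kli_pos hR hM
  have hY0 : 0 ≤ √M * (1 + |t|) ^ (j + 2 * e) * (1 + Real.exp L / M) := by positivity
  have hZY := mul_nonneg (zero_le_one.trans hZ1) hY0
  have hQZY := mul_nonneg (hpos M hM) hY0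
  have hgoal : (C₂ * (9 * P₁ ^ 2) + Q / 2) * (ll M * (1 + M / R)) * √M * (1 + |t|) ^ (j + 2 * e) *
      (1 + Real.exp L / M) = C₂ * (9 * P₁ ^ 2 * (ll M * (1 + M / R) *
        (√M * (1 + |t|) ^ (j + 2 * e) * (1 + Real.exp L / M)))) + Q * (ll M * (1 + M / R)) *
        (√M * (1 + |t|) ^ (j + 2 * e) * (1 + Real.exp L / M)) / 2 := by ring
  refine le_of_le_of_eq ?_ hgoal.symm
  by_cases hL : M * (P₁ * (1 + |t|) ^ e) ≤ Real.exp L
  · refine ((hIH.bd M hM L t).trans (kli_long (j + 2 * e) e (by omega) hM hs1 hC₁0 hP₁2 (hpos M hM)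
      hL)).trans (le_add_of_nonneg_left (by positivity))
  · replace hL := (not_le.1 hL).le
    obtain ⟨S, hS, hcard⟩ := hpr _ hP0
    have hc1 : (1 : ℝ) ≤ S.card := (Real.one_le_sqrt.2 hP1).trans hcard
    have hne : S.Nonempty := card_pos.1 (by exact_mod_cast (zero_lt_one.trans_le hc1))
    have hsc : 1 ≤ √(S.card : ℝ) := Real.one_le_sqrt.2 hc1
    have hu : K * (1 + |t|) ^ (c + 6) ≤ √(S.card : ℝ) := by
      refine Real.le_sqrt_of_sq_le (le_trans (Real.le_sqrt_of_sq_le ?_) hcard)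
      calc ((K * (1 + |t|) ^ (c + 6)) ^ 2) ^ 2 = K ^ 4 * (1 + |t|) ^ e := by rw [he]; ring
        _ ≤ _ := mul_le_mul_of_nonneg_right hP₁3 (by positivity)
    have h1 := infl D (G := Q * (ll M * (1 + M / R)) *
        (√M * (1 + |t|) ^ (j + 2 * e) * (1 + Real.exp L / M))) (L := L) (t := t) hM hP1 hne hS
      fun L' hL' => (hW M hM L' t).trans (by
        have := Real.exp_le_exp.2 hL'
        have := hpos M hM
        rw [mul_assoc, mul_assoc, ← mul_assoc √M]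
        gcongr)
    have hX : 1 ≤ M * (P₁ * (1 + |t|) ^ e) ^ 2 := one_le_mul_of_one_le_of_one_le hM (one_le_pow₀ hP1)
    have h2 := hC₂ _ hIH _ L t hX
    have h0 : 1 ≤ 1 + Real.exp (2 * L + 12) / (M * (P₁ * (1 + |t|) ^ e) ^ 2) :=
      le_add_of_nonneg_right (by positivity)
    have h3 := (hmono _ _ h0 (kli_exp hM hP1 hL)).trans (hgrow M (2 * Real.exp 12) hM
      (by have : 1 ≤ Real.exp 12 := Real.one_le_exp (by norm_num); linarith))
    have h4 := kli_diag j e hM hR hP1 hs1 hL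
    have h5 := kli_off (L := L) (j + 2 * e) c hM hs1 hC₁0 hC₂0 (hpos M hM) (hpos _ h0) h3 (hK ▸ hu)
    have h6 := kli_fin hsc hC₂0 (by positivity) h2 h4 h5
    linarith

/-- Start from the trivial bound (`norm_sm_le`), iterate `wb_step`, put `R = M`, apply `red_all`. -/
theorem li' (D : Data) (hFE : D.FE) (hd : DiagOne D) (ho : Off D) :
    ∃ (A : ℕ) (C : ℝ), 0 ≤ C ∧ IH D A 1 fun M => C * ll M := by
  obtain ⟨A, C, hC0, hC⟩ := wb_step D hFE hd ho
  obtain ⟨C₁, hC₁0, hC₁⟩ := red_all D hFE A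
  have h0 : ∀ R : ℝ, 1 ≤ R → WB D A fun M => (4 * Real.exp 6 * R) * (ll M * (1 + M / R)) := by
    intro R hR M hM L t
    have hM0 : 0 < M := by linarith
    have h1 : ∀ k ∈ sqf M, ‖tw D (jac k) 5 L t‖ ≤ 2 * 1 * Real.exp (L + 6) := fun k _ =>
      norm_sm_le (adm_jac k) zero_le_one
        (fun y hy => by rw [bump_eq_zero (le_abs.2 (Or.inl (by linarith)))]; simp)
        fun y => by
          rw [norm_mul, norm_ex, mul_one, Complex.norm_real, Real.norm_of_nonneg (bump_mem _ _).1]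
          exact (bump_mem _ _).2
    refine (nrm_le_const (by positivity) h1).trans ?_
    have h2 : √((sqf M).card : ℝ) ≤ 2 * √M := by
      have h3 : ((sqf M).card : ℝ) ≤ 3 * M := by
        refine le_trans ?_ (card_allm hM)
        classical
        exact_mod_cast card_le_card (filter_subset _ _)
      refine Real.sqrt_le_iff.2 ⟨by positivity, ?_⟩
      rw [mul_pow, Real.sq_sqrt hM0.le]
      linarith
    have h4 : (1 : ℝ) ≤ (1 + |t|) ^ A := one_le_pow₀ (by have := abs_nonneg t; linarith)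
    have h5 := one_le_ll hM
    calc _ ≤ 2 * √M * (2 * 1 * Real.exp (L + 6)) := by gcongr
      _ = (4 * Real.exp 6 * R) * (1 * (0 + M / R)) * √M * 1 * (0 + Real.exp L / M) := by
          rw [Real.exp_add]; field_simp; ring
      _ ≤ _ := by
          show _ ≤ (4 * Real.exp 6 * R) * (ll M * (1 + M / R)) * √M * _ * _
          gcongr <;> norm_num
  have h1 : ∀ R : ℝ, 1 ≤ R → ∀ n : ℕ,
      WB D A fun M => (2 * C + 4 * Real.exp 6 * R / 2 ^ n) * (ll M * (1 + M / R)) := by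
    intro R hR n
    induction n with
    | zero =>
      intro M hM L t
      refine (h0 R hR M hM L t).trans ?_
      have := kli_pos hR hM
      simp only [pow_zero, div_one]
      gcongr
      linarith
    | succ n ih =>
      have := hC R _ hR (by positivity) ih
      convert this using 3
      rw [pow_succ]; ring
  have h2 : WB D A fun M => (2 * (2 * C + 1)) * ll M := by
    intro M hM L t
    obtain ⟨n, hn⟩ := pow_unbounded_of_one_lt (4 * Real.exp 6 * M) (by norm_num : (1 : ℝ) < 2)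
    refine (h1 M hM n M hM L t).trans ?_
    have h3 : 4 * Real.exp 6 * M / 2 ^ n ≤ 1 := (div_le_one (by positivity)).2 hn.le
    have h4 := one_le_ll hM
    have h5 : M / M = 1 := div_self (by linarith)
    have h6 : (2 * C + 4 * Real.exp 6 * M / 2 ^ n) * (ll M * (1 + M / M)) ≤
        2 * (2 * C + 1) * ll M := by
      rw [h5]; nlinarith
    beta_reduce
    gcongr
  refine ⟨A + 6, C₁ * (2 * (2 * C + 1)), by positivity, ?_, ?_, ?_, ?_⟩
  · intro M hM
    have := one_le_ll hM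
    positivity
  · intro M M' hM h
    have := ll_mono hM h
    gcongr
  · intro M T hM hT
    have := ll_mul hM hT
    rw [pow_one, mul_assoc _ (ll M)]
    gcongr
  · intro M hM L t
    have := hC₁ _ (fun M hM => by have := one_le_ll hM; positivity)
      (fun M M' hM h => by have := ll_mono hM h; gcongr) h2 M hM L t
    simpa only [mul_assoc] using this

end Pool.Agent.Lib.MP_03e5d0_nt
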