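import Pool.Agent.Lib.MP_03e5d0_nt.KDef

set_option autoImplicit false

noncomputable section

namespace Pool.Agent.Lib.MP_03e5d0_nt

open Complex Finset MeasureTheory
open scoped NumberTheorySymbols Real ContDiff

/-! Cancellation in windows from bounds for the Dirichlet series. -/

theorem ke_term (f : ℕ → ℝ) (σ τ i : ℝ) (a : ℕ) :
    ((f a / a : ℝ) : ℂ) * cexp (-(σ * (Real.log a - i : ℝ))) * ex τ (Real.log a - i) =
      cexp (σ * i) * ex τ (-i) * LSeries.term (fun n => (f n : ℂ)) (1 + σ - τ * I) a := by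
  rcases eq_or_ne a 0 with rfl | ha
  · simp
  have h1 : (a : ℂ) ≠ 0 := Nat.cast_ne_zero.2 ha
  have h2 : (a : ℂ)⁻¹ = cexp (-(Real.log a : ℝ)) := by
    rw [Complex.exp_neg, Complex.natCast_log, Complex.exp_log h1]
  rw [LSeries.term_of_ne_zero ha, Complex.cpow_def_of_ne_zero h1, ← Complex.natCast_log, ex, ex,
    Complex.ofReal_div, Complex.ofReal_natCast, div_eq_mul_inv, div_eq_mul_inv, h2,
    ← Complex.exp_neg, mul_assoc, mul_assoc, ← Complex.exp_add, ← Complex.exp_add,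
    ← Complex.exp_add, mul_left_comm, ← Complex.exp_add]
  congr 2
  push_cast
  ring

/-- One window. Put `σ = 1/(1+i)`, `U v = W v * exp (σ v)` (`Sm.mul`), `W v = exp (-σ v) ∫ ft U τ ex τ v`;
`a⁻¹ exp (-σ (log a - i)) ex τ (log a - i) = exp (σ i) ex (-τ) i a^(-(1 + σ - τ I))`; the finite sum equals
the sum over all `a`; exchange sum and integral (`hasSum_integral_of_summable_integral_norm`). -/
theorem window_le (k : ℕ) : ∃ C : ℝ, 0 ≤ C ∧ ∀ (f : ℕ → ℝ) (K : ℝ), 0 ≤ K →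
    (∀ s : ℂ, 1 < s.re → s.re ≤ 3 → LSeriesSummable (fun n => (f n : ℂ)) s ∧
      ‖LSeries (fun n => (f n : ℂ)) s‖ ≤ K * (1 + |s.im|) ^ k) →
    ∀ (B : ℝ) (W : ℝ → ℂ) (i N : ℕ), Sm (k + 2) (-1) 1 B W → Real.exp (i + 1) < N →
      ‖∑ a ∈ range N, ((f a / a : ℝ) : ℂ) * W (Real.log a - i)‖ ≤ C * K * B := by
  obtain ⟨C₁, h₁, H₁⟩ := Sm.mul_holo (k + 2)
  obtain ⟨C₂, h₂, H₂⟩ := Sm.ft_int k 2
  refine ⟨Real.exp 1 * (C₂ * (C₁ * Real.exp 2)), by positivity, fun f K hK hf B W i N hW hN => ?_⟩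
  obtain ⟨σ, hσ⟩ : ∃ σ : ℝ, σ = 1 / (1 + i) := ⟨_, rfl⟩
  have hi : (0 : ℝ) ≤ i := Nat.cast_nonneg i
  have σ0 : 0 < σ := by rw [hσ]; positivity
  have σ1 : σ * (1 + i) = 1 := by rw [hσ]; field_simp
  have σ2 : σ * i ≤ 1 := by linarith
  have σ3 : σ ≤ 1 := by nlinarith
  have hU := H₁ (-1) 1 B (Real.exp 2) 1 W (fun z => cexp (σ * z)) hW one_pos le_rfl
    (Real.exp_pos _).le (by fun_prop) fun z _ h3 _ => by
      rw [Complex.norm_exp, Complex.re_ofReal_mul]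
      exact Real.exp_le_exp.2 (by nlinarith)
  set U : ℝ → ℂ := fun y => W y * cexp (σ * y) with hUdef
  have hs : ∀ τ : ℝ, (1 + σ - τ * I : ℂ).re = 1 + σ := fun τ => by simp
  have hs' : ∀ τ : ℝ, (1 + σ - τ * I : ℂ).im = -τ := fun τ => by simp
  have hL := fun τ : ℝ => hf (1 + σ - τ * I) (by rw [hs]; linarith) (by rw [hs]; linarith)
  obtain ⟨A, hA⟩ : ∃ A : ℕ → ℂ,
      ∀ a, A a = ((f a / a : ℝ) : ℂ) * cexp (-(σ * (Real.log a - i : ℝ))) := ⟨_, fun _ => rfl⟩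
  have hc : ∀ τ : ℝ, ‖cexp (σ * i) * ex τ (-i)‖ ≤ Real.exp 1 := fun τ => by
    rw [norm_mul, norm_ex, mul_one, Complex.norm_exp, Complex.re_ofReal_mul, Complex.natCast_re]
    exact Real.exp_le_exp.2 σ2
  have hT : ∀ (τ : ℝ) (a : ℕ), A a * (ft U τ * ex τ (Real.log a - i)) =
      ft U τ * (cexp (σ * i) * ex τ (-i)) *
        LSeries.term (fun n => (f n : ℂ)) (1 + σ - τ * I) a := by
    intro τ a
    rw [mul_left_comm, hA, ke_term, ← mul_assoc, Complex.ofReal_natCast]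
  have hn : ∀ (τ : ℝ) (a : ℕ), ‖A a * (ft U τ * ex τ (Real.log a - i))‖ = ‖A a‖ * ‖ft U τ‖ :=
    fun τ a => by rw [norm_mul, norm_mul, norm_ex, mul_one]
  have i0 : Integrable fun τ => ‖ft U τ‖ := by simpa using hU.ft_integrable 0
  have hI : ∀ a : ℕ, Integrable fun τ => A a * (ft U τ * ex τ (Real.log a - i)) := fun a =>
    (i0.const_mul ‖A a‖).mono' (continuous_const.mul (hU.ft_cont.mul
      (continuous_ex.comp (continuous_id.prodMk continuous_const)))).aestronglyMeasurable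
      (Filter.Eventually.of_forall fun τ => (hn τ a).le)
  have hS : Summable fun a => ‖A a‖ := by
    have h3 := ((hL 0).1.mul_left (cexp (σ * i) * ex 0 (-i))).norm
    refine h3.congr fun a => ?_
    have h4 := congrArg norm (ke_term f σ 0 i a)
    rw [norm_mul, norm_ex, mul_one, ← hA, Complex.ofReal_natCast] at h4
    exact h4.symm
  have h3 := hasSum_integral_of_summable_integral_norm hI (by
    simp only [hn, integral_const_mul]
    exact hS.mul_right _)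
  have h4 : ∀ a : ℕ, ∫ τ, A a * (ft U τ * ex τ (Real.log a - i)) =
      ((f a / a : ℝ) : ℂ) * W (Real.log a - i) := by
    intro a
    rw [integral_const_mul, ← hU.inv, hA, mul_assoc, mul_left_comm (cexp _), ← Complex.exp_add,
      neg_add_cancel, Complex.exp_zero, mul_one]
  simp only [h4] at h3
  have h5 : HasSum (fun a : ℕ => ((f a / a : ℝ) : ℂ) * W (Real.log a - i))
      (∑ a ∈ range N, ((f a / a : ℝ) : ℂ) * W (Real.log a - i)) := by
    refine hasSum_sum_of_ne_finset_zero fun a ha => ?_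
    have h6 : (N : ℝ) ≤ a := by exact_mod_cast not_lt.mp (mem_range.not.mp ha)
    have h7 := (Real.lt_log_iff_exp_lt ((Real.exp_pos _).trans (hN.trans_le h6))).2
      (hN.trans_le h6)
    rw [hW.supp _ (Or.inr (by linarith)), mul_zero]
  rw [h5.unique h3]
  refine (norm_integral_le_of_norm_le ((hU.ft_integrable k).const_mul (Real.exp 1 * K))
    (Filter.Eventually.of_forall fun τ => ?_)).trans ?_
  · simp only [hT]
    rw [tsum_mul_left, norm_mul, norm_mul]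
    have h6 := (hL τ).2
    rw [hs', abs_neg] at h6
    calc ‖ft U τ‖ * ‖cexp (σ * i) * ex τ (-i)‖ * ‖LSeries (fun n => (f n : ℂ)) (1 + σ - τ * I)‖
        ≤ ‖ft U τ‖ * Real.exp 1 * (K * (1 + |τ|) ^ k) := by
          gcongr
          exact hc τ
      _ = Real.exp 1 * K * (‖ft U τ‖ * (1 + |τ|) ^ k) := by ring
  · rw [integral_const_mul]
    refine (mul_le_mul_of_nonneg_left (H₂ (-1) 1 _ U (by norm_num) hU) (by positivity)).trans_eq ?_
    ring

/-- With `v = log a - i`: `i² = log² a - 2 v log a + v²`; apply `window_le` to `W`, `v W`, `v² W`,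
`W = psi * ex τ`, and use `(1+i)² ≤ 2 (1 + i²)`. -/
theorem eb_of_hb {h : ℕ → ℝ} (hh : HB h) : EB h := by
  obtain ⟨C, k, hC, H⟩ := hh
  obtain ⟨C₁, h₁, H₁⟩ := window_le k
  obtain ⟨C₂, h₂, H₂⟩ := Sm.mul_holo (k + 2)
  obtain ⟨B, hB⟩ := sm_psi (k + 2)
  have hB0 := hB.nonneg
  refine ⟨k + 2, 10 * (C₁ * C * (C₂ * (2 ^ (k + 2) * B) * 9)), by positivity, fun i N τ hN => ?_⟩
  obtain ⟨W, hW⟩ : ∃ W : ℝ → ℂ, W = fun y => (psi y : ℂ) * ex τ y := ⟨_, rfl⟩
  obtain ⟨T, hT⟩ : ∃ T : ℕ → ℕ → ℂ, ∀ m l, T m l = ∑ a ∈ range N,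
      ((h a * Real.log a ^ m / a : ℝ) : ℂ) * (W (Real.log a - i) * (Real.log a - i : ℝ) ^ l) :=
    ⟨_, fun _ _ => rfl⟩
  obtain ⟨M, hM⟩ : ∃ M, M = C₁ * C * (C₂ * (2 ^ (k + 2) * B) * 9) * (1 + |τ|) ^ (k + 2) :=
    ⟨_, rfl⟩
  have h1 : ∀ m ≤ 2, ∀ l ≤ 2, ‖T m l‖ ≤ M := by
    intro m hm l hl
    have h2 := H₂ (-1) 1 _ 9 1 W (fun z => z ^ l) (hW ▸ hB.mul_ex τ) one_pos le_rfl (by norm_num)
      (by fun_prop) fun z a1 a2 a3 => by
        have a4 : ‖z‖ ≤ 3 := (Complex.norm_le_abs_re_add_abs_im z).trans (by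
          have : |z.re| ≤ 2 := abs_le.2 ⟨by linarith, by linarith⟩
          linarith)
        rw [norm_pow]
        calc ‖z‖ ^ l ≤ 3 ^ l := by gcongr
          _ ≤ 3 ^ 2 := pow_le_pow_right₀ (by norm_num) hl
          _ = 9 := by norm_num
    rw [hT]
    refine (H₁ (fun n => h n * Real.log n ^ m) C hC (H m hm) _ _ i N h2 hN).trans_eq ?_
    rw [hM]
    ring
  have e0 : ∑ a ∈ range N, ((h a / a : ℝ) : ℂ) *
      ((psi (Real.log a - i) : ℂ) * ex τ (Real.log a - i)) = T 0 0 := by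
    simp only [hT, hW, pow_zero, mul_one]
  have e1 : (i : ℂ) ^ 2 * T 0 0 = T 2 0 - 2 * T 1 1 + T 0 2 := by
    simp only [hT, mul_sum, ← sum_sub_distrib, ← sum_add_distrib]
    refine sum_congr rfl fun a _ => ?_
    simp only [Complex.ofReal_div, Complex.ofReal_mul, Complex.ofReal_pow, Complex.ofReal_sub,
      Complex.ofReal_natCast]
    ring
  have h2 : (i : ℝ) ^ 2 * ‖T 0 0‖ ≤ 4 * M := by
    have h3 := congrArg norm e1
    rw [norm_mul, norm_pow, Complex.norm_natCast] at h3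
    have h4 := norm_add_le (T 2 0 - 2 * T 1 1) (T 0 2)
    have h5 := norm_sub_le (T 2 0) (2 * T 1 1)
    rw [norm_mul, Complex.norm_ofNat] at h5
    linarith [h1 2 le_rfl 0 (by norm_num), h1 1 (by norm_num) 1 (by norm_num),
      h1 0 (by norm_num) 2 le_rfl]
  have h3 := h1 0 (by norm_num) 0 (by norm_num)
  have h4 := mul_nonneg (sq_nonneg ((i : ℝ) - 1)) (norm_nonneg (T 0 0))
  rw [e0, le_div_iff₀ (by positivity), mul_assoc, ← hM]
  nlinarith

end Pool.Agent.Lib.MP_03e5d0_nt
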