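import Pool.Agent.Lib.MP_03e5d0_nt.KH1

set_option autoImplicit false

noncomputable section

namespace Pool.Agent.Lib.MP_03e5d0_nt

open Complex Finset MeasureTheory
open scoped NumberTheorySymbols Real ContDiff

/-! Polynomial bounds for the series of `h0` and `h1`. -/

theorem kh2_gen (q : ℕ) (a : ℕ → ℝ) (ha : ∀ p : ℕ, p.Prime → |a p| ≤ 4)
    (h0 : ∀ p : ℕ, p.Prime → p ∣ q → a p = 0) (hq : ∀ p : ℕ, p.Prime → p < 10000 → p ∣ q)
    (C : ℝ) (k : ℕ) (hC : 0 ≤ C)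
    (hb : ∀ s : ℂ, 1 < s.re → s.re ≤ 3 →
      Real.exp (-(PSum q a s).re) ≤ C * (1 + |s.im|) ^ k ∧
      Real.exp (-(PSum q a s).re) * ‖PSum q (fun p => a p * Real.log p) s‖ ≤ C * (1 + |s.im|) ^ k ∧
      Real.exp (-(PSum q a s).re) * ‖PSum q (fun p => a p * Real.log p) s ^ 2 -
        PSum q (fun p => a p * Real.log p ^ 2) s‖ ≤ C * (1 + |s.im|) ^ k) :
    HB (cm fun p => -a p) := by
  obtain ⟨R, hR, h⟩ := euler_exp q a ha h0 hq
  refine ⟨Real.exp R * (1 + R) ^ 2 * 2 * C, k, by positivity, fun m hm s h1 h3 => ?_⟩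
  obtain ⟨hs, r₀, r₁, r₂, hr₀, hr₁, hr₂, e0, e1, e2⟩ := h s h1
  obtain ⟨b0, b1, b2⟩ := hb s h1 h3
  refine ⟨hs m, ?_⟩
  set E := Real.exp (-(PSum q a s).re) with hE
  set Y := C * (1 + |s.im|) ^ k with hY
  set P₁ := PSum q (fun p => a p * Real.log p) s
  set P₂ := PSum q (fun p => a p * Real.log p ^ 2) s
  have hE0 : 0 ≤ E := (Real.exp_pos _).le
  have hY0 : 0 ≤ Y := hE0.trans b0
  have hx : ‖cexp (-PSum q a s + r₀)‖ ≤ Real.exp R * E := by
    rw [Complex.norm_exp, hE, ← Real.exp_add]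
    refine Real.exp_le_exp.2 ?_
    have := (re_le_norm r₀).trans hr₀
    simp only [add_re, neg_re]
    linarith
  have hfin : ∀ Z : ℝ, 0 ≤ Z → E * Z ≤ (1 + R) ^ 2 * 2 * Y →
      ‖cexp (-PSum q a s + r₀)‖ * Z ≤ Real.exp R * (1 + R) ^ 2 * 2 * C * (1 + |s.im|) ^ k := by
    intro Z hZ hh
    calc _ ≤ Real.exp R * E * Z := mul_le_mul_of_nonneg_right hx hZ
      _ = Real.exp R * (E * Z) := by ring
      _ ≤ Real.exp R * ((1 + R) ^ 2 * 2 * Y) := mul_le_mul_of_nonneg_left hh (Real.exp_pos _).le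
      _ = _ := by rw [hY]; ring
  have hRY : 0 ≤ R * Y := mul_nonneg hR hY0
  have hRRY : 0 ≤ R * (R * Y) := mul_nonneg hR hRY
  interval_cases m
  · rw [e0, ← mul_one ‖cexp (-PSum q a s + r₀)‖]
    exact hfin 1 zero_le_one (by nlinarith)
  · rw [e1, norm_mul, norm_neg]
    refine hfin _ (norm_nonneg _) ?_
    have h1 : ‖P₁ + r₁‖ ≤ ‖P₁‖ + R := (norm_add_le _ _).trans (by linarith)
    have h2 : E * ‖P₁ + r₁‖ ≤ E * (‖P₁‖ + R) := mul_le_mul_of_nonneg_left h1 hE0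
    have h3 : R * E ≤ R * Y := mul_le_mul_of_nonneg_left b0 hR
    nlinarith
  · rw [e2, norm_mul]
    refine hfin _ (norm_nonneg _) ?_
    have h1 : ‖(P₁ + r₁) ^ 2 - P₂ + r₂‖ ≤ ‖P₁ ^ 2 - P₂‖ + 2 * R * ‖P₁‖ + R * R + R := by
      rw [show (P₁ + r₁) ^ 2 - P₂ + r₂ = P₁ ^ 2 - P₂ + 2 * r₁ * P₁ + r₁ * r₁ + r₂ by ring]
      refine (norm_add_le _ _).trans (add_le_add ((norm_add_le _ _).trans (add_le_add
        ((norm_add_le _ _).trans (add_le_add le_rfl ?_)) ?_)) hr₂)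
      · rw [norm_mul, norm_mul, Complex.norm_two]
        gcongr
      · rw [norm_mul]
        gcongr
    have h2 := mul_le_mul_of_nonneg_left h1 hE0
    have h3 : R * E ≤ R * Y := mul_le_mul_of_nonneg_left b0 hR
    have h4 : R * (R * E) ≤ R * (R * Y) := mul_le_mul_of_nonneg_left h3 hR
    have h5 : R * (E * ‖P₁‖) ≤ R * Y := mul_le_mul_of_nonneg_left b1 hR
    nlinarith

theorem kh2_summable (q : ℕ) (c : ℕ → ℝ) (m : ℕ) (hc : ∀ p : ℕ, p.Prime → |c p| ≤ 4 * Real.log p ^ m)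
    {s : ℂ} (hs : 1 < s.re) :
    Summable fun p : ℕ => if p.Prime ∧ ¬p ∣ q then (c p : ℂ) * (p : ℂ) ^ (-s) else 0 := by
  set δ : ℝ := (s.re - 1) / (m + 1) with hδ
  have hδ0 : 0 < δ := div_pos (by linarith) (by positivity)
  have hm : δ * m - s.re < -1 := by
    have : δ * (m + 1) = s.re - 1 := by rw [hδ]; field_simp
    nlinarith
  refine Summable.of_norm_bounded
    ((Real.summable_nat_rpow.2 hm).mul_left (4 / δ ^ m)) fun p => ?_
  split_ifs with h
  · have hp : (0 : ℝ) < p := by exact_mod_cast h.1.pos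
    rw [norm_mul, Complex.norm_real, Real.norm_eq_abs, Complex.norm_natCast_cpow_of_pos h.1.pos,
      neg_re, sub_eq_add_neg, Real.rpow_add hp, ← mul_assoc]
    refine mul_le_mul_of_nonneg_right ((hc p h.1).trans ?_) (by positivity)
    have h1 : Real.log p ^ m ≤ ((p : ℝ) ^ δ / δ) ^ m :=
      pow_le_pow_left₀ (Real.log_natCast_nonneg p) (Real.log_le_rpow_div hp.le hδ0) m
    rw [div_pow, ← Real.rpow_mul_natCast hp.le] at h1
    calc _ ≤ 4 * ((p : ℝ) ^ (δ * m) / δ ^ m) := by linarith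
      _ = _ := by ring
  · rw [norm_zero]
    positivity

theorem kh2_sub (q : ℕ) (b c d : ℕ → ℝ) (m : ℕ)
    (hb : ∀ p : ℕ, p.Prime → |b p| ≤ 4 * Real.log p ^ m)
    (hc : ∀ p : ℕ, p.Prime → |c p| ≤ 4 * Real.log p ^ m)
    (hd : ∀ p : ℕ, p.Prime → ¬p ∣ q → d p = b p - c p) {s : ℂ} (hs : 1 < s.re) :
    PSum q d s = PSum q b s - PSum q c s := by
  unfold PSum
  rw [← (kh2_summable q b m hb hs).tsum_sub (kh2_summable q c m hc hs)]
  refine tsum_congr fun p => ?_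
  split_ifs with h
  · rw [hd p h.1 h.2]
    push_cast
    ring
  · simp

theorem kh2_exp {x C t : ℝ} {k : ℕ} (h : x ≤ C + k * Real.log (1 + |t|)) :
    Real.exp x ≤ Real.exp C * (1 + |t|) ^ k := by
  have ht : 0 < 1 + |t| := by positivity
  refine (Real.exp_le_exp.2 h).trans (le_of_eq ?_)
  rw [Real.exp_add, Real.exp_nat_mul, Real.exp_log ht]

theorem kh2_sq (D : Data) {p : ℕ} (hp : p.Prime) : |D.lam p ^ 2| ≤ 4 := by
  have := D.lam_le p hp
  rw [abs_pow]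
  nlinarith [abs_nonneg (D.lam p)]

/-- `|H| ≤ C |s-1| (1+|t|)^k`, `P₁ = 1/(s-1) + e₁`, `P₂ = 1/(s-1)² + e₂`; the terms `1/(s-1)²` cancel;
`|s-1| ≤ 2 + |t|`. -/
theorem hb0 (D : Data) (hPS : D.PS) : HB (h0 D) := by
  obtain ⟨C, k, hC, h⟩ := hPS.1
  refine kh2_gen D.q (fun p => D.lam p ^ 2) (fun p hp => kh2_sq D hp) (fun p hp hd => ?_) D.small
    (Real.exp C * (2 * (1 + C) ^ 2 * 2)) (3 * k + 1) (by positivity) fun s h1 h3 => ?_
  · rw [D.lam_zero p fun hc => hp.one_lt.ne' (Nat.eq_one_of_dvd_coprimes hc dvd_rfl hd)]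
    norm_num
  obtain ⟨b0, b1, b2⟩ := h s h1 h3
  set P₁ := PSum D.q (fun p => D.lam p ^ 2 * Real.log p) s
  set P₂ := PSum D.q (fun p => D.lam p ^ 2 * Real.log p ^ 2) s
  set E := Real.exp (-(PSum D.q (fun p => D.lam p ^ 2) s).re) with hE
  set w := s - 1 with hw
  set T := 1 + |s.im| with hT
  have hw0 : w ≠ 0 := sub_ne_zero.2 fun h => by simp [h] at h1
  have hn : 0 < ‖w‖ := norm_pos_iff.2 hw0
  have hT1 : 1 ≤ T := le_add_of_nonneg_right (abs_nonneg _)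
  have hwT : ‖w‖ ≤ 2 * T := by
    refine (norm_le_abs_re_add_abs_im w).trans ?_
    have : |w.re| ≤ 2 := by
      rw [hw, sub_re, one_re, abs_le]
      constructor <;> linarith
    have h2 : w.im = s.im := by simp [hw]
    rw [h2]
    linarith [abs_nonneg s.im]
  have hE1 : E ≤ Real.exp C * T ^ k * ‖w‖ := by
    have h1 := kh2_exp (x := -(PSum D.q (fun p => D.lam p ^ 2) s).re - Real.log ‖w‖) (C := C)
      (t := s.im) (k := k) (by linarith [(abs_le.1 b0).1])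
    rw [Real.exp_sub, Real.exp_log hn, div_le_iff₀ hn] at h1
    exact h1
  have hTk : 1 ≤ T ^ k := one_le_pow₀ hT1
  have hfin : ∀ Z : ℝ, 0 ≤ Z → ‖w‖ * Z ≤ 2 * (1 + C) ^ 2 * 2 * (T ^ k * T ^ k * T) →
      E * Z ≤ Real.exp C * (2 * (1 + C) ^ 2 * 2) * T ^ (3 * k + 1) := by
    intro Z hZ hh
    calc _ ≤ Real.exp C * T ^ k * ‖w‖ * Z := mul_le_mul_of_nonneg_right hE1 hZ
      _ = Real.exp C * T ^ k * (‖w‖ * Z) := by ring
      _ ≤ Real.exp C * T ^ k * (2 * (1 + C) ^ 2 * 2 * (T ^ k * T ^ k * T)) :=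
        mul_le_mul_of_nonneg_left hh (by positivity)
      _ = _ := by ring
  set X := (1 + C) * T ^ k with hX
  have hX1 : 1 ≤ X := one_le_mul_of_one_le_of_one_le (by linarith) hTk
  have hXe : C * T ^ k + 1 ≤ X := by rw [hX]; linarith
  have hXX : 2 * (1 + C) ^ 2 * 2 * (T ^ k * T ^ k * T) = 4 * (X * X * T) := by rw [hX]; ring
  have hCT : 0 ≤ C * T ^ k := by positivity
  rw [hXX] at hfin
  set e₁ := P₁ - 1 / w with he₁
  set e₂ := P₂ - 1 / w ^ 2 with he₂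
  have hXT : X * T ≤ X * X * T := by
    rw [mul_assoc X X T]
    exact le_mul_of_one_le_left (by positivity) hX1
  have hT' : T ≤ X * T := le_mul_of_one_le_left (by positivity) hX1
  refine ⟨?_, hfin _ (norm_nonneg _) ?_, hfin _ (norm_nonneg _) ?_⟩
  · rw [← mul_one E]
    exact hfin 1 zero_le_one (by linarith)
  · rw [← norm_mul, show w * P₁ = 1 + w * e₁ by rw [he₁]; field_simp; ring]
    refine (norm_add_le _ _).trans ?_
    rw [norm_one, norm_mul]
    have : ‖w‖ * ‖e₁‖ ≤ 2 * T * X := mul_le_mul hwT (by linarith) (norm_nonneg _) (by positivity)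
    nlinarith
  · rw [← norm_mul, show w * (P₁ ^ 2 - P₂) = 2 * e₁ + w * (e₁ * e₁ - e₂) by
      rw [he₁, he₂]; field_simp; ring]
    refine (norm_add_le _ _).trans ?_
    rw [norm_mul, norm_mul, Complex.norm_two]
    have h4 : ‖e₁ * e₁ - e₂‖ ≤ (X - 1) * (X - 1) + (X - 1) := by
      refine (norm_sub_le _ _).trans (add_le_add ?_ (by linarith))
      rw [norm_mul]
      exact mul_le_mul (by linarith) (by linarith) (norm_nonneg _) (by linarith)
    have h5 : ‖e₁ * e₁ - e₂‖ ≤ X * X := by nlinarith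
    have h6 : ‖w‖ * ‖e₁ * e₁ - e₂‖ ≤ 2 * T * (X * X) :=
      mul_le_mul hwT h5 (norm_nonneg _) (by positivity)
    have h7 : X ≤ X * T := le_mul_of_one_le_right (by positivity) hT1
    nlinarith

/-- `lam (p²) = lam p ^ 2 - 1` for `p ∤ q`, so the prime sums are differences (`Summable.tsum_sub`) and the
poles cancel. -/
theorem hb1 (D : Data) (hPS : D.PS) : HB (h1 D) := by
  obtain ⟨C, k, hC, h⟩ := hPS.1
  obtain ⟨C', k', hC', h'⟩ := hPS.2
  refine kh2_gen D.q (fun p => D.lam (p ^ 2)) (fun p hp => (D.lam_pow_le hp 2).trans (by norm_num))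
    (fun p hp hd => ?_) D.small
    (Real.exp (C + C') * (2 * (1 + C + C') ^ 2)) (3 * (k + k')) (by positivity) fun s h1 h3 => ?_
  · exact D.lam_zero _ fun hc => hp.one_lt.ne'
      (Nat.eq_one_of_dvd_coprimes hc (dvd_pow_self p two_ne_zero) hd)
  obtain ⟨b0, b1, b2⟩ := h s h1 h3
  obtain ⟨c0, c1, c2⟩ := h' s h1 h3
  have hl : ∀ (p m : ℕ), 0 ≤ Real.log p ^ m := fun p m => pow_nonneg (Real.log_natCast_nonneg p) m
  have hA : ∀ m p : ℕ, p.Prime → |D.lam p ^ 2 * Real.log p ^ m| ≤ 4 * Real.log p ^ m := fun m p hp => by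
    rw [abs_mul, abs_of_nonneg (hl p m)]
    exact mul_le_mul_of_nonneg_right (kh2_sq D hp) (hl p m)
  have hB : ∀ m p : ℕ, p.Prime → |1 * Real.log p ^ m| ≤ 4 * Real.log p ^ m := fun m p _ => by
    rw [one_mul, abs_of_nonneg (hl p m)]
    linarith [hl p m]
  rw [kh2_sub D.q (fun p => D.lam p ^ 2) (fun _ => 1) (fun p => D.lam (p ^ 2)) 0
      (by simpa using hA 0) (by simp) (fun p hp hd => D.lam_sq hp hd) h1,
    kh2_sub D.q (fun p => D.lam p ^ 2 * Real.log p) (fun p => 1 * Real.log p)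
      (fun p => D.lam (p ^ 2) * Real.log p) 1 (by simpa only [pow_one] using hA 1)
      (by simpa only [pow_one] using hB 1) (fun p hp hd => by rw [D.lam_sq hp hd]; ring) h1,
    kh2_sub D.q (fun p => D.lam p ^ 2 * Real.log p ^ 2) (fun p => 1 * Real.log p ^ 2)
      (fun p => D.lam (p ^ 2) * Real.log p ^ 2) 2 (hA 2) (hB 2)
      (fun p hp hd => by rw [D.lam_sq hp hd]; ring) h1]
  set T := 1 + |s.im| with hT
  have hT1 : 1 ≤ T := le_add_of_nonneg_right (abs_nonneg _)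
  set E := Real.exp (-(PSum D.q (fun p => D.lam p ^ 2) s - PSum D.q (fun _ => 1) s).re) with hE
  have hE1 : E ≤ Real.exp (C + C') * T ^ (k + k') := by
    refine kh2_exp ?_
    rw [sub_re]
    push_cast
    linarith [(abs_le.1 b0).1, (abs_le.1 c0).2]
  set X := (1 + C + C') * T ^ (k + k') with hX
  have hTk : 1 ≤ T ^ (k + k') := one_le_pow₀ hT1
  have hX1 : 1 ≤ X := one_le_mul_of_one_le_of_one_le (by linarith) hTk
  have hfin : ∀ Z : ℝ, 0 ≤ Z → Z ≤ 2 * (X * X) →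
      E * Z ≤ Real.exp (C + C') * (2 * (1 + C + C') ^ 2) * T ^ (3 * (k + k')) := by
    intro Z hZ hh
    calc _ ≤ Real.exp (C + C') * T ^ (k + k') * (2 * (X * X)) :=
        mul_le_mul hE1 hh hZ (by positivity)
      _ = _ := by rw [hX]; ring
  have hd : ∀ u v z : ℂ, ‖u - z‖ ≤ C * T ^ k → ‖v - z‖ ≤ C' * T ^ k' → ‖u - v‖ ≤ X := by
    intro u v z hu hv
    rw [show u - v = (u - z) - (v - z) by ring]
    refine (norm_sub_le _ _).trans ?_
    have h4 : C * T ^ k ≤ C * T ^ (k + k') :=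
      mul_le_mul_of_nonneg_left (pow_le_pow_right₀ hT1 (Nat.le_add_right _ _)) hC
    have h5 : C' * T ^ k' ≤ C' * T ^ (k + k') :=
      mul_le_mul_of_nonneg_left (pow_le_pow_right₀ hT1 (Nat.le_add_left _ _)) hC'
    rw [hX]
    linarith
  have d1 := hd _ _ _ b1 c1
  have d2 := hd _ _ _ b2 c2
  have hXX : X ≤ X * X := le_mul_of_one_le_left (by linarith) hX1
  refine ⟨?_, hfin _ (norm_nonneg _) (by linarith), hfin _ (norm_nonneg _) ?_⟩
  · rw [← mul_one E]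
    exact hfin 1 zero_le_one (by linarith)
  · refine (norm_sub_le _ _).trans ?_
    rw [norm_pow, sq]
    have := mul_le_mul d1 d1 (norm_nonneg _) (by linarith)
    linarith

end Pool.Agent.Lib.MP_03e5d0_nt
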