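import Pool.Agent.Lib.MP_03e5d0_nt.KDef

set_option autoImplicit false

noncomputable section

namespace Pool.Agent.Lib.MP_03e5d0_nt

open Complex Finset MeasureTheory
open scoped NumberTheorySymbols Real ContDiff

/-! Summation over the frequencies. -/

theorem kk_dec (k : ℤ) : ∃ (u : ℤ) (v : ℕ), k ≠ 0 → Squarefree u ∧ v ≠ 0 ∧ u * (v : ℤ) ^ 2 = k := by
  obtain ⟨u, v, h1, h2⟩ := Nat.sq_mul_squarefree k.natAbs
  have h3 : k ≠ 0 → v ≠ 0 := by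
    rintro hk rfl
    exact hk (Int.natAbs_eq_zero.1 (by rw [← h1]; simp))
  have h4 : (u : ℤ) * (v : ℤ) ^ 2 = k.natAbs := by rw [← h1]; push_cast; ring
  rcases Int.natAbs_eq k with h | h
  · exact ⟨u, v, fun hk => ⟨Int.squarefree_natCast.2 h2, h3 hk, h4.trans h.symm⟩⟩
  · refine ⟨-u, v, fun hk => ⟨Int.squarefree_natAbs.1 (by simpa using h2), h3 hk, ?_⟩⟩
    rw [neg_mul, h4, ← h]

theorem kk_inner (a : ℕ) : ∃ C : ℝ, 0 ≤ C ∧ ∀ (Θ : ℝ → ℝ) (G : ℤ → ℝ) (E K : ℝ),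
    (∀ M, 1 ≤ M → 0 ≤ Θ M) → (∀ M T, 1 ≤ M → 1 ≤ T → Θ (M * T) ≤ Θ M * T ^ a) → 0 < K → 0 ≤ E →
    (∀ k, 0 ≤ G k) → (∀ M, 1 ≤ M → ∑ k ∈ sqf M, G k ≤ E * (Θ M ^ 2 * M)) →
    ∀ T : Finset ℤ, (∀ k ∈ T, Squarefree k) →
      ∑ k ∈ T, G k / (1 + |(k : ℝ)| / K) ^ (2 * a + 4) ≤ C * E * K * Θ (1 + K) ^ 2 := by
  classical
  have hs : Summable fun j : ℕ => 1 / ((j : ℝ) + 1) ^ 2 := by
    have := (summable_nat_add_iff 1).2 (Real.summable_one_div_nat_pow.2 one_lt_two)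
    simpa using this
  refine ⟨∑' j : ℕ, 1 / ((j : ℝ) + 1) ^ 2, tsum_nonneg fun j => by positivity, ?_⟩
  intro Θ G E K h0 hT hK hE hG hb T hsq
  have hM : 1 ≤ 1 + K := by linarith
  have hM0 : 0 < 1 + K := by linarith
  set g : ℤ → ℕ := fun k => ⌊|(k : ℝ)| / (1 + K)⌋₊ with hg
  rw [← sum_fiberwise_of_maps_to (g := g) (t := T.image g) fun k hk => mem_image_of_mem g hk]
  have key : ∀ j : ℕ, ∑ k ∈ T with g k = j, G k / (1 + |(k : ℝ)| / K) ^ (2 * a + 4) ≤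
      1 / ((j : ℝ) + 1) ^ 2 * (E * K * Θ (1 + K) ^ 2) := by
    intro j
    have hj : (1 : ℝ) ≤ (j : ℝ) + 1 := by linarith [(Nat.cast_nonneg j : (0 : ℝ) ≤ j)]
    have hj0 : (0 : ℝ) < (j : ℝ) + 1 := by linarith
    have hMj : 1 ≤ (1 + K) * ((j : ℝ) + 1) := one_le_mul_of_one_le_of_one_le hM hj
    have h1 : ∀ k ∈ T.filter (fun k => g k = j), G k / (1 + |(k : ℝ)| / K) ^ (2 * a + 4) ≤
        G k * (K / (1 + K) / ((j : ℝ) + 1) ^ (2 * a + 3)) := by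
      intro k hk
      obtain ⟨hk1, hk2⟩ := mem_filter.1 hk
      have hk0 : k ≠ 0 := (hsq k hk1).ne_zero
      have hk3 : (1 : ℝ) ≤ |(k : ℝ)| := by exact_mod_cast Int.one_le_abs hk0
      have h2 : (j : ℝ) ≤ |(k : ℝ)| / (1 + K) := by
        rw [← hk2]; exact Nat.floor_le (by positivity)
      have h3 : |(k : ℝ)| / (1 + K) ≤ |(k : ℝ)| / K :=
        div_le_div_of_nonneg_left (abs_nonneg _) hK (by linarith)
      have h4 : (1 + K) / K ≤ 1 + |(k : ℝ)| / K := by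
        rw [add_div, div_self hK.ne', add_comm]
        gcongr
      have h5 : (1 + K) / K * ((j : ℝ) + 1) ^ (2 * a + 3) ≤ (1 + |(k : ℝ)| / K) ^ (2 * a + 4) := by
        rw [show 2 * a + 4 = (2 * a + 3) + 1 from rfl, pow_succ' _ (2 * a + 3)]
        exact mul_le_mul h4 (pow_le_pow_left₀ hj0.le (by linarith) _) (by positivity)
          (by positivity)
      calc G k / (1 + |(k : ℝ)| / K) ^ (2 * a + 4)
          ≤ G k / ((1 + K) / K * ((j : ℝ) + 1) ^ (2 * a + 3)) :=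
            div_le_div_of_nonneg_left (hG k) (by positivity) h5
        _ = _ := by field_simp
    have h2 : ∑ k ∈ T with g k = j, G k ≤ ∑ k ∈ sqf ((1 + K) * ((j : ℝ) + 1)), G k := by
      refine sum_le_sum_of_subset_of_nonneg (fun k hk => ?_) fun k _ _ => hG k
      obtain ⟨hk1, hk2⟩ := mem_filter.1 hk
      refine (mem_sqf (by positivity)).2 ⟨?_, hsq k hk1⟩
      have h3 : |(k : ℝ)| / (1 + K) < (j : ℝ) + 1 := by
        rw [← hk2]; exact Nat.lt_floor_add_one _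
      rw [div_lt_iff₀ hM0] at h3
      linarith
    have h3 : Θ ((1 + K) * ((j : ℝ) + 1)) ^ 2 ≤ (Θ (1 + K) * ((j : ℝ) + 1) ^ a) ^ 2 :=
      pow_le_pow_left₀ (h0 _ hMj) (hT _ _ hM hj) 2
    have h4 : ∑ k ∈ T with g k = j, G k ≤
        E * ((Θ (1 + K) * ((j : ℝ) + 1) ^ a) ^ 2 * ((1 + K) * ((j : ℝ) + 1))) :=
      (h2.trans (hb _ hMj)).trans
        (mul_le_mul_of_nonneg_left (mul_le_mul_of_nonneg_right h3 (by positivity)) hE)
    refine (sum_le_sum h1).trans ?_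
    rw [← sum_mul]
    refine (mul_le_mul_of_nonneg_right h4 (by positivity)).trans (le_of_eq ?_)
    field_simp
    ring
  refine (sum_le_sum fun j _ => key j).trans ?_
  rw [← sum_mul]
  refine (mul_le_mul_of_nonneg_right (hs.sum_le_tsum _ fun j _ => by positivity)
    (by positivity)).trans (le_of_eq ?_)
  ring

/-- Every `k ≠ 0` is `k₁ k₂²` with `k₁` squarefree (`Nat.sq_mul_squarefree`), so the sum is at most the
double sum over `k₂ ∈ Icc 1 n`, `k₁ ∈ sqf n`. Fix `k₂`, `K' = K/k₂²`, `M₀ = 1 + K'`. For `|k₁| ≥ 1`: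
`(1+|k₁|/K')^(-(2a+4)) ≤ (K'/M₀) (1+|k₁|/M₀)^(-(2a+3))`. On the shell `j M₀ ≤ |k₁| < (j+1) M₀` the weight is
`≤ (1+j)^(-(2a+3))` and the sum is `≤ E √k₂ Θ(M₀)² (j+1)^(2a+1) M₀`. Finally `∑ k₂^(-3/2)` converges. -/
theorem ksum (a : ℕ) : ∃ C : ℝ, 0 ≤ C ∧ ∀ (Θ : ℝ → ℝ) (F : ℤ → ℝ) (E K : ℝ),
    (∀ M, 1 ≤ M → 0 ≤ Θ M) → (∀ M M', 1 ≤ M → M ≤ M' → Θ M ≤ Θ M') →
    (∀ M T, 1 ≤ M → 1 ≤ T → Θ (M * T) ≤ Θ M * T ^ a) → 0 < K → 0 ≤ E → (∀ k, 0 ≤ F k) →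
    (∀ k₂ : ℕ, k₂ ≠ 0 → ∀ M, 1 ≤ M →
      ∑ k₁ ∈ sqf M, F (k₁ * (k₂ : ℤ) ^ 2) ≤ E * √k₂ * (Θ M ^ 2 * M)) →
    ∀ S : Finset ℤ, 0 ∉ S →
      ∑ k ∈ S, F k / (1 + |(k : ℝ)| / K) ^ (2 * a + 4) ≤ C * E * K * Θ (1 + K) ^ 2 := by
  classical
  obtain ⟨C, hC, hin⟩ := kk_inner a
  have hs : Summable fun m : ℕ => (m : ℝ) ^ (-(3 / 2) : ℝ) :=
    Real.summable_nat_rpow.2 (by norm_num)
  refine ⟨(∑' m : ℕ, (m : ℝ) ^ (-(3 / 2) : ℝ)) * C,
    mul_nonneg (tsum_nonneg fun m => by positivity) hC, ?_⟩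
  intro Θ F E K h0 hmono hT hK hE hF hb S hS
  choose u v huv using kk_dec
  have hne : ∀ k ∈ S, k ≠ 0 := fun k hk e => hS (e ▸ hk)
  rw [← sum_fiberwise_of_maps_to (g := v) (t := S.image v) fun k hk => mem_image_of_mem v hk]
  have key : ∀ m ∈ S.image v, ∑ k ∈ S with v k = m, F k / (1 + |(k : ℝ)| / K) ^ (2 * a + 4) ≤
      (m : ℝ) ^ (-(3 / 2) : ℝ) * (C * E * K * Θ (1 + K) ^ 2) := by
    intro m hm
    have hm0 : m ≠ 0 := by
      obtain ⟨k, hk, rfl⟩ := mem_image.1 hm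
      exact (huv k (hne k hk)).2.1
    have hm1 : (1 : ℝ) ≤ m := by exact_mod_cast Nat.one_le_iff_ne_zero.2 hm0
    have hm2 : (0 : ℝ) < m := by linarith
    have hK' : 0 < K / (m : ℝ) ^ 2 := by positivity
    have hdec : ∀ k ∈ S.filter (fun k => v k = m), u k * (m : ℤ) ^ 2 = k := fun k hk => by
      rw [← (mem_filter.1 hk).2]; exact (huv k (hne k (mem_filter.1 hk).1)).2.2
    have h1 := hin Θ (fun k => F (k * (m : ℤ) ^ 2)) (E * √m) (K / (m : ℝ) ^ 2) h0 hT hK'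
      (by positivity) (fun k => hF _) (hb m hm0) ((S.filter fun k => v k = m).image u) (by
        intro k hk
        obtain ⟨k', hk', rfl⟩ := mem_image.1 hk
        exact (huv k' (hne k' (mem_filter.1 hk').1)).1)
    rw [sum_image fun x hx y hy e => by
      rw [← hdec x (mem_coe.1 hx), ← hdec y (mem_coe.1 hy), e]] at h1
    have h2 : ∑ k ∈ S with v k = m, F k / (1 + |(k : ℝ)| / K) ^ (2 * a + 4) =
        ∑ k ∈ S with v k = m,
          F (u k * (m : ℤ) ^ 2) / (1 + |(u k : ℝ)| / (K / (m : ℝ) ^ 2)) ^ (2 * a + 4) := by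
      refine sum_congr rfl fun k hk => ?_
      have h3 : (k : ℝ) = (u k : ℝ) * (m : ℝ) ^ 2 := by exact_mod_cast (hdec k hk).symm
      rw [hdec k hk, h3, abs_mul, abs_of_nonneg (sq_nonneg (m : ℝ)), div_div_eq_mul_div]
    have h3 : K / (m : ℝ) ^ 2 ≤ K := div_le_self hK.le (one_le_pow₀ hm1)
    have h4 : Θ (1 + K / (m : ℝ) ^ 2) ^ 2 ≤ Θ (1 + K) ^ 2 :=
      pow_le_pow_left₀ (h0 _ (by linarith)) (hmono _ _ (by linarith) (by linarith)) 2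
    have h5 : (m : ℝ) ^ (-(3 / 2) : ℝ) = √m / (m : ℝ) ^ 2 := by
      rw [Real.sqrt_eq_rpow, ← Real.rpow_natCast, ← Real.rpow_sub hm2]
      norm_num
    rw [h2, h5]
    refine h1.trans ((mul_le_mul_of_nonneg_left h4 (by positivity)).trans (le_of_eq ?_))
    ring
  refine (sum_le_sum key).trans ?_
  rw [← sum_mul]
  refine (mul_le_mul_of_nonneg_right (hs.sum_le_tsum _ fun j _ => by positivity)
    (by positivity)).trans (le_of_eq ?_)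
  ring

end Pool.Agent.Lib.MP_03e5d0_nt
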