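import Pool.Agent.Lib.MP_03e5d0_nt.KSh

set_option autoImplicit false

noncomputable section

namespace Pool.Agent.Lib.MP_03e5d0_nt

open Complex Finset MeasureTheory
open scoped NumberTheorySymbols Real ContDiff

/-! The model bilinear form. -/

theorem kqq_lin {S : Finset ℕ} {d : ℕ → ℂ} {w : ℕ → ℝ} {K : ℝ} {e : ℕ}
    (h : ∀ τ, ‖∑ g ∈ S, d g * ex τ (w g)‖ ≤ K * (1 + |τ|) ^ e) {u : ℝ → ℂ} (hc : Continuous u)
    (hi : Integrable fun τ => ‖u τ‖ * (1 + |τ|) ^ e) :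
    ‖∑ g ∈ S, d g * ∫ τ, u τ * ex τ (w g)‖ ≤ K * ∫ τ, ‖u τ‖ * (1 + |τ|) ^ e := by
  have h1 : ∀ g, Integrable fun τ => d g * (u τ * ex τ (w g)) := by
    intro g
    refine (hi.mono' (hc.mul (continuous_ex.comp
      (continuous_id.prodMk continuous_const))).aestronglyMeasurable
      (.of_forall fun τ => ?_)).const_mul _
    change ‖u τ * ex τ (w g)‖ ≤ _
    rw [norm_mul, norm_ex, mul_one]
    exact le_mul_of_one_le_right (norm_nonneg _) (one_le_pow₀ (by linarith [abs_nonneg τ]))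
  simp only [← integral_const_mul]
  rw [← integral_finsetSum _ fun g _ => h1 g]
  refine norm_integral_le_of_norm_le (hi.const_mul K) (.of_forall fun τ => ?_)
  have e1 : ∑ g ∈ S, d g * (u τ * ex τ (w g)) = u τ * ∑ g ∈ S, d g * ex τ (w g) := by
    rw [mul_sum]
    exact sum_congr rfl fun g _ => mul_left_comm _ _ _
  rw [e1, norm_mul, mul_left_comm]
  exact mul_le_mul_of_nonneg_left (h τ) (norm_nonneg _)

/-- Two applications of the exchange of a finite sum and an integral; `1 + |τ₁ + τ₂| ≤ (1+|τ₁|)(1+|τ₂|)`. -/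
theorem bil {S : Finset ℕ} {c : ℕ → ℂ} {w : ℕ → ℝ} {E : ℝ} {e : ℕ} (hE : 0 ≤ E)
    (h : ∀ τ, ‖∑ g ∈ S, c g * ex τ (w g)‖ ≤ E * (1 + |τ|) ^ e) {u₁ u₂ : ℝ → ℂ}
    (hc₁ : Continuous u₁) (hc₂ : Continuous u₂)
    (h₁ : Integrable fun τ => ‖u₁ τ‖ * (1 + |τ|) ^ e) (h₂ : Integrable fun τ => ‖u₂ τ‖ * (1 + |τ|) ^ e) :
    ‖∑ g ∈ S, c g * ((∫ τ, u₁ τ * ex τ (w g)) * ∫ τ, u₂ τ * ex τ (w g))‖ ≤
      E * ((∫ τ, ‖u₁ τ‖ * (1 + |τ|) ^ e) * ∫ τ, ‖u₂ τ‖ * (1 + |τ|) ^ e) := by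
  simp only [← mul_assoc]
  refine kqq_lin (fun τ₂ => ?_) hc₂ h₂
  simp only [mul_right_comm (c _)]
  rw [mul_right_comm]
  refine kqq_lin (fun τ₁ => ?_) hc₁ h₁
  simp only [mul_assoc, ← ex_add']
  refine (h _).trans (mul_le_mul_of_nonneg_left ?_ hE)
  rw [← mul_pow]
  refine pow_le_pow_left₀ (by positivity) ?_ e
  have h1 := abs_add_le τ₂ τ₁
  have h2 := mul_nonneg (abs_nonneg τ₂) (abs_nonneg τ₁)
  nlinarith

theorem kqq_sum (n : ℕ) : ∑ i ∈ range n, 1 / (1 + (i : ℝ)) ^ 2 ≤ 2 - 2 / ((n : ℝ) + 1) := by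
  induction n with
  | zero => simp
  | succ n ih =>
    rw [sum_range_succ]
    have h : 1 / (1 + (n : ℝ)) ^ 2 ≤ 2 / (n + 1) - 2 / ((n + 1 : ℕ) + 1) := by
      push_cast
      rw [div_sub_div _ _ (by positivity) (by positivity),
        div_le_div_iff₀ (by positivity) (by positivity)]
      have : (0 : ℝ) ≤ n := Nat.cast_nonneg n
      nlinarith
    linarith

theorem kqq_int (D : Data) (hE1 : EB (h1 D)) : ∃ c : ℕ, ∀ e A : ℕ, ∃ C : ℝ, 0 ≤ C ∧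
    ∀ (ι : Type) (T : Finset ι) (x : ι → ℕ → ℝ) (G B L : ℝ) (W : ℝ → ℂ), 0 ≤ G →
    (∀ L t, nrm T (fun k => tw D (x k) 5 L t) ≤ G * (1 + |t|) ^ A) →
    Sm (A + (e + c)) (-1) 1 B W →
    (∀ k ∈ T, Integrable fun τ => ‖ft W τ *
      sh D (x k) fun y => (bump 2 (y - L) : ℂ) * ex τ (y - L)‖ * (1 + |τ|) ^ e) ∧
    nrm T (fun k => ((∫ τ, ‖ft W τ *
      sh D (x k) fun y => (bump 2 (y - L) : ℂ) * ex τ (y - L)‖ * (1 + |τ|) ^ e : ℝ) : ℂ)) ≤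
      C * B * G := by
  obtain ⟨c, hc⟩ := sh_le D hE1
  refine ⟨c + 2, fun e A => ?_⟩
  obtain ⟨C₁, hC₁, h1⟩ := hc A
  obtain ⟨Bb, hb⟩ := sm_bump (A + c) 2
  obtain ⟨C₂, hC₂, h2⟩ := Sm.ft_int (e + (A + c)) 2
  have hb0 := hb.nonneg
  refine ⟨C₁ * 2 ^ (A + c) * Bb * C₂, by positivity, fun ι T x G B L W hG hT hW => ?_⟩
  have hγ : ∀ τ, nrm T (fun k => sh D (x k) fun y => (bump 2 (y - L) : ℂ) * ex τ (y - L)) ≤
      C₁ * 2 ^ (A + c) * Bb * G * (1 + |τ|) ^ (A + c) := fun τ =>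
    (h1 ι T x G _ L (fun y => (bump 2 y : ℂ) * ex τ y) hG hT
      ((hb.mul_ex τ).mono le_rfl (by norm_num) (by norm_num) le_rfl)).trans_eq (by ring)
  have e1 : ∀ τ : ℝ, ‖ft W τ‖ * (1 + |τ|) ^ e * (C₁ * 2 ^ (A + c) * Bb * G * (1 + |τ|) ^ (A + c)) =
      C₁ * 2 ^ (A + c) * Bb * G * (‖ft W τ‖ * (1 + |τ|) ^ (e + (A + c))) := fun τ => by
    rw [pow_add (1 + |τ|) e]
    ring
  have hs : Integrable fun τ : ℝ =>
      ‖ft W τ‖ * (1 + |τ|) ^ e * (C₁ * 2 ^ (A + c) * Bb * G * (1 + |τ|) ^ (A + c)) := by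
    simp only [e1]
    exact (hW.ft_integrable _).const_mul _
  have hp : Continuous fun τ : ℝ => (1 + |τ|) ^ e := by fun_prop
  refine ⟨fun k hk => hs.mono' (((hW.ft_cont.mul (continuous_sh D (x k) L)).norm.mul
    hp).aestronglyMeasurable) (.of_forall fun τ => ?_), ?_⟩
  · rw [Real.norm_of_nonneg (by positivity), norm_mul, mul_right_comm]
    exact mul_le_mul_of_nonneg_left ((tnrm_single hk _).trans (hγ τ)) (by positivity)
  · refine (nrm_integral (env := fun τ => ‖ft W τ‖ * (1 + |τ|) ^ e) (fun τ => by positivity)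
      (hW.ft_cont.norm.mul hp) (fun k _ => continuous_sh D (x k) L) (fun k _ => le_of_eq ?_)
      hγ hs).trans ?_
    · rw [norm_real, Real.norm_of_nonneg (integral_nonneg fun τ => by positivity)]
      simp only [norm_mul, mul_right_comm]
    · simp only [e1]
      rw [integral_const_mul]
      refine (mul_le_mul_of_nonneg_left (h2 (-1) 1 B W (by norm_num)
        (hW.mono (by omega) le_rfl le_rfl le_rfl)) (by positivity)).trans_eq (by ring)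

/-- `tsum_eq_windows` in `g`, `log g = i + w`, `sh_eq_integral` at `L - i`, `bil`, Cauchy-Schwarz
(`sum_mul_le_nrm`), `nrm_integral`, `sh_le` for `bump 2 * ex τ` (`Sm.mul_ex`), `Sm.ft_int`. -/
theorem qf_le (D : Data) (hE0 : EB (h0 D)) (hE1 : EB (h1 D)) : ∃ c : ℕ, ∀ A : ℕ, ∃ C : ℝ, 0 ≤ C ∧
    ∀ (ι : Type) (T : Finset ι) (x : ι → ℕ → ℝ) (G B₁ B₂ L₁ L₂ : ℝ) (W₁ W₂ : ℝ → ℂ), 0 ≤ G →
    (∀ L t, nrm T (fun k => tw D (x k) 5 L t) ≤ G * (1 + |t|) ^ A) →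
    Sm (A + c) (-1) 1 B₁ W₁ → Sm (A + c) (-1) 1 B₂ W₂ →
    ∑ k ∈ T, ‖qf D (x k) (fun y => W₁ (y - L₁)) fun y => W₂ (y - L₂)‖ ≤ C * B₁ * B₂ * G ^ 2 := by
  obtain ⟨e, C₀, hC₀, h0'⟩ := hE0
  obtain ⟨c, hc⟩ := kqq_int D hE1
  refine ⟨e + c, fun A => ?_⟩
  obtain ⟨C, hC, h1'⟩ := hc e A
  refine ⟨2 * C₀ * C ^ 2, by positivity, fun ι T x G B₁ B₂ L₁ L₂ W₁ W₂ hG hT hW₁ hW₂ => ?_⟩
  have hB₁ := hW₁.nonneg
  have hB₂ := hW₂.nonneg
  obtain ⟨n, hn⟩ := exists_nat_ge (L₁ + 1 + 1)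
  obtain ⟨N, hN⟩ := exists_nat_gt (Real.exp n)
  let J : (ℝ → ℂ) → ℝ → ι → ℝ := fun W L k => ∫ τ, ‖ft W τ *
    sh D (x k) fun y => (bump 2 (y - L) : ℂ) * ex τ (y - L)‖ * (1 + |τ|) ^ e
  have hJ : ∀ W L k, ‖(J W L k : ℂ)‖ = J W L k := fun W L k => by
    rw [norm_real, Real.norm_of_nonneg (integral_nonneg fun τ => by positivity)]
  have key : ∀ k ∈ T, ‖qf D (x k) (fun y => W₁ (y - L₁)) fun y => W₂ (y - L₂)‖ ≤
      ∑ i ∈ range n, C₀ / (1 + i) ^ 2 * (J W₁ (L₁ - i) k * J W₂ (L₂ - i) k) := by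
    intro k hk
    rw [qf, tsum_eq_windows (by simp) (Λ := L₁ + 1) (fun g _ hg => by
      rw [sh_eq_zero D (x k) fun y hy => hW₁.supp _ (Or.inr (by linarith)), zero_mul]) hn hN]
    refine (norm_sum_le _ _).trans (sum_le_sum fun i hi => ?_)
    have hi' : Real.exp (i + 1) < N := by
      refine (Real.exp_le_exp.2 ?_).trans_lt hN
      exact_mod_cast mem_range.1 hi
    refine le_of_eq_of_le (congrArg _ (sum_congr rfl fun g _ => ?_))
      (bil (S := range N) (c := fun g => ((h0 D g / g : ℝ) : ℂ) * (psi (Real.log g - i) : ℂ))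
        (w := fun g => Real.log g - i) (by positivity) (fun τ => ?_)
        (hW₁.ft_cont.mul (continuous_sh D (x k) (L₁ - i)))
        (hW₂.ft_cont.mul (continuous_sh D (x k) (L₂ - i)))
        ((h1' ι T x G B₁ (L₁ - i) W₁ hG hT hW₁).1 k hk)
        ((h1' ι T x G B₂ (L₂ - i) W₂ hG hT hW₂).1 k hk))
    · rcases le_total 1 |Real.log g - i| with hw | hw
      · simp only [psi_eq_zero hw, ofReal_zero, zero_mul, mul_zero]
      · have e1 : ∀ L y : ℝ, y + Real.log g - L = y - (L - i) + (Real.log g - i) :=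
          fun L y => by ring
        simp only [e1]
        rw [sh_eq_integral D (x k) hW₁ _ hw, sh_eq_integral D (x k) hW₂ _ hw, ← mul_assoc]
    · simp only [mul_assoc]
      exact (h0' i N τ hi').trans_eq (by ring)
  refine (sum_le_sum key).trans ?_
  rw [sum_comm]
  have h2 : ∀ i ∈ range n, ∑ k ∈ T, C₀ / (1 + i) ^ 2 * (J W₁ (L₁ - i) k * J W₂ (L₂ - i) k) ≤
      1 / (1 + (i : ℝ)) ^ 2 * (C₀ * (C * B₁ * G * (C * B₂ * G))) := by
    intro i _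
    rw [← mul_sum, ← mul_assoc, one_div_mul_eq_div]
    refine mul_le_mul_of_nonneg_left ?_ (by positivity)
    have h3 := sum_mul_le_nrm T (fun k => (J W₁ (L₁ - i) k : ℂ)) fun k => (J W₂ (L₂ - i) k : ℂ)
    simp only [hJ] at h3
    exact h3.trans (mul_le_mul (h1' ι T x G B₁ (L₁ - i) W₁ hG hT hW₁).2
      (h1' ι T x G B₂ (L₂ - i) W₂ hG hT hW₂).2 (nrm_nonneg _ _) (by positivity))
  refine (sum_le_sum h2).trans ?_
  rw [← sum_mul]
  have h3 : ∑ i ∈ range n, 1 / (1 + (i : ℝ)) ^ 2 ≤ 2 :=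
    (kqq_sum n).trans (sub_le_self _ (by positivity))
  exact (mul_le_mul_of_nonneg_right h3 (by positivity)).trans_eq (by ring)

end Pool.Agent.Lib.MP_03e5d0_nt
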