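import Pool.Agent.Lib.MP_03e5d0_nt.KPhi
import Pool.Agent.Lib.MP_03e5d0_nt.KK
import Pool.Agent.Lib.MP_03e5d0_nt.KQq
import Pool.Agent.Lib.MP_03e5d0_nt.KE
import Pool.Agent.Lib.MP_03e5d0_nt.KH2

set_option autoImplicit false

noncomputable section

namespace Pool.Agent.Lib.MP_03e5d0_nt

open Complex Finset MeasureTheory
open scoped NumberTheorySymbols Real ContDiff

/-! The bilinear lemma. -/

/-- `tk_fact` and `qf_le` at the shifted lengths `Lᵢ - log rᵢ`. -/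
theorem tk_le (D : Data) (hPS : D.PS) : ∃ c : ℕ, ∀ A : ℕ, ∃ C : ℝ, 0 ≤ C ∧
    ∀ (T : Finset ℤ) (k₂ ℓ : ℕ) (G B₁ B₂ L₁ L₂ : ℝ) (W₁ W₂ : ℝ → ℂ), (∀ k ∈ T, Squarefree k) →
    k₂ ≠ 0 → ℓ ≠ 0 → ℓ.Coprime D.q → 0 ≤ G →
    (∀ L t, nrm T (fun k => tw D (jac k) 5 L t) ≤ G * (1 + |t|) ^ A) →
    Sm (A + c) (-1) 1 B₁ W₁ → Sm (A + c) (-1) 1 B₂ W₂ →
    ∑ k ∈ T, ‖tk D (k * (k₂ : ℤ) ^ 2) ℓ fun y₁ y₂ => W₁ (y₁ - L₁) * W₂ (y₂ - L₂)‖ ≤
      C * ℓ * √k₂ * (B₁ * B₂ * G ^ 2) := by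
  obtain ⟨c, hc⟩ := qf_le D (eb_of_hb (hb0 D hPS)) (eb_of_hb (hb1 D hPS))
  obtain ⟨Cf, hCf0, hCf⟩ := tk_fact
  refine ⟨c, fun A => ?_⟩
  obtain ⟨C, hC0, hC⟩ := hc A
  refine ⟨Cf * C, by positivity, ?_⟩
  intro T k₂ ℓ G B₁ B₂ L₁ L₂ W₁ W₂ hT hk hℓ hq hG hb h1 h2
  obtain ⟨w, hw0, hws, hwle, hw⟩ := hCf D ℓ k₂ hℓ hq hk
  have hB₁ := h1.nonneg
  have hB₂ := h2.nonneg
  set E := C * B₁ * B₂ * G ^ 2 with hE
  have hE0 : 0 ≤ E := by positivity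
  set u : ℤ → ℕ × ℕ → ℝ := fun k r => ‖qf D (jac k) (fun y => W₁ (y - (L₁ - Real.log r.1)))
    fun y => W₂ (y - (L₂ - Real.log r.2))‖ with hu
  have hu1 : ∀ r, ∑ k ∈ T, u k r ≤ E := fun r =>
    hC ℤ T jac G B₁ B₂ _ _ W₁ W₂ hG hb h1 h2
  have hu0 : ∀ k r, 0 ≤ u k r := fun k r => norm_nonneg _
  have hu2 : ∀ k ∈ T, ∀ r, u k r ≤ E := fun k hk r =>
    (single_le_sum (f := fun k => u k r) (fun k _ => hu0 k r) hk).trans (hu1 r)
  have hs : ∀ k ∈ T, Summable fun r => w r * u k r := fun k hk =>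
    Summable.of_nonneg_of_le (fun r => mul_nonneg (hw0 r) (hu0 k r))
      (fun r => mul_le_mul_of_nonneg_left (hu2 k hk r) (hw0 r)) (hws.mul_right E)
  have hk' : ∀ k ∈ T, ‖tk D (k * (k₂ : ℤ) ^ 2) ℓ fun y₁ y₂ => W₁ (y₁ - L₁) * W₂ (y₂ - L₂)‖ ≤
      ∑' r, w r * u k r := by
    intro k hk
    obtain ⟨y, hy, -, hyy⟩ := hw k (hT k hk)
    rw [hyy (fun z => W₁ (z - L₁)) (fun z => W₂ (z - L₂)) (max L₁ L₂ + 1)
      (fun z hz => h1.supp _ (Or.inr (by have := le_max_left L₁ L₂; linarith)))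
      (fun z hz => h2.supp _ (Or.inr (by have := le_max_right L₁ L₂; linarith)))]
    refine tsum_of_norm_bounded (hs k hk).hasSum fun r => ?_
    rw [norm_mul, Complex.norm_real, Real.norm_eq_abs]
    have e1 : (fun z => W₁ (z + Real.log r.1 - L₁)) = fun y => W₁ (y - (L₁ - Real.log r.1)) := by
      funext z; congr 1; ring
    have e2 : (fun z => W₂ (z + Real.log r.2 - L₂)) = fun y => W₂ (y - (L₂ - Real.log r.2)) := by
      funext z; congr 1; ring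
    rw [e1, e2]
    exact mul_le_mul_of_nonneg_right (hy r) (hu0 k r)
  calc _ ≤ ∑ k ∈ T, ∑' r, w r * u k r := sum_le_sum hk'
    _ = ∑' r, ∑ k ∈ T, w r * u k r := (Summable.tsum_finsetSum hs).symm
    _ ≤ ∑' r, w r * E := by
      refine Summable.tsum_le_tsum (fun r => ?_) (summable_sum hs) (hws.mul_right E)
      rw [← mul_sum]
      exact mul_le_mul_of_nonneg_left (hu1 r) (hw0 r)
    _ = (∑' r, w r) * E := tsum_mul_right
    _ ≤ Cf * ℓ * √k₂ * E := mul_le_mul_of_nonneg_right hwle hE0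
    _ = _ := by rw [hE]; ring

/-- `gsum_sub`, `tk_gk`, `sm_Phk` with `j = 2 (A + c) + 2`, `e = 2 a + 4`, `ksum` for
`F k = ∫ ‖tk k (W₁ ex τ) (W₂ ex τ)‖ / (1+|τ|)^j`, `tk_le`. -/
theorem off' (D : Data) (hPS : D.PS) : Off D := by
  obtain ⟨c, hc⟩ := tk_le D hPS
  refine ⟨c + 2, fun A a => ?_⟩
  obtain ⟨C1, hC10, hC1⟩ := hc A
  obtain ⟨C2, hC20, hC2⟩ := sm_Phk (2 * (A + c) + 2) (2 * a + 4)
  obtain ⟨C3, hC30, hC3⟩ := Sm.ft_le (2 * (A + c) + 2) 6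
  obtain ⟨C4, hC40, hC4⟩ := ksum a
  refine ⟨C3 * C2 * C4 * (2 * C1 * 2 ^ (A + c) * 2 ^ (A + c)), by positivity, ?_⟩
  intro Θ hΘ X ℓ L₁ L₂ B₁ B₂ Λ W₁ W₂ hX hℓ hq h1 h2 hΛ hL₁ hL₂
  have h1' : Sm (A + c) (-1) 1 B₁ W₁ := h1.mono (by omega) le_rfl le_rfl le_rfl
  have h2' : Sm (A + c) (-1) 1 B₂ W₂ := h2.mono (by omega) le_rfl le_rfl le_rfl
  have hB₁ := h1.nonneg
  have hB₂ := h2.nonneg
  have hX0 : 0 < X := by linarith
  have hℓ1 : (1 : ℝ) ≤ ℓ := by exact_mod_cast Nat.one_le_iff_ne_zero.2 hℓ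
  set R := Real.exp (L₁ + L₂) * ℓ with hR
  have hR0 : 0 < R := by positivity
  have hK : 0 < R / X := by positivity
  set J := 2 * (A + c) + 2 with hJ
  set v : ℤ → ℝ → ℂ := fun k τ => tk D k ℓ fun y₁ y₂ =>
    W₁ (y₁ - L₁) * ex τ (y₁ - L₁) * (W₂ (y₂ - L₂) * ex τ (y₂ - L₂)) with hv
  have hint : ∀ k, Integrable fun τ => ‖v k τ‖ / (1 + |τ|) ^ J := by
    intro k
    obtain ⟨hcont, K, hKb⟩ := tk_ex_cont D k ℓ h1.supp h2.supp L₁ L₂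
    refine Integrable.mono' (integrable_inv_sq.const_mul K) ?_ (ae_of_all _ fun τ => ?_)
    · refine Continuous.aestronglyMeasurable ?_
      exact hcont.norm.div (by fun_prop) fun τ => by positivity
    · have h0 : 0 ≤ K := (norm_nonneg _).trans (hKb τ)
      have h3 : (1 + |τ|) ^ 2 ≤ (1 + |τ|) ^ J :=
        pow_le_pow_right₀ (by have := abs_nonneg τ; linarith) (by omega)
      rw [Real.norm_of_nonneg (by positivity), mul_one_div]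
      exact div_le_div₀ h0 (hKb τ) (by positivity) h3
  set F : ℤ → ℝ := fun k => ∫ τ, ‖v k τ‖ / (1 + |τ|) ^ J with hF
  have hF0 : ∀ k, 0 ≤ F k := fun k => integral_nonneg fun τ => by positivity
  set E := 2 * C1 * 2 ^ (A + c) * 2 ^ (A + c) * ℓ * (B₁ * B₂) with hE
  have hE0 : 0 ≤ E := by positivity
  have hFs : ∀ k₂ : ℕ, k₂ ≠ 0 → ∀ M, 1 ≤ M →
      ∑ k₁ ∈ sqf M, F (k₁ * (k₂ : ℤ) ^ 2) ≤ E * √k₂ * (Θ M ^ 2 * M) := by
    intro k₂ hk₂ M hM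
    have hΘ0 := hΘ.pos M hM
    simp only [hF]
    rw [← integral_finsetSum _ fun k _ => hint _]
    have hle : ∀ τ, ∑ k₁ ∈ sqf M, ‖v (k₁ * (k₂ : ℤ) ^ 2) τ‖ / (1 + |τ|) ^ J ≤
        E * √k₂ * (Θ M ^ 2 * M) / 2 * (1 / (1 + |τ|) ^ 2) := by
      intro τ
      have h3 := hC1 (sqf M) k₂ ℓ (Θ M * √M) _ _ L₁ L₂ _ _
        (fun k hk => ((mem_sqf (by linarith)).1 hk).2) hk₂ hℓ hq (by positivity) (hΘ.bd M hM)
        (h1'.mul_ex τ) (h2'.mul_ex τ)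
      rw [← sum_div, div_le_iff₀ (by positivity)]
      refine h3.trans (le_of_eq ?_)
      have h4 : (0 : ℝ) < 1 + |τ| := by positivity
      rw [mul_pow, Real.sq_sqrt (by linarith), hE, hJ]
      field_simp
      ring
    refine (integral_mono (integrable_finsetSum _ fun k _ => hint _)
      (integrable_inv_sq.const_mul _) hle).trans (le_of_eq ?_)
    rw [integral_const_mul, integral_inv_sq]
    ring
  have hT : ∀ k : ℤ, ‖tk D k ℓ fun y₁ y₂ => W₁ (y₁ - L₁) * W₂ (y₂ - L₂) * (gk X ℓ k (y₁ + y₂) : ℂ)‖ ≤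
      X / √R * (C3 * C2) * (F k / (1 + |(k : ℝ)| / (R / X)) ^ (2 * a + 4)) := by
    intro k
    rw [tk_gk D hX0 hℓ h1.supp h2.supp, norm_mul, Complex.norm_real,
      Real.norm_of_nonneg (by positivity), mul_assoc (X / √R)]
    refine mul_le_mul_of_nonneg_left ?_ (by positivity)
    have hξ : 0 ≤ |(k : ℝ)| / (R / X) := by positivity
    have h5 := hC3 (-3) 3 _ _ (by norm_num) (hC2 _ hξ)
    refine (norm_integral_le_of_norm_le ((hint k).const_mul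
      (C3 * C2 / (1 + |(k : ℝ)| / (R / X)) ^ (2 * a + 4))) (ae_of_all _ fun τ => ?_)).trans
      (le_of_eq ?_)
    · rw [norm_mul]
      refine (mul_le_mul_of_nonneg_right (h5 τ) (norm_nonneg _)).trans (le_of_eq ?_)
      simp only [hv]
      ring
    · rw [integral_const_mul]
      ring
  have hsum := gsum_sub D hX0 hℓ hq (V₁ := fun y => W₁ (y - L₁)) (V₂ := fun y => W₂ (y - L₂))
    (Λ := Λ) (fun y hy => h1.supp _ (Or.inr (by linarith)))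
    (fun y hy => h2.supp _ (Or.inr (by linarith))) hΛ
  refine le_of_tendsto' (Filter.Tendsto.norm hsum) fun S => ?_
  have h6 := hC4 Θ F E (R / X) hΘ.pos hΘ.mono hΘ.grow hK hE0 hF0 hFs (S.erase 0) (notMem_erase 0 S)
  have hsq : X / √R * (R / X) = √R := by
    have := Real.sqrt_pos.2 hR0
    field_simp
    rw [Real.sq_sqrt hR0.le]
  have hsR : √R * ℓ ≤ Real.exp ((L₁ + L₂) / 2) * (ℓ : ℝ) ^ (c + 2) := by
    have h7 : √(Real.exp (L₁ + L₂)) = Real.exp ((L₁ + L₂) / 2) := by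
      rw [Real.exp_half]
    rw [hR, Real.sqrt_mul (Real.exp_pos _).le, h7, mul_assoc]
    refine mul_le_mul_of_nonneg_left ?_ (Real.exp_pos _).le
    have h8 : √(ℓ : ℝ) ≤ ℓ := Real.sqrt_le_iff.2 ⟨by positivity, by nlinarith⟩
    calc √(ℓ : ℝ) * ℓ ≤ ℓ * ℓ := mul_le_mul_of_nonneg_right h8 (by positivity)
      _ = (ℓ : ℝ) ^ 2 := by ring
      _ ≤ _ := pow_le_pow_right₀ hℓ1 (by omega)
  calc _ ≤ ∑ k ∈ S.erase 0,
        X / √R * (C3 * C2) * (F k / (1 + |(k : ℝ)| / (R / X)) ^ (2 * a + 4)) := by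
        rw [← sum_erase (s := S) (a := 0) (by simp)]
        refine (norm_sum_le _ _).trans (sum_le_sum fun k hk => ?_)
        rw [if_neg (ne_of_mem_erase hk)]
        exact hT k
    _ ≤ X / √R * (C3 * C2) * (C4 * E * (R / X) * Θ (1 + R / X) ^ 2) := by
        rw [← mul_sum]
        exact mul_le_mul_of_nonneg_left h6 (by positivity)
    _ = C3 * C2 * C4 * (2 * C1 * 2 ^ (A + c) * 2 ^ (A + c)) * B₁ * B₂ * (X / √R * (R / X) * ℓ) *
        Θ (1 + R / X) ^ 2 := by rw [hE]; ring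
    _ ≤ C3 * C2 * C4 * (2 * C1 * 2 ^ (A + c) * 2 ^ (A + c)) * B₁ * B₂ *
        (Real.exp ((L₁ + L₂) / 2) * (ℓ : ℝ) ^ (c + 2)) * Θ (1 + R / X) ^ 2 := by
        rw [hsq]
        gcongr
    _ = _ := by ring

end Pool.Agent.Lib.MP_03e5d0_nt
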