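import Pool.Agent.Lib.MP_03e5d0_nt.MDiag
import Pool.Agent.Lib.MP_03e5d0_nt.KOff
import Pool.Agent.Lib.MP_03e5d0_nt.KLi

set_option autoImplicit false

noncomputable section

namespace Pool.Agent.Lib.MP_03e5d0_nt

open Complex Finset MeasureTheory
open scoped NumberTheorySymbols Real ContDiff

/-! The interface between the two halves of the analytic core. -/

/-- Half A1: the bilinear lemma. -/
theorem off (D : Data) (hPS : D.PS) : ∃ c : ℕ, ∀ A a : ℕ, ∃ C : ℝ, 0 ≤ C ∧ ∀ Θ : ℝ → ℝ, IH D A a Θ →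
    ∀ (X : ℝ) (ℓ : ℕ) (L₁ L₂ B₁ B₂ Λ : ℝ) (W₁ W₂ : ℝ → ℂ), 1 ≤ X → ℓ ≠ 0 → ℓ.Coprime D.q →
    Sm (A + c) (-1) 1 B₁ W₁ → Sm (A + c) (-1) 1 B₂ W₂ →
    Real.log ℓ ≤ Λ → L₁ + 1 ≤ Λ → L₂ + 1 ≤ Λ →
    ‖gsum X (fun x => (cm x ℓ : ℂ) * sm D x (fun y => W₁ (y - L₁)) * sm D x fun y => W₂ (y - L₂)) -
      X * Ex (pr D Λ) dl0
        (fun x => (cm x ℓ : ℂ) * sm D x (fun y => W₁ (y - L₁)) * sm D x fun y => W₂ (y - L₂))‖ ≤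
      C * B₁ * B₂ * (ℓ : ℝ) ^ c * Real.exp ((L₁ + L₂) / 2) *
        Θ (1 + Real.exp (L₁ + L₂) * ℓ / X) ^ 2 := off' D hPS

/-- Half A1: the large sieve type bound. -/
theorem li (D : Data) (hFE : D.FE) (hPS : D.PS) :
    ∃ (A : ℕ) (C : ℝ), 0 ≤ C ∧ IH D A 1 fun M => C * ll M :=
  li' D hFE (diag_one D hPS) (off' D hPS)

end Pool.Agent.Lib.MP_03e5d0_nt
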