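import Pool.Agent.Lib.MP_03e5d0_nt.Iface
import Pool.Agent.Lib.MP_88d29b_nt.GQ2
import Pool.Agent.Lib.MP_88d29b_nt.GSturm
import Pool.Agent.Lib.MP_88d29b_nt.GCusp

/-! Twists, the Fricke involution and the operator `U_p` on functions on the upper half plane. -/

set_option autoImplicit false

noncomputable section

namespace Pool.Agent.Lib.MP_03e5d0_nt.B

open Finset CongruenceSubgroup UpperHalfPlane Pool.Agent.Lib.MP_88d29b_nt.G
open scoped MatrixGroups ModularForm Manifold NumberTheorySymbols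

/-- The translation by `b / m` as an integer matrix. -/
def tMat (m : ℕ) (b : ℤ) : Mat := !![(m : ℤ), b; 0, (m : ℤ)]

/-- The Fricke matrix of level `M`. -/
def wMat (M : ℕ) : Mat := !![0, -1; (M : ℤ), 0]

/-- The twist `∑_b ξ^(b) / m * f (z + b / m)` of `f` by a function `ξ` on `ZMod m`. -/
def twF (m : ℕ) [NeZero m] (ξ : ZMod m → ℂ) (f : ℍ → ℂ) : ℍ → ℂ :=
  ∑ b : ZMod m, (ZMod.dft ξ b / m) • sl 2 f (tMat m (b.val : ℤ))

/-- The operator `U_p` in weight two. -/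
def uF (p : ℕ) (f : ℍ → ℂ) : ℍ → ℂ := ∑ j : Fin p, sl 2 f !![1, ((j : ℕ) : ℤ); 0, (p : ℤ)]

lemma det_tMat (m : ℕ) (b : ℤ) : (tMat m b).det = (m : ℤ) ^ 2 := by
  rw [tMat, Matrix.det_fin_two_of]
  ring

lemma det_wMat (M : ℕ) : (wMat M).det = M := by
  rw [wMat, Matrix.det_fin_two_of]
  ring

lemma QS.ext' {f f' : ℍ → ℂ} {a : ℕ → ℂ} (h : QS f a) (h' : QS f' a) : f = f' :=
  funext fun z => (h z).unique (h' z)

lemma qs_coe {N : ℕ} [NeZero N] {k : ℤ} (f : CuspForm (Gamma0 N) k) :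
    QS f fun n => (qExpansion 1 f).coeff n := by
  intro z
  have h1 : (1 : ℝ) ∈ (Gamma0 N : Subgroup (GL (Fin 2) ℝ)).strictPeriods := by
    rw [strictPeriods_Gamma0]
    exact AddSubgroup.mem_zmultiples 1
  have h2 := ModularForm.hasSum_qExpansion f (h := 1) one_pos h1 z
  have e : ∀ m : ℕ, Function.Periodic.qParam 1 (z : ℂ) ^ m =
      Complex.exp (2 * Real.pi * Complex.I * m * z) := by
    intro m
    rw [Function.Periodic.qParam, ← Complex.exp_nat_mul]
    congr 1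
    push_cast
    ring
  simp only [e] at h2
  exact h2

lemma coeff_zero {N : ℕ} [NeZero N] {k : ℤ} {f : ℍ → ℂ} {a : ℕ → ℂ} (hf : IsCF (Gamma0 N) k f)
    (ha : QS f a) : a 0 = 0 := by
  obtain ⟨c, hc, h⟩ := hf.exp_decay
  refine ha.coeff_eq_zero (c := c / (2 * Real.pi)) ?_ (by rw [Nat.cast_zero]; positivity)
  have e : ∀ y : ℝ, -2 * Real.pi * (c / (2 * Real.pi)) * y = -c * y := fun y => by
    field_simp
  simpa only [e] using h

end Pool.Agent.Lib.MP_03e5d0_nt.B
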