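import Pool.Agent.Lib.MP_03e5d0_nt.BFr

/-! From Fourier expansions to the dual sum. -/

set_option autoImplicit false

noncomputable section

namespace Pool.Agent.Lib.MP_03e5d0_nt.B

open Finset CongruenceSubgroup UpperHalfPlane Pool.Agent.Lib.MP_88d29b_nt.G
open scoped MatrixGroups ModularForm Manifold NumberTheorySymbols

theorem bdual_mem {q : ℕ} (hq : q ≠ 0) {n : ℕ} :
    n ∈ Nat.factoredNumbers q.primeFactors ↔ ∀ p : ℕ, p.Prime → p ∣ n → p ∣ q := by
  rw [Nat.mem_factoredNumbers']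
  exact forall₃_congr fun p hp _ => by simp [hp, hq]

theorem bdual_cop {q : ℕ} (hq : q ≠ 0) {n m : ℕ} (hn : n ∈ Nat.factoredNumbers q.primeFactors)
    (hm : m.Coprime q) : n.Coprime m :=
  Nat.coprime_of_dvd fun p hp h1 h2 =>
    hp.one_lt.ne' (Nat.eq_one_of_dvd_coprimes hm h2 ((bdual_mem hq).1 hn p hp h1))

theorem bdual_ex {q : ℕ} (hq : q ≠ 0) (n : ℕ) : n ≠ 0 →
    ∃ n₀ ∈ Nat.factoredNumbers q.primeFactors, ∃ n' : ℕ, n'.Coprime q ∧ n₀ * n' = n := by
  induction n using Nat.strong_induction_on with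
  | _ n ih =>
    intro hn
    by_cases h : n.Coprime q
    · exact ⟨1, (bdual_mem hq).2 fun p hp h1 => absurd h1 hp.not_dvd_one, n, h, one_mul n⟩
    · obtain ⟨p, hp, ⟨m, rfl⟩, h2⟩ := Nat.Prime.not_coprime_iff_dvd.1 h
      have hm : m ≠ 0 := right_ne_zero_of_mul hn
      obtain ⟨n₀, h3, n', h4, rfl⟩ := ih m (lt_mul_left (Nat.pos_of_ne_zero hm) hp.one_lt) hm
      refine ⟨p * n₀, (bdual_mem hq).2 fun r hr h5 => ?_, n', h4, mul_assoc _ _ _⟩
      rcases (Nat.Prime.dvd_mul hr).1 h5 with h6 | h6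
      · exact h6.trans h2
      · exact (bdual_mem hq).1 h3 r hr h6

/-- Sketch: `D.F k w = G (ofComplex w)` for `im w > 0` (`gq2_at`, `HasSum.tsum_eq`), so the value is
`sl 2 G (wMat C) (ofComplex z)` (`sl_wMat`), the sum of `β n e(n z)`. The map `(n₀, n') ↦ n₀ n'` from
`{(n₀, n') | n₀ smooth, n' coprime to q}` to `ℕ` is injective with image the positive integers
(`Function.Injective.hasSum_iff`; `2 ∣ q` excludes `n' = 0`); extend by zero to `ℕ × ℕ`
(`hasSum_subtype_iff_of_support_subset`, `lam_zero`), then `HasSum.prod_fiberwise`. -/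
theorem dual_of_qs (D : Data) {k : ℤ} {C : ℕ} (hC : 0 < C) {G : ℍ → ℂ} {β : ℕ → ℂ} {γ : ℕ → ℝ}
    (hG : QS G (D.co k)) (hβ : QS (sl 2 G (wMat C)) β) (h0 : β 0 = 0)
    (hγ : ∀ n, n ∉ Nat.factoredNumbers D.q.primeFactors → γ n = 0)
    (hm : ∀ n₀ ∈ Nat.factoredNumbers D.q.primeFactors, ∀ n' : ℕ, n'.Coprime D.q →
      β (n₀ * n') = (γ n₀ : ℂ) * n₀ * D.co k n') : D.Dual k C γ := by
  intro z hz
  have hF : ∀ w : ℂ, 0 < w.im → D.F k w = G (ofComplex w) := fun w hw => (gq2_at hG hw).tsum_eq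
  have hw : 0 < (-1 / ((C : ℂ) * z)).im := by
    have hC' : (0 : ℝ) < C := by exact_mod_cast hC
    have hz0 : (C : ℂ) * z ≠ 0 :=
      mul_ne_zero (by exact_mod_cast hC.ne') fun h => by simp [h] at hz
    rw [neg_div, one_div, Complex.neg_im, Complex.inv_im, neg_div, neg_neg]
    exact div_pos (by simpa using mul_pos hC' hz) (Complex.normSq_pos.2 hz0)
  have h1 := gq2_at hβ hz
  rw [sl_wMat hC G hz, ← hF _ hw] at h1
  let S : Set (ℕ × ℕ) := {x | x.1 ∈ Nat.factoredNumbers D.q.primeFactors ∧ x.2.Coprime D.q}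
  have hinj : Function.Injective fun x : S => x.1.1 * x.1.2 := by
    rintro ⟨⟨a, b⟩, ha, hb⟩ ⟨⟨c, d⟩, hc, hd⟩ e
    dsimp only at e ha hb hc hd
    have e1 : a = c := Nat.dvd_antisymm
      ((bdual_cop D.q_ne ha hd).dvd_of_dvd_mul_right ⟨b, e.symm⟩)
      ((bdual_cop D.q_ne hc hb).dvd_of_dvd_mul_right ⟨d, e⟩)
    subst e1
    rw [Subtype.mk.injEq, Nat.eq_of_mul_eq_mul_left (Nat.pos_of_ne_zero ha.1) e]
  have h2 := (hinj.hasSum_iff fun n hn => by
    rcases eq_or_ne n 0 with rfl | h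
    · rw [h0, zero_mul]
    · obtain ⟨n₀, h3, n', h4, e⟩ := bdual_ex D.q_ne n h
      exact absurd ⟨⟨(n₀, n'), h3, h4⟩, e⟩ hn).2 h1
  have h3 : HasSum (fun x : ℕ × ℕ => (γ x.1 : ℂ) * x.1 *
      (D.co k x.2 * Complex.exp (2 * Real.pi * Complex.I * x.2 * (x.1 * z))))
      (D.F k (-1 / (C * z)) / (C * z ^ 2)) := by
    refine (hasSum_subtype_iff_of_support_subset (s := S) fun x hx => ?_).1 (h2.congr fun s =>
      sum_congr rfl fun x _ => ?_)
    · by_contra h
      rcases not_and_or.1 h with h | h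
      · exact hx (by simp [hγ _ h])
      · exact hx (by simp [Data.co, D.lam_zero _ h])
    · simp only [Function.comp]
      rw [hm _ x.2.1 _ x.2.2, mul_assoc]
      push_cast
      congr 3
      ring
  refine h3.prod_fiberwise fun n => ?_
  rcases Nat.eq_zero_or_pos n with rfl | hn
  · simp
  · have hn' : (0 : ℝ) < n := by exact_mod_cast hn
    exact (gq2_at hG (w := n * z) (by simpa using mul_pos hn' hz)).summable.hasSum.mul_left _

end Pool.Agent.Lib.MP_03e5d0_nt.B
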