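import Pool.Agent.Lib.MP_03e5d0_nt.BDefs

/-! Jacobi symbols. -/

set_option autoImplicit false

noncomputable section

namespace Pool.Agent.Lib.MP_03e5d0_nt.B

open Finset CongruenceSubgroup UpperHalfPlane Pool.Agent.Lib.MP_88d29b_nt.G
open scoped MatrixGroups ModularForm Manifold NumberTheorySymbols

theorem bjac_four {d : ℤ} (hd : d % 4 = 1) {n : ℕ} (hn : Odd n) :
    J(d | n) = J((n : ℤ) | d.natAbs) := by
  obtain ⟨c, rfl | rfl⟩ := d.eq_nat_or_neg
  · rw [Int.natAbs_natCast]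
    exact jacobiSym.quadratic_reciprocity_one_mod_four (by omega) hn
  · rw [Int.natAbs_neg, Int.natAbs_natCast, jacobiSym.neg _ hn]
    have hc : c % 4 = 3 := by omega
    rcases Nat.odd_mod_four_iff.1 (Nat.odd_iff.1 hn) with h | h
    · rw [ZMod.χ₄_nat_one_mod_four h, one_mul]
      exact jacobiSym.quadratic_reciprocity_one_mod_four' (Nat.odd_iff.2 (by omega)) h
    · rw [ZMod.χ₄_nat_three_mod_four h, jacobiSym.quadratic_reciprocity_three_mod_four hc h]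
      ring

/-- Sketch: `n = 2 ^ e n'` with `n'` odd; `jacobiSym.mul_right`, `jacobiSym.pow_right`,
`J(d | 2) = 1` for odd `d`, `jacobiSym.at_two`, `|d| ≡ ±1 (mod 8)`; for odd `n'` use
`jacobiSym.quadratic_reciprocity_one_mod_four` (`d > 0`) or `jacobiSym.neg` with
`jacobiSym.quadratic_reciprocity` (`d < 0`, `|d| ≡ 3 (mod 4)`). -/
theorem jac_eight {d : ℤ} (hd : d ≡ 1 [ZMOD 8]) {n : ℕ} (hn : n ≠ 0) :
    J(d | n) = J((n : ℤ) | d.natAbs) := by
  have h8 : d % 8 = 1 := hd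
  obtain ⟨e, m, hm, rfl⟩ := Nat.exists_eq_two_pow_mul_odd hn
  have h1 : J(d | 2) = 1 := by
    rw [jacobiSym.mod_left' (a₂ := 1) (by omega), jacobiSym.one_left]
  have h2 : J(2 | d.natAbs) = 1 := by
    rw [jacobiSym.at_two (Nat.odd_iff.2 (by omega)), ZMod.χ₈_nat_eq_if_mod_eight,
      if_neg (by omega), if_pos (by omega)]
  rw [jacobiSym.mul_right' d (by positivity) hm.pos.ne', jacobiSym.pow_right, h1, Nat.cast_mul,
    jacobiSym.mul_left, Nat.cast_pow, jacobiSym.pow_left, Nat.cast_ofNat, h2,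
    bjac_four (by omega) hm]

/-- Sketch: `c₁ = gcd (|k|, q)`, `|k| = c₁ c`; `c` is squarefree and coprime to `q` (a common prime
`p` of `c` and `q` divides `c₁`, so `p ^ 2 ∣ k`), hence odd. `c* = ± c ≡ 1 (mod 4)`, `k = k₀ c*`
with `k₀ = ± c₁`; `J(c* | n) = J(n | c)` for odd `n` by reciprocity. -/
theorem exists_decomp {q : ℕ} (hq : q ≠ 0) (h2 : 2 ∣ q) {k : ℤ} (hk : Squarefree k) :
    ∃ (k₀ : ℤ) (c : ℕ), k₀ ∣ (q : ℤ) ∧ Squarefree c ∧ c.Coprime q ∧ k₀.natAbs * c = k.natAbs ∧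
      ∀ n : ℕ, Odd n → J(k | n) = J(k₀ | n) * J((n : ℤ) | c) := by
  have hk' : Squarefree k.natAbs := Int.squarefree_natAbs.2 hk
  obtain ⟨c, hc⟩ := Nat.gcd_dvd_left k.natAbs q
  have h1 : c.Coprime q := by
    refine Nat.coprime_of_dvd fun p hp a1 a2 => ?_
    have a3 : p ∣ k.natAbs.gcd q := Nat.dvd_gcd (a1.trans (Dvd.intro_left _ hc.symm)) a2
    exact hp.not_isUnit (hk' p (hc ▸ Nat.mul_dvd_mul a3 a1))
  have h3 : c % 2 = 1 := by
    by_contra hn
    have := Nat.dvd_gcd (show 2 ∣ c by omega) h2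
    rw [h1] at this
    omega
  obtain ⟨u, u1, u2⟩ : ∃ u : ℤ, u % 4 = 1 ∧ u.natAbs = c := by
    rcases Nat.odd_mod_four_iff.1 h3 with h | h
    · exact ⟨c, by omega, by omega⟩
    · exact ⟨-c, by omega, by omega⟩
  obtain ⟨k₀, h0⟩ : u ∣ k := by
    rw [← Int.natAbs_dvd_natAbs, u2]
    exact Dvd.intro_left _ hc.symm
  have h4 : k₀.natAbs * c = k.natAbs := by rw [h0, Int.natAbs_mul, u2, mul_comm]
  refine ⟨k₀, c, ?_, hk'.squarefree_of_dvd (Dvd.intro_left _ hc.symm), h1, h4, fun n hn => ?_⟩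
  · have h5 : k₀.natAbs = k.natAbs.gcd q :=
      Nat.eq_of_mul_eq_mul_right (show 0 < c by omega) (h4.trans hc)
    rw [← Int.natAbs_dvd, Int.natCast_dvd_natCast, h5]
    exact Nat.gcd_dvd_right _ _
  · rw [h0, jacobiSym.mul_left, bjac_four u1 hn, u2, mul_comm]

/-- Sketch: `jac_eight`; induction on the prime factors of `n`, `jacobiSym.mod_left'`,
`jacobiSym.one_left`. -/
theorem jac_smooth {q : ℕ} {d : ℤ} (hd : d ≡ 1 [ZMOD 8 * q]) {n : ℕ}
    (hn : n ∈ Nat.factoredNumbers q.primeFactors) : J((n : ℤ) | d.natAbs) = 1 := by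
  rw [← jac_eight (hd.of_mul_right _) hn.1]
  induction n using induction_on_primes with
  | zero => exact jacobiSym.zero_right d
  | one => exact jacobiSym.one_right d
  | prime_mul p a hp ih =>
    have h1 := Nat.mem_factoredNumbers_of_dvd hn (dvd_mul_left a p)
    have h2 := Nat.mem_factoredNumbers'.1 hn p hp (dvd_mul_right p a)
    have h3 : d ≡ 1 [ZMOD p] := (hd.of_mul_left _).of_dvd
      (Int.natCast_dvd_natCast.2 (Nat.dvd_of_mem_primeFactors h2))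
    rw [jacobiSym.mul_right' d hp.ne_zero h1.1, ih h1, jacobiSym.mod_left' h3, jacobiSym.one_left,
      one_mul]

/-- Sketch: `jacobiSym.at_neg_one`, `ZMod.χ₄_nat_one_mod_four`, `ZMod.χ₄_nat_three_mod_four`. -/
theorem jac_neg_one {d : ℤ} (hd : d ≡ 1 [ZMOD 4]) : J(-1 | d.natAbs) = d.sign := by
  have h4 : d % 4 = 1 := hd
  rw [jacobiSym.at_neg_one (Nat.odd_iff.2 (by omega))]
  rcases lt_or_gt_of_ne (show d ≠ 0 by omega) with h | h
  · rw [ZMod.χ₄_nat_three_mod_four (by omega), Int.sign_eq_neg_one_of_neg h]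
  · rw [ZMod.χ₄_nat_one_mod_four (by omega), Int.sign_eq_one_of_pos h]

/-- The function `n ↦ J(k | n)` on the integers coprime to `q`, as a function on `ZMod (4 q)`. -/
def xi (q : ℕ) (k : ℤ) (x : ZMod (4 * q)) : ℂ :=
  if x.val.Coprime q then ((J(k | x.val) : ℤ) : ℂ) else 0

/-- Sketch: `ZMod.val_natCast`; `n % (4 q)` is coprime to `q` iff `n` is; `jacobiSym.mod_right`
twice and `Nat.mod_mod_of_dvd` (`4 |k| ∣ 4 q`). -/
theorem xi_natCast {q : ℕ} (hq : q ≠ 0) (h2 : 2 ∣ q) {k : ℤ} (hk : k ∣ (q : ℤ)) (n : ℕ) :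
    xi q k (n : ZMod (4 * q)) = if n.Coprime q then ((J(k | n) : ℤ) : ℂ) else 0 := by
  have h1 : ∀ m : ℕ, m.Coprime q → Odd m := fun m hm => by
    by_contra hn
    have := Nat.dvd_gcd (Nat.not_odd_iff_even.1 hn).two_dvd h2
    rw [hm] at this
    omega
  have h3 : (n % (4 * q)).Coprime q ↔ n.Coprime q := by
    unfold Nat.Coprime
    rw [Nat.ModEq.gcd_eq ((Nat.mod_modEq n (4 * q)).of_mul_left 4)]
  unfold xi
  rw [ZMod.val_natCast]
  by_cases hn : n.Coprime q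
  · rw [if_pos hn, if_pos (h3.2 hn), jacobiSym.mod_right k (h1 _ hn),
      jacobiSym.mod_right k (h1 _ (h3.2 hn)), Nat.mod_mod_of_dvd _
        (Nat.mul_dvd_mul_left 4 (Int.natCast_dvd_natCast.1 (Int.natAbs_dvd.2 hk)))]
  · rw [if_neg hn, if_neg (mt h3.1 hn)]

/-- Sketch: write `x * u ^ 2` as the cast of `x.val * (w * w)`, `w = u.val` coprime to `4 q`
(`ZMod.val_coe_unit_coprime`); `xi_natCast`, `jacobiSym.mul_right'`, `jacobiSym.sq_one`. -/
theorem xi_sq {q : ℕ} (hq : q ≠ 0) (h2 : 2 ∣ q) {k : ℤ} (hk : k ∣ (q : ℤ)) (u : (ZMod (4 * q))ˣ)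
    (x : ZMod (4 * q)) : xi q k (x * (u : ZMod (4 * q)) ^ 2) = xi q k x := by
  have : NeZero (4 * q) := ⟨by omega⟩
  have hw := (ZMod.val_coe_unit_coprime u).coprime_dvd_right (dvd_mul_left q 4)
  have e : x * (u : ZMod (4 * q)) ^ 2 = ((x.val * (u : ZMod (4 * q)).val ^ 2 : ℕ) : ZMod (4 * q)) := by
    rw [Nat.cast_mul, Nat.cast_pow, ZMod.natCast_zmod_val, ZMod.natCast_zmod_val]
  rw [e, xi_natCast hq h2 hk, xi]
  generalize (u : ZMod (4 * q)).val = w at hw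
  generalize x.val = n
  have h1 : ∀ m : ℕ, m.Coprime q → m ≠ 0 := fun m hm h0 => by
    rw [h0, Nat.coprime_zero_left] at hm
    omega
  by_cases hn : n.Coprime q
  · have h3 : k.gcd w = 1 := by
      rw [Int.gcd_eq_natAbs_gcd_natAbs, Int.natAbs_natCast]
      exact (hw.coprime_dvd_right (Int.natCast_dvd_natCast.1 (Int.natAbs_dvd.2 hk))).symm
    rw [if_pos hn, if_pos (hn.mul_left (hw.pow_left 2)),
      jacobiSym.mul_right' k (h1 n hn) (pow_ne_zero 2 (h1 w hw)), jacobiSym.pow_right,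
      jacobiSym.sq_one h3, mul_one]
  · rw [if_neg hn, if_neg fun h => hn (Nat.Coprime.coprime_mul_right h)]

end Pool.Agent.Lib.MP_03e5d0_nt.B
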