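import Pool.Agent.Lib.MP_03e5d0_nt.BTw
import Pool.Agent.Lib.MP_03e5d0_nt.BJac

/-! Analytic continuation of twisted `L`-series. -/

set_option autoImplicit false

noncomputable section

namespace Pool.Agent.Lib.MP_03e5d0_nt.B

open Finset CongruenceSubgroup UpperHalfPlane Pool.Agent.Lib.MP_88d29b_nt.G
open scoped MatrixGroups ModularForm Manifold NumberTheorySymbols

theorem entire_twist {N : ℕ} [NeZero N] (f : CuspForm (CongruenceSubgroup.Gamma0 N) 2) {d : ℤ}
    (hd : d ≡ 1 [ZMOD 8]) : ∃ F : ℂ → ℂ, Differentiable ℂ F ∧ ∀ s : ℂ, 2 < s.re →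
      F s = LSeries (fun n => (UpperHalfPlane.qExpansion 1 f).coeff n * (J(d | n) : ℂ)) s := by
  have hd0 : d.natAbs ≠ 0 := by
    intro h
    rw [Int.natAbs_eq_zero] at h
    rw [h] at hd
    exact absurd hd (by decide)
  have : NeZero d.natAbs := ⟨hd0⟩
  have : NeZero (N * d.natAbs ^ 2) := ⟨mul_ne_zero (NeZero.ne N) (pow_ne_zero 2 hd0)⟩
  let ξ : ZMod d.natAbs → ℂ := fun x => ((J((x.val : ℤ) | d.natAbs) : ℤ) : ℂ)
  have hξn : ∀ n : ℕ, ξ (n : ZMod d.natAbs) = ((J((n : ℤ) | d.natAbs) : ℤ) : ℂ) := by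
    intro n
    simp only [ξ]
    rw [ZMod.val_natCast, Int.natCast_mod, ← jacobiSym.mod_left]
  have hξ : ∀ (u : (ZMod d.natAbs)ˣ) (x : ZMod d.natAbs),
      ξ (x * (u : ZMod d.natAbs) ^ 2) = ξ x := by
    intro u x
    have e : x * (u : ZMod d.natAbs) ^ 2
        = ((x.val * (u : ZMod d.natAbs).val ^ 2 : ℕ) : ZMod d.natAbs) := by
      push_cast
      rw [ZMod.natCast_zmod_val, ZMod.natCast_zmod_val]
    have hu : Int.gcd ((u : ZMod d.natAbs).val : ℤ) d.natAbs = 1 := by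
      rw [Int.gcd_natCast_natCast]
      exact ZMod.val_coe_unit_coprime u
    rw [e, hξn, Nat.cast_mul, Nat.cast_pow, jacobiSym.mul_left, jacobiSym.sq_one' hu, mul_one]
  have hG := isCF_twF (isCF_coe f) hξ
  have hQ := qs_twF (qs_coe f) d.natAbs ξ
  have hc := (qs_coe hG.mk').unique hQ
  have hw : (Gamma0 (N * d.natAbs ^ 2) : Subgroup (GL (Fin 2) ℝ)).strictWidthInfty = 1 :=
    strictWidthInfty_Gamma0 _
  refine ⟨ModularForm.L (k := 2) two_pos hG.mk', CuspForm.differentiable_L _ _, fun s hs => ?_⟩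
  have h1 := CuspForm.hasSum_L (k := 2) two_pos hG.mk' (s := s) (by push_cast; linarith)
  rw [hw] at h1
  simp only [Complex.ofReal_one, Complex.one_cpow, one_mul] at h1
  rw [← h1.tsum_eq, LSeries]
  refine tsum_congr fun n => ?_
  have h2 := congrFun hc n
  rcases eq_or_ne n 0 with rfl | hn
  · have hs0 : s ≠ 0 := by
      rintro rfl
      rw [Complex.zero_re] at hs
      linarith
    simp [Complex.zero_cpow hs0]
  · rw [LSeries.term_of_ne_zero hn, h2, hξn, jac_eight hd hn]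

end Pool.Agent.Lib.MP_03e5d0_nt.B
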