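import Pool.Agent.Lib.MP_03e5d0_nt.BDefs

/-! Hecke relations for coefficients. -/

set_option autoImplicit false

noncomputable section

namespace Pool.Agent.Lib.MP_03e5d0_nt.B

open Finset CongruenceSubgroup UpperHalfPlane Pool.Agent.Lib.MP_88d29b_nt.G
open scoped MatrixGroups ModularForm Manifold NumberTheorySymbols

/-- Sketch: if `n` is not coprime to `q` all terms vanish (`lam_zero`; `n = 0` included since
`2 ∣ q`). Otherwise `n = p ^ j n'` with `p ∤ n'` (`Nat.exists_eq_pow_mul_and_not_dvd`), `lam_mul`,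
`lam_rec`, `lam_one`. -/
theorem lam_hecke (D : Data) {p : ℕ} (hp : p.Prime) (hpq : ¬p ∣ D.q) (n : ℕ) :
    D.lam (p * n) + (if p ∣ n then D.lam (n / p) else 0) = D.lam p * D.lam n := by
  rcases eq_or_ne n 0 with rfl | hn
  · have h0 : D.lam 0 = 0 := D.lam_zero 0 fun h => by
      have h2 := D.small 2 Nat.prime_two (by norm_num)
      rw [(Nat.coprime_zero_left _).1 h] at h2
      norm_num at h2
    simp [h0]
  obtain ⟨j, n', h1, rfl⟩ := Nat.exists_eq_pow_mul_and_not_dvd hn p hp.ne_one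
  have hc : ∀ i, D.lam (p ^ i * n') = D.lam (p ^ i) * D.lam n' := fun i =>
    D.lam_mul _ _ (Nat.Coprime.pow_left i ((Nat.Prime.coprime_iff_not_dvd hp).2 h1))
  rw [← mul_assoc, ← pow_succ', hc, hc]
  rcases j with _ | j
  · rw [pow_zero, one_mul, if_neg h1, D.lam_one, zero_add, pow_one]
    ring
  · have e : p ^ (j + 1) * n' = p * (p ^ j * n') := by ring
    rw [e, if_pos (dvd_mul_right _ _), Nat.mul_div_cancel_left _ hp.pos, hc,
      D.lam_rec p j hp hpq]
    ring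

/-- Sketch: `lam_hecke`; for `n ≠ 0`, `J(k | p n) = J(k | p) J(k | n)`, `J(k | p) ^ 2 = 1`
(`jacobiSym.sq_one`), `√(p n) = √p √n`, and for `n = p m`: `p √m = √p √(p m)`. -/
theorem co_hecke (D : Data) {k : ℤ} (hk : k ∣ (D.q : ℤ)) {p : ℕ} (hp : p.Prime) (hpq : ¬p ∣ D.q)
    (n : ℕ) : D.co k (p * n) + (if p ∣ n then (p : ℂ) * D.co k (n / p) else 0) =
      D.co k p * D.co k n := by
  rcases eq_or_ne n 0 with rfl | hn
  · simp [Data.co]
  have h1 := lam_hecke D hp hpq n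
  have hJ : (J(k | p) : ℝ) ^ 2 = 1 := by
    have hg : k.gcd p = 1 := by
      rw [Int.gcd_comm, Int.gcd, Int.natAbs_natCast]
      refine (Nat.Prime.coprime_iff_not_dvd hp).2 fun h => hpq (h.trans ?_)
      simpa using Int.natAbs_dvd_natAbs.2 hk
    exact_mod_cast jacobiSym.sq_one hg
  have hs : ∀ m : ℕ, √((p * m : ℕ) : ℝ) = √p * √m := fun m => by
    rw [Nat.cast_mul, Real.sqrt_mul (Nat.cast_nonneg _)]
  have hp2 : √(p : ℝ) * √p = p := Real.mul_self_sqrt (Nat.cast_nonneg _)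
  unfold Data.co
  split_ifs at h1 ⊢ with h
  · obtain ⟨m, rfl⟩ := h
    have hm : m ≠ 0 := right_ne_zero_of_mul hn
    rw [Nat.mul_div_cancel_left _ hp.pos] at h1 ⊢
    rw [jacobiSym.mul_right' k hp.ne_zero hn, jacobiSym.mul_right' k hp.ne_zero hm, hs, hs,
      ← Complex.ofReal_natCast p, ← Complex.ofReal_mul, ← Complex.ofReal_mul,
      ← Complex.ofReal_add, Complex.ofReal_inj]
    push_cast
    linear_combination (J(k | p) : ℝ) ^ 2 * J(k | m) * (√p * √p * √m) * h1 -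
      D.lam m * J(k | m) * √m * (√p * √p) * hJ - D.lam m * J(k | m) * √m * hp2
  · rw [add_zero] at h1 ⊢
    rw [jacobiSym.mul_right' k hp.ne_zero hn, hs, h1, ← Complex.ofReal_mul, Complex.ofReal_inj]
    push_cast
    ring

/-- Sketch: strong induction on `n'`; `n' = p n''` with `p` prime, `p ∤ q`, `p ∤ n₀`; use the
relation for `b` at `n₀ n''` and for `a` at `n''`. -/
theorem coeff_mul {q : ℕ} (hq : q ≠ 0) {a b μ : ℕ → ℂ} (ha1 : a 1 = 1)
    (ha : ∀ p : ℕ, p.Prime → ¬p ∣ q → ∀ n : ℕ,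
      a (p * n) + (if p ∣ n then (p : ℂ) * a (n / p) else 0) = μ p * a n)
    (hb : ∀ p : ℕ, p.Prime → ¬p ∣ q → ∀ n : ℕ,
      b (p * n) + (if p ∣ n then (p : ℂ) * b (n / p) else 0) = μ p * b n)
    {n₀ n' : ℕ} (h0 : n₀ ∈ Nat.factoredNumbers q.primeFactors) (hn' : n' ≠ 0)
    (h' : n'.Coprime q) : b (n₀ * n') = b n₀ * a n' := by
  induction n' using Nat.strong_induction_on with
  | _ n' ih =>
  rcases eq_or_ne n' 1 with rfl | h1
  · rw [mul_one, ha1, mul_one]
  obtain ⟨p, hp, m, rfl⟩ := Nat.exists_prime_and_dvd h1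
  have hm : m ≠ 0 := right_ne_zero_of_mul hn'
  have hpq : ¬p ∣ q := (Nat.Prime.coprime_iff_not_dvd hp).1 (Nat.Coprime.coprime_mul_right h')
  have hp0 : ¬p ∣ n₀ := fun h =>
    hpq (Nat.dvd_of_mem_primeFactors (Nat.mem_factoredNumbers'.1 h0 p hp h))
  have hlt : m < p * m := by
    have := hp.two_le
    have := Nat.pos_of_ne_zero hm
    nlinarith
  have hc : m.Coprime q := Nat.Coprime.coprime_mul_left h'
  have e1 := hb p hp hpq (n₀ * m)
  have e2 := ha p hp hpq m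
  rw [ih m hlt hm hc, mul_left_comm] at e1
  by_cases h : p ∣ m
  · rw [if_pos (h.mul_left _), Nat.mul_div_assoc _ h, ih (m / p)
      ((Nat.div_le_self _ _).trans_lt hlt) (Nat.div_pos (Nat.le_of_dvd (Nat.pos_of_ne_zero hm) h)
        hp.pos).ne' (Nat.Coprime.coprime_dvd_left (Nat.div_dvd_of_dvd h) hc)] at e1
    rw [if_pos h] at e2
    linear_combination e1 - b n₀ * e2
  · rw [if_neg fun h2 => ((Nat.Prime.dvd_mul hp).1 h2).elim hp0 h] at e1
    rw [if_neg h] at e2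
    linear_combination e1 - b n₀ * e2

end Pool.Agent.Lib.MP_03e5d0_nt.B
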