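import Pool.Agent.Lib.MP_03e5d0_nt.BDefs

/-! Geometric decay of the powers of an endomorphism; sums over smooth numbers. -/

set_option autoImplicit false

noncomputable section

namespace Pool.Agent.Lib.MP_03e5d0_nt.B

open Finset CongruenceSubgroup UpperHalfPlane Pool.Agent.Lib.MP_88d29b_nt.G
open scoped MatrixGroups ModularForm Manifold NumberTheorySymbols

variable {V : Type*} [AddCommGroup V] [Module ℂ V]

lemma bsp_rho {r : ℝ} (hr : 0 < r) (s : Multiset ℂ) (h : ∀ α ∈ s, ‖α‖ < r) :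
    ∃ ρ : ℝ, 0 ≤ ρ ∧ ρ < r ∧ ∀ α ∈ s, ‖α‖ < ρ := by
  induction s using Multiset.induction_on with
  | empty => exact ⟨0, le_rfl, hr, fun α hα => absurd hα (Multiset.notMem_zero α)⟩
  | cons a s ih =>
    obtain ⟨ρ, h0, h1, h2⟩ := ih fun α hα => h α (Multiset.mem_cons_of_mem hα)
    have ha := h a (Multiset.mem_cons_self a s)
    refine ⟨max ρ ((‖a‖ + r) / 2), le_max_of_le_left h0, max_lt h1 (by linarith), fun α hα => ?_⟩
    rcases Multiset.mem_cons.1 hα with rfl | hα
    · exact lt_max_of_lt_right (by linarith)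
    · exact lt_max_of_lt_left (h2 α hα)

lemma bsp_rec {u w : ℕ → ℂ} {a : ℂ} {ρ C : ℝ} (ha : ‖a‖ < ρ) (hw : ∀ j, ‖w j‖ ≤ C * ρ ^ j)
    (hu : ∀ j, u (j + 1) = w j + a * u j) : ∃ C' : ℝ, ∀ j, ‖u j‖ ≤ C' * ρ ^ j := by
  have hρ : 0 ≤ ρ := (norm_nonneg a).trans ha.le
  have hd : 0 < ρ - ‖a‖ := sub_pos.2 ha
  refine ⟨max ‖u 0‖ (C / (ρ - ‖a‖)), fun j => ?_⟩
  induction j with
  | zero => simp
  | succ j ih =>
    have h1 : C ≤ max ‖u 0‖ (C / (ρ - ‖a‖)) * (ρ - ‖a‖) := (div_le_iff₀ hd).1 (le_max_right _ _)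
    have h2 := mul_le_mul_of_nonneg_right h1 (pow_nonneg hρ j)
    have h3 := mul_le_mul_of_nonneg_left ih (norm_nonneg a)
    have h4 := norm_add_le (w j) (a * u j)
    have h5 := hw j
    rw [norm_mul] at h4
    rw [hu, pow_succ]
    nlinarith

lemma bsp_prod (T : V →ₗ[ℂ] V) {ρ : ℝ} (ℓ : V →ₗ[ℂ] ℂ) (s : Multiset ℂ) (h : ∀ α ∈ s, ‖α‖ < ρ) :
    ∀ v : V, Polynomial.aeval T (s.map (Polynomial.X - Polynomial.C ·)).prod v = 0 →
      ∃ C : ℝ, ∀ j : ℕ, ‖ℓ ((T ^ j) v)‖ ≤ C * ρ ^ j := by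
  induction s using Multiset.induction_on with
  | empty =>
    intro v hv
    have h0 : v = 0 := by simpa using hv
    exact ⟨0, fun j => by simp [h0]⟩
  | cons a s ih =>
    intro v hv
    rw [Multiset.map_cons, Multiset.prod_cons, mul_comm, map_mul, Module.End.mul_apply] at hv
    obtain ⟨C, hC⟩ := ih (fun α hα => h α (Multiset.mem_cons_of_mem hα)) _ hv
    refine bsp_rec (h a (Multiset.mem_cons_self a s)) hC fun j => ?_
    simp [pow_succ]

/-- Sketch: the roots of `minpoly ℂ T` (or `charpoly`) are eigenvalues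
(`Module.End.hasEigenvalue_iff_isRoot`), finitely many, so all have norm `< ρ` for some `ρ < r`.
Induction on a list (or multiset) `l` of numbers of norm `< ρ`: if `∏ (T - α) v = 0` then
`‖ℓ (T ^ j v)‖ ≤ C ρ ^ j`; step: `u j = ℓ (T ^ j v)` has `u (j + 1) = α u j + w j` with
`‖w j‖ ≤ C ρ ^ j`, so `‖u j‖ ≤ C' ρ ^ j` with `C' = max ‖u 0‖ (C / (ρ - ‖α‖))`.
(Alternative: `Module.End.iSup_maxGenEigenspace_eq_top`.) -/
theorem geom_decay [Module.Finite ℂ V] (T : V →ₗ[ℂ] V) {r : ℝ} (hr : 0 < r)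
    (h : ∀ (α : ℂ) (v : V), v ≠ 0 → T v = α • v → ‖α‖ < r) :
    ∃ ρ : ℝ, 0 ≤ ρ ∧ ρ < r ∧ ∀ (ℓ : V →ₗ[ℂ] ℂ) (v : V), ∃ C : ℝ, ∀ j : ℕ,
      ‖ℓ ((T ^ j) v)‖ ≤ C * ρ ^ j := by
  have hm : (minpoly ℂ T).Monic := minpoly.monic (Algebra.IsIntegral.isIntegral (R := ℂ) T)
  have he := (IsAlgClosed.splits (minpoly ℂ T)).eq_prod_roots_of_monic hm
  obtain ⟨ρ, h0, h1, h2⟩ := bsp_rho hr (minpoly ℂ T).roots fun α hα => by
    obtain ⟨v, hv⟩ := (Module.End.hasEigenvalue_iff_isRoot.2
      (Polynomial.isRoot_of_mem_roots hα)).exists_hasEigenvector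
    exact h α v hv.2 hv.apply_eq_smul
  refine ⟨ρ, h0, h1, fun ℓ v => bsp_prod T ℓ _ h2 v ?_⟩
  rw [← he, minpoly.aeval, LinearMap.zero_apply]

lemma bsp_sub [Module.Finite ℂ V] (A : ℕ → V →ₗ[ℂ] ℂ) (U : ℕ → V →ₗ[ℂ] V) (S : Finset ℕ)
    (hS : ∀ p ∈ S, p.Prime) (hU : ∀ p ∈ S, ∀ (n : ℕ) (v : V), A n (U p v) = A (p * n) v)
    (hα : ∀ p ∈ S, ∀ (α : ℂ) (v : V), v ≠ 0 → U p v = α • v → ‖α‖ < p) (v : V) :
    Summable fun n : Nat.factoredNumbers S => ‖A n v‖ / (n : ℕ) * (1 + Real.log (n : ℕ)) := by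
  induction S using Finset.induction_on generalizing v with
  | empty =>
    have : Finite (Nat.factoredNumbers ∅) := by
      rw [Nat.factoredNumbers_empty]
      infer_instance
    exact Summable.of_finite
  | insert p S hp ih =>
    have ih' := ih (fun q hq => hS q (mem_insert_of_mem hq))
      (fun q hq => hU q (mem_insert_of_mem hq)) (fun q hq => hα q (mem_insert_of_mem hq))
    have pp := hS p (mem_insert_self p S)
    have p0 : (0 : ℝ) < p := by exact_mod_cast pp.pos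
    have lp : 0 ≤ Real.log p := Real.log_natCast_nonneg p
    obtain ⟨ρ, h0, h1, h2⟩ := geom_decay (U p) p0 (hα p (mem_insert_self p S))
    let e := Module.finBasis ℂ V
    choose C hC using fun i => h2 (e.coord i) v
    have hA : ∀ j n : ℕ, A n ((U p ^ j) v) = A (p ^ j * n) v := by
      intro j
      induction j with
      | zero => intro n; simp
      | succ j ihj =>
        intro n
        rw [pow_succ', Module.End.mul_apply, hU p (mem_insert_self p S), ihj, pow_succ, mul_assoc]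
    have hq0 : 0 ≤ ρ / p := div_nonneg h0 p0.le
    have hq : ‖ρ / p‖ < 1 := by
      rw [Real.norm_of_nonneg hq0, div_lt_one p0]
      exact h1
    have hg : Summable fun j : ℕ => (ρ / p) ^ j * (1 + j * Real.log p) := by
      have s0 := summable_pow_mul_geometric_of_norm_lt_one 0 hq
      have s1 := (summable_pow_mul_geometric_of_norm_lt_one 1 hq).mul_right (Real.log p)
      refine (s0.add s1).congr fun j => ?_
      ring
    rw [← (Nat.equivProdNatFactoredNumbers pp hp).summable_iff]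
    have hs : Summable fun x : ℕ × Nat.factoredNumbers S => ∑ i, |C i| *
        ((ρ / p) ^ x.1 * (1 + x.1 * Real.log p) *
          (‖A x.2 (e i)‖ / (x.2 : ℕ) * (1 + Real.log (x.2 : ℕ)))) := by
      refine summable_sum fun i _ => Summable.mul_left _ ?_
      refine hg.mul_of_nonneg (ih' (e i)) (fun j => ?_) fun n => ?_
      · positivity
      · have := Real.log_natCast_nonneg n
        positivity
    refine Summable.of_nonneg_of_le (fun x => ?_) (fun x => ?_) hs
    · have := Real.log_natCast_nonneg (Nat.equivProdNatFactoredNumbers pp hp x)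
      simp only [Function.comp_apply]
      positivity
    · obtain ⟨j, n, hn⟩ := x
      have n0 : (0 : ℝ) < n := by exact_mod_cast Nat.pos_of_ne_zero hn.1
      have ln : 0 ≤ Real.log n := Real.log_natCast_nonneg n
      simp only [Function.comp_apply, Nat.equivProdNatFactoredNumbers_apply]
      have e1 : ‖A (p ^ j * n) v‖ ≤ ∑ i, |C i| * ρ ^ j * ‖A n (e i)‖ := by
        rw [← hA]
        conv_lhs => rw [← e.sum_repr ((U p ^ j) v), map_sum]
        refine (norm_sum_le _ _).trans (sum_le_sum fun i _ => ?_)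
        rw [map_smul, norm_smul]
        refine mul_le_mul_of_nonneg_right ((hC i j).trans ?_) (norm_nonneg _)
        exact mul_le_mul_of_nonneg_right (le_abs_self _) (pow_nonneg h0 j)
      have e2 : 1 + Real.log ((p ^ j * n : ℕ) : ℝ) ≤ (1 + j * Real.log p) * (1 + Real.log n) := by
        push_cast
        rw [Real.log_mul (pow_pos p0 j).ne' n0.ne', Real.log_pow]
        have : 0 ≤ j * Real.log p * Real.log n := by positivity
        nlinarith
      have e3 : 0 ≤ 1 + Real.log ((p ^ j * n : ℕ) : ℝ) := by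
        have := Real.log_natCast_nonneg (p ^ j * n)
        positivity
      calc ‖A (p ^ j * n) v‖ / ((p ^ j * n : ℕ) : ℝ) * (1 + Real.log ((p ^ j * n : ℕ) : ℝ))
          ≤ (∑ i, |C i| * ρ ^ j * ‖A n (e i)‖) / ((p ^ j * n : ℕ) : ℝ) *
            ((1 + j * Real.log p) * (1 + Real.log n)) := by gcongr
        _ = _ := by
          rw [sum_div, sum_mul]
          refine sum_congr rfl fun i _ => ?_
          push_cast
          rw [div_pow]
          field_simp

/-- Sketch: `Finset.induction_on S`, for all `v`. Empty set: only `n = 1`. Step `insert p S`: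
`Nat.equivProdNatFactoredNumbers`; with a basis `e i` (`Module.finBasis`),
`A (p ^ j * n) v = A n ((U p ^ j) v) = ∑_i coord_i ((U p ^ j) v) * A n (e i)`, coordinates
`≤ C ρ ^ j` (`geom_decay`), `1 + log (p ^ j n) ≤ (1 + j log p) (1 + log n)`,
`∑_j (ρ / p) ^ j (1 + j log p) < ∞` (`summable_pow_mul_geometric_of_norm_lt_one`),
`Summable.mul_of_nonneg`, `summable_subtype_iff_indicator`. -/
theorem summable_smooth [Module.Finite ℂ V] (A : ℕ → V →ₗ[ℂ] ℂ) (S : Finset ℕ)
    (hS : ∀ p ∈ S, p.Prime) (U : ℕ → V →ₗ[ℂ] V)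
    (hU : ∀ p ∈ S, ∀ (n : ℕ) (v : V), A n (U p v) = A (p * n) v)
    (hα : ∀ p ∈ S, ∀ (α : ℂ) (v : V), v ≠ 0 → U p v = α • v → ‖α‖ < p) (v : V) :
    Summable fun n : ℕ =>
      if n ∈ Nat.factoredNumbers S then ‖A n v‖ / n * (1 + Real.log n) else 0 := by
  have h0 := bsp_sub A U S hS hU hα v
  have h1 := (summable_subtype_iff_indicator (s := Nat.factoredNumbers S)
    (f := fun n : ℕ => ‖A n v‖ / n * (1 + Real.log n))).1 h0
  refine h1.congr fun n => ?_
  by_cases hn : n ∈ Nat.factoredNumbers S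
  · rw [Set.indicator_of_mem hn, if_pos hn]
  · rw [Set.indicator_of_notMem hn, if_neg hn]

end Pool.Agent.Lib.MP_03e5d0_nt.B
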