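import Pool.Agent.Lib.MP_03e5d0_nt.BUp
import Pool.Agent.Lib.MP_03e5d0_nt.BSp

/-! Coefficients of cusp forms at smooth numbers are summable. -/

set_option autoImplicit false

noncomputable section

namespace Pool.Agent.Lib.MP_03e5d0_nt.B

open Finset CongruenceSubgroup UpperHalfPlane Pool.Agent.Lib.MP_88d29b_nt.G
open scoped MatrixGroups ModularForm Manifold NumberTheorySymbols

theorem summable_coeff {M : ℕ} [NeZero M] {f : ℍ → ℂ} {a : ℕ → ℂ} (hf : IsCF (Gamma0 M) 2 f)
    (ha : QS f a) {S : Finset ℕ} (hS : ∀ p ∈ S, p.Prime ∧ p ∣ M) :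
    Summable fun n : ℕ =>
      if n ∈ Nat.factoredNumbers S then ‖a n‖ / n * (1 + Real.log n) else 0 := by
  have : Module.Finite ℂ (CuspForm (Gamma0 M) (2 : ℤ)) := finite_cusp M 2
  let A : ℕ → CuspForm (Gamma0 M) (2 : ℤ) →ₗ[ℂ] ℂ := fun n =>
    { toFun := fun g => (qExpansion 1 g).coeff n
      map_add' := fun g g' => congrFun ((qs_coe (g + g')).unique ((qs_coe g).add (qs_coe g'))) n
      map_smul' := fun c g => congrFun ((qs_coe (c • g)).unique ((qs_coe g).smul c)) n }
  let U : ℕ → CuspForm (Gamma0 M) (2 : ℤ) →ₗ[ℂ] CuspForm (Gamma0 M) (2 : ℤ) := fun p =>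
    if h : 0 < p ∧ p ∣ M then
      { toFun := fun g => (isCF_uF h.1 h.2 (isCF_coe g)).mk'
        map_add' := fun g g' => by
          refine DFunLike.coe_injective ?_
          change uF p (⇑g + ⇑g') = uF p g + uF p g'
          simp only [uF, sl_add, Finset.sum_add_distrib]
        map_smul' := fun c g => by
          refine DFunLike.coe_injective ?_
          change uF p (c • ⇑g) = c • uF p g
          rw [uF, uF, Finset.smul_sum]
          refine Finset.sum_congr rfl fun j _ => sl_smul 2 c g ?_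
          rw [Matrix.det_fin_two_of, one_mul, mul_zero, sub_zero]
          exact_mod_cast h.1 }
    else 0
  have hUc : ∀ p ∈ S, ∀ g, ⇑(U p g) = uF p g := by
    intro p hp g
    simp only [U]
    rw [dif_pos ⟨(hS p hp).1.pos, (hS p hp).2⟩]
    rfl
  have h1 := summable_smooth A S (fun p hp => (hS p hp).1) U (fun p hp n v => ?_)
    (fun p hp α v hv h => ?_) hf.mk'
  · have e : ∀ n, A n hf.mk' = a n := fun n => congrFun ((qs_coe hf.mk').unique ha) n
    simpa only [e] using h1
  · have h2 := qs_coe (U p v)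
    rw [hUc p hp] at h2
    have h3 := congrFun (h2.unique (qs_uF (qs_coe v) (hS p hp).1.pos)) n
    change (qExpansion 1 ⇑(U p v)).coeff n = (qExpansion 1 ⇑v).coeff (p * n)
    rw [hUc p hp]
    exact h3
  · refine norm_eig_lt (hS p hp).1.one_lt (isCF_coe v) (fun h0 => hv ?_) ?_
    · exact DFunLike.coe_injective h0
    · rw [← hUc p hp, h]
      rfl

end Pool.Agent.Lib.MP_03e5d0_nt.B
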