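import Pool.Agent.Lib.MP_03e5d0_nt.BPr
import Pool.Agent.Lib.MP_03e5d0_nt.BSum
import Pool.Agent.Lib.MP_03e5d0_nt.BMul
import Pool.Agent.Lib.MP_03e5d0_nt.BJac
import Pool.Agent.Lib.MP_03e5d0_nt.BDual

/-! The functional equations of all quadratic twists. -/

set_option autoImplicit false

noncomputable section

namespace Pool.Agent.Lib.MP_03e5d0_nt.B

open Finset CongruenceSubgroup UpperHalfPlane Pool.Agent.Lib.MP_88d29b_nt.G
open scoped MatrixGroups ModularForm Manifold NumberTheorySymbols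

theorem exists_base {N : ℕ} [NeZero N] (f : CuspForm (Gamma0 N) 2) (D : Data)
    (hN : N ∣ D.q) (ha : ∀ n : ℕ, n.Coprime D.q →
      (qExpansion 1 f).coeff n = ((D.lam n * √n : ℝ) : ℂ)) {k : ℤ} (hk : k ∣ (D.q : ℤ)) :
    ∃ (g : ℍ → ℂ) (b : ℕ → ℝ), IsCF (Gamma0 (N * (4 * D.q) ^ 2)) 2 g ∧ QS g (D.co k) ∧
      QS (sl 2 g (wMat (N * (4 * D.q) ^ 2))) (fun n => (b n : ℂ)) ∧ b 0 = 0 ∧
      (∀ n₀ ∈ Nat.factoredNumbers D.q.primeFactors, ∀ n' : ℕ, n'.Coprime D.q →
        (b (n₀ * n') : ℂ) = b n₀ * D.co k n') ∧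
      Summable fun n : ℕ => if n ∈ Nat.factoredNumbers D.q.primeFactors then
        |b n| / n * (1 + Real.log n) else 0 := by
  have h2 : 2 ∣ D.q := D.small 2 Nat.prime_two (by norm_num)
  have hq := D.q_ne
  have hN0 := NeZero.ne N
  have : NeZero (4 * D.q) := ⟨by omega⟩
  have hM0 : 0 < N * (4 * D.q) ^ 2 := by positivity
  have : NeZero (N * (4 * D.q) ^ 2) := ⟨hM0.ne'⟩
  have hg := isCF_twF (isCF_coe f) (xi_sq hq h2 hk)
  have hQ0 := qs_twF (qs_coe f) (4 * D.q) (xi D.q k)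
  have e : (fun n : ℕ => (qExpansion 1 f).coeff n * xi D.q k (n : ZMod (4 * D.q))) = D.co k := by
    funext n
    rw [xi_natCast hq h2 hk, Data.co]
    split_ifs with hn
    · rw [ha n hn]
      push_cast
      ring
    · rw [D.lam_zero n hn]
      simp
  rw [e] at hQ0
  set g := twF (4 * D.q) (xi D.q k) f
  have hh := isCF_wMat hM0 hg
  obtain ⟨b, hb⟩ := exists_QS hh
  have hreal := real_wMat hM0 hQ0 hb fun n => Complex.ofReal_im _
  have eb : ∀ n, (((b n).re : ℝ) : ℂ) = b n := fun n =>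
    Complex.ext (Complex.ofReal_re _) (by rw [Complex.ofReal_im, hreal n])
  have hcop : ∀ p : ℕ, p.Prime → ¬p ∣ D.q → p.Coprime (N * (4 * D.q) ^ 2) := by
    intro p hp hpq
    have h1 : p.Coprime D.q := (Nat.Prime.coprime_iff_not_dvd hp).2 hpq
    have h4 : p.Coprime 4 := (Nat.Coprime.coprime_dvd_right h2 h1).pow_right 2
    exact (Nat.Coprime.coprime_dvd_right hN h1).mul_right ((h4.mul_right h1).pow_right 2)
  have e1 : ∀ p : ℕ, (p : ℂ) ^ ((2 : ℤ) - 1) = p := fun p => by norm_num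
  have hrel : ∀ p : ℕ, p.Prime → ¬p ∣ D.q → ∀ n : ℕ,
      b (p * n) + (if p ∣ n then (p : ℂ) * b (n / p) else 0) = D.co k p * b n := by
    intro p hp hpq n
    have h1 := hQ0.hecke hp.pos 2
    have e2 : (fun n => D.co k (p * n) +
        if p ∣ n then (p : ℂ) ^ ((2 : ℤ) - 1) * D.co k (n / p) else 0) = D.co k p • D.co k := by
      funext n
      rw [e1, co_hecke D hk hp hpq, Pi.smul_apply, smul_eq_mul]
    rw [e2] at h1
    have h3 : heckeFun p 2 g = D.co k p • g := QS.ext' h1 (hQ0.smul _)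
    have h4 := hb.hecke hp.pos 2
    rw [hecke_wMat hM0 hp (hcop p hp hpq) hg, h3,
      sl_smul 2 _ g (by rw [det_wMat]; exact_mod_cast hM0)] at h4
    have h5 := congrFun (h4.unique (hb.smul _)) n
    rw [e1] at h5
    exact h5
  refine ⟨g, fun n => (b n).re, hg, hQ0, by simpa only [eb] using hb, ?_, fun n₀ h0 n' h' => ?_, ?_⟩
  · beta_reduce
    rw [coeff_zero hh hb, Complex.zero_re]
  · have hn' : n' ≠ 0 := by
      rintro rfl
      rw [Nat.coprime_zero_left] at h'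
      omega
    have h1 : D.co k 1 = 1 := by simp [Data.co, D.lam_one]
    rw [eb, eb]
    exact coeff_mul hq h1 (fun p hp hpq n => co_hecke D hk hp hpq n) hrel h0 hn' h'
  · have h1 := summable_coeff hh hb (S := D.q.primeFactors) fun p hp =>
      ⟨Nat.prime_of_mem_primeFactors hp, ((Nat.dvd_of_mem_primeFactors hp).mul_left 4).trans
        ((dvd_pow_self _ two_ne_zero).mul_left N)⟩
    refine h1.congr fun n => ?_
    have e2 : ‖b n‖ = |(b n).re| := by
      rw [← Real.norm_eq_abs, ← Complex.norm_real, eb n]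
    rw [e2]

theorem fe_of_form {N : ℕ} [NeZero N] (f : CuspForm (CongruenceSubgroup.Gamma0 N) 2) (D : Data)
    (hN : N ∣ D.q) (ha : ∀ n : ℕ, n.Coprime D.q →
      (UpperHalfPlane.qExpansion 1 f).coeff n = ((D.lam n * √n : ℝ) : ℂ)) : D.FE := by
  classical
  have h2 : 2 ∣ D.q := D.small 2 Nat.prime_two (by norm_num)
  have hq := D.q_ne
  have hN0 := NeZero.ne N
  set M := N * (4 * D.q) ^ 2 with hM
  have hM0 : 0 < M := by positivity
  choose! g b hg hQ hb hb0 hbm hbs using fun k : ℤ => fun hk : k ∣ (D.q : ℤ) =>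
    exists_base f D hN ha hk
  let K : Finset ℤ := (Finset.Icc (-(D.q : ℤ)) D.q).filter fun k => k ∣ (D.q : ℤ)
  have hK : ∀ k : ℤ, k ∣ (D.q : ℤ) → k ∈ K := by
    intro k hk
    have h1 := Int.le_of_dvd (by positivity) ((abs_dvd _ _).2 hk)
    exact Finset.mem_filter.2 ⟨Finset.mem_Icc.2 (abs_le.1 h1), hk⟩
  let sm : ℕ → Prop := fun n => n ∈ Nat.factoredNumbers D.q.primeFactors
  let gb : ℕ → ℝ := fun n => ∑ k ∈ K, if sm n then |b k n| / n else 0
  have hgb : ∀ k : ℤ, k ∣ (D.q : ℤ) → ∀ n, (if sm n then |b k n| / n else 0) ≤ gb n := by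
    intro k hk n
    refine Finset.single_le_sum (f := fun k => if sm n then |b k n| / n else 0)
      (fun k _ => ?_) (hK k hk)
    positivity
  have hodd : ∀ n : ℕ, n.Coprime D.q → Odd n := fun n hn =>
    Nat.coprime_two_right.1 (Nat.Coprime.coprime_dvd_right h2 hn)
  have hcM : ∀ c : ℕ, c.Coprime D.q → c.Coprime M := by
    intro c h1
    have h4 : c.Coprime 4 := (Nat.Coprime.coprime_dvd_right h2 h1).pow_right 2
    exact (Nat.Coprime.coprime_dvd_right hN h1).mul_right ((h4.mul_right h1).pow_right 2)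
  have key : ∀ (k k₀ : ℤ) (c : ℕ), k₀ ∣ (D.q : ℤ) → Squarefree c → c.Coprime D.q →
      (∀ n : ℕ, Odd n → J(k | n) = J(k₀ | n) * J((n : ℤ) | c)) →
      D.Dual k ((M * c ^ 2 : ℕ) : ℝ) fun n =>
        if sm n then (J(-(M : ℤ) | c) : ℝ) * (J((n : ℤ) | c) : ℝ) * (b k₀ n / n) else 0 := by
    intro k k₀ c hk₀ hc hcq hJ
    obtain ⟨G, -, hG, hG'⟩ := twist_sqfree hM0 (hg k₀ hk₀) (hQ k₀ hk₀) (hb k₀ hk₀) hc
      (hodd c hcq) (hcM c hcq)
    have e : ∀ n : ℕ, D.co k₀ n * ((J((n : ℤ) | c) : ℤ) : ℂ) = D.co k n := by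
      intro n
      by_cases hn : n.Coprime D.q
      · rw [Data.co, Data.co, hJ n (hodd n hn)]
        push_cast
        ring
      · simp [Data.co, D.lam_zero n hn]
    simp only [e] at hG
    have hc0 : 0 < c := Nat.pos_of_ne_zero hc.ne_zero
    refine dual_of_qs D (by positivity) hG hG' (by simp [hb0 k₀ hk₀]) (fun n hn => if_neg hn)
      fun n₀ h0 n' h' => ?_
    have hn₀ : (n₀ : ℂ) ≠ 0 := by exact_mod_cast h0.1
    rw [if_pos h0, hbm k₀ hk₀ n₀ h0 n' h', ← e n', Nat.cast_mul n₀ n', jacobiSym.mul_left]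
    push_cast
    field_simp
  have habs : ∀ (x : ℤ) (c : ℕ), |(J(x | c) : ℝ)| ≤ 1 := by
    intro x c
    rcases jacobiSym.trichotomy x c with h | h | h <;> rw [h] <;> norm_num
  have hq' : (0 : ℝ) < D.q := by positivity
  have hM' : (0 : ℝ) < M := by positivity
  refine ⟨M / (D.q : ℝ) ^ 2, M, M, gb, fun n => if sm n then b 1 n / n else 0, by positivity,
    hM', fun n => Finset.sum_nonneg fun k _ => by positivity, ?_, fun k hk => ?_, fun n => ?_,
    fun d hd => ?_⟩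
  · have h1 := summable_sum (s := K) fun k hk => hbs k (Finset.mem_filter.1 hk).2
    refine h1.congr fun n => ?_
    simp only [gb, Finset.sum_mul, ite_mul, zero_mul, sm]
  · obtain ⟨k₀, c, hk₀, hc, hcq, hkc, hJ⟩ := exists_decomp hq h2 hk
    have hk2 : (k : ℝ) ^ 2 = (k₀.natAbs : ℝ) ^ 2 * (c : ℝ) ^ 2 := by
      rw [← mul_pow, ← Nat.cast_mul, hkc, Nat.cast_natAbs, Int.cast_abs, sq_abs]
    have hk1 : (1 : ℝ) ≤ k₀.natAbs := by
      have : k₀.natAbs ≠ 0 := by
        intro h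
        rw [h, zero_mul] at hkc
        exact hk.ne_zero (Int.natAbs_eq_zero.1 hkc.symm)
      exact_mod_cast Nat.pos_of_ne_zero this
    have hk3 : (k₀.natAbs : ℝ) ≤ D.q := by
      have : k₀.natAbs ∣ D.q := Int.natAbs_dvd_natAbs.2 hk₀
      exact_mod_cast Nat.le_of_dvd (Nat.pos_of_ne_zero hq) this
    refine ⟨_, _, ?_, ?_, fun n => ?_, key k k₀ c hk₀ hc hcq hJ⟩
    · rw [hk2]
      push_cast
      rw [div_mul_eq_mul_div, div_le_iff₀ (by positivity)]
      have : (k₀.natAbs : ℝ) ^ 2 ≤ (D.q : ℝ) ^ 2 := by gcongr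
      calc (M : ℝ) * ((k₀.natAbs : ℝ) ^ 2 * (c : ℝ) ^ 2)
          = M * (c : ℝ) ^ 2 * (k₀.natAbs : ℝ) ^ 2 := by ring
        _ ≤ M * (c : ℝ) ^ 2 * (D.q : ℝ) ^ 2 := by gcongr
    · rw [hk2]
      push_cast
      have : (1 : ℝ) ≤ (k₀.natAbs : ℝ) ^ 2 := one_le_pow₀ hk1
      gcongr
      exact le_mul_of_one_le_left (by positivity) this
    · refine le_trans ?_ (hgb k₀ hk₀ n)
      beta_reduce
      split_ifs
      · rw [abs_mul, abs_mul, abs_div, Nat.abs_cast]
        exact mul_le_of_le_one_left (by positivity)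
          (mul_le_one₀ (habs _ _) (abs_nonneg _) (habs _ _))
      · rw [abs_zero]
  · refine le_trans ?_ (hgb 1 (one_dvd _) n)
    beta_reduce
    split_ifs
    · rw [abs_div, Nat.abs_cast]
    · rw [abs_zero]
  · have hd8 : d ≡ 1 [ZMOD 8] := hd.2.of_mul_right _
    have hd4 : d ≡ 1 [ZMOD 4] := hd8.of_dvd (by norm_num)
    have hdq : d ≡ 1 [ZMOD D.q] := hd.2.of_mul_left _
    have hcq : d.natAbs.Coprime D.q := by
      obtain ⟨t, ht⟩ := hdq.dvd
      have h1 : IsCoprime d (D.q : ℤ) := ⟨1, t, by linear_combination -ht⟩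
      exact Int.isCoprime_iff_gcd_eq_one.1 h1
    have h1 := key d 1 d.natAbs (one_dvd _) (Int.squarefree_natAbs.2 hd.1) hcq fun n hn => by
      rw [jacobiSym.one_left, one_mul, jac_eight hd8 hn.pos.ne']
    have hMs : sm M := by
      refine Nat.mem_factoredNumbers'.2 fun p hp hpM => ?_
      refine Nat.mem_primeFactors.2 ⟨hp, ?_, hq⟩
      by_contra hpq
      exact (Nat.Prime.coprime_iff_not_dvd hp).1
        (hcM p ((Nat.Prime.coprime_iff_not_dvd hp).2 hpq)) hpM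
    have e1 : J(-(M : ℤ) | d.natAbs) = d.sign := by
      rw [← neg_one_mul, jacobiSym.mul_left, jac_neg_one hd4, jac_smooth hd.2 hMs, mul_one]
    have e2 : ((M * d.natAbs ^ 2 : ℕ) : ℝ) = M * (d : ℝ) ^ 2 := by
      rw [Nat.cast_mul, Nat.cast_pow, Nat.cast_natAbs, Int.cast_abs, sq_abs]
    have e3 : (fun n : ℕ => if sm n then (J(-(M : ℤ) | d.natAbs) : ℝ) *
        (J((n : ℤ) | d.natAbs) : ℝ) * (b 1 n / n) else 0)
        = fun n : ℕ => (d.sign : ℝ) * if sm n then b 1 n / n else 0 := by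
      funext n
      split_ifs with hn
      · rw [e1, jac_smooth hd.2 hn, Int.cast_one, mul_one]
      · rw [mul_zero]
    rw [e2, e3] at h1
    exact h1

end Pool.Agent.Lib.MP_03e5d0_nt.B
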