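import Pool.Agent.Lib.MP_03e5d0_nt.BDefs

/-! The Fricke involution. -/

set_option autoImplicit false

noncomputable section

namespace Pool.Agent.Lib.MP_03e5d0_nt.B

open Finset CongruenceSubgroup UpperHalfPlane Pool.Agent.Lib.MP_88d29b_nt.G
open scoped MatrixGroups ModularForm Manifold NumberTheorySymbols

variable {g : ℍ → ℂ} {a b : ℕ → ℂ} {M : ℕ}

theorem bfr_det (hM : 0 < M) : 0 < (wMat M).det := by
  rw [det_wMat]
  exact_mod_cast hM

theorem bfr_conj {γ : SL(2, ℤ)} (hγ : γ ∈ Gamma0 M) : ∃ γ' ∈ Gamma0 M,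
    wMat M * (γ : Mat) = (γ' : Mat) * wMat M ∧ (γ : Mat) * wMat M = wMat M * (γ' : Mat) := by
  obtain ⟨c, hc⟩ := (ZMod.intCast_zmod_eq_zero_iff_dvd _ _).mp (Gamma0_mem.mp hγ)
  have hd := γ.det_coe
  rw [Matrix.det_fin_two] at hd
  refine ⟨⟨!![γ 1 1, -c; -(M * γ 0 1), γ 0 0], by
    rw [Matrix.det_fin_two_of]; linear_combination hd + γ 0 1 * hc⟩, ?_, ?_, ?_⟩
  · refine Gamma0_mem.mpr ?_
    simp
  · ext i j
    fin_cases i <;> fin_cases j <;> simp [wMat, Matrix.mul_apply, Fin.sum_univ_two, hc, mul_comm]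
  · ext i j
    fin_cases i <;> fin_cases j <;> simp [wMat, Matrix.mul_apply, Fin.sum_univ_two, hc, mul_comm]

/-- Sketch: `sl_apply`, `sm_eq_ofComplex`, `ofComplex_apply_of_im_pos`. -/
theorem sl_wMat (hM : 0 < M) (g : ℍ → ℂ) {z : ℂ} (hz : 0 < z.im) :
    sl 2 g (wMat M) (ofComplex z) = g (ofComplex (-1 / (M * z))) / (M * z ^ 2) := by
  have hM' : (M : ℂ) ≠ 0 := by exact_mod_cast hM.ne'
  have hz' : z ≠ 0 := by rintro rfl; simp at hz
  rw [sl_apply 2 g (bfr_det hM), sm_eq_ofComplex (bfr_det hM), det_wMat,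
    ofComplex_apply_of_im_pos hz]
  simp only [wMat, Matrix.of_apply, Matrix.cons_val', Matrix.cons_val_zero, Matrix.cons_val_one,
    Matrix.cons_val_fin_one, Int.cast_zero, zero_mul, zero_add, Int.cast_neg, Int.cast_one,
    Int.cast_natCast, add_zero]
  rw [show (2 : ℤ) - 1 = 1 by norm_num, zpow_one, zpow_neg, zpow_two]
  field_simp

/-- Sketch: `wMat M * (a b; M c d) = (d, -c; -M b, a) * wMat M`; `Cuspy.sl`. -/
theorem isCF_wMat (hM : 0 < M) (hg : IsCF (Gamma0 M) 2 g) :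
    IsCF (Gamma0 M) 2 (sl 2 g (wMat M)) := by
  refine ⟨hg.cuspy.sl (bfr_det hM).ne', fun γ hγ => ?_⟩
  obtain ⟨γ', h1, h2, -⟩ := bfr_conj hγ
  rw [← sl_mul 2 g (bfr_det hM).ne' (inside_Snz ⊤ γ trivial), h2,
    sl_mul 2 g (inside_Snz ⊤ γ' trivial) (bfr_det hM).ne', hg.inv γ' h1]

/-- Sketch: as `sum_sl_eps` in `GES`. `wMat M * tRep p i = δ i * wMat M` with
`δ none = !![1, 0; 0, p]`, `δ (some j) = !![p, 0; -M j, 1]`; `δ i = t i * tRep p (e i)` by
`tRep_decomp`; `e` is injective: `δ i = t δ j` with `t ∈ Gamma0 M` gives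
`wMat M * tRep p i = t * wMat M * tRep p j = wMat M * t' * tRep p j`, cancel `wMat M`
(determinant nonzero), `tRep_inj`. `heckeFun_eq`, `sl_sum`, `sl_mul`. -/
theorem hecke_wMat {p : ℕ} (hM : 0 < M) (hp : p.Prime) (hpM : p.Coprime M)
    (hg : IsCF (Gamma0 M) 2 g) :
    heckeFun p 2 (sl 2 g (wMat M)) = sl 2 (heckeFun p 2 g) (wMat M) := by
  have hW := (bfr_det hM).ne'
  have hT := (cov_tRep hp hpM).det_ne
  have key : ∀ i, ∃ j, ∃ t ∈ Gamma0 M,
      wMat M * tRep p i = ((t : SL(2, ℤ)) : Mat) * tRep p j * wMat M := by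
    intro i
    rcases i with _ | i
    · obtain ⟨j, t, ht, e⟩ := tRep_decomp hp hpM !![1, 0; 0, (p : ℤ)]
        (by simp [Matrix.det_fin_two]) (by simp)
      refine ⟨j, t, ht, ?_⟩
      rw [← e]
      ext a b
      fin_cases a <;> fin_cases b <;>
        simp [wMat, tRep, Matrix.mul_apply, Fin.sum_univ_two, mul_comm]
    · obtain ⟨j, t, ht, e⟩ := tRep_decomp hp hpM !![(p : ℤ), 0; -(M * (i : ℕ)), 1]
        (by simp [Matrix.det_fin_two]) (by simp)
      refine ⟨j, t, ht, ?_⟩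
      rw [← e]
      ext a b
      fin_cases a <;> fin_cases b <;>
        simp [wMat, tRep, Matrix.mul_apply, Fin.sum_univ_two, mul_comm]
  choose e t ht he using key
  have hinj : Function.Injective e := by
    intro i j hij
    obtain ⟨γ', -, -, hγ'⟩ := bfr_conj (mul_mem (ht i) (inv_mem (ht j)))
    refine tRep_inj hp i j γ' ?_
    refine (Matrix.isRegular_of_isLeftRegular_det (IsRegular.of_ne_zero hW).left).left ?_
    show wMat M * tRep p i = wMat M * ((γ' : Mat) * tRep p j)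
    rw [← Matrix.mul_assoc, ← hγ', Matrix.mul_assoc, he i, he j, hij, ← Matrix.mul_assoc,
      ← Matrix.mul_assoc, ← Matrix.SpecialLinearGroup.coe_mul, inv_mul_cancel_right]
  have hbij : Function.Bijective e := Finite.injective_iff_bijective.1 hinj
  rw [heckeFun_eq hp.pos, heckeFun_eq hp.pos, sl_sum,
    ← hbij.sum_comp (fun j => sl 2 (sl 2 g (tRep p j)) (wMat M))]
  refine Finset.sum_congr rfl fun i _ => ?_
  rw [← sl_mul 2 g hW (hT i), he i, sl_mul 2 g (Snz.mul_mem (inside_Snz ⊤ _ trivial) (hT _)) hW,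
    sl_mul 2 g (inside_Snz ⊤ _ trivial) (hT _), hg.inv _ (ht i)]

theorem bfr_star (ha : QS g a) :
    QS (fun z => starRingEnd ℂ (g (ofComplex (-starRingEnd ℂ z)))) fun n => starRingEnd ℂ (a n) := by
  intro z
  have hz : 0 < (-starRingEnd ℂ (z : ℂ)).im := by simpa using z.im_pos
  have h := Complex.hasSum_conj'.mpr (ha (ofComplex (-starRingEnd ℂ z)))
  convert h using 2 with n
  rw [ofComplex_apply_of_im_pos hz, map_mul, ← Complex.exp_conj]
  congr 2
  simp only [map_mul, map_neg, Complex.conj_conj, Complex.conj_I, Complex.conj_ofReal, map_natCast,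
    map_ofNat]
  ring

/-- Sketch: for `QS g a` the function `z ↦ conj (g (ofComplex (-conj z)))` has `QS` coefficients
`conj (a n)` (`HasSum.star` or `Complex.hasSum_conj`). So `g (-conj z) = conj (g z)` for real `a`;
by `sl_wMat` the same holds for `h = sl 2 g (wMat M)`; `QS.unique` gives `b = conj b`. -/
theorem real_wMat (hM : 0 < M) (ha : QS g a) (hb : QS (sl 2 g (wMat M)) b)
    (hr : ∀ n, (a n).im = 0) (n : ℕ) : (b n).im = 0 := by
  have h1 : (fun z : ℍ => starRingEnd ℂ (g (ofComplex (-starRingEnd ℂ z)))) = g := by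
    refine QS.ext' (bfr_star ha) ?_
    simp only [Complex.conj_eq_iff_im.mpr (hr _)]
    exact ha
  have h2 : (fun z : ℍ => starRingEnd ℂ (sl 2 g (wMat M) (ofComplex (-starRingEnd ℂ z)))) =
      sl 2 g (wMat M) := by
    funext z
    have hz : 0 < (-starRingEnd ℂ (z : ℂ)).im := by simpa using z.im_pos
    have hw : 0 < (-1 / (M * z) : ℂ).im := by
      have := (sm (wMat M) z).im_pos
      rw [← coe_im, coe_sm (bfr_det hM)] at this
      simpa [wMat] using this
    have e := congrFun h1 (ofComplex (-1 / (M * z)))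
    rw [ofComplex_apply_of_im_pos hw] at e
    conv_rhs => rw [← ofComplex_apply z]
    rw [sl_wMat hM g hz, sl_wMat hM g z.im_pos, ofComplex_apply_of_im_pos hw, ← e, map_div₀]
    congr 1
    · congr 3
      simp only [map_div₀, map_neg, map_one, map_mul, map_natCast, mul_neg, div_neg]
    · simp
  have h3 := bfr_star hb
  rw [h2] at h3
  exact Complex.conj_eq_iff_im.mp (congrFun (h3.unique hb) n)

end Pool.Agent.Lib.MP_03e5d0_nt.B
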