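import Pool.Agent.Lib.MP_03e5d0_nt.BTw
import Pool.Agent.Lib.MP_03e5d0_nt.BFr

/-! The Fricke involution and quadratic twists. -/

set_option autoImplicit false

noncomputable section

namespace Pool.Agent.Lib.MP_03e5d0_nt.B

open Finset CongruenceSubgroup UpperHalfPlane Pool.Agent.Lib.MP_88d29b_nt.G
open scoped MatrixGroups ModularForm Manifold NumberTheorySymbols

variable {g : ℍ → ℂ} {a b : ℕ → ℂ} {M : ℕ}

/-- The quadratic character as a complex valued function. -/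
def qc (p : ℕ) [Fact p.Prime] (x : ZMod p) : ℂ := (quadraticChar (ZMod p) x : ℤ)

theorem bpr_mul {p : ℕ} [Fact p.Prime] (x y : ZMod p) : qc p (x * y) = qc p x * qc p y := by
  rw [qc, qc, qc, map_mul, Int.cast_mul]

theorem bpr_sq {p : ℕ} [Fact p.Prime] {u : ZMod p} (hu : u ≠ 0) : qc p (u ^ 2) = 1 := by
  rw [qc, quadraticChar_sq_one' hu]
  simp

theorem bpr_dft_zero {p : ℕ} [Fact p.Prime] (hp2 : p ≠ 2) : ZMod.dft (qc p) 0 = 0 := by
  rw [ZMod.dft_apply_zero]
  have h : ringChar (ZMod p) ≠ 2 := by rwa [ZMod.ringChar_zmod_n]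
  have := quadraticChar_sum_zero h
  simp only [qc]
  exact_mod_cast this

theorem bpr_dft_mul {p : ℕ} [Fact p.Prime] {u : ZMod p} (hu : u ≠ 0) (b : ZMod p) :
    ZMod.dft (qc p) (u * b) = qc p u * ZMod.dft (qc p) b := by
  rw [ZMod.dft_apply, ZMod.dft_apply, Finset.mul_sum,
    ← Equiv.sum_comp (Equiv.mulLeft₀ u hu)
      (fun j => qc p u * (ZMod.stdAddChar (-(j * b)) • qc p j))]
  refine Finset.sum_congr rfl fun j _ => ?_
  have h1 : qc p u * qc p u = 1 := by rw [← bpr_mul, ← sq, bpr_sq hu]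
  simp only [Equiv.mulLeft₀_apply, smul_eq_mul, bpr_mul]
  rw [show j * (u * b) = u * j * b by ring]
  linear_combination (-(ZMod.stdAddChar (-(u * j * b)) : ℂ) * qc p j) * h1

theorem bpr_qc_int {p : ℕ} [Fact p.Prime] (n : ℤ) :
    qc p (n : ZMod p) = ((J(n | p) : ℤ) : ℂ) := by
  rw [← jacobiSym.legendreSym.to_jacobiSym]
  rfl

theorem bpr_term {p : ℕ} [Fact p.Prime] (hM : 0 < M) (hg : IsCF (Gamma0 M) 2 g) {x y : ℤ}
    (h : (p : ℤ) ∣ 1 + M * x * y) :
    sl 2 (sl 2 g (tMat p x)) (wMat (M * p ^ 2)) = sl 2 (sl 2 g (wMat M)) (tMat p y) := by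
  obtain ⟨α, hα⟩ := h
  have hp : (0 : ℤ) < p := by exact_mod_cast (Fact.out : p.Prime).pos
  have hM' : (0 : ℤ) < M := by exact_mod_cast hM
  let γ : SL(2, ℤ) := ⟨!![α, x; M * y, p], by
    rw [Matrix.det_fin_two_of]
    linear_combination -hα⟩
  have hγ : γ ∈ Gamma0 M := mem_Gamma0_iff.2 ⟨y, rfl⟩
  have e : tMat p x * wMat (M * p ^ 2) =
      ((p : ℤ) • (1 : Mat)) * ((γ : Mat) * (wMat M * tMat p y)) := by
    rw [smul_mul_assoc, one_mul]
    ext i j
    fin_cases i <;> fin_cases j <;>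
      simp [γ, tMat, wMat, Matrix.mul_apply, Fin.sum_univ_two, -mul_eq_mul_left_iff,
        -mul_eq_zero, -zero_eq_mul]
    · ring
    · linear_combination (-(p : ℤ)) * hα
    · ring
    · ring
  have d1 : ∀ z, (tMat p z).det ≠ 0 := fun z => by rw [det_tMat]; positivity
  have d2 : (wMat (M * p ^ 2)).det ≠ 0 := by rw [det_wMat]; push_cast; positivity
  have d3 : (wMat M).det ≠ 0 := by rw [det_wMat]; positivity
  have d4 : (γ : Mat).det ≠ 0 := by rw [γ.det_coe]; exact one_ne_zero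
  have d5 : (wMat M * tMat p y).det ≠ 0 := by rw [Matrix.det_mul]; exact mul_ne_zero d3 (d1 y)
  have d6 : ((p : ℤ) • (1 : Mat)).det ≠ 0 := by
    rw [Matrix.det_smul, Matrix.det_one]; positivity
  rw [← sl_mul 2 g (d1 x) d2, e, sl_mul 2 g d6 (by rw [Matrix.det_mul]; exact mul_ne_zero d4 d5),
    sl_scalar 2 g hp, sub_self, zpow_zero, one_smul, sl_mul 2 g d4 d5, hg.inv γ hγ,
    sl_mul 2 g d3 (d1 y)]

/-- Sketch: `w = dft (qc p)` satisfies `w 0 = ∑ qc = 0` (`quadraticChar_sum_zero`) and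
`w (u * b) = qc u * w b` for `u ≠ 0` (substitution, `qc u ^ 2 = 1`). For `b ≠ 0` let
`b' = -(M b)⁻¹` in `ZMod p`, `α p = 1 + M b b'` (integer representatives `val`); then
`tMat p b * wMat (M p ^ 2) = (p • 1) * (γ * (wMat M * tMat p b'))`, `γ = !![α, b; M b', p]` in
`Gamma0 M`; `sl_scalar`, `sl_mul`. `b = (-M b ^ 2) b'`, so `w b = qc (-M) w b'`. Reindex by the
involution `b ↦ -(M b)⁻¹` of `ZMod p` (it fixes `0`). `jacobiSym.legendreSym.to_jacobiSym`. -/
theorem twist_prime {p : ℕ} [Fact p.Prime] (hM : 0 < M) (hp2 : p ≠ 2) (hpM : p.Coprime M)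
    (hg : IsCF (Gamma0 M) 2 g) :
    sl 2 (twF p (qc p) g) (wMat (M * p ^ 2)) =
      ((J(-(M : ℤ) | p) : ℤ) : ℂ) • twF p (qc p) (sl 2 g (wMat M)) := by
  have hp : (0 : ℤ) < p := by exact_mod_cast (Fact.out : p.Prime).pos
  have hM' : (0 : ℤ) < M := by exact_mod_cast hM
  have hM0 : (M : ZMod p) ≠ 0 := by
    rw [Ne, ZMod.natCast_eq_zero_iff]
    exact (Nat.Prime.coprime_iff_not_dvd Fact.out).1 hpM
  have hinv : Function.Involutive fun x : ZMod p => -((M : ZMod p) * x)⁻¹ := by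
    intro x
    by_cases hx : x = 0
    · simp [hx]
    · field_simp
  have d2 : 0 < (wMat (M * p ^ 2)).det := by rw [det_wMat]; push_cast; positivity
  rw [twF, twF, sl_sum, Finset.smul_sum, ← Equiv.sum_comp hinv.toPerm
    (fun x : ZMod p => ((J(-(M : ℤ) | p) : ℤ) : ℂ) •
      (ZMod.dft (qc p) x / p) • sl 2 (sl 2 g (wMat M)) (tMat p (x.val : ℤ)))]
  refine Finset.sum_congr rfl fun x _ => ?_
  rw [sl_smul _ _ _ d2, Function.Involutive.coe_toPerm]
  by_cases hx : x = 0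
  · simp [hx, bpr_dft_zero hp2]
  · have h1 : (p : ℤ) ∣ 1 + M * (x.val : ℤ) * ((-((M : ZMod p) * x)⁻¹).val : ℤ) := by
      rw [← ZMod.intCast_zmod_eq_zero_iff_dvd]
      push_cast
      rw [ZMod.natCast_zmod_val, ZMod.natCast_zmod_val]
      field_simp
      ring
    rw [bpr_term hM hg h1, smul_smul]
    congr 1
    have h2 : x = (-(M : ZMod p) * x ^ 2) * -((M : ZMod p) * x)⁻¹ := by field_simp
    have h3 : ZMod.dft (qc p) x = qc p (-(M : ZMod p) * x ^ 2) *
        ZMod.dft (qc p) (-((M : ZMod p) * x)⁻¹) := by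
      rw [← bpr_dft_mul (mul_ne_zero (neg_ne_zero.2 hM0) (pow_ne_zero _ hx)), ← h2]
    rw [h3, bpr_mul, bpr_sq hx, ← bpr_qc_int]
    push_cast
    ring

/-- Sketch: `induction_on_primes` on `c`. For `c = p c'` apply the induction hypothesis, then
`isCF_twF`, `qs_twF`, `twist_prime` at level `M c' ^ 2` (`M c' ^ 2 p ^ 2 = M (p c') ^ 2`);
`J(-M c' ^ 2 | p) = J(-M | p)` (`jacobiSym.mul_left`, `jacobiSym.sq_one'`), `jacobiSym.mul_right`. -/
theorem twist_sqfree (hM : 0 < M) (hg : IsCF (Gamma0 M) 2 g) (ha : QS g a)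
    (hb : QS (sl 2 g (wMat M)) b) {c : ℕ} (hc : Squarefree c) (hodd : Odd c) (hcM : c.Coprime M) :
    ∃ G : ℍ → ℂ, IsCF (Gamma0 (M * c ^ 2)) 2 G ∧ QS G (fun n => a n * ((J((n : ℤ) | c) : ℤ) : ℂ)) ∧
      QS (sl 2 G (wMat (M * c ^ 2)))
        fun n => ((J(-(M : ℤ) | c) : ℤ) : ℂ) * (b n * ((J((n : ℤ) | c) : ℤ) : ℂ)) := by
  induction c using induction_on_primes with
  | zero => exact absurd hc not_squarefree_zero
  | one =>
    refine ⟨g, by simpa using hg, by simpa using ha, by simpa using hb⟩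
  | prime_mul p c hp ih =>
    have : Fact p.Prime := ⟨hp⟩
    have hc0 : c ≠ 0 := by
      rintro rfl
      simp at hc
    have hpc : p.Coprime c := Nat.coprime_of_squarefree_mul hc
    have hp2 : p ≠ 2 := by
      rintro rfl
      exact (Nat.not_odd_iff_even.2 (even_two_mul c)) hodd
    obtain ⟨G, h1, h2, h3⟩ := ih hc.of_mul_right (Nat.odd_mul.1 hodd).2
      (Nat.Coprime.coprime_mul_left hcM)
    have hpM : p.Coprime (M * c ^ 2) :=
      Nat.Coprime.mul_right (Nat.Coprime.coprime_mul_right hcM) (hpc.pow_right 2)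
    have hM' : 0 < M * c ^ 2 := by positivity
    have e : M * (p * c) ^ 2 = M * c ^ 2 * p ^ 2 := by ring
    have : NeZero c := ⟨hc0⟩
    have hq : ∀ n : ℕ, qc p (n : ZMod p) = ((J((n : ℤ) | p) : ℤ) : ℂ) := fun n => by
      rw [← bpr_qc_int, Int.cast_natCast]
    refine ⟨twF p (qc p) G, ?_, ?_, ?_⟩
    · rw [e]
      refine isCF_twF h1 fun u x => ?_
      rw [bpr_mul, bpr_sq u.ne_zero, mul_one]
    · have := qs_twF h2 p (qc p)
      convert this using 2 with n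
      rw [hq, jacobiSym.mul_right]
      push_cast
      ring
    · rw [e, twist_prime hM' hp2 hpM h1]
      have := (qs_twF h3 p (qc p)).smul ((J(-((M * c ^ 2 : ℕ) : ℤ) | p) : ℤ) : ℂ)
      convert this using 2 with n
      have h4 : J(-((M * c ^ 2 : ℕ) : ℤ) | p) = J(-(M : ℤ) | p) := by
        rw [show -((M * c ^ 2 : ℕ) : ℤ) = -(M : ℤ) * (c : ℤ) ^ 2 by push_cast; ring,
          jacobiSym.mul_left, jacobiSym.sq_one' (by simpa using hpc.symm), mul_one]
      rw [Pi.smul_apply, smul_eq_mul, hq, h4, jacobiSym.mul_right, jacobiSym.mul_right]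
      push_cast
      ring

end Pool.Agent.Lib.MP_03e5d0_nt.B
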