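import Pool.Agent.Lib.MP_03e5d0_nt.BDefs

/-! Twisting a cusp form by a periodic function. -/

set_option autoImplicit false

noncomputable section

namespace Pool.Agent.Lib.MP_03e5d0_nt.B

open Finset CongruenceSubgroup UpperHalfPlane Pool.Agent.Lib.MP_88d29b_nt.G
open scoped MatrixGroups ModularForm Manifold NumberTheorySymbols

variable {f : ℍ → ℂ} {a : ℕ → ℂ}

/-- Sketch: `tMat m b = !![1, t; 0, 1] * tMat m b'` when `b = b' + m t`; the first factor is in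
`Gamma0 N` (`mem_Gamma0_iff`), `sl_mul`. -/
theorem sl_tMat_congr {N m : ℕ} (hm : 0 < m) (hf : Inv (Gamma0 N) 2 f) {b b' : ℤ}
    (h : (b : ZMod m) = (b' : ZMod m)) : sl 2 f (tMat m b) = sl 2 f (tMat m b') := by
  obtain ⟨t, ht⟩ := (ZMod.intCast_eq_intCast_iff_dvd_sub b' b m).1 h.symm
  have d1 : (!![1, t; 0, 1] : Mat).det = 1 := by
    rw [Matrix.det_fin_two_of]
    ring
  have e : tMat m b = (!![1, t; 0, 1] : Mat) * tMat m b' := by
    ext i j
    fin_cases i <;> fin_cases j <;> simp [tMat, Matrix.mul_apply, Fin.sum_univ_two]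
    linear_combination ht
  have d2 : (tMat m b').det ≠ 0 := by
    rw [det_tMat]
    positivity
  have := hf ⟨_, d1⟩ (mem_Gamma0_iff.2 (dvd_zero (N : ℤ)))
  rw [e, sl_mul 2 f (by rw [d1]; exact one_ne_zero) d2]
  exact congrArg (fun g => sl 2 g (tMat m b')) this

/-- Sketch: `sl_upper` gives `sl 2 f (tMat m b) z = f (ofComplex (z + b / m))`; `gq2_at`;
`exp (2 π i n b / m) = ZMod.stdAddChar (b * n)` (`ZMod.stdAddChar_coe`), and
`∑_b dft ξ b * stdAddChar (b * n) = m * ξ n` by `ZMod.dft_dft` (`ZMod.dft_apply` at `-n`).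
Use `QS.sum`, `QS.smul`. -/
theorem qs_twF (h : QS f a) (m : ℕ) [NeZero m] (ξ : ZMod m → ℂ) :
    QS (twF m ξ f) fun n => a n * ξ n := by
  have hm : (0 : ℤ) < m := by exact_mod_cast Nat.pos_of_ne_zero (NeZero.ne m)
  have hm' : (m : ℂ) ≠ 0 := by exact_mod_cast NeZero.ne m
  have h1 : ∀ b : ZMod m, QS (sl 2 f (tMat m (b.val : ℤ)))
      fun n => a n * ZMod.stdAddChar (b * (n : ZMod m)) := by
    intro b z
    have hw : 0 < ((((m : ℤ) : ℂ) * z + ((b.val : ℤ) : ℂ)) / ((m : ℤ) : ℂ)).im := by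
      have e : (((m : ℤ) : ℂ) * z + ((b.val : ℤ) : ℂ)) / ((m : ℤ) : ℂ) =
          z + ((b.val / m : ℝ) : ℂ) := by
        push_cast
        field_simp
      rw [e, Complex.add_im, Complex.ofReal_im, add_zero]
      exact z.im_pos
    rw [tMat, sl_upper 2 f _ hm hm,
      show ((m : ℤ) : ℂ) ^ ((2 : ℤ) - 1) / ((m : ℤ) : ℂ) = 1 by norm_num [hm'], one_mul]
    refine (gq2_at h hw).congr fun s => Finset.sum_congr rfl fun n _ => ?_
    have e : b * (n : ZMod m) = (((b.val : ℤ) * n : ℤ) : ZMod m) := by simp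
    simp only
    rw [e, ZMod.stdAddChar_coe, mul_assoc (a n), ← Complex.exp_add]
    congr 2
    push_cast
    field_simp
    ring
  have h2 := QS.sum (s := univ) fun b _ => (h1 b).smul (ZMod.dft ξ b / m)
  refine (congrArg (QS _) (funext fun n => ?_)).mpr h2
  have h3 := congrFun (ZMod.dft_dft ξ) (-(n : ZMod m))
  rw [ZMod.dft_apply] at h3
  simp only [mul_neg, neg_neg, smul_eq_mul] at h3
  rw [Finset.sum_apply]
  simp only [Pi.smul_apply, smul_eq_mul]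
  rw [show ξ n = (m : ℂ)⁻¹ * (m * ξ n) by field_simp, ← h3, Finset.mul_sum, Finset.mul_sum]
  refine Finset.sum_congr rfl fun b _ => ?_
  ring

/-- Sketch: substitute `j ↦ j * u⁻¹ ^ 2` in `ZMod.dft_apply` (or `ZMod.dft_comp_unitMul`). -/
theorem dft_sq {m : ℕ} [NeZero m] {ξ : ZMod m → ℂ}
    (hξ : ∀ (u : (ZMod m)ˣ) (x : ZMod m), ξ (x * (u : ZMod m) ^ 2) = ξ x) (u : (ZMod m)ˣ)
    (b : ZMod m) : ZMod.dft ξ (b * (u : ZMod m) ^ 2) = ZMod.dft ξ b := by
  rw [ZMod.dft_apply, ZMod.dft_apply, ← Equiv.sum_comp (Units.mulRight (u ^ 2))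
    fun j => ZMod.stdAddChar (-(j * b)) • ξ j]
  refine Finset.sum_congr rfl fun j _ => ?_
  simp only [Units.mulRight_apply, Units.val_pow_eq_pow_val, hξ]
  congr 2
  ring

lemma btw_key {N m : ℕ} (hm : 0 < m) (hf : Inv (Gamma0 N) 2 f) {p q c r : ℤ}
    (hd : p * r - q * (N * m ^ 2 * c) = 1) (b : ℤ) :
    sl 2 (sl 2 f (tMat m b)) !![p, q; N * m ^ 2 * c, r] = sl 2 f (tMat m (b * r ^ 2)) := by
  have d2 : ∀ b, (tMat m b).det ≠ 0 := fun b => by
    rw [det_tMat]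
    positivity
  obtain ⟨g, hg⟩ : ∃ g : Mat, g = !![p + b * N * m * c, q - b * r * q * N * m * c -
    b * (b * r ^ 2) * N * c; N * m ^ 2 * c, r - N * m * c * (b * r ^ 2)] := ⟨_, rfl⟩
  have d1 : g.det = 1 := by
    rw [hg, Matrix.det_fin_two_of]
    linear_combination (1 - N * m * c * b * r) * hd
  have h1 : sl 2 f g = f := hf ⟨g, d1⟩ (mem_Gamma0_iff.2 ⟨m ^ 2 * c, by
    change g 1 0 = _
    simp [hg, mul_assoc]⟩)
  have e : tMat m b * !![p, q; N * m ^ 2 * c, r] = g * tMat m (b * r ^ 2) := by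
    rw [hg, tMat, tMat, Matrix.mul_fin_two, Matrix.mul_fin_two]
    congr 3
    · ring
    · congr 1
      linear_combination (-b * r) * hd
    · congr 1
      · ring
      · congr 1
        ring
  rw [← sl_mul 2 f (d2 _) (by rw [Matrix.det_fin_two_of, hd]; exact one_ne_zero), e,
    sl_mul 2 f (by rw [d1]; exact one_ne_zero) (d2 _), h1]

/-- Sketch: `Cuspy.sum`, `Cuspy.smul`, `Cuspy.sl`. For `γ = (a β; c d)` with `c = N m ^ 2 c'` and
`b' = b d ^ 2`: `tMat m b * γ = γ' * tMat m b'` with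
`γ' = (a + b N m c', β + s - b b' N c'; c, d - N m c' b')` where `m s = b d - b' a`
(`a d = 1 + β c`), `det γ' = 1` by cancelling `m ^ 2`. `d` is a unit `u` of `ZMod m`; reindex the sum
by `b ↦ b * u ^ 2` (`Equiv.sum_comp`, `Units.mulRight`), `dft_sq`, `sl_tMat_congr`. -/
theorem isCF_twF {N m : ℕ} [NeZero m] (hf : IsCF (Gamma0 N) 2 f) {ξ : ZMod m → ℂ}
    (hξ : ∀ (u : (ZMod m)ˣ) (x : ZMod m), ξ (x * (u : ZMod m) ^ 2) = ξ x) :
    IsCF (Gamma0 (N * m ^ 2)) 2 (twF m ξ f) := by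
  have hm : 0 < m := Nat.pos_of_ne_zero (NeZero.ne m)
  have d2 : ∀ b, (tMat m b).det ≠ 0 := fun b => by
    rw [det_tMat]
    positivity
  refine ⟨Cuspy.sum fun b _ => (hf.cuspy.sl (d2 _)).smul _, fun γ hγ => ?_⟩
  obtain ⟨c, hc⟩ := mem_Gamma0_iff.1 hγ
  have hd := γ.det_coe
  have hd' : (0 : ℤ) < (γ : Mat).det := by rw [hd]; exact one_pos
  rw [Matrix.det_fin_two] at hd
  push_cast at hc
  have hu : ((γ 1 1 : ℤ) : ZMod m) * ((γ 0 0 : ℤ) : ZMod m) = 1 := by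
    have := congrArg (Int.cast : ℤ → ZMod m) hd
    rw [hc] at this
    simpa [mul_comm] using this
  have key : ∀ b : ℤ, sl 2 (sl 2 f (tMat m b)) γ = sl 2 f (tMat m (b * γ 1 1 ^ 2)) := by
    intro b
    have hd2 := hd
    rw [hc] at hd2
    have := btw_key hm hf.inv hd2 b
    rwa [← hc, ← Matrix.eta_fin_two] at this
  obtain ⟨u, hu'⟩ : ∃ u : (ZMod m)ˣ, (u : ZMod m) = ((γ 1 1 : ℤ) : ZMod m) :=
    ⟨Units.mkOfMulEqOne _ _ hu, rfl⟩
  rw [twF, sl_sum]
  refine Eq.trans (Finset.sum_congr rfl fun b _ => ?_) (Equiv.sum_comp (Units.mulRight (u ^ 2))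
    fun b => (ZMod.dft ξ b / m) • sl 2 f (tMat m (b.val : ℤ)))
  rw [sl_smul _ _ _ hd', key, Units.mulRight_apply, Units.val_pow_eq_pow_val, dft_sq hξ,
    sl_tMat_congr hm hf.inv (b' := ((b * (u : ZMod m) ^ 2).val : ℤ)) (by simp [hu'])]

end Pool.Agent.Lib.MP_03e5d0_nt.B
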