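import Pool.Agent.Lib.MP_03e5d0_nt.BDefs

/-! The operator `U_p` and the size of its eigenvalues. -/

set_option autoImplicit false

noncomputable section

namespace Pool.Agent.Lib.MP_03e5d0_nt.B

open Finset CongruenceSubgroup UpperHalfPlane Pool.Agent.Lib.MP_88d29b_nt.G
open scoped MatrixGroups ModularForm Manifold NumberTheorySymbols

variable {f : ℍ → ℂ} {a : ℕ → ℂ} {M p : ℕ}

/-- Sketch: `QS.extract` with `m = p`, `M = 1`, `r = 0`; `sl_upper`, `Fin.sum_univ_eq_sum_range`. -/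
theorem qs_uF (h : QS f a) (hp : 0 < p) : QS (uF p f) fun n => a (p * n) := by
  intro z
  have hp' : (0 : ℤ) < p := by exact_mod_cast hp
  have h1 := h.extract hp one_pos 0 z
  have e : uF p f z = (∑ j ∈ range (p * 1),
      Complex.exp (-(2 * Real.pi * Complex.I * (0 : ℕ) * j / (1 : ℕ))) *
        f (ofComplex (((1 : ℕ) * (z : ℂ) + j) / (p * (1 : ℕ))))) / (p * (1 : ℕ)) := by
    rw [uF, Finset.sum_apply, mul_one, Finset.sum_range, Finset.sum_div]
    refine Finset.sum_congr rfl fun j _ => ?_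
    rw [sl_upper 2 f _ one_pos hp']
    simp [div_eq_inv_mul]
  rw [e]
  refine h1.congr fun s => Finset.sum_congr rfl fun n _ => ?_
  beta_reduce
  rw [if_pos Nat.modEq_one]

lemma bup_det (j d : ℤ) : (!![1, j; 0, d] : Mat).det = d := by
  rw [Matrix.det_fin_two_of]
  ring

lemma bup_cov (hp : 0 < p) (hpM : p ∣ M) :
    Cov (Gamma0 M) (Gamma0 M) fun j : Fin p => (!![1, ((j : ℕ) : ℤ); 0, (p : ℤ)] : Mat) := by
  have hp' : (0 : ℤ) < p := by exact_mod_cast hp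
  refine ⟨fun j => by rw [bup_det]; exact hp'.ne', fun g hg j => ?_, fun i j t _ h => ?_⟩
  · have hc : (M : ℤ) ∣ g 1 0 := (ZMod.intCast_zmod_eq_zero_iff_dvd _ _).mp hg
    obtain ⟨c', hc'⟩ : (p : ℤ) ∣ g 1 0 := (Int.natCast_dvd_natCast.mpr hpM).trans hc
    have hd : g 0 0 * g 1 1 - g 0 1 * g 1 0 = 1 := by
      have := g.det_coe
      rwa [Matrix.det_fin_two] at this
    set x : ℤ := g 1 1 * (g 0 1 + j * g 1 1) with hx
    have h0 : 0 ≤ x % p := Int.emod_nonneg _ hp'.ne'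
    have h1 : x % p < p := Int.emod_lt_of_pos _ hp'
    have h2 : x % p + p * (x / p) = x := Int.emod_add_mul_ediv x p
    have h3 : (((x % p).toNat : ℕ) : ℤ) = x % p := Int.toNat_of_nonneg h0
    set q : ℤ := x / p
    set r : ℤ := x % p
    have hs : (p : ℤ) * (q * (g 0 0 + j * g 1 0) - (g 0 1 + j * g 1 1) * g 0 1 * c' - x * j * c') =
        g 0 1 + j * g 1 1 - r * (g 0 0 + j * g 1 0) := by
      linear_combination (g 0 0 + j * g 1 0) * h2 + g 0 0 * hx + (g 0 1 + j * g 1 1) * hd +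
        ((g 0 1 + j * g 1 1) * g 0 1 + x * j) * hc'
    set s : ℤ := q * (g 0 0 + j * g 1 0) - (g 0 1 + j * g 1 1) * g 0 1 * c' - x * j * c'
    refine ⟨⟨r.toNat, by omega⟩, ⟨!![g 0 0 + j * g 1 0, s; p * g 1 0, g 1 1 - g 1 0 * r], ?_⟩,
      ?_, ?_⟩
    · rw [Matrix.det_fin_two_of]
      linear_combination hd - g 1 0 * hs
    · rw [Gamma0_mem]
      exact (ZMod.intCast_zmod_eq_zero_iff_dvd _ _).mpr (hc.mul_left _)
    · ext a b
      fin_cases a <;> fin_cases b <;> simp [Matrix.mul_apply, Fin.sum_univ_two, max_eq_left h0]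
      · linear_combination -hs
      · ring
  · have e0 := congrFun (congrFun h 0) 0
    have e1 := congrFun (congrFun h 0) 1
    simp [Matrix.mul_apply, Fin.sum_univ_two] at e0 e1
    rw [← e0, one_mul] at e1
    have h1 : ((i : ℕ) : ℤ) % p = ((j : ℕ) : ℤ) % p := by
      rw [e1, Int.add_mul_emod_self_right]
    rw [Int.emod_eq_of_lt (by positivity) (by exact_mod_cast i.2),
      Int.emod_eq_of_lt (by positivity) (by exact_mod_cast j.2)] at h1
    exact Fin.ext (by exact_mod_cast h1)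

/-- Sketch: `IsCF.dc` with `Cov (Gamma0 M) (Gamma0 M) δ`, `δ j = !![1, j; 0, p]`. For
`γ = (a b; c d)`, `p ∣ M ∣ c`, take `j'` in `Fin p` with `j' ≡ d (b + j d) (mod p)` (`a d ≡ 1`), and
`t = (a + j c, s; p c, d - c j')`, `p s = b + j d - j' (a + j c)`. -/
theorem isCF_uF (hp : 0 < p) (hpM : p ∣ M) (hf : IsCF (Gamma0 M) 2 f) :
    IsCF (Gamma0 M) 2 (uF p f) := hf.dc (bup_cov hp hpM)

lemma bup_psi (f : ℍ → ℂ) {g : Mat} (h : 0 < g.det) (z : ℍ) :
    (sm g z).im * ‖f (sm g z)‖ = z.im * ‖sl 2 f g z‖ := by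
  have hd : (0 : ℝ) < g.det := by exact_mod_cast h
  have h1 : ‖(g 1 0 : ℂ) * z + g 1 1‖ ≠ 0 := norm_ne_zero_iff.mpr (den_ne_zero h.ne' z)
  rw [im_sm h, sl_apply 2 f h, norm_mul, norm_mul, norm_zpow, norm_zpow, Complex.normSq_eq_norm_sq,
    Complex.norm_intCast, abs_of_pos hd, show (2 : ℤ) - 1 = 1 by norm_num, zpow_one, zpow_neg,
    zpow_ofNat]
  field_simp

lemma bup_decay [NeZero M] (hf : IsCF (Gamma0 M) 2 f) (γ : SL(2, ℤ)) {ε : ℝ} (hε : 0 < ε) :
    ∃ A : ℝ, ∀ z : ℍ, A ≤ z.im → (γ • z).im * ‖f (γ • z)‖ < ε := by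
  have hγ : 0 < (γ : Mat).det := by
    rw [γ.det_coe]
    exact one_pos
  have h1 : IsCF (Gamma (M * 1)) 2 (sl 2 f γ) :=
    (hf.mono (Gamma_le_Gamma0 M)).sl hγ.ne' (by rw [γ.det_coe]; exact one_dvd _)
  rw [mul_one] at h1
  obtain ⟨c, hc, h2⟩ := h1.exp_decay
  have h3 : Filter.Tendsto (fun z : ℍ => z.im * Real.exp (-c * z.im)) atImInfty (nhds 0) := by
    have h4 := tendsto_rpow_mul_exp_neg_mul_atTop_nhds_zero 1 c hc
    simp only [Real.rpow_one] at h4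
    exact h4.comp Filter.tendsto_comap
  have h5 := ((Asymptotics.isBigO_refl (fun z : ℍ => z.im) atImInfty).mul
    h2.norm_left).trans_tendsto h3
  obtain ⟨A, hA⟩ := (atImInfty_mem _).mp (h5.eventually (gt_mem_nhds hε))
  refine ⟨A, fun z hz => ?_⟩
  rw [← sm_SL, bup_psi f hγ]
  exact hA z hz

/-- Sketch: `Ψ z = z.im * ‖f z‖` satisfies `Ψ (sm g z) = z.im * ‖sl 2 f g z‖` for `det g > 0`
(`sl_apply`, `im_sm`), is invariant under `Gamma0 M` and tends to zero at the cusps (for `γ` in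
`SL(2, ℤ)` the form `sl 2 f γ` is a cusp form for `Gamma M`: `IsCF.sl` with `D = 1`,
`IsCF.exp_decay`; `y exp (-c y) → 0`; no condition on the real part is needed). `exists_max` gives a
maximum point `z₀`, `Ψ z₀ > 0`. If `p ≤ ‖α‖` and `z` is a maximum point then
`p Ψ z ≤ ∑_j Ψ ((z + j) / p) ≤ Ψ (z / p) + (p - 1) Ψ z`, so `z / p` is a maximum point. Hence so are
all `z₀ / p ^ r = S • w_r` with `w_r = -p ^ r / z₀`, `im w_r = p ^ r im z₀ / |z₀| ^ 2 → ∞`:
contradiction with the decay at the cusp `S • ∞`. -/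
theorem norm_eig_lt [NeZero M] (hp : 1 < p) (hf : IsCF (Gamma0 M) 2 f) (hf0 : f ≠ 0) {α : ℂ}
    (hα : uF p f = α • f) : ‖α‖ < p := by
  have hp0 : 0 < p := zero_lt_one.trans hp
  have hp' : (0 : ℤ) < p := by exact_mod_cast hp0
  by_contra hcon
  rw [not_lt] at hcon
  obtain ⟨z₀, hz₀⟩ := exists_max (Γ := Gamma0 M) (Ψ := fun z => z.im * ‖f z‖)
    (UpperHalfPlane.continuous_im.mul hf.cuspy.continuous.norm)
    (fun z => mul_nonneg z.im_pos.le (norm_nonneg _))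
    (fun γ hγ z => by
      have hd : 0 < (γ : Mat).det := by
        rw [γ.det_coe]
        exact one_pos
      rw [← sm_SL, bup_psi f hd, hf.inv γ hγ])
    (fun γ ε hε => by
      obtain ⟨A, hA⟩ := bup_decay hf γ hε
      exact ⟨A, fun z _ hz => (hA z hz).le⟩)
  have hpos : 0 < z₀.im * ‖f z₀‖ := by
    obtain ⟨z, hz⟩ := Function.ne_iff.mp hf0
    exact (mul_pos z.im_pos (norm_pos_iff.mpr hz)).trans_le (hz₀ z)
  set m : ℝ := z₀.im * ‖f z₀‖
  have hstep : ∀ z : ℍ, m ≤ z.im * ‖f z‖ →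
      m ≤ (sm !![1, 0; 0, (p : ℤ)] z).im * ‖f (sm !![1, 0; 0, (p : ℤ)] z)‖ := by
    intro z hz
    by_contra hlt
    rw [not_le] at hlt
    have h1 : ∑ j : Fin p, z.im * ‖sl 2 f !![1, ((j : ℕ) : ℤ); 0, (p : ℤ)] z‖ < ∑ _j : Fin p, m := by
      refine Finset.sum_lt_sum (fun j _ => ?_) ⟨⟨0, hp0⟩, mem_univ _, ?_⟩
      · rw [← bup_psi f (by rw [bup_det]; exact hp')]
        exact hz₀ _
      · rw [← bup_psi f (by rw [bup_det]; exact hp')]
        exact hlt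
    rw [Finset.sum_const, Finset.card_univ, Fintype.card_fin, nsmul_eq_mul, ← Finset.mul_sum] at h1
    have h2 : ‖α‖ * ‖f z‖ ≤ ∑ j : Fin p, ‖sl 2 f !![1, ((j : ℕ) : ℤ); 0, (p : ℤ)] z‖ := by
      have h3 := congrFun hα z
      rw [uF, Finset.sum_apply, Pi.smul_apply, smul_eq_mul] at h3
      rw [← norm_mul, ← h3]
      exact norm_sum_le _ _
    have h4 := mul_le_mul_of_nonneg_left h2 z.im_pos.le
    have h5 : (p : ℝ) * m ≤ ‖α‖ * (z.im * ‖f z‖) := mul_le_mul hcon hz hpos.le (norm_nonneg _)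
    linarith [mul_left_comm z.im ‖α‖ ‖f z‖]
  have hall : ∀ r : ℕ, m ≤ (sm !![1, 0; 0, (p : ℤ) ^ r] z₀).im *
      ‖f (sm !![1, 0; 0, (p : ℤ) ^ r] z₀)‖ := by
    intro r
    induction r with
    | zero =>
      rw [pow_zero, ← Matrix.one_fin_two, sm_one]
    | succ r ih =>
      have e : (!![1, 0; 0, (p : ℤ) ^ (r + 1)] : Mat) =
          !![1, 0; 0, (p : ℤ)] * !![1, 0; 0, (p : ℤ) ^ r] := by
        rw [Matrix.mul_fin_two, pow_succ']
        simp
      rw [e, sm_mul (by rw [bup_det]; exact hp'.ne') (by rw [bup_det]; exact (pow_pos hp' r).ne')]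
      exact hstep _ ih
  obtain ⟨A, hA⟩ := bup_decay hf ModularGroup.S hpos
  have hn : 0 < Complex.normSq (z₀ : ℂ) := Complex.normSq_pos.mpr z₀.ne_zero
  obtain ⟨r, hr⟩ := pow_unbounded_of_one_lt (A * Complex.normSq (z₀ : ℂ) / z₀.im)
    (show (1 : ℝ) < p by exact_mod_cast hp)
  have hdet : (!![0, (p : ℤ) ^ r; -1, 0] : Mat).det = (p : ℤ) ^ r := by
    rw [Matrix.det_fin_two_of]
    ring
  have e : (!![1, 0; 0, (p : ℤ) ^ r] : Mat) =
      (ModularGroup.S : SL(2, ℤ)) * !![0, (p : ℤ) ^ r; -1, 0] := by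
    rw [ModularGroup.coe_S, Matrix.mul_fin_two]
    simp
  have h1 := hall r
  rw [e, sm_mul (inside_Snz ⊤ _ trivial) (by rw [hdet]; exact (pow_pos hp' r).ne'), sm_SL] at h1
  refine absurd (hA _ ?_) (not_lt.mpr h1)
  rw [im_sm (by rw [hdet]; exact pow_pos hp' r), hdet]
  rw [div_lt_iff₀ z₀.im_pos] at hr
  simp only [Matrix.of_apply, Matrix.cons_val', Matrix.cons_val_zero, Matrix.cons_val_one,
    Matrix.cons_val_fin_one, Int.cast_neg, Int.cast_one, Int.cast_zero, add_zero, neg_mul, one_mul,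
    Complex.normSq_neg, Int.cast_pow, Int.cast_natCast]
  rw [le_div_iff₀ hn]
  exact hr.le

end Pool.Agent.Lib.MP_03e5d0_nt.B
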