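import Pool.Agent.Lib.MP_03e5d0_nt.CMain

/-! The data attached to an elliptic curve, for all squarefree twists. -/

set_option autoImplicit false

noncomputable section

namespace Pool.Agent.Lib.MP_03e5d0_nt

open WeierstrassCurve Polynomial ArithmeticFunction
open scoped NumberTheorySymbols

lemma LF_twist_pow {A B d : ℤ} (hs : Squarefree d) {p : ℕ} (hp : p.Prime)
    (h1 : ¬(p : ℤ) ∣ 2 * (4 * A ^ 3 + 27 * B ^ 2)) (j : ℕ) :
    (twist A B d).LFunction (p ^ j) = (twist A B 1).LFunction (p ^ j) * J(d | p ^ j) := by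
  have : Fact p.Prime := ⟨hp⟩
  have h4 := lpoly_twist_good (d := 1) h1 fun h0 =>
    (Nat.prime_iff_prime_int.1 hp).not_isUnit (isUnit_of_dvd_one h0)
  rw [jacobiSym.one_left, one_mul] at h4
  rw [jacobiSym.pow_right]
  refine LF_pow_twist h4 ?_ j
  by_cases h5 : (p : ℤ) ∣ d
  · have h6 : J(d | p) = 0 := by
      rw [← jacobiSym.legendreSym.to_jacobiSym, legendreSym.eq_zero_iff,
        ZMod.intCast_zmod_eq_zero_iff_dvd]
      exact h5
    simp [lpoly_twist_add h1 h5 hs, h6]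
  · have h6 : J(d | p) ^ 2 = 1 := by
      rw [← jacobiSym.legendreSym.to_jacobiSym]
      exact legendreSym.sq_one p fun h0 => h5 ((ZMod.intCast_zmod_eq_zero_iff_dvd _ _).1 h0)
    rw [lpoly_twist_good h1 h5, h6, one_mul]

/-- The coefficients of any squarefree twist away from the bad primes. -/
theorem LF_twist_coprime {A B d : ℤ} {q : ℕ} (hq : 2 * (4 * A ^ 3 + 27 * B ^ 2) ∣ (q : ℤ))
    (hs : Squarefree d) (n : ℕ) (hn : n.Coprime q) :
    (twist A B d).LFunction n = (twist A B 1).LFunction n * J(d | n) := by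
  induction n using Nat.recOnPosPrimePosCoprime with
  | prime_pow p j hp hj =>
    refine LF_twist_pow hs hp (fun h => ?_) j
    exact (Nat.Prime.coprime_iff_not_dvd hp).1 (hn.coprime_dvd_left (dvd_pow_self p hj.ne'))
      (Int.natCast_dvd_natCast.1 (h.trans hq))
  | zero => simp
  | one => simp [(LF_mult _).1]
  | coprime a b ha hb hab i1 i2 =>
    rw [(LF_mult _).2 hab, (LF_mult _).2 hab, i1 hn.coprime_mul_right, i2 hn.coprime_mul_left,
      jacobiSym.mul_right' d (by omega) (by omega)]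
    ring

theorem lpoly_form' (p : ℕ) [hp : Fact p.Prime] (W : WeierstrassCurve ℚ) : ∃ α β : ℤ,
    lpoly p W = 1 - C α * X + C β * X ^ 2 ∧ (p : ℤ) ^ 2 - α * p + β ≠ 0 ∧
      |α| ≤ (p : ℤ) ^ 2 - p ∧ |β| ≤ p := by
  have h2 : (2 : ℤ) ≤ p := by exact_mod_cast hp.out.two_le
  have hc : Nat.card (IsLocalRing.ResidueField (Op p)) = p := by
    rw [card_res', Equiv.apply_symm_apply]
  have : Finite (IsLocalRing.ResidueField (Op p)) :=
    Nat.finite_of_card_ne_zero (by rw [hc]; exact hp.out.ne_zero)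
  rw [lpoly, localPolynomial_eq_lp]
  generalize ((W.baseChange (Kp p)).minimal (Op p)).reduction (Op p) = V
  by_cases h : V.Δ = 0
  · by_cases h1 : V.c₄ = 0
    · exact ⟨0, 0, by simp [lp_add h h1], by nlinarith, by rw [abs_zero]; nlinarith, by simp⟩
    by_cases h3 : ∃ T, nodeq V T = 0
    · exact ⟨1, 0, by simp [lp_split h h1 h3], by nlinarith, by rw [abs_one]; nlinarith, by simp⟩
    · exact ⟨-1, 0, by simp [lp_nonsplit h h1 h3], by nlinarith,
        by rw [abs_neg, abs_one]; nlinarith, by simp⟩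
  · refine ⟨_, _, lp_good h, ?_⟩
    have h4 := Finite.card_subtype_le fun z : _ × _ => V.toAffine.Equation z.1 z.2
    rw [Nat.card_prod, hc] at h4
    rw [hc, card_point_eq V h]
    push_cast
    have h5 : (0 : ℤ) ≤ Nat.card {z : _ × _ // V.toAffine.Equation z.1 z.2} := Nat.cast_nonneg _
    have h6 : (Nat.card {z : _ × _ // V.toAffine.Equation z.1 z.2} : ℤ) ≤ p * p := by
      exact_mod_cast h4
    exact ⟨by nlinarith, abs_le.2 ⟨by nlinarith, by nlinarith⟩, by simp⟩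

lemma abs_LF_pow (p : ℕ) [hp : Fact p.Prime] (W : WeierstrassCurve ℚ) (j : ℕ) :
    |W.LFunction (p ^ j)| ≤ ((p : ℤ) ^ 2) ^ j := by
  obtain ⟨α, β, h, -, ha, hb⟩ := lpoly_form' p W
  obtain ⟨a1, a2⟩ := LF_rec p W h
  have h2 : (2 : ℤ) ≤ p := by exact_mod_cast hp.out.two_le
  induction j using Nat.twoStepInduction with
  | zero => simp [(LF_mult W).1]
  | one => rw [pow_one, a1]; linarith
  | more j i0 i1 =>
    rw [a2]
    refine (abs_sub _ _).trans ?_
    rw [abs_mul, abs_mul]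
    have h3 : (0 : ℤ) < ((p : ℤ) ^ 2) ^ j := by positivity
    calc _ ≤ ((p : ℤ) ^ 2 - p) * ((p : ℤ) ^ 2) ^ (j + 1) + p * ((p : ℤ) ^ 2) ^ j := by
          gcongr
          nlinarith
      _ = ((p : ℤ) ^ 2) ^ (j + 2) - (p * (p ^ 2 - 1)) * ((p : ℤ) ^ 2) ^ j := by ring
      _ ≤ _ := sub_le_self _ (mul_nonneg (mul_nonneg (by omega) (by nlinarith)) h3.le)

lemma summable_depl {g : ℕ → ℂ} (hm : ∀ m n : ℕ, m.Coprime n → g (m * n) = g m * g n)
    (S : Finset ℕ) (hS : ∀ p ∈ S, p.Prime ∧ ∀ j, ‖g (p ^ j)‖ ≤ ((p : ℝ) ^ 2) ^ j) {s : ℂ}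
    (hs : 2 < s.re) (h : LSeriesSummable (depl S g) s) : LSeriesSummable g s := by
  induction S using Finset.induction_on with
  | empty =>
    have : depl ∅ g = g := by funext n; simp [depl]
    rwa [this] at h
  | insert p S hpS ih =>
    refine ih (fun l hl => hS l (Finset.mem_insert_of_mem hl)) ?_
    obtain ⟨hp, hb⟩ := hS p (Finset.mem_insert_self _ _)
    have hp1 : (1 : ℝ) < p := by exact_mod_cast hp.one_lt
    have hr : (p : ℝ) ^ 2 / p ^ s.re < 1 := by
      rw [div_lt_one (by positivity), ← Real.rpow_two]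
      exact Real.rpow_lt_rpow_of_exponent_lt hp1 hs
    have h1 := ((summable_geometric_of_lt_one (by positivity) hr).mul_of_nonneg h.norm
      (fun _ => by positivity) fun _ => norm_nonneg _).comp_injective
      (i := fun n : ℕ => (n.factorization p, n / p ^ n.factorization p)) fun a b e => by
        obtain ⟨e1, e2⟩ := Prod.mk.inj e
        rw [← Nat.ordProj_mul_ordCompl_eq_self a p, ← Nat.ordProj_mul_ordCompl_eq_self b p, e2, e1]
    refine Summable.of_norm_bounded h1 fun n => ?_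
    rcases eq_or_ne n 0 with rfl | hn
    · simp
    have hpm := Nat.not_dvd_ordCompl hp hn
    have hm0 := (Nat.ordCompl_pos p hn).ne'
    have e := Nat.ordProj_mul_ordCompl_eq_self n p
    simp only [Function.comp_apply]
    generalize n / p ^ n.factorization p = m at hpm hm0 e
    generalize n.factorization p = j at e
    subst e
    rw [LSeries.norm_term_eq, LSeries.norm_term_eq, if_neg hn, if_neg hm0, Nat.cast_mul,
      Real.mul_rpow (by positivity) (by positivity), div_pow, div_mul_div_comm, Nat.cast_pow,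
      ← Real.rpow_pow_comm (by positivity)]
    gcongr
    unfold depl
    split_ifs with h2 h3
    · rw [hm _ _ (((Nat.Prime.coprime_iff_not_dvd hp).2 hpm).pow_left j), norm_mul]
      gcongr
      exact hb j
    · refine absurd (fun l hl => ?_) h3
      rcases Finset.mem_insert.1 hl with rfl | hl
      · exact hpm
      · exact fun hh => h2 l hl (hh.mul_left _)
    all_goals rw [norm_zero]; positivity

theorem data_of_int_all (A B : ℤ) (N : ℕ) (hN : N ≠ 0) (hab : 4 * A ^ 3 + 27 * B ^ 2 ≠ 0)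
    (hbd : ∃ C : ℝ, ∀ n : ℕ, |((twist A B 1).LFunction n : ℝ)| ≤ C * n) :
    ∃ D : Data, N ∣ D.q ∧
      (∀ n : ℕ, n.Coprime D.q → ((twist A B 1).LFunction n : ℝ) = D.lam n * √n) ∧
      ∀ d : ℤ, Squarefree d → ∃ P : ℂ → ℂ, Differentiable ℂ P ∧ P 1 ≠ 0 ∧ ∀ s : ℂ, 2 < s.re →
        LSeries (D.co d) s = P s * (twist A B d).LSeries s := by
  obtain ⟨D, hND, hlam, -⟩ := data_of_int A B hab (N * (2 * (4 * A ^ 3 + 27 * B ^ 2)).natAbs)
    (mul_ne_zero hN (Int.natAbs_ne_zero.2 (mul_ne_zero two_ne_zero hab))) hbd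
  have hq : 2 * (4 * A ^ 3 + 27 * B ^ 2) ∣ (D.q : ℤ) :=
    Int.natAbs_dvd.1 (Int.natCast_dvd_natCast.2 ((dvd_mul_left _ _).trans hND))
  refine ⟨D, (dvd_mul_right _ _).trans hND, hlam, fun d hd => ?_⟩
  have hαβ : ∀ p : ℕ, ∃ α β : ℤ, ∀ [Fact p.Prime],
      lpoly p (twist A B d) = 1 - C α * X + C β * X ^ 2 ∧ (p : ℤ) ^ 2 - α * p + β ≠ 0 := by
    intro p
    by_cases hp : p.Prime
    · have : Fact p.Prime := ⟨hp⟩
      obtain ⟨α, β, h⟩ := lpoly_form p (twist A B d)
      exact ⟨α, β, h⟩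
    · exact ⟨0, 0, fun [h : Fact p.Prime] => absurd h.out hp⟩
  choose α β hαβ using hαβ
  refine ⟨fun s => ∏ p ∈ D.q.primeFactors,
    (1 - (α p : ℂ) * (p : ℂ) ^ (-s) + (β p : ℂ) * ((p : ℂ) ^ (-s)) ^ 2), ?_, ?_, fun s hs => ?_⟩
  · refine Differentiable.fun_finsetProd fun p hp => ?_
    have : Differentiable ℂ fun s : ℂ => (p : ℂ) ^ (-s) := differentiable_id.neg.const_cpow
      (Or.inl (Nat.cast_ne_zero.2 (Nat.prime_of_mem_primeFactors hp).ne_zero))
    fun_prop
  · refine Finset.prod_ne_zero_iff.2 fun p hp h => ?_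
    have : Fact p.Prime := ⟨Nat.prime_of_mem_primeFactors hp⟩
    have hp0 : (p : ℂ) ≠ 0 := Nat.cast_ne_zero.2 this.out.ne_zero
    refine (hαβ p).2 ?_
    rw [Complex.cpow_neg_one] at h
    field_simp at h
    have : ((p : ℂ)) ^ 2 - α p * p + β p = 0 := by linear_combination h
    exact_mod_cast this
  have eco : D.co d = depl D.q.primeFactors ((↑) ∘ (twist A B d).LFunction) := by
    funext n
    have e : (∀ p ∈ D.q.primeFactors, ¬p ∣ n) ↔ n.Coprime D.q := by
      rw [Nat.coprime_iff_gcd_eq_one, Nat.eq_one_iff_not_exists_prime_dvd]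
      simp only [Nat.mem_primeFactors, Nat.dvd_gcd_iff]
      exact ⟨fun h p hp hh => h p ⟨hp, hh.2, D.q_ne⟩ hh.1, fun h p hp hh => h p hp.1 ⟨hh, hp.2.1⟩⟩
    unfold depl Data.co
    by_cases h : n.Coprime D.q
    · rw [if_pos (e.2 h), mul_right_comm, ← hlam n h, Function.comp_apply,
        LF_twist_coprime hq hd n h]
      push_cast
      rfl
    · rw [if_neg (mt e.1 h), D.lam_zero n h]
      simp
  obtain ⟨C, hC⟩ := hbd
  have hsum : LSeriesSummable (D.co d) s := by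
    refine LSeriesSummable_of_le_const_mul_rpow hs ⟨C, fun n _ => ?_⟩
    rw [show (2 : ℝ) - 1 = 1 by norm_num, Real.rpow_one, Data.co, Complex.norm_real,
      Real.norm_eq_abs]
    by_cases h : n.Coprime D.q
    · rw [mul_right_comm, ← hlam n h, abs_mul]
      refine (mul_le_of_le_one_right (abs_nonneg _) ?_).trans (hC n)
      rcases jacobiSym.trichotomy d n with h | h | h <;> simp [h]
    · rw [D.lam_zero n h, zero_mul, zero_mul, abs_zero]
      exact (abs_nonneg _).trans (hC n)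
  rw [eco] at hsum ⊢
  refine lseries_depl _ (LF_mult _) α β _ (fun p hp => ?_) (summable_depl (fun m n h => ?_) _
    (fun p hp => ?_) hs hsum)
  · have : Fact p.Prime := ⟨Nat.prime_of_mem_primeFactors hp⟩
    exact ⟨this.out, LF_rec p _ (hαβ p).1⟩
  · simp only [Function.comp_apply, (LF_mult _).2 h, Int.cast_mul]
  · have : Fact p.Prime := ⟨Nat.prime_of_mem_primeFactors hp⟩
    refine ⟨this.out, fun j => ?_⟩
    rw [Function.comp_apply, Complex.norm_intCast]
    exact_mod_cast abs_LF_pow p _ j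

/-- The data of a curve, with the Euler factors of every squarefree twist. -/
theorem data_of_curve_all (a b : ℚ) (hab : 4 * a ^ 3 + 27 * b ^ 2 ≠ 0) (N : ℕ) (hN : N ≠ 0)
    (hbd : ∃ C : ℝ, ∀ n : ℕ, |((twist a b 1).LFunction n : ℝ)| ≤ C * n) :
    ∃ D : Data, N ∣ D.q ∧
      (∀ n : ℕ, n.Coprime D.q → ((twist a b 1).LFunction n : ℝ) = D.lam n * √n) ∧
      ∀ d : ℤ, Squarefree d → ∃ P : ℂ → ℂ, Differentiable ℂ P ∧ P 1 ≠ 0 ∧ ∀ s : ℂ, 2 < s.re →
        LSeries (D.co d) s = P s * (twist a b d).LSeries s := by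
  have hu : ((a.den * b.den : ℕ) : ℚ) ≠ 0 := Nat.cast_ne_zero.2 (mul_ne_zero a.den_nz b.den_nz)
  obtain ⟨A, hA⟩ : ∃ A : ℤ, (A : ℚ) = ((a.den * b.den : ℕ) : ℚ) ^ 4 * a :=
    ⟨a.den ^ 3 * b.den ^ 4 * a.num, by push_cast; rw [← a.mul_den_eq_num]; ring⟩
  obtain ⟨B, hB⟩ : ∃ B : ℤ, (B : ℚ) = ((a.den * b.den : ℕ) : ℚ) ^ 6 * b :=
    ⟨a.den ^ 6 * b.den ^ 5 * b.num, by push_cast; rw [← b.mul_den_eq_num]; ring⟩
  have hAB : 4 * A ^ 3 + 27 * B ^ 2 ≠ 0 := fun h => by
    have h1 : 4 * (A : ℚ) ^ 3 + 27 * (B : ℚ) ^ 2 = 0 := by exact_mod_cast h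
    rw [hA, hB] at h1
    exact mul_ne_zero (pow_ne_zero 12 hu) hab (by linear_combination h1)
  have e : ∀ d : ℤ, d ≠ 0 → (twist A B d).LFunction = (twist a b d).LFunction := fun d hd => by
    rw [hA, hB, LF_twist_scale hab hd hu]
  obtain ⟨D, h1, h2, h3⟩ := data_of_int_all A B N hN hAB (by rwa [e 1 one_ne_zero])
  rw [e 1 one_ne_zero] at h2
  refine ⟨D, h1, h2, fun d hd => ?_⟩
  obtain ⟨P, h4, h5, h6⟩ := h3 d hd
  refine ⟨P, h4, h5, fun s hs => ?_⟩
  rw [h6 s hs, WeierstrassCurve.LSeries, WeierstrassCurve.LSeries, e d hd.ne_zero]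

end Pool.Agent.Lib.MP_03e5d0_nt
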