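import Pool.Agent.Lib.MP_03e5d0_nt.CMain

/-! The assembly of the main theorem from its parts. -/

set_option autoImplicit false

noncomputable section

namespace Pool.Agent.Lib.MP_03e5d0_nt

open Complex
open scoped NumberTheorySymbols Real

lemma subset_Icc_ceil (X : ℝ) {S : Set ℤ} (h : ∀ d ∈ S, |(d : ℝ)| < X) :
    S ⊆ (Finset.Icc (-⌊X⌋) ⌊X⌋ : Finset ℤ) := fun d hd => by
  have := h d hd
  rw [← Int.cast_abs] at this
  simpa using abs_le.1 (Int.le_floor.2 this.le)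

lemma countS_le {X : ℝ} (hX : 1 ≤ X) : (countS X : ℝ) ≤ 3 * X := by
  have h1 := Set.ncard_le_ncard (subset_Icc_ceil X (S := {d : ℤ | Squarefree d ∧ |(d : ℝ)| < X})
    fun d hd => hd.2) (Finset.finite_toSet _)
  rw [Set.ncard_coe_finset, Int.card_Icc] at h1
  have h2 : 0 ≤ ⌊X⌋ := Int.floor_nonneg.2 (by linarith)
  have h3 : (countS X : ℤ) ≤ 2 * ⌊X⌋ + 1 := by unfold countS; omega
  have h4 : ((countS X : ℤ) : ℝ) ≤ ((2 * ⌊X⌋ + 1 : ℤ) : ℝ) := Int.cast_le.2 h3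
  push_cast at h4
  linarith [Int.floor_le X]

lemma hecke_bound {W : WeierstrassCurve ℚ} {N : ℕ} [NeZero N]
    (f : CuspForm (CongruenceSubgroup.Gamma0 N) 2)
    (hf : ∀ n : ℕ, (UpperHalfPlane.qExpansion 1 f).coeff n = (W.LFunction n : ℂ)) :
    ∃ C : ℝ, ∀ n : ℕ, |(W.LFunction n : ℝ)| ≤ C * n := by
  have h := CuspFormClass.qExpansion_isBigO f
  rw [CongruenceSubgroup.strictWidthInfty_Gamma0] at h
  obtain ⟨C, -, hC⟩ := Asymptotics.bound_of_isBigO_nat_atTop h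
  refine ⟨C, fun n => ?_⟩
  rcases eq_or_ne n 0 with rfl | hn
  · simp
  have e : (n : ℝ) ^ (((2 : ℤ) : ℝ) / 2) = n := by norm_num
  have := hC (x := n) (by rw [e]; exact_mod_cast hn)
  rwa [e, hf, Complex.norm_intCast, Real.norm_natCast] at this

lemma order_of_mul {F G P : ℂ → ℂ} (hF : Differentiable ℂ F) (hG : Differentiable ℂ G)
    (hP : Differentiable ℂ P) (h1 : P 1 ≠ 0) (h : ∀ s : ℂ, 2 < s.re → G s = P s * F s) :
    analyticOrderAt F 1 = analyticOrderAt G 1 := by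
  have e : G = P * F := by
    refine AnalyticOnNhd.eq_of_eventuallyEq (z₀ := 3) (fun z _ => hG.analyticAt z)
      (fun z _ => (hP.mul hF).analyticAt z) ?_
    filter_upwards [(isOpen_lt continuous_const continuous_re).mem_nhds
      (show (3 : ℂ) ∈ {s : ℂ | 2 < s.re} by norm_num)] with s hs using h s hs
  rw [e, analyticOrderAt_mul (hP.analyticAt 1) (hF.analyticAt 1),
    (hP.analyticAt 1).analyticOrderAt_eq_zero.2 h1, zero_add]

/-- The main theorem follows from the analytic core and the statements on modular forms. -/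
theorem main_of
    (core : ∀ D : Data, D.FE → D.PS → ∃ c : ℝ, 0 < c ∧ ∃ X₀ : ℝ, ∀ X : ℝ, X₀ ≤ X →
      c * X ≤ ({d : ℤ | D.Fam d ∧ |(d : ℝ)| < X ∧ D.Simple d}.ncard : ℝ))
    (fe : ∀ {N : ℕ} [NeZero N] (f : CuspForm (CongruenceSubgroup.Gamma0 N) 2) (D : Data),
      N ∣ D.q → (∀ n : ℕ, n.Coprime D.q →
        (UpperHalfPlane.qExpansion 1 f).coeff n = ((D.lam n * √n : ℝ) : ℂ)) → D.FE)
    (ps : ∀ {N : ℕ} [NeZero N] (f : CuspForm (CongruenceSubgroup.Gamma0 N) 2) (D : Data),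
      N ∣ D.q → (∀ n : ℕ, n.Coprime D.q →
        (UpperHalfPlane.qExpansion 1 f).coeff n = ((D.lam n * √n : ℝ) : ℂ)) → D.PS)
    (ent : ∀ {N : ℕ} [NeZero N] (f : CuspForm (CongruenceSubgroup.Gamma0 N) 2) {d : ℤ},
      d ≡ 1 [ZMOD 8] → ∃ F : ℂ → ℂ, Differentiable ℂ F ∧ ∀ s : ℂ, 2 < s.re →
        F s = LSeries (fun n => (UpperHalfPlane.qExpansion 1 f).coeff n * (J(d | n) : ℂ)) s)
    (a b : ℚ) (hab : 4 * a ^ 3 + 27 * b ^ 2 ≠ 0) (hm : IsModular (twist a b 1)) :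
    ∃ c : ℝ, 0 < c ∧ ∃ X₀ : ℝ, ∀ X : ℝ, X₀ ≤ X → c * countS X ≤ countN a b 1 X := by
  obtain ⟨N, hN, f, hf⟩ := hm
  obtain ⟨D, h1, h2, h3, P, h4, h5, h6⟩ :=
    data_of_curve a b hab N (NeZero.ne N) (hecke_bound f hf)
  have ha : ∀ n : ℕ, n.Coprime D.q →
      (UpperHalfPlane.qExpansion 1 f).coeff n = ((D.lam n * √n : ℝ) : ℂ) := fun n hn => by
    rw [hf, ← h2 n hn, ofReal_intCast]
  obtain ⟨c, hc, X₀, hX⟩ := core D (fe f D h1 ha) (ps f D h1 ha)
  refine ⟨c / 3, by positivity, max X₀ 1, fun X h => ?_⟩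
  have h7 := countS_le (le_of_max_le_right h)
  have h8 : {d : ℤ | D.Fam d ∧ |(d : ℝ)| < X ∧ D.Simple d}.ncard ≤ countN a b 1 X := by
    refine Set.ncard_le_ncard ?_
      ((Finset.finite_toSet _).subset (subset_Icc_ceil X fun d hd => hd.2.1))
    rintro d ⟨hd, hdX, G, g1, g2, g3⟩
    obtain ⟨F, f1, f2⟩ := ent f (hd.2.of_mul_right _)
    have f3 : ∀ s : ℂ, 2 < s.re → F s = (twist a b d).LSeries s := fun s hs => by
      rw [f2 s hs, WeierstrassCurve.LSeries]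
      congr 1
      funext n
      rw [hf, Function.comp_apply, h3 d hd, Int.cast_mul]
    refine ⟨hd.1, hdX, F, f1, f3, ?_⟩
    rw [order_of_mul f1 g1 h4 h5 fun s hs => by rw [g2 s hs, h6 d hd s hs, f3 s hs], g3]
    rfl
  have h9 := (hX X (le_of_max_le_left h)).trans (Nat.cast_le.2 h8)
  nlinarith

end Pool.Agent.Lib.MP_03e5d0_nt
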