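import Pool.Agent.Lib.MP_e97e2b_nt.Hasse

/-! The Hasse bound for cubic character sums, by the method of Manin. -/

set_option autoImplicit false

noncomputable section

namespace Pool.Agent.Lib.MP_03e5d0_nt

open Polynomial Pool.Agent.Lib.MP_e97e2b_nt

variable {k : Type} [Field k]

lemma prod_dvd_of_roots (S : Finset k) (g : k[X]) (h : ∀ c ∈ S, g.eval c = 0) :
    ∏ c ∈ S, (X - C c) ∣ g :=
  Finset.prod_dvd_of_coprime
    (fun _ _ _ _ hab => isCoprime_X_sub_C_of_isUnit_sub (sub_ne_zero.2 hab).isUnit)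
    fun c hc => dvd_iff_isRoot.2 (h c hc)

lemma coprime_prod_of_ne (S : Finset k) (g : k[X]) (h : ∀ c ∈ S, g.eval c ≠ 0) :
    IsCoprime g (∏ c ∈ S, (X - C c)) :=
  IsCoprime.prod_right fun c hc =>
    ((irreducible_X_sub_C c).coprime_iff_not_dvd.2 fun hd => h c hc (dvd_iff_isRoot.1 hd)).symm

variable [Fintype k] [DecidableEq k]

omit [DecidableEq k] in
lemma prod_univ_X_sub_C : ∏ c : k, (X - C c) = X ^ Fintype.card k - X := by
  have h1 := FiniteField.X_pow_card_sub_X_natDegree_eq k (Fintype.one_lt_card (α := k))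
  have hm : (X ^ Fintype.card k - X : k[X]).Monic :=
    (monic_X_pow _).sub_of_left (by
      rw [degree_X, degree_X_pow]; exact_mod_cast Fintype.one_lt_card)
  rw [← prod_multiset_X_sub_C_of_monic_of_roots_card_eq hm
    (by rw [FiniteField.roots_X_pow_card_sub_X, h1]; rfl), FiniteField.roots_X_pow_card_sub_X]
  rfl

lemma exists_reduced (hk : ringChar k ≠ 2) {A B : k} (hD : 4 * A ^ 3 + 27 * B ^ 2 ≠ 0) {m : ℕ}
    (hm : Fintype.card k = 2 * m + 1) : ∃ E φ D : k[X], E ≠ 0 ∧ IsCoprime φ D ∧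
      (X ^ 3 + C A * X + C B) * ((X ^ 3 + C A * X + C B) ^ m + 1) ^ 2 -
        (X ^ (2 * m + 1) + X) * (X ^ (2 * m + 1) - X) ^ 2 = E * φ ∧
      (X ^ (2 * m + 1) - X) ^ 2 = E * D ∧
      (hgt φ D : ℤ) = (2 * m + 1) + 1 + ∑ x : k, quadraticChar k (x ^ 3 + A * x + B) := by
  have h2 : (2 : k) ≠ 0 := Ring.two_ne_zero hk
  have hm1 : 1 ≤ m := by have := Fintype.one_lt_card (α := k); omega
  set f : k[X] := X ^ 3 + C A * X + C B with hf
  have ev : ∀ c, f.eval c = c ^ 3 + A * c + B := fun c => by simp [hf]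
  let S : ℤ → Finset k := fun e =>
    Finset.univ.filter fun c => quadraticChar k (c ^ 3 + A * c + B) = e
  let P : ℤ → k[X] := fun e => ∏ c ∈ S e, (X - C c)
  have hpow : ∀ e, ∀ c ∈ S e, f.eval c ^ m = (e : k) := by
    intro e c hc
    rw [← (Finset.mem_filter.1 hc).2, quadraticChar_eq_pow_of_char_ne_two' hk, ev, hm]
    congr 1; omega
  have hz : ∀ c ∈ S 0, f.eval c = 0 := fun c hc => by
    rw [ev]; exact quadraticChar_eq_zero_iff.1 (Finset.mem_filter.1 hc).2
  have hP : X ^ (2 * m + 1) - X = P (-1) * P 0 * P 1 := by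
    rw [← hm, ← prod_univ_X_sub_C]
    simp only [P, S, Finset.prod_filter, ← Finset.prod_mul_distrib]
    refine Finset.prod_congr rfl fun c _ => ?_
    rcases quadraticChar_isQuadratic k (c ^ 3 + A * c + B) with h | h | h <;> rw [h] <;> simp
  have hsum : ∑ x : k, quadraticChar k (x ^ 3 + A * x + B) = (S 1).card - (S (-1)).card := by
    simp only [S, Finset.card_filter, Nat.cast_sum, ← Finset.sum_sub_distrib]
    refine Finset.sum_congr rfl fun c _ => ?_
    rcases quadraticChar_isQuadratic k (c ^ 3 + A * c + B) with h | h | h <;> rw [h] <;> simp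
  have dP : ∀ e, (P e).natDegree = (S e).card := fun e =>
    natDegree_finsetProd_X_sub_C_eq_card _ fun c => c
  have nP : ∀ e, P e ≠ 0 := fun e => Finset.prod_ne_zero_iff.2 fun c _ => X_sub_C_ne_zero c
  have dq := congrArg natDegree hP
  rw [FiniteField.X_pow_card_sub_X_natDegree_eq k (by omega),
    natDegree_mul (mul_ne_zero (nP _) (nP _)) (nP _), natDegree_mul (nP _) (nP _), dP, dP, dP] at dq
  obtain ⟨g, hg⟩ := prod_dvd_of_roots (S (-1)) (f ^ m + 1) fun c hc => by
    simp [hpow _ c hc]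
  obtain ⟨h, hh⟩ := prod_dvd_of_roots (S 0) f hz
  change _ = P (-1) * g at hg
  change _ = P 0 * h at hh
  have g0 : ∀ c, f.eval c ^ m + 1 ≠ 0 → g.eval c ≠ 0 := fun c hc h0 => hc (by
    simpa [h0] using congrArg (eval c) hg)
  have c0 : IsCoprime (h * g ^ 2) (P 0) := coprime_prod_of_ne _ _ fun c hc => by
    rw [eval_mul, eval_pow]
    refine mul_ne_zero (fun h0 => ?_) (pow_ne_zero _ (g0 c (by simp [hpow _ c hc])))
    have e1 : (P 0).eval c = 0 := by
      rw [eval_prod]; exact Finset.prod_eq_zero hc (by simp)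
    have e2 := congrArg (fun p => eval c (derivative p)) hh
    simp only [derivative_mul, eval_add, eval_mul, e1, h0] at e2
    have e3 : 3 * c ^ 2 + A = 0 := by
      have e4 : (2 + 1) * c ^ 2 + A = 0 := by simpa [hf] using e2
      linear_combination e4
    have := (ns_of_eq h2 hD (x := c) (y := 0) (by rw [← ev, hz c hc]; simp)).2
    simp [e3] at this
  have c1 : IsCoprime (h * g ^ 2) (P 1) := coprime_prod_of_ne _ _ fun c hc => by
    rw [eval_mul, eval_pow]
    have e0 := hpow _ c hc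
    refine mul_ne_zero (fun h0 => ?_) (pow_ne_zero _ (g0 c (by
      rw [e0, Int.cast_one, one_add_one_eq_two]; exact h2)))
    have e2 := congrArg (eval c) hh
    rw [eval_mul, h0, mul_zero] at e2
    rw [e2, zero_pow (by omega)] at e0
    simp at e0
  have hE : P (-1) ^ 2 * P 0 ≠ 0 := mul_ne_zero (pow_ne_zero _ (nP _)) (nP _)
  have hN : f * (f ^ m + 1) ^ 2 - (X ^ (2 * m + 1) + X) * (X ^ (2 * m + 1) - X) ^ 2 =
      P (-1) ^ 2 * P 0 * (h * g ^ 2 - (X ^ (2 * m + 1) + X) * (P 0 * P 1 ^ 2)) := by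
    rw [hg, hP]
    conv_lhs => rw [hh]
    ring
  refine ⟨_, _, P 0 * P 1 ^ 2, hE, ?_, hN, by rw [hP]; ring, ?_⟩
  · rw [sub_eq_add_neg, ← neg_mul]
    exact (c0.mul_right c1.pow_right).add_mul_right_left _
  have fq : f ^ (2 * m + 1) = (X ^ (2 * m + 1)) ^ 3 + C A * X ^ (2 * m + 1) + C B := by
    rw [← hm, ← FiniteField.expand_card, hf]
    simp
  have hN2 : f * (f ^ m + 1) ^ 2 - (X ^ (2 * m + 1) + X) * (X ^ (2 * m + 1) - X) ^ 2 =
      X ^ (4 * m + 3) + (X ^ (2 * m + 3) - X ^ 3 + C A * X ^ (2 * m + 1) + C B + C 2 * f ^ (m + 1)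
        + f) := by
    rw [map_ofNat]
    linear_combination fq
  have df : f.natDegree = 3 := natDegree_cubic' A B
  have dN : (f * (f ^ m + 1) ^ 2 - (X ^ (2 * m + 1) + X) * (X ^ (2 * m + 1) - X) ^ 2).natDegree =
      4 * m + 3 := by
    rw [hN2, natDegree_add_eq_left_of_natDegree_lt, natDegree_X_pow]
    rw [natDegree_X_pow, Nat.lt_succ_iff]
    have t1 : (C 2 * f ^ (m + 1)).natDegree ≤ 4 * m + 2 :=
      (natDegree_C_mul_le _ _).trans (by rw [natDegree_pow, df]; omega)
    have t2 : (C A * X ^ (2 * m + 1) : k[X]).natDegree ≤ 4 * m + 2 :=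
      (natDegree_C_mul_X_pow_le _ _).trans (by omega)
    refine natDegree_add_le_of_degree_le (natDegree_add_le_of_degree_le
      (natDegree_add_le_of_degree_le (natDegree_add_le_of_degree_le ?_ t2) (by simp)) t1)
      (by omega)
    exact (natDegree_sub_le _ _).trans (by simp only [natDegree_X_pow]; omega)
  have hφ : h * g ^ 2 - (X ^ (2 * m + 1) + X) * (P 0 * P 1 ^ 2) ≠ 0 := fun h0 => by
    rw [hN, h0] at dN
    simp at dN
  rw [hN, natDegree_mul hE hφ, natDegree_mul (pow_ne_zero _ (nP _)) (nP _), natDegree_pow, dP,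
    dP] at dN
  rw [hgt, natDegree_mul (nP _) (pow_ne_zero _ (nP _)), natDegree_pow, dP, dP, hsum]
  omega

/-- The Hasse bound. -/
theorem hasse_sum (hk : ringChar k ≠ 2) {A B : k} (hD : 4 * A ^ 3 + 27 * B ^ 2 ≠ 0) :
    (∑ x : k, quadraticChar k (x ^ 3 + A * x + B)) ^ 2 ≤ 4 * (Fintype.card k : ℤ) := by
  have h2 : (2 : k) ≠ 0 := Ring.two_ne_zero hk
  obtain ⟨m, hm⟩ : ∃ m, Fintype.card k = 2 * m + 1 :=
    ⟨Fintype.card k / 2, by have := FiniteField.odd_card_of_char_ne_two hk; omega⟩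
  have hm1 : 1 ≤ m := by have := Fintype.one_lt_card (α := k); omega
  let Fr : FF A B →+* FF A B := (FiniteField.frobeniusAlgHom k (FF A B)).toRingHom
  have hFr : ∀ z, Fr z = z ^ (2 * m + 1) := fun z => by rw [← hm]; rfl
  have hF : ∀ z, Fr (io A B (C z)) = io A B (C z) := fun z =>
    (FiniteField.frobeniusAlgHom k (FF A B)).commutes z
  have FA := hF A
  have FB := hF B
  have comm : ∀ σ : FF A B →+* FF A B, ∀ z, σ (Fr z) = Fr (σ z) := fun σ z => by
    simp only [hFr, map_pow]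
  set G := gen A B h2 with hGdef
  have hG : G ∈ minus A B := gen_mem h2
  have hπ : fmap Fr FA FB G ∈ minus A B := by
    rw [mem_minus, fmap_pow_comm _ _ (comm _), mem_minus.1 hG, map_neg]
  have hR : ∀ n : ℤ, fmap Fr FA FB G - n • G ∈ minus A B := fun n => sub_mem hπ (zsmul_mem hG n)
  have h1 : ht G = 1 := by rw [ht_eq h2 hD (rep_gen h2)]; simp [hgt]
  let d : ℤ → ℤ := fun n => ht (fmap Fr FA FB G - n • G)
  have hrec : ∀ n, d (n + 1) + d (n - 1) = 2 * d n + 2 := by
    intro n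
    have := ht_par h2 hD (hR n) hG
    rw [h1, show fmap Fr FA FB G - n • G + G = fmap Fr FA FB G - (n - 1) • G by module,
      show fmap Fr FA FB G - n • G - G = fmap Fr FA FB G - (n + 1) • G by module] at this
    simp only [d]
    omega
  have d0 : d 0 = 2 * m + 1 := by
    have r : Rep (io A B) (fmap Fr FA FB G) (X ^ (2 * m + 1)) 1 :=
      ⟨isCoprime_one_right, 1, one_ne_zero,
        by simp [hGdef, gen, fmap_pt, hFr], by simp [hGdef, gen, fmap_pt]⟩
    simp only [d, zero_zsmul, sub_zero, ht_eq h2 hD r]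
    simp [hgt]
  have d1 : d 1 = (2 * m + 1) + 1 + ∑ x : k, quadraticChar k (x ^ 3 + A * x + B) := by
    obtain ⟨E, φ, D, hE, hc, e1, e2, e3⟩ := exists_reduced hk hD hm
    have hx : (X ^ (2 * m + 1) - X : k[X]) ≠ 0 :=
      FiniteField.X_pow_card_sub_X_ne_zero k (by omega)
    have hD0 : io A B D ≠ 0 := (map_ne_zero_iff _ (io_injective A B)).2 fun h0 =>
      pow_ne_zero 2 hx (by rw [e2, h0, mul_zero])
    have hE0 : io A B E ≠ 0 := (map_ne_zero_iff _ (io_injective A B)).2 hE
    have n1 := (NS.fmap_iff Fr FA FB).2 (gen_ns (A := A) (B := B) h2)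
    have n2 := (gen_ns (A := A) (B := B) h2).neg
    have hne : ¬(Fr (io A B X) = io A B X ∧
        Fr QuadraticAlgebra.omega = - -QuadraticAlgebra.omega) := fun hh => hx (by
      apply io_injective A B
      rw [map_sub, map_pow, ← hFr, hh.1, sub_self, map_zero])
    obtain ⟨l, l1, l2⟩ := exists_lam n1 n2 hne
    obtain ⟨n3, e⟩ := add_char n1 n2 hne l1 l2
    have r : Rep (io A B) (fmap Fr FA FB G - (1 : ℤ) • G) φ D := by
      rw [one_zsmul, sub_eq_add_neg, hGdef, gen, fmap_pt, neg_pt, e]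
      refine ⟨hc, (io A B D)⁻¹, inv_ne_zero hD0, ?_, by rw [xd_pt, inv_mul_cancel₀ hD0]⟩
      rw [xn_pt, eq_inv_mul_iff_mul_eq₀ hD0]
      apply mul_left_cancel₀ hE0
      have f1 := congrArg (io A B) e1
      have f2 := congrArg (io A B) e2
      have f3 := (gen_ns (A := A) (B := B) h2).1
      simp only [map_mul, map_sub, map_add, map_pow, map_one] at f1 f2
      rw [← f3] at f1
      rw [hFr, hFr] at l1
      rw [hFr, ← mul_assoc, ← f2, ← f1]
      generalize (QuadraticAlgebra.omega : FF A B) = w at l1 ⊢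
      generalize io A B X = x at l1 ⊢
      linear_combination (l * (x ^ (2 * m + 1) - x) + (w ^ (2 * m + 1) + w)) * l1
    simp only [d]
    rw [ht_eq h2 hD r, e3]
  have hq := quad_of_rec d hrec
  have := hasse_of_quad (d 0 + 1 - d 1) (d 0) (fun n => by rw [← hq]; exact Int.natCast_nonneg _)
    fun n hn => by
      rw [← hq, ← hq] at hn
      have := ht_par h2 hD (hR n) (hR (n + 1))
      rw [show fmap Fr FA FB G - n • G - (fmap Fr FA FB G - (n + 1) • G) = G by module, h1] at this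
      simp only [d] at hn
      omega
  rw [d1, d0] at this
  rw [hm]
  push_cast
  linarith

/-- The number of affine points in terms of the character sum. -/
lemma card_affine (hk : ringChar k ≠ 2) (g : k → k) :
    (Nat.card {z : k × k // z.2 ^ 2 = g z.1} : ℤ) = Fintype.card k + ∑ x, quadraticChar k (g x) := by
  rw [Nat.card_congr (Equiv.subtypeProdEquivSigmaSubtype fun x y => y ^ 2 = g x),
    Nat.card_eq_fintype_card, Fintype.card_sigma]
  push_cast
  rw [← Finset.card_univ, Finset.card_eq_sum_ones, Nat.cast_sum, ← Finset.sum_add_distrib]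
  refine Finset.sum_congr rfl fun x _ => ?_
  rw [add_comm, Nat.cast_one, ← quadraticChar_card_sqrts hk, Set.toFinset_card]
  rfl

end Pool.Agent.Lib.MP_03e5d0_nt
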