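import Mathlib

/-! Local polynomials of Weierstrass curves over discrete valuation rings. -/

set_option autoImplicit false

noncomputable section

namespace Pool.Agent.Lib.MP_03e5d0_nt

open WeierstrassCurve Polynomial

/-- The quadratic whose roots are the tangent slopes at a node. -/
def nodeq {k : Type*} [CommRing k] (W : WeierstrassCurve k) (T : k) : k :=
  W.c₄ * T ^ 2 + W.a₁ * W.c₄ * T - (54 * W.b₆ - 3 * W.b₂ * W.b₄ + W.a₂ * W.c₄)

open Classical in
/-- The local polynomial read off from a curve over the residue field. -/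
def lp {k : Type*} [Field k] (W : WeierstrassCurve k) : ℤ[X] :=
  if W.Δ ≠ 0 then
    1 - C ((Nat.card k : ℤ) + 1 - (Nat.card W.toAffine.Point : ℤ)) * X + C (Nat.card k : ℤ) * X ^ 2
  else if W.c₄ ≠ 0 ∧ ∃ T : k, nodeq W T = 0 then 1 - X
  else if W.c₄ ≠ 0 then 1 + X else 1

section field

variable {k k' : Type*} [Field k] [Field k']

lemma lp_good {W : WeierstrassCurve k} (h : W.Δ ≠ 0) : lp W =
    1 - C ((Nat.card k : ℤ) + 1 - (Nat.card W.toAffine.Point : ℤ)) * X +
      C (Nat.card k : ℤ) * X ^ 2 := by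
  rw [lp, if_pos h]

lemma lp_split {W : WeierstrassCurve k} (h : W.Δ = 0) (hc : W.c₄ ≠ 0) (hn : ∃ T, nodeq W T = 0) :
    lp W = 1 - X := by
  rw [lp, if_neg (not_not.2 h), if_pos ⟨hc, hn⟩]

lemma lp_nonsplit {W : WeierstrassCurve k} (h : W.Δ = 0) (hc : W.c₄ ≠ 0)
    (hn : ¬∃ T, nodeq W T = 0) : lp W = 1 + X := by
  rw [lp, if_neg (not_not.2 h), if_neg fun hh => hn hh.2, if_pos hc]

lemma lp_add {W : WeierstrassCurve k} (h : W.Δ = 0) (hc : W.c₄ = 0) : lp W = 1 := by
  rw [lp, if_neg (not_not.2 h), if_neg fun hh => hh.1 hc, if_neg (not_not.2 hc)]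

lemma lp_congr_bad {W : WeierstrassCurve k} {W' : WeierstrassCurve k'} (h : W.Δ = 0) (h' : W'.Δ = 0)
    (hc : W'.c₄ ≠ 0 ↔ W.c₄ ≠ 0) (hn : (∃ T, nodeq W' T = 0) ↔ ∃ T, nodeq W T = 0) :
    lp W' = lp W := by
  by_cases h1 : W.c₄ = 0
  · rw [lp_add h h1, lp_add h' (by_contra fun hh => hc.1 hh h1)]
  by_cases h2 : ∃ T, nodeq W T = 0
  · rw [lp_split h h1 h2, lp_split h' (hc.2 h1) (hn.2 h2)]
  · rw [lp_nonsplit h h1 h2, lp_nonsplit h' (hc.2 h1) (mt hn.1 h2)]

lemma card_point_congr (W : WeierstrassCurve k) (W' : WeierstrassCurve k') (h : W.Δ ≠ 0)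
    (h' : W'.Δ ≠ 0) (e : k × k ≃ k' × k')
    (he : ∀ z : k × k, W.toAffine.Equation z.1 z.2 ↔ W'.toAffine.Equation (e z).1 (e z).2) :
    Nat.card W.toAffine.Point = Nat.card W'.toAffine.Point := by
  refine Nat.card_congr ((Affine.nonsingularPointEquiv W.toAffine).trans
    (Equiv.trans (Equiv.optionCongr (e.subtypeEquiv fun z => ?_))
      (Affine.nonsingularPointEquiv W'.toAffine).symm))
  rw [← Affine.equation_iff_nonsingular_of_Δ_ne_zero h,
    ← Affine.equation_iff_nonsingular_of_Δ_ne_zero h']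
  exact he z

lemma card_point_eq (W : WeierstrassCurve k) [Finite k] (h : W.Δ ≠ 0) :
    Nat.card W.toAffine.Point = Nat.card {z : k × k // W.toAffine.Equation z.1 z.2} + 1 := by
  rw [Nat.card_congr (Affine.nonsingularPointEquiv W.toAffine)]
  have e : {z : k × k // W.toAffine.Nonsingular z.1 z.2} ≃
      {z : k × k // W.toAffine.Equation z.1 z.2} :=
    Equiv.subtypeEquivRight fun z => (Affine.equation_iff_nonsingular_of_Δ_ne_zero h).symm
  rw [← Nat.card_congr e]
  exact Finite.card_option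

lemma nodeq_smul (C : VariableChange k) (W : WeierstrassCurve k) (T : k) :
    nodeq (C • W) T = ((C.u⁻¹ : kˣ) : k) ^ 6 * nodeq W (C.u * T + C.s) := by
  have hu : ((C.u⁻¹ : kˣ) : k) * C.u = 1 := C.u.inv_mul
  simp only [nodeq, variableChange_c₄, variableChange_a₁, variableChange_a₂, variableChange_b₂,
    variableChange_b₄, variableChange_b₆]
  simp only [c₄]
  generalize ((C.u⁻¹ : kˣ) : k) = v at hu ⊢
  linear_combination (-(v ^ 4 * (W.b₂ ^ 2 - 24 * W.b₄) * T ^ 2 * (v * C.u + 1))
    - v ^ 5 * (W.b₂ ^ 2 - 24 * W.b₄) * T * (W.a₁ + 2 * C.s)) * hu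

lemma lp_smul (C : VariableChange k) (W : WeierstrassCurve k) : lp (C • W) = lp W := by
  have hu : ((C.u⁻¹ : kˣ) : k) * C.u = 1 := C.u.inv_mul
  have hu0 : ((C.u⁻¹ : kˣ) : k) ≠ 0 := C.u⁻¹.ne_zero
  have hu1 : (C.u : k) ≠ 0 := C.u.ne_zero
  have hΔ : (C • W).Δ ≠ 0 ↔ W.Δ ≠ 0 := by
    rw [variableChange_Δ]; simp
  have hc : (C • W).c₄ ≠ 0 ↔ W.c₄ ≠ 0 := by
    rw [variableChange_c₄]; simp
  have hn : (∃ T : k, nodeq (C • W) T = 0) ↔ ∃ T : k, nodeq W T = 0 := by
    simp only [nodeq_smul, mul_eq_zero, pow_eq_zero_iff (by norm_num : (6 : ℕ) ≠ 0), hu0, false_or]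
    refine ⟨fun ⟨T, hT⟩ => ⟨_, hT⟩, fun ⟨T, hT⟩ => ⟨(T - C.s) / C.u, ?_⟩⟩
    rw [mul_div_cancel₀ _ hu1, sub_add_cancel, hT]
  by_cases h : W.Δ ≠ 0
  · have : Nat.card (C • W).toAffine.Point = Nat.card W.toAffine.Point := by
      refine card_point_congr _ _ (hΔ.2 h) h
        ⟨fun z => (C.u ^ 2 * z.1 + C.r, C.u ^ 3 * z.2 + C.u ^ 2 * C.s * z.1 + C.t),
         fun z => ((z.1 - C.r) / C.u ^ 2, (z.2 - C.s * (z.1 - C.r) - C.t) / C.u ^ 3),
         fun z => ?_, fun z => ?_⟩ fun z => ?_
      · ext <;> simp only <;> field_simp <;> ring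
      · ext <;> simp only <;> field_simp <;> ring
      · simp only [Affine.equation_iff', Equiv.coe_fn_mk, toAffine, variableChange_a₁,
          variableChange_a₂, variableChange_a₃, variableChange_a₄, variableChange_a₆]
        rw [← mul_right_inj' (pow_ne_zero 6 hu1), mul_zero]
        apply Eq.congr_left
        rw [Units.val_inv_eq_inv_val]
        field_simp
        ring
    rw [lp_good h, lp_good (hΔ.2 h), this]
  · exact lp_congr_bad (not_not.1 h) (not_not.1 (mt hΔ.1 h)) hc hn

lemma nodeq_map {A B : Type*} [CommRing A] [CommRing B] (φ : A →+* B) (W : WeierstrassCurve A)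
    (T : A) : nodeq (W.map φ) (φ T) = φ (nodeq W T) := by
  simp [nodeq, map_ofNat]

lemma lp_map (e : k ≃+* k') (W : WeierstrassCurve k) : lp (W.map (e : k →+* k')) = lp W := by
  have hΔ : (W.map (e : k →+* k')).Δ ≠ 0 ↔ W.Δ ≠ 0 := by simp
  have hc : (W.map (e : k →+* k')).c₄ ≠ 0 ↔ W.c₄ ≠ 0 := by simp
  have hn : (∃ T, nodeq (W.map (e : k →+* k')) T = 0) ↔ ∃ T : k, nodeq W T = 0 := by
    constructor
    · rintro ⟨T, hT⟩
      obtain ⟨T, rfl⟩ := e.surjective T
      exact ⟨T, by simpa using (nodeq_map (e : k →+* k') W T).symm.trans hT⟩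
    · rintro ⟨T, hT⟩
      exact ⟨e T, (nodeq_map (e : k →+* k') W T).trans (by simp [hT])⟩
  have hk : Nat.card k' = Nat.card k := Nat.card_congr e.toEquiv.symm
  by_cases h : W.Δ ≠ 0
  · have : Nat.card W.toAffine.Point = Nat.card (W.map (e : k →+* k')).toAffine.Point := by
      refine card_point_congr _ _ h (hΔ.2 h) (e.toEquiv.prodCongr e.toEquiv) fun z => ?_
      exact (Affine.map_equation W.toAffine (f := (e : k →+* k')) e.injective z.1 z.2).symm
    rw [lp_good h, lp_good (hΔ.2 h), this, hk]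
  · exact lp_congr_bad (not_not.1 h) (not_not.1 (mt hΔ.1 h)) hc hn

lemma splits_quad {a b c : k} (ha : a ≠ 0) :
    (C a * X ^ 2 + C b * X - C c).Splits ↔ ∃ T : k, a * T ^ 2 + b * T - c = 0 := by
  constructor
  · intro h
    have hd : (C a * X ^ 2 + C b * X - C c).degree = 2 := by
      rw [sub_eq_add_neg, ← C_neg]; exact degree_quadratic ha
    obtain ⟨T, hT⟩ := h.exists_eval_eq_zero (by rw [hd]; norm_num)
    exact ⟨T, by simpa using hT⟩
  · rintro ⟨T, hT⟩
    have : C a * X ^ 2 + C b * X - C c = C a * ((X - C T) * (X - C (-b / a - T))) := by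
      have h1 : b = a * (-(T + (-b / a - T))) := by field_simp; ring
      have h2 : c = -(a * (T * (-b / a - T))) := by
        field_simp; linear_combination -hT
      generalize -b / a - T = S at h1 h2
      subst h1 h2
      simp only [map_mul, map_neg, map_add]
      ring
    rw [this]
    exact (Splits.C a).mul ((Splits.X_sub_C _).mul (Splits.X_sub_C _))

end field

section dvr

variable (R : Type*) [CommRing R] [IsDomain R] [IsDiscreteValuationRing R] {K : Type*}
  [Field K] [Algebra R K] [IsFractionRing R K]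

open IsDiscreteValuationRing IsLocalRing IsDedekindDomain.HeightOneSpectrum

lemma val_lt_one_iff (x : R) :
    valuation K (IsDiscreteValuationRing.maximalIdeal R) (algebraMap R K x) < 1 ↔
      residue R x = 0 := by
  rw [residue_eq_zero_iff]
  exact valuation_lt_one_iff_mem _ _

lemma val_eq_one_iff (x : R) :
    valuation K (IsDiscreteValuationRing.maximalIdeal R) (algebraMap R K x) = 1 ↔
      residue R x ≠ 0 := by
  rw [Ne, ← val_lt_one_iff R (K := K), not_lt]
  exact (valuation_le_one (R := R) (K := K) _ _).ge_iff_eq.symm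

lemma localPolynomial_eq_lp (W : WeierstrassCurve K) :
    W.localPolynomial R = lp ((W.minimal R).reduction R) := by
  have hm : IsMinimal R (W.minimal R) := inferInstance
  unfold localPolynomial
  set V := W.minimal R
  have hΔ : (V.reduction R).Δ = residue R (integralModel R V).Δ := by simp [reduction]
  have hc : (V.reduction R).c₄ = residue R (integralModel R V).c₄ := by simp [reduction]
  have h1 : V.HasGoodReduction R ↔ (V.reduction R).Δ ≠ 0 := by
    rw [hasGoodReduction_iff, hΔ, ← val_eq_one_iff R (K := K), integralModel_Δ_eq]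
    simp [hm]
  have h2 : V.HasMultiplicativeReduction R ↔ (V.reduction R).Δ = 0 ∧ (V.reduction R).c₄ ≠ 0 := by
    rw [hasMultiplicativeReduction_iff, hΔ, hc, ← val_lt_one_iff R (K := K),
      ← val_eq_one_iff R (K := K), integralModel_Δ_eq, integralModel_c₄_eq]
    simp [hm]
  by_cases h : (V.reduction R).Δ ≠ 0
  · rw [if_pos (h1.2 h), lp_good h]
  rw [if_neg (mt h1.1 h)]
  rw [not_not] at h
  by_cases h' : (V.reduction R).c₄ ≠ 0
  · have h3 : V.HasSplitMultiplicativeReduction R ↔ ∃ T, nodeq (V.reduction R) T = 0 := by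
      rw [hasSplitMultiplicativeReduction_iff]
      have := splits_quad (b := (V.reduction R).a₁ * (V.reduction R).c₄)
        (c := 54 * (V.reduction R).b₆ - 3 * (V.reduction R).b₂ * (V.reduction R).b₄ +
          (V.reduction R).a₂ * (V.reduction R).c₄) h'
      unfold nodeq
      rw [← this]
      simp [h2.2 ⟨h, h'⟩, reduction, map_ofNat]
    by_cases hn : ∃ T, nodeq (V.reduction R) T = 0
    · rw [if_pos (h3.2 hn), lp_split h h' hn]
    · rw [if_neg (mt h3.1 hn), if_pos (h2.2 ⟨h, h'⟩), lp_nonsplit h h' hn]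
  · have h4 : ¬V.HasMultiplicativeReduction R := fun hh => h' (h2.1 hh).2
    have h5 : ¬V.HasSplitMultiplicativeReduction R := fun hh => h4 hh.toHasMultiplicativeReduction
    rw [if_neg h5, if_neg h4, lp_add h (not_not.1 h')]

omit [IsDomain R] [IsDiscreteValuationRing R] in
lemma lift_of_quartic [IsIntegrallyClosed R] (x : K) (a b c d : R)
    (h : x ^ 4 + algebraMap R K a * x ^ 3 + algebraMap R K b * x ^ 2 + algebraMap R K c * x +
      algebraMap R K d = 0) : ∃ y : R, algebraMap R K y = x := by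
  refine IsIntegrallyClosed.isIntegral_iff.1
    ⟨X ^ 4 + C a * X ^ 3 + C b * X ^ 2 + C c * X + C d, by monicity!, ?_⟩
  simpa using h

lemma exists_change (A A' : WeierstrassCurve R) (C : VariableChange K) (u : Rˣ)
    (hu : algebraMap R K u = C.u)
    (h : C • A.map (algebraMap R K) = A'.map (algebraMap R K)) :
    ∃ C₀ : VariableChange R, C₀ • A = A' := by
  have hu1 : (C.u : K) * (C.u⁻¹ : Kˣ) = 1 := C.u.mul_inv
  have h6 := variableChange_b₆ (A.map (algebraMap R K)) C
  have h8 := variableChange_b₈ (A.map (algebraMap R K)) C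
  have h2 := variableChange_a₂ (A.map (algebraMap R K)) C
  have h5 := variableChange_a₆ (A.map (algebraMap R K)) C
  rw [h] at h6 h8 h2 h5
  simp only [map_b₂, map_b₄, map_b₆, map_b₈, map_a₁, map_a₂, map_a₃, map_a₄, map_a₆] at h6 h8 h2 h5
  have e2 := pow_mul_pow_eq_one 2 hu1
  have e6 := pow_mul_pow_eq_one 6 hu1
  have e8 := pow_mul_pow_eq_one 8 hu1
  obtain ⟨r, hr⟩ := lift_of_quartic R C.r 0 (-A.b₄) (-(2 * A.b₆ + u ^ 6 * A'.b₆))
      (u ^ 8 * A'.b₈ - A.b₈) (by
    simp only [map_zero, map_neg, map_add, map_mul, map_pow, map_sub, map_ofNat, hu, h6, h8]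
    linear_combination (-C.r * (algebraMap R K A.b₆ + 2 * C.r * algebraMap R K A.b₄ +
      C.r ^ 2 * algebraMap R K A.b₂ + 4 * C.r ^ 3)) * e6 + (algebraMap R K A.b₈ +
      3 * C.r * algebraMap R K A.b₆ + 3 * C.r ^ 2 * algebraMap R K A.b₄ +
      C.r ^ 3 * algebraMap R K A.b₂ + 3 * C.r ^ 4) * e8)
  obtain ⟨s, hs⟩ := lift_of_quartic R C.s A.a₁ (u ^ 2 * A'.a₂ - A.a₂ - 3 * r) 0 0 (by
    simp only [map_zero, map_mul, map_pow, map_sub, map_ofNat, hu, h2, hr]
    linear_combination C.s ^ 2 * (algebraMap R K A.a₂ - C.s * algebraMap R K A.a₁ + 3 * C.r -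
      C.s ^ 2) * e2)
  obtain ⟨t, ht⟩ := lift_of_quartic R C.t (A.a₃ + r * A.a₁)
      (u ^ 6 * A'.a₆ - A.a₆ - r * A.a₄ - r ^ 2 * A.a₂ - r ^ 3) 0 0 (by
    simp only [map_zero, map_add, map_mul, map_pow, map_sub, hu, h5, hr]
    linear_combination C.t ^ 2 * (algebraMap R K A.a₆ + C.r * algebraMap R K A.a₄ +
      C.r ^ 2 * algebraMap R K A.a₂ + C.r ^ 3 - C.t * algebraMap R K A.a₃ - C.t ^ 2 -
      C.r * C.t * algebraMap R K A.a₁) * e6)
  refine ⟨⟨u, r, s, t⟩, map_injective (IsFractionRing.injective R K) ?_⟩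
  have : (⟨u, r, s, t⟩ : VariableChange R).map (algebraMap R K) = C := by
    ext <;> simp [hu, hr, hs, ht]
  show (_ • A).map _ = A'.map _
  rw [← map_variableChange, this, h]

omit [IsDomain R] [IsDiscreteValuationRing R] [IsFractionRing R K] in
lemma isIntegral_map (A : WeierstrassCurve R) : IsIntegral R (A.map (algebraMap R K)) := ⟨A, rfl⟩

lemma val_le_of_isMinimal (V : WeierstrassCurve K) [IsMinimal R V] (C : VariableChange K)
    [h : IsIntegral R (C • V)] :
    valuation K (IsDiscreteValuationRing.maximalIdeal R) (C • V).Δ ≤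
      valuation K (IsDiscreteValuationRing.maximalIdeal R) V.Δ := by
  have h1 := (IsMinimal.val_Δ_maximal (R := R) (W := V)).2 (j := C) h
  simp only [one_smul] at h1
  rw [← valuation_Δ_aux_eq_of_isIntegral, ← valuation_Δ_aux_eq_of_isIntegral]
  exact (le_total _ _).elim id fun hh => h1 hh

/-- Two minimal models have the same reduction data. -/
lemma lp_eq_of_isMinimal (A A' : WeierstrassCurve R) (C : VariableChange K) (hΔ : A.Δ ≠ 0)
    (h : C • A.map (algebraMap R K) = A'.map (algebraMap R K))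
    [hA : IsMinimal R (A.map (algebraMap R K))] [hA' : IsMinimal R (A'.map (algebraMap R K))] :
    lp (A.map (residue R)) = lp (A'.map (residue R)) := by
  have h' : C⁻¹ • A'.map (algebraMap R K) = A.map (algebraMap R K) := by rw [← h, inv_smul_smul]
  have i1 : IsIntegral R (C • A.map (algebraMap R K)) := h ▸ isIntegral_map R A'
  have i2 : IsIntegral R (C⁻¹ • A'.map (algebraMap R K)) := h' ▸ isIntegral_map R A
  have l1 := val_le_of_isMinimal R (A.map (algebraMap R K)) C
  have l2 := val_le_of_isMinimal R (A'.map (algebraMap R K)) C⁻¹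
  rw [h', ← h] at l2
  have e := le_antisymm l1 l2
  have h0 : valuation K (IsDiscreteValuationRing.maximalIdeal R) (A.map (algebraMap R K)).Δ ≠ 0 := by
    simpa using hΔ
  rw [variableChange_Δ, map_mul, mul_eq_right₀ h0, map_pow, pow_eq_one_iff_left (by norm_num),
    Units.val_inv_eq_inv_val, map_inv₀, inv_eq_one] at e
  obtain ⟨u, hu⟩ := exists_lift_of_le_one e.le
  have hu' : IsUnit u := by
    rw [← hu, val_eq_one_iff, Ne, residue_eq_zero_iff] at e
    exact notMem_maximalIdeal.1 e
  obtain ⟨u, rfl⟩ := hu'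
  obtain ⟨C₀, rfl⟩ := exists_change R A A' C u hu h
  rw [← map_variableChange, lp_smul]

/-- A criterion for minimality. -/
lemma isMinimal_map (A : WeierstrassCurve R)
    (h : ∀ u : R, residue R u = 0 → u ^ 12 ∣ A.Δ → u ^ 4 ∣ A.c₄ → False) :
    IsMinimal R (A.map (algebraMap R K)) := by
  have i0 := isIntegral_map R (K := K) A
  refine ⟨⟨by simpa using i0, fun C hC _ => ?_⟩⟩
  simp only [one_smul]
  have hC' : IsIntegral R (C • A.map (algebraMap R K)) := hC
  rw [← Subtype.coe_le_coe, valuation_Δ_aux_eq_of_isIntegral, valuation_Δ_aux_eq_of_isIntegral,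
    variableChange_Δ, map_mul]
  refine mul_le_of_le_one_left' ?_
  rw [map_pow, Units.val_inv_eq_inv_val, map_inv₀]
  refine pow_le_one' (inv_le_one_of_one_le₀ (not_lt.1 fun hlt => ?_)) _
  obtain ⟨u, hu⟩ := exists_lift_of_le_one hlt.le
  have hu1 : (C.u : K) * (C.u⁻¹ : Kˣ) = 1 := C.u.mul_inv
  obtain ⟨B, hB⟩ := hC'.integral
  have d1 := variableChange_Δ (A.map (algebraMap R K)) C
  have d2 := variableChange_c₄ (A.map (algebraMap R K)) C
  rw [hB] at d1 d2
  simp only [baseChange, map_Δ, map_c₄] at d1 d2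
  refine h u ((val_lt_one_iff R (K := K) u).1 (hu ▸ hlt)) ⟨B.Δ, ?_⟩ ⟨B.c₄, ?_⟩
  · apply IsFractionRing.injective R K
    rw [map_mul, map_pow, hu, d1, ← mul_assoc, pow_mul_pow_eq_one 12 hu1, one_mul]
  · apply IsFractionRing.injective R K
    rw [map_mul, map_pow, hu, d2, ← mul_assoc, pow_mul_pow_eq_one 4 hu1, one_mul]

/-- The local polynomial can be computed from any minimal model. -/
lemma localPolynomial_of_isMinimal (W : WeierstrassCurve K) (hΔ : W.Δ ≠ 0) (C : VariableChange K)
    (A : WeierstrassCurve R) (h : C • W = A.map (algebraMap R K))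
    [IsMinimal R (A.map (algebraMap R K))] : W.localPolynomial R = lp (A.map (residue R)) := by
  rw [localPolynomial_eq_lp, reduction]
  have e : (integralModel R (W.minimal R)).map (algebraMap R K) = W.minimal R :=
    baseChange_integralModel_eq R _
  have : IsMinimal R ((integralModel R (W.minimal R)).map (algebraMap R K)) := by
    rw [e]; infer_instance
  have hA : A.Δ ≠ 0 := by
    intro h0
    have := congrArg WeierstrassCurve.Δ h
    rw [variableChange_Δ, map_Δ, h0] at this
    simp [hΔ] at this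
  refine (lp_eq_of_isMinimal R A _ ((W.exists_isMinimal R).choose * C⁻¹) hA ?_).symm
  rw [e, ← h, mul_smul, inv_smul_smul]
  rfl

/-- The local polynomial is invariant under changes of variables. -/
lemma localPolynomial_smul (W : WeierstrassCurve K) (hΔ : W.Δ ≠ 0) (C : VariableChange K) :
    (C • W).localPolynomial R = W.localPolynomial R := by
  have e : (integralModel R ((C • W).minimal R)).map (algebraMap R K) = (C • W).minimal R :=
    baseChange_integralModel_eq R _
  have : IsMinimal R ((integralModel R ((C • W).minimal R)).map (algebraMap R K)) := by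
    rw [e]; infer_instance
  rw [localPolynomial_of_isMinimal R W hΔ (((C • W).exists_isMinimal R).choose * C)
    (integralModel R ((C • W).minimal R)) (by rw [e, mul_smul]; rfl), localPolynomial_eq_lp,
    reduction]

/-- The local polynomial of an integral model, read in any model of the residue field. -/
lemma localPolynomial_map {k : Type*} [Field k] (ρ : R →+* k) (hρ : Function.Surjective ρ)
    (A : WeierstrassCurve R) (hΔ : A.Δ ≠ 0)
    (h : ∀ u : R, ρ u = 0 → u ^ 12 ∣ A.Δ → u ^ 4 ∣ A.c₄ → False) :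
    (A.map (algebraMap R K)).localPolynomial R = lp (A.map ρ) := by
  have hk : RingHom.ker ρ = IsLocalRing.maximalIdeal R :=
    IsLocalRing.eq_maximalIdeal (RingHom.ker_isMaximal_of_surjective ρ hρ)
  have := isMinimal_map R (K := K) A fun u hu => h u (by
    rwa [residue_eq_zero_iff, ← hk] at hu)
  rw [localPolynomial_of_isMinimal R _ (by simpa using hΔ) 1 A (one_smul _ _)]
  let e : ResidueField R ≃+* k :=
    (Ideal.quotEquivOfEq hk.symm).trans (RingHom.quotientKerEquivOfSurjective hρ)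
  rw [← lp_map e, WeierstrassCurve.map_map]
  rfl

end dvr

end Pool.Agent.Lib.MP_03e5d0_nt
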