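import Pool.Agent.Lib.MP_03e5d0_nt.CLoc

/-! The coefficients of the `L`-function of a Weierstrass curve over the rationals. -/

set_option autoImplicit false

noncomputable section

namespace Pool.Agent.Lib.MP_03e5d0_nt

open WeierstrassCurve Polynomial ArithmeticFunction IsDedekindDomain NumberField
open Rat.HeightOneSpectrum

lemma mul_apply_pow {p : ℕ} (hp : p.Prime) (f g : ArithmeticFunction ℤ)
    (hg : ∀ k, g (p ^ k) = (1 : ArithmeticFunction ℤ) (p ^ k)) (j : ℕ) :
    (f * g) (p ^ j) = f (p ^ j) := by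
  conv_rhs => rw [← mul_one f]
  rw [mul_apply, mul_apply]
  refine Finset.sum_congr rfl fun x hx => ?_
  obtain ⟨k, -, hk⟩ := (Nat.dvd_prime_pow hp).1
    (Nat.dvd_of_mem_divisors (Nat.snd_mem_divisors_of_mem_antidiagonal hx))
  rw [hk, hg]

lemma euler_apply {ι : Type*} (e : ι ≃ Nat.Primes) (F : ι → PowerSeries ℤ)
    (hF : ∀ i, (F i).constantCoeff = 1) (p : Nat.Primes) (j : ℕ) :
    eulerProduct (fun i => ofPowerSeries (e i) (F i)) (p ^ j) = (F (e.symm p)).coeff j := by
  classical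
  have : Northcott fun i => (e i : ℕ) := ⟨fun b => (Set.finite_Iic b).preimage
    (Nat.Primes.coe_nat_injective.comp e.injective).injOn⟩
  obtain ⟨s, hs, hs'⟩ := ((tendsTo_eulerProduct_ofPowerSeries (fun i => (e i : ℕ)) F hF
    (p ^ j)).and (Filter.eventually_ge_atTop {e.symm p})).exists
  have hm : e.symm p ∈ s := hs' (Finset.mem_singleton_self _)
  rw [← hs, ← Finset.mul_prod_erase s _ hm, mul_apply_pow p.2, e.apply_symm_apply,
    ofPowerSeries_apply_pow p.2.one_lt]
  refine Finset.prod_induction _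
    (fun g : ArithmeticFunction ℤ => ∀ k, g (p ^ k) = (1 : ArithmeticFunction ℤ) (p ^ k))
    (fun a b ha hb k => by rw [mul_apply_pow p.2 a b hb, ha]) (fun _ => rfl) fun i hi k => ?_
  rcases k with _ | k
  · simp [hF]
  rw [ofPowerSeries_apply (e i).2.one_lt, Function.extend_apply', Pi.zero_apply,
    one_apply_ne (Nat.one_lt_pow (by omega) p.2.one_lt).ne']
  rintro ⟨m, hm⟩
  have h1 : (p : ℕ) ∣ (e i : ℕ) ^ m := hm ▸ dvd_pow_self _ (by omega)
  have h2 : (p : ℕ) = e i := (Nat.prime_dvd_prime_iff_eq p.2 (e i).2).1 (p.2.dvd_of_dvd_pow h1)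
  exact Finset.ne_of_mem_erase hi (by rw [Nat.Primes.coe_nat_injective h2, e.symm_apply_apply])

lemma inv_rec (α β : ℤ) (c : ℕ → ℤ) (hc : ∀ j, c j = (PowerSeries.invOfUnit
    ((1 - C α * X + C β * X ^ 2 : ℤ[X]) : PowerSeries ℤ) 1).coeff j) :
    c 0 = 1 ∧ c 1 = α ∧ ∀ j, c (j + 2) = α * c (j + 1) - β * c j := by
  have h := PowerSeries.invOfUnit_mul ((1 - C α * X + C β * X ^ 2 : ℤ[X]) : PowerSeries ℤ) 1
    (by simp)
  generalize PowerSeries.invOfUnit ((1 - C α * X + C β * X ^ 2 : ℤ[X]) : PowerSeries ℤ) 1 = g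
    at h hc
  have h' : g = 1 + PowerSeries.C α * (g * PowerSeries.X) -
      PowerSeries.C β * (g * PowerSeries.X * PowerSeries.X) := by
    simp only [Polynomial.coe_add, Polynomial.coe_sub, Polynomial.coe_mul, Polynomial.coe_pow,
      Polynomial.coe_one, Polynomial.coe_C, Polynomial.coe_X] at h
    linear_combination h
  have h0 : c 0 = 1 := by rw [hc, h']; simp
  refine ⟨h0, ?_, fun j => ?_⟩
  · rw [hc, h', map_sub, map_add, PowerSeries.coeff_C_mul, PowerSeries.coeff_C_mul,
      PowerSeries.coeff_succ_mul_X, PowerSeries.coeff_succ_mul_X, ← hc, h0]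
    simp [PowerSeries.coeff_one]
  · rw [hc, h', map_sub, map_add, PowerSeries.coeff_C_mul, PowerSeries.coeff_C_mul,
      PowerSeries.coeff_succ_mul_X, PowerSeries.coeff_succ_mul_X, PowerSeries.coeff_succ_mul_X,
      ← hc, ← hc]
    simp [PowerSeries.coeff_one]

lemma card_res' (v : HeightOneSpectrum (𝓞 ℚ)) :
    Nat.card (IsLocalRing.ResidueField (v.adicCompletionIntegers ℚ)) = primesEquiv v := by
  have : Fact (primesEquiv v).1.Prime := ⟨(primesEquiv v).2⟩
  rw [Nat.card_congr ((IsLocalRing.ResidueField.mapEquiv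
    (adicCompletionIntegers.padicIntEquiv v).toRingEquiv).trans PadicInt.residueField).toEquiv,
    Nat.card_zmod]

lemma LF_eq (W : WeierstrassCurve ℚ) : W.LFunction = eulerProduct fun v : HeightOneSpectrum (𝓞 ℚ) =>
    ofPowerSeries (primesEquiv v) (PowerSeries.invOfUnit
      ((W.baseChange (v.adicCompletion ℚ)).localPolynomial (v.adicCompletionIntegers ℚ)) 1) := by
  simp only [LFunction, localEulerFactor, localPowerSeries, card_res']

/-- The coefficients are multiplicative. -/
theorem LF_mult (W : WeierstrassCurve ℚ) : W.LFunction.IsMultiplicative := by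
  rw [LF_eq]
  exact isMultiplicative_eulerProduct _ fun v =>
    isMultiplicative_ofPowerSeries_of_isPrimePow _ (primesEquiv v).2.isPrimePow _ (by simp)

variable (p : ℕ) [hp : Fact p.Prime]

/-- The place of a prime. -/
abbrev plc : HeightOneSpectrum (𝓞 ℚ) := (primesEquiv (R := 𝓞 ℚ)).symm ⟨p, hp.out⟩

/-- The completion at a prime. -/
abbrev Kp : Type := (plc p).adicCompletion ℚ

/-- The integers of the completion. -/
abbrev Op : Type := (plc p).adicCompletionIntegers ℚ

/-- The identification with the `p`-adic integers. -/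
def eO : ℤ_[p] ≃+* Op p := (PadicInt.adicCompletionIntegersEquiv (𝓞 ℚ) ⟨p, hp.out⟩).toRingEquiv

/-- Reduction modulo `p`. -/
def red : Op p →+* ZMod p := PadicInt.toZMod.comp (eO p).symm.toRingHom

/-- The local polynomial at `p`. -/
def lpoly (W : WeierstrassCurve ℚ) : ℤ[X] := (W.baseChange (Kp p)).localPolynomial (Op p)

/-- The values at prime powers. -/
theorem LF_pow (W : WeierstrassCurve ℚ) (j : ℕ) :
    W.LFunction (p ^ j) = (PowerSeries.invOfUnit (lpoly p W : PowerSeries ℤ) 1).coeff j := by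
  rw [LF_eq]
  exact euler_apply primesEquiv _ (fun _ => by simp) ⟨p, hp.out⟩ j

/-- The recursion at prime powers. -/
theorem LF_rec (W : WeierstrassCurve ℚ) {α β : ℤ} (h : lpoly p W = 1 - C α * X + C β * X ^ 2) :
    W.LFunction p = α ∧ ∀ j, W.LFunction (p ^ (j + 2)) =
      α * W.LFunction (p ^ (j + 1)) - β * W.LFunction (p ^ j) := by
  have := inv_rec α β (fun j => W.LFunction (p ^ j)) fun j => by rw [LF_pow, h]
  exact ⟨by simpa using this.2.1, this.2.2⟩

/-- Curves that are isomorphic over the completion have the same local polynomial. -/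
theorem lpoly_congr (W W' : WeierstrassCurve ℚ) (hΔ : W.Δ ≠ 0) (C : VariableChange (Kp p))
    (h : C • W.baseChange (Kp p) = W'.baseChange (Kp p)) : lpoly p W' = lpoly p W := by
  rw [lpoly, ← h, localPolynomial_smul _ _ (by
    rw [baseChange, map_Δ]; exact (_root_.map_ne_zero _).2 hΔ), lpoly]

theorem lpoly_smul (W : WeierstrassCurve ℚ) (hΔ : W.Δ ≠ 0) (C : VariableChange ℚ) :
    lpoly p (C • W) = lpoly p W :=
  lpoly_congr p W _ hΔ (C.map (algebraMap ℚ (Kp p))) (map_variableChange _ _ _)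

lemma dvd_of_red {u : Op p} (hu : red p u = 0) {n : ℕ} {a : ℤ} (h : u ^ n ∣ (a : Op p)) :
    (p : ℤ) ^ n ∣ a := by
  have h1 : (eO p).symm u ∈ RingHom.ker (PadicInt.toZMod : ℤ_[p] →+* ZMod p) := hu
  rw [PadicInt.ker_toZMod, PadicInt.maximalIdeal_eq_span_p, Ideal.mem_span_singleton] at h1
  have h2 := map_dvd (eO p).symm h
  rw [map_pow, map_intCast] at h2
  exact (PadicInt.pow_p_dvd_int_iff n a).1 ((pow_dvd_pow_of_dvd h1 n).trans h2)

/-- The local polynomial of an integral model that is minimal at `p` by the usual criteria. -/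
theorem lpoly_int (V : WeierstrassCurve ℤ) (hΔ : V.Δ ≠ 0)
    (h : ¬((p : ℤ) ^ 12 ∣ V.Δ ∧ (p : ℤ) ^ 4 ∣ V.c₄)) :
    lpoly p (V.map (Int.castRingHom ℚ)) = lp (V.map (Int.castRingHom (ZMod p))) := by
  have e1 : (V.map (Int.castRingHom ℚ)).baseChange (Kp p) =
      (V.map (Int.castRingHom (Op p))).map (algebraMap (Op p) (Kp p)) := by
    rw [baseChange, WeierstrassCurve.map_map, WeierstrassCurve.map_map]
    congr 1
    exact RingHom.ext_int _ _
  have h0 : (V.map (Int.castRingHom (Op p))).Δ ≠ 0 := by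
    rw [map_Δ, eq_intCast, ← map_intCast (eO p)]
    exact (map_ne_zero_iff _ (eO p).injective).2 (Int.cast_ne_zero.2 hΔ)
  rw [lpoly, e1, localPolynomial_map _ (red p) (ZMod.ringHom_surjective _) _ h0 fun u hu h1 h2 =>
    h ⟨dvd_of_red p hu (by simpa using h1), dvd_of_red p hu (by simpa using h2)⟩,
    WeierstrassCurve.map_map]
  congr 2
  exact RingHom.ext_int _ _

/-- Good reduction. -/
theorem lpoly_good (V : WeierstrassCurve ℤ) (h : ¬(p : ℤ) ∣ V.Δ) :
    lpoly p (V.map (Int.castRingHom ℚ)) = 1 - C ((p : ℤ) + 1 -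
      (Nat.card (V.map (Int.castRingHom (ZMod p))).toAffine.Point : ℤ)) * X + C (p : ℤ) * X ^ 2 := by
  rw [lpoly_int p V (fun h0 => h (by simp [h0])) fun hh => h ((dvd_pow_self _ (by norm_num)).trans hh.1),
    lp_good (by simpa [ZMod.intCast_zmod_eq_zero_iff_dvd] using h), Nat.card_zmod]

/-- The shape of the local polynomial; it does not vanish at `1 / p`. -/
theorem lpoly_form (W : WeierstrassCurve ℚ) : ∃ α β : ℤ, lpoly p W = 1 - C α * X + C β * X ^ 2 ∧
    (p : ℤ) ^ 2 - α * p + β ≠ 0 := by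
  have h2 : (2 : ℤ) ≤ p := by exact_mod_cast hp.out.two_le
  have hc : Nat.card (IsLocalRing.ResidueField (Op p)) = p := by
    rw [card_res', Equiv.apply_symm_apply]
  have : Finite (IsLocalRing.ResidueField (Op p)) :=
    Nat.finite_of_card_ne_zero (by rw [hc]; exact hp.out.ne_zero)
  rw [lpoly, localPolynomial_eq_lp]
  generalize ((W.baseChange (Kp p)).minimal (Op p)).reduction (Op p) = V
  by_cases h : V.Δ = 0
  · by_cases h1 : V.c₄ = 0
    · exact ⟨0, 0, by simp [lp_add h h1], by nlinarith⟩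
    by_cases h3 : ∃ T, nodeq V T = 0
    · exact ⟨1, 0, by simp [lp_split h h1 h3], by nlinarith⟩
    · exact ⟨-1, 0, by simp [lp_nonsplit h h1 h3], by nlinarith⟩
  · refine ⟨_, _, lp_good h, ?_⟩
    rw [hc, card_point_eq V h]
    push_cast
    have : (0 : ℤ) ≤ Nat.card {z : _ × _ // V.toAffine.Equation z.1 z.2} := Nat.cast_nonneg _
    nlinarith

omit hp in
/-- The `L`-function only depends on the local polynomials. -/
theorem LF_congr (W W' : WeierstrassCurve ℚ)
    (h : ∀ (p : ℕ) [Fact p.Prime], lpoly p W' = lpoly p W) : W'.LFunction = W.LFunction := by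
  rw [(LF_mult W').eq_iff_eq_on_prime_powers _ _ (LF_mult W)]
  intro p i hp
  have : Fact p.Prime := ⟨hp⟩
  rw [LF_pow, LF_pow, h]

omit hp in
theorem LF_smul (W : WeierstrassCurve ℚ) (hΔ : W.Δ ≠ 0) (C : VariableChange ℚ) :
    (C • W).LFunction = W.LFunction :=
  LF_congr _ _ fun p _ => lpoly_smul p W hΔ C

end Pool.Agent.Lib.MP_03e5d0_nt
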