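import Pool.Agent.Lib.MP_03e5d0_nt.Stmt
import Pool.Agent.Lib.MP_03e5d0_nt.CRat
import Pool.Agent.Lib.MP_03e5d0_nt.CHasse

/-! Local polynomials and coefficients of quadratic twists. -/

set_option autoImplicit false

noncomputable section

namespace Pool.Agent.Lib.MP_03e5d0_nt

open WeierstrassCurve Polynomial ArithmeticFunction
open scoped NumberTheorySymbols

/-- The integral model of a twist. -/
def iw (A B d : ℤ) : WeierstrassCurve ℤ := ⟨0, 0, 0, A * d ^ 2, B * d ^ 3⟩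

lemma iw_map (A B d : ℤ) : (iw A B d).map (Int.castRingHom ℚ) = twist A B d := by
  ext <;> simp [iw, twist]

lemma iw_Δ (A B d : ℤ) : (iw A B d).Δ = -(16 * (4 * A ^ 3 + 27 * B ^ 2)) * d ^ 6 := by
  simp only [iw, Δ, b₂, b₄, b₆, b₈]; ring

lemma iw_c₄ (A B d : ℤ) : (iw A B d).c₄ = -48 * A * d ^ 2 := by
  simp only [iw, c₄, b₂, b₄]; ring

lemma twist_Δ (a b : ℚ) (d : ℤ) : (twist a b d).Δ = -(16 * (4 * a ^ 3 + 27 * b ^ 2)) * d ^ 6 := by
  simp only [twist, Δ, b₂, b₄, b₆, b₈]; ring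

lemma twist_Δ_ne {a b : ℚ} (h : 4 * a ^ 3 + 27 * b ^ 2 ≠ 0) {d : ℤ} (hd : d ≠ 0) :
    (twist a b d).Δ ≠ 0 := by
  rw [twist_Δ]
  exact mul_ne_zero (neg_ne_zero.2 (mul_ne_zero (by norm_num) h))
    (pow_ne_zero _ (Int.cast_ne_zero.2 hd))

lemma LF_twist_scale {a b : ℚ} (h : 4 * a ^ 3 + 27 * b ^ 2 ≠ 0) {d : ℤ} (hd : d ≠ 0) {u : ℚ}
    (hu : u ≠ 0) : (twist (u ^ 4 * a) (u ^ 6 * b) d).LFunction = (twist a b d).LFunction := by
  rw [← LF_smul _ (twist_Δ_ne h hd) ⟨(Units.mk0 u hu)⁻¹, 0, 0, 0⟩]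
  congr 1
  ext <;> simp [twist, variableChange_def, mul_assoc]

variable (p : ℕ) [hp : Fact p.Prime]

/-- The trace of Frobenius as a character sum. -/
def ap (A B : ℤ) : ℤ := -∑ x : ZMod p, quadraticChar (ZMod p) (x ^ 3 + A * x + B)

variable {p}

lemma not_dvd_sixteen {E : ℤ} (h : ¬(p : ℤ) ∣ 2 * E) : ¬(p : ℤ) ∣ -(16 * E) := by
  have hp' : Prime (p : ℤ) := Nat.prime_iff_prime_int.1 hp.out
  intro h1
  rw [dvd_neg, show 16 * E = 2 ^ 3 * (2 * E) by ring] at h1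
  exact h ((hp'.dvd_or_dvd h1).elim (fun h2 => (hp'.dvd_of_dvd_pow h2).mul_right _) id)

lemma ringChar_ne {E : ℤ} (h : ¬(p : ℤ) ∣ 2 * E) : ringChar (ZMod p) ≠ 2 := by
  rw [ZMod.ringChar_zmod_n]
  rintro rfl
  exact h (dvd_mul_right _ _)

lemma ap_sq_le {A B : ℤ} (h : ¬(p : ℤ) ∣ 2 * (4 * A ^ 3 + 27 * B ^ 2)) : ap p A B ^ 2 ≤ 4 * p := by
  have := hasse_sum (ringChar_ne h) (A := (A : ZMod p)) (B := B) fun h0 => h (Dvd.dvd.mul_left
    ((ZMod.intCast_zmod_eq_zero_iff_dvd _ _).1 (by push_cast; exact h0)) _)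
  rwa [ZMod.card, ← neg_sq] at this

lemma lpoly_twist_good {A B d : ℤ} (h : ¬(p : ℤ) ∣ 2 * (4 * A ^ 3 + 27 * B ^ 2))
    (hd : ¬(p : ℤ) ∣ d) :
    lpoly p (twist A B d) = 1 - C (J(d | p) * ap p A B) * X + C (p : ℤ) * X ^ 2 := by
  have hp' : Prime (p : ℤ) := Nat.prime_iff_prime_int.1 hp.out
  have hΔ : ¬(p : ℤ) ∣ (iw A B d).Δ := fun h1 => by
    rw [iw_Δ] at h1
    exact (hp'.dvd_or_dvd h1).elim (not_dvd_sixteen h) fun h2 => hd (hp'.dvd_of_dvd_pow h2)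
  have hd' : (d : ZMod p) ≠ 0 := fun h0 => hd ((ZMod.intCast_zmod_eq_zero_iff_dvd _ _).1 h0)
  rw [← iw_map, lpoly_good p _ hΔ, card_point_eq _
    (by simpa [ZMod.intCast_zmod_eq_zero_iff_dvd] using hΔ)]
  have e : ∀ z : ZMod p × ZMod p,
      ((iw A B d).map (Int.castRingHom (ZMod p))).toAffine.Equation z.1 z.2 ↔
        z.2 ^ 2 = z.1 ^ 3 + A * d ^ 2 * z.1 + B * d ^ 3 := fun z => by
    rw [Affine.equation_iff]; simp [iw]
  have h1 := card_affine (ringChar_ne h) fun x : ZMod p => x ^ 3 + A * d ^ 2 * x + B * d ^ 3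
  rw [← Equiv.sum_comp (Equiv.mulLeft₀ _ hd'), ZMod.card] at h1
  have h2 : ∀ x : ZMod p, quadraticChar (ZMod p) ((Equiv.mulLeft₀ _ hd' x) ^ 3 +
      A * d ^ 2 * (Equiv.mulLeft₀ _ hd' x) + B * d ^ 3) =
      J(d | p) * quadraticChar (ZMod p) (x ^ 3 + A * x + B) := fun x => by
    rw [← jacobiSym.legendreSym.to_jacobiSym, legendreSym, ← map_mul, Equiv.mulLeft₀_apply,
      show (d * x : ZMod p) ^ 3 + A * d ^ 2 * (d * x) + B * d ^ 3 =
        d ^ 2 * (d * (x ^ 3 + A * x + B)) by ring, map_mul, quadraticChar_sq_one' hd', one_mul]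
  simp only [h2, ← Finset.mul_sum] at h1
  rw [Nat.card_congr (Equiv.subtypeEquivRight e), Nat.cast_add, h1, ap]
  congr 4
  push_cast
  ring

lemma lpoly_twist_add {A B d : ℤ} (h : ¬(p : ℤ) ∣ 2 * (4 * A ^ 3 + 27 * B ^ 2))
    (hd : (p : ℤ) ∣ d) (hs : Squarefree d) : lpoly p (twist A B d) = 1 := by
  have hp' : Prime (p : ℤ) := Nat.prime_iff_prime_int.1 hp.out
  have hd' : (d : ZMod p) = 0 := (ZMod.intCast_zmod_eq_zero_iff_dvd _ _).2 hd
  have h16 := not_dvd_sixteen h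
  rw [← iw_map, lpoly_int p _ ?_ fun hh => ?_, lp_add]
  · simp [iw_Δ, hd']
  · simp [iw_c₄, hd']
  · rw [iw_Δ]
    exact mul_ne_zero (fun h0 => h16 (h0 ▸ dvd_zero _)) (pow_ne_zero _ hs.ne_zero)
  · have h1 := hh.1
    rw [iw_Δ] at h1
    have h2 : ((p : ℤ) * p) ^ 6 ∣ d ^ 6 := by
      rw [← pow_two, ← pow_mul]
      exact (hp'.pow_dvd_of_dvd_mul_left 12 h16 h1)
    exact hp'.not_isUnit (hs _ ((Int.pow_dvd_pow_iff (by norm_num)).1 h2))

lemma exists_sqrt {d : ℤ} (hd : 4 * (p : ℤ) ∣ d - 1) : ∃ u : Kp p, u ^ 2 = d := by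
  obtain ⟨t, ht⟩ := hd
  obtain ⟨z, hz, -⟩ := hensels_lemma (p := p) (F := (X ^ 2 - C d : ℤ[X])) (a := 1) (by
    have e1 : aeval (1 : ℤ_[p]) (X ^ 2 - C d : ℤ[X]) = -(2 ^ 2 * (p * t)) := by
      have : (d : ℤ_[p]) = 1 + 4 * p * t := by
        rw [show d = 1 + 4 * p * t by linarith]; push_cast; rfl
      simp [this]; ring
    have e2 : aeval (1 : ℤ_[p]) (derivative (X ^ 2 - C d : ℤ[X])) = 2 := by
      rw [derivative_sub, derivative_X_pow, derivative_C, sub_zero, map_mul, aeval_C]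
      simp
    rw [e1, e2, norm_neg, norm_mul, norm_pow, norm_mul]
    refine mul_lt_of_lt_one_right (pow_pos (norm_pos_iff.2 two_ne_zero) _) ?_
    exact mul_lt_one_of_nonneg_of_lt_one_left (norm_nonneg _)
      (PadicInt.norm_lt_one_iff_dvd _ |>.2 dvd_rfl) (PadicInt.norm_le_one _))
  refine ⟨algebraMap (Op p) (Kp p) (eO p z), ?_⟩
  have : z ^ 2 = d := by simpa [sub_eq_zero] using hz
  rw [← map_pow, ← map_pow, this, map_intCast, map_intCast]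

omit hp in
lemma smul_twist {K : Type*} [Field K] [Algebra ℚ K] (a b : ℚ) {d : ℤ} {u : K} (hu0 : u ≠ 0)
    (hu : u ^ 2 = d) : (⟨(Units.mk0 u hu0)⁻¹, 0, 0, 0⟩ : VariableChange K) •
      (twist a b 1).baseChange K = (twist a b d).baseChange K := by
  have : CharZero K := algebraRat.charZero K
  ext <;> simp [twist, variableChange_def, baseChange, ← hu] <;> ring

lemma lpoly_twist_sq {a b : ℚ} (h : 4 * a ^ 3 + 27 * b ^ 2 ≠ 0) {d : ℤ} (hd0 : d ≠ 0)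
    (hd : 4 * (p : ℤ) ∣ d - 1) : lpoly p (twist a b d) = lpoly p (twist a b 1) := by
  obtain ⟨u, hu⟩ := exists_sqrt hd
  have hu0 : u ≠ 0 := fun h0 => by
    rw [h0, ← map_intCast (algebraMap ℚ (Kp p)), zero_pow two_ne_zero, eq_comm,
      _root_.map_eq_zero] at hu
    exact hd0 (by exact_mod_cast hu)
  exact lpoly_congr p _ _ (twist_Δ_ne h one_ne_zero) _ (smul_twist a b hu0 hu)

lemma LF_pow_twist {W W' : WeierstrassCurve ℚ} {α β ε : ℤ}
    (h : lpoly p W = 1 - C α * X + C β * X ^ 2)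
    (h' : lpoly p W' = 1 - C (ε * α) * X + C (ε ^ 2 * β) * X ^ 2) (j : ℕ) :
    W'.LFunction (p ^ j) = W.LFunction (p ^ j) * ε ^ j := by
  obtain ⟨a1, a2⟩ := LF_rec p W h
  obtain ⟨b1, b2⟩ := LF_rec p W' h'
  induction j using Nat.twoStepInduction with
  | zero => simp [(LF_mult W).1, (LF_mult W').1]
  | one => simp [a1, b1, mul_comm]
  | more j i0 i1 => rw [a2, b2, i0, i1]; ring

omit hp in
/-- The coefficients of a twist in the family. -/
theorem LF_twist {A B d : ℤ} (h : 4 * A ^ 3 + 27 * B ^ 2 ≠ 0) {q : ℕ}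
    (hq : 2 * (4 * A ^ 3 + 27 * B ^ 2) ∣ (q : ℤ)) (hs : Squarefree d) (hd : d ≡ 1 [ZMOD 8 * q])
    (n : ℕ) :
    (twist A B d).LFunction n = (twist A B 1).LFunction n * J(d | n) := by
  let g : ArithmeticFunction ℤ := ⟨fun n => (twist A B 1).LFunction n * J(d | n), by simp⟩
  have hm := LF_mult (twist A B 1)
  have hg : g.IsMultiplicative := by
    rw [IsMultiplicative.iff_ne_zero]
    refine ⟨by simp [g, hm.1], fun {m n} h0 h1 hc => ?_⟩
    simp only [g, coe_mk, hm.2 hc, jacobiSym.mul_right' d h0 h1]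
    ring
  have h' : 4 * (A : ℚ) ^ 3 + 27 * (B : ℚ) ^ 2 ≠ 0 := by exact_mod_cast h
  suffices (twist A B d).LFunction = g by rw [this]; rfl
  rw [(LF_mult _).eq_iff_eq_on_prime_powers _ _ hg]
  intro p j hp
  have : Fact p.Prime := ⟨hp⟩
  simp only [g, coe_mk, jacobiSym.pow_right]
  by_cases h1 : (p : ℤ) ∣ 2 * (4 * A ^ 3 + 27 * B ^ 2)
  · have h2 : 4 * (p : ℤ) ∣ d - 1 :=
      (mul_dvd_mul (by norm_num : (4 : ℤ) ∣ 8) (h1.trans hq)).trans hd.symm.dvd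
    have h3 : J(d | p) = 1 := by
      rw [jacobiSym.mod_left' (a₂ := 1)
        (Int.ModEq.symm (Int.modEq_iff_dvd.2 ((dvd_mul_left _ _).trans h2))), jacobiSym.one_left]
    rw [h3, LF_pow, LF_pow, lpoly_twist_sq h' hs.ne_zero h2, one_pow, mul_one]
  have h4 := lpoly_twist_good (d := 1) h1 fun h0 =>
    (Nat.prime_iff_prime_int.1 hp).not_isUnit (isUnit_of_dvd_one h0)
  rw [jacobiSym.one_left, one_mul] at h4
  refine LF_pow_twist h4 ?_ j
  by_cases h5 : (p : ℤ) ∣ d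
  · have h6 : J(d | p) = 0 := by
      rw [← jacobiSym.legendreSym.to_jacobiSym, legendreSym.eq_zero_iff,
        ZMod.intCast_zmod_eq_zero_iff_dvd]
      exact h5
    simp [lpoly_twist_add h1 h5 hs, h6]
  · have h6 : J(d | p) ^ 2 = 1 := by
      rw [← jacobiSym.legendreSym.to_jacobiSym]
      exact legendreSym.sq_one p fun h0 => h5 ((ZMod.intCast_zmod_eq_zero_iff_dvd _ _).1 h0)
    rw [lpoly_twist_good h1 h5, h6, one_mul]

end Pool.Agent.Lib.MP_03e5d0_nt
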