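import Pool.Agent.Lib.MP_03e5d0_nt.Iface
import Pool.Agent.Lib.MP_03e5d0_nt.CTw

/-! The data attached to an elliptic curve. -/

set_option autoImplicit false

noncomputable section

namespace Pool.Agent.Lib.MP_03e5d0_nt

open WeierstrassCurve Polynomial ArithmeticFunction
open scoped NumberTheorySymbols

/-- Multiplication of a Dirichlet series by `p ^ (-s)`. -/
def shift (p : ℕ) (f : ℕ → ℂ) (n : ℕ) : ℂ := if p ∣ n then f (n / p) else 0

lemma hasSum_shift {p : ℕ} (hp : p ≠ 0) {f : ℕ → ℂ} {s a : ℂ} (h : LSeriesHasSum f s a) :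
    LSeriesHasSum (shift p f) s ((p : ℂ) ^ (-s) * a) := by
  unfold LSeriesHasSum at h ⊢
  rw [← (mul_right_injective₀ hp).hasSum_iff]
  · suffices (LSeries.term (shift p f) s ∘ fun m => p * m) =
        fun m => (p : ℂ) ^ (-s) * LSeries.term f s m by rw [this]; exact h.mul_left _
    funext m
    rcases eq_or_ne m 0 with rfl | hm
    · simp
    have : shift p f (p * m) = f m := by
      rw [shift, if_pos (dvd_mul_right _ _), Nat.mul_div_cancel_left _ (Nat.pos_of_ne_zero hp)]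
    rw [Function.comp_apply, LSeries.term_of_ne_zero (mul_ne_zero hp hm),
      LSeries.term_of_ne_zero hm, this, Nat.cast_mul, Complex.natCast_mul_natCast_cpow,
      Complex.cpow_neg]
    ring
  · intro n hn
    have : ¬p ∣ n := fun ⟨m, e⟩ => hn ⟨m, e.symm⟩
    simp [LSeries.term, shift, this]

open Classical in
/-- The coefficients at the integers that are prime to all elements of `S`. -/
def depl (S : Finset ℕ) (g : ℕ → ℂ) (n : ℕ) : ℂ := if ∀ p ∈ S, ¬p ∣ n then g n else 0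

lemma depl_insert {g : ℕ → ℂ} (h0 : g 0 = 0)
    (hm : ∀ m n : ℕ, m.Coprime n → g (m * n) = g m * g n) {S : Finset ℕ} (hS : ∀ l ∈ S, l.Prime)
    {p : ℕ} (hp : p.Prime) (hpS : p ∉ S) {α β : ℂ} (ha : g p = α)
    (hr : ∀ j, g (p ^ (j + 2)) = α * g (p ^ (j + 1)) - β * g (p ^ j)) :
    depl (insert p S) g = depl S g - α • shift p (depl S g) + β • shift p (shift p (depl S g)) := by
  have key : ∀ j m : ℕ, ¬p ∣ m → depl S g (p ^ j * m) = g (p ^ j) * depl S g m := by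
    intro j m hpm
    have e : (∀ l ∈ S, ¬l ∣ p ^ j * m) ↔ ∀ l ∈ S, ¬l ∣ m := by
      refine forall₂_congr fun l hl => not_congr ⟨fun h => ?_, fun h => h.mul_left _⟩
      refine ((hS l hl).dvd_mul.1 h).resolve_left fun h' => hpS ?_
      rwa [← (Nat.prime_dvd_prime_iff_eq (hS l hl) hp).1 ((hS l hl).dvd_of_dvd_pow h')]
    unfold depl
    by_cases h : ∀ l ∈ S, ¬l ∣ m
    · rw [if_pos (e.2 h), if_pos h, hm _ _ (((Nat.Prime.coprime_iff_not_dvd hp).2 hpm).pow_left j)]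
    · rw [if_neg (mt e.1 h), if_neg h, mul_zero]
  have s0 : ∀ (f : ℕ → ℂ) (m : ℕ), ¬p ∣ m → shift p f m = 0 := fun f m h => if_neg h
  have s1 : ∀ (f : ℕ → ℂ) (j m : ℕ), shift p f (p ^ (j + 1) * m) = f (p ^ j * m) := fun f j m => by
    rw [pow_succ', mul_assoc, shift, if_pos (dvd_mul_right _ _), Nat.mul_div_cancel_left _ hp.pos]
  have d1 : ∀ j m : ℕ, depl (insert p S) g (p ^ (j + 1) * m) = 0 := fun j m =>
    if_neg fun h => h p (Finset.mem_insert_self _ _) ((dvd_pow_self p (by omega)).mul_right _)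
  funext n
  simp only [Pi.add_apply, Pi.sub_apply, Pi.smul_apply, smul_eq_mul]
  rcases eq_or_ne n 0 with rfl | hn
  · simp [depl, shift, h0]
  obtain ⟨j, m, hpm, rfl⟩ := Nat.exists_eq_pow_mul_and_not_dvd hn p hp.ne_one
  rcases j with _ | _ | j
  · rw [pow_zero, one_mul, s0 _ _ hpm, s0 _ _ hpm]
    simp [depl, hpm]
  · rw [d1, s1, s1, key _ _ hpm, pow_zero, one_mul, s0 _ _ hpm, zero_add, pow_one, ha]
    ring
  · rw [d1, s1, s1, s1, key _ _ hpm, key _ _ hpm, key _ _ hpm, hr]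
    ring

lemma hasSum_depl {g : ℕ → ℂ} (h0 : g 0 = 0)
    (hm : ∀ m n : ℕ, m.Coprime n → g (m * n) = g m * g n) (α β : ℕ → ℂ) (S : Finset ℕ)
    (hS : ∀ p ∈ S, p.Prime ∧ g p = α p ∧
      ∀ j, g (p ^ (j + 2)) = α p * g (p ^ (j + 1)) - β p * g (p ^ j)) {s a : ℂ}
    (h : LSeriesHasSum g s a) : LSeriesHasSum (depl S g) s
      ((∏ p ∈ S, (1 - α p * (p : ℂ) ^ (-s) + β p * ((p : ℂ) ^ (-s)) ^ 2)) * a) := by
  induction S using Finset.induction_on with
  | empty =>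
    have : depl ∅ g = g := by funext n; simp [depl]
    simpa [this] using h
  | insert p S hp ih =>
    obtain ⟨p1, p2, p3⟩ := hS p (Finset.mem_insert_self _ _)
    have ih := ih fun l hl => hS l (Finset.mem_insert_of_mem hl)
    rw [depl_insert h0 hm (fun l hl => (hS l (Finset.mem_insert_of_mem hl)).1) p1 hp p2 p3,
      Finset.prod_insert hp]
    convert (ih.sub ((hasSum_shift p1.ne_zero ih).smul (α p))).add
      ((hasSum_shift p1.ne_zero (hasSum_shift p1.ne_zero ih)).smul (β p)) using 1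
    ring

lemma lseries_depl (L : ArithmeticFunction ℤ) (hm : L.IsMultiplicative) (α β : ℕ → ℤ)
    (S : Finset ℕ) (hS : ∀ p ∈ S, p.Prime ∧ L p = α p ∧
      ∀ j, L (p ^ (j + 2)) = α p * L (p ^ (j + 1)) - β p * L (p ^ j)) {s : ℂ}
    (h : LSeriesSummable ((↑) ∘ L) s) : LSeries (depl S ((↑) ∘ L)) s =
      (∏ p ∈ S, (1 - α p * (p : ℂ) ^ (-s) + β p * ((p : ℂ) ^ (-s)) ^ 2)) * LSeries ((↑) ∘ L) s := by
  refine LSeriesHasSum.LSeries_eq (hasSum_depl ?_ (fun m n h => ?_) (fun p => (α p : ℂ))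
    (fun p => (β p : ℂ)) S (fun p hp => ⟨(hS p hp).1, ?_, fun j => ?_⟩) h.LSeriesHasSum)
  · simp
  · simp only [Function.comp_apply, hm.2 h, Int.cast_mul]
  · simp only [Function.comp_apply, (hS p hp).2.1]
  · simp only [Function.comp_apply, (hS p hp).2.2, Int.cast_mul, Int.cast_sub]

lemma exists_mul_primes (M : ℕ) : ∃ F : ℕ, F ≠ 0 ∧ ∀ p : ℕ, p.Prime → p < M → p ∣ F :=
  ⟨M.factorial, M.factorial_ne_zero, fun _ hp h => Nat.dvd_factorial hp.pos h.le⟩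

lemma exists_data (L : ArithmeticFunction ℤ) (hm : L.IsMultiplicative) (q : ℕ) (hq0 : q ≠ 0)
    (hF : ∀ p : ℕ, p.Prime → p < 10000 → p ∣ q)
    (hgood : ∀ p : ℕ, p.Prime → ¬p ∣ q → (L p : ℝ) ^ 2 ≤ 4 * p ∧
      ∀ j, (L (p ^ (j + 2)) : ℝ) = L p * L (p ^ (j + 1)) - p * L (p ^ j)) :
    ∃ D : Data, D.q = q ∧ ∀ n : ℕ, n.Coprime q → (L n : ℝ) = D.lam n * √n := by
  refine ⟨⟨q, fun n => if n.Coprime q then (L n : ℝ) / √n else 0, hq0, hF, by simp [hm.1],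
    fun n h => if_neg h, fun m n h => ?_, fun p j hp h => ?_, fun p hp => ?_⟩, rfl, fun n h => ?_⟩
  · by_cases h1 : m.Coprime q
    · by_cases h2 : n.Coprime q
      · rw [if_pos h1, if_pos h2, if_pos (h1.mul_left h2), hm.2 h, Nat.cast_mul,
          Real.sqrt_mul (Nat.cast_nonneg _), Int.cast_mul, mul_div_mul_comm]
      · rw [if_neg h2, if_neg fun hh => h2 hh.coprime_mul_left, mul_zero]
    · rw [if_neg h1, if_neg fun hh => h1 hh.coprime_mul_right, zero_mul]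
  · have hc := (Nat.Prime.coprime_iff_not_dvd hp).2 h
    have hp0 : (0 : ℝ) < p := by exact_mod_cast hp.pos
    have e : ∀ i : ℕ, √((p ^ i : ℕ) : ℝ) = √p ^ i := fun i => by
      rw [Nat.cast_pow, Real.sqrt_eq_iff_mul_self_eq (by positivity) (by positivity), ← mul_pow,
        Real.mul_self_sqrt hp0.le]
    simp only [if_pos hc, if_pos (hc.pow_left _), e, (hgood p hp h).2]
    have h1 : (p : ℝ) = √p ^ 2 := (Real.sq_sqrt hp0.le).symm
    have h2 : √(p : ℝ) ≠ 0 := by positivity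
    generalize √(p : ℝ) = r at h1 h2 ⊢
    rw [h1]
    field_simp
    ring
  · split_ifs with h
    · have hp0 : (0 : ℝ) < p := by exact_mod_cast hp.pos
      rw [abs_div, abs_of_nonneg (Real.sqrt_nonneg _), div_le_iff₀ (by positivity)]
      refine abs_le.2 (abs_le_of_sq_le_sq' ?_ (by positivity))
      rw [mul_pow, Real.sq_sqrt hp0.le]
      linarith [(hgood p hp ((Nat.Prime.coprime_iff_not_dvd hp).1 h)).1]
    · simp
  · rcases eq_or_ne n 0 with rfl | hn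
    · simp
    · have : √(n : ℝ) ≠ 0 := by positivity
      simp only [if_pos h]
      field_simp

theorem data_of_int (A B : ℤ) (hab : 4 * A ^ 3 + 27 * B ^ 2 ≠ 0) (N : ℕ) (hN : N ≠ 0)
    (hbd : ∃ C : ℝ, ∀ n : ℕ, |((twist A B 1).LFunction n : ℝ)| ≤ C * n) :
    ∃ D : Data, N ∣ D.q ∧
      (∀ n : ℕ, n.Coprime D.q → ((twist A B 1).LFunction n : ℝ) = D.lam n * √n) ∧
      (∀ d : ℤ, D.Fam d → ∀ n : ℕ, (twist A B d).LFunction n = (twist A B 1).LFunction n * J(d | n)) ∧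
      ∃ P : ℂ → ℂ, Differentiable ℂ P ∧ P 1 ≠ 0 ∧ ∀ d : ℤ, D.Fam d → ∀ s : ℂ, 2 < s.re →
        LSeries (D.co d) s = P s * (twist A B d).LSeries s := by
  obtain ⟨F, hF0, hF⟩ := exists_mul_primes 10000
  obtain ⟨q, hq0, hNq, hFq, hq⟩ : ∃ q : ℕ, q ≠ 0 ∧ N ∣ q ∧ F ∣ q ∧
      2 * (4 * A ^ 3 + 27 * B ^ 2) ∣ (q : ℤ) := by
    refine ⟨N * F * (2 * (4 * A ^ 3 + 27 * B ^ 2)).natAbs, mul_ne_zero (mul_ne_zero hN hF0)
      (Int.natAbs_ne_zero.2 (mul_ne_zero two_ne_zero hab)), (dvd_mul_right _ _).mul_right _,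
      (dvd_mul_left _ _).mul_right _, ?_⟩
    rw [Nat.cast_mul]
    exact (Int.dvd_natAbs.2 dvd_rfl).mul_left _
  set L := (twist A B 1).LFunction with hL
  have hm : L.IsMultiplicative := LF_mult _
  have hgood : ∀ p : ℕ, p.Prime → ¬p ∣ q → (L p : ℝ) ^ 2 ≤ 4 * p ∧
      ∀ j, (L (p ^ (j + 2)) : ℝ) = L p * L (p ^ (j + 1)) - p * L (p ^ j) := by
    intro p hp hpq
    have : Fact p.Prime := ⟨hp⟩
    have h1 : ¬(p : ℤ) ∣ 2 * (4 * A ^ 3 + 27 * B ^ 2) := fun h =>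
      hpq (Int.natCast_dvd_natCast.1 (h.trans hq))
    have h4 := lpoly_twist_good (d := 1) h1 fun h0 =>
      (Nat.prime_iff_prime_int.1 hp).not_isUnit (isUnit_of_dvd_one h0)
    rw [jacobiSym.one_left, one_mul] at h4
    obtain ⟨a1, a2⟩ := LF_rec p _ h4
    rw [← hL] at a1 a2
    refine ⟨by rw [a1]; exact_mod_cast ap_sq_le h1, fun j => by rw [a2, a1]; push_cast; ring⟩
  obtain ⟨D, rfl, hlam⟩ := exists_data L hm q hq0 (fun p hp h => (hF p hp h).trans hFq) hgood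
  have htw : ∀ d : ℤ, D.Fam d → ∀ n : ℕ, (twist A B d).LFunction n = L n * J(d | n) :=
    fun d hd n => LF_twist hab hq hd.1 hd.2 n
  have hαβ : ∀ p : ℕ, ∃ α β : ℤ, ∀ [Fact p.Prime],
      lpoly p (twist A B 1) = 1 - C α * X + C β * X ^ 2 ∧ (p : ℤ) ^ 2 - α * p + β ≠ 0 := by
    intro p
    by_cases hp : p.Prime
    · have : Fact p.Prime := ⟨hp⟩
      obtain ⟨α, β, h⟩ := lpoly_form p (twist A B 1)
      exact ⟨α, β, h⟩
    · exact ⟨0, 0, fun [h : Fact p.Prime] => absurd h.out hp⟩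
  choose α β hαβ using hαβ
  refine ⟨D, hNq, hlam, htw, fun s => ∏ p ∈ D.q.primeFactors,
    (1 - (α p : ℂ) * (p : ℂ) ^ (-s) + (β p : ℂ) * ((p : ℂ) ^ (-s)) ^ 2), ?_, ?_, ?_⟩
  · refine Differentiable.fun_finsetProd fun p hp => ?_
    have : Differentiable ℂ fun s : ℂ => (p : ℂ) ^ (-s) := differentiable_id.neg.const_cpow
      (Or.inl (Nat.cast_ne_zero.2 (Nat.prime_of_mem_primeFactors hp).ne_zero))
    fun_prop
  · refine Finset.prod_ne_zero_iff.2 fun p hp h => ?_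
    have : Fact p.Prime := ⟨Nat.prime_of_mem_primeFactors hp⟩
    have hp0 : (p : ℂ) ≠ 0 := Nat.cast_ne_zero.2 this.out.ne_zero
    refine (hαβ p).2 ?_
    rw [Complex.cpow_neg_one] at h
    field_simp at h
    have : ((p : ℂ)) ^ 2 - α p * p + β p = 0 := by linear_combination h
    exact_mod_cast this
  intro d hd s hs
  obtain ⟨C, hC⟩ := hbd
  have hsum : LSeriesSummable ((↑) ∘ (twist A B d).LFunction) s := by
    refine LSeriesSummable_of_le_const_mul_rpow hs ⟨C, fun n _ => ?_⟩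
    rw [Function.comp_apply, Complex.norm_intCast, htw d hd, Int.cast_mul, abs_mul,
      show (2 : ℝ) - 1 = 1 by norm_num, Real.rpow_one]
    refine (mul_le_of_le_one_right (abs_nonneg _) ?_).trans (hC n)
    rcases jacobiSym.trichotomy d n with h | h | h <;> simp [h]
  have h' : 4 * (A : ℚ) ^ 3 + 27 * (B : ℚ) ^ 2 ≠ 0 := by exact_mod_cast hab
  rw [WeierstrassCurve.LSeries, ← lseries_depl _ (LF_mult _) α β D.q.primeFactors (fun p hp => by
      have : Fact p.Prime := ⟨Nat.prime_of_mem_primeFactors hp⟩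
      have h2 : 4 * (p : ℤ) ∣ d - 1 := (mul_dvd_mul (by norm_num : (4 : ℤ) ∣ 8)
        (Int.natCast_dvd_natCast.2 (Nat.dvd_of_mem_primeFactors hp))).trans hd.2.symm.dvd
      exact ⟨this.out, LF_rec p _ ((lpoly_twist_sq h' hd.1.ne_zero h2).trans (hαβ p).1)⟩) hsum]
  congr 1
  funext n
  have e : (∀ p ∈ D.q.primeFactors, ¬p ∣ n) ↔ n.Coprime D.q := by
    rw [Nat.coprime_iff_gcd_eq_one, Nat.eq_one_iff_not_exists_prime_dvd]
    simp only [Nat.mem_primeFactors, Nat.dvd_gcd_iff]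
    exact ⟨fun h p hp hh => h p ⟨hp, hh.2, hq0⟩ hh.1, fun h p hp hh => h p hp.1 ⟨hh, hp.2.1⟩⟩
  unfold depl Data.co
  by_cases h : n.Coprime D.q
  · rw [if_pos (e.2 h), mul_right_comm, ← hlam n h, Function.comp_apply, htw d hd]
    push_cast
    rfl
  · rw [if_neg (mt e.1 h), D.lam_zero n h]
    simp

/-- Part C. -/
theorem data_of_curve (a b : ℚ) (hab : 4 * a ^ 3 + 27 * b ^ 2 ≠ 0) (N : ℕ) (hN : N ≠ 0)
    (hbd : ∃ C : ℝ, ∀ n : ℕ, |((twist a b 1).LFunction n : ℝ)| ≤ C * n) :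
    ∃ D : Data, N ∣ D.q ∧
      (∀ n : ℕ, n.Coprime D.q → ((twist a b 1).LFunction n : ℝ) = D.lam n * √n) ∧
      (∀ d : ℤ, D.Fam d → ∀ n : ℕ, (twist a b d).LFunction n = (twist a b 1).LFunction n * J(d | n)) ∧
      ∃ P : ℂ → ℂ, Differentiable ℂ P ∧ P 1 ≠ 0 ∧ ∀ d : ℤ, D.Fam d → ∀ s : ℂ, 2 < s.re →
        LSeries (D.co d) s = P s * (twist a b d).LSeries s := by
  have hu : ((a.den * b.den : ℕ) : ℚ) ≠ 0 := Nat.cast_ne_zero.2 (mul_ne_zero a.den_nz b.den_nz)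
  obtain ⟨A, hA⟩ : ∃ A : ℤ, (A : ℚ) = ((a.den * b.den : ℕ) : ℚ) ^ 4 * a :=
    ⟨a.den ^ 3 * b.den ^ 4 * a.num, by push_cast; rw [← a.mul_den_eq_num]; ring⟩
  obtain ⟨B, hB⟩ : ∃ B : ℤ, (B : ℚ) = ((a.den * b.den : ℕ) : ℚ) ^ 6 * b :=
    ⟨a.den ^ 6 * b.den ^ 5 * b.num, by push_cast; rw [← b.mul_den_eq_num]; ring⟩
  have hAB : 4 * A ^ 3 + 27 * B ^ 2 ≠ 0 := fun h => by
    have h1 : 4 * (A : ℚ) ^ 3 + 27 * (B : ℚ) ^ 2 = 0 := by exact_mod_cast h
    rw [hA, hB] at h1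
    exact mul_ne_zero (pow_ne_zero 12 hu) hab (by linear_combination h1)
  have e : ∀ d : ℤ, d ≠ 0 → (twist A B d).LFunction = (twist a b d).LFunction := fun d hd => by
    rw [hA, hB, LF_twist_scale hab hd hu]
  obtain ⟨D, h1, h2, h3, P, h4, h5, h6⟩ := data_of_int A B hAB N hN (by rwa [e 1 one_ne_zero])
  rw [e 1 one_ne_zero] at h2 h3
  refine ⟨D, h1, h2, fun d hd n => by rw [← h3 d hd, e d hd.1.ne_zero], P, h4, h5,
    fun d hd s hs => ?_⟩
  rw [h6 d hd s hs, WeierstrassCurve.LSeries, WeierstrassCurve.LSeries, e d hd.1.ne_zero]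

end Pool.Agent.Lib.MP_03e5d0_nt
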