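import Pool.Agent.Lib.MP_03e5d0_nt.DPol

/-! The invariant differential modulo a prime. -/

set_option autoImplicit false

noncomputable section

namespace Pool.Agent.Lib.MP_03e5d0_nt.D11

open Finset PowerSeries

/-- Sketch: `U = G g⁻¹`, `V = (th U - U) g⁻¹` satisfy
`V ^ 2 = U ^ 4 - 4 U ^ 3 X - 88 U ^ 2 X ^ 2 - 300 U X ^ 3 - 304 X ^ 4`, `V(0) = -1`. Apply `th` and
cancel `V`: `2 th V - 4 V = g (4 U ^ 3 - 12 U ^ 2 X - 176 U X ^ 2 - 300 X ^ 3)`. Put
`S = U ^ 2 - 2 U X - 46 X ^ 2`, `ξ = (S - V) / 2`, so `ξ ^ 2 - S ξ + 121 (U + 5 X) X ^ 3 = 0`;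
`x = ξ + 16 X ^ 2`, `y = 121 X ^ 3 - 2 (U - X) ξ`. -/
theorem exists_xy {k : Type*} [Field k] (h2 : (2 : k) ≠ 0) (g G : k⟦X⟧) (hg : constantCoeff g = 1)
    (hG : constantCoeff G = 1) (h : (th G * g - G * (g + th g)) ^ 2 = g ^ 2 * (G ^ 4 -
      4 * G ^ 3 * (X * g) - 88 * G ^ 2 * (X * g) ^ 2 - 300 * G * (X * g) ^ 3 - 304 * (X * g) ^ 4)) :
    ∃ x y : k⟦X⟧, constantCoeff x = 1 ∧ constantCoeff y = -2 ∧
      y ^ 2 = 4 * x ^ 3 - 4 * x ^ 2 * X ^ 2 - 40 * x * (X ^ 2) ^ 2 - 79 * (X ^ 2) ^ 3 ∧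
      th x - 2 * x = g * y := by
  have hgu : g * g⁻¹ = 1 := PowerSeries.mul_inv_cancel g (by rw [hg]; exact one_ne_zero)
  have hg0 : g ≠ 0 := left_ne_zero_of_mul_eq_one hgu
  obtain ⟨U, rfl⟩ : ∃ U, G = U * g := ⟨G * g⁻¹, by rw [mul_assoc, mul_comm g⁻¹, hgu, mul_one]⟩
  obtain ⟨V, hV⟩ : ∃ V, th U = U + g * V :=
    ⟨g⁻¹ * (th U - U), by rw [← mul_assoc, hgu]; ring⟩
  have hU0 : constantCoeff U = 1 := by simpa [hg] using hG
  have hV0 : constantCoeff V = -1 := by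
    have := congrArg constantCoeff hV
    rw [constantCoeff_th, map_add, map_mul, hU0, hg, one_mul] at this
    linear_combination -this
  have hVne : V ≠ 0 := by
    rintro rfl
    simp at hV0
  have hQ : V ^ 2 = U ^ 4 - 4 * U ^ 3 * X - 88 * U ^ 2 * X ^ 2 - 300 * U * X ^ 3 - 304 * X ^ 4 := by
    rw [th_mul, hV] at h
    exact mul_left_cancel₀ (pow_ne_zero 6 hg0) (by linear_combination h)
  have hD : 2 * th V = 4 * V + g * (4 * U ^ 3 - 12 * U ^ 2 * X - 176 * U * X ^ 2 - 300 * X ^ 3) := by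
    have h1 := congrArg th hQ
    simp only [pow_succ, pow_zero, one_mul, th_sub, th_mul, th_X, th_ofNat, hV] at h1
    exact mul_left_cancel₀ hVne (by linear_combination h1 - 4 * hQ)
  have h2' : (2 : k⟦X⟧) * C (2⁻¹ : k) = 1 := by
    rw [← map_ofNat (C : k →+* k⟦X⟧) 2, ← map_mul, mul_inv_cancel₀ h2, map_one]
  have h20 : (2 : k⟦X⟧) ≠ 0 := left_ne_zero_of_mul_eq_one h2'
  obtain ⟨ξ, hξ⟩ : ∃ ξ : k⟦X⟧, 2 * ξ = U ^ 2 - 2 * U * X - 46 * X ^ 2 - V :=
    ⟨C (2⁻¹ : k) * (U ^ 2 - 2 * U * X - 46 * X ^ 2 - V), by rw [← mul_assoc, h2', one_mul]⟩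
  have hξ0 : constantCoeff ξ = 1 := by
    have := congrArg constantCoeff hξ
    simp only [map_mul, map_sub, map_pow, map_ofNat, constantCoeff_X, hU0, hV0] at this
    exact mul_left_cancel₀ h2 (by linear_combination this)
  have hq : ξ ^ 2 - (U ^ 2 - 2 * U * X - 46 * X ^ 2) * ξ + 121 * (U + 5 * X) * X ^ 3 = 0 :=
    mul_left_cancel₀ (pow_ne_zero 2 h20) (by
      linear_combination (2 * ξ - (U ^ 2 - 2 * U * X - 46 * X ^ 2) - V) * hξ + hQ)
  refine ⟨ξ + 16 * X ^ 2, 121 * X ^ 3 - 2 * (U - X) * ξ, ?_, ?_, ?_, ?_⟩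
  · simp [hξ0]
  · simp [hξ0, hU0, map_ofNat]
  · linear_combination (-4 * ξ) * hq
  · have h1 := congrArg th hξ
    simp only [pow_succ, pow_zero, one_mul, th_sub, th_mul, th_X, th_ofNat, hV] at h1
    simp only [pow_succ, pow_zero, one_mul, th_add, th_mul, th_X, th_ofNat]
    exact mul_left_cancel₀ (pow_ne_zero 2 h20) (by
      linear_combination 2 * h1 - hD - (4 - 4 * g * (U - X)) * hξ)

/-- Sketch: `p = 2 m + 1`. Compare the coefficients of `X ^ (2 m)` in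
`y ^ p g = (y ^ 2) ^ m (th x - 2 x) = ∑ j, cP m j x ^ j X ^ (2 (3 m - j)) (th x - 2 x)` (`hom_pow`).
On the left `y = C (-2) + X z`, `y ^ p = C (-2) + X ^ p z ^ p` (`add_pow_char`, `ZMod.pow_card`). On
the right the terms `j < 2 m` have order `> 2 m`, the term `j = 2 m` gives `-2 cP m (2 m)`, and for
`2 m < j ≤ 3 m` the coefficient of `X ^ (2 j - 4 m)` in
`(j + 1) x ^ j (th x - 2 x) = th (x ^ (j + 1)) - 2 (j + 1) x ^ (j + 1)` is a multiple of
`-2 p = 0`, while `j + 1` is invertible. -/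
theorem cartier {p : ℕ} [Fact p.Prime] (hp : p ≠ 2) (g x y : (ZMod p)⟦X⟧)
    (hx : constantCoeff x = 1) (hy : constantCoeff y = -2)
    (h1 : y ^ 2 = 4 * x ^ 3 - 4 * x ^ 2 * X ^ 2 - 40 * x * (X ^ 2) ^ 2 - 79 * (X ^ 2) ^ 3)
    (h2 : th x - 2 * x = g * y) : coeff (p - 1) g = (cP (p / 2) (p - 1) : ZMod p) := by
  have hpp : p.Prime := Fact.out
  obtain ⟨m, hm⟩ := hpp.odd_of_ne_two hp
  have e1 : p / 2 = m := by omega
  have e2 : p - 1 = 2 * m := by omega
  rw [e1, e2]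
  have : CharP (ZMod p)⟦X⟧ p := charP_of_injective_ringHom (f := (C : ZMod p →+* (ZMod p)⟦X⟧))
    C_injective p
  have h20 : (-2 : ZMod p) ≠ 0 := by
    rw [neg_ne_zero]
    intro h
    have h3 : ((2 : ℕ) : ZMod p) = 0 := by exact_mod_cast h
    rw [ZMod.natCast_eq_zero_iff] at h3
    exact hp ((Nat.prime_dvd_prime_iff_eq hpp Nat.prime_two).1 h3)
  have hE : y ^ p * g = (y ^ 2) ^ m * (th x - 2 * x) := by
    have : y ^ p = y ^ (2 * m + 1) := by rw [← hm]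
    rw [this, h2]
    ring
  have hL : coeff (2 * m) (y ^ p * g) = -2 * coeff (2 * m) g := by
    obtain ⟨z, hz⟩ : X ∣ y - C (-2) := X_dvd_iff.2 (by rw [map_sub, hy, constantCoeff_C, sub_self])
    have h3 : y = C (-2) + X * z := by linear_combination hz
    rw [h3, add_pow_char, ← map_pow, ZMod.pow_card, mul_pow, add_mul, map_add, coeff_C_mul,
      mul_assoc, coeff_X_pow_mul', if_neg (by omega), add_zero]
  have hT : ∀ j, coeff (2 * m) ((cP m j : (ZMod p)⟦X⟧) * x ^ j * (X ^ 2) ^ (3 * m - j) *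
      (th x - 2 * x)) = if 2 * (3 * m - j) ≤ 2 * m then (cP m j : ZMod p) *
        coeff (2 * m - 2 * (3 * m - j)) (x ^ j * (th x - 2 * x)) else 0 := by
    intro j
    have : (cP m j : (ZMod p)⟦X⟧) * x ^ j * (X ^ 2) ^ (3 * m - j) * (th x - 2 * x) =
        X ^ (2 * (3 * m - j)) * (C (cP m j : ZMod p) * (x ^ j * (th x - 2 * x))) := by
      rw [map_intCast, pow_mul]
      ring
    rw [this, coeff_X_pow_mul', coeff_C_mul]
  rw [hE, h1, hom_pow, sum_mul, map_sum, sum_eq_single_of_mem (2 * m) (mem_range.2 (by omega)),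
    hT, if_pos (by omega)] at hL
  · have e3 : 2 * m - 2 * (3 * m - 2 * m) = 0 := by omega
    rw [e3, coeff_zero_eq_constantCoeff] at hL
    simp only [map_mul, map_pow, map_sub, constantCoeff_th, hx, map_ofNat] at hL
    exact mul_left_cancel₀ h20 (by linear_combination -hL)
  · intro j hj hne
    rw [mem_range] at hj
    rw [hT]
    split_ifs with hle
    · obtain ⟨i, rfl⟩ : ∃ i, j = 2 * m + i := ⟨j - 2 * m, by omega⟩
      have e3 : 2 * m - 2 * (3 * m - (2 * m + i)) = 2 * i := by omega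
      have hinv : ((2 * m + i + 1 : ℕ) : ZMod p) ≠ 0 := by
        rw [Ne, ZMod.natCast_eq_zero_iff]
        intro h
        have h3 : p ∣ i := by
          have h4 : 2 * m + i + 1 = p + i := by omega
          rw [h4] at h
          exact (Nat.dvd_add_right dvd_rfl).1 h
        have := Nat.le_of_dvd (by omega) h3
        omega
      have e4 : C ((2 * m + i + 1 : ℕ) : ZMod p) * (x ^ (2 * m + i) * (th x - 2 * x)) =
          th (x ^ (2 * m + i + 1)) - C (2 * ((2 * m + i + 1 : ℕ) : ZMod p)) *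
            x ^ (2 * m + i + 1) := by
        rw [th_pow_succ, map_mul, map_ofNat, map_natCast]
        push_cast
        ring
      have e5 := congrArg (coeff (2 * i)) e4
      rw [coeff_C_mul, map_sub, coeff_th, coeff_C_mul] at e5
      have e6 : ((2 * m + 1 : ℕ) : ZMod p) = 0 := by rw [← hm, ZMod.natCast_self]
      have e7 : coeff (2 * i) (x ^ (2 * m + i) * (th x - 2 * x)) = 0 := by
        refine mul_left_cancel₀ hinv ?_
        rw [e5]
        push_cast at e6 ⊢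
        linear_combination (-2 * coeff (2 * i) (x ^ (2 * m + i + 1))) * e6
      rw [e3, e7, mul_zero]
    · rfl

end Pool.Agent.Lib.MP_03e5d0_nt.D11
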