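import Pool.Agent.Lib.MP_03e5d0_nt.DDefs

/-! The multiplier of the square of the eta function; the cusp form of level eleven. -/

set_option autoImplicit false

noncomputable section

namespace Pool.Agent.Lib.MP_03e5d0_nt.D11

open Finset CongruenceSubgroup UpperHalfPlane PowerSeries Filter Asymptotics
open Pool.Agent.Lib.MP_88d29b_nt.G
open scoped MatrixGroups ModularForm Manifold Topology Real

/-- The exponent of the multiplier, as a polynomial in the entries. -/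
def phi {R : Type*} [CommRing R] (a b c d : R) : R :=
  (a + d) * c - b * d * (c ^ 2 - 1) - 3 * c ^ 3 + 3 * (1 - c ^ 2) * (d - 1 - c * d)

theorem phi_spec : ∀ a b c d : ZMod 12, a * d - b * c = 1 →
    phi a (a + b) c (c + d) = phi a b c d + 1 ∧ phi b (-a) d (-c) = phi a b c d - 3 ∧
      phi a (-b) (-c) d + phi a b c d = 0 := by
  decide +kernel

/-- The multiplier. -/
def chi (γ : SL(2, ℤ)) : ℂ :=
  ZMod.stdAddChar (N := 12) (phi ((γ 0 0 : ℤ) : ZMod 12) (γ 0 1 : ℤ) (γ 1 0 : ℤ) (γ 1 1 : ℤ))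

/-- Sketch: `UpperHalfPlane.mdifferentiable_iff`,
`ModularForm.differentiableAt_eta_of_mem_upperHalfPlaneSet`. -/
theorem eta2_holo : MDifferentiable 𝓘(ℂ) 𝓘(ℂ) eta2 := by
  rw [UpperHalfPlane.mdifferentiable_iff]
  refine .congr (fun z hz => (ModularForm.differentiableAt_eta_of_mem_upperHalfPlaneSet hz).pow
    2 |>.differentiableWithinAt) fun z hz => ?_
  simp [eta2, ofComplex_apply_of_im_pos hz]

lemma dch_det (γ : SL(2, ℤ)) : 0 < (γ : Mat).det := by
  rw [γ.det_coe]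
  exact one_pos

lemma dch_sqrt (z : ℂ) : Complex.sqrt z ^ 2 = z := Complex.cpow_nat_inv_pow z two_ne_zero

/-- Sketch: `sl_SL`, `ModularForm.eta_comp_eq_csqrt_I_inv` squared (see the proof of
`ModularForm.discriminant_S_invariant`); `sqrt z ^ 2 = z`. -/
theorem eta2_S : sl 1 eta2 (ModularGroup.S : Mat) = (-Complex.I) • eta2 := by
  ext z
  have h1 : (sm (ModularGroup.S : Mat) z : ℂ) = -1 / z := by
    rw [coe_sm (dch_det _)]
    simp [ModularGroup.S]
  have h2 : ModularForm.eta (-1 / z) =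
      (Complex.sqrt Complex.I)⁻¹ * (Complex.sqrt z * ModularForm.eta z) :=
    ModularForm.eta_comp_eq_csqrt_I_inv z.2
  rw [sl_apply _ _ (dch_det _), eta2, h1, h2, mul_pow, mul_pow, inv_pow, dch_sqrt, dch_sqrt,
    Complex.inv_I]
  have h3 := z.ne_zero
  simp only [ModularGroup.S, Pi.smul_apply, eta2, smul_eq_mul, sub_self, zpow_zero]
  simp
  field_simp

/-- Sketch: unfold `ModularForm.eta`, `eta_q`, `Function.Periodic.qParam` (see the proof of
`ModularForm.discriminant_T_invariant`). -/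
theorem eta2_T : sl 1 eta2 (ModularGroup.T : Mat) =
    Complex.exp (2 * π * Complex.I / 12) • eta2 := by
  ext z
  have h1 : (sm (ModularGroup.T : Mat) z : ℂ) = z + 1 := by
    rw [coe_sm (dch_det _)]
    simp [ModularGroup.T]
  have h2 : ∀ n, ModularForm.eta_q n (z + 1) = ModularForm.eta_q n z := by
    intro n
    rw [ModularForm.eta_q_eq_pow, ModularForm.eta_q_eq_pow, mul_add, mul_one,
      Complex.exp_periodic]
  have h3 : Function.Periodic.qParam 24 (z + 1) ^ 2 =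
      Complex.exp (2 * π * Complex.I / 12) * Function.Periodic.qParam 24 z ^ 2 := by
    simp only [Function.Periodic.qParam, ← Complex.exp_nat_mul, ← Complex.exp_add]
    congr 1
    push_cast
    ring
  rw [sl_apply _ _ (dch_det _), eta2, h1]
  simp only [ModularForm.eta, h2, mul_pow, h3, Pi.smul_apply, eta2, smul_eq_mul]
  simp [ModularGroup.T, mul_assoc]

lemma dch_det12 (γ : SL(2, ℤ)) : ((γ 0 0 : ℤ) : ZMod 12) * (γ 1 1 : ℤ) -
    ((γ 0 1 : ℤ) : ZMod 12) * (γ 1 0 : ℤ) = 1 := by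
  have hd := γ.det_coe
  rw [Matrix.det_fin_two] at hd
  exact_mod_cast congrArg (Int.cast : ℤ → ZMod 12) hd

lemma dch_T (γ : SL(2, ℤ)) :
    chi (γ * ModularGroup.T) = chi γ * Complex.exp (2 * π * Complex.I / 12) := by
  have h1 := ZMod.stdAddChar_coe (N := 12) 1
  simp only [Int.cast_one, mul_one, Nat.cast_ofNat] at h1
  rw [chi, chi, ← h1, ← AddChar.map_add_eq_mul, ← (phi_spec _ _ _ _ (dch_det12 γ)).1]
  simp [ModularGroup.T, Matrix.mul_apply, Fin.sum_univ_two]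

lemma dch_S (γ : SL(2, ℤ)) : chi (γ * ModularGroup.S) = chi γ * -Complex.I := by
  have h1 := ZMod.stdAddChar_coe (N := 12) (-3)
  have h2 : 2 * π * Complex.I * ((-3 : ℤ) : ℂ) / ((12 : ℕ) : ℂ) = -(π / 2 * Complex.I) := by
    push_cast
    ring
  rw [h2, Complex.exp_neg, Complex.exp_pi_div_two_mul_I, Complex.inv_I] at h1
  have h3 := (phi_spec _ _ _ _ (dch_det12 γ)).2.1
  rw [sub_eq_add_neg] at h3
  rw [chi, chi, ← h1, ← AddChar.map_add_eq_mul, Int.cast_neg, Int.cast_ofNat, ← h3]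
  simp [ModularGroup.S, Matrix.mul_apply, Fin.sum_univ_two]

lemma dch_step {g : SL(2, ℤ)} {c : ℂ} (hc : c ≠ 0) (h1 : sl 1 eta2 (g : Mat) = c • eta2)
    (h2 : ∀ γ, chi (γ * g) = chi γ * c) {γ : SL(2, ℤ)} (h : sl 1 eta2 (γ : Mat) = chi γ • eta2) :
    sl 1 eta2 ((γ * g : SL(2, ℤ)) : Mat) = chi (γ * g) • eta2 ∧
      sl 1 eta2 ((γ * g⁻¹ : SL(2, ℤ)) : Mat) = chi (γ * g⁻¹) • eta2 := by
  have h3 : sl 1 eta2 ((g⁻¹ : SL(2, ℤ)) : Mat) = c⁻¹ • eta2 := by
    have a1 := sl_mul 1 eta2 (dch_det g).ne' (dch_det g⁻¹).ne'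
    rw [← Matrix.SpecialLinearGroup.coe_mul, mul_inv_cancel, Matrix.SpecialLinearGroup.coe_one,
      sl_one, h1, sl_smul _ _ _ (dch_det _)] at a1
    exact (eq_inv_smul_iff₀ hc).2 a1.symm
  have h4 : chi (γ * g⁻¹) = chi γ * c⁻¹ := by
    have a1 := h2 (γ * g⁻¹)
    rw [inv_mul_cancel_right] at a1
    rw [a1, mul_inv_cancel_right₀ hc]
  constructor
  · rw [Matrix.SpecialLinearGroup.coe_mul, sl_mul _ _ (dch_det _).ne' (dch_det _).ne', h,
      sl_smul _ _ _ (dch_det _), h1, h2, smul_smul]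
  · rw [Matrix.SpecialLinearGroup.coe_mul, sl_mul _ _ (dch_det _).ne' (dch_det _).ne', h,
      sl_smul _ _ _ (dch_det _), h3, h4, smul_smul]

/-- Sketch: by `phi_spec`, `chi (γ * T) = chi γ * e(1 / 12)` and `chi (γ * S) = chi γ * (-I)`
(`ZMod.stdAddChar_coe`, `AddChar.map_add_eq_mul`), `chi 1 = 1`. So for `g = S, T` the statement for
`γ` is equivalent to the statement for `γ * g` (`sl_mul`, `sl_smul`; for the converse apply
`sl 1 · g⁻¹`, or use injectivity of the action). Conclude with `Subgroup.closure_induction_right`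
and `Matrix.SpecialLinearGroup.SL2Z_generators`. -/
theorem eta2_slash (γ : SL(2, ℤ)) : sl 1 eta2 (γ : Mat) = chi γ • eta2 := by
  have hγ : γ ∈ Subgroup.closure {ModularGroup.S, ModularGroup.T} := by
    rw [SpecialLinearGroup.SL2Z_generators]
    trivial
  have hI : -Complex.I ≠ 0 := neg_ne_zero.2 Complex.I_ne_zero
  induction hγ using Subgroup.closure_induction_right with
  | one =>
    have h1 : chi 1 = 1 := by simp [chi, phi]
    rw [h1, one_smul, Matrix.SpecialLinearGroup.coe_one, sl_one]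
  | mul_right x _ y hy ih =>
    rcases hy with rfl | rfl
    · exact (dch_step hI eta2_S dch_S ih).1
    · exact (dch_step (Complex.exp_ne_zero _) eta2_T dch_T ih).1
  | mul_inv_cancel x _ y hy ih =>
    rcases hy with rfl | rfl
    · exact (dch_step hI eta2_S dch_S ih).2
    · exact (dch_step (Complex.exp_ne_zero _) eta2_T dch_T ih).2

/-- Sketch: `eta2_slash` and `eta2 → 0` (`‖eta2‖ ^ 12 = ‖Δ‖`,
`ModularForm.discriminant_isZeroAtImInfty`). -/
theorem cuspy_eta2 : Cuspy 1 eta2 := by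
  have h0 : IsZeroAtImInfty eta2 := by
    have h1 : Tendsto (fun z : ℍ => ‖ModularForm.discriminant z‖) atImInfty (𝓝 0) :=
      tendsto_zero_iff_norm_tendsto_zero.1 ModularForm.discriminant_isZeroAtImInfty
    have h2 := h1.rpow_const (p := ((12 : ℕ) : ℝ)⁻¹) (Or.inr (by positivity))
    rw [Real.zero_rpow (by positivity)] at h2
    refine tendsto_zero_iff_norm_tendsto_zero.2 (h2.congr fun z => ?_)
    have h3 : ‖ModularForm.discriminant z‖ = ‖eta2 z‖ ^ 12 := by
      rw [← norm_pow, eta2, ← pow_mul]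
      rfl
    rw [h3, Real.pow_rpow_inv_natCast (norm_nonneg _) (by norm_num)]
  refine ⟨eta2_holo, fun γ => ?_⟩
  rw [eta2_slash]
  exact h0.smul _

/-- Sketch: `sl_fun_mul 1 1`, `cuspy_eta2`, `Cuspy.sl`; invariance from `dM_conj`, `eta2_slash` and
the third part of `phi_spec` (`11 = -1` in `ZMod 12`). -/
theorem isCF_f11 : IsCF (Gamma0 11) 2 f11 := by
  have hd : 0 < dM.det := by
    rw [det_dM]
    norm_num
  have hG := cuspy_eta2.sl hd.ne'
  have e : ∀ γ : SL(2, ℤ), sl 2 f11 (γ : Mat) =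
      sl 1 eta2 (γ : Mat) * sl 1 (sl 1 eta2 dM) (γ : Mat) := by
    intro γ
    have h1 := sl_fun_mul 1 1 eta2 (sl 1 eta2 dM) (dch_det γ)
    rw [γ.det_coe, Int.cast_one, one_smul] at h1
    exact h1
  refine ⟨⟨eta2_holo.mul hG.holo, fun γ => ?_⟩, fun γ hγ => ?_⟩
  · rw [e]
    have h1 := Tendsto.mul (cuspy_eta2.zero γ) (hG.zero γ)
    rw [mul_zero] at h1
    exact h1
  · obtain ⟨γ', c, h1, h2, h3⟩ := dM_conj hγ
    have h4 : chi γ * chi γ' = 1 := by
      have a0 : (11 : ZMod 12) = -1 := by decide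
      have a1 : ((γ' 0 0 : ℤ) : ZMod 12) = (γ 0 0 : ℤ) := by
        rw [show γ' 0 0 = γ 0 0 from congrFun (congrFun h2 0) 0]
      have a2 : ((γ' 0 1 : ℤ) : ZMod 12) = -(γ 0 1 : ℤ) := by
        rw [show γ' 0 1 = 11 * γ 0 1 from congrFun (congrFun h2 0) 1]
        push_cast
        rw [a0, neg_one_mul]
      have a3 : ((γ' 1 0 : ℤ) : ZMod 12) = -(γ 1 0 : ℤ) := by
        rw [show γ' 1 0 = c from congrFun (congrFun h2 1) 0, h1]
        push_cast
        rw [a0, neg_one_mul, neg_neg]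
      have a4 : ((γ' 1 1 : ℤ) : ZMod 12) = (γ 1 1 : ℤ) := by
        rw [show γ' 1 1 = γ 1 1 from congrFun (congrFun h2 1) 1]
      rw [chi, chi, ← AddChar.map_add_eq_mul, a1, a2, a3, a4, add_comm,
        (phi_spec _ _ _ _ (dch_det12 γ)).2.2, AddChar.map_zero_eq_one]
    rw [e, ← sl_mul _ _ hd.ne' (dch_det γ).ne', h3, sl_mul _ _ (dch_det γ').ne' hd.ne', eta2_slash,
      eta2_slash, sl_smul _ _ _ hd, smul_mul_smul_comm, h4, one_smul, f11]

/-- Sketch: `sl_fun_mul 1 1`, `S_dM`, `dM_wM`, `sl_mul`, `sl_scalar`, `eta2_S`. -/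
theorem eig_f11 : Eig 2 (-1) f11 := by
  have hd : 0 < dM.det := by
    rw [det_dM]
    norm_num
  have hw : 0 < wM.det := by
    rw [det_wM]
    norm_num
  refine ⟨isCF_f11.cuspy.holo, isCF_f11.inv, ?_⟩
  have h1 := sl_fun_mul 1 1 eta2 (sl 1 eta2 dM) hw
  have h2 : sl 1 eta2 wM = (-Complex.I) • sl 1 eta2 dM := by
    rw [S_dM, sl_mul _ _ (dch_det _).ne' hd.ne', eta2_S, sl_smul _ _ _ hd]
  have h3 : sl 1 (sl 1 eta2 dM) wM = ((11 : ℂ)⁻¹ * -Complex.I) • eta2 := by
    have a1 : ((11 : ℤ) • (1 : Mat)).det ≠ 0 := by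
      rw [Matrix.det_smul, Matrix.det_one]
      norm_num
    rw [← sl_mul _ _ hd.ne' hw.ne', dM_wM, sl_mul _ _ a1 (dch_det _).ne',
      sl_scalar _ _ (by norm_num), sl_smul _ _ _ (dch_det _), eta2_S, smul_smul]
    norm_num
  rw [h2, h3, det_wM, smul_mul_smul_comm, smul_smul, mul_comm (sl 1 eta2 dM)] at h1
  have h4 : ((11 : ℤ) : ℂ) * (-Complex.I * ((11 : ℂ)⁻¹ * -Complex.I)) = -1 := by
    push_cast
    linear_combination Complex.I_mul_I
  rw [h4] at h1
  exact h1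

/-- Sketch: `sl_dM` (or `sl_apply`), `ModularForm.eta_ne_zero`. -/
theorem f11_ne_zero (z : ℍ) : f11 z ≠ 0 := by
  have h : ∀ w : ℍ, eta2 w ≠ 0 := fun w => pow_ne_zero 2 (ModularForm.eta_ne_zero w.2)
  rw [f11, sl_dM, sub_self, zpow_zero, one_smul]
  exact mul_ne_zero (h _) (h _)

end Pool.Agent.Lib.MP_03e5d0_nt.D11
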