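import Pool.Agent.Lib.MP_03e5d0_nt.DPol
import Pool.Agent.Lib.MP_03e5d0_nt.CRat

/-! Point counts of the curve `y ^ 2 + y = x ^ 3 - x ^ 2 - 10 x - 20`. -/

set_option autoImplicit false

noncomputable section

namespace Pool.Agent.Lib.MP_03e5d0_nt.D11

open Finset WeierstrassCurve

/-- The minimal model. -/
def V11 : WeierstrassCurve ℤ := ⟨0, -1, 1, -10, -20⟩

lemma V11_Δ : V11.Δ = -11 ^ 5 := by decide

lemma V11_c₄ : V11.c₄ = 496 := by decide

/-- The number of points modulo `p`. -/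
def Np (p : ℕ) [Fact p.Prime] : ℕ := Nat.card (V11.map (Int.castRingHom (ZMod p))).toAffine.Point

variable {p : ℕ} [hp : Fact p.Prime]

lemma not_dvd_Δ (h : p ≠ 11) : ¬(p : ℤ) ∣ V11.Δ := by
  intro hd
  rw [V11_Δ, dvd_neg] at hd
  have h1 : p ∣ 11 ^ 5 := by exact_mod_cast hd
  exact h ((Nat.prime_dvd_prime_iff_eq hp.out (by norm_num)).1 (hp.out.dvd_of_dvd_pow h1))

lemma dcn_Δ (h : p ≠ 11) : (V11.map (Int.castRingHom (ZMod p))).Δ ≠ 0 := by
  rw [map_Δ, eq_intCast, Ne, ZMod.intCast_zmod_eq_zero_iff_dvd]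
  exact not_dvd_Δ h

lemma dcn_eq (x y : ZMod p) : (V11.map (Int.castRingHom (ZMod p))).toAffine.Equation x y ↔
    y ^ 2 + y = x ^ 3 - x ^ 2 - 10 * x - 20 := by
  rw [Affine.equation_iff]
  simp only [V11, map_a₁, map_a₂, map_a₃, map_a₄, map_a₆, eq_intCast]
  push_cast
  constructor <;> intro h <;> linear_combination h

lemma dcn_fib : #{z : ZMod p × ZMod p | z.2 ^ 2 + z.2 = z.1 ^ 3 - z.1 ^ 2 - 10 * z.1 - 20} =
    ∑ x : ZMod p, #{y : ZMod p | y ^ 2 + y = x ^ 3 - x ^ 2 - 10 * x - 20} := by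
  simp only [card_filter]
  rw [Fintype.sum_prod_type]

lemma dcn_two (c : ZMod p) : #{y : ZMod p | y ^ 2 + y = c} ≤ 2 := by
  by_cases h : ∃ a : ZMod p, a ^ 2 + a = c
  · obtain ⟨a, ha⟩ := h
    refine (card_le_card (t := {a, -1 - a}) fun y hy => ?_).trans card_le_two
    have h1 : (y - a) * (y - (-1 - a)) = 0 := by
      linear_combination (mem_filter.1 hy).2 - ha
    simpa only [mem_insert, mem_singleton, mul_eq_zero, sub_eq_zero] using h1
  · rw [filter_eq_empty_iff.2 fun y _ hy => h ⟨y, hy⟩]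
    exact Nat.zero_le 2

lemma dcn_chi (h2 : p ≠ 2) (c : ZMod p) :
    ((#{y : ZMod p | y ^ 2 + y = c} : ℕ) : ZMod p) = (4 * c + 1) ^ (p / 2) + 1 := by
  have hc : ringChar (ZMod p) ≠ 2 := by rwa [ZMod.ringChar_zmod_n]
  have h20 : (2 : ZMod p) ≠ 0 := Ring.two_ne_zero hc
  have h1 : #{y : ZMod p | y ^ 2 + y = c} = #{Y : ZMod p | Y ^ 2 = 4 * c + 1}.toFinset := by
    refine card_nbij' (fun y => 2 * y + 1) (fun Y => (Y - 1) / 2) (fun y hy => ?_)
      (fun Y hY => ?_) (fun y _ => ?_) fun Y _ => ?_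
    · simp only [coe_filter, mem_univ, true_and, Set.mem_ofPred_eq, Set.coe_toFinset] at hy ⊢
      linear_combination 4 * hy
    · simp only [coe_filter, mem_univ, true_and, Set.mem_ofPred_eq, Set.coe_toFinset] at hY ⊢
      field_simp
      linear_combination hY
    · field_simp
      ring
    · field_simp
      ring
  have h3 := congrArg (Int.cast : ℤ → ZMod p) (quadraticChar_card_sqrts hc (4 * c + 1))
  rw [Int.cast_add, quadraticChar_eq_pow_of_char_ne_two' hc, ZMod.card, Int.cast_natCast,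
    Int.cast_one] at h3
  rw [h1, h3]

lemma dcn_pow {j : ℕ} (hj : j < 2 * (p - 1)) :
    ∑ x : ZMod p, x ^ j = if j = p - 1 then -1 else 0 := by
  have h2 := hp.out.two_le
  split_ifs with h
  · rw [h, ← add_sum_erase _ _ (mem_univ 0), zero_pow (by omega), zero_add,
      sum_congr rfl fun x hx => ZMod.pow_card_sub_one_eq_one (ne_of_mem_erase hx), sum_const,
      card_erase_of_mem (mem_univ _), card_univ, ZMod.card, nsmul_eq_mul, mul_one,
      Nat.cast_pred (by omega), ZMod.natCast_self, zero_sub]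
  · rcases lt_or_gt_of_ne h with h | h
    · exact FiniteField.sum_pow_lt_card_sub_one _ _ (by rwa [ZMod.card])
    · obtain ⟨i, rfl⟩ : ∃ i, j = i + p := ⟨j - p, by omega⟩
      have e : ∀ x : ZMod p, x ^ (i + p) = x ^ (i + 1) := fun x => by
        rw [pow_add, ZMod.pow_card, pow_succ]
      simp only [e]
      exact FiniteField.sum_pow_lt_card_sub_one (ZMod p) (i + 1) (by rw [ZMod.card]; omega)

lemma dcn_dbl {F : Type} [Field F] [DecidableEq F] {W : Affine F} {x y x' y' l : F}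
    (h : W.Nonsingular x y) (h' : W.Nonsingular x' y') (hy : y - W.negY x y ≠ 0)
    (hl : 3 * x ^ 2 + 2 * W.a₂ * x + W.a₄ - W.a₁ * y = l * (y - W.negY x y))
    (hx' : W.addX x x l = x') (hy' : W.addY x x y l = y') :
    Affine.Point.some _ _ h + Affine.Point.some _ _ h = Affine.Point.some _ _ h' := by
  have hs : W.slope x x y y = l := by
    rw [Affine.slope_of_Y_ne rfl (sub_ne_zero.1 hy), div_eq_iff hy, hl]
  rw [Affine.Point.add_self_of_Y_ne (sub_ne_zero.1 hy)]
  simp only [hs, hx', hy']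

/-- Sketch: `card_point_eq`. -/
theorem Np_eq (h : p ≠ 11) : Np p = #{z : ZMod p × ZMod p |
    z.2 ^ 2 + z.2 = z.1 ^ 3 - z.1 ^ 2 - 10 * z.1 - 20} + 1 := by
  have e := Nat.card_congr (Equiv.subtypeEquivRight fun z : ZMod p × ZMod p => dcn_eq z.1 z.2)
  rw [Nat.card_eq_fintype_card (α := {z : ZMod p × ZMod p //
    z.2 ^ 2 + z.2 = z.1 ^ 3 - z.1 ^ 2 - 10 * z.1 - 20}), Fintype.card_subtype] at e
  exact (card_point_eq (V11.map (Int.castRingHom (ZMod p))) (dcn_Δ h)).trans (congrArg (· + 1) e)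

/-- Sketch: `Np_eq`; each fibre over `x` has at most two points (roots of a monic quadratic). -/
theorem Np_le (h : p ≠ 11) : 1 ≤ Np p ∧ Np p ≤ 2 * p + 1 := by
  rw [Np_eq h, dcn_fib]
  refine ⟨Nat.le_add_left _ _, Nat.succ_le_succ ?_⟩
  refine (sum_le_card_nsmul _ _ 2 fun x _ => dcn_two _).trans ?_
  rw [card_univ, ZMod.card, smul_eq_mul, mul_comm]

/-- Sketch: `Np_eq`; `Y = 2 y + 1`; the fibre over `x` has `χ(P x) + 1` points
(`quadraticChar_card_sqrts`), `χ(a) = a ^ (p / 2)` in `ZMod p`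
(`quadraticChar_eq_pow_of_char_ne_two'`), `hom_pow` with `s = 1`, and `∑ x, x ^ j` is `-1` for
`j = p - 1` and `0` for the other `j < 2 (p - 1)` (`FiniteField.sum_pow_lt_card_sub_one`,
`FiniteField.sum_pow_units`, `ZMod.pow_card`). -/
theorem Np_modp (h2 : p ≠ 2) (h : p ≠ 11) :
    (p + 1 - Np p : ZMod p) = (cP (p / 2) (p - 1) : ZMod p) := by
  have h3 := hp.out.two_le
  have h4 := hp.out.eq_two_or_odd.resolve_left h2
  have h5 : ∀ x : ZMod p, (4 * (x ^ 3 - x ^ 2 - 10 * x - 20) + 1) ^ (p / 2) =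
      ∑ j ∈ range (3 * (p / 2) + 1), (cP (p / 2) j : ZMod p) * x ^ j := by
    intro x
    have h6 := hom_pow (p / 2) x 1
    simp only [one_pow, mul_one] at h6
    rw [← h6]
    exact congrArg (· ^ (p / 2)) (by ring)
  rw [Np_eq h, dcn_fib, Nat.cast_add, Nat.cast_sum]
  simp only [dcn_chi h2, h5]
  rw [sum_add_distrib, sum_comm, sum_const, card_univ, ZMod.card,
    sum_congr rfl fun j hj => by
      rw [← mul_sum, dcn_pow (by have := mem_range.1 hj; omega), mul_ite, mul_zero],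
    sum_ite_eq', if_pos (mem_range.2 (by omega))]
  simp

/-- Sketch: `P = (5, 5)`, `P + P = (16, -61)` (slope `5`), `(P + P) + (P + P) = (5, -6) = -P`
(slope `-6`), by `Affine.Point.add_self_of_Y_ne` and `Affine.slope_of_Y_ne`, as `11 ≠ 0`. So
`addOrderOf P = 5` (`addOrderOf_eq_prime`) divides the number of points
(`addOrderOf_dvd_natCard`). -/
theorem five_dvd_Np (h : p ≠ 11) : 5 ∣ Np p := by
  classical
  have h11 : (11 : ZMod p) ≠ 0 := fun h0 =>
    h ((Nat.prime_dvd_prime_iff_eq hp.out (by norm_num)).1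
      ((ZMod.natCast_eq_zero_iff 11 p).1 (by exact_mod_cast h0)))
  have hn : ∀ x y : ZMod p, y ^ 2 + y = x ^ 3 - x ^ 2 - 10 * x - 20 →
      (V11.map (Int.castRingHom (ZMod p))).toAffine.Nonsingular x y := fun x y e =>
    (Affine.equation_iff_nonsingular_of_Δ_ne_zero (dcn_Δ h)).1 ((dcn_eq x y).2 e)
  have hP := hn 5 5 (by norm_num)
  have hQ := hn 16 (-61) (by norm_num)
  have hR := hn 5 (-6) (by norm_num)
  have a1 : (V11.map (Int.castRingHom (ZMod p))).toAffine.a₁ = 0 := by simp [V11]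
  have a2 : (V11.map (Int.castRingHom (ZMod p))).toAffine.a₂ = -1 := by simp [V11]
  have a3 : (V11.map (Int.castRingHom (ZMod p))).toAffine.a₃ = 1 := by simp [V11]
  have a4 : (V11.map (Int.castRingHom (ZMod p))).toAffine.a₄ = -10 := by simp [V11]
  have e1 := dcn_dbl (l := 5) hP hQ
    (by rw [Affine.negY, a1, a3]; exact fun e => h11 (by linear_combination e))
    (by rw [Affine.negY, a1, a2, a3, a4]; norm_num) (by rw [Affine.addX, a1, a2]; norm_num)
    (by rw [Affine.addY, Affine.negY, Affine.negAddY, Affine.addX, a1, a2, a3]; norm_num)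
  have e2 := dcn_dbl (l := -6) hQ hR
    (by rw [Affine.negY, a1, a3]; exact fun e => mul_ne_zero h11 h11 (by linear_combination -e))
    (by rw [Affine.negY, a1, a2, a3, a4]; norm_num) (by rw [Affine.addX, a1, a2]; norm_num)
    (by rw [Affine.addY, Affine.negY, Affine.negAddY, Affine.addX, a1, a2, a3]; norm_num)
  have e3 : Affine.Point.some _ _ hR + Affine.Point.some _ _ hP = 0 :=
    Affine.Point.add_of_Y_eq rfl (by rw [Affine.negY, a1, a3]; norm_num)
  have : Fact (Nat.Prime 5) := ⟨by norm_num⟩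
  have e4 : addOrderOf (Affine.Point.some _ _ hP) = 5 := by
    refine addOrderOf_eq_prime ?_ (Affine.Point.some_ne_zero hP)
    rw [← e3, ← e2, ← e1]
    abel
  rw [← e4]
  exact addOrderOf_dvd_natCard _

theorem Np_two [Fact (Nat.Prime 2)] : Np 2 = 5 := by
  rw [Np_eq (by norm_num)]
  decide +revert

theorem Np_five [Fact (Nat.Prime 5)] : Np 5 = 5 := by
  rw [Np_eq (by norm_num)]
  decide +revert

end Pool.Agent.Lib.MP_03e5d0_nt.D11
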