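import Pool.Agent.Lib.MP_03e5d0_nt.DDefs

/-! The first coefficients. -/

set_option autoImplicit false

noncomputable section

namespace Pool.Agent.Lib.MP_03e5d0_nt.D11

open Finset CongruenceSubgroup UpperHalfPlane PowerSeries Filter Asymptotics
open Pool.Agent.Lib.MP_88d29b_nt.G
open scoped MatrixGroups ModularForm Manifold Topology Real

lemma dco_pent : X ^ 5 ∣ pentagonalSeries ℤ - (1 - X - X ^ 2) := by
  have h0 : coeff 0 (pentagonalSeries ℤ) = 1 := by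
    simpa [pentagonal_def] using coeff_pentagonalSeries_pentagonal ℤ 0
  have h1 : coeff 1 (pentagonalSeries ℤ) = -1 := by
    simpa [pentagonal_def] using coeff_pentagonalSeries_pentagonal ℤ 1
  have h2 : coeff 2 (pentagonalSeries ℤ) = -1 := by
    simpa [pentagonal_def] using coeff_pentagonalSeries_pentagonal ℤ (-1)
  have h34 : ∀ n : ℕ, n = 3 ∨ n = 4 → coeff n (pentagonalSeries ℤ) = 0 := by
    intro n hn
    refine coeff_pentagonalSeries_eq_zero ℤ ?_
    rintro ⟨k, hk⟩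
    have h := two_mul_natCast_pentagonal k
    rw [hk] at h
    have h5 : -2 < k := by rcases hn with rfl | rfl <;> push_cast at h <;> nlinarith
    have h6 : k < 2 := by rcases hn with rfl | rfl <;> push_cast at h <;> nlinarith
    rcases hn with rfl | rfl <;> interval_cases k <;> omega
  rw [X_pow_dvd_iff]
  intro m hm
  interval_cases m
  · simp [coeff_X_pow, coeff_one, coeff_X, -coeff_zero_eq_constantCoeff, h0]
  · simp [coeff_X_pow, coeff_one, h1]
  · simp [coeff_X_pow, coeff_one, coeff_X, h2]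
  · simp [coeff_X_pow, coeff_one, coeff_X, h34 3 (Or.inl rfl)]
  · simp [coeff_X_pow, coeff_one, coeff_X, h34 4 (Or.inr rfl)]

lemma dco_exp {φ : ℤ⟦X⟧} (h : constantCoeff φ = 1) :
    X ^ 5 ∣ PowerSeries.expand 11 (by norm_num) φ - 1 := by
  rw [X_pow_dvd_iff]
  intro m hm
  rw [map_sub, coeff_expand, coeff_one]
  interval_cases m <;> simp [h]

lemma dco_coeff {φ ψ : ℤ⟦X⟧} (h : X ^ 5 ∣ φ - ψ) {m : ℕ} (hm : m < 5) :
    coeff m φ = coeff m ψ := by
  have h1 := X_pow_dvd_iff.1 h m hm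
  rwa [map_sub, sub_eq_zero] at h1

lemma dco_num (c : ℤ) (n m : ℕ) :
    coeff m ((c : ℤ⟦X⟧) * X ^ n) = if m = n then c else 0 := by
  rw [← eq_intCast (C : ℤ →+* ℤ⟦X⟧), coeff_C_mul, coeff_X_pow]
  simp

lemma dco_g (m : ℕ) : coeff m (1 - 2 * X - X ^ 2 + 2 * X ^ 3 + X ^ 4 : ℤ⟦X⟧) =
    (if m = 0 then 1 else 0) + (if m = 1 then -2 else 0) + (if m = 2 then -1 else 0) +
      (if m = 3 then 2 else 0) + (if m = 4 then 1 else 0) := by
  rw [← dco_num, ← dco_num, ← dco_num, ← dco_num, ← dco_num, ← map_add, ← map_add, ← map_add,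
    ← map_add]
  congr 1
  push_cast
  ring

lemma dco_E (m : ℕ) : coeff m (10 + 24 * X + 72 * X ^ 2 + 96 * X ^ 3 + 168 * X ^ 4 : ℤ⟦X⟧) =
    (if m = 0 then 10 else 0) + (if m = 1 then 24 else 0) + (if m = 2 then 72 else 0) +
      (if m = 3 then 96 else 0) + (if m = 4 then 168 else 0) := by
  rw [← dco_num, ← dco_num, ← dco_num, ← dco_num, ← dco_num, ← map_add, ← map_add, ← map_add,
    ← map_add]
  congr 1
  push_cast
  ring

lemma dco_ES (m : ℕ) : coeff m ES =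
    11 * (if 11 ∣ m then coeff (m / 11) e2S else 0) - coeff m e2S := by
  rw [ES, map_sub, ← coeff_expand (p := 11) (hp := by norm_num)]
  congr 1
  exact coeff_C_mul m _ (11 : ℤ)

/-- Sketch: `X ^ 5 ∣ pentagonalSeries ℤ - (1 - X - X ^ 2)` from
`coeff_pentagonalSeries_pentagonal` (`k = 0, 1, -1`) and `coeff_pentagonalSeries_eq_zero` (`3` and
`4` are not pentagonal); `X ^ 5 ∣ expand 11 φ - 1` by `coeff_expand`. -/
theorem gS_mod : X ^ 5 ∣ gS - (1 - 2 * X - X ^ 2 + 2 * X ^ 3 + X ^ 4) := by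
  obtain ⟨u, hu⟩ := dco_pent
  have h0 : constantCoeff (pentagonalSeries ℤ ^ 2) = 1 := by
    have h1 := dco_coeff dco_pent (m := 0) (by norm_num)
    rw [coeff_zero_eq_constantCoeff] at h1
    rw [map_pow, h1]
    simp
  obtain ⟨v, hv⟩ := dco_exp h0
  rw [sub_eq_iff_eq_add] at hu hv
  rw [gS, hv, hu]
  exact ⟨u * (X ^ 5 * u + 2 * (1 - X - X ^ 2)) + v * (X ^ 5 * u + (1 - X - X ^ 2)) ^ 2, by ring⟩

theorem ES_mod : X ^ 5 ∣ ES - (10 + 24 * X + 72 * X ^ 2 + 96 * X ^ 3 + 168 * X ^ 4) := by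
  rw [X_pow_dvd_iff]
  intro m hm
  rw [map_sub, dco_ES, dco_E]
  have h1 : ArithmeticFunction.sigma 1 1 = 1 := by decide
  have h2 : ArithmeticFunction.sigma 1 2 = 3 := by decide
  have h3 : ArithmeticFunction.sigma 1 3 = 4 := by decide
  have h4 : ArithmeticFunction.sigma 1 4 = 7 := by decide
  interval_cases m <;> simp [e2S, h1, h2, h3, h4, -coeff_zero_eq_constantCoeff]

theorem constantCoeff_gS : constantCoeff gS = 1 := by
  rw [← coeff_zero_eq_constantCoeff_apply, dco_coeff gS_mod (by norm_num), dco_g]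
  simp

theorem constantCoeff_LS : constantCoeff LS = 10 := by
  have h : constantCoeff ES = 10 := by
    rw [← coeff_zero_eq_constantCoeff_apply, dco_coeff ES_mod (by norm_num), dco_E]
    simp
  simp [LS, fS, h]

theorem aS_zero : aS 0 = 0 := by
  simp [aS, fS]

theorem aS_succ (n : ℕ) : aS (n + 1) = coeff n gS := by
  rw [aS, fS, coeff_succ_X_mul]

theorem aS_one : aS 1 = 1 := by
  rw [aS_succ 0, dco_coeff gS_mod (by norm_num), dco_g]
  simp

theorem aS_two : aS 2 = -2 := by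
  rw [aS_succ 1, dco_coeff gS_mod (by norm_num), dco_g]
  simp

theorem aS_five : aS 5 = 1 := by
  rw [aS_succ 4, dco_coeff gS_mod (by norm_num), dco_g]
  simp

theorem coeff_LS_prime {p : ℕ} (hp : p.Prime) (h : p ≠ 11) : coeff p LS = 24 * (p + 1 - aS p) := by
  have h1 : ¬ 11 ∣ p := fun h2 =>
    h ((Nat.prime_dvd_prime_iff_eq (by norm_num) hp).1 h2).symm
  have h2 : coeff p (24 * fS) = 24 * aS p := coeff_C_mul p _ (24 : ℤ)
  have h3 : ArithmeticFunction.sigma 1 p = p + 1 := by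
    rw [ArithmeticFunction.sigma_one_apply, hp.sum_divisors]
  rw [LS, map_sub, dco_ES, if_neg h1, h2, e2S, coeff_mk, if_neg hp.ne_zero, h3]
  push_cast
  ring

/-- The difference of the two sides of the equation of the modular curve. -/
def eqn {A : Type*} [CommRing A] (L f L' f' : A) : A :=
  100 * (L' * f - L * f') ^ 2 - f ^ 2 * (L ^ 4 - 40 * L ^ 3 * f - 8800 * L ^ 2 * f ^ 2 -
    300000 * L * f ^ 3 - 3040000 * f ^ 4)

/-- Sketch: `fS = X gS`, `th fS = X (gS + th gS)`, so `eqn = X ^ 2 * (...)`. In the quotient ring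
by `X ^ 5` (or by writing `gS = g0 + X ^ 5 u`, `LS = L0 + X ^ 5 v`, `th_dvd`) one has
`gS = 1 - 2 X - X ^ 2 + 2 X ^ 3 + X ^ 4`, `th gS = -2 X - 2 X ^ 2 + 6 X ^ 3 + 4 X ^ 4`,
`LS = 10 + 120 (X ^ 2 + X ^ 3 + X ^ 4)`, `th LS = 120 (2 X ^ 2 + 3 X ^ 3 + 4 X ^ 4)`. -/
theorem eqn_dvd : X ^ 7 ∣ eqn LS fS (th LS) (th fS) := by
  have hg := gS_mod
  have hL : X ^ 5 ∣ LS - (10 + 120 * X ^ 2 + 120 * X ^ 3 + 120 * X ^ 4) := by
    obtain ⟨u, hu⟩ := gS_mod
    obtain ⟨v, hv⟩ := ES_mod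
    rw [sub_eq_iff_eq_add] at hu hv
    rw [LS, fS, hu, hv]
    exact ⟨v - 24 * X * u - 24, by ring⟩
  have hX : ∀ n : ℕ, th (X ^ (n + 1) : ℤ⟦X⟧) = ((n : ℤ⟦X⟧) + 1) * (X : ℤ⟦X⟧) ^ (n + 1) := by
    intro n
    rw [th_pow_succ, th_X]
    ring
  have hg' : X ^ 5 ∣ th gS - (-2 * X - 2 * X ^ 2 + 6 * X ^ 3 + 4 * X ^ 4) := by
    have h := th_dvd hg
    rw [th_sub gS, th_add, th_add, th_sub, th_sub, th_mul, th_mul, th_one, th_ofNat, th_X, hX 1,
      hX 2, hX 3] at h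
    convert h using 2
    push_cast
    ring
  have hL' : X ^ 5 ∣ th LS - (240 * X ^ 2 + 360 * X ^ 3 + 480 * X ^ 4) := by
    have h := th_dvd hL
    rw [th_sub LS, th_add, th_add, th_add, th_mul, th_mul, th_mul, th_ofNat, th_ofNat, hX 1,
      hX 2, hX 3] at h
    convert h using 2
    push_cast
    ring
  have e : eqn LS fS (th LS) (th fS) = X ^ 2 * (100 * (th LS * gS - LS * (gS + th gS)) ^ 2 -
      gS ^ 2 * (LS ^ 4 - 40 * LS ^ 3 * (X * gS) - 8800 * LS ^ 2 * (X * gS) ^ 2 -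
        300000 * LS * (X * gS) ^ 3 - 3040000 * (X * gS) ^ 4)) := by
    rw [eqn, fS, th_mul, th_X]
    ring
  rw [e, show (X ^ 7 : ℤ⟦X⟧) = X ^ 2 * X ^ 5 by ring]
  refine mul_dvd_mul_left _ ?_
  rw [← Ideal.mem_span_singleton, ← Ideal.Quotient.eq] at hg hL hg' hL'
  rw [← Ideal.Quotient.eq_zero_iff_dvd]
  have hx : Ideal.Quotient.mk (Ideal.span {(X ^ 5 : ℤ⟦X⟧)}) X ^ 5 = 0 := by
    rw [← map_pow, Ideal.Quotient.eq_zero_iff_dvd]
  simp only [map_sub, map_add, map_mul, map_pow, map_neg, map_one, map_ofNat] at hg hL hg' hL' ⊢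
  rw [hg, hL, hg', hL']
  generalize Ideal.Quotient.mk (Ideal.span {(X ^ 5 : ℤ⟦X⟧)}) X = x at hx ⊢
  linear_combination ((1240000) * x ^ 0 + (-4400000) * x ^ 1 + (-23000000) * x ^ 2 +
      (33040000) * x ^ 3 + (145920000) * x ^ 4 + (199760000) * x ^ 5 +
      (130560000) * x ^ 6 + (-603920000) * x ^ 7 + (-1813760000) * x ^ 8 +
      (-3162640000) * x ^ 9 + (252120000) * x ^ 10 + (3703200000) * x ^ 11 +
      (7524560000) * x ^ 12 + (17393200000) * x ^ 13 + (9328360000) * x ^ 14 +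
      (-21208560000) * x ^ 15 + (-32287800000) * x ^ 16 + (-12498160000) * x ^ 17 +
      (5943480000) * x ^ 18 + (7755840000) * x ^ 19 + (3259840000) * x ^ 20 +
      (686880000) * x ^ 21 + (72480000) * x ^ 22 + (3040000) * x ^ 23) * hx

end Pool.Agent.Lib.MP_03e5d0_nt.D11
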