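import Pool.Agent.Lib.MP_03e5d0_nt.DPol
import Pool.Agent.Lib.MP_88d29b_nt.GQ2
import Pool.Agent.Lib.MP_88d29b_nt.GSturm
import Pool.Agent.Lib.MP_88d29b_nt.G0Cov

/-! The forms of level eleven and their formal expansions. -/

set_option autoImplicit false

noncomputable section

namespace Pool.Agent.Lib.MP_03e5d0_nt.D11

open Finset CongruenceSubgroup UpperHalfPlane PowerSeries Filter Asymptotics
open Pool.Agent.Lib.MP_88d29b_nt.G
open scoped MatrixGroups ModularForm Manifold Topology Real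

/-- The matrix of `z ↦ 11 z`. -/
def dM : Mat := !![11, 0; 0, 1]

/-- The Fricke matrix of level eleven. -/
def wM : Mat := !![0, -1; 11, 0]

lemma det_dM : dM.det = 11 := by simp [dM, Matrix.det_fin_two_of]

lemma det_wM : wM.det = 11 := by simp [wM, Matrix.det_fin_two_of]

/-- The square of the eta function. -/
def eta2 (z : ℍ) : ℂ := ModularForm.eta z ^ 2

/-- The cusp form `η(z) ^ 2 η(11 z) ^ 2`. -/
def f11 : ℍ → ℂ := eta2 * sl 1 eta2 dM

/-- The Eisenstein series `11 E₂(11 z) - E₂(z)`. -/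
def E11 : ℍ → ℂ := sl 2 EisensteinSeries.E2 dM - EisensteinSeries.E2

/-- The normalised derivative. -/
abbrev DD (F : ℍ → ℂ) : ℍ → ℂ := Derivative.normalizedDerivOfComplex F

/-- Holomorphic, invariant under `Γ₀(11)` and an eigenfunction of the Fricke involution. -/
structure Eig (k : ℤ) (c : ℂ) (F : ℍ → ℂ) : Prop where
  holo : MDifferentiable 𝓘(ℂ) 𝓘(ℂ) F
  inv : Inv (Gamma0 11) k F
  fricke : sl k F wM = c • F

/-- The function `F` has the integral expansion `φ`. -/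
def QP (F : ℍ → ℂ) (φ : ℤ⟦X⟧) : Prop := QS F fun n => ((coeff n φ : ℤ) : ℂ)

/-- The series `∏ (1 - q ^ n) ^ 2 (1 - q ^ (11 n)) ^ 2`. -/
def gS : ℤ⟦X⟧ :=
  pentagonalSeries ℤ ^ 2 * PowerSeries.expand 11 (by norm_num) (pentagonalSeries ℤ ^ 2)

/-- The expansion of `f11`. -/
def fS : ℤ⟦X⟧ := X * gS

/-- The expansion of `E₂`. -/
def e2S : ℤ⟦X⟧ := PowerSeries.mk fun n => if n = 0 then 1 else -24 * (ArithmeticFunction.sigma 1 n : ℤ)

/-- The expansion of `E11`. -/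
def ES : ℤ⟦X⟧ := 11 * PowerSeries.expand 11 (by norm_num) e2S - e2S

/-- The expansion of `E11 - 24 f11`. -/
def LS : ℤ⟦X⟧ := ES - 24 * fS

/-- The coefficients of `f11`. -/
def aS (n : ℕ) : ℤ := coeff n fS

lemma sl_fun_mul (k l : ℤ) (F G : ℍ → ℂ) {g : Mat} (h : 0 < g.det) :
    sl (k + l) (F * G) g = (g.det : ℂ) • (sl k F g * sl l G g) := by
  ext z
  have h1 : (g.det : ℂ) ≠ 0 := by exact_mod_cast h.ne'
  have h2 := den_ne_zero h.ne' z
  simp only [sl_apply _ _ h, Pi.mul_apply, Pi.smul_apply, smul_eq_mul]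
  rw [show k + l - 1 = (k - 1) + (l - 1) + 1 by ring, neg_add, zpow_add₀ h2, zpow_add_one₀ h1,
    zpow_add₀ h1]
  ring

lemma sl_sub (k : ℤ) (F G : ℍ → ℂ) (g : Mat) : sl k (F - G) g = sl k F g - sl k G g := by
  rw [eq_sub_iff_add_eq, ← sl_add, sub_add_cancel]

lemma sl_dM (k : ℤ) (F : ℍ → ℂ) :
    sl k F dM = (11 : ℂ) ^ (k - 1) • fun z : ℍ => F (ofComplex (((11 : ℕ) : ℂ) * z)) := by
  ext z
  rw [dM, sl_upper k F 0 (by norm_num) one_pos]
  simp

/-- Conjugation by `dM`. -/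
lemma dM_conj {γ : SL(2, ℤ)} (hγ : γ ∈ Gamma0 11) : ∃ (γ' : SL(2, ℤ)) (c : ℤ),
    γ 1 0 = 11 * c ∧ (γ' : Mat) = !![γ 0 0, 11 * γ 0 1; c, γ 1 1] ∧
      dM * (γ : Mat) = (γ' : Mat) * dM := by
  obtain ⟨c, hc⟩ := g0cov_mem0.1 hγ
  have hd := γ.det_coe
  rw [Matrix.det_fin_two, hc] at hd
  refine ⟨⟨!![γ 0 0, 11 * γ 0 1; c, γ 1 1], ?_⟩, c, hc, rfl, ?_⟩
  · rw [Matrix.det_fin_two_of]
    push_cast at hd
    linear_combination hd
  · ext i j
    fin_cases i <;> fin_cases j <;> simp [dM, Matrix.mul_apply, Fin.sum_univ_two, hc, mul_comm]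

lemma dM_wM : dM * wM = (11 : ℤ) • (1 : Mat) * (ModularGroup.S : Mat) := by
  rw [smul_mul_assoc, one_mul]
  ext i j
  fin_cases i <;> fin_cases j <;> simp [dM, wM, ModularGroup.S, Matrix.mul_apply, Fin.sum_univ_two]

lemma S_dM : wM = (ModularGroup.S : Mat) * dM := by
  ext i j
  fin_cases i <;> fin_cases j <;> simp [dM, wM, ModularGroup.S, Matrix.mul_apply, Fin.sum_univ_two]

end Pool.Agent.Lib.MP_03e5d0_nt.D11
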