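import Pool.Agent.Lib.MP_03e5d0_nt.DQ

/-! The Eisenstein series of weight two and level eleven. -/

set_option autoImplicit false

noncomputable section

namespace Pool.Agent.Lib.MP_03e5d0_nt.D11

open Finset CongruenceSubgroup UpperHalfPlane PowerSeries Filter Asymptotics
open Pool.Agent.Lib.MP_88d29b_nt.G
open scoped MatrixGroups ModularForm Manifold Topology Real

/-- Sketch: `EisensteinSeries.E2_eq_tsum_cexp`; summability from `σ 1 n ≤ n ^ 2`
(`ArithmeticFunction.sigma_le_pow_succ`, `summable_norm_pow_mul_geometric_of_norm_lt_one`),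
`tsum_pnat_eq_tsum_succ` or `hasSum_nat_add_iff' 1`. -/
theorem qp_E2 : QP EisensteinSeries.E2 e2S := by
  intro z
  convert EisensteinSeries.hasSum_qExpansion_E2 (z := z) using 2 with n
  beta_reduce
  rw [smul_eq_mul, ← Complex.exp_nat_mul, e2S, coeff_mk]
  congr 1
  · split_ifs <;> simp
  · congr 1
    ring

/-- Sketch: `sl_dM`, `QP.dil`, `QP.smul 11`, `QP.sub`. -/
theorem qp_E11 : QP E11 ES := by
  have h := (qp_E2.dil.smul 11).sub qp_E2
  rw [E11, sl_dM]
  simpa [ES] using h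

lemma de2_pos : 0 < dM.det := by rw [det_dM]; norm_num

lemma de2_sl (f : ℍ → ℂ) (z : ℍ) : sl 2 f dM z = 11 * f (sm dM z) := by
  rw [sl_apply 2 f de2_pos, det_dM]
  simp [dM, mul_comm]

lemma de2_sm (z : ℍ) : (sm dM z : ℂ) = 11 * z := by
  rw [coe_sm de2_pos]
  simp [dM]

lemma de2_D2 (γ : SL(2, ℤ)) (z : ℍ) : EisensteinSeries.D2 γ z =
    2 * π * Complex.I * (γ 1 0 : ℂ) / ((γ 1 0 : ℂ) * z + (γ 1 1 : ℂ)) := by
  simp [EisensteinSeries.D2, ModularGroup.denom_apply]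

lemma de2_conj {γ γ' : SL(2, ℤ)} (h1 : γ 1 0 = 11 * γ' 1 0) (h2 : γ' 1 1 = γ 1 1) :
    sl 2 (EisensteinSeries.D2 γ') dM = EisensteinSeries.D2 γ := by
  ext z
  rw [de2_sl, de2_D2, de2_D2, de2_sm, h1, h2]
  push_cast
  rw [← mul_div_assoc]
  congr 1 <;> ring

lemma de2_S : sl 2 (EisensteinSeries.D2 ModularGroup.S) dM = EisensteinSeries.D2 ModularGroup.S := by
  ext z
  rw [de2_sl, EisensteinSeries.D2_S, EisensteinSeries.D2_S, de2_sm, ← mul_div_assoc,
    mul_div_mul_left _ _ (by norm_num)]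

lemma de2_det (γ : SL(2, ℤ)) : (γ : Mat).det ≠ 0 := by
  rw [γ.det_coe]
  exact one_ne_zero

/-- Sketch: `EisensteinSeries.E2_slash_action` (through `sl_SL`), `dM_conj`, `S_dM`, `dM_wM`,
`sl_scalar`; the defects cancel because `sl 2 (D2 γ') dM = D2 γ` and `sl 2 (D2 S) dM = D2 S`
(`sl_dM`). -/
theorem eig_E11 : Eig 2 (-1) E11 := by
  refine ⟨qs_holo qp_E11, fun γ hγ => ?_, ?_⟩
  · obtain ⟨γ', c, h1, h2, h3⟩ := dM_conj hγ
    have h4 : γ' 1 0 = c := by
      have := congrFun (congrFun h2 1) 0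
      simpa using this
    have h5 : γ' 1 1 = γ 1 1 := by
      have := congrFun (congrFun h2 1) 1
      simpa using this
    rw [E11, sl_sub, ← sl_mul 2 _ de2_pos.ne' (de2_det γ), h3, sl_mul 2 _ (de2_det γ') de2_pos.ne',
      sl_SL, sl_SL, EisensteinSeries.E2_slash_action, EisensteinSeries.E2_slash_action, sl_sub,
      sl_smul 2 _ _ de2_pos, de2_conj (h4 ▸ h1) h5]
    abel
  · have h1 : ((11 : ℤ) • (1 : Mat)).det ≠ 0 := by
      rw [Matrix.det_smul, Matrix.det_one]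
      norm_num
    have h2 : wM.det ≠ 0 := by rw [det_wM]; norm_num
    rw [E11, sl_sub, ← sl_mul 2 _ de2_pos.ne' h2, dM_wM, sl_mul 2 _ h1 (de2_det _),
      sl_scalar 2 _ (by norm_num), sub_self, zpow_zero, one_smul, S_dM,
      sl_mul 2 _ (de2_det _) de2_pos.ne', sl_SL, EisensteinSeries.E2_slash_action, sl_sub,
      sl_smul 2 _ _ de2_pos, de2_S, neg_one_smul]
    abel

end Pool.Agent.Lib.MP_03e5d0_nt.D11
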