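import Pool.Agent.Lib.MP_03e5d0_nt.DDefs

/-! Products and brackets of eigenfunctions of the Fricke involution. -/

set_option autoImplicit false

noncomputable section

namespace Pool.Agent.Lib.MP_03e5d0_nt.D11

open Finset CongruenceSubgroup UpperHalfPlane PowerSeries Filter Asymptotics
open Pool.Agent.Lib.MP_88d29b_nt.G
open scoped MatrixGroups ModularForm Manifold Topology Real

variable {k l : ℤ} {c d : ℂ} {F G : ℍ → ℂ}

theorem dei_wM : 0 < wM.det := by
  rw [det_wM]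
  norm_num

theorem dei_SL (γ : SL(2, ℤ)) : 0 < (γ : Mat).det := by
  rw [γ.det_coe]
  exact one_pos

theorem Eig.add (h : Eig k c F) (h' : Eig k c G) : Eig k c (F + G) := by
  exact ⟨h.holo.add h'.holo, h.inv.add h'.inv, by rw [sl_add, h.fricke, h'.fricke, smul_add]⟩

theorem Eig.sub (h : Eig k c F) (h' : Eig k c G) : Eig k c (F - G) := by
  exact ⟨h.holo.sub h'.holo, fun γ hγ => by rw [sl_sub, h.inv γ hγ, h'.inv γ hγ],
    by rw [sl_sub, h.fricke, h'.fricke, smul_sub]⟩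

theorem Eig.smul (t : ℂ) (h : Eig k c F) : Eig k c (t • F) := by
  exact ⟨h.holo.const_smul t, h.inv.smul t, by rw [sl_smul k t F dei_wM, h.fricke, smul_comm]⟩

/-- Sketch: `sl_fun_mul`. -/
theorem Eig.mul (h : Eig k c F) (h' : Eig l d G) : Eig (k + l) (11 * c * d) (F * G) := by
  refine ⟨h.holo.mul h'.holo, fun γ hγ => ?_, ?_⟩
  · rw [sl_fun_mul k l F G (dei_SL γ), h.inv γ hγ, h'.inv γ hγ, γ.det_coe, Int.cast_one, one_smul]
  · rw [sl_fun_mul k l F G dei_wM, h.fricke, h'.fricke, det_wM]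
    ext z
    simp only [Pi.smul_apply, Pi.mul_apply, smul_eq_mul]
    push_cast
    ring

theorem dei_D (hF : MDifferentiable 𝓘(ℂ) 𝓘(ℂ) F) {g : Mat} (hg : 0 < g.det) (z : ℍ) :
    sl 4 (DD F) g z = (g.det : ℂ) * (DD (sl 2 F g) z +
      2 * (2 * π * Complex.I)⁻¹ * (toGL g 1 0 / denom (toGL g) z) * sl 2 F g z) := by
  have e : (toGL g).val.det = (g.det : ℝ) := by
    rw [← Matrix.GeneralLinearGroup.val_det_apply, toGL_det hg.ne']
  have h1 : (g.det : ℂ) ≠ 0 := by exact_mod_cast hg.ne'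
  have h := congrFun (Derivative.normalizedDerivOfComplex_slash (k := 2) hF (g := toGL g)
    (by rw [e]; exact_mod_cast hg)) z
  rw [e] at h
  change DD (sl 2 F g) z = _ * sl 4 (DD F) g z - _ * sl 2 F g z at h
  rw [h, Complex.ofReal_intCast, Int.cast_ofNat, sub_add_cancel, mul_inv_cancel_left₀ h1]

/-- Sketch: `Derivative.normalizedDerivOfComplex_slash` for `toGL g` (`val_toGL`, `toGL_det_pos`)
expresses `sl 4 (DD F) g`; use `sl_fun_mul 4 2` and `sl_fun_mul 2 4`. -/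
theorem sl_bracket (hF : MDifferentiable 𝓘(ℂ) 𝓘(ℂ) F) (hG : MDifferentiable 𝓘(ℂ) 𝓘(ℂ) G) {g : Mat}
    (hg : 0 < g.det) : sl 6 (DD F * G - F * DD G) g =
      (g.det : ℂ) ^ 2 • (DD (sl 2 F g) * sl 2 G g - sl 2 F g * DD (sl 2 G g)) := by
  have e1 := sl_fun_mul 4 2 (DD F) G hg
  have e2 := sl_fun_mul 2 4 F (DD G) hg
  rw [show (4 : ℤ) + 2 = 6 by norm_num] at e1
  rw [show (2 : ℤ) + 4 = 6 by norm_num] at e2
  rw [sl_sub, e1, e2]
  ext z
  simp only [Pi.smul_apply, Pi.mul_apply, Pi.sub_apply, smul_eq_mul, dei_D hF hg, dei_D hG hg]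
  ring

theorem Eig.bracket (h : Eig 2 c F) (h' : Eig 2 d G) :
    Eig 6 (121 * c * d) (DD F * G - F * DD G) := by
  refine ⟨((Derivative.normalizedDerivOfComplex_mdifferentiable h.holo).mul h'.holo).sub
    (h.holo.mul (Derivative.normalizedDerivOfComplex_mdifferentiable h'.holo)), fun γ hγ => ?_, ?_⟩
  · rw [sl_bracket h.holo h'.holo (dei_SL γ), h.inv γ hγ, h'.inv γ hγ, γ.det_coe, Int.cast_one,
      one_pow, one_smul]
  · rw [sl_bracket h.holo h'.holo dei_wM, h.fricke, h'.fricke, det_wM, DD, DD,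
      Derivative.normalizedDerivOfComplex_smul c F h.holo,
      Derivative.normalizedDerivOfComplex_smul d G h'.holo]
    ext z
    simp only [Pi.smul_apply, Pi.mul_apply, Pi.sub_apply, smul_eq_mul]
    push_cast
    ring

/-- Sketch: induction with `Eig.mul`. -/
theorem Eig.pow (h : Eig 2 (-1) F) (m : ℕ) :
    Eig (2 * m) ((-11) ^ m / 11) (F ^ m) := by
  induction m with
  | zero =>
    refine ⟨by rw [pow_zero]; exact mdifferentiable_const, fun γ _ => ?_, ?_⟩
    · ext z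
      rw [sl_apply _ _ (dei_SL γ), γ.det_coe]
      simp
    · ext z
      rw [sl_apply _ _ dei_wM, det_wM]
      simp
  | succ m ih =>
    have := ih.mul h
    rw [← pow_succ, show 2 * (m : ℤ) + 2 = 2 * ((m + 1 : ℕ) : ℤ) by push_cast; ring,
      show 11 * ((-11 : ℂ) ^ m / 11) * (-1) = (-11) ^ (m + 1) / 11 by ring] at this
    exact this

end Pool.Agent.Lib.MP_03e5d0_nt.D11
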