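import Pool.Agent.Lib.MP_03e5d0_nt.DQ

/-! The expansion of the eta product. -/

set_option autoImplicit false

noncomputable section

namespace Pool.Agent.Lib.MP_03e5d0_nt.D11

open Finset CongruenceSubgroup UpperHalfPlane PowerSeries Filter Asymptotics
open Pool.Agent.Lib.MP_88d29b_nt.G
open scoped MatrixGroups ModularForm Manifold Topology Real

theorem deu_term {q : ℂ} (hq : ‖q‖ < 1) (k n : ℕ) :
    ‖q ^ ((k + 1) * n) * ∏ i ∈ range (n + 1), (1 - q ^ (k + i + 1))‖ ≤
      Real.exp (1 - ‖q‖)⁻¹ * ‖q‖ ^ n := by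
  have h0 := norm_nonneg q
  rw [norm_mul, norm_pow, norm_prod, mul_comm]
  refine mul_le_mul ?_ (pow_le_pow_of_le_one h0 hq.le (Nat.le_mul_of_pos_left n k.succ_pos))
    (by positivity) (Real.exp_pos _).le
  refine (prod_le_prod (g := fun i => 1 + ‖q‖ ^ i) (fun _ _ => norm_nonneg _) fun i _ => ?_).trans
    ((Real.prod_one_add_le_exp_sum _ fun i => by positivity).trans (Real.exp_le_exp.2 ?_))
  · refine (norm_sub_le _ _).trans ?_
    rw [norm_one, norm_pow]
    exact add_le_add_right (pow_le_pow_of_le_one h0 hq.le (by omega)) _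
  · rw [← tsum_geometric_of_lt_one h0 hq]
    exact (summable_geometric_of_lt_one h0 hq).sum_le_tsum _ fun _ _ => by positivity

/-- The pentagonal number theorem on the unit disc. -/
theorem deu_pent {q : ℂ} (hq : ‖q‖ < 1) :
    HasSum (fun n => ((coeff n (pentagonalSeries ℤ) : ℤ) : ℂ) * q ^ n) (∏' n, (1 - q ^ (n + 1))) := by
  have h0 := norm_nonneg q
  have hg := summable_geometric_of_lt_one h0 hq
  have hs : Summable fun n => ((coeff n (pentagonalSeries ℤ) : ℤ) : ℂ) * q ^ n := by
    refine .of_norm_bounded hg fun n => ?_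
    rw [norm_mul, norm_pow]
    refine mul_le_of_le_one_left (by positivity) ?_
    by_cases h : n ∈ Set.range pentagonal
    · obtain ⟨k, rfl⟩ := h
      rw [coeff_pentagonalSeries_pentagonal]
      rcases Int.units_eq_one_or k.negOnePow with h | h <;> simp [h]
    · simp [coeff_pentagonalSeries_eq_zero ℤ h]
  have h1 := hs.hasSum
  rw [← pentagonal_injective.hasSum_iff fun n hn => by
    simp [coeff_pentagonalSeries_eq_zero ℤ hn],
    ← neg_injective.hasSum_iff (fun x hx => by absurd hx; use -x; simp)] at h1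
  have h2 : HasSum (fun k : ℕ => (-1) ^ k * (q ^ pentagonal (-k) - q ^ pentagonal (k + 1)))
      (∑' n, ((coeff n (pentagonalSeries ℤ) : ℤ) : ℂ) * q ^ n) := by
    convert h1.nat_add_neg_add_one using 2 with k
    simp_rw [Function.comp_apply, neg_neg, coeff_pentagonalSeries_pentagonal, Int.negOnePow_add]
    simp
    ring
  have hx : Tendsto (fun n : ℕ => q ^ n) atTop (𝓝 0) := tendsto_pow_atTop_nhds_zero_of_norm_lt_one hq
  refine (Pentagonal.tprod_one_sub_pow hx
    (fun k => .of_norm_bounded (hg.mul_left _) (deu_term hq k)) (fun k => ?_) h2.summable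
    ?_).trans h2.tsum_eq ▸ hs.hasSum
  · apply multipliable_one_add_of_summable (f := fun n => -q ^ (n + k + 1))
    simpa [add_assoc] using (summable_nat_add_iff (k + 1)).mpr hg
  · refine squeeze_zero_norm (a := fun k => ‖q‖ ^ k * ∑' n, Real.exp (1 - ‖q‖)⁻¹ * ‖q‖ ^ n)
      (fun k => ?_) ?_
    · rw [norm_mul, norm_mul, norm_pow, norm_pow, norm_neg, norm_one, one_pow, one_mul]
      refine mul_le_mul (pow_le_pow_of_le_one h0 hq.le ?_)
        (tsum_of_norm_bounded (hg.mul_left _).hasSum (deu_term hq k)) (norm_nonneg _)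
        (by positivity)
      rw [Nat.le_div_iff_mul_le two_pos]
      exact Nat.mul_le_mul (by omega) (by omega)
    · simpa using (tendsto_pow_atTop_nhds_zero_of_lt_one h0 hq).mul_const _

/-- Sketch: let `g z = ∏' n, (1 - eta_q n z)`. It has some expansion `a`
(`UpperHalfPlane.hasSum_qExpansion` with `h = 1`, or the power series of
`q ↦ ∏' n, (1 - q ^ (n + 1))` on the unit ball, `ModularForm.differentiableOn_tprod_one_sub_pow`,
`DifferentiableOn.hasFPowerSeriesOnBall` / `Complex.hasSum_taylorSeries_on_ball`). For `n < N` the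
finite product `P_N` over `range N` has the expansion `∏ i ∈ range N, (1 - X ^ (i + 1))` (`QP.mul`,
`QP.pow`, `qp_X`) and `g - P_N = P_N (tail - 1) = O(q ^ (N + 1))`
(`Multipliable.prod_mul_tprod_nat_add`, `Finset.norm_prod_one_add_sub_one_le` and a limit), so
`QS.coeff_eq_zero` gives `a n = coeff n P_N`; finish with
`PowerSeries.coeff_prod_one_sub_X_pow_eventually_eq`. An alternative is the analytic pentagonal
number theorem through `Pentagonal.tprod_one_sub_pow`. -/
theorem qp_eul : QP (fun z : ℍ => ∏' n, (1 - ModularForm.eta_q n z)) (pentagonalSeries ℤ) := by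
  intro z
  convert deu_pent (q := Function.Periodic.qParam 1 (z : ℂ)) (mod_cast norm_qParam_lt_one 1 z)
    using 3 with n
  rw [Function.Periodic.qParam, ← Complex.exp_nat_mul]
  congr 1
  push_cast
  ring

theorem deu_f11 : ∃ G : ℍ → ℂ, QP G gS ∧
    f11 = (fun z : ℍ => Complex.exp (2 * π * Complex.I * z)) * G := by
  refine ⟨_, (qp_eul.pow 2).mul (qp_eul.pow 2).dil, funext fun z => ?_⟩
  have hw : 0 < (((11 : ℕ) : ℂ) * z).im := by simpa using z.im_pos
  have h : Function.Periodic.qParam 24 (z : ℂ) ^ 2 *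
      Function.Periodic.qParam 24 (((11 : ℕ) : ℂ) * z) ^ 2 =
      Complex.exp (2 * π * Complex.I * z) := by
    simp only [Function.Periodic.qParam, ← Complex.exp_nat_mul, ← Complex.exp_add]
    congr 1
    push_cast
    ring
  simp only [f11, sl_dM, eta2, ModularForm.eta, Pi.mul_apply, Pi.pow_apply, sub_self, zpow_zero,
    one_smul, ofComplex_apply_of_im_pos hw, mul_pow, ← h]
  ring

/-- Sketch: `f11 z = q * g z ^ 2 * g (11 z) ^ 2` (`sl_dM`, `ofComplex_apply_of_im_pos`,
`𝕢 24 z ^ 2 * 𝕢 24 (11 z) ^ 2 = exp (2 π i z)`); `QP.mul`, `QP.pow`, `QP.dil`, `qp_X`. -/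
theorem qp_f11 : QP f11 fS := by
  obtain ⟨G, hG, h⟩ := deu_f11
  rw [h]
  exact qp_X.mul hG

/-- Sketch: `f11 z = q * G z` with `QP G gS` and `constantCoeff gS = 1`, so `G - 1 = O(q)` tends to
zero by `QP.decay`; compare `ModularForm.exp_isBigO_discriminant`. -/
theorem exp_isBigO_f11 : (fun z : ℍ => Real.exp (-2 * π * z.im)) =O[atImInfty] f11 := by
  obtain ⟨G, hG, h⟩ := deu_f11
  have h0 : constantCoeff (pentagonalSeries ℤ) = 1 := by
    simpa [pentagonal_def] using coeff_pentagonalSeries_pentagonal ℤ 0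
  have h1 : X ^ 1 ∣ gS - 1 := by
    rw [pow_one, X_dvd_iff]
    simp [gS, h0]
  have h2 : Tendsto (fun z : ℍ => Real.exp (-2 * π * (1 : ℕ) * z.im)) atImInfty (𝓝 0) := by
    refine Real.tendsto_exp_atBot.comp (Tendsto.const_mul_atTop_of_neg ?_ tendsto_comap)
    have := Real.pi_pos
    push_cast
    linarith
  have h3 := (((hG.sub qp_one).decay h1).trans_tendsto h2).eventually
    (Metric.ball_mem_nhds 0 (by norm_num : (0 : ℝ) < 1 / 2))
  refine .of_bound 2 ?_
  filter_upwards [h3] with z hz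
  have h4 : ‖G z - 1‖ < 1 / 2 := by simpa using hz
  have h5 := norm_sub_norm_le 1 (G z)
  rw [norm_one, norm_sub_rev] at h5
  have h6 : ‖Complex.exp (2 * π * Complex.I * z)‖ = Real.exp (-2 * π * z.im) := by
    simpa using gq1_norm 1 z
  rw [h, Pi.mul_apply, norm_mul, h6, Real.norm_of_nonneg (Real.exp_pos _).le]
  nlinarith [Real.exp_pos (-2 * π * z.im)]

end Pool.Agent.Lib.MP_03e5d0_nt.D11
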