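import Mathlib

/-! Definitions used in the statements: twists, analytic rank, modularity, counting functions. -/

set_option autoImplicit false

noncomputable section

namespace Pool.Agent.Lib.MP_03e5d0_nt

/-- The quadratic twist `y ^ 2 = x ^ 3 + a d ^ 2 x + b d ^ 3` of `y ^ 2 = x ^ 3 + a x + b`. -/
def twist (a b : ℚ) (d : ℤ) : WeierstrassCurve ℚ := ⟨0, 0, 0, a * d ^ 2, b * d ^ 3⟩

/-- The Hasse-Weil `L`-series of `W` continues to an entire function that vanishes to order exactly
`r` at `s = 1`. -/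
def HasAnRank (W : WeierstrassCurve ℚ) (r : ℕ) : Prop :=
  ∃ F : ℂ → ℂ, Differentiable ℂ F ∧ (∀ s : ℂ, 2 < s.re → F s = W.LSeries s) ∧
    analyticOrderAt F 1 = r

/-- The coefficients of the `L`-series of `W` are the Fourier coefficients of a cusp form of weight
two on some `Γ₀(N)`. -/
def IsModular (W : WeierstrassCurve ℚ) : Prop :=
  ∃ (N : ℕ) (_ : NeZero N) (f : CuspForm (CongruenceSubgroup.Gamma0 N) 2),
    ∀ n : ℕ, (UpperHalfPlane.qExpansion 1 f).coeff n = (W.LFunction n : ℂ)

/-- The number of squarefree `d` with `|d| < X`. -/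
def countS (X : ℝ) : ℕ := {d : ℤ | Squarefree d ∧ |(d : ℝ)| < X}.ncard

/-- The number of squarefree `d` with `|d| < X` whose twist has analytic rank `r`. -/
def countN (a b : ℚ) (r : ℕ) (X : ℝ) : ℕ :=
  {d : ℤ | Squarefree d ∧ |(d : ℝ)| < X ∧ HasAnRank (twist a b d) r}.ncard

end Pool.Agent.Lib.MP_03e5d0_nt
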