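import Pool.Agent.Lib.MP_03e5d0_nt.DCnt
import Pool.Agent.Lib.MP_03e5d0_nt.Stmt

/-! The coefficients of the `L`-function of the curve of conductor eleven. -/

set_option autoImplicit false

noncomputable section

namespace Pool.Agent.Lib.MP_03e5d0_nt.D11

open Finset WeierstrassCurve

/-- Sketch: `LF_smul` with `u = 1 / 6`, `r = 1 / 3`, `s = 0`, `t = -1 / 2`. -/
theorem L11_eq : (twist (-13392) (-1080432) 1).LFunction =
    (V11.map (Int.castRingHom ℚ)).LFunction := by
  rw [← LF_smul (V11.map (Int.castRingHom ℚ)) (by rw [map_Δ, V11_Δ]; norm_num)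
    ⟨Units.mk0 (1 / 6) (by norm_num), 1 / 3, 0, -1 / 2⟩]
  congr 1
  ext <;> simp [twist, V11, variableChange_def] <;> norm_num

/-- Sketch: `lpoly_int`, `lp_split` (`nodeq` has a root in `ZMod 11`, by `decide`), `LF_rec` with
`α = 1`, `β = 0`. -/
theorem L11_bad (j : ℕ) : (V11.map (Int.castRingHom ℚ)).LFunction (11 ^ j) = 1 := by
  have h0 : ((496 : ℤ) : ZMod 11) ≠ 0 := by decide
  have : Fact (Nat.Prime 11) := ⟨by norm_num⟩
  have h1 : lpoly 11 (V11.map (Int.castRingHom ℚ)) =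
      1 - Polynomial.C 1 * Polynomial.X + Polynomial.C 0 * Polynomial.X ^ 2 := by
    rw [lpoly_int 11 V11 (by rw [V11_Δ]; norm_num) (by rw [V11_Δ, V11_c₄]; norm_num),
      lp_split (by rw [map_Δ, V11_Δ]; rfl) (by rw [map_c₄, V11_c₄]; exact h0)
        ⟨Int.castRingHom (ZMod 11) 5, by
          rw [nodeq_map, show nodeq V11 5 = 17402 by decide]; rfl⟩]
    simp
  obtain ⟨h2, h3⟩ := LF_rec 11 _ h1
  induction j using Nat.twoStepInduction with
  | zero => exact (LF_mult _).map_one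
  | one => rw [pow_one, h2]
  | more j _ ih => rw [h3, ih]; simp

theorem dlf_pow (a : ℕ → ℤ)
    (hg : ∀ (p : ℕ) [Fact p.Prime], p ≠ 11 → ∀ n, a (p * n) + (if p ∣ n then p * a (n / p) else 0) =
      (p + 1 - Np p) * a n) (hb : ∀ n, a (11 * n) = a n) {p : ℕ} (hp : p.Prime) {m : ℕ}
    (hm : ¬p ∣ m) (j : ℕ) :
    a (p ^ j * m) = (V11.map (Int.castRingHom ℚ)).LFunction (p ^ j) * a m := by
  have : Fact p.Prime := ⟨hp⟩
  by_cases h : p = 11
  · subst h
    rw [L11_bad, one_mul]
    induction j with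
    | zero => rw [pow_zero, one_mul]
    | succ j ih => rw [pow_succ', mul_assoc, hb, ih]
  obtain ⟨h2, h3⟩ := LF_rec p _ (lpoly_good p V11 (not_dvd_Δ h))
  induction j using Nat.twoStepInduction with
  | zero => rw [pow_zero, one_mul, (LF_mult _).map_one, one_mul]
  | one =>
    have h4 := hg p h m
    rw [if_neg hm, add_zero] at h4
    rw [pow_one, h2, h4]
    rfl
  | more j ih ih' =>
    have h4 := hg p h (p ^ (j + 1) * m)
    have h5 : p ^ (j + 1) * m / p = p ^ j * m := by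
      rw [pow_succ', mul_assoc, Nat.mul_div_cancel_left _ hp.pos]
    rw [if_pos ((dvd_pow_self p j.succ_ne_zero).mul_right m), h5, ← mul_assoc, ← pow_succ', ih,
      ih'] at h4
    rw [h3]
    unfold Np at h4
    linear_combination h4

/-- Sketch: show `a (p ^ j m) = L (p ^ j) a m` for `p ∤ m` by two-step induction on `j`
(`lpoly_good`, `LF_rec`; `L11_bad` for `p = 11`), then `Nat.recOnPrimePow` and `LF_mult`. -/
theorem eq_L11 (a : ℕ → ℤ) (h0 : a 0 = 0) (h1 : a 1 = 1)
    (hg : ∀ (p : ℕ) [Fact p.Prime], p ≠ 11 → ∀ n, a (p * n) + (if p ∣ n then p * a (n / p) else 0) =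
      (p + 1 - Np p) * a n) (hb : ∀ n, a (11 * n) = a n) (n : ℕ) :
    a n = (twist (-13392) (-1080432) 1).LFunction n := by
  rw [L11_eq]
  induction n using Nat.recOnPrimePow with
  | zero => rw [h0, ArithmeticFunction.map_zero]
  | one => rw [h1, (LF_mult _).map_one]
  | prime_pow_mul m p j hp hm _ ih =>
    rw [dlf_pow a hg hb hp hm, ih, (LF_mult _).map_mul_of_coprime
      (Nat.Coprime.pow_left _ ((Nat.Prime.coprime_iff_not_dvd hp).2 hm))]

end Pool.Agent.Lib.MP_03e5d0_nt.D11
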