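import Pool.Agent.Lib.MP_03e5d0_nt.DHk
import Pool.Agent.Lib.MP_03e5d0_nt.DCart
import Pool.Agent.Lib.MP_03e5d0_nt.DLF

/-! Modularity of the curve of conductor eleven. -/

set_option autoImplicit false

noncomputable section

namespace Pool.Agent.Lib.MP_03e5d0_nt.D11

open Finset CongruenceSubgroup UpperHalfPlane PowerSeries Filter Asymptotics
open Pool.Agent.Lib.MP_88d29b_nt.G
open scoped MatrixGroups ModularForm Manifold Topology Real

lemma dfin_map {k : Type*} [CommRing k] (g L : k⟦X⟧)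
    (hg : g = PowerSeries.map (Int.castRingHom k) gS)
    (hL : L = PowerSeries.map (Int.castRingHom k) LS) :
    eqn L (X * g) (th L) (X * (g + th g)) = 0 := by
  have h := congrArg (PowerSeries.map (Int.castRingHom k)) eqn_zero
  have e : th (X * g) = X * (g + th g) := by
    rw [th_mul, th_X, mul_add]
  simp only [eqn, fS, map_sub, map_mul, map_pow, map_ofNat, map_th, map_X, map_zero, ← hg,
    ← hL, e] at h
  exact h

/-- Sketch: map `eqn_zero` to `(ZMod 5)⟦X⟧`: `f ^ 2 L ^ 4 = 0`, `f ≠ 0`; `coeff_LS_prime`. -/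
theorem aS_mod5 {p : ℕ} (hp : p.Prime) (h : p ≠ 11) : (5 : ℤ) ∣ p + 1 - aS p := by
  have : Fact (Nat.Prime 5) := ⟨by norm_num⟩
  obtain ⟨g, hg⟩ : ∃ g, g = PowerSeries.map (Int.castRingHom (ZMod 5)) gS := ⟨_, rfl⟩
  obtain ⟨L, hL⟩ : ∃ L, L = PowerSeries.map (Int.castRingHom (ZMod 5)) LS := ⟨_, rfl⟩
  have h1 := dfin_map g L hg hL
  have h5 : (5 : (ZMod 5)⟦X⟧) = 0 := by
    rw [← map_ofNat (C : ZMod 5 →+* (ZMod 5)⟦X⟧), show (5 : ZMod 5) = 0 from rfl, map_zero]
  have hg0 : g ≠ 0 := by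
    intro h0
    have := congrArg constantCoeff hg
    rw [h0, map_zero, ← coeff_zero_eq_constantCoeff_apply, coeff_map,
      coeff_zero_eq_constantCoeff_apply, constantCoeff_gS, map_one] at this
    exact zero_ne_one this
  have h2 : (X * g) ^ 2 * L ^ 4 = 0 := by
    rw [eqn] at h1
    linear_combination -h1 + (20 * (th L * (X * g) - L * (X * (g + th g))) ^ 2 + (X * g) ^ 2 *
      (8 * L ^ 3 * (X * g) + 1760 * L ^ 2 * (X * g) ^ 2 + 60000 * L * (X * g) ^ 3 +
        608000 * (X * g) ^ 4)) * h5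
  have h3 : L = 0 := pow_eq_zero_iff (by norm_num) |>.1
    ((mul_eq_zero.1 h2).resolve_left (pow_ne_zero 2 (mul_ne_zero X_ne_zero hg0)))
  have h4 := congrArg (coeff p) hL
  rw [h3, map_zero, coeff_map, coeff_LS_prime hp h, eq_intCast, eq_comm,
    ZMod.intCast_zmod_eq_zero_iff_dvd] at h4
  omega

/-- Sketch: map `eqn_zero` to `(ZMod p)⟦X⟧`, `G = C 10⁻¹ * L`, cancel `X ^ 2`; `exists_xy`,
`cartier`. -/
theorem aS_modp {p : ℕ} [Fact p.Prime] (h2 : p ≠ 2) (h5 : p ≠ 5) :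
    (aS p : ZMod p) = (cP (p / 2) (p - 1) : ZMod p) := by
  have hp : p.Prime := Fact.out
  have k2 : (2 : ZMod p) ≠ 0 := fun h0 => h2 ((Nat.prime_dvd_prime_iff_eq hp Nat.prime_two).1
    ((ZMod.natCast_eq_zero_iff 2 p).1 h0))
  have k5 : (5 : ZMod p) ≠ 0 := fun h0 => h5 ((Nat.prime_dvd_prime_iff_eq hp Nat.prime_five).1
    ((ZMod.natCast_eq_zero_iff 5 p).1 h0))
  have k10 : (10 : ZMod p) ≠ 0 := by
    rw [show (10 : ZMod p) = 2 * 5 by norm_num]
    exact mul_ne_zero k2 k5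
  obtain ⟨g, hg⟩ : ∃ g, g = PowerSeries.map (Int.castRingHom (ZMod p)) gS := ⟨_, rfl⟩
  obtain ⟨G, hG⟩ : ∃ G : (ZMod p)⟦X⟧, 10 * G = PowerSeries.map (Int.castRingHom (ZMod p)) LS :=
    ⟨C 10⁻¹ * PowerSeries.map (Int.castRingHom (ZMod p)) LS, by
      rw [← mul_assoc, ← map_ofNat (C : ZMod p →+* (ZMod p)⟦X⟧), ← map_mul, mul_inv_cancel₀ k10,
        map_one, one_mul]⟩
  have h1 := dfin_map g _ hg hG
  have g1 : constantCoeff g = 1 := by
    rw [hg, ← coeff_zero_eq_constantCoeff_apply, coeff_map, coeff_zero_eq_constantCoeff_apply,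
      constantCoeff_gS, map_one]
  have G1 : constantCoeff G = 1 := by
    have := congrArg constantCoeff hG
    rw [map_mul, map_ofNat, ← coeff_zero_eq_constantCoeff_apply (PowerSeries.map _ _), coeff_map,
      coeff_zero_eq_constantCoeff_apply, constantCoeff_LS, map_ofNat] at this
    exact mul_left_cancel₀ k10 (this.trans (mul_one _).symm)
  have hX : (10 * 10 * X : (ZMod p)⟦X⟧) ^ 2 ≠ 0 := by
    have : (10 : (ZMod p)⟦X⟧) ≠ 0 := fun h0 => k10 (by
      have := congrArg constantCoeff h0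
      rwa [map_ofNat, map_zero] at this)
    exact pow_ne_zero 2 (mul_ne_zero (mul_ne_zero this this) X_ne_zero)
  obtain ⟨x, y, hx, hy, e1, e2⟩ := exists_xy k2 g G g1 G1 (mul_left_cancel₀ hX (by
    rw [eqn, th_mul, th_ofNat] at h1
    linear_combination h1))
  rw [← cartier h2 g x y hx hy e1 e2, hg, coeff_map, eq_intCast, ← aS_succ,
    Nat.sub_add_cancel hp.one_le]

theorem aS_prime (p : ℕ) [Fact p.Prime] (h : p ≠ 11) : aS p = p + 1 - Np p := by
  have hp : p.Prime := Fact.out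
  by_cases h2 : p = 2
  · subst h2
    rw [aS_two, Np_two]
    norm_num
  by_cases h5 : p = 5
  · subst h5
    rw [aS_five, Np_five]
    norm_num
  have a1 : (5 : ℤ) ∣ aS p - (p + 1 - Np p) := by
    have b1 := aS_mod5 hp h
    have b2 : (5 : ℤ) ∣ Np p := by exact_mod_cast five_dvd_Np h
    omega
  have a2 : (p : ℤ) ∣ aS p - (p + 1 - Np p) := by
    rw [← ZMod.intCast_zmod_eq_zero_iff_dvd]
    push_cast
    rw [aS_modp h2 h5, Np_modp h2 h, sub_self]
  have a3 : IsCoprime (5 : ℤ) (p : ℤ) :=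
    Nat.isCoprime_iff_coprime.2 ((Nat.coprime_primes Nat.prime_five hp).2 (Ne.symm h5))
  have a4 := abs_lt.1 (aS_lt hp h)
  have a5 := Np_le h
  refine sub_eq_zero.1 (Int.eq_zero_of_abs_lt_dvd (a3.mul_dvd a1 a2) (abs_lt.2 ?_))
  omega

end Pool.Agent.Lib.MP_03e5d0_nt.D11

namespace Pool.Agent.Lib.MP_03e5d0_nt

/-- Part D. -/
theorem modular_eleven : IsModular (twist (-13392) (-1080432) 1) := by
  refine ⟨11, inferInstance, D11.isCF_f11.mk', fun n => ?_⟩
  have h0 : Pool.Agent.Lib.MP_88d29b_nt.G.QS D11.f11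
      fun m => (UpperHalfPlane.qExpansion 1 D11.isCF_f11.mk').coeff m := by
    intro z
    have h1 : (1 : ℝ) ∈ (CongruenceSubgroup.Gamma0 11 : Subgroup (GL (Fin 2) ℝ)).strictPeriods := by
      rw [CongruenceSubgroup.strictPeriods_Gamma0]
      exact AddSubgroup.mem_zmultiples 1
    have h2 := ModularForm.hasSum_qExpansion D11.isCF_f11.mk' (h := 1) one_pos h1 z
    have e : ∀ m : ℕ, Function.Periodic.qParam 1 (z : ℂ) ^ m =
        Complex.exp (2 * Real.pi * Complex.I * m * z) := by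
      intro m
      rw [Function.Periodic.qParam, ← Complex.exp_nat_mul]
      congr 1
      push_cast
      ring
    simp only [e] at h2
    exact h2
  rw [← D11.eq_L11 D11.aS D11.aS_zero D11.aS_one
    (fun p _ h n => by rw [D11.hecke_good Fact.out h, D11.aS_prime p h]) D11.hecke_bad n]
  exact congrFun (h0.unique D11.qp_f11) n

end Pool.Agent.Lib.MP_03e5d0_nt
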