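import Pool.Agent.Lib.MP_03e5d0_nt.DEig

/-! Cosets of the group of level eleven and the vanishing criterion. -/

set_option autoImplicit false

noncomputable section

namespace Pool.Agent.Lib.MP_03e5d0_nt.D11

open Finset CongruenceSubgroup UpperHalfPlane PowerSeries Filter Asymptotics
open Pool.Agent.Lib.MP_88d29b_nt.G
open scoped MatrixGroups ModularForm Manifold Topology Real

/-- Representatives of `Γ₀(11) \ SL(2, ℤ)`. -/
def cRep : Option (Fin 11) → Mat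
  | none => 1
  | some j => !![0, -1; 1, ((j : ℕ) : ℤ)]

lemma wM_mul (j : Fin 11) :
    wM * !![1, ((j : ℕ) : ℤ); 0, 11] = (11 : ℤ) • (1 : Mat) * cRep (some j) := by
  rw [smul_mul_assoc, one_mul]
  ext a b
  fin_cases a <;> fin_cases b <;> simp [wM, cRep, Matrix.mul_apply, Fin.sum_univ_two]

/-- The representatives as elements of the group. -/
def dva_r (j : Option (Fin 11)) : SL(2, ℤ) :=
  ⟨cRep j, by rcases j with _ | j <;> simp [cRep, Matrix.det_fin_two_of]⟩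

lemma dva_coe (j : Option (Fin 11)) : cRep j = (dva_r j : Mat) := rfl

lemma dva_ex (m : SL(2, ℤ)) : ∃ j, m * (dva_r j)⁻¹ ∈ Gamma0 11 := by
  by_cases hm : ((11 : ℕ) : ℤ) ∣ (m : Mat) 1 0
  · refine ⟨none, ?_⟩
    rw [g0cov_mem, ← dva_coe]
    simpa [cRep] using hm
  · obtain ⟨x, hx⟩ := g0cov_solve (p := 11) (by norm_num) ((m : Mat) 1 1) hm
    refine ⟨some x, ?_⟩
    rw [g0cov_mem, ← dva_coe, ← dvd_neg, neg_sub]
    simpa [cRep] using hx

/-- Sketch: `g0cov_mem`, `g0cov_solve`. -/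
theorem cRep_ex (m : SL(2, ℤ)) : ∃ j, ∃ t ∈ Gamma0 11, (m : Mat) = ((t : SL(2, ℤ)) : Mat) * cRep j := by
  obtain ⟨j, hj⟩ := dva_ex m
  refine ⟨j, _, hj, ?_⟩
  rw [dva_coe, ← Matrix.SpecialLinearGroup.coe_mul, inv_mul_cancel_right]

/-- Sketch: `g0cov_of_group`, `g0cov_mem`, `g0cov_solve`, `g0cov_fin`. -/
theorem cov_cRep : Cov (Gamma0 11) ⊤ cRep := by
  refine g0cov_of_group dva_r (fun _ => trivial) dva_coe (fun m _ => dva_ex m) fun i j h => ?_
  rw [g0cov_mem, ← dva_coe, ← dva_coe] at h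
  rcases i with _ | i <;> rcases j with _ | j
  · rfl
  · norm_num [cRep] at h
  · norm_num [cRep] at h
  · have h' : ((11 : ℕ) : ℤ) ∣ ((j : ℕ) : ℤ) - (i : ℕ) := by simpa [cRep] using h
    rw [g0cov_fin h']

/-- Sketch: `cRep_ex`, `wM_mul`, `sl_scalar`, `UpperHalfPlane.IsBoundedAtImInfty.slash` (compare
`Cuspy.sl`); build the `ModularForm (Gamma0 11) 0` as in `IsCF.mk'`
(`OnePoint.isBoundedAt_iff_forall_SL2Z`) and apply `ModularForm.eq_const_of_weight_zero`. -/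
theorem const_of_bdd {Φ : ℍ → ℂ} (h : MDifferentiable 𝓘(ℂ) 𝓘(ℂ) Φ) (hi : Inv (Gamma0 11) 0 Φ)
    (h1 : IsBoundedAtImInfty Φ) (h2 : IsBoundedAtImInfty (sl 0 Φ wM)) :
    ∃ c : ℂ, Φ = Function.const ℍ c := by
  have hb : ∀ γ : SL(2, ℤ), IsBoundedAtImInfty (sl 0 Φ γ) := by
    intro γ
    obtain ⟨j, t, ht, e⟩ := cRep_ex γ
    rw [e, sl_mul 0 Φ (inside_Snz ⊤ t trivial) (cov_cRep.det_ne j), hi t ht]
    rcases j with _ | j
    · rwa [cRep, sl_one]
    · have hu : (!![1, ((j : ℕ) : ℤ); 0, 11] : Mat).det ≠ 0 := by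
        simp [Matrix.det_fin_two_of]
      have hw : wM.det ≠ 0 := by rw [det_wM]; norm_num
      have hs : ((11 : ℤ) • (1 : Mat)).det ≠ 0 := by
        rw [Matrix.det_smul, Matrix.det_one]
        simp
      have hp : 0 < (cRep (some j)).det := by simp [cRep, Matrix.det_fin_two_of]
      have h3 : IsBoundedAtImInfty (sl 0 (sl 0 Φ wM) !![1, ((j : ℕ) : ℤ); 0, 11]) := by
        refine h2.slash 0 ?_
        rw [toGL_apply hu]
        simp
      rw [← sl_mul 0 Φ hw hu, wM_mul, sl_mul 0 Φ hs hp.ne', sl_scalar 0 Φ (by norm_num),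
        sl_smul 0 _ Φ hp] at h3
      have h4 := h3.smul ((((11 : ℤ) : ℂ) ^ ((0 : ℤ) - 2))⁻¹)
      rwa [smul_smul, inv_mul_cancel₀ (zpow_ne_zero _ (by norm_num)), one_smul] at h4
  let M : ModularForm (Gamma0 11) 0 :=
    { toFun := Φ
      slash_action_eq' := fun A hA => by
        obtain ⟨γ, hγ, rfl⟩ := hA
        have := hi γ hγ
        rwa [sl_SL] at this
      holo' := h
      bdd_at_cusps' := fun hc => by
        rw [Subgroup.IsArithmetic.isCusp_iff_isCusp_SL2Z] at hc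
        rw [OnePoint.isBoundedAt_iff_forall_SL2Z hc]
        intro γ _
        have := hb γ
        rwa [sl_SL] at this }
  exact ModularForm.eq_const_of_weight_zero M

lemma dva_div {f A : ℍ → ℂ}
    (hl : (fun z : ℍ => Real.exp (-2 * π * z.im)) =O[atImInfty] f) {m : ℕ} {n : ℝ}
    (h : A =O[atImInfty] fun z => Real.exp (-2 * π * n * z.im)) :
    (A / f ^ m) =O[atImInfty] fun z => Real.exp (-2 * π * (n - m) * z.im) := by
  have h0 : (fun z : ℍ => ((Real.exp (-2 * π * z.im) : ℝ) : ℂ)) =O[atImInfty] f :=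
    (Complex.isBigO_ofReal_left).2 hl
  have h1 := (h0.pow m).inv_rev (Eventually.of_forall fun z hz =>
    absurd hz (pow_ne_zero _ (Complex.ofReal_ne_zero.2 (Real.exp_pos _).ne')))
  have h2 := ((Complex.isBigO_ofReal_right).2 h).mul h1
  refine (Complex.isBigO_ofReal_right).1 ?_
  refine h2.congr (fun z => ?_) fun z => ?_
  · rw [Pi.div_apply, Pi.pow_apply, div_eq_mul_inv]
  · rw [← Complex.ofReal_pow, ← Complex.ofReal_inv, ← Complex.ofReal_mul, ← Real.exp_nat_mul,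
      ← Real.exp_neg, ← Real.exp_add]
    congr 2
    ring

/-- Sketch: `Φ = F / f ^ m`, `F = Φ * f ^ m`; `sl_fun_mul 0 (2 m)` and `Eig.pow` give the
invariance of `Φ` and `sl (2 m) F wM = (-11) ^ m • (sl 0 Φ wM * f ^ m)`; `Φ` tends to zero and
`sl 0 Φ wM` is bounded; `const_of_bdd`. -/
theorem vanish {f F : ℍ → ℂ} (hf : Eig 2 (-1) f) (hne : ∀ z, f z ≠ 0)
    (hl : (fun z : ℍ => Real.exp (-2 * π * z.im)) =O[atImInfty] f) {m : ℕ}
    (h : MDifferentiable 𝓘(ℂ) 𝓘(ℂ) F) (hi : Inv (Gamma0 11) (2 * m) F)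
    (h1 : F =O[atImInfty] fun z => Real.exp (-2 * π * ((m + 1 : ℕ) : ℝ) * z.im))
    (h2 : sl (2 * m) F wM =O[atImInfty] fun z => Real.exp (-2 * π * m * z.im)) : F = 0 := by
  have hg := hf.pow m
  have hg0 : ∀ z, (f ^ m) z ≠ 0 := fun z => pow_ne_zero m (hne z)
  set Φ : ℍ → ℂ := F / f ^ m with hΦ
  have hF : F = Φ * f ^ m := by
    ext z
    rw [Pi.mul_apply, hΦ, Pi.div_apply, div_mul_cancel₀ _ (hg0 z)]
  have hmul : ∀ {g : Mat}, 0 < g.det →
      sl (2 * m) F g = (g.det : ℂ) • (sl 0 Φ g * sl (2 * m) (f ^ m) g) := by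
    intro g hd
    rw [← sl_fun_mul 0 (2 * m) Φ (f ^ m) hd, zero_add, ← hF]
  have hinv : Inv (Gamma0 11) 0 Φ := by
    intro γ hγ
    have e := hmul (g := γ) (by rw [γ.det_coe]; exact one_pos)
    rw [hi γ hγ, hg.inv γ hγ, γ.det_coe, Int.cast_one, one_smul] at e
    ext z
    have ez := congrFun e z
    rw [Pi.mul_apply] at ez
    rw [hΦ, Pi.div_apply, ez, ← hΦ, mul_div_cancel_right₀ _ (hg0 z)]
  have hw : sl 0 Φ wM = ((-11 : ℂ) ^ m)⁻¹ • (sl (2 * m) F wM / f ^ m) := by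
    have e := hmul (g := wM) (by rw [det_wM]; norm_num)
    rw [hg.fricke, det_wM] at e
    ext z
    have h0 := hg0 z
    have h11 : (-11 : ℂ) ^ m ≠ 0 := pow_ne_zero _ (by norm_num)
    rw [e]
    simp only [Pi.smul_apply, Pi.div_apply, Pi.mul_apply, smul_eq_mul]
    push_cast
    field_simp
  have hz : IsZeroAtImInfty Φ := by
    have h3 := dva_div hl (m := m) h1
    refine h3.trans_tendsto ?_
    have e : (fun z : ℍ => Real.exp (-2 * π * (((m + 1 : ℕ) : ℝ) - m) * z.im)) =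
        fun z : ℍ => Real.exp (-(2 * π * z.im)) := by
      ext z
      push_cast
      congr 1
      ring
    rw [e]
    refine Real.tendsto_exp_neg_atTop_nhds_zero.comp ?_
    exact Tendsto.const_mul_atTop (by positivity) tendsto_comap
  have hb : IsBoundedAtImInfty (sl 0 Φ wM) := by
    rw [hw]
    refine Filter.BoundedAtFilter.smul _ ?_
    have h3 := dva_div hl (m := m) h2
    simp only [sub_self, mul_zero, zero_mul, Real.exp_zero] at h3
    exact h3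
  have hd : MDifferentiable 𝓘(ℂ) 𝓘(ℂ) Φ := fun z => (h z).div (hg.holo z) (hg0 z)
  obtain ⟨c, hc⟩ := const_of_bdd hd hinv hz.boundedAtFilter hb
  have hc0 : c = 0 := by
    rw [hc] at hz
    exact tendsto_nhds_unique tendsto_const_nhds hz
  rw [hF, hc, hc0]
  ext z
  simp

lemma dva_conj {γ : SL(2, ℤ)} (hγ : γ ∈ Gamma0 11) :
    ∃ γ' ∈ Gamma0 11, wM * (γ : Mat) = ((γ' : SL(2, ℤ)) : Mat) * wM := by
  obtain ⟨c, hc⟩ := g0cov_mem0.1 hγ
  have hd := γ.det_coe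
  rw [Matrix.det_fin_two, hc] at hd
  refine ⟨⟨!![γ 1 1, -c; -(11 * γ 0 1), γ 0 0], ?_⟩, g0cov_mem0.2 ?_, ?_⟩
  · rw [Matrix.det_fin_two_of]
    push_cast at hd
    linear_combination hd
  · simp
  · ext i j
    fin_cases i <;> fin_cases j <;> simp [wM, Matrix.mul_apply, Fin.sum_univ_two, hc, mul_comm]

/-- Sketch: `Cuspy.sl`; `wM γ = γ' wM` with `γ' = (d, -c / 11; -11 b, a)`. -/
theorem isCF_wM {k : ℤ} {F : ℍ → ℂ} (h : IsCF (Gamma0 11) k F) : IsCF (Gamma0 11) k (sl k F wM) := by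
  have hw : wM.det ≠ 0 := by rw [det_wM]; norm_num
  refine ⟨h.cuspy.sl hw, fun γ hγ => ?_⟩
  obtain ⟨γ', hγ', e⟩ := dva_conj hγ
  rw [← sl_mul k F hw (inside_Snz ⊤ γ trivial), e, sl_mul k F (inside_Snz ⊤ γ' trivial) hw,
    h.inv γ' hγ']

end Pool.Agent.Lib.MP_03e5d0_nt.D11
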