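import Pool.Agent.Lib.MP_03e5d0_nt.DChar
import Pool.Agent.Lib.MP_03e5d0_nt.DEul
import Pool.Agent.Lib.MP_03e5d0_nt.DE2
import Pool.Agent.Lib.MP_03e5d0_nt.DVan
import Pool.Agent.Lib.MP_03e5d0_nt.DCoef

/-! The equation of the modular curve and the Hecke relations. -/

set_option autoImplicit false

noncomputable section

namespace Pool.Agent.Lib.MP_03e5d0_nt.D11

open Finset CongruenceSubgroup UpperHalfPlane PowerSeries Filter Asymptotics
open Pool.Agent.Lib.MP_88d29b_nt.G
open scoped MatrixGroups ModularForm Manifold Topology Real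

/-- Sketch: `vanish` with `m = 6` for the function `eqn L f11 (DD L) (DD f11)`,
`L = E11 - 24 • f11`, which is `Eig 12 (11 ^ 5)`; `QP.decay`, `eqn_dvd`, `QP.eq_zero`. -/
theorem eqn_zero : eqn LS fS (th LS) (th fS) = 0 := by
  have hL : Eig 2 (-1) (E11 - ((24 : ℤ) : ℂ) • f11) := eig_E11.sub (eig_f11.smul _)
  have qL : QP (E11 - ((24 : ℤ) : ℂ) • f11) LS := qp_E11.sub (qp_f11.smul 24)
  generalize E11 - ((24 : ℤ) : ℂ) • f11 = L at hL qL
  have b := hL.bracket eig_f11
  have e1 := (b.mul b).smul ((100 : ℤ) : ℂ)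
  have l2 := hL.mul hL
  have f2 := eig_f11.mul eig_f11
  have lf := hL.mul eig_f11
  have cst : ∀ {k k' : ℤ} {c c' : ℂ} {F : ℍ → ℂ}, Eig k c F → k = k' → c = c' → Eig k' c' F :=
    fun h e e' => e ▸ e' ▸ h
  have e2 := f2.mul (((((cst (l2.mul l2) (k' := 8) (c' := 11 ^ 3) rfl (by norm_num)).sub
    ((cst (l2.mul lf) rfl (by norm_num)).smul ((40 : ℤ) : ℂ))).sub
    ((cst (l2.mul f2) rfl (by norm_num)).smul ((8800 : ℤ) : ℂ))).sub
    ((cst (lf.mul f2) rfl (by norm_num)).smul ((300000 : ℤ) : ℂ))).sub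
    ((cst (f2.mul f2) rfl (by norm_num)).smul ((3040000 : ℤ) : ℂ)))
  have e3 := (cst e1 (k' := 2 * (6 : ℕ)) (c' := 11 ^ 5) rfl (by norm_num)).sub
    (cst e2 rfl (by norm_num))
  have qb := (qL.deriv.mul qp_f11).sub (qL.mul qp_f11.deriv)
  have ql2 := qL.mul qL
  have qf2 := qp_f11.mul qp_f11
  have qlf := qL.mul qp_f11
  have q3 := ((qb.mul qb).smul 100).sub (qf2.mul (((((ql2.mul ql2).sub ((ql2.mul qlf).smul 40)).sub
    ((ql2.mul qf2).smul 8800)).sub ((qlf.mul qf2).smul 300000)).sub ((qf2.mul qf2).smul 3040000)))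
  generalize (((100 : ℤ) : ℂ) • ((DD L * f11 - L * DD f11) * (DD L * f11 - L * DD f11)) - _) = Φ
    at e3 q3
  have q4 : QP Φ (eqn LS fS (th LS) (th fS)) := by
    convert q3 using 1
    rw [eqn]
    push_cast
    ring
  have d7 := q4.decay eqn_dvd
  have d6 := q4.decay ((pow_dvd_pow X (by norm_num : 6 ≤ 7)).trans eqn_dvd)
  have h0 := vanish eig_f11 f11_ne_zero exp_isBigO_f11 (m := 6) e3.holo e3.inv d7 (by
    rw [e3.fricke]
    exact d6.const_smul_left _)
  rw [h0] at q4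
  exact q4.eq_zero

/-- Sketch: `vanish` with `m = 1` for `F - b 1 • f11`; `isCF_wM`, `exists_QS`, the constant terms
vanish by `IsCF.exp_decay` and `QS.coeff_eq_zero`. -/
theorem dim_one {F : ℍ → ℂ} {b : ℕ → ℂ} (h : IsCF (Gamma0 11) 2 F) (hb : QS F b) (n : ℕ) :
    b n = b 1 * aS n := by
  have h0 : ∀ {G : ℍ → ℂ} {a : ℕ → ℂ}, IsCF (Gamma0 11) 2 G → QS G a → a 0 = 0 := by
    intro G a hG ha
    obtain ⟨c, hc, hd⟩ := hG.exp_decay
    refine ha.coeff_eq_zero (c := c / (2 * π)) ?_ (by rw [Nat.cast_zero]; positivity)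
    have e : ∀ y : ℝ, -2 * π * (c / (2 * π)) * y = -c * y := fun y => by field_simp
    simpa only [e] using hd
  have h1 := h.add (isCF_f11.smul (-b 1))
  have q1 := hb.add (QS.smul (-b 1) qp_f11)
  obtain ⟨a, ha⟩ := exists_QS (isCF_wM h1)
  have h2 := vanish eig_f11 f11_ne_zero exp_isBigO_f11 (m := 1) h1.cuspy.holo h1.inv
    (q1.decay (B := 2) fun n hn => by
      interval_cases n
      · exact h0 h1 q1
      · have : coeff 1 fS = 1 := aS_one
        simp [this])
    (ha.decay (B := 1) fun n hn => by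
      interval_cases n
      exact h0 (isCF_wM h1) ha)
  rw [h2] at q1
  have h3 := congrFun (q1.unique qs_zero) n
  simp only [Pi.add_apply, Pi.smul_apply, smul_eq_mul, Pi.zero_apply] at h3
  rw [aS]
  linear_combination h3

/-- Sketch: `isCF_heckeFun`, `QS.hecke`, `dim_one`. -/
theorem hecke_good {p : ℕ} (hp : p.Prime) (h : p ≠ 11) (n : ℕ) :
    aS (p * n) + (if p ∣ n then p * aS (n / p) else 0) = aS p * aS n := by
  have hc : p.Coprime 11 := (Nat.coprime_primes hp (by norm_num)).2 h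
  have h1 := dim_one (isCF_heckeFun hp hc isCF_f11) (QS.hecke qp_f11 hp.pos 2) n
  simp only [Nat.dvd_one, hp.ne_one, if_false, mul_one, add_zero] at h1
  apply Int.cast_injective (α := ℂ)
  push_cast
  rw [← show ((coeff p fS : ℤ) : ℂ) = aS p from rfl, ← h1]
  norm_num [aS]

/-- Sketch: `isCF_f11.dc cov_cRep` is a cusp form of level one, equal to
`f11 - ∑ j, sl 2 f11 (1 j; 0 11)` by `wM_mul`; its expansion is `aS n - aS (11 n)` (`heckeFun_eq`,
`QS.hecke`, `QS.dil`, or `QS.extract`); it vanishes by `sturm_QS` with `B = 1`. -/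
theorem hecke_bad (n : ℕ) : aS (11 * n) = aS n := by
  have h1 := isCF_f11.dc cov_cRep
  have e : ∑ i, sl 2 f11 (cRep i) = f11 + (-1 : ℂ) • heckeFun 11 2 f11 +
      (11 : ℂ) • fun z : ℍ => f11 (ofComplex (((11 : ℕ) : ℂ) * z)) := by
    have e1 : ∀ j : Fin 11, sl 2 f11 (cRep (some j)) = (-1 : ℂ) • sl 2 f11 (tRep 11 (some j)) := by
      intro j
      have d1 : (tRep 11 (some j)).det = (11 : ℕ) := det_tRep 11 _
      have k := congrArg (sl 2 f11) (wM_mul j)
      rw [sl_mul 2 f11 (g' := cRep (some j)) (by rw [Matrix.det_smul]; simp) (cov_cRep.det_ne _),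
        sl_scalar 2 f11 (by norm_num), sub_self, zpow_zero, one_smul] at k
      rw [← k, ← sl_smul 2 _ _ (by rw [d1]; norm_num), ← eig_f11.fricke,
        ← sl_mul 2 f11 (by rw [det_wM]; norm_num) (by rw [d1]; norm_num)]
      rfl
    have e2 : sl 2 f11 (tRep 11 none) =
        (11 : ℂ) • fun z : ℍ => f11 (ofComplex (((11 : ℕ) : ℂ) * z)) := by
      have := sl_dM 2 f11
      rw [show (2 : ℤ) - 1 = 1 by norm_num, zpow_one] at this
      exact this
    rw [heckeFun_eq (by norm_num), Fintype.sum_option, Fintype.sum_option, e2, cRep, sl_one]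
    simp only [e1, ← Finset.smul_sum]
    module
  have q := (QS.add qp_f11 ((QS.hecke qp_f11 (by norm_num : 0 < 11) 2).smul (-1))).add
    ((QS.dil qp_f11 (by norm_num : 0 < 11)).smul 11)
  rw [e] at h1
  have hq : ∀ m, ((fun n => ((coeff n fS : ℤ) : ℂ)) + (-1 : ℂ) • (fun n => ((coeff (11 * n) fS : ℤ) : ℂ)
      + if 11 ∣ n then ((11 : ℕ) : ℂ) ^ ((2 : ℤ) - 1) * ((coeff (n / 11) fS : ℤ) : ℂ) else 0) +
      (11 : ℂ) • fun n => if 11 ∣ n then ((coeff (n / 11) fS : ℤ) : ℂ) else 0) m =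
      ((aS m - aS (11 * m) : ℤ) : ℂ) := by
    intro m
    simp only [Pi.add_apply, Pi.smul_apply, smul_eq_mul, aS]
    split_ifs <;> norm_num <;> ring
  have h0 := sturm_QS (k := 2) h1 q (B := 1) (by simp) fun m hm => by
    obtain rfl : m = 0 := by omega
    rw [hq]
    simp
  rw [h0] at q
  have h3 := congrFun (q.unique qs_zero) n
  rw [hq, Pi.zero_apply, Int.cast_eq_zero] at h3
  omega

/-- Sketch: `CuspFormClass.qExpansion_isBigO` for `isCF_f11.mk'`
(`CongruenceSubgroup.strictWidthInfty_Gamma0`). -/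
theorem aS_bound : ∃ C : ℝ, ∀ n : ℕ, |(aS n : ℝ)| ≤ C * n := by
  have h := CuspFormClass.qExpansion_isBigO isCF_f11.mk'
  rw [strictWidthInfty_Gamma0] at h
  have h0 : QS f11 fun m => (qExpansion 1 isCF_f11.mk').coeff m := by
    intro z
    have h1 : (1 : ℝ) ∈ (Gamma0 11 : Subgroup (GL (Fin 2) ℝ)).strictPeriods := by
      rw [strictPeriods_Gamma0]
      exact AddSubgroup.mem_zmultiples 1
    have h2 := ModularForm.hasSum_qExpansion isCF_f11.mk' (h := 1) one_pos h1 z
    have e : ∀ m : ℕ, Function.Periodic.qParam 1 (z : ℂ) ^ m =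
        Complex.exp (2 * Real.pi * Complex.I * m * z) := by
      intro m
      rw [Function.Periodic.qParam, ← Complex.exp_nat_mul]
      congr 1
      push_cast
      ring
    simp only [e] at h2
    exact h2
  rw [h0.unique qp_f11] at h
  obtain ⟨C, -, hC⟩ := bound_of_isBigO_nat_atTop h
  refine ⟨C, fun n => ?_⟩
  rcases eq_or_ne n 0 with rfl | hn
  · simp [aS_zero]
  · have := hC (x := n) (by positivity)
    rw [Complex.norm_intCast] at this
    simpa [aS] using this

/-- Sketch: otherwise `2 p |a(p ^ j)| ≤ |a(p ^ (j + 1))|` by induction from `hecke_good`, so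
`(2 p) ^ j ≤ C p ^ j` for all `j`. -/
theorem aS_lt {p : ℕ} (hp : p.Prime) (h : p ≠ 11) : |aS p| < 3 * p := by
  by_contra hc
  have hp0 : (0 : ℤ) < p := by exact_mod_cast hp.pos
  have h1 : ∀ j : ℕ, 2 * p * |aS (p ^ j)| ≤ |aS (p ^ (j + 1))| := by
    intro j
    induction j with
    | zero =>
      rw [pow_zero, aS_one, zero_add, pow_one, abs_one]
      omega
    | succ j ih =>
      have e := hecke_good hp h (p ^ (j + 1))
      rw [if_pos (dvd_pow_self p j.succ_ne_zero), ← pow_succ',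
        show p ^ (j + 1) / p = p ^ j from Nat.mul_div_cancel _ hp.pos] at e
      have h2 := abs_add_le (aS (p ^ (j + 1 + 1))) (p * aS (p ^ j))
      rw [e, abs_mul, abs_mul, abs_of_pos hp0] at h2
      have h3 := abs_nonneg (aS (p ^ j))
      have h4 := abs_nonneg (aS (p ^ (j + 1)))
      nlinarith
  have h2 : ∀ j : ℕ, (2 * p) ^ j ≤ |aS (p ^ j)| := by
    intro j
    induction j with
    | zero => rw [pow_zero, pow_zero, aS_one, abs_one]
    | succ j ih =>
      rw [pow_succ']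
      exact (mul_le_mul_of_nonneg_left ih (by omega)).trans (h1 j)
  obtain ⟨C, hC⟩ := aS_bound
  obtain ⟨j, hj⟩ := pow_unbounded_of_one_lt C (one_lt_two (α := ℝ))
  have h3 : (2 * p : ℝ) ^ j ≤ |(aS (p ^ j) : ℝ)| := by exact_mod_cast h2 j
  have h4 := h3.trans (hC _)
  rw [mul_pow, Nat.cast_pow] at h4
  exact absurd (le_of_mul_le_mul_right h4 (pow_pos (by exact_mod_cast hp.pos) j)) (not_le.2 hj)

end Pool.Agent.Lib.MP_03e5d0_nt.D11
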