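import Mathlib

/-! The operator `q d/dq` on power series and the powers of the cubic `4 x ^ 3 - 4 x ^ 2 - 40 x - 79`. -/

set_option autoImplicit false

noncomputable section

namespace Pool.Agent.Lib.MP_03e5d0_nt.D11

open Finset PowerSeries

section th

variable {R S : Type*} [CommRing R] [CommRing S]

/-- The operator `q d/dq`. -/
def th (φ : R⟦X⟧) : R⟦X⟧ := X * PowerSeries.derivative R φ

lemma coeff_th (φ : R⟦X⟧) (n : ℕ) : coeff n (th φ) = n * coeff n φ := by
  cases n with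
  | zero => simp [th]
  | succ n => rw [th, coeff_succ_X_mul, coeff_derivative]; push_cast; ring

lemma th_add (φ ψ : R⟦X⟧) : th (φ + ψ) = th φ + th ψ := by simp only [th, map_add, mul_add]

lemma th_sub (φ ψ : R⟦X⟧) : th (φ - ψ) = th φ - th ψ := by simp only [th, map_sub, mul_sub]

lemma th_neg (φ : R⟦X⟧) : th (-φ) = -th φ := by simp only [th, map_neg, mul_neg]

lemma th_mul (φ ψ : R⟦X⟧) : th (φ * ψ) = th φ * ψ + φ * th ψ := by
  simp only [th, Derivation.leibniz, smul_eq_mul]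
  ring

lemma th_C (c : R) : th (C c : R⟦X⟧) = 0 := by simp [th]

lemma th_one : th (1 : R⟦X⟧) = 0 := by simpa using th_C (1 : R)

lemma th_natCast (n : ℕ) : th (n : R⟦X⟧) = 0 := by simpa using th_C (n : R)

lemma th_ofNat (n : ℕ) [n.AtLeastTwo] : th (ofNat(n) : R⟦X⟧) = 0 := th_natCast n

lemma th_X : th (X : R⟦X⟧) = X := by simp [th]

lemma th_pow_succ (φ : R⟦X⟧) (n : ℕ) : th (φ ^ (n + 1)) = (n + 1) * φ ^ n * th φ := by
  simp only [th, derivative_pow]
  push_cast
  ring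

lemma map_th (ρ : R →+* S) (φ : R⟦X⟧) : PowerSeries.map ρ (th φ) = th (PowerSeries.map ρ φ) := by
  ext n
  simp [coeff_th]

lemma constantCoeff_th (φ : R⟦X⟧) : constantCoeff (th φ) = 0 := by simp [th]

lemma th_dvd {n : ℕ} {φ : R⟦X⟧} (h : X ^ n ∣ φ) : X ^ n ∣ th φ := by
  rw [X_pow_dvd_iff] at h ⊢
  intro m hm
  rw [coeff_th, h m hm, mul_zero]

end th

/-- The coefficients of the powers of the cubic. -/
def cP (m j : ℕ) : ℤ :=
  ((4 * Polynomial.X ^ 3 - 4 * Polynomial.X ^ 2 - 40 * Polynomial.X - 79 : Polynomial ℤ) ^ m).coeff j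

theorem hom_pow (m : ℕ) {A : Type*} [CommRing A] (x s : A) :
    (4 * x ^ 3 - 4 * x ^ 2 * s - 40 * x * s ^ 2 - 79 * s ^ 3) ^ m =
      ∑ j ∈ range (3 * m + 1), (cP m j : A) * x ^ j * s ^ (3 * m - j) := by
  have h : ((4 * Polynomial.X ^ 3 - 4 * Polynomial.X ^ 2 - 40 * Polynomial.X - 79 :
      Polynomial ℤ) ^ m).homogenize (3 * m) = (4 * MvPolynomial.X 0 ^ 3 -
        4 * MvPolynomial.X 0 ^ 2 * MvPolynomial.X 1 - 40 * MvPolynomial.X 0 * MvPolynomial.X 1 ^ 2 -
        79 * MvPolynomial.X 1 ^ 3) ^ m := by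
    refine Polynomial.homogenize_eq_of_isHomogeneous (MvPolynomial.IsHomogeneous.pow ?_ m) (by simp)
    have h0 := MvPolynomial.isHomogeneous_X ℤ (0 : Fin 2)
    have h1 := MvPolynomial.isHomogeneous_X ℤ (1 : Fin 2)
    have c : ∀ a : ℤ, (MvPolynomial.C a : MvPolynomial (Fin 2) ℤ).IsHomogeneous 0 :=
      fun a => MvPolynomial.isHomogeneous_C _ a
    exact ((((c 4).mul (h0.pow 3)).sub (((c 4).mul (h0.pow 2)).mul h1)).sub
      (((c 40).mul h0).mul (h1.pow 2))).sub ((c 79).mul (h1.pow 3))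
  have h2 := congrArg (MvPolynomial.aeval ![x, s]) h
  rw [Polynomial.homogenize, map_sum, Finset.Nat.sum_antidiagonal_eq_sum_range_succ_mk] at h2
  simp only [map_pow, map_sub, map_mul, map_ofNat, MvPolynomial.aeval_X, Matrix.cons_val_zero,
    Matrix.cons_val_one] at h2
  rw [← h2]
  refine Finset.sum_congr rfl fun j _ => ?_
  rw [MvPolynomial.aeval_monomial, Finsupp.prod_fintype _ _ (by simp), Fin.prod_univ_two]
  simp [cP, mul_assoc]

end Pool.Agent.Lib.MP_03e5d0_nt.D11
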