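import Pool.Agent.Lib.MP_03e5d0_nt.DDefs

/-! Operations on integral expansions. -/

set_option autoImplicit false

noncomputable section

namespace Pool.Agent.Lib.MP_03e5d0_nt.D11

open Finset CongruenceSubgroup UpperHalfPlane PowerSeries Filter Asymptotics
open Pool.Agent.Lib.MP_88d29b_nt.G
open scoped MatrixGroups ModularForm Manifold Topology Real

variable {F G : ℍ → ℂ} {φ ψ : ℤ⟦X⟧} {a b : ℕ → ℂ}

/-- Sketch: `summable_norm_iff`, `tsum_mul_tsum_eq_tsum_sum_antidiagonal_of_summable_norm`,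
`summable_norm_sum_mul_antidiagonal_of_summable_norm`. -/
theorem qs_mul (h : QS F a) (h' : QS G b) :
    QS (F * G) fun n => ∑ x ∈ antidiagonal n, a x.1 * b x.2 := by
  intro z
  have h1 := summable_norm_iff.2 (h z).summable
  have h2 := summable_norm_iff.2 (h' z).summable
  have h3 := (summable_norm_sum_mul_antidiagonal_of_summable_norm h1 h2).of_norm.hasSum
  rw [← tsum_mul_tsum_eq_tsum_sum_antidiagonal_of_summable_norm h1 h2, (h z).tsum_eq,
    (h' z).tsum_eq] at h3
  refine h3.congr fun s => Finset.sum_congr rfl fun n _ => ?_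
  beta_reduce
  rw [Finset.sum_mul]
  refine Finset.sum_congr rfl fun x hx => ?_
  rw [← mem_antidiagonal.1 hx, mul_mul_mul_comm, ← Complex.exp_add]
  congr 2
  push_cast
  ring

lemma dq_loc (h : QS F a) (z : ℍ) :
    Summable (fun n : ℕ => ‖a n‖ * Real.exp (-2 * π * n * (z.im / 2))) ∧
    (∀ n : ℕ, DifferentiableOn ℂ (fun w : ℂ => a n * Complex.exp (2 * π * Complex.I * n * w))
      {w : ℂ | z.im / 2 < w.im}) ∧ IsOpen {w : ℂ | z.im / 2 < w.im} ∧
    (∀ (n : ℕ) (w : ℂ), w ∈ {w : ℂ | z.im / 2 < w.im} →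
      ‖a n * Complex.exp (2 * π * Complex.I * n * w)‖ ≤
        ‖a n‖ * Real.exp (-2 * π * n * (z.im / 2))) ∧
    (z : ℂ) ∈ {w : ℂ | z.im / 2 < w.im} ∧
    (F ∘ ofComplex) =ᶠ[𝓝 (z : ℂ)]
      fun w : ℂ => ∑' n : ℕ, a n * Complex.exp (2 * π * Complex.I * n * w) := by
  have hz := z.im_pos
  refine ⟨?_, fun n => by fun_prop, isOpen_lt continuous_const Complex.continuous_im,
    fun n w hw => ?_, by change z.im / 2 < z.im; linarith, ?_⟩
  · obtain ⟨y, hy⟩ : ∃ y : ℍ, y.im = z.im / 2 := ⟨⟨⟨0, z.im / 2⟩, half_pos hz⟩, rfl⟩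
    have := summable_norm_iff.2 (h y).summable
    simpa only [norm_mul, gq1_norm, hy] using this
  · have hw' : z.im / 2 < w.im := hw
    rw [norm_mul, Complex.norm_exp]
    refine mul_le_mul_of_nonneg_left (Real.exp_le_exp.2 ?_) (norm_nonneg _)
    have h1 : 0 ≤ π * (n * (w.im - z.im / 2)) :=
      mul_nonneg Real.pi_pos.le (mul_nonneg (Nat.cast_nonneg n) (by linarith))
    have h2 : (2 * π * Complex.I * n * w).re = -2 * π * n * w.im := by simp
    rw [h2]
    nlinarith
  · filter_upwards [isOpen_upperHalfPlaneSet.mem_nhds z.im_pos] with w hw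
    exact (gq2_at h hw).tsum_eq.symm

/-- Sketch: `UpperHalfPlane.mdifferentiable_iff`; on `{w | y < im w}` the terms are bounded by
`‖a n‖ exp (-2 π n y)` (`gq1_norm`, `gq2_at`), `Complex.differentiableOn_tsum_of_summable_norm`. -/
theorem qs_holo (h : QS F a) : MDifferentiable 𝓘(ℂ) 𝓘(ℂ) F := by
  intro z
  obtain ⟨h1, h2, h3, h4, h5, h6⟩ := dq_loc h z
  exact UpperHalfPlane.mdifferentiableAt_iff.2
    (((Complex.differentiableOn_tsum_of_summable_norm h1 h2 h3 h4).differentiableAt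
      (h3.mem_nhds h5)).congr_of_eventuallyEq h6)

/-- Sketch: as above with `Complex.hasSum_deriv_of_summable_norm`. -/
theorem qs_deriv (h : QS F a) : QS (DD F) fun n => n * a n := by
  intro z
  obtain ⟨h1, h2, h3, h4, h5, h6⟩ := dq_loc h z
  have h7 := (Complex.hasSum_deriv_of_summable_norm h1 h2 h3 h4 h5).mul_left
    (2 * π * Complex.I)⁻¹
  rw [← h6.deriv_eq] at h7
  refine h7.congr fun s => Finset.sum_congr rfl fun n _ => ?_
  have h8 : HasDerivAt (fun w : ℂ => a n * Complex.exp (2 * π * Complex.I * n * w))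
      (a n * (Complex.exp (2 * π * Complex.I * n * z) * (2 * π * Complex.I * n * 1))) z :=
    (((hasDerivAt_id (z : ℂ)).const_mul (2 * π * Complex.I * n)).cexp).const_mul (a n)
  have h9 : (2 * π * Complex.I : ℂ) ≠ 0 := Complex.two_pi_I_ne_zero
  beta_reduce
  rw [h8.deriv, inv_mul_eq_iff_eq_mul₀ h9]
  ring

theorem QP.add (h : QP F φ) (h' : QP G ψ) : QP (F + G) (φ + ψ) := by
  have := QS.add h h'
  refine (congrArg (QS (F + G)) (funext fun n => ?_)).mp this
  simp

theorem QP.sub (h : QP F φ) (h' : QP G ψ) : QP (F - G) (φ - ψ) := by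
  have := QS.add h (QS.smul (-1) h')
  rw [neg_one_smul, ← sub_eq_add_neg] at this
  refine (congrArg (QS (F - G)) (funext fun n => ?_)).mp this
  simp [sub_eq_add_neg]

theorem QP.mul (h : QP F φ) (h' : QP G ψ) : QP (F * G) (φ * ψ) := by
  refine (congrArg (QS (F * G)) (funext fun n => ?_)).mp (qs_mul h h')
  simp [coeff_mul]

theorem QP.smul (c : ℤ) (h : QP F φ) : QP ((c : ℂ) • F) ((c : ℤ⟦X⟧) * φ) := by
  refine (congrArg (QS ((c : ℂ) • F)) (funext fun n => ?_)).mp (QS.smul (c : ℂ) h)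
  rw [show (c : ℤ⟦X⟧) = C c by simp, coeff_C_mul]
  simp

lemma dq_single (m : ℕ) :
    QP (fun z => Complex.exp (2 * π * Complex.I * m * z)) (X ^ m) := by
  intro z
  have := hasSum_single (f := fun n : ℕ => ((coeff n (X ^ m : ℤ⟦X⟧) : ℤ) : ℂ) *
    Complex.exp (2 * π * Complex.I * n * z)) m fun n hn => by simp [coeff_X_pow, hn]
  simpa [coeff_X_pow] using this

theorem qp_one : QP 1 1 := by
  have := dq_single 0
  rw [pow_zero] at this
  refine (congrArg (fun F => QP F 1) (funext fun z => ?_)).mp this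
  simp

theorem QP.pow (h : QP F φ) (n : ℕ) : QP (F ^ n) (φ ^ n) := by
  induction n with
  | zero => simpa only [pow_zero] using qp_one
  | succ n ih => simpa only [pow_succ] using ih.mul h

theorem qp_X : QP (fun z => Complex.exp (2 * π * Complex.I * z)) X := by
  simpa only [pow_one, Nat.cast_one, mul_one] using dq_single 1

theorem QP.deriv (h : QP F φ) : QP (DD F) (th φ) := by
  refine (congrArg (QS (DD F)) (funext fun n => ?_)).mp (qs_deriv h)
  simp [coeff_th]

/-- Sketch: `QS.dil`, `PowerSeries.coeff_expand`. -/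
theorem QP.dil (h : QP F φ) : QP (fun z : ℍ => F (ofComplex (((11 : ℕ) : ℂ) * z)))
    (PowerSeries.expand 11 (by norm_num) φ) := by
  refine (congrArg (QS _) (funext fun n => ?_)).mp (QS.dil h (l := 11) (by norm_num))
  rw [PowerSeries.coeff_expand]
  split_ifs <;> simp

/-- Sketch: `QS.unique` with `qs_zero`. -/
theorem QP.eq_zero (h : QP 0 φ) : φ = 0 := by
  ext n
  have := congrFun (QS.unique h qs_zero) n
  simpa using this

/-- Sketch: `QS.decay`, `PowerSeries.X_pow_dvd_iff`. -/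
theorem QP.decay (h : QP F φ) {m : ℕ} (hm : X ^ m ∣ φ) :
    F =O[atImInfty] fun z => Real.exp (-2 * π * m * z.im) := by
  refine QS.decay h fun n hn => ?_
  rw [X_pow_dvd_iff.1 hm n hn, Int.cast_zero]

end Pool.Agent.Lib.MP_03e5d0_nt.D11
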