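import Pool.Agent.Lib.MP_03e5d0_nt.ETw2
import Pool.Agent.Lib.MP_03e5d0_nt.BEnt
import Pool.Agent.Lib.MP_03e5d0_nt.CAsm
import Pool.Agent.Lib.MP_03e5d0_nt.DFin

/-! All quadratic twists of a semistable modular curve are modular. -/

set_option autoImplicit false

noncomputable section

namespace Pool.Agent.Lib.MP_03e5d0_nt

open WeierstrassCurve Polynomial ArithmeticFunction
open scoped NumberTheorySymbols

/-- The character of the field generated by the square root of `d`. -/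
def chiD (d : ℤ) (n : ℕ) : ℤ :=
  if d % 4 = 1 then J((n : ℤ) | d.natAbs) else if 2 ∣ n then 0 else J(d | n)

lemma chiD_one (d : ℤ) : chiD d 1 = 1 := by simp [chiD]

lemma chiD_mul (d : ℤ) {m n : ℕ} (hm : m ≠ 0) (hn : n ≠ 0) : chiD d (m * n) = chiD d m * chiD d n := by
  unfold chiD
  by_cases h : d % 4 = 1
  · simp only [if_pos h, Nat.cast_mul, jacobiSym.mul_left]
  simp only [if_neg h, Nat.prime_two.dvd_mul, jacobiSym.mul_right' d hm hn]
  by_cases h1 : 2 ∣ m <;> by_cases h2 : 2 ∣ n <;> simp [h1, h2]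

lemma chiD_pow (d : ℤ) {m : ℕ} (hm : m ≠ 0) (j : ℕ) : chiD d (m ^ j) = chiD d m ^ j := by
  induction j with
  | zero => simp [chiD_one]
  | succ j ih => rw [pow_succ, chiD_mul d (pow_ne_zero _ hm) hm, ih, pow_succ]

lemma chiD_odd (d : ℤ) {n : ℕ} (hn : Odd n) : chiD d n = J(d | n) := by
  unfold chiD
  split_ifs with h h'
  · exact (B.bjac_four h hn).symm
  · exact absurd (even_iff_two_dvd.2 h') (Nat.not_even_iff_odd.2 hn)
  · rfl

/-- The coefficients of all twists of a semistable curve. -/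
theorem LF_twist_semi {V : WeierstrassCurve ℤ} (hΔ : V.Δ ≠ 0) (hV : Semi V) {d : ℤ} (hs : Squarefree d)
    (n : ℕ) : (twist (-27 * V.c₄) (-54 * V.c₆) d).LFunction n =
      (twist (-27 * V.c₄) (-54 * V.c₆) 1).LFunction n * chiD d n := by
  let g : ArithmeticFunction ℤ :=
    ⟨fun n => (twist (-27 * V.c₄) (-54 * V.c₆) 1).LFunction n * chiD d n, by simp⟩
  have hm := LF_mult (twist (-27 * V.c₄) (-54 * V.c₆) 1)
  have hg : g.IsMultiplicative := by
    rw [IsMultiplicative.iff_ne_zero]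
    refine ⟨by simp only [g, coe_mk, hm.1, chiD_one, mul_one], fun {m n} h0 h1 hc => ?_⟩
    simp only [g, coe_mk, hm.2 hc, chiD_mul d h0 h1]
    ring
  suffices (twist (-27 * V.c₄) (-54 * V.c₆) d).LFunction = g by rw [this]; rfl
  rw [(LF_mult _).eq_iff_eq_on_prime_powers _ _ hg]
  intro p j hp
  have : Fact p.Prime := ⟨hp⟩
  simp only [g, coe_mk, chiD_pow d hp.ne_zero]
  by_cases h2 : p = 2
  · subst h2
    by_cases h4 : d % 4 = 1
    · obtain ⟨α, β, a1, a2⟩ := lpoly_two_unr hΔ hV hs h4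
      rw [chiD, if_pos h4]
      exact LF_pow_twist a1 a2 j
    · obtain ⟨α, β, a1, -⟩ := lpoly_form 2 (twist (-27 * V.c₄) (-54 * V.c₆) 1)
      rw [chiD, if_neg h4, if_pos dvd_rfl]
      exact LF_pow_twist a1 (by simp only [lpoly_two_ram hΔ hV hs h4]; simp) j
  · obtain ⟨α, β, a1, a2⟩ := lpoly_odd (p := p) hΔ hV hs h2
    rw [chiD_odd d (hp.odd_of_ne_two h2)]
    exact LF_pow_twist a1 a2 j

lemma exists_xi {d : ℤ} (hd : d ≠ 0) : ∃ (m : ℕ) (_ : NeZero m) (ξ : ZMod m → ℂ),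
    (∀ (u : (ZMod m)ˣ) (x : ZMod m), ξ (x * (u : ZMod m) ^ 2) = ξ x) ∧
    ∀ n : ℕ, n ≠ 0 → ξ n = chiD d n := by
  have h0 : d.natAbs ≠ 0 := Int.natAbs_ne_zero.2 hd
  by_cases h : d % 4 = 1
  · have : NeZero d.natAbs := ⟨h0⟩
    let ξ : ZMod d.natAbs → ℂ := fun x => ((J((x.val : ℤ) | d.natAbs) : ℤ) : ℂ)
    have hξn : ∀ n : ℕ, ξ (n : ZMod d.natAbs) = ((J((n : ℤ) | d.natAbs) : ℤ) : ℂ) := by
      intro n
      simp only [ξ]
      rw [ZMod.val_natCast, Int.natCast_mod, ← jacobiSym.mod_left]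
    refine ⟨d.natAbs, this, ξ, fun u x => ?_, fun n _ => by rw [hξn, chiD, if_pos h]⟩
    have e : x * (u : ZMod d.natAbs) ^ 2
        = ((x.val * (u : ZMod d.natAbs).val ^ 2 : ℕ) : ZMod d.natAbs) := by
      push_cast
      rw [ZMod.natCast_zmod_val, ZMod.natCast_zmod_val]
    have hu : Int.gcd ((u : ZMod d.natAbs).val : ℤ) d.natAbs = 1 := by
      rw [Int.gcd_natCast_natCast]
      exact ZMod.val_coe_unit_coprime u
    rw [e, hξn, Nat.cast_mul, Nat.cast_pow, jacobiSym.mul_left, jacobiSym.sq_one' hu, mul_one]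
  · have h1 : 2 * d.natAbs ≠ 0 := by omega
    have h2 : d ∣ ((2 * d.natAbs : ℕ) : ℤ) := by
      rw [Nat.cast_mul]
      exact (Int.dvd_natAbs.2 dvd_rfl).mul_left _
    refine ⟨4 * (2 * d.natAbs), ⟨by omega⟩, B.xi (2 * d.natAbs) d,
      B.xi_sq h1 (dvd_mul_right _ _) h2, fun n hn => ?_⟩
    rw [B.xi_natCast h1 (dvd_mul_right _ _) h2, chiD, if_neg h]
    by_cases h3 : 2 ∣ n
    · rw [if_pos h3, if_neg fun hc => ?_, Int.cast_zero]
      have := Nat.dvd_gcd h3 (dvd_mul_right 2 d.natAbs)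
      rw [hc] at this
      omega
    rw [if_neg h3]
    split_ifs with h4
    · rfl
    have : NeZero n := ⟨hn⟩
    rw [jacobiSym.eq_zero_iff_not_coprime.2 fun hc => h4 ?_, Int.cast_zero]
    refine Nat.Coprime.mul_right ((Nat.Prime.coprime_iff_not_dvd Nat.prime_two).2 h3).symm ?_
    rw [Int.gcd_eq_natAbs_gcd_natAbs, Int.natAbs_natCast] at hc
    exact Nat.Coprime.symm hc

/-- All twists of a semistable modular curve are modular. -/
theorem isModular_twist {V : WeierstrassCurve ℤ} (hΔ : V.Δ ≠ 0) (hV : Semi V)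
    (hm : IsModular (twist (-27 * V.c₄) (-54 * V.c₆) 1)) {d : ℤ} (hs : Squarefree d) :
    IsModular (twist (-27 * V.c₄) (-54 * V.c₆) d) := by
  obtain ⟨N, hN, f, hf⟩ := hm
  obtain ⟨m, hm, ξ, h1, h2⟩ := exists_xi hs.ne_zero
  have h0 : NeZero (N * m ^ 2) := ⟨mul_ne_zero (NeZero.ne N) (pow_ne_zero 2 (NeZero.ne m))⟩
  have hG := B.isCF_twF (Pool.Agent.Lib.MP_88d29b_nt.G.isCF_coe f) h1
  have hc := (B.qs_coe hG.mk').unique (B.qs_twF (B.qs_coe f) m ξ)
  refine ⟨N * m ^ 2, h0, hG.mk', fun n => ?_⟩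
  rw [congrFun hc n, hf, LF_twist_semi hΔ hV hs, Int.cast_mul]
  rcases eq_or_ne n 0 with rfl | hn
  · simp
  · rw [h2 n hn]

lemma IsModular.congr {W W' : WeierstrassCurve ℚ} (h : IsModular W) (e : W'.LFunction = W.LFunction) :
    IsModular W' := by
  obtain ⟨N, hN, f, hf⟩ := h
  exact ⟨N, hN, f, fun n => by rw [hf, e]⟩

lemma exists_squarefree_mul_sq {t : ℚ} (ht : t ≠ 0) :
    ∃ (e : ℤ) (s : ℚ), Squarefree e ∧ s ≠ 0 ∧ t = e * s ^ 2 := by
  have h0 : t.num * t.den ≠ 0 := mul_ne_zero (Rat.num_ne_zero.2 ht) (Nat.cast_ne_zero.2 t.den_nz)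
  obtain ⟨e, b, h1, h2⟩ : ∃ e b : ℤ, b ^ 2 * e = t.num * t.den ∧ Squarefree e := by
    obtain ⟨e, b, h1, h2⟩ := Nat.sq_mul_squarefree (t.num * t.den).natAbs
    have h3 : (b : ℤ) ^ 2 * e = |t.num * t.den| := by
      rw [← Int.natCast_natAbs, ← h1]
      push_cast
      rfl
    rcases abs_choice (t.num * t.den) with h | h
    · exact ⟨e, b, h3.trans h, Int.squarefree_natCast.2 h2⟩
    · exact ⟨-e, b, by linarith, Int.squarefree_natAbs.1 (by simpa using h2)⟩
  have hb : b ≠ 0 := by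
    rintro rfl
    exact h0 (by simpa using h1.symm)
  have hd : (t.den : ℚ) ≠ 0 := Nat.cast_ne_zero.2 t.den_nz
  refine ⟨e, b / t.den, h2, div_ne_zero (Int.cast_ne_zero.2 hb) hd, ?_⟩
  have h3 : (b : ℚ) ^ 2 * e = t * t.den * t.den := by
    rw [Rat.mul_den_eq_num]
    exact_mod_cast h1
  field_simp
  linear_combination -h3

/-- All curves that are quadratic twists of a semistable modular curve are modular. -/
theorem isModular_twist_rat {V : WeierstrassCurve ℤ} (hΔ : V.Δ ≠ 0) (hV : Semi V)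
    (hm : IsModular (twist (-27 * V.c₄) (-54 * V.c₆) 1)) {t : ℚ} (ht : t ≠ 0) {d : ℤ} (hd : d ≠ 0) :
    IsModular (twist (-27 * V.c₄ * t ^ 2) (-54 * V.c₆ * t ^ 3) d) := by
  obtain ⟨e, s, h1, h2, h3⟩ := exists_squarefree_mul_sq (mul_ne_zero ht (Int.cast_ne_zero.2 hd))
  have h4 : 4 * (-27 * (V.c₄ : ℚ)) ^ 3 + 27 * (-54 * (V.c₆ : ℚ)) ^ 2 ≠ 0 := fun h => by
    have h5 : (1728 : ℚ) * V.Δ = V.c₄ ^ 3 - V.c₆ ^ 2 := by exact_mod_cast V.c_relation
    have h6 : (V.Δ : ℚ) = 0 := by linear_combination (h5 - h / 78732) / 1728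
    exact hΔ (by exact_mod_cast h6)
  refine (isModular_twist hΔ hV hm h1).congr ?_
  rw [← LF_twist_scale h4 h1.ne_zero h2]
  congr 1
  ext <;> simp only [twist]
  · linear_combination -27 * V.c₄ * (t * d + e * s ^ 2) * h3
  · linear_combination -54 * V.c₆ * ((t * d) ^ 2 + t * d * (e * s ^ 2) + (e * s ^ 2) ^ 2) * h3

/-- All quadratic twists of the curve of conductor eleven are modular. -/
theorem modular_eleven_twist {t : ℚ} (ht : t ≠ 0) {d : ℤ} (hd : d ≠ 0) :
    IsModular (twist (-13392 * t ^ 2) (-1080432 * t ^ 3) d) := by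
  have h4 : -27 * (D11.V11.c₄ : ℚ) = -13392 := by rw [D11.V11_c₄]; norm_num
  have h6 : -54 * (D11.V11.c₆ : ℚ) = -1080432 := by
    rw [show D11.V11.c₆ = 20008 by decide]
    norm_num
  have h := isModular_twist_rat (V := D11.V11) (by rw [D11.V11_Δ]; norm_num) (fun l hl h1 h2 => by
    rw [D11.V11_Δ, dvd_neg] at h1
    rw [D11.V11_c₄] at h2
    have h3 := hl.dvd_of_dvd_pow h1
    exact hl.not_dvd_one (by simpa using dvd_sub h2 (h3.mul_left 45))) (by
    rw [h4, h6]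
    exact modular_eleven) ht hd
  rwa [h4, h6] at h

/-- A modular curve has an analytic rank. -/
theorem IsModular.hasAnRank {W : WeierstrassCurve ℚ} (h : IsModular W) : ∃ r : ℕ, HasAnRank W r := by
  obtain ⟨N, hN, f, hf⟩ := h
  obtain ⟨F, f1, f2⟩ := B.entire_twist f (d := 1) rfl
  have f3 : ∀ s : ℂ, 2 < s.re → F s = W.LSeries s := fun s hs => by
    rw [f2 s hs, WeierstrassCurve.LSeries]
    congr 1
    funext n
    rw [hf, jacobiSym.one_left, Int.cast_one, mul_one, Function.comp_apply]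
  obtain ⟨C, hC⟩ := hecke_bound f hf
  have f4 : analyticOrderAt F 1 ≠ ⊤ := fun h => by
    have a1 : F = 0 := AnalyticOnNhd.eq_of_eventuallyEq (z₀ := 1) (fun z _ => f1.analyticAt z)
      (fun z _ => analyticAt_const) (analyticOrderAt_eq_top.1 h)
    have a2 : LSeriesSummable ((↑) ∘ W.LFunction) (3 : ℂ) := by
      refine LSeriesSummable_of_le_const_mul_rpow (x := 2) (by norm_num) ⟨C, fun n _ => ?_⟩
      rw [Function.comp_apply, Complex.norm_intCast, show (2 : ℝ) - 1 = 1 by norm_num, Real.rpow_one]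
      exact hC n
    have a3 := (LSeries_eventually_eq_zero_iff' (f := (↑) ∘ W.LFunction)).1 (by
      filter_upwards [Filter.eventually_gt_atTop (2 : ℝ)] with x hx
      have := f3 x (by simpa using hx)
      rw [a1] at this
      exact this.symm)
    rcases a3 with a3 | a3
    · have := a3 1 one_ne_zero
      rw [Function.comp_apply, (LF_mult W).1] at this
      simp at this
    · have := a2.abscissaOfAbsConv_le
      rw [a3] at this
      simp at this
  obtain ⟨r, hr⟩ := ENat.ne_top_iff_exists.1 f4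
  exact ⟨r, F, f1, f3, hr.symm⟩

/-- The analytic rank is unique. -/
theorem HasAnRank.unique {W : WeierstrassCurve ℚ} {r r' : ℕ} (h : HasAnRank W r) (h' : HasAnRank W r') :
    r = r' := by
  obtain ⟨F, f1, f2, f3⟩ := h
  obtain ⟨G, g1, g2, g3⟩ := h'
  have := order_of_mul f1 g1 (differentiable_const 1) one_ne_zero fun s hs => by
    rw [g2 s hs, f2 s hs, one_mul]
  rw [f3, g3] at this
  exact_mod_cast this

end Pool.Agent.Lib.MP_03e5d0_nt
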