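import Pool.Agent.Lib.MP_03e5d0_nt.CTw

/-! Local polynomials of the quadratic twists of a semistable curve at the odd primes. -/

set_option autoImplicit false

noncomputable section

namespace Pool.Agent.Lib.MP_03e5d0_nt

open WeierstrassCurve Polynomial
open scoped NumberTheorySymbols

lemma smul_short (W : WeierstrassCurve ℚ) {u : ℚ} (hu : u ≠ 0) :
    (⟨Units.mk0 u hu, -W.b₂ / 12, -W.a₁ / 2, W.a₁ * W.b₂ / 24 - W.a₃ / 2⟩ : VariableChange ℚ) • W =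
      ⟨0, 0, 0, -W.c₄ / (48 * u ^ 4), -W.c₆ / (864 * u ^ 6)⟩ := by
  ext <;> simp only [variableChange_def, Units.val_inv_eq_inv_val, Units.val_mk0, c₄, c₆, b₂, b₄, b₆] <;>
    field_simp <;> ring

variable {p : ℕ} [hp : Fact p.Prime]

/-- Any integral model with the right invariants computes the local polynomial of the twist. -/
lemma lpoly_model (M : WeierstrassCurve ℤ) (hΔ : M.Δ ≠ 0) {c c' d v : ℤ} (hv : v ≠ 0)
    (h4 : M.c₄ = v ^ 4 * d ^ 2 * c) (h6 : M.c₆ = v ^ 6 * d ^ 3 * c') :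
    lpoly p (twist (-27 * c) (-54 * c') d) = lpoly p (M.map (Int.castRingHom ℚ)) := by
  have hv' : (v : ℚ) ≠ 0 := Int.cast_ne_zero.2 hv
  have hu : (v : ℚ) / 6 ≠ 0 := by positivity
  rw [← lpoly_smul p (M.map (Int.castRingHom ℚ)) (by simpa using hΔ), smul_short _ hu, map_c₄, map_c₆,
    h4, h6]
  congr 1
  ext <;> simp only [twist, eq_intCast] <;> push_cast <;> field_simp <;> ring

/-- The twist of a model `y ^ 2 = x ^ 3 + a x ^ 2 + b x + c`. -/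
def tw3 {R : Type*} [CommRing R] (a b c d : R) : WeierstrassCurve R := ⟨0, a * d, 0, b * d ^ 2, c * d ^ 3⟩

section
variable {R : Type*} [CommRing R] (a b c d : R)

lemma tw3_Δ : (tw3 a b c d).Δ = d ^ 6 * (tw3 a b c 1).Δ := by
  simp only [tw3, Δ, b₂, b₄, b₆, b₈]; ring

lemma tw3_c₄ : (tw3 a b c d).c₄ = d ^ 2 * (tw3 a b c 1).c₄ := by
  simp only [tw3, c₄, b₂, b₄]; ring

lemma tw3_nodeq (T : R) : 4 * nodeq (tw3 a b c d) T =
    d ^ 2 * ((tw3 a b c 1).c₄ * (2 * T) ^ 2 + d * (tw3 a b c 1).c₆) := by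
  simp only [tw3, nodeq, c₄, c₆, b₂, b₄, b₆]; ring

lemma tw3_map {S : Type*} [CommRing S] (φ : R →+* S) :
    (tw3 a b c d).map φ = tw3 (φ a) (φ b) (φ c) (φ d) := by
  ext <;> simp [tw3]

end

lemma tw3_root {k : Type} [Field k] [Fintype k] [DecidableEq k] (hk : ringChar k ≠ 2) {a b c d : k}
    (hd : d ≠ 0) (h4 : (tw3 a b c 1).c₄ ≠ 0) (h6 : (tw3 a b c 1).c₆ ≠ 0) :
    (∃ T, nodeq (tw3 a b c d) T = 0) ↔ quadraticChar k d *
      quadraticChar k (-(tw3 a b c 1).c₆ / (tw3 a b c 1).c₄) = 1 := by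
  have h2 : (2 : k) ≠ 0 := Ring.two_ne_zero hk
  have h3 : (4 : k) ≠ 0 := by
    rw [show (4 : k) = 2 * 2 by norm_num]
    exact mul_ne_zero h2 h2
  rw [← map_mul, quadraticChar_one_iff_isSquare (mul_ne_zero hd (div_ne_zero (neg_ne_zero.2 h6) h4))]
  constructor
  · rintro ⟨T, hT⟩
    have h5 := tw3_nodeq a b c d T
    rw [hT, mul_zero, eq_comm, mul_eq_zero] at h5
    refine ⟨2 * T, ?_⟩
    field_simp
    linear_combination -(h5.resolve_left (pow_ne_zero 2 hd))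
  · rintro ⟨S, hS⟩
    refine ⟨S / 2, mul_left_cancel₀ h3 ?_⟩
    field_simp at hS
    rw [tw3_nodeq, mul_div_cancel₀ _ h2, mul_zero]
    linear_combination (-d ^ 2) * hS

lemma tw3_card {k : Type} [Field k] [Fintype k] [DecidableEq k] (hk : ringChar k ≠ 2) {a b c d : k}
    (hd : d ≠ 0) (h : (tw3 a b c d).Δ ≠ 0) : (Nat.card (tw3 a b c d).toAffine.Point : ℤ) =
      Nat.card k + 1 + quadraticChar k d * ∑ x, quadraticChar k (x ^ 3 + a * x ^ 2 + b * x + c) := by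
  have e : ∀ z : k × k, (tw3 a b c d).toAffine.Equation z.1 z.2 ↔
      z.2 ^ 2 = z.1 ^ 3 + a * d * z.1 ^ 2 + b * d ^ 2 * z.1 + c * d ^ 3 := fun z => by
    rw [Affine.equation_iff]; simp [tw3]
  have h1 := card_affine hk fun x : k => x ^ 3 + a * d * x ^ 2 + b * d ^ 2 * x + c * d ^ 3
  rw [← Equiv.sum_comp (Equiv.mulLeft₀ _ hd)] at h1
  have h2 : ∀ x : k, quadraticChar k ((Equiv.mulLeft₀ _ hd x) ^ 3 + a * d * (Equiv.mulLeft₀ _ hd x) ^ 2 +
      b * d ^ 2 * (Equiv.mulLeft₀ _ hd x) + c * d ^ 3) =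
      quadraticChar k d * quadraticChar k (x ^ 3 + a * x ^ 2 + b * x + c) := fun x => by
    rw [← map_mul, Equiv.mulLeft₀_apply,
      show (d * x) ^ 3 + a * d * (d * x) ^ 2 + b * d ^ 2 * (d * x) + c * d ^ 3 =
        d ^ 2 * (d * (x ^ 3 + a * x ^ 2 + b * x + c)) by ring, map_mul, quadraticChar_sq_one' hd, one_mul]
  simp only [h2, ← Finset.mul_sum] at h1
  rw [card_point_eq _ h, Nat.card_congr (Equiv.subtypeEquivRight e), Nat.cast_add, h1,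
    Nat.card_eq_fintype_card]
  push_cast
  ring

/-- Twisting over a finite field of odd characteristic. -/
lemma lp_tw3 {k : Type} [Field k] [Fintype k] [DecidableEq k] (hk : ringChar k ≠ 2) (a b c : k) {d : k}
    (hd : d ≠ 0) : ∃ α β : ℤ, lp (tw3 a b c 1) = 1 - C α * X + C β * X ^ 2 ∧
      lp (tw3 a b c d) = 1 - C (quadraticChar k d * α) * X + C (quadraticChar k d ^ 2 * β) * X ^ 2 := by
  have hε := quadraticChar_sq_one hd
  by_cases h : (tw3 a b c 1).Δ = 0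
  · have h' : (tw3 a b c d).Δ = 0 := by rw [tw3_Δ, h, mul_zero]
    by_cases h4 : (tw3 a b c 1).c₄ = 0
    · exact ⟨0, 0, by simp [lp_add h h4], by simp [lp_add h' (by rw [tw3_c₄, h4, mul_zero])]⟩
    have h4' : (tw3 a b c d).c₄ ≠ 0 := by
      rw [tw3_c₄]
      exact mul_ne_zero (pow_ne_zero _ hd) h4
    have h6 : (tw3 a b c 1).c₆ ≠ 0 := fun h0 => by
      have := (tw3 a b c 1).c_relation
      rw [h, h0] at this
      exact pow_ne_zero 3 h4 (by linear_combination -this)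
    have r1 := tw3_root hk (d := 1) one_ne_zero h4 h6
    have r2 := tw3_root hk hd h4 h6
    rw [map_one, one_mul] at r1
    have h7 := quadraticChar_dichotomy (div_ne_zero (neg_ne_zero.2 h6) h4)
    have h8 := quadraticChar_dichotomy hd
    generalize quadraticChar k (-(tw3 a b c 1).c₆ / (tw3 a b c 1).c₄) = η at r1 r2 h7
    generalize quadraticChar k d = ε at r2 h8
    rcases h7 with rfl | rfl <;> rcases h8 with rfl | rfl
    · exact ⟨1, 0, by simp [lp_split h h4 (r1.2 rfl)], by simp [lp_split h' h4' (r2.2 rfl)]⟩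
    · exact ⟨1, 0, by simp [lp_split h h4 (r1.2 rfl)],
        by simp [lp_nonsplit h' h4' (mt r2.1 (by norm_num))]⟩
    · exact ⟨-1, 0, by simp [lp_nonsplit h h4 (mt r1.1 (by norm_num))],
        by simp [lp_nonsplit h' h4' (mt r2.1 (by norm_num))]⟩
    · exact ⟨-1, 0, by simp [lp_nonsplit h h4 (mt r1.1 (by norm_num))],
        by simp [lp_split h' h4' (r2.2 (by norm_num))]⟩
  · have h' : (tw3 a b c d).Δ ≠ 0 := by
      rw [tw3_Δ]
      exact mul_ne_zero (pow_ne_zero _ hd) h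
    refine ⟨_, _, lp_good h, ?_⟩
    rw [lp_good h', tw3_card hk hd h', tw3_card hk one_ne_zero h, hε, map_one, one_mul, one_mul]
    congr 4
    ring

/-- A model whose discriminant is prime to `c₄`. -/
def Semi (V : WeierstrassCurve ℤ) : Prop := ∀ l : ℤ, Prime l → l ∣ V.Δ → ¬l ∣ V.c₄

lemma Semi.Δ_ne {V : WeierstrassCurve ℤ} (h : V.Δ ≠ 0) {d : ℤ} (hd : d ≠ 0) (v : ℤ) (hv : v ≠ 0) :
    v ^ 12 * d ^ 6 * V.Δ ≠ 0 := by positivity

/-- The model `y ^ 2 = x ^ 3 + b₂ d x ^ 2 + 8 b₄ d ^ 2 x + 16 b₆ d ^ 3`. -/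
def wd (V : WeierstrassCurve ℤ) (d : ℤ) : WeierstrassCurve ℤ := tw3 V.b₂ (8 * V.b₄) (16 * V.b₆) d

lemma wd_c₄ (V : WeierstrassCurve ℤ) (d : ℤ) : (wd V d).c₄ = 2 ^ 4 * d ^ 2 * V.c₄ := by
  simp only [wd, tw3, c₄]
  simp only [b₂, b₄]
  ring

lemma wd_c₆ (V : WeierstrassCurve ℤ) (d : ℤ) : (wd V d).c₆ = 2 ^ 6 * d ^ 3 * V.c₆ := by
  simp only [wd, tw3, c₆]
  simp only [b₂, b₄, b₆]
  ring

lemma Δ_of_c {M V : WeierstrassCurve ℤ} {d v : ℤ} (h4 : M.c₄ = v ^ 4 * d ^ 2 * V.c₄)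
    (h6 : M.c₆ = v ^ 6 * d ^ 3 * V.c₆) : M.Δ = v ^ 12 * d ^ 6 * V.Δ := by
  have h1 := M.c_relation
  have h2 := V.c_relation
  rw [h4, h6] at h1
  have : 1728 * M.Δ = 1728 * (v ^ 12 * d ^ 6 * V.Δ) := by linear_combination h1 - v ^ 12 * d ^ 6 * h2
  exact mul_left_cancel₀ (by norm_num) this

lemma wd_Δ (V : WeierstrassCurve ℤ) (d : ℤ) : (wd V d).Δ = 2 ^ 12 * d ^ 6 * V.Δ :=
  Δ_of_c (wd_c₄ V d) (wd_c₆ V d)

/-- Minimality away from `v`. -/
lemma not_dvd_model {M V : WeierstrassCurve ℤ} (hV : Semi V) {d v : ℤ} (hs : Squarefree d)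
    (h4 : M.c₄ = v ^ 4 * d ^ 2 * V.c₄) (h6 : M.c₆ = v ^ 6 * d ^ 3 * V.c₆) {l : ℤ} (hl : Prime l)
    (hv : ¬l ∣ v) : ¬(l ^ 12 ∣ M.Δ ∧ l ^ 4 ∣ M.c₄) := by
  rintro ⟨h1, h2⟩
  rw [Δ_of_c h4 h6, mul_assoc] at h1
  rw [h4, mul_assoc] at h2
  have a1 := hl.pow_dvd_of_dvd_mul_left 12 (fun h => hv (hl.dvd_of_dvd_pow h)) h1
  have a2 := hl.pow_dvd_of_dvd_mul_left 4 (fun h => hv (hl.dvd_of_dvd_pow h)) h2
  by_cases h : l ∣ V.Δ
  · have a3 : (l * l) ^ 2 ∣ d ^ 2 := by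
      rw [← pow_two, ← pow_mul]
      exact hl.pow_dvd_of_dvd_mul_right 4 (hV l hl h) a2
    exact hl.not_isUnit (hs _ ((Int.pow_dvd_pow_iff (by norm_num)).1 a3))
  · have a3 : (l * l) ^ 6 ∣ d ^ 6 := by
      rw [← pow_two, ← pow_mul]
      exact hl.pow_dvd_of_dvd_mul_right 12 h a1
    exact hl.not_isUnit (hs _ ((Int.pow_dvd_pow_iff (by norm_num)).1 a3))

/-- The odd primes. -/
lemma lpoly_odd {V : WeierstrassCurve ℤ} (hΔ : V.Δ ≠ 0) (hV : Semi V) {d : ℤ} (hs : Squarefree d)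
    (h2 : p ≠ 2) : ∃ α β : ℤ,
      lpoly p (twist (-27 * V.c₄) (-54 * V.c₆) 1) = 1 - C α * X + C β * X ^ 2 ∧
      lpoly p (twist (-27 * V.c₄) (-54 * V.c₆) d) =
        1 - C (J(d | p) * α) * X + C (J(d | p) ^ 2 * β) * X ^ 2 := by
  have hp' : Prime (p : ℤ) := Nat.prime_iff_prime_int.1 hp.out
  have hp2 : ¬(p : ℤ) ∣ 2 := fun h =>
    h2 ((Nat.prime_dvd_prime_iff_eq hp.out Nat.prime_two).1 (by exact_mod_cast h))
  have key : ∀ e : ℤ, Squarefree e → lpoly p (twist (-27 * V.c₄) (-54 * V.c₆) e) =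
      lp (tw3 (V.b₂ : ZMod p) (8 * V.b₄ : ℤ) (16 * V.b₆ : ℤ) e) := fun e he => by
    have h0 : (wd V e).Δ ≠ 0 := by
      rw [wd_Δ]
      exact Semi.Δ_ne hΔ he.ne_zero 2 two_ne_zero
    rw [lpoly_model (wd V e) h0 two_ne_zero (wd_c₄ V e) (wd_c₆ V e),
      lpoly_int p _ h0 (not_dvd_model hV he (wd_c₄ V e) (wd_c₆ V e) hp' hp2), wd, tw3_map]
    rfl
  rw [key 1 squarefree_one, key d hs, Int.cast_one, ← jacobiSym.legendreSym.to_jacobiSym, legendreSym]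
  have hk : ringChar (ZMod p) ≠ 2 := by rwa [ZMod.ringChar_zmod_n]
  by_cases hd : (d : ZMod p) = 0
  · obtain ⟨α, β, h, -⟩ := lp_tw3 hk (V.b₂ : ZMod p) (8 * V.b₄ : ℤ) (16 * V.b₆ : ℤ) one_ne_zero
    refine ⟨α, β, h, ?_⟩
    rw [hd, lp_add (by rw [tw3_Δ]; simp) (by rw [tw3_c₄]; simp)]
    simp
  · exact lp_tw3 hk _ _ _ hd

end Pool.Agent.Lib.MP_03e5d0_nt
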