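import Pool.Agent.Lib.MP_03e5d0_nt.ETw

/-! Local polynomials of the quadratic twists of a semistable curve at the prime two. -/

set_option autoImplicit false

noncomputable section

namespace Pool.Agent.Lib.MP_03e5d0_nt

open WeierstrassCurve Polynomial
open scoped NumberTheorySymbols

section dvr

variable (R : Type*) [CommRing R] [IsDomain R] [IsDiscreteValuationRing R] {K : Type*}
  [Field K] [Algebra R K] [IsFractionRing R K]

open IsDiscreteValuationRing IsLocalRing IsDedekindDomain.HeightOneSpectrum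

lemma isMinimal_map' (A : WeierstrassCurve R)
    (h : ∀ (u : R) (B : WeierstrassCurve R), residue R u = 0 → A.c₄ = u ^ 4 * B.c₄ →
      A.c₆ = u ^ 6 * B.c₆ → False) : IsMinimal R (A.map (algebraMap R K)) := by
  have i0 := isIntegral_map R (K := K) A
  refine ⟨⟨by simpa using i0, fun C hC _ => ?_⟩⟩
  simp only [one_smul]
  have hC' : IsIntegral R (C • A.map (algebraMap R K)) := hC
  rw [← Subtype.coe_le_coe, valuation_Δ_aux_eq_of_isIntegral, valuation_Δ_aux_eq_of_isIntegral,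
    variableChange_Δ, map_mul]
  refine mul_le_of_le_one_left' ?_
  rw [map_pow, Units.val_inv_eq_inv_val, map_inv₀]
  refine pow_le_one' (inv_le_one_of_one_le₀ (not_lt.1 fun hlt => ?_)) _
  obtain ⟨u, hu⟩ := exists_lift_of_le_one hlt.le
  have hu1 : (C.u : K) * (C.u⁻¹ : Kˣ) = 1 := C.u.mul_inv
  obtain ⟨B, hB⟩ := hC'.integral
  have d1 := variableChange_c₆ (A.map (algebraMap R K)) C
  have d2 := variableChange_c₄ (A.map (algebraMap R K)) C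
  rw [hB] at d1 d2
  simp only [baseChange, map_c₆, map_c₄] at d1 d2
  refine h u B ((val_lt_one_iff R (K := K) u).1 (hu ▸ hlt)) ?_ ?_
  · apply IsFractionRing.injective R K
    rw [map_mul, map_pow, hu, d2, ← mul_assoc, pow_mul_pow_eq_one 4 hu1, one_mul]
  · apply IsFractionRing.injective R K
    rw [map_mul, map_pow, hu, d1, ← mul_assoc, pow_mul_pow_eq_one 6 hu1, one_mul]

lemma localPolynomial_map' {k : Type*} [Field k] (ρ : R →+* k) (hρ : Function.Surjective ρ)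
    (A : WeierstrassCurve R) (hΔ : A.Δ ≠ 0)
    (h : ∀ (u : R) (B : WeierstrassCurve R), ρ u = 0 → A.c₄ = u ^ 4 * B.c₄ →
      A.c₆ = u ^ 6 * B.c₆ → False) :
    (A.map (algebraMap R K)).localPolynomial R = lp (A.map ρ) := by
  have hk : RingHom.ker ρ = IsLocalRing.maximalIdeal R :=
    IsLocalRing.eq_maximalIdeal (RingHom.ker_isMaximal_of_surjective ρ hρ)
  have := isMinimal_map' R (K := K) A fun u B hu => h u B (by
    rwa [residue_eq_zero_iff, ← hk] at hu)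
  rw [localPolynomial_of_isMinimal R _ (by simpa using hΔ) 1 A (one_smul _ _)]
  let e : ResidueField R ≃+* k :=
    (Ideal.quotEquivOfEq hk.symm).trans (RingHom.quotientKerEquivOfSurjective hρ)
  rw [← lp_map e, WeierstrassCurve.map_map]
  rfl

end dvr

/-- Minimality at two, tested modulo `32`. -/
theorem lpoly_int_two (V : WeierstrassCurve ℤ) (hΔ : V.Δ ≠ 0) {c c' : ℤ} (h4 : V.c₄ = 2 ^ 4 * c)
    (h6 : V.c₆ = 2 ^ 6 * c') (h : ∀ (w : ZMod 32) (B : WeierstrassCurve (ZMod 32)),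
      (c : ZMod 32) = w ^ 4 * B.c₄ → (c' : ZMod 32) = w ^ 6 * B.c₆ → False) :
    lpoly 2 (V.map (Int.castRingHom ℚ)) = lp (V.map (Int.castRingHom (ZMod 2))) := by
  have e1 : (V.map (Int.castRingHom ℚ)).baseChange (Kp 2) =
      (V.map (Int.castRingHom (Op 2))).map (algebraMap (Op 2) (Kp 2)) := by
    rw [baseChange, WeierstrassCurve.map_map, WeierstrassCurve.map_map]
    congr 1
    exact RingHom.ext_int _ _
  have h0 : (V.map (Int.castRingHom (Op 2))).Δ ≠ 0 := by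
    rw [map_Δ, eq_intCast, ← map_intCast (eO 2)]
    exact (map_ne_zero_iff _ (eO 2).injective).2 (Int.cast_ne_zero.2 hΔ)
  rw [lpoly, e1, localPolynomial_map' _ (red 2) (ZMod.ringHom_surjective _) _ h0
    fun u B hu h1 h2 => ?_, WeierstrassCurve.map_map]
  · congr 2
    exact RingHom.ext_int _ _
  have a1 : (eO 2).symm u ∈ RingHom.ker (PadicInt.toZMod : ℤ_[2] →+* ZMod 2) := hu
  rw [PadicInt.ker_toZMod, PadicInt.maximalIdeal_eq_span_p, Ideal.mem_span_singleton] at a1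
  obtain ⟨w, hw⟩ := a1
  have a2 := congrArg (eO 2).symm h1
  have a3 := congrArg (eO 2).symm h2
  rw [map_c₄, eq_intCast, map_intCast, map_mul, map_pow, hw, h4] at a2
  rw [map_c₆, eq_intCast, map_intCast, map_mul, map_pow, hw, h6] at a3
  have a4 : (c : ℤ_[2]) = w ^ 4 * (eO 2).symm B.c₄ := by
    refine mul_left_cancel₀ (show (2 : ℤ_[2]) ^ 4 ≠ 0 from pow_ne_zero _ two_ne_zero) ?_
    push_cast at a2
    linear_combination a2
  have a5 : (c' : ℤ_[2]) = w ^ 6 * (eO 2).symm B.c₆ := by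
    refine mul_left_cancel₀ (show (2 : ℤ_[2]) ^ 6 ≠ 0 from pow_ne_zero _ two_ne_zero) ?_
    push_cast at a3
    linear_combination a3
  let φ : ℤ_[2] →+* ZMod 32 := PadicInt.toZModPow 5
  refine h (φ w) (B.map (φ.comp (eO 2).symm.toRingHom)) ?_ ?_
  · rw [← map_intCast φ, a4, map_mul, map_pow, map_c₄]
    rfl
  · rw [← map_intCast φ, a5, map_mul, map_pow, map_c₆]
    rfl

/-- The necessary conditions of Kraus. -/
lemma kraus {R : Type*} [CommRing R] (B : WeierstrassCurve R) (a : R) :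
    (B.a₁ = 2 * a + 1 → (∃ t, B.c₆ = 4 * t - 1) ∧ ∃ t, B.c₄ = 2 * t + 1) ∧
    (B.a₁ = 2 * a → (∃ t, B.c₆ = 32 * t + 8 * B.a₃ ^ 2) ∧ ∃ t, B.c₄ = 16 * t) := by
  constructor <;> intro h
  · obtain ⟨s, hs⟩ : ∃ s, B.b₂ = 4 * s + 1 := ⟨a ^ 2 + a + B.a₂, by rw [b₂, h]; ring⟩
    exact ⟨⟨-(16 * s ^ 3 + 12 * s ^ 2 + 3 * s) + 9 * B.b₂ * B.b₄ - 54 * B.b₆, by rw [c₆, hs]; ring⟩,
      8 * s ^ 2 + 4 * s - 12 * B.b₄, by rw [c₄, hs]; ring⟩
  · exact ⟨⟨-2 * (a ^ 2 + B.a₂) ^ 3 + 9 * (a ^ 2 + B.a₂) * (B.a₄ + a * B.a₃) - 27 * B.a₆ - 7 * B.a₃ ^ 2,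
      by rw [c₆, b₂, b₄, b₆, h]; ring⟩,
      (a ^ 2 + B.a₂) ^ 2 - 3 * (B.a₄ + a * B.a₃), by rw [c₄, b₂, b₄, h]; ring⟩

lemma kraus32 (B : WeierstrassCurve (ZMod 32)) :
    (∃ t, B.c₆ = 4 * t - 1) ∨ ((∃ t, B.c₆ = 8 * t ^ 2) ∧ ∃ t, B.c₄ = 16 * t) := by
  have h : ∀ x : ZMod 32, ∃ a, x = 2 * a + 1 ∨ x = 2 * a := by decide
  obtain ⟨a, h | h⟩ := h B.a₁
  · exact Or.inl ((kraus B a).1 h).1
  · obtain ⟨⟨t, ht⟩, h4⟩ := (kraus B a).2 h
    exact Or.inr ⟨⟨B.a₃, by rw [ht, show (32 : ZMod 32) = 0 from rfl, zero_mul, zero_add]⟩, h4⟩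

lemma Semi.a₃_odd {V : WeierstrassCurve ℤ} (hV : Semi V) {a : ℤ} (h : V.a₁ = 2 * a) :
    ¬(2 : ℤ) ∣ V.Δ ∧ ∃ e, V.a₃ = 2 * e + 1 := by
  obtain ⟨-, t, ht⟩ := (kraus V a).2 h
  have h1 : ¬(2 : ℤ) ∣ V.Δ := fun h2 => hV 2 Int.prime_two h2 ⟨8 * t, by rw [ht]; ring⟩
  refine ⟨h1, ?_⟩
  obtain ⟨e, he | he⟩ := Int.even_or_odd' V.a₃
  · refine absurd ((ZMod.intCast_zmod_eq_zero_iff_dvd _ 2).1 ?_) h1
    have h2 : ∀ x y z : ZMod 2, (⟨0, x, 0, y, z⟩ : WeierstrassCurve (ZMod 2)).Δ = 0 := by decide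
    have h3 : V.map (Int.castRingHom (ZMod 2)) = ⟨0, V.a₂, 0, V.a₄, V.a₆⟩ := by
      ext <;> simp [h, he, show (2 : ZMod 2) = 0 from rfl]
    rw [← eq_intCast (Int.castRingHom (ZMod 2)), ← map_Δ, h3, h2]
  · exact ⟨e, he⟩

lemma lp_wd_two (V : WeierstrassCurve ℤ) (d : ℤ) : lp ((wd V d).map (Int.castRingHom (ZMod 2))) = 1 := by
  refine lp_add ?_ ?_
  · simp [wd_Δ, show (4096 : ZMod 2) = 0 from rfl]
  · simp [wd_c₄, show (16 : ZMod 2) = 0 from rfl]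

/-- Ramified twists have additive reduction at two. -/
lemma lpoly_two_ram {V : WeierstrassCurve ℤ} (hΔ : V.Δ ≠ 0) (hV : Semi V) {d : ℤ} (hs : Squarefree d)
    (hd : d % 4 ≠ 1) : lpoly 2 (twist (-27 * V.c₄) (-54 * V.c₆) d) = 1 := by
  have h0 : (wd V d).Δ ≠ 0 := by
    rw [wd_Δ]
    exact Semi.Δ_ne hΔ hs.ne_zero 2 two_ne_zero
  have h4 : d % 4 ≠ 0 := fun h => Int.prime_two.not_isUnit (hs 2 (by omega))
  have key : (∀ (w : ZMod 32) (B : WeierstrassCurve (ZMod 32)), ((d ^ 2 * V.c₄ : ℤ) : ZMod 32) =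
      w ^ 4 * B.c₄ → ((d ^ 3 * V.c₆ : ℤ) : ZMod 32) = w ^ 6 * B.c₆ → False) →
      lpoly 2 (twist (-27 * V.c₄) (-54 * V.c₆) d) = 1 := fun H => by
    rw [lpoly_model (wd V d) h0 two_ne_zero (wd_c₄ V d) (wd_c₆ V d),
      lpoly_int_two _ h0 ((wd_c₄ V d).trans (mul_assoc _ _ _)) ((wd_c₆ V d).trans (mul_assoc _ _ _)) H,
      lp_wd_two]
  obtain ⟨a, ha | ha⟩ := Int.even_or_odd' V.a₁
  · obtain ⟨h1, e, he⟩ := hV.a₃_odd ha
    obtain ⟨⟨t, ht⟩, t', ht'⟩ := (kraus V a).2 ha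
    rcases (by omega : d % 4 = 3 ∨ d % 4 = 2) with h | h
    · refine key fun w B _ b2 => ?_
      obtain ⟨k, rfl⟩ : ∃ k, d = 4 * k + 3 := ⟨d / 4, by omega⟩
      have b3 : (((4 * k + 3) ^ 3 * V.c₆ : ℤ) : ZMod 32) = 24 := by
        rw [ht, he]
        push_cast
        rw [show (32 : ZMod 32) = 0 from rfl, zero_mul, zero_add]
        generalize (k : ZMod 32) = k
        generalize (e : ZMod 32) = e
        revert k e
        decide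
      rw [b3] at b2
      have c1 : ∀ w s : ZMod 32, 24 ≠ w ^ 6 * (4 * s - 1) ∧ 24 ≠ w ^ 6 * (8 * s ^ 2) := by decide
      rcases kraus32 B with ⟨s, hs⟩ | ⟨⟨s, hs⟩, -⟩ <;> rw [hs] at b2
      · exact (c1 w s).1 b2
      · exact (c1 w s).2 b2
    · obtain ⟨k, rfl⟩ : ∃ k, d = 2 * k := ⟨d / 2, by omega⟩
      let M : WeierstrassCurve ℤ :=
        ⟨0, 2 * k * (a ^ 2 + V.a₂), 0, 2 * k ^ 2 * V.b₄, 2 * k ^ 3 * V.b₆⟩
      have m4 : M.c₄ = 1 ^ 4 * (2 * k) ^ 2 * V.c₄ := by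
        simp only [M, c₄, b₂, b₄, ha]
        ring
      have m6 : M.c₆ = 1 ^ 6 * (2 * k) ^ 3 * V.c₆ := by
        simp only [M, c₆, b₂, b₄, b₆, ha]
        ring
      have m0 : M.Δ ≠ 0 := by
        rw [Δ_of_c m4 m6]
        exact Semi.Δ_ne hΔ hs.ne_zero 1 one_ne_zero
      rw [lpoly_model M m0 one_ne_zero m4 m6,
        lpoly_int 2 _ m0 (not_dvd_model hV hs m4 m6 Int.prime_two (by norm_num))]
      refine lp_add ?_ ?_
      · simp [Δ_of_c m4 m6, show (2 : ZMod 2) = 0 from rfl]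
      · simp [m4, show (2 : ZMod 2) = 0 from rfl]
  · obtain ⟨⟨t, ht⟩, t', ht'⟩ := (kraus V a).1 ha
    refine key fun w B b1 b2 => ?_
    rcases (by omega : d % 4 = 3 ∨ d % 4 = 2) with h | h
    · obtain ⟨k, rfl⟩ : ∃ k, d = 4 * k + 3 := ⟨d / 4, by omega⟩
      obtain ⟨m, hm⟩ : ∃ m : ZMod 32, (((4 * k + 3) ^ 3 * V.c₆ : ℤ) : ZMod 32) = 4 * m + 1 :=
        ⟨(4 * k + 3) ^ 3 * t - (16 * k ^ 3 + 36 * k ^ 2 + 27 * k + 7), by rw [ht]; push_cast; ring⟩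
      rw [hm] at b2
      have c1 : ∀ w : ZMod 32, ∃ v, w ^ 6 = 4 * v ∨ w ^ 6 = 4 * v + 1 := by decide
      have c2 : ∀ x : ZMod 32, 4 * x ≠ 1 ∧ 4 * x ≠ 2 := by decide
      obtain ⟨v, hv | hv⟩ := c1 w <;> rw [hv] at b2
      · exact (c2 (v * B.c₆ - m)).1 (by linear_combination -b2)
      rcases kraus32 B with ⟨s, hs⟩ | ⟨⟨s, hs⟩, -⟩ <;> rw [hs] at b2
      · exact (c2 (4 * v * s - v + s - m)).2 (by linear_combination -b2)
      · exact (c2 ((4 * v + 1) * (2 * s ^ 2) - m)).1 (by linear_combination -b2)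
    · obtain ⟨k, rfl⟩ : ∃ k, d = 4 * k + 2 := ⟨d / 4, by omega⟩
      obtain ⟨m, hm⟩ : ∃ m : ZMod 32, (((4 * k + 2) ^ 2 * V.c₄ : ℤ) : ZMod 32) = 8 * m + 4 :=
        ⟨(2 * k + 1) ^ 2 * t' + 2 * k ^ 2 + 2 * k, by rw [ht']; push_cast; ring⟩
      obtain ⟨n, hn⟩ : ∃ n : ZMod 32, (((4 * k + 2) ^ 3 * V.c₆ : ℤ) : ZMod 32) = 2 * n :=
        ⟨4 * (2 * k + 1) ^ 3 * V.c₆, by push_cast; ring⟩
      rw [hm] at b1
      rw [hn] at b2
      have c1 : ∀ w : ZMod 32, ∃ v, w ^ 4 = 8 * v ∨ w ^ 6 = 2 * v + 1 := by decide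
      have c2 : ∀ x : ZMod 32, 8 * x ≠ 4 ∧ 2 * x ≠ 1 := by decide
      obtain ⟨v, hv | hv⟩ := c1 w
      · rw [hv] at b1
        exact (c2 (v * B.c₄ - m)).1 (by linear_combination -b1)
      rw [hv] at b2
      rcases kraus32 B with ⟨s, hs⟩ | ⟨-, s, hs⟩
      · rw [hs] at b2
        exact (c2 (4 * v * s - v + 2 * s - n)).2 (by linear_combination -b2)
      · rw [hs] at b1
        exact (c2 (w ^ 4 * (2 * s) - m)).1 (by linear_combination -b1)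

/-- The unramified twist in characteristic two. -/
def un2 {R : Type*} [CommRing R] (W : WeierstrassCurve R) : WeierstrassCurve R :=
  ⟨W.a₁, W.a₂ + W.a₁ ^ 2, W.a₃, W.a₄, W.a₆ + W.a₃ ^ 2⟩

lemma card_two (W : WeierstrassCurve (ZMod 2)) (h : W.Δ ≠ 0) : Nat.card W.toAffine.Point =
    (Finset.univ.filter fun z : ZMod 2 × ZMod 2 => z.2 ^ 2 + W.a₁ * z.1 * z.2 + W.a₃ * z.2 =
      z.1 ^ 3 + W.a₂ * z.1 ^ 2 + W.a₄ * z.1 + W.a₆).card + 1 := by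
  rw [card_point_eq W h, ← Fintype.card_subtype, ← Nat.card_eq_fintype_card]
  congr 1
  exact Nat.card_congr (Equiv.subtypeEquivRight fun z => Affine.equation_iff _ _)

lemma lp_un2 (W : WeierstrassCurve (ZMod 2)) : ∃ α β : ℤ, lp W = 1 - C α * X + C β * X ^ 2 ∧
    lp (un2 W) = 1 - C (-1 * α) * X + C ((-1) ^ 2 * β) * X ^ 2 := by
  obtain ⟨a1, a2, a3, a4, a6⟩ := W
  have e1 : (un2 ⟨a1, a2, a3, a4, a6⟩).Δ = (⟨a1, a2, a3, a4, a6⟩ : WeierstrassCurve (ZMod 2)).Δ := by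
    revert a1 a2 a3 a4 a6
    decide
  have e2 : (un2 ⟨a1, a2, a3, a4, a6⟩).c₄ = (⟨a1, a2, a3, a4, a6⟩ : WeierstrassCurve (ZMod 2)).c₄ := by
    revert a1 a2 a3 a4 a6
    decide
  by_cases h : (⟨a1, a2, a3, a4, a6⟩ : WeierstrassCurve (ZMod 2)).Δ = 0
  · by_cases h4 : (⟨a1, a2, a3, a4, a6⟩ : WeierstrassCurve (ZMod 2)).c₄ = 0
    · exact ⟨0, 0, by simp [lp_add h h4], by simp [lp_add (e1.trans h) (e2.trans h4)]⟩
    have e3 : (∃ T, nodeq (un2 ⟨a1, a2, a3, a4, a6⟩) T = 0) ↔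
        ¬∃ T, nodeq (⟨a1, a2, a3, a4, a6⟩ : WeierstrassCurve (ZMod 2)) T = 0 := by
      clear e1 e2
      revert a1 a2 a3 a4 a6
      decide
    by_cases h5 : ∃ T, nodeq (⟨a1, a2, a3, a4, a6⟩ : WeierstrassCurve (ZMod 2)) T = 0
    · exact ⟨1, 0, by simp [lp_split h h4 h5],
        by simp [lp_nonsplit (e1.trans h) (e2 ▸ h4) fun hh => e3.1 hh h5]⟩
    · exact ⟨-1, 0, by simp [lp_nonsplit h h4 h5], by simp [lp_split (e1.trans h) (e2 ▸ h4) (e3.2 h5)]⟩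
  · refine ⟨_, _, lp_good h, ?_⟩
    have e4 : (Finset.univ.filter fun z : ZMod 2 × ZMod 2 => z.2 ^ 2 + a1 * z.1 * z.2 + a3 * z.2 =
        z.1 ^ 3 + (a2 + a1 ^ 2) * z.1 ^ 2 + a4 * z.1 + (a6 + a3 ^ 2)).card +
        (Finset.univ.filter fun z : ZMod 2 × ZMod 2 => z.2 ^ 2 + a1 * z.1 * z.2 + a3 * z.2 =
        z.1 ^ 3 + a2 * z.1 ^ 2 + a4 * z.1 + a6).card = 4 := by
      clear e1 e2 h
      revert a1 a2 a3 a4 a6
      decide
    rw [lp_good (e1 ▸ h), card_two _ (e1 ▸ h), card_two _ h, Nat.card_zmod]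
    simp only [un2]
    congr 4
    push_cast
    omega

/-- The unramified twists at two. -/
lemma lpoly_two_unr {V : WeierstrassCurve ℤ} (hΔ : V.Δ ≠ 0) (hV : Semi V) {d : ℤ} (hs : Squarefree d)
    (hd : d % 4 = 1) : ∃ α β : ℤ,
      lpoly 2 (twist (-27 * V.c₄) (-54 * V.c₆) 1) = 1 - C α * X + C β * X ^ 2 ∧
      lpoly 2 (twist (-27 * V.c₄) (-54 * V.c₆) d) =
        1 - C (J(2 | d.natAbs) * α) * X + C (J(2 | d.natAbs) ^ 2 * β) * X ^ 2 := by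
  have key : ∀ k : ℤ, Squarefree (4 * k + 1) → lpoly 2 (twist (-27 * V.c₄) (-54 * V.c₆) (4 * k + 1 : ℤ)) =
      lp ⟨(V.a₁ : ZMod 2), V.a₂ + k * V.a₁ ^ 2, V.a₃, V.a₄, V.a₆ + k * V.a₃ ^ 2⟩ := fun k hk => by
    let M : WeierstrassCurve ℤ := ⟨V.a₁, (4 * k + 1) * V.a₂ + k * V.a₁ ^ 2, (4 * k + 1) * V.a₃,
      (4 * k + 1) ^ 2 * V.a₄ + 2 * k * (4 * k + 1) * V.a₁ * V.a₃,
      (4 * k + 1) ^ 3 * V.a₆ + k * (4 * k + 1) ^ 2 * V.a₃ ^ 2⟩
    have m4 : M.c₄ = 1 ^ 4 * (4 * k + 1) ^ 2 * V.c₄ := by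
      simp only [M, c₄, b₂, b₄]
      ring
    have m6 : M.c₆ = 1 ^ 6 * (4 * k + 1) ^ 3 * V.c₆ := by
      simp only [M, c₆, b₂, b₄, b₆]
      ring
    have m0 : M.Δ ≠ 0 := by
      rw [Δ_of_c m4 m6]
      exact Semi.Δ_ne hΔ hk.ne_zero 1 one_ne_zero
    rw [lpoly_model M m0 one_ne_zero m4 m6,
      lpoly_int 2 _ m0 (not_dvd_model hV hk m4 m6 Int.prime_two (by norm_num))]
    congr 1
    ext <;> simp [M, show (2 : ZMod 2) = 0 from rfl, show (4 : ZMod 2) = 0 from rfl]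
  have k0 := key 0 (by simp)
  obtain ⟨k, rfl⟩ : ∃ k, d = 4 * k + 1 := ⟨d / 4, by omega⟩
  have k1 := key k hs
  simp only [mul_zero, zero_add, Int.cast_zero, zero_mul, add_zero] at k0
  rw [k0, k1, jacobiSym.at_two (Nat.odd_iff.2 (by omega)), ZMod.χ₈_nat_eq_if_mod_eight,
    if_neg (by omega)]
  obtain ⟨α, β, h1, h2⟩ := lp_un2 ⟨(V.a₁ : ZMod 2), V.a₂, V.a₃, V.a₄, V.a₆⟩
  refine ⟨α, β, h1, ?_⟩
  obtain ⟨e, rfl | rfl⟩ := Int.even_or_odd' k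
  · rw [if_pos (by omega), one_pow, one_mul, one_mul, ← h1]
    congr 1
    ext <;> simp [show (2 : ZMod 2) = 0 from rfl]
  · rw [if_neg (by omega), ← h2]
    congr 1
    ext <;> simp [un2, show (2 : ZMod 2) = 0 from rfl]

end Pool.Agent.Lib.MP_03e5d0_nt
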