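import Pool.Agent.Lib.MP_03e5d0_nt.Stmt

/-! The interface between the analytic core, modular forms and elliptic curves. -/

set_option autoImplicit false

noncomputable section

namespace Pool.Agent.Lib.MP_03e5d0_nt

open Complex
open scoped NumberTheorySymbols Real

/-- Normalised Hecke eigenvalues away from `q`. -/
structure Data where
  q : ℕ
  lam : ℕ → ℝ
  q_ne : q ≠ 0
  small : ∀ p : ℕ, p.Prime → p < 10000 → p ∣ q
  lam_one : lam 1 = 1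
  lam_zero : ∀ n : ℕ, ¬n.Coprime q → lam n = 0
  lam_mul : ∀ m n : ℕ, m.Coprime n → lam (m * n) = lam m * lam n
  lam_rec : ∀ p j : ℕ, p.Prime → ¬p ∣ q → lam (p ^ (j + 2)) = lam p * lam (p ^ (j + 1)) - lam (p ^ j)
  lam_le : ∀ p : ℕ, p.Prime → |lam p| ≤ 2

/-- The coefficients of the twist by the Jacobi symbol `(k / n)`. -/
def Data.co (D : Data) (k : ℤ) (n : ℕ) : ℂ := ((D.lam n * J(k | n) * √n : ℝ) : ℂ)

/-- The twisted form. -/
def Data.F (D : Data) (k : ℤ) (z : ℂ) : ℂ := ∑' n : ℕ, D.co k n * exp (2 * π * I * n * z)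

/-- The family of discriminants. -/
def Data.Fam (D : Data) (d : ℤ) : Prop := Squarefree d ∧ d ≡ 1 [ZMOD 8 * D.q]

/-- The functional equation of the twist by `k` with conductor `C` and dual coefficients `γ`. -/
def Data.Dual (D : Data) (k : ℤ) (C : ℝ) (γ : ℕ → ℝ) : Prop :=
  ∀ z : ℂ, 0 < z.im →
    HasSum (fun n : ℕ => (γ n : ℂ) * n * D.F k (n * z)) (D.F k (-1 / (C * z)) / (C * z ^ 2))

/-- Functional equations for all twists. -/
def Data.FE (D : Data) : Prop :=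
  ∃ (c₀ C₀ M : ℝ) (gb γ₁ : ℕ → ℝ), 0 < c₀ ∧ 0 < M ∧ (∀ n, 0 ≤ gb n) ∧
    Summable (fun n : ℕ => gb n * (1 + Real.log n)) ∧
    (∀ k : ℤ, Squarefree k → ∃ (C : ℝ) (γ : ℕ → ℝ), c₀ * (k : ℝ) ^ 2 ≤ C ∧ C ≤ C₀ * (k : ℝ) ^ 2 ∧
      (∀ n, |γ n| ≤ gb n) ∧ D.Dual k C γ) ∧
    (∀ n, |γ₁ n| ≤ gb n) ∧
    ∀ d : ℤ, D.Fam d → D.Dual d (M * (d : ℝ) ^ 2) fun n => d.sign * γ₁ n

/-- Sum over the primes not dividing `q`. -/
def PSum (q : ℕ) (a : ℕ → ℝ) (s : ℂ) : ℂ :=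
  ∑' p : ℕ, if p.Prime ∧ ¬p ∣ q then (a p : ℂ) * (p : ℂ) ^ (-s) else 0

/-- Prime number theorem type bounds to the right of the line `Re s = 1`. -/
def PSdata (q : ℕ) (a : ℕ → ℝ) : Prop :=
  ∃ (C : ℝ) (k : ℕ), 0 ≤ C ∧ ∀ s : ℂ, 1 < s.re → s.re ≤ 3 →
    |(PSum q a s).re + Real.log ‖s - 1‖| ≤ C + k * Real.log (1 + |s.im|) ∧
    ‖PSum q (fun p => a p * Real.log p) s - 1 / (s - 1)‖ ≤ C * (1 + |s.im|) ^ k ∧
    ‖PSum q (fun p => a p * Real.log p ^ 2) s - 1 / (s - 1) ^ 2‖ ≤ C * (1 + |s.im|) ^ k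

/-- The prime sum bounds that come from the Rankin-Selberg series and the zeta function. -/
def Data.PS (D : Data) : Prop := PSdata D.q (fun p => D.lam p ^ 2) ∧ PSdata D.q fun _ => 1

/-- The `L`-series of the twist by `d`, without the Euler factors at `q`, has a simple zero at the
centre. -/
def Data.Simple (D : Data) (d : ℤ) : Prop :=
  ∃ G : ℂ → ℂ, Differentiable ℂ G ∧ (∀ s : ℂ, 2 < s.re → G s = LSeries (D.co d) s) ∧
    analyticOrderAt G 1 = 1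

end Pool.Agent.Lib.MP_03e5d0_nt
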