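import Pool.Agent.Lib.MP_03e5d0_nt.KDef

set_option autoImplicit false

noncomputable section

namespace Pool.Agent.Lib.MP_03e5d0_nt

open Complex Finset MeasureTheory
open scoped NumberTheorySymbols Real ContDiff

/-! The second moment over all integers. -/

/-- The piece of the basic weight in one window. -/
def kall_W (r t v : ℝ) : ℂ := (psi v : ℂ) * ((bump 5 (v + r) : ℂ) * ex t (v + r))

theorem kall_sm (J : ℕ) : ∃ K : ℝ, 0 ≤ K ∧ ∀ r t : ℝ, Sm J (-1) 1 (K * (1 + |t|) ^ J) (kall_W r t) := by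
  obtain ⟨B₁, h₁⟩ := sm_psi J
  obtain ⟨B₂, h₂⟩ := sm_bump J 5
  have e₁ := h₁.nonneg
  have e₂ := h₂.nonneg
  refine ⟨2 ^ J * B₁ * (2 ^ J * B₂), by positivity, fun r t => ?_⟩
  have h₃ := (h₂.mul_ex t).shift r
  exact (h₁.mul h₃.smooth h₃.nonneg fun i hi y _ => h₃.bd i hi y).mono le_rfl le_rfl le_rfl
    (le_of_eq (by ring))

theorem kall_tw (D : Data) (x : ℕ → ℝ) (L t : ℝ) :
    tw D x 5 L t = ∑ i ∈ Icc (-6 : ℤ) 6, sm D x fun y => kall_W i t (y - (L + i)) := by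
  rw [← sm_sum (L := L + 7) (V := fun (i : ℤ) y => kall_W i t (y - (L + i))), tw]
  · congr 1
    funext y
    have h1 : ∀ i : ℤ, kall_W i t (y - (L + i)) =
        (psi (y - L - i) : ℂ) * ((bump 5 (y - L) : ℂ) * ex t (y - L)) := fun i => by
      rw [kall_W, show y - (L + i) + i = y - L by ring, show y - (L + i) = y - L - i by ring]
    simp only [h1, ← sum_mul]
    by_cases h : |y - L| ≤ 6
    · have h2 := sum_psi_int (y := y - L) (n := 6) (by exact_mod_cast h)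
      rw [← ofReal_sum, show Icc (-6 : ℤ) 6 = Icc (-((6 : ℕ) : ℤ)) (6 : ℕ) from rfl, h2]
      simp
    · rw [bump_eq_zero (by linarith [not_le.mp h])]
      simp
  · intro i hi y hy
    have h1 : (i : ℝ) ≤ 6 := by exact_mod_cast (mem_Icc.mp hi).2
    rw [kall_W, psi_eq_zero (le_abs.mpr (Or.inl (by linarith)))]
    simp

/-- One window. -/
theorem kall_one (D : Data) {W : ℝ → ℂ} {j : ℕ} {B L X Λ U V : ℝ} (hW : Sm j (-1) 1 B W) (hX : 1 ≤ X)
    (hU : Ex (pr D Λ) dl0 (fun x => ‖sm D x fun y => W (y - L)‖ ^ 2) ≤ U)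
    (hV : ‖gsum X (fun x => (cm x 1 : ℂ) * sm D x (fun y => W (y - L)) *
        sm D x fun y => starRingEnd ℂ (W (y - L))) -
      X * Ex (pr D Λ) dl0 (fun x => (cm x 1 : ℂ) * sm D x (fun y => W (y - L)) *
        sm D x fun y => starRingEnd ℂ (W (y - L)))‖ ≤ V) :
    ∑ m ∈ allm X, ‖sm D (jac m) fun y => W (y - L)‖ ^ 2 ≤ Real.exp π * (X * U + V) := by
  have h1 : (fun x => (cm x 1 : ℂ) * sm D x (fun y => W (y - L)) *
      sm D x fun y => starRingEnd ℂ (W (y - L))) =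
      fun x => ((‖sm D x fun y => W (y - L)‖ ^ 2 : ℝ) : ℂ) := by
    funext x
    rw [sm_conj, cm_one, ofReal_one, one_mul, mul_conj, normSq_eq_norm_sq]
  rw [h1, Ex_ofReal] at hV
  have h2 := sum_allm_le_gsum (X := X) (by linarith)
    (f := fun x => ‖sm D x fun y => W (y - L)‖ ^ 2) (fun x _ => sq_nonneg _)
    (K := (2 * B * Real.exp (L + 1)) ^ 2) fun x hx => pow_le_pow_left₀ (norm_nonneg _)
      (norm_sm_le hx hW.nonneg (fun y hy => hW.supp _ (Or.inr (by linarith)))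
        fun y => hW.norm_le _) 2
  refine h2.trans (mul_le_mul_of_nonneg_left ?_ (Real.exp_pos _).le)
  have h3 := (re_le_norm _).trans hV
  rw [sub_re, ← ofReal_mul, ofReal_re] at h3
  have h4 := mul_le_mul_of_nonneg_left hU (show 0 ≤ X by linarith)
  linarith

/-- `bump 5 y * ex t y = ∑ i ∈ Icc (-6) 6, W i (y - i)`, `W i v = psi v * (bump 5 (v+i) * ex t (v+i))`
(`sum_psi_int`); for each `i`: `sum_allm_le_gsum`, `‖z‖² = z * conj z` (`sm_conj`, `Sm.conj`), `Off` with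
`ℓ = 1`, `Λ = max 1 (L + 7)`, `DiagOne`, `√(u + v) ≤ √u + √v`. -/
theorem allm_le (D : Data) (hd : DiagOne D) (ho : Off D) : ∃ j c : ℕ, ∀ A a : ℕ, ∃ C : ℝ, 0 ≤ C ∧
    ∀ Θ : ℝ → ℝ, IH D A a Θ → ∀ X L t : ℝ, 1 ≤ X →
    nrm (allm X) (fun m => tw D (jac m) 5 L t) ≤
      C * (√X * (1 + |t|) ^ j * (1 + Real.log (1 + max 1 (L + 7))) +
        (1 + |t|) ^ (A + c) * Real.exp (L / 2) * Θ (1 + Real.exp (2 * L + 12) / X)) := by
  obtain ⟨j, Cd, hCd, hd⟩ := hd
  obtain ⟨c, ho⟩ := ho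
  refine ⟨j, c, fun A a => ?_⟩
  obtain ⟨Co, hCo, ho⟩ := ho A a
  obtain ⟨K₁, hK₁, h₁⟩ := kall_sm j
  obtain ⟨K₂, hK₂, h₂⟩ := kall_sm (A + c)
  refine ⟨13 * (√(Real.exp π * (Cd + Co)) * (K₁ + K₂ * Real.exp 3)), by positivity,
    fun Θ hΘ X L t hX => ?_⟩
  set Λ := max 1 (L + 7) with hΛ
  have hΛ1 : 1 ≤ Λ := le_max_left _ _
  have hΛ2 : L + 7 ≤ Λ := le_max_right _ _
  have hlog : 0 ≤ Real.log (1 + Λ) := Real.log_nonneg (by linarith)
  have hX0 : 0 < X := by linarith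
  have hM : 1 ≤ 1 + Real.exp (2 * L + 12) / X := le_add_of_nonneg_right (by positivity)
  have hT := hΘ.pos _ hM
  set u := √X * (1 + |t|) ^ j * (1 + Real.log (1 + Λ)) with hu
  set v := (1 + |t|) ^ (A + c) * Real.exp (L / 2) * Θ (1 + Real.exp (2 * L + 12) / X) with hv
  have hu0 : 0 ≤ u := by positivity
  have hv0 : 0 ≤ v := by positivity
  have key : ∀ i ∈ Icc (-6 : ℤ) 6, nrm (allm X) (fun m => sm D (jac m) fun y =>
      kall_W i t (y - (L + i))) ≤ √(Real.exp π * (Cd + Co)) * (K₁ + K₂ * Real.exp 3) * (u + v) := by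
    intro i hi
    have hi6 : (i : ℝ) ≤ 6 := by exact_mod_cast (mem_Icc.mp hi).2
    have e1 := hd _ (L + i) Λ _ (h₁ i t) hΛ1
    have e2 := ho Θ hΘ X 1 (L + i) (L + i) _ _ Λ _ _ hX one_ne_zero (Nat.coprime_one_left _) (h₂ i t)
      (h₂ i t).conj (by simp only [Nat.cast_one, Real.log_one]; linarith) (by linarith) (by linarith)
    have e3 := kall_one D (h₁ i t) hX e1 e2
    refine nrm_le_of_sq (by positivity) (e3.trans ?_)
    have hM' : 1 ≤ 1 + Real.exp (L + i + (L + i)) * (1 : ℕ) / X :=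
      le_add_of_nonneg_right (by positivity)
    have e4 : Θ (1 + Real.exp (L + i + (L + i)) * (1 : ℕ) / X) ≤
        Θ (1 + Real.exp (2 * L + 12) / X) := by
      refine hΘ.mono _ _ hM' ?_
      rw [Nat.cast_one, mul_one]
      exact add_le_add le_rfl (div_le_div_of_nonneg_right (Real.exp_le_exp.mpr (by linarith)) hX0.le)
    have e5 := hΘ.pos _ hM'
    have e6 : Real.exp ((L + i + (L + i)) / 2) ≤ (Real.exp 3 * Real.exp (L / 2)) ^ 2 := by
      rw [← Real.exp_add, ← Real.exp_nat_mul]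
      exact Real.exp_le_exp.mpr (by push_cast; linarith)
    have e7 : X * (Cd * (K₁ * (1 + |t|) ^ j) ^ 2 * (1 + Real.log (1 + Λ))) ≤ Cd * (K₁ * u) ^ 2 := by
      have : Cd * (K₁ * u) ^ 2 = X * (Cd * (K₁ * (1 + |t|) ^ j) ^ 2 * (1 + Real.log (1 + Λ)) ^ 2) := by
        rw [hu]
        simp only [mul_pow, Real.sq_sqrt hX0.le]
        ring
      rw [this]
      gcongr
      nlinarith
    have e8 : Co * (K₂ * (1 + |t|) ^ (A + c)) * (K₂ * (1 + |t|) ^ (A + c)) * ((1 : ℕ) : ℝ) ^ c *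
        Real.exp ((L + i + (L + i)) / 2) * Θ (1 + Real.exp (L + i + (L + i)) * (1 : ℕ) / X) ^ 2 ≤
        Co * (K₂ * Real.exp 3 * v) ^ 2 := by
      calc _ ≤ Co * (K₂ * (1 + |t|) ^ (A + c)) * (K₂ * (1 + |t|) ^ (A + c)) * ((1 : ℕ) : ℝ) ^ c *
          (Real.exp 3 * Real.exp (L / 2)) ^ 2 * Θ (1 + Real.exp (2 * L + 12) / X) ^ 2 := by gcongr
        _ = _ := by
          rw [hv, Nat.cast_one, one_pow]
          ring
    have e9 : K₁ * u ≤ (K₁ + K₂ * Real.exp 3) * (u + v) := by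
      gcongr
      · exact le_add_of_nonneg_right (by positivity)
      · exact le_add_of_nonneg_right hv0
    have e10 : K₂ * Real.exp 3 * v ≤ (K₁ + K₂ * Real.exp 3) * (u + v) := by
      gcongr
      · exact le_add_of_nonneg_left hK₁
      · exact le_add_of_nonneg_left hu0
    calc _ ≤ Real.exp π * (Cd * ((K₁ + K₂ * Real.exp 3) * (u + v)) ^ 2 +
        Co * ((K₁ + K₂ * Real.exp 3) * (u + v)) ^ 2) := by
          refine mul_le_mul_of_nonneg_left (add_le_add (e7.trans ?_) (e8.trans ?_)) (Real.exp_pos _).le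
          · gcongr
          · gcongr
      _ = _ := by
          rw [mul_assoc (√_), mul_pow (√_), Real.sq_sqrt (by positivity)]
          ring
  calc _ ≤ ∑ i ∈ Icc (-6 : ℤ) 6, nrm (allm X) (fun m => sm D (jac m) fun y =>
        kall_W i t (y - (L + i))) :=
        nrm_sum _ fun m _ => by rw [kall_tw]; exact norm_sum_le _ _
    _ ≤ _ := (sum_le_card_nsmul _ _ _ key).trans (le_of_eq (by
        rw [show (Icc (-6 : ℤ) 6).card = 13 from rfl, nsmul_eq_mul]
        push_cast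
        ring))

end Pool.Agent.Lib.MP_03e5d0_nt
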