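import Pool.Agent.Lib.MP_03e5d0_nt.KTB

set_option autoImplicit false

noncomputable section

namespace Pool.Agent.Lib.MP_03e5d0_nt

open Complex Finset MeasureTheory
open scoped NumberTheorySymbols Real ContDiff

/-! From the basic family to the base weight. -/

theorem kbt_exp {u c : ℝ} (h1 : Real.exp (c - 2) ≤ u) (h2 : u ≤ Real.exp (c + 2)) :
    u * Real.exp (-(u / 2)) ≤ 48 * Real.exp 4 * min (Real.exp c) (Real.exp (-(2 * c))) := by
  have hu : 0 < u := (Real.exp_pos _).trans_le h1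
  rw [mul_min_of_nonneg _ _ (by positivity)]
  refine le_min ?_ ?_
  · have h3 : Real.exp (-(u / 2)) ≤ 1 := Real.exp_le_one_iff.2 (by linarith)
    have h4 : Real.exp (c + 2) ≤ Real.exp 4 * Real.exp c := by
      rw [← Real.exp_add]
      exact Real.exp_le_exp.2 (by linarith)
    have h5 : 0 < Real.exp 4 * Real.exp c := by positivity
    nlinarith
  · have h3 := Real.pow_div_factorial_le_exp (u / 2) (by positivity) 3
    have h4 : Real.exp (c - 2) ^ 2 ≤ u ^ 2 := pow_le_pow_left₀ (Real.exp_pos _).le h1 2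
    have h5 : Real.exp 4 * Real.exp (-(2 * c)) = (Real.exp (c - 2) ^ 2)⁻¹ := by
      rw [← Real.exp_add, ← Real.exp_nat_mul, ← Real.exp_neg]
      congr 1
      push_cast
      ring
    have h6 : u ^ 3 ≤ 48 * Real.exp (u / 2) := by
      norm_num [Nat.factorial] at h3
      linarith
    rw [mul_assoc, h5, Real.exp_neg, ← div_eq_mul_inv, ← div_eq_mul_inv,
      div_le_div_iff₀ (Real.exp_pos _) (by positivity)]
    nlinarith

theorem kbt_psi {y : ℝ} (hy : 0 ≤ y) : HasSum (fun i : ℕ => psi (y - i)) 1 := by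
  have h : y + 1 ≤ ((⌈y⌉₊ + 1 : ℕ) : ℝ) := by
    push_cast
    linarith [Nat.le_ceil y]
  rw [← sum_psi hy h]
  refine hasSum_sum_of_ne_finset_zero fun i hi => tsm_psi (Or.inl ?_)
  have : ((⌈y⌉₊ + 1 : ℕ) : ℝ) ≤ i := by exact_mod_cast not_lt.1 (mt mem_range.2 hi)
  linarith

theorem kbt_sum : ∃ K : ℝ, 0 ≤ K ∧ ∀ L : ℝ, (Summable fun i : ℕ => Real.exp (-|i - L|)) ∧
    ∑' i : ℕ, Real.exp (-|i - L|) ≤ K := by
  have h00 : Summable fun z : ℤ => Real.exp (-|(z : ℝ)|) :=
    Summable.of_nat_of_neg (by simpa using Real.summable_exp_neg_nat)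
      (by simpa using Real.summable_exp_neg_nat)
  have h0 := h00.mul_left (Real.exp 1)
  refine ⟨∑' z : ℤ, Real.exp 1 * Real.exp (-|(z : ℝ)|), tsum_nonneg fun _ => by positivity,
    fun L => ?_⟩
  have hi : Function.Injective fun i : ℕ => (i : ℤ) - ⌊L⌋ := fun a b h => by simpa using h
  have h1 := h0.comp_injective hi
  have h2 : ∀ i : ℕ, Real.exp (-|i - L|) ≤
      Real.exp 1 * Real.exp (-|(((i : ℤ) - ⌊L⌋ : ℤ) : ℝ)|) := by
    intro i
    rw [← Real.exp_add]
    refine Real.exp_le_exp.2 ?_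
    have a1 := Int.floor_le L
    have a2 := Int.lt_floor_add_one L
    have a3 := le_abs_self ((i : ℝ) - L)
    have a4 := neg_abs_le ((i : ℝ) - L)
    have a5 : |(i : ℝ) - ⌊L⌋| ≤ 1 + |i - L| := abs_le.2 ⟨by linarith, by linarith⟩
    push_cast
    linarith
  have h3 := Summable.of_nonneg_of_le (fun _ => (Real.exp_pos _).le) h2 h1
  exact ⟨h3, (h3.tsum_le_tsum h2 h1).trans
    (tsum_comp_le_tsum_of_inj h0 (fun _ => by positivity) hi)⟩

theorem kbt_min {M : ℝ} (hM : 0 < M) (y L : ℝ) :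
    min (Real.exp (y - L)) (Real.exp (-(2 * (y - L)))) * (1 + Real.exp y / M) ≤
      Real.exp (-|y - L|) * (1 + Real.exp L / M) := by
  rcases le_total y L with h | h
  · rw [abs_of_nonpos (by linarith), neg_neg]
    exact mul_le_mul (min_le_left _ _) (by gcongr) (by positivity) (Real.exp_pos _).le
  · rw [abs_of_nonneg (by linarith)]
    refine (mul_le_mul_of_nonneg_right (min_le_right _ _) (by positivity)).trans ?_
    have h1 : Real.exp (-(2 * (y - L))) ≤ Real.exp (-(y - L)) := Real.exp_le_exp.2 (by linarith)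
    have h2 : Real.exp (-(2 * (y - L))) * Real.exp y = Real.exp (-(y - L)) * Real.exp L := by
      rw [← Real.exp_add, ← Real.exp_add]
      congr 1
      ring
    rw [mul_add, mul_add, ← mul_div_assoc, ← mul_div_assoc, h2]
    linarith

/-- `Sm.mul_holo` with `δ = 1/(4 (1+|ξ|))`: `re ((1 - I ξ) exp z) ≥ exp (re z) / 2`, and
`u exp (-u/2) ≤ min u (48/u²)`. -/
theorem sm_psi_om (j : ℕ) : ∃ C : ℝ, 0 ≤ C ∧ ∀ ξ c : ℝ,
    Sm j (-1) 1 (C * (1 + |ξ|) ^ j * min (Real.exp c) (Real.exp (-(2 * c))))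
      fun v => (psi v : ℂ) * om ξ (v + c) := by
  obtain ⟨C, hC, h⟩ := Sm.mul_holo j
  obtain ⟨B, hB⟩ := sm_psi j
  have hB0 := hB.nonneg
  refine ⟨C * B * (48 * Real.exp 4) * 4 ^ j, by positivity, fun ξ c => ?_⟩
  have hξ := abs_nonneg ξ
  have hδ : 1 / (4 * (1 + |ξ|)) ≤ 1 / 4 := by
    gcongr
    linarith
  have k := h (-1) 1 B (48 * Real.exp 4 * min (Real.exp c) (Real.exp (-(2 * c))))
    (1 / (4 * (1 + |ξ|))) _ (fun z => cexp (z + c) * cexp (-((1 - I * ξ) * cexp (z + c)))) hB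
    (by positivity) (by linarith) (by positivity) (by fun_prop) fun z h1 h2 h3 => by
      have a1 := Real.one_sub_sq_div_two_le_cos (x := z.im)
      have a2 : |ξ * Real.sin z.im| ≤ 1 / 4 := by
        rw [abs_mul]
        rw [lt_div_iff₀ (by positivity)] at h3
        nlinarith [Real.abs_sin_le_abs (x := z.im), abs_nonneg z.im]
      have a3 : z.im ^ 2 ≤ 1 / 4 := by
        rw [← sq_abs]
        nlinarith [abs_nonneg z.im]
      have a4 : 1 / 2 ≤ Real.cos z.im + ξ * Real.sin z.im := by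
        linarith [(abs_le.1 a2).1]
      have a5 : (-((1 - I * ξ) * cexp (z + c))).re =
          -(Real.exp (z.re + c) * (Real.cos z.im + ξ * Real.sin z.im)) := by
        simp [exp_re, exp_im]
        ring
      rw [norm_mul, Complex.norm_exp, Complex.norm_exp, a5, add_re, ofReal_re]
      refine le_trans ?_ (kbt_exp (u := Real.exp (z.re + c)) (Real.exp_le_exp.2 (by linarith))
        (Real.exp_le_exp.2 (by linarith)))
      refine mul_le_mul_of_nonneg_left (Real.exp_le_exp.2 ?_) (Real.exp_pos _).le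
      nlinarith [Real.exp_pos (z.re + c)]
  convert k using 1
  · rw [one_div, inv_pow, div_inv_eq_mul, mul_pow]
    ring
  · funext v
    simp only [om, ofReal_exp, ofReal_add]

/-- `‖sm V‖ ≤ ∑' i, ‖sm (psi (· - i) V)‖` (at most two windows meet a point; absolutely convergent double
series). -/
theorem norm_sm_om_le (D : Data) {x : ℕ → ℝ} (hx : Adm x) (ξ L : ℝ)
    (hs : Summable fun i : ℕ => ‖sm D x fun y => (psi (y - i) : ℂ) * om ξ (y - L)‖) :
    ‖sm D x fun y => om ξ (y - L)‖ ≤ ∑' i : ℕ, ‖sm D x fun y => (psi (y - i) : ℂ) * om ξ (y - L)‖ := by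
  obtain ⟨u, hu, h⟩ := summable_om D hx L
  have hψ : ∀ n : ℕ, HasSum (fun i : ℕ => psi (Real.log n - i)) 1 := fun n =>
    kbt_psi (Real.log_natCast_nonneg n)
  let a : ℕ → ℂ := fun n => ((D.lam n * cm x n / √n : ℝ) : ℂ) * om ξ (Real.log n - L)
  have ha : Summable fun n => ‖a n‖ := Summable.of_nonneg_of_le (fun _ => norm_nonneg _) (h ξ) hu
  have h1 : Summable (Function.uncurry fun n i : ℕ => a n * (psi (Real.log n - i) : ℂ)) := by
    refine Summable.of_norm_bounded (g := fun p : ℕ × ℕ => ‖a p.1‖ * psi (Real.log p.1 - p.2))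
      ((summable_prod_of_nonneg fun p => mul_nonneg (norm_nonneg _) (psi_mem _).1).2
        ⟨fun n => (hψ n).summable.mul_left ‖a n‖, ?_⟩) fun p => ?_
    · simpa only [tsum_mul_left, (hψ _).tsum_eq, mul_one] using ha
    · rw [Function.uncurry, norm_mul, norm_real, Real.norm_of_nonneg (psi_mem _).1]
  have h2 : (sm D x fun y => om ξ (y - L)) =
      ∑' i : ℕ, sm D x fun y => (psi (y - i) : ℂ) * om ξ (y - L) := by
    have h3 := h1.tsum_comm
    simp only [tsum_mul_left, ← ofReal_tsum, (hψ _).tsum_eq, ofReal_one, mul_one] at h3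
    rw [sm, ← h3]
    refine tsum_congr fun i => tsum_congr fun n => ?_
    simp only [a]
    ring
  rw [h2]
  exact norm_tsum_le_tsum_norm hs

/-- `nrm_tsum` with `env = 1`, `nrm_sm_le` in the window `i` with `c = i - Lk k ∈ [i - L, i - L + ρ]`;
`min (e^c) (e^(-2c)) (1 + e^i/M) ≤ e^ρ e^(-|i-L|) (1 + e^L/M)` and `∑' i, e^(-|i-L|) ≤ 4`. -/
theorem bt (A : ℕ) (ρ : ℝ) : ∃ C : ℝ, 0 ≤ C ∧ ∀ (D : Data) (ι : Type) (T : Finset ι) (x : ι → ℕ → ℝ)
    (G M ξ L : ℝ) (Lk : ι → ℝ), 0 ≤ G → 0 < M → (∀ k ∈ T, Adm (x k)) →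
    (∀ L t, nrm T (fun k => tw D (x k) 5 L t) ≤ G * (1 + |t|) ^ A * (1 + Real.exp L / M)) →
    (∀ k ∈ T, L - ρ ≤ Lk k ∧ Lk k ≤ L) →
    nrm T (fun k => sm D (x k) fun y => om ξ (y - Lk k)) ≤
      C * G * (1 + |ξ|) ^ (A + 2) * (1 + Real.exp L / M) := by
  obtain ⟨C₁, hC₁, h₁⟩ := sm_psi_om (A + 2)
  obtain ⟨C₂, hC₂, h₂⟩ := nrm_sm_le A 5
  obtain ⟨K, hK, h₃⟩ := kbt_sum
  refine ⟨C₂ * C₁ * Real.exp |ρ| * K, by positivity, ?_⟩
  intro D ι T x G M ξ L Lk hG hM hx htw hL
  have hγ : ∀ i : ℕ, nrm T (fun k => sm D (x k) fun y => (psi (y - i) : ℂ) * om ξ (y - Lk k)) ≤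
      C₂ * C₁ * Real.exp |ρ| * G * (1 + |ξ|) ^ (A + 2) * (1 + Real.exp L / M) *
        Real.exp (-|i - L|) := by
    intro i
    have k1 := h₂ D ι T x i (G * (1 + Real.exp i / M)) (C₁ * (1 + |ξ|) ^ (A + 2) *
      (Real.exp |ρ| * min (Real.exp (i - L)) (Real.exp (-(2 * (i - L))))))
      (fun k v => (psi v : ℂ) * om ξ (v + (i - Lk k))) (by positivity) (by positivity)
      (fun t => (htw i t).trans_eq (by ring)) fun k hk =>
        (h₁ ξ (i - Lk k)).mono le_rfl (by norm_num) (by norm_num) (by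
          refine mul_le_mul_of_nonneg_left ?_ (by positivity)
          have a1 := hL k hk
          have a2 := le_abs_self ρ
          have a3 := abs_nonneg ρ
          rw [mul_min_of_nonneg _ _ (Real.exp_pos _).le, ← Real.exp_add, ← Real.exp_add]
          exact min_le_min (Real.exp_le_exp.2 (by linarith)) (Real.exp_le_exp.2 (by linarith)))
    simp only [sub_add_sub_cancel] at k1
    refine k1.trans ?_
    have k2 := mul_le_mul_of_nonneg_left (kbt_min hM i L)
      (show 0 ≤ C₂ * C₁ * Real.exp |ρ| * G * (1 + |ξ|) ^ (A + 2) by positivity)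
    linarith
  have hs := (h₃ L).1.mul_left
    (C₂ * C₁ * Real.exp |ρ| * G * (1 + |ξ|) ^ (A + 2) * (1 + Real.exp L / M))
  have k3 := nrm_tsum (a := fun k => sm D (x k) fun y => om ξ (y - Lk k)) (env := fun _ => 1)
    (fun _ => zero_le_one) (fun k hk => by
      simp only [one_mul]
      exact norm_sm_om_le D (hx k hk) ξ (Lk k) (Summable.of_nonneg_of_le (fun _ => norm_nonneg _)
        (fun i => (tnrm_single hk _).trans (hγ i)) hs)) hγ (by simpa only [one_mul] using hs)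
  simp only [one_mul, tsum_mul_left] at k3
  refine k3.trans ((mul_le_mul_of_nonneg_left (h₃ L).2 (by positivity)).trans_eq (by ring))

end Pool.Agent.Lib.MP_03e5d0_nt
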