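import Pool.Agent.Lib.MP_03e5d0_nt.LDef

set_option autoImplicit false

noncomputable section

namespace Pool.Agent.Lib.MP_03e5d0_nt

open Complex Finset MeasureTheory
open scoped NumberTheorySymbols Real ContDiff

/-! Definitions for the bilinear lemma and the large sieve type bound. -/

/-- The weight that couples the two variables. -/
def Phk (ξ v : ℝ) : ℂ := (bump 2 v : ℂ) * (Real.exp (-(v / 2) - π * ξ ^ 2 * Real.exp (-(2 * v))) : ℝ)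

/-- Polynomial bounds for a Dirichlet series and two derivatives. -/
def HB (h : ℕ → ℝ) : Prop :=
  ∃ (C : ℝ) (k : ℕ), 0 ≤ C ∧ ∀ m : ℕ, m ≤ 2 → ∀ s : ℂ, 1 < s.re → s.re ≤ 3 →
    LSeriesSummable (fun n => ((h n * Real.log n ^ m : ℝ) : ℂ)) s ∧
    ‖LSeries (fun n => ((h n * Real.log n ^ m : ℝ) : ℂ)) s‖ ≤ C * (1 + |s.im|) ^ k

/-- Cancellation in the windows. -/
def EB (h : ℕ → ℝ) : Prop :=
  ∃ (c : ℕ) (C : ℝ), 0 ≤ C ∧ ∀ (i N : ℕ) (τ : ℝ), Real.exp (i + 1) < N →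
    ‖∑ a ∈ range N, ((h a / a : ℝ) : ℂ) * ((psi (Real.log a - i) : ℂ) * ex τ (Real.log a - i))‖ ≤
      C * (1 + |τ|) ^ c / (1 + i) ^ 2

/-- The weak form of the second moment bound. -/
def WB (D : Data) (A : ℕ) (Θ : ℝ → ℝ) : Prop :=
  ∀ M, 1 ≤ M → ∀ L t, nrm (sqf M) (fun k => tw D (jac k) 5 L t) ≤
    Θ M * √M * (1 + |t|) ^ A * (1 + Real.exp L / M)

/-- The statement of the diagonal bound. -/
def DiagOne (D : Data) : Prop :=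
  ∃ (j : ℕ) (C : ℝ), 0 ≤ C ∧ ∀ (B L Λ : ℝ) (W : ℝ → ℂ),
    Sm j (-1) 1 B W → 1 ≤ Λ →
    Ex (pr D Λ) dl0 (fun x => ‖sm D x fun y => W (y - L)‖ ^ 2) ≤
      C * B ^ 2 * (1 + Real.log (1 + Λ))

/-- The statement of the bilinear lemma. -/
def Off (D : Data) : Prop :=
  ∃ c : ℕ, ∀ A a : ℕ, ∃ C : ℝ, 0 ≤ C ∧ ∀ Θ : ℝ → ℝ, IH D A a Θ →
    ∀ (X : ℝ) (ℓ : ℕ) (L₁ L₂ B₁ B₂ Λ : ℝ) (W₁ W₂ : ℝ → ℂ), 1 ≤ X → ℓ ≠ 0 → ℓ.Coprime D.q →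
    Sm (A + c) (-1) 1 B₁ W₁ → Sm (A + c) (-1) 1 B₂ W₂ →
    Real.log ℓ ≤ Λ → L₁ + 1 ≤ Λ → L₂ + 1 ≤ Λ →
    ‖gsum X (fun x => (cm x ℓ : ℂ) * sm D x (fun y => W₁ (y - L₁)) * sm D x fun y => W₂ (y - L₂)) -
      X * Ex (pr D Λ) dl0
        (fun x => (cm x ℓ : ℂ) * sm D x (fun y => W₁ (y - L₁)) * sm D x fun y => W₂ (y - L₂))‖ ≤
      C * B₁ * B₂ * (ℓ : ℝ) ^ c * Real.exp ((L₁ + L₂) / 2) *
        Θ (1 + Real.exp (L₁ + L₂) * ℓ / X) ^ 2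

end Pool.Agent.Lib.MP_03e5d0_nt
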