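import Pool.Agent.Lib.MP_03e5d0_nt.KDef

set_option autoImplicit false

noncomputable section

namespace Pool.Agent.Lib.MP_03e5d0_nt

open Complex Finset MeasureTheory
open scoped NumberTheorySymbols Real ContDiff

/-! The Euler product of a completely multiplicative function as an exponential. -/

theorem kh1_rpow {n : ℕ} (hn : 16 ≤ n) {σ : ℝ} (hσ : 3 / 4 ≤ σ) : (n : ℝ) ^ (-σ) ≤ 1 / 8 := by
  have h16 : (16 : ℝ) ≤ n := by exact_mod_cast hn
  have h1 : (n : ℝ) ^ (-σ) ≤ (n : ℝ) ^ (-(3 / 4) : ℝ) :=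
    Real.rpow_le_rpow_of_exponent_le (by linarith) (by linarith)
  have h2 : (n : ℝ) ^ (-(3 / 4) : ℝ) ≤ (16 : ℝ) ^ (-(3 / 4) : ℝ) :=
    Real.rpow_le_rpow_of_nonpos (by norm_num) h16 (by norm_num)
  have h3 : (16 : ℝ) ^ (-(3 / 4) : ℝ) = 1 / 8 := by
    rw [show (16 : ℝ) = 2 ^ (4 : ℝ) by norm_num, ← Real.rpow_mul (by norm_num)]
    norm_num
  linarith

theorem kh1_summable (x : ℕ → ℝ) (h4 : ∀ p : ℕ, p.Prime → |x p| ≤ 4)
    (h16 : ∀ p : ℕ, p.Prime → p < 16 → x p = 0) {σ : ℝ} (hσ : 1 < σ) :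
    Summable fun n : ℕ => |cm x n| * (n : ℝ) ^ (-σ) := by
  let g : ℕ →* ℝ :=
    { toFun := fun n => |cm x n| * (n : ℝ) ^ (-σ)
      map_one' := by simp [cm_one]
      map_mul' := fun m n => by
        rw [cm_mul, abs_mul, Nat.cast_mul, Real.mul_rpow (Nat.cast_nonneg _) (Nat.cast_nonneg _)]
        ring }
  have g0 : ∀ n, 0 ≤ g n := fun n => mul_nonneg (abs_nonneg _) (by positivity)
  have g1 : ∀ p : ℕ, p.Prime → g p ≤ 4 * (p : ℝ) ^ (-σ) := fun p hp => by
    change |cm x p| * _ ≤ _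
    rw [cm_prime x hp]
    exact mul_le_mul_of_nonneg_right (h4 p hp) (by positivity)
  have g2 : ∀ p : ℕ, p.Prime → g p ≤ 1 / 2 := fun p hp => by
    by_cases h : p < 16
    · change |cm x p| * _ ≤ _
      rw [cm_prime x hp, h16 p hp h]
      simp
    · have := kh1_rpow (not_lt.1 h) (σ := σ) (by linarith)
      linarith [g1 p hp]
  have hs : Summable fun n : ℕ => (n : ℝ) ^ (-σ) := Real.summable_nat_rpow.2 (by linarith)
  refine summable_of_sum_range_le (f := fun n => g n)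
    (c := Real.exp (8 * ∑' n : ℕ, (n : ℝ) ^ (-σ))) g0 fun N => ?_
  have h1 := (EulerProduct.summable_and_hasSum_smoothNumbers_prod_primesBelow_geometric (f := g)
    (fun {p} hp => by rw [Real.norm_of_nonneg (g0 p)]; linarith [g2 p hp]) N).2
  have h2 := hasSum_subtype_iff_indicator.1 h1
  have h3 := sum_le_hasSum (range N) (fun n _ => Set.indicator_nonneg (fun n _ => g0 n) n) h2
  have h5 : ∑ n ∈ range N, g n = ∑ n ∈ range N, (N.smoothNumbers).indicator (fun n => g n) n := by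
    refine sum_congr rfl fun n hn => ?_
    rcases Nat.eq_zero_or_pos n with rfl | h
    · have : g 0 = 0 := by
        change |cm x 0| * _ = 0
        simp [cm_zero]
      by_cases h : 0 ∈ N.smoothNumbers <;> simp [h, this]
    · rw [Set.indicator_of_mem (Nat.mem_smoothNumbers_of_lt h (mem_range.1 hn))]
  rw [h5]
  refine h3.trans ?_
  have h6 : ∏ p ∈ N.primesBelow, (1 - g p)⁻¹ ≤
      ∏ p ∈ N.primesBelow, Real.exp (8 * (p : ℝ) ^ (-σ)) := by
    refine prod_le_prod (fun p hp => ?_) fun p hp => ?_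
    · have := g2 p (Nat.prime_of_mem_primesBelow hp)
      exact inv_nonneg.2 (by linarith)
    · have e1 := g2 p (Nat.prime_of_mem_primesBelow hp)
      have e2 := g1 p (Nat.prime_of_mem_primesBelow hp)
      have e3 := g0 p
      have e4 := Real.add_one_le_exp (8 * (p : ℝ) ^ (-σ))
      rw [inv_le_comm₀ (by linarith) (Real.exp_pos _), inv_le_iff_one_le_mul₀ (Real.exp_pos _)]
      nlinarith
  refine h6.trans ?_
  rw [← Real.exp_sum, Real.exp_le_exp, ← mul_sum]
  exact mul_le_mul_of_nonneg_left (hs.sum_le_tsum _ fun n _ => by positivity) (by norm_num)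

theorem kh1_logMul (u : ℕ → ℝ) (m : ℕ) :
    LSeries.logMul (fun n => ((u n * Real.log n ^ m : ℝ) : ℂ)) =
      fun n => ((u n * Real.log n ^ (m + 1) : ℝ) : ℂ) := by
  funext n
  rw [LSeries.logMul, ← Complex.natCast_log]
  push_cast
  ring

theorem kh1_absc (u : ℕ → ℝ)
    (h : LSeries.abscissaOfAbsConv (fun n => ((u n * Real.log n ^ 0 : ℝ) : ℂ)) ≤ 1) (m : ℕ)
    {s : ℂ} (hs : 1 < s.re) :
    LSeries.abscissaOfAbsConv (fun n => ((u n * Real.log n ^ m : ℝ) : ℂ)) < s.re := by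
  induction m with
  | zero => exact h.trans_lt (by exact_mod_cast hs)
  | succ m ih => rwa [← kh1_logMul, LSeries.abscissaOfAbsConv_logMul]

theorem kh1_deriv (u : ℕ → ℝ)
    (h : LSeries.abscissaOfAbsConv (fun n => ((u n * Real.log n ^ 0 : ℝ) : ℂ)) ≤ 1) (m : ℕ)
    {s : ℂ} (hs : 1 < s.re) :
    HasDerivAt (LSeries fun n => ((u n * Real.log n ^ m : ℝ) : ℂ))
      (-LSeries (fun n => ((u n * Real.log n ^ (m + 1) : ℝ) : ℂ)) s) s := by
  have := LSeries_hasDerivAt (kh1_absc u h m hs)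
  rwa [kh1_logMul] at this

theorem kh1_psum {q : ℕ} {a : ℕ → ℝ} (h0 : ∀ p : ℕ, p.Prime → p ∣ q → a p = 0) (m : ℕ) (s : ℂ) :
    PSum q (fun p => a p * Real.log p ^ m) s =
      LSeries (fun n => (((if n.Prime then a n else 0) * Real.log n ^ m : ℝ) : ℂ)) s := by
  rw [PSum, LSeries]
  refine tsum_congr fun n => ?_
  rw [LSeries.term_def₀ (by simp [Nat.not_prime_zero])]
  by_cases hp : n.Prime
  · by_cases hd : n ∣ q
    · simp [hp, hd, h0 n hp hd]
    · simp [hp, hd]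
  · simp [hp]

theorem kh1_cauchy {f : ℂ → ℂ} {α C : ℝ} (hf : DifferentiableOn ℂ f {s | α < s.re})
    (hC : ∀ s : ℂ, α < s.re → ‖f s‖ ≤ C) :
    DifferentiableOn ℂ (deriv f) {s | α + 1 / 8 < s.re} ∧
      ∀ s : ℂ, α + 1 / 8 < s.re → ‖deriv f s‖ ≤ 8 * C := by
  have ho : IsOpen {s : ℂ | α < s.re} := isOpen_lt continuous_const continuous_re
  refine ⟨(hf.deriv ho).mono fun s (hs : α + 1 / 8 < s.re) => (by linarith : α < s.re),
    fun s hs => ?_⟩
  have hb : Metric.closedBall s (1 / 8) ⊆ {s : ℂ | α < s.re} := by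
    intro z hz
    rw [Metric.mem_closedBall, dist_eq_norm] at hz
    have h1 := (abs_le.1 ((abs_re_le_norm (z - s)).trans hz)).1
    rw [sub_re] at h1
    change α < z.re
    linarith
  have := Complex.norm_deriv_le_of_forall_mem_sphere_norm_le (c := s) (R := 1 / 8) (C := C)
    (f := f) (by norm_num) (DifferentiableOn.diffContOnCl
      (hf.mono (Metric.closure_ball_subset_closedBall.trans hb)))
    fun z hz => hC z (hb (Metric.sphere_subset_closedBall hz))
  linarith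

/-- The remainder of the logarithm of the Euler product. -/
def kh1R (b : ℕ → ℝ) (s : ℂ) : ℂ :=
  ∑' n : ℕ, ((b n : ℂ) * (n : ℂ) ^ (-s) - Complex.log (1 + (b n : ℂ) * (n : ℂ) ^ (-s)))

theorem kh1_z {b : ℕ → ℝ} (h4 : ∀ n, |b n| ≤ 4) (h16 : ∀ n < 16, b n = 0) (n : ℕ) {s : ℂ}
    (hs : 3 / 4 < s.re) : ‖(b n : ℂ) * (n : ℂ) ^ (-s)‖ ≤ 1 / 2 ∧
      ‖(b n : ℂ) * (n : ℂ) ^ (-s) - Complex.log (1 + (b n : ℂ) * (n : ℂ) ^ (-s))‖ ≤
        16 * (n : ℝ) ^ (-(3 / 2) : ℝ) := by
  by_cases h : n < 16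
  · rw [h16 n h]
    simp
    positivity
  · have hn : 16 ≤ n := not_lt.1 h
    have h16' : (16 : ℝ) ≤ n := by exact_mod_cast hn
    have e1 : ‖(b n : ℂ) * (n : ℂ) ^ (-s)‖ ≤ 4 * (n : ℝ) ^ (-(3 / 4) : ℝ) := by
      rw [norm_mul, norm_real, Real.norm_eq_abs, norm_natCast_cpow_of_pos (by omega), neg_re]
      exact mul_le_mul (h4 n) (Real.rpow_le_rpow_of_exponent_le (by linarith) (by linarith))
        (by positivity) (by norm_num)
    have e2 := kh1_rpow hn (σ := 3 / 4) le_rfl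
    have e3 : ((n : ℝ) ^ (-(3 / 4) : ℝ)) ^ 2 = (n : ℝ) ^ (-(3 / 2) : ℝ) := by
      rw [← Real.rpow_natCast, ← Real.rpow_mul (by positivity)]
      norm_num
    generalize (b n : ℂ) * (n : ℂ) ^ (-s) = z at e1
    have e4 : ‖z‖ ≤ 1 / 2 := by linarith
    refine ⟨e4, ?_⟩
    have e5 := Complex.norm_log_one_add_sub_self_le (z := z) (by linarith)
    have e6 : (1 - ‖z‖)⁻¹ ≤ 2 := by
      rw [inv_le_comm₀ (by linarith) (by norm_num)]
      linarith
    have e7 : ‖z‖ ^ 2 ≤ (4 * (n : ℝ) ^ (-(3 / 4) : ℝ)) ^ 2 := by gcongr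
    rw [mul_pow, e3] at e7
    rw [norm_sub_rev]
    have e8 := mul_le_mul_of_nonneg_left e6 (sq_nonneg ‖z‖)
    linarith

theorem kh1_R {b : ℕ → ℝ} (h4 : ∀ n, |b n| ≤ 4) (h16 : ∀ n < 16, b n = 0) :
    DifferentiableOn ℂ (kh1R b) {s | 3 / 4 < s.re} ∧
      ∃ C : ℝ, 0 ≤ C ∧ ∀ s : ℂ, 3 / 4 < s.re → ‖kh1R b s‖ ≤ C := by
  have hs : Summable fun n : ℕ => 16 * (n : ℝ) ^ (-(3 / 2) : ℝ) :=
    (Real.summable_nat_rpow.2 (by norm_num)).mul_left _
  refine ⟨differentiableOn_tsum_of_summable_norm hs (fun n => ?_)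
    (isOpen_lt continuous_const continuous_re) fun n s h => (kh1_z h4 h16 n h).2,
    ∑' n : ℕ, 16 * (n : ℝ) ^ (-(3 / 2) : ℝ), tsum_nonneg fun n => by positivity,
    fun s h => tsum_of_norm_bounded hs.hasSum fun n => (kh1_z h4 h16 n h).2⟩
  rcases Nat.eq_zero_or_pos n with rfl | hn
  · simp [h16 0 (by norm_num)]
  · intro s h
    have h1 : DifferentiableAt ℂ (fun s : ℂ => (b n : ℂ) * (n : ℂ) ^ (-s)) s :=
      (differentiableAt_id.neg.const_cpow (Or.inl (by exact_mod_cast hn.ne'))).const_mul _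
    refine (h1.sub ((h1.const_add 1).clog ?_)).differentiableWithinAt
    exact mem_slitPlane_of_norm_lt_one (by linarith [(kh1_z h4 h16 n h).1])

theorem kh1_euler (a : ℕ → ℝ) (ha : ∀ p : ℕ, p.Prime → |a p| ≤ 4)
    (h16 : ∀ p : ℕ, p.Prime → p < 16 → a p = 0) {s : ℂ} (hs : 1 < s.re) :
    LSeries (fun n => ((cm (fun p => -a p) n * Real.log n ^ 0 : ℝ) : ℂ)) s =
      cexp (-LSeries (fun n => (((if n.Prime then a n else 0) * Real.log n ^ 0 : ℝ) : ℂ)) s +
        kh1R (fun n => if n.Prime then a n else 0) s) := by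
  set b : ℕ → ℝ := fun n => if n.Prime then a n else 0 with hb
  have b4 : ∀ n, |b n| ≤ 4 := fun n => by
    by_cases h : n.Prime
    · simpa [hb, h] using ha n h
    · simp [hb, h]
  have b16 : ∀ n < 16, b n = 0 := fun n hn => by
    by_cases h : n.Prime
    · simpa [hb, h] using h16 n h hn
    · simp [hb, h]
  let g : ℕ →*₀ ℂ :=
    { toFun := fun n => (cm (fun p => -a p) n : ℂ) * (n : ℂ) ^ (-s)
      map_zero' := by simp [cm_zero]
      map_one' := by simp [cm_one]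
      map_mul' := fun m n => by
        rw [cm_mul, Nat.cast_mul, natCast_mul_natCast_cpow]
        push_cast
        ring }
  have hg : Summable fun n => ‖g n‖ := by
    refine (kh1_summable (fun p => -a p) (fun p hp => by rw [abs_neg]; exact ha p hp)
      (fun p hp h => by rw [h16 p hp h, neg_zero]) hs).congr fun n => ?_
    change _ = ‖(cm (fun p => -a p) n : ℂ) * (n : ℂ) ^ (-s)‖
    rcases Nat.eq_zero_or_pos n with rfl | hn
    · simp [cm_zero]
    · rw [norm_mul, norm_real, Real.norm_eq_abs, norm_natCast_cpow_of_pos hn, neg_re]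
  have h1 := EulerProduct.exp_tsum_primes_log_eq_tsum hg
  have h2 : ∑' p : Nat.Primes, -Complex.log (1 - g p) =
      ∑' n : ℕ, -Complex.log (1 + (b n : ℂ) * (n : ℂ) ^ (-s)) := by
    rw [← tsum_subtype_eq_of_support_subset (s := {p : ℕ | p.Prime})
      (f := fun n : ℕ => -Complex.log (1 + (b n : ℂ) * (n : ℂ) ^ (-s)))]
    · refine tsum_congr fun p => ?_
      have hp : (p : ℕ).Prime := p.2
      change -Complex.log (1 - (cm (fun p => -a p) p : ℂ) * ((p : ℕ) : ℂ) ^ (-s)) = _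
      rw [cm_prime _ hp]
      simp [hb, hp]
    · intro n hn
      by_contra h
      have h' : ¬ n.Prime := h
      simp [hb, h'] at hn
  have h3 : Summable fun n : ℕ => (b n : ℂ) * (n : ℂ) ^ (-s) := by
    have := LSeriesSummable_of_bounded_of_one_lt_re (f := fun n => (b n : ℂ)) (m := 4)
      (fun n _ => by rw [norm_real, Real.norm_eq_abs]; exact b4 n) hs
    refine this.congr fun n => ?_
    rw [LSeries.term_def₀ (by simp [b16 0 (by norm_num)])]
  have h4 : Summable fun n : ℕ =>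
      (b n : ℂ) * (n : ℂ) ^ (-s) - Complex.log (1 + (b n : ℂ) * (n : ℂ) ^ (-s)) :=
    Summable.of_norm_bounded ((Real.summable_nat_rpow.2 (by norm_num)).mul_left 16)
      fun n => (kh1_z b4 b16 n (by linarith)).2
  have h5 : LSeries (fun n => ((b n * Real.log n ^ 0 : ℝ) : ℂ)) s =
      ∑' n : ℕ, (b n : ℂ) * (n : ℂ) ^ (-s) := by
    refine tsum_congr fun n => ?_
    rw [LSeries.term_def₀ (by simp [b16 0 (by norm_num)])]
    simp
  have h6 : LSeries (fun n => ((cm (fun p => -a p) n * Real.log n ^ 0 : ℝ) : ℂ)) s =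
      ∑' n, g n := by
    refine tsum_congr fun n => ?_
    rw [LSeries.term_def₀ (by simp [cm_zero])]
    simp [g]
  rw [h6, ← h1, h2, h5, kh1R, ← tsum_neg, ← h3.neg.tsum_add h4]
  congr 1
  exact tsum_congr fun n => by ring

/-- `f = cm (-a)` is completely multiplicative, `|f p| ≤ 4`, `f p = 0` for `p < 10000`. Summability of
`|f n| n^(-σ)` for `σ > 1`: `EulerProduct.summable_and_hasSum_factoredNumbers_prod_filter_prime_geometric`
bounds the sum over smooth numbers by `∏ (1 - 4 p^(-σ))⁻¹ ≤ exp (8 ∑ n^(-σ))`; so the abscissa of absolute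
convergence is `≤ 1` and `LSeriesSummable_logMul_of_lt_re`, `LSeries_hasDerivAt` apply (`logMul`).
`EulerProduct.exp_tsum_primes_log_eq_tsum`: `H s = exp (-P s + R s)`, `P = PSum q a`,
`R s = ∑' p, (z - log (1 + z))`, `z = a p * p^(-s)`. `R` is holomorphic on `re s > 3/4` and bounded by
`16 ∑ n^(-3/2)` (`Complex.norm_log_one_add_sub_self_le`, `differentiableOn_tsum_of_summable_norm`), Cauchy
estimates on discs of radius `1/8` bound `R'`, `R''` on `re s > 1`. `P` is an `LSeries`, `P' = -P₁`,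
`P₁' = -P₂`. Take `r₀ = R`, `r₁ = R'`, `r₂ = R''`. -/
theorem euler_exp (q : ℕ) (a : ℕ → ℝ) (ha : ∀ p : ℕ, p.Prime → |a p| ≤ 4)
    (h0 : ∀ p : ℕ, p.Prime → p ∣ q → a p = 0) (hq : ∀ p : ℕ, p.Prime → p < 10000 → p ∣ q) :
    ∃ C : ℝ, 0 ≤ C ∧ ∀ s : ℂ, 1 < s.re →
      (∀ m : ℕ, LSeriesSummable (fun n => ((cm (fun p => -a p) n * Real.log n ^ m : ℝ) : ℂ)) s) ∧
      ∃ r₀ r₁ r₂ : ℂ, ‖r₀‖ ≤ C ∧ ‖r₁‖ ≤ C ∧ ‖r₂‖ ≤ C ∧
        LSeries (fun n => ((cm (fun p => -a p) n * Real.log n ^ 0 : ℝ) : ℂ)) s =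
          cexp (-PSum q a s + r₀) ∧
        LSeries (fun n => ((cm (fun p => -a p) n * Real.log n ^ 1 : ℝ) : ℂ)) s =
          -cexp (-PSum q a s + r₀) * (PSum q (fun p => a p * Real.log p) s + r₁) ∧
        LSeries (fun n => ((cm (fun p => -a p) n * Real.log n ^ 2 : ℝ) : ℂ)) s =
          cexp (-PSum q a s + r₀) * ((PSum q (fun p => a p * Real.log p) s + r₁) ^ 2 -
            PSum q (fun p => a p * Real.log p ^ 2) s + r₂) := by
  have h16 : ∀ p : ℕ, p.Prime → p < 16 → a p = 0 := fun p hp h => h0 p hp (hq p hp (by omega))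
  have hE := fun (s : ℂ) (hs : 1 < s.re) => kh1_euler a ha h16 hs
  have hP := kh1_psum h0
  set b : ℕ → ℝ := fun n => if n.Prime then a n else 0 with hb
  have b4 : ∀ n, |b n| ≤ 4 := fun n => by
    by_cases h : n.Prime
    · simpa [hb, h] using ha n h
    · simp [hb, h]
  have b16 : ∀ n < 16, b n = 0 := fun n hn => by
    by_cases h : n.Prime
    · simpa [hb, h] using h16 n h hn
    · simp [hb, h]
  obtain ⟨d0, C, hC, c0⟩ := kh1_R b4 b16
  obtain ⟨d1, c1⟩ := kh1_cauchy d0 c0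
  obtain ⟨-, c2⟩ := kh1_cauchy d1 c1
  have aF : LSeries.abscissaOfAbsConv
      (fun n => ((cm (fun p => -a p) n * Real.log n ^ 0 : ℝ) : ℂ)) ≤ 1 := by
    refine LSeries.abscissaOfAbsConv_le_of_forall_lt_LSeriesSummable (x := 1) fun y hy => ?_
    refine Summable.of_norm ((kh1_summable (fun p => -a p)
      (fun p hp => by rw [abs_neg]; exact ha p hp)
      (fun p hp h => by rw [h16 p hp h, neg_zero]) hy).congr fun n => ?_)
    rw [LSeries.term_def₀ (by simp [cm_zero])]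
    rcases Nat.eq_zero_or_pos n with rfl | hn
    · simp [cm_zero]
    · rw [norm_mul, norm_real, Real.norm_eq_abs, norm_natCast_cpow_of_pos hn, neg_re]
      simp
  have aG : LSeries.abscissaOfAbsConv (fun n => ((b n * Real.log n ^ 0 : ℝ) : ℂ)) ≤ 1 :=
    LSeries.abscissaOfAbsConv_le_of_le_const ⟨4, fun n _ => by simpa using b4 n⟩
  have ho : IsOpen {s : ℂ | 1 < s.re} := isOpen_lt continuous_const continuous_re
  have dR : ∀ s : ℂ, 1 < s.re → HasDerivAt (kh1R b) (deriv (kh1R b) s) s := fun s hs =>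
    (d0.differentiableAt ((isOpen_lt continuous_const continuous_re).mem_nhds
      (show 3 / 4 < s.re by linarith))).hasDerivAt
  have dR' : ∀ s : ℂ, 1 < s.re → HasDerivAt (deriv (kh1R b)) (deriv (deriv (kh1R b)) s) s :=
    fun s hs => (d1.differentiableAt ((isOpen_lt continuous_const continuous_re).mem_nhds
      (show 3 / 4 + 1 / 8 < s.re by linarith))).hasDerivAt
  have dE := fun (s : ℂ) (hs : 1 < s.re) => ((kh1_deriv b aG 0 hs).fun_neg.fun_add (dR s hs)).cexp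
  have hE1 : ∀ s : ℂ, 1 < s.re →
      -LSeries (fun n => ((cm (fun p => -a p) n * Real.log n ^ 1 : ℝ) : ℂ)) s =
      cexp (-LSeries (fun n => ((b n * Real.log n ^ 0 : ℝ) : ℂ)) s + kh1R b s) *
        (LSeries (fun n => ((b n * Real.log n ^ 1 : ℝ) : ℂ)) s + deriv (kh1R b) s) := by
    intro s hs
    have h1 := (dE s hs).congr_of_eventuallyEq
      (Filter.eventually_of_mem (ho.mem_nhds hs) fun z hz => hE z hz)
    rw [neg_neg] at h1
    exact (kh1_deriv _ aF 0 hs).unique h1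
  refine ⟨64 * C, by positivity, fun s hs => ⟨fun m =>
    LSeriesSummable_of_abscissaOfAbsConv_lt_re (kh1_absc _ aF m hs), kh1R b s, deriv (kh1R b) s,
    deriv (deriv (kh1R b)) s, by linarith [c0 s (by linarith)], by linarith [c1 s (by linarith)],
    by linarith [c2 s (by linarith)], ?_⟩⟩
  have p0 : PSum q a s = LSeries (fun n => ((b n * Real.log n ^ 0 : ℝ) : ℂ)) s := by
    rw [← hP 0 s]
    simp
  have p1 : PSum q (fun p => a p * Real.log p) s =
      LSeries (fun n => ((b n * Real.log n ^ 1 : ℝ) : ℂ)) s := by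
    rw [← hP 1 s]
    simp
  rw [p0, p1, hP 2 s]
  refine ⟨hE s hs, by rw [neg_mul, ← hE1 s hs, neg_neg], ?_⟩
  have h1 := ((dE s hs).fun_mul ((kh1_deriv b aG 1 hs).fun_add (dR' s hs))).congr_of_eventuallyEq
    (Filter.eventually_of_mem (ho.mem_nhds hs) fun z hz => hE1 z hz)
  have h2 := (kh1_deriv _ aF 1 hs).fun_neg.unique h1
  rw [neg_neg, neg_neg] at h2
  refine h2.trans ?_
  ring

end Pool.Agent.Lib.MP_03e5d0_nt
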