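import Pool.Agent.Lib.MP_03e5d0_nt.LDef

/-! Gauss sums: multiplicativity, vanishing, size. -/

set_option autoImplicit false

noncomputable section

namespace Pool.Agent.Lib.MP_03e5d0_nt

open Complex Finset MeasureTheory
open scoped NumberTheorySymbols Real ContDiff

/-- Reindexing of a sum over a period. The map `i ↦ (φ i : ZMod n)` is injective between finite
types of the same cardinality, hence bijective; compare both sides with
`∑ z : ZMod n, F (z.val)` (case `n = 0`: both sides are empty). -/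
theorem sum_range_eq_of_inj {ι : Type} [Fintype ι] {n : ℕ} (hc : Fintype.card ι = n) (φ : ι → ℤ)
    (hφ : ∀ i j, φ i ≡ φ j [ZMOD n] → i = j) {F : ℤ → ℂ}
    (hF : ∀ a b, a ≡ b [ZMOD n] → F a = F b) :
    ∑ a ∈ range n, F a = ∑ i, F (φ i) := by
  rcases Nat.eq_zero_or_pos n with rfl | hn
  · have : IsEmpty ι := Fintype.card_eq_zero_iff.1 hc
    simp
  have : NeZero n := ⟨hn.ne'⟩
  have key : ∀ (ι : Type) [Fintype ι], Fintype.card ι = n → ∀ φ : ι → ℤ,
      (∀ i j, φ i ≡ φ j [ZMOD n] → i = j) → ∑ i, F (φ i) = ∑ z : ZMod n, F z.val := by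
    intro ι _ hc φ hφ
    refine Fintype.sum_bijective (fun i => (φ i : ZMod n)) ?_ _ _ fun i => hF _ _ ?_
    · rw [Fintype.bijective_iff_injective_and_card, hc, ZMod.card]
      exact ⟨fun i j h => hφ i j ((ZMod.intCast_eq_intCast_iff _ _ _).1 h), rfl⟩
    · rw [ZMod.val_intCast]
      exact (Int.mod_modEq _ _).symm
  rw [key ι hc φ hφ, sum_range]
  exact key (Fin n) (Fintype.card_fin n) (fun i => (i : ℤ)) fun i j h =>
    Fin.ext (Nat.ModEq.eq_of_lt_of_lt (Int.natCast_modEq_iff.1 h) i.2 j.2)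

/-- The summand of `gt` has period `r`. -/
theorem gt_term_periodic (k : ℤ) {r : ℕ} (hr : r ≠ 0) {a b : ℤ} (h : a ≡ b [ZMOD r]) :
    (J(a | r) : ℂ) * cexp (2 * π * I * (a * k / r)) =
      (J(b | r) : ℂ) * cexp (2 * π * I * (b * k / r)) := by
  obtain ⟨c, hc⟩ := h.dvd
  have h1 : (r : ℂ) ≠ 0 := Nat.cast_ne_zero.2 hr
  have h2 : 2 * π * I * (b * k / r) = 2 * π * I * (a * k / r) + (c * k : ℤ) * (2 * π * I) := by
    rw [sub_eq_iff_eq_add'.1 hc]
    push_cast
    field_simp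
  rw [jacobiSym.mod_left' h, h2, exp_add, exp_int_mul_two_pi_mul_I, mul_one]

theorem lLGa_fin {n : ℕ} {i j : Fin n} (h : (i : ℤ) ≡ (j : ℤ) [ZMOD n]) : i = j :=
  Fin.ext (Nat.ModEq.eq_of_lt_of_lt (Int.natCast_modEq_iff.1 h) i.2 j.2)

theorem lLGa_cancel {m c : ℕ} (h : m.Coprime c) {a b : ℤ} (hab : a * c ≡ b * c [ZMOD m]) :
    a ≡ b [ZMOD m] := by
  rw [Int.modEq_iff_dvd] at hab ⊢
  rw [← sub_mul] at hab
  exact (Nat.isCoprime_iff_coprime.2 h).dvd_of_dvd_mul_right hab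

theorem lLGa_gt {ι : Type} [Fintype ι] (k : ℤ) {r : ℕ} (hr : r ≠ 0) (hc : Fintype.card ι = r)
    (φ : ι → ℤ) (hφ : ∀ i j, φ i ≡ φ j [ZMOD r] → i = j) :
    gt k r = ∑ i, (J(φ i | r) : ℂ) * cexp (2 * π * I * (φ i * k / r)) := by
  rw [← sum_range_eq_of_inj hc φ hφ
    (F := fun a => (J(a | r) : ℂ) * cexp (2 * π * I * (a * k / r)))
    fun a b h => gt_term_periodic k hr h]
  simp only [gt, Int.cast_natCast]

theorem lLGa_gt' (k : ℤ) (r : ℕ) :
    gt k r = ∑ i : Fin r, (J((i : ℤ) | r) : ℂ) * cexp (2 * π * I * ((i : ℤ) * k / r)) := by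
  simp only [gt, Int.cast_natCast, sum_range]

/-- Induction on `r` (`Nat.recOnMul` or `induction_on_primes`, `jacobiSym.mul_right`,
`jacobiSym.mod_left'`). -/
theorem jac_add_of_dvd {r : ℕ} (hr : r ≠ 0) {t : ℤ} (ht : ∀ p : ℕ, p.Prime → p ∣ r → (p : ℤ) ∣ t)
    (a : ℤ) : J(a + t | r) = J(a | r) := by
  induction r using induction_on_primes with
  | zero => exact absurd rfl hr
  | one => rw [jacobiSym.one_right, jacobiSym.one_right]
  | prime_mul p s hp ih =>
    have hs : s ≠ 0 := right_ne_zero_of_mul hr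
    rw [jacobiSym.mul_right' _ hp.ne_zero hs, jacobiSym.mul_right' _ hp.ne_zero hs,
      ih hs fun q hq h => ht q hq (h.mul_left p),
      jacobiSym.mod_left' (Int.add_emod_eq_add_emod_left a
        (Int.emod_eq_zero_of_dvd (ht p hp (dvd_mul_right p s)) |>.trans (Int.zero_emod _).symm)),
      add_zero]

/-- The shift `a ↦ a + t` multiplies `gt k r` by `exp (2 π i t k / r)`
(`Complex.exp_eq_one_iff`). -/
theorem gs_dvd {k : ℤ} {r : ℕ} (hr : r ≠ 0) (h : gs k r ≠ 0) {t : ℤ}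
    (ht : ∀ p : ℕ, p.Prime → p ∣ r → (p : ℤ) ∣ t) : (r : ℤ) ∣ t * k := by
  have h0 : gt k r ≠ 0 := fun e => h (by simp [gs, e])
  have h1 : gt k r = gt k r * cexp (2 * π * I * (t * k / r)) := by
    conv_lhs => rw [lLGa_gt k hr (Fintype.card_fin r) (fun i => (i : ℤ) + t)
      fun i j h => lLGa_fin (h.add_right_cancel' t)]
    rw [lLGa_gt', sum_mul]
    refine sum_congr rfl fun i _ => ?_
    rw [jac_add_of_dvd hr ht, mul_assoc (J(_ | r) : ℂ), ← exp_add]
    refine congrArg (fun z => _ * cexp z) ?_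
    push_cast
    ring
  obtain ⟨m, hm⟩ := exp_eq_one_iff.1 (left_eq_mul₀ h0 |>.1 h1)
  rw [mul_comm (m : ℂ)] at hm
  have h2 := mul_left_cancel₀ two_pi_I_ne_zero hm
  rw [div_eq_iff (Nat.cast_ne_zero.2 hr)] at h2
  exact ⟨m, by rw [mul_comm (r : ℤ)]; exact_mod_cast h2⟩

/-- `a ↦ -a`. -/
theorem gt_neg (k : ℤ) {r : ℕ} (hr : r ≠ 0) : gt (-k) r = (J(-1 | r) : ℂ) * gt k r := by
  rw [lLGa_gt (-k) hr (Fintype.card_fin r) (fun i => -(i : ℤ))
    fun i j h => lLGa_fin (Int.ModEq.neg h |>.trans (by rw [neg_neg]) |> (by rwa [neg_neg] at ·)),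
    lLGa_gt', mul_sum]
  refine sum_congr rfl fun i _ => ?_
  rw [← neg_one_mul, jacobiSym.mul_left, Int.cast_mul, mul_assoc]
  refine congrArg (fun z => _ * (_ * cexp z)) ?_
  push_cast
  ring

theorem conj_gt (k : ℤ) (r : ℕ) : starRingEnd ℂ (gt k r) = gt (-k) r := by
  unfold gt
  rw [map_sum]
  refine sum_congr rfl fun i _ => ?_
  rw [map_mul, map_intCast, ← exp_conj]
  refine congrArg (fun z => _ * cexp z) ?_
  simp only [map_mul, map_div₀, map_natCast, map_intCast, conj_ofReal, conj_I, map_ofNat,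
    Int.cast_neg]
  ring

/-- `jacobiSym.at_neg_one`, `ZMod.χ₄_nat_one_mod_four`; `gt` is real. -/
theorem gt_of_one {r : ℕ} (hr : r % 4 = 1) (k : ℤ) : gt k r = gs k r := by
  have h := conj_gt k r
  rw [gt_neg k (by omega), jacobiSym.at_neg_one (Nat.odd_iff.2 (by omega)),
    ZMod.χ₄_nat_one_mod_four hr, Int.cast_one, one_mul, conj_eq_iff_im] at h
  rw [gs, h, add_zero]
  exact Complex.ext (by simp) (by simp [h])

/-- `gt` is purely imaginary. -/
theorem gt_of_three {r : ℕ} (hr : r % 4 = 3) (k : ℤ) : gt k r = I * gs k r := by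
  have h := conj_gt k r
  rw [gt_neg k (by omega), jacobiSym.at_neg_one (Nat.odd_iff.2 (by omega)),
    ZMod.χ₄_nat_three_mod_four hr] at h
  have h1 := congrArg Complex.re h
  simp only [conj_re, Int.cast_neg, Int.cast_one, neg_mul, one_mul, neg_re] at h1
  have h2 : (gt k r).re = 0 := by linarith
  rw [gs, h2, zero_add]
  exact Complex.ext (by simp [h2]) (by simp)

/-- `a = u s + v r` with `(u, v) : Fin r × Fin s`; `J(u s + v r | r s) = J(u s | r) J(v r | s)`. -/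
theorem gt_mul (k : ℤ) {r s : ℕ} (hr : r ≠ 0) (hs : s ≠ 0) (h : r.Coprime s) :
    gt k (r * s) = ((J((s : ℤ) | r) * J((r : ℤ) | s) : ℤ) : ℂ) * (gt k r * gt k s) := by
  have hr' : (r : ℂ) ≠ 0 := Nat.cast_ne_zero.2 hr
  have hs' : (s : ℂ) ≠ 0 := Nat.cast_ne_zero.2 hs
  rw [lLGa_gt (ι := Fin r × Fin s) k (mul_ne_zero hr hs) (by simp)
    (fun x => (x.1 : ℤ) * s + (x.2 : ℤ) * r) ?_, lLGa_gt', lLGa_gt', sum_mul_sum,
    ← Fintype.sum_prod_type', mul_sum]
  · refine sum_congr rfl fun x _ => ?_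
    have e1 : J((x.1 : ℤ) * s + (x.2 : ℤ) * r | r) = J((x.1 : ℤ) | r) * J((s : ℤ) | r) := by
      rw [← jacobiSym.mul_left]
      exact jacobiSym.mod_left' (Int.add_mul_emod_self_right _ _ _)
    have e2 : J((x.1 : ℤ) * s + (x.2 : ℤ) * r | s) = J((x.2 : ℤ) | s) * J((r : ℤ) | s) := by
      rw [← jacobiSym.mul_left, add_comm]
      exact jacobiSym.mod_left' (Int.add_mul_emod_self_right _ _ _)
    have e3 : 2 * π * I * ((((x.1 : ℤ) * s + (x.2 : ℤ) * r : ℤ) : ℂ) * k / (r * s : ℕ)) =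
        2 * π * I * ((x.1 : ℤ) * k / r) + 2 * π * I * ((x.2 : ℤ) * k / s) := by
      push_cast
      field_simp
    rw [jacobiSym.mul_right' _ hr hs, e1, e2, e3, exp_add]
    push_cast
    ring
  · intro x y hxy
    rw [Nat.cast_mul] at hxy
    have h1 := hxy.of_mul_right
    have h2 := hxy.of_mul_left
    rw [add_comm, add_comm ((y.1 : ℤ) * s)] at h2
    rw [Int.ModEq, Int.add_mul_emod_self_right, Int.add_mul_emod_self_right] at h1 h2
    exact Prod.ext (lLGa_fin (lLGa_cancel h h1)) (lLGa_fin (lLGa_cancel h.symm h2))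

/-- Four cases modulo four; `jacobiSym.quadratic_reciprocity_one_mod_four`,
`jacobiSym.quadratic_reciprocity_three_mod_four`, `jacobiSym.sq_one`. -/
theorem gs_mul (k : ℤ) {r s : ℕ} (hr : Odd r) (hs : Odd s) (h : r.Coprime s) :
    gs k (r * s) = gs k r * gs k s := by
  have h0 := gt_mul k hr.pos.ne' hs.pos.ne' h
  have h1 : J((s : ℤ) | r) * J((s : ℤ) | r) = 1 := by
    rw [← sq]
    exact jacobiSym.sq_one h.symm
  have hr4 : r % 4 = 1 ∨ r % 4 = 3 := by have := Nat.odd_iff.1 hr; omega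
  have hs4 : s % 4 = 1 ∨ s % 4 = 3 := by have := Nat.odd_iff.1 hs; omega
  refine ofReal_injective ?_
  rw [ofReal_mul]
  rcases hr4 with hr4 | hr4 <;> rcases hs4 with hs4 | hs4
  · rw [jacobiSym.quadratic_reciprocity_one_mod_four hr4 hs, h1, gt_of_one hr4, gt_of_one hs4,
      gt_of_one (by rw [Nat.mul_mod, hr4, hs4]), Int.cast_one, one_mul] at h0
    exact h0
  · rw [jacobiSym.quadratic_reciprocity_one_mod_four hr4 hs, h1, gt_of_one hr4, gt_of_three hs4,
      gt_of_three (by rw [Nat.mul_mod, hr4, hs4]), Int.cast_one, one_mul, mul_left_comm] at h0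
    exact mul_left_cancel₀ I_ne_zero h0
  · rw [← jacobiSym.quadratic_reciprocity_one_mod_four hs4 hr, h1, gt_of_three hr4, gt_of_one hs4,
      gt_of_three (by rw [Nat.mul_mod, hr4, hs4]), Int.cast_one, one_mul, mul_assoc] at h0
    exact mul_left_cancel₀ I_ne_zero h0
  · rw [jacobiSym.quadratic_reciprocity_three_mod_four hr4 hs4, mul_neg, h1, gt_of_three hr4,
      gt_of_three hs4, gt_of_one (by rw [Nat.mul_mod, hr4, hs4])] at h0
    rw [h0]
    push_cast
    linear_combination (-(gs k r : ℂ) * gs k s) * I_mul_I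

theorem gs_one (k : ℤ) : gs k 1 = 1 := by
  simp [gs, gt]

theorem abs_gs_le (k : ℤ) (r : ℕ) : |gs k r| ≤ 2 * r := by
  have h : ‖gt k r‖ ≤ r := by
    refine (norm_sum_le _ _).trans ((sum_le_card_nsmul _ _ 1 fun a _ => ?_).trans (by simp))
    have e : 2 * π * I * (a * k / r) = (2 * π * (a * k / r) : ℝ) * I := by
      push_cast
      ring
    rw [norm_mul, e, norm_exp_ofReal_mul_I, mul_one]
    rcases jacobiSym.trichotomy a r with h | h | h <;> simp [h]
  have h1 := abs_re_le_norm (gt k r)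
  have h2 := abs_im_le_norm (gt k r)
  have h3 := abs_add_le (gt k r).re (gt k r).im
  rw [gs]
  linarith

theorem gn_mul (k : ℤ) {r s : ℕ} (hr : Odd r) (hs : Odd s) (h : r.Coprime s) :
    gn k (r * s) = gn k r * gn k s := by
  rw [gn, gn, gn, gs_mul k hr hs h, Nat.cast_mul, Real.sqrt_mul (Nat.cast_nonneg r),
    div_mul_div_comm]

theorem gn_one (k : ℤ) : gn k 1 = 1 := by
  simp [gn, gs_one]

theorem abs_gn_le (k : ℤ) (r : ℕ) : |gn k r| ≤ 2 * √r := by
  rw [gn, abs_div, abs_of_nonneg (Real.sqrt_nonneg _)]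
  refine div_le_of_le_mul₀ (Real.sqrt_nonneg _) (by positivity) ?_
  rw [mul_assoc, Real.mul_self_sqrt (Nat.cast_nonneg r)]
  exact abs_gs_le k r

end Pool.Agent.Lib.MP_03e5d0_nt
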