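import Pool.Agent.Lib.MP_03e5d0_nt.LFd
import Pool.Agent.Lib.MP_03e5d0_nt.LGa

/-! Splitting off the primes that divide the modulus. -/

set_option autoImplicit false

noncomputable section

namespace Pool.Agent.Lib.MP_03e5d0_nt

open Complex Finset MeasureTheory
open scoped NumberTheorySymbols Real ContDiff

theorem lLFc_split (Q : ℕ) {n : ℕ} (hn : n ≠ 0) :
    ∃ s m, n = s * m ∧ (∀ p : ℕ, p.Prime → p ∣ s → p ∣ Q) ∧ m.Coprime Q := by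
  induction n using induction_on_primes with
  | zero => exact absurd rfl hn
  | one => exact ⟨1, 1, rfl, fun p hp h => absurd (Nat.dvd_one.1 h) hp.ne_one, Nat.coprime_one_left Q⟩
  | prime_mul p a hp ih =>
    obtain ⟨s, m, rfl, h1, h2⟩ := ih (right_ne_zero_of_mul hn)
    by_cases h : p ∣ Q
    · refine ⟨p * s, m, (mul_assoc _ _ _).symm, fun r hr hd => ?_, h2⟩
      rcases (Nat.Prime.dvd_mul hr).1 hd with h3 | h3
      · rwa [(Nat.prime_dvd_prime_iff_eq hr hp).1 h3]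
      · exact h1 r hr h3
    · exact ⟨s, p * m, mul_left_comm _ _ _, h1,
        Nat.Coprime.mul_left ((Nat.Prime.coprime_iff_not_dvd hp).2 h) h2⟩

theorem lLFc_cop {Q s m : ℕ} (h1 : ∀ p : ℕ, p.Prime → p ∣ s → p ∣ Q) (h2 : m.Coprime Q) :
    s.Coprime m :=
  Nat.coprime_of_dvd fun p hp hs hm => hp.ne_one (Nat.eq_one_of_dvd_coprimes h2 hm (h1 p hp hs))

theorem lLFc_uniq {Q s m s' m' : ℕ} (h : s * m = s' * m') (h1 : ∀ p : ℕ, p.Prime → p ∣ s → p ∣ Q)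
    (h2 : m.Coprime Q) (h3 : ∀ p : ℕ, p.Prime → p ∣ s' → p ∣ Q) (h4 : m'.Coprime Q) : s = s' :=
  Nat.dvd_antisymm ((lLFc_cop h1 h4).dvd_of_dvd_mul_right (h ▸ dvd_mul_right s m))
    ((lLFc_cop h3 h2).dvd_of_dvd_mul_right (h.symm ▸ dvd_mul_right s' m'))

theorem lLFc_mul (D : Data) (k : ℤ) {ℓ Q s₁ s₂ m₁ m₂ : ℕ} (hq : ℓ.Coprime D.q) (hℓ : ℓ ∣ Q)
    (h1 : ∀ p : ℕ, p.Prime → p ∣ s₁ → p ∣ Q) (h2 : ∀ p : ℕ, p.Prime → p ∣ s₂ → p ∣ Q)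
    (h3 : m₁.Coprime Q) (h4 : m₂.Coprime Q) :
    aF D k ℓ (s₁ * m₁, s₂ * m₂) = aF D k ℓ (s₁, s₂) * aF D k 1 (m₁, m₂) := by
  simp only [aF]
  rw [D.lam_mul _ _ (lLFc_cop h1 h3), D.lam_mul _ _ (lLFc_cop h2 h4)]
  by_cases a1 : s₁.Coprime D.q
  swap
  · simp [D.lam_zero _ a1]
  by_cases a2 : s₂.Coprime D.q
  swap
  · simp [D.lam_zero _ a2]
  by_cases a3 : m₁.Coprime D.q
  swap
  · simp [D.lam_zero _ a3]
  by_cases a4 : m₂.Coprime D.q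
  swap
  · simp [D.lam_zero _ a4]
  have od : ∀ {n : ℕ}, n.Coprime D.q → Odd n := fun h =>
    (Nat.Coprime.coprime_dvd_right D.two_dvd h).odd_of_right
  have hc : (s₁ * s₂ * ℓ).Coprime (m₁ * m₂) := by
    refine lLFc_cop (Q := Q) (fun p hp h => ?_) (Nat.Coprime.mul_left h3 h4)
    rcases (Nat.Prime.dvd_mul hp).1 h with h | h
    · exact ((Nat.Prime.dvd_mul hp).1 h).elim (h1 p hp) (h2 p hp)
    · exact h.trans hℓ
  rw [show s₁ * m₁ * (s₂ * m₂) * ℓ = s₁ * s₂ * ℓ * (m₁ * m₂) by ring,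
    gn_mul k (((od a1).mul (od a2)).mul (od hq)) ((od a3).mul (od a4)) hc, mul_one, Nat.cast_mul,
    Nat.cast_mul, Real.sqrt_mul (Nat.cast_nonneg s₁), Real.sqrt_mul (Nat.cast_nonneg s₂)]
  ring

theorem lLFc_dvd {K k₂ Q s : ℕ} (hK : Squarefree K) (hQ : k₂ ∣ Q)
    (h1 : ∀ p : ℕ, p.Prime → p ∣ s → p ∣ Q) (h : s ∣ K * k₂ ^ 3) : s ∣ Q ^ 4 := by
  obtain ⟨a, b, ha, hb, rfl⟩ := exists_dvd_and_dvd_of_dvd_mul h
  have h2 : a ∣ Q := by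
    rw [← Nat.prod_primeFactors_of_squarefree (hK.squarefree_of_dvd ha)]
    exact Finset.prod_primes_dvd Q (fun p hp => (Nat.prime_of_mem_primeFactors hp).prime)
      fun p hp => h1 p (Nat.prime_of_mem_primeFactors hp)
        ((Nat.dvd_of_mem_primeFactors hp).mul_right b)
  rw [pow_succ']
  exact mul_dvd_mul h2 (hb.trans (pow_dvd_pow_of_dvd hQ 3))

theorem lLFc_mem {k₁ : ℤ} (hk : Squarefree k₁) {k₂ ℓ s₁ s₂ : ℕ} (h₂ : k₂ ≠ 0) (hℓ : ℓ ≠ 0)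
    (n1 : s₁ ≠ 0) (n2 : s₂ ≠ 0) (h1 : ∀ p : ℕ, p.Prime → p ∣ s₁ → p ∣ k₂ * ℓ)
    (h2 : ∀ p : ℕ, p.Prime → p ∣ s₂ → p ∣ k₂ * ℓ)
    (h : gn (k₁ * (k₂ : ℤ) ^ 2) (s₁ * s₂ * ℓ) ≠ 0) : (s₁, s₂) ∈ sQ (k₂ * ℓ) := by
  have h3 := gs_dvd (mul_ne_zero (mul_ne_zero n1 n2) hℓ) (left_ne_zero_of_mul h)
    (t := ((k₂ * ℓ : ℕ) : ℤ)) fun p hp hd => Int.natCast_dvd_natCast.2 (by
      rcases (Nat.Prime.dvd_mul hp).1 hd with h | h
      · exact ((Nat.Prime.dvd_mul hp).1 h).elim (h1 p hp) (h2 p hp)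
      · exact h.mul_left k₂)
  have h4 : s₁ * s₂ * ℓ ∣ k₁.natAbs * k₂ ^ 3 * ℓ := by
    have h5 := Int.natAbs_dvd_natAbs.2 h3
    simp only [Int.natAbs_mul, Int.natAbs_pow, Int.natAbs_natCast] at h5
    rwa [show k₂ * ℓ * (k₁.natAbs * k₂ ^ 2) = k₁.natAbs * k₂ ^ 3 * ℓ by ring] at h5
  have h5 := Nat.dvd_of_mul_dvd_mul_right (Nat.pos_of_ne_zero hℓ) h4
  have hK : Squarefree k₁.natAbs := Int.squarefree_natAbs.2 hk
  have h0 : (k₂ * ℓ) ^ 4 ≠ 0 := pow_ne_zero 4 (mul_ne_zero h₂ hℓ)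
  exact mem_product.2 ⟨Nat.mem_divisors.2 ⟨lLFc_dvd hK (dvd_mul_right _ _) h1
    ((dvd_mul_right s₁ s₂).trans h5), h0⟩, Nat.mem_divisors.2 ⟨lLFc_dvd hK (dvd_mul_right _ _) h2
    ((dvd_mul_left s₂ s₁).trans h5), h0⟩⟩

/-- Sketch. Put `Q = k₂ ℓ`. Both sides vanish if `n.1 n.2 = 0` or if `n.1 n.2` is not prime to `q`.
Otherwise all numbers are odd; write `n.i = s.i m.i` with every prime of `s.i` dividing `Q` and `m.i`
prime to `Q` (existence by `induction_on_primes`; unique). A term `s' ∈ sQ Q` of the right side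
vanishes unless `n / s'` is prime to `Q`, which forces `s' = s`; the term `s` equals the left side by
`gn_mul`, `D.lam_mul`. If `s ∉ sQ Q` then `gn k (s.1 s.2 ℓ) = 0`: otherwise `gs_dvd` with `t = Q`
gives `s.1 s.2 ∣ k₁ k₂ ^ 3`, and `s.i ∣ Q ^ 4` follows since `k₁` is squarefree (for instance
`s.i ∣ gcd (s.i, k₁) * k₂ ^ 3` and the squarefree number `gcd (s.i, k₁)` divides `Q`). -/
theorem aF_split (D : Data) {k₁ : ℤ} (hk : Squarefree k₁) {k₂ ℓ : ℕ} (h₂ : k₂ ≠ 0) (hℓ : ℓ ≠ 0)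
    (hq : ℓ.Coprime D.q) :
    aF D (k₁ * (k₂ : ℤ) ^ 2) ℓ = cv (sQ (k₂ * ℓ)) (aF D (k₁ * (k₂ : ℤ) ^ 2) ℓ)
      (aP D (k₁ * (k₂ : ℤ) ^ 2) (k₂ * ℓ)) := by
  funext ⟨n₁, n₂⟩
  by_cases h0 : n₁ = 0 ∨ n₂ = 0
  · rw [cv, sum_eq_zero]
    · rcases h0 with rfl | rfl <;> simp [aF, D.lam0]
    · intro s _
      rcases h0 with rfl | rfl <;> simp [aP, aF, D.lam0]
  rw [not_or] at h0
  obtain ⟨s₁, m₁, rfl, a1, b1⟩ := lLFc_split (k₂ * ℓ) h0.1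
  obtain ⟨s₂, m₂, rfl, a2, b2⟩ := lLFc_split (k₂ * ℓ) h0.2
  have n1 : s₁ ≠ 0 := left_ne_zero_of_mul h0.1
  have n2 : s₂ ≠ 0 := left_ne_zero_of_mul h0.2
  rw [cv, sum_eq_single (s₁, s₂)]
  · rw [if_pos ⟨dvd_mul_right _ _, dvd_mul_right _ _⟩, aP]
    simp only [Nat.mul_div_cancel_left _ (Nat.pos_of_ne_zero n1),
      Nat.mul_div_cancel_left _ (Nat.pos_of_ne_zero n2)]
    rw [if_pos (Nat.Coprime.mul_left b1 b2), lLFc_mul D _ hq (dvd_mul_left ℓ k₂) a1 a2 b1 b2]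
  · rintro ⟨t₁, t₂⟩ ht hne
    split_ifs with hd
    · rw [aP, if_neg, mul_zero]
      intro hc
      obtain ⟨c1, c2⟩ := mem_product.1 ht
      refine hne (Prod.ext ?_ ?_)
      · exact lLFc_uniq (Nat.mul_div_cancel' hd.1) (fun p hp h =>
          hp.dvd_of_dvd_pow (h.trans (Nat.dvd_of_mem_divisors c1))) hc.coprime_mul_right a1 b1
      · exact lLFc_uniq (Nat.mul_div_cancel' hd.2) (fun p hp h =>
          hp.dvd_of_dvd_pow (h.trans (Nat.dvd_of_mem_divisors c2))) hc.coprime_mul_left a2 b2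
    · rfl
  · intro hs
    have h3 : gn (k₁ * (k₂ : ℤ) ^ 2) (s₁ * s₂ * ℓ) = 0 :=
      by_contra fun h => hs (lLFc_mem hk h₂ hℓ n1 n2 a1 a2 h)
    simp [aF, h3]

/-- Sketch: `abs_gn_le`, `D.lam_le_card`, the number of divisors is monotone for divisibility. -/
theorem aF_le (D : Data) (k : ℤ) (ℓ : ℕ) {Q : ℕ} {s : ℕ × ℕ} (hs : s ∈ sQ Q) :
    |aF D k ℓ s| ≤ 2 * √ℓ * ((Q ^ 4).divisors.card : ℝ) ^ 2 := by
  obtain ⟨c1, c2⟩ := mem_product.1 hs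
  have h0 := (Nat.mem_divisors.1 c1).2
  have key : ∀ t ∈ (Q ^ 4).divisors, |D.lam t| ≤ ((Q ^ 4).divisors.card : ℝ) := fun t ht =>
    (D.lam_le_card t).trans (Nat.cast_le.2
      (card_le_card (Nat.divisors_subset_of_dvd h0 (Nat.dvd_of_mem_divisors ht))))
  have p1 : 0 < √(s.1 : ℝ) := Real.sqrt_pos.2 (Nat.cast_pos.2 (Nat.pos_of_mem_divisors c1))
  have p2 : 0 < √(s.2 : ℝ) := Real.sqrt_pos.2 (Nat.cast_pos.2 (Nat.pos_of_mem_divisors c2))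
  have h1 := abs_gn_le k (s.1 * s.2 * ℓ)
  rw [Nat.cast_mul, Nat.cast_mul, Real.sqrt_mul (by positivity), Real.sqrt_mul (by positivity)] at h1
  rw [aF, abs_mul, abs_mul, abs_div, abs_div, abs_of_pos p1, abs_of_pos p2]
  have h2 := key _ c1
  have h3 := key _ c2
  calc _ ≤ ((Q ^ 4).divisors.card : ℝ) / √s.1 * (((Q ^ 4).divisors.card : ℝ) / √s.2) *
        (2 * (√s.1 * √s.2 * √ℓ)) := by gcongr
    _ = _ := by field_simp

end Pool.Agent.Lib.MP_03e5d0_nt
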