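import Pool.Agent.Lib.MP_03e5d0_nt.LFd

/-! The mass of the majorant. -/

set_option autoImplicit false

noncomputable section

namespace Pool.Agent.Lib.MP_03e5d0_nt

open Complex Finset MeasureTheory
open scoped NumberTheorySymbols Real ContDiff

/-- Sketch: the primes dividing `Q` give at most `(1 + 156 * 10 ^ 6) ^ ω(Q) ≤ (2 ^ ω(Q)) ^ 28 ≤
d(Q) ^ 28` (`Nat.card_divisors`), the other primes at most `exp (156 * 10 ^ 6 * ∑' n, (√n)⁻¹ ^ 3)`
(`Real.add_one_le_exp`, `Real.summable_nat_rpow_inv`). -/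
theorem uQ_prod : ∃ K : ℝ, 0 ≤ K ∧ ∀ Q : ℕ, Q ≠ 0 → ∀ M : ℕ,
    ∏ p ∈ M.primesBelow, (1 + 156 * uQ Q p) ≤ K * (Q.divisors.card : ℝ) ^ 28 := by
  have hs : Summable fun n : ℕ => (√n)⁻¹ ^ 3 := by
    refine (Real.summable_nat_rpow_inv.2 (show (1 : ℝ) < 3 / 2 by norm_num)).congr fun n => ?_
    rw [inv_pow, Real.sqrt_eq_rpow, ← Real.rpow_natCast, ← Real.rpow_mul (Nat.cast_nonneg n)]
    norm_num
  refine ⟨Real.exp (156 * 10 ^ 6 * ∑' n : ℕ, (√n)⁻¹ ^ 3), (Real.exp_pos _).le, fun Q hQ M => ?_⟩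
  have h1 : ∏ p ∈ M.primesBelow, (1 + 156 * uQ Q p) ≤ ∏ p ∈ M.primesBelow,
      (Real.exp (156 * 10 ^ 6 * (√p)⁻¹ ^ 3) * if p ∣ Q then 2 ^ 28 else 1) := by
    refine prod_le_prod (fun p _ => by unfold uQ; split_ifs <;> positivity) fun p _ => ?_
    unfold uQ
    split_ifs
    · refine le_trans (by norm_num) (le_mul_of_one_le_left (by positivity)
        (Real.one_le_exp (by positivity)))
    · rw [mul_one, add_comm, ← mul_assoc]
      exact Real.add_one_le_exp _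
  refine h1.trans ?_
  rw [prod_mul_distrib, ← Real.exp_sum, ← mul_sum]
  refine mul_le_mul (Real.exp_le_exp.2 (mul_le_mul_of_nonneg_left
    (hs.sum_le_tsum _ fun n _ => by positivity) (by positivity))) ?_
    (prod_nonneg fun p _ => by split_ifs <;> positivity) (Real.exp_pos _).le
  rw [prod_ite, prod_const_one, mul_one, prod_const, ← pow_mul, mul_comm, pow_mul]
  refine pow_le_pow_left₀ (by positivity) ?_ _
  have h2 : (M.primesBelow.filter fun p => p ∣ Q).card ≤ Q.primeFactors.card :=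
    card_le_card fun p hp => Nat.mem_primeFactors.2
      ⟨Nat.prime_of_mem_primesBelow (mem_filter.1 hp).1, (mem_filter.1 hp).2, hQ⟩
  have h3 : 2 ^ Q.primeFactors.card ≤ Q.divisors.card := by
    rw [Nat.card_divisors hQ]
    refine pow_card_le_prod _ _ _ fun p hp => ?_
    have := (Nat.prime_of_mem_primeFactors hp).factorization_pos_of_dvd hQ
      (Nat.dvd_of_mem_primeFactors hp)
    omega
  exact_mod_cast (Nat.pow_le_pow_right two_pos h2).trans h3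

/-- Sketch: `mass2` with `uQ_prod`; `tsum_dvd` and `summable_dvd` for each `s ∈ sQ Q`; the support has
`d(Q ^ 4) ^ 2` elements; `d(Q) ≤ d(Q ^ 4) ≤ C (Q ^ 4) ^ (1 / 256)` (`card_divisors_le`). -/
theorem cv_mass : ∃ C : ℝ, 0 ≤ C ∧ ∀ Q : ℕ, Q ≠ 0 → ∀ B : ℝ, 0 ≤ B →
    Summable (cv (sQ Q) (fun _ => B * ((Q ^ 4).divisors.card : ℝ) ^ 2) (wP Q)) ∧
      ∑' r, cv (sQ Q) (fun _ => B * ((Q ^ 4).divisors.card : ℝ) ^ 2) (wP Q) r ≤ C * B * √Q := by
  obtain ⟨K, hK, H⟩ := uQ_prod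
  obtain ⟨C, hC, H'⟩ := card_divisors_le (1 / 256) (by norm_num)
  refine ⟨K * C ^ 32, by positivity, fun Q hQ B hB => ?_⟩
  have hu : ∀ p, 0 ≤ uQ Q p := fun p => by unfold uQ; split_ifs <;> positivity
  obtain ⟨h1, h2⟩ : Summable (wP Q) ∧ ∑' r, wP Q r ≤ K * (Q.divisors.card : ℝ) ^ 28 :=
    mass2 (W := wQ Q) (u := uQ Q) (fun p s => by unfold wQ; split_ifs; exacts [zero_le_one, hu p, le_rfl])
      (fun p => by simp [wQ]) (fun p s hs => by rw [wQ, if_neg (by omega), if_neg (by omega)])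
      (fun p s hs => by rw [wQ, if_neg hs]; split_ifs; exacts [le_rfl, hu p]) (H Q hQ)
  obtain ⟨d, hd⟩ : ∃ d : ℝ, d = ((Q ^ 4).divisors.card : ℝ) := ⟨_, rfl⟩
  rw [← hd]
  have hd0 : 0 ≤ d := by rw [hd]; positivity
  have hs : ∀ s ∈ sQ Q, s.1 ≠ 0 ∧ s.2 ≠ 0 := fun s hs =>
    ⟨(Nat.pos_of_mem_divisors (mem_product.1 hs).1).ne',
      (Nat.pos_of_mem_divisors (mem_product.1 hs).2).ne'⟩
  have h3 : ∀ s ∈ sQ Q, Summable fun n : ℕ × ℕ => if s.1 ∣ n.1 ∧ s.2 ∣ n.2 then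
      B * d ^ 2 * wP Q (n.1 / s.1, n.2 / s.2) else 0 := fun s h =>
    summable_dvd (hs s h).1 (hs s h).2 (h1.mul_left (B * d ^ 2))
  refine ⟨summable_sum h3, ?_⟩
  have h4 : ∑' r, cv (sQ Q) (fun _ => B * d ^ 2) (wP Q) r = d ^ 2 * (B * d ^ 2 * ∑' r, wP Q r) := by
    unfold cv
    rw [Summable.tsum_finsetSum h3, sum_congr rfl fun s h =>
      tsum_dvd (hs s h).1 (hs s h).2 fun m _ => B * d ^ 2 * wP Q m, sum_const, tsum_mul_left, sQ,
      card_product, nsmul_eq_mul, hd]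
    push_cast
    ring
  have h5 : (Q.divisors.card : ℝ) ≤ d := by
    rw [hd]
    exact_mod_cast card_le_card (Nat.divisors_subset_of_dvd (pow_ne_zero 4 hQ)
      (dvd_pow_self Q (by norm_num)))
  have h6 : d ^ 32 ≤ C ^ 32 * √Q := by
    refine (pow_le_pow_left₀ hd0 (hd ▸ H' (Q ^ 4)) 32).trans (le_of_eq ?_)
    rw [mul_pow, Nat.cast_pow, ← Real.rpow_natCast (Q : ℝ) 4, ← Real.rpow_mul (Nat.cast_nonneg Q),
      ← Real.rpow_natCast ((Q : ℝ) ^ _), ← Real.rpow_mul (Nat.cast_nonneg Q), Real.sqrt_eq_rpow]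
    norm_num
  have h7 : ∑' r, wP Q r ≤ K * d ^ 28 :=
    h2.trans (mul_le_mul_of_nonneg_left (pow_le_pow_left₀ (by positivity) h5 _) hK)
  rw [h4]
  calc _ ≤ d ^ 2 * (B * d ^ 2 * (K * d ^ 28)) := by gcongr
    _ = K * B * d ^ 32 := by ring
    _ ≤ K * B * (C ^ 32 * √Q) := by gcongr
    _ = _ := by ring

end Pool.Agent.Lib.MP_03e5d0_nt
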