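import Pool.Agent.Lib.MP_03e5d0_nt.LGb

/-! Gauss sums at prime powers and at the frequency zero. -/

set_option autoImplicit false

noncomputable section

namespace Pool.Agent.Lib.MP_03e5d0_nt

open Complex Finset MeasureTheory
open scoped NumberTheorySymbols Real ContDiff

lemma lLGc_exp_dvd {n : ℕ} (hn : n ≠ 0) {x : ℤ} (h : (n : ℤ) ∣ x) :
    cexp (2 * π * I * (x / n)) = 1 := by
  obtain ⟨c, rfl⟩ := h
  have : (n : ℂ) ≠ 0 := Nat.cast_ne_zero.2 hn
  rw [← exp_int_mul_two_pi_mul_I c]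
  congr 1
  push_cast
  field_simp

lemma lLGc_exp_congr {n : ℕ} (hn : n ≠ 0) {x y : ℤ} (h : x ≡ y [ZMOD n]) :
    cexp (2 * π * I * (x / n)) = cexp (2 * π * I * (y / n)) := by
  have h1 := lLGc_exp_dvd hn h.dvd
  rw [← mul_one (cexp (2 * π * I * (x / n))), ← h1, ← Complex.exp_add]
  congr 1
  push_cast
  ring

lemma lLGc_geom {n : ℕ} (hn : n ≠ 0) {k : ℤ} (h : ¬(n : ℤ) ∣ k) :
    ∑ a ∈ range n, cexp (2 * π * I * ((a : ℤ) * k / n)) = 0 := by
  have hn' : (n : ℂ) ≠ 0 := Nat.cast_ne_zero.2 hn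
  have h1 : cexp (2 * π * I * (k / n)) ≠ 1 := by
    intro e
    obtain ⟨m, hm⟩ := Complex.exp_eq_one_iff.1 e
    refine h ⟨m, ?_⟩
    have h2 : (k : ℂ) / n = m := by
      refine mul_left_cancel₀ Complex.two_pi_I_ne_zero ?_
      rw [hm, mul_comm]
    rw [div_eq_iff hn'] at h2
    exact_mod_cast h2.trans (mul_comm _ _)
  have h2 : cexp (2 * π * I * (k / n)) ^ n = 1 := by
    rw [← Complex.exp_nat_mul, ← exp_int_mul_two_pi_mul_I k]
    congr 1
    field_simp
  have h3 := geom_sum_eq h1 n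
  rw [h2, sub_self, zero_div] at h3
  rw [← h3]
  refine sum_congr rfl fun a _ => ?_
  rw [← Complex.exp_nat_mul]
  congr 1
  push_cast
  ring

lemma lLGc_scale (k : ℤ) {r : ℕ} (hr : r ≠ 0) {u : ℤ} (hu : IsCoprime (r : ℤ) u) :
    gt k r = (J(u | r) : ℂ) * gt (u * k) r := by
  have h := sum_range_eq_of_inj (ι := Fin r) (n := r) (Fintype.card_fin r)
    (fun i => u * ((i : ℕ) : ℤ)) (fun i j hij => ?_)
    (F := fun a => (J(a | r) : ℂ) * cexp (2 * π * I * (a * k / r)))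
    fun a b hab => gt_term_periodic k hr hab
  · unfold gt
    rw [mul_sum, ← Fin.sum_univ_eq_sum_range (fun a : ℕ => (J(u | r) : ℂ) *
      ((J((a : ℤ) | r) : ℂ) * cexp (2 * π * I * (a * ((u * k : ℤ) : ℂ) / r))))]
    refine Eq.trans (by simp) (h.trans (sum_congr rfl fun i _ => ?_))
    rw [jacobiSym.mul_left]
    push_cast
    rw [mul_assoc]
    congr 4
    ring
  · have h1 : (r : ℤ) ∣ u * ((j : ℕ) - (i : ℕ)) := by
      rw [mul_sub]
      exact hij.dvd
    have h2 : ((i : ℕ) : ℤ) ≡ (j : ℕ) [ZMOD r] := (Int.modEq_iff_dvd).2 (hu.dvd_of_dvd_mul_left h1)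
    exact Fin.ext (Nat.ModEq.eq_of_lt_of_lt (Int.natCast_modEq_iff.1 h2) i.2 j.2)

lemma lLGc_gt_dvd {k : ℤ} {r : ℕ} (hr : r ≠ 0) (h : (r : ℤ) ∣ k) :
    gt k r = ∑ a ∈ range r, (J((a : ℤ) | r) : ℂ) := by
  refine sum_congr rfl fun a _ => ?_
  have := lLGc_exp_dvd hr (h.mul_left a)
  push_cast at this
  rw [this, mul_one]

lemma lLGc_coprime {p : ℕ} (hp : p.Prime) {u : ℤ} (h : ¬(p : ℤ) ∣ u) : IsCoprime (p : ℤ) u :=
  (Nat.prime_iff_prime_int.1 hp).irreducible.coprime_iff_not_dvd.2 h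

lemma lLGc_gcd {p : ℕ} (hp : p.Prime) {u : ℤ} (h : ¬(p : ℤ) ∣ u) : u.gcd p = 1 :=
  Int.isCoprime_iff_gcd_eq_one.1 (lLGc_coprime hp h).symm

lemma lLGc_sq {p : ℕ} (hp : p.Prime) (a : ℤ) :
    J(a | p) ^ 2 = if (p : ℤ) ∣ a then 0 else 1 := by
  split_ifs with h
  · rw [jacobiSym.mod_left, Int.emod_eq_zero_of_dvd h, jacobiSym.zero_left hp.one_lt]
    rfl
  · exact jacobiSym.sq_one (lLGc_gcd hp h)

lemma lLGc_odd {k : ℤ} {p j : ℕ} (hp : p.Prime) (h2 : p ≠ 2) (hj : Odd j)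
    (h : ((p ^ j : ℕ) : ℤ) ∣ k) : gt k (p ^ j) = 0 := by
  have := Fact.mk hp
  obtain ⟨z, hz⟩ := FiniteField.exists_nonsquare (F := ZMod p) (by rwa [ZMod.ringChar_zmod_n])
  have h1 : J((z.val : ℤ) | p) = -1 := by
    rw [ZMod.nonsquare_iff_jacobiSym_eq_neg_one]
    simpa using hz
  have h3 : ¬(p : ℤ) ∣ z.val := fun e => by
    have := lLGc_sq hp z.val
    rw [if_pos e, h1] at this
    norm_num at this
  have hr : p ^ j ≠ 0 := pow_ne_zero j hp.ne_zero
  have h4 := lLGc_scale k hr (u := z.val) (by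
    push_cast
    exact (lLGc_coprime hp h3).pow_left)
  rw [jacobiSym.pow_right, h1, hj.neg_one_pow, lLGc_gt_dvd hr (h.mul_left _),
    ← lLGc_gt_dvd hr h] at h4
  push_cast at h4
  linear_combination (1 / 2 : ℂ) * h4

lemma lLGc_card {p : ℕ} (hp : p ≠ 0) (m : ℕ) :
    ((range (p * m)).filter fun a : ℕ => (p : ℤ) ∣ a).card = m := by
  have : ((range (p * m)).filter fun a : ℕ => (p : ℤ) ∣ a) = (range m).image (p * ·) := by
    ext a
    simp only [mem_filter, mem_range, mem_image, Int.natCast_dvd_natCast]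
    constructor
    · rintro ⟨h, c, rfl⟩
      exact ⟨c, lt_of_mul_lt_mul_left h (Nat.zero_le _), rfl⟩
    · rintro ⟨c, h, rfl⟩
      exact ⟨Nat.mul_lt_mul_of_pos_left h (Nat.pos_of_ne_zero hp), dvd_mul_right _ _⟩
  rw [this, card_image_of_injective _ (mul_right_injective₀ hp), card_range]

lemma lLGc_rho_mul (δ : ℕ → ℝ) {a b : ℕ} (h : a.Coprime b) :
    rho δ (a * b) = rho δ a * rho δ b := by
  have h1 : IsSquare (a * b) ↔ IsSquare a ∧ IsSquare b := by
    refine ⟨fun ⟨c, hc⟩ => ?_, fun h => h.1.mul h.2⟩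
    rw [← sq] at hc
    obtain ⟨d, hd⟩ := exists_eq_pow_of_mul_eq_pow (by rw [gcd_eq_nat_gcd, h]; exact isUnit_one) hc
    obtain ⟨d', hd'⟩ := exists_eq_pow_of_mul_eq_pow
      (by rw [gcd_eq_nat_gcd, h.symm]; exact isUnit_one) ((mul_comm b a).trans hc)
    exact ⟨⟨d, hd.trans (sq d)⟩, d', hd'.trans (sq d')⟩
  unfold rho
  rw [h.primeFactors_mul, prod_union h.disjoint_primeFactors]
  by_cases ha : IsSquare a <;> by_cases hb : IsSquare b <;> simp [h1, ha, hb]

/-- `∑ a, exp (2 π i a ^ 2 / p) = ∑ b, (1 + J(b | p)) exp (2 π i b / p)` (number of square roots,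
`quadraticChar_card_sqrts` or `legendreSym.card_sqrts`; `jacobiSym.legendreSym.to_jacobiSym`), the
sum of the roots of unity vanishes, `quad_gauss`. -/
theorem gs_one_prime {p : ℕ} (hp : p.Prime) (h2 : p ≠ 2) : gs 1 p = √p := by
  have := Fact.mk hp
  have hv : ∀ i j : ZMod p, (i.val : ℤ) ≡ (j.val : ℤ) [ZMOD p] → i = j := fun i j h =>
    ZMod.val_injective p
      (Nat.ModEq.eq_of_lt_of_lt (Int.natCast_modEq_iff.1 h) (ZMod.val_lt i) (ZMod.val_lt j))
  have h1 := sum_range_eq_of_inj (ι := ZMod p) (n := p) (ZMod.card p) (fun z => (z.val : ℤ)) hv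
    (F := fun a => cexp (2 * π * I * ((a ^ 2 : ℤ) / p)))
    fun a b hab => lLGc_exp_congr hp.ne_zero (hab.pow 2)
  have h3 := sum_range_eq_of_inj (ι := ZMod p) (n := p) (ZMod.card p) (fun z => (z.val : ℤ)) hv
    (F := fun a => ((J(a | p) : ℂ) + 1) * cexp (2 * π * I * (a / p)))
    fun a b hab => by rw [jacobiSym.mod_left' hab, lLGc_exp_congr hp.ne_zero hab]
  have h4 : ∑ z : ZMod p, cexp (2 * π * I * ((((z.val : ℤ) ^ 2 : ℤ) : ℂ) / p)) =
      ∑ z : ZMod p, ((J((z.val : ℤ) | p) : ℂ) + 1) * cexp (2 * π * I * ((z.val : ℤ) / p)) := by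
    rw [← sum_fiberwise univ fun z : ZMod p => z ^ 2]
    refine sum_congr rfl fun b _ => ?_
    rw [sum_congr rfl (g := fun _ => cexp (2 * π * I * ((b.val : ℤ) / p))) fun z hz => ?_,
      sum_const, nsmul_eq_mul]
    · have h5 := legendreSym.card_sqrts p h2 (b.val : ℤ)
      rw [jacobiSym.legendreSym.to_jacobiSym, Set.toFinset_ofPred, Int.cast_natCast,
        ZMod.natCast_zmod_val] at h5
      congr 1
      exact_mod_cast h5
    · refine lLGc_exp_congr hp.ne_zero ((ZMod.intCast_eq_intCast_iff _ _ _).1 ?_)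
      simpa using (mem_filter.1 hz).2
  have h5 := lLGc_geom hp.ne_zero (k := 1) fun h =>
    hp.one_lt.ne' (by exact_mod_cast Int.eq_one_of_dvd_one (by positivity) h)
  have h6 : gt 1 p = (1 + (-I) ^ p) * (1 + I) / 2 * (√p : ℝ) := by
    rw [← quad_gauss hp.ne_zero]
    have h7 := h1.trans (h4.trans h3.symm)
    simp only [add_mul, sum_add_distrib, one_mul] at h7
    unfold gt
    push_cast at h5 h7 ⊢
    simp only [mul_one] at h5 ⊢
    rw [h7, h5, add_zero]
  have h8 : (-I) ^ p = (-I) ^ (p % 4) := by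
    conv_lhs => rw [← Nat.div_add_mod p 4, pow_add, pow_mul, Even.neg_pow (by decide), I_pow_four,
      one_pow, one_mul]
  unfold gs
  rw [h6, h8]
  rcases Nat.odd_mod_four_iff.1 (Nat.odd_iff.1 (hp.odd_of_ne_two h2)) with h | h
  · have : (1 + (-I) ^ 1) * (1 + I) / 2 = 1 := by linear_combination (-1 / 2 : ℂ) * I_sq
    rw [h, this]
    simp
  · have : (1 + (-I) ^ 3) * (1 + I) / 2 = I := by
      linear_combination (-1 / 2 * I ^ 2 - I / 2 + 1 / 2 : ℂ) * I_sq
    rw [h, this]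
    simp

/-- For `p ∤ k` substitute `a ↦ a k` (`sum_range_eq_of_inj`): `gt 1 p = J(k | p) * gt k p`. For
`p ∣ k` the sum of `J(a | p)` vanishes (multiply by a non-residue, or `quadraticChar_sum_zero`). -/
theorem gn_prime (k : ℤ) {p : ℕ} (hp : p.Prime) (h2 : p ≠ 2) : gn k p = J(k | p) := by
  have hs : √(p : ℝ) ≠ 0 := (Real.sqrt_pos.2 (Nat.cast_pos.2 hp.pos)).ne'
  have h3 := lLGc_sq hp k
  unfold gn
  rw [div_eq_iff hs]
  split_ifs at h3 with h
  · have h4 := lLGc_odd (k := k) hp h2 odd_one (by rwa [pow_one])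
    rw [pow_one] at h4
    unfold gs
    rw [h4, pow_eq_zero_iff two_ne_zero |>.1 h3]
    simp
  · have h4 := lLGc_scale 1 hp.ne_zero (lLGc_coprime hp h)
    have h5 : gt k p = (J(k | p) : ℂ) * gt 1 p := by
      have h6 : (J(k | p) : ℂ) ^ 2 = 1 := by exact_mod_cast h3
      rw [h4, mul_one, ← mul_assoc, ← sq, h6, one_mul]
    rw [← gs_one_prime hp h2]
    unfold gs
    rw [h5]
    simp [mul_add]

/-- `J(a | p ^ 2)` is the indicator function of `p ∤ a`; the sum over all `a` is a geometric sum that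
vanishes since `p ^ 2 ∤ k`, the sum over the multiples of `p` is `p`. -/
theorem gn_sq {k : ℤ} {p : ℕ} (hp : p.Prime) (h1 : (p : ℤ) ∣ k) (h2 : ¬(p : ℤ) ^ 2 ∣ k) :
    gn k (p ^ 2) = -1 := by
  have hr : p ^ 2 ≠ 0 := pow_ne_zero 2 hp.ne_zero
  have h3 := lLGc_geom hr (k := k) (by exact_mod_cast h2)
  have h4 : gt k (p ^ 2) = -(p : ℂ) := by
    have h5 : ∀ a ∈ range (p ^ 2), (J((a : ℤ) | p ^ 2) : ℂ) *
        cexp (2 * π * I * (a * k / (p ^ 2 : ℕ))) =
        cexp (2 * π * I * ((a : ℤ) * k / (p ^ 2 : ℕ))) - if (p : ℤ) ∣ a then 1 else 0 := by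
      intro a _
      rw [jacobiSym.pow_right, lLGc_sq hp]
      split_ifs with h
      · have := lLGc_exp_dvd hr (x := a * k) (by
          push_cast
          rw [sq]
          exact mul_dvd_mul h h1)
        push_cast at this ⊢
        rw [this]
        ring
      · simp
    unfold gt
    rw [sum_congr rfl h5, sum_sub_distrib, h3, sum_boole, sq, lLGc_card hp.ne_zero, zero_sub]
  have hp0 : (p : ℝ) ≠ 0 := Nat.cast_ne_zero.2 hp.ne_zero
  unfold gn gs
  rw [h4, Nat.cast_pow, Real.sqrt_sq (Nat.cast_nonneg _)]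
  simp [hp0]

/-- `gs_dvd` with `t = p`. -/
theorem gn_pow_eq_zero {k : ℤ} {p j : ℕ} (hp : p.Prime) (h : ¬(p : ℤ) ^ j ∣ k) :
    gn k (p ^ (j + 1)) = 0 := by
  unfold gn
  rw [div_eq_zero_iff]
  refine Or.inl (by_contra fun e => h ?_)
  have h1 := gs_dvd (pow_ne_zero (j + 1) hp.ne_zero) e (t := p) fun q hq hd =>
    Int.natCast_dvd_natCast.2 (hq.dvd_of_dvd_pow hd)
  push_cast at h1
  rwa [pow_succ', mul_dvd_mul_iff_left (Nat.cast_ne_zero.2 hp.ne_zero)] at h1

/-- Both sides are multiplicative on odd numbers (`Nat.recOnPosPrimePosCoprime`, `gs_mul`,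
`Nat.Coprime.primeFactors_mul`, a product of coprime numbers is a square iff both are). At `p ^ j`:
for even `j > 0` the sum counts the units (`Nat.totient_prime_pow`), for odd `j` multiply by a
non-residue. -/
theorem gs_zero {r : ℕ} (hr : Odd r) : gs 0 r = r * rho dl0 r := by
  induction r using Nat.recOnPosPrimePosCoprime with
  | zero => simp at hr
  | one => simp [gs_one, rho]
  | coprime a b _ _ h iha ihb =>
    have ha := Nat.Odd.of_mul_left hr
    have hb := Nat.Odd.of_mul_right hr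
    rw [gs_mul 0 ha hb h, iha ha, ihb hb, lLGc_rho_mul dl0 h]
    push_cast
    ring
  | prime_pow p n hp hn =>
    have h2 : p ≠ 2 := by
      rintro rfl
      exact (Nat.not_odd_iff_even.2 ((Nat.even_pow' hn.ne').2 even_two)) hr
    rcases Nat.even_or_odd n with ⟨m, rfl⟩ | h
    · obtain ⟨l, hl⟩ : ∃ l, m + m = l + 1 := ⟨m + m - 1, by omega⟩
      have hr' : p ^ (m + m) ≠ 0 := pow_ne_zero _ hp.ne_zero
      have h5 : ∀ a ∈ range (p ^ (m + m)), (J((a : ℤ) | p ^ (m + m)) : ℂ) =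
          1 - if (p : ℤ) ∣ a then 1 else 0 := by
        intro a _
        rw [jacobiSym.pow_right, ← two_mul, pow_mul, lLGc_sq hp]
        split_ifs
        · rw [zero_pow (by omega)]
          simp
        · simp
      have h4 : gt 0 (p ^ (m + m)) = ((p ^ (l + 1) - p ^ l : ℝ) : ℂ) := by
        rw [lLGc_gt_dvd hr' (dvd_zero _), sum_congr rfl h5, sum_sub_distrib, sum_boole, hl,
          pow_succ' p l, lLGc_card hp.ne_zero]
        simp [pow_succ']
      have hp0 : (p : ℝ) ≠ 0 := Nat.cast_ne_zero.2 hp.ne_zero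
      unfold gs rho
      rw [h4, if_pos ⟨p ^ m, pow_add p m m⟩, Nat.primeFactors_prime_pow hn.ne' hp, prod_singleton,
        ofReal_re, ofReal_im, hl, dl0]
      push_cast
      field_simp
      ring
    · have h4 : ¬IsSquare (p ^ n) := by
        rintro ⟨c, hc⟩
        obtain ⟨i, -, rfl⟩ := (Nat.dvd_prime_pow hp).1 (Dvd.intro c hc.symm)
        rw [← pow_add] at hc
        exact Nat.not_even_iff_odd.2 h ⟨i, Nat.pow_right_injective hp.two_le hc⟩
      unfold gs rho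
      rw [lLGc_odd hp h2 h (dvd_zero _), if_neg h4]
      simp

end Pool.Agent.Lib.MP_03e5d0_nt
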