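import Pool.Agent.Lib.MP_03e5d0_nt.LFd
import Pool.Agent.Lib.MP_03e5d0_nt.LGc

/-! The part of the dual coefficients prime to the modulus: multiplicativity and local values. -/

set_option autoImplicit false

noncomputable section

namespace Pool.Agent.Lib.MP_03e5d0_nt

open Complex Finset MeasureTheory
open scoped NumberTheorySymbols Real ContDiff

theorem lLFb_odd (D : Data) {n : ℕ} (h : D.lam n ≠ 0) : Odd n := by
  have h1 : n.Coprime D.q := by_contra fun e => h (D.lam_zero n e)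
  exact Nat.coprime_two_right.1 (h1.coprime_dvd_right D.two_dvd)

theorem lLFb_aF (D : Data) (k : ℤ) {n m : ℕ × ℕ} (h : (n.1 * n.2).Coprime (m.1 * m.2)) :
    aF D k 1 (n.1 * m.1, n.2 * m.2) = aF D k 1 n * aF D k 1 m := by
  have h1 : n.1.Coprime m.1 := h.coprime_mul_right.coprime_mul_right_right
  have h2 : n.2.Coprime m.2 := h.coprime_mul_left.coprime_mul_left_right
  simp only [aF, mul_one, D.lam_mul _ _ h1, D.lam_mul _ _ h2, Nat.cast_mul,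
    Real.sqrt_mul (Nat.cast_nonneg _)]
  by_cases h0 : D.lam n.1 = 0 ∨ D.lam n.2 = 0 ∨ D.lam m.1 = 0 ∨ D.lam m.2 = 0
  · rcases h0 with e | e | e | e <;> simp [e]
  · simp only [not_or] at h0
    rw [mul_mul_mul_comm n.1, gn_mul k ((lLFb_odd D h0.1).mul (lLFb_odd D h0.2.1))
      ((lLFb_odd D h0.2.2.1).mul (lLFb_odd D h0.2.2.2)) h]
    ring

theorem lLFb_lv (D : Data) (k : ℤ) {Q p : ℕ} (hp : p.Prime) (h : ¬p ∣ Q) (i j : ℕ) :
    lv (aP D k Q) p i j =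
      D.lam (p ^ i) * D.lam (p ^ j) * gn k (p ^ (i + j)) * (√p)⁻¹ ^ (i + j) := by
  have e : ∀ i : ℕ, √((p ^ i : ℕ) : ℝ) = √p ^ i := fun i => by
    rw [Nat.cast_pow, Real.sqrt_eq_iff_mul_self_eq (by positivity) (by positivity), ← mul_pow,
      Real.mul_self_sqrt (Nat.cast_nonneg p)]
  simp only [lv, aP, aF]
  rw [← pow_add, if_pos (((Nat.Prime.coprime_iff_not_dvd hp).2 h).pow_left _), mul_one, e, e,
    pow_add (√(p : ℝ))⁻¹, inv_pow, inv_pow]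
  ring

theorem lLFb_cop {k₂ ℓ p : ℕ} (hp : p.Prime) (h : ¬p ∣ k₂ * ℓ) :
    IsCoprime (p : ℤ) ((k₂ : ℤ) ^ 2) :=
  (Nat.isCoprime_iff_coprime.2 ((Nat.Prime.coprime_iff_not_dvd hp).2
    fun e => h (e.mul_right ℓ))).pow_right

theorem lLFb_sq {k₁ : ℤ} (hk : Squarefree k₁) {k₂ ℓ p : ℕ} (hp : p.Prime) (h : ¬p ∣ k₂ * ℓ) :
    ¬(p : ℤ) ^ 2 ∣ k₁ * (k₂ : ℤ) ^ 2 := fun e => by
  have h1 := (lLFb_cop hp h).pow_left.dvd_of_dvd_mul_right e
  rw [sq] at h1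
  have h2 := Int.isUnit_iff_natAbs_eq.1 (hk _ h1)
  rw [Int.natAbs_natCast] at h2
  exact hp.one_lt.ne' h2

/-- Sketch: if `lam n ≠ 0` then `n` is prime to `q`, hence odd (`D.lam_zero`, `D.two_dvd`);
`gn_mul`, `gn_one`, `D.lam_mul`, `D.lam0`. -/
theorem aP_mul2 (D : Data) (k : ℤ) (Q : ℕ) : Mul2 (aP D k Q) := by
  refine ⟨by simp [aP, aF, D.lam_one, gn_one], fun n hn => ?_, fun n m h => ?_⟩
  · rcases hn with e | e <;> simp [aP, aF, e]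
  · simp only [aP]
    rw [mul_mul_mul_comm n.1, lLFb_aF D k h]
    simp only [Nat.coprime_mul_iff_left (m := n.1 * n.2)]
    by_cases h1 : (n.1 * n.2).Coprime Q
    · by_cases h2 : (m.1 * m.2).Coprime Q
      · rw [if_pos h1, if_pos h2, if_pos ⟨h1, h2⟩]
      · rw [if_neg h2, if_neg fun e => h2 e.2, mul_zero]
    · rw [if_neg h1, if_neg fun e => h1 e.1, zero_mul]

theorem aP_bad (D : Data) (k : ℤ) {Q p : ℕ} (hp : p.Prime) (h : p ∣ Q ∨ p ∣ D.q) {i j : ℕ}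
    (hij : i + j ≠ 0) : lv (aP D k Q) p i j = 0 := by
  by_cases h1 : p ∣ Q
  · simp only [lv, aP]
    rw [← pow_add]
    exact if_neg fun e => hp.one_lt.ne' (Nat.eq_one_of_dvd_coprimes e (dvd_pow_self p hij) h1)
  · have h2 : ∀ i : ℕ, i ≠ 0 → D.lam (p ^ i) = 0 := fun i hi => D.lam_zero _ fun e =>
      hp.one_lt.ne' (Nat.eq_one_of_dvd_coprimes e (dvd_pow_self p hi) (h.resolve_left h1))
    rw [lLFb_lv D k hp h1]
    by_cases hi : i = 0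
    · simp [h2 j (by omega)]
    · simp [h2 i hi]

/-- Sketch: `gn_prime` (`p ≠ 2` as `2 ∣ q`), `J(k₂ ^ 2 | p) = 1`. -/
theorem aP_deg1 (D : Data) (k₁ : ℤ) {k₂ ℓ p : ℕ} (hp : p.Prime) (h : ¬p ∣ k₂ * ℓ) {i j : ℕ}
    (hij : i + j = 1) : lv (aP D (k₁ * (k₂ : ℤ) ^ 2) (k₂ * ℓ)) p i j =
      D.lam p * jac k₁ p * (√p)⁻¹ := by
  by_cases hq : p ∣ D.q
  · rw [aP_bad D _ hp (Or.inr hq) (by omega), D.lam_zero p fun e =>
      hp.one_lt.ne' (Nat.eq_one_of_dvd_coprimes e dvd_rfl hq), zero_mul, zero_mul]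
  have h2 : p ≠ 2 := fun e => hq (e ▸ D.two_dvd)
  have h3 : D.lam (p ^ i) * D.lam (p ^ j) = D.lam p := by
    obtain ⟨rfl, rfl⟩ | ⟨rfl, rfl⟩ : (i = 0 ∧ j = 1) ∨ (i = 1 ∧ j = 0) := by omega
    all_goals simp [D.lam_one]
  have h4 : (k₂ : ℤ).gcd p = 1 := by
    rw [Int.gcd_natCast_natCast]
    exact ((Nat.Prime.coprime_iff_not_dvd hp).2 fun e => h (e.mul_right ℓ)).symm
  rw [lLFb_lv D _ hp h, hij, h3, pow_one, pow_one, gn_prime _ hp h2, jacobiSym.mul_left,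
    jacobiSym.sq_one' h4, mul_one, jac]

/-- Sketch: `gn_sq` if `p ∣ k₁` (then `jac k₁ p = 0`), `gn_pow_eq_zero` with `j = 1` otherwise
(then `jac k₁ p ^ 2 = 1`, `lLGc_sq`). -/
theorem aP_deg2 (D : Data) {k₁ : ℤ} (hk : Squarefree k₁) {k₂ ℓ p : ℕ} (hp : p.Prime)
    (h : ¬p ∣ k₂ * ℓ) {i j : ℕ} (hij : i + j = 2) :
    lv (aP D (k₁ * (k₂ : ℤ) ^ 2) (k₂ * ℓ)) p i j =
      -(D.lam (p ^ i) * D.lam (p ^ j) * (1 - jac k₁ p ^ 2) * (√p)⁻¹ ^ 2) := by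
  have h1 : jac k₁ p ^ 2 = if (p : ℤ) ∣ k₁ then 0 else 1 := by
    rw [jac]
    exact_mod_cast lLGc_sq hp k₁
  rw [lLFb_lv D _ hp h, hij, h1]
  split_ifs with h2
  · rw [gn_sq hp (h2.mul_right _) (lLFb_sq hk hp h)]
    ring
  · rw [gn_pow_eq_zero (j := 1) hp fun e =>
      h2 ((lLFb_cop hp h).dvd_of_dvd_mul_right (by rwa [pow_one] at e))]
    ring

/-- Sketch: degree `0`: the value is one; `aP_bad`, `aP_deg1`, `aP_deg2`, `D.lam_pow_le`; in degree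
at least three `gn_pow_eq_zero` (`p ^ 2 ∤ k`). -/
theorem aP_lb (D : Data) {k₁ : ℤ} (hk : Squarefree k₁) (k₂ ℓ : ℕ) {p : ℕ} (hp : p.Prime) :
    LB p (aP D (k₁ * (k₂ : ℤ) ^ 2) (k₂ * ℓ)) 4 2 := by
  have h3 : ∀ i j, 2 < i + j → lv (aP D (k₁ * (k₂ : ℤ) ^ 2) (k₂ * ℓ)) p i j = 0 := by
    intro i j hij
    by_cases h : p ∣ k₂ * ℓ
    · exact aP_bad D _ hp (Or.inl h) (by omega)
    · obtain ⟨s, hs⟩ : ∃ s, i + j = s + 1 := ⟨i + j - 1, by omega⟩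
      rw [lLFb_lv D _ hp h, hs, gn_pow_eq_zero hp fun e =>
        lLFb_sq hk hp h ((pow_dvd_pow _ (by omega)).trans e), mul_zero, zero_mul]
  refine ⟨fun i j => ?_, h3⟩
  have h0 : (0 : ℝ) ≤ (√p)⁻¹ := by positivity
  by_cases e0 : i + j = 0
  · obtain ⟨rfl, rfl⟩ : i = 0 ∧ j = 0 := by omega
    simp only [lv, pow_zero, add_zero, (aP_mul2 D _ _).one]
    norm_num
  by_cases h : p ∣ k₂ * ℓ
  · rw [aP_bad D _ hp (Or.inl h) e0, abs_zero]
    positivity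
  by_cases e1 : i + j = 1
  · rw [aP_deg1 D k₁ hp h e1, e1, pow_one, abs_mul, abs_mul, abs_of_nonneg h0]
    refine mul_le_mul_of_nonneg_right ?_ h0
    have h1 : |jac k₁ p| ≤ 1 := by rcases adm_jac k₁ p with e | e | e <;> simp [e]
    have := mul_le_mul (D.lam_le p hp) h1 (abs_nonneg _) zero_le_two
    linarith
  by_cases e2 : i + j = 2
  · rw [aP_deg2 D hk hp h e2, e2, abs_neg, abs_mul, abs_mul, abs_mul,
      abs_of_nonneg (pow_nonneg h0 2)]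
    refine mul_le_mul_of_nonneg_right ?_ (pow_nonneg h0 2)
    have h1 : |1 - jac k₁ p ^ 2| ≤ 1 := by rcases adm_jac k₁ p with e | e | e <;> simp [e]
    have h2 := mul_le_mul (D.lam_pow_le hp i) (D.lam_pow_le hp j) (abs_nonneg _) (by positivity)
    have h4 : ((i : ℝ) + 1) * (j + 1) ≤ 4 := by
      have : (i : ℝ) + j = 2 := by exact_mod_cast e2
      nlinarith [sq_nonneg ((i : ℝ) - j)]
    exact (mul_le_mul (h2.trans h4) h1 (abs_nonneg _) (by norm_num)).trans_eq (mul_one _)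
  · rw [h3 i j (by omega), abs_zero]
    positivity

end Pool.Agent.Lib.MP_03e5d0_nt
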