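import Pool.Agent.Lib.MP_03e5d0_nt.LFa
import Pool.Agent.Lib.MP_03e5d0_nt.LFb

/-! The majorant of the quotient. -/

set_option autoImplicit false

noncomputable section

namespace Pool.Agent.Lib.MP_03e5d0_nt

open Complex Finset MeasureTheory
open scoped NumberTheorySymbols Real ContDiff

variable {D : Data} {x : ℕ → ℝ} {a : ℕ × ℕ → ℝ} {p : ℕ}

theorem Mul2.yP (ha : Mul2 a) (D : Data) (x : ℕ → ℝ) : Mul2 (yP D x a) :=
  ((((ha.uu (lmi_mult D x)).uu (lmi_mult D x)).uu (kA_mult _)).uu (kA_mult _)).uu (kA_mult _)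

theorem LB.yP (hp : p.Prime) (ha : LB p a 4 2) (D : Data) (hx : Adm x) :
    LB p (yP D x a) (12 * (12 * (12 * (12 * (12 * 4))))) 12 :=
  ((((ha.uu hp (α := 1) (β := 0) (by norm_num) (lmi_lb D hx hp)).uu hp (α := 0) (β := 1)
    (by norm_num) (lmi_lb D hx hp)).uu hp (α := 2) (β := 0) (by norm_num)
    (kA_lb hp (f1_le D hp))).uu hp (α := 0) (β := 2) (by norm_num)
    (kA_lb hp (f1_le D hp))).uu hp (α := 1) (β := 1) (by norm_num) (kA_lb hp (f0_le D hp))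

theorem lv_low (hp : p.Prime) {α β : ℕ} (hαβ : α + β ≠ 0) {F : ArithmeticFunction ℝ} (hF : F 1 = 1)
    {i j : ℕ} (h : i + j ≤ 2) : lv (UU α β F a) p i j = lv a p i j +
      (if α ≤ i ∧ β ≤ j then F p * lv a p (i - α) (j - β) else 0) +
      if 2 * α ≤ i ∧ 2 * β ≤ j then F (p ^ 2) * lv a p (i - 2 * α) (j - 2 * β) else 0 := by
  rw [lv_UU hp, sum_subset (range_subset_range.2 (by omega : i + j + 1 ≤ 3))]
  · simp [sum_range_succ, hF]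
  · intro e _ he
    have h1 : i + j + 1 ≤ e := not_lt.1 (mt mem_range.2 he)
    have h2 : e * 1 ≤ e * (α + β) := Nat.mul_le_mul_left _ (Nat.pos_of_ne_zero hαβ)
    rw [if_neg (by rw [mul_add] at h2; omega)]

theorem yP_low (hp : p.Prime) (ha : Mul2 a) (D : Data) (x : ℕ → ℝ) :
    lv (yP D x a) p 1 0 = lv a p 1 0 + tws x (lmi D) p ∧
    lv (yP D x a) p 0 1 = lv a p 0 1 + tws x (lmi D) p ∧
    lv (yP D x a) p 2 0 = lv a p 2 0 + tws x (lmi D) p * lv a p 1 0 + tws x (lmi D) (p ^ 2) +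
      kA (f1 D) p ∧
    lv (yP D x a) p 0 2 = lv a p 0 2 + tws x (lmi D) p * lv a p 0 1 + tws x (lmi D) (p ^ 2) +
      kA (f1 D) p ∧
    lv (yP D x a) p 1 1 = lv a p 1 1 + tws x (lmi D) p * (lv a p 1 0 + lv a p 0 1) +
      tws x (lmi D) p ^ 2 + kA (f0 D) p := by
  have h0 : lv a p 0 0 = 1 := by simpa [lv] using ha.one
  have h1 := (lmi_mult D x).1
  have h2 := (kA_mult (f0 D)).1
  have h3 := (kA_mult (f1 D)).1
  refine ⟨?_, ?_, ?_, ?_, ?_⟩ <;> simp [yP, lv_low hp, h0, h1, h2, h3] <;> ring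

theorem yP_vanish (D : Data) {k₁ : ℤ} (hk : Squarefree k₁) {k₂ ℓ : ℕ} (hp : p.Prime)
    (h : ¬p ∣ k₂ * ℓ) {i j : ℕ} (h0 : i + j ≠ 0) (h2 : i + j ≤ 2) :
    lv (yP D (jac k₁) (aP D (k₁ * (k₂ : ℤ) ^ 2) (k₂ * ℓ))) p i j = 0 := by
  obtain ⟨e1, e2, e3, e4, e5⟩ := yP_low hp (aP_mul2 D (k₁ * (k₂ : ℤ) ^ 2) (k₂ * ℓ)) D (jac k₁)
  have a1 := aP_deg1 D k₁ hp h (i := 1) (j := 0) rfl
  have a2 := aP_deg1 D k₁ hp h (i := 0) (j := 1) rfl
  have a3 := aP_deg2 D hk hp h (i := 2) (j := 0) rfl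
  have a4 := aP_deg2 D hk hp h (i := 0) (j := 2) rfl
  have a5 := aP_deg2 D hk hp h (i := 1) (j := 1) rfl
  have b : D.lam (p ^ 2) * jac k₁ p ^ 2 * (√p)⁻¹ ^ 2 + tws (jac k₁) (lmi D) (p ^ 2) =
      (D.lam p * jac k₁ p * (√p)⁻¹) ^ 2 := by
    rw [lmi_p2 D _ hp]
    split_ifs with hq
    · rw [D.lam_zero p fun c => hp.ne_one (c.eq_one_of_dvd hq),
        D.lam_zero (p ^ 2) fun c => hp.ne_one
          ((c.coprime_dvd_left (dvd_pow_self p two_ne_zero)).eq_one_of_dvd hq)]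
      ring
    · rw [D.lam_sq hp hq]
      ring
  rw [lmi_p1 D _ hp] at e1 e2 e3 e4 e5
  rw [kA_p1 _ hp] at e3 e4 e5
  simp only [pow_zero, pow_one, D.lam_one] at a3 a4 a5
  have hc : (i = 1 ∧ j = 0) ∨ (i = 0 ∧ j = 1) ∨ (i = 2 ∧ j = 0) ∨ (i = 0 ∧ j = 2) ∨
      (i = 1 ∧ j = 1) := by omega
  rcases hc with ⟨rfl, rfl⟩ | ⟨rfl, rfl⟩ | ⟨rfl, rfl⟩ | ⟨rfl, rfl⟩ | ⟨rfl, rfl⟩
  · rw [e1, a1]
    ring
  · rw [e2, a2]
    ring
  · rw [e3, a3, a1, f1]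
    linear_combination b
  · rw [e4, a4, a2, f1]
    linear_combination b
  · rw [e5, a5, a1, a2, f0]
    ring

theorem uQ_nonneg (Q p : ℕ) : 0 ≤ uQ Q p := by
  unfold uQ
  split_ifs <;> positivity

theorem wQ_nonneg (Q p s : ℕ) : 0 ≤ wQ Q p s := by
  unfold wQ
  split_ifs
  exacts [zero_le_one, uQ_nonneg Q p, le_rfl]

theorem wP_nonneg (Q : ℕ) (r : ℕ × ℕ) : 0 ≤ wP Q r := by
  unfold wP
  split_ifs
  exacts [le_rfl, mkW_nonneg (wQ_nonneg Q) _]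

theorem yP_le (D : Data) {k₁ : ℤ} (hk : Squarefree k₁) (k₂ ℓ : ℕ) (r : ℕ × ℕ) :
    |yP D (jac k₁) (aP D (k₁ * (k₂ : ℤ) ^ 2) (k₂ * ℓ)) r| ≤ wP (k₂ * ℓ) r := by
  have hm := (aP_mul2 D (k₁ * (k₂ : ℤ) ^ 2) (k₂ * ℓ)).yP D (jac k₁)
  unfold wP
  split_ifs with h0
  · rw [hm.zero r (mul_eq_zero.1 h0), abs_zero]
  refine hm.abs_le (wQ_nonneg _) (fun p => by simp [wQ]) (fun p hp i j => ?_) _ r rfl
  have hb := (aP_lb D hk k₂ ℓ hp).yP hp D (adm_jac k₁)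
  have t0 : 0 ≤ (√(p : ℝ))⁻¹ := by positivity
  have t1 : (√(p : ℝ))⁻¹ ≤ 1 :=
    inv_le_one_of_one_le₀ (Real.one_le_sqrt.2 (by exact_mod_cast hp.pos))
  unfold wQ
  split_ifs with h1 h2
  · obtain ⟨rfl, rfl⟩ : i = 0 ∧ j = 0 := by omega
    simp [lv, hm.one]
  · unfold uQ
    split_ifs with h3
    · exact (hb.bd i j).trans ((mul_le_mul (by norm_num) (pow_le_one₀ t0 t1) (pow_nonneg t0 _)
        (by norm_num)).trans_eq (mul_one _))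
    · by_cases h4 : i + j ≤ 2
      · rw [yP_vanish D hk hp h3 h1 h4, abs_zero]
        positivity
      · exact (hb.bd i j).trans (mul_le_mul (by norm_num) (pow_le_pow_of_le_one t0 t1 (by omega))
          (pow_nonneg t0 _) (by norm_num))
  · rw [hb.deg i j (by omega), abs_zero]

end Pool.Agent.Lib.MP_03e5d0_nt
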