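import Pool.Agent.Lib.MP_03e5d0_nt.LPo
import Pool.Agent.Lib.MP_03e5d0_nt.LFc
import Pool.Agent.Lib.MP_03e5d0_nt.LFe
import Pool.Agent.Lib.MP_03e5d0_nt.LFf

/-! The factorisation of the dual sums. -/

set_option autoImplicit false

noncomputable section

namespace Pool.Agent.Lib.MP_03e5d0_nt

open Complex Finset MeasureTheory
open scoped NumberTheorySymbols Real ContDiff

section

variable {D : Data} {x : ℕ → ℝ} {a : ℕ × ℕ → ℝ} {Ω : ℕ × ℕ → ℂ} {S : Finset (ℕ × ℕ)}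

theorem Z2.cv (ha : Z2 a) (S : Finset (ℕ × ℕ)) (b : ℕ × ℕ → ℝ) : Z2 (cv S b a) := by
  intro n hn
  refine sum_eq_zero fun s _ => ?_
  rw [ha _ (hn.imp (fun h => by simp [h]) fun h => by simp [h]), mul_zero, ite_self]

theorem abs_cv_le {b b' a' : ℕ × ℕ → ℝ} (hb : ∀ s ∈ S, |b s| ≤ b' s) (ha : ∀ n, |a n| ≤ a' n)
    (n : ℕ × ℕ) : |cv S b a n| ≤ cv S b' a' n := by
  refine (abs_sum_le_sum_abs _ _).trans (sum_le_sum fun s hs => ?_)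
  split_ifs
  · rw [abs_mul]
    exact mul_le_mul (hb s hs) (ha _) (abs_nonneg _) ((abs_nonneg _).trans (hb s hs))
  · simp

theorem pr2_cv (hS : ∀ s ∈ S, s.1 ≠ 0 ∧ s.2 ≠ 0) (b a : ℕ × ℕ → ℝ) (h : Fs Ω) :
    pr2 (cv S b a) Ω = ∑ s ∈ S, (b s : ℂ) * pr2 a fun m => Ω (m.1 * s.1, m.2 * s.2) := by
  simp only [pr2, cv, ofReal_sum, sum_mul]
  rw [Summable.tsum_finsetSum fun s _ => h.summable _]
  refine sum_congr rfl fun s hs => ?_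
  rw [← tsum_mul_left, ← tsum_dvd (hS s hs).1 (hS s hs).2
    fun m n => (b s : ℂ) * ((a m : ℂ) * Ω n)]
  refine tsum_congr fun n => ?_
  split_ifs
  · push_cast
    ring
  · simp

/-- The test function attached to the bilinear form. -/
def PP (D : Data) (x : ℕ → ℝ) (Ω : ℕ × ℕ → ℂ) : ℕ × ℕ → ℂ :=
  TT2 1 1 (hA (f0 D)) (TT2 0 2 (hA (f1 D)) (TT2 2 0 (hA (f1 D))
    (TT2 0 1 (tws x D.lam) (TT2 1 0 (tws x D.lam) Ω))))

theorem Fs.pp (h : Fs Ω) (D : Data) (x : ℕ → ℝ) : Fs (PP D x Ω) :=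
  ((((h.tt _ _ _).tt _ _ _).tt _ _ _).tt _ _ _).tt _ _ _

theorem pr2_yP (ha : Z2 a) (h : Fs Ω) (D : Data) (x : ℕ → ℝ) :
    pr2 a Ω = pr2 (yP D x a) (PP D x Ω) := by
  rw [pr2_inv (α := 1) (β := 0) (by norm_num) (lmi_inv D x) ha h,
    pr2_inv (α := 0) (β := 1) (by norm_num) (lmi_inv D x) (Z2.uu _ _ _ _) (h.tt _ _ _),
    pr2_inv (α := 2) (β := 0) (by norm_num) (kA_inv (f1 D)) (Z2.uu _ _ _ _)
      ((h.tt _ _ _).tt _ _ _),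
    pr2_inv (α := 0) (β := 2) (by norm_num) (kA_inv (f1 D)) (Z2.uu _ _ _ _)
      (((h.tt _ _ _).tt _ _ _).tt _ _ _),
    pr2_inv (α := 1) (β := 1) (by norm_num) (kA_inv (f0 D)) (Z2.uu _ _ _ _)
      ((((h.tt _ _ _).tt _ _ _).tt _ _ _).tt _ _ _)]
  rfl

theorem TT2_shift (α β : ℕ) (F : ArithmeticFunction ℝ) (Ω : ℕ × ℕ → ℂ) (s : ℕ × ℕ) :
    (TT2 α β F fun m => Ω (m.1 * s.1, m.2 * s.2)) =
      fun m => TT2 α β F Ω (m.1 * s.1, m.2 * s.2) := by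
  funext m
  simp only [TT2, mul_right_comm]

theorem PP_shift (D : Data) (x : ℕ → ℝ) (Ω : ℕ × ℕ → ℂ) (s : ℕ × ℕ) :
    (PP D x fun m => Ω (m.1 * s.1, m.2 * s.2)) = fun m => PP D x Ω (m.1 * s.1, m.2 * s.2) := by
  simp only [PP, TT2_shift]

/-- The action in one variable. -/
def TT1 (γ : ℕ) (F : ArithmeticFunction ℝ) (φ : ℕ → ℂ) (n : ℕ) : ℂ :=
  ∑' d : ℕ, (F d : ℂ) * φ (n * d ^ γ)

theorem TT2_left (γ : ℕ) (F : ArithmeticFunction ℝ) (φ ψ : ℕ → ℂ) :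
    (TT2 γ 0 F fun n => φ n.1 * ψ n.2) = fun n => TT1 γ F φ n.1 * ψ n.2 := by
  funext n
  simp only [TT2, TT1, pow_zero, mul_one, ← mul_assoc, tsum_mul_right]

theorem TT2_right (γ : ℕ) (F : ArithmeticFunction ℝ) (φ ψ : ℕ → ℂ) :
    (TT2 0 γ F fun n => φ n.1 * ψ n.2) = fun n => φ n.1 * TT1 γ F ψ n.2 := by
  funext n
  simp only [TT2, TT1, pow_zero, mul_one, mul_left_comm _ (φ n.1), tsum_mul_left]

theorem TT1_eq (D : Data) (x : ℕ → ℝ) (V : ℝ → ℂ) {n : ℕ} (hn : n ≠ 0) :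
    TT1 2 (hA (f1 D)) (TT1 1 (tws x D.lam) fun m => V (Real.log m)) n =
      sh D x fun y => V (y + Real.log n) := by
  refine tsum_congr fun b => ?_
  rcases eq_or_ne b 0 with rfl | hb
  · simp
  congr 1
  refine tsum_congr fun d => ?_
  rcases eq_or_ne d 0 with rfl | hd
  · simp
  congr 2
  push_cast
  rw [Real.log_mul (by positivity) (by positivity), Real.log_mul (by positivity) (by positivity),
    Real.log_pow, Real.log_pow]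
  push_cast
  ring_nf

theorem PP_eq (D : Data) (x : ℕ → ℝ) (V₁ V₂ : ℝ → ℂ) {r : ℕ × ℕ} (h1 : r.1 ≠ 0) (h2 : r.2 ≠ 0) :
    PP D x (fun n => V₁ (Real.log n.1) * V₂ (Real.log n.2)) r =
      qf D x (fun z => V₁ (z + Real.log r.1)) fun z => V₂ (z + Real.log r.2) := by
  rw [PP, TT2_left 1 _ (fun m => V₁ (Real.log m)) fun m => V₂ (Real.log m),
    TT2_right 1 _ _ fun m => V₂ (Real.log m), TT2_left, TT2_right]
  refine tsum_congr fun g => ?_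
  rcases eq_or_ne g 0 with rfl | hg
  · simp
  have e : ∀ m : ℕ, m ≠ 0 → ∀ y : ℝ, y + Real.log (m * g ^ 1 : ℕ) = y + Real.log g + Real.log m :=
    fun m hm y => by
      rw [pow_one, Nat.cast_mul, Real.log_mul (by positivity) (by positivity)]
      ring
  simp only
  rw [TT1_eq D x V₁ (by positivity), TT1_eq D x V₂ (by positivity)]
  simp only [e _ h1, e _ h2]
  rfl

end

/-- The factorisation of the dual sums, with a majorant that does not depend on `k₁`. -/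
theorem tk_fact : ∃ C : ℝ, 0 ≤ C ∧ ∀ (D : Data) (ℓ k₂ : ℕ), ℓ ≠ 0 → ℓ.Coprime D.q → k₂ ≠ 0 →
    ∃ w : ℕ × ℕ → ℝ, (∀ r, 0 ≤ w r) ∧ Summable w ∧ ∑' r, w r ≤ C * ℓ * √k₂ ∧
      ∀ k₁ : ℤ, Squarefree k₁ → ∃ y : ℕ × ℕ → ℝ, (∀ r, |y r| ≤ w r) ∧
        (∀ r, r.1 = 0 ∨ r.2 = 0 → y r = 0) ∧
        ∀ (V₁ V₂ : ℝ → ℂ) (L : ℝ), (∀ z, L < z → V₁ z = 0) → (∀ z, L < z → V₂ z = 0) →
          tk D (k₁ * (k₂ : ℤ) ^ 2) ℓ (fun y₁ y₂ => V₁ y₁ * V₂ y₂) =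
            ∑' r : ℕ × ℕ, (y r : ℂ) * qf D (jac k₁) (fun z => V₁ (z + Real.log r.1))
              fun z => V₂ (z + Real.log r.2) := by
  obtain ⟨C, hC, hm⟩ := cv_mass
  refine ⟨2 * C, by positivity, fun D ℓ k₂ hℓ hq h₂ => ?_⟩
  obtain ⟨s1, s2⟩ := hm (k₂ * ℓ) (mul_ne_zero h₂ hℓ) (2 * √ℓ) (by positivity)
  have hy : ∀ k₁ : ℤ, Squarefree k₁ → ∀ r, |cv (sQ (k₂ * ℓ)) (aF D (k₁ * (k₂ : ℤ) ^ 2) ℓ)
      (yP D (jac k₁) (aP D (k₁ * (k₂ : ℤ) ^ 2) (k₂ * ℓ))) r| ≤ _ := fun k₁ hk =>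
    abs_cv_le (fun s hs => aF_le D _ ℓ hs) (yP_le D hk k₂ ℓ)
  refine ⟨_, fun r => (abs_nonneg _).trans (hy 1 squarefree_one r), s1, s2.trans_eq ?_,
    fun k₁ hk => ⟨_, hy k₁ hk, Z2.cv (Z2.uu _ _ _ _) _ _, fun V₁ V₂ L hV₁ hV₂ => ?_⟩⟩
  · rw [Nat.cast_mul, Real.sqrt_mul (Nat.cast_nonneg _)]
    linear_combination 2 * C * √k₂ * Real.mul_self_sqrt (Nat.cast_nonneg ℓ : (0 : ℝ) ≤ ℓ)
  have hF : Fs fun n => V₁ (Real.log n.1) * V₂ (Real.log n.2) := by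
    have e : ∀ m : ℕ, ⌊Real.exp L⌋₊ + 1 ≤ m → L < Real.log m := fun m hm => by
      have h1 : Real.exp L < m := (Nat.lt_floor_add_one _).trans_le (by exact_mod_cast hm)
      exact (Real.lt_log_iff_exp_lt ((Real.exp_pos L).trans h1)).2 h1
    refine ⟨⌊Real.exp L⌋₊ + 1, fun n hn => ?_⟩
    rcases hn with hn | hn
    · simp only [hV₁ _ (e _ hn), zero_mul]
    · simp only [hV₂ _ (e _ hn), mul_zero]
  have hS : ∀ s ∈ sQ (k₂ * ℓ), s.1 ≠ 0 ∧ s.2 ≠ 0 := fun s hs =>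
    ⟨(Nat.pos_of_mem_divisors (mem_product.1 hs).1).ne',
      (Nat.pos_of_mem_divisors (mem_product.1 hs).2).ne'⟩
  calc _ = pr2 (aF D (k₁ * (k₂ : ℤ) ^ 2) ℓ) fun n => V₁ (Real.log n.1) * V₂ (Real.log n.2) := rfl
    _ = pr2 (cv (sQ (k₂ * ℓ)) (aF D (k₁ * (k₂ : ℤ) ^ 2) ℓ)
        (yP D (jac k₁) (aP D (k₁ * (k₂ : ℤ) ^ 2) (k₂ * ℓ))))
        (PP D (jac k₁) fun n => V₁ (Real.log n.1) * V₂ (Real.log n.2)) := by
      rw [pr2_cv hS _ _ (hF.pp D _)]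
      conv_lhs => rw [aF_split D hk h₂ hℓ hq, pr2_cv hS _ _ hF]
      refine sum_congr rfl fun s hs => ?_
      rw [pr2_yP (aP_mul2 D _ _).zero (hF.comp (hS s hs).1 (hS s hs).2) D (jac k₁), ← PP_shift]
    _ = _ := pr2_congr (Z2.cv (Z2.uu _ _ _ _) _ _) fun r h1 h2 => PP_eq D _ V₁ V₂ h1 h2

end Pool.Agent.Lib.MP_03e5d0_nt
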