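import Pool.Agent.Lib.MP_03e5d0_nt.KDef
import Pool.Agent.Lib.MP_03e5d0_nt.LIf

set_option autoImplicit false

noncomputable section

namespace Pool.Agent.Lib.MP_03e5d0_nt

open Complex Finset MeasureTheory
open scoped NumberTheorySymbols Real ContDiff

/-! The coupling weight. -/

theorem kphi_gauss {c : ℝ} (hc : 0 < c) (e : ℕ) {ξ : ℝ} (hξ : 0 ≤ ξ) :
    Real.exp (-(c * ξ ^ 2)) ≤ Real.exp (e ^ 2 / (4 * c)) / (1 + ξ) ^ e := by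
  rw [le_div_iff₀ (by positivity)]
  have h1 : (1 + ξ) ^ e ≤ Real.exp (e * ξ) := by
    rw [Real.exp_nat_mul]
    exact pow_le_pow_left₀ (by positivity) (by linarith [Real.add_one_le_exp ξ]) e
  refine (mul_le_mul_of_nonneg_left h1 (Real.exp_pos _).le).trans ?_
  rw [← Real.exp_add]
  refine Real.exp_le_exp.mpr ?_
  rw [le_div_iff₀ (by positivity)]
  nlinarith [sq_nonneg (2 * c * ξ - e)]

theorem kphi_re {z : ℂ} (h1 : z.re < 7 / 2) (h2 : |z.im| < 1 / 4) :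
    Real.exp (-7) / 2 ≤ (cexp (-(2 * z))).re := by
  rw [Complex.exp_re]
  have e1 : (-(2 * z)).re = -(2 * z.re) := by simp
  have e2 : (-(2 * z)).im = -(2 * z.im) := by simp
  rw [e1, e2]
  have h3 := Real.one_sub_sq_div_two_le_cos (x := -(2 * z.im))
  have h4 := abs_lt.mp h2
  have h5 : 1 / 2 ≤ Real.cos (-(2 * z.im)) := by nlinarith
  have h6 : Real.exp (-7) ≤ Real.exp (-(2 * z.re)) := Real.exp_le_exp.mpr (by linarith)
  rw [div_eq_mul_one_div]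
  exact mul_le_mul h6 h5 (by norm_num) (Real.exp_pos _).le

/-- `Sm.mul_holo` with `δ = 1/4`: `re (exp (-2 z)) ≥ exp (-7) / 2` on the rectangle, and
`exp (-c ξ²) ≤ C / (1+ξ)^e`. -/
theorem sm_Phk (j e : ℕ) : ∃ C : ℝ, 0 ≤ C ∧ ∀ ξ : ℝ, 0 ≤ ξ → Sm j (-3) 3 (C / (1 + ξ) ^ e) (Phk ξ) := by
  obtain ⟨B, hB⟩ := sm_bump j 2
  obtain ⟨C, hC, H⟩ := Sm.mul_holo j
  have hB0 := hB.nonneg
  have hc : 0 < π * (Real.exp (-7) / 2) := by positivity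
  refine ⟨C * B * (Real.exp 2 * Real.exp (e ^ 2 / (4 * (π * (Real.exp (-7) / 2))))) / (1 / 4) ^ j,
    by positivity, fun ξ hξ => ?_⟩
  have h := H _ _ B (Real.exp 2 * (Real.exp (e ^ 2 / (4 * (π * (Real.exp (-7) / 2)))) / (1 + ξ) ^ e))
    (1 / 4) _ (fun z => cexp (-(z / 2) - π * ξ ^ 2 * cexp (-(2 * z)))) hB (by norm_num)
    (by norm_num) (by positivity) (Differentiable.differentiableOn (by fun_prop))
    (fun z h1 h2 h3 => by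
      refine le_trans ?_ (mul_le_mul_of_nonneg_left (kphi_gauss hc e hξ) (Real.exp_pos _).le)
      rw [Complex.norm_exp, ← Real.exp_add]
      refine Real.exp_le_exp.mpr ?_
      have e1 : (-(z / 2) - π * ξ ^ 2 * cexp (-(2 * z))).re =
          -(z.re / 2) - π * ξ ^ 2 * (cexp (-(2 * z))).re := by
        rw [show (π : ℂ) * ξ ^ 2 = ((π * ξ ^ 2 : ℝ) : ℂ) by push_cast; ring, Complex.sub_re,
          Complex.re_ofReal_mul]
        simp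
      rw [e1]
      have h4 := mul_le_mul_of_nonneg_left (kphi_re (z := z) (by linarith) h3)
        (show 0 ≤ π * ξ ^ 2 by positivity)
      linarith)
  have e2 : Phk ξ = fun y : ℝ => (bump 2 y : ℂ) *
      cexp (-((y : ℂ) / 2) - π * ξ ^ 2 * cexp (-(2 * (y : ℂ)))) := by
    funext y
    rw [Phk]
    push_cast
    rfl
  rw [e2]
  refine h.mono le_rfl (by norm_num) (by norm_num) (le_of_eq ?_)
  ring

theorem kphi_gk {X : ℝ} (hX : 0 < X) {ℓ : ℕ} (hℓ : ℓ ≠ 0) (k : ℤ) (L s : ℝ) (h : |s - L| ≤ 2) :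
    (gk X ℓ k s : ℂ) = ((X / √(Real.exp L * ℓ) : ℝ) : ℂ) *
      Phk (|(k : ℝ)| / (Real.exp L * ℓ / X)) (s - L) := by
  have hl : (0 : ℝ) < ℓ := by exact_mod_cast Nat.pos_of_ne_zero hℓ
  rw [Phk, bump_eq_one h, ofReal_one, one_mul, ← ofReal_mul, gk]
  congr 1
  have e1 : √(Real.exp L * ℓ) = Real.exp (L / 2) * √ℓ := by
    rw [Real.sqrt_mul (Real.exp_pos _).le, Real.exp_half]
  have e2 : π * (|(k : ℝ)| / (Real.exp L * ℓ / X)) ^ 2 * Real.exp (-(2 * (s - L))) =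
      π * (k * X / (ℓ * Real.exp s)) ^ 2 := by
    have e3 : Real.exp (-(2 * (s - L))) = (Real.exp L / Real.exp s) ^ 2 := by
      rw [← Real.exp_sub, ← Real.exp_nat_mul]
      congr 1
      push_cast
      ring
    rw [e3, div_pow, sq_abs]
    field_simp
  have e4 : Real.exp (-(s / 2)) = Real.exp (-((s - L) / 2)) / Real.exp (L / 2) := by
    rw [← Real.exp_sub]
    congr 1
    ring
  rw [e1, e2, e4, Real.exp_sub, Real.exp_neg (π * _)]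
  field_simp

theorem kphi_const (D : Data) (k : ℤ) (ℓ : ℕ) (c : ℂ) (Ω : ℝ → ℝ → ℂ) :
    (tk D k ℓ fun y₁ y₂ => c * Ω y₁ y₂) = c * tk D k ℓ Ω := by
  unfold tk
  rw [← tsum_mul_left]
  exact tsum_congr fun n => by ring

/-- With `R = exp (L₁+L₂) ℓ`, `v = y₁ + y₂ - (L₁ + L₂) ∈ [-2, 2]` when `W₁ W₂ ≠ 0`:
`gk X ℓ k (y₁+y₂) = X/√R * Phk ξ v`, `ξ = |k| / (R/X)`; pull the constant out (`tsum_mul_left`), then
`tk_integral`. -/
theorem tk_gk (D : Data) {X : ℝ} (hX : 0 < X) {ℓ : ℕ} (hℓ : ℓ ≠ 0) {W₁ W₂ : ℝ → ℂ}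
    (h₁ : ∀ y, y < -1 ∨ 1 < y → W₁ y = 0) (h₂ : ∀ y, y < -1 ∨ 1 < y → W₂ y = 0) (L₁ L₂ : ℝ) (k : ℤ) :
    (tk D k ℓ fun y₁ y₂ => W₁ (y₁ - L₁) * W₂ (y₂ - L₂) * (gk X ℓ k (y₁ + y₂) : ℂ)) =
      ((X / √(Real.exp (L₁ + L₂) * ℓ) : ℝ) : ℂ) *
        ∫ τ, ft (Phk (|(k : ℝ)| / (Real.exp (L₁ + L₂) * ℓ / X))) τ *
          tk D k ℓ fun y₁ y₂ => W₁ (y₁ - L₁) * ex τ (y₁ - L₁) * (W₂ (y₂ - L₂) * ex τ (y₂ - L₂)) := by
  obtain ⟨C, -, hC⟩ := sm_Phk 0 0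
  have hl : (0 : ℝ) < ℓ := by exact_mod_cast Nat.pos_of_ne_zero hℓ
  rw [← tk_integral D k ℓ (V₁ := fun y => W₁ (y - L₁)) (V₂ := fun y => W₂ (y - L₂))
    (L := max L₁ L₂ + 1) (fun y hy => h₁ _ (Or.inr (by linarith [le_max_left L₁ L₂])))
    (fun y hy => h₂ _ (Or.inr (by linarith [le_max_right L₁ L₂]))) (hC _ (by positivity)) L₁ L₂,
    ← kphi_const]
  congr 1
  funext y₁ y₂
  by_cases a₁ : y₁ - L₁ < -1 ∨ 1 < y₁ - L₁
  · simp only [h₁ _ a₁, zero_mul, mul_zero]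
  by_cases a₂ : y₂ - L₂ < -1 ∨ 1 < y₂ - L₂
  · simp only [h₂ _ a₂, zero_mul, mul_zero]
  push Not at a₁ a₂
  rw [kphi_gk hX hℓ k (L₁ + L₂) (y₁ + y₂) (abs_le.mpr ⟨by linarith, by linarith⟩)]
  ring

/-- Continuous and bounded in `τ` (`tk_eq_sum`). -/
theorem tk_ex_cont (D : Data) (k : ℤ) (ℓ : ℕ) {W₁ W₂ : ℝ → ℂ}
    (h₁ : ∀ y, y < -1 ∨ 1 < y → W₁ y = 0) (h₂ : ∀ y, y < -1 ∨ 1 < y → W₂ y = 0) (L₁ L₂ : ℝ) :
    (Continuous fun τ => tk D k ℓ fun y₁ y₂ =>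
      W₁ (y₁ - L₁) * ex τ (y₁ - L₁) * (W₂ (y₂ - L₂) * ex τ (y₂ - L₂))) ∧
    ∃ K : ℝ, ∀ τ, ‖tk D k ℓ fun y₁ y₂ =>
      W₁ (y₁ - L₁) * ex τ (y₁ - L₁) * (W₂ (y₂ - L₂) * ex τ (y₂ - L₂))‖ ≤ K := by
  have hN : Real.exp (max L₁ L₂ + 1) < (⌊Real.exp (max L₁ L₂ + 1)⌋₊ + 1 : ℕ) := by
    push_cast; exact Nat.lt_floor_add_one _
  generalize ⌊Real.exp (max L₁ L₂ + 1)⌋₊ + 1 = N at hN
  have e : ∀ τ, (tk D k ℓ fun y₁ y₂ =>
      W₁ (y₁ - L₁) * ex τ (y₁ - L₁) * (W₂ (y₂ - L₂) * ex τ (y₂ - L₂))) = _ := fun τ =>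
    tk_eq_sum D k ℓ (L := max L₁ L₂ + 1) (fun y₁ y₂ hy => by
      rcases hy with hy | hy
      · rw [h₁ _ (Or.inr (by linarith [le_max_left L₁ L₂])), zero_mul, zero_mul]
      · rw [h₂ _ (Or.inr (by linarith [le_max_right L₁ L₂])), zero_mul, mul_zero]) hN
  have hex : ∀ y : ℝ, Continuous fun τ => ex τ y := fun y =>
    continuous_ex.comp (continuous_id.prodMk continuous_const)
  simp only [e]
  refine ⟨continuous_finsetSum _ fun n₁ _ => continuous_finsetSum _ fun n₂ _ =>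
    continuous_const.mul ((continuous_const.mul (hex _)).mul (continuous_const.mul (hex _))),
    ∑ n₁ ∈ range N, ∑ n₂ ∈ range N,
      ‖((D.lam n₁ / √n₁ * (D.lam n₂ / √n₂) * gn k (n₁ * n₂ * ℓ) : ℝ) : ℂ)‖ *
        (‖W₁ (Real.log n₁ - L₁)‖ * ‖W₂ (Real.log n₂ - L₂)‖), fun τ => ?_⟩
  refine norm_sum_le_of_le _ fun n₁ _ => norm_sum_le_of_le _ fun n₂ _ => le_of_eq ?_
  simp only [norm_mul, norm_ex, mul_one]

end Pool.Agent.Lib.MP_03e5d0_nt
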