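import Pool.Agent.Lib.MP_03e5d0_nt.KDef

set_option autoImplicit false

noncomputable section

namespace Pool.Agent.Lib.MP_03e5d0_nt

open Complex Finset MeasureTheory
open scoped NumberTheorySymbols Real ContDiff

/-! The sharp family. -/

theorem ksh_zero (D : Data) (x : ℕ → ℝ) {V : ℝ → ℂ} (hV : ∀ y, 0 ≤ y → V y = 0) : sm D x V = 0 := by
  rw [sm_congr (V' := fun _ => 0) hV]
  simp [sm]

theorem ksh_ft (W : ℝ → ℂ) (w t : ℝ) : ft (fun y => W (y + w)) t = ft W t * ex t w := by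
  unfold ft
  rw [mul_assoc, ← integral_mul_const, ← integral_add_right_eq_self (fun y => W y * ex (-t) y * ex t w) w]
  congr 2
  funext y
  rw [ex_add, mul_assoc, mul_assoc, ← ex_add', neg_add_cancel]
  simp [ex]

theorem ksh_shift (D : Data) (x : ℕ → ℝ) {j : ℕ} {a b B ρ w : ℝ} {W : ℝ → ℂ} (h : Sm j a b B W)
    (ha : -ρ ≤ a - w) (hb : b - w ≤ ρ) (L : ℝ) :
    sm D x (fun y => W (y - L + w)) = ∫ t, ft W t * ex t w * tw D x ρ L t := by
  rw [sm_eq_integral (h.shift w) ha hb L]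
  simp only [ksh_ft]

theorem ksh_int (D : Data) (x : ℕ → ℝ) {j : ℕ} {a b B : ℝ} {W : ℝ → ℂ} (h : Sm j a b B W)
    (ρ w L : ℝ) : Integrable fun t => ft W t * ex t w * tw D x ρ L t := by
  have h2 : ∀ y, Integrable fun t => ft W t * ex t y := by
    intro y
    refine (integrable_norm_iff (h.ft_cont.mul (continuous_ex.comp
      (continuous_id.prodMk continuous_const))).aestronglyMeasurable).mp ?_
    simpa [norm_ex] using h.ft_integrable 0
  have h3 : ∀ (c d : ℂ) (y t : ℝ), ft W t * ex t w * (c * (d * ex t y)) =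
      c * d * (ft W t * ex t (w + y)) := fun c d y t => by rw [ex_add]; ring
  simp only [tbas_tw, mul_sum, h3]
  exact integrable_finsetSum _ fun n _ => (h2 _).const_mul _

theorem ksh_floor (y : ℝ) : y < ((⌊y⌋₊ + 1 : ℕ) : ℝ) := by
  push_cast
  exact Nat.lt_floor_add_one _

theorem ksh_log {y : ℝ} {N a : ℕ} (hN : Real.exp y < N) (ha : a ∉ range N) : y < Real.log a := by
  have h1 : (N : ℝ) ≤ a := by exact_mod_cast not_lt.mp (mem_range.not.mp ha)
  have h2 : Real.exp y < a := hN.trans_le h1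
  exact (Real.lt_log_iff_exp_lt ((Real.exp_pos _).trans h2)).mpr h2

theorem ksh_sum (n : ℕ) : ∑ i ∈ range n, (1 : ℝ) / (1 + (i : ℝ)) ^ 2 ≤ 2 - 2 / ((n : ℝ) + 1) := by
  induction n with
  | zero => simp
  | succ n ih =>
    rw [sum_range_succ]
    push_cast
    have : 1 / (1 + (n : ℝ)) ^ 2 ≤ 2 / (n + 1) - 2 / (n + 1 + 1) := by
      rw [div_sub_div _ _ (by positivity) (by positivity), div_le_div_iff₀ (by positivity) (by positivity)]
      have : (0 : ℝ) ≤ n := n.cast_nonneg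
      nlinarith [mul_nonneg this this]
    linarith

theorem sh_eq_zero (D : Data) (x : ℕ → ℝ) {V : ℝ → ℂ} (hV : ∀ y, 0 ≤ y → V y = 0) : sh D x V = 0 := by
  have : ∀ a : ℕ, (sm D x fun y => V (y + 2 * Real.log a)) = 0 := fun a =>
    ksh_zero D x fun y hy => hV _ (by linarith [Real.log_natCast_nonneg a])
  simp [sh, this]

theorem sh_eq_sum (D : Data) (x : ℕ → ℝ) {V : ℝ → ℂ} {L : ℝ} (hV : ∀ y, L < y → V y = 0) {N : ℕ}
    (hN : Real.exp (L / 2) < N) :
    sh D x V = ∑ a ∈ range N, ((h1 D a / a : ℝ) : ℂ) * sm D x fun y => V (y + 2 * Real.log a) := by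
  refine tsum_eq_sum fun a ha => ?_
  rw [ksh_zero D x fun y hy => hV _ (by linarith [ksh_log hN ha]), mul_zero]

/-- Splitting a sum into windows (`sum_psi`, `psi_eq_zero`). -/
theorem tsum_eq_windows {c F : ℕ → ℂ} (hc : c 0 = 0) {Λ : ℝ} (hF : ∀ a : ℕ, a ≠ 0 → Λ < Real.log a → F a = 0)
    {n N : ℕ} (hn : Λ + 1 ≤ n) (hN : Real.exp n < N) :
    ∑' a, c a * F a = ∑ i ∈ range n, ∑ a ∈ range N, c a * ((psi (Real.log a - i) : ℂ) * F a) := by
  rw [sum_comm, tsum_eq_sum (s := range N) fun a ha => ?_]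
  · refine sum_congr rfl fun a _ => ?_
    rw [← mul_sum, ← sum_mul, ← ofReal_sum]
    rcases eq_or_ne a 0 with rfl | h0
    · simp [hc]
    rcases le_or_gt (Real.log a) Λ with h | h
    · rw [sum_psi (Real.log_natCast_nonneg a) (by linarith), ofReal_one, one_mul]
    · simp [hF a h0 h]
  · rcases eq_or_ne a 0 with rfl | h0
    · simp [hc]
    · rw [hF a h0 (by linarith [ksh_log hN ha]), mul_zero]

theorem ksh_tw (D : Data) (x : ℕ → ℝ) (L τ : ℝ) :
    (sh D x fun y => (bump 2 (y - L) : ℂ) * ex τ (y - L)) =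
      ∑ a ∈ range (⌊Real.exp ((L + 3) / 2)⌋₊ + 1),
        ((h1 D a / a : ℝ) : ℂ) * tw D x 2 (L - 2 * Real.log a) τ := by
  rw [sh_eq_sum D x (L := L + 3) (fun y hy => by
    rw [bump_eq_zero (by linarith [le_abs_self (y - L)]), ofReal_zero, zero_mul]) (ksh_floor _)]
  refine sum_congr rfl fun a _ => ?_
  simp only [tw, ← sub_add, add_sub_right_comm]

/-- The family `bump 2 * ex τ` in the sharp version is continuous in `τ` (finite sums). -/
theorem continuous_sh (D : Data) (x : ℕ → ℝ) (L : ℝ) :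
    Continuous fun τ => sh D x fun y => (bump 2 (y - L) : ℂ) * ex τ (y - L) := by
  simp only [ksh_tw]
  exact continuous_finsetSum _ fun a _ => continuous_const.mul (continuous_tw D x _ _)

/-- For `|w| ≤ 1`: `W (y - L + w) = ∫ ft W τ * ex τ w * (bump 2 (y - L) * ex τ (y - L))`; finite sums. -/
theorem sh_eq_integral (D : Data) (x : ℕ → ℝ) {j : ℕ} {B : ℝ} {W : ℝ → ℂ} (h : Sm j (-1) 1 B W)
    (L : ℝ) {w : ℝ} (hw : |w| ≤ 1) :
    (sh D x fun y => W (y - L + w)) =
      ∫ τ, (ft W τ * sh D x fun y => (bump 2 (y - L) : ℂ) * ex τ (y - L)) * ex τ w := by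
  have hw' := abs_le.1 hw
  have h3 : ∀ (c : ℂ) (L τ : ℝ), ft W τ * (c * tw D x 2 L τ) * ex τ w =
      c * (ft W τ * ex τ w * tw D x 2 L τ) := fun c L τ => by ring
  rw [sh_eq_sum D x (L := L + 3) (fun y hy => h.supp _ (Or.inr (by linarith))) (ksh_floor _)]
  simp only [ksh_tw, mul_sum, sum_mul, h3]
  rw [integral_finsetSum _ fun a _ => (ksh_int D x h _ _ _).const_mul _]
  refine sum_congr rfl fun a _ => ?_
  rw [integral_const_mul, ← ksh_shift D x h (by linarith) (by linarith)]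
  simp only [← sub_add, add_sub_right_comm]

theorem ksh_win (D : Data) (x : ℕ → ℝ) {j : ℕ} {B : ℝ} {W : ℝ → ℂ} (h : Sm j (-3) 3 B W) (L : ℝ)
    (i N : ℕ) : ∑ a ∈ range N, ((h1 D a / a : ℝ) : ℂ) * ((psi (Real.log a - i) : ℂ) *
      sm D x fun y => W (y + 2 * Real.log a - L)) =
      ∫ t, ft W t * (∑ a ∈ range N, ((h1 D a / a : ℝ) : ℂ) * ((psi (Real.log a - i) : ℂ) *
        ex (2 * t) (Real.log a - i))) * tw D x 5 (L - 2 * i) t := by
  have h3 : ∀ (c d : ℂ) (w t : ℝ), ft W t * (c * (d * ex (2 * t) w)) * tw D x 5 (L - 2 * i) t =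
      c * (d * (ft W t * ex t (2 * w) * tw D x 5 (L - 2 * i) t)) := fun c d w t => by
    rw [two_mul t, two_mul w, ex_add, ex_add']
    ring
  simp only [mul_sum, sum_mul, h3]
  rw [integral_finsetSum _ fun a _ => ((ksh_int D x h _ _ _).const_mul _).const_mul _]
  refine sum_congr rfl fun a _ => ?_
  rw [integral_const_mul, integral_const_mul]
  rcases le_or_gt 1 |Real.log a - i| with hw | hw
  · simp [psi_eq_zero hw]
  · have hw' := abs_lt.1 hw
    rw [← ksh_shift D x h (by linarith) (by linarith)]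
    congr 3
    funext y
    congr 1
    ring

/-- With `log a = i + w`, `y' = y - (L - 2 i)`:
`psi w * W (y' + 2 w) = ∫ ft W τ * (psi w * ex (2τ) w) * (bump 5 y' * ex τ y')`, so
`sh = ∑ i, ∫ ft W τ * E i (2τ) * tw D x 5 (L - 2 i) τ`; then `nrm_sum`, `nrm_integral`, `Sm.ft_int`,
`∑ 1/(1+i)² ≤ 2`. -/
theorem sh_le (D : Data) (hE : EB (h1 D)) : ∃ c : ℕ, ∀ A : ℕ, ∃ C : ℝ, 0 ≤ C ∧
    ∀ (ι : Type) (T : Finset ι) (x : ι → ℕ → ℝ) (G B L : ℝ) (W : ℝ → ℂ), 0 ≤ G →
    (∀ L t, nrm T (fun k => tw D (x k) 5 L t) ≤ G * (1 + |t|) ^ A) →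
    Sm (A + c) (-3) 3 B W →
    nrm T (fun k => sh D (x k) fun y => W (y - L)) ≤ C * B * G := by
  obtain ⟨c, C, hC, hE⟩ := hE
  refine ⟨c + 2, fun A => ?_⟩
  obtain ⟨C', hC', hI⟩ := Sm.ft_int (A + c) (3 - -3)
  refine ⟨2 * (C * 2 ^ c * C'), by positivity, fun ι T x G B L W hG hT hW => ?_⟩
  have hB := hW.nonneg
  obtain ⟨n, hn⟩ := exists_nat_ge ((L + 3) / 2 + 1)
  have hN := ksh_floor (Real.exp n)
  generalize ⌊Real.exp n⌋₊ + 1 = N at hN
  have key : ∀ i ∈ range n, nrm T (fun k => ∑ a ∈ range N, ((h1 D a / a : ℝ) : ℂ) *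
      ((psi (Real.log a - i) : ℂ) * sm D (x k) fun y => W (y + 2 * Real.log a - L))) ≤
      C * 2 ^ c * C' * B * G * (1 / (1 + (i : ℝ)) ^ 2) := by
    intro i hi
    have hi' : (i : ℝ) + 1 ≤ n := by exact_mod_cast mem_range.1 hi
    have e0 : ∀ t : ℝ, ‖ft W t‖ * (C * 2 ^ c * (1 + |t|) ^ c / (1 + i) ^ 2) * (G * (1 + |t|) ^ A) =
        C * 2 ^ c * G * (1 / (1 + (i : ℝ)) ^ 2) * (‖ft W t‖ * (1 + |t|) ^ (A + c)) := fun t => by
      ring
    have e1 : Integrable fun t : ℝ =>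
        ‖ft W t‖ * (C * 2 ^ c * (1 + |t|) ^ c / (1 + i) ^ 2) * (G * (1 + |t|) ^ A) := by
      simp only [e0]
      exact (hW.ft_integrable _).const_mul _
    have e2 : Continuous fun t : ℝ => ‖ft W t‖ * (C * 2 ^ c * (1 + |t|) ^ c / (1 + i) ^ 2) :=
      hW.ft_cont.norm.mul (by fun_prop)
    refine (nrm_integral (c := fun k t => tw D (x k) 5 (L - 2 * i) t) (fun t => by positivity) e2
      (fun k _ => continuous_tw D _ _ _) (fun k hk => ?_) (hT _) e1).trans ?_
    · rw [ksh_win D _ hW]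
      refine norm_integral_le_of_norm_le (e1.mono' (e2.mul
        (continuous_tw D _ _ _).norm).aestronglyMeasurable (ae_of_all _ fun t => ?_))
        (ae_of_all _ fun t => ?_)
      · rw [Real.norm_eq_abs, abs_of_nonneg (by positivity)]
        exact mul_le_mul_of_nonneg_left ((tnrm_single hk _).trans (hT _ t)) (by positivity)
      · rw [norm_mul, norm_mul]
        refine mul_le_mul_of_nonneg_right (mul_le_mul_of_nonneg_left
          ((hE i N _ ((Real.exp_le_exp.2 hi').trans_lt hN)).trans ?_) (norm_nonneg _)) (norm_nonneg _)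
        rw [mul_assoc, ← mul_pow, abs_mul, abs_two]
        gcongr
        linarith
    · simp only [e0]
      rw [integral_const_mul]
      refine (mul_le_mul_of_nonneg_left (hI _ _ _ _ le_rfl hW) (by positivity)).trans (le_of_eq ?_)
      ring
  refine (nrm_sum (range n) fun k _ => ?_).trans ((sum_le_sum key).trans ?_)
  · rw [sh, tsum_eq_windows (by simp) (fun a _ ha => ksh_zero D _ fun y hy =>
      hW.supp _ (Or.inr (by linarith))) hn hN]
    exact norm_sum_le _ _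
  · rw [← mul_sum]
    have h2 : ∑ i ∈ range n, 1 / (1 + (i : ℝ)) ^ 2 ≤ 2 :=
      (ksh_sum n).trans (sub_le_self _ (by positivity))
    exact (mul_le_mul_of_nonneg_left h2 (by positivity)).trans (le_of_eq (by ring))

end Pool.Agent.Lib.MP_03e5d0_nt
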