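import Pool.Agent.Lib.MP_03e5d0_nt.KDef

set_option autoImplicit false

noncomputable section

namespace Pool.Agent.Lib.MP_03e5d0_nt

open Complex Finset MeasureTheory
open scoped NumberTheorySymbols Real ContDiff

/-! The basic family as a superposition of values of the twisted form. -/

/-- `|lam n cm x n| / √n ≤ 2`, `‖om ξ y‖ = exp y * exp (-exp y)`. -/
theorem norm_om (ξ y : ℝ) : ‖om ξ y‖ = Real.exp y * Real.exp (-Real.exp y) := by
  simp [om, norm_exp, exp_ofReal_re]

theorem summable_om (D : Data) {x : ℕ → ℝ} (hx : Adm x) (L : ℝ) : ∃ u : ℕ → ℝ, Summable u ∧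
    ∀ (ξ : ℝ) (n : ℕ), ‖((D.lam n * cm x n / √n : ℝ) : ℂ) * om ξ (Real.log n - L)‖ ≤ u n := by
  refine ⟨fun n => 2 * (6 * Real.exp L ^ 2 * (1 / (n : ℝ) ^ 2)),
    ((Real.summable_one_div_nat_pow.2 one_lt_two).mul_left _).mul_left _, fun ξ n => ?_⟩
  rcases Nat.eq_zero_or_pos n with rfl | hn
  · simp [cm_zero]
  have h0 : (0 : ℝ) < n := by exact_mod_cast hn
  have h1 : 0 < √(n : ℝ) := Real.sqrt_pos.mpr h0
  rw [norm_mul, norm_real, Real.norm_eq_abs, norm_om]
  refine mul_le_mul ?_ ?_ (by positivity) zero_le_two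
  · rw [abs_div, abs_of_pos h1, div_le_iff₀ h1, abs_mul]
    exact (mul_le_of_le_one_right (abs_nonneg _) (hx.abs_cm _)).trans
      ((D.lam_le_card _).trans (tbas_card_sqrt _))
  · have h2 := Real.exp_pos L
    have h3 : 0 < n / Real.exp L := div_pos h0 h2
    have h4 := Real.pow_div_factorial_le_exp _ h3.le 3
    rw [Real.exp_sub, Real.exp_log h0, Real.exp_neg]
    refine (mul_le_mul_of_nonneg_left (inv_anti₀ (by positivity) h4) h3.le).trans (le_of_eq ?_)
    norm_num [Nat.factorial]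
    field_simp

theorem continuous_sm_om (D : Data) {x : ℕ → ℝ} (hx : Adm x) (L : ℝ) :
    Continuous fun ξ => sm D x fun y => om ξ (y - L) := by
  obtain ⟨u, hu, h⟩ := summable_om D hx L
  exact continuous_tsum (fun n => by unfold om; fun_prop) hu fun n ξ => h ξ n

/-- The cut-off in the variable `u = exp y`. -/
def ktbA (u : ℝ) : ℂ := if 0 < u then (bump 5 (Real.log u) : ℂ) else 0

/-- The function whose Fourier transform gives the superposition. -/
def ktbB (t u : ℝ) : ℂ := ktbA u * cexp ((I * t - 1) * Complex.log u + u)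

theorem ktb_supp (u : ℝ) (h : u < Real.exp (-6) ∨ Real.exp 6 < u) : ktbA u = 0 := by
  unfold ktbA
  split_ifs with hu
  · rw [bump_eq_zero, ofReal_zero]
    rcases h with h | h
    · linarith [(Real.log_lt_iff_lt_exp hu).2 h, neg_le_abs (Real.log u)]
    · linarith [(Real.lt_log_iff_exp_lt hu).2 h, le_abs_self (Real.log u)]
  · rfl

theorem ktb_smooth : ContDiff ℝ ∞ ktbA := by
  refine contDiff_iff_contDiffAt.2 fun u => ?_
  rcases lt_or_ge 0 u with hu | hu
  · obtain ⟨B, hB⟩ := sm_bump 0 5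
    refine (hB.smooth.contDiffAt.comp u (Real.contDiffAt_log.2 hu.ne')).congr_of_eventuallyEq ?_
    exact (lt_mem_nhds hu).mono fun v hv => if_pos hv
  · exact contDiffAt_const.congr_of_eventuallyEq
      (tsm_ev ktb_supp (Or.inl (hu.trans_lt (Real.exp_pos _))))

theorem ktb_arg {z : ℂ} (hz : 0 < z.re) : |arg z| ≤ |z.im| / z.re := by
  have h1 := abs_arg_lt_pi_div_two_iff.2 (Or.inl hz)
  refine (Real.le_tan (abs_nonneg _) h1).trans ?_
  rw [← abs_of_pos hz, ← abs_div, ← tan_arg]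
  rcases abs_cases (arg z) with h | h <;> rw [h.1]
  · exact le_abs_self _
  · rw [Real.tan_neg]
    exact neg_le_abs _

theorem ktb_sm (j : ℕ) : ∃ C : ℝ, 0 ≤ C ∧ ∀ t : ℝ,
    Sm j (Real.exp (-6)) (Real.exp 6) (C * (1 + |t|) ^ j) (ktbB t) := by
  obtain ⟨C, hC, h⟩ := Sm.mul_holo j
  obtain ⟨B, hB⟩ := exists_sm j ktb_smooth ktb_supp
  have ha := Real.exp_pos (-6)
  have ha1 : Real.exp (-6) ≤ 1 := Real.exp_le_one_iff.2 (by norm_num)
  refine ⟨C * B * Real.exp (1 - Real.log (Real.exp (-6) / 2) + (Real.exp 6 + 1)) /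
    (Real.exp (-6) / 2) ^ j, by have := hB.nonneg; positivity, fun t => ?_⟩
  have ht : 1 ≤ 1 + |t| := le_add_of_nonneg_right (abs_nonneg t)
  have hδ : Real.exp (-6) / 2 / (1 + |t|) ≤ Real.exp (-6) / 2 := div_le_self (by positivity) ht
  refine (h _ _ B (Real.exp (1 - Real.log (Real.exp (-6) / 2) + (Real.exp 6 + 1)))
    (Real.exp (-6) / 2 / (1 + |t|)) ktbA (fun z => cexp ((I * t - 1) * Complex.log z + z)) hB
    (by positivity) (by linarith) (Real.exp_pos _).le (fun z hz => ?_)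
    fun z h1 h2 h3 => ?_).mono le_rfl le_rfl le_rfl (le_of_eq ?_)
  · have h4 : z ∈ slitPlane := Or.inl (by linarith [hz.1])
    exact (((differentiableAt_id.clog h4).const_mul _).add
      differentiableAt_id).cexp.differentiableWithinAt
  · have h4 : Real.exp (-6) / 2 < z.re := by linarith
    have h5 : 0 < z.re := by linarith
    have h6 : |arg z| * (1 + |t|) ≤ 1 := by
      rw [← le_div_iff₀ (by positivity)]
      refine (ktb_arg h5).trans ?_
      rw [div_le_iff₀ h5, one_div, ← div_eq_inv_mul]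
      exact h3.le.trans (div_le_div_of_nonneg_right h4.le (by positivity))
    have h7 : Real.log (Real.exp (-6) / 2) ≤ Real.log ‖z‖ :=
      Real.log_le_log (by positivity) (h4.le.trans (re_le_norm z))
    have h8 : -(t * arg z) ≤ |t| * |arg z| := by
      rw [← abs_mul]
      exact neg_le_abs _
    rw [norm_exp, Real.exp_le_exp]
    simp only [add_re, mul_re, sub_re, I_re, ofReal_re, I_im, ofReal_im, one_re, log_re, sub_im,
      mul_im, one_im, log_im]
    nlinarith [abs_nonneg (arg z)]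
  · rw [div_pow _ (1 + |t|), div_div_eq_mul_div, div_mul_eq_mul_div]

theorem ktb_inv {j : ℕ} {a b B t : ℝ} (h : Sm j a b B (ktbB t)) (y : ℝ) :
    (bump 5 y : ℂ) * ex t y = ∫ ξ, ft (ktbB t) ξ * om ξ y := by
  have e : ∀ ξ : ℝ, ft (ktbB t) ξ * om ξ y =
      ft (ktbB t) ξ * ex ξ (Real.exp y) * cexp (y - Real.exp y) := fun ξ => by
    rw [om, ex, mul_assoc, ← Complex.exp_add, ofReal_exp, ← Complex.exp_add]
    congr 2
    ring
  simp only [e]
  rw [integral_mul_const, ← h.inv, ktbB, ktbA, if_pos (Real.exp_pos y), Real.log_exp,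
    ← ofReal_log (Real.exp_pos y).le, Real.log_exp, mul_assoc, ← Complex.exp_add, ex]
  congr 2
  ring

/-- Let `b u = if 0 < u then bump 5 (log u) else 0`, smooth, supported in `[exp (-6), exp 6]`, and
`β u = b u * exp ((I t - 1) log u + u)` (`Sm.mul_holo`, complex `log`, `δ = exp (-6) / (2 (1+|t|))`, there
`|t| |arg z| ≤ C`). Then `bump 5 y * ex t y = ∫ ft β ξ * om ξ y` (put `u = exp y` in `Sm.inv`); exchange sum
and integral; `Sm.ft_le`. -/
theorem tb (j : ℕ) (hj : 2 ≤ j) : ∃ C : ℝ, 0 ≤ C ∧ ∀ (D : Data) (x : ℕ → ℝ), Adm x → ∀ L t : ℝ,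
    ‖tw D x 5 L t‖ ≤
      ∫ ξ, C * (1 + |t|) ^ j / (1 + |ξ|) ^ j * ‖sm D x fun y => om ξ (y - L)‖ := by
  obtain ⟨C₁, hC₁, h₁⟩ := ktb_sm j
  obtain ⟨C₂, hC₂, h₂⟩ := Sm.ft_le j (Real.exp 6 - Real.exp (-6))
  refine ⟨C₂ * C₁, mul_nonneg hC₂ hC₁, fun D x hx L t => ?_⟩
  obtain ⟨u, hu, h⟩ := summable_om D hx L
  have hβ := h₁ t
  have hi : Integrable fun ξ => ‖ft (ktbB t) ξ‖ := by simpa using hβ.ft_integrable 0
  have hb : ∀ (n : ℕ) (ξ : ℝ), ‖ft (ktbB t) ξ *
      (((D.lam n * cm x n / √n : ℝ) : ℂ) * om ξ (Real.log n - L))‖ ≤ ‖ft (ktbB t) ξ‖ * u n :=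
    fun n ξ => by
      rw [norm_mul]
      exact mul_le_mul_of_nonneg_left (h ξ n) (norm_nonneg _)
  have hF : ∀ n : ℕ, Integrable fun ξ => ft (ktbB t) ξ *
      (((D.lam n * cm x n / √n : ℝ) : ℂ) * om ξ (Real.log n - L)) := fun n =>
    (hi.mul_const (u n)).mono' (hβ.ft_cont.mul (by unfold om; fun_prop)).aestronglyMeasurable
      (Filter.Eventually.of_forall (hb n))
  have e : tw D x 5 L t = ∫ ξ, ft (ktbB t) ξ * sm D x fun y => om ξ (y - L) := by
    simp only [tw, sm, ← tsum_mul_left]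
    rw [← integral_tsum_of_summable_integral_norm hF]
    · refine tsum_congr fun n => ?_
      rw [ktb_inv hβ, ← integral_const_mul]
      exact integral_congr_ae (Filter.Eventually.of_forall fun ξ => mul_left_comm _ _ _)
    · refine Summable.of_nonneg_of_le (fun n => integral_nonneg fun ξ => norm_nonneg _)
        (fun n => ?_) (hu.mul_left (∫ ξ, ‖ft (ktbB t) ξ‖))
      rw [← integral_mul_const]
      exact integral_mono (hF n).norm (hi.mul_const _) (hb n)
  rw [e]
  refine norm_integral_le_of_norm_le ?_ (Filter.Eventually.of_forall fun ξ => ?_)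
  · refine (integrable_inv_sq.const_mul (C₂ * C₁ * (1 + |t|) ^ j * ∑' n, u n)).mono' ?_
      (Filter.Eventually.of_forall fun ξ => ?_)
    · exact ((continuous_const.div (by fun_prop) fun ξ => by positivity).mul
        (continuous_sm_om D hx L).norm).aestronglyMeasurable
    · have h3 : ‖sm D x fun y => om ξ (y - L)‖ ≤ ∑' n, u n :=
        tsum_of_norm_bounded hu.hasSum (h ξ)
      have h4 : 1 / (1 + |ξ|) ^ j ≤ 1 / (1 + |ξ|) ^ 2 :=
        one_div_le_one_div_of_le (by positivity)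
          (pow_le_pow_right₀ (le_add_of_nonneg_right (abs_nonneg ξ)) hj)
      rw [Real.norm_of_nonneg (by positivity), div_eq_mul_one_div, mul_right_comm]
      exact mul_le_mul (mul_le_mul_of_nonneg_left h3 (by positivity)) h4 (by positivity)
        (mul_nonneg (by positivity) ((norm_nonneg _).trans h3))
  · rw [norm_mul, mul_assoc C₂]
    exact mul_le_mul_of_nonneg_right (h₂ _ _ _ _ le_rfl hβ ξ) (norm_nonneg _)

end Pool.Agent.Lib.MP_03e5d0_nt
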