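import Pool.Agent.Lib.MP_03e5d0_nt.TEx

/-! Definitions for the Poisson step and the factorisation of the dual sums. -/

set_option autoImplicit false

noncomputable section

namespace Pool.Agent.Lib.MP_03e5d0_nt

open Complex Finset MeasureTheory
open scoped NumberTheorySymbols Real ContDiff

/-- The complex Gauss sum. -/
def gt (k : ℤ) (r : ℕ) : ℂ :=
  ∑ a ∈ range r, (J((a : ℤ) | r) : ℂ) * cexp (2 * π * I * (a * k / r))

/-- The real Gauss sum. -/
def gs (k : ℤ) (r : ℕ) : ℝ := (gt k r).re + (gt k r).im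

/-- The normalised Gauss sum. -/
def gn (k : ℤ) (r : ℕ) : ℝ := gs k r / √r

/-- The completely multiplicative function with values `-lam p ^ 2`. -/
def h0 (D : Data) : ℕ → ℝ := cm fun p => -(D.lam p ^ 2)

/-- The completely multiplicative function with values `-lam (p ^ 2)`. -/
def h1 (D : Data) : ℕ → ℝ := cm fun p => -(D.lam (p ^ 2))

/-- The sum with the squares taken out. -/
def sh (D : Data) (x : ℕ → ℝ) (V : ℝ → ℂ) : ℂ :=
  ∑' a : ℕ, ((h1 D a / a : ℝ) : ℂ) * sm D x fun y => V (y + 2 * Real.log a)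

/-- The bilinear form with the common factors taken out. -/
def qf (D : Data) (x : ℕ → ℝ) (V₁ V₂ : ℝ → ℂ) : ℂ :=
  ∑' g : ℕ, ((h0 D g / g : ℝ) : ℂ) *
    (sh D x (fun y => V₁ (y + Real.log g)) * sh D x fun y => V₂ (y + Real.log g))

/-- The dual sum of frequency `k`. -/
def tk (D : Data) (k : ℤ) (ℓ : ℕ) (Ω : ℝ → ℝ → ℂ) : ℂ :=
  ∑' n : ℕ × ℕ, ((D.lam n.1 / √n.1 * (D.lam n.2 / √n.2) * gn k (n.1 * n.2 * ℓ) : ℝ) : ℂ) *
    Ω (Real.log n.1) (Real.log n.2)

/-- The weight of the frequency `k` as a function of `log (n₁ n₂)`. -/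
def gk (X : ℝ) (ℓ : ℕ) (k : ℤ) (s : ℝ) : ℝ :=
  X / √ℓ * Real.exp (-(s / 2)) * Real.exp (-(π * (k * X / (ℓ * Real.exp s)) ^ 2))

end Pool.Agent.Lib.MP_03e5d0_nt
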