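import Pool.Agent.Lib.MP_03e5d0_nt.LFd

/-! Convolution inverses and their values at prime powers. -/

set_option autoImplicit false

noncomputable section

namespace Pool.Agent.Lib.MP_03e5d0_nt

open Complex Finset MeasureTheory
open scoped NumberTheorySymbols Real ContDiff

theorem lLFa_mult (x : ℕ → ℝ) {f : ℕ → ℝ} (h1 : f 1 = 1)
    (h2 : ∀ m n : ℕ, m.Coprime n → f (m * n) = f m * f n) : (tws x f).IsMultiplicative := by
  refine ⟨?_, fun {m n} h => ?_⟩
  · show f 1 * cm x 1 / √((1 : ℕ) : ℝ) = 1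
    simp [h1, cm_one]
  · show f (m * n) * cm x (m * n) / √((m * n : ℕ) : ℝ) = f m * cm x m / √m * (f n * cm x n / √n)
    rw [h2 m n h, cm_mul, Nat.cast_mul, Real.sqrt_mul (Nat.cast_nonneg m)]
    ring

theorem lLFa_pow (x f : ℕ → ℝ) {p : ℕ} (hp : p.Prime) (e : ℕ) :
    tws x f (p ^ e) = f (p ^ e) * (x p * (√p)⁻¹) ^ e := by
  show f (p ^ e) * cm x (p ^ e) / √((p ^ e : ℕ) : ℝ) = _
  rw [cm_pow, cm_prime x hp, Nat.cast_pow, Real.sqrt_eq_rpow, Real.sqrt_eq_rpow,
    ← Real.rpow_pow_comm (Nat.cast_nonneg p), mul_pow, inv_pow, div_eq_mul_inv, mul_assoc]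

theorem lLFa_lmi (D : Data) {p : ℕ} (hp : p.Prime) (e : ℕ) : lmi D (p ^ e) =
    if e = 0 then 1 else if e = 1 then -D.lam p else if e = 2 ∧ ¬p ∣ D.q then 1 else 0 :=
  mkW_pow hp (if_pos rfl) e

theorem lLFa_zero (D : Data) {p : ℕ} (hp : p.Prime) (h : p ∣ D.q) (e : ℕ) :
    D.lam (p ^ (e + 1)) = 0 :=
  D.lam_zero _ fun hc => hp.one_lt.ne' (Nat.eq_one_of_dvd_coprimes hc (dvd_pow_self p e.succ_ne_zero) h)

theorem lLFa_sum (D : Data) {p : ℕ} (hp : p.Prime) (i : ℕ) :
    ∑ j ∈ range (i + 1), lmi D (p ^ j) * D.lam (p ^ (i - j)) = if i = 0 then 1 else 0 := by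
  simp only [lLFa_lmi D hp]
  rcases i with _ | _ | k
  · simp [D.lam_one]
  · simp [sum_range_succ, D.lam_one]
  · rw [sum_range_succ', sum_range_succ', sum_range_succ', sum_eq_zero fun j _ => by simp]
    by_cases h : p ∣ D.q
    · have h1 := lLFa_zero D hp h 0
      rw [zero_add, pow_one] at h1
      simp [h, h1, lLFa_zero D hp h]
    · have h1 := D.lam_rec p k hp h
      simp [h, h1, ← sub_eq_add_neg]

/-- Sketch: `tws x` distributes over convolution since `cm x n / √n` is completely multiplicative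
(`cm_mul`, `Real.sqrt_mul`); `lmi D * D.lam = 1` is checked on prime powers
(`ArithmeticFunction.IsMultiplicative.eq_iff_eq_on_prime_powers`, `mkW_mul`, `mkW_pow`, `D.lam_rec`,
`D.lam_zero`, `Nat.sum_divisorsAntidiagonal`, `Nat.sum_divisors_prime_pow`). -/
theorem lmi_inv (D : Data) (x : ℕ → ℝ) : tws x (lmi D) * tws x D.lam = 1 := by
  have m1 : (tws x (lmi D)).IsMultiplicative :=
    lLFa_mult x (mkW_one _) fun _ _ h => mkW_mul _ h
  refine (ArithmeticFunction.IsMultiplicative.eq_iff_eq_on_prime_powers _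
    (m1.mul (lLFa_mult x D.lam_one D.lam_mul)) _ ArithmeticFunction.isMultiplicative_one).2
    fun p i hp => ?_
  rw [ArithmeticFunction.mul_apply,
    Nat.sum_divisorsAntidiagonal fun a b => tws x (lmi D) a * tws x D.lam b,
    Nat.sum_divisors_prime_pow hp]
  have h1 : ∀ j ∈ range (i + 1), tws x (lmi D) (p ^ j) * tws x D.lam (p ^ i / p ^ j) =
      lmi D (p ^ j) * D.lam (p ^ (i - j)) * (x p * (√p)⁻¹) ^ i := by
    intro j hj
    have h2 : j ≤ i := Nat.lt_succ_iff.1 (mem_range.1 hj)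
    rw [Nat.pow_div h2 hp.pos, lLFa_pow x _ hp, lLFa_pow x _ hp, mul_mul_mul_comm, ← pow_add,
      Nat.add_sub_cancel' h2]
  rw [sum_congr rfl h1, ← sum_mul, lLFa_sum D hp, ArithmeticFunction.one_apply]
  rcases eq_or_ne i 0 with rfl | hi
  · simp
  · simp [hi, hp.one_lt.ne']

/-- Sketch: `μ * ζ = 1` (`ArithmeticFunction.coe_moebius_mul_coe_zeta`), `cm f n / n` is completely
multiplicative. -/
theorem kA_inv (f : ℕ → ℝ) : kA f * hA f = 1 := by
  ext n
  have h1 := congrArg (fun F : ArithmeticFunction ℝ => F n)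
    (ArithmeticFunction.coe_moebius_mul_coe_zeta (R := ℝ))
  simp only [ArithmeticFunction.mul_apply] at h1
  have h2 : ∀ y ∈ n.divisorsAntidiagonal, kA f y.1 * hA f y.2 =
      (ArithmeticFunction.moebius : ArithmeticFunction ℝ) y.1 *
        (ArithmeticFunction.zeta : ArithmeticFunction ℝ) y.2 * (cm f n / n) := by
    intro y hy
    obtain ⟨h3, h4⟩ := Nat.mem_divisorsAntidiagonal.1 hy
    have h5 : y.2 ≠ 0 := right_ne_zero_of_mul (h3 ▸ h4)
    show (ArithmeticFunction.moebius y.1 : ℝ) * (cm f y.1 / y.1) * (cm f y.2 / y.2) = _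
    rw [ArithmeticFunction.natCoe_apply, ArithmeticFunction.zeta_apply_ne h5,
      ArithmeticFunction.intCoe_apply, ← h3, cm_mul]
    push_cast
    ring
  rw [ArithmeticFunction.mul_apply, sum_congr rfl h2, ← sum_mul, h1, ArithmeticFunction.one_apply]
  split_ifs with h
  · simp [h, cm_one]
  · simp

theorem lmi_mult (D : Data) (x : ℕ → ℝ) : (tws x (lmi D)).IsMultiplicative := by
  exact lLFa_mult x (mkW_one _) fun _ _ h => mkW_mul _ h

theorem kA_mult (f : ℕ → ℝ) : (kA f).IsMultiplicative := by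
  refine ⟨?_, fun {m n} h => ?_⟩
  · show (ArithmeticFunction.moebius 1 : ℝ) * (cm f 1 / ((1 : ℕ) : ℝ)) = 1
    simp [cm_one]
  · show (ArithmeticFunction.moebius (m * n) : ℝ) * (cm f (m * n) / ((m * n : ℕ) : ℝ)) =
      (ArithmeticFunction.moebius m : ℝ) * (cm f m / m) *
        ((ArithmeticFunction.moebius n : ℝ) * (cm f n / n))
    rw [ArithmeticFunction.isMultiplicative_moebius.map_mul_of_coprime h, cm_mul]
    push_cast
    ring

theorem lmi_p1 (D : Data) (x : ℕ → ℝ) {p : ℕ} (hp : p.Prime) :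
    tws x (lmi D) p = -(D.lam p * x p * (√p)⁻¹) := by
  have h := lLFa_pow x (lmi D) hp 1
  rw [lLFa_lmi D hp, pow_one] at h
  rw [h]
  simp [mul_assoc]

theorem lmi_p2 (D : Data) (x : ℕ → ℝ) {p : ℕ} (hp : p.Prime) :
    tws x (lmi D) (p ^ 2) = if p ∣ D.q then 0 else x p ^ 2 * (√p)⁻¹ ^ 2 := by
  rw [lLFa_pow x _ hp, lLFa_lmi D hp, mul_pow]
  by_cases h : p ∣ D.q <;> simp [h]

theorem kA_p1 (f : ℕ → ℝ) {p : ℕ} (hp : p.Prime) : kA f p = -(f p * (√p)⁻¹ ^ 2) := by
  show (ArithmeticFunction.moebius p : ℝ) * (cm f p / p) = _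
  rw [ArithmeticFunction.moebius_apply_prime hp, cm_prime f hp, inv_pow,
    Real.sq_sqrt (Nat.cast_nonneg p), div_eq_mul_inv]
  simp

theorem kA_p2 (f : ℕ → ℝ) {p e : ℕ} (hp : p.Prime) (he : 2 ≤ e) : kA f (p ^ e) = 0 := by
  show (ArithmeticFunction.moebius (p ^ e) : ℝ) * _ = 0
  rw [ArithmeticFunction.moebius_apply_prime_pow hp (by omega), if_neg (by omega)]
  simp

theorem lmi_lb (D : Data) {x : ℕ → ℝ} (hx : Adm x) {p : ℕ} (hp : p.Prime) :
    LB1 p (tws x (lmi D)) 1 := by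
  refine ⟨fun e => ?_, fun e he => ?_⟩
  · have h1 : |lmi D (p ^ e)| ≤ 4 := by
      have := D.lam_le p hp
      rw [lLFa_lmi D hp]
      split_ifs
      · norm_num
      · rw [abs_neg]; linarith
      · norm_num
      · norm_num
    have h2 : |x p| ≤ 1 := by rcases hx p with h | h | h <;> simp [h]
    have h3 : 0 ≤ (√p)⁻¹ := by positivity
    rw [lLFa_pow x _ hp, abs_mul, abs_pow, abs_mul, abs_of_nonneg h3, mul_one]
    exact mul_le_mul h1 (pow_le_pow_left₀ (by positivity) (mul_le_of_le_one_left h3 h2) e)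
      (by positivity) (by norm_num)
  · rw [lLFa_pow x _ hp, lLFa_lmi D hp, if_neg (by omega), if_neg (by omega), if_neg (by omega),
      zero_mul]

theorem kA_lb {f : ℕ → ℝ} {p : ℕ} (hp : p.Prime) (hf : |f p| ≤ 4) : LB1 p (kA f) 2 := by
  refine ⟨fun e => ?_, fun e he => kA_p2 f hp (by omega)⟩
  rcases e with _ | _ | e
  · rw [pow_zero, (kA_mult f).map_one]
    norm_num
  · rw [zero_add, pow_one, kA_p1 f hp, abs_neg, abs_mul, one_mul,
      abs_of_nonneg (a := (√p)⁻¹ ^ 2) (by positivity)]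
    exact mul_le_mul_of_nonneg_right hf (by positivity)
  · rw [kA_p2 f hp (by omega), abs_zero]
    positivity

theorem f0_le (D : Data) {p : ℕ} (hp : p.Prime) : |f0 D p| ≤ 4 := by
  have h := D.lam_le p hp
  rw [f0, abs_neg, abs_pow]
  nlinarith [abs_nonneg (D.lam p)]

theorem f1_le (D : Data) {p : ℕ} (hp : p.Prime) : |f1 D p| ≤ 4 := by
  have h := D.lam_pow_le hp 2
  rw [f1, abs_neg]
  push_cast at h
  linarith

end Pool.Agent.Lib.MP_03e5d0_nt
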