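import Pool.Agent.Lib.MP_03e5d0_nt.LM3

/-! Definitions for the factorisation of the dual sums. -/

set_option autoImplicit false

noncomputable section

namespace Pool.Agent.Lib.MP_03e5d0_nt

open Complex Finset MeasureTheory
open scoped NumberTheorySymbols Real ContDiff

/-- Twist by a completely multiplicative function, normalised. -/
def tws (x f : ℕ → ℝ) : ArithmeticFunction ℝ := ⟨fun n => f n * cm x n / √n, by simp⟩

/-- The convolution inverse of the Hecke eigenvalues. -/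
def lmi (D : Data) : ℕ → ℝ := mkW fun p e =>
  if e = 0 then 1 else if e = 1 then -D.lam p else if e = 2 ∧ ¬p ∣ D.q then 1 else 0

/-- A completely multiplicative function divided by `n`. -/
def hA (f : ℕ → ℝ) : ArithmeticFunction ℝ := ⟨fun n => cm f n / n, by simp⟩

/-- The convolution inverse of `hA f`. -/
def kA (f : ℕ → ℝ) : ArithmeticFunction ℝ :=
  ⟨fun n => (ArithmeticFunction.moebius n : ℝ) * (cm f n / n), by simp⟩

/-- The values of `h0` at the primes. -/
def f0 (D : Data) : ℕ → ℝ := fun p => -(D.lam p ^ 2)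

/-- The values of `h1` at the primes. -/
def f1 (D : Data) : ℕ → ℝ := fun p => -(D.lam (p ^ 2))

/-- The coefficients of the dual sum. -/
def aF (D : Data) (k : ℤ) (ℓ : ℕ) (n : ℕ × ℕ) : ℝ :=
  D.lam n.1 / √n.1 * (D.lam n.2 / √n.2) * gn k (n.1 * n.2 * ℓ)

/-- The part prime to `Q`. -/
def aP (D : Data) (k : ℤ) (Q : ℕ) (n : ℕ × ℕ) : ℝ :=
  if (n.1 * n.2).Coprime Q then aF D k 1 n else 0

/-- The quotient of `a` by the coefficients of the bilinear form `qf`. -/
def yP (D : Data) (x : ℕ → ℝ) (a : ℕ × ℕ → ℝ) : ℕ × ℕ → ℝ :=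
  UU 1 1 (kA (f0 D)) (UU 0 2 (kA (f1 D)) (UU 2 0 (kA (f1 D))
    (UU 0 1 (tws x (lmi D)) (UU 1 0 (tws x (lmi D)) a))))

/-- Convolution with a finitely supported function. -/
def cv (S : Finset (ℕ × ℕ)) (b a : ℕ × ℕ → ℝ) (n : ℕ × ℕ) : ℝ :=
  ∑ s ∈ S, if s.1 ∣ n.1 ∧ s.2 ∣ n.2 then b s * a (n.1 / s.1, n.2 / s.2) else 0

/-- The size of the local terms of positive degree. -/
def uQ (Q p : ℕ) : ℝ := if p ∣ Q then 10 ^ 6 else 10 ^ 6 * (√p)⁻¹ ^ 3

/-- The local majorant. -/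
def wQ (Q p s : ℕ) : ℝ := if s = 0 then 1 else if s ≤ 12 then uQ Q p else 0

/-- The majorant of the part prime to `Q`. -/
def wP (Q : ℕ) (r : ℕ × ℕ) : ℝ := if r.1 * r.2 = 0 then 0 else mkW (wQ Q) (r.1 * r.2)

/-- The support of the part at `Q`. -/
def sQ (Q : ℕ) : Finset (ℕ × ℕ) := (Q ^ 4).divisors ×ˢ (Q ^ 4).divisors

end Pool.Agent.Lib.MP_03e5d0_nt
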