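import Pool.Agent.Lib.MP_03e5d0_nt.LGa

/-! Poisson summation for periodic coefficients; the sign of the quadratic Gauss sum. -/

set_option autoImplicit false

noncomputable section

namespace Pool.Agent.Lib.MP_03e5d0_nt

open Complex Finset MeasureTheory
open scoped NumberTheorySymbols Real ContDiff

private theorem lLGb_norm (b : ℂ) (m : ℤ) :
    ‖cexp (-π * b * (m : ℂ) ^ 2)‖ = Real.exp (-π * b.re * (m : ℝ) ^ 2) := by
  rw [Complex.norm_exp]
  congr 1
  have : -π * b * (m : ℂ) ^ 2 = ((-π * (m : ℝ) ^ 2 : ℝ) : ℂ) * b := by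
    push_cast
    ring
  rw [this, re_ofReal_mul]
  ring

/-- `‖exp (-π b m ^ 2)‖ = exp (-π (re b) m ^ 2)`; see `summable_pow_mul_jacobiTheta₂_term_bound` or
compare with a geometric series. -/
theorem summable_gauss_l {b : ℂ} (hb : 0 < b.re) :
    Summable fun m : ℤ => ‖cexp (-π * b * (m : ℂ) ^ 2)‖ := by
  refine (summable_pow_mul_jacobiTheta₂_term_bound 0 hb 0).congr fun m => ?_
  rw [lLGb_norm, pow_zero, one_mul]
  congr 1
  ring

private theorem lLGb_bd {N : ℕ} (hN : N ≠ 0) {c : ℤ → ℂ}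
    (hc : ∀ a a', a ≡ a' [ZMOD N] → c a = c a') (m : ℤ) : ‖c m‖ ≤ ∑ a ∈ range N, ‖c a‖ := by
  have h0 : (0 : ℤ) < N := by omega
  have h1 := Int.emod_nonneg m h0.ne'
  have h2 := Int.emod_lt_of_pos m h0
  have h3 : c m = c ((m % N).toNat : ℕ) := by
    rw [Int.toNat_of_nonneg h1]
    exact hc _ _ (Int.mod_modEq m N).symm
  rw [h3]
  exact single_le_sum (f := fun a : ℕ => ‖c a‖) (fun _ _ => norm_nonneg _)
    (mem_range.2 (by omega))

private theorem lLGb_e (a : ℕ) (k : ℤ) (N : ℕ) : ‖cexp (2 * π * I * (a * k / N))‖ = 1 := by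
  have : 2 * π * I * ((a : ℂ) * k / N) = ((2 * π * (a * k / N) : ℝ) : ℂ) * I := by
    push_cast
    ring
  rw [this, norm_exp_ofReal_mul_I]

private theorem lLGb_re (b : ℂ) (N : ℕ) : (1 / (b * N ^ 2)).re = (1 / b).re / (N : ℝ) ^ 2 := by
  have : 1 / (b * N ^ 2) = (1 / b) / (((N : ℝ) ^ 2 : ℝ) : ℂ) := by
    push_cast
    rw [div_div]
  rw [this, div_ofReal_re]

private theorem lLGb_pos {b : ℂ} : 0 < (1 / b).re ↔ 0 < b.re := by
  rw [one_div, inv_re]
  by_cases h : b = 0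
  · simp [h]
  · exact div_pos_iff_of_pos_right (normSq_pos.2 h)

/-- Split `m = a + N j` (`Int.divModEquiv`, `Summable.tsum_prod`, `Summable.tsum_comm`).
`exp (-π b (a + N j) ^ 2) = exp (-π b a ^ 2) * exp (-π (b N ^ 2) j ^ 2 + 2 π (-b a N) j)`, then
`Complex.tsum_exp_neg_quadratic` with `b N ^ 2` and `-b a N`: the term of index `k` becomes
`exp (-π k ^ 2 / (b N ^ 2)) * exp (2 π i a k / N)`. -/
theorem tsum_periodic_gauss {N : ℕ} (hN : N ≠ 0) {c : ℤ → ℂ}
    (hc : ∀ a a', a ≡ a' [ZMOD N] → c a = c a') {b : ℂ} (hb : 0 < b.re) :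
    ∑' m : ℤ, c m * cexp (-π * b * (m : ℂ) ^ 2) =
      1 / (b * N ^ 2) ^ (1 / 2 : ℂ) * ∑' k : ℤ,
        (∑ a ∈ range N, c a * cexp (2 * π * I * (a * k / N))) *
          cexp (-π * (1 / (b * N ^ 2)) * (k : ℂ) ^ 2) := by
  have : NeZero N := ⟨hN⟩
  have hN' : (N : ℂ) ≠ 0 := Nat.cast_ne_zero.2 hN
  have hNr : (0 : ℝ) < N := Nat.cast_pos.2 (Nat.pos_of_ne_zero hN)
  have hb0 : b ≠ 0 := by
    rintro rfl
    simp at hb
  have hb1 : 0 < (1 / (b * N ^ 2)).re := by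
    rw [lLGb_re]
    exact div_pos (lLGb_pos.2 hb) (by positivity)
  have hb2 : 0 < (b * N ^ 2).re := lLGb_pos.1 hb1
  set f : ℤ → ℂ := fun m => c m * cexp (-π * b * (m : ℂ) ^ 2) with hf
  have hfs : Summable f := by
    refine Summable.of_norm_bounded ((summable_gauss_l hb).mul_left (∑ a ∈ range N, ‖c a‖))
      fun m => ?_
    rw [hf, norm_mul]
    exact mul_le_mul_of_nonneg_right (lLGb_bd hN hc m) (norm_nonneg _)
  have h1 : ∑' m, f m = ∑ a ∈ range N, ∑' j : ℤ, f (j * N + a) := by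
    have hs : Summable fun p : ℤ × Fin N => f ((Int.divModEquiv N).symm p) :=
      (Equiv.summable_iff _).2 hfs
    rw [← (Int.divModEquiv N).symm.tsum_eq f, hs.tsum_prod,
      ← Summable.tsum_comm (f := fun j a => f ((Int.divModEquiv N).symm (j, a))) hs, tsum_fintype,
      ← Fin.sum_univ_eq_sum_range (fun a : ℕ => ∑' j : ℤ, f (j * N + a)) N]
    rfl
  have h2 : ∀ a : ℕ, ∑' j : ℤ, f (j * N + a) = 1 / (b * N ^ 2) ^ (1 / 2 : ℂ) * ∑' k : ℤ,
      c a * cexp (2 * π * I * (a * k / N)) * cexp (-π * (1 / (b * N ^ 2)) * (k : ℂ) ^ 2) := by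
    intro a
    have e1 : ∀ j : ℤ, f (j * N + a) = c a * cexp (-π * b * (a : ℂ) ^ 2) *
        cexp (-π * (b * N ^ 2) * (j : ℂ) ^ 2 + 2 * π * (-b * a * N) * j) := by
      intro j
      have : c (j * N + a) = c a := hc _ _ (by simp [Int.ModEq])
      simp only [hf]
      rw [this, mul_assoc (c a), ← Complex.exp_add]
      congr 2
      push_cast
      ring
    simp only [e1]
    rw [tsum_mul_left, Complex.tsum_exp_neg_quadratic hb2, mul_left_comm, ← tsum_mul_left]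
    congr 1
    refine tsum_congr fun k => ?_
    rw [mul_assoc (c a), mul_assoc (c a), ← Complex.exp_add, ← Complex.exp_add]
    congr 2
    field_simp
    linear_combination (-(b ^ 2 * (a : ℂ) ^ 2 * (N : ℂ) ^ 2)) * I_sq
  rw [h1]
  simp only [h2]
  rw [← mul_sum, ← Summable.tsum_finsetSum]
  · congr 1
    exact tsum_congr fun k => by rw [sum_mul]
  · intro a _
    refine Summable.of_norm_bounded ((summable_gauss_l hb1).mul_left ‖c a‖) fun k => ?_
    rw [norm_mul, norm_mul, lLGb_e, mul_one]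

/-- If `re (1 / b)` tends to infinity only the frequency zero survives: the other terms are bounded
by `K * ∑ k ≠ 0, exp (-π R k ^ 2) → 0` (`tendsto_tsum_of_dominated_convergence`). -/
theorem tendsto_periodic_gauss {N : ℕ} (hN : N ≠ 0) {c : ℤ → ℂ}
    (hc : ∀ a a', a ≡ a' [ZMOD N] → c a = c a') {b : ℝ → ℂ} {l : Filter ℝ}
    (hb : Filter.Tendsto (fun ε => (1 / b ε).re) l Filter.atTop) :
    Filter.Tendsto (fun ε => (b ε * N ^ 2) ^ (1 / 2 : ℂ) *
      ∑' m : ℤ, c m * cexp (-π * b ε * (m : ℂ) ^ 2)) l (nhds (∑ a ∈ range N, c a)) := by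
  have hN' : (N : ℂ) ≠ 0 := Nat.cast_ne_zero.2 hN
  have hNr : (0 : ℝ) < N := Nat.cast_pos.2 (Nat.pos_of_ne_zero hN)
  set K : ℝ := ∑ a ∈ range N, ‖c a‖ with hK
  have hK0 : 0 ≤ K := sum_nonneg fun _ _ => norm_nonneg _
  set S : ℤ → ℂ := fun k => ∑ a ∈ range N, c a * cexp (2 * π * I * (a * k / N)) with hS
  have hSK : ∀ k, ‖S k‖ ≤ K := fun k => (norm_sum_le _ _).trans (le_of_eq
    (sum_congr rfl fun a _ => by rw [norm_mul, lLGb_e, mul_one]))
  have hnorm : ∀ ε (k : ℤ), ‖S k * cexp (-π * (1 / (b ε * N ^ 2)) * (k : ℂ) ^ 2)‖ ≤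
      K * Real.exp (-π * ((1 / b ε).re / (N : ℝ) ^ 2) * (k : ℝ) ^ 2) := by
    intro ε k
    rw [norm_mul, lLGb_norm, lLGb_re]
    exact mul_le_mul_of_nonneg_right (hSK k) (Real.exp_pos _).le
  have hlim : Filter.Tendsto
      (fun ε => ∑' k : ℤ, S k * cexp (-π * (1 / (b ε * N ^ 2)) * (k : ℂ) ^ 2)) l
      (nhds (∑' k : ℤ, if k = 0 then ∑ a ∈ range N, c a else 0)) := by
    have hsum : Summable fun k : ℤ => K * Real.exp (-π * (1 / (N : ℝ) ^ 2) * (k : ℝ) ^ 2) := by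
      have := (summable_gauss_l (b := ((1 / (N : ℝ) ^ 2 : ℝ) : ℂ))
        (by rw [ofReal_re]; positivity)).mul_left K
      simpa only [lLGb_norm, ofReal_re] using this
    refine tendsto_tsum_of_dominated_convergence hsum (fun k => ?_) ?_
    · by_cases hk : k = 0
      · simpa [hk, hS] using tendsto_const_nhds
      · rw [if_neg hk]
        refine squeeze_zero_norm (fun ε => hnorm ε k) ?_
        rw [← mul_zero K]
        refine Filter.Tendsto.const_mul K (Real.tendsto_exp_atBot.comp ?_)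
        have hk' : (k : ℝ) ≠ 0 := Int.cast_ne_zero.2 hk
        have hneg : -π / (N : ℝ) ^ 2 * (k : ℝ) ^ 2 < 0 :=
          mul_neg_of_neg_of_pos (div_neg_of_neg_of_pos (neg_neg_of_pos Real.pi_pos)
            (by positivity)) (by positivity)
        refine (Filter.Tendsto.const_mul_atTop_of_neg hneg hb).congr fun ε => ?_
        ring
    · filter_upwards [hb.eventually_ge_atTop 1] with ε hε k
      refine (hnorm ε k).trans (mul_le_mul_of_nonneg_left (Real.exp_le_exp.2 ?_) hK0)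
      refine mul_le_mul_of_nonneg_right ?_ (sq_nonneg _)
      exact mul_le_mul_of_nonpos_left (div_le_div_of_nonneg_right hε (by positivity))
        (neg_nonpos.2 Real.pi_pos.le)
  rw [tsum_ite_eq] at hlim
  refine hlim.congr' ?_
  filter_upwards [hb.eventually_gt_atTop 0] with ε hε
  have hbe := lLGb_pos.1 hε
  have hb0 : b ε ≠ 0 := by
    intro h
    rw [h] at hbe
    simp at hbe
  have hne : (b ε * N ^ 2) ^ (1 / 2 : ℂ) ≠ 0 := by
    rw [Ne, cpow_eq_zero_iff, not_and_or]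
    exact Or.inl (mul_ne_zero hb0 (pow_ne_zero _ hN'))
  rw [tsum_periodic_gauss hN hc hbe, ← mul_assoc, mul_one_div_cancel hne, one_mul]

private theorem lLGb_cpow {ε : ℝ} (hε : 0 < ε) {z : ℂ} (hz : z ≠ 0) :
    (ε * z) ^ (1 / 2 : ℂ) = (ε : ℂ) ^ (1 / 2 : ℂ) * z ^ (1 / 2 : ℂ) := by
  have h0 : (ε : ℂ) ≠ 0 := ofReal_ne_zero.2 hε.ne'
  rw [cpow_def_of_ne_zero (mul_ne_zero h0 hz), cpow_def_of_ne_zero h0, cpow_def_of_ne_zero hz,
    log_ofReal_mul hε hz, ofReal_log hε.le, add_mul, Complex.exp_add]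

private theorem lLGb_per {q : ℂ} {N : ℕ} (hq : ∀ a t : ℤ, ∃ u : ℤ,
    q * ((a + N * t : ℤ) : ℂ) ^ 2 = q * (a : ℂ) ^ 2 + u * (2 * π * I)) (a a' : ℤ)
    (h : a ≡ a' [ZMOD N]) : cexp (q * (a : ℂ) ^ 2) = cexp (q * (a' : ℂ) ^ 2) := by
  obtain ⟨t, ht⟩ := h.dvd
  obtain ⟨u, hu⟩ := hq a t
  have : a' = a + N * t := by linarith
  rw [this, hu, Complex.exp_add, exp_int_mul_two_pi_mul_I, mul_one]

/-- Let `F ε = ∑' m, exp (-π A m ^ 2)`, `A = ε - 2 i / n`, `ε → 0+`. First, with `c m = exp (2 π i m ^ 2 / n)`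
of period `n` and `b = ε`: `(ε n ^ 2) ^ (1/2) F ε → S`. Second, `Complex.tsum_exp_neg_mul_int_sq`
gives `F ε = A ^ (-1/2) ∑' k, exp (-π k ^ 2 / A)` and `1 / A = i n / 2 + b'` with
`b' = -(i n ε / 2) / A`, `1 / b' = 2 i / n + 4 / (n ^ 2 ε)`; with `c k = exp (-π i n k ^ 2 / 2)` of
period `2`: `(4 b') ^ (1/2) ∑' → 1 + (-i) ^ n`. Finally `b' = ε β`, `β → n ^ 2 / 4`,
`(ε z) ^ (1/2) = ε ^ (1/2) z ^ (1/2)` for `ε > 0` (`Complex.real_smul`, `Complex.mul_cpow_ofReal_nonneg`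
or `Complex.cpow_def_of_ne_zero` with `Complex.log_ofReal_mul`), continuity of `cpow` on the slit
plane, and `(-2 i / n) ^ (1/2) = (1 - i) / √n` (it has positive real part and the right square). -/
theorem quad_gauss {n : ℕ} (hn : n ≠ 0) :
    ∑ a ∈ range n, cexp (2 * π * I * ((a : ℂ) ^ 2 / n)) =
      (1 + (-I) ^ n) * (1 + I) / 2 * (√n : ℝ) := by
  have hn' : (n : ℂ) ≠ 0 := Nat.cast_ne_zero.2 hn
  have hnr : (0 : ℝ) < n := Nat.cast_pos.2 (Nat.pos_of_ne_zero hn)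
  set A : ℝ → ℂ := fun ε => ε - 2 * I / n with hA
  set β : ℝ → ℂ := fun ε => -(I * n / 2) / A ε with hβ
  have hAre : ∀ ε, (A ε).re = ε := by
    intro ε
    simp [hA, div_natCast_re]
  have hAim : ∀ ε, (A ε).im ≠ 0 := by
    intro ε
    simp [hA, div_natCast_im, hn]
  have hA0 : ∀ ε, A ε ≠ 0 := by
    intro ε h
    exact hAim ε (by rw [h, zero_im])
  have hβ0 : ∀ ε, β ε ≠ 0 := fun ε =>
    div_ne_zero (neg_ne_zero.2 (div_ne_zero (mul_ne_zero I_ne_zero hn') two_ne_zero)) (hA0 ε)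
  have T1 := tendsto_periodic_gauss hn (c := fun m => cexp (2 * π * I / n * (m : ℂ) ^ 2))
    (lLGb_per fun a t => ⟨2 * a * t + n * t ^ 2, by
      push_cast
      field_simp
      ring⟩) (b := fun ε => (ε : ℂ)) (l := nhdsWithin 0 (Set.Ioi 0))
    (tendsto_inv_nhdsGT_zero.congr fun ε => by
      rw [one_div, ← ofReal_inv, ofReal_re])
  have T2 := tendsto_periodic_gauss two_ne_zero
    (c := fun m => cexp (-(π * I * n / 2) * (m : ℂ) ^ 2))
    (lLGb_per fun a t => ⟨-(n * (a * t + t ^ 2)), by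
      push_cast
      ring⟩) (b := fun ε => ε * β ε) (l := nhdsWithin 0 (Set.Ioi 0))
    ((tendsto_inv_nhdsGT_zero.const_mul_atTop (r := 4 / (n : ℝ) ^ 2) (by positivity)).congr' (by
      filter_upwards [self_mem_nhdsWithin] with ε hε
      have h0 : (ε : ℂ) ≠ 0 := ofReal_ne_zero.2 (ne_of_gt hε)
      have e : 1 / (ε * β ε) = ((4 / (n : ℝ) ^ 2 * ε⁻¹ : ℝ) : ℂ) + ((2 / n : ℝ) : ℂ) * I := by
        have := hA0 ε
        rw [div_eq_iff (mul_ne_zero h0 (hβ0 ε))]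
        simp only [hβ]
        push_cast
        field_simp
        simp only [hA]
        field_simp
        linear_combination (2 * (n : ℂ) * ε) * I_sq
      rw [e, add_re, ofReal_re, re_ofReal_mul, I_re, mul_zero, add_zero]))
  have hAc : Filter.Tendsto A (nhdsWithin 0 (Set.Ioi 0)) (nhds (A 0)) := by
    have : Continuous A := by
      simp only [hA]
      fun_prop
    exact this.continuousAt.tendsto.mono_left nhdsWithin_le_nhds
  have hβc : Filter.Tendsto (fun ε => β ε * 2 ^ 2) (nhdsWithin 0 (Set.Ioi 0))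
      (nhds ((n : ℂ) ^ 2)) := by
    have h1 : β 0 * 2 ^ 2 = (n : ℂ) ^ 2 := by
      simp only [hβ, hA]
      push_cast
      field_simp
      ring
    rw [← h1]
    exact (tendsto_const_nhds.div hAc (hA0 0)).mul_const _
  have hsl : (n : ℂ) ^ 2 ∈ slitPlane := by
    left
    rw [← ofReal_natCast, ← ofReal_pow, ofReal_re]
    positivity
  have hcp : ∀ z : ℂ, z ≠ 0 → z ^ (1 / 2 : ℂ) ≠ 0 := fun z hz => by
    rw [Ne, cpow_eq_zero_iff, not_and_or]
    exact Or.inl hz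
  have T3 := ((tendsto_const_nhds (x := ((n : ℂ) ^ 2) ^ (1 / 2 : ℂ))).div
    ((hAc.cpow (tendsto_const_nhds (x := (1 / 2 : ℂ))) (Or.inr (hAim 0))).mul
      (hβc.cpow (tendsto_const_nhds (x := (1 / 2 : ℂ))) hsl))
    (mul_ne_zero (hcp _ (hA0 0)) (hcp _ (pow_ne_zero _ hn')))).mul T2
  have hEq := tendsto_nhds_unique T1 (T3.congr' (by
    filter_upwards [self_mem_nhdsWithin] with ε hε
    have hε' : 0 < ε := hε
    have h0 : (ε : ℂ) ≠ 0 := ofReal_ne_zero.2 hε'.ne'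
    have e1 : ∑' m : ℤ, cexp (2 * π * I / n * (m : ℂ) ^ 2) * cexp (-π * ε * (m : ℂ) ^ 2) =
        ∑' m : ℤ, cexp (-π * A ε * (m : ℂ) ^ 2) := tsum_congr fun m => by
      rw [← Complex.exp_add]
      congr 1
      simp only [hA]
      ring
    have e2 : ∑' m : ℤ, cexp (-π / A ε * (m : ℂ) ^ 2) =
        ∑' m : ℤ, cexp (-(π * I * n / 2) * (m : ℂ) ^ 2) *
          cexp (-π * (ε * β ε) * (m : ℂ) ^ 2) := tsum_congr fun m => by
      rw [← Complex.exp_add]
      congr 1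
      have e3 : 1 / A ε = I * n / 2 + ε * β ε := by
        have := hA0 ε
        simp only [hβ]
        field_simp
        simp only [hA]
        field_simp
        linear_combination (2 : ℂ) * I_sq
      rw [div_eq_mul_one_div, e3]
      ring
    have h4 : β ε * 2 ^ 2 ≠ 0 := mul_ne_zero (hβ0 ε) (by norm_num)
    simp only [Pi.div_apply]
    rw [e1, Complex.tsum_exp_neg_mul_int_sq (by rw [hAre]; exact hε'), e2,
      lLGb_cpow hε' (pow_ne_zero _ hn'), Nat.cast_ofNat, mul_assoc (ε : ℂ), lLGb_cpow hε' h4]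
    have h5 := hcp _ h4
    have h6 := hcp _ (hA0 ε)
    generalize (β ε * 2 ^ 2) ^ (1 / 2 : ℂ) = u at h5 ⊢
    generalize A ε ^ (1 / 2 : ℂ) = v at h6 ⊢
    generalize ∑' m : ℤ, cexp (-(π * I * n / 2) * (m : ℂ) ^ 2) *
      cexp (-π * (ε * β ε) * (m : ℂ) ^ 2) = w
    field_simp))
  have hs0 : ((√n : ℝ) : ℂ) ≠ 0 := ofReal_ne_zero.2 (Real.sqrt_pos.2 hnr).ne'
  have hs2 : ((√n : ℝ) : ℂ) ^ 2 = n := by
    rw [← ofReal_pow, Real.sq_sqrt hnr.le, ofReal_natCast]
  have hroot : A 0 ^ (1 / 2 : ℂ) = (1 - I) / (√n : ℝ) := by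
    have h1 : A 0 = ((1 - I) / (√n : ℝ)) ^ 2 := by
      rw [div_pow, hs2]
      simp only [hA]
      push_cast
      field_simp
      linear_combination (-1 : ℂ) * I_sq
    rw [h1, one_div]
    refine sq_cpow_two_inv ?_
    rw [div_ofReal_re]
    exact div_pos (by simp) (Real.sqrt_pos.2 hnr)
  have hexp : cexp (-(π * I * n / 2)) = (-I) ^ n := by
    rw [← exp_neg_pi_div_two_mul_I, ← Complex.exp_nat_mul]
    congr 1
    ring
  have hI : (1 : ℂ) - I ≠ 0 := by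
    intro h
    have := congrArg Complex.re h
    simp at this
  have hL : ∑ a ∈ range n, cexp (2 * π * I * ((a : ℂ) ^ 2 / n)) =
      ∑ a ∈ range n, cexp (2 * π * I / n * (((a : ℤ) : ℂ)) ^ 2) :=
    sum_congr rfl fun a _ => by
      congr 1
      push_cast
      ring
  rw [hL, hEq, hroot, sum_range_succ, sum_range_one]
  have := hcp _ (pow_ne_zero 2 hn')
  simp only [Nat.cast_zero, Int.cast_zero, Nat.cast_one, Int.cast_one, one_pow, mul_one, hexp,
    ne_eq, OfNat.ofNat_ne_zero, not_false_eq_true, zero_pow, mul_zero, Complex.exp_zero]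
  field_simp
  linear_combination ((1 + (-I) ^ n)) * I_sq

end Pool.Agent.Lib.MP_03e5d0_nt
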