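import Pool.Agent.Lib.MP_03e5d0_nt.LDef

/-! Arithmetic functions of two variables: pairing with test functions and convolution. -/

set_option autoImplicit false

noncomputable section

namespace Pool.Agent.Lib.MP_03e5d0_nt

open Complex Finset MeasureTheory
open scoped NumberTheorySymbols Real ContDiff

/-- Finitely supported test functions. -/
def Fs (Ω : ℕ × ℕ → ℂ) : Prop := ∃ N : ℕ, ∀ n : ℕ × ℕ, N ≤ n.1 ∨ N ≤ n.2 → Ω n = 0

/-- Vanishing on the axes. -/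
def Z2 (a : ℕ × ℕ → ℝ) : Prop := ∀ n : ℕ × ℕ, n.1 = 0 ∨ n.2 = 0 → a n = 0

/-- The pairing. -/
def pr2 (a : ℕ × ℕ → ℝ) (Ω : ℕ × ℕ → ℂ) : ℂ := ∑' n, (a n : ℂ) * Ω n

/-- The action on test functions. -/
def TT2 (α β : ℕ) (F : ArithmeticFunction ℝ) (Ω : ℕ × ℕ → ℂ) (n : ℕ × ℕ) : ℂ :=
  ∑' d : ℕ, (F d : ℂ) * Ω (n.1 * d ^ α, n.2 * d ^ β)

/-- The action on coefficients. -/
def UU (α β : ℕ) (F : ArithmeticFunction ℝ) (a : ℕ × ℕ → ℝ) (n : ℕ × ℕ) : ℝ :=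
  ∑ d ∈ (n.1 * n.2).divisors,
    if d ^ α ∣ n.1 ∧ d ^ β ∣ n.2 then F d * a (n.1 / d ^ α, n.2 / d ^ β) else 0

section dvd

variable {E : Type} [NormedAddCommGroup E] {s : ℕ × ℕ}

theorem lm_inj (h1 : s.1 ≠ 0) (h2 : s.2 ≠ 0) :
    Function.Injective fun m : ℕ × ℕ => (m.1 * s.1, m.2 * s.2) := by
  intro m m' h
  simp only [Prod.mk.injEq] at h
  exact Prod.ext (Nat.eq_of_mul_eq_mul_right (Nat.pos_of_ne_zero h1) h.1)
    (Nat.eq_of_mul_eq_mul_right (Nat.pos_of_ne_zero h2) h.2)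

theorem lm_range (g : ℕ × ℕ → ℕ × ℕ → E) : ∀ n ∉ Set.range fun m : ℕ × ℕ => (m.1 * s.1, m.2 * s.2),
    (if s.1 ∣ n.1 ∧ s.2 ∣ n.2 then g (n.1 / s.1, n.2 / s.2) n else 0) = 0 := by
  intro n hn
  rw [if_neg]
  rintro ⟨⟨a, ha⟩, ⟨b, hb⟩⟩
  exact hn ⟨(a, b), Prod.ext (by simp [ha, mul_comm]) (by simp [hb, mul_comm])⟩

theorem tsum_dvd (h1 : s.1 ≠ 0) (h2 : s.2 ≠ 0) (g : ℕ × ℕ → ℕ × ℕ → E) :
    ∑' n : ℕ × ℕ, (if s.1 ∣ n.1 ∧ s.2 ∣ n.2 then g (n.1 / s.1, n.2 / s.2) n else 0) =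
      ∑' m : ℕ × ℕ, g m (m.1 * s.1, m.2 * s.2) := by
  rw [← (lm_inj h1 h2).tsum_eq (f := fun n : ℕ × ℕ =>
    if s.1 ∣ n.1 ∧ s.2 ∣ n.2 then g (n.1 / s.1, n.2 / s.2) n else 0)
    fun n hn => by_contra fun h => hn (lm_range g n h)]
  refine tsum_congr fun m => ?_
  simp [Nat.mul_div_cancel _ (Nat.pos_of_ne_zero h1), Nat.mul_div_cancel _ (Nat.pos_of_ne_zero h2)]

theorem summable_dvd (h1 : s.1 ≠ 0) (h2 : s.2 ≠ 0) {g : ℕ × ℕ → E} (hg : Summable g) :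
    Summable fun n : ℕ × ℕ => if s.1 ∣ n.1 ∧ s.2 ∣ n.2 then g (n.1 / s.1, n.2 / s.2) else 0 := by
  rw [← (lm_inj h1 h2).summable_iff (lm_range fun m _ => g m)]
  refine hg.congr fun m => ?_
  simp [Nat.mul_div_cancel _ (Nat.pos_of_ne_zero h1), Nat.mul_div_cancel _ (Nat.pos_of_ne_zero h2)]

end dvd

variable {α β : ℕ} {F G : ArithmeticFunction ℝ} {a : ℕ × ℕ → ℝ} {Ω Ω' : ℕ × ℕ → ℂ}

theorem Fs.summable (h : Fs Ω) (f : ℕ × ℕ → ℂ) : Summable fun n => f n * Ω n := by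
  obtain ⟨N, hN⟩ := h
  refine summable_of_ne_finset_zero (s := range N ×ˢ range N) fun n hn => ?_
  rw [hN n (by simpa only [mem_product, mem_range, not_and_or, not_lt] using hn), mul_zero]

theorem Fs.comp (h : Fs Ω) {s : ℕ × ℕ} (h1 : s.1 ≠ 0) (h2 : s.2 ≠ 0) :
    Fs fun m => Ω (m.1 * s.1, m.2 * s.2) := by
  obtain ⟨N, hN⟩ := h
  refine ⟨N, fun n hn => hN _ (hn.imp (fun h => ?_) fun h => ?_)⟩
  · exact h.trans (Nat.le_mul_of_pos_right _ (Nat.pos_of_ne_zero h1))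
  · exact h.trans (Nat.le_mul_of_pos_right _ (Nat.pos_of_ne_zero h2))

theorem Fs.tt (h : Fs Ω) (α β : ℕ) (F : ArithmeticFunction ℝ) : Fs (TT2 α β F Ω) := by
  obtain ⟨N, hN⟩ := h
  refine ⟨N, fun n hn => ?_⟩
  rw [TT2, ← tsum_zero (β := ℕ) (L := SummationFilter.unconditional ℕ)]
  refine tsum_congr fun d => ?_
  rcases Nat.eq_zero_or_pos d with rfl | hd
  · simp
  · rw [hN _ (hn.imp (fun h => h.trans (Nat.le_mul_of_pos_right _ (pow_pos hd _)))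
      fun h => h.trans (Nat.le_mul_of_pos_right _ (pow_pos hd _))), mul_zero]

theorem pr2_congr (ha : Z2 a) (h : ∀ n : ℕ × ℕ, n.1 ≠ 0 → n.2 ≠ 0 → Ω n = Ω' n) :
    pr2 a Ω = pr2 a Ω' := by
  refine tsum_congr fun n => ?_
  by_cases h0 : n.1 = 0 ∨ n.2 = 0
  · simp [ha n h0]
  · rw [not_or] at h0
    rw [h n h0.1 h0.2]

theorem lm_big (hαβ : α + β ≠ 0) {N : ℕ} (hN : ∀ n : ℕ × ℕ, N ≤ n.1 ∨ N ≤ n.2 → Ω n = 0)
    {n : ℕ × ℕ} (h1 : n.1 ≠ 0) (h2 : n.2 ≠ 0) {d : ℕ} (hd : N ≤ d) :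
    Ω (n.1 * d ^ α, n.2 * d ^ β) = 0 := by
  refine hN _ ?_
  by_cases hα : α = 0
  · exact Or.inr (hd.trans ((Nat.le_self_pow (by omega) d).trans
      (Nat.le_mul_of_pos_left _ (Nat.pos_of_ne_zero h2))))
  · exact Or.inl (hd.trans ((Nat.le_self_pow hα d).trans
      (Nat.le_mul_of_pos_left _ (Nat.pos_of_ne_zero h1))))

theorem Z2.uu (α β : ℕ) (F : ArithmeticFunction ℝ) (a : ℕ × ℕ → ℝ) : Z2 (UU α β F a) := by
  intro n hn
  have : n.1 * n.2 = 0 := mul_eq_zero.2 hn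
  simp [UU, this]

theorem UU_eq (hαβ : α + β ≠ 0) (ha : Z2 a) (n : ℕ × ℕ) {M : ℕ} (hM : n.1 * n.2 < M) :
    UU α β F a n = ∑ d ∈ range M,
      if d ^ α ∣ n.1 ∧ d ^ β ∣ n.2 then F d * a (n.1 / d ^ α, n.2 / d ^ β) else 0 := by
  refine sum_subset (fun d hd => mem_range.2 ((Nat.divisor_le hd).trans_lt hM)) fun d _ hd => ?_
  split_ifs with h
  · by_cases h0 : n.1 * n.2 = 0
    · rw [ha _ ((mul_eq_zero.1 h0).imp (fun h => by simp [h]) fun h => by simp [h]), mul_zero]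
    · exfalso
      refine hd (Nat.mem_divisors.2 ⟨?_, h0⟩)
      have := mul_dvd_mul h.1 h.2
      rw [← pow_add] at this
      exact (dvd_pow_self d hαβ).trans this
  · rfl

theorem pr2_UU (hαβ : α + β ≠ 0) (ha : Z2 a) (h : Fs Ω) :
    pr2 (UU α β F a) Ω = pr2 a (TT2 α β F Ω) := by
  obtain ⟨N, hN⟩ := id h
  have e1 : pr2 (UU α β F a) Ω = ∑' n : ℕ × ℕ, ∑ d ∈ range (N * N + N),
      ((if d ^ α ∣ n.1 ∧ d ^ β ∣ n.2 then F d * a (n.1 / d ^ α, n.2 / d ^ β) else 0 : ℝ) : ℂ) *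
        Ω n := by
    refine tsum_congr fun n => ?_
    by_cases hn : N ≤ n.1 ∨ N ≤ n.2
    · simp [hN n hn]
    · rw [not_or, not_le, not_le] at hn
      rw [UU_eq hαβ ha n (M := N * N + N) (by nlinarith [hn.1, hn.2]), ofReal_sum, sum_mul]
  have e2 : pr2 a (TT2 α β F Ω) = ∑' m : ℕ × ℕ, ∑ d ∈ range (N * N + N),
      (a m : ℂ) * ((F d : ℂ) * Ω (m.1 * d ^ α, m.2 * d ^ β)) := by
    refine tsum_congr fun m => ?_
    by_cases h0 : m.1 = 0 ∨ m.2 = 0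
    · simp [ha m h0]
    · rw [not_or] at h0
      rw [TT2, tsum_eq_sum (s := range (N * N + N)), mul_sum]
      intro d hd
      rw [lm_big hαβ hN h0.1 h0.2 (by rw [mem_range] at hd; omega), mul_zero]
  have s2 : ∀ d : ℕ, Summable fun m : ℕ × ℕ =>
      (a m : ℂ) * ((F d : ℂ) * Ω (m.1 * d ^ α, m.2 * d ^ β)) := fun d => by
    rcases Nat.eq_zero_or_pos d with rfl | hd
    · simpa using summable_zero
    · simpa only [mul_assoc] using (h.comp (s := (d ^ α, d ^ β)) (pow_pos hd _).ne'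
        (pow_pos hd _).ne').summable fun m => (a m : ℂ) * F d
  rw [e1, e2, Summable.tsum_finsetSum fun d _ => h.summable _,
    Summable.tsum_finsetSum fun d _ => s2 d]
  refine sum_congr rfl fun d _ => ?_
  rcases Nat.eq_zero_or_pos d with rfl | hd
  · simp
  · rw [← tsum_dvd (s := (d ^ α, d ^ β)) (pow_pos hd _).ne' (pow_pos hd _).ne'
      fun m n => (a m : ℂ) * ((F d : ℂ) * Ω n)]
    refine tsum_congr fun n => ?_
    split_ifs
    · push_cast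
      ring
    · simp

theorem conv_tsum (F G : ArithmeticFunction ℝ) {φ : ℕ → ℂ} {N : ℕ} (h : ∀ d, N ≤ d → φ d = 0) :
    ∑' d : ℕ, (F d : ℂ) * ∑' e : ℕ, (G e : ℂ) * φ (d * e) = ∑' c : ℕ, ((F * G) c : ℂ) * φ c := by
  have e1 : ∑' d : ℕ, (F d : ℂ) * ∑' e : ℕ, (G e : ℂ) * φ (d * e) =
      ∑ x ∈ range N ×ˢ range N, (F x.1 : ℂ) * (G x.2 : ℂ) * φ (x.1 * x.2) := by
    rw [tsum_eq_sum (s := range N), sum_product]
    · refine sum_congr rfl fun d _ => ?_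
      rcases Nat.eq_zero_or_pos d with rfl | hd
      · simp
      · rw [tsum_eq_sum (s := range N), mul_sum]
        · exact sum_congr rfl fun e _ => (mul_assoc _ _ _).symm
        · intro e he
          rw [h _ ((not_lt.1 (mt mem_range.2 he)).trans (Nat.le_mul_of_pos_left _ hd)), mul_zero]
    · intro d hd
      have : ∀ e : ℕ, (G e : ℂ) * φ (d * e) = 0 := fun e => by
        rcases Nat.eq_zero_or_pos e with rfl | he
        · simp
        · rw [h _ ((not_lt.1 (mt mem_range.2 hd)).trans (Nat.le_mul_of_pos_right _ he)), mul_zero]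
      simp [this]
  rw [e1, tsum_eq_sum (s := range N) fun c hc => by
    rw [h _ (not_lt.1 (mt mem_range.2 hc)), mul_zero]]
  rw [← sum_filter_of_ne (p := fun x : ℕ × ℕ => x.1 * x.2 ∈ range N) fun x _ hx => by
    by_contra hc
    exact hx (by rw [h _ (not_lt.1 (mt mem_range.2 hc)), mul_zero])]
  rw [← sum_fiberwise_of_maps_to (g := fun x : ℕ × ℕ => x.1 * x.2) (t := range N)
    fun x hx => (mem_filter.1 hx).2]
  refine sum_congr rfl fun c hc => ?_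
  rw [ArithmeticFunction.mul_apply, ofReal_sum, sum_mul]
  symm
  refine sum_subset_zero_on_sdiff (fun x hx => ?_) (fun x hx => ?_) fun x hx => ?_
  · obtain ⟨e, h0⟩ := Nat.mem_divisorsAntidiagonal.1 hx
    have hc' := mem_range.1 hc
    have h1 : x.1 ≤ c := e ▸ Nat.le_mul_of_pos_right _ (Nat.pos_of_ne_zero fun h => h0 (by simp [← e, h]))
    have h2 : x.2 ≤ c := e ▸ Nat.le_mul_of_pos_left _ (Nat.pos_of_ne_zero fun h => h0 (by simp [← e, h]))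
    simp only [mem_filter, mem_product, mem_range, e]
    exact ⟨⟨⟨h1.trans_lt hc', h2.trans_lt hc'⟩, hc'⟩, trivial⟩
  · obtain ⟨h1, h2⟩ := mem_sdiff.1 hx
    have e := (mem_filter.1 h1).2
    have h0 : x.1 * x.2 = 0 := by
      by_contra h0
      exact h2 (Nat.mem_divisorsAntidiagonal.2 ⟨e, e ▸ h0⟩)
    rcases mul_eq_zero.1 h0 with h3 | h3 <;> simp [h3]
  · rw [(Nat.mem_divisorsAntidiagonal.1 hx).1]
    push_cast
    rfl

theorem TT_inv (hαβ : α + β ≠ 0) (hFG : F * G = 1) (h : Fs Ω) {n : ℕ × ℕ} (h1 : n.1 ≠ 0)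
    (h2 : n.2 ≠ 0) : TT2 α β F (TT2 α β G Ω) n = Ω n := by
  obtain ⟨N, hN⟩ := h
  have e := conv_tsum F G (φ := fun d => Ω (n.1 * d ^ α, n.2 * d ^ β)) (N := N)
    fun d hd => lm_big hαβ hN h1 h2 hd
  have e2 : ∑' c : ℕ, (((1 : ArithmeticFunction ℝ) c : ℝ) : ℂ) * Ω (n.1 * c ^ α, n.2 * c ^ β) =
      Ω n := by
    rw [tsum_eq_single 1 fun c hc => by simp [ArithmeticFunction.one_apply_ne hc]]
    simp
  rw [← e2, ← hFG, ← e]
  simp only [TT2, mul_pow, mul_assoc]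

theorem pr2_inv (hαβ : α + β ≠ 0) (hFG : F * G = 1) (ha : Z2 a) (h : Fs Ω) :
    pr2 a Ω = pr2 (UU α β F a) (TT2 α β G Ω) := by
  rw [pr2_UU hαβ ha (h.tt α β G)]
  exact pr2_congr ha fun n h1 h2 => (TT_inv hαβ hFG h h1 h2).symm

end Pool.Agent.Lib.MP_03e5d0_nt
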