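import Pool.Agent.Lib.MP_03e5d0_nt.LM2

/-! Multiplicative functions of two variables: local values, majorants and their mass. -/

set_option autoImplicit false

noncomputable section

namespace Pool.Agent.Lib.MP_03e5d0_nt

open Complex Finset MeasureTheory
open scoped NumberTheorySymbols Real ContDiff

/-- Multiplicative functions of two variables. -/
structure Mul2 (a : ℕ × ℕ → ℝ) : Prop where
  one : a (1, 1) = 1
  zero : Z2 a
  mul : ∀ n m : ℕ × ℕ, (n.1 * n.2).Coprime (m.1 * m.2) → a (n.1 * m.1, n.2 * m.2) = a n * a m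

/-- The local values. -/
def lv (a : ℕ × ℕ → ℝ) (p i j : ℕ) : ℝ := a (p ^ i, p ^ j)

variable {α β : ℕ} {F : ArithmeticFunction ℝ} {a : ℕ × ℕ → ℝ}

theorem sum_divisors_coprime {m n : ℕ} (h : m.Coprime n) (f : ℕ → ℝ) :
    ∑ d ∈ (m * n).divisors, f d = ∑ d ∈ m.divisors, ∑ e ∈ n.divisors, f (d * e) := by
  rw [Nat.divisors_mul, Finset.mul_def, sum_image h.mul_injOn_divisors, sum_product]

theorem lm_pow_dvd {d e n m γ : ℕ} (h1 : d.Coprime m) (h2 : e.Coprime n) :
    (d * e) ^ γ ∣ n * m ↔ d ^ γ ∣ n ∧ e ^ γ ∣ m := by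
  rw [mul_pow]
  refine ⟨fun h => ⟨?_, ?_⟩, fun h => mul_dvd_mul h.1 h.2⟩
  · exact (h1.pow_left γ).dvd_of_dvd_mul_right ((dvd_mul_right _ _).trans h)
  · exact (h2.pow_left γ).dvd_of_dvd_mul_left ((dvd_mul_left _ _).trans h)

theorem Mul2.uu (ha : Mul2 a) (hF : F.IsMultiplicative) : Mul2 (UU α β F a) := by
  refine ⟨by simp [UU, hF.1, ha.one], Z2.uu α β F a, fun n m h => ?_⟩
  have e : n.1 * m.1 * (n.2 * m.2) = n.1 * n.2 * (m.1 * m.2) := by ring
  simp only [UU]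
  rw [e, sum_divisors_coprime h, sum_mul_sum]
  refine sum_congr rfl fun d hd => sum_congr rfl fun e he => ?_
  have hd' := Nat.dvd_of_mem_divisors hd
  have he' := Nat.dvd_of_mem_divisors he
  have c1 : d.Coprime (m.1 * m.2) := h.coprime_dvd_left hd'
  have c2 : e.Coprime (n.1 * n.2) := h.symm.coprime_dvd_left he'
  simp only [lm_pow_dvd c1.coprime_mul_right_right c2.coprime_mul_right_right,
    lm_pow_dvd c1.coprime_mul_left_right c2.coprime_mul_left_right]
  by_cases h1 : d ^ α ∣ n.1 ∧ d ^ β ∣ n.2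
  · by_cases h2 : e ^ α ∣ m.1 ∧ e ^ β ∣ m.2
    · rw [if_pos ⟨⟨h1.1, h2.1⟩, h1.2, h2.2⟩, if_pos h1, if_pos h2, mul_pow, mul_pow,
        ← Nat.div_mul_div_comm h1.1 h2.1, ← Nat.div_mul_div_comm h1.2 h2.2,
        hF.map_mul_of_coprime (c1.coprime_dvd_right he')]
      have := ha.mul (n.1 / d ^ α, n.2 / d ^ β) (m.1 / e ^ α, m.2 / e ^ β)
        ((h.coprime_dvd_left (mul_dvd_mul (Nat.div_dvd_of_dvd h1.1)
          (Nat.div_dvd_of_dvd h1.2))).coprime_dvd_right
          (mul_dvd_mul (Nat.div_dvd_of_dvd h2.1) (Nat.div_dvd_of_dvd h2.2)))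
      simp only at this
      rw [this]
      ring
    · rw [if_neg fun h => h2 ⟨h.1.2, h.2.2⟩, if_neg h2, mul_zero]
  · rw [if_neg fun h => h1 ⟨h.1.1, h.2.1⟩, if_neg h1, zero_mul]

theorem lv_UU {p : ℕ} (hp : p.Prime) (α β : ℕ) (F : ArithmeticFunction ℝ) (a : ℕ × ℕ → ℝ)
    (i j : ℕ) : lv (UU α β F a) p i j = ∑ e ∈ range (i + j + 1),
      if e * α ≤ i ∧ e * β ≤ j then F (p ^ e) * lv a p (i - e * α) (j - e * β) else 0 := by
  simp only [lv, UU]
  rw [← pow_add, Nat.sum_divisors_prime_pow hp]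
  refine sum_congr rfl fun e _ => ?_
  simp only [← pow_mul, Nat.pow_dvd_pow_iff_le_right hp.one_lt]
  split_ifs with h
  · rw [Nat.pow_div h.1 hp.pos, Nat.pow_div h.2 hp.pos]
  · rfl

/-- Size and degree of the local factor. -/
structure LB (p : ℕ) (a : ℕ × ℕ → ℝ) (A : ℝ) (d : ℕ) : Prop where
  bd : ∀ i j, |lv a p i j| ≤ A * (√p)⁻¹ ^ (i + j)
  deg : ∀ i j, d < i + j → lv a p i j = 0

/-- The same for a function of one variable placed in degree `γ`. -/
structure LB1 (p : ℕ) (F : ArithmeticFunction ℝ) (γ : ℕ) : Prop where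
  bd : ∀ e, |F (p ^ e)| ≤ 4 * (√p)⁻¹ ^ (e * γ)
  deg : ∀ e, 2 < e * γ → F (p ^ e) = 0

theorem LB.uu {p : ℕ} (hp : p.Prime) {A : ℝ} {d : ℕ} (ha : LB p a A d) (hαβ : α + β ≠ 0)
    (hF : LB1 p F (α + β)) : LB p (UU α β F a) (12 * A) (d + 2) := by
  have hA : 0 ≤ A := by simpa using (abs_nonneg _).trans (ha.bd 0 0)
  refine ⟨fun i j => ?_, fun i j h => ?_⟩
  · rw [lv_UU hp]
    have hc : 0 ≤ 4 * A * (√p)⁻¹ ^ (i + j) := by positivity
    refine (abs_sum_le_sum_abs _ _).trans (le_trans (sum_le_sum (g := fun e =>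
      if e ∈ range 3 then 4 * A * (√p)⁻¹ ^ (i + j) else 0) fun e _ => ?_) ?_)
    · split_ifs with h1 h2 h2
      · rw [abs_mul]
        refine (mul_le_mul (hF.bd e) (ha.bd _ _) (abs_nonneg _) (by positivity)).trans_eq ?_
        rw [show i + j = e * (α + β) + (i - e * α + (j - e * β)) by rw [mul_add]; omega, pow_add]
        ring
      · have h3 : 3 ≤ e := not_lt.1 (mt mem_range.2 h2)
        have h4 : e * 1 ≤ e * (α + β) := Nat.mul_le_mul_left _ (Nat.pos_of_ne_zero hαβ)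
        rw [hF.deg e (by omega)]
        simp
      · simpa using hc
      · simp
    · rw [sum_ite_mem, sum_const, nsmul_eq_mul]
      have : ((range (i + j + 1) ∩ range 3).card : ℝ) ≤ 3 := by
        exact_mod_cast (card_le_card inter_subset_right).trans_eq (card_range 3)
      nlinarith
  · rw [lv_UU hp]
    refine sum_eq_zero fun e _ => ?_
    split_ifs with h1
    · by_cases h2 : 2 < e * (α + β)
      · rw [hF.deg e h2, zero_mul]
      · rw [ha.deg _ _ (by rw [mul_add] at h2; omega), mul_zero]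
    · rfl

/-- The multiplicative function with given local values. -/
def mkW (W : ℕ → ℕ → ℝ) (n : ℕ) : ℝ := n.factorization.prod W

theorem mkW_one (W : ℕ → ℕ → ℝ) : mkW W 1 = 1 := by simp [mkW]

theorem mkW_mul (W : ℕ → ℕ → ℝ) {m n : ℕ} (h : m.Coprime n) :
    mkW W (m * n) = mkW W m * mkW W n := by
  rw [mkW, Nat.factorization_mul_of_coprime h, Finsupp.prod_add_index_of_disjoint]
  · rfl
  · simpa using h.disjoint_primeFactors

theorem mkW_pow {W : ℕ → ℕ → ℝ} {p : ℕ} (hp : p.Prime) (h : W p 0 = 1) (k : ℕ) :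
    mkW W (p ^ k) = W p k := by
  rw [mkW, hp.factorization_pow, Finsupp.prod_single_index h]

theorem mkW_nonneg {W : ℕ → ℕ → ℝ} (h : ∀ p s, 0 ≤ W p s) (n : ℕ) : 0 ≤ mkW W n := by
  unfold mkW Finsupp.prod
  exact prod_nonneg fun _ _ => h _ _

theorem Mul2.abs_le (ha : Mul2 a) {W : ℕ → ℕ → ℝ} (h0 : ∀ p s, 0 ≤ W p s) (h1 : ∀ p, W p 0 = 1)
    (h : ∀ p, p.Prime → ∀ i j, |lv a p i j| ≤ W p (i + j)) (n : ℕ) :
    ∀ r : ℕ × ℕ, r.1 * r.2 = n → |a r| ≤ mkW W n := by
  induction n using Nat.recOnPrimePow with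
  | zero =>
    intro r hr
    rw [ha.zero r (mul_eq_zero.1 hr), abs_zero]
    exact mkW_nonneg h0 _
  | one =>
    rintro ⟨r1, r2⟩ hr
    obtain ⟨rfl, rfl⟩ := mul_eq_one.1 hr
    rw [ha.one, mkW_one, abs_one]
  | prime_pow_mul b p k hp hb hk ih =>
    rintro ⟨r1, r2⟩ hr
    have hb0 : b ≠ 0 := fun e => hb (e ▸ dvd_zero p)
    have hn : r1 * r2 ≠ 0 := hr ▸ mul_ne_zero (pow_pos hp.pos _).ne' hb0
    obtain ⟨i, s1, e1, rfl⟩ := Nat.exists_eq_pow_mul_and_not_dvd (left_ne_zero_of_mul hn) p hp.ne_one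
    obtain ⟨j, s2, e2, rfl⟩ := Nat.exists_eq_pow_mul_and_not_dvd (right_ne_zero_of_mul hn) p hp.ne_one
    have e3 : ¬p ∣ s1 * s2 := hp.not_dvd_mul e1 e2
    have hs0 : s1 * s2 ≠ 0 := fun e => e3 (e ▸ dvd_zero p)
    have e4 : p ^ (i + j) * (s1 * s2) = p ^ k * b := by
      rw [← hr]
      ring
    have e5 : i + j = k := by
      have := congrArg (fun n => n.factorization p) e4
      simpa [Nat.factorization_mul (pow_pos hp.pos _).ne', hs0, hb0, hp.factorization_pow,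
        Nat.factorization_eq_zero_of_not_dvd e3, Nat.factorization_eq_zero_of_not_dvd hb] using this
    subst e5
    have e6 : s1 * s2 = b := Nat.eq_of_mul_eq_mul_left (pow_pos hp.pos _) e4
    have c : (p ^ (i + j)).Coprime b := ((Nat.Prime.coprime_iff_not_dvd hp).2 hb).pow_left _
    rw [mkW_mul W c, mkW_pow hp (h1 p),
      ha.mul (p ^ i, p ^ j) (s1, s2) (by simpa only [← pow_add, e6] using c), abs_mul]
    exact mul_le_mul (h p hp i j) (ih (s1, s2) e6) (abs_nonneg _) (h0 _ _)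

theorem mass2 {W : ℕ → ℕ → ℝ} (h0 : ∀ p s, 0 ≤ W p s) (h1 : ∀ p, W p 0 = 1)
    (h2 : ∀ p s, 12 < s → W p s = 0) {u : ℕ → ℝ} (hu : ∀ p s, s ≠ 0 → W p s ≤ u p) {K : ℝ}
    (hK : ∀ M : ℕ, ∏ p ∈ M.primesBelow, (1 + 156 * u p) ≤ K) :
    Summable (fun r : ℕ × ℕ => if r.1 * r.2 = 0 then 0 else mkW W (r.1 * r.2)) ∧
      ∑' r : ℕ × ℕ, (if r.1 * r.2 = 0 then 0 else mkW W (r.1 * r.2)) ≤ K := by
  obtain ⟨f, hf⟩ : ∃ f : ℕ → ℝ, f = fun n => n.divisors.card * mkW W n := ⟨_, rfl⟩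
  have f0 : ∀ n, 0 ≤ f n := fun n => hf ▸ mul_nonneg (Nat.cast_nonneg _) (mkW_nonneg h0 n)
  have fp : ∀ p, p.Prime → ∀ s, f (p ^ s) = (s + 1) * W p s := fun p hp s => by
    simp [hf, mkW_pow hp (h1 p), Nat.divisors_prime_pow hp]
  have fz : ∀ p, p.Prime → ∀ s ∉ range 13, f (p ^ s) = 0 := fun p hp s hs => by
    rw [fp p hp, h2 p s (by rw [mem_range] at hs; omega), mul_zero]
  have key : ∀ M : ℕ, ∑ n ∈ range M, f n ≤ K := fun M => by
    obtain ⟨s1, s2⟩ := EulerProduct.summable_and_hasSum_smoothNumbers_prod_primesBelow_tsum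
      (f := f) (by simp [hf, mkW_one]) (fun {m n} h => by
        simp only [hf, h.card_divisors_mul, mkW_mul W h]
        push_cast
        ring) (fun {p} hp => summable_of_ne_finset_zero (s := range 13) fun s hs => by
          rw [fz p hp s hs, norm_zero]) M
    have s3 := (hasSum_subtype_iff_indicator (f := f) (s := M.smoothNumbers)).1 s2
    refine le_trans ?_ ((sum_le_hasSum (range M) (fun n _ => Set.indicator_nonneg
      (fun n _ => f0 n) n) s3).trans (le_trans ?_ (hK M)))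
    · refine sum_le_sum fun n hn => ?_
      rcases Nat.eq_zero_or_pos n with rfl | hn0
      · exact le_of_eq_of_le (by simp [hf]) (Set.indicator_nonneg (fun n _ => f0 n) 0)
      · rw [Set.indicator_of_mem (Nat.mem_smoothNumbers_of_lt hn0 (mem_range.1 hn))]
    · refine prod_le_prod (fun p _ => tsum_nonneg fun s => f0 _) fun p hp => ?_
      have hp' := Nat.prime_of_mem_primesBelow hp
      rw [tsum_eq_sum (fz p hp'), sum_range_succ', fp p hp' 0, h1]
      have : ∑ s ∈ range 12, f (p ^ (s + 1)) ≤ ∑ _s ∈ range 12, 13 * u p := by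
        refine sum_le_sum fun s hs => ?_
        rw [fp p hp']
        have h3 : ((s + 1 : ℕ) : ℝ) + 1 ≤ 13 := by
          have := mem_range.1 hs
          exact_mod_cast (by omega : s + 1 + 1 ≤ 13)
        exact mul_le_mul h3 (hu p _ (by omega)) (h0 _ _) (by norm_num)
      rw [sum_const, card_range, nsmul_eq_mul] at this
      push_cast at this ⊢
      linarith
  have g0 : ∀ r : ℕ × ℕ, 0 ≤ (if r.1 * r.2 = 0 then 0 else mkW W (r.1 * r.2)) := fun r => by
    split_ifs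
    · exact le_rfl
    · exact mkW_nonneg h0 _
  have key2 : ∀ S : Finset (ℕ × ℕ),
      ∑ r ∈ S, (if r.1 * r.2 = 0 then 0 else mkW W (r.1 * r.2)) ≤ K := fun S => by
    refine le_trans ?_ (key (S.sup (fun r => r.1 * r.2) + 1))
    rw [← sum_fiberwise_of_maps_to (g := fun r : ℕ × ℕ => r.1 * r.2)
      (t := range (S.sup (fun r => r.1 * r.2) + 1))
      fun r hr => mem_range.2 (Nat.lt_succ_of_le (le_sup (f := fun r : ℕ × ℕ => r.1 * r.2) hr))]
    refine sum_le_sum fun n _ => ?_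
    rw [sum_congr rfl fun r hr => by rw [(mem_filter.1 hr).2], sum_const, nsmul_eq_mul]
    split_ifs with hn
    · simpa using f0 n
    · rw [hf]
      refine mul_le_mul_of_nonneg_right (Nat.cast_le.2 ?_) (mkW_nonneg h0 n)
      refine card_le_card_of_injOn Prod.fst (fun r hr => ?_) fun r hr r' hr' h => ?_
      · have e := (mem_filter.1 (mem_coe.1 hr)).2
        exact mem_coe.2 (Nat.mem_divisors.2 ⟨⟨r.2, e.symm⟩, hn⟩)
      · have e := (mem_filter.1 (mem_coe.1 hr)).2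
        have e' := (mem_filter.1 (mem_coe.1 hr')).2
        have h1 : r.1 ≠ 0 := left_ne_zero_of_mul (e ▸ hn)
        refine Prod.ext h (Nat.eq_of_mul_eq_mul_left (Nat.pos_of_ne_zero h1) ?_)
        rw [e, h, e']
  exact ⟨summable_of_sum_le g0 key2, (summable_of_sum_le g0 key2).tsum_le_of_sum_le key2⟩

end Pool.Agent.Lib.MP_03e5d0_nt
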