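import Pool.Agent.Lib.MP_03e5d0_nt.LGc

/-! Poisson summation for the Jacobi symbol and the off-diagonal terms. -/

set_option autoImplicit false

noncomputable section

namespace Pool.Agent.Lib.MP_03e5d0_nt

open Complex Finset MeasureTheory
open scoped NumberTheorySymbols Real ContDiff

private lemma lLPo_gauss {c : ℝ} (hc : 0 < c) :
    Summable fun k : ℤ => Real.exp (-(π * (k * c) ^ 2)) := by
  have h := summable_gauss_l (b := ((c ^ 2 : ℝ) : ℂ)) (by rw [ofReal_re]; positivity)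
  refine h.congr fun k => ?_
  have e : -π * ((c ^ 2 : ℝ) : ℂ) * (k : ℂ) ^ 2 = ((-(π * (k * c) ^ 2) : ℝ) : ℂ) := by
    push_cast
    ring
  rw [e, ← ofReal_exp, norm_real, Real.norm_of_nonneg (Real.exp_pos _).le]

/-- `tsum_periodic_gauss` with `b = 1 / X ^ 2` gives the identity with `gt`. For `r % 4 = 1` use
`gt_of_one`. For `r % 4 = 3` the terms are odd in `k` (`gt_neg`, `Equiv.neg`), so both series vanish.
Summability: `abs_gs_le`, `summable_gauss_l`. -/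
theorem poisson_jac {r : ℕ} (hr : Odd r) {X : ℝ} (hX : 0 < X) :
    HasSum (fun k : ℤ => ((X / r * gs k r * Real.exp (-(π * (k * X / r) ^ 2)) : ℝ) : ℂ))
      (∑' m : ℤ, (Real.exp (-(π * ((m : ℝ) / X) ^ 2)) : ℂ) * (J(m | r) : ℂ)) := by
  have hr0 : r ≠ 0 := hr.pos.ne'
  have hr1 : (0 : ℝ) < r := by exact_mod_cast hr.pos
  have hX' : (X : ℂ) ≠ 0 := by exact_mod_cast hX.ne'
  have hr' : (r : ℂ) ≠ 0 := by exact_mod_cast hr0
  obtain ⟨E, hE⟩ : ∃ E : ℤ → ℝ, ∀ k, E k = Real.exp (-(π * (k * X / r) ^ 2)) := ⟨_, fun _ => rfl⟩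
  have hEs : Summable E :=
    (lLPo_gauss (div_pos hX hr1)).congr fun k => by rw [hE, mul_div_assoc]
  have hE0 : ∀ k, 0 ≤ E k := fun k => hE k ▸ (Real.exp_pos _).le
  have hs : Summable fun k : ℤ => (gs k r : ℂ) * (E k : ℂ) := by
    refine Summable.of_norm_bounded (hEs.mul_left (2 * (r : ℝ))) fun k => ?_
    rw [norm_mul, norm_real, norm_real, Real.norm_of_nonneg (hE0 k), Real.norm_eq_abs]
    exact mul_le_mul_of_nonneg_right (abs_gs_le k r) (hE0 k)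
  have h1 : ∑' k : ℤ, gt k r * (E k : ℂ) = ∑' k : ℤ, (gs k r : ℂ) * (E k : ℂ) := by
    rcases Nat.odd_mod_four_iff.1 (Nat.odd_iff.1 hr) with h | h
    · exact tsum_congr fun k => by rw [gt_of_one h]
    · have a1 : ∑' k : ℤ, gt k r * (E k : ℂ) = -∑' k : ℤ, gt k r * (E k : ℂ) := by
        rw [← tsum_neg, ← (Equiv.neg ℤ).tsum_eq]
        refine tsum_congr fun k => ?_
        have a2 : E (-k) = E k := by
          rw [hE, hE]
          congr 3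
          push_cast
          ring
        rw [Equiv.neg_apply, gt_neg k hr0, jacobiSym.at_neg_one hr,
          ZMod.χ₄_nat_three_mod_four h, a2]
        push_cast
        ring
      have a2 : ∑' k : ℤ, gt k r * (E k : ℂ) = 0 := by linear_combination (1 / 2 : ℂ) * a1
      have a3 : ∑' k : ℤ, gt k r * (E k : ℂ) = I * ∑' k : ℤ, (gs k r : ℂ) * (E k : ℂ) := by
        rw [← tsum_mul_left]
        exact tsum_congr fun k => by rw [gt_of_three h, mul_assoc]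
      rw [a2] at a3 ⊢
      exact ((mul_eq_zero.1 a3.symm).resolve_left I_ne_zero).symm
  have h2 := tsum_periodic_gauss hr0 (c := fun m => (J(m | r) : ℂ))
    (fun a a' h => by rw [jacobiSym.mod_left' h]) (b := ((1 / X ^ 2 : ℝ) : ℂ))
    (by rw [ofReal_re]; positivity)
  have h3 : (((1 / X ^ 2 : ℝ) : ℂ) * (r : ℂ) ^ 2) ^ (1 / 2 : ℂ) = (r : ℂ) / X := by
    have a1 : ((1 / X ^ 2 : ℝ) : ℂ) * (r : ℂ) ^ 2 = (((r / X) ^ 2 : ℝ) : ℂ) := by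
      push_cast
      ring
    have a2 : (1 / 2 : ℂ) = ((1 / 2 : ℝ) : ℂ) := by push_cast; rfl
    rw [a1, a2, ← ofReal_cpow (sq_nonneg _), ← Real.sqrt_eq_rpow,
      Real.sqrt_sq (div_pos hr1 hX).le]
    push_cast
    rfl
  have h4 : ∀ k : ℤ, cexp (-π * (1 / (((1 / X ^ 2 : ℝ) : ℂ) * (r : ℂ) ^ 2)) * (k : ℂ) ^ 2) =
      (E k : ℂ) := by
    intro k
    rw [hE, ofReal_exp]
    congr 1
    push_cast
    field_simp
  have h5 : ∀ m : ℤ, (J(m | r) : ℂ) * cexp (-π * ((1 / X ^ 2 : ℝ) : ℂ) * (m : ℂ) ^ 2) =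
      (Real.exp (-(π * ((m : ℝ) / X) ^ 2)) : ℂ) * (J(m | r) : ℂ) := by
    intro m
    rw [mul_comm, ofReal_exp]
    congr 2
    push_cast
    ring
  simp only [h3, h4, h5] at h2
  have h6 : ∑' m : ℤ, (Real.exp (-(π * ((m : ℝ) / X) ^ 2)) : ℂ) * (J(m | r) : ℂ) =
      (X / r : ℂ) * ∑' k : ℤ, (gs k r : ℂ) * (E k : ℂ) := by
    rw [h2, ← h1, one_div_div]
    rfl
  rw [h6]
  refine (hs.hasSum.mul_left (X / r : ℂ)).congr_fun ?_
  intro k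
  rw [← hE]
  push_cast
  ring

/-- `tsum_eq_sum` on `range N ×ˢ range N`, `Finset.sum_product`. -/
theorem tk_eq_sum (D : Data) (k : ℤ) (ℓ : ℕ) {Ω : ℝ → ℝ → ℂ} {L : ℝ}
    (hΩ : ∀ y₁ y₂, L < y₁ ∨ L < y₂ → Ω y₁ y₂ = 0) {N : ℕ} (hN : Real.exp L < N) :
    tk D k ℓ Ω = ∑ n₁ ∈ range N, ∑ n₂ ∈ range N,
      ((D.lam n₁ / √n₁ * (D.lam n₂ / √n₂) * gn k (n₁ * n₂ * ℓ) : ℝ) : ℂ) *
        Ω (Real.log n₁) (Real.log n₂) := by
  have key : ∀ n : ℕ, n ∉ range N → L < Real.log n := by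
    intro n hn
    have h1 : (N : ℝ) ≤ n := by exact_mod_cast not_lt.1 (mt mem_range.2 hn)
    have h2 := hN.trans_le h1
    exact (Real.lt_log_iff_exp_lt ((Real.exp_pos L).trans h2)).2 h2
  rw [tk, tsum_eq_sum (s := range N ×ˢ range N), sum_product]
  intro n hn
  rw [mem_product, not_and_or] at hn
  rw [hΩ _ _ (hn.imp (key _) (key _)), mul_zero]

/-- Separation of the variables: `Sm.inv`, `ex_add`, `integral_finset_sum`. -/
theorem tk_integral (D : Data) (k : ℤ) (ℓ : ℕ) {V₁ V₂ g : ℝ → ℂ} {L : ℝ}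
    (h₁ : ∀ y, L < y → V₁ y = 0) (h₂ : ∀ y, L < y → V₂ y = 0) {j : ℕ} {a b B : ℝ}
    (hg : Sm j a b B g) (L₁ L₂ : ℝ) :
    tk D k ℓ (fun y₁ y₂ => V₁ y₁ * V₂ y₂ * g (y₁ + y₂ - (L₁ + L₂))) =
      ∫ t, ft g t * tk D k ℓ fun y₁ y₂ => V₁ y₁ * ex t (y₁ - L₁) * (V₂ y₂ * ex t (y₂ - L₂)) := by
  obtain ⟨N, hN⟩ := exists_nat_gt (Real.exp L)
  have hi : ∀ y : ℝ, Integrable fun t => ft g t * ex t y := by
    intro y
    have hc : Continuous fun t => ft g t * ex t y :=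
      hg.ft_cont.mul (continuous_ex.comp (continuous_id.prodMk continuous_const))
    refine (integrable_norm_iff hc.aestronglyMeasurable).1 ?_
    simpa only [norm_mul, norm_ex, mul_one, pow_zero] using hg.ft_integrable 0
  have e1 : ∀ t : ℝ, (ft g t * tk D k ℓ fun y₁ y₂ =>
      V₁ y₁ * ex t (y₁ - L₁) * (V₂ y₂ * ex t (y₂ - L₂))) =
      ∑ n ∈ range N ×ˢ range N,
        ((D.lam n.1 / √n.1 * (D.lam n.2 / √n.2) * gn k (n.1 * n.2 * ℓ) : ℝ) : ℂ) *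
          (V₁ (Real.log n.1) * V₂ (Real.log n.2)) *
          (ft g t * ex t (Real.log n.1 + Real.log n.2 - (L₁ + L₂))) := by
    intro t
    rw [tk_eq_sum D k ℓ (L := L) (fun y₁ y₂ h => by
      rcases h with h | h
      · rw [h₁ _ h, zero_mul, zero_mul]
      · rw [h₂ _ h, zero_mul, mul_zero]) hN, ← sum_product', mul_sum]
    refine sum_congr rfl fun n _ => ?_
    rw [add_sub_add_comm, ex_add]
    ring
  rw [tk_eq_sum D k ℓ (L := L) (fun y₁ y₂ h => by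
    rcases h with h | h
    · rw [h₁ _ h, zero_mul, zero_mul]
    · rw [h₂ _ h, mul_zero, zero_mul]) hN, ← sum_product']
  simp only [e1]
  rw [integral_finsetSum _ fun n _ => (hi _).const_mul _]
  refine sum_congr rfl fun n _ => ?_
  rw [integral_const_mul, ← hg.inv]
  exact (mul_assoc _ _ _).symm

private lemma lLPo_pr (D : Data) {Λ : ℝ} {m : ℕ} (hq : m.Coprime D.q) (hΛ : Real.log m ≤ Λ) :
    m.primeFactors ⊆ pr D Λ := by
  intro p hp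
  obtain ⟨h1, h2, h3⟩ := Nat.mem_primeFactors.1 hp
  refine mem_pr.2 ⟨h1, (Nat.Prime.coprime_iff_not_dvd h1).1 (hq.coprime_dvd_left h2),
    le_trans ?_ hΛ⟩
  exact Real.log_le_log (by exact_mod_cast h1.pos)
    (by exact_mod_cast Nat.le_of_dvd (Nat.pos_of_ne_zero h3) h2)

private lemma lLPo_pair (D : Data) {X : ℝ} (hX : 0 < X) {Λ : ℝ} {n₁ n₂ ℓ : ℕ} (h₁ : n₁ ≠ 0)
    (h₂ : n₂ ≠ 0) (hℓ : ℓ ≠ 0) (q₁ : n₁.Coprime D.q) (q₂ : n₂.Coprime D.q) (hq : ℓ.Coprime D.q)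
    (l₁ : Real.log n₁ ≤ Λ) (l₂ : Real.log n₂ ≤ Λ) (hΛ : Real.log ℓ ≤ Λ) :
    HasSum (fun k : ℤ => if k = 0 then 0 else
        ((gn k (n₁ * n₂ * ℓ) * gk X ℓ k (Real.log n₁ + Real.log n₂) : ℝ) : ℂ))
      (gsum X (fun x => (cm x (n₁ * n₂ * ℓ) : ℂ)) -
        X * Ex (pr D Λ) dl0 (fun x => (cm x (n₁ * n₂ * ℓ) : ℂ))) := by
  have hr0 : n₁ * n₂ * ℓ ≠ 0 := mul_ne_zero (mul_ne_zero h₁ h₂) hℓ
  have hodd : Odd (n₁ * n₂ * ℓ) := Nat.coprime_two_right.1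
    ((Nat.Coprime.mul_left (Nat.Coprime.mul_left q₁ q₂) hq).coprime_dvd_right D.two_dvd)
  have hsub : (n₁ * n₂ * ℓ).primeFactors ⊆ pr D Λ := by
    rw [Nat.primeFactors_mul (mul_ne_zero h₁ h₂) hℓ, Nat.primeFactors_mul h₁ h₂]
    exact union_subset (union_subset (lLPo_pr D q₁ l₁) (lLPo_pr D q₂ l₂)) (lLPo_pr D hq hΛ)
  have p₁ : (0 : ℝ) < n₁ := by exact_mod_cast Nat.pos_of_ne_zero h₁
  have p₂ : (0 : ℝ) < n₂ := by exact_mod_cast Nat.pos_of_ne_zero h₂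
  have p₃ : (0 : ℝ) < ℓ := by exact_mod_cast Nat.pos_of_ne_zero hℓ
  have key := hasSum_ite_sub_hasSum (poisson_jac hodd hX) 0
  have e1 : gsum X (fun x => (cm x (n₁ * n₂ * ℓ) : ℂ)) =
      ∑' m : ℤ, (Real.exp (-(π * ((m : ℝ) / X) ^ 2)) : ℂ) * (J(m | n₁ * n₂ * ℓ) : ℂ) :=
    tsum_congr fun m => by simp only [cm_jac m hr0, ofReal_intCast]
  have e2 : ((X / (n₁ * n₂ * ℓ : ℕ) * gs 0 (n₁ * n₂ * ℓ) *
      Real.exp (-(π * (((0 : ℤ) : ℝ) * X / (n₁ * n₂ * ℓ : ℕ)) ^ 2)) : ℝ) : ℂ) =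
      X * Ex (pr D Λ) dl0 (fun x => (cm x (n₁ * n₂ * ℓ) : ℂ)) := by
    have p₄ : ((n₁ * n₂ * ℓ : ℕ) : ℝ) ≠ 0 := by exact_mod_cast hr0
    rw [Ex_ofReal, Ex_cm hr0 hsub, gs_zero hodd, ← ofReal_mul]
    congr 1
    simp only [Int.cast_zero, zero_mul, zero_div, ne_eq, OfNat.ofNat_ne_zero, not_false_eq_true,
      zero_pow, mul_zero, neg_zero, Real.exp_zero, mul_one]
    field_simp
  rw [e2, ← e1] at key
  refine key.congr_fun fun k => ?_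
  congr 2
  have e3 : Real.exp (Real.log n₁ + Real.log n₂) = n₁ * n₂ := by
    rw [Real.exp_add, Real.exp_log p₁, Real.exp_log p₂]
  have e4 : Real.exp (-((Real.log n₁ + Real.log n₂) / 2)) = (√(n₁ * n₂ : ℝ))⁻¹ := by
    rw [Real.exp_neg, ← e3, Real.exp_half]
  have e5 : ((n₁ * n₂ * ℓ : ℕ) : ℝ) = √(n₁ * n₂ : ℝ) ^ 2 * √(ℓ : ℝ) ^ 2 := by
    rw [Real.sq_sqrt (mul_pos p₁ p₂).le, Real.sq_sqrt p₃.le]
    push_cast
    rfl
  have e6 : √((n₁ * n₂ * ℓ : ℕ) : ℝ) = √(n₁ * n₂ : ℝ) * √(ℓ : ℝ) := by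
    rw [← Real.sqrt_mul (mul_pos p₁ p₂).le]
    push_cast
    rfl
  have e7 : (ℓ : ℝ) * (n₁ * n₂) = ((n₁ * n₂ * ℓ : ℕ) : ℝ) := by
    push_cast
    ring
  have s₁ : √(n₁ * n₂ : ℝ) ≠ 0 := (Real.sqrt_pos.2 (mul_pos p₁ p₂)).ne'
  have s₂ : √(ℓ : ℝ) ≠ 0 := (Real.sqrt_pos.2 p₃).ne'
  rw [gk, gn, e3, e4, e6, e7]
  generalize Real.exp (-(π * (k * X / (n₁ * n₂ * ℓ : ℕ)) ^ 2)) = E
  rw [e5]
  field_simp

/-- Poisson summation: the off-diagonal terms. With `sm_eq_sum` and `cm_mul` the function is a finite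
combination of `cm x (n₁ * n₂ * ℓ)`; the coefficient vanishes unless `n₁, n₂` are nonzero, coprime to
`q` (so `n₁ n₂ ℓ` is odd) and `log nᵢ ≤ Λ` (so all prime factors lie in `pr D Λ`, `mem_pr`, `Ex_cm`).
For such a pair: `cm_jac`, `poisson_jac`; the term `k = 0` is `X * rho dl0 _` by `gs_zero`
(`HasSum.update` or `hasSum_ite_sub_hasSum`); `exp (log n₁ + log n₂) = n₁ n₂`. Then `hasSum_sum`. -/
theorem gsum_sub (D : Data) {X : ℝ} (hX : 0 < X) {ℓ : ℕ} (hℓ : ℓ ≠ 0) (hq : ℓ.Coprime D.q)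
    {V₁ V₂ : ℝ → ℂ} {Λ : ℝ} (h₁ : ∀ y, Λ < y → V₁ y = 0) (h₂ : ∀ y, Λ < y → V₂ y = 0)
    (hΛ : Real.log ℓ ≤ Λ) :
    HasSum (fun k : ℤ => if k = 0 then 0 else
        tk D k ℓ fun y₁ y₂ => V₁ y₁ * V₂ y₂ * (gk X ℓ k (y₁ + y₂) : ℂ))
      (gsum X (fun x => (cm x ℓ : ℂ) * sm D x V₁ * sm D x V₂) -
        X * Ex (pr D Λ) dl0 (fun x => (cm x ℓ : ℂ) * sm D x V₁ * sm D x V₂)) := by
  obtain ⟨N, hN⟩ := exists_nat_gt (Real.exp Λ)
  obtain ⟨A, hA⟩ : ∃ A : ℕ × ℕ → ℂ, ∀ n, A n = ((D.lam n.1 / √n.1 * (D.lam n.2 / √n.2) : ℝ) : ℂ) *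
      (V₁ (Real.log n.1) * V₂ (Real.log n.2)) := ⟨_, fun _ => rfl⟩
  have e1 : (fun x => (cm x ℓ : ℂ) * sm D x V₁ * sm D x V₂) =
      fun x => ∑ n ∈ range N ×ˢ range N, A n * (cm x (n.1 * n.2 * ℓ) : ℂ) := by
    funext x
    rw [sm_eq_sum h₁ hN, sm_eq_sum h₂ hN, mul_assoc, sum_mul_sum, ← sum_product', mul_sum]
    refine sum_congr rfl fun n _ => ?_
    rw [hA, cm_mul, cm_mul]
    push_cast
    ring
  have e2 : ∀ k : ℤ, (if k = 0 then 0 else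
      tk D k ℓ fun y₁ y₂ => V₁ y₁ * V₂ y₂ * (gk X ℓ k (y₁ + y₂) : ℂ)) =
      ∑ n ∈ range N ×ˢ range N, A n * if k = 0 then 0 else
        ((gn k (n.1 * n.2 * ℓ) * gk X ℓ k (Real.log n.1 + Real.log n.2) : ℝ) : ℂ) := by
    intro k
    split_ifs with hk
    · simp
    · rw [tk_eq_sum D k ℓ (L := Λ) (fun y₁ y₂ h => by
        rcases h with h | h
        · rw [h₁ _ h, zero_mul, zero_mul]
        · rw [h₂ _ h, mul_zero, zero_mul]) hN, ← sum_product']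
      refine sum_congr rfl fun n _ => ?_
      rw [hA]
      push_cast
      ring
  have hs : ∀ r : ℕ, Summable fun m : ℤ =>
      (Real.exp (-(π * ((m : ℝ) / X) ^ 2)) : ℂ) * (cm (jac m) r : ℂ) := by
    intro r
    refine Summable.of_norm_bounded (lLPo_gauss (inv_pos.2 hX)) fun m => ?_
    rw [norm_mul, norm_real, norm_real, Real.norm_of_nonneg (Real.exp_pos _).le, Real.norm_eq_abs,
      div_eq_mul_inv]
    exact mul_le_of_le_one_right (Real.exp_pos _).le ((adm_jac m).abs_cm r)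
  have e3 : gsum X (fun x => ∑ n ∈ range N ×ˢ range N, A n * (cm x (n.1 * n.2 * ℓ) : ℂ)) =
      ∑ n ∈ range N ×ˢ range N, A n * gsum X fun x => (cm x (n.1 * n.2 * ℓ) : ℂ) := by
    simp only [gsum, ← tsum_mul_left]
    rw [← Summable.tsum_finsetSum fun n _ => (hs _).mul_left _]
    refine tsum_congr fun m => ?_
    rw [mul_sum]
    exact sum_congr rfl fun n _ => mul_left_comm _ _ _
  rw [e1, e3, Ex_sum, mul_sum, ← sum_sub_distrib]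
  simp only [e2]
  refine hasSum_sum fun n _ => ?_
  rw [Ex_mul_left, mul_left_comm, ← mul_sub]
  by_cases h0 : A n = 0
  · simp only [h0, zero_mul]
    exact hasSum_zero
  rw [hA] at h0
  obtain ⟨a1, a2⟩ := mul_ne_zero_iff.1 h0
  obtain ⟨a3, a4⟩ := mul_ne_zero_iff.1 (ofReal_ne_zero.1 a1)
  obtain ⟨a5, a6⟩ := mul_ne_zero_iff.1 a2
  have a7 := (div_ne_zero_iff.1 a3).1
  have a8 := (div_ne_zero_iff.1 a4).1
  have a9 : ∀ m : ℕ, D.lam m ≠ 0 → m ≠ 0 := fun m h e => h (by rw [e, D.lam0])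
  exact (lLPo_pair D hX (a9 _ a7) (a9 _ a8) hℓ
    (by_contra fun e => a7 (D.lam_zero _ e)) (by_contra fun e => a8 (D.lam_zero _ e)) hq
    (not_lt.1 fun e => a5 (h₁ _ e)) (not_lt.1 fun e => a6 (h₂ _ e)) hΛ).mul_left _

end Pool.Agent.Lib.MP_03e5d0_nt
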