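import Pool.Agent.Lib.MP_03e5d0_nt.ADef

set_option autoImplicit false

noncomputable section

namespace Pool.Agent.Lib.MP_03e5d0_nt

open Complex Finset MeasureTheory
open scoped NumberTheorySymbols Real ContDiff

/-! Definitions for the mollifier, the pieces of the central derivative and the final argument. -/

/-- The prime sum of a block. -/
def PI (D : Data) (S : Finset ℕ) (x : ℕ → ℝ) : ℝ := ∑ p ∈ S, D.lam p * x p / √p

/-- Truncated exponential. -/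
def texp (l : ℕ) (y : ℝ) : ℝ := ∑ i ∈ range (l + 1), y ^ i / i.factorial

/-- The primes with `Z / 2 ^ (j + 1) < log p ≤ Z / 2 ^ j`. -/
def blk (D : Data) (Z : ℝ) (j : ℕ) : Finset ℕ := pr D (Z / 2 ^ j) \ pr D (Z / 2 ^ (j + 1))

/-- The factor of the mollifier attached to a block. -/
def vv (D : Data) (c : ℕ) (Z : ℝ) (j : ℕ) (x : ℕ → ℝ) : ℝ :=
  texp (2 * c * (1 + j)) (-PI D (blk D Z j) x / 3)

/-- The product over the blocks `a ≤ j < b`. -/
def VV (D : Data) (c : ℕ) (Z : ℝ) (a b : ℕ) (x : ℕ → ℝ) : ℝ := ∏ j ∈ Ico a b, vv D c Z j x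

/-- `max 1 Λ`. -/
def ly (Λ : ℝ) : ℝ := max 1 Λ

/-- A smooth form of `min Λ (1 / |τ|)`. -/
def kr (Λ τ : ℝ) : ℝ := Λ / (1 + Λ * |τ|)

/-- Main term of the logarithm of a mollified local factor. -/
def mn (l c : ℝ) (z₁ z₂ : ℂ) : ℝ :=
  l ^ 2 / 2 * (z₁.re + z₂.re + c) ^ 2 + (l ^ 2 - 2) / 2 * (z₁ ^ 2 + z₂ ^ 2).re

/-- Main term of an unmollified local factor. -/
def un (l : ℝ) (z₁ z₂ : ℂ) : ℂ := (l ^ 2 - 1) * (z₁ ^ 2 + z₂ ^ 2) + l ^ 2 * z₁ * z₂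

/-- The product of the absolute values of two Euler products. -/
def GG (D : Data) (S : Finset ℕ) (z₁ z₂ : ℕ → ℂ) (x : ℕ → ℝ) : ℝ :=
  ∏ p ∈ S, ‖lf (D.lam p) (x p) (z₁ p)‖ * ‖lf (D.lam p) (x p) (z₂ p)‖

/-- Dyadic bump supported in `[1, 4]`. -/
def th0 (y : ℝ) : ℂ := (Real.smoothTransition (y - 1) - Real.smoothTransition (y / 2 - 1) : ℝ)

/-- `y * th0 y`. -/
def th1 (y : ℝ) : ℂ := y * th0 y

/-- A piece at scale `U`. -/
def pc (D : Data) (x : ℕ → ℝ) (L U : ℝ) (Θ : ℝ → ℂ) : ℂ := sm D x fun y => Θ ((L - y) / U)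

/-- The weight of the central derivative. -/
def WW (y : ℝ) : ℝ := ∫ u in Set.Ioi (0 : ℝ), u * (Real.exp (y + u) * Real.exp (-Real.exp (y + u)))

/-- The constant term of `-WW y - y` at `-∞`. -/
def g0 : ℝ := (∫ y in Set.Iio (0 : ℝ), (1 - Real.exp (-Real.exp y))) - WW 0

/-- The weight of the top piece. -/
def top (c U u : ℝ) : ℝ := WW (c - u) - (u - c - g0) * Real.smoothTransition (u / U - 1)

/-- The series for the central derivative. -/
def Ld (D : Data) (κ : ℕ → ℝ) (x : ℕ → ℝ) (ℒ : ℝ) : ℂ :=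
  ∑' n : ℕ, (κ n : ℂ) * sm D x fun y => (WW (y + Real.log n - ℒ) : ℂ)

/-- The coefficients in the approximate functional equation. -/
def kap (γ : ℕ → ℝ) (n : ℕ) : ℝ := (if n = 1 then 1 else 0) + if n = 0 then 0 else γ n

/-- What is used about these coefficients. -/
structure Kap (κ : ℕ → ℝ) : Prop where
  zero : κ 0 = 0
  summ : Summable fun n : ℕ => |κ n| * (1 + Real.log n)
  one_le : 1 ≤ ∑' n, κ n

/-- The weight of the first moment, supported in `(1 / 2, 1)`. -/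
def Phi (y : ℝ) : ℝ := psi (4 * y - 3)

open Classical in
/-- The discriminants of sign `s` and size about `X`. -/
def fam (D : Data) (s : ℤ) (X : ℝ) : Finset ℤ :=
  (allm X).filter fun d => D.Fam d ∧ X / 2 ≤ ((s * d : ℤ) : ℝ)

/-- The barrier. -/
def bar (i₀ j : ℕ) : ℝ := (2 : ℝ) ^ ((7 * i₀ + 3 * j : ℝ) / 8)

/-- The mollifier stays below the barrier. -/
def Good (D : Data) (c : ℕ) (Z : ℝ) (J i₀ : ℕ) (x : ℕ → ℝ) : Prop :=
  ∀ j ≤ J, VV D c Z 0 j x ^ 3 ≤ bar i₀ j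

/-- The scales. -/
def Ui (L : ℝ) (i : ℕ) : ℝ := L / 2 ^ (i + 1)

/-- The sum of the bottom pieces for one shift. -/
def bot1 (D : Data) (L : ℝ) (i₀ : ℕ) (L' : ℝ) (x : ℕ → ℝ) : ℂ :=
  ∑ i ∈ range (i₀ + 1), (Ui L i : ℂ) * pc D x L' (Ui L i) th1

/-- The bottom part of the central derivative. -/
def Bot (D : Data) (κ : ℕ → ℝ) (L : ℝ) (i₀ : ℕ) (x : ℕ → ℝ) : ℂ :=
  ∑' n : ℕ, (κ n : ℂ) * bot1 D L i₀ (L - Real.log n) x

/-- The choice of parameters. -/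
structure Par (A : ℝ) (i₀ : ℕ) (X Z : ℝ) (I J : ℕ) : Prop where
  hZ : Z = Ui (Real.log X) i₀ / A
  one_le : 1 ≤ Z
  hJ : Z ≤ 2 ^ J
  hJ' : (2 : ℝ) ^ J ≤ 2 * Z
  hI : 8 * Real.log (Real.log X) ≤ Ui (Real.log X) I
  hI' : Ui (Real.log X) I ≤ 16 * Real.log (Real.log X)
  le : i₀ ≤ I

open Classical in
/-- The truncated sieve for squarefree numbers. -/
def mulo (Z : ℕ) (d : ℤ) : ℝ :=
  ∑ a ∈ (Icc 1 Z).filter fun a : ℕ => ((a : ℤ) ^ 2 ∣ d), (ArithmeticFunction.moebius a : ℝ)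

open Classical in
/-- The number of large square divisors. -/
def nu (Z : ℕ) (d : ℤ) : ℕ := ((Ioc Z d.natAbs).filter fun a : ℕ => ((a : ℤ) ^ 2 ∣ d)).card

end Pool.Agent.Lib.MP_03e5d0_nt
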