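import Pool.Agent.Lib.MP_03e5d0_nt.TBas
import Pool.Agent.Lib.MP_03e5d0_nt.MDef

set_option autoImplicit false

noncomputable section

namespace Pool.Agent.Lib.MP_03e5d0_nt

open Complex Finset MeasureTheory
open scoped NumberTheorySymbols Real ContDiff

/-! The twisted form on the imaginary axis. -/

open Filter Asymptotics Topology

/-- The form on the imaginary axis. -/
def phi (D : Data) (k : ℤ) (C t : ℝ) : ℂ := D.F k (I * t / √C)

/-- The dual form on the imaginary axis. -/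
def gdu (D : Data) (k : ℤ) (C : ℝ) (γ : ℕ → ℝ) (t : ℝ) : ℂ :=
  ∑' n : ℕ, (γ n : ℂ) * n * phi D k C (n * t)

variable {D : Data} {k : ℤ} {C : ℝ} {γ : ℕ → ℝ}

theorem norm_co_le (D : Data) (k : ℤ) (n : ℕ) : ‖D.co k n‖ ≤ 2 * n := by
  have h1 : |(J(k | n) : ℝ)| ≤ 1 := by
    rcases jacobiSym.trichotomy k n with e | e | e <;> simp [e]
  have h2 := (D.lam_le_card n).trans (tbas_card_sqrt n)
  rw [Data.co, norm_real, Real.norm_eq_abs, abs_mul, abs_mul, abs_of_nonneg (Real.sqrt_nonneg _)]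
  calc |D.lam n| * |(J(k | n) : ℝ)| * √n ≤ 2 * √n * 1 * √n := by gcongr
    _ = 2 * n := by rw [mul_one, mul_assoc, Real.mul_self_sqrt (Nat.cast_nonneg n)]

theorem co_eq (D : Data) (k : ℤ) (n : ℕ) :
    D.co k n = n * ((D.lam n * cm (jac k) n / √n : ℝ) : ℂ) := by
  rcases eq_or_ne n 0 with rfl | hn
  · simp [Data.co]
  have h0 : 0 < √(n : ℝ) := Real.sqrt_pos.2 (by positivity)
  rw [Data.co, cm_jac k hn, ← ofReal_natCast, ← ofReal_mul]
  congr 1
  rw [mul_div_assoc', eq_div_iff h0.ne', mul_assoc, Real.mul_self_sqrt (Nat.cast_nonneg n),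
    mul_comm]

theorem mafe1_b (hC : 0 < C) : 0 < 2 * π / √C := by
  have := Real.sqrt_pos.2 hC
  positivity

theorem mafe1_summ {r : ℝ} (hr : 0 < r) : Summable fun n : ℕ => 2 * n * Real.exp (-(r * n)) := by
  simpa [mul_assoc] using (Real.summable_pow_mul_exp_neg_nat_mul 1 hr).mul_left 2

theorem mafe1_term (D : Data) (k : ℤ) (n : ℕ) {x y : ℝ} (h : y ≤ x) :
    ‖D.co k n * (Real.exp (-x) : ℝ)‖ ≤ 2 * n * Real.exp (-y) := by
  rw [norm_mul, norm_real, Real.norm_of_nonneg (Real.exp_pos _).le]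
  exact mul_le_mul (norm_co_le D k n) (Real.exp_le_exp.2 (neg_le_neg h)) (Real.exp_pos _).le
    (by positivity)

theorem mafe1_eq (D : Data) (k : ℤ) (C t : ℝ) : phi D k C t =
    ∑' n : ℕ, D.co k n * (Real.exp (-(2 * π / √C * n * t)) : ℝ) := by
  refine tsum_congr fun n => ?_
  congr 1
  push_cast
  congr 1
  linear_combination (2 * π * n * t / (√C : ℝ) : ℂ) * I_mul_I

theorem phi_hasSum (hC : 0 < C) {t : ℝ} (ht : 0 < t) :
    HasSum (fun n : ℕ => D.co k n * (Real.exp (-(2 * π / √C * n * t)) : ℝ)) (phi D k C t) := by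
  rw [mafe1_eq]
  exact ((mafe1_summ (mul_pos (mafe1_b hC) ht)).of_norm_bounded fun n =>
    mafe1_term D k n (le_of_eq (by ring))).hasSum

theorem phi_continuousOn (hC : 0 < C) : ContinuousOn (phi D k C) (Set.Ioi 0) := by
  intro t ht
  have h0 : 0 < t / 2 := half_pos ht
  have h1 : ContinuousOn (phi D k C) (Set.Ioi (t / 2)) := by
    rw [funext (mafe1_eq D k C)]
    refine continuousOn_tsum (fun n => by fun_prop) (mafe1_summ (mul_pos (mafe1_b hC) h0))
      fun n u hu => mafe1_term D k n ?_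
    have h2 := mafe1_b hC
    have h3 : t / 2 ≤ u := le_of_lt hu
    calc 2 * π / √C * (t / 2) * n = 2 * π / √C * n * (t / 2) := by ring
      _ ≤ _ := by gcongr
  exact (h1.continuousAt (Ioi_mem_nhds (half_lt_self ht))).continuousWithinAt

theorem mafe1_exp {b t : ℝ} (hb : 0 < b) (ht : 1 ≤ t) (n : ℕ) :
    2 * n * Real.exp (-(b * n * t)) ≤ 2 * n * Real.exp (-(b * n)) * (Real.exp b * Real.exp (-b * t)) := by
  rcases Nat.eq_zero_or_pos n with rfl | hn
  · simp
  have h1 : (1 : ℝ) ≤ n := by exact_mod_cast hn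
  rw [mul_assoc (2 * n : ℝ), ← Real.exp_add, ← Real.exp_add]
  gcongr
  nlinarith [mul_nonneg hb.le (mul_nonneg (sub_nonneg.2 h1) (sub_nonneg.2 ht))]

/-- `co 0 = 0`, so `‖phi t‖ ≤ exp (-b t) ∑ 2 n exp (-b (n - 1))` for `t ≥ 1`, `b = 2 π / √C`; and
`n exp (-b n t) ≤ K exp (-b t / 2)`. -/
theorem phi_decay (D : Data) (k : ℤ) (hC : 0 < C) : ∃ K b : ℝ, 0 ≤ K ∧ 0 < b ∧ ∀ (n : ℕ) (t : ℝ), 1 ≤ t →
    ‖(n : ℂ) * phi D k C (n * t)‖ ≤ K * Real.exp (-b * t) := by
  have hb := mafe1_b hC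
  set b := 2 * π / √C with hbd
  have hs := mafe1_summ hb
  set S := ∑' n : ℕ, 2 * n * Real.exp (-(b * n))
  have hS : 0 ≤ S := tsum_nonneg fun n => by positivity
  have h1 : ∀ u : ℝ, 1 ≤ u → ‖phi D k C u‖ ≤ S * (Real.exp b * Real.exp (-b * u)) := fun u hu => by
    rw [mafe1_eq]
    exact tsum_of_norm_bounded (hs.hasSum.mul_right _) fun n =>
      (mafe1_term D k n le_rfl).trans (mafe1_exp hb hu n)
  refine ⟨S * Real.exp b * (S * Real.exp b), b, by positivity, hb, fun n t ht => ?_⟩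
  rcases Nat.eq_zero_or_pos n with rfl | hn
  · simp only [Nat.cast_zero, zero_mul, norm_zero]
    positivity
  have h2 : (1 : ℝ) ≤ n := by exact_mod_cast hn
  have h3 : 2 * n * Real.exp (-(b * n)) ≤ S := hs.le_tsum n fun m _ => by positivity
  have h4 := mafe1_exp hb ht n
  have h5 : (n : ℝ) * Real.exp (-b * (n * t)) ≤ S * (Real.exp b * Real.exp (-b * t)) := by
    have h6 : 0 ≤ (n : ℝ) * Real.exp (-(b * n * t)) := by positivity
    rw [show -b * (n * t) = -(b * n * t) by ring]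
    calc (n : ℝ) * Real.exp (-(b * n * t)) ≤ 2 * n * Real.exp (-(b * n * t)) := by linarith
      _ ≤ _ := h4.trans (by gcongr)
  rw [norm_mul, Complex.norm_natCast]
  calc (n : ℝ) * ‖phi D k C (n * t)‖ ≤ n * (S * (Real.exp b * Real.exp (-b * (n * t)))) :=
        mul_le_mul_of_nonneg_left (h1 _ (one_le_mul_of_one_le_of_one_le h2 ht)) (by positivity)
    _ = S * Real.exp b * (n * Real.exp (-b * (n * t))) := by ring
    _ ≤ S * Real.exp b * (S * (Real.exp b * Real.exp (-b * t))) := by gcongr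
    _ = _ := by ring

theorem gdu_decay (hC : 0 < C) (hγ : Summable fun n => |γ n|) : ∃ K b : ℝ, 0 ≤ K ∧ 0 < b ∧ ∀ t : ℝ, 1 ≤ t →
    ‖gdu D k C γ t‖ ≤ K * Real.exp (-b * t) := by
  obtain ⟨K, b, hK, hb, h⟩ := phi_decay D k hC
  refine ⟨(∑' n, |γ n|) * K, b, mul_nonneg (tsum_nonneg fun n => abs_nonneg _) hK, hb,
    fun t ht => ?_⟩
  rw [mul_assoc]
  refine tsum_of_norm_bounded (hγ.hasSum.mul_right _) fun n => ?_
  rw [mul_assoc, norm_mul, norm_real, Real.norm_eq_abs]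
  exact mul_le_mul_of_nonneg_left (h n t ht) (abs_nonneg _)

/-- `Dual` at `z = i t / √C`. -/
theorem phi_inv (hC : 0 < C) (h : D.Dual k C γ) {t : ℝ} (ht : 0 < t) :
    HasSum (fun n : ℕ => (γ n : ℂ) * n * phi D k C (n * t)) (gdu D k C γ t) ∧
      phi D k C t⁻¹ = -(t : ℂ) ^ 2 * gdu D k C γ t := by
  have h0 : 0 < √C := Real.sqrt_pos.2 hC
  have h1 : ((√C : ℝ) : ℂ) ≠ 0 := ofReal_ne_zero.2 h0.ne'
  have h2 : (t : ℂ) ≠ 0 := ofReal_ne_zero.2 ht.ne'
  have h3 : (C : ℂ) = (√C : ℝ) * (√C : ℝ) := by rw [← ofReal_mul, Real.mul_self_sqrt hC.le]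
  have h4 := h (I * t / √C) (by
    rw [mul_div_assoc, ← ofReal_div, I_mul_im, ofReal_re]
    positivity)
  have h5 : ∀ n : ℕ, (n : ℂ) * (I * t / √C) = I * ((n * t : ℝ) : ℂ) / √C := fun n => by
    push_cast
    ring
  have h6 : -1 / ((C : ℂ) * (I * t / √C)) = I * ((t⁻¹ : ℝ) : ℂ) / √C := by
    rw [h3]
    push_cast
    field_simp
    rw [I_sq]
  have h7 : (C : ℂ) * (I * t / √C) ^ 2 = -(t : ℂ) ^ 2 := by
    rw [h3]
    field_simp
    rw [I_sq]
  simp only [h5, h6, h7] at h4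
  refine ⟨h4.summable.hasSum, ?_⟩
  have h8 : gdu D k C γ t = phi D k C t⁻¹ / -(t : ℂ) ^ 2 := h4.tsum_eq
  rw [h8, mul_div_cancel₀ _ (neg_ne_zero.2 (pow_ne_zero _ h2))]

theorem phi_top (D : Data) (k : ℤ) (hC : 0 < C) (a : ℝ) : phi D k C =O[atTop] fun t => t ^ (-a) := by
  obtain ⟨K, b, -, hb, h⟩ := phi_decay D k hC
  refine IsBigO.trans (IsBigO.of_bound K ?_) (isLittleO_exp_neg_mul_rpow_atTop hb (-a)).isBigO
  filter_upwards [eventually_ge_atTop 1] with t ht
  simpa using h 1 t ht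

theorem phi_bot (hC : 0 < C) (hγ : Summable fun n => |γ n|) (h : D.Dual k C γ) (b : ℝ) :
    phi D k C =O[𝓝[>] 0] fun t => t ^ (-b) := by
  obtain ⟨K, c, -, hc, h1⟩ := gdu_decay (D := D) (k := k) hC hγ
  have h2 : gdu D k C γ =O[atTop] fun u => u ^ (b - 2) := by
    refine IsBigO.trans (IsBigO.of_bound K ?_) (isLittleO_exp_neg_mul_rpow_atTop hc _).isBigO
    filter_upwards [eventually_ge_atTop 1] with t ht
    simpa using h1 t ht
  have h3 : (fun u : ℝ => -(u : ℂ) ^ 2) =O[atTop] fun u : ℝ => u ^ 2 :=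
    IsBigO.of_bound 1 (Eventually.of_forall fun u => by simp)
  refine ((h3.mul h2).comp_tendsto tendsto_inv_nhdsGT_zero).congr' ?_ ?_
  · filter_upwards [self_mem_nhdsWithin] with t ht
    have h4 := (phi_inv hC h (inv_pos.2 ht)).2
    rw [inv_inv] at h4
    exact h4.symm
  · filter_upwards [self_mem_nhdsWithin] with t ht
    have h4 : 0 < t := ht
    change t⁻¹ ^ 2 * t⁻¹ ^ (b - 2) = t ^ (-b)
    rw [← Real.rpow_natCast, ← Real.rpow_add (inv_pos.2 h4), Real.inv_rpow h4.le,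
      Real.rpow_neg h4.le]
    congr 2
    push_cast
    ring

/-- `hasSum_mellin` (Mathlib.NumberTheory.LSeries.MellinEqDirichlet). -/
theorem mellin_phi (D : Data) (k : ℤ) (hC : 0 < C) {s : ℂ} (hs : 2 < s.re) :
    mellin (phi D k C) s = Gamma s * ((√C / (2 * π) : ℝ) : ℂ) ^ s * LSeries (D.co k) s := by
  have hb := mafe1_b hC
  have h0 : D.co k 0 = 0 := by simp [Data.co]
  have h1 := hasSum_mellin (a := D.co k) (p := fun n : ℕ => 2 * π / √C * n) (F := phi D k C)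
    (s := s) (fun n => by
      rcases Nat.eq_zero_or_pos n with rfl | hn
      · exact .inl h0
      · exact .inr (by positivity)) (by linarith)
    (fun t ht => by simpa only [neg_mul] using phi_hasSum (D := D) (k := k) hC ht) (by
      refine Summable.of_nonneg_of_le (fun n => by positivity) (fun n => ?_)
        ((Real.summable_nat_rpow.2 (show 1 - s.re < -1 by linarith)).mul_left
          (2 / (2 * π / √C) ^ s.re))
      rcases Nat.eq_zero_or_pos n with rfl | hn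
      · simp only [h0, norm_zero, zero_div]
        positivity
      have h2 : (0 : ℝ) < n := by exact_mod_cast hn
      rw [Real.mul_rpow hb.le h2.le, Real.rpow_sub h2, Real.rpow_one, div_mul_div_comm]
      gcongr
      exact norm_co_le D k n)
  rw [← h1.tsum_eq, LSeries, ← tsum_mul_left]
  refine tsum_congr fun n => ?_
  rcases eq_or_ne n 0 with rfl | hn
  · simp [h0]
  have h2 : ((√C / (2 * π) : ℝ) : ℂ) ^ s = (((2 * π / √C : ℝ) : ℂ) ^ s)⁻¹ := by
    rw [← inv_div, ofReal_inv, inv_cpow _ _ (by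
      rw [arg_ofReal_of_nonneg hb.le]
      exact Real.pi_ne_zero.symm)]
  rw [LSeries.term_of_ne_zero hn, ofReal_mul, mul_cpow_ofReal_nonneg hb.le (Nat.cast_nonneg n), h2,
    ofReal_natCast]
  ring

/-- `mellin_hasDerivAt_of_isBigO_rpow`. -/
theorem mellin_phi_deriv (hC : 0 < C) (hγ : Summable fun n => |γ n|) (h : D.Dual k C γ) (s : ℂ) :
    MellinConvergent (phi D k C) s ∧ MellinConvergent (fun t => Real.log t • phi D k C t) s ∧
      HasDerivAt (mellin (phi D k C)) (mellin (fun t => Real.log t • phi D k C t) s) s := by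
  have h1 := (phi_continuousOn (D := D) (k := k) hC).locallyIntegrableOn (μ := volume)
    measurableSet_Ioi
  exact ⟨mellinConvergent_of_isBigO_rpow h1 (phi_top D k hC _) (lt_add_one _)
    (phi_bot hC hγ h _) (sub_one_lt _), mellin_hasDerivAt_of_isBigO_rpow h1 (phi_top D k hC _)
    (lt_add_one _) (phi_bot hC hγ h _) (sub_one_lt _)⟩

end Pool.Agent.Lib.MP_03e5d0_nt
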