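import Pool.Agent.Lib.MP_03e5d0_nt.TBas
import Pool.Agent.Lib.MP_03e5d0_nt.MDef

set_option autoImplicit false

noncomputable section

namespace Pool.Agent.Lib.MP_03e5d0_nt

open Complex Finset MeasureTheory
open scoped NumberTheorySymbols Real ContDiff

/-! Rapidly decaying weights and the decomposition into windows of length one. -/

variable {D : Data} {x : ℕ → ℝ} {V V' : ℝ → ℂ} {K K' : ℝ}

theorem mwin_term (hx : Adm x) (hV : ∀ y, 0 ≤ y → ‖V y‖ ≤ K * Real.exp (-2 * y)) (n : ℕ) :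
    ‖((D.lam n * cm x n / √n : ℝ) : ℂ) * V (Real.log n)‖ ≤ 2 * K * (1 / (n : ℝ) ^ 2) := by
  rcases Nat.eq_zero_or_pos n with rfl | hn
  · simp [cm_zero]
  have hn' : (0 : ℝ) < n := by exact_mod_cast hn
  have h0 : 0 < √(n : ℝ) := Real.sqrt_pos.mpr hn'
  have h1 := hV _ (Real.log_natCast_nonneg n)
  rw [show -2 * Real.log n = -(Real.log n + Real.log n) by ring, Real.exp_neg, Real.exp_add,
    Real.exp_log hn', ← sq, ← one_div] at h1
  rw [norm_mul, norm_real, Real.norm_eq_abs, mul_assoc]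
  refine mul_le_mul ?_ h1 (norm_nonneg _) zero_le_two
  rw [abs_div, abs_of_pos h0, div_le_iff₀ h0, abs_mul]
  exact (mul_le_of_le_one_right (abs_nonneg _) (hx.abs_cm _)).trans
    ((D.lam_le_card _).trans (tbas_card_sqrt _))

/-- `|lam n| / √n ≤ 2` (as in `norm_sm_le`) and `exp (-2 log n) = 1 / n ^ 2`; the term `n = 0` vanishes. -/
theorem summable_sm (hx : Adm x) (hV : ∀ y, 0 ≤ y → ‖V y‖ ≤ K * Real.exp (-2 * y)) :
    Summable fun n : ℕ => ‖((D.lam n * cm x n / √n : ℝ) : ℂ) * V (Real.log n)‖ :=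
  Summable.of_nonneg_of_le (fun _ => norm_nonneg _) (mwin_term hx hV)
    (hasSum_zeta_two.summable.mul_left _)

theorem norm_sm_le_decay (hx : Adm x) (hV : ∀ y, 0 ≤ y → ‖V y‖ ≤ K * Real.exp (-2 * y)) :
    ‖sm D x V‖ ≤ 4 * K := by
  have hK : 0 ≤ K := by simpa using (norm_nonneg _).trans (hV 0 le_rfl)
  refine (tsum_of_norm_bounded (hasSum_zeta_two.mul_left (2 * K)) (mwin_term hx hV)).trans ?_
  have h1 : π ^ 2 ≤ 12 := by nlinarith [Real.pi_pos, Real.pi_lt_d2]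
  nlinarith

theorem sm_add_decay (hx : Adm x) (hV : ∀ y, 0 ≤ y → ‖V y‖ ≤ K * Real.exp (-2 * y))
    (hV' : ∀ y, 0 ≤ y → ‖V' y‖ ≤ K' * Real.exp (-2 * y)) :
    sm D x (fun y => V y + V' y) = sm D x V + sm D x V' := by
  unfold sm
  rw [← (summable_sm hx hV).of_norm.tsum_add (summable_sm hx hV').of_norm]
  exact tsum_congr fun n => mul_add _ _ _

theorem decay_of_supp {L B : ℝ} (hB : 0 ≤ B) (hV : ∀ y, L < y → V y = 0)
    (hb : ∀ y, 0 ≤ y → ‖V y‖ ≤ B) (y : ℝ) (hy : 0 ≤ y) :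
    ‖V y‖ ≤ B * Real.exp (2 * L) * Real.exp (-2 * y) := by
  by_cases h : L < y
  · rw [hV y h, norm_zero]
    positivity
  · rw [mul_assoc, ← Real.exp_add]
    exact (hb y hy).trans (le_mul_of_one_le_right hB (Real.one_le_exp (by linarith [not_lt.1 h])))

/-- `HasSum (fun i => psi (y - i)) 1` for `y ≥ 0` (`sum_psi`, finitely many nonzero terms); the double
series over `(n, i)` converges absolutely (`summable_prod_of_nonneg`), then `norm_tsum_le_tsum_norm`. -/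
theorem sm_windows (hx : Adm x) (hV : ∀ y, 0 ≤ y → ‖V y‖ ≤ K * Real.exp (-2 * y)) :
    ‖sm D x V‖ ≤ ∑' i : ℕ, ‖sm D x fun y => (psi (y - i) : ℂ) * V y‖ := by
  have h1 : ∀ n : ℕ, HasSum (fun i : ℕ => psi (Real.log n - i)) 1 := fun n => by
    have h0 := Real.log_natCast_nonneg n
    have h2 : Real.log n + 1 ≤ (⌈Real.log n + 1⌉₊ : ℕ) := Nat.le_ceil _
    rw [← sum_psi h0 h2]
    refine hasSum_sum_of_ne_finset_zero fun i hi => tsm_psi (.inl ?_)
    have h3 : ((⌈Real.log n + 1⌉₊ : ℕ) : ℝ) ≤ i := by exact_mod_cast not_lt.1 (mem_range.not.1 hi)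
    linarith
  let F : ℕ → ℕ → ℂ := fun n i =>
    ((D.lam n * cm x n / √n : ℝ) : ℂ) * ((psi (Real.log n - i) : ℂ) * V (Real.log n))
  have h2 : ∀ n i, ‖F n i‖ =
      ‖((D.lam n * cm x n / √n : ℝ) : ℂ) * V (Real.log n)‖ * psi (Real.log n - i) := fun n i => by
    simp only [F, norm_mul, norm_real, Real.norm_eq_abs, abs_of_nonneg (psi_mem _).1]
    ring
  have h3 : Summable (Function.uncurry F) := by
    refine Summable.of_norm ((summable_prod_of_nonneg fun _ => norm_nonneg _).2 ⟨fun n => ?_, ?_⟩)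
    · simp only [Function.uncurry, h2]
      exact (h1 n).summable.mul_left _
    · simp only [Function.uncurry, h2, tsum_mul_left, fun n => (h1 n).tsum_eq, mul_one]
      exact summable_sm hx hV
  have h4 : sm D x V = ∑' i, ∑' n, F n i := by
    rw [h3.tsum_comm]
    refine tsum_congr fun n => ?_
    simp only [F, tsum_mul_left, tsum_mul_right]
    rw [← ofReal_tsum, (h1 n).tsum_eq, ofReal_one, one_mul]
  rw [h4]
  exact norm_tsum_le_tsum_norm h3.prod_symm.prod.norm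

/-- `sm_sum`, `sm_congr`, `sum_psi`. -/
theorem sm_windows_fin {L : ℝ} (hV : ∀ y, L < y → V y = 0) {n : ℕ} (hn : L + 1 ≤ n) :
    sm D x V = ∑ i ∈ range n, sm D x fun y => (psi (y - i) : ℂ) * V y := by
  rw [← sm_sum (L := L) _ fun i _ y hy => by rw [hV y hy, mul_zero]]
  refine sm_congr fun y hy => ?_
  by_cases h : L < y
  · simp [hV y h]
  · rw [← sum_mul, ← ofReal_sum, sum_psi hy (by linarith [not_lt.1 h]), ofReal_one, one_mul]

/-- Only `n ≤ exp Λ` coprime to `q` contribute; `cm_congr`, `mem_pr`. -/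
theorem sm_depends (D : Data) {Λ : ℝ} (hV : ∀ y, Λ < y → V y = 0) :
    DependsOn (fun x => sm D x V) (pr D Λ : Set ℕ) := by
  intro x x' h
  refine tsum_congr fun n => ?_
  by_cases h1 : Λ < Real.log n
  · simp [hV _ h1]
  by_cases h2 : n.Coprime D.q
  swap
  · simp [D.lam_zero n h2]
  rcases Nat.eq_zero_or_pos n with rfl | hn
  · simp [cm_zero]
  rw [cm_congr (x' := x') fun p hp hpn => h p (mem_coe.2 (mem_pr.2 ⟨hp, fun hq =>
    hp.one_lt.ne' (Nat.eq_one_of_dvd_coprimes h2 hpn hq), le_trans (Real.log_le_log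
      (by exact_mod_cast hp.pos) (by exact_mod_cast Nat.le_of_dvd hn hpn)) (not_lt.1 h1)⟩))]

theorem pc_supp {j : ℕ} {B L U : ℝ} {Θ : ℝ → ℂ} (h : Sm j 1 4 B Θ) (hU : 0 < U) (y : ℝ)
    (hy : L - U < y) : Θ ((L - y) / U) = 0 :=
  h.supp _ (.inl ((div_lt_one hU).2 (by linarith)))

theorem norm_pc_le (hx : Adm x) {j : ℕ} {B L U : ℝ} {Θ : ℝ → ℂ} (h : Sm j 1 4 B Θ) (hU : 0 < U) :
    ‖pc D x L U Θ‖ ≤ 2 * B * Real.exp L :=
  norm_sm_le hx h.nonneg (fun y hy => pc_supp h hU y (by linarith)) fun _ => h.norm_le _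

theorem summable_gauss {X : ℝ} (hX : 0 < X) {f : (ℕ → ℝ) → ℂ} {K : ℝ} (hf : ∀ x, Adm x → ‖f x‖ ≤ K) :
    Summable fun m : ℤ => (Real.exp (-(π * ((m : ℝ) / X) ^ 2)) : ℂ) * f (jac m) := by
  have h1 : Summable fun m : ℤ => Real.exp (-(π * ((m : ℝ) / X) ^ 2)) := by
    have h2 := (summable_pow_mul_jacobiTheta₂_term_bound 0
      (T := 1 / X ^ 2) (by positivity) 0)
    refine h2.congr fun m => ?_
    simp only [pow_zero, one_mul, mul_zero, zero_mul, sub_zero]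
    congr 1
    ring
  refine Summable.of_norm_bounded (h1.mul_right K) fun m => ?_
  rw [norm_mul, norm_real, Real.norm_eq_abs, abs_of_pos (Real.exp_pos _)]
  exact mul_le_mul_of_nonneg_left (hf _ (adm_jac m)) (Real.exp_pos _).le

theorem gsum_congr {X : ℝ} {f g : (ℕ → ℝ) → ℂ} (h : ∀ x, Adm x → f x = g x) :
    gsum X f = gsum X g :=
  tsum_congr fun m => by rw [h _ (adm_jac m)]

theorem gsum_const_mul (X : ℝ) (c : ℂ) (f : (ℕ → ℝ) → ℂ) :
    gsum X (fun x => c * f x) = c * gsum X f := by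
  unfold gsum
  rw [← tsum_mul_left]
  exact tsum_congr fun m => mul_left_comm _ _ _

theorem gsum_sum {X : ℝ} (hX : 0 < X) {κ : Type} (S : Finset κ) {f : κ → (ℕ → ℝ) → ℂ}
    (hf : ∀ i ∈ S, ∃ K : ℝ, ∀ x, Adm x → ‖f i x‖ ≤ K) :
    gsum X (fun x => ∑ i ∈ S, f i x) = ∑ i ∈ S, gsum X (f i) := by
  unfold gsum
  rw [← Summable.tsum_finsetSum fun i hi => (hf i hi).elim fun _ h => summable_gauss hX h]
  exact tsum_congr fun m => mul_sum _ _ _

end Pool.Agent.Lib.MP_03e5d0_nt
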