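import Pool.Agent.Lib.MP_03e5d0_nt.TSm
import Pool.Agent.Lib.MP_03e5d0_nt.MDef

set_option autoImplicit false

noncomputable section

namespace Pool.Agent.Lib.MP_03e5d0_nt

open Complex Finset MeasureTheory
open scoped NumberTheorySymbols Real ContDiff

/-! The weight of the central derivative and the dyadic bumps. -/

theorem mww_cont : Continuous fun v : ℝ => Real.exp (-Real.exp v) := by fun_prop

theorem mww_le (k : ℕ) (v : ℝ) : Real.exp (-Real.exp v) ≤ k.factorial * Real.exp (-(k * v)) := by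
  have h := Real.pow_div_factorial_le_exp (Real.exp v) (Real.exp_pos v).le k
  have hk : (0 : ℝ) < k.factorial := by positivity
  rw [← Real.exp_nat_mul, div_le_iff₀ hk] at h
  rw [Real.exp_neg, Real.exp_neg, ← div_eq_mul_inv, inv_eq_one_div,
    div_le_div_iff₀ (Real.exp_pos _) (Real.exp_pos _)]
  linarith

theorem mww_le_one (v : ℝ) : Real.exp (-Real.exp v) ≤ Real.exp (-v) := by
  simpa using mww_le 1 v

/-- `exp (-w) ≤ 1 / w` with `w = exp v`. -/
theorem integrableOn_ee (y : ℝ) : IntegrableOn (fun v => Real.exp (-Real.exp v)) (Set.Ioi y) := by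
  refine (integrableOn_exp_neg_Ioi y).mono' mww_cont.aestronglyMeasurable
    (Filter.Eventually.of_forall fun v => ?_)
  rw [Real.norm_eq_abs, abs_of_pos (Real.exp_pos _)]
  exact mww_le_one v

/-- Integration by parts (`integral_Ioi_mul_deriv_eq_deriv_mul`) and a translation. -/
theorem WW_eq (y : ℝ) : WW y = ∫ v in Set.Ioi y, Real.exp (-Real.exp v) := by
  have h1 : IntegrableOn ((fun x : ℝ => x) * fun x => Real.exp (y + x) *
      Real.exp (-Real.exp (y + x))) (Set.Ioi 0) := by
    refine ((integrableOn_exp_neg_Ioi 0).const_mul (6 * Real.exp (-(2 * y)))).mono'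
      (Continuous.aestronglyMeasurable (by fun_prop))
      ((ae_restrict_iff' measurableSet_Ioi).2 (Filter.Eventually.of_forall fun x hx => ?_))
    have hx0 : 0 < x := hx
    have e1 := mww_le 3 (y + x)
    have e2 : x ≤ Real.exp x := by linarith [Real.add_one_le_exp x]
    have e3 : Real.exp x * (Real.exp (y + x) * (6 * Real.exp (-(3 * (y + x))))) =
        6 * Real.exp (-(2 * y)) * Real.exp (-x) := by
      rw [mul_assoc 6, ← Real.exp_add, mul_left_comm (Real.exp (y + x)), mul_left_comm,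
        ← Real.exp_add, ← Real.exp_add]
      congr 2
      ring
    rw [Pi.mul_apply, Real.norm_eq_abs, abs_of_pos (by positivity), ← e3]
    norm_num [Nat.factorial] at e1 ⊢
    gcongr
  have h2 : IntegrableOn ((fun _ : ℝ => (1 : ℝ)) * fun x => -Real.exp (-Real.exp (y + x)))
      (Set.Ioi 0) := by
    refine ((integrableOn_exp_neg_Ioi 0).const_mul (Real.exp (-y))).mono'
      (Continuous.aestronglyMeasurable (by fun_prop)) (Filter.Eventually.of_forall fun x => ?_)
    rw [Pi.mul_apply, one_mul, norm_neg, Real.norm_eq_abs, abs_of_pos (Real.exp_pos _),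
      ← Real.exp_add, ← neg_add]
    exact mww_le_one _
  have h3 : Filter.Tendsto ((fun x : ℝ => x) * fun x => -Real.exp (-Real.exp (y + x)))
      (nhdsWithin 0 (Set.Ioi 0)) (nhds 0) := by
    have : Continuous ((fun x : ℝ => x) * fun x => -Real.exp (-Real.exp (y + x))) := by fun_prop
    simpa using (this.tendsto 0).mono_left nhdsWithin_le_nhds
  have h4 : Filter.Tendsto ((fun x : ℝ => x) * fun x => -Real.exp (-Real.exp (y + x)))
      Filter.atTop (nhds 0) := by
    have t := Real.tendsto_exp_neg_atTop_nhds_zero.const_mul (2 * Real.exp (-(2 * y)))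
    rw [mul_zero] at t
    refine squeeze_zero_norm' ?_ t
    filter_upwards [Filter.eventually_gt_atTop 0] with x hx0
    have e1 := mww_le 2 (y + x)
    have e2 : x ≤ Real.exp x := by linarith [Real.add_one_le_exp x]
    have e3 : Real.exp x * (2 * Real.exp (-(2 * (y + x)))) =
        2 * Real.exp (-(2 * y)) * Real.exp (-x) := by
      rw [mul_assoc 2, ← Real.exp_add, mul_left_comm, ← Real.exp_add]
      congr 2
      ring
    rw [Pi.mul_apply, mul_neg, norm_neg, Real.norm_eq_abs, abs_of_pos (by positivity), ← e3]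
    norm_num [Nat.factorial] at e1 ⊢
    gcongr
  have h5 := integral_Ioi_mul_deriv_eq_deriv_mul (a := 0) (u := fun x : ℝ => x)
    (u' := fun _ => (1 : ℝ)) (v := fun x => -Real.exp (-Real.exp (y + x)))
    (v' := fun x => Real.exp (y + x) * Real.exp (-Real.exp (y + x)))
    (fun x _ => hasDerivAt_id x) (fun x _ => by
      have := (((hasDerivAt_id x).const_add y).exp.neg.exp).neg
      refine this.congr_deriv ?_
      simp only [id, Pi.neg_apply]
      ring) h1 h2 h3 h4
  have h6 := (measurePreserving_add_left volume y).setIntegral_preimage_emb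
    (measurableEmbedding_addLeft y) (fun v => Real.exp (-Real.exp v)) (Set.Ioi y)
  rw [Set.preimage_const_add_Ioi, sub_self] at h6
  rw [WW, h5, ← h6]
  simp [integral_neg]

theorem mww_sub (y : ℝ) : WW y = WW 0 - ∫ v in (0 : ℝ)..y, Real.exp (-Real.exp v) := by
  rw [WW_eq, WW_eq, ← intervalIntegral.integral_Ioi_sub_Ioi' (integrableOn_ee 0) (integrableOn_ee y)]
  ring

theorem hasDerivAt_WW (y : ℝ) : HasDerivAt WW (-Real.exp (-Real.exp y)) y := by
  rw [funext mww_sub]
  exact (mww_cont.integral_hasStrictDerivAt 0 y).hasDerivAt.const_sub _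

theorem mww_deriv : deriv WW = fun y => -Real.exp (-Real.exp y) :=
  funext fun y => (hasDerivAt_WW y).deriv

theorem contDiff_WW : ContDiff ℝ ∞ WW := by
  refine contDiff_infty_iff_deriv.2 ⟨fun y => (hasDerivAt_WW y).differentiableAt, ?_⟩
  rw [mww_deriv]
  exact (Real.contDiff_exp.neg.exp).neg

theorem WW_nonneg (y : ℝ) : 0 ≤ WW y := by
  rw [WW_eq]
  exact integral_nonneg fun v => (Real.exp_pos _).le

theorem WW_le (y : ℝ) : WW y ≤ Real.exp (-y) := by
  rw [WW_eq, ← integral_exp_neg_Ioi]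
  exact integral_mono (integrableOn_ee y) (integrableOn_exp_neg_Ioi y) mww_le_one

/-- `exp (-w) ≤ 2 / w ^ 2`. -/
theorem WW_le_two (y : ℝ) : WW y ≤ Real.exp (-2 * y) := by
  have h1 := integral_exp_mul_Ioi (a := -2) (by norm_num) y
  have h2 : ∫ v in Set.Ioi y, 2 * Real.exp (-2 * v) = Real.exp (-2 * y) := by
    rw [integral_const_mul, h1]
    ring
  rw [WW_eq, ← h2]
  refine integral_mono (integrableOn_ee y)
    ((integrableOn_exp_mul_Ioi (a := -2) (by norm_num) y).const_mul 2) fun v => ?_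
  simpa [Nat.factorial] using mww_le 2 v

theorem mww_mem (v : ℝ) : 0 ≤ 1 - Real.exp (-Real.exp v) ∧ 1 - Real.exp (-Real.exp v) ≤ Real.exp v :=
  ⟨sub_nonneg.2 (Real.exp_le_one_iff.2 (neg_nonpos.2 (Real.exp_pos v).le)),
    by linarith [Real.add_one_le_exp (-Real.exp v)]⟩

theorem mww_int (y : ℝ) : IntegrableOn (fun v => 1 - Real.exp (-Real.exp v)) (Set.Iic y) := by
  refine (integrableOn_exp_Iic y).mono' (continuous_const.sub mww_cont).aestronglyMeasurable
    (Filter.Eventually.of_forall fun v => ?_)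
  rw [Real.norm_eq_abs, abs_of_nonneg (mww_mem v).1]
  exact (mww_mem v).2

theorem mww_add (y : ℝ) : WW y + y + g0 = ∫ v in Set.Iic y, (1 - Real.exp (-Real.exp v)) := by
  have h := intervalIntegral.integral_Iic_sub_Iic (mww_int 0) (mww_int y)
  rw [intervalIntegral.integral_sub (continuous_const.intervalIntegrable _ _)
    (mww_cont.intervalIntegrable _ _), intervalIntegral.integral_const, sub_zero, smul_eq_mul,
    mul_one] at h
  rw [g0, ← integral_Iic_eq_integral_Iio, mww_sub y]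
  linarith

/-- `WW y + y + g0 = ∫ v in Iio y, (1 - exp (-exp v))`: same derivative, same value at `0`; and
`0 ≤ 1 - exp (-w) ≤ w`. -/
theorem WW_add (y : ℝ) : 0 ≤ WW y + y + g0 ∧ WW y + y + g0 ≤ Real.exp y := by
  rw [mww_add]
  refine ⟨integral_nonneg fun v => (mww_mem v).1, ?_⟩
  rw [← integral_exp_Iic]
  exact integral_mono (mww_int y) (integrableOn_exp_Iic y) fun v => (mww_mem v).2

theorem mww_cauchy {g : ℂ → ℂ} (hg : Differentiable ℂ g) {f : ℝ → ℝ} (hf : ContDiff ℝ ∞ f)
    (hfg : ∀ v : ℝ, (f v : ℂ) = g v) (i : ℕ) (y M : ℝ)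
    (hM : ∀ z : ℂ, ‖z - y‖ ≤ 1 / 2 → ‖g z‖ ≤ M) :
    |iteratedDeriv i f y| ≤ i.factorial * 2 ^ i * M := by
  have h1 := ofRealLI.norm_iteratedFDeriv_comp_left (hf.contDiffAt (x := y)) (i := i)
    (by exact_mod_cast le_top)
  rw [norm_iteratedFDeriv_eq_norm_iteratedDeriv, norm_iteratedFDeriv_eq_norm_iteratedDeriv,
    Real.norm_eq_abs] at h1
  have h2 : (ofRealLI ∘ f) = fun v : ℝ => g v := funext hfg
  rw [← h1, h2, tsm_real isOpen_univ hg.differentiableOn i y trivial]
  refine (norm_iteratedDeriv_le_of_forall_mem_sphere_norm_le i (R := 1 / 2) (by norm_num)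
    hg.diffContOnCl fun z hz => hM z (mem_sphere_iff_norm.1 hz).le).trans (le_of_eq ?_)
  rw [one_div, inv_pow, div_inv_eq_mul]
  ring

theorem mww_disc {y : ℝ} {z : ℂ} (hz : ‖z - y‖ ≤ 1 / 2) :
    Real.exp (y - 1) ≤ (cexp z).re ∧ ‖cexp z‖ ≤ Real.exp (y + 1) := by
  have e1 := abs_le.1 ((abs_re_le_norm _).trans hz)
  have e2 := abs_le.1 ((abs_im_le_norm _).trans hz)
  simp only [sub_re, ofReal_re, sub_im, ofReal_im, sub_zero] at e1 e2
  refine ⟨?_, ?_⟩
  · have e3 : 7 / 8 ≤ Real.cos z.im := by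
      nlinarith [Real.one_sub_sq_div_two_le_cos (x := z.im), e2.1, e2.2]
    have e4 : Real.exp (y - 1) * Real.exp (1 / 2) ≤ Real.exp z.re := by
      rw [← Real.exp_add]
      exact Real.exp_le_exp.2 (by linarith [e1.1])
    have e5 := Real.add_one_le_exp (1 / 2)
    have e6 := Real.exp_pos (y - 1)
    rw [exp_re]
    nlinarith [Real.exp_pos z.re]
  · rw [norm_exp]
    exact Real.exp_le_exp.2 (by linarith [e1.2])

/-- `E z = exp (-exp z)` is entire, and for `‖z - y‖ ≤ 1 / 2` one has `‖E z‖ ≤ C exp (-y)`, `‖E z‖ ≤ 1`,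
`‖1 - E z‖ ≤ C exp y`; Cauchy's estimate, `tsm_real`. -/
theorem ee_deriv (i : ℕ) : ∃ C : ℝ, 0 ≤ C ∧ ∀ y : ℝ,
    |iteratedDeriv i (fun v => Real.exp (-Real.exp v)) y| ≤ C * min 1 (Real.exp (-y)) ∧
    |iteratedDeriv i (fun v => 1 - Real.exp (-Real.exp v)) y| ≤ C * Real.exp y := by
  have he : (1 : ℝ) ≤ 2 * Real.exp 1 := by linarith [Real.add_one_le_exp 1]
  refine ⟨i.factorial * 2 ^ i * (2 * Real.exp 1), by positivity, fun y => ⟨?_, ?_⟩⟩
  · rw [mul_assoc]
    refine mww_cauchy (g := fun z => cexp (-cexp z)) (by fun_prop) Real.contDiff_exp.neg.exp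
      (fun v => by push_cast; rfl) i y _ fun z hz => ?_
    have h1 := (mww_disc hz).1
    have h2 : ‖cexp (-cexp z)‖ ≤ Real.exp (-Real.exp (y - 1)) := by
      rw [norm_exp, neg_re]
      exact Real.exp_le_exp.2 (neg_le_neg h1)
    rw [mul_min_of_nonneg _ _ (by positivity)]
    refine le_min ?_ ?_
    · linarith [(mww_mem (y - 1)).1]
    · have h3 := mww_le_one (y - 1)
      rw [neg_sub, sub_eq_add_neg 1 y, Real.exp_add] at h3
      nlinarith [Real.exp_pos 1, Real.exp_pos (-y)]
  · rw [mul_assoc]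
    refine mww_cauchy (g := fun z => 1 - cexp (-cexp z)) (by fun_prop)
      (contDiff_const.sub Real.contDiff_exp.neg.exp) (fun v => by push_cast; rfl) i y _
      fun z hz => ?_
    obtain ⟨h1, h2⟩ := mww_disc hz
    have h3 : ‖1 - cexp (-cexp z)‖ ≤ 2 * ‖cexp z‖ := by
      by_cases h : ‖cexp z‖ ≤ 1
      · rw [norm_sub_rev]
        simpa using norm_exp_sub_one_le (x := -cexp z) (by simpa using h)
      · have h4 : ‖cexp (-cexp z)‖ ≤ 1 := by
          rw [norm_exp, neg_re]
          exact Real.exp_le_one_iff.2 (by linarith [Real.exp_pos (y - 1)])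
        have h5 := norm_sub_le (1 : ℂ) (cexp (-cexp z))
        rw [norm_one] at h5
        linarith [not_le.1 h]
    rw [Real.exp_add] at h2
    nlinarith

theorem mww_one (i : ℕ) : ∃ C : ℝ, 0 ≤ C ∧ ∀ y : ℝ,
    |iteratedDeriv i WW y| ≤ C * min (1 + |y|) (Real.exp (-y)) ∧
    |iteratedDeriv i (fun v => WW v + v + g0) y| ≤ C * Real.exp y := by
  rcases i with _ | i
  · refine ⟨1 + |g0|, by positivity, fun y => ⟨?_, ?_⟩⟩
    · rw [iteratedDeriv_zero, abs_of_nonneg (WW_nonneg y), mul_min_of_nonneg _ _ (by positivity)]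
      have h0 := abs_nonneg g0
      have h1 := abs_nonneg y
      refine le_min ?_ (by nlinarith [WW_le y, Real.exp_pos (-y)])
      rcases le_total 0 y with h | h
      · have : Real.exp (-y) ≤ 1 := Real.exp_le_one_iff.2 (by linarith)
        nlinarith [WW_le y]
      · have : Real.exp y ≤ 1 := Real.exp_le_one_iff.2 h
        nlinarith [(WW_add y).2, neg_abs_le y, neg_abs_le g0]
    · rw [iteratedDeriv_zero, abs_of_nonneg (WW_add y).1]
      nlinarith [(WW_add y).2, abs_nonneg g0, Real.exp_pos y]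
  · obtain ⟨C, hC, h⟩ := ee_deriv i
    refine ⟨C, hC, fun y => ⟨?_, ?_⟩⟩
    · rw [iteratedDeriv_succ', mww_deriv, iteratedDeriv_fun_neg, abs_neg]
      exact (h y).1.trans (mul_le_mul_of_nonneg_left
        (min_le_min_right _ (by linarith [abs_nonneg y])) hC)
    · have e : deriv (fun v => WW v + v + g0) = fun v => 1 - Real.exp (-Real.exp v) :=
        funext fun v => by
          rw [(((hasDerivAt_WW v).fun_add (hasDerivAt_id' v)).add_const g0).deriv]
          ring
      rw [iteratedDeriv_succ', e]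
      exact (h y).2

theorem WW_deriv (j : ℕ) : ∃ C : ℝ, 0 ≤ C ∧ ∀ i ≤ j, ∀ y : ℝ,
    |iteratedDeriv i WW y| ≤ C * min (1 + |y|) (Real.exp (-y)) ∧
    |iteratedDeriv i (fun v => WW v + v + g0) y| ≤ C * Real.exp y := by
  choose C h0 hC using mww_one
  refine ⟨∑ i ∈ range (j + 1), C i, sum_nonneg fun i _ => h0 i, fun i hi y => ?_⟩
  have h1 : C i ≤ ∑ i ∈ range (j + 1), C i :=
    single_le_sum (fun k _ => h0 k) (mem_range.2 (by omega))
  exact ⟨(hC i y).1.trans (mul_le_mul_of_nonneg_right h1 (by positivity)),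
    (hC i y).2.trans (mul_le_mul_of_nonneg_right h1 (by positivity))⟩

theorem mww_th0_smooth : ContDiff ℝ ∞ th0 :=
  ofRealCLM.contDiff.comp
    (f := fun y : ℝ => Real.smoothTransition (y - 1) - Real.smoothTransition (y / 2 - 1))
    ((Real.smoothTransition.contDiff.comp (contDiff_id.sub contDiff_const)).sub
      (Real.smoothTransition.contDiff.comp ((contDiff_id.div_const 2).sub contDiff_const)))

theorem mww_th0_supp {y : ℝ} (hy : y < 1 ∨ 4 < y) : th0 y = 0 := by
  rcases hy with hy | hy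
  · rw [th0, Real.smoothTransition.zero_of_nonpos (by linarith),
      Real.smoothTransition.zero_of_nonpos (by linarith), sub_self, ofReal_zero]
  · rw [th0, Real.smoothTransition.one_of_one_le (by linarith),
      Real.smoothTransition.one_of_one_le (by linarith), sub_self, ofReal_zero]

theorem sm_th0 (j : ℕ) : ∃ B : ℝ, Sm j 1 4 B th0 :=
  exists_sm j mww_th0_smooth fun _ hy => mww_th0_supp hy

theorem sm_th1 (j : ℕ) : ∃ B : ℝ, Sm j 1 4 B th1 :=
  exists_sm j (ofRealCLM.contDiff.mul mww_th0_smooth) fun y hy => by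
    rw [th1, mww_th0_supp hy, mul_zero]

theorem norm_th1_le (y : ℝ) : ‖th1 y‖ ≤ 4 := by
  rcases tsm_cases 1 4 y with hy | hy
  · have h1 : ‖th0 y‖ ≤ 1 := by
      rw [th0, norm_real, Real.norm_eq_abs, abs_le]
      constructor <;> linarith [Real.smoothTransition.nonneg (y - 1),
        Real.smoothTransition.le_one (y - 1), Real.smoothTransition.nonneg (y / 2 - 1),
        Real.smoothTransition.le_one (y / 2 - 1)]
    rw [th1, norm_mul, norm_real, Real.norm_eq_abs, abs_of_pos (by linarith [hy.1])]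
    nlinarith [hy.1, hy.2, norm_nonneg (th0 y)]
  · rw [th1, mww_th0_supp hy, mul_zero, norm_zero]
    norm_num

theorem Ui_pos {L : ℝ} (hL : 0 < L) (i : ℕ) : 0 < Ui L i := by
  unfold Ui
  positivity

theorem Ui_anti {L : ℝ} (hL : 0 < L) {i i' : ℕ} (h : i ≤ i') : Ui L i' ≤ Ui L i :=
  div_le_div_of_nonneg_left hL.le (by positivity) (pow_le_pow_right₀ (by norm_num) (by omega))

theorem Ui_le {L : ℝ} (hL : 0 < L) (i : ℕ) : Ui L i ≤ L / 2 := by
  simpa [Ui] using Ui_anti hL (Nat.zero_le i)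

theorem mww_Ui_succ (L : ℝ) (i : ℕ) : 2 * Ui L (i + 1) = Ui L i := by
  rw [Ui, Ui, pow_succ _ (i + 1)]
  field_simp

theorem sum_Ui_le {L : ℝ} (hL : 0 < L) (n : ℕ) : ∑ i ∈ range n, Ui L i ≤ L := by
  have h : ∑ i ∈ range n, Ui L i = L - 2 * Ui L n := by
    induction n with
    | zero => simp [Ui]; ring
    | succ n ih => rw [sum_range_succ, ih, mww_Ui_succ]; ring
  linarith [Ui_pos hL n]

/-- Telescoping: `2 * Ui L (i + 1) = Ui L i`, `2 * Ui L 0 = L`. -/
theorem sum_th0 {L u : ℝ} (hL : 0 < L) (hu : u ≤ L) (I : ℕ) :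
    ∑ i ∈ range (I + 1), th0 (u / Ui L i) = (Real.smoothTransition (u / Ui L I - 1) : ℝ) := by
  induction I with
  | zero =>
    have e : u / Ui L 0 / 2 - 1 ≤ 0 := by
      rw [Ui, div_div, sub_nonpos, div_le_one (by positivity)]
      linarith
    rw [zero_add, sum_range_one, th0, Real.smoothTransition.zero_of_nonpos e, sub_zero]
  | succ I ih =>
    have e : u / Ui L (I + 1) / 2 = u / Ui L I := by rw [div_div, mul_comm, mww_Ui_succ]
    rw [sum_range_succ, ih, th0, e]
    push_cast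
    ring

theorem sum_th1 {L u : ℝ} (hL : 0 < L) (hu : u ≤ L) (I : ℕ) :
    ∑ i ∈ range (I + 1), (Ui L i : ℂ) * th1 (u / Ui L i) =
      (u * Real.smoothTransition (u / Ui L I - 1) : ℝ) := by
  rw [ofReal_mul, ← sum_th0 hL hu I, mul_sum]
  refine sum_congr rfl fun i _ => ?_
  have h : (Ui L i : ℂ) ≠ 0 := ofReal_ne_zero.2 (Ui_pos hL i).ne'
  rw [th1, ← mul_assoc, ofReal_div, mul_div_cancel₀ _ h]

/-- If `L - t ≥ 2 Ui L i₀` the difference is `t`; otherwise `t ≥ L / 2`. -/
theorem th1_approx {L t : ℝ} (hL : 0 < L) (ht : 0 ≤ t) {i₀ : ℕ} (hi : 1 ≤ i₀) :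
    |(L - t) * Real.smoothTransition ((L - t) / Ui L i₀ - 1) - L| ≤ 2 * t := by
  have h1 : Ui L i₀ ≤ L / 4 := (Ui_anti hL hi).trans (le_of_eq (by rw [Ui]; norm_num))
  have h2 := Ui_pos hL i₀
  by_cases h : 2 * Ui L i₀ ≤ L - t
  · have e : 1 ≤ (L - t) / Ui L i₀ - 1 := by
      rw [le_sub_iff_add_le, le_div_iff₀ h2]
      linarith
    rw [Real.smoothTransition.one_of_one_le e, abs_le]
    constructor <;> linarith
  · have h3 := Real.smoothTransition.nonneg ((L - t) / Ui L i₀ - 1)
    have h4 := Real.smoothTransition.le_one ((L - t) / Ui L i₀ - 1)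
    have h5 : L ≤ 2 * t := by linarith [not_le.1 h]
    rw [abs_le]
    constructor <;> nlinarith

end Pool.Agent.Lib.MP_03e5d0_nt
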