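import Pool.Agent.Lib.MP_03e5d0_nt.MAfe1
import Pool.Agent.Lib.MP_03e5d0_nt.MWw
import Pool.Agent.Lib.MP_03e5d0_nt.MWin

set_option autoImplicit false

noncomputable section

namespace Pool.Agent.Lib.MP_03e5d0_nt

open Complex Finset MeasureTheory
open scoped NumberTheorySymbols Real ContDiff

/-! The central derivative. -/

variable {D : Data} {k : ℤ} {C : ℝ} {γ : ℕ → ℝ}

theorem mafe2_scale {E : Type} [NormedAddCommGroup E] [NormedSpace ℝ E] (f : ℝ → E) {n : ℕ}
    (hn : n ≠ 0) : ∫ t in Set.Ioi (0 : ℝ), (n : ℝ) • f (n * t) = ∫ t in Set.Ioi (0 : ℝ), f t := by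
  have h0 : (0 : ℝ) < n := Nat.cast_pos.mpr (Nat.pos_of_ne_zero hn)
  rw [integral_smul, integral_comp_mul_left_Ioi f 0 h0, mul_zero, smul_smul,
    mul_inv_cancel₀ h0.ne', one_smul]

theorem mafe2_int (hC : 0 < C) (hγ : Summable fun n => |γ n|) (h : D.Dual k C γ) :
    IntegrableOn (phi D k C) (Set.Ioi 0) ∧
      IntegrableOn (fun t => (Real.log t : ℂ) * phi D k C t) (Set.Ioi 0) := by
  obtain ⟨h1, h2, -⟩ := mellin_phi_deriv hC hγ h 1
  unfold MellinConvergent at h1 h2
  simp only [sub_self, cpow_zero, one_smul, real_smul] at h1 h2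
  exact ⟨h1, h2⟩

theorem mafe2_summ (hγ : Summable fun n => |γ n|) :
    Summable fun n => if n = 0 then 0 else γ n := by
  refine Summable.of_norm_bounded hγ fun n => ?_
  split_ifs
  · simp
  · exact le_rfl

/-- `∫ phi = ∫ phi (t⁻¹) / t ^ 2 = -∫ gdu` (`integral_comp_rpow_Ioi` with `p = -1`), and
`∫ n * phi (n t) = ∫ phi` for `n ≥ 1` (`integral_comp_mul_left_Ioi`), also for the norms, so
`hasSum_integral_of_summable_integral_norm` gives `∫ gdu = (∑_{n ≥ 1} γ n) ∫ phi`. -/
theorem integral_phi_eq_zero (hC : 0 < C) (hγ : Summable fun n => |γ n|) (h : D.Dual k C γ)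
    (h0 : 0 ≤ ∑' n, if n = 0 then 0 else γ n) : ∫ t in Set.Ioi (0 : ℝ), phi D k C t = 0 := by
  have h1 := (mafe2_int hC hγ h).1
  have h2 : ∫ t in Set.Ioi (0 : ℝ), phi D k C t = -∫ t in Set.Ioi (0 : ℝ), gdu D k C γ t := by
    rw [← integral_comp_rpow_Ioi (phi D k C) (p := -1) (by norm_num), ← integral_neg]
    refine setIntegral_congr_fun measurableSet_Ioi fun t ht => ?_
    have ht' : (0 : ℝ) < t := ht
    have ht2 : (t : ℂ) ≠ 0 := ofReal_ne_zero.mpr ht'.ne'
    rw [Real.rpow_neg_one, (phi_inv hC h ht').2, show (-1 - 1 : ℝ) = -(2 : ℕ) by norm_num,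
      Real.rpow_neg ht'.le, Real.rpow_natCast, real_smul]
    push_cast
    field_simp
    simp
  have h3 : HasSum (fun n : ℕ => ∫ t in Set.Ioi (0 : ℝ), (γ n : ℂ) * n * phi D k C (n * t))
      (∫ t in Set.Ioi (0 : ℝ), gdu D k C γ t) := by
    refine hasSum_integral_of_summable_integral_norm (fun n => ?_) ?_
    · rcases Nat.eq_zero_or_pos n with rfl | hn
      · simp
      · refine Integrable.const_mul ?_ _
        exact (integrableOn_Ioi_comp_mul_left_iff (phi D k C) 0 (Nat.cast_pos.mpr hn)).mpr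
          (by rwa [mul_zero])
    · refine Summable.of_nonneg_of_le (fun n => integral_nonneg fun t => norm_nonneg _)
        (fun n => ?_) (hγ.mul_right (∫ t in Set.Ioi (0 : ℝ), ‖phi D k C t‖))
      rcases eq_or_ne n 0 with rfl | hn
      · simp only [Nat.cast_zero, mul_zero, zero_mul, norm_zero, integral_zero]
        exact mul_nonneg (abs_nonneg _) (integral_nonneg fun t => norm_nonneg _)
      · rw [← mafe2_scale (fun t => ‖phi D k C t‖) hn, ← integral_const_mul]
        refine le_of_eq (integral_congr_ae (Filter.Eventually.of_forall fun t => ?_))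
        simp [mul_assoc]
  have h4 : ∀ n : ℕ, ∫ t in Set.Ioi (0 : ℝ), (γ n : ℂ) * n * phi D k C (n * t) =
      ((if n = 0 then 0 else γ n : ℝ) : ℂ) * ∫ t in Set.Ioi (0 : ℝ), phi D k C t := by
    intro n
    split_ifs with hn
    · simp [hn]
    · rw [← mafe2_scale (phi D k C) hn, ← integral_const_mul]
      refine integral_congr_ae (Filter.Eventually.of_forall fun t => ?_)
      simp [mul_assoc]
  simp only [h4] at h3
  have h5 := h3.unique ((hasSum_ofReal.mpr (mafe2_summ hγ).hasSum).mul_right _)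
  have h6 : ((1 + ∑' n, if n = 0 then 0 else γ n : ℝ) : ℂ) ≠ 0 :=
    ofReal_ne_zero.mpr (by linarith)
  refine (mul_eq_zero.mp ?_).resolve_left h6
  rw [ofReal_add, ofReal_one, add_mul, ← h5, one_mul, h2, neg_add_cancel]

/-- Substitute `t = exp u` (`integral_comp_log_Ioi`-like, or `integral_image_eq_integral_abs_deriv_smul`). -/
theorem integral_log_exp {a : ℝ} (ha : 0 < a) :
    IntegrableOn (fun t => Real.log t * Real.exp (-(a * t))) (Set.Ioi 1) ∧
      ∫ t in Set.Ioi (1 : ℝ), Real.log t * Real.exp (-(a * t)) = WW (Real.log a) / a := by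
  constructor
  · refine Integrable.mono' ((exp_neg_integrableOn_Ioi 1 (half_pos ha)).const_mul (2 / a))
      (by fun_prop : Measurable fun t => Real.log t * Real.exp (-(a * t))).aestronglyMeasurable
      ((ae_restrict_iff' measurableSet_Ioi).mpr (Filter.Eventually.of_forall fun t ht => ?_))
    have ht' : (1 : ℝ) < t := ht
    have h1 : Real.log t ≤ 2 / a * Real.exp (a / 2 * t) := by
      have h2 := Real.log_le_sub_one_of_pos (zero_lt_one.trans ht')
      have h3 := mul_le_mul_of_nonneg_left (Real.add_one_le_exp (a / 2 * t))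
        (show 0 ≤ 2 / a by positivity)
      have h4 : 2 / a * (a / 2 * t + 1) = t + 2 / a := by field_simp
      have h5 : 0 ≤ 2 / a := by positivity
      linarith
    rw [Real.norm_of_nonneg (mul_nonneg (Real.log_nonneg ht'.le) (Real.exp_pos _).le)]
    refine (mul_le_mul_of_nonneg_right h1 (Real.exp_pos _).le).trans_eq ?_
    rw [mul_assoc, ← Real.exp_add]
    congr 2
    ring
  · have h1 := integral_image_eq_integral_abs_deriv_smul (s := Set.Ioi (0 : ℝ)) measurableSet_Ioi
      (fun x _ => (Real.hasDerivAt_exp x).hasDerivWithinAt) Real.exp_injective.injOn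
      fun t => Real.log t * Real.exp (-(a * t))
    rw [Real.image_exp_Ioi, Real.exp_zero] at h1
    rw [h1, WW, ← integral_div]
    refine integral_congr_ae (Filter.Eventually.of_forall fun u => ?_)
    simp only [Real.log_exp, smul_eq_mul, Real.exp_add, Real.exp_log ha, Real.abs_exp]
    field_simp

theorem mafe2_norm (c : ℂ) {f : ℝ → ℝ} {s : Set ℝ} (hs : MeasurableSet s)
    (hf : ∀ t ∈ s, 0 ≤ f t) : ∫ t in s, ‖c * (f t : ℂ)‖ = ‖∫ t in s, c * (f t : ℂ)‖ := by
  rw [integral_const_mul, integral_complex_ofReal, norm_mul, norm_real,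
    Real.norm_of_nonneg (setIntegral_nonneg hs hf), ← integral_const_mul]
  refine setIntegral_congr_fun hs fun t ht => ?_
  simp only [norm_mul, norm_real, Real.norm_of_nonneg (hf t ht)]

/-- Termwise integration of `phi_hasSum`; summability from `WW_le_two`. -/
theorem integral_log_phi (D : Data) (k : ℤ) (hC : 0 < C) {n : ℕ} (hn : n ≠ 0) :
    ∫ t in Set.Ioi (1 : ℝ), (Real.log t : ℂ) * (n * phi D k C (n * t)) = ((√C / (2 * π) : ℝ) : ℂ) *
      sm D (jac k) fun y => (WW (y + Real.log n - Real.log (√C / (2 * π))) : ℂ) := by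
  obtain ⟨B, hB⟩ : ∃ B : ℝ, B = √C / (2 * π) := ⟨_, rfl⟩
  have hB0 : 0 < B := by rw [hB]; positivity
  have hb : 2 * π / √C = B⁻¹ := by rw [hB, inv_div]
  have hn0 : (0 : ℝ) < n := Nat.cast_pos.mpr (Nat.pos_of_ne_zero hn)
  rw [← hB]
  let F : ℕ → ℝ → ℂ := fun m t =>
    D.co k m * n * ((Real.log t * Real.exp (-(B⁻¹ * m * n * t)) : ℝ) : ℂ)
  let T : ℕ → ℂ := fun m => ((D.lam m * cm (jac k) m / √m : ℝ) : ℂ) *
    (WW (Real.log m + Real.log n - Real.log B) : ℂ)
  have h1 : ∀ m, IntegrableOn (F m) (Set.Ioi 1) ∧ ∫ t in Set.Ioi (1 : ℝ), F m t = B * T m := by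
    intro m
    rcases Nat.eq_zero_or_pos m with rfl | hm
    · simp [F, T, co_eq]
    have hm0 : (0 : ℝ) < m := Nat.cast_pos.mpr hm
    obtain ⟨a1, a2⟩ := integral_log_exp (a := B⁻¹ * m * n) (by positivity)
    refine ⟨Integrable.const_mul a1.ofReal _, ?_⟩
    have a3 : Real.log (B⁻¹ * m * n) = Real.log m + Real.log n - Real.log B := by
      rw [Real.log_mul (by positivity) hn0.ne', Real.log_mul (by positivity) hm0.ne', Real.log_inv]
      ring
    have a4 : (m : ℂ) ≠ 0 := Nat.cast_ne_zero.mpr hm.ne'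
    have a5 : (n : ℂ) ≠ 0 := Nat.cast_ne_zero.mpr hn
    have a6 : (B : ℂ) ≠ 0 := ofReal_ne_zero.mpr hB0.ne'
    simp only [F, T]
    rw [integral_const_mul, integral_complex_ofReal, a2, a3, co_eq]
    generalize D.lam m * cm (jac k) m / √m = c
    push_cast
    field_simp
  have h2 : Summable fun m => ‖T m‖ :=
    summable_sm (D := D) (V := fun y => (WW (y + Real.log n - Real.log B) : ℂ))
      (K := Real.exp (-2 * (Real.log n - Real.log B))) (adm_jac k) fun y _ => by
        rw [norm_real, Real.norm_of_nonneg (WW_nonneg _), ← Real.exp_add]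
        refine (WW_le_two _).trans_eq ?_
        congr 1
        ring
  have h3 := hasSum_integral_of_summable_integral_norm (F := F) (fun m => (h1 m).1) (by
    refine (h2.mul_left ‖(B : ℂ)‖).congr fun m => ?_
    rw [← norm_mul, ← (h1 m).2]
    exact (mafe2_norm _ measurableSet_Ioi fun t ht =>
      mul_nonneg (Real.log_nonneg (le_of_lt ht)) (Real.exp_pos _).le).symm)
  simp only [(h1 _).2] at h3
  have h4 := h3.unique (h2.of_norm.hasSum.mul_left (B : ℂ))
  refine Eq.trans (setIntegral_congr_fun measurableSet_Ioi fun t ht => ?_) h4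
  have h5 := ((phi_hasSum (D := D) (k := k) hC
    (mul_pos hn0 (zero_lt_one.trans ht))).mul_left (n : ℂ)).mul_left (Real.log t : ℂ)
  refine (h5.tsum_eq.symm).trans (tsum_congr fun m => ?_)
  simp only [F]
  rw [hb, ofReal_mul, mul_assoc (B⁻¹ * m)]
  ring

theorem mafe2_bound (D : Data) (k : ℤ) (hC : 0 < C) : ∃ K : ℝ, ∀ n : ℕ,
    IntegrableOn (fun t => (Real.log t : ℂ) * (n * phi D k C (n * t))) (Set.Ioi 1) ∧
      ∫ t in Set.Ioi (1 : ℝ), ‖(Real.log t : ℂ) * (n * phi D k C (n * t))‖ ≤ K := by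
  obtain ⟨K, b, hK, hb, H⟩ := phi_decay D k hC
  have h1 := (integral_log_exp hb).1.const_mul K
  refine ⟨∫ t in Set.Ioi (1 : ℝ), K * (Real.log t * Real.exp (-(b * t))), fun n => ?_⟩
  have h2 : ∀ᵐ t ∂(volume.restrict (Set.Ioi (1 : ℝ))),
      ‖(Real.log t : ℂ) * (n * phi D k C (n * t))‖ ≤ K * (Real.log t * Real.exp (-(b * t))) := by
    refine (ae_restrict_iff' measurableSet_Ioi).mpr (Filter.Eventually.of_forall fun t ht => ?_)
    have h3 := Real.log_nonneg (le_of_lt ht)
    rw [norm_mul, norm_real, Real.norm_of_nonneg h3, ← neg_mul, mul_left_comm]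
    exact mul_le_mul_of_nonneg_left (H n t (le_of_lt ht)) h3
  have h3 : IntegrableOn (fun t => (Real.log t : ℂ) * (n * phi D k C (n * t))) (Set.Ioi 1) := by
    rcases Nat.eq_zero_or_pos n with rfl | hn
    · simp
    refine Integrable.mono' h1 (ContinuousOn.aestronglyMeasurable ?_ measurableSet_Ioi) h2
    refine (continuous_ofReal.comp_continuousOn (Real.continuousOn_log.mono fun t ht => ?_)).mul
      (continuousOn_const.mul ((phi_continuousOn hC).comp (by fun_prop) fun t ht => ?_))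
    · exact (zero_lt_one.trans ht).ne'
    · exact mul_pos (Nat.cast_pos.mpr hn) (zero_lt_one.trans (Set.mem_Ioi.mp ht))
  exact ⟨h3, integral_mono_ae h3.norm h1 h2⟩

/-- Split at `t = 1`; on `(0, 1)` substitute `t ↦ t⁻¹` and use `phi_inv`; termwise integration with
`phi_decay`. -/
theorem integral_log_phi_eq (hC : 0 < C) (hγ : Summable fun n => |γ n|) (h : D.Dual k C γ) :
    ∫ t in Set.Ioi (0 : ℝ), (Real.log t : ℂ) * phi D k C t = ((√C / (2 * π) : ℝ) : ℂ) *
      Ld D (kap γ) (jac k) (Real.log (√C / (2 * π))) := by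
  obtain ⟨K, hK⟩ := mafe2_bound D k hC
  have h1 := (mafe2_int hC hγ h).2
  obtain ⟨S, hS⟩ : ∃ S : ℕ → ℂ, ∀ n, S n = sm D (jac k) fun y =>
    (WW (y + Real.log n - Real.log (√C / (2 * π))) : ℂ) := ⟨_, fun _ => rfl⟩
  obtain ⟨B, hB⟩ : ∃ B : ℂ, B = ((√C / (2 * π) : ℝ) : ℂ) := ⟨_, rfl⟩
  have h2 : ∀ n : ℕ, n ≠ 0 →
      ∫ t in Set.Ioi (1 : ℝ), (Real.log t : ℂ) * (n * phi D k C (n * t)) = B * S n := by
    intro n hn
    rw [hB, hS]
    exact integral_log_phi D k hC hn
  have h3 : ∫ t in Set.Ioi (1 : ℝ), (Real.log t : ℂ) * phi D k C t = B * S 1 := by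
    simpa only [Nat.cast_one, one_mul] using h2 1 one_ne_zero
  have h4 : ∫ t in Set.Ioc (0 : ℝ) 1, (Real.log t : ℂ) * phi D k C t =
      ∫ t in Set.Ioi (1 : ℝ), ∑' n : ℕ, (γ n : ℂ) * ((Real.log t : ℂ) * (n * phi D k C (n * t))) := by
    have a1 := integral_image_eq_integral_abs_deriv_smul (s := Set.Ioi (1 : ℝ)) measurableSet_Ioi
      (fun x hx => (hasDerivAt_inv (zero_lt_one.trans hx).ne').hasDerivWithinAt)
      inv_injective.injOn fun t => (Real.log t : ℂ) * phi D k C t
    rw [Set.image_inv_eq_inv, Set.inv_Ioi₀ zero_lt_one, inv_one] at a1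
    rw [integral_Ioc_eq_integral_Ioo, a1]
    refine setIntegral_congr_fun measurableSet_Ioi fun t ht => ?_
    have ht' : (0 : ℝ) < t := zero_lt_one.trans ht
    have ht2 : (t : ℂ) ≠ 0 := ofReal_ne_zero.mpr ht'.ne'
    obtain ⟨a2, a3⟩ := phi_inv hC h ht'
    have a4 := (a2.mul_left (Real.log t : ℂ)).tsum_eq
    rw [a3, abs_neg, abs_of_pos (by positivity), Real.log_inv, real_smul,
      tsum_congr fun n => show (γ n : ℂ) * ((Real.log t : ℂ) * (n * phi D k C (n * t))) =
        (Real.log t : ℂ) * ((γ n : ℂ) * n * phi D k C (n * t)) by ring, a4, ofReal_neg,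
      ofReal_inv, ofReal_pow]
    field_simp
  have h5 := hasSum_integral_of_summable_integral_norm (μ := volume.restrict (Set.Ioi (1 : ℝ)))
    (F := fun (n : ℕ) (t : ℝ) => (γ n : ℂ) * ((Real.log t : ℂ) * (n * phi D k C (n * t))))
    (fun n => (hK n).1.const_mul _) (by
      refine Summable.of_nonneg_of_le (fun n => integral_nonneg fun t => norm_nonneg _)
        (fun n => ?_) (hγ.mul_right K)
      simp only [norm_mul (γ n : ℂ), norm_real, Real.norm_eq_abs]
      rw [integral_const_mul]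
      exact mul_le_mul_of_nonneg_left (hK n).2 (abs_nonneg _))
  have h6 : ∀ n : ℕ, ∫ t in Set.Ioi (1 : ℝ), (γ n : ℂ) * ((Real.log t : ℂ) *
      (n * phi D k C (n * t))) = B * (((if n = 0 then 0 else γ n : ℝ) : ℂ) * S n) := by
    intro n
    split_ifs with hn
    · simp [hn]
    · rw [integral_const_mul, h2 n hn]
      ring
  simp only [h6] at h5
  have h7 : HasSum (fun n : ℕ => B * (((if n = 1 then 1 else 0 : ℝ) : ℂ) * S n)) (B * S 1) := by
    have := hasSum_single (f := fun n : ℕ => B * (((if n = 1 then 1 else 0 : ℝ) : ℂ) * S n)) 1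
      fun n hn => by simp [hn]
    simpa using this
  have h8 := (h7.add h5).tsum_eq
  rw [← Set.Ioc_union_Ioi_eq_Ioi zero_le_one, setIntegral_union Set.Ioc_disjoint_Ioi_same
    measurableSet_Ioi (h1.mono_set Set.Ioc_subset_Ioi_self)
    (h1.mono_set (Set.Ioi_subset_Ioi zero_le_one)), h3, h4, add_comm, ← h8, ← hB, Ld,
    ← tsum_mul_left]
  refine tsum_congr fun n => ?_
  rw [← hS, kap, ofReal_add]
  ring

/-- `G s = mellin phi s * (√C / (2 π)) ^ (-s) * (Gamma s)⁻¹` (`Complex.differentiable_one_div_Gamma`),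
`AnalyticAt.analyticOrderAt_eq_one_of_zero_deriv_ne_zero` or `analyticOrderAt_mul`. -/
theorem afe (hC : 0 < C) (hγ : Summable fun n => |γ n|) (h : D.Dual k C γ)
    (h0 : 0 ≤ ∑' n, if n = 0 then 0 else γ n)
    (hL : Ld D (kap γ) (jac k) (Real.log (√C / (2 * π))) ≠ 0) : D.Simple k := by
  obtain ⟨B, hB⟩ : ∃ B : ℂ, B = ((√C / (2 * π) : ℝ) : ℂ) := ⟨_, rfl⟩
  have hB0 : B ≠ 0 := by
    rw [hB]
    exact ofReal_ne_zero.mpr (by positivity)
  have hM : Differentiable ℂ (mellin (phi D k C)) := fun s =>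
    (mellin_phi_deriv hC hγ h s).2.2.differentiableAt
  have hH : Differentiable ℂ fun s : ℂ => B ^ (-s) * (Gamma s)⁻¹ :=
    (differentiable_neg.const_cpow (Or.inl hB0)).mul differentiable_one_div_Gamma
  have h1 : mellin (phi D k C) 1 = 0 := by
    rw [← integral_phi_eq_zero hC hγ h h0]
    simp [mellin]
  have h2 : mellin (fun t => Real.log t • phi D k C t) 1 =
      B * Ld D (kap γ) (jac k) (Real.log (√C / (2 * π))) := by
    rw [hB, ← integral_log_phi_eq hC hγ h]
    simp only [mellin, sub_self, cpow_zero, one_smul, real_smul]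
  refine ⟨fun s => mellin (phi D k C) s * (B ^ (-s) * (Gamma s)⁻¹), hM.mul hH, fun s hs => ?_, ?_⟩
  · have a1 : Gamma s ≠ 0 := Gamma_ne_zero_of_re_pos (by linarith)
    have a2 : B ^ s ≠ 0 := by simp [hB0]
    beta_reduce
    rw [mellin_phi D k hC hs, ← hB, cpow_neg]
    field_simp
  · refine ((hM.mul hH).analyticAt 1).analyticOrderAt_eq_one_of_zero_deriv_ne_zero
      (by simp [h1]) ?_
    rw [((mellin_phi_deriv hC hγ h 1).2.2.mul (hH 1).hasDerivAt).deriv, h1, h2, zero_mul, add_zero,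
      Gamma_one, inv_one, mul_one, cpow_neg_one]
    exact mul_ne_zero (mul_ne_zero hB0 hL) (inv_ne_zero hB0)

end Pool.Agent.Lib.MP_03e5d0_nt
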