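import Pool.Agent.Lib.MP_03e5d0_nt.MDef

set_option autoImplicit false

noncomputable section

namespace Pool.Agent.Lib.MP_03e5d0_nt

open Complex Finset MeasureTheory
open scoped NumberTheorySymbols Real ContDiff

/-! Estimates at one prime. -/

theorem lf_zero (l u : ℝ) : lf l u 0 = 1 := by simp [lf]
theorem lf_zero' (l : ℝ) (z : ℂ) : lf l 0 z = 1 := by simp [lf]

theorem mpp_w {a b : ℝ} {z : ℂ} (ha : |a| ≤ 2) (hb : |b| ≤ 1) (hz : ‖z‖ ≤ 1 / 10) :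
    ‖(a : ℂ) * z - (b : ℂ) * z ^ 2‖ ≤ 21 / 10 * ‖z‖ := by
  have h0 := norm_nonneg z
  have h1 : ‖(a : ℂ) * z‖ ≤ 2 * ‖z‖ := norm_mul_le_of_le (by rwa [Complex.norm_real]) le_rfl
  have h2 : ‖(b : ℂ) * z ^ 2‖ ≤ 1 * ‖z‖ ^ 2 :=
    norm_mul_le_of_le (by rwa [Complex.norm_real]) (norm_pow z 2).le
  refine (norm_sub_le_of_le h1 h2).trans ?_
  nlinarith

theorem mpp_den {a b : ℝ} {z : ℂ} (ha : |a| ≤ 2) (hb : |b| ≤ 1) (hz : ‖z‖ ≤ 1 / 10) :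
    1 / 2 ≤ ‖1 - (a : ℂ) * z + (b : ℂ) * z ^ 2‖ := by
  have h1 := mpp_w ha hb hz
  have h2 := norm_sub_norm_le (1 : ℂ) ((a : ℂ) * z - (b : ℂ) * z ^ 2)
  rw [norm_one, ← sub_add] at h2
  linarith

theorem mpp_lu {l u : ℝ} (hl : |l| ≤ 2) (hu : |u| ≤ 1) : |l * u| ≤ 2 := by
  rw [abs_mul]
  nlinarith [abs_nonneg l, abs_nonneg u]

theorem mpp_u {u : ℝ} (hu : u = 1 ∨ u = -1) : |u| ≤ 1 ∧ u ^ 2 = 1 := by
  rcases hu with rfl | rfl <;> simp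

theorem lf_den_ne {l u : ℝ} {z : ℂ} (hl : |l| ≤ 2) (hu : |u| ≤ 1) (hz : ‖z‖ ≤ 1 / 10) :
    1 - (l * u : ℝ) * z + (u ^ 2 : ℝ) * z ^ 2 ≠ 0 := by
  have h1 : |u ^ 2| ≤ 1 := by
    rw [abs_pow]
    exact pow_le_one₀ (abs_nonneg _) hu
  have h2 := mpp_den (mpp_lu hl hu) h1 hz
  intro h0
  rw [h0, norm_zero] at h2
  linarith
theorem lf_conj (l u : ℝ) (z : ℂ) : starRingEnd ℂ (lf l u z) = lf l u (starRingEnd ℂ z) := by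
  simp only [lf, map_inv₀, map_add, map_sub, map_mul, map_pow, map_one, Complex.conj_ofReal]

theorem mpp_log (l u : ℝ) (z : ℂ) (hl : |l| ≤ 2) (hu : u = 1 ∨ u = -1) (hz : ‖z‖ ≤ 1 / 10) :
    |Real.log ‖lf l u z‖ - (l * u * z.re + (l ^ 2 - 2) / 2 * (z ^ 2).re)| ≤ 10 * ‖z‖ ^ 3 := by
  obtain ⟨hu1, hu2⟩ := mpp_u hu
  have ha := mpp_lu hl hu1
  have hl2 : l ^ 2 = (l * u) ^ 2 := by rw [mul_pow, hu2, mul_one]
  rw [lf, hu2, hl2]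
  generalize l * u = a at ha
  have h0 := norm_nonneg z
  set w : ℂ := (a : ℂ) * z - ((1 : ℝ) : ℂ) * z ^ 2 with hw
  have h1 : ‖w‖ ≤ 21 / 10 * ‖z‖ := mpp_w ha (by simp) hz
  have h2 := Complex.norm_log_one_sub_inv_add_logTaylor_neg_le 2 (z := w) (by linarith)
  have h3 : ‖w‖ ^ (2 + 1) * (1 - ‖w‖)⁻¹ / ((2 : ℕ) + 1) ≤ 7 * ‖z‖ ^ 3 := by
    have h4 : (1 - ‖w‖)⁻¹ ≤ 2 := by
      rw [inv_le_comm₀ (by linarith) (by norm_num)]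
      linarith
    have h5 : ‖w‖ ^ 3 ≤ (21 / 10 * ‖z‖) ^ 3 := by gcongr
    have h6 : ‖w‖ ^ 3 * (1 - ‖w‖)⁻¹ ≤ (21 / 10 * ‖z‖) ^ 3 * 2 :=
      mul_le_mul h5 h4 (inv_nonneg.2 (by linarith)) (by positivity)
    have h7 : 0 ≤ ‖z‖ ^ 3 := by positivity
    push_cast
    norm_num
    nlinarith
  have h4 : ‖(a : ℂ) * z ^ 3 - z ^ 4 / 2‖ ≤ 3 * ‖z‖ ^ 3 := by
    have h5 : ‖(a : ℂ) * z ^ 3‖ ≤ 2 * ‖z‖ ^ 3 :=
      norm_mul_le_of_le (by rwa [Complex.norm_real]) (norm_pow z 3).le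
    have h6 : ‖z ^ 4 / 2‖ ≤ ‖z‖ ^ 3 := by
      rw [norm_div, norm_pow, Complex.norm_two]
      have h7 : 0 ≤ ‖z‖ ^ 3 := by positivity
      nlinarith
    linarith [norm_sub_le_of_le h5 h6]
  have h5 : Real.log ‖(1 - (a : ℂ) * z + ((1 : ℝ) : ℂ) * z ^ 2)⁻¹‖ -
      (a * z.re + (a ^ 2 - 2) / 2 * (z ^ 2).re) =
      ((log (1 - w)⁻¹ + logTaylor (2 + 1) (-w)) - ((a : ℂ) * z ^ 3 - z ^ 4 / 2)).re := by
    have h6 : (log (1 - w)⁻¹ + logTaylor (2 + 1) (-w)) - ((a : ℂ) * z ^ 3 - z ^ 4 / 2) =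
        log (1 - w)⁻¹ - ((a : ℂ) * z + ((a ^ 2 - 2) / 2 : ℝ) * z ^ 2) := by
      simp only [logTaylor, Finset.sum_range_succ, Finset.sum_range_zero, hw]
      push_cast
      ring
    rw [h6, Complex.sub_re, Complex.add_re, Complex.re_ofReal_mul, Complex.re_ofReal_mul,
      Complex.log_re, hw, ← sub_add]
  rw [h5]
  refine (Complex.abs_re_le_norm _).trans ?_
  linarith [norm_sub_le_of_le (h2.trans h3) h4]

/-- With `w = l u z - z ^ 2`, `‖w‖ ≤ 3 ‖z‖`: `Complex.norm_log_one_sub_inv_add_logTaylor_neg_le` or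
`norm_log_sub_logTaylor_le`, and `Complex.log_re`. -/
theorem log_norm_lf : ∃ C : ℝ, ∀ (l u : ℝ) (z : ℂ), |l| ≤ 2 → (u = 1 ∨ u = -1) → ‖z‖ ≤ 1 / 10 →
    |Real.log ‖lf l u z‖ - (l * u * z.re + (l ^ 2 - 2) / 2 * (z ^ 2).re)| ≤ C * ‖z‖ ^ 3 :=
  ⟨10, mpp_log⟩

theorem mpp_exp {s α b : ℝ} (hs : 0 ≤ s) (hs' : s ≤ 1 / 100) (hα : |α| ≤ 20 * s)
    (hb : |b| ≤ 24 * s ^ 2) :
    |Real.exp (α + b) - (1 + α + b + α ^ 2 / 2)| ≤ 10000 * s ^ 3 := by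
  have h1 : |α + b| ≤ 21 * s := by
    have := abs_add_le α b
    nlinarith
  have h2 := Real.exp_bound (x := α + b) (by linarith) (n := 3) (by norm_num)
  have h3 : |α + b| ^ 3 ≤ (21 * s) ^ 3 := by gcongr
  have h4 : |α * b| ≤ 20 * s * (24 * s ^ 2) := norm_mul_le_of_le (α := ℝ) hα hb
  have h5 : |b * b| ≤ 24 * s ^ 2 * (24 * s ^ 2) := norm_mul_le_of_le (α := ℝ) hb hb
  have h6 : 0 ≤ s ^ 3 := by positivity
  have h7 : s ^ 4 ≤ s ^ 3 / 100 := by nlinarith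
  simp only [Finset.sum_range_succ, Finset.sum_range_zero, Nat.factorial] at h2
  norm_num at h2
  have h8 : 0 ≤ |α + b| ^ 3 := by positivity
  rw [abs_le] at h2 h4 h5 ⊢
  constructor <;> nlinarith

theorem mpp_real {s α β ε₁ ε₂ δ : ℝ} (hs : 0 ≤ s) (hs' : s ≤ 1 / 100) (hα : |α| ≤ 20 * s)
    (hβ : |β| ≤ 18 * s ^ 2) (h₁ : |ε₁| ≤ 540 * s ^ 3) (h₂ : |ε₂| ≤ 540 * s ^ 3) (hδ : 0 ≤ δ)
    (hδ' : δ ≤ s ^ 2) :
    0 < δ + (1 - δ) / 2 * (Real.exp (α + (β + ε₁)) + Real.exp (-α + (β + ε₂))) ∧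
    |Real.log (δ + (1 - δ) / 2 * (Real.exp (α + (β + ε₁)) + Real.exp (-α + (β + ε₂)))) -
      (α ^ 2 / 2 + β)| ≤ 20000 * s ^ 3 := by
  have h2 : 0 ≤ s ^ 2 := by positivity
  have h3 : 0 ≤ s ^ 3 := by positivity
  have h32 : s ^ 3 ≤ s ^ 2 / 100 := by nlinarith
  have h43 : s ^ 4 ≤ s ^ 3 / 100 := by nlinarith
  have h20 : s ^ 2 ≤ 1 / 10000 := by nlinarith
  have e₁ := mpp_exp hs hs' hα (b := β + ε₁) (by linarith [abs_add_le β ε₁])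
  have e₂ := mpp_exp hs hs' (α := -α) (by rwa [abs_neg]) (b := β + ε₂)
    (by linarith [abs_add_le β ε₂])
  set m := (Real.exp (α + (β + ε₁)) + Real.exp (-α + (β + ε₂))) / 2 - 1 with hm
  have h4 : |m - (α ^ 2 / 2 + β)| ≤ 10540 * s ^ 3 := by
    rw [abs_le] at e₁ e₂ h₁ h₂ ⊢
    rw [neg_sq] at e₂
    constructor <;> linarith [e₁.1, e₁.2, e₂.1, e₂.2]
  have h5 : α ^ 2 ≤ (20 * s) ^ 2 := sq_le_sq.2 (hα.trans (le_abs_self _))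
  have h6 : |m| ≤ 330 * s ^ 2 := by
    rw [abs_le] at h4 hβ ⊢
    constructor <;> nlinarith [sq_nonneg α]
  have h7 : |δ * m| ≤ s ^ 2 * (330 * s ^ 2) :=
    norm_mul_le_of_le (α := ℝ) (show |δ| ≤ _ by rwa [abs_of_nonneg hδ]) h6
  set t := m - δ * m with ht
  have h8 : δ + (1 - δ) / 2 * (Real.exp (α + (β + ε₁)) + Real.exp (-α + (β + ε₂))) = 1 - -t := by
    rw [ht, hm]
    ring
  have h9 : |t| ≤ 331 * s ^ 2 := by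
    have := abs_sub m (δ * m)
    nlinarith
  have h10 := Real.abs_log_sub_add_sum_range_le (x := -t) (by rw [abs_neg]; linarith) 1
  have h11 : |-t| ^ (1 + 1) / (1 - |-t|) ≤ 2 * (331 * s ^ 2) ^ 2 := by
    rw [abs_neg, div_le_iff₀ (by linarith)]
    have h12 : |t| ^ 2 ≤ (331 * s ^ 2) ^ 2 := by gcongr
    have h13 : 0 ≤ (331 * s ^ 2) ^ 2 := by positivity
    have h14 : 1 / 2 ≤ 1 - |t| := by linarith
    have h15 := mul_le_mul_of_nonneg_left h14 h13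
    norm_num only
    linarith
  have h12 := h10.trans h11
  simp only [Finset.sum_range_succ, Finset.sum_range_zero, zero_add, pow_one, Nat.cast_zero,
    div_one] at h12
  rw [h8]
  rw [abs_le] at h4 h7 h9 h12 ⊢
  refine ⟨by linarith, ?_, ?_⟩ <;> nlinarith

theorem mpp_s {p : ℝ} (hp : 10000 ≤ p) : 0 ≤ 1 / √p ∧ 1 / √p ≤ 1 / 100 ∧ 1 / p = (1 / √p) ^ 2 ∧
    1 / (p * √p) = (1 / √p) ^ 3 := by
  have h1 : 100 ≤ √p := Real.le_sqrt_of_sq_le (by linarith)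
  have h2 : √p ^ 2 = p := Real.sq_sqrt (by linarith)
  refine ⟨by positivity, one_div_le_one_div_of_le (by norm_num) h1, ?_, ?_⟩
  · rw [div_pow, h2, one_pow]
  · rw [div_pow, pow_succ √p, h2, one_pow]

theorem mpp_f {s l c u : ℝ} {z₁ z₂ : ℂ} (hs' : s ≤ 1 / 100) (hl : |l| ≤ 2) (hu : u = 1 ∨ u = -1)
    (h₁ : ‖z₁‖ ≤ 3 * s) (h₂ : ‖z₂‖ ≤ 3 * s) :
    ∃ ε, |ε| ≤ 540 * s ^ 3 ∧ ‖lf l u z₁‖ * ‖lf l u z₂‖ * Real.exp (c * (l * u * s)) =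
      Real.exp (u * (l * (z₁.re + z₂.re + c * s)) +
        ((l ^ 2 - 2) / 2 * (z₁ ^ 2 + z₂ ^ 2).re + ε)) := by
  have e₁ := mpp_log l u z₁ hl hu (by linarith)
  have e₂ := mpp_log l u z₂ hl hu (by linarith)
  have p₁ : 0 < ‖lf l u z₁‖ :=
    norm_pos_iff.2 (inv_ne_zero (lf_den_ne hl (mpp_u hu).1 (by linarith)))
  have p₂ : 0 < ‖lf l u z₂‖ :=
    norm_pos_iff.2 (inv_ne_zero (lf_den_ne hl (mpp_u hu).1 (by linarith)))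
  have b₁ : ‖z₁‖ ^ 3 ≤ (3 * s) ^ 3 := by gcongr
  have b₂ : ‖z₂‖ ^ 3 ≤ (3 * s) ^ 3 := by gcongr
  refine ⟨_, (abs_add_le _ _).trans ((add_le_add e₁ e₂).trans (by nlinarith)), ?_⟩
  conv_lhs => rw [← Real.exp_log p₁, ← Real.exp_log p₂, ← Real.exp_add, ← Real.exp_add]
  rw [Complex.add_re]
  congr 1
  ring

/-- The values at `u = ±1` are `exp (± α + β + O(p^(-3/2)))` with `α = O(p^(-1/2))`, `β = O(1/p)`; so the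
expectation is `1 + β + α ^ 2 / 2 + O(p^(-3/2))`, and `|log (1 + t) - t| ≤ t ^ 2` for `|t| ≤ 1 / 2`. The
bound is needed for all `p ≥ 10000`: the expectation lies between the smallest and the largest of the
three values, all in `[exp (-1), exp 1]`, which settles bounded `p`. -/
theorem pp_abs : ∃ C : ℝ, 0 ≤ C ∧ ∀ (p l δ c : ℝ) (z₁ z₂ : ℂ), 10000 ≤ p → |l| ≤ 2 → 0 ≤ δ → δ ≤ 1 / p →
    |c| ≤ 4 → ‖z₁‖ ≤ 3 / √p → ‖z₂‖ ≤ 3 / √p →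
    0 < e1 δ (fun u => ‖lf l u z₁‖ * ‖lf l u z₂‖ * Real.exp (c * (l * u / √p))) ∧
    |Real.log (e1 δ fun u => ‖lf l u z₁‖ * ‖lf l u z₂‖ * Real.exp (c * (l * u / √p))) -
      mn l (c / √p) z₁ z₂| ≤ C / (p * √p) := by
  refine ⟨20000, by norm_num, fun p l δ c z₁ z₂ hp hl hδ hδ' hc h₁ h₂ => ?_⟩
  obtain ⟨hs, hs', e₂, e₃⟩ := mpp_s hp
  have e₀ : ∀ x : ℝ, x / √p = x * (√p)⁻¹ := fun x => div_eq_mul_inv _ _
  rw [div_eq_mul_one_div 20000, e₃]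
  rw [e₂] at hδ'
  simp only [e₀, one_mul] at h₁ h₂ hs hs' hδ' ⊢
  generalize (√p)⁻¹ = s at *
  obtain ⟨ε₁, a₁, b₁⟩ := mpp_f (c := c) hs' hl (Or.inl rfl) h₁ h₂
  obtain ⟨ε₂, a₂, b₂⟩ := mpp_f (c := c) hs' hl (Or.inr rfl) h₁ h₂
  have hα : |l * (z₁.re + z₂.re + c * s)| ≤ 20 * s := by
    have h3 : |c * s| ≤ 4 * s :=
      norm_mul_le_of_le (α := ℝ) hc (show |s| ≤ _ by rw [abs_of_nonneg hs])
    have h4 : |z₁.re + z₂.re + c * s| ≤ 10 * s := by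
      linarith [abs_add_three z₁.re z₂.re (c * s), Complex.abs_re_le_norm z₁,
        Complex.abs_re_le_norm z₂]
    have h5 : |l * (z₁.re + z₂.re + c * s)| ≤ 2 * (10 * s) := norm_mul_le_of_le (α := ℝ) hl h4
    linarith
  have hβ : |(l ^ 2 - 2) / 2 * (z₁ ^ 2 + z₂ ^ 2).re| ≤ 18 * s ^ 2 := by
    have h3 : |(l ^ 2 - 2) / 2| ≤ 1 := by
      rw [abs_le] at hl ⊢
      constructor <;> nlinarith [sq_nonneg l]
    have h4 : |(z₁ ^ 2 + z₂ ^ 2).re| ≤ 18 * s ^ 2 := by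
      have c₁ : ‖z₁‖ ^ 2 ≤ (3 * s) ^ 2 := by gcongr
      have c₂ : ‖z₂‖ ^ 2 ≤ (3 * s) ^ 2 := by gcongr
      have c₃ := norm_add_le (z₁ ^ 2) (z₂ ^ 2)
      rw [norm_pow, norm_pow] at c₃
      linarith [Complex.abs_re_le_norm (z₁ ^ 2 + z₂ ^ 2)]
    have h5 : |(l ^ 2 - 2) / 2 * (z₁ ^ 2 + z₂ ^ 2).re| ≤ 1 * (18 * s ^ 2) :=
      norm_mul_le_of_le (α := ℝ) h3 h4
    linarith
  have key := mpp_real hs hs' hα hβ a₁ a₂ hδ hδ'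
  have h6 : mn l (c * s) z₁ z₂ =
      (l * (z₁.re + z₂.re + c * s)) ^ 2 / 2 + (l ^ 2 - 2) / 2 * (z₁ ^ 2 + z₂ ^ 2).re := by
    rw [mn]
    ring
  simp only [e1, smul_eq_mul]
  rw [b₁, b₂, h6, lf_zero', lf_zero']
  simpa using key

theorem mpp_exp4 {r a : ℝ} {z : ℂ} (hr : r ≤ 1 / 10) (ha : |a| ≤ 2) (hz : ‖z‖ ≤ r) :
    ‖(1 - (a : ℂ) * z + ((1 : ℝ) : ℂ) * z ^ 2)⁻¹‖ ≤ 2 ∧
    ‖(1 - (a : ℂ) * z + ((1 : ℝ) : ℂ) * z ^ 2)⁻¹ -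
      (1 + a * z + (a ^ 2 - 1 : ℝ) * z ^ 2 + (a ^ 3 - 2 * a : ℝ) * z ^ 3)‖ ≤ 20 * r ^ 4 := by
  have h0 : 0 ≤ r := (norm_nonneg z).trans hz
  have h1 := mpp_den ha (b := 1) (by simp) (hz.trans hr)
  set d : ℂ := 1 - (a : ℂ) * z + ((1 : ℝ) : ℂ) * z ^ 2 with hd
  have hd0 : d ≠ 0 := by
    intro h
    rw [h, norm_zero] at h1
    linarith
  have h2 : ‖d⁻¹‖ ≤ 2 := by
    rw [norm_inv, inv_le_comm₀ (by linarith) (by norm_num)]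
    linarith
  refine ⟨h2, ?_⟩
  have h3 : d⁻¹ - (1 + a * z + (a ^ 2 - 1 : ℝ) * z ^ 2 + (a ^ 3 - 2 * a : ℝ) * z ^ 3) =
      d⁻¹ * ((a ^ 4 - 3 * a ^ 2 + 1 : ℝ) * z ^ 4 - (a ^ 3 - 2 * a : ℝ) * z ^ 5) := by
    rw [eq_inv_mul_iff_mul_eq₀ hd0, mul_sub, mul_inv_cancel₀ hd0, hd]
    push_cast
    ring
  have ha2 : a ^ 2 ≤ 4 := by
    rw [abs_le] at ha
    nlinarith
  have h4 : |a ^ 4 - 3 * a ^ 2 + 1| ≤ 8 := by
    rw [abs_le]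
    constructor <;> nlinarith [sq_nonneg a, sq_nonneg (a ^ 2 - 2)]
  have h5 : |a ^ 3 - 2 * a| ≤ 4 := by
    have h6 : |a ^ 2 - 2| ≤ 2 := by
      rw [abs_le]
      constructor <;> nlinarith [sq_nonneg a]
    have h7 : |a * (a ^ 2 - 2)| ≤ 2 * 2 := norm_mul_le_of_le (α := ℝ) ha h6
    rw [show a ^ 3 - 2 * a = a * (a ^ 2 - 2) by ring]
    linarith
  have h6 : ‖((a ^ 4 - 3 * a ^ 2 + 1 : ℝ) : ℂ) * z ^ 4‖ ≤ 8 * r ^ 4 :=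
    norm_mul_le_of_le (by rwa [Complex.norm_real]) (by rw [norm_pow]; gcongr)
  have h7 : ‖((a ^ 3 - 2 * a : ℝ) : ℂ) * z ^ 5‖ ≤ 4 * r ^ 5 :=
    norm_mul_le_of_le (by rwa [Complex.norm_real]) (by rw [norm_pow]; gcongr)
  rw [h3]
  refine (norm_mul_le_of_le h2 (norm_sub_le_of_le h6 h7)).trans ?_
  have h8 : 0 ≤ r ^ 4 := by positivity
  nlinarith

theorem mpp_two {x y P Q : ℂ} {e : ℝ} (he : e ≤ 1) (hx : ‖x‖ ≤ 2) (hy : ‖y‖ ≤ 2)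
    (hP : ‖x - P‖ ≤ e) (hQ : ‖y - Q‖ ≤ e) : ‖x * y - P * Q‖ ≤ 5 * e := by
  have h0 : 0 ≤ e := (norm_nonneg _).trans hP
  have h1 : x * y - P * Q = x * (y - Q) + (x - P) * y - (x - P) * (y - Q) := by ring
  rw [h1]
  refine (norm_sub_le_of_le (norm_add_le_of_le (norm_mul_le_of_le hx hQ)
    (norm_mul_le_of_le hP hy)) (norm_mul_le_of_le hP hQ)).trans ?_
  nlinarith

theorem mpp_un {r l : ℝ} {z₁ z₂ : ℂ} (hl : |l| ≤ 2) (h₁ : ‖z₁‖ ≤ r) (h₂ : ‖z₂‖ ≤ r) :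
    ‖un l z₁ z₂‖ ≤ 10 * r ^ 2 := by
  have ha2 : l ^ 2 ≤ 4 := by
    rw [abs_le] at hl
    nlinarith
  have h3 : ‖(l : ℂ) ^ 2 - 1‖ ≤ 3 := by
    rw [show (l : ℂ) ^ 2 - 1 = (l ^ 2 - 1 : ℝ) by push_cast; ring, Complex.norm_real,
      Real.norm_eq_abs, abs_le]
    constructor <;> nlinarith [sq_nonneg l]
  have h4 : ‖(l : ℂ) ^ 2‖ ≤ 4 := by
    rw [norm_pow, Complex.norm_real, Real.norm_eq_abs, sq_abs]
    exact ha2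
  have h5 : ‖z₁ ^ 2‖ ≤ r ^ 2 := by rw [norm_pow]; gcongr
  have h6 : ‖z₂ ^ 2‖ ≤ r ^ 2 := by rw [norm_pow]; gcongr
  refine (norm_add_le_of_le (norm_mul_le_of_le h3 (norm_add_le_of_le h5 h6))
    (norm_mul_le_of_le (norm_mul_le_of_le h4 h₁) h₂)).trans (le_of_eq ?_)
  ring

/-- `lf l u z = 1 + l u z + (l ^ 2 - 1) z ^ 2 + u c₃ z ^ 3 + O(z ^ 4)` for `u = ±1`,
`c₃ = l ^ 3 - 2 l`; in the product the terms of odd degree are odd in `u`. -/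
theorem pp_prod : ∃ C : ℝ, 0 ≤ C ∧ ∀ (r l δ : ℝ) (z₁ z₂ : ℂ), r ≤ 1 / 10 → |l| ≤ 2 → 0 ≤ δ → δ ≤ 1 →
    ‖z₁‖ ≤ r → ‖z₂‖ ≤ r →
    ‖e1 δ (fun u => lf l u z₁ * lf l u z₂) - 1 - un l z₁ z₂‖ ≤ C * (r ^ 4 + δ * r ^ 2) := by
  refine ⟨200, by norm_num, fun r l δ z₁ z₂ hr hl hδ hδ' h₁ h₂ => ?_⟩
  have h0 : 0 ≤ r := (norm_nonneg _).trans h₁
  have hl' : |-l| ≤ 2 := by rwa [abs_neg]
  have h4 : 0 ≤ r ^ 4 := by positivity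
  have h41 : 20 * r ^ 4 ≤ 1 := by
    have : r ^ 4 ≤ (1 / 10) ^ 4 := by gcongr
    linarith
  have a₁ := mpp_two h41 (mpp_exp4 hr hl h₁).1 (mpp_exp4 hr hl h₂).1 (mpp_exp4 hr hl h₁).2
    (mpp_exp4 hr hl h₂).2
  have a₂ := mpp_two h41 (mpp_exp4 hr hl' h₁).1 (mpp_exp4 hr hl' h₂).1 (mpp_exp4 hr hl' h₁).2
    (mpp_exp4 hr hl' h₂).2
  have ha2 : l ^ 2 ≤ 4 := by
    rw [abs_le] at hl
    nlinarith
  have c₁ : ‖(((l ^ 2 - 1) ^ 2 : ℝ) : ℂ)‖ ≤ 9 := by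
    rw [Complex.norm_real, Real.norm_eq_abs, abs_of_nonneg (sq_nonneg _)]
    nlinarith [sq_nonneg l]
  have c₂ : ‖((l ^ 2 * (l ^ 2 - 2) : ℝ) : ℂ)‖ ≤ 8 := by
    rw [Complex.norm_real, Real.norm_eq_abs, abs_le]
    constructor <;> nlinarith [sq_nonneg l, sq_nonneg (l ^ 2 - 1)]
  have c₃ : ‖((l ^ 2 * (l ^ 2 - 2) ^ 2 : ℝ) : ℂ)‖ ≤ 16 := by
    rw [Complex.norm_real, Real.norm_eq_abs, abs_of_nonneg (by positivity)]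
    have : (l ^ 2 - 2) ^ 2 ≤ 4 := by nlinarith [sq_nonneg l]
    nlinarith [sq_nonneg l, sq_nonneg (l ^ 2 - 2)]
  have d : ∀ i j : ℕ, ‖z₁ ^ i * z₂ ^ j‖ ≤ r ^ (i + j) := by
    intro i j
    rw [norm_mul, norm_pow, norm_pow, pow_add]
    gcongr
  have a₃ := norm_add_le_of_le (norm_add_le_of_le (norm_mul_le_of_le c₁ (d 2 2))
    (norm_mul_le_of_le c₂ (norm_add_le_of_le (d 1 3) (d 3 1)))) (norm_mul_le_of_le c₃ (d 3 3))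
  have n₁ : ‖(((1 - δ) / 2 : ℝ) : ℂ)‖ ≤ 1 / 2 := by
    rw [Complex.norm_real, Real.norm_eq_abs, abs_le]
    constructor <;> linarith
  have n₂ : ‖((1 - δ : ℝ) : ℂ)‖ ≤ 1 := by
    rw [Complex.norm_real, Real.norm_eq_abs, abs_le]
    constructor <;> linarith
  have n₃ : ‖(δ : ℂ)‖ ≤ δ := by rw [Complex.norm_real, Real.norm_eq_abs, abs_of_nonneg hδ]
  have key := norm_sub_le_of_le (norm_add_le_of_le (norm_mul_le_of_le n₁ (norm_add_le_of_le a₁ a₂))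
    (norm_mul_le_of_le n₂ a₃)) (norm_mul_le_of_le n₃ (mpp_un hl h₁ h₂))
  refine le_trans (le_of_eq ?_) (key.trans ?_)
  · congr 1
    simp only [e1, lf_zero', Complex.real_smul]
    simp only [lf, un, mul_one, mul_neg, one_pow, neg_one_sq]
    push_cast
    ring
  · have h6 : r ^ 6 ≤ r ^ 4 := pow_le_pow_of_le_one h0 (by linarith) (by norm_num)
    have h7 : 0 ≤ δ * r ^ 2 := by positivity
    norm_num
    nlinarith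

theorem mpp_one_add (w : ℂ) : ‖1 + w‖ ≤ Real.exp (w.re + ‖w‖ ^ 2) := by
  refine abs_le_of_sq_le_sq' ?_ (Real.exp_pos _).le |>.2
  have h1 : ‖1 + w‖ ^ 2 = 2 * w.re + ‖w‖ ^ 2 + 1 := by
    rw [Complex.sq_norm, Complex.sq_norm, Complex.normSq_apply, Complex.normSq_apply]
    simp only [add_re, one_re, add_im, one_im]
    ring
  rw [h1, ← Real.exp_nat_mul]
  refine (Real.add_one_le_exp _).trans (Real.exp_le_exp.2 ?_)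
  push_cast
  nlinarith [sq_nonneg ‖w‖]

/-- `‖1 + w‖ ≤ exp (re w + ‖w‖ ^ 2)`. -/
theorem pp_prod_le : ∃ C : ℝ, 0 ≤ C ∧ ∀ (p l δ : ℝ) (z₁ z₂ : ℂ), 10000 ≤ p → |l| ≤ 2 → 0 ≤ δ →
    δ ≤ 1 / p → ‖z₁‖ ≤ 3 / √p → ‖z₂‖ ≤ 3 / √p →
    ‖e1 δ fun u => lf l u z₁ * lf l u z₂‖ ≤ Real.exp ((un l z₁ z₂).re + C / (p * √p)) := by
  obtain ⟨C, hC, h⟩ := pp_prod
  refine ⟨C + (90 + C) ^ 2, by positivity, fun p l δ z₁ z₂ hp hl hδ hδ' h₁ h₂ => ?_⟩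
  obtain ⟨hs, hs', e₂, e₃⟩ := mpp_s hp
  rw [div_eq_mul_one_div _ √p] at h₁ h₂
  rw [div_eq_mul_one_div (C + (90 + C) ^ 2), e₃]
  rw [e₂] at hδ'
  generalize 1 / √p = s at *
  have h2 : 0 ≤ s ^ 2 := by positivity
  have h3 : 0 ≤ s ^ 3 := by positivity
  have h32 : s ^ 3 ≤ s ^ 2 := by nlinarith
  have h43 : s ^ 4 ≤ s ^ 3 / 100 := by nlinarith
  have h4 := h (3 * s) l δ z₁ z₂ (by linarith) hl hδ (by nlinarith) h₁ h₂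
  have h5 : (3 * s) ^ 4 + δ * (3 * s) ^ 2 ≤ s ^ 3 := by nlinarith
  have h6 := h4.trans (mul_le_mul_of_nonneg_left h5 hC)
  have h7 := mpp_un hl h₁ h₂
  generalize e1 δ (fun u => lf l u z₁ * lf l u z₂) = E at h6 ⊢
  generalize un l z₁ z₂ = U at h6 h7 ⊢
  have h8 := mpp_one_add (E - 1)
  rw [add_sub_cancel] at h8
  refine h8.trans (Real.exp_le_exp.2 ?_)
  have h9 : (E - 1).re ≤ U.re + C * s ^ 3 := by
    have := Complex.re_le_norm (E - 1 - U)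
    rw [Complex.sub_re] at this
    linarith
  have h10 : ‖E - 1‖ ≤ (90 + C) * s ^ 2 := by
    have := norm_add_le_of_le h6 h7
    rw [sub_add_cancel] at this
    nlinarith
  have h11 : ‖E - 1‖ ^ 2 ≤ ((90 + C) * s ^ 2) ^ 2 := by gcongr
  have h12 : 0 ≤ (90 + C) ^ 2 := by positivity
  nlinarith

end Pool.Agent.Lib.MP_03e5d0_nt
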