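import Pool.Agent.Lib.MP_03e5d0_nt.MPs1

set_option autoImplicit false

noncomputable section

namespace Pool.Agent.Lib.MP_03e5d0_nt

open Complex Finset MeasureTheory
open scoped NumberTheorySymbols Real ContDiff

/-! Consequences of `D.PS` for truncated prime sums. In `PSdata` only the values of `a` at primes matter;
to use `psum_trunc` replace `a p` by `if p.Prime then a p else 0`. -/

theorem mps2_core (D : Data) {a : ℕ → ℝ} (h : PSdata D.q a) (ha : ∀ p : ℕ, p.Prime → |a p| ≤ 4) :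
    ∃ (C : ℝ) (k : ℕ), 0 ≤ C ∧ ∀ Λ τ : ℝ, 1 ≤ Λ →
      |∑ p ∈ pr D Λ, a p * Real.cos (τ * Real.log p) / p + Real.log ‖(1 / Λ + I * τ : ℂ)‖| ≤
        C + k * Real.log (1 + |τ|) := by
  obtain ⟨C, k, hC, H⟩ := h
  obtain ⟨C', H'⟩ := psum_trunc
  refine ⟨C + |C'|, k, by positivity, fun Λ τ hΛ => ?_⟩
  have h1 := H' D (fun p => if p.Prime then a p else 0) Λ τ (fun p => by
    split_ifs with hp
    · exact ha p hp
    · simp) hΛ
  have h2 : PSum D.q (fun p => if p.Prime then a p else 0) (1 + 1 / Λ + I * τ) =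
      PSum D.q a (1 + 1 / Λ + I * τ) := by
    refine tsum_congr fun p => ?_
    by_cases hp : p.Prime <;> simp [hp]
  have h3 : (1 + 1 / Λ + I * τ : ℂ).re = 1 + 1 / Λ := by simp
  have h4 : (1 + 1 / Λ + I * τ : ℂ).im = τ := by simp
  have h5 : 0 < 1 / Λ := by positivity
  have h6 : 1 / Λ ≤ 1 := by rwa [div_le_one (by positivity)]
  have h7 := (H (1 + 1 / Λ + I * τ) (by rw [h3]; linarith) (by rw [h3]; linarith)).1
  rw [h4, show (1 + 1 / Λ + I * τ : ℂ) - 1 = 1 / Λ + I * τ by ring] at h7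
  have h8 := (abs_re_le_norm _).trans h1
  rw [h2, sub_re, re_sum] at h8
  have h9 : ∑ p ∈ pr D Λ, (((((if p.Prime then a p else 0) / p : ℝ) : ℂ)) *
      ex (-τ) (Real.log p)).re = ∑ p ∈ pr D Λ, a p * Real.cos (τ * Real.log p) / p := by
    refine sum_congr rfl fun p hp => ?_
    rw [if_pos (mem_pr.1 hp).1, re_ofReal_mul, ex,
      show I * ((-τ : ℝ) : ℂ) * (Real.log p : ℂ) = ((-(τ * Real.log p) : ℝ) : ℂ) * I by
        push_cast; ring, exp_ofReal_mul_I_re, Real.cos_neg]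
    ring
  rw [h9] at h8
  have h10 := le_abs_self C'
  rw [abs_le] at h7 h8 ⊢
  constructor <;> linarith [h7.1, h7.2, h8.1, h8.2]

theorem mps2_zero (D : Data) {a : ℕ → ℝ} (h : PSdata D.q a) (ha : ∀ p : ℕ, p.Prime → |a p| ≤ 4) :
    ∃ C : ℝ, ∀ Λ : ℝ, |∑ p ∈ pr D Λ, a p / p - Real.log (ly Λ)| ≤ C := by
  obtain ⟨C, k, hC, H⟩ := mps2_core D h ha
  refine ⟨C, fun Λ => ?_⟩
  rcases le_total Λ 1 with hΛ | hΛ
  · rw [pr_eq_empty D hΛ, ly, max_eq_left hΛ]
    simpa using hC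
  · have h1 := H Λ 0 hΛ
    have h2 : ‖(1 / Λ + I * (0 : ℝ) : ℂ)‖ = Λ⁻¹ := by
      simp [abs_of_nonneg (zero_le_one.trans hΛ)]
    rw [h2, Real.log_inv] at h1
    rw [ly, max_eq_right hΛ, sub_eq_add_neg]
    simpa using h1

theorem mps2_lam (D : Data) (p : ℕ) (hp : p.Prime) : |D.lam p ^ 2| ≤ 4 := by
  have := pow_le_pow_left₀ (abs_nonneg _) (D.lam_le p hp) 2
  rw [abs_pow]
  linarith

theorem mps2_log (k : ℕ) (τ : ℝ) : k * Real.log (1 + |τ|) ≤ k * Real.log (2 + |τ|) :=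
  mul_le_mul_of_nonneg_left (Real.log_le_log (by positivity) (by linarith)) (Nat.cast_nonneg _)

/-- `psum_trunc` with `τ = 0` and `log ‖s - 1‖ = -log Λ`; for `Λ ≤ 1` both sides vanish. -/
theorem ps_sq (D : Data) (hPS : D.PS) : ∃ C : ℝ, ∀ Λ : ℝ,
    |∑ p ∈ pr D Λ, D.lam p ^ 2 / p - Real.log (ly Λ)| ≤ C :=
  mps2_zero D hPS.1 (mps2_lam D)
theorem ps_one (D : Data) (hPS : D.PS) : ∃ C : ℝ, ∀ Λ : ℝ,
    |∑ p ∈ pr D Λ, (1 : ℝ) / p - Real.log (ly Λ)| ≤ C :=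
  mps2_zero D hPS.2 fun _ _ => by norm_num
/-- `1 / ‖1 / Λ + i τ‖ ≤ 2 * kr Λ τ`. -/
theorem ps_cos_sq (D : Data) (hPS : D.PS) : ∃ (C : ℝ) (k : ℕ), ∀ Λ τ : ℝ, 1 ≤ Λ →
    ∑ p ∈ pr D Λ, D.lam p ^ 2 * Real.cos (τ * Real.log p) / p ≤
      Real.log (kr Λ τ) + C + k * Real.log (2 + |τ|) := by
  obtain ⟨C, k, -, H⟩ := mps2_core D hPS.1 (mps2_lam D)
  refine ⟨C + Real.log 2, k, fun Λ τ hΛ => ?_⟩
  have h1 := (abs_le.1 (H Λ τ hΛ)).2
  have h2 := mps2_log k τ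
  have h3 : 1 / Λ ≤ ‖(1 / Λ + I * τ : ℂ)‖ := by
    simpa using re_le_norm (1 / Λ + I * τ : ℂ)
  have h4 : |τ| ≤ ‖(1 / Λ + I * τ : ℂ)‖ := by
    simpa using abs_im_le_norm (1 / Λ + I * τ : ℂ)
  have h5 : 0 < 1 / Λ := by positivity
  have h6 : (kr Λ τ)⁻¹ = 1 / Λ + |τ| := by
    unfold kr
    field_simp
  have h7 := Real.log_le_log (x := (kr Λ τ)⁻¹) (y := 2 * ‖(1 / Λ + I * τ : ℂ)‖)
    (by rw [h6]; positivity) (by rw [h6]; linarith)
  rw [Real.log_inv, Real.log_mul two_ne_zero (h5.trans_le h3).ne'] at h7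
  linarith
theorem ps_cos_sym (D : Data) (hPS : D.PS) : ∃ (C : ℝ) (k : ℕ), ∀ Λ τ : ℝ, 1 ≤ Λ →
    |∑ p ∈ pr D Λ, (D.lam p ^ 2 - 1) * Real.cos (τ * Real.log p) / p| ≤
      C + k * Real.log (2 + |τ|) := by
  obtain ⟨C, k, -, H⟩ := mps2_core D hPS.1 (mps2_lam D)
  obtain ⟨C', k', -, H'⟩ := mps2_core D hPS.2 fun _ _ => by norm_num
  refine ⟨C + C', k + k', fun Λ τ hΛ => ?_⟩
  have h1 := abs_le.1 (H Λ τ hΛ)
  have h2 := abs_le.1 (H' Λ τ hΛ)
  have h3 := mps2_log k τ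
  have h4 := mps2_log k' τ
  have h5 : ∑ p ∈ pr D Λ, (D.lam p ^ 2 - 1) * Real.cos (τ * Real.log p) / p =
      ∑ p ∈ pr D Λ, D.lam p ^ 2 * Real.cos (τ * Real.log p) / p -
        ∑ p ∈ pr D Λ, 1 * Real.cos (τ * Real.log p) / p := by
    rw [← sum_sub_distrib]
    exact sum_congr rfl fun p _ => by ring
  rw [h5, abs_le]
  push_cast
  constructor <;> linarith [h1.1, h1.2, h2.1, h2.2]
/-- Split at `log p ≤ 1 / r`: `mertens_log` below (that range is empty if `r ≥ 1`), `ps_one` above. -/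
theorem ps_min (D : Data) (hPS : D.PS) : ∃ C : ℝ, ∀ Λ r : ℝ, 0 ≤ r →
    ∑ p ∈ pr D Λ, min 1 (r * Real.log p) / p ≤ Real.log (1 + r * ly Λ) + C := by
  obtain ⟨C, H⟩ := ps_one D hPS
  have hC : 0 ≤ C := (abs_nonneg _).trans (H 0)
  have hl : ∀ x, 1 ≤ ly x := fun x => le_max_left _ _
  refine ⟨2 * C + 3, fun Λ r hr => ?_⟩
  rcases hr.eq_or_lt with rfl | hr
  · simp only [zero_mul, min_eq_right zero_le_one, zero_div, sum_const_zero, add_zero,
      Real.log_one]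
    linarith
  have h0 : ∀ p : ℕ, (0 : ℝ) ≤ p := Nat.cast_nonneg
  have h1 : pr D (min Λ (1 / r)) ⊆ pr D Λ := pr_mono D (min_le_left _ _)
  have h2 : ∑ p ∈ pr D (min Λ (1 / r)), min 1 (r * Real.log p) / p ≤ 3 := by
    rcases le_total 1 r with h | h
    · rw [pr_eq_empty D ((min_le_right _ _).trans ((div_le_one hr).2 h))]
      simp
    · calc _ ≤ ∑ p ∈ pr D (min Λ (1 / r)), r * (Real.log p / p) := sum_le_sum fun p _ => by
            rw [← mul_div_assoc]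
            exact div_le_div_of_nonneg_right (min_le_right _ _) (h0 p)
        _ ≤ ∑ p ∈ pr D (1 / r), r * (Real.log p / p) :=
            sum_le_sum_of_subset_of_nonneg (pr_mono D (min_le_right _ _)) fun p _ _ =>
              mul_nonneg hr.le (div_nonneg (Real.log_natCast_nonneg p) (h0 p))
        _ ≤ r * (1 / r + 2) := by
            rw [← mul_sum]
            exact mul_le_mul_of_nonneg_left (mertens_log D (by positivity)) hr.le
        _ ≤ 3 := by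
            rw [mul_add, mul_one_div_cancel hr.ne']
            linarith
  have h3 : ∑ p ∈ pr D Λ \ pr D (min Λ (1 / r)), min 1 (r * Real.log p) / p ≤
      ∑ p ∈ pr D Λ \ pr D (min Λ (1 / r)), (1 : ℝ) / p :=
    sum_le_sum fun p _ => div_le_div_of_nonneg_right (min_le_left _ _) (h0 p)
  have h4 := sum_sdiff (f := fun p : ℕ => (1 : ℝ) / p) h1
  have h5 := (abs_le.1 (H Λ)).2
  have h6 := (abs_le.1 (H (min Λ (1 / r)))).1
  have h7 : ly Λ ≤ (1 + r * ly Λ) * ly (min Λ (1 / r)) := by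
    have h8 := hl Λ
    rcases le_total Λ (1 / r) with h | h
    · rw [min_eq_left h]
      exact le_mul_of_one_le_left (by linarith) (le_add_of_nonneg_right (by positivity))
    · rw [min_eq_right h]
      calc ly Λ = (r * ly Λ) * (1 / r) := by field_simp
        _ ≤ _ := mul_le_mul (by linarith) (le_max_right _ _) (by positivity) (by positivity)
  have h9 := Real.log_le_log (by linarith [hl Λ]) h7
  rw [Real.log_mul (by have := hl Λ; positivity) (by linarith [hl (min Λ (1 / r))])] at h9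
  rw [← sum_sdiff h1]
  linarith
theorem mps2_mono (D : Data) {Z : ℝ} (hZ : 0 ≤ Z) {a b : ℕ} (hab : a ≤ b) :
    pr D (Z / 2 ^ b) ⊆ pr D (Z / 2 ^ a) :=
  pr_mono D (div_le_div_of_nonneg_left hZ (by positivity) (pow_le_pow_right₀ one_le_two hab))
theorem blk_disjoint (D : Data) {Z : ℝ} (hZ : 0 ≤ Z) (S : Set ℕ) : S.PairwiseDisjoint (blk D Z) := by
  have key : ∀ i j, i < j → Disjoint (blk D Z i) (blk D Z j) := fun i j h =>
    disjoint_of_subset_right (sdiff_subset.trans (mps2_mono D hZ h)) sdiff_disjoint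
  intro i _ j _ hij
  rcases lt_or_gt_of_ne hij with h | h
  · exact key i j h
  · exact (key j i h).symm
theorem biUnion_blk (D : Data) {Z : ℝ} (hZ : 0 ≤ Z) {a b : ℕ} (hab : a ≤ b) :
    (Ico a b).biUnion (blk D Z) = pr D (Z / 2 ^ a) \ pr D (Z / 2 ^ b) := by
  induction b, hab using Nat.le_induction with
  | base => simp
  | succ b hab ih =>
    rw [← insert_Ico_right_eq_Ico_add_one hab, biUnion_insert, ih, blk, union_comm]
    exact sdiff_union_sdiff_cancel (mps2_mono D hZ hab) (mps2_mono D hZ (Nat.le_succ b))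
theorem ly_div_le {Z : ℝ} (hZ : 0 ≤ Z) {a b : ℕ} (hab : a ≤ b) :
    ly (Z / 2 ^ a) ≤ 2 ^ (b - a) * ly (Z / 2 ^ b) := by
  obtain ⟨c, rfl⟩ := Nat.exists_eq_add_of_le hab
  rw [Nat.add_sub_cancel_left]
  refine max_le (one_le_mul_of_one_le_of_one_le (one_le_pow₀ one_le_two) (le_max_left _ _)) ?_
  calc Z / 2 ^ a = 2 ^ c * (Z / 2 ^ (a + c)) := by rw [pow_add]; field_simp
    _ ≤ _ := mul_le_mul_of_nonneg_left (le_max_right _ _) (by positivity)

end Pool.Agent.Lib.MP_03e5d0_nt
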