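import Pool.Agent.Lib.MP_03e5d0_nt.TEx
import Pool.Agent.Lib.MP_03e5d0_nt.MPp
import Pool.Agent.Lib.MP_03e5d0_nt.MPs2

set_option autoImplicit false

noncomputable section

namespace Pool.Agent.Lib.MP_03e5d0_nt

open Complex Finset MeasureTheory
open scoped NumberTheorySymbols Real ContDiff

/-! Truncated exponentials and the estimate for one block. -/

theorem mbl_hasSum (y : ℝ) : HasSum (fun n : ℕ => y ^ n / n.factorial) (Real.exp y) := by
  rw [Real.exp_eq_exp_ℝ]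
  exact NormedSpace.expSeries_div_hasSum_exp y

theorem mbl_succ (l : ℕ) (y : ℝ) : texp (l + 1) y = texp l y + y ^ (l + 1) / (l + 1).factorial :=
  sum_range_succ _ _

theorem mbl_deriv (l : ℕ) (y : ℝ) : HasDerivAt (texp (l + 1)) (texp l y) y := by
  have key : ∀ n : ℕ, HasDerivAt (fun y : ℝ => y ^ (n + 1) / (n + 1).factorial)
      (y ^ n / n.factorial) y := fun n => by
    refine ((hasDerivAt_pow (n + 1) y).div_const ((n + 1).factorial : ℝ)).congr_deriv ?_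
    rw [Nat.factorial_succ, Nat.add_sub_cancel]
    push_cast
    field_simp
  induction l with
  | zero =>
    rw [funext (mbl_succ 0)]
    simpa [texp] using (key 0).const_add 1
  | succ l ih =>
    rw [funext (mbl_succ (l + 1)), mbl_succ]
    exact ih.add (key (l + 1))

theorem mbl_zero (l : ℕ) : texp l 0 = 1 := by
  simp [texp, sum_range_succ']

theorem mbl_sign (l : ℕ) : ∀ y ≤ (0 : ℝ), 0 ≤ (-1) ^ l * (texp l y - Real.exp y) := by
  induction l with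
  | zero => exact fun y hy => by simpa [texp] using hy
  | succ l ih =>
    intro y hy
    have hd : ∀ y : ℝ, HasDerivAt (fun y => (-1) ^ (l + 1) * (texp (l + 1) y - Real.exp y))
        ((-1) ^ (l + 1) * (texp l y - Real.exp y)) y := fun y =>
      ((mbl_deriv l y).sub (Real.hasDerivAt_exp y)).const_mul _
    have := antitoneOn_of_deriv_nonpos (convex_Iic (0 : ℝ))
      (fun y _ => (hd y).continuousAt.continuousWithinAt)
      (fun y _ => (hd y).differentiableAt.differentiableWithinAt) (fun y hy => by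
        rw [(hd y).deriv, pow_succ]
        have := ih y (Set.mem_Iic.1 (interior_subset hy))
        linarith) hy (Set.mem_Iic.2 le_rfl) hy
    simpa [mbl_zero] using this

/-- `|exp y - texp l y| ≤ |y| ^ (l+1) / (l+1)! * exp |y|` and `(2 |y|) ^ (l+1) / (l+1)! ≤ exp (2 |y|)`. -/
theorem texp_sub_exp (l : ℕ) (y : ℝ) : |texp l y - Real.exp y| ≤ Real.exp (3 * |y|) / 2 ^ (l + 1) := by
  have h1 := (hasSum_nat_add_iff' (l + 1)).2 (mbl_hasSum y)
  have h2 := ((hasSum_nat_add_iff' (l + 1)).2 (mbl_hasSum (2 * |y|))).div_const (2 ^ (l + 1))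
  have h3 := h1.norm_le_of_bounded h2 fun n => by
    rw [Real.norm_eq_abs, abs_div, abs_pow, Nat.abs_cast, mul_pow, pow_add 2,
      le_div_iff₀ (by positivity), div_mul_eq_mul_div]
    refine div_le_div_of_nonneg_right ?_ (by positivity)
    rw [mul_comm, mul_assoc]
    exact le_mul_of_one_le_left (by positivity) (one_le_pow₀ one_le_two)
  rw [abs_sub_comm]
  refine h3.trans ?_
  gcongr
  have : 0 ≤ ∑ i ∈ range (l + 1), (2 * |y|) ^ i / (i.factorial : ℝ) := by positivity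
  have := Real.exp_le_exp.2 (show 2 * |y| ≤ 3 * |y| by linarith [abs_nonneg y])
  linarith
/-- At a minimum of `texp (2 l + 2)` the derivative `texp (2 l + 1)` vanishes; or: for `y < 0`,
`exp y ≤ texp (2 l) y` by induction (integrate twice). -/
theorem texp_pos (l : ℕ) (y : ℝ) : 0 < texp (2 * l) y := by
  rcases le_total y 0 with h | h
  · have := mbl_sign (2 * l) y h
    rw [pow_mul, neg_one_sq, one_pow] at this
    linarith [Real.exp_pos y]
  · rw [texp, sum_range_succ']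
    positivity
theorem abs_texp_le (l : ℕ) (y : ℝ) : |texp l y| ≤ Real.exp |y| := by
  refine (abs_sum_le_sum_abs _ _).trans ?_
  simp only [abs_div, abs_pow, Nat.abs_cast]
  exact Real.sum_le_exp_of_nonneg (abs_nonneg y) _
theorem texp_zero (l : ℕ) : texp l 0 = 1 := by
  exact mbl_zero l
theorem texp_pow_sub (l : ℕ) {e : ℕ} (he : e ≤ 8) (y : ℝ) :
    |texp l (-y / 3) ^ e - Real.exp (-(e / 3 : ℝ) * y)| ≤
      4 / 2 ^ l * (Real.exp (4 * y) + Real.exp (-4 * y)) := by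
  have e1 : Real.exp (-(e / 3 : ℝ) * y) = Real.exp (-y / 3) ^ e := by
    rw [← Real.exp_nat_mul]
    congr 1
    ring
  have e2 : max |texp l (-y / 3)| |Real.exp (-y / 3)| ≤ Real.exp |-y / 3| :=
    max_le (abs_texp_le _ _) (by
      rw [abs_of_pos (Real.exp_pos _)]
      exact Real.exp_le_exp.2 (le_abs_self _))
  have e3 : Real.exp (3 * |-y / 3|) * Real.exp |-y / 3| ^ 7 ≤
      Real.exp (4 * y) + Real.exp (-4 * y) := by
    rw [← Real.exp_nat_mul, ← Real.exp_add]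
    rcases abs_cases (-y / 3) with h | h
    · exact le_add_of_nonneg_of_le (Real.exp_pos _).le (Real.exp_le_exp.2 (by push_cast; linarith))
    · exact le_add_of_le_of_nonneg (Real.exp_le_exp.2 (by push_cast; linarith)) (Real.exp_pos _).le
  rw [e1]
  calc _ ≤ _ := abs_pow_sub_pow_le _ _ e
    _ ≤ Real.exp (3 * |-y / 3|) / 2 ^ (l + 1) * 8 * Real.exp |-y / 3| ^ 7 := by
      refine mul_le_mul (mul_le_mul (texp_sub_exp _ _) (by exact_mod_cast he) (by positivity)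
        (by positivity)) ?_ (by positivity) (by positivity)
      exact (pow_le_pow_left₀ (by positivity) e2 _).trans
        (pow_le_pow_right₀ (Real.one_le_exp (abs_nonneg _)) (by omega))
    _ = 4 / 2 ^ l * (Real.exp (3 * |-y / 3|) * Real.exp |-y / 3| ^ 7) := by ring
    _ ≤ _ := by gcongr
theorem vv_pos (D : Data) (c : ℕ) (Z : ℝ) (j : ℕ) (x : ℕ → ℝ) : 0 < vv D c Z j x := by
  rw [vv, mul_assoc]
  exact texp_pos _ _
theorem VV_pos (D : Data) (c : ℕ) (Z : ℝ) (a b : ℕ) (x : ℕ → ℝ) : 0 < VV D c Z a b x := by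
  exact prod_pos fun j _ => vv_pos D c Z j x
theorem VV_mul (D : Data) (c : ℕ) (Z : ℝ) {a b e : ℕ} (hab : a ≤ b) (hbe : b ≤ e) (x : ℕ → ℝ) :
    VV D c Z a b x * VV D c Z b e x = VV D c Z a e x := by
  exact prod_Ico_consecutive _ hab hbe
theorem VV_self (D : Data) (c : ℕ) (Z : ℝ) (a : ℕ) (x : ℕ → ℝ) : VV D c Z a a x = 1 := by
  simp [VV]
theorem vv_depends (D : Data) (c : ℕ) (Z : ℝ) (j : ℕ) : DependsOn (vv D c Z j) (blk D Z j : Set ℕ) := by
  intro x y h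
  unfold vv PI
  rw [sum_congr rfl fun p hp => by rw [h p hp]]
theorem abs_mn_le {p l c : ℝ} {z₁ z₂ : ℂ} (hp : 0 < p) (hl : |l| ≤ 2) (hc : |c| ≤ 4) (h₁ : ‖z₁‖ ≤ 3 / √p)
    (h₂ : ‖z₂‖ ≤ 3 / √p) : |mn l (c / √p) z₁ z₂| ≤ 220 / p := by
  have hs : 0 < √p := Real.sqrt_pos.2 hp
  have e0 : (1 / √p) ^ 2 = 1 / p := by rw [div_pow, Real.sq_sqrt hp.le, one_pow]
  have e1 : ∀ a : ℝ, a / √p = a * (1 / √p) := fun a => by ring
  rw [e1 3] at h₁ h₂
  rw [e1 c, show 220 / p = 220 * (1 / p) by ring, ← e0]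
  have ht : 0 < 1 / √p := by positivity
  generalize 1 / √p = t at *
  have a1 := abs_le.1 ((abs_re_le_norm z₁).trans h₁)
  have a2 := abs_le.1 ((abs_re_le_norm z₂).trans h₂)
  have a3 := abs_le.1 hc
  have a4 : (z₁.re + z₂.re + c * t) ^ 2 ≤ (10 * t) ^ 2 :=
    sq_le_sq' (by nlinarith) (by nlinarith)
  have a5 : |(z₁ ^ 2 + z₂ ^ 2).re| ≤ 18 * t ^ 2 := by
    refine (abs_re_le_norm _).trans ((norm_add_le _ _).trans ?_)
    rw [norm_pow, norm_pow]
    nlinarith [norm_nonneg z₁, norm_nonneg z₂]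
  have a6 : l ^ 2 ≤ 4 := by nlinarith [abs_le.1 hl]
  have a7 : |(l ^ 2 - 2) / 2| ≤ 1 := abs_le.2 ⟨by nlinarith, by nlinarith⟩
  unfold mn
  refine (abs_add_le _ _).trans ?_
  rw [abs_of_nonneg (by positivity), abs_mul]
  have a8 := mul_le_mul a7 a5 (abs_nonneg _) zero_le_one
  have a9 := mul_le_mul (show l ^ 2 / 2 ≤ 2 by linarith) a4 (by positivity) zero_le_two
  nlinarith
/-- `exp (c * PI)` and `GG` are products over the primes: `Ex_prod`, `pp_abs`. -/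
theorem blk_exp : ∃ C : ℝ, 0 ≤ C ∧ ∀ (D : Data) (P S : Finset ℕ) (δ : ℕ → ℝ) (c : ℝ) (z₁ z₂ : ℕ → ℂ),
    S ⊆ P → (∀ p ∈ S, p.Prime ∧ ¬p ∣ D.q) → Dl δ → |c| ≤ 4 → (∀ p ∈ S, ‖z₁ p‖ ≤ 3 / √p) →
    (∀ p ∈ S, ‖z₂ p‖ ≤ 3 / √p) →
    0 < Ex P δ (fun x => Real.exp (c * PI D S x) * GG D S z₁ z₂ x) ∧
    |Real.log (Ex P δ fun x => Real.exp (c * PI D S x) * GG D S z₁ z₂ x) -
      ∑ p ∈ S, mn (D.lam p) (c / √p) (z₁ p) (z₂ p)| ≤ C * ∑ p ∈ S, (1 : ℝ) / (p * √p) := by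
  obtain ⟨C, hC, h⟩ := pp_abs
  refine ⟨C, hC, fun D P S δ c z₁ z₂ hS hp hδ hc h₁ h₂ => ?_⟩
  have e : Ex P δ (fun x => Real.exp (c * PI D S x) * GG D S z₁ z₂ x) = ∏ p ∈ S,
      e1 (δ p) fun u => ‖lf (D.lam p) u (z₁ p)‖ * ‖lf (D.lam p) u (z₂ p)‖ *
        Real.exp (c * (D.lam p * u / √p)) := by
    rw [← Ex_prod hS]
    congr 1
    funext x
    rw [PI, GG, mul_sum, Real.exp_sum, mul_comm, ← prod_mul_distrib]
  have key := fun p (hp' : p ∈ S) => h p (D.lam p) (δ p) c (z₁ p) (z₂ p)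
    (by exact_mod_cast D.big (hp p hp').1 (hp p hp').2) (D.lam_le p (hp p hp').1)
    (hδ p (hp p hp').1).1 (hδ p (hp p hp').1).2 hc (h₁ p hp') (h₂ p hp')
  rw [e]
  refine ⟨prod_pos fun p hp' => (key p hp').1, ?_⟩
  rw [Real.log_prod fun p hp' => (key p hp').1.ne', ← sum_sub_distrib, mul_sum]
  exact (abs_sum_le_sum_abs _ _).trans (sum_le_sum fun p hp' =>
    (key p hp').2.trans (by rw [mul_one_div]))
/-- `texp_pow_sub`; by `blk_exp`, `abs_mn_le`, `ps_32` the expectations with `c = ±4` and `c = -e/3` lie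
between two absolute positive constants. -/
theorem blk_est : ∃ C : ℝ, 0 ≤ C ∧ ∀ (D : Data) (P S : Finset ℕ) (δ : ℕ → ℝ) (l e : ℕ) (z₁ z₂ : ℕ → ℂ),
    S ⊆ P → (∀ p ∈ P, p.Prime ∧ ¬p ∣ D.q) → Dl δ → e ≤ 8 → ∑ p ∈ S, (1 : ℝ) / p ≤ 6 →
    (∀ p ∈ S, ‖z₁ p‖ ≤ 3 / √p) → (∀ p ∈ S, ‖z₂ p‖ ≤ 3 / √p) →
    |Ex P δ (fun x => texp l (-PI D S x / 3) ^ e * GG D S z₁ z₂ x) -
      Ex P δ fun x => Real.exp (-(e / 3 : ℝ) * PI D S x) * GG D S z₁ z₂ x| ≤
      C / 2 ^ l * Ex P δ fun x => Real.exp (-(e / 3 : ℝ) * PI D S x) * GG D S z₁ z₂ x := by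
  obtain ⟨C, hC, h⟩ := blk_exp
  refine ⟨8 * Real.exp (2 * (1320 + 3 * C)), by positivity,
    fun D P S δ l e z₁ z₂ hS hp hδ he h6 h₁ h₂ => ?_⟩
  have hP : ∀ p ∈ P, p.Prime := fun p h => (hp p h).1
  have key : ∀ c : ℝ, |c| ≤ 4 → Real.exp (-(1320 + 3 * C)) ≤
      Ex P δ (fun x => Real.exp (c * PI D S x) * GG D S z₁ z₂ x) ∧
      Ex P δ (fun x => Real.exp (c * PI D S x) * GG D S z₁ z₂ x) ≤ Real.exp (1320 + 3 * C) := by
    intro c hc
    obtain ⟨a1, a2⟩ := h D P S δ c z₁ z₂ hS (fun p h => hp p (hS h)) hδ hc h₁ h₂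
    have a3 : |∑ p ∈ S, mn (D.lam p) (c / √p) (z₁ p) (z₂ p)| ≤ 220 * ∑ p ∈ S, (1 : ℝ) / p := by
      rw [mul_sum]
      exact (abs_sum_le_sum_abs _ _).trans (sum_le_sum fun p h =>
        (abs_mn_le (by exact_mod_cast (hP p (hS h)).pos) (D.lam_le p (hP p (hS h))) hc (h₁ p h)
          (h₂ p h)).trans (by rw [mul_one_div]))
    have a4 := mul_le_mul_of_nonneg_left (ps_32 S) hC
    have a5 := abs_le.1 a2
    have a6 := abs_le.1 a3
    rw [← Real.le_log_iff_exp_le a1, ← Real.log_le_iff_le_exp a1]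
    constructor <;> linarith
  have b1 := (key 4 (by norm_num)).2
  have b2 := (key (-4) (by norm_num)).2
  have b3 := (key (-(e / 3 : ℝ)) (by
    have : (e : ℝ) ≤ 8 := by exact_mod_cast he
    rw [abs_neg, abs_of_nonneg (by positivity)]
    linarith)).1
  rw [← Ex_sub]
  calc
    _ ≤ Ex P δ fun x => 4 / 2 ^ l * (Real.exp (4 * PI D S x) * GG D S z₁ z₂ x +
        Real.exp (-4 * PI D S x) * GG D S z₁ z₂ x) := by
      refine (norm_Ex_le (E := ℝ) hP hδ _).trans (Ex_mono hP hδ fun x _ => ?_)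
      have hG : 0 ≤ GG D S z₁ z₂ x := prod_nonneg fun p _ => by positivity
      rw [← sub_mul, norm_mul, Real.norm_of_nonneg hG, ← add_mul, ← mul_assoc]
      exact mul_le_mul_of_nonneg_right (texp_pow_sub l he _) hG
    _ ≤ 4 / 2 ^ l * (2 * Real.exp (1320 + 3 * C)) := by
      rw [Ex_mul_left, Ex_add]
      gcongr
      linarith
    _ = 8 * Real.exp (2 * (1320 + 3 * C)) / 2 ^ l * Real.exp (-(1320 + 3 * C)) := by
      rw [two_mul (1320 + 3 * C), Real.exp_add _ (1320 + 3 * C), Real.exp_neg]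
      field_simp
      ring
    _ ≤ _ := mul_le_mul_of_nonneg_left b3 (by positivity)

end Pool.Agent.Lib.MP_03e5d0_nt
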