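import Pool.Agent.Lib.MP_03e5d0_nt.MBl

set_option autoImplicit false

noncomputable section

namespace Pool.Agent.Lib.MP_03e5d0_nt

open Complex Finset MeasureTheory
open scoped NumberTheorySymbols Real ContDiff

/-! Several blocks at once. -/

theorem mbl2_one : ∃ C₁ C₂ : ℝ, 0 ≤ C₁ ∧ 0 ≤ C₂ ∧ ∀ (D : Data) (P : Finset ℕ) (δ : ℕ → ℝ) (c : ℕ)
    (Z : ℝ) (j e : ℕ) (z₁ z₂ : ℕ → ℂ), blk D Z j ⊆ P → (∀ p ∈ P, p.Prime ∧ ¬p ∣ D.q) → Dl δ →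
    e ≤ 8 → (∀ p ∈ blk D Z j, ‖z₁ p‖ ≤ 3 / √p ∧ ‖z₂ p‖ ≤ 3 / √p) → ∃ B : ℝ, 0 < B ∧
    |Ex P δ (fun x => vv D c Z j x ^ e * GG D (blk D Z j) z₁ z₂ x) - B| ≤
      C₁ / 2 ^ (2 * c * (1 + j)) * B ∧
    |Real.log B - ∑ p ∈ blk D Z j, mn (D.lam p) (-(e / 3 : ℝ) / √p) (z₁ p) (z₂ p)| ≤
      C₂ * ∑ p ∈ blk D Z j, (1 : ℝ) / (p * √p) := by
  obtain ⟨C₁, h₁, H₁⟩ := blk_est
  obtain ⟨C₂, h₂, H₂⟩ := blk_exp
  refine ⟨C₁, C₂, h₁, h₂, fun D P δ c Z j e z₁ z₂ hS hP hδ he hz => ?_⟩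
  have he' : |(-(e / 3 : ℝ))| ≤ 4 := by
    have : (e : ℝ) ≤ 8 := by exact_mod_cast he
    rw [abs_neg, abs_of_nonneg (by positivity)]
    linarith
  obtain ⟨h3, h4⟩ := H₂ D P (blk D Z j) δ (-(e / 3 : ℝ)) z₁ z₂ hS (fun p hp => hP p (hS hp)) hδ he'
    (fun p hp => (hz p hp).1) fun p hp => (hz p hp).2
  exact ⟨_, h3, H₁ D P (blk D Z j) δ (2 * c * (1 + j)) e z₁ z₂ hS hP hδ he (ps_blk D Z j)
    (fun p hp => (hz p hp).1) fun p hp => (hz p hp).2, h4⟩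

theorem mbl2_le {c : ℕ} (hc : 1 ≤ c) (j : ℕ) :
    (1 : ℝ) / 2 ^ (2 * c * (1 + j)) ≤ 1 / 2 ^ c * (1 / 2) ^ j := by
  rw [one_div_pow, div_mul_div_comm, one_mul, ← pow_add]
  refine one_div_le_one_div_of_le (by positivity) (pow_le_pow_right₀ one_le_two ?_)
  nlinarith

theorem mbl2_geom {c : ℕ} (hc : 1 ≤ c) (T : Finset ℕ) :
    ∑ j ∈ T, (1 : ℝ) / 2 ^ (2 * c * (1 + j)) ≤ 2 / 2 ^ c := by
  refine (sum_le_sum fun j _ => mbl2_le hc j).trans ?_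
  rw [← mul_sum]
  have h := summable_geometric_two.sum_le_tsum T fun j _ => by positivity
  rw [tsum_geometric_two] at h
  calc (1 : ℝ) / 2 ^ c * ∑ j ∈ T, (1 / 2) ^ j ≤ 1 / 2 ^ c * 2 :=
        mul_le_mul_of_nonneg_left h (by positivity)
    _ = 2 / 2 ^ c := by ring

theorem mbl2_32 (D : Data) {Z : ℝ} (hZ : 0 ≤ Z) (T : Finset ℕ) :
    ∑ j ∈ T, ∑ p ∈ blk D Z j, (1 : ℝ) / (p * √p) ≤ 3 := by
  rw [← sum_biUnion (blk_disjoint D hZ T)]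
  exact ps_32 _

theorem mbl2_indep (D : Data) (P : Finset ℕ) (δ : ℕ → ℝ) (c : ℕ) {Z : ℝ} (hZ : 0 ≤ Z) (T : Finset ℕ)
    (e : ℕ → ℕ) (z₁ z₂ : ℕ → ℂ) :
    Ex P δ (fun x => ∏ j ∈ T, vv D c Z j x ^ e j * GG D (blk D Z j) z₁ z₂ x) =
      ∏ j ∈ T, Ex P δ fun x => vv D c Z j x ^ e j * GG D (blk D Z j) z₁ z₂ x := by
  refine Ex_prod_indep T (blk D Z)
    (f := fun j x => vv D c Z j x ^ e j * GG D (blk D Z j) z₁ z₂ x) (fun j _ x y h => ?_)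
    (blk_disjoint D hZ T)
  have h1 : GG D (blk D Z j) z₁ z₂ x = GG D (blk D Z j) z₁ z₂ y :=
    prod_congr rfl fun p hp => by rw [h p hp]
  simp only [h1, vv_depends D c Z j h]

theorem mbl2_cpow {p : ℕ} (hp : 0 < p) (α : ℂ) :
    (p : ℂ) ^ (-(1 / 2 + α)) = (((√p)⁻¹ : ℝ) : ℂ) * cexp (-(α * Real.log p)) := by
  have h0 : (0 : ℝ) < p := by exact_mod_cast hp
  have h1 : (√p)⁻¹ = Real.exp (-(Real.log p / 2)) := by
    rw [Real.exp_neg, Real.exp_half, Real.exp_log h0]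
  rw [cpow_def_of_ne_zero (by exact_mod_cast hp.ne'), h1, ofReal_exp, ← Complex.exp_add,
    ← ofReal_natCast, ← ofReal_log h0.le]
  congr 1
  push_cast
  ring

theorem mbl2_sq {p : ℕ} : (√(p : ℝ))⁻¹ ^ 2 = 1 / p := by
  rw [inv_pow, Real.sq_sqrt (Nat.cast_nonneg p), one_div]

theorem mbl2_z {p : ℕ} (hp : 0 < p) (t : ℝ) :
    (p : ℂ) ^ (-(1 / 2 + I * t)) = ⟨(√p)⁻¹ * Real.cos (t * Real.log p),
      -((√p)⁻¹ * Real.sin (t * Real.log p))⟩ ∧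
    (p : ℂ) ^ (-(1 / 2 - I * t)) = ⟨(√p)⁻¹ * Real.cos (t * Real.log p),
      (√p)⁻¹ * Real.sin (t * Real.log p)⟩ := by
  have h1 : -(I * t * Real.log p) = ((-(t * Real.log p) : ℝ) : ℂ) * I := by push_cast; ring
  have h2 : -(-(I * t) * Real.log p) = ((t * Real.log p : ℝ) : ℂ) * I := by push_cast; ring
  constructor
  · rw [mbl2_cpow hp, h1]
    refine Complex.ext ?_ ?_
    · rw [re_ofReal_mul, exp_ofReal_mul_I_re, Real.cos_neg]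
    · rw [im_ofReal_mul, exp_ofReal_mul_I_im, Real.sin_neg, mul_neg]
  · rw [sub_eq_add_neg, mbl2_cpow hp, h2]
    refine Complex.ext ?_ ?_
    · rw [re_ofReal_mul, exp_ofReal_mul_I_re]
    · rw [im_ofReal_mul, exp_ofReal_mul_I_im]

theorem mbl2_un (l a b a' b' : ℝ) : (un l ⟨a, b⟩ ⟨a', b'⟩).re =
    (l ^ 2 - 1) * (a ^ 2 - b ^ 2 + (a' ^ 2 - b' ^ 2)) + l ^ 2 * (a * a' - b * b') := by
  simp [un, sq]
  ring

theorem mbl2_mn (l c a b a' b' : ℝ) : mn l c ⟨a, b⟩ ⟨a', b'⟩ =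
    l ^ 2 / 2 * (a + a' + c) ^ 2 + (l ^ 2 - 2) / 2 * (a ^ 2 - b ^ 2 + (a' ^ 2 - b' ^ 2)) := by
  simp [mn, sq]

theorem mbl2_trig (θ : ℝ) : Real.sin θ ^ 2 ≤ min 1 |θ| ∧ 1 - Real.cos θ ≤ 2 * min 1 |θ| := by
  have h1 := Real.abs_sin_le_one θ
  have h2 := Real.abs_sin_le_abs (x := θ)
  have h3 := Real.one_sub_sq_div_two_le_cos (x := θ)
  have h4 := Real.neg_one_le_cos θ
  have h5 := abs_nonneg (Real.sin θ)
  have h6 := abs_nonneg θ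
  rw [← sq_abs θ] at h3
  rw [← sq_abs]
  rcases le_total 1 |θ| with h | h
  · rw [min_eq_left h]
    constructor <;> nlinarith
  · rw [min_eq_right h]
    constructor <;> nlinarith

/-- Independence of the blocks (`Ex_prod_indep`, `blk_disjoint`), `blk_est`, `blk_exp`; the product of
`1 + C / 2 ^ (2 c (1 + j))` is at most `exp (C ∑ 4 ^ (-(1 + j)))`; `ps_32` for the union of the blocks. -/
theorem blks_upper : ∃ C : ℝ, 0 ≤ C ∧ ∀ (D : Data) (P : Finset ℕ) (δ : ℕ → ℝ) (c : ℕ) (Z : ℝ) (T : Finset ℕ)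
    (e : ℕ → ℕ) (z₁ z₂ : ℕ → ℂ), 1 ≤ c → 0 ≤ Z → (∀ j ∈ T, blk D Z j ⊆ P) →
    (∀ p ∈ P, p.Prime ∧ ¬p ∣ D.q) → Dl δ → (∀ j, e j ≤ 8) →
    (∀ j ∈ T, ∀ p ∈ blk D Z j, ‖z₁ p‖ ≤ 3 / √p ∧ ‖z₂ p‖ ≤ 3 / √p) →
    Ex P δ (fun x => ∏ j ∈ T, vv D c Z j x ^ e j * GG D (blk D Z j) z₁ z₂ x) ≤
      C * Real.exp (∑ j ∈ T, ∑ p ∈ blk D Z j, mn (D.lam p) (-(e j / 3 : ℝ) / √p) (z₁ p) (z₂ p)) := by
  obtain ⟨C₁, C₂, h₁, h₂, H⟩ := mbl2_one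
  refine ⟨Real.exp (C₁ + C₂ * 3), (Real.exp_pos _).le,
    fun D P δ c Z T e z₁ z₂ hc hZ hT hP hδ he hz => ?_⟩
  rw [mbl2_indep D P δ c hZ]
  have h1 : ∀ j ∈ T, Ex P δ (fun x => vv D c Z j x ^ e j * GG D (blk D Z j) z₁ z₂ x) ≤
      Real.exp (C₁ * (1 / 2 ^ (2 * c * (1 + j))) + C₂ * ∑ p ∈ blk D Z j, (1 : ℝ) / (p * √p) +
        ∑ p ∈ blk D Z j, mn (D.lam p) (-(e j / 3 : ℝ) / √p) (z₁ p) (z₂ p)) := fun j hj => by
    obtain ⟨B, hB, h3, h4⟩ := H D P δ c Z j (e j) z₁ z₂ (hT j hj) hP hδ (he j) (hz j hj)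
    rw [add_assoc, Real.exp_add, mul_one_div]
    have h5 := Real.add_one_le_exp (C₁ / 2 ^ (2 * c * (1 + j)))
    have h6 := (Real.log_le_iff_le_exp hB).1 (sub_le_iff_le_add.1 (abs_le.1 h4).2)
    calc _ ≤ (C₁ / 2 ^ (2 * c * (1 + j)) + 1) * B := by linarith [(abs_le.1 h3).2]
      _ ≤ _ := mul_le_mul h5 h6 hB.le (Real.exp_pos _).le
  refine (prod_le_prod (fun j _ => ?_) h1).trans ?_
  · refine (Ex_const (P := P) (δ := δ) (0 : ℝ)).ge.trans (Ex_mono (fun p hp => (hP p hp).1) hδ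
      fun x _ => mul_nonneg (pow_pos (vv_pos D c Z j x) _).le (prod_nonneg fun p _ => ?_))
    positivity
  · rw [← Real.exp_sum, ← Real.exp_add, Real.exp_le_exp, sum_add_distrib, sum_add_distrib,
      ← mul_sum, ← mul_sum]
    have h3 := mul_le_mul_of_nonneg_left (mbl2_32 D hZ T) h₂
    have h4 : (2 : ℝ) / 2 ^ c ≤ 1 := by
      rw [div_le_one (by positivity)]
      exact le_self_pow₀ one_le_two (by omega)
    have h5 := mul_le_mul_of_nonneg_left ((mbl2_geom hc T).trans h4) h₁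
    linarith

/-- The same from below; for `c ≥ c₀` the sum of `C / 2 ^ (2 c (1 + j))` is at most `1 / 2`, so the product
of `1 - C / 2 ^ (2 c (1 + j))` is at least `1 / 2` (`Finset.one_sub_sum_le_prod` or induction). -/
theorem blks_lower : ∃ (c : ℕ) (κ : ℝ), 1 ≤ c ∧ 0 < κ ∧ ∀ (D : Data) (P : Finset ℕ) (δ : ℕ → ℝ) (Z : ℝ)
    (T : Finset ℕ) (e : ℕ → ℕ) (z₁ z₂ : ℕ → ℂ), 0 ≤ Z → (∀ j ∈ T, blk D Z j ⊆ P) →
    (∀ p ∈ P, p.Prime ∧ ¬p ∣ D.q) → Dl δ → (∀ j, e j ≤ 8) →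
    (∀ j ∈ T, ∀ p ∈ blk D Z j, ‖z₁ p‖ ≤ 3 / √p ∧ ‖z₂ p‖ ≤ 3 / √p) →
    κ * Real.exp (∑ j ∈ T, ∑ p ∈ blk D Z j, mn (D.lam p) (-(e j / 3 : ℝ) / √p) (z₁ p) (z₂ p)) ≤
      Ex P δ (fun x => ∏ j ∈ T, vv D c Z j x ^ e j * GG D (blk D Z j) z₁ z₂ x) := by
  obtain ⟨C₁, C₂, h₁, h₂, H⟩ := mbl2_one
  obtain ⟨c, hc⟩ := pow_unbounded_of_one_lt (2 * C₁ + 1) (one_lt_two (α := ℝ))
  have hc1 : 1 ≤ c := by
    rcases Nat.eq_zero_or_pos c with rfl | h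
    · rw [pow_zero] at hc
      linarith
    · exact h
  have hC : C₁ * (1 / 2 ^ c) ≤ 1 / 2 := by
    rw [mul_one_div, div_le_iff₀ (by positivity)]
    linarith
  refine ⟨c, Real.exp (-(2 + C₂ * 3)), hc1, Real.exp_pos _,
    fun D P δ Z T e z₁ z₂ hZ hT hP hδ he hz => ?_⟩
  rw [mbl2_indep D P δ c hZ]
  have h1 : ∀ j ∈ T, Real.exp (-(2 * C₁ * (1 / 2 ^ (2 * c * (1 + j)))) +
      (-(C₂ * ∑ p ∈ blk D Z j, (1 : ℝ) / (p * √p)) +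
        ∑ p ∈ blk D Z j, mn (D.lam p) (-(e j / 3 : ℝ) / √p) (z₁ p) (z₂ p))) ≤
      Ex P δ (fun x => vv D c Z j x ^ e j * GG D (blk D Z j) z₁ z₂ x) := fun j hj => by
    obtain ⟨B, hB, h3, h4⟩ := H D P δ c Z j (e j) z₁ z₂ (hT j hj) hP hδ (he j) (hz j hj)
    rw [Real.exp_add, mul_assoc, mul_one_div]
    set t := C₁ / 2 ^ (2 * c * (1 + j)) with ht
    have ht0 : 0 ≤ t := by positivity
    have ht1 : t ≤ 1 / 2 := by
      have h5 := mul_le_mul_of_nonneg_left ((mbl2_le hc1 j).trans (mul_le_of_le_one_right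
        (by positivity) (pow_le_one₀ (by norm_num) (by norm_num)))) h₁
      rw [mul_one_div] at h5
      exact h5.trans hC
    have h5 : Real.exp (-(2 * t)) ≤ 1 - t := by
      rw [Real.exp_neg, inv_le_iff_one_le_mul₀ (Real.exp_pos _)]
      nlinarith [Real.add_one_le_exp (2 * t)]
    have h6 := (Real.le_log_iff_exp_le hB).1 (le_sub_iff_add_le.1 (abs_le.1 h4).1)
    calc _ ≤ (1 - t) * B := mul_le_mul h5 h6 (Real.exp_pos _).le (by linarith)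
      _ ≤ _ := by linarith [(abs_le.1 h3).1]
  refine le_trans ?_ (prod_le_prod (fun j _ => (Real.exp_pos _).le) h1)
  rw [← Real.exp_sum, ← Real.exp_add, Real.exp_le_exp, sum_add_distrib, sum_add_distrib,
    sum_neg_distrib, sum_neg_distrib, ← mul_sum, ← mul_sum]
  have h3 := mul_le_mul_of_nonneg_left (mbl2_32 D hZ T) h₂
  have h5 := mul_le_mul_of_nonneg_left (mbl2_geom hc1 T) (show 0 ≤ 2 * C₁ by positivity)
  have h6 : 2 * C₁ * (2 / 2 ^ c) = 4 * (C₁ * (1 / 2 ^ c)) := by ring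
  linarith

/-- `blks_upper` with `z = 0`, `e = 2`: `mn = (2 / 9) lam ^ 2 / p`; `biUnion_blk`, `ps_sq`, `ly_div_le`. -/
theorem ker0 (D : Data) (hPS : D.PS) : ∃ C : ℝ, 0 ≤ C ∧ ∀ (c : ℕ) (Z Λ : ℝ) (j : ℕ) (δ : ℕ → ℝ), 1 ≤ c →
    0 ≤ Z → Z ≤ Λ → Dl δ →
    Ex (pr D Λ) δ (fun x => VV D c Z 0 j x ^ 2) ≤ C * (2 : ℝ) ^ (2 * (j : ℝ) / 9) := by
  obtain ⟨C, hC, H⟩ := blks_upper
  obtain ⟨C', H'⟩ := ps_sq D hPS
  refine ⟨C * Real.exp (2 / 9 * (2 * C')), by positivity, fun c Z Λ j δ hc hZ hΛ hδ => ?_⟩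
  have h1 := H D (pr D Λ) δ c Z (Ico 0 j) (fun _ => 2) 0 0 hc hZ
    (fun i _ => sdiff_subset.trans (pr_mono D
      ((div_le_self hZ (one_le_pow₀ one_le_two)).trans hΛ)))
    (fun p hp => ⟨(mem_pr.1 hp).1, (mem_pr.1 hp).2.1⟩) hδ (fun _ => by norm_num)
    (fun i _ p _ => by simp only [Pi.zero_apply, norm_zero, and_self]; positivity)
  have h2 : ∀ (p : ℕ) (l : ℝ), mn l (-(((2 : ℕ) : ℝ) / 3) / √p) 0 0 = 2 / 9 * (l ^ 2 / p) := by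
    intro p l
    have h3 := mbl2_sq (p := p)
    simp only [mn, zero_re, zero_add, ne_eq, OfNat.ofNat_ne_zero, not_false_eq_true, zero_pow,
      add_zero, mul_zero, Nat.cast_ofNat, div_eq_mul_inv (_ : ℝ) (√p), mul_pow, h3]
    ring
  simp only [GG, Pi.zero_apply, lf_zero, norm_one, mul_one, prod_const_one, h2, prod_pow] at h1
  refine h1.trans ?_
  rw [mul_assoc]
  refine mul_le_mul_of_nonneg_left ?_ hC
  rw [← sum_biUnion (blk_disjoint D hZ _), biUnion_blk D hZ (Nat.zero_le j), ← mul_sum,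
    Real.rpow_def_of_pos two_pos, ← Real.exp_add, Real.exp_le_exp,
    sum_sdiff_eq_sub (pr_mono D (div_le_div_of_nonneg_left hZ (by positivity)
      (pow_le_pow_right₀ one_le_two (Nat.zero_le j))))]
  have h3 := (abs_le.1 (H' (Z / 2 ^ 0))).2
  have h4 := (abs_le.1 (H' (Z / 2 ^ j))).1
  have h5 : ∀ y, 0 < ly y := fun y => lt_max_of_lt_left one_pos
  have h6 := Real.log_le_log (h5 _) (ly_div_le hZ (Nat.zero_le j))
  rw [Real.log_mul (by positivity) (h5 _).ne', Real.log_pow, Nat.sub_zero] at h6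
  linarith

/-- With `z₁ = p^(-1/2) exp (-i θ₁)`, `z₂ = p^(-1/2) exp (i θ₂)`; everything is a polynomial in cosines,
and `|1 - cos θ| ≤ 2 min 1 |θ|`. -/
theorem mn_sub_un : ∃ C : ℝ, 0 ≤ C ∧ ∀ (p : ℕ) (l θ t₁ t₂ : ℝ), 0 < p → |l| ≤ 2 → |θ| ≤ 4 →
    mn l (-θ / √p) ((p : ℂ) ^ (-(1 / 2 + I * t₁))) ((p : ℂ) ^ (-(1 / 2 - I * t₂))) -
        (un l ((p : ℂ) ^ (-(1 / 2 + I * t₁))) ((p : ℂ) ^ (-(1 / 2 - I * t₂)))).re ≤
      l ^ 2 * ((2 - θ) ^ 2 / 2 - 2) / p +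
        C * (min 1 (|t₁| * Real.log p) / p + min 1 (|t₂| * Real.log p) / p) := by
  refine ⟨36, by norm_num, fun p l θ t₁ t₂ hp hl hθ => ?_⟩
  have hL : 0 ≤ Real.log p := Real.log_natCast_nonneg p
  rw [(mbl2_z hp t₁).1, (mbl2_z hp t₂).2, mbl2_un, mbl2_mn, div_eq_mul_inv (-θ)]
  obtain ⟨h1, h2⟩ := mbl2_trig (t₁ * Real.log p)
  obtain ⟨h3, h4⟩ := mbl2_trig (t₂ * Real.log p)
  rw [abs_mul, abs_of_nonneg hL] at h1 h2 h3 h4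
  have h5 := Real.sin_sq_add_cos_sq (t₁ * Real.log p)
  have h6 := Real.sin_sq_add_cos_sq (t₂ * Real.log p)
  have h7 := Real.cos_le_one (t₁ * Real.log p)
  have h8 := Real.cos_le_one (t₂ * Real.log p)
  have hr := mbl2_sq (p := p)
  have hl2 : l ^ 2 ≤ 4 := by nlinarith [abs_nonneg l, sq_abs l]
  generalize Real.sin (t₁ * Real.log p) = s₁ at *
  generalize Real.sin (t₂ * Real.log p) = s₂ at *
  generalize Real.cos (t₁ * Real.log p) = c₁ at *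
  generalize Real.cos (t₂ * Real.log p) = c₂ at *
  generalize min 1 (|t₁| * Real.log p) = m₁ at *
  generalize min 1 (|t₂| * Real.log p) = m₂ at *
  generalize (√(p : ℝ))⁻¹ = r at *
  have h9 : (s₁ - s₂) ^ 2 / 2 + θ * (2 - c₁ - c₂) ≤ 9 * (m₁ + m₂) := by
    have h10 : θ * (2 - c₁ - c₂) ≤ 4 * (2 - c₁ - c₂) :=
      mul_le_mul_of_nonneg_right (abs_le.1 hθ).2 (by linarith)
    nlinarith [sq_nonneg (s₁ + s₂)]
  have h11 : l ^ 2 * ((s₁ - s₂) ^ 2 / 2 + θ * (2 - c₁ - c₂)) ≤ 36 * (m₁ + m₂) := by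
    have h12 := mul_le_mul_of_nonneg_left h9 (sq_nonneg l)
    have h13 : 0 ≤ m₁ + m₂ := by nlinarith [sq_nonneg s₁, sq_nonneg s₂]
    nlinarith
  have h14 := mul_le_mul_of_nonneg_right h11 (sq_nonneg r)
  have hd : ∀ a : ℝ, a / p = a * r ^ 2 := fun a => by rw [hr, mul_one_div]
  simp only [hd]
  have h15 : l ^ 2 / 2 * (r * c₁ + r * c₂ + -θ * r) ^ 2 + (l ^ 2 - 2) / 2 *
      ((r * c₁) ^ 2 - (-(r * s₁)) ^ 2 + ((r * c₂) ^ 2 - (r * s₂) ^ 2)) -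
      ((l ^ 2 - 1) * ((r * c₁) ^ 2 - (-(r * s₁)) ^ 2 + ((r * c₂) ^ 2 - (r * s₂) ^ 2)) +
        l ^ 2 * (r * c₁ * (r * c₂) - -(r * s₁) * (r * s₂))) =
      l ^ 2 * ((2 - θ) ^ 2 / 2 - 2) * r ^ 2 +
        l ^ 2 * ((s₁ - s₂) ^ 2 / 2 + θ * (2 - c₁ - c₂)) * r ^ 2 := by ring
  rw [h15]
  linarith

theorem un_re (p : ℕ) (l t₁ t₂ : ℝ) (hp : 0 < p) :
    (un l ((p : ℂ) ^ (-(1 / 2 + I * t₁))) ((p : ℂ) ^ (-(1 / 2 - I * t₂)))).re =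
      (l ^ 2 - 1) * Real.cos (2 * t₁ * Real.log p) / p + (l ^ 2 - 1) * Real.cos (2 * t₂ * Real.log p) / p +
        l ^ 2 * Real.cos ((t₁ - t₂) * Real.log p) / p := by
  rw [(mbl2_z hp t₁).1, (mbl2_z hp t₂).2, mbl2_un, mul_assoc 2 t₁, mul_assoc 2 t₂, sub_mul t₁,
    Real.cos_two_mul', Real.cos_two_mul', Real.cos_sub]
  have hd : ∀ a : ℝ, a / p = a * (√(p : ℝ))⁻¹ ^ 2 := fun a => by rw [mbl2_sq, mul_one_div]
  simp only [hd]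
  ring

/-- With `z = p^(-1/2) η`, `η = p^(-α)`, `‖η‖ ≤ 3` and `‖η - 1‖ ≤ C min 1 (‖α‖ log p)`. -/
theorem mn_one : ∃ C : ℝ, 0 ≤ C ∧ ∀ (p : ℕ) (l : ℝ) (α : ℂ), 0 < p → |l| ≤ 2 → -1 ≤ α.re * Real.log p →
    |mn l (-1 / √p) ((p : ℂ) ^ (-(1 / 2 + α))) 0 - (l ^ 2 - 2) / 2 / p| ≤
      C * (min 1 (‖α‖ * Real.log p) / p) := by
  refine ⟨48, by norm_num, fun p l α hp hl h => ?_⟩
  have hL : 0 ≤ Real.log p := Real.log_natCast_nonneg p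
  rw [mbl2_cpow hp]
  set η := cexp (-(α * Real.log p)) with hη
  have h1 : ‖η‖ ≤ 3 := by
    rw [hη, norm_exp, neg_re, re_mul_ofReal]
    exact (Real.exp_le_exp.2 (by linarith)).trans (Real.exp_one_lt_three).le
  have h2 : ‖η - 1‖ ≤ 4 := (norm_sub_le _ _).trans (by rw [norm_one]; linarith)
  have h2' : ‖η + 1‖ ≤ 4 := (norm_add_le _ _).trans (by rw [norm_one]; linarith)
  have h3 : ‖η - 1‖ ≤ 4 * min 1 (‖α‖ * Real.log p) := by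
    rcases le_total 1 (‖α‖ * Real.log p) with h4 | h4
    · rwa [min_eq_left h4, mul_one]
    · have h5 : ‖-(α * Real.log p)‖ = ‖α‖ * Real.log p := by
        rw [norm_neg, norm_mul, norm_real, Real.norm_of_nonneg hL]
      have h6 := norm_exp_sub_one_le (x := -(α * Real.log p)) (h5.le.trans h4)
      rw [min_eq_right h4]
      rw [h5] at h6
      have : 0 ≤ ‖α‖ * Real.log p := by positivity
      linarith
  have h4 : |η.re - 1| ≤ ‖η - 1‖ := by simpa using abs_re_le_norm (η - 1)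
  have h5 : |(η ^ 2).re - 1| ≤ 4 * ‖η - 1‖ := by
    have h6 : η ^ 2 - 1 = (η + 1) * (η - 1) := by ring
    have h7 := abs_re_le_norm (η ^ 2 - 1)
    rw [sub_re, one_re, h6, norm_mul] at h7
    exact h7.trans (mul_le_mul_of_nonneg_right h2' (norm_nonneg _))
  have hr := mbl2_sq (p := p)
  have hl2 : l ^ 2 ≤ 4 := by nlinarith [abs_nonneg l, sq_abs l]
  have h6 : mn l (-1 / √p) ((((√p)⁻¹ : ℝ) : ℂ) * η) 0 - (l ^ 2 - 2) / 2 / p =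
      (l ^ 2 / 2 * (η.re - 1) ^ 2 + (l ^ 2 - 2) / 2 * ((η ^ 2).re - 1)) * (1 / p) := by
    rw [mn, mul_pow, ← ofReal_pow, zero_pow two_ne_zero, add_zero, re_ofReal_mul, re_ofReal_mul,
      zero_re, div_eq_mul_one_div _ (p : ℝ), ← hr, div_eq_mul_inv (-1 : ℝ)]
    ring
  rw [h6, abs_mul, abs_of_nonneg (show (0 : ℝ) ≤ 1 / p by positivity),
    div_eq_mul_one_div (min _ _), ← mul_assoc]
  refine mul_le_mul_of_nonneg_right ((abs_add_le _ _).trans ?_) (by positivity)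
  have h7 : |l ^ 2 / 2 * (η.re - 1) ^ 2| ≤ 2 * (4 * ‖η - 1‖) := by
    rw [abs_mul, abs_pow, sq |η.re - 1|]
    exact mul_le_mul (by rw [abs_of_nonneg (by positivity)]; linarith)
      (mul_le_mul (h4.trans h2) h4 (abs_nonneg _) (by norm_num)) (by positivity) (by norm_num)
  have h8 : |(l ^ 2 - 2) / 2 * ((η ^ 2).re - 1)| ≤ 1 * (4 * ‖η - 1‖) := by
    rw [abs_mul]
    exact mul_le_mul (abs_le.2 ⟨by nlinarith [sq_nonneg l], by linarith⟩) h5 (abs_nonneg _)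
      (by norm_num)
  linarith

theorem norm_cpow_le {p : ℕ} (hp : 0 < p) {α : ℂ} (h : -1 ≤ α.re * Real.log p) :
    ‖(p : ℂ) ^ (-(1 / 2 + α))‖ ≤ 3 / √p := by
  rw [mbl2_cpow hp, norm_mul, norm_real, Real.norm_of_nonneg (by positivity), norm_exp, neg_re,
    re_mul_ofReal, div_eq_mul_inv, mul_comm]
  exact mul_le_mul_of_nonneg_right
    ((Real.exp_le_exp.2 (by linarith)).trans (Real.exp_one_lt_three).le) (by positivity)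

end Pool.Agent.Lib.MP_03e5d0_nt
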