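import Pool.Agent.Lib.MP_03e5d0_nt.TBas
import Pool.Agent.Lib.MP_03e5d0_nt.MPp

set_option autoImplicit false

noncomputable section

namespace Pool.Agent.Lib.MP_03e5d0_nt

open Complex Finset MeasureTheory
open scoped NumberTheorySymbols Real ContDiff

/-! Finite Euler products and Mellin representations. -/

variable {D : Data} {P : Finset ℕ} {x : ℕ → ℝ}

theorem meul_summ (D : Data) {p : ℕ} (hp : p.Prime) {u : ℝ} (hu : |u| ≤ 1) {z : ℂ} (hz : ‖z‖ < 1) :
    Summable fun j : ℕ => ‖((D.lam (p ^ j) * u ^ j : ℝ) : ℂ) * z ^ j‖ := by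
  have h0 : ‖‖z‖‖ < 1 := by rwa [norm_norm]
  refine Summable.of_nonneg_of_le (fun _ => norm_nonneg _) (fun j => ?_)
    ((summable_pow_mul_geometric_of_norm_lt_one 1 h0).add (summable_geometric_of_norm_lt_one h0))
  rw [norm_mul, norm_pow, norm_real, Real.norm_eq_abs, abs_mul, abs_pow]
  have h1 := D.lam_pow_le hp j
  have h2 : |u| ^ j ≤ 1 := pow_le_one₀ (abs_nonneg u) hu
  calc |D.lam (p ^ j)| * |u| ^ j * ‖z‖ ^ j ≤ (j + 1) * 1 * ‖z‖ ^ j := by gcongr
    _ = _ := by ring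

theorem meul_abs (hx : Adm x) (p : ℕ) : |x p| ≤ 1 := by
  rcases hx p with h | h | h <;> simp [h]

theorem meul_norm (D : Data) {p : ℕ} (hp : p.Prime) (hq : ¬p ∣ D.q) {s : ℂ} (hs : 1 / 4 ≤ s.re) :
    ‖(p : ℂ) ^ (-s)‖ ≤ 1 / 10 := by
  have h1 : (10000 : ℝ) ≤ p := by exact_mod_cast D.big hp hq
  rw [norm_natCast_cpow_of_pos hp.pos, neg_re]
  calc (p : ℝ) ^ (-s.re) ≤ (p : ℝ) ^ (-(1 / 4 : ℝ)) :=
        Real.rpow_le_rpow_of_exponent_le (by linarith) (by linarith)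
    _ ≤ (10000 : ℝ) ^ (-(1 / 4 : ℝ)) :=
        Real.rpow_le_rpow_of_nonpos (by norm_num) h1 (by norm_num)
    _ = 1 / 10 := by
        rw [show (10000 : ℝ) = 10 ^ (4 : ℝ) by norm_num, ← Real.rpow_mul (by norm_num)]
        norm_num

/-- The generating function of `lam (p ^ j) u ^ j`: summable since `|lam (p ^ j)| ≤ j + 1`; multiply the
sum by the local polynomial and use `lam_rec`. -/
theorem hasSum_lf (D : Data) {p : ℕ} (hp : p.Prime) (hq : ¬p ∣ D.q) {u : ℝ} (hu : |u| ≤ 1) {z : ℂ}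
    (hz : ‖z‖ ≤ 1 / 10) :
    HasSum (fun j : ℕ => ((D.lam (p ^ j) * u ^ j : ℝ) : ℂ) * z ^ j) (lf (D.lam p) u z) := by
  have hs := (meul_summ D hp hu (z := z) (by linarith)).of_norm
  set a : ℕ → ℂ := fun j => ((D.lam (p ^ j) * u ^ j : ℝ) : ℂ) * z ^ j with ha
  have h1 := hs.tsum_eq_zero_add
  have hs1 : Summable fun j => a (j + 1) := (summable_nat_add_iff 1).2 hs
  have h2 := hs1.tsum_eq_zero_add
  have h3 : ∀ j, a (j + 1 + 1) =
      (D.lam p * u : ℝ) * z * a (j + 1) - (u ^ 2 : ℝ) * z ^ 2 * a j := fun j => by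
    simp only [ha]
    rw [show j + 1 + 1 = j + 2 from rfl, D.lam_rec p j hp hq]
    push_cast
    ring
  have h4 : ∑' j, a (j + 1 + 1) =
      (D.lam p * u : ℝ) * z * ∑' j, a (j + 1) - (u ^ 2 : ℝ) * z ^ 2 * ∑' j, a j := by
    rw [tsum_congr h3, (hs1.mul_left _).tsum_sub (hs.mul_left _), tsum_mul_left, tsum_mul_left]
  have a0 : a 0 = 1 := by simp [ha, D.lam_one]
  have a1 : a (0 + 1) = (D.lam p * u : ℝ) * z := by simp [ha]
  rw [a0] at h1
  rw [a1, h4] at h2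
  have h5 : lf (D.lam p) u z = ∑' j, a j := by
    refine inv_eq_of_mul_eq_one_right ?_
    linear_combination (1 - (D.lam p * u : ℝ) * z) * h1 + h2
  rw [h5]
  exact hs.hasSum
/-- `EulerProduct.summable_and_hasSum_factoredNumbers_prod_filter_prime_tsum`; the terms vanish outside
`factoredNumbers P`. -/
theorem hasSum_LP (hx : Adm x) (hP : ∀ p ∈ P, p.Prime ∧ ¬p ∣ D.q) (h0 : ∀ p, p ∉ P → x p = 0) {s : ℂ}
    (hs : 1 / 2 ≤ s.re) :
    Summable (fun n : ℕ => ‖((D.lam n * cm x n : ℝ) : ℂ) * (n : ℂ) ^ (-s)‖) ∧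
      HasSum (fun n : ℕ => ((D.lam n * cm x n : ℝ) : ℂ) * (n : ℂ) ^ (-s)) (LP D P x s) := by
  set f : ℕ → ℂ := fun n => ((D.lam n * cm x n : ℝ) : ℂ) * (n : ℂ) ^ (-s) with hf
  have e : ∀ {p : ℕ}, p.Prime → ∀ j : ℕ,
      f (p ^ j) = ((D.lam (p ^ j) * x p ^ j : ℝ) : ℂ) * ((p : ℂ) ^ (-s)) ^ j := fun hp j => by
    simp only [hf]
    rw [cm_pow, cm_prime x hp, Nat.cast_pow, ← natCast_cpow_natCast_mul, cpow_nat_mul]
  obtain ⟨h1, h2⟩ := EulerProduct.summable_and_hasSum_factoredNumbers_prod_filter_prime_tsum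
    (f := f) (by simp [hf, D.lam_one, cm_one]) (fun {m n} h => by
      simp only [hf]
      rw [D.lam_mul m n h, cm_mul, Nat.cast_mul, natCast_mul_natCast_cpow]
      push_cast
      ring) (fun {p} hp => by
      simp only [e hp]
      refine meul_summ D hp (meul_abs hx p) ?_
      rw [norm_natCast_cpow_of_pos hp.pos, neg_re]
      exact Real.rpow_lt_one_of_one_lt_of_neg (by exact_mod_cast hp.one_lt) (by linarith)) P
  have h3 : ∀ n, n ∉ Nat.factoredNumbers P → f n = 0 := fun n hn => by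
    rw [Nat.mem_factoredNumbers'] at hn
    push Not at hn
    obtain ⟨p, hp, ⟨m, rfl⟩, h⟩ := hn
    simp only [hf]
    rw [cm_mul, cm_prime x hp, h0 p h]
    simp
  have h4 : ∏ p ∈ P with p.Prime, ∑' j : ℕ, f (p ^ j) = LP D P x s := by
    rw [filter_true_of_mem fun p hp => (hP p hp).1, LP]
    refine prod_congr rfl fun p hp => ?_
    rw [tsum_congr (e (hP p hp).1)]
    exact (hasSum_lf D (hP p hp).1 (hP p hp).2 (meul_abs hx p)
      (meul_norm D (hP p hp).1 (hP p hp).2 (by linarith))).tsum_eq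
  rw [h4] at h2
  refine ⟨?_, (hasSum_subtype_iff_of_support_subset (f := f) fun n hn => ?_).1 h2⟩
  · refine ⟨_, (hasSum_subtype_iff_of_support_subset (f := fun n => ‖f n‖) fun n hn => ?_).1
      h1.hasSum⟩
    by_contra h
    exact hn (by simp only [h3 n h, norm_zero])
  · by_contra h
    exact hn (h3 n h)
theorem LP_conj (D : Data) (P : Finset ℕ) (x : ℕ → ℝ) (s : ℂ) :
    starRingEnd ℂ (LP D P x s) = LP D P x (starRingEnd ℂ s) := by
  rw [LP, LP, map_prod]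
  refine prod_congr rfl fun p _ => ?_
  rw [lf_conj, ← map_neg, cpow_conj _ _ (by rw [natCast_arg]; exact Real.pi_ne_zero.symm),
    conj_natCast]
theorem LP_differentiableOn (hx : Adm x) (hP : ∀ p ∈ P, p.Prime ∧ ¬p ∣ D.q) :
    DifferentiableOn ℂ (LP D P x) {s | 1 / 4 < s.re} := by
  refine DifferentiableOn.fun_finsetProd fun p hp => ?_
  have h0 : (p : ℂ) ≠ 0 := Nat.cast_ne_zero.2 (hP p hp).1.ne_zero
  have h1 : Differentiable ℂ fun s : ℂ => (p : ℂ) ^ (-s) :=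
    differentiable_neg.const_cpow (Or.inl h0)
  refine DifferentiableOn.inv (Differentiable.differentiableOn ?_) fun s hs =>
    lf_den_ne (D.lam_le p (hP p hp).1) (meul_abs hx p)
      (meul_norm D (hP p hp).1 (hP p hp).2 (le_of_lt hs))
  exact ((differentiable_const _).sub (h1.const_mul _)).add ((h1.pow 2).const_mul _)
theorem norm_LP_le (hx : Adm x) (hP : ∀ p ∈ P, p.Prime ∧ ¬p ∣ D.q) {s : ℂ} (hs : 1 / 4 ≤ s.re) :
    ‖LP D P x s‖ ≤ 2 ^ P.card := by
  rw [LP, norm_prod, ← prod_const]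
  refine prod_le_prod (fun _ _ => norm_nonneg _) fun p hp => ?_
  have hz := meul_norm D (hP p hp).1 (hP p hp).2 hs
  have h1 := D.lam_le p (hP p hp).1
  have h2 := meul_abs hx p
  generalize (p : ℂ) ^ (-s) = z at hz
  have h3 : ‖((D.lam p * x p : ℝ) : ℂ) * z‖ ≤ 2 * 1 * (1 / 10) := by
    rw [norm_mul, norm_real, Real.norm_eq_abs, abs_mul]
    gcongr
  have h4 : ‖((x p ^ 2 : ℝ) : ℂ) * z ^ 2‖ ≤ 1 ^ 2 * (1 / 10) ^ 2 := by
    rw [norm_mul, norm_real, Real.norm_eq_abs, abs_pow, norm_pow]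
    gcongr
  have h5 := norm_sub_le (1 - ((D.lam p * x p : ℝ) : ℂ) * z + ((x p ^ 2 : ℝ) : ℂ) * z ^ 2)
    (((x p ^ 2 : ℝ) : ℂ) * z ^ 2 - ((D.lam p * x p : ℝ) : ℂ) * z)
  have h6 := norm_sub_le (((x p ^ 2 : ℝ) : ℂ) * z ^ 2) (((D.lam p * x p : ℝ) : ℂ) * z)
  rw [show ∀ A B : ℂ, 1 - A + B - (B - A) = 1 from fun A B => by ring, norm_one] at h5
  rw [lf, norm_inv]
  exact inv_le_of_inv_le₀ two_pos (by linarith)
/-- `hasSum_integral_of_summable_integral_norm`. -/
theorem sm_eq_LP (hx : Adm x) (hP : ∀ p ∈ P, p.Prime ∧ ¬p ∣ D.q) (h0 : ∀ p, p ∉ P → x p = 0) {σ : ℝ}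
    (hσ : 0 ≤ σ) {v V : ℝ → ℂ} (hv : Integrable v)
    (hV : ∀ y, 0 ≤ y → V y = ∫ t, v t * (ex (-t) y * (Real.exp (-σ * y) : ℝ))) :
    sm D x V = ∫ t, v t * LP D P x (1 / 2 + σ + I * t) := by
  have e : ∀ (n : ℕ) (t : ℝ), ((D.lam n * cm x n / √n : ℝ) : ℂ) *
      (v t * (ex (-t) (Real.log n) * (Real.exp (-σ * Real.log n) : ℝ))) =
      v t * (((D.lam n * cm x n : ℝ) : ℂ) * (n : ℂ) ^ (-(1 / 2 + σ + I * t))) := fun n t => by
    rcases Nat.eq_zero_or_pos n with rfl | hn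
    · simp [cm_zero]
    have h1 : (0 : ℝ) < n := by exact_mod_cast hn
    have h2 : √(n : ℝ) = Real.exp (Real.log n / 2) := by
      rw [Real.sqrt_eq_rpow, Real.rpow_def_of_pos h1]
      congr 1
      ring
    have h3 : (n : ℂ) ^ (-(1 / 2 + σ + I * t)) = cexp (-(Real.log n / 2 : ℝ)) *
        (ex (-t) (Real.log n) * (Real.exp (-σ * Real.log n) : ℝ)) := by
      rw [cpow_def_of_ne_zero (by exact_mod_cast hn.ne'), ← natCast_log, ex, ofReal_exp,
        ← Complex.exp_add, ← Complex.exp_add]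
      congr 1
      push_cast
      ring
    rw [h3, h2, Complex.exp_neg, ← ofReal_exp, ofReal_div, div_eq_mul_inv]
    ring
  have hre : ∀ t : ℝ, (1 / 2 : ℝ) ≤ (1 / 2 + σ + I * t : ℂ).re := fun t => by
    simp [hσ]
  have hn : ∀ (n : ℕ) (t : ℝ),
      ‖((D.lam n * cm x n : ℝ) : ℂ) * (n : ℂ) ^ (-(1 / 2 + σ + I * t))‖ =
      ‖((D.lam n * cm x n : ℝ) : ℂ) * (n : ℂ) ^ (-(1 / 2 + σ + I * (0 : ℝ)))‖ := fun n t => by
    rcases Nat.eq_zero_or_pos n with rfl | hn
    · simp [cm_zero]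
    rw [norm_mul, norm_mul, norm_natCast_cpow_of_pos hn, norm_natCast_cpow_of_pos hn]
    simp
  have h1 := hasSum_integral_of_summable_integral_norm (μ := volume)
    (F := fun (n : ℕ) (t : ℝ) =>
      v t * (((D.lam n * cm x n : ℝ) : ℂ) * (n : ℂ) ^ (-(1 / 2 + σ + I * t))))
    (fun n => by
      simp only [← e]
      refine Integrable.const_mul (hv.mul_bdd (c := Real.exp (-σ * Real.log n))
        (Continuous.aestronglyMeasurable ?_) (ae_of_all _ fun t => ?_)) _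
      · exact (continuous_ex.comp (continuous_neg.prodMk continuous_const)).mul continuous_const
      · rw [norm_mul, norm_ex, one_mul, norm_real, Real.norm_eq_abs, abs_of_pos (Real.exp_pos _)])
    (by
      refine ((hasSum_LP hx hP h0 (hre 0)).1.mul_left (∫ t, ‖v t‖)).congr fun n => ?_
      rw [← integral_mul_const]
      exact integral_congr_ae (ae_of_all _ fun t => by
        simp only
        rw [norm_mul (v t), hn n t]))
  rw [sm, tsum_congr (g := fun n : ℕ => ∫ t : ℝ,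
    v t * (((D.lam n * cm x n : ℝ) : ℂ) * (n : ℂ) ^ (-(1 / 2 + σ + I * t)))) fun n => by
      rw [hV _ (Real.log_natCast_nonneg n), ← integral_const_mul]
      exact integral_congr_ae (ae_of_all _ (e n)), h1.tsum_eq]
  exact integral_congr_ae (ae_of_all _ fun t =>
    ((hasSum_LP hx hP h0 (hre t)).2.mul_left (v t)).tsum_eq)
/-- Apply `Sm.mul_holo` (or `Sm.mul`) to `Θ y * exp (-σ U y)` with `0 ≤ σ U ≤ 1`, then `Sm.inv`, `Sm.ft_le`
and the substitution `τ = U t`: `v t = exp (σ L) U ft (U t) ex t L`. -/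
theorem pc_rep (j : ℕ) : ∃ C : ℝ, 0 ≤ C ∧ ∀ (a b B L U σ : ℝ) (Θ : ℝ → ℂ), -4 ≤ a → b ≤ 4 →
    Sm j a b B Θ → 1 ≤ U → 0 ≤ σ → σ * U ≤ 1 → σ * L ≤ 1 →
    ∃ v : ℝ → ℂ, Continuous v ∧ Integrable v ∧ (∀ t, ‖v t‖ ≤ C * B * U / (1 + U * |t|) ^ j) ∧
      ∀ y, Θ ((L - y) / U) = ∫ t, v t * (ex (-t) y * (Real.exp (-σ * y) : ℝ)) := by
  obtain ⟨C₁, hC₁, h1⟩ := Sm.mul_holo j
  obtain ⟨C₂, hC₂, h2⟩ := Sm.ft_le j 8
  refine ⟨Real.exp 1 * (C₂ * (C₁ * Real.exp 5)), by positivity,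
    fun a b B L U σ Θ ha hb hΘ hU hσ hσU hσL => ?_⟩
  have hU0 : 0 < U := by linarith
  have hB := hΘ.nonneg
  have hσU0 : 0 ≤ σ * U := by positivity
  have hW := h1 a b B (Real.exp 5) 1 Θ (fun z => cexp (-((σ * U : ℝ) * z))) hΘ one_pos le_rfl
    (Real.exp_pos _).le (Differentiable.differentiableOn (by fun_prop)) fun z h3 _ _ => by
      rw [norm_exp, neg_re, re_ofReal_mul]
      refine Real.exp_le_exp.2 ?_
      nlinarith
  set W : ℝ → ℂ := fun y => Θ y * cexp (-((σ * U : ℝ) * y)) with hWd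
  have hi : Integrable (ft W) := by
    refine (integrable_norm_iff hW.ft_cont.aestronglyMeasurable).1 ?_
    simpa using hW.ft_integrable 0
  have hc : Continuous fun t : ℝ => ex t L :=
    continuous_ex.comp (continuous_id.prodMk continuous_const)
  refine ⟨fun t => (Real.exp (σ * L) * U : ℝ) * (ft W (U * t) * ex t L),
    continuous_const.mul ((hW.ft_cont.comp (continuous_const.mul continuous_id)).mul hc),
    ((hi.comp_mul_left' hU0.ne').mul_bdd (c := 1) hc.aestronglyMeasurable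
      (ae_of_all _ fun t => (norm_ex _ _).le)).const_mul _, fun t => ?_, fun y => ?_⟩
  · have h3 := h2 a b _ W (by linarith) hW (U * t)
    rw [abs_mul, abs_of_pos hU0] at h3
    rw [norm_mul, norm_mul, norm_ex, mul_one, norm_real, Real.norm_eq_abs,
      abs_of_pos (by positivity)]
    have h4 : Real.exp (σ * L) ≤ Real.exp 1 := Real.exp_le_exp.2 hσL
    calc Real.exp (σ * L) * U * ‖ft W (U * t)‖
        ≤ Real.exp 1 * U * (C₂ * (C₁ * B * Real.exp 5 / 1 ^ j) / (1 + U * |t|) ^ j) := by gcongr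
      _ = _ := by
        rw [one_pow, div_one]
        ring
  · have hUc : (U : ℂ) ≠ 0 := ofReal_ne_zero.2 hU0.ne'
    have h3 := Measure.integral_comp_mul_left (fun τ => ft W τ * ex τ ((L - y) / U)) U
    rw [← hW.inv, abs_of_pos (inv_pos.2 hU0), real_smul] at h3
    have h4 : ∀ t : ℝ, (Real.exp (σ * L) * U : ℝ) * (ft W (U * t) * ex t L) *
        (ex (-t) y * (Real.exp (-σ * y) : ℝ)) =
        (U * cexp (σ * (L - y))) * (ft W (U * t) * ex (U * t) ((L - y) / U)) := fun t => by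
      have e1 : ex (U * t) ((L - y) / U) = ex t L * ex (-t) y := by
        simp only [ex, ← Complex.exp_add]
        congr 1
        push_cast
        field_simp
        ring
      have e2 : cexp (σ * (L - y)) = cexp (σ * L) * cexp (-σ * y) := by
        rw [← Complex.exp_add]
        congr 1
        ring
      rw [e1, e2]
      push_cast
      ring
    have h5 : cexp (σ * (L - y)) * cexp (-((σ * U : ℝ) * ((L - y) / U : ℝ))) = 1 := by
      rw [← Complex.exp_add, ← Complex.exp_zero]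
      congr 1
      push_cast
      field_simp
      ring
    simp only [h4]
    rw [integral_const_mul, h3, hWd, ofReal_inv, mul_mul_mul_comm, mul_inv_cancel₀ hUc]
    linear_combination (-Θ ((L - y) / U)) * h5

end Pool.Agent.Lib.MP_03e5d0_nt
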