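import Pool.Agent.Lib.MP_03e5d0_nt.MKer
import Pool.Agent.Lib.MP_03e5d0_nt.MEul

set_option autoImplicit false

noncomputable section

namespace Pool.Agent.Lib.MP_03e5d0_nt

open Complex Finset MeasureTheory
open scoped NumberTheorySymbols Real ContDiff

/-! The diagonal terms. -/

theorem integral_scaled {U : ℝ} (hU : 0 < U) :
    Integrable (fun t : ℝ => U / (1 + U * |t|) ^ 2) ∧ ∫ t : ℝ, U / (1 + U * |t|) ^ 2 = 2 := by
  have e : (fun t : ℝ => U / (1 + U * |t|) ^ 2) =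
      fun t => U * (fun s : ℝ => 1 / (1 + |s|) ^ 2) (U * t) := by
    funext t
    simp only [abs_mul, abs_of_pos hU]
    ring
  rw [e]
  refine ⟨(integrable_inv_sq.comp_mul_left' hU.ne').const_mul U, ?_⟩
  rw [integral_const_mul, Measure.integral_comp_mul_left (fun s : ℝ => 1 / (1 + |s|) ^ 2),
    integral_inv_sq, abs_of_pos (inv_pos.2 hU), smul_eq_mul, mul_inv_cancel_left₀ hU.ne']

theorem mdiag_cont {Λ : ℝ} (hΛ : 0 < Λ) : Continuous (kr Λ) :=
  continuous_const.div (by fun_prop) fun t => by positivity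

theorem mdiag_nonneg {Λ : ℝ} (hΛ : 0 < Λ) (t : ℝ) : 0 ≤ kr Λ t := by
  unfold kr
  positivity

theorem mdiag_int {U Λ : ℝ} (hU : 0 < U) (hΛ : 0 < Λ) (t₁ : ℝ) :
    Integrable fun t : ℝ => U / (1 + U * |t|) ^ 2 * kr Λ (t₁ - t) := by
  refine (integral_scaled hU).1.mul_bdd (c := Λ)
    ((mdiag_cont hΛ).comp (continuous_const.sub continuous_id)).aestronglyMeasurable
    (Filter.Eventually.of_forall fun t => ?_)
  rw [Real.norm_of_nonneg (mdiag_nonneg hΛ _)]
  exact div_le_self hΛ.le (le_add_of_nonneg_right (by positivity))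

theorem mdiag_log {Λ r : ℝ} (hΛ : 0 < Λ) (hr : 0 ≤ r) :
    ∫ t in (-r)..r, kr Λ t = 2 * Real.log (1 + Λ * r) := by
  have c := mdiag_cont hΛ
  have h1 : ∫ t in (0 : ℝ)..r, kr Λ t = Real.log (1 + Λ * r) - Real.log (1 + Λ * 0) := by
    refine intervalIntegral.integral_eq_sub_of_hasDerivAt (f := fun t => Real.log (1 + Λ * t))
      (fun t ht => ?_) (c.intervalIntegrable _ _)
    rw [Set.uIcc_of_le hr] at ht
    have h0 := ht.1
    have := (((hasDerivAt_id t).const_mul Λ).const_add 1).log (x := t)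
      (show 1 + Λ * t ≠ 0 by positivity)
    simpa [kr, abs_of_nonneg h0] using this
  have h2 : ∫ t in (-r)..0, kr Λ t = ∫ t in (0 : ℝ)..r, kr Λ t := by
    have := intervalIntegral.integral_comp_neg (a := 0) (b := r) (kr Λ)
    rw [neg_zero] at this
    rw [← this]
    simp only [kr, abs_neg]
  rw [← intervalIntegral.integral_add_adjacent_intervals (b := 0) (c.intervalIntegrable _ _)
    (c.intervalIntegrable _ _), h2, h1]
  simp [two_mul]

/-- Split at `|t₁ - t| ≤ 1 / U`: there the weight is at most `U` and `∫ kr = 2 log (1 + Λ / U)`; elsewhere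
`kr ≤ U`. -/
theorem integral_kr {U Λ : ℝ} (hU : 0 < U) (hΛ : 0 < Λ) (t₁ : ℝ) :
    ∫ t : ℝ, U / (1 + U * |t|) ^ 2 * kr Λ (t₁ - t) ≤ 2 * U * (1 + Real.log (1 + Λ / U)) := by
  have c : Continuous fun t => kr Λ (t₁ - t) :=
    (mdiag_cont hΛ).comp (continuous_const.sub continuous_id)
  have r0 := inv_pos.2 hU
  have i1 := (integral_scaled hU).1.const_mul U
  have i2 : Integrable ((Set.Ioc (t₁ - U⁻¹) (t₁ + U⁻¹)).indicator fun t => kr Λ (t₁ - t)) :=
    c.integrableOn_Ioc.integrable_indicator measurableSet_Ioc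
  refine (integral_mono (mdiag_int hU hΛ t₁) (i1.add (i2.const_mul U)) fun t => ?_).trans_eq ?_
  · have w0 : 0 ≤ U / (1 + U * |t|) ^ 2 := by positivity
    have k0 := mdiag_nonneg hΛ (t₁ - t)
    simp only [Pi.add_apply]
    by_cases h : t ∈ Set.Ioc (t₁ - U⁻¹) (t₁ + U⁻¹)
    · rw [Set.indicator_of_mem h]
      have : U / (1 + U * |t|) ^ 2 ≤ U :=
        div_le_self hU.le (one_le_pow₀ (le_add_of_nonneg_right (by positivity)))
      nlinarith [mul_le_mul_of_nonneg_right this k0, mul_nonneg hU.le w0]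
    · rw [Set.indicator_of_notMem h, mul_zero, add_zero, mul_comm]
      refine mul_le_mul_of_nonneg_right ?_ w0
      have h1 : U⁻¹ ≤ |t₁ - t| := by
        rw [Set.mem_Ioc, not_and_or, not_lt, not_le] at h
        rcases h with h | h
        · exact le_abs.2 (Or.inl (by linarith))
        · exact le_abs.2 (Or.inr (by linarith))
      have h2 := mul_le_mul_of_nonneg_left h1 (mul_pos hU hΛ).le
      rw [mul_right_comm, mul_inv_cancel₀ hU.ne'] at h2
      rw [kr, div_le_iff₀ (by positivity)]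
      linarith
  · simp only [Pi.add_apply]
    rw [integral_add i1 (i2.const_mul U), integral_const_mul, integral_const_mul,
      (integral_scaled hU).2, integral_indicator measurableSet_Ioc,
      ← intervalIntegral.integral_of_le (by linarith), intervalIntegral.integral_comp_sub_left,
      sub_add_cancel_left, sub_sub_cancel, mdiag_log hΛ r0.le, div_eq_mul_inv]
    ring

theorem mdiag_wt {k : ℕ} {K U Λ' t : ℝ} {z : ℂ} (hK : 0 ≤ K) (hU : 1 ≤ U) (h0 : 0 ≤ Λ') (h1 : Λ' ≤ U)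
    (hz : ‖z‖ ≤ K * U / (1 + U * |t|) ^ (2 * k + 2)) :
    ‖z‖ * ((1 + |t| * Λ') * (2 + |t|)) ^ k ≤ 2 ^ k * K * (U / (1 + U * |t|) ^ 2) := by
  have a0 := abs_nonneg t
  have a1 : (1 + |t| * Λ') * (2 + |t|) ≤ 2 * (1 + U * |t|) ^ 2 := by
    have b1 : 1 + |t| * Λ' ≤ 1 + U * |t| := by nlinarith
    have b2 : 2 + |t| ≤ 2 * (1 + U * |t|) := by nlinarith
    have := mul_le_mul b1 b2 (by positivity) (by positivity)
    linarith
  refine (mul_le_mul hz (pow_le_pow_left₀ (by positivity) a1 k) (by positivity)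
    (by positivity)).trans_eq ?_
  rw [mul_pow, ← pow_mul]
  field_simp
  ring

/-- `pc_rep` with `σ = 0`, `j = 2 k + 2`, `sm_eq_LP`, `‖S‖ ^ 2 = S * conj S` as an iterated integral,
`LP_conj`, `Ex_integral` twice; `(1 + |t| Λ') (2 + |t|) ≤ 2 (1 + U |t|) ^ 2`. -/
theorem diag_bound (k : ℕ) : ∃ (j : ℕ) (C : ℝ), 0 ≤ C ∧ ∀ (D : Data) (δ : ℕ → ℝ) (f : (ℕ → ℝ) → ℝ)
    (Λ Λ' Ms U L a b B : ℝ) (Θ : ℝ → ℂ), 1 ≤ Λ → 1 ≤ U → 0 ≤ Λ' → Λ' ≤ U → 0 ≤ Ms → -4 ≤ a → b ≤ 4 →
    Sm j a b B Θ →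
    (∀ t₁ t₂ : ℝ, ‖Ex (pr D Λ) δ fun x => (f x : ℂ) *
        (LP D (pr D Λ) x (1 / 2 + I * t₁) * LP D (pr D Λ) x (1 / 2 - I * t₂))‖ ≤
      Ms * ((1 + |t₁| * Λ') * (1 + |t₂| * Λ') * (2 + |t₁|) * (2 + |t₂|)) ^ k * kr Λ (t₁ - t₂)) →
    Ex (pr D Λ) δ (fun x => f x * ‖pc D x L U Θ‖ ^ 2) ≤
      C * Ms * B ^ 2 * U * (1 + Real.log (1 + Λ / U)) := by
  obtain ⟨C, hC, h⟩ := pc_rep (2 * k + 2)
  refine ⟨2 * k + 2, 4 * (2 ^ k * C) ^ 2, by positivity,
    fun D δ f Λ Λ' Ms U L a b B Θ hΛ hU h0 h1 hM ha hb hΘ hK => ?_⟩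
  obtain ⟨v, -, vi, vb, hv⟩ := h a b B L U 0 Θ ha hb hΘ hU le_rfl (by simp) (by simp)
  have hB := hΘ.nonneg
  have hP : ∀ p ∈ pr D Λ, p.Prime ∧ ¬p ∣ D.q := fun p hp => (mem_filter.1 hp).2
  have U0 : 0 < U := by linarith
  have Λ0 : 0 < Λ := by linarith
  have hF : ∀ x, Adm x → Integrable fun t : ℝ => v t * LP D (pr D Λ) x (1 / 2 + I * t) := by
    intro x hx
    refine vi.mul_bdd (c := 2 ^ (pr D Λ).card) (Continuous.aestronglyMeasurable ?_)
      (Filter.Eventually.of_forall fun t => norm_LP_le hx hP (by norm_num))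
    exact (LP_differentiableOn hx hP).continuousOn.comp_continuous (by fun_prop) fun t => by
      norm_num
  have hG : ∀ x (t : ℝ), starRingEnd ℂ (v t * LP D (pr D Λ) x (1 / 2 + I * t)) =
      starRingEnd ℂ (v t) * LP D (pr D Λ) x (1 / 2 - I * t) := by
    intro x t
    rw [map_mul, LP_conj]
    simp [sub_eq_add_neg, map_ofNat]
  have hF' : ∀ x, Adm x →
      Integrable fun t : ℝ => starRingEnd ℂ (v t) * LP D (pr D Λ) x (1 / 2 - I * t) := by
    intro x hx
    simp only [← hG]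
    exact conjCLE.toContinuousLinearMap.integrable_comp (hF x hx)
  have e : ((Ex (pr D Λ) δ (fun x => f x * ‖pc D x L U Θ‖ ^ 2) : ℝ) : ℂ) =
      ∫ t₁ : ℝ, ∫ t₂ : ℝ, v t₁ * starRingEnd ℂ (v t₂) * Ex (pr D Λ) δ fun x => (f x : ℂ) *
        (LP D (pr D Λ) x (1 / 2 + I * t₁) * LP D (pr D Λ) x (1 / 2 - I * t₂)) := by
    rw [← Ex_ofReal]
    have e1 : ∀ x, Adm x → (∀ p, p ∉ pr D Λ → x p = 0) → ((f x * ‖pc D x L U Θ‖ ^ 2 : ℝ) : ℂ) =
        ∫ t₁ : ℝ, v t₁ * LP D (pr D Λ) x (1 / 2 + I * t₁) * (f x *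
          ∫ t₂ : ℝ, starRingEnd ℂ (v t₂) * LP D (pr D Λ) x (1 / 2 - I * t₂)) := by
      intro x hx hx0
      have e2 := sm_eq_LP hx hP hx0 le_rfl vi fun y _ => hv y
      simp only [ofReal_zero, add_zero] at e2
      simp only [← hG]
      rw [integral_mul_const, integral_conj, ← e2, ofReal_mul, ofReal_pow, ← mul_conj', pc]
      ring
    rw [Ex_congr e1, Ex_integral fun x hx _ => (hF x hx).mul_const _]
    refine integral_congr_ae (Filter.Eventually.of_forall fun t₁ => ?_)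
    simp only [← integral_const_mul]
    rw [Ex_integral fun x hx _ => ((hF' x hx).const_mul _).const_mul _]
    refine integral_congr_ae (Filter.Eventually.of_forall fun t₂ => ?_)
    simp only
    rw [← Ex_mul_left]
    exact Ex_congr fun x _ _ => by ring
  have l0 : 0 ≤ Real.log (1 + Λ / U) := Real.log_nonneg (le_add_of_nonneg_right (by positivity))
  refine (le_abs_self _).trans ?_
  rw [← Real.norm_eq_abs, ← norm_real, e]
  refine (norm_integral_le_of_norm_le ((integral_scaled U0).1.const_mul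
    ((2 ^ k * (C * B)) ^ 2 * Ms * (2 * U * (1 + Real.log (1 + Λ / U)))))
    (Filter.Eventually.of_forall fun t₁ => ?_)).trans_eq ?_
  · refine (norm_integral_le_of_norm_le ((mdiag_int U0 Λ0 t₁).const_mul
      ((2 ^ k * (C * B)) ^ 2 * Ms * (U / (1 + U * |t₁|) ^ 2)))
      (Filter.Eventually.of_forall fun t₂ => ?_)).trans ?_
    · have w1 := mdiag_wt (by positivity) hU h0 h1 (vb t₁)
      have w2 := mdiag_wt (by positivity) hU h0 h1 (vb t₂)
      have k0 := mdiag_nonneg Λ0 (t₁ - t₂)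
      have w3 := mul_le_mul_of_nonneg_right (mul_le_mul w1 w2 (by positivity) (by positivity))
        (mul_nonneg hM k0)
      rw [norm_mul, norm_mul, RCLike.norm_conj]
      refine (mul_le_mul_of_nonneg_left (hK t₁ t₂) (by positivity)).trans
        (le_of_eq_of_le ?_ (w3.trans_eq ?_))
      · simp only [mul_pow]
        ring
      · ring
    · rw [integral_const_mul]
      refine (mul_le_mul_of_nonneg_left (integral_kr U0 Λ0 t₁) (by positivity)).trans_eq ?_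
      ring
  · rw [integral_const_mul, (integral_scaled U0).2]
    ring

/-- `ker` with `Z = 0`, `a = b = J = 0`, and `diag_bound` with `U = 1`, `Θ y = W (-y)`. -/
theorem diag_one (D : Data) (hPS : D.PS) : ∃ (j : ℕ) (C : ℝ), 0 ≤ C ∧ ∀ (B L Λ : ℝ) (W : ℝ → ℂ),
    Sm j (-1) 1 B W → 1 ≤ Λ →
    Ex (pr D Λ) dl0 (fun x => ‖sm D x fun y => W (y - L)‖ ^ 2) ≤
      C * B ^ 2 * (1 + Real.log (1 + Λ)) := by
  obtain ⟨k, C, hC, h⟩ := ker D hPS
  obtain ⟨j, C', hC', h'⟩ := diag_bound k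
  refine ⟨j, C' * C, by positivity, fun B L Λ W hW hΛ => ?_⟩
  have := h' D dl0 (fun _ => 1) Λ 1 C 1 L _ _ B _ hΛ le_rfl zero_le_one le_rfl hC (by norm_num)
    (by norm_num) hW.neg_arg fun t₁ t₂ => by
      simpa [VV_self, ly] using h 1 0 Λ 0 0 0 dl0 t₁ t₂ le_rfl le_rfl (by norm_num) le_rfl le_rfl hΛ
        (by simpa using zero_le_one.trans hΛ) dl_dl0
  simpa [pc] using this

end Pool.Agent.Lib.MP_03e5d0_nt
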