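import Pool.Agent.Lib.MP_03e5d0_nt.MFm3
import Pool.Agent.Lib.MP_03e5d0_nt.MDiag
import Pool.Agent.Lib.MP_03e5d0_nt.MWin

set_option autoImplicit false

noncomputable section

namespace Pool.Agent.Lib.MP_03e5d0_nt

open Complex Finset MeasureTheory
open scoped NumberTheorySymbols Real ContDiff

/-! The first moment in the random model. -/

theorem VV_depends (D : Data) (c : ℕ) {Z : ℝ} (hZ : 0 ≤ Z) (J : ℕ) :
    DependsOn (VV D c Z 0 J) (pr D Z : Set ℕ) := by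
  intro x y h
  refine Finset.prod_congr rfl fun j _ => vv_depends D c Z j fun p hp => h p ?_
  have h1 : Z / 2 ^ j ≤ Z := div_le_self hZ (one_le_pow₀ one_le_two)
  exact pr_mono D h1 (Finset.mem_sdiff.1 hp).1

theorem mfm_LP_depends (D : Data) (S : Finset ℕ) (s : ℂ) :
    DependsOn (fun x => LP D S x s) (S : Set ℕ) := by
  intro x y h
  exact Finset.prod_congr rfl fun p hp => by rw [h p hp]

/-- `LP` over `pr D Λ` splits; `Ex_indep`, `Ex_restrict`, `Ex_prod`. -/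
theorem Ex_VV_LP (D : Data) (c : ℕ) {Z Λ : ℝ} (hZ : 0 ≤ Z) (hΛ : Z ≤ Λ) (J : ℕ) (α : ℂ) :
    Ex (pr D Λ) dl1 (fun x => ((VV D c Z 0 J x ^ 3 : ℝ) : ℂ) * LP D (pr D Λ) x (1 / 2 + α)) =
      Om1 D c Z J α * Om2 D (pr D Λ \ pr D Z) α := by
  have hs := pr_mono D hΛ
  have h1 : DependsOn (fun x => ((VV D c Z 0 J x ^ 3 : ℝ) : ℂ) * LP D (pr D Z) x (1 / 2 + α))
      (pr D Z : Set ℕ) := by
    intro x y h
    simp only
    rw [VV_depends D c hZ J h, show LP D (pr D Z) x (1 / 2 + α) = LP D (pr D Z) y (1 / 2 + α) from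
      mfm_LP_depends D _ _ h]
  have h2 : DependsOn (fun x => LP D (pr D Λ \ pr D Z) x (1 / 2 + α)) (pr D Z : Set ℕ)ᶜ :=
    (mfm_LP_depends D _ _).mono fun p hp => (Finset.mem_sdiff.1 hp).2
  have h3 : Ex (pr D Λ) dl1 (fun x => LP D (pr D Λ \ pr D Z) x (1 / 2 + α)) =
      Om2 D (pr D Λ \ pr D Z) α :=
    Ex_prod Finset.sdiff_subset fun p u => lf (D.lam p) u ((p : ℂ) ^ (-(1 / 2 + α)))
  rw [Om1, ← Ex_restrict hs h1, ← h3, ← Ex_indep h1 h2]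
  congr 1
  funext x
  rw [mul_assoc, LP, LP, LP, ← Finset.prod_sdiff hs, mul_comm (∏ p ∈ pr D Z, _)]

theorem mfm_int {P : Finset ℕ} {δ : ℕ → ℝ} {f : (ℕ → ℝ) → ℝ → ℂ}
    (h : ∀ x, Adm x → Integrable (f x)) : Integrable fun t => Ex P δ fun x => f x t :=
  integrable_finsetSum _ fun w _ => (h _ (adm_ext P w)).smul (∏ p : P, wt (δ p) (w p))

theorem mfm_LP_int {D : Data} {P : Finset ℕ} {x : ℕ → ℝ} (hx : Adm x)
    (hP : ∀ p ∈ P, p.Prime ∧ ¬p ∣ D.q) {σ : ℝ} (hσ : 0 ≤ σ) {v : ℝ → ℂ} (hv : Integrable v) :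
    Integrable fun t : ℝ => v t * LP D P x (1 / 2 + σ + I * t) := by
  have h1 : ∀ t : ℝ, (1 / 2 + σ + I * t : ℂ).re = 1 / 2 + σ := fun t => by simp
  have h2 : Continuous fun t : ℝ => LP D P x (1 / 2 + σ + I * t) :=
    (LP_differentiableOn hx hP).continuousOn.comp_continuous (by fun_prop) fun t => by
      rw [Set.mem_ofPred_eq, h1]
      linarith
  exact hv.mul_bdd h2.aestronglyMeasurable (c := 2 ^ P.card)
    (Filter.Eventually.of_forall fun t => norm_LP_le hx hP (by rw [h1]; linarith))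

theorem mfm_bd {a a' b b' : ℂ} {C₁ C₂ Z U t : ℝ} {k₁ k₂ : ℕ} (h₁ : 0 ≤ C₁) (h₂ : 0 ≤ C₂)
    (hZ : 1 ≤ Z) (hU : Z ≤ U) (ha : ‖a‖ ≤ C₁ / √Z)
    (ha' : ‖a' - a‖ ≤ C₁ * |t| * √Z * (1 + |t| * Z) ^ k₁) (hb : ‖b'‖ ≤ C₂ * (2 + |t|) ^ k₂)
    (hb' : ‖b' - b‖ ≤ C₂ * |t| * Z * (2 + |t|) ^ k₂) :
    ‖a' * b' - a * b‖ ≤ 2 * C₁ * C₂ * 2 ^ k₂ * √Z / U * (1 + U * |t|) ^ (k₁ + k₂ + 1) := by
  have ht := abs_nonneg t
  have hU0 : 0 < U := by linarith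
  have hw : 1 ≤ 1 + U * |t| := le_add_of_nonneg_right (by positivity)
  have e₁ : 1 + |t| * Z ≤ 1 + U * |t| := by nlinarith
  have e₂ : 2 + |t| ≤ 2 * (1 + U * |t|) := by nlinarith
  have e₃ : |t| ≤ (1 + U * |t|) / U := by
    rw [le_div_iff₀ hU0]
    linarith
  have e₄ : 1 ≤ (1 + U * |t|) ^ k₁ := one_le_pow₀ hw
  have hs : 0 < √Z := Real.sqrt_pos.2 (by linarith)
  have e₅ : Z = √Z * √Z := (Real.mul_self_sqrt (by linarith)).symm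
  generalize 1 + U * |t| = w at *
  have b₁ : ‖a' - a‖ ≤ C₁ * (w / U) * √Z * w ^ k₁ := ha'.trans (by gcongr)
  have b₂ : ‖b'‖ ≤ C₂ * (2 * w) ^ k₂ := hb.trans (by gcongr)
  have b₃ : ‖b' - b‖ ≤ C₂ * (w / U) * Z * ((2 * w) ^ k₂ * w ^ k₁) := hb'.trans (by
    have : (2 + |t|) ^ k₂ ≤ (2 * w) ^ k₂ * w ^ k₁ :=
      (pow_le_pow_left₀ (by positivity) e₂ _).trans (le_mul_of_one_le_right (by positivity) e₄)
    gcongr)
  rw [show a' * b' - a * b = (a' - a) * b' + a * (b' - b) by ring]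
  refine (norm_add_le_of_le (norm_mul_le_of_le b₁ b₂) (norm_mul_le_of_le ha b₃)).trans
    (le_of_eq ?_)
  generalize √Z = s at *
  subst e₅
  field_simp
  ring

/-- Take `σ = 1 / L`, `Λ = max Λ₀ L`, `H = Om1 σ * Om2 σ`. `Ex_restrict` (`sm_depends`, `pc_supp`,
`VV_depends`) replaces `pr D L` by `pr D Λ`. `pc_rep`, `sm_eq_LP`, `Ex_integral`, `Ex_VV_LP` give
`∫ v t * Ω (σ + i t)`; `y = 0` in `pc_rep` gives `∫ v = Θ (L' / U)`. Finally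
`‖Ω (σ + i t) - Ω σ‖ ≤ C √Z |t| (1 + U |t|) ^ k'`, `j = k' + 3`, `|t| ≤ (1 + U |t|) / U`, `integral_scaled`. -/
theorem fm_main (D : Data) (hPS : D.PS) : ∃ (c j : ℕ) (cF C : ℝ), 1 ≤ c ∧ 0 < cF ∧ 0 ≤ C ∧
    ∀ (Z L : ℝ) (J : ℕ), 1 ≤ Z → Z ≤ 2 ^ J → Z ≤ L → ∃ H : ℝ, cF / √Z ≤ H ∧ H ≤ C / √Z ∧
    ∀ (U L' B : ℝ) (Θ : ℝ → ℂ), Z ≤ U → U ≤ L → L' ≤ L → Sm j 1 4 B Θ →
    ‖Ex (pr D L) dl1 (fun x => ((VV D c Z 0 J x ^ 3 : ℝ) : ℂ) * pc D x L' U Θ) - H * Θ (L' / U)‖ ≤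
      C * B * √Z / U := by
  obtain ⟨c, k₁, cl₁, C₁, hc, hcl₁, hC₁, h₁⟩ := om1 D hPS
  obtain ⟨k₂, cl₂, C₂, hcl₂, hC₂, h₂⟩ := om2 D hPS
  obtain ⟨C₃, hC₃, h₃⟩ := pc_rep (k₁ + k₂ + 1 + 2)
  refine ⟨c, k₁ + k₂ + 1 + 2, cl₁ * cl₂, C₁ * C₂ + 4 * C₁ * C₂ * 2 ^ k₂ * C₃, hc, by positivity,
    by positivity, fun Z L J hZ hJ hL => ?_⟩
  have hL0 : 0 < L := by linarith
  have hσ : 0 < 1 / L := by positivity
  have hσ' : ∀ y, y ≤ L → 1 / L * y ≤ 1 := fun y hy => by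
    rw [one_div, inv_mul_le_iff₀ hL0]
    linarith
  generalize 1 / L = σ at hσ hσ'
  obtain ⟨⟨H₁, e₁, l₁, u₁⟩, d₁⟩ := h₁ Z σ J hZ hJ hσ.le (hσ' Z hL)
  obtain ⟨Λ₀, h₄⟩ := h₂ Z σ hZ hσ (hσ' Z hL)
  have hΛ : L ≤ max Λ₀ L := le_max_right _ _
  obtain ⟨⟨H₂, e₂, l₂, u₂⟩, d₂⟩ := h₄ (max Λ₀ L) (le_max_left _ _) (hL.trans hΛ)
  generalize max Λ₀ L = Λ at hΛ e₂ d₂
  have hs : 0 < √Z := Real.sqrt_pos.2 (by linarith)
  have p₁ : 0 ≤ H₁ := le_trans (by positivity) l₁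
  have p₂ : 0 ≤ H₂ := hcl₂.le.trans l₂
  refine ⟨H₁ * H₂, ?_, ?_, fun U L' B Θ hU hUL hL' hΘ => ?_⟩
  · rw [mul_div_right_comm]
    exact mul_le_mul l₁ l₂ hcl₂.le p₁
  · refine (mul_le_mul u₁ u₂ p₂ (by positivity)).trans ?_
    rw [← mul_div_right_comm]
    gcongr
    exact le_add_of_nonneg_right (by positivity)
  have hU0 : 0 < U := by linarith
  have hB := hΘ.nonneg
  obtain ⟨v, -, hv, hv', hrep⟩ := h₃ 1 4 B L' U σ Θ (by norm_num) le_rfl hΘ (hZ.trans hU) hσ.le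
    (hσ' U hUL) (hσ' L' hL')
  have hP : ∀ p ∈ pr D Λ, p.Prime ∧ ¬p ∣ D.q := fun p hp => ⟨(mem_pr.1 hp).1, (mem_pr.1 hp).2.1⟩
  have hdep : DependsOn (fun x => ((VV D c Z 0 J x ^ 3 : ℝ) : ℂ) * pc D x L' U Θ)
      (pr D L : Set ℕ) := by
    intro x y h
    simp only
    rw [(VV_depends D c (by linarith) J).mono (pr_mono D hL) h,
      show pc D x L' U Θ = pc D y L' U Θ from
        sm_depends D (fun y hy => pc_supp hΘ hU0 y (by linarith)) h]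
  have hint : ∀ x, Adm x → Integrable fun t : ℝ => v t *
      (((VV D c Z 0 J x ^ 3 : ℝ) : ℂ) * LP D (pr D Λ) x (1 / 2 + (σ + I * t))) := by
    intro x hx
    refine ((mfm_LP_int hx hP hσ.le hv).const_mul ((VV D c Z 0 J x ^ 3 : ℝ) : ℂ)).congr
      (Filter.Eventually.of_forall fun t => ?_)
    simp only
    rw [add_assoc, mul_left_comm]
  have hE : ∀ t : ℝ, Ex (pr D Λ) dl1 (fun x => v t *
      (((VV D c Z 0 J x ^ 3 : ℝ) : ℂ) * LP D (pr D Λ) x (1 / 2 + (σ + I * t)))) =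
      v t * (Om1 D c Z J (σ + I * t) * Om2 D (pr D Λ \ pr D Z) (σ + I * t)) := fun t => by
    rw [Ex_mul_left, Ex_VV_LP D c (by linarith) (hL.trans hΛ)]
  have a₁ : Ex (pr D L) dl1 (fun x => ((VV D c Z 0 J x ^ 3 : ℝ) : ℂ) * pc D x L' U Θ) =
      ∫ t : ℝ, v t * (Om1 D c Z J (σ + I * t) * Om2 D (pr D Λ \ pr D Z) (σ + I * t)) := by
    simp only [← hE]
    rw [← Ex_restrict (pr_mono D hΛ) hdep, ← Ex_integral fun x hx _ => hint x hx]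
    refine Ex_congr fun x hx h0 => ?_
    rw [pc, sm_eq_LP hx hP h0 hσ.le hv fun y _ => hrep y, ← integral_const_mul]
    congr 1
    funext t
    rw [add_assoc, mul_left_comm]
  have a₂ : ((H₁ * H₂ : ℝ) : ℂ) * Θ (L' / U) =
      ∫ t : ℝ, v t * (Om1 D c Z J σ * Om2 D (pr D Λ \ pr D Z) σ) := by
    have h5 := hrep 0
    simp only [sub_zero, ex_zero, mul_zero, Real.exp_zero, ofReal_one, mul_one] at h5
    rw [integral_mul_const, ← h5, e₁, e₂, mul_comm]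
    push_cast
    rfl
  have a₃ := mfm_int (P := pr D Λ) (δ := dl1) hint
  simp only [hE] at a₃
  rw [a₁, a₂, ← integral_sub a₃ (hv.mul_const _)]
  obtain ⟨i₁, i₂⟩ := integral_scaled hU0
  refine (norm_integral_le_of_norm_le (i₁.const_mul (2 * C₁ * C₂ * 2 ^ k₂ * C₃ * B * √Z / U))
    (Filter.Eventually.of_forall fun t => ?_)).trans ?_
  · have b₁ := mfm_bd (a := Om1 D c Z J σ) hC₁ hC₂ hZ hU
      (by rw [e₁, Complex.norm_real, Real.norm_eq_abs, abs_of_nonneg p₁]; exact u₁) (d₁ t)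
      (d₂ t).1 (d₂ t).2
    rw [← mul_sub]
    refine (norm_mul_le_of_le (hv' t) b₁).trans (le_of_eq ?_)
    have hw : 0 < 1 + U * |t| := by positivity
    field_simp
    ring
  · rw [integral_const_mul, i₂, div_mul_eq_mul_div]
    refine div_le_div_of_nonneg_right ?_ hU0.le
    have : 0 ≤ C₁ * C₂ * B * √Z := by positivity
    linarith

end Pool.Agent.Lib.MP_03e5d0_nt
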