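import Pool.Agent.Lib.MP_03e5d0_nt.MPs1

set_option autoImplicit false

noncomputable section

namespace Pool.Agent.Lib.MP_03e5d0_nt

open Complex Finset MeasureTheory
open scoped NumberTheorySymbols Real ContDiff

/-! Short Dirichlet polynomials. -/

variable {D : Data} {Y Y' : ℝ} {f g : (ℕ → ℝ) → ℝ}

theorem mpoly_flat (l l' : List (ℕ × ℝ)) (F A B : ℕ × ℝ → ℝ)
    (h : ∀ a b : ℕ × ℝ, F (a.1 * b.1, a.2 * b.2) = A a * B b) :
    ((l.flatMap fun c => l'.map fun c' => (c.1 * c'.1, c.2 * c'.2)).map F).sum =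
      (l.map A).sum * (l'.map B).sum := by
  induction l with
  | nil => simp
  | cons a l ih =>
    rw [List.flatMap_cons, List.map_append, List.sum_append, ih, List.map_cons, List.sum_cons,
      add_mul, List.map_map, ← List.sum_map_mul_left l' B (A a)]
    congr 2
    exact List.map_congr_left fun b _ => h a b
theorem Poly.mono (h : Poly D Y f) (hY : Y ≤ Y') : Poly D Y' f := by
  obtain ⟨l, h1, h2, h3⟩ := h
  exact ⟨l, fun c hc => ⟨(h1 c hc).1, (h1 c hc).2.1, (h1 c hc).2.2.trans hY⟩, h2.trans hY, h3⟩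
theorem Poly.nonneg (h : Poly D Y f) : 0 ≤ Y := by
  obtain ⟨l, -, h2, -⟩ := h
  refine le_trans (List.sum_nonneg fun t ht => ?_) h2
  obtain ⟨c, -, rfl⟩ := List.mem_map.mp ht
  exact abs_nonneg _
theorem poly_one (D : Data) : Poly D 1 fun _ => 1 := by
  refine ⟨[(1, 1)], ?_, by simp, fun x => by simp [cm_one]⟩
  simp
theorem Poly.add (h : Poly D Y f) (h' : Poly D Y' g) : Poly D (Y + Y') fun x => f x + g x := by
  have n1 := h.nonneg
  have n2 := h'.nonneg
  obtain ⟨l, h1, h2, h3⟩ := h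
  obtain ⟨l', h1', h2', h3'⟩ := h'
  refine ⟨l ++ l', fun c hc => ?_, ?_, fun x => ?_⟩
  · rcases List.mem_append.mp hc with hc | hc
    · exact ⟨(h1 c hc).1, (h1 c hc).2.1, by linarith [(h1 c hc).2.2]⟩
    · exact ⟨(h1' c hc).1, (h1' c hc).2.1, by linarith [(h1' c hc).2.2]⟩
  · rw [List.map_append, List.sum_append]
    exact add_le_add h2 h2'
  · rw [List.map_append, List.sum_append, ← h3, ← h3']
theorem Poly.mul (h : Poly D Y f) (h' : Poly D Y' g) : Poly D (Y * Y') fun x => f x * g x := by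
  have n1 := h.nonneg
  obtain ⟨l, h1, h2, h3⟩ := h
  obtain ⟨l', h1', h2', h3'⟩ := h'
  refine ⟨l.flatMap fun c => l'.map fun c' => (c.1 * c'.1, c.2 * c'.2), fun c hc => ?_, ?_,
    fun x => ?_⟩
  · obtain ⟨a, ha, hc⟩ := List.mem_flatMap.mp hc
    obtain ⟨b, hb, rfl⟩ := List.mem_map.mp hc
    refine ⟨mul_ne_zero (h1 a ha).1 (h1' b hb).1, Nat.Coprime.mul_left (h1 a ha).2.1 (h1' b hb).2.1,
      ?_⟩
    push_cast
    exact mul_le_mul (h1 a ha).2.2 (h1' b hb).2.2 (Nat.cast_nonneg _) n1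
  · rw [mpoly_flat l l' _ (fun c => |c.2|) (fun c => |c.2|) fun a b => abs_mul _ _]
    refine mul_le_mul h2 h2' (List.sum_nonneg fun t ht => ?_) n1
    obtain ⟨c, -, rfl⟩ := List.mem_map.mp ht
    exact abs_nonneg _
  · rw [mpoly_flat l l' _ (fun c => c.2 * cm x c.1) (fun c => c.2 * cm x c.1) fun a b => by
      simp only [cm_mul]; ring, ← h3, ← h3']
theorem Poly.smul (h : Poly D Y f) {c : ℝ} (hc : |c| ≤ 1) : Poly D Y fun x => c * f x := by
  obtain ⟨l, h1, h2, h3⟩ := h
  refine ⟨l.map fun a => (a.1, c * a.2), fun a ha => ?_, ?_, fun x => ?_⟩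
  · obtain ⟨b, hb, rfl⟩ := List.mem_map.mp ha
    exact h1 b hb
  · rw [List.map_map]
    refine le_trans (List.sum_le_sum fun a _ => ?_) h2
    simp only [Function.comp, abs_mul]
    exact mul_le_of_le_one_left (abs_nonneg _) hc
  · change c * f x = _
    rw [List.map_map, h3, ← List.sum_map_mul_left]
    congr 1
    exact List.map_congr_left fun a _ => by simp only [Function.comp, mul_assoc]
theorem Poly.pow (h : Poly D Y f) (e : ℕ) : Poly D (Y ^ e) fun x => f x ^ e := by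
  induction e with
  | zero => simpa only [pow_zero] using poly_one D
  | succ e ih => simpa only [pow_succ] using ih.mul h
theorem Poly.prod {κ : Type} (S : Finset κ) {Y : κ → ℝ} {f : κ → (ℕ → ℝ) → ℝ}
    (h : ∀ i ∈ S, Poly D (Y i) (f i)) : Poly D (∏ i ∈ S, Y i) fun x => ∏ i ∈ S, f i x := by
  classical
  induction S using Finset.induction_on with
  | empty => simpa only [prod_empty] using poly_one D
  | insert i S hi ih =>
    simpa only [prod_insert hi] using
      (h i (mem_insert_self i S)).mul (ih fun k hk => h k (mem_insert_of_mem hk))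
theorem mpoly_sum {κ : Type} (S : Finset κ) {Y : κ → ℝ} {f : κ → (ℕ → ℝ) → ℝ}
    (h : ∀ i ∈ S, Poly D (Y i) (f i)) : Poly D (∑ i ∈ S, Y i) fun x => ∑ i ∈ S, f i x := by
  classical
  induction S using Finset.induction_on with
  | empty => exact ⟨[], by simp, by simp, by simp⟩
  | insert i S hi ih =>
    simpa only [sum_insert hi] using
      (h i (mem_insert_self i S)).add (ih fun k hk => h k (mem_insert_of_mem hk))
theorem mpoly_geom (a b : ℕ) : ∑ j ∈ Ico a b, (1 + j : ℝ) / 2 ^ j ≤ 4 * (1 + a) / 2 ^ a := by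
  rcases le_total a b with hab | hab
  · have h1 : ∑ j ∈ Ico a b, (1 + j : ℝ) / 2 ^ j + (2 * b + 4) / 2 ^ b = (2 * a + 4) / 2 ^ a := by
      induction b, hab using Nat.le_induction with
      | base => simp
      | succ b hb ih =>
        rw [sum_Ico_succ_top hb, ← ih, pow_succ]
        push_cast
        field_simp
        ring
    have h2 : (0 : ℝ) ≤ (2 * b + 4) / 2 ^ b := by positivity
    have h3 : (2 * a + 4 : ℝ) / 2 ^ a ≤ 4 * (1 + a) / 2 ^ a :=
      div_le_div_of_nonneg_right (by linarith [Nat.cast_nonneg (α := ℝ) a]) (by positivity)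
    linarith
  · rw [Ico_eq_empty_of_le hab, sum_empty]
    positivity
theorem mpoly_anti {a b : ℕ} (hab : a ≤ b) : (1 + b : ℝ) / 2 ^ b ≤ (1 + a) / 2 ^ a := by
  induction b, hab using Nat.le_induction with
  | base => exact le_rfl
  | succ b hb ih =>
    refine le_trans ?_ ih
    rw [pow_succ, mul_comm, ← div_div]
    refine div_le_div_of_nonneg_right ?_ (by positivity)
    push_cast
    linarith [Nat.cast_nonneg (α := ℝ) b]
theorem Poly.abs_le (h : Poly D Y f) {x : ℕ → ℝ} (hx : Adm x) : |f x| ≤ Y := by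
  obtain ⟨l, -, h2, h3⟩ := h
  rw [h3]
  refine le_trans ?_ h2
  clear h2 h3
  induction l with
  | nil => simp
  | cons a l ih =>
    simp only [List.map_cons, List.sum_cons]
    refine (abs_add_le _ _).trans (add_le_add ?_ ih)
    rw [abs_mul]
    exact mul_le_of_le_one_right (abs_nonneg _) (hx.abs_cm _)
theorem Poly.depends (h : Poly D Y f) {Λ : ℝ} (hΛ : Real.log Y ≤ Λ) :
    DependsOn f (pr D Λ : Set ℕ) := by
  obtain ⟨l, h1, -, h3⟩ := h
  intro x y hxy
  rw [h3, h3]
  congr 1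
  refine List.map_congr_left fun c hc => ?_
  obtain ⟨a1, a2, a3⟩ := h1 c hc
  rw [cm_congr fun p hp hd => hxy p (mem_coe.mpr (mem_pr.mpr ⟨hp, fun hq => ?_, ?_⟩))]
  · exact hp.one_lt.ne' (Nat.eq_one_of_dvd_coprimes a2 hd hq)
  · have a4 : (p : ℝ) ≤ c.1 := Nat.cast_le.mpr (Nat.le_of_dvd (Nat.pos_of_ne_zero a1) hd)
    exact (Real.log_le_log (by exact_mod_cast hp.pos) (a4.trans a3)).trans hΛ
theorem poly_PI (D : Data) {Λ : ℝ} {S : Finset ℕ} (hS : S ⊆ pr D Λ) :
    Poly D (Real.exp Λ) (PI D S) := by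
  refine ⟨S.toList.map fun p => (p, D.lam p / √p), fun c hc => ?_, ?_, fun x => ?_⟩
  · obtain ⟨p, hp, rfl⟩ := List.mem_map.mp hc
    obtain ⟨a1, a2, a3⟩ := mem_pr.mp (hS (mem_toList.mp hp))
    exact ⟨a1.ne_zero, (Nat.Prime.coprime_iff_not_dvd a1).mpr a2,
      (Real.log_le_iff_le_exp (by exact_mod_cast a1.pos)).mp a3⟩
  · rw [List.map_map, Finset.sum_map_toList]
    refine (sum_le_card_nsmul _ _ 1 fun p hp => ?_).trans ?_
    · obtain ⟨a1, a2, -⟩ := mem_pr.mp (hS hp)
      have a4 : (10000 : ℝ) ≤ p := by exact_mod_cast D.big a1 a2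
      have a5 : (2 : ℝ) ≤ √p := Real.le_sqrt_of_sq_le (by linarith)
      simp only [Function.comp]
      rw [abs_div, abs_of_nonneg (Real.sqrt_nonneg _), div_le_one (by linarith)]
      exact (D.lam_le p a1).trans a5
    · have a1 : S.card ≤ ⌊Real.exp Λ⌋₊ := by
        refine (card_le_card (t := Icc 1 ⌊Real.exp Λ⌋₊) fun p hp => ?_).trans (by simp)
        have a2 := mem_filter.mp (hS hp)
        exact mem_Icc.mpr ⟨a2.2.1.one_le, Nat.lt_succ_iff.mp (mem_range.mp a2.1)⟩
      rw [nsmul_eq_mul, mul_one]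
      exact (Nat.cast_le.mpr a1).trans (Nat.floor_le (Real.exp_pos _).le)
  · rw [List.map_map, Finset.sum_map_toList]
    refine sum_congr rfl fun p hp => ?_
    simp only [Function.comp]
    rw [cm_prime x (mem_pr.mp (hS hp)).1]
    ring
/-- If the block is empty then `vv = 1`; otherwise `y = exp (Z / 2 ^ j) ≥ 2` and
`∑_{i ≤ l} y ^ i ≤ (l + 1) y ^ l ≤ y ^ (2 l)`. -/
theorem poly_vv (D : Data) (c : ℕ) {Z : ℝ} (hZ : 0 ≤ Z) (j : ℕ) :
    Poly D (Real.exp (4 * c * (1 + j) * (Z / 2 ^ j))) (vv D c Z j) := by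
  by_cases h2 : 2 ≤ Real.exp (Z / 2 ^ j)
  · have h1 : Poly D (Real.exp (Z / 2 ^ j)) fun x => -1 / 3 * PI D (blk D Z j) x :=
      (poly_PI D (S := blk D Z j) sdiff_subset).smul (by rw [abs_le]; constructor <;> norm_num)
    have h3 := mpoly_sum (range (2 * c * (1 + j) + 1)) fun i _ =>
      (h1.pow i).smul (c := 1 / (i.factorial : ℝ)) (by
        rw [abs_of_nonneg (by positivity), div_le_one (by positivity)]
        exact_mod_cast i.factorial_pos)
    have h4 : vv D c Z j = fun x => ∑ i ∈ range (2 * c * (1 + j) + 1),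
        1 / (i.factorial : ℝ) * (-1 / 3 * PI D (blk D Z j) x) ^ i := by
      funext x
      unfold vv texp
      refine sum_congr rfl fun i _ => ?_
      rw [show -PI D (blk D Z j) x / 3 = -1 / 3 * PI D (blk D Z j) x by ring]
      ring
    rw [h4]
    refine h3.mono ?_
    rw [show 4 * (c : ℝ) * (1 + j) * (Z / 2 ^ j) =
      ((2 * c * (1 + j) + 2 * c * (1 + j) : ℕ) : ℝ) * (Z / 2 ^ j) by push_cast; ring,
      Real.exp_nat_mul]
    generalize Real.exp (Z / 2 ^ j) = y at *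
    generalize 2 * c * (1 + j) = l
    refine (sum_le_card_nsmul _ _ (y ^ l) fun i hi => ?_).trans ?_
    · exact pow_le_pow_right₀ (by linarith) (Nat.lt_succ_iff.mp (mem_range.mp hi))
    · rw [card_range, nsmul_eq_mul, pow_add]
      refine mul_le_mul_of_nonneg_right ?_ (by positivity)
      refine le_trans ?_ (pow_le_pow_left₀ zero_le_two h2 l)
      exact_mod_cast Nat.lt_two_pow_self
  · have h1 : blk D Z j = ∅ := by
      refine eq_empty_of_forall_notMem fun p hp => h2 ?_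
      obtain ⟨a1, -, a3⟩ := mem_pr.mp (sdiff_subset hp)
      refine le_trans ?_ ((Real.log_le_iff_le_exp (by exact_mod_cast a1.pos)).mp a3)
      exact_mod_cast a1.two_le
    have h4 : vv D c Z j = fun _ => 1 := by
      funext x
      unfold vv texp PI
      rw [h1, sum_range_succ']
      simp
    rw [h4]
    exact (poly_one D).mono (Real.one_le_exp (by positivity))
/-- `∑_{j ≥ a} (1 + j) / 2 ^ j ≤ 4 (1 + a) / 2 ^ a`. -/
theorem poly_VV (D : Data) (c : ℕ) {Z : ℝ} (hZ : 0 ≤ Z) (a b e : ℕ) :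
    Poly D (Real.exp (16 * c * e * (1 + a) * (Z / 2 ^ a))) fun x => VV D c Z a b x ^ e := by
  refine ((Poly.prod (Ico a b) fun j _ => poly_vv D c hZ j).pow e).mono ?_
  rw [← Real.exp_sum, ← Real.exp_nat_mul, Real.exp_le_exp]
  have h1 := mul_le_mul_of_nonneg_left (mpoly_geom a b) (show (0 : ℝ) ≤ 4 * c * e * Z by positivity)
  refine le_of_eq_of_le ?_ (h1.trans_eq (by ring))
  rw [mul_sum, mul_sum]
  exact sum_congr rfl fun j _ => by ring
theorem poly_VV2 (D : Data) (c : ℕ) {Z : ℝ} (hZ : 0 ≤ Z) {a b : ℕ} (hab : a ≤ b) (J : ℕ) :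
    Poly D (Real.exp (224 * c * (1 + a) * (Z / 2 ^ a)))
      fun x => VV D c Z a b x ^ 8 * VV D c Z b J x ^ 6 := by
  refine ((poly_VV D c hZ a b 8).mul (poly_VV D c hZ b J 6)).mono ?_
  rw [← Real.exp_add, Real.exp_le_exp]
  have h1 := mul_le_mul_of_nonneg_left (mpoly_anti hab) (show (0 : ℝ) ≤ 96 * c * Z by positivity)
  have h2 : 16 * (c : ℝ) * (6 : ℕ) * (1 + b) * (Z / 2 ^ b) = 96 * c * Z * ((1 + b) / 2 ^ b) := by
    push_cast
    ring
  rw [h2]
  refine (add_le_add le_rfl h1).trans_eq ?_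
  push_cast
  ring

end Pool.Agent.Lib.MP_03e5d0_nt
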