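import Pool.Agent.Lib.MP_03e5d0_nt.MSv2
import Pool.Agent.Lib.MP_03e5d0_nt.MPoly

set_option autoImplicit false

noncomputable section

namespace Pool.Agent.Lib.MP_03e5d0_nt

open Complex Finset MeasureTheory
open scoped NumberTheorySymbols Real ContDiff

/-! Transfer of the first moment to the random model. -/

open Classical in
/-- On the family `Phi * 1_squarefree`; `sqfree_sub_mulo` (`d ≠ 0` as `d ≡ 1` mod `8 q`), `Phi_eq_zero`,
`sum_mul_le_nrm`. -/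
theorem fam_sub_mulo (D : Data) {X : ℝ} (hX : 1 ≤ X) (s : ℤ) (Z : ℕ) (g : ℤ → ℂ) :
    ‖∑ d ∈ fam D s X, (Phi (s * d / X) : ℂ) * g d -
      ∑ d ∈ (allm X).filter (fun d => d ≡ 1 [ZMOD 8 * D.q]), ((Phi (s * d / X) * mulo Z d : ℝ) : ℂ) * g d‖ ≤
      √(∑ d ∈ allm X, (nu Z d : ℝ) ^ 2) * nrm (allm X) g := by
  have hX0 : 0 < X := by linarith
  have h1 : ∑ d ∈ fam D s X, (Phi (s * d / X) : ℂ) * g d =
      ∑ d ∈ (allm X).filter (fun d => d ≡ 1 [ZMOD 8 * D.q]),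
        ((Phi (s * d / X) * (if Squarefree d then 1 else 0) : ℝ) : ℂ) * g d := by
    unfold fam
    rw [sum_filter, sum_filter]
    refine sum_congr rfl fun d _ => ?_
    by_cases h : d ≡ 1 [ZMOD 8 * D.q]
    · by_cases hs : Squarefree d
      · by_cases hd : X / 2 ≤ ((s * d : ℤ) : ℝ)
        · rw [if_pos ⟨⟨hs, h⟩, hd⟩, if_pos h, if_pos hs, mul_one]
        · rw [if_neg fun hh => hd hh.2, if_pos h, Phi_eq_zero (Or.inl ?_)]
          · simp
          · push_cast at hd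
            rw [div_le_iff₀ hX0]
            linarith
      · rw [if_neg fun hh => hs hh.1.1, if_pos h, if_neg hs]
        simp
    · rw [if_neg fun hh => h hh.1.2, if_neg h]
  have h2 : √(∑ d ∈ allm X, (nu Z d : ℝ) ^ 2) = nrm (allm X) fun d => (nu Z d : ℂ) := by
    simp only [nrm, Complex.norm_natCast]
  rw [h1, ← sum_sub_distrib, h2]
  refine le_trans ?_ (sum_mul_le_nrm _ _ _)
  refine (norm_sum_le _ _).trans (le_trans (sum_le_sum fun d hd => ?_)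
    (sum_le_sum_of_subset_of_nonneg (filter_subset (fun d => d ≡ 1 [ZMOD 8 * D.q]) _)
      fun _ _ _ => by positivity))
  have hd0 : d ≠ 0 := by
    rintro rfl
    have h3 := (mem_filter.1 hd).2.dvd
    have h4 : (8 : ℤ) ∣ 1 - 0 := (dvd_mul_right _ _).trans h3
    norm_num at h4
  rw [← sub_mul, norm_mul, ← ofReal_sub, ← mul_sub, norm_real, Complex.norm_natCast,
    Real.norm_eq_abs, abs_mul, abs_of_nonneg (Phi_mem _).1]
  refine mul_le_mul_of_nonneg_right ?_ (norm_nonneg _)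
  exact (mul_le_of_le_one_left (abs_nonneg _) (Phi_mem _).2).trans (sqfree_sub_mulo Z hd0)

theorem mtr1_lam (D : Data) (n : ℕ) : |D.lam n| / √n ≤ 2 := by
  rcases Nat.eq_zero_or_pos n with rfl | hn
  · simp
  · rw [div_le_iff₀ (Real.sqrt_pos.2 (by exact_mod_cast hn))]
    exact (D.lam_le_card n).trans (tbas_card_sqrt n)

open Classical in
/-- One monomial: `sm_eq_sum`, `cm_jac`, `cm_mul`, `Ex_cm` (the primes of `ℓ n` lie in `pr D Λ` when
`lam n ≠ 0`), the hypothesis `H` for `r = ℓ n`, and `|lam n| / √n ≤ 2`. -/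
theorem trans1_mono (D : Data) {cq X E₁ E₂ B Λ : ℝ} {Z ℓ N : ℕ} {s : ℤ} {V : ℝ → ℂ} (hℓ : ℓ ≠ 0)
    (hq : ℓ.Coprime D.q) (hE₁ : 0 ≤ E₁) (hE₂ : 0 ≤ E₂) (hB : ∀ y, ‖V y‖ ≤ B) {Lt : ℝ}
    (hV : ∀ y, Lt < y → V y = 0) (hN : Real.exp Lt < N) (hΛ : Real.log (ℓ * N) ≤ Λ)
    (H : ∀ r : ℕ, r ≠ 0 → r.Coprime D.q → r ≤ ℓ * N →
      |∑ d ∈ (allm X).filter (fun d => d ≡ 1 [ZMOD 8 * D.q]),
        Phi (s * d / X) * mulo Z d * (J(d | r) : ℝ) - cq * X * rho dl1 r| ≤ E₁ * rho dl0 r + E₂) :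
    ‖∑ d ∈ (allm X).filter (fun d => d ≡ 1 [ZMOD 8 * D.q]),
        ((Phi (s * d / X) * mulo Z d : ℝ) : ℂ) * ((cm (jac d) ℓ : ℂ) * sm D (jac d) V) -
      (cq * X : ℝ) * Ex (pr D Λ) dl1 fun x => (cm x ℓ : ℂ) * sm D x V‖ ≤
      B * (E₁ * ∑ n ∈ range N, |D.lam n| / √n * rho dl0 (ℓ * n) + E₂ * (2 * N)) := by
  have hB0 : 0 ≤ B := (norm_nonneg _).trans (hB 0)
  let c : ℕ → ℂ := fun n => ((D.lam n / √n : ℝ) : ℂ) * V (Real.log n)
  have h1 : ∀ x, (cm x ℓ : ℂ) * sm D x V = ∑ n ∈ range N, c n * (cm x (ℓ * n) : ℂ) := by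
    intro x
    rw [sm_eq_sum hV hN, mul_sum]
    refine sum_congr rfl fun n _ => ?_
    simp only [c, cm_mul]
    push_cast
    ring
  simp only [h1]
  rw [Ex_sum, mul_sum]
  simp only [mul_sum]
  rw [sum_comm, ← sum_sub_distrib]
  have h2 : B * (E₁ * ∑ n ∈ range N, |D.lam n| / √n * rho dl0 (ℓ * n) + E₂ * (2 * N)) =
      ∑ n ∈ range N, B * (E₁ * (|D.lam n| / √n * rho dl0 (ℓ * n)) + E₂ * 2) := by
    rw [← mul_sum, sum_add_distrib, ← mul_sum, sum_const, card_range, nsmul_eq_mul]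
    ring
  rw [← mul_sum, h2]
  refine (norm_sum_le _ _).trans (sum_le_sum fun n hn => ?_)
  have hr := (rho_mem dl_dl0 (ℓ * n)).1
  by_cases hl : D.lam n = 0
  · have : c n = 0 := by simp [c, hl]
    simp only [this, zero_mul, mul_zero, sum_const_zero, Ex_const, sub_zero, norm_zero]
    positivity
  have hn0 : n ≠ 0 := by
    rintro rfl
    exact hl D.lam0
  have hnq : n.Coprime D.q := by
    by_contra h
    exact hl (D.lam_zero n h)
  have hr0 : ℓ * n ≠ 0 := mul_ne_zero hℓ hn0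
  have hrq : (ℓ * n).Coprime D.q := Nat.Coprime.mul_left hq hnq
  have hrN : ℓ * n ≤ ℓ * N := Nat.mul_le_mul_left _ (mem_range.1 hn).le
  have hsub : (ℓ * n).primeFactors ⊆ pr D Λ := by
    intro p hp
    have hpp := Nat.prime_of_mem_primeFactors hp
    have hpd := Nat.dvd_of_mem_primeFactors hp
    refine mem_pr.2 ⟨hpp, fun h => hpp.one_lt.ne' (Nat.eq_one_of_dvd_coprimes hrq hpd h), ?_⟩
    refine le_trans (Real.log_le_log (by exact_mod_cast hpp.pos) ?_) hΛ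
    exact_mod_cast (Nat.le_of_dvd (Nat.pos_of_ne_zero hr0) hpd).trans hrN
  have h3 : ∑ d ∈ (allm X).filter (fun d => d ≡ 1 [ZMOD 8 * D.q]),
        ((Phi (s * d / X) * mulo Z d : ℝ) : ℂ) * (c n * (cm (jac d) (ℓ * n) : ℂ)) -
      (cq * X : ℝ) * Ex (pr D Λ) dl1 (fun x => c n * (cm x (ℓ * n) : ℂ)) =
      c n * ((∑ d ∈ (allm X).filter (fun d => d ≡ 1 [ZMOD 8 * D.q]),
        Phi (s * d / X) * mulo Z d * (J(d | ℓ * n) : ℝ) - cq * X * rho dl1 (ℓ * n) : ℝ) : ℂ) := by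
    rw [Ex_mul_left, Ex_ofReal, Ex_cm hr0 hsub, ofReal_sub, ofReal_sum, mul_sub, mul_sum]
    congr 1
    · refine sum_congr rfl fun d _ => ?_
      rw [cm_jac d hr0]
      simp only [ofReal_mul]
      ring
    · simp only [ofReal_mul]
      ring
  have h4 : ‖c n‖ ≤ |D.lam n| / √n * B := by
    simp only [c]
    rw [norm_mul, norm_real, Real.norm_eq_abs, abs_div, abs_of_nonneg (Real.sqrt_nonneg _)]
    exact mul_le_mul_of_nonneg_left (hB _) (by positivity)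
  rw [h3, norm_mul, norm_real, Real.norm_eq_abs]
  refine (mul_le_mul h4 (H _ hr0 hrq hrN) (abs_nonneg _) (by positivity)).trans ?_
  have h5 := mul_le_mul_of_nonneg_left (mtr1_lam D n) (mul_nonneg hB0 hE₂)
  nlinarith [h5]

theorem mtr1_list (T : Finset ℤ) (w : ℤ → ℂ) (P : Finset ℕ) (δ : ℕ → ℝ) (K : ℂ)
    (S : (ℕ → ℝ) → ℂ) (G : ℝ) (l : List (ℕ × ℝ))
    (h : ∀ c ∈ l, ‖∑ d ∈ T, w d * ((cm (jac d) c.1 : ℂ) * S (jac d)) -
      K * Ex P δ (fun x => (cm x c.1 : ℂ) * S x)‖ ≤ G) :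
    ‖∑ d ∈ T, w d * ((((l.map fun c => c.2 * cm (jac d) c.1).sum : ℝ) : ℂ) * S (jac d)) -
      K * Ex P δ (fun x => (((l.map fun c => c.2 * cm x c.1).sum : ℝ) : ℂ) * S x)‖ ≤
      (l.map fun c => |c.2|).sum * G := by
  induction l with
  | nil => simp [Ex_const]
  | cons c l ih =>
    have ih' := ih fun c' hc' => h c' (List.mem_cons_of_mem _ hc')
    have hc := h c List.mem_cons_self
    have h1 : ∀ x, ((((c :: l).map fun c => c.2 * cm x c.1).sum : ℝ) : ℂ) * S x =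
        (c.2 : ℂ) * ((cm x c.1 : ℂ) * S x) +
          (((l.map fun c => c.2 * cm x c.1).sum : ℝ) : ℂ) * S x := by
      intro x
      rw [List.map_cons, List.sum_cons, ofReal_add, ofReal_mul]
      ring
    simp only [h1]
    rw [Ex_add, Ex_mul_left, List.map_cons, List.sum_cons, add_mul]
    have h2 := mul_le_mul_of_nonneg_left hc (abs_nonneg c.2)
    rw [← Real.norm_eq_abs, ← norm_real, ← norm_mul, norm_real, Real.norm_eq_abs] at h2
    refine le_trans (le_of_eq ?_) ((norm_add_le _ _).trans (add_le_add h2 ih'))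
    congr 1
    simp only [mul_add, sum_add_distrib, mul_sub, mul_sum]
    rw [sum_congr rfl fun d _ => mul_left_comm (w d) (c.2 : ℂ) _]
    ring

theorem mtr1_large {b K : ℝ} (hb : 0 < b) (hK : 0 ≤ K) : ∃ L₀ : ℝ, ∀ L, L₀ ≤ L →
    0 ≤ L ∧ 2 ≤ Real.exp (b * L) ∧ K * L ^ 2 ≤ Real.exp (b * L) := by
  refine ⟨max (1 / b) (6 * K / b ^ 3), fun L hL => ?_⟩
  have h1 : 1 / b ≤ L := (le_max_left _ _).trans hL
  have h2 : 6 * K / b ^ 3 ≤ L := (le_max_right _ _).trans hL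
  have h0 : 0 ≤ L := le_trans (by positivity) h1
  rw [div_le_iff₀ hb] at h1
  rw [div_le_iff₀ (by positivity)] at h2
  refine ⟨h0, ?_, ?_⟩
  · have := Real.add_one_le_exp (b * L)
    linarith
  · have h3 := Real.pow_div_factorial_le_exp (b * L) (by positivity) 3
    refine le_trans ?_ h3
    rw [show ((3 : ℕ).factorial : ℝ) = 6 by norm_num [Nat.factorial], le_div_iff₀ (by norm_num)]
    have := mul_le_mul_of_nonneg_right h2 (sq_nonneg L)
    nlinarith [this]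

theorem mtr1_err1 {C X u Z : ℝ} (hC : 0 ≤ C) (hX : 0 ≤ X) (hu : 0 < u) (hZ : u ^ 4 ≤ Z) :
    √(C * (X * u ^ 2) / Z) * √X ≤ √C * X / u := by
  have h1 : C * (X * u ^ 2) / Z ≤ C * X / u ^ 2 := by
    refine (div_le_div_of_nonneg_left (by positivity) (by positivity) hZ).trans (le_of_eq ?_)
    field_simp
  refine (mul_le_mul_of_nonneg_right (Real.sqrt_le_sqrt h1) (Real.sqrt_nonneg _)).trans
    (le_of_eq ?_)
  rw [Real.sqrt_div' _ (by positivity), Real.sqrt_sq hu.le, Real.sqrt_mul hC, div_mul_eq_mul_div,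
    mul_assoc, Real.mul_self_sqrt hX]

theorem mtr1_err3 {X u Z N c : ℝ} {j : ℕ} (hc : 0 ≤ c) (hX : 1 ≤ X) (hu : 2 ≤ u) (hZ0 : 0 ≤ Z)
    (hZ : Z ≤ 2 * u ^ 4) (hN0 : 0 ≤ N) (hN : N ≤ X) (h32 : u ^ 32 ≤ X) (hj : X ^ 4 ≤ (u ^ 22) ^ j) :
    u ^ 2 * (Z * X * (c / u ^ 22) ^ j * (2 * N)) ≤ 4 * c ^ j * X / u := by
  have hu0 : 0 < u := by linarith
  have h7 : u ^ 7 ≤ X := (pow_le_pow_right₀ (by linarith) (by norm_num)).trans h32
  have h1 : (c / u ^ 22) ^ j ≤ c ^ j / X ^ 4 := by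
    rw [div_pow]
    exact div_le_div_of_nonneg_left (by positivity) (by positivity) hj
  have h2 : u ^ 2 * (Z * X * (c / u ^ 22) ^ j * (2 * N)) ≤
      u ^ 2 * (2 * u ^ 4 * X * (c ^ j / X ^ 4) * (2 * X)) := by gcongr
  refine h2.trans ?_
  rw [le_div_iff₀ hu0]
  have h3 : u ^ 2 * (2 * u ^ 4 * X * (c ^ j / X ^ 4) * (2 * X)) * u =
      4 * c ^ j * (u ^ 7 / X ^ 2) := by
    field_simp
    ring
  rw [h3]
  refine mul_le_mul_of_nonneg_left ?_ (by positivity)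
  rw [div_le_iff₀ (by positivity)]
  exact h7.trans (le_mul_of_one_le_right (by linarith) (one_le_pow₀ hX))

/-- Take `Z = ⌈X ^ (θ / 8)⌉₊ ≤ 2 X ^ (θ / 8)`, `N = ⌊X ^ (1 - θ)⌋₊ + 1 ≤ 2 X ^ (1 - θ)`, so `ℓ N ≤ 2 X ^ (1 - 15 θ / 16) ≤ X`
and `8 q Z ^ 2 r / X ≤ 64 q X ^ (-11 θ / 16)`; choose `j ≥ 2` with `11 θ j / 16 ≥ 4`. `sum_nu_sq` with
`ε = θ / 16`, `sum_rho` with `ε = θ / 32`. The three errors are `O(X ^ (1 - θ / 32) log X ^ 2)`. -/
theorem trans1 (D : Data) : ∃ cq : ℝ, 0 < cq ∧ ∀ θ : ℝ, 0 < θ → θ ≤ 1 → ∃ X₀ : ℝ,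
    ∀ (X Y : ℝ) (s : ℤ) (f : (ℕ → ℝ) → ℝ) (V : ℝ → ℂ), X₀ ≤ X → (s = 1 ∨ s = -1) → Poly D Y f →
    Y ≤ Real.exp (θ * Real.log X / 16) → (∀ y, ‖V y‖ ≤ Real.log X ^ 2) →
    (∀ y, (1 - θ) * Real.log X < y → V y = 0) →
    nrm (allm X) (fun m => (f (jac m) : ℂ) * sm D (jac m) V) ≤ √X * Real.log X ^ 2 →
    ‖∑ d ∈ fam D s X, (Phi (s * d / X) : ℂ) * ((f (jac d) : ℂ) * sm D (jac d) V) -
      (cq * X : ℝ) * Ex (pr D (Real.log X)) dl1 fun x => (f x : ℂ) * sm D x V‖ ≤ X := by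
  classical
  obtain ⟨cq, hcq, hs⟩ := sieve_char D
  refine ⟨cq, hcq, fun θ hθ hθ1 => ?_⟩
  obtain ⟨j0, hj0⟩ := exists_nat_ge (6 / θ)
  obtain ⟨C, hC, hs⟩ := hs (j0 + 2) (by omega)
  obtain ⟨C₁, hC₁, h1⟩ := sum_nu_sq (θ / 16) (by positivity)
  obtain ⟨C₂, hC₂, h2⟩ := sum_rho (θ / 32) (by positivity)
  obtain ⟨L₀, hL⟩ := mtr1_large (b := θ / 32)
    (K := √C₁ + C₂ + C * (4 * (64 * D.q) ^ (j0 + 2))) (by positivity) (by positivity)
  refine ⟨Real.exp L₀, fun X Y s f V hX hsg hf hY hB hV hn => ?_⟩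
  have hX0 : 0 < X := (Real.exp_pos _).trans_le hX
  obtain ⟨hL0, hu2, huK⟩ := hL (Real.log X) ((Real.le_log_iff_exp_le hX0).2 hX)
  obtain ⟨L, rfl⟩ : ∃ L, X = Real.exp L := ⟨_, (Real.exp_log hX0).symm⟩
  rw [Real.log_exp] at hL0 hu2 huK hY hB hV hn ⊢
  set X := Real.exp L with hXL
  set u := Real.exp (θ / 32 * L) with hu
  have hX1 : 1 ≤ X := Real.one_le_exp hL0
  have hu0 : 0 < u := Real.exp_pos _
  have hpow : ∀ k : ℕ, u ^ k = Real.exp (k * (θ / 32 * L)) := fun k => (Real.exp_nat_mul _ k).symm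
  have h32 : u ^ 32 ≤ X := by
    rw [hpow]
    refine Real.exp_le_exp.2 ?_
    push_cast
    nlinarith
  have hY2 : Y ≤ u ^ 2 := by
    rw [hpow]
    refine hY.trans (le_of_eq ?_)
    congr 1
    push_cast
    ring
  have hj : X ^ 4 ≤ (u ^ 22) ^ (j0 + 2) := by
    rw [← pow_mul, hpow, hXL, ← Real.exp_nat_mul]
    refine Real.exp_le_exp.2 ?_
    rw [div_le_iff₀ hθ] at hj0
    push_cast
    have : 4 ≤ 22 * ((j0 : ℝ) + 2) * (θ / 32) := by nlinarith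
    nlinarith
  have hLt : Real.exp ((1 - θ) * L) = X / u ^ 32 := by
    rw [hpow, hXL, ← Real.exp_sub]
    congr 1
    push_cast
    ring
  have hr1 : X ^ (1 + θ / 16) = X * u ^ 2 := by
    rw [hpow, hXL, ← Real.exp_mul, ← Real.exp_add]
    congr 1
    push_cast
    ring
  have hr2 : X ^ (θ / 32) = u := by
    rw [hXL, ← Real.exp_mul, mul_comm]
  have hu1 : 1 ≤ u := by linarith
  obtain ⟨Z, hZ1, hZ2⟩ : ∃ Z : ℕ, u ^ 4 ≤ Z ∧ (Z : ℝ) ≤ 2 * u ^ 4 :=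
    ⟨⌈u ^ 4⌉₊, Nat.le_ceil _, (Nat.ceil_lt_add_one (by positivity)).le.trans
      (by linarith [one_le_pow₀ (n := 4) hu1])⟩
  have hZ0 : 1 ≤ Z := by exact_mod_cast (one_le_pow₀ (n := 4) hu1).trans hZ1
  obtain ⟨N, hN1, hN2⟩ : ∃ N : ℕ, X / u ^ 32 < N ∧ (N : ℝ) ≤ 2 * (X / u ^ 32) := by
    refine ⟨⌊X / u ^ 32⌋₊ + 1, by push_cast; exact Nat.lt_floor_add_one _, ?_⟩
    have h3 : 1 ≤ X / u ^ 32 := (one_le_div (by positivity)).2 h32
    have h4 := Nat.floor_le (a := X / u ^ 32) (by positivity)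
    push_cast
    linarith
  have hN3 : u ^ 2 * N ≤ 2 * X / u ^ 30 := by
    refine (mul_le_mul_of_nonneg_left hN2 (by positivity)).trans (le_of_eq ?_)
    field_simp
  have hN4 : u ^ 2 * N ≤ X := by
    refine hN3.trans ?_
    rw [div_le_iff₀ (by positivity), mul_comm]
    exact mul_le_mul_of_nonneg_left (hu2.trans (le_self_pow₀ hu1 (by norm_num))) hX0.le
  have hN5 : (N : ℝ) ≤ X :=
    (le_mul_of_one_le_left (Nat.cast_nonneg _) (one_le_pow₀ hu1)).trans hN4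
  obtain ⟨l, hl1, hl2, hl3⟩ := hf
  have e1 := fam_sub_mulo D hX1 s Z fun m => (f (jac m) : ℂ) * sm D (jac m) V
  have e2 := mtr1_list ((allm X).filter fun d => d ≡ 1 [ZMOD 8 * D.q])
    (fun d => ((Phi (s * d / X) * mulo Z d : ℝ) : ℂ)) (pr D L) dl1 ((cq * X : ℝ) : ℂ)
    (fun x => sm D x V)
    (L ^ 2 * (X / Z * (C₂ * u) + C * Z * X * (64 * D.q / u ^ 22) ^ (j0 + 2) * (2 * N))) l (by
      intro c hc
      obtain ⟨hc0, hcq', hcY⟩ := hl1 c hc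
      have hc1 : (c.1 : ℝ) * N ≤ u ^ 2 * N :=
        mul_le_mul_of_nonneg_right (hcY.trans hY2) (Nat.cast_nonneg _)
      have hc2 : (0 : ℝ) < c.1 * N := by
        refine mul_pos (by exact_mod_cast Nat.pos_of_ne_zero hc0) (lt_trans ?_ hN1)
        positivity
      refine (trans1_mono D (E₁ := X / Z)
        (E₂ := C * Z * X * (64 * D.q / u ^ 22) ^ (j0 + 2)) hc0 hcq' (by positivity)
        (by positivity) hB hV (hLt ▸ hN1) ((Real.log_le_iff_le_exp hc2).2 (hc1.trans hN4))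
        fun r hr0 hrq hrN => ?_).trans ?_
      · refine (hs X Z r s hX1 hZ0 hr0 hrq hsg).trans (add_le_add (le_of_eq (by ring)) ?_)
        have hr3 : (r : ℝ) ≤ 2 * X / u ^ 30 := by
          refine le_trans ?_ (hc1.trans hN3)
          exact_mod_cast hrN
        have hr4 : 8 * D.q * (Z : ℝ) ^ 2 * r / X ≤
            8 * D.q * (2 * u ^ 4) ^ 2 * (2 * X / u ^ 30) / X := by gcongr
        have hr5 : 8 * D.q * (2 * u ^ 4) ^ 2 * (2 * X / u ^ 30) / X = 64 * D.q / u ^ 22 := by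
          field_simp
          ring
        rw [hr5] at hr4
        gcongr
      · have h3 := (h2 D c.1 N hc0).trans (mul_le_mul_of_nonneg_left
          (Real.rpow_le_rpow (Nat.cast_nonneg _) hN5 (by positivity)) hC₂)
        rw [hr2] at h3
        gcongr)
  simp only [← hl3] at e2
  have e3 : √(∑ d ∈ allm X, (nu Z d : ℝ) ^ 2) *
      nrm (allm X) (fun m => (f (jac m) : ℂ) * sm D (jac m) V) ≤ √C₁ * X / u * L ^ 2 := by
    have h3 := h1 X Z hX1 hZ0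
    rw [hr1] at h3
    refine (mul_le_mul (Real.sqrt_le_sqrt h3) hn (nrm_nonneg _ _) (Real.sqrt_nonneg _)).trans ?_
    rw [← mul_assoc]
    exact mul_le_mul_of_nonneg_right (mtr1_err1 hC₁ hX0.le hu0 hZ1) (sq_nonneg _)
  have e4 : u ^ 2 * (X / Z * (C₂ * u)) ≤ C₂ * X / u := by
    have h3 : X / Z ≤ X / u ^ 4 := div_le_div_of_nonneg_left hX0.le (by positivity) hZ1
    refine le_trans (b := u ^ 2 * (X / u ^ 4 * (C₂ * u))) (by gcongr) (le_of_eq ?_)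
    field_simp
  have e5 := mul_le_mul_of_nonneg_left (mtr1_err3 (c := 64 * D.q) (by positivity) hX1 hu2
    (Nat.cast_nonneg Z) hZ2 (Nat.cast_nonneg N) hN5 h32 hj) hC
  have e6 : (l.map fun c => |c.2|).sum *
      (L ^ 2 * (X / Z * (C₂ * u) + C * Z * X * (64 * D.q / u ^ 22) ^ (j0 + 2) * (2 * N))) ≤
      (C₂ * X / u + C * (4 * (64 * D.q) ^ (j0 + 2) * X / u)) * L ^ 2 := by
    refine (mul_le_mul_of_nonneg_right (hl2.trans hY2) (by positivity)).trans ?_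
    refine le_trans (le_of_eq ?_) (mul_le_mul_of_nonneg_right (add_le_add e4 e5) (sq_nonneg L))
    ring
  refine (norm_sub_le_norm_sub_add_norm_sub _ _ _).trans
    ((add_le_add (e1.trans e3) (e2.trans e6)).trans ?_)
  have e7 : √C₁ * X / u * L ^ 2 + (C₂ * X / u + C * (4 * (64 * D.q) ^ (j0 + 2) * X / u)) * L ^ 2 =
      X * ((√C₁ + C₂ + C * (4 * (64 * D.q) ^ (j0 + 2))) * L ^ 2 / u) := by ring
  rw [e7]
  exact mul_le_of_le_one_right hX0.le ((div_le_one hu0).2 huK)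

end Pool.Agent.Lib.MP_03e5d0_nt
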