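import Pool.Agent.Lib.MP_03e5d0_nt.MF2
import Pool.Agent.Lib.MP_03e5d0_nt.MTr1
import Pool.Agent.Lib.MP_03e5d0_nt.MFm

set_option autoImplicit false

noncomputable section

namespace Pool.Agent.Lib.MP_03e5d0_nt

open Complex Finset MeasureTheory
open scoped NumberTheorySymbols Real ContDiff

/-! The first moment. -/

/-- The first moment of the bottom pieces in the random model. -/
theorem mf1_model {D : Data} {L Z H K t : ℝ} {i₀ : ℕ} {f : (ℕ → ℝ) → ℂ} (hL : 0 < L) (ht : 0 ≤ t)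
    (hi : 1 ≤ i₀) (hH : 0 ≤ H)
    (h : ∀ i ∈ range (i₀ + 1), ‖Ex (pr D L) dl1 (fun x => f x * pc D x (L - t) (Ui L i) th1) -
      H * th1 ((L - t) / Ui L i)‖ ≤ K * √Z / Ui L i) :
    ‖Ex (pr D L) dl1 (fun x => f x * bot1 D L i₀ (L - t) x) - (H * L : ℝ)‖ ≤
      (i₀ + 1) * (K * √Z) + H * (2 * t) := by
  have e1 : Ex (pr D L) dl1 (fun x => f x * bot1 D L i₀ (L - t) x) = ∑ i ∈ range (i₀ + 1),
      (Ui L i : ℂ) * Ex (pr D L) dl1 (fun x => f x * pc D x (L - t) (Ui L i) th1) := by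
    simp only [← Ex_mul_left]
    rw [← Ex_sum]
    refine Ex_congr fun x _ _ => ?_
    rw [bot1, mul_sum]
    exact sum_congr rfl fun i _ => by ring
  have e2 := sum_th1 hL (show L - t ≤ L by linarith) i₀
  have e3 : Ex (pr D L) dl1 (fun x => f x * bot1 D L i₀ (L - t) x) - (H * L : ℝ) =
      (∑ i ∈ range (i₀ + 1), (Ui L i : ℂ) *
        (Ex (pr D L) dl1 (fun x => f x * pc D x (L - t) (Ui L i) th1) - H * th1 ((L - t) / Ui L i))) +
      ((H * ((L - t) * Real.smoothTransition ((L - t) / Ui L i₀ - 1) - L) : ℝ) : ℂ) := by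
    rw [e1, mul_sub, ofReal_sub, ofReal_mul H ((L - t) * _), ← e2, mul_sum]
    simp only [mul_sub, sum_sub_distrib]
    rw [show ∑ i ∈ range (i₀ + 1), (Ui L i : ℂ) * (H * th1 ((L - t) / Ui L i)) =
      ∑ i ∈ range (i₀ + 1), (H : ℂ) * ((Ui L i : ℂ) * th1 ((L - t) / Ui L i)) from
        sum_congr rfl fun i _ => by ring]
    ring
  rw [e3]
  refine (norm_add_le _ _).trans (add_le_add ?_ ?_)
  · refine (norm_sum_le _ _).trans ((sum_le_card_nsmul _ _ (K * √Z) fun i hi => ?_).trans ?_)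
    · have hU := Ui_pos hL i
      rw [norm_mul, norm_real, Real.norm_of_nonneg hU.le]
      refine (mul_le_mul_of_nonneg_left (h i hi) hU.le).trans (le_of_eq ?_)
      field_simp
    · rw [card_range, nsmul_eq_mul]
      push_cast
      exact le_rfl
  · rw [norm_real, Real.norm_eq_abs, abs_mul, abs_of_nonneg hH]
    exact mul_le_mul_of_nonneg_left (th1_approx hL ht hi) hH

theorem mf1_V_le {L L' : ℝ} (hL : 4 ≤ L) (i₀ : ℕ) (y : ℝ) :
    ‖∑ i ∈ range (i₀ + 1), (Ui L i : ℂ) * th1 ((L' - y) / Ui L i)‖ ≤ L ^ 2 := by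
  have hL0 : 0 < L := by linarith
  have h1 := sum_Ui_le hL0 (i₀ + 1)
  refine (norm_sum_le _ _).trans ((sum_le_sum (g := fun i => Ui L i * 4) fun i _ => ?_).trans ?_)
  · have hU := Ui_pos hL0 i
    rw [norm_mul, norm_real, Real.norm_of_nonneg hU.le]
    exact mul_le_mul_of_nonneg_left (norm_th1_le _) hU.le
  · rw [← sum_mul]
    nlinarith

theorem mf1_V_zero {L L' : ℝ} (hL : 0 < L) (h : L' ≤ L) (i₀ : ℕ) (y : ℝ)
    (hy : (1 - 1 / 2 ^ (i₀ + 1)) * L < y) :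
    ∑ i ∈ range (i₀ + 1), (Ui L i : ℂ) * th1 ((L' - y) / Ui L i) = 0 := by
  obtain ⟨B, hB⟩ := sm_th1 0
  refine sum_eq_zero fun i hi => ?_
  have h1 := Ui_anti hL (Nat.lt_succ_iff.1 (mem_range.1 hi))
  have h2 : (1 - 1 / 2 ^ (i₀ + 1)) * L = L - Ui L i₀ := by rw [Ui]; ring
  rw [pc_supp hB (Ui_pos hL i) y (by linarith), mul_zero]

theorem mf1_final {X Z cq C B H t : ℝ} {i₀ : ℕ} (hX : 0 ≤ X) (hZ : 1 ≤ Z) (hcq : 0 ≤ cq) (hC : 0 ≤ C)
    (hB : 0 ≤ B) (hH : H ≤ C / √Z) (ht : 0 ≤ t) :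
    X + cq * X * ((i₀ + 1) * (C * B * √Z) + H * (2 * t)) ≤
      (1 + cq * (C * B) + 2 * cq * C) * (i₀ + 1) * X * √Z * (1 + t) := by
  have hs : 1 ≤ √Z := Real.one_le_sqrt.2 hZ
  have hi : (1 : ℝ) ≤ i₀ + 1 := by linarith [Nat.cast_nonneg (α := ℝ) i₀]
  have hH' : H ≤ C := hH.trans (div_le_self hC hs)
  set M := (i₀ + 1 : ℝ) * √Z with hM
  have hM1 : 1 ≤ M := one_le_mul_of_one_le_of_one_le hi hs
  have h1 : 1 ≤ M * (1 + t) := one_le_mul_of_one_le_of_one_le hM1 (by linarith)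
  have h2 : M ≤ M * (1 + t) := le_mul_of_one_le_right (by linarith) (by linarith)
  have h3 : t ≤ M * (1 + t) := (show t ≤ 1 + t by linarith).trans
    (le_mul_of_one_le_left (by linarith) hM1)
  have h4 : H * (2 * t) ≤ 2 * C * (M * (1 + t)) := by
    calc H * (2 * t) ≤ C * (2 * t) := mul_le_mul_of_nonneg_right hH' (by linarith)
      _ = 2 * C * t := by ring
      _ ≤ _ := mul_le_mul_of_nonneg_left h3 (by positivity)
  have h5 : (i₀ + 1) * (C * B * √Z) ≤ C * B * (M * (1 + t)) := by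
    calc (i₀ + 1) * (C * B * √Z) = C * B * M := by rw [hM]; ring
      _ ≤ _ := mul_le_mul_of_nonneg_left h2 (by positivity)
  calc X + cq * X * ((i₀ + 1) * (C * B * √Z) + H * (2 * t))
      ≤ X * (M * (1 + t)) + cq * X * (C * B * (M * (1 + t)) + 2 * C * (M * (1 + t))) :=
        add_le_add (le_mul_of_one_le_right hX h1)
          (mul_le_mul_of_nonneg_left (add_le_add h5 h4) (by positivity))
    _ = _ := by rw [hM]; ring

/-- One shift `t ≥ 0`. `trans1` with `θ = 1 / 2 ^ (i₀ + 1)` (so `θ L = Ui L i₀ = A Z`), `f = VV 0 J ^ 3`,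
`Y = exp (48 c Z)` (`poly_VV`, `A ≥ 768 c`), `V` from `bot1_eq` (bounded by `4 L ≤ L ^ 2`, vanishing for
`y > L - Ui L i₀`), and `bot1_nrm`. In the model: `Ex_sum`, `fm_main` for each `i ≤ i₀`, `sum_th1`,
`th1_approx`. -/
theorem first_one (D : Data) (hFE : D.FE) (hPS : D.PS) : ∃ (c : ℕ) (A₀ cF C : ℝ), 1 ≤ c ∧ 1 ≤ A₀ ∧
    0 < cF ∧ 0 ≤ C ∧ ∀ (A : ℝ) (i₀ : ℕ), A₀ ≤ A → 1 ≤ i₀ → ∃ X₀ : ℝ, ∀ (X Z : ℝ) (I J : ℕ) (s : ℤ),
    X₀ ≤ X → Par A i₀ X Z I J → (s = 1 ∨ s = -1) → ∃ H : ℝ, cF / √Z ≤ H ∧ ∀ t : ℝ, 0 ≤ t →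
    ‖∑ d ∈ fam D s X, (Phi (s * d / X) : ℂ) *
        (wJ D c Z J d * bot1 D (Real.log X) i₀ (Real.log X - t) (jac d)) - (H * X * Real.log X : ℝ)‖ ≤
      C * (i₀ + 1) * X * √Z * (1 + t) := by
  obtain ⟨c, j, cF, C, hc, hcF, hC, hfm⟩ := fm_main D hPS
  obtain ⟨B, hB⟩ := sm_th1 j
  obtain ⟨cq, hcq, htr⟩ := trans1 D
  obtain ⟨A₁, C₁, X₁, hA₁, hC₁, hbot⟩ := bot1_nrm D hFE hPS hc
  have hB0 := hB.nonneg
  refine ⟨c, max A₁ (768 * c), cq * cF, 1 + cq * (C * B) + 2 * cq * C, hc, le_max_of_le_left hA₁,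
    by positivity, by positivity, fun A i₀ hA hi => ?_⟩
  have hA1 : A₁ ≤ A := (le_max_left _ _).trans hA
  have hA2 : 768 * (c : ℝ) ≤ A := (le_max_right _ _).trans hA
  have hA0 : 1 ≤ A := hA₁.trans hA1
  obtain ⟨X₂, htr⟩ := htr (1 / 2 ^ (i₀ + 1)) (by positivity)
    (by rw [div_le_one (by positivity)]; exact one_le_pow₀ (by norm_num))
  refine ⟨max (max X₁ X₂) (Real.exp (4 + C₁ ^ 2)), fun X Z I J s hX hP hs => ?_⟩
  have hX1 : X₁ ≤ X := (le_max_left _ _).trans ((le_max_left _ _).trans hX)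
  have hX2 : X₂ ≤ X := (le_max_right _ _).trans ((le_max_left _ _).trans hX)
  have hX3 : Real.exp (4 + C₁ ^ 2) ≤ X := (le_max_right _ _).trans hX
  have hX0 : 0 < X := (Real.exp_pos _).trans_le hX3
  have hL1 : 4 + C₁ ^ 2 ≤ Real.log X := (Real.le_log_iff_exp_le hX0).2 hX3
  have hbot := fun L' => hbot A X Z L' i₀ I J hA1 hX1 hP
  have htr := fun Y f V => htr X Y s f V hX2 hs
  obtain ⟨hZ, hZ1, hJ, -, -, -, -⟩ := hP
  generalize Real.log X = L at *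
  have hL4 : 4 ≤ L := by nlinarith
  have hL : 0 < L := by linarith
  have hAZ : A * Z = Ui L i₀ := by rw [hZ]; field_simp
  have hZU : Z ≤ Ui L i₀ := by rw [← hAZ]; nlinarith
  have hUL : ∀ i, Ui L i ≤ L := fun i => (Ui_le hL i).trans (by linarith)
  obtain ⟨H, hH1, hH2, hfm⟩ := hfm Z L J hZ1 hJ (hZU.trans (hUL _))
  have hH0 : 0 ≤ H := le_trans (by positivity) hH1
  refine ⟨cq * H, ?_, fun t ht => ?_⟩
  · rw [mul_div_assoc]
    exact mul_le_mul_of_nonneg_left hH1 hcq.le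
  have hLt : L - t ≤ L := by linarith
  have h1 := htr _ _ _ (poly_VV D c (show 0 ≤ Z by linarith) 0 J 3) ?_ (mf1_V_le (L' := L - t) hL4 i₀)
    (mf1_V_zero hL hLt i₀) ?_
  · have h2 := mf1_model (D := D) (f := fun x => ((VV D c Z 0 J x ^ 3 : ℝ) : ℂ)) (Z := Z) (K := C * B)
      hL ht hi hH0 fun i hi => hfm _ _ _ _
        (hZU.trans (Ui_anti hL (Nat.lt_succ_iff.1 (mem_range.1 hi)))) (hUL i) hLt hB
    simp only [← bot1_eq D _ hL] at h1
    refine le_trans ?_ (mf1_final hX0.le hZ1 hcq.le hC hB0 hH2 ht)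
    have h3 := mul_le_mul_of_nonneg_left h2 (show 0 ≤ cq * X by positivity)
    rw [← Real.norm_of_nonneg (show 0 ≤ cq * X by positivity), ← norm_real, ← norm_mul,
      norm_real, Real.norm_of_nonneg (show 0 ≤ cq * X by positivity)] at h3
    refine le_trans (le_of_eq ?_) ((norm_add_le _ _).trans (add_le_add h1 h3))
    congr 1
    simp only [wJ]
    push_cast
    ring
  · refine Real.exp_le_exp.2 ?_
    have h2 : 1 / 2 ^ (i₀ + 1) * L = A * Z := by rw [hAZ, Ui]; ring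
    rw [h2]
    push_cast
    nlinarith
  · simp only [← bot1_eq D _ hL]
    refine (hbot _ hLt).1.trans ?_
    have h2 : C₁ ≤ √L := Real.le_sqrt_of_sq_le (by linarith)
    have h3 : L * √L / Z ≤ L * √L := div_le_self (by positivity) hZ1
    have h4 := Real.mul_self_sqrt hL.le
    calc C₁ * √X * (L * √L / Z) ≤ √L * √X * (L * √L) := by gcongr
      _ = √X * (L * (√L * √L)) := by ring
      _ = _ := by rw [h4]; ring

/-- Exchange the finite sum and the series (`norm_bot1_le`); `1 ≤ ∑ κ n`. -/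
theorem first_moment (D : Data) (hFE : D.FE) (hPS : D.PS) {κ : ℕ → ℝ} (hκ : Kap κ) :
    ∃ (c : ℕ) (A₀ cF C : ℝ), 1 ≤ c ∧ 1 ≤ A₀ ∧ 0 < cF ∧ 0 ≤ C ∧ ∀ (A : ℝ) (i₀ : ℕ), A₀ ≤ A → 1 ≤ i₀ →
    ∃ X₀ : ℝ, ∀ (X Z : ℝ) (I J : ℕ) (s : ℤ), X₀ ≤ X → Par A i₀ X Z I J → (s = 1 ∨ s = -1) →
    cF * X * (Real.log X / √Z) - C * (i₀ + 1) * X * √Z ≤
      ‖∑ d ∈ fam D s X, (Phi (s * d / X) : ℂ) * (wJ D c Z J d * Bot D κ (Real.log X) i₀ (jac d))‖ := by
  obtain ⟨c, A₀, cF, C, hc, hA₀, hcF, hC, h⟩ := first_one D hFE hPS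
  have hl : ∀ n : ℕ, 0 ≤ Real.log n := fun n => Real.log_natCast_nonneg n
  have hK : 0 ≤ ∑' n : ℕ, |κ n| * (1 + Real.log n) :=
    tsum_nonneg fun n => mul_nonneg (abs_nonneg _) (by linarith [hl n])
  refine ⟨c, A₀, cF, C * ∑' n : ℕ, |κ n| * (1 + Real.log n), hc, hA₀, hcF, by positivity,
    fun A i₀ hA hi => ?_⟩
  obtain ⟨X₀, h⟩ := h A i₀ hA hi
  refine ⟨max X₀ 2, fun X Z I J s hX hP hs => ?_⟩
  obtain ⟨H, hH, h⟩ := h X Z I J s ((le_max_left _ _).trans hX) hP hs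
  have hX2 : 2 ≤ X := (le_max_right _ _).trans hX
  have hL : 0 < Real.log X := Real.log_pos (by linarith)
  have hX0 : 0 < X := by linarith
  generalize Real.log X = L at *
  have hH0 : 0 ≤ H := le_trans (by positivity) hH
  have hs1 : Summable fun n => |κ n| := hκ.summ.of_nonneg_of_le (fun n => abs_nonneg _)
    fun n => le_mul_of_one_le_right (abs_nonneg _) (by linarith [hl n])
  have hs2 : Summable κ := hs1.of_abs
  have hs3 : ∀ d : ℤ, Summable fun n : ℕ => (κ n : ℂ) * bot1 D L i₀ (L - Real.log n) (jac d) := by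
    intro d
    refine (hs1.mul_right (8 * L * Real.exp L)).of_norm_bounded fun n => ?_
    rw [norm_mul, norm_real, Real.norm_eq_abs]
    exact mul_le_mul_of_nonneg_left (norm_bot1_le D (adm_jac d) hL (by linarith [hl n]) i₀)
      (abs_nonneg _)
  set S : ℕ → ℂ := fun n => ∑ d ∈ fam D s X, (Phi (s * d / X) : ℂ) *
    (wJ D c Z J d * bot1 D L i₀ (L - Real.log n) (jac d)) with hS
  have e1 : HasSum (fun n => (κ n : ℂ) * S n)
      (∑ d ∈ fam D s X, (Phi (s * d / X) : ℂ) * (wJ D c Z J d * Bot D κ L i₀ (jac d))) := by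
    have := hasSum_sum (s := fam D s X) fun d _ =>
      (((hs3 d).hasSum.mul_left (wJ D c Z J d)).mul_left (Phi (s * d / X) : ℂ))
    refine this.congr_fun fun n => ?_
    rw [hS, mul_sum]
    exact sum_congr rfl fun d _ => by ring
  have e2 : HasSum (fun n => (κ n : ℂ) * ((H * X * L : ℝ) : ℂ))
      (((∑' n, κ n : ℝ) : ℂ) * ((H * X * L : ℝ) : ℂ)) := (hasSum_ofReal.2 hs2.hasSum).mul_right _
  have e3 := (e1.sub e2).norm_le_of_bounded
    (hκ.summ.hasSum.mul_left (C * (i₀ + 1) * X * √Z)) fun n => by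
      rw [← mul_sub, norm_mul, norm_real, Real.norm_eq_abs]
      exact (mul_le_mul_of_nonneg_left (h _ (hl n)) (abs_nonneg _)).trans (le_of_eq (by ring))
  have h0 : 0 ≤ H * X * L := by positivity
  have e4 : cF * X * (L / √Z) ≤ ‖((∑' n, κ n : ℝ) : ℂ) * ((H * X * L : ℝ) : ℂ)‖ := by
    rw [← ofReal_mul, norm_real]
    refine le_trans ?_ (le_abs_self _)
    calc cF * X * (L / √Z) = cF / √Z * (X * L) := by ring
      _ ≤ H * (X * L) := mul_le_mul_of_nonneg_right hH (by positivity)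
      _ = H * X * L := by ring
      _ ≤ _ := le_mul_of_one_le_left h0 hκ.one_le
  have e5 := norm_sub_norm_le (((∑' n, κ n : ℝ) : ℂ) * ((H * X * L : ℝ) : ℂ))
    (∑ d ∈ fam D s X, (Phi (s * d / X) : ℂ) * (wJ D c Z J d * Bot D κ L i₀ (jac d)))
  rw [norm_sub_rev] at e5
  linarith [show C * (∑' n : ℕ, |κ n| * (1 + Real.log n)) * (i₀ + 1) * X * √Z =
    C * (i₀ + 1) * X * √Z * ∑' n : ℕ, |κ n| * (1 + Real.log n) by ring]

end Pool.Agent.Lib.MP_03e5d0_nt
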