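import Pool.Agent.Lib.MP_03e5d0_nt.AIf
import Pool.Agent.Lib.MP_03e5d0_nt.MWw
import Pool.Agent.Lib.MP_03e5d0_nt.MWin

set_option autoImplicit false

noncomputable section

namespace Pool.Agent.Lib.MP_03e5d0_nt

open Complex Finset MeasureTheory
open scoped NumberTheorySymbols Real ContDiff

/-! The top piece and the decomposition of the central derivative. -/

/-- The size of the top weight. -/
def tenv (U v : ℝ) : ℝ := (1 + U) * min 1 (Real.exp (2 * U - |v|))

theorem mtop_zero {j : ℕ} {a b B : ℝ} {W : ℝ → ℂ} (h : ∀ y, W y = 0) (hB : 0 ≤ B) : Sm j a b B W := by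
  obtain rfl : W = fun _ => 0 := funext h
  exact ⟨contDiff_const, fun _ _ => rfl, fun i _ y => by simpa using hB⟩

theorem mtop_add {j : ℕ} {a b B B' : ℝ} {W W' : ℝ → ℂ} (h : Sm j a b B W) (h' : Sm j a b B' W') :
    Sm j a b (B + B') fun y => W y + W' y :=
  ⟨h.smooth.add h'.smooth, fun y hy => by rw [h.supp y hy, h'.supp y hy, add_zero], fun i hi y => by
    rw [iteratedDeriv_fun_add (tsm_of_le h.smooth.contDiffAt) (tsm_of_le h'.smooth.contDiffAt)]
    exact (norm_add_le _ _).trans (add_le_add (h.bd i hi y) (h'.bd i hi y))⟩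

theorem mtop_bd (j : ℕ) {W : ℝ → ℂ} (hW : ContDiff ℝ ∞ W) (h0 : ∀ y, ‖W y‖ ≤ 1)
    (hs : ∀ y, y < 1 ∨ 2 < y → ∃ c, W =ᶠ[nhds y] fun _ => c) :
    ∃ B, 0 ≤ B ∧ ∀ v U : ℝ, 1 ≤ U → ∀ i ≤ j, ∀ y,
      ‖iteratedDeriv i (fun y => W ((v - y) / U)) y‖ ≤ B := by
  obtain ⟨B, hB⟩ := exists_sm j (a := 1) (b := 2) (contDiff_infty_iff_deriv.1 hW).2 fun y hy => by
    obtain ⟨c, hc⟩ := hs y hy
    rw [hc.deriv_eq, deriv_const]
  have h1 : ∀ i ≤ j, ∀ y, ‖iteratedDeriv i W y‖ ≤ max 1 B := fun i hi y => by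
    cases i with
    | zero => exact le_max_of_le_left (by simpa using h0 y)
    | succ i =>
      rw [iteratedDeriv_succ']
      exact le_max_of_le_right (hB.bd i (by omega) y)
  refine ⟨max 1 B, le_max_of_le_left zero_le_one, fun v U hU i hi y => ?_⟩
  have e : (fun y => W ((v - y) / U)) = fun y => (fun z => W (U⁻¹ * z)) (v - y) := by
    funext y; rw [div_eq_inv_mul]
  rw [e, iteratedDeriv_comp_const_sub i (fun z => W (U⁻¹ * z)) v, iteratedDeriv_comp_const_smul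
    (hW.of_le (by exact_mod_cast le_top)), norm_smul, norm_smul]
  simp only [norm_pow, norm_neg, norm_one, one_pow, one_mul, norm_inv, Real.norm_eq_abs]
  refine (mul_le_of_le_one_left (norm_nonneg _) (pow_le_one₀ (by positivity) ?_)).trans (h1 i hi _)
  exact inv_le_one_of_one_le₀ (hU.trans (le_abs_self U))

theorem mtop_term {j : ℕ} {Bp Bf BT a v U : ℝ} (hp : Sm j (-1) 1 Bp fun y => (psi y : ℂ)) {f : ℝ → ℝ}
    (hf : ContDiff ℝ ∞ f) (h0 : 0 ≤ Bf)
    (hb : ∀ i ≤ j, ∀ y ∈ Set.Icc (-1 : ℝ) 1, |iteratedDeriv i f (y + a)| ≤ Bf) {T : ℝ → ℂ}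
    (hT : ContDiff ℝ ∞ T) (h0' : 0 ≤ BT)
    (hb' : ∀ i ≤ j, ∀ y, ‖iteratedDeriv i (fun y => T ((v - y) / U)) y‖ ≤ BT) :
    Sm j (-1) 1 (2 ^ j * (2 ^ j * Bp * Bf) * BT)
      fun y => (psi y : ℂ) * (f (y + a) : ℂ) * T ((v - y) / U) := by
  have hf' : ContDiff ℝ ∞ fun y => f (y + a) := hf.comp (contDiff_id.add contDiff_const)
  refine (hp.mul (g := fun y => (f (y + a) : ℂ)) (ofRealCLM.contDiff.comp hf') h0
    fun i hi y hy => ?_).mul (hT.comp ((contDiff_const.sub contDiff_id).div_const U)) h0'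
    fun i hi y _ => hb' i hi y
  have := ofRealLI.norm_iteratedFDeriv_comp_left (hf'.contDiffAt (x := y)) (i := i)
    (by exact_mod_cast le_top)
  rw [norm_iteratedFDeriv_eq_norm_iteratedDeriv, norm_iteratedFDeriv_eq_norm_iteratedDeriv,
    iteratedDeriv_comp_add_const] at this
  exact this.le.trans (hb i hi y hy)

theorem mtop_ev {y : ℝ} (hy : y < 1 ∨ 2 < y) :
    ∃ c : ℝ, ∀ᶠ z in nhds y, Real.smoothTransition (z - 1) = c := by
  rcases hy with hy | hy
  · exact ⟨0, by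
      filter_upwards [Iio_mem_nhds hy] with z hz
      exact Real.smoothTransition.zero_of_nonpos (sub_nonpos.2 (le_of_lt hz))⟩
  · exact ⟨1, by
      filter_upwards [Ioi_mem_nhds hy] with z hz
      exact Real.smoothTransition.one_of_one_le (by linarith [show 2 < z from hz])⟩

theorem mtop_tenv_nonneg {U : ℝ} (hU : 1 ≤ U) (v : ℝ) : 0 ≤ tenv U v :=
  mul_nonneg (by linarith) (le_min zero_le_one (Real.exp_pos _).le)

theorem mtop_exp_le {U : ℝ} (hU : 1 ≤ U) (v : ℝ) : Real.exp (-|v|) ≤ tenv U v :=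
  (le_min (Real.exp_le_one_iff.2 (by simp)) (Real.exp_le_exp.2 (by linarith))).trans
    (le_mul_of_one_le_left (le_min zero_le_one (Real.exp_pos _).le) (by linarith))

theorem mtop_psi {y : ℝ} (hy : y ∉ Set.Icc (-1 : ℝ) 1) : psi y = 0 :=
  tsm_psi (((tsm_cases (-1) 1 y).resolve_left hy).imp le_of_lt le_of_lt)

/-- `top c U u = WW (c - u) * (1 - S (u / U - 1)) + (WW (c - u) + (c - u) + g0) * S (u / U - 1)` with
`S = smoothTransition`, whose derivatives are bounded; the first term vanishes for `u ≥ 2 U`, the second for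
`u ≤ U`. `WW_deriv`, `Sm.mul` (twice for each term), `sm_psi`. -/
theorem top_sm (j : ℕ) (cb : ℝ) : ∃ C : ℝ, 0 ≤ C ∧ ∀ c U v : ℝ, |c| ≤ cb → 1 ≤ U →
    Sm j (-1) 1 (C * tenv U v) fun y => (psi y : ℂ) * (top c U (v - y) : ℂ) := by
  obtain ⟨Bp, hp⟩ := sm_psi j
  obtain ⟨C, hC, hW⟩ := WW_deriv j
  have hS : ContDiff ℝ ∞ fun z : ℝ => (Real.smoothTransition (z - 1) : ℂ) :=
    ofRealCLM.contDiff.comp (Real.smoothTransition.contDiff.comp (contDiff_id.sub contDiff_const))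
  have hS' : ContDiff ℝ ∞ fun z : ℝ => 1 - (Real.smoothTransition (z - 1) : ℂ) :=
    contDiff_const.sub hS
  obtain ⟨B₂, hB₂, h₂⟩ := mtop_bd j hS (fun y => by
    rw [norm_real, Real.norm_of_nonneg (Real.smoothTransition.nonneg _)]
    exact Real.smoothTransition.le_one _) fun y hy => by
      obtain ⟨c, hc⟩ := mtop_ev hy
      exact ⟨c, hc.mono fun z hz => by simp only [hz]⟩
  obtain ⟨B₁, hB₁, h₁⟩ := mtop_bd j hS' (fun y => by
    rw [← ofReal_one, ← ofReal_sub, norm_real,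
      Real.norm_of_nonneg (sub_nonneg.2 (Real.smoothTransition.le_one _))]
    linarith [Real.smoothTransition.nonneg (y - 1)]) fun y hy => by
      obtain ⟨c, hc⟩ := mtop_ev hy
      exact ⟨1 - c, hc.mono fun z hz => by simp only [hz]⟩
  have hBp := hp.nonneg
  set E := Real.exp (|cb| + 3) with hE
  have hE0 : 0 ≤ E := (Real.exp_pos _).le
  refine ⟨2 ^ j * (2 ^ j * Bp * (C * E)) * (B₁ + B₂), by positivity, fun c U v hc hU => ?_⟩
  have ht := mtop_tenv_nonneg hU v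
  have he := mtop_exp_le hU v
  have hc' := abs_le.1 (hc.trans (le_abs_self cb))
  have hU0 : 0 < U := by linarith
  have t₁ : Sm j (-1) 1 (2 ^ j * (2 ^ j * Bp * (C * E * tenv U v)) * B₁) fun y => (psi y : ℂ) *
      (WW (y + (c - v)) : ℂ) * (1 - (Real.smoothTransition ((v - y) / U - 1) : ℂ)) := by
    by_cases hv : 2 * U + 1 ≤ v
    · refine mtop_zero (fun y => ?_) (by positivity)
      by_cases hy : y ∈ Set.Icc (-1 : ℝ) 1
      · rw [Real.smoothTransition.one_of_one_le (by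
          rw [le_sub_iff_add_le, le_div_iff₀ hU0]; linarith [hy.2])]
        simp
      · simp [mtop_psi hy]
    · refine mtop_term hp contDiff_WW (by positivity) (fun i hi y hy => ?_) hS' hB₁ (h₁ v U hU)
      refine (hW i hi _).1.trans ?_
      rw [mul_assoc]
      refine mul_le_mul_of_nonneg_left ?_ hC
      rcases le_total v 0 with h0 | h0
      · refine (min_le_right _ _).trans (le_trans ?_ (mul_le_mul_of_nonneg_left he hE0))
        rw [hE, ← Real.exp_add, abs_of_nonpos h0]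
        exact Real.exp_le_exp.2 (by linarith [hy.1])
      · refine (min_le_left _ _).trans ?_
        have h3 : Real.exp (-1) ≤ min 1 (Real.exp (2 * U - |v|)) :=
          le_min (Real.exp_le_one_iff.2 (by norm_num))
            (Real.exp_le_exp.2 (by rw [abs_of_nonneg h0]; linarith))
        have h4 : |cb| + 3 ≤ E * Real.exp (-1) := by
          rw [hE, ← Real.exp_add]
          linarith [Real.add_one_le_exp (|cb| + 3 + -1)]
        have h5 : |y + (c - v)| ≤ |cb| + 2 * U + 2 :=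
          abs_le.2 ⟨by linarith [hy.1], by linarith [hy.2]⟩
        have h6 : E * Real.exp (-1) ≤ E * min 1 (Real.exp (2 * U - |v|)) :=
          mul_le_mul_of_nonneg_left h3 hE0
        have h7 := mul_le_mul_of_nonneg_left (h4.trans h6) (show 0 ≤ 1 + U by linarith)
        unfold tenv
        nlinarith [abs_nonneg cb]
  have t₂ : Sm j (-1) 1 (2 ^ j * (2 ^ j * Bp * (C * E * tenv U v)) * B₂) fun y => (psi y : ℂ) *
      ((fun v => WW v + v + g0) (y + (c - v)) : ℝ) *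
        (Real.smoothTransition ((v - y) / U - 1) : ℂ) := by
    rcases le_total v 0 with h0 | h0
    · refine mtop_zero (fun y => ?_) (by positivity)
      by_cases hy : y ∈ Set.Icc (-1 : ℝ) 1
      · rw [Real.smoothTransition.zero_of_nonpos (by
          rw [sub_nonpos, div_le_one hU0]; linarith [hy.1])]
        simp
      · simp [mtop_psi hy]
    · refine mtop_term hp ((contDiff_WW.add contDiff_id).add contDiff_const) (by positivity)
        (fun i hi y hy => ?_) hS hB₂ (h₂ v U hU)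
      refine (hW i hi _).2.trans ?_
      rw [mul_assoc]
      refine mul_le_mul_of_nonneg_left (le_trans ?_ (mul_le_mul_of_nonneg_left he hE0)) hC
      rw [hE, ← Real.exp_add, abs_of_nonneg h0]
      exact Real.exp_le_exp.2 (by linarith [hy.2])
  convert mtop_add t₁ t₂ using 1
  · ring
  · funext y
    rw [top, show c - (v - y) = y + (c - v) by ring]
    push_cast
    ring

theorem mtop_step {s : ℝ} (hs : s ≤ 0) :
    2 * min 1 (Real.exp (s - 1)) ≤ min 1 (Real.exp s) := by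
  rw [min_eq_right (Real.exp_le_one_iff.2 hs)]
  have h1 : Real.exp s = Real.exp (s - 1) * Real.exp 1 := by rw [← Real.exp_add, sub_add_cancel]
  have h2 := Real.add_one_le_exp (1 : ℝ)
  have h3 := Real.exp_pos (s - 1)
  have h4 := min_le_right 1 (Real.exp (s - 1))
  nlinarith

theorem mtop_mono {s t : ℝ} (h : s ≤ t) : min 1 (Real.exp s) ≤ min 1 (Real.exp t) :=
  min_le_min_left _ (Real.exp_le_exp.2 h)

/-- A primitive for the telescoping bound. -/
def mtopF (U x : ℝ) : ℝ := 2 * min 1 (Real.exp (2 * U + x - 1)) - 2 * min 1 (Real.exp (2 * U - x)) +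
  max (-(2 * U)) (min x (2 * U + 1))

theorem mtop_tel {U : ℝ} (hU : 1 ≤ U) (x : ℝ) :
    min 1 (Real.exp (2 * U - |x|)) ≤ mtopF U (x + 1) - mtopF U x := by
  have h1 := mtop_mono (show 2 * U + x - 1 ≤ 2 * U + x by linarith)
  have h2 := mtop_mono (show 2 * U - x - 1 ≤ 2 * U - x by linarith)
  have h3 : max (-(2 * U)) (min x (2 * U + 1)) ≤ max (-(2 * U)) (min (x + 1) (2 * U + 1)) :=
    max_le_max_left _ (min_le_min_right _ (by linarith))
  rw [mtopF, mtopF, show 2 * U + (x + 1) - 1 = 2 * U + x by ring,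
    show 2 * U - (x + 1) = 2 * U - x - 1 by ring]
  rcases le_total x (-(2 * U)) with h | h
  · rw [abs_of_nonpos (by linarith), sub_neg_eq_add]
    linarith [mtop_step (show 2 * U + x ≤ 0 by linarith)]
  rcases le_total (2 * U) x with h' | h'
  · rw [abs_of_nonneg (by linarith)]
    linarith [mtop_step (show 2 * U - x ≤ 0 by linarith)]
  · rw [min_eq_left (show x ≤ 2 * U + 1 by linarith), min_eq_left (show x + 1 ≤ 2 * U + 1 by linarith),
      max_eq_right h, max_eq_right (show -(2 * U) ≤ x + 1 by linarith)]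
    linarith [min_le_left 1 (Real.exp (2 * U - |x|))]

theorem mtop_range {U : ℝ} (hU : 1 ≤ U) (x x' : ℝ) : mtopF U x - mtopF U x' ≤ 8 * (1 + U) := by
  have h0 : ∀ s, 0 ≤ min 1 (Real.exp s) := fun s => le_min zero_le_one (Real.exp_pos _).le
  have h1 : max (-(2 * U)) (min x (2 * U + 1)) ≤ 2 * U + 1 :=
    max_le (by linarith) (min_le_right _ _)
  unfold mtopF
  linarith [h0 (2 * U - x), h0 (2 * U + x' - 1), min_le_left 1 (Real.exp (2 * U + x - 1)),
    min_le_left 1 (Real.exp (2 * U - x')), le_max_left (-(2 * U)) (min x' (2 * U + 1))]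

theorem sum_tenv {U : ℝ} (hU : 1 ≤ U) (L : ℝ) : Summable (fun i : ℕ => tenv U (L - i)) ∧
    ∑' i : ℕ, tenv U (L - i) ≤ 8 * (1 + U) ^ 2 := by
  have h : ∀ n : ℕ, ∑ i ∈ range n, tenv U (L - i) ≤ 8 * (1 + U) ^ 2 := fun n => by
    have h1 : ∑ i ∈ range n, min 1 (Real.exp (2 * U - |L - i|)) ≤ 8 * (1 + U) := by
      refine le_trans ?_ (mtop_range hU ((n : ℝ) - L) (((0 : ℕ) : ℝ) - L))
      rw [← sum_range_sub (fun i : ℕ => mtopF U ((i : ℝ) - L))]
      refine sum_le_sum fun i _ => ?_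
      rw [abs_sub_comm, show ((i + 1 : ℕ) : ℝ) - L = i - L + 1 by push_cast; ring]
      exact mtop_tel hU _
    unfold tenv
    rw [← mul_sum]
    nlinarith
  exact ⟨summable_of_sum_range_le (fun _ => mtop_tenv_nonneg hU _) h,
    Real.tsum_le_of_sum_range_le (fun _ => mtop_tenv_nonneg hU _) h⟩

/-- For `y ≥ L - U` the weight is `WW (c - L + y)`; on `[0, L - U]` it is continuous. -/
theorem top_decay (c L : ℝ) {U : ℝ} (hU : 0 < U) : ∃ K : ℝ, ∀ y, 0 ≤ y →
    ‖(top c U (L - y) : ℂ)‖ ≤ K * Real.exp (-2 * y) := by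
  refine ⟨Real.exp (2 * (L - c)) + (|L - c - g0| + |L|) * Real.exp (2 * |L|), fun y hy => ?_⟩
  rw [norm_real, Real.norm_eq_abs, top, add_mul]
  refine (abs_sub _ _).trans (add_le_add ?_ ?_)
  · rw [abs_of_nonneg (WW_nonneg _), ← Real.exp_add]
    exact (WW_le_two _).trans (le_of_eq (by congr 1; ring))
  · rcases le_total L y with h | h
    · rw [Real.smoothTransition.zero_of_nonpos (by
        rw [sub_nonpos, div_le_one hU]; linarith), mul_zero, abs_zero]
      positivity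
    · have h1 := le_abs_self L
      rw [abs_mul, abs_of_nonneg (Real.smoothTransition.nonneg _), mul_assoc, ← Real.exp_add]
      refine mul_le_mul ?_ ((Real.smoothTransition.le_one _).trans (Real.one_le_exp (by linarith)))
        (Real.smoothTransition.nonneg _) (by positivity)
      exact abs_le.2 ⟨by linarith [neg_abs_le (L - c - g0)], by linarith [le_abs_self (L - c - g0)]⟩

/-- `sm_windows`, `nrm_tsum` with `env = 1`, `nrm_sm_le` with `ρ = 5` and the `IH` of `li`. -/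
theorem top_nrm (D : Data) (hFE : D.FE) (hPS : D.PS) (cb : ℝ) : ∃ C : ℝ, 0 ≤ C ∧
    ∀ (X U L : ℝ) (T : Finset ℤ) (c : ℤ → ℝ), 1 ≤ X → 1 ≤ U → T ⊆ sqf X → (∀ d ∈ T, |c d| ≤ cb) →
    nrm T (fun d => sm D (jac d) fun y => (top (c d) U (L - y) : ℂ)) ≤
      C * (1 + U) ^ 2 * ll X * √X := by
  obtain ⟨A, C₀, hC₀, hI⟩ := li D hFE hPS
  obtain ⟨C₁, hC₁, h₁⟩ := nrm_sm_le A 5
  obtain ⟨C₂, hC₂, h₂⟩ := top_sm (A + 2) cb
  refine ⟨8 * C₀ * C₁ * C₂, by positivity, fun X U L T c hX hU hT hc => ?_⟩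
  obtain ⟨hs, hs'⟩ := sum_tenv hU L
  have hl := one_le_ll hX
  have hG : 0 ≤ C₀ * ll X * √X := by positivity
  have h := nrm_tsum (T := T) (a := fun d => sm D (jac d) fun y => (top (c d) U (L - y) : ℂ))
    (c := fun d (i : ℕ) => sm D (jac d) fun y => (psi (y - i) : ℂ) * (top (c d) U (L - y) : ℂ))
    (env := fun _ => 1) (γ := fun i => C₁ * C₂ * (C₀ * ll X * √X) * tenv U (L - i))
    (fun _ => zero_le_one) (fun d _ => by
      obtain ⟨K, hK⟩ := top_decay (c d) L (show 0 < U by linarith)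
      simpa only [one_mul] using sm_windows (D := D) (adm_jac d) hK) (fun i => by
      have h3 := h₁ D ℤ T jac i _ _ (fun d y => (psi y : ℂ) * (top (c d) U (L - i - y) : ℂ)) hG
        (mul_nonneg hC₂ (mtop_tenv_nonneg hU (L - i)))
        (fun t => (nrm_subset hT).trans (hI.bd X hX i t))
        fun d hd => (h₂ (c d) U (L - i) (hc d hd) hU).mono le_rfl (by norm_num) (by norm_num) le_rfl
      simp only [sub_sub_sub_cancel_right] at h3
      exact h3.trans (le_of_eq (by ring))) (by simpa only [one_mul] using hs.mul_left _)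
  simp only [one_mul] at h
  rw [tsum_mul_left] at h
  exact h.trans ((mul_le_mul_of_nonneg_left hs' (by positivity)).trans (le_of_eq (by ring)))

theorem mtop_WW (ℒ : ℝ) {t : ℝ} (ht : 0 ≤ t) (y : ℝ) :
    ‖(WW (y + t - ℒ) : ℂ)‖ ≤ Real.exp (2 * ℒ) * Real.exp (-2 * y) := by
  rw [norm_real, Real.norm_of_nonneg (WW_nonneg _), ← Real.exp_add]
  exact (WW_le_two _).trans (Real.exp_le_exp.2 (by linarith))

theorem norm_sm_WW_le (D : Data) {x : ℕ → ℝ} (hx : Adm x) (ℒ : ℝ) {t : ℝ} (ht : 0 ≤ t) :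
    ‖sm D x fun y => (WW (y + t - ℒ) : ℂ)‖ ≤ 4 * Real.exp (2 * ℒ) :=
  norm_sm_le_decay hx fun y _ => mtop_WW ℒ ht y

theorem mtop_supp {j : ℕ} {B L U : ℝ} {Θ : ℝ → ℂ} (h : Sm j 1 4 B Θ) (hU : 0 < U) (y : ℝ)
    (hy : L < y) : Θ ((L - y) / U) = 0 := pc_supp h hU y (by linarith)

theorem bot1_eq (D : Data) (x : ℕ → ℝ) {L : ℝ} (hL : 0 < L) (i₀ : ℕ) (L' : ℝ) :
    bot1 D L i₀ L' x =
      sm D x fun y => ∑ i ∈ range (i₀ + 1), (Ui L i : ℂ) * th1 ((L' - y) / Ui L i) := by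
  obtain ⟨B, hB⟩ := sm_th1 0
  rw [sm_sum (L := L') _ fun i _ y hy => by rw [mtop_supp hB (Ui_pos hL i) y hy, mul_zero]]
  exact sum_congr rfl fun i _ => (sm_const_mul _ _).symm

theorem norm_bot1_le (D : Data) {x : ℕ → ℝ} (hx : Adm x) {L L' : ℝ} (hL : 0 < L) (h : L' ≤ L) (i₀ : ℕ) :
    ‖bot1 D L i₀ L' x‖ ≤ 8 * L * Real.exp L := by
  obtain ⟨B, hB⟩ := sm_th1 0
  have h1 : ∀ i, ‖pc D x L' (Ui L i) th1‖ ≤ 8 * Real.exp L := fun i =>
    (norm_sm_le hx (L := L') (B := 4) (by norm_num) (mtop_supp hB (Ui_pos hL i))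
      fun _ => norm_th1_le _).trans (by linarith [Real.exp_le_exp.2 h])
  refine (norm_sum_le _ _).trans ((sum_le_sum (g := fun i => Ui L i * (8 * Real.exp L))
    fun i _ => ?_).trans ?_)
  · rw [norm_mul, norm_real, Real.norm_of_nonneg (Ui_pos hL i).le]
    exact mul_le_mul_of_nonneg_left (h1 i) (Ui_pos hL i).le
  · rw [← sum_mul]
    exact (mul_le_mul_of_nonneg_right (sum_Ui_le hL _) (by positivity)).trans (le_of_eq (by ring))

theorem mtop_dec {j : ℕ} {B L : ℝ} {Θ : ℝ → ℂ} (h : Sm j 1 4 B Θ) (hL : 0 < L) (L' : ℝ) (n : ℕ)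
    (a : ℕ → ℂ) : ∃ K : ℝ, ∀ y, 0 ≤ y →
      ‖∑ i ∈ range n, a i * Θ ((L' - y) / Ui L i)‖ ≤ K * Real.exp (-2 * y) :=
  ⟨_, decay_of_supp (L := L') (B := ∑ i ∈ range n, ‖a i‖ * B)
    (sum_nonneg fun _ _ => mul_nonneg (norm_nonneg _) h.nonneg)
    (fun y hy => sum_eq_zero fun i _ => by rw [mtop_supp h (Ui_pos hL i) y hy, mul_zero])
    fun y _ => (norm_sum_le _ _).trans (sum_le_sum fun i _ => by
      rw [norm_mul]
      exact mul_le_mul_of_nonneg_left (h.norm_le _) (norm_nonneg _))⟩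

/-- `sum_th0`, `sum_th1` with `u = L - t - y ≤ L`; `sm_congr`, `sm_add_decay`, `sm_sum`. -/
theorem ld_term (D : Data) {x : ℕ → ℝ} (hx : Adm x) {L t : ℝ} (hL : 0 < L) (ht : 0 ≤ t) (ℒ : ℝ) (I : ℕ) :
    sm D x (fun y => (WW (y + t - ℒ) : ℂ)) = bot1 D L I (L - t) x -
      ((L - ℒ + g0 : ℝ) : ℂ) * ∑ i ∈ range (I + 1), pc D x (L - t) (Ui L i) th0 +
      sm D x fun y => (top (L - ℒ) (Ui L I) (L - t - y) : ℂ) := by
  obtain ⟨B₀, hB₀⟩ := sm_th0 0
  obtain ⟨B₁, hB₁⟩ := sm_th1 0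
  obtain ⟨K₀, h₀⟩ := mtop_dec hB₀ hL (L - t) (I + 1) fun _ => -((L - ℒ + g0 : ℝ) : ℂ)
  obtain ⟨K₁, h₁⟩ := mtop_dec hB₁ hL (L - t) (I + 1) fun i => (Ui L i : ℂ)
  obtain ⟨K₂, h₂⟩ := top_decay (L - ℒ) (L - t) (Ui_pos hL I)
  have e₀ : -(((L - ℒ + g0 : ℝ) : ℂ) * ∑ i ∈ range (I + 1), pc D x (L - t) (Ui L i) th0) =
      sm D x fun y => ∑ i ∈ range (I + 1),
        -((L - ℒ + g0 : ℝ) : ℂ) * th0 ((L - t - y) / Ui L i) := by
    rw [sm_sum (L := L - t) _ fun i _ y hy => by rw [mtop_supp hB₀ (Ui_pos hL i) y hy, mul_zero],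
      ← neg_mul, mul_sum]
    exact sum_congr rfl fun i _ => (sm_const_mul _ _).symm
  rw [sub_eq_add_neg, e₀, bot1_eq D x hL, ← sm_add_decay hx h₁ h₀,
    ← sm_add_decay hx (K := K₁ + K₀) (fun y hy => (norm_add_le _ _).trans
      ((add_le_add (h₁ y hy) (h₀ y hy)).trans (le_of_eq (add_mul _ _ _).symm))) h₂]
  refine sm_congr fun y hy => ?_
  have hu : L - t - y ≤ L := by linarith
  rw [← mul_sum, sum_th0 hL hu, sum_th1 hL hu, top, show L - ℒ - (L - t - y) = y + t - ℒ by ring]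
  push_cast
  ring

/-- Both series converge absolutely. -/
theorem ld_sub_bot (D : Data) {κ : ℕ → ℝ} (hκ : Kap κ) {x : ℕ → ℝ} (hx : Adm x) {L : ℝ} (hL : 0 < L)
    (ℒ : ℝ) (i₀ : ℕ) : ‖Ld D κ x ℒ - Bot D κ L i₀ x‖ ≤ ∑' n : ℕ, |κ n| *
      ‖sm D x (fun y => (WW (y + Real.log n - ℒ) : ℂ)) - bot1 D L i₀ (L - Real.log n) x‖ := by
  have h0 : Summable fun n : ℕ => |κ n| := hκ.summ.of_nonneg_of_le (fun _ => abs_nonneg _) fun n =>
    le_mul_of_one_le_right (abs_nonneg _) (by linarith [Real.log_natCast_nonneg n])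
  have key : ∀ (a : ℕ → ℂ) (K : ℝ), (∀ n, ‖a n‖ ≤ K) → Summable fun n => ‖(κ n : ℂ) * a n‖ :=
    fun a K h => (h0.mul_right K).of_nonneg_of_le (fun _ => norm_nonneg _) fun n => by
      rw [norm_mul, norm_real, Real.norm_eq_abs]
      exact mul_le_mul_of_nonneg_left (h n) (abs_nonneg _)
  have h1 := fun n : ℕ => norm_sm_WW_le D hx ℒ (Real.log_natCast_nonneg n)
  have h2 := fun n : ℕ => norm_bot1_le D hx hL (sub_le_self L (Real.log_natCast_nonneg n)) i₀
  rw [Ld, Bot, ← (key _ _ h1).of_norm.tsum_sub (key _ _ h2).of_norm]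
  simp only [← mul_sub]
  refine (norm_tsum_le_tsum_norm (key _ _ fun n =>
    (norm_sub_le _ _).trans (add_le_add (h1 n) (h2 n)))).trans (le_of_eq (tsum_congr fun n => ?_))
  rw [norm_mul, norm_real, Real.norm_eq_abs]

end Pool.Agent.Lib.MP_03e5d0_nt
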