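import Pool.Agent.Lib.MP_03e5d0_nt.MSm2
import Pool.Agent.Lib.MP_03e5d0_nt.MTop

set_option autoImplicit false

noncomputable section

namespace Pool.Agent.Lib.MP_03e5d0_nt

open Complex Finset MeasureTheory
open scoped NumberTheorySymbols Real ContDiff

/-! Second moments of the bottom pieces. -/

/-- The full mollifier. -/
def wJ (D : Data) (c : ℕ) (Z : ℝ) (J : ℕ) (m : ℤ) : ℂ := ((VV D c Z 0 J (jac m) ^ 3 : ℝ) : ℂ)

open Classical in
/-- The bad integers. -/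
def bad (D : Data) (c : ℕ) (X Z : ℝ) (J i₀ : ℕ) : Finset ℤ :=
  (allm X).filter fun m => ¬Good D c Z J i₀ (jac m)

theorem mf2_B {j : ℕ} {a b B : ℝ} {Θ : ℝ → ℂ} (h : Sm j a b B Θ) : 0 ≤ B :=
  (norm_nonneg _).trans (h.bd 0 (Nat.zero_le _) 0)

theorem mf2_norm (D : Data) (c : ℕ) (Z : ℝ) (J : ℕ) (m : ℤ) (u : ℂ) :
    ‖wJ D c Z J m * u‖ ^ 2 = VV D c Z 0 J (jac m) ^ 6 * ‖u‖ ^ 2 := by
  rw [norm_mul, mul_pow, wJ, Complex.norm_real, Real.norm_eq_abs, sq_abs, ← pow_mul]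

/-- `sm2` with `a = b = 0` for the first claim. For the second insert `not_good`:
`VV 0 b ^ 2 * VV 0 J ^ 6 = VV 0 b ^ 8 * VV b J ^ 6` (`VV_mul`), `sm2` with `a = 0`, `sum_geom36`. -/
theorem piece_nrm (D : Data) (hFE : D.FE) (hPS : D.PS) {c : ℕ} (hc : 1 ≤ c) : ∃ (j : ℕ) (A₁ C X₀ : ℝ),
    1 ≤ A₁ ∧ 0 ≤ C ∧ ∀ (X Z U L' B : ℝ) (J i₀ : ℕ) (Θ : ℝ → ℂ), X₀ ≤ X → 1 ≤ Z → Z ≤ 2 ^ J →
    A₁ * Z ≤ U → 8 * Real.log (Real.log X) ≤ U → U ≤ Real.log X → L' ≤ Real.log X → Sm j 1 4 B Θ →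
    nrm (allm X) (fun m => wJ D c Z J m * pc D (jac m) L' U Θ) ≤
      C * B * √X * √(U * (1 + Real.log (1 + Real.log X / U))) / Z ∧
    nrm (bad D c X Z J i₀) (fun m => wJ D c Z J m * pc D (jac m) L' U Θ) ≤
      C * B * √X * √(U * (1 + Real.log (1 + Real.log X / U))) / Z *
        (2 : ℝ) ^ (-(7 * i₀ : ℝ) / 24) := by
  classical
  obtain ⟨j, A₁, C, X₀, hA, hC, H⟩ := sm2 D hFE hPS hc
  obtain ⟨C₂, hC₂, H₂⟩ := sum_geom36
  refine ⟨j, A₁, √(C * (1 + C₂)), max X₀ 1, hA, Real.sqrt_nonneg _,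
    fun X Z U L' B J i₀ Θ hX hZ hJ hU h8 hUL hL' hΘ => ?_⟩
  have hX1 : 1 ≤ X := (le_max_right _ _).trans hX
  have hB := mf2_B hΘ
  have hU1 : 1 ≤ U := le_trans (one_le_mul_of_one_le_of_one_le hA hZ) hU
  have hl : 0 ≤ 1 + Real.log (1 + Real.log X / U) := by
    have h1 : 0 ≤ Real.log X / U := div_nonneg (Real.log_nonneg hX1) (by linarith)
    have h2 := Real.log_nonneg (show 1 ≤ 1 + Real.log X / U by linarith)
    linarith
  set l := 1 + Real.log (1 + Real.log X / U) with hldef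
  have hly : ly (Z / 2 ^ 0) = Z := by rw [pow_zero, div_one, ly, max_eq_right hZ]
  have K : ∀ b ≤ J, ∑ m ∈ allm X, VV D c Z 0 b (jac m) ^ 8 * VV D c Z b J (jac m) ^ 6 *
      ‖pc D (jac m) L' U Θ‖ ^ 2 ≤ C * (X * B ^ 2 * U * l / Z ^ 2) * (2 : ℝ) ^ (2 * (b : ℝ) / 9) := by
    intro b hb
    have h1 := H X Z U L' B 0 b J Θ ((le_max_left _ _).trans hX) (by linarith) hJ (Nat.zero_le _) hb
      (Or.inl (by simpa using hU)) h8 hUL hL' hΘ
    rw [hly, Nat.cast_zero, sub_zero] at h1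
    refine h1.trans (le_of_eq ?_)
    ring
  have hQ : 0 ≤ X * B ^ 2 * U * l / Z ^ 2 := by positivity
  have hsq : (√(C * (1 + C₂)) * B * √X * √(U * l) / Z) ^ 2 =
      C * (1 + C₂) * (X * B ^ 2 * U * l / Z ^ 2) := by
    rw [div_pow, mul_pow, mul_pow, mul_pow, Real.sq_sqrt (by positivity),
      Real.sq_sqrt (by positivity), Real.sq_sqrt (by positivity)]
    ring
  have hG : 0 ≤ √(C * (1 + C₂)) * B * √X * √(U * l) / Z := by positivity
  refine ⟨nrm_le_of_sq hG ?_, nrm_le_of_sq (by positivity) ?_⟩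
  · have h1 := K 0 (Nat.zero_le _)
    simp only [VV_self, one_pow, one_mul, Nat.cast_zero, mul_zero, zero_div, Real.rpow_zero,
      mul_one] at h1
    simp only [mf2_norm]
    rw [hsq]
    refine h1.trans ?_
    have h2 : 0 ≤ C * C₂ * (X * B ^ 2 * U * l / Z ^ 2) := by positivity
    nlinarith
  · have e2 : ((2 : ℝ) ^ (-(7 * i₀ : ℝ) / 24)) ^ 2 = (2 : ℝ) ^ (-(7 * i₀ : ℝ) / 12) := by
      rw [← Real.rpow_natCast, ← Real.rpow_mul (by norm_num)]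
      congr 1
      push_cast
      ring
    rw [mul_pow, hsq, e2]
    simp only [mf2_norm]
    calc ∑ m ∈ bad D c X Z J i₀, VV D c Z 0 J (jac m) ^ 6 * ‖pc D (jac m) L' U Θ‖ ^ 2
        ≤ ∑ m ∈ bad D c X Z J i₀, ∑ b ∈ range (J + 1), (2 : ℝ) ^ (-(7 * i₀ + 3 * b : ℝ) / 12) *
            (VV D c Z 0 b (jac m) ^ 8 * VV D c Z b J (jac m) ^ 6 * ‖pc D (jac m) L' U Θ‖ ^ 2) := by
          refine sum_le_sum fun m hm => ?_
          have h1 := not_good (mem_filter.1 hm).2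
          have h2 := mul_le_mul_of_nonneg_right h1
            (show 0 ≤ VV D c Z 0 J (jac m) ^ 6 * ‖pc D (jac m) L' U Θ‖ ^ 2 by positivity)
          rw [one_mul, sum_mul] at h2
          refine h2.trans (le_of_eq (sum_congr rfl fun b hb => ?_))
          rw [← VV_mul D c Z (Nat.zero_le b) (Nat.lt_succ_iff.1 (mem_range.1 hb)) (jac m)]
          ring
      _ ≤ ∑ m ∈ allm X, ∑ b ∈ range (J + 1), (2 : ℝ) ^ (-(7 * i₀ + 3 * b : ℝ) / 12) *
            (VV D c Z 0 b (jac m) ^ 8 * VV D c Z b J (jac m) ^ 6 * ‖pc D (jac m) L' U Θ‖ ^ 2) :=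
          sum_le_sum_of_subset_of_nonneg (filter_subset _ _) fun m _ _ =>
            sum_nonneg fun b _ => by positivity
      _ ≤ ∑ b ∈ range (J + 1), (2 : ℝ) ^ (-(7 * i₀ + 3 * b : ℝ) / 12) *
            (C * (X * B ^ 2 * U * l / Z ^ 2) * (2 : ℝ) ^ (2 * (b : ℝ) / 9)) := by
          rw [sum_comm]
          refine sum_le_sum fun b hb => ?_
          rw [← mul_sum]
          exact mul_le_mul_of_nonneg_left (K b (Nat.lt_succ_iff.1 (mem_range.1 hb))) (by positivity)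
      _ = C * (X * B ^ 2 * U * l / Z ^ 2) * ∑ b ∈ range (J + 1),
            (2 : ℝ) ^ (-(7 * i₀ + 3 * b : ℝ) / 12) * (2 : ℝ) ^ (2 * (b : ℝ) / 9) := by
          rw [mul_sum]
          exact sum_congr rfl fun b _ => by ring
      _ ≤ C * (X * B ^ 2 * U * l / Z ^ 2) * (C₂ * (2 : ℝ) ^ (-(7 * i₀ : ℝ) / 12)) :=
          mul_le_mul_of_nonneg_left (H₂ i₀ (J + 1)) (by positivity)
      _ ≤ C * (1 + C₂) * (X * B ^ 2 * U * l / Z ^ 2) * (2 : ℝ) ^ (-(7 * i₀ : ℝ) / 12) := by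
          have h2 : 0 ≤ C * (X * B ^ 2 * U * l / Z ^ 2) * (2 : ℝ) ^ (-(7 * i₀ : ℝ) / 12) := by
            positivity
          nlinarith

/-- `L / Ui L i = 2 ^ (i + 1)`, `1 + log (1 + 2 ^ (i + 1)) ≤ i + 3`, and `∑ √((i + 3) / 2 ^ (i + 1))`
converges. -/
theorem sum_sqrt_Ui : ∃ C : ℝ, 0 ≤ C ∧ ∀ (L : ℝ) (n : ℕ), 0 < L →
    ∑ i ∈ range n, √(Ui L i * (1 + Real.log (1 + L / Ui L i))) ≤ C * √L := by
  have hs : ∀ n : ℕ, ∑ i ∈ range n, ((i : ℝ) + 3) * (3 / 4) ^ i = 24 - (4 * n + 24) * (3 / 4) ^ n := by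
    intro n
    induction n with
    | zero => norm_num
    | succ n ih => rw [sum_range_succ, ih]; push_cast; ring
  refine ⟨24, by norm_num, fun L n hL => ?_⟩
  have key : ∀ i : ℕ, √(Ui L i * (1 + Real.log (1 + L / Ui L i))) ≤
      ((i : ℝ) + 3) * (3 / 4) ^ i * √L := by
    intro i
    have hi : (0 : ℝ) ≤ i := Nat.cast_nonneg i
    have h1 : L / Ui L i = 2 ^ (i + 1) := by
      rw [Ui]
      field_simp
    have h2 : Real.log (1 + 2 ^ (i + 1)) ≤ i + 2 := by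
      have h3 : (1 : ℝ) + 2 ^ (i + 1) ≤ 2 ^ (i + 2) := by
        have : (1 : ℝ) ≤ 2 ^ (i + 1) := one_le_pow₀ (by norm_num)
        rw [pow_succ _ (i + 1)]
        linarith
      refine (Real.log_le_log (by positivity) h3).trans ?_
      rw [Real.log_pow]
      have h4 : Real.log 2 ≤ 1 := by
        have := Real.log_le_sub_one_of_pos (show (0 : ℝ) < 2 by norm_num)
        linarith
      push_cast
      nlinarith
    have h5 : Ui L i ≤ ((3 / 4) ^ i) ^ 2 * L := by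
      have h6 : (1 / 2 : ℝ) ^ i ≤ ((3 / 4) ^ i) ^ 2 := by
        rw [← pow_mul, mul_comm, pow_mul]
        exact pow_le_pow_left₀ (by norm_num) (by norm_num) i
      refine le_trans ?_ (mul_le_mul_of_nonneg_right h6 hL.le)
      rw [Ui, one_div, inv_pow, ← div_eq_inv_mul]
      exact div_le_div_of_nonneg_left hL.le (by positivity)
        (pow_le_pow_right₀ (by norm_num) (Nat.le_succ i))
    rw [h1]
    refine Real.sqrt_le_iff.2 ⟨by positivity, ?_⟩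
    rw [mul_pow, mul_pow, Real.sq_sqrt hL.le]
    have h7 : 1 + Real.log (1 + 2 ^ (i + 1)) ≤ ((i : ℝ) + 3) ^ 2 := by nlinarith
    have h8 : 0 ≤ Ui L i := by rw [Ui]; positivity
    calc Ui L i * (1 + Real.log (1 + 2 ^ (i + 1))) ≤ Ui L i * ((i : ℝ) + 3) ^ 2 :=
          mul_le_mul_of_nonneg_left h7 h8
      _ ≤ ((3 / 4) ^ i) ^ 2 * L * ((i : ℝ) + 3) ^ 2 :=
          mul_le_mul_of_nonneg_right h5 (by positivity)
      _ = _ := by ring
  refine (sum_le_sum fun i _ => key i).trans ?_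
  rw [← sum_mul, hs]
  refine mul_le_mul_of_nonneg_right ?_ (Real.sqrt_nonneg _)
  have : (0 : ℝ) ≤ (4 * n + 24) * (3 / 4) ^ n := by positivity
  linarith

theorem mf2_L {A X Z : ℝ} {i₀ I J : ℕ} (hA : 1 ≤ A) (h : Par A i₀ X Z I J) : 0 < Real.log X := by
  by_contra h1
  have h2 := h.one_le
  have h3 : Z ≤ 0 := by
    rw [h.hZ, Ui]
    exact div_nonpos_of_nonpos_of_nonneg
      (div_nonpos_of_nonpos_of_nonneg (not_lt.1 h1) (by positivity)) (by linarith)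
  linarith

theorem mf2_anti {L : ℝ} (hL : 0 < L) {i k : ℕ} (h : i ≤ k) : Ui L k ≤ Ui L i :=
  div_le_div_of_nonneg_left hL.le (by positivity)
    (pow_le_pow_right₀ (by norm_num) (Nat.succ_le_succ h))

theorem mf2_le {L : ℝ} (hL : 0 < L) (i : ℕ) : Ui L i ≤ L :=
  div_le_self hL.le (one_le_pow₀ (by norm_num))

/-- For `i ≤ i₀`: `A₁ Z ≤ A Z = Ui L i₀ ≤ Ui L i ≤ L` and `Ui L I ≤ Ui L i`. -/
theorem low_pieces (D : Data) (hFE : D.FE) (hPS : D.PS) {c : ℕ} (hc : 1 ≤ c) : ∃ (j : ℕ) (A₁ C X₀ : ℝ),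
    1 ≤ A₁ ∧ 0 ≤ C ∧ ∀ (A X Z L' B : ℝ) (i₀ I J : ℕ) (Θ : ℝ → ℂ), A₁ ≤ A → X₀ ≤ X → Par A i₀ X Z I J →
    L' ≤ Real.log X → Sm j 1 4 B Θ →
    ∑ i ∈ range (i₀ + 1), nrm (allm X) (fun m => wJ D c Z J m * pc D (jac m) L' (Ui (Real.log X) i) Θ) ≤
      C * B * √X * (√(Real.log X) / Z) ∧
    ∑ i ∈ range (i₀ + 1),
      nrm (bad D c X Z J i₀) (fun m => wJ D c Z J m * pc D (jac m) L' (Ui (Real.log X) i) Θ) ≤
      C * B * √X * (√(Real.log X) / Z) * (2 : ℝ) ^ (-(7 * i₀ : ℝ) / 24) := by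
  obtain ⟨j, A₁, C, X₀, hA, hC, H⟩ := piece_nrm D hFE hPS hc
  obtain ⟨C₃, hC₃, H₃⟩ := sum_sqrt_Ui
  refine ⟨j, A₁, C * C₃, X₀, hA, mul_nonneg hC hC₃,
    fun A X Z L' B i₀ I J Θ hAA hX hP hL' hΘ => ?_⟩
  have hL := mf2_L (hA.trans hAA) hP
  have hB := mf2_B hΘ
  have hZ := hP.one_le
  have K := fun i (hi : i ∈ range (i₀ + 1)) => H X Z (Ui (Real.log X) i) L' B J i₀ Θ hX hZ hP.hJ
    (by
      have h1 : A * Z = Ui (Real.log X) i₀ := by
        rw [hP.hZ, mul_div_cancel₀ _ (by linarith)]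
      have h2 := mf2_anti hL (Nat.lt_succ_iff.1 (mem_range.1 hi))
      have h3 := mul_le_mul_of_nonneg_right hAA (show 0 ≤ Z by linarith)
      linarith)
    (hP.hI.trans (mf2_anti hL ((Nat.lt_succ_iff.1 (mem_range.1 hi)).trans hP.le)))
    (mf2_le hL i) hL' hΘ
  have hS : ∑ i ∈ range (i₀ + 1), C * B * √X *
      √(Ui (Real.log X) i * (1 + Real.log (1 + Real.log X / Ui (Real.log X) i))) / Z ≤
      C * C₃ * B * √X * (√(Real.log X) / Z) := by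
    rw [← sum_div, ← mul_sum]
    have h1 := mul_le_mul_of_nonneg_left (H₃ (Real.log X) (i₀ + 1) hL)
      (show 0 ≤ C * B * √X by positivity)
    refine (div_le_div_of_nonneg_right h1 (by linarith)).trans (le_of_eq ?_)
    ring
  refine ⟨(sum_le_sum fun i hi => (K i hi).1).trans hS,
    (sum_le_sum fun i hi => (K i hi).2).trans ?_⟩
  rw [← sum_mul]
  exact mul_le_mul_of_nonneg_right hS (by positivity)

theorem mf2_bot1 (D : Data) {L : ℝ} (hL : 0 < L) (L' : ℝ) (i₀ : ℕ) (T : Finset ℤ) (w : ℤ → ℂ) :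
    nrm T (fun m => w m * bot1 D L i₀ L' (jac m)) ≤
      L * ∑ i ∈ range (i₀ + 1), nrm T fun m => w m * pc D (jac m) L' (Ui L i) th1 := by
  refine (nrm_sum (range (i₀ + 1))
    (c := fun m i => (Ui L i : ℂ) * (w m * pc D (jac m) L' (Ui L i) th1)) fun m _ => ?_).trans ?_
  · rw [bot1, mul_sum]
    refine (norm_sum_le _ _).trans (le_of_eq (sum_congr rfl fun i _ => ?_))
    rw [mul_left_comm]
  · rw [mul_sum]
    refine sum_le_sum fun i _ => nrm_le_mul hL.le fun m _ => ?_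
    rw [norm_mul, Complex.norm_real, Real.norm_eq_abs, abs_of_nonneg (by rw [Ui]; positivity)]
    exact mul_le_mul_of_nonneg_right (mf2_le hL i) (norm_nonneg _)

/-- `nrm_sum`, `Ui ≤ L`, `sm_th1`. -/
theorem bot1_nrm (D : Data) (hFE : D.FE) (hPS : D.PS) {c : ℕ} (hc : 1 ≤ c) : ∃ A₁ C X₀ : ℝ,
    1 ≤ A₁ ∧ 0 ≤ C ∧ ∀ (A X Z L' : ℝ) (i₀ I J : ℕ), A₁ ≤ A → X₀ ≤ X → Par A i₀ X Z I J →
    L' ≤ Real.log X →
    nrm (allm X) (fun m => wJ D c Z J m * bot1 D (Real.log X) i₀ L' (jac m)) ≤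
      C * √X * (Real.log X * √(Real.log X) / Z) ∧
    nrm (bad D c X Z J i₀) (fun m => wJ D c Z J m * bot1 D (Real.log X) i₀ L' (jac m)) ≤
      C * √X * (Real.log X * √(Real.log X) / Z) * (2 : ℝ) ^ (-(7 * i₀ : ℝ) / 24) := by
  obtain ⟨j, A₁, C, X₀, hA, hC, H⟩ := low_pieces D hFE hPS hc
  obtain ⟨B, hB⟩ := sm_th1 j
  refine ⟨A₁, C * B, X₀, hA, mul_nonneg hC (mf2_B hB), fun A X Z L' i₀ I J hAA hX hP hL' => ?_⟩
  have hL := mf2_L (hA.trans hAA) hP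
  obtain ⟨K1, K2⟩ := H A X Z L' B i₀ I J th1 hAA hX hP hL' hB
  refine ⟨(mf2_bot1 D hL L' i₀ _ _).trans ((mul_le_mul_of_nonneg_left K1 hL.le).trans (le_of_eq ?_)),
    (mf2_bot1 D hL L' i₀ _ _).trans ((mul_le_mul_of_nonneg_left K2 hL.le).trans (le_of_eq ?_))⟩
  · ring
  · ring

theorem mf2_Bot (D : Data) {κ : ℕ → ℝ} (hκ : Kap κ) {L : ℝ} (hL : 0 < L) (i₀ : ℕ) (T : Finset ℤ)
    (w : ℤ → ℂ) {G : ℝ}
    (h : ∀ L' ≤ L, nrm T (fun m => w m * bot1 D L i₀ L' (jac m)) ≤ G) :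
    nrm T (fun m => w m * Bot D κ L i₀ (jac m)) ≤ (∑' n : ℕ, |κ n|) * G := by
  have hs : Summable fun n : ℕ => |κ n| :=
    hκ.summ.of_nonneg_of_le (fun _ => abs_nonneg _) fun n =>
      le_mul_of_one_le_right (abs_nonneg _) (by have := Real.log_natCast_nonneg n; linarith)
  have hle : ∀ n : ℕ, L - Real.log n ≤ L := fun n => sub_le_self _ (Real.log_natCast_nonneg n)
  rw [← tsum_mul_right]
  refine nrm_tsum (env := fun n : ℕ => |κ n|) (γ := fun _ => G)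
    (c := fun m (n : ℕ) => w m * bot1 D L i₀ (L - Real.log n) (jac m)) (fun _ => abs_nonneg _)
    (fun m _ => ?_) (fun n => h _ (hle n)) (hs.mul_right G)
  have e : ∀ n : ℕ, ‖w m * ((κ n : ℂ) * bot1 D L i₀ (L - Real.log n) (jac m))‖ =
      |κ n| * ‖w m * bot1 D L i₀ (L - Real.log n) (jac m)‖ := fun n => by
    rw [mul_left_comm, norm_mul, Complex.norm_real, Real.norm_eq_abs]
  rw [Bot, ← tsum_mul_left]
  refine (norm_tsum_le_tsum_norm ?_).trans (le_of_eq (tsum_congr e))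
  refine (hs.mul_right (‖w m‖ * (8 * L * Real.exp L))).of_nonneg_of_le (fun _ => norm_nonneg _)
    fun n => ?_
  rw [e, norm_mul]
  exact mul_le_mul_of_nonneg_left (mul_le_mul_of_nonneg_left
    (norm_bot1_le D (adm_jac m) hL (hle n) i₀) (norm_nonneg _)) (abs_nonneg _)

/-- `nrm_tsum` with `env n = |κ n|`; `norm_bot1_le` gives the convergence. -/
theorem Bot_nrm (D : Data) (hFE : D.FE) (hPS : D.PS) {c : ℕ} (hc : 1 ≤ c) {κ : ℕ → ℝ} (hκ : Kap κ) :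
    ∃ A₁ C X₀ : ℝ, 1 ≤ A₁ ∧ 0 ≤ C ∧ ∀ (A X Z : ℝ) (i₀ I J : ℕ), A₁ ≤ A → X₀ ≤ X → Par A i₀ X Z I J →
    nrm (allm X) (fun m => wJ D c Z J m * Bot D κ (Real.log X) i₀ (jac m)) ≤
      C * √X * (Real.log X * √(Real.log X) / Z) ∧
    nrm (bad D c X Z J i₀) (fun m => wJ D c Z J m * Bot D κ (Real.log X) i₀ (jac m)) ≤
      C * √X * (Real.log X * √(Real.log X) / Z) * (2 : ℝ) ^ (-(7 * i₀ : ℝ) / 24) := by
  obtain ⟨A₁, C, X₀, hA, hC, H⟩ := bot1_nrm D hFE hPS hc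
  refine ⟨A₁, (∑' n : ℕ, |κ n|) * C, X₀, hA, mul_nonneg (tsum_nonneg fun _ => abs_nonneg _) hC,
    fun A X Z i₀ I J hAA hX hP => ?_⟩
  have hL := mf2_L (hA.trans hAA) hP
  refine ⟨(mf2_Bot D hκ hL i₀ _ _ fun L' hL' => (H A X Z L' i₀ I J hAA hX hP hL').1).trans
      (le_of_eq ?_),
    (mf2_Bot D hκ hL i₀ _ _ fun L' hL' => (H A X Z L' i₀ I J hAA hX hP hL').2).trans
      (le_of_eq ?_)⟩
  · ring
  · ring

end Pool.Agent.Lib.MP_03e5d0_nt
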