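import Pool.Agent.Lib.MP_03e5d0_nt.MF2

set_option autoImplicit false

noncomputable section

namespace Pool.Agent.Lib.MP_03e5d0_nt

open Complex Finset MeasureTheory
open scoped NumberTheorySymbols Real ContDiff

/-! The pieces above the bottom ones, on the good set. -/

/-- The depth of the mollifier used for the piece `i₀ + r`. -/
def dep (r : ℕ) : ℕ := r + r / 16

/-- With `r = 16 k + e`: `1 + dep r ≤ 17 (k + 1) ≤ 17 * 2 ^ k`. -/
theorem dep_le (r : ℕ) : (1 + dep r : ℝ) * 2 ^ r ≤ 17 * 2 ^ dep r := by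
  have h1 : 1 + dep r ≤ 17 * 2 ^ (r / 16) := by
    have := Nat.lt_two_pow_self (n := r / 16)
    unfold dep
    omega
  have h2 : (1 + dep r : ℝ) ≤ 17 * 2 ^ (r / 16) := by exact_mod_cast h1
  calc (1 + dep r : ℝ) * 2 ^ r ≤ 17 * 2 ^ (r / 16) * 2 ^ r := by gcongr
    _ = 17 * 2 ^ dep r := by
      rw [dep, pow_add]
      ring

/-- `11 * dep r / 8 - 3 r / 2 ≤ -5 r / 128`. -/
theorem sum_dep : ∃ C : ℝ, 0 ≤ C ∧ ∀ n : ℕ,
    ∑ r ∈ range n, (2 : ℝ) ^ (11 * (dep r : ℝ) / 8 - 3 * (r : ℝ) / 2) * √(r + 1) ≤ C := by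
  set q : ℝ := (2 : ℝ) ^ (-(5 / 128 : ℝ)) with hq
  have hq0 : 0 < q := by positivity
  have hq1 : q < 1 := Real.rpow_lt_one_of_one_lt_of_neg one_lt_two (by norm_num)
  have hs : Summable fun r : ℕ => ((r : ℝ) ^ 1 * q ^ r + q ^ r) :=
    (summable_pow_mul_geometric_of_norm_lt_one 1 (by rwa [Real.norm_of_nonneg hq0.le])).add
      (summable_geometric_of_lt_one hq0.le hq1)
  refine ⟨∑' r : ℕ, ((r : ℝ) ^ 1 * q ^ r + q ^ r), tsum_nonneg fun r => by positivity, fun n =>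
    (sum_le_sum fun r _ => ?_).trans (hs.sum_le_tsum _ fun r _ => by positivity)⟩
  have h1 : (dep r : ℝ) ≤ r + r / 16 := by
    have := Nat.cast_div_le (α := ℝ) (m := r) (n := 16)
    rw [dep]
    push_cast at this ⊢
    linarith
  have h2 : (2 : ℝ) ^ (11 * (dep r : ℝ) / 8 - 3 * (r : ℝ) / 2) ≤ q ^ r := by
    rw [hq, ← Real.rpow_mul_natCast two_pos.le]
    exact Real.rpow_le_rpow_of_exponent_le one_le_two (by linarith)
  have h3 : √((r : ℝ) + 1) ≤ r + 1 := by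
    have : (0 : ℝ) ≤ r := Nat.cast_nonneg r
    exact Real.sqrt_le_iff.2 ⟨by positivity, by nlinarith⟩
  calc _ ≤ q ^ r * (r + 1) := by gcongr
    _ = _ := by ring

/-- Put `a = min (dep r) J`. On the good set `wJ = VV 0 a ^ 3 * VV a J ^ 3 ≤ bar i₀ a * VV a J ^ 3`, and
`bar i₀ a ≤ bar i₀ (dep r)`. `sm2` with `b = a`; `U = Ui L (i₀ + r) = A Z / 2 ^ r`, `A ≥ 17 A₁`, `dep_le`,
`ly (Z / 2 ^ a) ≥ Z / 2 ^ dep r`, `1 + log (1 + 2 ^ (i₀ + r + 1)) ≤ i₀ + r + 3 ≤ (i₀ + 3) (r + 1)`. -/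
theorem up_piece (D : Data) (hFE : D.FE) (hPS : D.PS) {c : ℕ} (hc : 1 ≤ c) : ∃ (j : ℕ) (A₁ C X₀ : ℝ),
    1 ≤ A₁ ∧ 0 ≤ C ∧ ∀ (A X Z L' B : ℝ) (i₀ I J r : ℕ) (Θ : ℝ → ℂ) (T : Finset ℤ), A₁ ≤ A → X₀ ≤ X →
    Par A i₀ X Z I J → i₀ + r ≤ I → L' ≤ Real.log X → Sm j 1 4 B Θ → T ⊆ allm X →
    (∀ d ∈ T, Good D c Z J i₀ (jac d)) →
    Ui (Real.log X) (i₀ + r) * nrm T (fun m => wJ D c Z J m * pc D (jac m) L' (Ui (Real.log X) (i₀ + r)) Θ) ≤
      C * B * √X * (A * √A) * ((2 : ℝ) ^ (7 * (i₀ : ℝ) / 8) * √(i₀ + 3) * √Z) *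
        ((2 : ℝ) ^ (11 * (dep r : ℝ) / 8 - 3 * (r : ℝ) / 2) * √(r + 1)) := by
  obtain ⟨j, A₁, C, X₀, hA₁, hC, H⟩ := sm2 D hFE hPS hc
  refine ⟨j, 17 * A₁, √C, max X₀ 1, by linarith, Real.sqrt_nonneg _,
    fun A X Z L' B i₀ I J r Θ T hA hX hP hr hL hΘ hT hG => ?_⟩
  have hA0 : 0 < A := by linarith
  have hZ0 : 0 < Z := one_pos.trans_le hP.one_le
  have hX0 : 0 ≤ X := zero_le_one.trans ((le_max_right _ _).trans hX)
  have hB : 0 ≤ B := (norm_nonneg _).trans (hΘ.bd 0 (Nat.zero_le _) 0)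
  set L := Real.log X with hLdef
  have hL0 : 0 ≤ L := Real.log_nonneg ((le_max_right _ _).trans hX)
  set U := Ui L (i₀ + r) with hU
  have hUe : U = A * Z / 2 ^ r := by
    rw [hU, hP.hZ, Ui, Ui]
    field_simp
    ring
  have hU0 : 0 < U := by
    rw [hUe]
    positivity
  have hLU : L / U = 2 ^ (i₀ + r + 1) := by
    have : L ≠ 0 := fun h => by simp [hU, Ui, h] at hU0
    rw [hU, Ui]
    field_simp
  set a := min (dep r) J with ha
  have h1 := H X Z U L' B a a J Θ ((le_max_left _ _).trans hX) hZ0.le hP.hJ le_rfl (min_le_right _ _)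
    (by
      rcases le_total (dep r) J with h | h
      · left
        rw [ha, min_eq_left h, hUe, mul_div_assoc', div_le_div_iff₀ (by positivity) (by positivity)]
        calc A₁ * (1 + dep r) * Z * 2 ^ r = A₁ * Z * ((1 + dep r) * 2 ^ r) := by ring
          _ ≤ A₁ * Z * (17 * 2 ^ dep r) := by
            have := dep_le r
            gcongr
          _ = 17 * A₁ * Z * 2 ^ dep r := by ring
          _ ≤ _ := by gcongr
      · exact Or.inr (min_eq_right h))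
    (hP.hI.trans (div_le_div_of_nonneg_left hL0 (by positivity)
      (pow_le_pow_right₀ one_le_two (by omega))))
    (div_le_self hL0 (one_le_pow₀ one_le_two)) hL hΘ
  have h2 : 1 + Real.log (1 + L / U) ≤ (i₀ + 3) * (r + 1) := by
    have h3 : Real.log (1 + L / U) ≤ (i₀ + r + 2 : ℕ) * Real.log 2 := by
      rw [← Real.log_pow, hLU]
      refine Real.log_le_log (by positivity) ?_
      have : (1 : ℝ) ≤ 2 ^ (i₀ + r + 1) := one_le_pow₀ one_le_two
      rw [pow_succ _ (i₀ + r + 1)]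
      linarith
    have h4 : Real.log 2 ≤ 1 := by linarith [Real.log_le_sub_one_of_pos two_pos]
    have h5 := mul_le_mul_of_nonneg_left h4 (Nat.cast_nonneg (α := ℝ) (i₀ + r + 2))
    have h6 : (0 : ℝ) ≤ i₀ := Nat.cast_nonneg _
    have h7 : (0 : ℝ) ≤ r := Nat.cast_nonneg _
    push_cast at h3 h5
    nlinarith [mul_nonneg h6 h7]
  have h3 : Z / 2 ^ dep r ≤ ly (Z / 2 ^ a) :=
    (div_le_div_of_nonneg_left hZ0.le (by positivity)
      (pow_le_pow_right₀ one_le_two (min_le_left _ _))).trans (le_max_right _ _)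
  have h4 : nrm (allm X) (fun m => ((VV D c Z a J (jac m) ^ 3 : ℝ) : ℂ) * pc D (jac m) L' U Θ) ≤
      √C * B * √X * √U / (Z / 2 ^ dep r) * (√(i₀ + 3) * √(r + 1)) := by
    refine nrm_le_of_sq (by positivity) (le_trans (le_of_eq ?_) (h1.trans ?_))
    · refine sum_congr rfl fun m _ => ?_
      rw [VV_self, norm_mul, Complex.norm_real, Real.norm_of_nonneg (pow_pos (VV_pos ..) _).le]
      ring
    · rw [sub_self, mul_zero, zero_div, Real.rpow_zero, mul_one]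
      simp only [mul_pow, div_pow (√C * B * √X * √U)]
      rw [Real.sq_sqrt hC, Real.sq_sqrt hX0, Real.sq_sqrt hU0.le, Real.sq_sqrt (by positivity),
        Real.sq_sqrt (by positivity), mul_right_comm C X]
      have h5 : 0 ≤ 1 + Real.log (1 + L / U) :=
        add_nonneg zero_le_one (Real.log_nonneg (le_add_of_nonneg_right (by positivity)))
      gcongr
  have h5 : nrm T (fun m => wJ D c Z J m * pc D (jac m) L' U Θ) ≤ bar i₀ (dep r) *
      nrm T (fun m => ((VV D c Z a J (jac m) ^ 3 : ℝ) : ℂ) * pc D (jac m) L' U Θ) := by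
    refine nrm_le_mul (by unfold bar; positivity) fun m hm => ?_
    have h6 : VV D c Z 0 a (jac m) ^ 3 ≤ bar i₀ (dep r) := by
      refine (hG m hm a (min_le_right _ _)).trans (Real.rpow_le_rpow_of_exponent_le one_le_two ?_)
      have : (a : ℝ) ≤ dep r := by exact_mod_cast min_le_left _ _
      linarith
    rw [wJ, norm_mul, norm_mul, Complex.norm_real, Complex.norm_real, ← mul_assoc,
      Real.norm_of_nonneg (pow_pos (VV_pos ..) _).le, Real.norm_of_nonneg (pow_pos (VV_pos ..) _).le,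
      ← VV_mul D c Z (Nat.zero_le a) (min_le_right _ _), mul_pow]
    have := (VV_pos D c Z a J (jac m)).le
    gcongr
  have h6 : U * √U / (Z / 2 ^ dep r) * bar i₀ (dep r) = A * √A * ((2 : ℝ) ^ (7 * (i₀ : ℝ) / 8) * √Z) *
      (2 : ℝ) ^ (11 * (dep r : ℝ) / 8 - 3 * (r : ℝ) / 2) := by
    have e1 : √((2 : ℝ) ^ r) = (2 : ℝ) ^ ((r : ℝ) / 2) := by
      rw [Real.sqrt_eq_rpow, ← Real.rpow_natCast, ← Real.rpow_mul two_pos.le]
      congr 1
      ring
    have e2 : (2 : ℝ) ^ (7 * (i₀ : ℝ) / 8) * (2 : ℝ) ^ (11 * (dep r : ℝ) / 8 - 3 * (r : ℝ) / 2) *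
        (2 ^ r * (2 : ℝ) ^ ((r : ℝ) / 2)) = 2 ^ dep r * bar i₀ (dep r) := by
      rw [bar, ← Real.rpow_natCast, ← Real.rpow_natCast]
      simp only [← Real.rpow_add two_pos]
      congr 1
      ring
    have e3 : (0 : ℝ) < (2 : ℝ) ^ ((r : ℝ) / 2) := by positivity
    rw [hUe, Real.sqrt_div (by positivity), Real.sqrt_mul hA0.le, e1]
    calc _ = A * √A * √Z * (2 ^ dep r * bar i₀ (dep r)) / (2 ^ r * (2 : ℝ) ^ ((r : ℝ) / 2)) := by
          field_simp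
      _ = _ := by
          rw [← e2]
          field_simp
  calc _ ≤ U * (bar i₀ (dep r) * (√C * B * √X * √U / (Z / 2 ^ dep r) * (√(i₀ + 3) * √(r + 1)))) :=
        mul_le_mul_of_nonneg_left (h5.trans (mul_le_mul_of_nonneg_left ((nrm_subset hT).trans h4)
          (by unfold bar; positivity))) hU0.le
    _ = √C * B * √X * (U * √U / (Z / 2 ^ dep r) * bar i₀ (dep r)) * (√(i₀ + 3) * √(r + 1)) := by
        ring
    _ = _ := by
        rw [h6]
        ring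

theorem up_pieces (D : Data) (hFE : D.FE) (hPS : D.PS) {c : ℕ} (hc : 1 ≤ c) : ∃ (j : ℕ) (A₁ C X₀ : ℝ),
    1 ≤ A₁ ∧ 0 ≤ C ∧ ∀ (A X Z L' B : ℝ) (i₀ I J : ℕ) (Θ : ℝ → ℂ) (T : Finset ℤ), A₁ ≤ A → X₀ ≤ X →
    Par A i₀ X Z I J → L' ≤ Real.log X → Sm j 1 4 B Θ → T ⊆ allm X →
    (∀ d ∈ T, Good D c Z J i₀ (jac d)) →
    ∑ i ∈ Ico (i₀ + 1) (I + 1),
      Ui (Real.log X) i * nrm T (fun m => wJ D c Z J m * pc D (jac m) L' (Ui (Real.log X) i) Θ) ≤
      C * B * √X * (A * √A) * ((2 : ℝ) ^ (7 * (i₀ : ℝ) / 8) * √(i₀ + 3) * √Z) := by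
  obtain ⟨j, A₁, C, X₀, hA₁, hC, H⟩ := up_piece D hFE hPS hc
  obtain ⟨C', hC', H'⟩ := sum_dep
  refine ⟨j, A₁, C * C', X₀, hA₁, mul_nonneg hC hC',
    fun A X Z L' B i₀ I J Θ T hA hX hP hL hΘ hT hG => ?_⟩
  have hA0 : 0 < A := by linarith
  have hB : 0 ≤ B := (norm_nonneg _).trans (hΘ.bd 0 (Nat.zero_le _) 0)
  have h1 := sum_le_sum fun r (hr : r ∈ range (I + 1 - i₀)) =>
    H A X Z L' B i₀ I J r Θ T hA hX hP (by have := mem_range.1 hr; omega) hL hΘ hT hG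
  rw [← mul_sum, ← sum_Ico_eq_sum_range (fun i => Ui (Real.log X) i *
    nrm T fun m => wJ D c Z J m * pc D (jac m) L' (Ui (Real.log X) i) Θ)] at h1
  have hL0 : 0 ≤ Real.log X := by
    have h2 := hP.one_le
    rw [hP.hZ, Ui, div_div, le_div_iff₀ (by positivity)] at h2
    exact le_trans (by positivity) h2
  refine (sum_le_sum_of_subset_of_nonneg (Ico_subset_Ico_left (Nat.le_succ _)) fun i _ _ =>
    mul_nonneg (div_nonneg hL0 (by positivity)) (nrm_nonneg _ _)).trans (h1.trans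
    ((mul_le_mul_of_nonneg_left (H' _) (by positivity)).trans (le_of_eq ?_)))
  ring

end Pool.Agent.Lib.MP_03e5d0_nt
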