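import Pool.Agent.Lib.MP_03e5d0_nt.MF3

set_option autoImplicit false

noncomputable section

namespace Pool.Agent.Lib.MP_03e5d0_nt

open Complex Finset MeasureTheory
open scoped NumberTheorySymbols Real ContDiff

/-! The difference between the central derivative and its bottom part, on the good set. -/

theorem mf3b_big {M K : ℝ} (hM : 0 < M) (hK : 0 < K) : ∃ X₀ : ℝ, ∀ X : ℝ, X₀ ≤ X →
    1 ≤ X ∧ 1 ≤ Real.log X ∧ 1 ≤ Real.log (Real.log X) ∧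
      M * Real.log (Real.log X) ^ 3 ≤ (Real.log X / K) ^ (1 / 8 : ℝ) := by
  have h1 := (Real.isLittleO_pow_log_id_atTop (n := 24)).bound
    (show 0 < 1 / (M ^ 8 * K) by positivity)
  obtain ⟨L₀, hL₀⟩ := Filter.eventually_atTop.1 (h1.and (Filter.eventually_ge_atTop (Real.exp 1)))
  refine ⟨Real.exp (max L₀ 1), fun X hX => ?_⟩
  have hX0 : 0 < X := lt_of_lt_of_le (Real.exp_pos _) hX
  have h2 : max L₀ 1 ≤ Real.log X := (Real.le_log_iff_exp_le hX0).2 hX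
  have h3 : 1 ≤ Real.log X := le_trans (le_max_right _ _) h2
  obtain ⟨h4, h5⟩ := hL₀ _ (le_trans (le_max_left _ _) h2)
  have h6 : 1 ≤ Real.log (Real.log X) := (Real.le_log_iff_exp_le (by linarith)).2 h5
  refine ⟨le_trans (Real.one_le_exp (le_trans zero_le_one (le_max_right _ _))) hX, h3, h6, ?_⟩
  generalize Real.log X = L at *
  rw [id, Real.norm_of_nonneg (by positivity), Real.norm_of_nonneg (by linarith)] at h4
  have h7 : (0 : ℝ) ≤ L / K := by positivity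
  refine (pow_le_pow_iff_left₀ (by positivity) (by positivity) (show (8 : ℕ) ≠ 0 by norm_num)).1 ?_
  rw [← Real.rpow_natCast ((L / K) ^ (1 / 8 : ℝ)), ← Real.rpow_mul h7]
  norm_num
  calc (M * Real.log L ^ 3) ^ 8 = M ^ 8 * Real.log L ^ 24 := by ring
    _ ≤ M ^ 8 * (1 / (M ^ 8 * K) * L) := by gcongr
    _ = L / K := by field_simp

theorem mf3b_bar {Z : ℝ} {J : ℕ} (i₀ : ℕ) (hZ : 1 ≤ Z) (hJ : (2 : ℝ) ^ J ≤ 2 * Z) :
    bar i₀ J * Z ^ (1 / 8 : ℝ) ≤ 2 * ((2 : ℝ) ^ (7 * (i₀ : ℝ) / 8) * √Z) := by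
  have h1 : bar i₀ J = (2 : ℝ) ^ (7 * (i₀ : ℝ) / 8) * ((2 : ℝ) ^ J) ^ (3 / 8 : ℝ) := by
    unfold bar
    rw [← Real.rpow_natCast, ← Real.rpow_mul zero_le_two, ← Real.rpow_add two_pos]
    congr 1
    ring
  have h2 : ((2 : ℝ) ^ J) ^ (3 / 8 : ℝ) ≤ 2 * Z ^ (3 / 8 : ℝ) := by
    refine (Real.rpow_le_rpow (by positivity) hJ (by norm_num)).trans ?_
    rw [Real.mul_rpow zero_le_two (by linarith)]
    refine mul_le_mul_of_nonneg_right ?_ (by positivity)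
    calc (2 : ℝ) ^ (3 / 8 : ℝ) ≤ 2 ^ (1 : ℝ) :=
          Real.rpow_le_rpow_of_exponent_le one_le_two (by norm_num)
      _ = 2 := Real.rpow_one 2
  have h3 : √Z = Z ^ (3 / 8 : ℝ) * Z ^ (1 / 8 : ℝ) := by
    rw [Real.sqrt_eq_rpow, ← Real.rpow_add (by linarith)]
    norm_num
  rw [h1, h3]
  calc (2 : ℝ) ^ (7 * (i₀ : ℝ) / 8) * ((2 : ℝ) ^ J) ^ (3 / 8 : ℝ) * Z ^ (1 / 8 : ℝ)
      ≤ (2 : ℝ) ^ (7 * (i₀ : ℝ) / 8) * (2 * Z ^ (3 / 8 : ℝ)) * Z ^ (1 / 8 : ℝ) := by gcongr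
    _ = _ := by ring

theorem mf3b_low {A X Z : ℝ} {i₀ I J : ℕ} (hA : 1 ≤ A) (h : Par A i₀ X Z I J) :
    √(Real.log X) / Z ≤ √(2 * A) * ((2 : ℝ) ^ (7 * (i₀ : ℝ) / 8) * √(i₀ + 3) * √Z) := by
  have hZ := h.one_le
  have e : Real.log X = 2 * A * (2 ^ i₀ * Z) := by
    rw [h.hZ, Ui, pow_succ]
    field_simp
  have h1 : √((2 : ℝ) ^ i₀) ≤ (2 : ℝ) ^ (7 * (i₀ : ℝ) / 8) := by
    rw [Real.sqrt_eq_rpow, ← Real.rpow_natCast, ← Real.rpow_mul zero_le_two]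
    refine Real.rpow_le_rpow_of_exponent_le one_le_two ?_
    have : (0 : ℝ) ≤ i₀ := Nat.cast_nonneg _
    linarith
  have h2 : (1 : ℝ) ≤ √(i₀ + 3) := Real.one_le_sqrt.2 (by
    have : (0 : ℝ) ≤ i₀ := Nat.cast_nonneg _
    linarith)
  calc √(Real.log X) / Z ≤ √(Real.log X) := div_le_self (Real.sqrt_nonneg _) hZ
    _ = √(2 * A) * (√((2 : ℝ) ^ i₀) * 1 * √Z) := by
        rw [e, Real.sqrt_mul (x := 2 * A) (by linarith), Real.sqrt_mul (x := 2 ^ i₀) (by positivity),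
          mul_one]
    _ ≤ _ := by gcongr

/-- On the good set `wJ ≤ bar i₀ J ≤ 2 ^ (7 i₀ / 8) (2 Z) ^ (3 / 8)`; `top_nrm` with
`U = Ui L I ≤ 16 log L`; `(1 + U) ^ 2 ll X ≤ C (log L) ^ 3 ≤ Z ^ (1 / 8)` for large `X`, since
`Z = L / (2 ^ (i₀ + 1) A)`. -/
theorem top_good (D : Data) (hFE : D.FE) (hPS : D.PS) (c : ℕ) (cb : ℝ) {A : ℝ} (hA : 1 ≤ A) (i₀ : ℕ) :
    ∃ X₀ : ℝ, ∀ (X Z L' : ℝ) (I J : ℕ) (T : Finset ℤ) (e : ℤ → ℝ), X₀ ≤ X → Par A i₀ X Z I J →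
    T ⊆ sqf X → (∀ d ∈ T, Good D c Z J i₀ (jac d) ∧ |e d| ≤ cb) →
    nrm T (fun d => wJ D c Z J d * sm D (jac d) fun y => (top (e d) (Ui (Real.log X) I) (L' - y) : ℂ)) ≤
      √X * ((2 : ℝ) ^ (7 * (i₀ : ℝ) / 8) * √Z) := by
  obtain ⟨C, hC, htop⟩ := top_nrm D hFE hPS cb
  obtain ⟨X₀, hX₀⟩ := mf3b_big (M := 1734 * (C + 1)) (K := 2 ^ (i₀ + 1) * A) (by positivity)
    (by positivity)
  refine ⟨X₀, fun X Z L' I J T e hX hP hT hd => ?_⟩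
  obtain ⟨h1, h2, h3, h4⟩ := hX₀ X hX
  have hZ := hP.one_le
  have eZ : Real.log X / (2 ^ (i₀ + 1) * A) = Z := by
    rw [hP.hZ, Ui, div_div]
  rw [eZ] at h4
  have hU := hP.hI
  have hU' := hP.hI'
  have hb : 0 ≤ bar i₀ J := by
    unfold bar
    positivity
  have h5 := htop X (Ui (Real.log X) I) L' T e h1 (by linarith) hT fun d hd' => (hd d hd').2
  have h6 : ll X ≤ 3 * Real.log (Real.log X) := by
    have h7 : Real.log (1 + Real.log X) ≤ Real.log (2 * Real.log X) :=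
      Real.log_le_log (by linarith) (by linarith)
    rw [Real.log_mul two_ne_zero (by linarith)] at h7
    have h8 := Real.log_two_lt_d9
    unfold ll
    linarith
  have h7 : 2 * (C * (1 + Ui (Real.log X) I) ^ 2 * ll X) ≤ Z ^ (1 / 8 : ℝ) := by
    refine le_trans ?_ h4
    have h8 : 1 + Ui (Real.log X) I ≤ 17 * Real.log (Real.log X) := by linarith
    have h9 := one_le_ll h1
    calc 2 * (C * (1 + Ui (Real.log X) I) ^ 2 * ll X)
        ≤ 2 * ((C + 1) * (17 * Real.log (Real.log X)) ^ 2 * (3 * Real.log (Real.log X))) := by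
          gcongr
          · linarith
          · linarith
      _ = _ := by ring
  refine (nrm_le_mul hb (b := fun d => sm D (jac d) fun y =>
    (top (e d) (Ui (Real.log X) I) (L' - y) : ℂ)) fun d hd' => ?_).trans ?_
  · rw [norm_mul]
    refine mul_le_mul_of_nonneg_right ?_ (norm_nonneg _)
    rw [wJ, Complex.norm_real, Real.norm_of_nonneg (pow_nonneg (VV_pos ..).le 3)]
    exact (hd d hd').1 J le_rfl
  · have h8 := mf3b_bar i₀ hZ hP.hJ'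
    have h9 := Real.sqrt_nonneg X
    calc _ ≤ bar i₀ J * (C * (1 + Ui (Real.log X) I) ^ 2 * ll X * √X) :=
          mul_le_mul_of_nonneg_left h5 hb
      _ = √X * (bar i₀ J * (2 * (C * (1 + Ui (Real.log X) I) ^ 2 * ll X)) / 2) := by ring
      _ ≤ √X * (bar i₀ J * Z ^ (1 / 8 : ℝ) / 2) := by gcongr
      _ ≤ _ := mul_le_mul_of_nonneg_left (by linarith) h9

/-- `ld_term`; `bot1 I - bot1 i₀` is the sum over `i₀ < i ≤ I` (`up_pieces` with `th1`); the `th0` pieces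
with `i > i₀` by `up_pieces` (as `1 ≤ Ui L i`), those with `i ≤ i₀` by `low_pieces`
(`√L / Z ≤ √(2 A) 2 ^ (i₀ / 2) √Z`); `top_good`. -/
theorem rest_one (D : Data) (hFE : D.FE) (hPS : D.PS) {c : ℕ} (hc : 1 ≤ c) (cb : ℝ) : ∃ A₁ : ℝ, 1 ≤ A₁ ∧
    ∀ A : ℝ, A₁ ≤ A → ∃ C : ℝ, 0 ≤ C ∧ ∀ i₀ : ℕ, ∃ X₀ : ℝ, ∀ (X Z t : ℝ) (I J : ℕ) (T : Finset ℤ)
    (ℒ : ℤ → ℝ), X₀ ≤ X → Par A i₀ X Z I J → 0 ≤ t → T ⊆ sqf X →
    (∀ d ∈ T, Good D c Z J i₀ (jac d) ∧ |Real.log X - ℒ d| ≤ cb) →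
    nrm T (fun d => wJ D c Z J d * (sm D (jac d) (fun y => (WW (y + t - ℒ d) : ℂ)) -
      bot1 D (Real.log X) i₀ (Real.log X - t) (jac d))) ≤
      C * √X * ((2 : ℝ) ^ (7 * (i₀ : ℝ) / 8) * √(i₀ + 3) * √Z) := by
  obtain ⟨j₁, A₁, C₁, X₁, hA₁, hC₁, hup⟩ := up_pieces D hFE hPS hc
  obtain ⟨j₂, A₂, C₂, X₂, hA₂, hC₂, hlow⟩ := low_pieces D hFE hPS hc
  obtain ⟨B₁, hs₁⟩ := sm_th1 j₁
  obtain ⟨B₂, hs₂⟩ := sm_th0 j₁
  obtain ⟨B₃, hs₃⟩ := sm_th0 j₂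
  have hB₁ : 0 ≤ B₁ := le_trans (norm_nonneg _) (hs₁.bd 0 (Nat.zero_le _) 0)
  have hB₂ : 0 ≤ B₂ := le_trans (norm_nonneg _) (hs₂.bd 0 (Nat.zero_le _) 0)
  have hB₃ : 0 ≤ B₃ := le_trans (norm_nonneg _) (hs₃.bd 0 (Nat.zero_le _) 0)
  refine ⟨max A₁ A₂, le_max_of_le_left hA₁, fun A hA => ?_⟩
  have hA1 : A₁ ≤ A := le_trans (le_max_left _ _) hA
  have hA2 : A₂ ≤ A := le_trans (le_max_right _ _) hA
  have hA0 : 1 ≤ A := le_trans hA₁ hA1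
  obtain ⟨cg, hcg⟩ : ∃ cg, cg = |cb| + |g0| := ⟨_, rfl⟩
  have hcg0 : 0 ≤ cg := by rw [hcg]; positivity
  refine ⟨C₁ * B₁ * (A * √A) + cg * (C₂ * B₃ * √(2 * A) + C₁ * B₂ * (A * √A)) + 1, by positivity,
    fun i₀ => ?_⟩
  obtain ⟨X₃, htop⟩ := top_good D hFE hPS c cb hA0 i₀
  obtain ⟨X₄, hX₄⟩ := mf3b_big one_pos one_pos
  refine ⟨max (max X₁ X₂) (max X₃ X₄), fun X Z t I J T ℒ hX hP ht hT hd => ?_⟩
  simp only [max_le_iff] at hX
  obtain ⟨⟨hX1, hX2⟩, hX3, hX4⟩ := hX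
  obtain ⟨h1, h2, h3, -⟩ := hX₄ X hX4
  have hT' : T ⊆ allm X := fun d hd' => by
    have := (mem_sqf (by linarith)).1 (hT hd')
    exact (mem_allm (by linarith)).2 this.1
  have hg : ∀ d ∈ T, Good D c Z J i₀ (jac d) := fun d hd' => (hd d hd').1
  have hL' : Real.log X - t ≤ Real.log X := by linarith
  have u1 := hup A X Z _ B₁ i₀ I J th1 T hA1 hX1 hP hL' hs₁ hT' hg
  have u2 := hup A X Z _ B₂ i₀ I J th0 T hA1 hX1 hP hL' hs₂ hT' hg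
  have u3 := (hlow A X Z _ B₃ i₀ I J th0 hA2 hX2 hP hL' hs₃).1
  have u4 := htop X Z (Real.log X - t) I J T (fun d => Real.log X - ℒ d) hX3 hP hT hd
  have u5 := mf3b_low hA0 hP
  have hle := hP.le
  have hI := hP.hI
  have hsq : (1 : ℝ) ≤ √(i₀ + 3) := Real.one_le_sqrt.2 (by
    have : (0 : ℝ) ≤ i₀ := Nat.cast_nonneg _
    linarith)
  have u6 : (2 : ℝ) ^ (7 * (i₀ : ℝ) / 8) * √Z ≤ (2 : ℝ) ^ (7 * (i₀ : ℝ) / 8) * √(i₀ + 3) * √Z := by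
    calc (2 : ℝ) ^ (7 * (i₀ : ℝ) / 8) * √Z = (2 : ℝ) ^ (7 * (i₀ : ℝ) / 8) * 1 * √Z := by ring
      _ ≤ _ := by gcongr
  generalize (2 : ℝ) ^ (7 * (i₀ : ℝ) / 8) * √(i₀ + 3) * √Z = S at *
  generalize Real.log X = L at *
  have hU : ∀ i ∈ Ico (i₀ + 1) (I + 1), 1 ≤ Ui L i := fun i hi => by
    have h4 : Ui L I ≤ Ui L i := by
      unfold Ui
      have := (mem_Ico.1 hi).2
      gcongr
      · norm_num
      · omega
    linarith
  have hsx := Real.sqrt_nonneg X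
  -- the three groups
  have g1 : nrm T (fun d => ∑ i ∈ Ico (i₀ + 1) (I + 1),
      (Ui L i : ℂ) * (wJ D c Z J d * pc D (jac d) (L - t) (Ui L i) th1)) ≤
      C₁ * B₁ * √X * (A * √A) * S := by
    refine le_trans ((nrm_sum _ fun d _ => norm_sum_le _ _).trans (sum_le_sum fun i hi => ?_)) u1
    have h4 := hU i hi
    refine nrm_le_mul (by linarith) fun d _ => le_of_eq ?_
    rw [norm_mul, Complex.norm_real, Real.norm_of_nonneg (by linarith)]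
  have g2 : nrm T (fun d => ∑ i ∈ range (I + 1), wJ D c Z J d * pc D (jac d) (L - t) (Ui L i) th0) ≤
      C₂ * B₃ * √X * (√(2 * A) * S) + C₁ * B₂ * √X * (A * √A) * S := by
    refine (nrm_sum _ fun d _ => norm_sum_le _ _).trans ?_
    rw [← sum_range_add_sum_Ico _ (show i₀ + 1 ≤ I + 1 by omega)]
    refine add_le_add ?_ ?_
    · refine le_trans (sum_le_sum fun i _ => nrm_subset hT') (u3.trans ?_)
      gcongr
    · refine le_trans (sum_le_sum fun i hi => ?_) u2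
      exact le_mul_of_one_le_left (nrm_nonneg _ _) (hU i hi)
  have g3 : nrm T (fun d => ((L - ℒ d + g0 : ℝ) : ℂ) *
      ∑ i ∈ range (I + 1), wJ D c Z J d * pc D (jac d) (L - t) (Ui L i) th0) ≤
      cg * (C₂ * B₃ * √X * (√(2 * A) * S) + C₁ * B₂ * √X * (A * √A) * S) := by
    refine (nrm_le_mul hcg0 fun d hd' => ?_).trans (mul_le_mul_of_nonneg_left g2 hcg0)
    rw [norm_mul, Complex.norm_real, Real.norm_eq_abs]
    refine mul_le_mul_of_nonneg_right ?_ (norm_nonneg _)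
    have h4 := (hd d hd').2
    have h5 := abs_add_le (L - ℒ d) g0
    have h6 := le_abs_self cb
    linarith
  have g4 := (nrm_add_le (T := T) fun d _ => norm_sub_le _ _).trans (add_le_add g1 g3)
  refine (nrm_add_le fun d _ => ?_).trans
    ((add_le_add g4 (u4.trans (mul_le_mul_of_nonneg_left u6 hsx))).trans (le_of_eq (by ring)))
  refine le_trans (le_of_eq ?_) (norm_add_le _ _)
  congr 1
  rw [ld_term D (adm_jac d) (show 0 < L by linarith) ht (ℒ d) I]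
  unfold bot1
  rw [← sum_range_add_sum_Ico (fun i => (Ui L i : ℂ) * pc D (jac d) (L - t) (Ui L i) th1)
    (show i₀ + 1 ≤ I + 1 by omega), ← mul_sum]
  have e : ∑ i ∈ Ico (i₀ + 1) (I + 1),
      (Ui L i : ℂ) * (wJ D c Z J d * pc D (jac d) (L - t) (Ui L i) th1) =
      wJ D c Z J d * ∑ i ∈ Ico (i₀ + 1) (I + 1), (Ui L i : ℂ) * pc D (jac d) (L - t) (Ui L i) th1 := by
    rw [mul_sum]
    exact sum_congr rfl fun i _ => by ring
  rw [e]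
  ring

/-- `ld_sub_bot`, `nrm_tsum`. -/
theorem rest_nrm (D : Data) (hFE : D.FE) (hPS : D.PS) {c : ℕ} (hc : 1 ≤ c) (cb : ℝ) {κ : ℕ → ℝ}
    (hκ : Kap κ) : ∃ A₁ : ℝ, 1 ≤ A₁ ∧ ∀ A : ℝ, A₁ ≤ A → ∃ C : ℝ, 0 ≤ C ∧ ∀ i₀ : ℕ, ∃ X₀ : ℝ,
    ∀ (X Z : ℝ) (I J : ℕ) (T : Finset ℤ) (ℒ : ℤ → ℝ), X₀ ≤ X → Par A i₀ X Z I J → T ⊆ sqf X →
    (∀ d ∈ T, Good D c Z J i₀ (jac d) ∧ |Real.log X - ℒ d| ≤ cb) →
    nrm T (fun d => wJ D c Z J d * (Ld D κ (jac d) (ℒ d) - Bot D κ (Real.log X) i₀ (jac d))) ≤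
      C * √X * ((2 : ℝ) ^ (7 * (i₀ : ℝ) / 8) * √(i₀ + 3) * √Z) := by
  obtain ⟨A₁, hA₁, h1⟩ := rest_one D hFE hPS hc cb
  refine ⟨A₁, hA₁, fun A hA => ?_⟩
  obtain ⟨C, hC, h2⟩ := h1 A hA
  have hs : Summable fun n : ℕ => |κ n| := by
    refine Summable.of_nonneg_of_le (fun n => abs_nonneg _) (fun n => ?_) hκ.summ
    exact le_mul_of_one_le_right (abs_nonneg _) (by linarith [Real.log_natCast_nonneg n])
  have hs0 : 0 ≤ ∑' n : ℕ, |κ n| := tsum_nonneg fun n => abs_nonneg _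
  refine ⟨(∑' n : ℕ, |κ n|) * C, by positivity, fun i₀ => ?_⟩
  obtain ⟨X₀, h3⟩ := h2 i₀
  refine ⟨X₀, fun X Z I J T ℒ hX hP hT hd => ?_⟩
  have hL : 0 < Real.log X := by
    have h4 := hP.one_le
    rw [hP.hZ, Ui, div_div, le_div_iff₀ (by have : 0 < A := by linarith
                                            positivity)] at h4
    have : 0 < A := by linarith
    exact lt_of_lt_of_le (by positivity) h4
  refine (nrm_tsum (env := fun n : ℕ => |κ n|) (fun n => abs_nonneg _) (fun d _ => ?_)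
    (fun n => h3 X Z (Real.log n) I J T ℒ hX hP (Real.log_natCast_nonneg n) hT hd)
    (hs.mul_right _)).trans (le_of_eq ?_)
  · rw [norm_mul]
    refine (mul_le_mul_of_nonneg_left (ld_sub_bot D hκ (adm_jac d) hL (ℒ d) i₀)
      (norm_nonneg _)).trans (le_of_eq ?_)
    rw [← tsum_mul_left]
    refine tsum_congr fun n => ?_
    rw [norm_mul]
    ring
  · rw [tsum_mul_right]
    ring

end Pool.Agent.Lib.MP_03e5d0_nt
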