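import Pool.Agent.Lib.MP_03e5d0_nt.MF1
import Pool.Agent.Lib.MP_03e5d0_nt.MF3b
import Pool.Agent.Lib.MP_03e5d0_nt.MAfe2

set_option autoImplicit false

noncomputable section

namespace Pool.Agent.Lib.MP_03e5d0_nt

open Complex Finset MeasureTheory
open scoped NumberTheorySymbols Real ContDiff

/-! The counting argument. -/

/-- `J = Nat.clog 2 ⌈Z⌉₊` or the least `J` with `Z ≤ 2 ^ J`; `I` the least index with
`Ui L (I + 1) < 8 log L`. -/
theorem exists_par {A : ℝ} (hA : 1 ≤ A) (i₀ : ℕ) : ∃ X₀ : ℝ, ∀ X : ℝ, X₀ ≤ X →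
    ∃ (Z : ℝ) (I J : ℕ), Par A i₀ X Z I J := by
  have h0 : (0 : ℝ) < 2 ^ (i₀ + 1) := by positivity
  have h1 : ∀ᶠ L : ℝ in Filter.atTop,
      2 ^ (i₀ + 1) * A ≤ L ∧ 1 < L ∧ 2 ^ (i₀ + 1) * (8 * Real.log L) ≤ L := by
    filter_upwards [Filter.eventually_ge_atTop (2 ^ (i₀ + 1) * A), Filter.eventually_gt_atTop 1,
      Real.isLittleO_log_id_atTop.bound (c := (2 ^ (i₀ + 1) * 8)⁻¹) (by positivity)] with L a b c
    refine ⟨a, b, ?_⟩
    rw [id, Real.norm_of_nonneg (Real.log_pos b).le, Real.norm_of_nonneg (by linarith),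
      le_inv_mul_iff₀ (by positivity)] at c
    linarith
  obtain ⟨X₀, hX₀⟩ := Filter.eventually_atTop.1 (Real.tendsto_log_atTop.eventually h1)
  refine ⟨X₀, fun X hX => ?_⟩
  obtain ⟨a, b, c⟩ := hX₀ X hX
  have hl : 0 < 8 * Real.log (Real.log X) := by linarith [Real.log_pos b]
  have hZ : 1 ≤ Ui (Real.log X) i₀ / A := by
    rw [Ui, div_div, one_le_div (by positivity)]
    exact a
  obtain ⟨J, j1, j2⟩ := exists_nat_pow_near hZ one_lt_two
  have hr : 2 ^ (i₀ + 1) ≤ Real.log X / (8 * Real.log (Real.log X)) := (le_div_iff₀ hl).2 c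
  obtain ⟨n, n1, n2⟩ := exists_nat_pow_near ((one_le_pow₀ one_le_two).trans hr) one_lt_two
  have hn : i₀ + 1 < n + 1 := (pow_lt_pow_iff_right₀ one_lt_two).1 (hr.trans_lt n2)
  obtain ⟨I, rfl⟩ : ∃ I, n = I + 1 := ⟨n - 1, by omega⟩
  refine ⟨_, I, J + 1, rfl, hZ, j2.le, by rw [pow_succ]; linarith, ?_, ?_, by omega⟩
  · rw [le_div_iff₀ hl] at n1
    rw [Ui, le_div_iff₀ (by positivity)]
    linarith
  · rw [div_lt_iff₀ hl, pow_succ] at n2
    rw [Ui, div_le_iff₀ (by positivity)]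
    linarith

/-- Divide by `2 ^ i`; each term tends to zero. -/
theorem exists_i0 {A cF C₁ C₂ C₃ : ℝ} (hA : 1 ≤ A) (hc : 0 < cF) : ∃ i : ℕ, 1 ≤ i ∧
    C₁ * (i + 1) + C₂ * ((2 : ℝ) ^ (7 * (i : ℝ) / 8) * √(i + 3)) +
      C₃ * ((2 : ℝ) ^ (-(7 * i : ℝ) / 12) * (A * 2 ^ (i + 1) * √(A * 2 ^ (i + 1)))) ≤
      cF / 2 * (A * 2 ^ (i + 1)) := by
  have hθ : 1 < (2 : ℝ) ^ (1 / 24 : ℝ) := Real.one_lt_rpow one_lt_two (by norm_num)
  set M := |C₁| + |C₂| + |C₃| * (2 * A * √(2 * A)) with hM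
  have h1 := (tendsto_pow_const_div_const_pow_of_one_lt 1 hθ).eventually
    (ge_mem_nhds (show (0 : ℝ) < 1 / 2 by norm_num))
  have h2 := tendsto_pow_atTop_atTop_of_one_lt hθ
  obtain ⟨i, hi, a, b, c⟩ := ((Filter.eventually_ge_atTop 1).and (h1.and
    ((h2.eventually_ge_atTop 6).and (h2.eventually_ge_atTop (M / (cF * A)))))).exists
  refine ⟨i, hi, ?_⟩
  have e : ∀ k : ℕ, (((2 : ℝ) ^ (1 / 24 : ℝ)) ^ i) ^ k = (2 : ℝ) ^ ((k * i : ℝ) / 24) := fun k => by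
    rw [← pow_mul, ← Real.rpow_natCast, ← Real.rpow_mul two_pos.le]
    congr 1
    push_cast
    ring
  generalize ((2 : ℝ) ^ (1 / 24 : ℝ)) ^ i = t at a b c e
  have t0 : 0 < t := by linarith
  have t1 : 1 ≤ t := by linarith
  have e1 : (2 : ℝ) ^ (7 * (i : ℝ) / 8) = t ^ 21 := by
    rw [e]
    congr 1
    push_cast
    ring
  have e2 : (2 : ℝ) ^ (-(7 * i : ℝ) / 12) = (t ^ 14)⁻¹ := by
    rw [e, ← Real.rpow_neg two_pos.le]
    congr 1
    push_cast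
    ring
  have e3 : (2 : ℝ) ^ (i + 1) = 2 * t ^ 24 := by
    rw [e, pow_succ', ← Real.rpow_natCast]
    congr 2
    push_cast
    ring
  have e4 : √(A * (2 * t ^ 24)) = √(2 * A) * t ^ 12 := by
    rw [show A * (2 * t ^ 24) = 2 * A * (t ^ 12) ^ 2 by ring, Real.sqrt_mul (by linarith),
      Real.sqrt_sq (by positivity)]
  rw [pow_one, div_le_iff₀ t0] at a
  rw [div_le_iff₀ (by positivity)] at c
  have k1 : (i : ℝ) + 1 ≤ t ^ 22 := le_trans (by linarith) (le_self_pow₀ t1 (by norm_num))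
  have k2 : √((i : ℝ) + 3) ≤ t := Real.sqrt_le_iff.2 ⟨t0.le, by nlinarith⟩
  rw [e1, e2, e3, e4]
  calc C₁ * (i + 1) + C₂ * (t ^ 21 * √(i + 3)) +
        C₃ * ((t ^ 14)⁻¹ * (A * (2 * t ^ 24) * (√(2 * A) * t ^ 12)))
      ≤ |C₁| * t ^ 22 + |C₂| * (t ^ 21 * t) +
        |C₃| * ((t ^ 14)⁻¹ * (A * (2 * t ^ 24) * (√(2 * A) * t ^ 12))) := by
        gcongr <;> exact le_abs_self _
    _ = M * t ^ 22 := by
        rw [hM]
        field_simp
    _ ≤ t * (cF * A) * t ^ 22 := by gcongr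
    _ = cF * A * t ^ 23 := by ring
    _ ≤ cF * A * t ^ 24 := by gcongr; norm_num
    _ = _ := by ring

theorem mf4_cs (T : Finset ℤ) (c : ℤ → ℂ) : ∑ d ∈ T, ‖c d‖ ≤ √(T.card) * nrm T c := by
  have h1 := sum_mul_le_nrm T (fun _ => (1 : ℂ)) c
  have h2 := nrm_le_const (T := T) (a := fun _ => (1 : ℂ)) zero_le_one fun _ _ => norm_one.le
  simp only [norm_one, one_mul] at h1
  rw [mul_one] at h2
  exact h1.trans (mul_le_mul_of_nonneg_right h2 (nrm_nonneg _ _))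

open Classical in
/-- The three-way splitting: `b ≠ 0` does not vanish, `b = 0` and good, bad. -/
theorem split_three {S : Finset ℤ} {φ : ℤ → ℝ} (hφ : ∀ d, 0 ≤ φ d ∧ φ d ≤ 1) (w a b : ℤ → ℂ)
    (G : ℤ → Prop) : ‖∑ d ∈ S, (φ d : ℂ) * (w d * a d)‖ ≤
      √((S.filter fun d => b d ≠ 0).card) * nrm S (fun d => w d * a d) +
      √(S.card) * nrm (S.filter G) (fun d => w d * (b d - a d)) +
      √((S.filter fun d => ¬G d).card) * nrm (S.filter fun d => ¬G d) (fun d => w d * a d) := by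
  refine (norm_sum_le _ _).trans (le_trans ?_ (add_le_add (add_le_add
    ((mf4_cs (S.filter fun d => b d ≠ 0) fun d => w d * a d).trans
      (mul_le_mul_of_nonneg_left (nrm_subset (filter_subset _ _)) (Real.sqrt_nonneg _)))
    ((mf4_cs (S.filter G) fun d => w d * (b d - a d)).trans (mul_le_mul_of_nonneg_right
      (Real.sqrt_le_sqrt (Nat.cast_le.2 (card_filter_le _ _))) (nrm_nonneg _ _))))
    (mf4_cs _ _)))
  rw [sum_filter, sum_filter, sum_filter, ← sum_add_distrib, ← sum_add_distrib]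
  refine sum_le_sum fun d _ => ?_
  have h1 : ‖(φ d : ℂ) * (w d * a d)‖ ≤ ‖w d * a d‖ := by
    rw [norm_mul, norm_real, Real.norm_of_nonneg (hφ d).1]
    exact mul_le_of_le_one_left (norm_nonneg _) (hφ d).2
  have h2 := norm_nonneg (w d * a d)
  have h3 := norm_nonneg (w d * (b d - a d))
  by_cases hb : b d = 0
  · rw [if_neg (not_not.2 hb), hb, zero_sub, mul_neg, norm_neg]
    split_ifs <;> linarith
  · rw [if_pos hb]
    split_ifs <;> linarith

open Classical in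
/-- Take `c` from `first_moment`, `A` the maximum of the thresholds, `i₀` from `exists_i0`, and put
`ρ = A 2 ^ (i₀ + 1) = L / Z`; then `L / √Z = ρ √Z` and `L √L / Z = ρ √ρ √Z`. `split_three`, `Bot_nrm`,
`rest_nrm`, `bad_card`, `card_allm` give `cF / 2 * ρ X √Z ≤ √N * C √X ρ √ρ √Z`. -/
theorem count (D : Data) (hFE : D.FE) (hPS : D.PS) {κ : ℕ → ℝ} (hκ : Kap κ) (cb : ℝ) {s : ℤ}
    (hs : s = 1 ∨ s = -1) : ∃ c : ℝ, 0 < c ∧ ∃ X₀ : ℝ, ∀ (X : ℝ) (ℒ : ℤ → ℝ), X₀ ≤ X →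
    (∀ d ∈ fam D s X, |Real.log X - ℒ d| ≤ cb) →
    c * X ≤ (((fam D s X).filter fun d => Ld D κ (jac d) (ℒ d) ≠ 0).card : ℝ) := by
  obtain ⟨c, A₀, cF, C, hc, hA₀, hcF, hC, h1⟩ := first_moment D hFE hPS hκ
  obtain ⟨A₁, CB, X₁, -, hCB, h2⟩ := Bot_nrm D hFE hPS hc hκ
  obtain ⟨A₂, -, h3⟩ := rest_nrm D hFE hPS hc cb hκ
  obtain ⟨A₃, Cb, X₃, -, hCb, h4⟩ := bad_card D hFE hPS hc
  obtain ⟨A, a0, a1, a2, a3⟩ : ∃ A, A₀ ≤ A ∧ A₁ ≤ A ∧ A₂ ≤ A ∧ A₃ ≤ A :=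
    ⟨max (max A₀ A₁) (max A₂ A₃), by simp, by simp, by simp, by simp⟩
  have hA : 1 ≤ A := hA₀.trans a0
  obtain ⟨CR, hCR, h3⟩ := h3 A a2
  obtain ⟨i, hi, h5⟩ := exists_i0 (C₁ := C) (C₂ := √3 * CR) (C₃ := √Cb * CB) hA hcF
  obtain ⟨X₀, h1⟩ := h1 A i a0 hi
  obtain ⟨X₂, h3⟩ := h3 i
  obtain ⟨X₄, h6⟩ := exists_par hA i
  have hp : (1 : ℝ) ≤ 2 ^ (i + 1) := one_le_pow₀ one_le_two
  obtain ⟨ρ, hρ⟩ : ∃ ρ, ρ = A * 2 ^ (i + 1) := ⟨_, rfl⟩
  have ρ1 : A ≤ ρ := hρ ▸ le_mul_of_one_le_right (by linarith) hp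
  have ρ0 : 0 < ρ := by linarith
  rw [← hρ] at h5
  refine ⟨(cF / 2) ^ 2 / (CB ^ 2 * ρ + 1), by positivity,
    max (max (max X₀ X₁) (max X₂ X₃)) (max X₄ 1), fun X ℒ hX hℒ => ?_⟩
  simp only [max_le_iff] at hX
  obtain ⟨⟨⟨x0, x1⟩, x2, x3⟩, x4, x5⟩ := hX
  obtain ⟨Z, I, J, hP⟩ := h6 X x4
  have z0 : 0 < Z := by linarith [hP.one_le]
  have hL : Real.log X = ρ * Z := by
    rw [hP.hZ, Ui, hρ]
    field_simp
  have hX0 : 0 ≤ X := by linarith
  have k1 := (h1 X Z I J s x0 hP hs).trans (split_three (φ := fun d => Phi (s * d / X))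
    (fun d => Phi_mem _) (wJ D c Z J) (fun d => Bot D κ (Real.log X) i (jac d))
    (fun d => Ld D κ (jac d) (ℒ d)) fun d => Good D c Z J i (jac d))
  obtain ⟨k2, k3⟩ := h2 A X Z i I J a1 x1 hP
  have hsub : fam D s X ⊆ allm X := filter_subset _ _
  have k4 := h3 X Z I J ((fam D s X).filter fun d => Good D c Z J i (jac d)) ℒ x2 hP
    (fun d hd => by
      have := mem_filter.1 (mem_filter.1 hd).1
      exact mem_filter.2 ⟨this.1, this.2.1.1⟩)
    fun d hd => ⟨(mem_filter.1 hd).2, hℒ d (mem_filter.1 hd).1⟩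
  have k5 := h4 X Z J i x3 z0.le (by rw [hL]; nlinarith)
  have hb : ((fam D s X).filter fun d => ¬Good D c Z J i (jac d)) ⊆ bad D c X Z J i :=
    filter_subset_filter _ hsub
  obtain ⟨τ, hτ⟩ : ∃ τ, τ = (2 : ℝ) ^ (-(7 * i : ℝ) / 24) := ⟨_, rfl⟩
  have τ0 : 0 < τ := hτ ▸ Real.rpow_pos_of_pos two_pos _
  have τ1 : (2 : ℝ) ^ (-(7 * i : ℝ) / 12) = τ ^ 2 := by
    rw [hτ, sq, ← Real.rpow_add two_pos]
    congr 1
    ring
  rw [τ1] at h5 k5
  rw [← hτ] at k3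
  have k6 : √(((fam D s X).filter fun d => ¬Good D c Z J i (jac d)).card) ≤ √Cb * √X * τ := by
    refine Real.sqrt_le_iff.2 ⟨by positivity, ((Nat.cast_le.2 (card_le_card hb)).trans k5).trans ?_⟩
    rw [mul_pow, mul_pow, Real.sq_sqrt hCb, Real.sq_sqrt hX0]
  have k7 : √((fam D s X).card) ≤ √3 * √X := by
    rw [← Real.sqrt_mul (by norm_num)]
    exact Real.sqrt_le_sqrt ((Nat.cast_le.2 (card_le_card hsub)).trans (card_allm x5))
  have e1 : Real.log X / √Z = ρ * √Z := by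
    rw [hL, mul_div_assoc, Real.div_sqrt]
  have e2 : Real.log X * √(Real.log X) / Z = ρ * √ρ * √Z := by
    rw [hL, Real.sqrt_mul ρ0.le]
    field_simp
  rw [e2] at k2 k3
  rw [e1] at k1
  have k8 := k1.trans (add_le_add (add_le_add
    (mul_le_mul_of_nonneg_left ((nrm_subset hsub).trans k2) (Real.sqrt_nonneg _))
    (mul_le_mul k7 k4 (nrm_nonneg _ _) (by positivity)))
    (mul_le_mul k6 ((nrm_subset hb).trans k3) (nrm_nonneg _ _) (by positivity)))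
  generalize (((fam D s X).filter fun d => Ld D κ (jac d) (ℒ d) ≠ 0).card : ℝ) = N at k8 ⊢
  have hu : √X * √X = X := Real.mul_self_sqrt hX0
  have u0 : 0 < √X := Real.sqrt_pos.2 (by linarith)
  have w0 : 0 < √Z := Real.sqrt_pos.2 z0
  generalize √X = u at k8 hu u0
  subst hu
  have k9 := mul_le_mul_of_nonneg_right h5 (show 0 ≤ u * u * √Z by positivity)
  have k10 : cF / 2 * u * (ρ * u * √Z) ≤ √N * CB * √ρ * (ρ * u * √Z) := by linarith
  have k11 := le_of_mul_le_mul_right k10 (by positivity)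
  have N0 : 0 < √N := by
    by_contra h
    rw [le_antisymm (not_lt.1 h) (Real.sqrt_nonneg N), zero_mul, zero_mul] at k11
    exact absurd k11 (not_le.2 (by positivity))
  have N1 : 0 ≤ N := (Real.sqrt_pos.1 N0).le
  have k12 := pow_le_pow_left₀ (by positivity) k11 2
  rw [mul_pow, mul_pow, mul_pow, Real.sq_sqrt N1, Real.sq_sqrt ρ0.le] at k12
  rw [div_mul_eq_mul_div, div_le_iff₀ (by positivity)]
  nlinarith

theorem mf4_kap {γ gb : ℕ → ℝ} (hs : Summable fun n : ℕ => gb n * (1 + Real.log n))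
    (h : ∀ n, |γ n| ≤ gb n) (h0 : 0 ≤ ∑' n, if n = 0 then 0 else γ n) :
    (Summable fun n => |γ n|) ∧ Kap (kap γ) := by
  have l1 : ∀ n : ℕ, 1 ≤ 1 + Real.log n := fun n => by linarith [Real.log_natCast_nonneg n]
  have s1 : Summable fun n => |γ n| := Summable.of_nonneg_of_le (fun _ => abs_nonneg _)
    (fun n => (h n).trans (le_mul_of_one_le_right ((abs_nonneg _).trans (h n)) (l1 n))) hs
  have s2 : Summable fun n => if n = 0 then 0 else γ n :=
    Summable.of_norm_bounded s1 fun n => by split_ifs <;> simp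
  have s3 := hasSum_ite_eq (1 : ℕ) (1 : ℝ)
  refine ⟨s1, by simp [kap], Summable.of_nonneg_of_le
    (fun n => mul_nonneg (abs_nonneg _) (by linarith [l1 n])) (fun n => ?_) (s3.summable.add hs), ?_⟩
  · have h1 := h n
    have h2 := l1 n
    have h3 := abs_nonneg (γ n)
    unfold kap
    split_ifs with e1 e2 e2
    · omega
    · subst e1
      simp only [Nat.cast_one, Real.log_one, add_zero, mul_one]
      exact (abs_add_le _ _).trans (by rw [abs_one]; linarith)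
    · simp only [add_zero, abs_zero, zero_mul]
      nlinarith
    · rw [zero_add, zero_add]
      gcongr
  · unfold kap
    rw [s3.summable.tsum_add s2, s3.tsum_eq]
    linarith

/-- `s` is the sign of `∑_{n ≥ 1} γ₁ n`, `κ = kap (s γ₁)`, `ℒ d = log (√(M d ^ 2) / (2 π))`; `count` at `X / 2`
and `afe`. -/
theorem core (D : Data) (hFE : D.FE) (hPS : D.PS) : ∃ c : ℝ, 0 < c ∧ ∃ X₀ : ℝ, ∀ X : ℝ, X₀ ≤ X →
    c * X ≤ ({d : ℤ | D.Fam d ∧ |(d : ℝ)| < X ∧ D.Simple d}.ncard : ℝ) := by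
  classical
  obtain ⟨c₀, C₀, M, gb, γ₁, -, hM, -, hs, -, hγ, hD⟩ := id hFE
  obtain ⟨s, hs1, h0⟩ : ∃ s : ℤ, (s = 1 ∨ s = -1) ∧
      0 ≤ ∑' n, if n = 0 then 0 else (s : ℝ) * γ₁ n := by
    rcases le_total 0 (∑' n, if n = 0 then 0 else γ₁ n) with h | h
    · exact ⟨1, Or.inl rfl, by simpa using h⟩
    · refine ⟨-1, Or.inr rfl, ?_⟩
      rw [← neg_nonneg, ← tsum_neg] at h
      refine h.trans (le_of_eq (tsum_congr fun n => ?_))
      split_ifs <;> simp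
  obtain ⟨s1, hκ⟩ := mf4_kap (γ := fun n => (s : ℝ) * γ₁ n) hs (fun n => by
    rcases hs1 with rfl | rfl <;> simpa using hγ n) h0
  obtain ⟨c, hc, X₀, h⟩ := count D hFE hPS hκ (|Real.log (√M / (2 * π))| + Real.log 2) hs1
  refine ⟨c / 2, by positivity, max (2 * X₀) 1, fun X hX => ?_⟩
  rw [max_le_iff] at hX
  have key : ∀ d ∈ fam D s (X / 2), D.Fam d ∧ d.sign = s ∧ X / 2 / 2 ≤ |(d : ℝ)| ∧
      |(d : ℝ)| ≤ X / 2 := fun d hd => by
    obtain ⟨h1, h2, h3⟩ := mem_filter.1 hd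
    have h4 : (0 : ℝ) < ((s * d : ℤ) : ℝ) := by linarith [hX.2]
    have h5 : 0 < s * d := by exact_mod_cast h4
    refine ⟨h2, ?_, h3.trans ?_, (mem_allm (by linarith [hX.2])).1 h1⟩
    · rcases hs1 with rfl | rfl
      · exact Int.sign_eq_one_of_pos (by omega)
      · exact Int.sign_eq_neg_one_of_neg (by omega)
    · rcases hs1 with rfl | rfl
      · simpa using le_abs_self (d : ℝ)
      · simpa using neg_le_abs (d : ℝ)
  have h1 := h (X / 2) (fun d => Real.log (√(M * (d : ℝ) ^ 2) / (2 * π))) (by linarith [hX.1])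
    fun d hd => by
      obtain ⟨-, -, k1, k2⟩ := key d hd
      have k3 : 0 < |(d : ℝ)| := by linarith [hX.2]
      have k4 : 0 < √M / (2 * π) := by have := Real.sqrt_pos.2 hM; positivity
      have k5 := Real.log_le_log k3 k2
      have k6 := Real.log_le_log (by linarith [hX.2]) k1
      rw [Real.log_div (by linarith [hX.2]) two_ne_zero] at k6
      rw [Real.sqrt_mul hM.le, Real.sqrt_sq_eq_abs, mul_div_right_comm, Real.log_mul k4.ne' k3.ne',
        abs_le]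
      have k7 := Real.log_nonneg one_le_two
      constructor <;> linarith [le_abs_self (Real.log (√M / (2 * π))),
        neg_abs_le (Real.log (√M / (2 * π)))]
  have hfin : {d : ℤ | D.Fam d ∧ |(d : ℝ)| < X ∧ D.Simple d}.Finite :=
    (allm X).finite_toSet.subset fun d hd => (mem_allm (by linarith [hX.2])).2 hd.2.1.le
  rw [← Set.ncard_coe_finset] at h1
  refine le_trans (le_of_eq (by ring)) (h1.trans (Nat.cast_le.2 (Set.ncard_le_ncard
    (fun d hd => ?_) hfin)))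
  obtain ⟨h2, h3⟩ := mem_filter.1 (mem_coe.1 hd)
  obtain ⟨k0, k1, k2, k3⟩ := key d h2
  have k4 : (d : ℝ) ≠ 0 := abs_pos.1 (by linarith [hX.2])
  have k5 := hD d k0
  rw [k1] at k5
  exact ⟨k0, by linarith [hX.2], afe (by positivity) s1 k5 h0 h3⟩

end Pool.Agent.Lib.MP_03e5d0_nt
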