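import Pool.Agent.Lib.MP_03e5d0_nt.MBl2
import Pool.Agent.Lib.MP_03e5d0_nt.MEul

set_option autoImplicit false

noncomputable section

namespace Pool.Agent.Lib.MP_03e5d0_nt

open Complex Finset MeasureTheory
open scoped NumberTheorySymbols Real ContDiff

/-! The mollified factor of the first moment. -/

/-- The contribution of the mollified primes. -/
def Om1 (D : Data) (c : ℕ) (Z : ℝ) (J : ℕ) (α : ℂ) : ℂ :=
  Ex (pr D Z) dl1 fun x => ((VV D c Z 0 J x ^ 3 : ℝ) : ℂ) * LP D (pr D Z) x (1 / 2 + α)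

theorem mfm1_union (D : Data) {Z : ℝ} {J : ℕ} (hZ : 0 ≤ Z) (hJ : Z ≤ 2 ^ J) :
    (Ico 0 J).biUnion (blk D Z) = pr D Z := by
  rw [biUnion_blk D hZ (Nat.zero_le J), pr_eq_empty D (Λ := Z / 2 ^ J)
    ((div_le_one (by positivity)).2 hJ), pow_zero, div_one, Finset.sdiff_empty]

theorem mfm1_norm (D : Data) (c : ℕ) (Z : ℝ) (J : ℕ) (x : ℕ → ℝ) (s : ℂ) :
    ‖((VV D c Z 0 J x ^ 3 : ℝ) : ℂ) * LP D (pr D Z) x s‖ =
      VV D c Z 0 J x ^ 3 * ∏ p ∈ pr D Z, ‖lf (D.lam p) (x p) ((p : ℂ) ^ (-s))‖ := by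
  rw [norm_mul, Complex.norm_real, Real.norm_of_nonneg (pow_pos (VV_pos D c Z 0 J x) 3).le, LP,
    norm_prod]

theorem mfm1_re {D : Data} {Z : ℝ} {α : ℂ} (h : -1 ≤ α.re * Z) {p : ℕ} (hp : p ∈ pr D Z) :
    -1 ≤ α.re * Real.log p := by
  have h1 := (mem_pr.1 hp).2.2
  have h2 := Real.log_natCast_nonneg p
  rcases le_total 0 α.re with h3 | h3
  · linarith [mul_nonneg h3 h2]
  · linarith [mul_le_mul_of_nonpos_left h1 h3]

/-- `pr D Z` is the disjoint union of the blocks `j < J` (`biUnion_blk`, `pr_eq_empty`), `lf_zero`. -/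
theorem norm_VV_LP (D : Data) (c : ℕ) {Z : ℝ} {J : ℕ} (hZ : 0 ≤ Z) (hJ : Z ≤ 2 ^ J) (x : ℕ → ℝ) (s : ℂ) :
    ‖((VV D c Z 0 J x ^ 3 : ℝ) : ℂ) * LP D (pr D Z) x s‖ = ∏ j ∈ Ico 0 J,
      vv D c Z j x ^ 3 * GG D (blk D Z j) (fun p => (p : ℂ) ^ (-s)) (fun _ => 0) x := by
  rw [mfm1_norm, ← mfm1_union D hZ hJ, prod_biUnion (blk_disjoint D hZ _), VV, ← prod_pow,
    ← prod_mul_distrib]
  simp only [GG, lf_zero, norm_one, mul_one]

/-- For real `z` the local factor is a positive real number. -/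
theorem lf_real {l u z : ℝ} (hl : |l| ≤ 2) (hu : |u| ≤ 1) (hz : |z| ≤ 1 / 10) :
    lf l u (z : ℂ) = (‖lf l u (z : ℂ)‖ : ℂ) := by
  have h1 : |l * u * z| ≤ 2 * 1 * (1 / 10) := by
    rw [abs_mul, abs_mul]
    gcongr
  have h2 : 0 < 1 - l * u * z + u ^ 2 * z ^ 2 := by
    linarith [le_abs_self (l * u * z), mul_nonneg (sq_nonneg u) (sq_nonneg z)]
  have h3 : lf l u (z : ℂ) = (((1 - l * u * z + u ^ 2 * z ^ 2)⁻¹ : ℝ) : ℂ) := by
    unfold lf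
    push_cast
    rfl
  rw [h3, Complex.norm_real, Real.norm_of_nonneg (inv_pos.2 h2).le]

/-- `mn_one`, `ps_sq`, `ps_one`, `ps_min`. -/
theorem sum_mn_one (D : Data) (hPS : D.PS) : ∃ C : ℝ, 0 ≤ C ∧ ∀ (Z : ℝ) (α : ℂ), 1 ≤ Z →
    -1 ≤ α.re * Z →
    |∑ p ∈ pr D Z, mn (D.lam p) (-1 / √p) ((p : ℂ) ^ (-(1 / 2 + α))) 0 + Real.log Z / 2| ≤
      C + C * Real.log (1 + ‖α‖ * Z) := by
  obtain ⟨C₁, h₁, H₁⟩ := mn_one
  obtain ⟨C₂, H₂⟩ := ps_sq D hPS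
  obtain ⟨C₃, H₃⟩ := ps_one D hPS
  obtain ⟨C₄, H₄⟩ := ps_min D hPS
  have h₂ : 0 ≤ C₂ := (abs_nonneg _).trans (H₂ 0)
  have h₃ : 0 ≤ C₃ := (abs_nonneg _).trans (H₃ 0)
  have h₄ : 0 ≤ C₁ * |C₄| := by positivity
  refine ⟨C₁ + C₁ * |C₄| + C₂ + C₃, by positivity, fun Z α hZ hα => ?_⟩
  have hl : ly Z = Z := max_eq_right hZ
  have e₂ := H₂ Z
  have e₃ := H₃ Z
  have e₄ := H₄ Z ‖α‖ (norm_nonneg _)
  rw [hl] at e₂ e₃ e₄
  have e₁ : |∑ p ∈ pr D Z, (mn (D.lam p) (-1 / √p) ((p : ℂ) ^ (-(1 / 2 + α))) 0 -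
      (D.lam p ^ 2 - 2) / 2 / p)| ≤ C₁ * (Real.log (1 + ‖α‖ * Z) + |C₄|) := by
    refine (abs_sum_le_sum_abs _ _).trans ((sum_le_sum fun p hp =>
      H₁ p _ α (mem_pr.1 hp).1.pos (D.lam_le p (mem_pr.1 hp).1) (mfm1_re hα hp)).trans ?_)
    rw [← mul_sum]
    exact mul_le_mul_of_nonneg_left (by linarith [le_abs_self C₄]) h₁
  have e₅ : ∑ p ∈ pr D Z, (D.lam p ^ 2 - 2) / 2 / p =
      (∑ p ∈ pr D Z, D.lam p ^ 2 / p) / 2 - ∑ p ∈ pr D Z, (1 : ℝ) / p := by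
    rw [sum_div, ← sum_sub_distrib]
    exact sum_congr rfl fun p _ => by ring
  rw [sum_sub_distrib, e₅] at e₁
  have e₆ : 0 ≤ Real.log (1 + ‖α‖ * Z) :=
    Real.log_nonneg (le_add_of_nonneg_right (by positivity))
  have e₇ : 0 ≤ (C₁ * |C₄| + C₂ + C₃) * Real.log (1 + ‖α‖ * Z) := by positivity
  rw [abs_le] at e₁ e₂ e₃ ⊢
  constructor <;> linarith [e₁.1, e₁.2, e₂.1, e₂.2, e₃.1, e₃.2]

theorem mfm1_sum (D : Data) {Z : ℝ} {J : ℕ} (hZ : 0 ≤ Z) (hJ : Z ≤ 2 ^ J) (z : ℕ → ℂ) :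
    ∑ j ∈ Ico 0 J, ∑ p ∈ blk D Z j, mn (D.lam p) (-((3 : ℕ) / 3 : ℝ) / √p) (z p) 0 =
      ∑ p ∈ pr D Z, mn (D.lam p) (-1 / √p) (z p) 0 := by
  rw [← mfm1_union D hZ hJ, sum_biUnion (blk_disjoint D hZ _)]
  norm_num

theorem mfm1_z {D : Data} {Z : ℝ} {α : ℂ} (h : -1 ≤ α.re * Z) (J : ℕ) :
    ∀ j ∈ Ico 0 J, ∀ p ∈ blk D Z j, p ∈ pr D Z →
      ‖(p : ℂ) ^ (-(1 / 2 + α))‖ ≤ 3 / √p ∧ ‖(0 : ℂ)‖ ≤ 3 / √p := fun _ _ p _ hp =>
  ⟨norm_cpow_le (mem_pr.1 hp).1.pos (mfm1_re h hp), by rw [norm_zero]; positivity⟩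

theorem mfm1_sub (D : Data) {Z : ℝ} {J : ℕ} (hZ : 0 ≤ Z) (hJ : Z ≤ 2 ^ J) :
    ∀ j ∈ Ico 0 J, blk D Z j ⊆ pr D Z := fun j hj => by
  rw [← mfm1_union D hZ hJ]
  exact subset_biUnion_of_mem _ hj

theorem mfm1_exp {Z : ℝ} (hZ : 1 ≤ Z) (a : ℝ) :
    Real.exp (a - Real.log Z / 2) = Real.exp a / √Z := by
  rw [Real.exp_sub, Real.exp_half, Real.exp_log (by linarith)]

/-- `norm_Ex_le`, `norm_VV_LP`, `blks_upper` with `e = 3`, `norm_cpow_le`, `sum_mn_one`. -/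
theorem norm_Om1_le (D : Data) (hPS : D.PS) : ∃ (k : ℕ) (C : ℝ), 0 ≤ C ∧ ∀ (c : ℕ) (Z : ℝ) (J : ℕ) (α : ℂ),
    1 ≤ c → 1 ≤ Z → Z ≤ 2 ^ J → -1 ≤ α.re * Z → ‖Om1 D c Z J α‖ ≤ C / √Z * (1 + ‖α‖ * Z) ^ k := by
  obtain ⟨C₀, h₀, H₀⟩ := blks_upper
  obtain ⟨C₁, h₁, H₁⟩ := sum_mn_one D hPS
  refine ⟨⌈C₁⌉₊, C₀ * Real.exp C₁, by positivity, fun c Z J α hc hZ hJ hα => ?_⟩
  have hZ0 : 0 ≤ Z := by linarith
  refine (norm_Ex_le (fun p hp => (mem_pr.1 hp).1) dl_dl1 _).trans ?_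
  simp only [norm_VV_LP D c hZ0 hJ]
  refine (H₀ D _ dl1 c Z (Ico 0 J) (fun _ => 3) _ _ hc hZ0 (mfm1_sub D hZ0 hJ)
    (fun p hp => ⟨(mem_pr.1 hp).1, (mem_pr.1 hp).2.1⟩) dl_dl1 (fun _ => by norm_num)
    fun j hj p hp => mfm1_z hα J j hj p hp (mfm1_sub D hZ0 hJ j hj hp)).trans ?_
  rw [mfm1_sum D hZ0 hJ]
  have h1 : 1 ≤ 1 + ‖α‖ * Z := le_add_of_nonneg_right (by positivity)
  have h2 := mul_le_mul_of_nonneg_right (Nat.le_ceil C₁) (Real.log_nonneg h1)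
  calc _ ≤ C₀ * Real.exp (C₁ + ⌈C₁⌉₊ * Real.log (1 + ‖α‖ * Z) - Real.log Z / 2) := by
        refine mul_le_mul_of_nonneg_left (Real.exp_le_exp.2 ?_) h₀
        linarith [(abs_le.1 (H₁ Z α hZ hα)).2]
    _ = _ := by
        rw [mfm1_exp hZ, Real.exp_add, Real.exp_nat_mul, Real.exp_log (by linarith)]
        ring

theorem Om1_differentiableOn (D : Data) (c : ℕ) (Z : ℝ) (J : ℕ) :
    DifferentiableOn ℂ (Om1 D c Z J) {α | -1 / 4 < α.re} := by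
  unfold Om1 Ex
  refine DifferentiableOn.fun_sum fun w _ => DifferentiableOn.const_smul ?_ _
  refine DifferentiableOn.const_mul ((LP_differentiableOn (adm_ext _ w)
    fun p hp => ⟨(mem_pr.1 hp).1, (mem_pr.1 hp).2.1⟩).comp
      (differentiableOn_id.const_add _) fun α hα => ?_) _
  simp only [Set.mem_ofPred_eq, add_re, id] at hα ⊢
  norm_num
  linarith

/-- A general step: Cauchy's estimate on discs of radius `r` and the mean value inequality along the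
vertical segment. -/
theorem vert_diff {f : ℂ → ℂ} {σ r t M : ℝ} (hr : 0 < r)
    (hf : DifferentiableOn ℂ f {α | σ - 2 * r < α.re})
    (hM : ∀ α : ℂ, |α.re - σ| ≤ r → |α.im| ≤ |t| + r → ‖f α‖ ≤ M) :
    ‖f (σ + I * t) - f σ‖ ≤ M / r * |t| := by
  have ho : IsOpen {α : ℂ | σ - 2 * r < α.re} := isOpen_lt continuous_const continuous_re
  have hs : Convex ℝ ({z : ℂ | z.re ≤ σ} ∩ {z : ℂ | σ ≤ z.re} ∩ Metric.closedBall (σ : ℂ) |t|) :=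
    ((convex_halfSpace_re_le σ).inter (convex_halfSpace_re_ge σ)).inter (convex_closedBall _ _)
  have h1 := hs.norm_image_sub_le_of_norm_deriv_le (f := f) (C := M / r) (x := σ) (y := σ + I * t)
    (fun z hz => hf.differentiableAt (ho.mem_nhds (by
      have h2 : σ ≤ z.re := hz.1.2
      show σ - 2 * r < z.re
      linarith)))
    (fun z hz => ?_) (by simp) (by simp)
  · simpa using h1
  have h2 : z.re = σ := le_antisymm hz.1.1 hz.1.2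
  have h3 : |z.im| ≤ |t| := by
    simpa using (abs_im_le_norm (z - σ)).trans (mem_closedBall_iff_norm.1 hz.2)
  have h4 : ∀ w ∈ Metric.closedBall z r, |w.re - σ| ≤ r ∧ |w.im| ≤ |t| + r := fun w hw => by
    have h5 := mem_closedBall_iff_norm.1 hw
    have h6 := (abs_re_le_norm _).trans h5
    have h7 := (abs_im_le_norm _).trans h5
    rw [sub_re, h2] at h6
    rw [sub_im] at h7
    exact ⟨h6, by linarith [abs_sub_abs_le_abs_sub w.im z.im]⟩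
  refine Complex.norm_deriv_le_of_forall_mem_sphere_norm_le hr
    (DifferentiableOn.diffContOnCl_ball hf fun w hw => ?_)
    fun w hw => hM w (h4 w (Metric.sphere_subset_closedBall hw)).1
      (h4 w (Metric.sphere_subset_closedBall hw)).2
  have h5 := (abs_le.1 (h4 w hw).1).1
  show σ - 2 * r < w.re
  linarith

theorem mfm1_real (D : Data) (c : ℕ) {Z σ : ℝ} (J : ℕ) (hσ : -1 ≤ σ * Z) {x : ℕ → ℝ} (hx : Adm x) :
    ((VV D c Z 0 J x ^ 3 : ℝ) : ℂ) * LP D (pr D Z) x (1 / 2 + σ) =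
      (‖((VV D c Z 0 J x ^ 3 : ℝ) : ℂ) * LP D (pr D Z) x (1 / 2 + σ)‖ : ℝ) := by
  rw [mfm1_norm, ofReal_mul, ofReal_prod, LP]
  refine congrArg _ (prod_congr rfl fun p hp => ?_)
  obtain ⟨h1, h2, -⟩ := mem_pr.1 hp
  have h3 := norm_cpow_le h1.pos (α := σ) (mfm1_re hσ hp)
  have h4 : (p : ℂ) ^ (-(1 / 2 + σ : ℂ)) = (((p : ℝ) ^ (-(1 / 2 + σ)) : ℝ) : ℂ) := by
    rw [ofReal_cpow (Nat.cast_nonneg p)]
    push_cast
    rfl
  have h5 : (100 : ℝ) ≤ √p := Real.le_sqrt_of_sq_le (by exact_mod_cast D.big h1 h2)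
  rw [h4] at h3 ⊢
  refine lf_real (D.lam_le p h1) (by rcases hx p with e | e | e <;> simp [e]) ?_
  rw [Complex.norm_real, Real.norm_eq_abs] at h3
  refine h3.trans ((div_le_iff₀ (by linarith)).2 (by linarith))

/-- The real value: `lf_real`, `Ex_ofReal`, `blks_lower` (which provides `c`), `sum_mn_one`. The difference:
`vert_diff` with `r = 1 / (8 Z)`. -/
theorem om1 (D : Data) (hPS : D.PS) : ∃ (c k : ℕ) (cl C : ℝ), 1 ≤ c ∧ 0 < cl ∧ 0 ≤ C ∧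
    ∀ (Z σ : ℝ) (J : ℕ), 1 ≤ Z → Z ≤ 2 ^ J → 0 ≤ σ → σ * Z ≤ 1 →
    (∃ H : ℝ, Om1 D c Z J σ = H ∧ cl / √Z ≤ H ∧ H ≤ C / √Z) ∧
    ∀ t : ℝ, ‖Om1 D c Z J (σ + I * t) - Om1 D c Z J σ‖ ≤ C * |t| * √Z * (1 + |t| * Z) ^ k := by
  obtain ⟨c, κ, hc, hκ, H₀⟩ := blks_lower
  obtain ⟨C₁, h₁, H₁⟩ := sum_mn_one D hPS
  obtain ⟨k, C, hC, H⟩ := norm_Om1_le D hPS
  refine ⟨c, k, κ * Real.exp (-(2 * C₁)), 8 * 3 ^ k * C, hc, by positivity, by positivity,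
    fun Z σ J hZ hJ hσ hσZ => ⟨?_, fun t => ?_⟩⟩
  · have hZ0 : 0 ≤ Z := by linarith
    have h1 : 0 ≤ σ * Z := mul_nonneg hσ hZ0
    have hα : -1 ≤ (σ : ℂ).re * Z := by rw [ofReal_re]; linarith
    have hn : ‖(σ : ℂ)‖ = σ := by rw [Complex.norm_real, Real.norm_of_nonneg hσ]
    have h2 : Om1 D c Z J σ = (Ex (pr D Z) dl1 fun x => ∏ j ∈ Ico 0 J, vv D c Z j x ^ 3 *
        GG D (blk D Z j) (fun p => (p : ℂ) ^ (-(1 / 2 + σ : ℂ))) (fun _ => 0) x : ℝ) := by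
      rw [← Ex_ofReal]
      exact Ex_congr fun x hx _ => by rw [mfm1_real D c (σ := σ) J hα hx, norm_VV_LP D c hZ0 hJ]
    refine ⟨_, h2, ?_, ?_⟩
    · refine le_trans ?_ (H₀ D _ dl1 Z (Ico 0 J) (fun _ => 3) _ _ hZ0 (mfm1_sub D hZ0 hJ)
        (fun p hp => ⟨(mem_pr.1 hp).1, (mem_pr.1 hp).2.1⟩) dl_dl1 (fun _ => by norm_num)
        fun j hj p hp => mfm1_z hα J j hj p hp (mfm1_sub D hZ0 hJ j hj hp))
      rw [mfm1_sum D hZ0 hJ, mul_div_assoc, ← mfm1_exp hZ]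
      refine mul_le_mul_of_nonneg_left (Real.exp_le_exp.2 ?_) hκ.le
      have h3 := (abs_le.1 (H₁ Z σ hZ hα)).1
      have h4 := Real.log_le_sub_one_of_pos (x := 1 + σ * Z) (by linarith)
      rw [hn] at h3
      linarith [mul_le_mul_of_nonneg_left (show Real.log (1 + σ * Z) ≤ 1 by linarith) h₁]
    · have h3 := H c Z J σ hc hZ hJ hα
      rw [h2, Complex.norm_real, hn] at h3
      refine ((le_abs_self _).trans h3).trans ?_
      have h4 : (1 + σ * Z) ^ k ≤ 8 * 3 ^ k :=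
        (pow_le_pow_left₀ (by linarith) (show 1 + σ * Z ≤ 3 by linarith) k).trans
          (by linarith [pow_pos (show (0 : ℝ) < 3 by norm_num) k])
      calc C / √Z * (1 + σ * Z) ^ k ≤ C / √Z * (8 * 3 ^ k) :=
            mul_le_mul_of_nonneg_left h4 (by positivity)
        _ = _ := by ring
  · have hZ0 : 0 < Z := by linarith
    have hr : 0 < 1 / (8 * Z) := by positivity
    have hrZ : 1 / (8 * Z) * Z = 1 / 8 := by field_simp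
    have hr1 : 1 / (8 * Z) ≤ 1 / 8 := by nlinarith
    have htZ : 0 ≤ |t| * Z := by positivity
    refine (vert_diff (M := C / √Z * (3 * (1 + |t| * Z)) ^ k) hr
      ((Om1_differentiableOn D c Z J).mono fun α hα => ?_) fun α h1 h2 => ?_).trans (le_of_eq ?_)
    · simp only [Set.mem_ofPred_eq] at hα ⊢
      linarith
    · obtain ⟨h3, h4⟩ := abs_le.1 h1
      have h5 : |α.re| ≤ σ + 1 / (8 * Z) := abs_le.2 ⟨by linarith, by linarith⟩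
      have h6 := mul_le_mul_of_nonneg_right
        ((norm_le_abs_re_add_abs_im α).trans (add_le_add h5 h2)) hZ0.le
      have h7 := mul_le_mul_of_nonneg_right (show -(1 / (8 * Z)) ≤ α.re by linarith) hZ0.le
      refine (H c Z J α hc hZ hJ (by linarith)).trans
        (mul_le_mul_of_nonneg_left (pow_le_pow_left₀ (by positivity) (by linarith) k) (by positivity))
    · have h3 : √Z ≠ 0 := (Real.sqrt_pos.2 hZ0).ne'
      have h4 : √Z ^ 2 = Z := Real.sq_sqrt hZ0.le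
      rw [mul_pow]
      field_simp
      rw [h4]
      ring

end Pool.Agent.Lib.MP_03e5d0_nt
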