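import Pool.Agent.Lib.MP_03e5d0_nt.MPs2

set_option autoImplicit false

noncomputable section

namespace Pool.Agent.Lib.MP_03e5d0_nt

open Complex Finset MeasureTheory
open scoped NumberTheorySymbols Real ContDiff

/-! Prime sums beyond the mollifier. -/

theorem mfm2_cpow {p : ℕ} (hp : p.Prime) (s : ℂ) : (p : ℂ) ^ (-s) = cexp (-(Real.log p * s)) := by
  rw [cpow_def_of_ne_zero (Nat.cast_ne_zero.2 hp.ne_zero), natCast_log, mul_neg]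

theorem mfm2_norm {p : ℕ} (hp : p.Prime) (σ t : ℝ) :
    ‖(p : ℂ) ^ (-(1 + 2 * σ + I * t : ℂ))‖ = Real.exp (-(2 * σ * Real.log p)) / p := by
  have h : (0 : ℝ) < p := by exact_mod_cast hp.pos
  rw [mfm2_cpow hp, Complex.norm_exp, eq_div_iff h.ne']
  nth_rw 2 [← Real.exp_log h]
  rw [← Real.exp_add]
  congr 1
  simp [-natCast_log]
  ring

theorem mfm2_re {p : ℕ} (hp : p.Prime) (σ t : ℝ) :
    ((p : ℂ) ^ (-(1 + 2 * σ + I * t : ℂ))).re =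
      Real.exp (-(2 * σ * Real.log p)) / p * Real.cos (t * Real.log p) := by
  rw [← mfm2_norm hp σ t, mfm2_cpow hp, exp_re, Complex.norm_exp, ← Real.cos_neg]
  congr 2
  simp [-natCast_log]
  ring

theorem mfm2_lam (D : Data) {p : ℕ} (hp : p.Prime) : D.lam p ^ 2 ≤ 4 := by
  have := D.lam_le p hp
  rw [← sq_abs]
  nlinarith [abs_nonneg (D.lam p)]

theorem mfm2_lam' (D : Data) {p : ℕ} (hp : p.Prime) : |D.lam p ^ 2 - 1| ≤ 3 :=
  abs_le.2 ⟨by nlinarith [sq_nonneg (D.lam p)], by linarith [mfm2_lam D hp]⟩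

/-- The norms of the terms do not depend on `t`; tails of a convergent series. -/
theorem psum_tail (D : Data) {σ : ℝ} (hσ : 0 < σ) : ∃ Λ₀ : ℝ, ∀ (Λ t : ℝ) (a : ℕ → ℝ), Λ₀ ≤ Λ →
    (∀ p : ℕ, p.Prime → |a p| ≤ 4 * (1 + Real.log p) ^ 2) →
    ‖PSum D.q a (1 + 2 * σ + I * t) -
      ∑ p ∈ pr D Λ, (a p : ℂ) * (p : ℂ) ^ (-(1 + 2 * σ + I * t : ℂ))‖ ≤ 1 := by
  have hu := summable_psum D.q (a := fun p => 4 * (1 + Real.log p) ^ 2) (K := 4)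
    (fun p => (abs_of_nonneg (by positivity)).le) (s := 1 + 2 * σ + I * (0 : ℝ)) (by simpa using hσ)
  obtain ⟨S, hS⟩ := Filter.eventually_atTop.1 ((tendsto_tsum_compl_atTop_zero fun p : ℕ =>
    ‖if p.Prime ∧ ¬p ∣ D.q then ((4 * (1 + Real.log p) ^ 2 : ℝ) : ℂ) *
      (p : ℂ) ^ (-(1 + 2 * σ + I * (0 : ℝ) : ℂ)) else 0‖).eventually (ge_mem_nhds one_pos))
  refine ⟨(S.sup id : ℕ), fun Λ t a hΛ ha => ?_⟩
  have hb : ∀ p : ℕ, ‖if p.Prime ∧ ¬p ∣ D.q then (a p : ℂ) * (p : ℂ) ^ (-(1 + 2 * σ + I * t : ℂ))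
      else 0‖ ≤ ‖if p.Prime ∧ ¬p ∣ D.q then ((4 * (1 + Real.log p) ^ 2 : ℝ) : ℂ) *
      (p : ℂ) ^ (-(1 + 2 * σ + I * (0 : ℝ) : ℂ)) else 0‖ := by
    intro p
    split_ifs with h
    · rw [norm_mul, norm_mul, mfm2_norm h.1, mfm2_norm h.1, norm_real, norm_real]
      exact mul_le_mul_of_nonneg_right ((ha p h.1).trans (le_abs_self _)) (by positivity)
    · exact le_rfl
  have hsub : S ⊆ range (⌊Real.exp Λ⌋₊ + 1) := fun i hi => by
    have h1 : (i : ℝ) ≤ (S.sup id : ℕ) := by exact_mod_cast le_sup (f := id) hi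
    exact mem_range.2 (Nat.lt_succ_of_le (Nat.le_floor (by linarith [Real.add_one_le_exp Λ])))
  rw [PSum, ← (Summable.of_norm_bounded hu hb).sum_add_tsum_subtype_compl
    (range (⌊Real.exp Λ⌋₊ + 1)), pr, sum_filter, add_sub_cancel_left]
  exact (tsum_of_norm_bounded (hu.subtype _).hasSum fun p => hb p).trans (hS _ hsub)

/-- The sum over `pr D Λ` is `PSum (lam ^ 2) - PSum 1` up to the tails; the two logarithms cancel. In the
sum over `pr D Z` replace `p ^ (-2 σ)` by `1` (`1 - p ^ (-2 σ) ≤ 2 σ log p`, `mertens_log`) and use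
`ps_cos_sym`. -/
theorem rest_re (D : Data) (hPS : D.PS) : ∃ (k : ℕ) (C : ℝ), 0 ≤ C ∧ ∀ Z σ : ℝ, 1 ≤ Z → 0 < σ → σ * Z ≤ 1 →
    ∃ Λ₀ : ℝ, ∀ Λ t : ℝ, Λ₀ ≤ Λ → Z ≤ Λ →
    |(∑ p ∈ pr D Λ \ pr D Z, ((D.lam p ^ 2 - 1 : ℝ) : ℂ) * (p : ℂ) ^ (-(1 + 2 * σ + I * t : ℂ))).re| ≤
      C + k * Real.log (2 + |t|) := by
  obtain ⟨C₀, k₀, h₀⟩ := ps_cos_sym D hPS
  obtain ⟨⟨C₁, k₁, hC₁, h₁⟩, C₂, k₂, hC₂, h₂⟩ := hPS
  refine ⟨k₀ + k₁ + k₂, |C₀| + C₁ + C₂ + 20, by positivity, fun Z σ hZ hσ hσZ => ?_⟩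
  obtain ⟨Λ₀, hΛ₀⟩ := psum_tail D hσ
  refine ⟨Λ₀, fun Λ t hΛ hZΛ => ?_⟩
  have hσ1 : σ ≤ 1 := by nlinarith
  have a0 := h₀ Z t hZ
  have a1 := (h₁ (1 + 2 * σ + I * t) (by simpa using hσ) (by simp; linarith)).1
  have a2 := (h₂ (1 + 2 * σ + I * t) (by simpa using hσ) (by simp; linarith)).1
  have a3 := (abs_re_le_norm _).trans (hΛ₀ Λ t (fun p => D.lam p ^ 2) hΛ fun p hp => by
    have := Real.log_natCast_nonneg p
    rw [abs_of_nonneg (sq_nonneg _)]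
    nlinarith [mfm2_lam D hp])
  have a4 := (abs_re_le_norm _).trans (hΛ₀ Λ t (fun _ => 1) hΛ fun p hp => by
    have := Real.log_natCast_nonneg p
    rw [abs_one]
    nlinarith)
  have a5 : |(∑ p ∈ pr D Z, ((D.lam p ^ 2 - 1 : ℝ) : ℂ) *
      (p : ℂ) ^ (-(1 + 2 * σ + I * t : ℂ))).re -
      ∑ p ∈ pr D Z, (D.lam p ^ 2 - 1) * Real.cos (t * Real.log p) / p| ≤ 18 := by
    rw [re_sum, ← sum_sub_distrib]
    refine (abs_sum_le_sum_abs _ _).trans ((sum_le_sum (g := fun p : ℕ =>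
      6 * σ * (Real.log p / p)) fun p hp => ?_).trans ?_)
    · have hp' := (mem_pr.1 hp).1
      have h : (0 : ℝ) < p := by exact_mod_cast hp'.pos
      have b1 := Real.log_natCast_nonneg p
      have b2 : |Real.exp (-(2 * σ * Real.log p)) - 1| ≤ 2 * σ * Real.log p := by
        have := Real.add_one_le_exp (-(2 * σ * Real.log p))
        have := Real.exp_le_one_iff.2 (show -(2 * σ * Real.log p) ≤ 0 by
          rw [neg_nonpos]; positivity)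
        exact abs_le.2 ⟨by linarith, by nlinarith⟩
      have e : (D.lam p ^ 2 - 1) * (Real.exp (-(2 * σ * Real.log p)) / p *
          Real.cos (t * Real.log p)) - (D.lam p ^ 2 - 1) * Real.cos (t * Real.log p) / p =
          (D.lam p ^ 2 - 1) * (Real.exp (-(2 * σ * Real.log p)) - 1) *
            Real.cos (t * Real.log p) / p := by ring
      rw [re_ofReal_mul, mfm2_re hp', e, abs_div, abs_mul, abs_mul, abs_of_pos h, ← mul_div_assoc]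
      refine div_le_div_of_nonneg_right ?_ h.le
      calc _ ≤ 3 * (2 * σ * Real.log p) * 1 := by
            gcongr
            exacts [mfm2_lam' D hp', Real.abs_cos_le_one _]
        _ = _ := by ring
    · rw [← mul_sum]
      nlinarith [mertens_log D (show 0 ≤ Z by linarith)]
  have e1 : ∑ p ∈ pr D Λ, ((D.lam p ^ 2 - 1 : ℝ) : ℂ) * (p : ℂ) ^ (-(1 + 2 * σ + I * t : ℂ)) =
      ∑ p ∈ pr D Λ, ((D.lam p ^ 2 : ℝ) : ℂ) * (p : ℂ) ^ (-(1 + 2 * σ + I * t : ℂ)) -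
      ∑ p ∈ pr D Λ, ((1 : ℝ) : ℂ) * (p : ℂ) ^ (-(1 + 2 * σ + I * t : ℂ)) := by
    simp only [← sum_sub_distrib, ofReal_sub, sub_mul]
  have e2 : (1 + 2 * σ + I * t : ℂ).im = t := by simp
  have a6 : Real.log (1 + |t|) ≤ Real.log (2 + |t|) := by gcongr; norm_num
  have a7 := mul_le_mul_of_nonneg_left a6 (Nat.cast_nonneg (α := ℝ) k₁)
  have a8 := mul_le_mul_of_nonneg_left a6 (Nat.cast_nonneg (α := ℝ) k₂)
  have a9 := le_abs_self C₀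
  rw [e2] at a1 a2
  rw [sub_re] at a3 a4
  rw [sum_sdiff_eq_sub (pr_mono D hZΛ), e1, sub_re, sub_re]
  rw [abs_le] at a0 a1 a2 a3 a4 a5 ⊢
  rw [Nat.cast_add, Nat.cast_add]
  constructor <;> linarith [a0.1, a0.2, a1.1, a1.2, a2.1, a2.2, a3.1, a3.2, a4.1, a4.2, a5.1, a5.2]

/-- The same with the second bound of `PSdata`; the poles cancel; on `pr D Z` use `mertens_log`. -/
theorem rest_log (D : Data) (hPS : D.PS) : ∃ (k : ℕ) (C : ℝ), 0 ≤ C ∧ ∀ Z σ : ℝ, 1 ≤ Z → 0 < σ → σ * Z ≤ 1 →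
    ∃ Λ₀ : ℝ, ∀ Λ t : ℝ, Λ₀ ≤ Λ → Z ≤ Λ →
    ‖∑ p ∈ pr D Λ \ pr D Z, (((D.lam p ^ 2 - 1) * Real.log p : ℝ) : ℂ) *
      (p : ℂ) ^ (-(1 + 2 * σ + I * t : ℂ))‖ ≤ C * Z * (2 + |t|) ^ k := by
  obtain ⟨⟨C₁, k₁, hC₁, h₁⟩, C₂, k₂, hC₂, h₂⟩ := hPS
  refine ⟨k₁ + k₂, C₁ + C₂ + 11, by positivity, fun Z σ hZ hσ hσZ => ?_⟩
  obtain ⟨Λ₀, hΛ₀⟩ := psum_tail D hσ
  refine ⟨Λ₀, fun Λ t hΛ hZΛ => ?_⟩
  have hσ1 : σ ≤ 1 := by nlinarith
  have a1 := (h₁ (1 + 2 * σ + I * t) (by simpa using hσ) (by simp; linarith)).2.1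
  have a2 := (h₂ (1 + 2 * σ + I * t) (by simpa using hσ) (by simp; linarith)).2.1
  have a3 := hΛ₀ Λ t (fun p => D.lam p ^ 2 * Real.log p) hΛ fun p hp => by
    have := Real.log_natCast_nonneg p
    rw [abs_of_nonneg (by positivity)]
    nlinarith [mfm2_lam D hp]
  have a4 := hΛ₀ Λ t (fun p => 1 * Real.log p) hΛ fun p hp => by
    have := Real.log_natCast_nonneg p
    rw [abs_of_nonneg (by positivity)]
    nlinarith
  have a5 : ‖∑ p ∈ pr D Z, (((D.lam p ^ 2 - 1) * Real.log p : ℝ) : ℂ) *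
      (p : ℂ) ^ (-(1 + 2 * σ + I * t : ℂ))‖ ≤ 9 * Z := by
    refine (norm_sum_le _ _).trans ((sum_le_sum (g := fun p : ℕ => 3 * (Real.log p / p))
      fun p hp => ?_).trans ?_)
    · have hp' := (mem_pr.1 hp).1
      have b1 := Real.log_natCast_nonneg p
      have b2 := Real.exp_le_one_iff.2 (show -(2 * σ * Real.log p) ≤ 0 by
        rw [neg_nonpos]; positivity)
      rw [norm_mul, mfm2_norm hp', norm_real, Real.norm_eq_abs, abs_mul, abs_of_nonneg b1]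
      calc _ ≤ 3 * Real.log p * (1 / p) := by
            gcongr
            exact mfm2_lam' D hp'
        _ = _ := by ring
    · rw [← mul_sum]
      nlinarith [mertens_log D (show 0 ≤ Z by linarith)]
  have e1 : ∑ p ∈ pr D Λ, (((D.lam p ^ 2 - 1) * Real.log p : ℝ) : ℂ) *
      (p : ℂ) ^ (-(1 + 2 * σ + I * t : ℂ)) =
      ∑ p ∈ pr D Λ, ((D.lam p ^ 2 * Real.log p : ℝ) : ℂ) * (p : ℂ) ^ (-(1 + 2 * σ + I * t : ℂ)) -
      ∑ p ∈ pr D Λ, ((1 * Real.log p : ℝ) : ℂ) * (p : ℂ) ^ (-(1 + 2 * σ + I * t : ℂ)) := by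
    simp only [← sum_sub_distrib, ofReal_sub, sub_mul]
  have e2 : (1 + 2 * σ + I * t : ℂ).im = t := by simp
  have ht := abs_nonneg t
  have a6 : ∀ k ≤ k₁ + k₂, (1 + |t|) ^ k ≤ Z * (2 + |t|) ^ (k₁ + k₂) := fun k hk =>
    ((pow_le_pow_left₀ (by positivity) (by linarith) k).trans
      (pow_le_pow_right₀ (by linarith) hk)).trans (le_mul_of_one_le_left (by positivity) hZ)
  have a7 := mul_le_mul_of_nonneg_left (a6 k₁ (by omega)) hC₁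
  have a8 := mul_le_mul_of_nonneg_left (a6 k₂ (by omega)) hC₂
  have a9 : Z ≤ Z * (2 + |t|) ^ (k₁ + k₂) :=
    le_mul_of_one_le_right (by linarith) (one_le_pow₀ (by linarith))
  rw [e2] at a1 a2
  rw [sum_sdiff_eq_sub (pr_mono D hZΛ), e1]
  have key : ∀ a b c a' b' u : ℂ, ‖a - b - c‖ ≤
      ‖a' - u‖ + ‖b' - u‖ + ‖a' - a‖ + ‖b' - b‖ + ‖c‖ := fun a b c a' b' u => by
    have e : a - b - c = a' - u - (b' - u) - (a' - a) + (b' - b) - c := by ring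
    rw [e]
    exact (norm_sub_le _ _).trans (add_le_add_left ((norm_add_le _ _).trans (add_le_add_left
      ((norm_sub_le _ _).trans (add_le_add_left (norm_sub_le _ _) _)) _)) _)
  refine (key _ _ _ _ _ _).trans ((add_le_add (add_le_add (add_le_add (add_le_add a1 a2) a3) a4)
    a5).trans ?_)
  linarith

/-- The exponential of the main term. -/
def Es (D : Data) (S : Finset ℕ) (α : ℂ) : ℂ :=
  cexp (∑ p ∈ S, ((D.lam p ^ 2 - 1 : ℝ) : ℂ) * (p : ℂ) ^ (-(1 + 2 * α)))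

/-- The derivative of `t ↦ Es (σ + i t)` is `-2 i Es * (the sum of rest_log at 2 t)`; mean value
inequality on the segment from `0` to `t`. -/
theorem es_bd (D : Data) (hPS : D.PS) : ∃ (k : ℕ) (cl C : ℝ), 0 < cl ∧ 0 ≤ C ∧ ∀ Z σ : ℝ, 1 ≤ Z → 0 < σ →
    σ * Z ≤ 1 → ∃ Λ₀ : ℝ, ∀ Λ : ℝ, Λ₀ ≤ Λ → Z ≤ Λ → cl ≤ ‖Es D (pr D Λ \ pr D Z) σ‖ ∧ ∀ t : ℝ,
    ‖Es D (pr D Λ \ pr D Z) (σ + I * t)‖ ≤ C * (2 + |t|) ^ k ∧
    ‖Es D (pr D Λ \ pr D Z) (σ + I * t) - Es D (pr D Λ \ pr D Z) σ‖ ≤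
      C * |t| * Z * (2 + |t|) ^ k := by
  obtain ⟨k₁, C₁, hC₁, h₁⟩ := rest_re D hPS
  obtain ⟨k₂, C₂, hC₂, h₂⟩ := rest_log D hPS
  refine ⟨k₁ + k₂, Real.exp (-(C₁ + k₁ * Real.log 2)),
    Real.exp C₁ * 2 ^ k₁ * (1 + 2 * C₂ * 2 ^ k₂), Real.exp_pos _, by positivity,
    fun Z σ hZ hσ hσZ => ?_⟩
  obtain ⟨Λ₁, h₁⟩ := h₁ Z σ hZ hσ hσZ
  obtain ⟨Λ₂, h₂⟩ := h₂ Z σ hZ hσ hσZ
  refine ⟨max Λ₁ Λ₂, fun Λ hΛ hZΛ => ?_⟩
  replace h₁ := fun t => h₁ Λ t ((le_max_left _ _).trans hΛ) hZΛ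
  replace h₂ := fun t => h₂ Λ t ((le_max_right _ _).trans hΛ) hZΛ
  have hS : ∀ p ∈ pr D Λ \ pr D Z, p.Prime := fun p hp => (mem_pr.1 (mem_sdiff.1 hp).1).1
  generalize pr D Λ \ pr D Z = S at h₁ h₂ hS
  have e : ∀ t : ℝ, (1 + 2 * (σ + I * t) : ℂ) = 1 + 2 * σ + I * (2 * t : ℝ) := fun t => by
    push_cast
    ring
  have e0 : (σ : ℂ) = σ + I * (0 : ℝ) := by simp
  have b0 : ∀ (k : ℕ) (τ t : ℝ), |τ| ≤ |t| → (2 + |2 * τ|) ^ k ≤ 2 ^ k * (2 + |t|) ^ k := by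
    intro k τ t h
    rw [← mul_pow, abs_mul, abs_two]
    exact pow_le_pow_left₀ (by positivity) (by linarith) k
  have b1 : ∀ τ t : ℝ, |τ| ≤ |t| →
      ‖Es D S (σ + I * τ)‖ ≤ Real.exp C₁ * (2 ^ k₁ * (2 + |t|) ^ k₁) := by
    intro τ t h
    rw [Es, Complex.norm_exp, e]
    refine (Real.exp_le_exp.2 (abs_le.1 (h₁ (2 * τ))).2).trans ?_
    rw [Real.exp_add, Real.exp_nat_mul, Real.exp_log (by positivity)]
    exact mul_le_mul_of_nonneg_left (b0 k₁ τ t h) (Real.exp_pos _).le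
  have b2 : ∀ τ : ℝ, HasDerivAt (fun τ : ℝ => Es D S (σ + I * τ)) (Es D S (σ + I * τ) *
      (-(2 * I) * ∑ p ∈ S, (((D.lam p ^ 2 - 1) * Real.log p : ℝ) : ℂ) *
        (p : ℂ) ^ (-(1 + 2 * σ + I * (2 * τ : ℝ) : ℂ)))) τ := by
    intro τ
    rw [mul_sum]
    refine HasDerivAt.cexp (HasDerivAt.fun_sum fun p hp => ?_)
    have d1 : HasDerivAt (fun z : ℂ => -(1 + 2 * (σ + I * z))) (-(2 * I)) τ := by
      simpa using ((((hasDerivAt_id (τ : ℂ)).const_mul I).const_add (σ : ℂ)).const_mul 2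
        |>.const_add 1).fun_neg
    have d2 := ((d1.const_cpow (c := (p : ℂ))
      (Or.inl (Nat.cast_ne_zero.2 (hS p hp).ne_zero))).const_mul
        ((D.lam p ^ 2 - 1 : ℝ) : ℂ)).comp_ofReal
    refine d2.congr_deriv ?_
    rw [e, ← natCast_log, ofReal_mul (D.lam p ^ 2 - 1)]
    ring
  refine ⟨?_, fun t => ⟨(b1 t t le_rfl).trans ?_, ?_⟩⟩
  · have := (abs_le.1 (h₁ (2 * 0))).1
    rw [e0, Es, Complex.norm_exp, e]
    refine Real.exp_le_exp.2 (le_trans (le_of_eq ?_) this)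
    simp
  · have h1 : (1 : ℝ) ≤ (1 + 2 * C₂ * 2 ^ k₂) * (2 + |t|) ^ k₂ :=
      one_le_mul_of_one_le_of_one_le (le_add_of_nonneg_right (by positivity))
        (one_le_pow₀ (by linarith [abs_nonneg t]))
    refine (le_mul_of_one_le_right (by positivity) h1).trans_eq ?_
    ring
  · have h1 := (convex_closedBall (0 : ℝ) |t|).norm_image_sub_le_of_norm_hasDerivWithin_le
      (C := Real.exp C₁ * (2 ^ k₁ * (2 + |t|) ^ k₁) * (2 * (C₂ * Z * (2 ^ k₂ * (2 + |t|) ^ k₂))))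
      (fun τ _ => (b2 τ).hasDerivWithinAt) (fun τ hτ => by
        have h : |τ| ≤ |t| := by simpa using hτ
        rw [norm_mul, norm_mul]
        refine mul_le_mul (b1 τ t h) (mul_le_mul (by simp) ((h₂ _).trans ?_) (norm_nonneg _)
          zero_le_two) (by positivity) (by positivity)
        exact mul_le_mul_of_nonneg_left (b0 k₂ τ t h) (by positivity))
      (x := 0) (y := t) (by simp) (by simp)
    rw [← e0, sub_zero, Real.norm_eq_abs] at h1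
    have h2 : 0 ≤ Real.exp C₁ * 2 ^ k₁ * |t| * Z * (2 + |t|) ^ (k₁ + k₂) := by positivity
    refine h1.trans ((le_add_of_nonneg_left h2).trans_eq ?_)
    ring

end Pool.Agent.Lib.MP_03e5d0_nt
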