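import Pool.Agent.Lib.MP_03e5d0_nt.MFm1
import Pool.Agent.Lib.MP_03e5d0_nt.MFm2

set_option autoImplicit false

noncomputable section

namespace Pool.Agent.Lib.MP_03e5d0_nt

open Complex Finset MeasureTheory
open scoped NumberTheorySymbols Real ContDiff

/-! The unmollified factor of the first moment. -/

/-- The contribution of the primes in `S`. -/
def Om2 (D : Data) (S : Finset ℕ) (α : ℂ) : ℂ :=
  ∏ p ∈ S, e1 (dl1 p) fun u => lf (D.lam p) u ((p : ℂ) ^ (-(1 / 2 + α)))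

theorem mfm3_sq {p : ℕ} (hp : p.Prime) (α : ℂ) :
    (p : ℂ) ^ (-(1 + 2 * α)) = ((p : ℂ) ^ (-(1 / 2 + α))) ^ 2 := by
  rw [sq, ← cpow_add _ _ (Nat.cast_ne_zero.2 hp.ne_zero)]
  congr 1
  ring

theorem mfm3_div (D : Data) {S : Finset ℕ} (hS : ∀ p ∈ S, p.Prime ∧ ¬p ∣ D.q) (α : ℂ) :
    Om2 D S α / Es D S α = ∏ p ∈ S, (e1 (dl1 p) fun u => lf (D.lam p) u ((p : ℂ) ^ (-(1 / 2 + α)))) /
      cexp (((D.lam p ^ 2 - 1 : ℝ) : ℂ) * ((p : ℂ) ^ (-(1 / 2 + α))) ^ 2) := by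
  rw [Om2, Es, Complex.exp_sum, prod_div_distrib]
  congr 1
  exact prod_congr rfl fun p hp => by rw [mfm3_sq (hS p hp).1]

theorem mfm3_r {p : ℝ} (hp : 10000 ≤ p) : ∃ r : ℝ, r = p ^ (-3 / 8 : ℝ) ∧ 0 ≤ r ∧ r ≤ 1 / 10 ∧
    r ^ 4 = 1 / (p * √p) ∧ 1 / p * r ^ 2 ≤ 1 / (p * √p) := by
  have h0 : 0 < p := by linarith
  have hs : 1 ≤ √p := Real.one_le_sqrt.2 (by linarith)
  have h1 : 0 ≤ p ^ (-3 / 8 : ℝ) := Real.rpow_nonneg h0.le _
  have h4 : (p ^ (-3 / 8 : ℝ)) ^ 4 = 1 / (p * √p) := by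
    rw [← Real.rpow_natCast, ← Real.rpow_mul h0.le, Real.sqrt_eq_rpow, mul_comm p,
      ← Real.rpow_add_one h0.ne', one_div (p ^ _), ← Real.rpow_neg h0.le]
    norm_num
  have h5 : 1 / (p * √p) ≤ 1 / p := one_div_le_one_div_of_le h0 (by nlinarith)
  refine ⟨_, rfl, h1, ?_, h4, ?_⟩
  · rw [← pow_le_pow_iff_left₀ h1 (by norm_num) (by norm_num : 4 ≠ 0), h4]
    refine h5.trans ((one_div_le_one_div_of_le (by norm_num) hp).trans (by norm_num))
  · have h6 : (p ^ (-3 / 8 : ℝ)) ^ 2 ≤ 1 / √p := by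
      rw [← pow_le_pow_iff_left₀ (by positivity) (by positivity) (by norm_num : 2 ≠ 0), ← pow_mul,
        h4, div_pow, one_pow, Real.sq_sqrt h0.le]
      exact h5
    rw [← one_div_mul_one_div]
    exact mul_le_mul_of_nonneg_left h6 (by positivity)

theorem mfm3_loc : ∃ K : ℝ, 0 ≤ K ∧ ∀ (r l δ e : ℝ) (z : ℂ), r ≤ 1 / 10 → |l| ≤ 2 → 0 ≤ δ → δ ≤ 1 →
    ‖z‖ ≤ r → r ^ 4 ≤ e → δ * r ^ 2 ≤ e →
    ‖(e1 δ fun u => lf l u z) / cexp (((l ^ 2 - 1 : ℝ) : ℂ) * z ^ 2)‖ ≤ Real.exp (K * e) := by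
  obtain ⟨C, hC, H⟩ := pp_prod
  refine ⟨3 * (2 * C + 9), by positivity, fun r l δ e z hr hl h0 h1 hz h4 h2 => ?_⟩
  have hr0 : 0 ≤ r := (norm_nonneg _).trans hz
  have he : 0 ≤ e := le_trans (by positivity) h4
  have a1 := H r l δ z 0 hr hl h0 h1 hz (by simpa using hr0)
  have a2 : un l z 0 = ((l ^ 2 - 1 : ℝ) : ℂ) * z ^ 2 := by
    unfold un
    push_cast
    ring
  simp only [lf_zero, mul_one, a2] at a1
  set w : ℂ := ((l ^ 2 - 1 : ℝ) : ℂ) * z ^ 2 with hw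
  set F : ℂ := e1 δ fun u => lf l u z with hF
  have a3 : ‖w‖ ≤ 3 * r ^ 2 := by
    rw [hw, norm_mul, norm_pow, norm_real, Real.norm_eq_abs]
    refine mul_le_mul ?_ (pow_le_pow_left₀ (norm_nonneg _) hz 2) (by positivity) (by norm_num)
    have := abs_le.1 hl
    rw [abs_le]
    constructor <;> nlinarith
  have a4 : ‖w‖ ≤ 1 := by nlinarith
  have a5 : ‖w‖ ^ 2 ≤ 9 * e := by nlinarith [norm_nonneg w]
  have a6 : ‖F - cexp w‖ ≤ (2 * C + 9) * e := by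
    have b1 : F - cexp w = (F - 1 - w) - (cexp w - 1 - w) := by ring
    have b2 := norm_sub_le (F - 1 - w) (cexp w - 1 - w)
    have b3 := Complex.norm_exp_sub_one_sub_id_le a4
    have b4 : C * (r ^ 4 + δ * r ^ 2) ≤ C * (2 * e) :=
      mul_le_mul_of_nonneg_left (by linarith) hC
    rw [b1]
    linarith
  have a7 : ‖(cexp w)⁻¹‖ ≤ 3 := by
    rw [← Complex.exp_neg, Complex.norm_exp]
    have b1 : (-w).re ≤ 1 := (re_le_norm _).trans (by rwa [norm_neg])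
    exact (Real.exp_le_exp.2 b1).trans (by linarith [Real.exp_one_lt_d9])
  have a8 : F / cexp w = 1 + (cexp w)⁻¹ * (F - cexp w) := by
    have := Complex.exp_ne_zero w
    field_simp
    ring
  rw [a8]
  refine (norm_add_le _ _).trans (le_trans ?_ (Real.add_one_le_exp _))
  rw [norm_one, norm_mul, add_comm, mul_assoc]
  exact add_le_add (mul_le_mul a7 a6 (norm_nonneg _) (by norm_num)) le_rfl

/-- With `z = p ^ (-(1 / 2 + α))`, `r = p ^ (-3 / 8) ≤ 1 / 10`, `w = (lam ^ 2 - 1) z ^ 2`: by `pp_prod` with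
`z₂ = 0` each factor of `Om2 / Es` is `(1 + w + O(p^(-3/2))) exp (-w) = 1 + O(p^(-3/2))`; `ps_32`. -/
theorem Om2_div_le : ∃ C : ℝ, 0 ≤ C ∧ ∀ (D : Data) (S : Finset ℕ) (α : ℂ), (∀ p ∈ S, p.Prime ∧ ¬p ∣ D.q) →
    -1 / 8 ≤ α.re → ‖Om2 D S α / Es D S α‖ ≤ C := by
  obtain ⟨K, hK, H⟩ := mfm3_loc
  refine ⟨Real.exp (K * 3), (Real.exp_pos _).le, fun D S α hS hα => ?_⟩
  rw [mfm3_div D hS, norm_prod]
  refine (prod_le_prod (g := fun p : ℕ => Real.exp (K * (1 / (p * √p)))) (fun _ _ => norm_nonneg _)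
    fun p hp => ?_).trans ?_
  · obtain ⟨h1, h2⟩ := hS p hp
    have h3 : (10000 : ℝ) ≤ p := by exact_mod_cast D.big h1 h2
    obtain ⟨r, e, r0, r1, r4, r2⟩ := mfm3_r h3
    obtain ⟨d0, d1⟩ := dl_dl1 p h1
    refine H r _ _ _ _ r1 (D.lam_le p h1) d0 (d1.trans ?_) ?_ r4.le
      ((mul_le_mul_of_nonneg_right d1 (sq_nonneg _)).trans r2)
    · rw [div_le_one (by linarith)]
      linarith
    · rw [norm_natCast_cpow_of_pos h1.pos, e]
      refine Real.rpow_le_rpow_of_exponent_le (by linarith) ?_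
      simp only [neg_re, add_re, one_div, inv_re, re_ofNat, normSq_ofNat]
      linarith
  · rw [← Real.exp_sum, ← mul_sum]
    exact Real.exp_le_exp.2 (mul_le_mul_of_nonneg_left (ps_32 S) hK)

theorem Om2_div_differentiableOn (D : Data) {S : Finset ℕ} (hS : ∀ p ∈ S, p.Prime ∧ ¬p ∣ D.q) :
    DifferentiableOn ℂ (fun α => Om2 D S α / Es D S α) {α | -1 / 4 < α.re} := by
  refine DifferentiableOn.div ?_ ?_ fun α _ => Complex.exp_ne_zero _
  · refine DifferentiableOn.fun_finsetProd fun p hp => ?_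
    have key : ∀ u : ℝ, (u = 0 ∨ u = 1 ∨ u = -1) → DifferentiableOn ℂ
        (fun α : ℂ => lf (D.lam p) u ((p : ℂ) ^ (-(1 / 2 + α)))) {α | -1 / 4 < α.re} := by
      intro u hu
      have h1 := LP_differentiableOn (D := D) (x := fun _ => u) (P := {p}) (fun _ => hu)
        fun p' hp' => by rw [mem_singleton.1 hp']; exact hS p hp
      have h2 := h1.comp (f := fun α : ℂ => 1 / 2 + α) (s := {α | -1 / 4 < α.re})
        (by fun_prop) fun α hα => by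
          have hα' : -1 / 4 < α.re := hα
          simp only [Set.mem_ofPred_eq, add_re, one_div, inv_re, re_ofNat, normSq_ofNat]
          linarith
      refine h2.congr fun α _ => ?_
      simp only [Function.comp, LP, prod_singleton]
    unfold e1
    exact ((key 0 (by simp)).const_smul _).add
      (((key 1 (by simp)).add (key (-1) (by simp))).const_smul _)
  · refine Differentiable.differentiableOn (Differentiable.cexp ?_)
    refine Differentiable.fun_sum fun p hp => Differentiable.const_mul ?_ _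
    exact Differentiable.const_cpow (by fun_prop) (Or.inl (Nat.cast_ne_zero.2 (hS p hp).1.ne_zero))

/-- `lf_real`, and `pp_abs` with `c = 0`, `z₂ = 0`: for real `z`, `mn l 0 z 0 = (l ^ 2 - 1) z ^ 2`. -/
theorem Om2_real : ∃ cl : ℝ, 0 < cl ∧ ∀ (D : Data) (S : Finset ℕ) (σ : ℝ), (∀ p ∈ S, p.Prime ∧ ¬p ∣ D.q) →
    0 ≤ σ → ∃ H : ℝ, Om2 D S σ = H ∧ cl * ‖Es D S σ‖ ≤ H := by
  obtain ⟨C, hC, H⟩ := pp_abs
  refine ⟨Real.exp (-(C * 3)), Real.exp_pos _, fun D S σ hS hσ => ?_⟩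
  set z : ℕ → ℝ := fun p => (p : ℝ) ^ (-(1 / 2 + σ)) with hz
  set h : ℕ → ℝ := fun p => e1 (dl1 p) fun u => ‖lf (D.lam p) u (z p)‖ with hh
  have hzc : ∀ p : ℕ, (p : ℂ) ^ (-(1 / 2 + (σ : ℂ))) = (z p : ℂ) := by
    intro p
    rw [hz, ofReal_cpow (Nat.cast_nonneg p)]
    push_cast
    rfl
  have key : ∀ p ∈ S, (e1 (dl1 p) fun u => lf (D.lam p) u (z p)) = h p ∧ 0 < h p ∧
      (D.lam p ^ 2 - 1) * z p ^ 2 - C * (1 / (p * √p)) ≤ Real.log (h p) := by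
    intro p hp
    obtain ⟨h1, h2⟩ := hS p hp
    have h3 : (10000 : ℝ) ≤ p := by exact_mod_cast D.big h1 h2
    obtain ⟨d0, d1⟩ := dl_dl1 p h1
    have hs : 100 ≤ √(p : ℝ) := Real.le_sqrt_of_sq_le (by linarith)
    have z0 : 0 ≤ z p := Real.rpow_nonneg (Nat.cast_nonneg p) _
    have z1 : z p ≤ 1 / √(p : ℝ) := by
      rw [Real.sqrt_eq_rpow, one_div ((p : ℝ) ^ _), ← Real.rpow_neg (Nat.cast_nonneg p)]
      exact Real.rpow_le_rpow_of_exponent_le (by linarith) (by linarith)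
    have z2 : |z p| ≤ 1 / 10 := by
      rw [abs_of_nonneg z0]
      exact z1.trans (one_div_le_one_div_of_le (by norm_num) (by linarith))
    obtain ⟨a1, a2⟩ := H p (D.lam p) (dl1 p) 0 (z p) 0 h3 (D.lam_le p h1) d0 d1 (by norm_num)
      (by
        rw [norm_real, Real.norm_of_nonneg z0]
        exact z1.trans (div_le_div_of_nonneg_right (by norm_num) (by positivity)))
      (by rw [norm_zero]; positivity)
    simp only [lf_zero, norm_one, mul_one, zero_mul, Real.exp_zero, zero_div] at a1 a2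
    have a3 : mn (D.lam p) 0 (z p) 0 = (D.lam p ^ 2 - 1) * z p ^ 2 := by
      simp only [mn, ofReal_re, zero_re, add_zero, ne_eq, OfNat.ofNat_ne_zero, not_false_eq_true,
        zero_pow, ← ofReal_pow]
      ring
    refine ⟨?_, a1, ?_⟩
    · simp only [hh, e1]
      rw [lf_real (u := 0) (D.lam_le p h1) (by simp) z2, lf_real (u := 1) (D.lam_le p h1) (by simp) z2,
        lf_real (u := -1) (D.lam_le p h1) (by simp) z2]
      simp [mul_add]
    · rw [a3] at a2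
      have := (abs_le.1 a2).1
      rw [mul_one_div]
      linarith
  refine ⟨∏ p ∈ S, h p, ?_, ?_⟩
  · rw [Om2, ofReal_prod]
    exact prod_congr rfl fun p hp => by rw [hzc, (key p hp).1]
  · have e1 : ‖Es D S σ‖ = Real.exp (∑ p ∈ S, (D.lam p ^ 2 - 1) * z p ^ 2) := by
      rw [Es, Complex.norm_exp, re_sum]
      congr 1
      refine sum_congr rfl fun p hp => ?_
      rw [mfm3_sq (hS p hp).1, hzc, ← ofReal_pow, ← ofReal_mul, ofReal_re]
    have e2 : ∏ p ∈ S, h p = Real.exp (∑ p ∈ S, Real.log (h p)) := by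
      rw [Real.exp_sum]
      exact prod_congr rfl fun p hp => (Real.exp_log (key p hp).2.1).symm
    rw [e1, e2, ← Real.exp_add, Real.exp_le_exp]
    have e3 := sum_le_sum fun p hp => (key p hp).2.2
    rw [sum_sub_distrib, ← mul_sum] at e3
    have e4 := mul_le_mul_of_nonneg_left (ps_32 S) hC
    linarith

/-- `Om2 = Es * (Om2 / Es)`, `es_bd`, `vert_diff` with `r = 1 / 8`. -/
theorem om2 (D : Data) (hPS : D.PS) : ∃ (k : ℕ) (cl C : ℝ), 0 < cl ∧ 0 ≤ C ∧ ∀ Z σ : ℝ, 1 ≤ Z → 0 < σ →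
    σ * Z ≤ 1 → ∃ Λ₀ : ℝ, ∀ Λ : ℝ, Λ₀ ≤ Λ → Z ≤ Λ →
    (∃ H : ℝ, Om2 D (pr D Λ \ pr D Z) σ = H ∧ cl ≤ H ∧ H ≤ C) ∧ ∀ t : ℝ,
    ‖Om2 D (pr D Λ \ pr D Z) (σ + I * t)‖ ≤ C * (2 + |t|) ^ k ∧
    ‖Om2 D (pr D Λ \ pr D Z) (σ + I * t) - Om2 D (pr D Λ \ pr D Z) σ‖ ≤
      C * |t| * Z * (2 + |t|) ^ k := by
  obtain ⟨C₁, hC₁, H₁⟩ := Om2_div_le
  obtain ⟨c₂, hc₂, H₂⟩ := Om2_real
  obtain ⟨k, cl, C, hcl, hC, H⟩ := es_bd D hPS
  refine ⟨k, c₂ * cl, C * C₁ * (2 ^ k + 9), by positivity, by positivity, fun Z σ hZ hσ hσZ => ?_⟩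
  obtain ⟨Λ₀, H⟩ := H Z σ hZ hσ hσZ
  refine ⟨Λ₀, fun Λ h0 h1 => ?_⟩
  obtain ⟨a1, a2⟩ := H Λ h0 h1
  set S := pr D Λ \ pr D Z with hS'
  have hS : ∀ p ∈ S, p.Prime ∧ ¬p ∣ D.q := fun p hp =>
    have := mem_pr.1 (mem_sdiff.1 hp).1
    ⟨this.1, this.2.1⟩
  set R : ℂ → ℂ := fun α => Om2 D S α / Es D S α with hR
  have hfac : ∀ α, Om2 D S α = Es D S α * R α := fun α =>
    (mul_div_cancel₀ _ (Complex.exp_ne_zero _)).symm
  have hRt : ∀ t : ℝ, ‖R (σ + I * t)‖ ≤ C₁ := fun t => H₁ D S _ hS (by simp; linarith)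
  have hE0 : ‖Es D S σ‖ ≤ C * 2 ^ k := by simpa using (a2 0).1
  have hCC : 0 ≤ C * C₁ := mul_nonneg hC hC₁
  have h2k : (0 : ℝ) < 2 ^ k := by positivity
  refine ⟨?_, fun t => ⟨?_, ?_⟩⟩
  · obtain ⟨H', b1, b2⟩ := H₂ D S σ hS hσ.le
    refine ⟨H', b1, (mul_le_mul_of_nonneg_left a1 hc₂.le).trans b2, ?_⟩
    have b3 : H' ≤ ‖Om2 D S σ‖ := by
      rw [b1, norm_real]
      exact le_abs_self _
    have b4 : ‖R σ‖ ≤ C₁ := by simpa using hRt 0
    rw [hfac, norm_mul] at b3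
    have b5 := mul_le_mul hE0 b4 (norm_nonneg _) (by positivity)
    nlinarith
  · rw [hfac, norm_mul]
    have b5 := mul_le_mul (a2 t).1 (hRt t) (norm_nonneg _) (by positivity)
    have b6 : (0 : ℝ) ≤ (2 + |t|) ^ k := by positivity
    nlinarith [mul_nonneg hCC b6, mul_nonneg (mul_nonneg hCC b6) h2k.le]
  · have b1 : ‖R (σ + I * t) - R σ‖ ≤ C₁ / (1 / 8) * |t| :=
      vert_diff (by norm_num) ((Om2_div_differentiableOn D hS).mono fun α hα => by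
        have hα' : σ - 2 * (1 / 8) < α.re := hα
        simp only [Set.mem_ofPred_eq]
        linarith) fun α hα _ => H₁ D S α hS (by linarith [(abs_le.1 hα).1])
    have b2 : Om2 D S (σ + I * t) - Om2 D S σ = (Es D S (σ + I * t) - Es D S σ) * R (σ + I * t) +
        Es D S σ * (R (σ + I * t) - R σ) := by
      rw [hfac, hfac]
      ring
    rw [b2]
    refine (norm_add_le _ _).trans ?_
    rw [norm_mul, norm_mul]
    have b3 := mul_le_mul (a2 t).2 (hRt t) (norm_nonneg _) (by positivity)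
    have b4 := mul_le_mul hE0 b1 (norm_nonneg _) (by positivity)
    have b5 : (2 : ℝ) ^ k ≤ Z * (2 + |t|) ^ k :=
      (pow_le_pow_left₀ (by norm_num) (by linarith [abs_nonneg t]) k).trans
        (le_mul_of_one_le_left (by positivity) hZ)
    have b6 := mul_le_mul_of_nonneg_left b5 (mul_nonneg hCC (abs_nonneg t))
    have b7 : 0 ≤ C * C₁ * |t| * (Z * (2 + |t|) ^ k) * 2 ^ k := by positivity
    nlinarith

end Pool.Agent.Lib.MP_03e5d0_nt
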