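import Pool.Agent.Lib.MP_03e5d0_nt.MBl2

set_option autoImplicit false

noncomputable section

namespace Pool.Agent.Lib.MP_03e5d0_nt

open Complex Finset MeasureTheory
open scoped NumberTheorySymbols Real ContDiff

/-! The kernel bound. -/

theorem mker_mem {D : Data} {Λ : ℝ} {p : ℕ} (h : p ∈ pr D Λ) : p.Prime ∧ ¬p ∣ D.q :=
  (mem_filter.1 h).2

theorem mker_big {D : Data} {Λ : ℝ} {p : ℕ} (h : p ∈ pr D Λ) : (10000 : ℝ) ≤ p := by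
  obtain ⟨h1, h2⟩ := mker_mem h
  exact_mod_cast not_lt.1 fun hlt => h2 (D.small p h1 hlt)

theorem mker_union (D : Data) {Z : ℝ} (hZ : 0 ≤ Z) {a J : ℕ} (hJ : Z ≤ 2 ^ J) (h : a ≤ J) :
    (Ico a J).biUnion (blk D Z) = pr D (Z / 2 ^ a) := by
  rw [biUnion_blk D hZ h, pr_eq_empty D ((div_le_one (by positivity)).2 hJ), sdiff_empty]

/-- The probabilistic part. -/
theorem mker_prob : ∃ C C' : ℝ, 0 ≤ C ∧ ∀ (D : Data) (c : ℕ) (Z Λ : ℝ) (a b J : ℕ)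
    (δ : ℕ → ℝ) (z₁ z₂ : ℕ → ℂ), 1 ≤ c → 0 ≤ Z → Z ≤ 2 ^ J → a ≤ b → b ≤ J → Z / 2 ^ a ≤ Λ → Dl δ →
    (∀ p : ℕ, 0 < p → ‖z₁ p‖ ≤ 3 / √p ∧ ‖z₂ p‖ ≤ 3 / √p) →
    ‖Ex (pr D Λ) δ fun x => ((VV D c Z a b x ^ 8 * VV D c Z b J x ^ 6 : ℝ) : ℂ) *
        ((∏ p ∈ pr D Λ, lf (D.lam p) (x p) (z₁ p)) * ∏ p ∈ pr D Λ, lf (D.lam p) (x p) (z₂ p))‖ ≤
      C * Real.exp (∑ p ∈ pr D (Z / 2 ^ a) \ pr D (Z / 2 ^ b),
          mn (D.lam p) (-(8 / 3 : ℝ) / √p) (z₁ p) (z₂ p) +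
        ∑ p ∈ pr D (Z / 2 ^ b), mn (D.lam p) (-(2 : ℝ) / √p) (z₁ p) (z₂ p) +
        ∑ p ∈ pr D Λ \ pr D (Z / 2 ^ a), (un (D.lam p) (z₁ p) (z₂ p)).re + C') := by
  obtain ⟨C, hC, H⟩ := blks_upper
  obtain ⟨C₂, hC₂, H₂⟩ := pp_prod_le
  refine ⟨C, C₂ * 3, hC, fun D c Z Λ a b J δ z₁ z₂ hc hZ hJ hab hbJ hΛ hδ hz => ?_⟩
  have hS : pr D (Z / 2 ^ a) ⊆ pr D Λ := pr_mono D hΛ
  have hU := mker_union D hZ hJ (hab.trans hbJ)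
  have hblk : ∀ j ∈ Ico a J, blk D Z j ⊆ pr D (Z / 2 ^ a) := fun j hj =>
    hU ▸ subset_biUnion_of_mem _ hj
  obtain ⟨e, he⟩ : ∃ e : ℕ → ℕ, e = fun j => if j < b then 8 else 6 := ⟨_, rfl⟩
  have hV : ∀ x, VV D c Z a b x ^ 8 * VV D c Z b J x ^ 6 = ∏ j ∈ Ico a J, vv D c Z j x ^ e j := by
    intro x
    rw [← prod_Ico_consecutive _ hab hbJ, VV, VV, ← prod_pow, ← prod_pow]
    congr 1
    · exact prod_congr rfl fun j hj => by rw [he]; simp [(mem_Ico.1 hj).2]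
    · exact prod_congr rfl fun j hj => by rw [he]; simp [not_lt.2 (mem_Ico.1 hj).1]
  obtain ⟨f, hf⟩ : ∃ f : (ℕ → ℝ) → ℂ, f = fun x => ((∏ j ∈ Ico a J, vv D c Z j x ^ e j : ℝ) : ℂ) *
    ∏ p ∈ pr D (Z / 2 ^ a), (lf (D.lam p) (x p) (z₁ p) * lf (D.lam p) (x p) (z₂ p)) := ⟨_, rfl⟩
  obtain ⟨g, hg⟩ : ∃ g : (ℕ → ℝ) → ℂ, g = fun x =>
    ∏ p ∈ pr D Λ \ pr D (Z / 2 ^ a), (lf (D.lam p) (x p) (z₁ p) * lf (D.lam p) (x p) (z₂ p)) :=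
    ⟨_, rfl⟩
  have e1 : (fun x => ((VV D c Z a b x ^ 8 * VV D c Z b J x ^ 6 : ℝ) : ℂ) *
        ((∏ p ∈ pr D Λ, lf (D.lam p) (x p) (z₁ p)) * ∏ p ∈ pr D Λ, lf (D.lam p) (x p) (z₂ p))) =
      fun x => f x * g x := by
    funext x
    rw [hV, hf, hg, ← prod_mul_distrib, ← prod_sdiff hS]
    ring
  have hdf : DependsOn f (pr D (Z / 2 ^ a) : Set ℕ) := by
    intro x y hxy
    rw [hf]
    have h1 : ∏ j ∈ Ico a J, vv D c Z j x ^ e j = ∏ j ∈ Ico a J, vv D c Z j y ^ e j :=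
      prod_congr rfl fun j hj => by
        rw [vv_depends D c Z j fun p hp => hxy p (hblk j hj hp)]
    simp only [h1]
    congr 1
    exact prod_congr rfl fun p hp => by rw [hxy p hp]
  have hdg : DependsOn g (pr D (Z / 2 ^ a) : Set ℕ)ᶜ := by
    intro x y hxy
    rw [hg]
    exact prod_congr rfl fun p hp => by rw [hxy p (mem_sdiff.1 hp).2]
  have hnf : (fun x => ‖f x‖) =
      fun x => ∏ j ∈ Ico a J, vv D c Z j x ^ e j * GG D (blk D Z j) z₁ z₂ x := by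
    funext x
    rw [hf, prod_mul_distrib, norm_mul, Complex.norm_real, Real.norm_of_nonneg
      (prod_nonneg fun j _ => pow_nonneg (vv_pos D c Z j x).le _), ← hU,
      prod_biUnion (blk_disjoint D hZ _), norm_prod]
    congr 1
    refine prod_congr rfl fun j _ => ?_
    simp only [GG, norm_prod, norm_mul]
  have b1 := (norm_Ex_le (fun p hp => (mker_mem hp).1) hδ f).trans (hnf ▸ H D (pr D Λ) δ c Z
    (Ico a J) e z₁ z₂ hc hZ (fun j hj => (hblk j hj).trans hS) (fun p hp => mker_mem hp) hδ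
    (fun j => by rw [he]; dsimp only; split_ifs <;> norm_num)
    fun j hj p hp => hz p (mker_mem (hblk j hj hp)).1.pos)
  have e2 : ∑ j ∈ Ico a J, ∑ p ∈ blk D Z j, mn (D.lam p) (-(e j / 3 : ℝ) / √p) (z₁ p) (z₂ p) =
      ∑ p ∈ pr D (Z / 2 ^ a) \ pr D (Z / 2 ^ b), mn (D.lam p) (-(8 / 3 : ℝ) / √p) (z₁ p) (z₂ p) +
        ∑ p ∈ pr D (Z / 2 ^ b), mn (D.lam p) (-(2 : ℝ) / √p) (z₁ p) (z₂ p) := by
    rw [← sum_Ico_consecutive _ hab hbJ, ← biUnion_blk D hZ hab, ← mker_union D hZ hJ hbJ,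
      sum_biUnion (blk_disjoint D hZ _), sum_biUnion (blk_disjoint D hZ _)]
    congr 1
    · refine sum_congr rfl fun j hj => ?_
      have : ((e j : ℕ) : ℝ) / 3 = 8 / 3 := by rw [he]; simp [(mem_Ico.1 hj).2]
      rw [this]
    · refine sum_congr rfl fun j hj => ?_
      have : ((e j : ℕ) : ℝ) / 3 = 2 := by rw [he]; simp [not_lt.2 (mem_Ico.1 hj).1]; norm_num
      rw [this]
  have b2 : ‖Ex (pr D Λ) δ g‖ ≤ Real.exp (∑ p ∈ pr D Λ \ pr D (Z / 2 ^ a),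
      (un (D.lam p) (z₁ p) (z₂ p)).re + C₂ * 3) := by
    rw [hg, Ex_prod sdiff_subset fun p u => lf (D.lam p) u (z₁ p) * lf (D.lam p) u (z₂ p), norm_prod]
    refine (prod_le_prod (fun p _ => norm_nonneg _) fun p hp => ?_ :
      _ ≤ ∏ p ∈ pr D Λ \ pr D (Z / 2 ^ a),
        Real.exp ((un (D.lam p) (z₁ p) (z₂ p)).re + C₂ / (p * √p))).trans ?_
    · have hp' := (mem_sdiff.1 hp).1
      have h1 := (mker_mem hp').1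
      exact H₂ p _ _ _ _ (mker_big hp') (D.lam_le p h1) (hδ p h1).1 (hδ p h1).2 (hz p h1.pos).1
        (hz p h1.pos).2
    · rw [← Real.exp_sum, sum_add_distrib]
      refine Real.exp_le_exp.2 (add_le_add le_rfl ?_)
      refine le_trans (le_of_eq ?_) (mul_le_mul_of_nonneg_left
        (ps_32 (pr D Λ \ pr D (Z / 2 ^ a))) hC₂)
      rw [mul_sum]
      exact sum_congr rfl fun p _ => by ring
  rw [e1, Ex_indep hdf hdg, norm_mul, add_assoc _ _ (C₂ * 3), Real.exp_add, ← mul_assoc, ← e2]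
  exact mul_le_mul b1 b2 (norm_nonneg _) (by positivity)

theorem mker_log1 (t : ℝ) : Real.log (2 + |2 * t|) ≤ 2 * Real.log (2 + |t|) := by
  have h := abs_nonneg t
  have e : 2 * Real.log (2 + |t|) = Real.log ((2 + |t|) ^ 2) := by rw [Real.log_pow]; norm_num
  rw [e, abs_mul, abs_two]
  exact Real.log_le_log (by positivity) (by nlinarith)

theorem mker_log2 (s t : ℝ) : Real.log (2 + |s - t|) ≤ Real.log (2 + |s|) + Real.log (2 + |t|) := by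
  have h := abs_nonneg t
  have h' := abs_nonneg s
  rw [← Real.log_mul (by positivity) (by positivity)]
  exact Real.log_le_log (by positivity) (by nlinarith [abs_sub s t])

/-- Split `pr D Λ` into `S = pr D (Z / 2 ^ a)`, the union of the blocks `a ≤ j < J` (`biUnion_blk`,
`pr_eq_empty`), and the rest. `Ex_indep`; on the rest `Ex_prod` and `pp_prod_le`; on `S` take norms
(`norm_Ex_le`) and use `blks_upper` with `e j = if j < b then 8 else 6`. The exponent is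
`∑_{S} (mn - re un) + ∑_{pr D Λ} re un + O(1)`; `mn_sub_un` with `θ = 8 / 3` and `θ = 2`, `ps_sq`, `ps_min`,
`ly_div_le`, `un_re`, `ps_cos_sym`, `ps_cos_sq`. -/
theorem ker (D : Data) (hPS : D.PS) : ∃ (k : ℕ) (C : ℝ), 0 ≤ C ∧ ∀ (c : ℕ) (Z Λ : ℝ) (a b J : ℕ)
    (δ : ℕ → ℝ) (t₁ t₂ : ℝ), 1 ≤ c → 0 ≤ Z → Z ≤ 2 ^ J → a ≤ b → b ≤ J → 1 ≤ Λ → Z / 2 ^ a ≤ Λ → Dl δ →
    ‖Ex (pr D Λ) δ fun x => ((VV D c Z a b x ^ 8 * VV D c Z b J x ^ 6 : ℝ) : ℂ) *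
        (LP D (pr D Λ) x (1 / 2 + I * t₁) * LP D (pr D Λ) x (1 / 2 - I * t₂))‖ ≤
      C * (2 : ℝ) ^ (2 * ((b : ℝ) - a) / 9) / ly (Z / 2 ^ a) ^ 2 *
        ((1 + |t₁| * ly (Z / 2 ^ a)) * (1 + |t₂| * ly (Z / 2 ^ a)) * (2 + |t₁|) * (2 + |t₂|)) ^ k *
        kr Λ (t₁ - t₂) := by
  obtain ⟨C₀, C₀', hC₀, H₀⟩ := mker_prob
  obtain ⟨C₁, hC₁, H₁⟩ := mn_sub_un
  obtain ⟨C₂, H₂⟩ := ps_sq D hPS
  obtain ⟨C₃, H₃⟩ := ps_min D hPS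
  obtain ⟨C₄, k₄, H₄⟩ := ps_cos_sym D hPS
  obtain ⟨C₅, k₅, H₅⟩ := ps_cos_sq D hPS
  refine ⟨⌈C₁⌉₊ + 2 * k₄ + k₅, C₀ * Real.exp (C₀' + 22 / 9 * C₂ + 2 * (C₁ * C₃) + 2 * C₄ + C₅),
    by positivity, fun c Z Λ a b J δ t₁ t₂ hc hZ hJ hab hbJ hΛ1 hΛ hδ => ?_⟩
  obtain ⟨z₁, hz₁⟩ : ∃ z₁ : ℕ → ℂ, z₁ = fun p : ℕ => (p : ℂ) ^ (-(1 / 2 + I * t₁)) := ⟨_, rfl⟩
  obtain ⟨z₂, hz₂⟩ : ∃ z₂ : ℕ → ℂ, z₂ = fun p : ℕ => (p : ℂ) ^ (-(1 / 2 - I * t₂)) := ⟨_, rfl⟩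
  have h0 := H₀ D c Z Λ a b J δ z₁ z₂ hc hZ hJ hab hbJ hΛ hδ fun p hp => by
    constructor
    · rw [hz₁]
      exact norm_cpow_le hp (by simp)
    · rw [hz₂]
      simp only [sub_eq_add_neg]
      exact norm_cpow_le hp (by simp)
  have e0 : ∀ x, LP D (pr D Λ) x (1 / 2 + I * t₁) * LP D (pr D Λ) x (1 / 2 - I * t₂) =
      (∏ p ∈ pr D Λ, lf (D.lam p) (x p) (z₁ p)) * ∏ p ∈ pr D Λ, lf (D.lam p) (x p) (z₂ p) := by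
    intro x
    rw [hz₁, hz₂]
    rfl
  simp only [e0]
  refine h0.trans ?_
  have hS : pr D (Z / 2 ^ a) ⊆ pr D Λ := pr_mono D hΛ
  have hS' : pr D (Z / 2 ^ b) ⊆ pr D (Z / 2 ^ a) := pr_mono D
    (div_le_div_of_nonneg_left hZ (by positivity) (pow_le_pow_right₀ one_le_two hab))
  obtain ⟨u, hu⟩ : ∃ u : ℕ → ℝ, u = fun p => (un (D.lam p) (z₁ p) (z₂ p)).re := ⟨_, rfl⟩
  obtain ⟨q, hq⟩ : ∃ q : ℕ → ℝ, q = fun p : ℕ => D.lam p ^ 2 / p := ⟨_, rfl⟩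
  obtain ⟨m₁, hm₁⟩ : ∃ m : ℕ → ℝ, m = fun p : ℕ => min 1 (|t₁| * Real.log p) / p := ⟨_, rfl⟩
  obtain ⟨m₂, hm₂⟩ : ∃ m : ℕ → ℝ, m = fun p : ℕ => min 1 (|t₂| * Real.log p) / p := ⟨_, rfl⟩
  have hmn : ∀ θ : ℝ, |θ| ≤ 4 → ∀ T ⊆ pr D Λ, ∑ p ∈ T, mn (D.lam p) (-θ / √p) (z₁ p) (z₂ p) ≤
      ∑ p ∈ T, u p + ((2 - θ) ^ 2 / 2 - 2) * ∑ p ∈ T, q p +
        C₁ * (∑ p ∈ T, m₁ p + ∑ p ∈ T, m₂ p) := by
    intro θ hθ T hT
    rw [← sum_add_distrib, mul_sum, mul_sum, ← sum_add_distrib, ← sum_add_distrib]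
    refine sum_le_sum fun p hp => ?_
    have h1 := (mker_mem (hT hp)).1
    have h2 := H₁ p (D.lam p) θ t₁ t₂ h1.pos (D.lam_le p h1) hθ
    rw [hu, hq, hm₁, hm₂, hz₁, hz₂]
    have h3 : D.lam p ^ 2 * ((2 - θ) ^ 2 / 2 - 2) / p =
        ((2 - θ) ^ 2 / 2 - 2) * (D.lam p ^ 2 / p) := by ring
    dsimp only
    linarith
  have a1 := hmn (8 / 3) (by rw [abs_of_pos] <;> norm_num) _
    ((sdiff_subset (t := pr D (Z / 2 ^ b))).trans hS)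
  have a2 := hmn 2 (by rw [abs_of_pos] <;> norm_num) _ (hS'.trans hS)
  have s1 := sum_sdiff (f := u) hS'
  have s2 := sum_sdiff (f := q) hS'
  have s3 := sum_sdiff (f := m₁) hS'
  have s4 := sum_sdiff (f := m₂) hS'
  have s5 := sum_sdiff (f := u) hS
  have q1 := abs_le.1 (H₂ (Z / 2 ^ a))
  have q2 := abs_le.1 (H₂ (Z / 2 ^ b))
  have q3 := H₃ (Z / 2 ^ a) _ (abs_nonneg t₁)
  have q4 := H₃ (Z / 2 ^ a) _ (abs_nonneg t₂)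
  have q5 := (abs_le.1 (H₄ Λ (2 * t₁) hΛ1)).2
  have q6 := (abs_le.1 (H₄ Λ (2 * t₂) hΛ1)).2
  have q7 := H₅ Λ (t₁ - t₂) hΛ1
  have s6 : ∑ p ∈ pr D Λ, u p =
      ∑ p ∈ pr D Λ, (D.lam p ^ 2 - 1) * Real.cos (2 * t₁ * Real.log p) / p +
        ∑ p ∈ pr D Λ, (D.lam p ^ 2 - 1) * Real.cos (2 * t₂ * Real.log p) / p +
        ∑ p ∈ pr D Λ, D.lam p ^ 2 * Real.cos ((t₁ - t₂) * Real.log p) / p := by
    rw [← sum_add_distrib, ← sum_add_distrib]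
    refine sum_congr rfl fun p hp => ?_
    rw [hu, hz₁, hz₂]
    exact un_re p _ _ _ (mker_mem hp).1.pos
  have hY : ∀ Λ : ℝ, 1 ≤ ly Λ := fun Λ => le_max_left _ _
  have hYa := hY (Z / 2 ^ a)
  have hYb := hY (Z / 2 ^ b)
  have l1 : Real.log (ly (Z / 2 ^ a)) ≤ ((b : ℝ) - a) * Real.log 2 + Real.log (ly (Z / 2 ^ b)) := by
    have h := Real.log_le_log (by linarith) (ly_div_le hZ hab)
    rwa [Real.log_mul (by positivity) (by linarith), Real.log_pow, Nat.cast_sub hab] at h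
  have n1 := abs_nonneg t₁
  have n2 := abs_nonneg t₂
  obtain ⟨A₁, hA₁⟩ : ∃ A, A = Real.log (1 + |t₁| * ly (Z / 2 ^ a)) := ⟨_, rfl⟩
  obtain ⟨A₂, hA₂⟩ : ∃ A, A = Real.log (1 + |t₂| * ly (Z / 2 ^ a)) := ⟨_, rfl⟩
  obtain ⟨B₁, hB₁⟩ : ∃ A, A = Real.log (2 + |t₁|) := ⟨_, rfl⟩
  obtain ⟨B₂, hB₂⟩ : ∃ A, A = Real.log (2 + |t₂|) := ⟨_, rfl⟩
  have p1 : 0 ≤ A₁ := hA₁ ▸ Real.log_nonneg (by nlinarith)
  have p2 : 0 ≤ A₂ := hA₂ ▸ Real.log_nonneg (by nlinarith)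
  have p3 : 0 ≤ B₁ := hB₁ ▸ Real.log_nonneg (by linarith)
  have p4 : 0 ≤ B₂ := hB₂ ▸ Real.log_nonneg (by linarith)
  have l2 := mul_le_mul_of_nonneg_left (mker_log1 t₁) (Nat.cast_nonneg (α := ℝ) k₄)
  have l3 := mul_le_mul_of_nonneg_left (mker_log1 t₂) (Nat.cast_nonneg (α := ℝ) k₄)
  have l4 := mul_le_mul_of_nonneg_left (mker_log2 t₁ t₂) (Nat.cast_nonneg (α := ℝ) k₅)
  have l5 : C₁ * (∑ p ∈ pr D (Z / 2 ^ a), m₁ p + ∑ p ∈ pr D (Z / 2 ^ a), m₂ p) ≤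
      ⌈C₁⌉₊ * (A₁ + A₂) + 2 * (C₁ * C₃) := by
    have h1 : ∑ p ∈ pr D (Z / 2 ^ a), m₁ p + ∑ p ∈ pr D (Z / 2 ^ a), m₂ p ≤ A₁ + A₂ + 2 * C₃ := by
      rw [hm₁, hm₂, hA₁, hA₂]
      linarith
    have h2 := mul_le_mul_of_nonneg_left h1 hC₁
    have h3 := mul_le_mul_of_nonneg_right (Nat.le_ceil C₁) (add_nonneg p1 p2)
    linarith
  rw [← hB₁] at l2 l4
  rw [← hB₂] at l3 l4
  rw [← s3, ← s4] at l5
  have hkr : 0 < kr Λ (t₁ - t₂) := by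
    unfold kr
    have := abs_nonneg (t₁ - t₂)
    positivity
  have fin : C₀ * Real.exp (C₀' + 22 / 9 * C₂ + 2 * (C₁ * C₃) + 2 * C₄ + C₅) *
        (2 : ℝ) ^ (2 * ((b : ℝ) - a) / 9) / ly (Z / 2 ^ a) ^ 2 *
        ((1 + |t₁| * ly (Z / 2 ^ a)) * (1 + |t₂| * ly (Z / 2 ^ a)) * (2 + |t₁|) * (2 + |t₂|)) ^
          (⌈C₁⌉₊ + 2 * k₄ + k₅) * kr Λ (t₁ - t₂) =
      C₀ * Real.exp (C₀' + 22 / 9 * C₂ + 2 * (C₁ * C₃) + 2 * C₄ + C₅ +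
        Real.log 2 * (2 * ((b : ℝ) - a) / 9) - (2 : ℕ) * Real.log (ly (Z / 2 ^ a)) +
        (⌈C₁⌉₊ + 2 * k₄ + k₅ : ℕ) * (A₁ + A₂ + B₁ + B₂) + Real.log (kr Λ (t₁ - t₂))) := by
    rw [Real.exp_add _ (Real.log _), Real.exp_add _ (_ * (_ + B₂)), Real.exp_sub,
      Real.exp_add _ (Real.log 2 * _), Real.exp_nat_mul, Real.exp_nat_mul, Real.exp_log hkr,
      Real.exp_log (by linarith), ← Real.rpow_def_of_pos two_pos, Real.exp_add _ B₂,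
      Real.exp_add _ B₁, Real.exp_add _ A₂, hA₁, hA₂, hB₁, hB₂, Real.exp_log (by positivity),
      Real.exp_log (by positivity), Real.exp_log (by positivity), Real.exp_log (by positivity)]
    ring
  rw [fin]
  refine mul_le_mul_of_nonneg_left (Real.exp_le_exp.2 ?_) hC₀
  have e7 : ∑ p ∈ pr D Λ \ pr D (Z / 2 ^ a), (un (D.lam p) (z₁ p) (z₂ p)).re =
      ∑ p ∈ pr D Λ \ pr D (Z / 2 ^ a), u p := by rw [hu]
  have e8 : ∀ T : Finset ℕ, ∑ p ∈ T, D.lam p ^ 2 / p = ∑ p ∈ T, q p := fun T => by rw [hq]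
  rw [e8] at q1 q2
  have r1 := mul_nonneg (Nat.cast_nonneg (α := ℝ) ⌈C₁⌉₊) (add_nonneg p3 p4)
  have r2 := mul_nonneg (Nat.cast_nonneg (α := ℝ) k₄) (add_nonneg p1 p2)
  have r3 := mul_nonneg (Nat.cast_nonneg (α := ℝ) k₅) (add_nonneg p1 p2)
  rw [e7]
  push_cast
  linarith [q1.1, q1.2, q2.1, q2.2]

end Pool.Agent.Lib.MP_03e5d0_nt
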