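import Pool.Agent.Lib.MP_03e5d0_nt.TBas

set_option autoImplicit false

noncomputable section

namespace Pool.Agent.Lib.MP_03e5d0_nt

open Complex Finset MeasureTheory
open scoped NumberTheorySymbols Real ContDiff

/-! Smooth sums of periodic functions. -/

open scoped FourierTransform in
theorem mper_ft {j : ℕ} (hj : 1 ≤ j) {B : ℝ} {Φ : ℝ → ℂ} (h : Sm j (-1) 1 B Φ) (ξ : ℝ) :
    |ξ| ^ j * ‖𝓕 Φ ξ‖ ≤ 2 * B := by
  have hp : (1 : ℝ) ≤ 2 * π := by linarith [Real.pi_gt_three]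
  have e := tft_pow h le_rfl (2 * π * ξ)
  rw [tft_eq, mul_div_cancel_left₀ _ (by positivity), abs_mul, abs_of_pos (by positivity), mul_pow,
    norm_mul, norm_inv, show (2 * π : ℂ) = ((2 * π : ℝ) : ℂ) by push_cast; rfl, norm_real,
    Real.norm_of_nonneg (by positivity), show max ((1 : ℝ) - -1) 0 = 2 by norm_num] at e
  have e1 : 1 ≤ (2 * π) ^ j * (2 * π)⁻¹ := by
    rw [← div_eq_mul_inv, one_le_div (by positivity)]
    exact le_self_pow₀ hp (by omega)
  have e2 := mul_le_mul_of_nonneg_right e1 (show 0 ≤ |ξ| ^ j * ‖𝓕 Φ ξ‖ by positivity)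
  linarith

open scoped FourierTransform in
theorem mper_scale (Φ : ℝ → ℂ) {a : ℝ} (ha : 0 < a) (ξ : ℝ) :
    𝓕 (fun x => Φ (x * a)) ξ = (a⁻¹ : ℝ) * 𝓕 Φ (ξ / a) := by
  rw [Real.fourier_real_eq_integral_exp_smul, Real.fourier_real_eq_integral_exp_smul]
  have e := Measure.integral_comp_mul_right
    (fun v : ℝ => cexp (((-2 * π * v * (ξ / a) : ℝ) : ℂ) * I) • Φ v) a
  rw [abs_of_pos (inv_pos.2 ha), real_smul] at e
  rw [← e]
  refine integral_congr_ae (ae_of_all _ fun v => ?_)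
  simp only
  rw [show -2 * π * (v * a) * (ξ / a) = -2 * π * v * ξ by field_simp]

/-- Poisson summation (`Real.tsum_eq_tsum_fourier_of_rpow_decay`, or `SchwartzMap.tsum_eq_tsum_fourier` with
`HasCompactSupport.toSchwartzMap`) for `y ↦ Φ ((r + y R) / Y)`; the term `h ≠ 0` has size
`(Y / R) ‖𝓕 Φ (h Y / R)‖ ≤ (Y / R) C B (R / (Y |h|)) ^ j` by `Sm.ft_le` (`ft W t = (2π)⁻¹ 𝓕 W (t / (2π))`). -/
theorem per_class (j : ℕ) (hj : 2 ≤ j) : ∃ C : ℝ, 0 ≤ C ∧ ∀ (B Y R r : ℝ) (Φ : ℝ → ℂ), Sm j (-1) 1 B Φ →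
    0 < Y → 0 < R →
    ‖∑' k : ℤ, Φ ((r + k * R) / Y) - (Y / R : ℝ) * ∫ y, Φ y‖ ≤ C * B * (Y / R) * (R / Y) ^ j := by
  have hs : Summable fun n : ℤ => 1 / (n : ℝ) ^ 2 := Real.summable_one_div_int_pow.2 one_lt_two
  refine ⟨2 * ∑' n : ℤ, 1 / (n : ℝ) ^ 2, mul_nonneg zero_le_two (tsum_nonneg fun _ => by positivity),
    fun B Y R r Φ h hY hR => ?_⟩
  obtain ⟨a, ha⟩ : ∃ a, a = R / Y := ⟨_, rfl⟩
  have ha0 : 0 < a := ha ▸ div_pos hR hY
  have hB := h.nonneg
  have bd : ∀ n : ℤ, n ≠ 0 → ‖FourierTransform.fourier (fun x => Φ (x * a)) (n : ℝ)‖ ≤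
      2 * B * a⁻¹ * a ^ j * (1 / (n : ℝ) ^ 2) := fun n hn => by
    have h1 : (1 : ℝ) ≤ |(n : ℝ)| := by exact_mod_cast Int.one_le_abs hn
    have h2 := mper_ft (by omega) h (n / a)
    rw [abs_div, abs_of_pos ha0, div_pow, div_mul_eq_mul_div, div_le_iff₀ (by positivity)] at h2
    have h3 : (n : ℝ) ^ 2 ≤ |(n : ℝ)| ^ j := by
      rw [← sq_abs]
      exact pow_le_pow_right₀ h1 hj
    have h4 : (0 : ℝ) < (n : ℝ) ^ 2 := by positivity
    rw [mper_scale Φ ha0, norm_mul, norm_real, Real.norm_of_nonneg (by positivity), mul_one_div,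
      le_div_iff₀ h4]
    have h5 := mul_le_mul_of_nonneg_left
      ((mul_le_mul_of_nonneg_right h3 (norm_nonneg _)).trans h2) (inv_pos.2 ha0).le
    linarith
  have sm : Summable fun n : ℤ => FourierTransform.fourier (fun x => Φ (x * a)) (n : ℝ) :=
    (hs.mul_left _).of_norm_bounded_eventually (by
      filter_upwards [Filter.eventually_cofinite_ne 0] with n hn using bd n hn)
  have nf : ∀ (n : ℤ) (x : UnitAddCircle), ‖fourier n x‖ = 1 := fun n x => Circle.norm_coe _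
  have sm' : Summable fun n : ℤ => FourierTransform.fourier (fun x => Φ (x * a)) (n : ℝ) *
      fourier n ((r / R : ℝ) : UnitAddCircle) :=
    sm.norm.of_norm_bounded fun n => by rw [norm_mul, nf, mul_one]
  have hcs : HasCompactSupport fun x => Φ (x * a) :=
    (show HasCompactSupport Φ by simpa using tft_hcs h 0).comp_homeomorph
      (Homeomorph.mulRight₀ a ha0.ne')
  have po := Real.tsum_eq_tsum_fourier_of_rpow_decay_of_summable (f := fun x => Φ (x * a))
    (h.smooth.continuous.comp (by fun_prop)) one_lt_two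
    ((Asymptotics.isBigO_zero _ _).congr' (by
      rw [← Filter.coclosedCompact_eq_cocompact]
      exact (hasCompactSupport_iff_eventuallyEq.1 hcs).symm) Filter.EventuallyEq.rfl) sm (r / R)
  have e1 : ∀ k : ℤ, (r + k * R) / Y = (r / R + k) * a := fun k => by
    rw [ha]
    field_simp
  have e2 : Y / R = a⁻¹ := by rw [ha, inv_div]
  have e3 : FourierTransform.fourier Φ ((0 : ℝ) / a) = ∫ y, Φ y := by
    simp [Real.fourier_real_eq_integral_exp_smul]
  simp only [e1]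
  rw [po, sm'.tsum_eq_add_tsum_ite 0, Int.cast_zero, mper_scale Φ ha0, e3, fourier_zero, mul_one,
    e2, add_sub_cancel_left, ← ha]
  refine (tsum_of_norm_bounded (hs.hasSum.mul_left (2 * B * a⁻¹ * a ^ j)) fun n => ?_).trans
    (le_of_eq (by ring))
  split_ifs with hn
  · rw [norm_zero]
    positivity
  · rw [norm_mul, nf, mul_one]
    exact bd n hn

/-- Split the integers into classes mod `R` (`Int.divModEquiv`, or finite sums: the support is finite). -/
theorem per (j : ℕ) (hj : 2 ≤ j) : ∃ C : ℝ, 0 ≤ C ∧ ∀ (B Y : ℝ) (R : ℕ) (Φ : ℝ → ℂ) (g : ℤ → ℝ),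
    Sm j (-1) 1 B Φ → 0 < Y → 0 < R → (∀ m, |g m| ≤ 1) → (∀ m, g (m + R) = g m) →
    ‖∑' m : ℤ, Φ (m / Y) * g m - Y * (∫ y, Φ y) * (((∑ m ∈ range R, g m) / R : ℝ) : ℂ)‖ ≤
      C * B * Y * (R / Y) ^ j := by
  obtain ⟨C, hC, h⟩ := per_class j hj
  refine ⟨C, hC, fun B Y R Φ g hΦ hY hR hg hp => ?_⟩
  have : NeZero R := ⟨hR.ne'⟩
  have hR' : (0 : ℝ) < R := by exact_mod_cast hR
  have sm : Summable fun m : ℤ => Φ (m / Y) * g m := by
    refine summable_of_ne_finset_zero (s := Icc (-⌈Y⌉) ⌈Y⌉) fun m hm => ?_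
    rw [mem_Icc, not_and_or, not_le, not_le] at hm
    have h1 := Int.le_ceil Y
    rw [hΦ.supp _ (hm.imp (fun e => ?_) fun e => ?_), zero_mul]
    · have e' : (m : ℝ) < -⌈Y⌉ := by exact_mod_cast e
      rw [div_lt_iff₀ hY]
      linarith
    · have e' : (⌈Y⌉ : ℝ) < m := by exact_mod_cast e
      rw [lt_div_iff₀ hY]
      linarith
  let e : Fin R × ℤ ≃ ℤ := (Equiv.prodComm _ _).trans (Int.divModEquiv R).symm
  have he : ∀ (r : Fin R) (k : ℤ), e (r, k) = (r : ℕ) + k * R := fun _ _ => add_comm _ _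
  have e1 : ∑' m : ℤ, Φ (m / Y) * g m =
      ∑ r ∈ range R, (∑' k : ℤ, Φ (((r : ℝ) + k * (R : ℝ)) / Y)) * g r := by
    rw [← e.tsum_eq, sum_range, ← tsum_fintype (L := SummationFilter.unconditional _)]
    refine (e.summable_iff.2 sm).tsum_prod.trans (tsum_congr fun r => ?_)
    rw [← tsum_mul_right]
    refine tsum_congr fun k => ?_
    rw [Function.comp_apply, he,
      show g (((r : ℕ) : ℤ) + k * R) = g (r : ℕ) from Function.Periodic.int_mul (f := g) hp k _]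
    push_cast
    rfl
  have e2 : Y * (∫ y, Φ y) * (((∑ m ∈ range R, g m) / R : ℝ) : ℂ) =
      ∑ r ∈ range R, ((Y / R : ℝ) * ∫ y, Φ y) * g r := by
    rw [← mul_sum]
    push_cast
    ring
  rw [e1, e2, ← sum_sub_distrib]
  refine (norm_sum_le _ _).trans ((sum_le_card_nsmul _ _ (C * B * (Y / R) * (R / Y) ^ j)
    fun r _ => ?_).trans (le_of_eq ?_))
  · rw [← sub_mul, norm_mul, norm_real, Real.norm_eq_abs]
    exact (mul_le_of_le_one_right (norm_nonneg _) (hg r)).trans (h B Y R r Φ hΦ hY hR')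
  · rw [card_range, nsmul_eq_mul]
    field_simp

/-- Chinese remainder theorem: `m ↦ (m % R₁, m % R₂)` is a bijection. -/
theorem sum_range_crt {R₁ R₂ : ℕ} (h : R₁.Coprime R₂) {g₁ g₂ : ℤ → ℝ} (h₁ : ∀ m, g₁ (m + R₁) = g₁ m)
    (h₂ : ∀ m, g₂ (m + R₂) = g₂ m) :
    ∑ m ∈ range (R₁ * R₂), g₁ m * g₂ m = (∑ m ∈ range R₁, g₁ m) * ∑ m ∈ range R₂, g₂ m := by
  have p₁ : Function.Periodic (fun m : ℕ => g₁ m) R₁ := fun m => by simpa using h₁ m
  have p₂ : Function.Periodic (fun m : ℕ => g₂ m) R₂ := fun m => by simpa using h₂ m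
  rw [sum_mul_sum, ← sum_product']
  refine sum_bij (fun m _ => (m % R₁, m % R₂)) (fun m hm => ?_) (fun m hm m' hm' e => ?_)
    (fun p hp => ?_) fun m _ => by rw [p₁.map_mod_nat m, p₂.map_mod_nat m]
  · have h0 := Nat.pos_of_lt_mul_right (mem_range.1 hm)
    have h1 := Nat.pos_of_lt_mul_left (mem_range.1 hm)
    exact mem_product.2 ⟨mem_range.2 (Nat.mod_lt _ h0), mem_range.2 (Nat.mod_lt _ h1)⟩
  · exact ((Nat.modEq_and_modEq_iff_modEq_mul h).1 (Prod.ext_iff.1 e)).eq_of_lt_of_lt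
      (mem_range.1 hm) (mem_range.1 hm')
  · obtain ⟨a1, a2⟩ := mem_product.1 hp
    rw [mem_range] at a1 a2
    refine ⟨Nat.chineseRemainder h p.1 p.2, mem_range.2
      (Nat.chineseRemainder_lt_mul h _ _ (by omega) (by omega)), Prod.ext ?_ ?_⟩
    · exact Eq.trans (Nat.chineseRemainder h p.1 p.2).2.1 (Nat.mod_eq_of_lt a1)
    · exact Eq.trans (Nat.chineseRemainder h p.1 p.2).2.2 (Nat.mod_eq_of_lt a2)

theorem mper_sum_mul {h : ℕ → ℝ} {p : ℕ} (hp : ∀ m, h (p + m) = h m) (t : ℕ) :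
    ∑ m ∈ range (p * t), h m = t * ∑ m ∈ range p, h m := by
  induction t with
  | zero => simp
  | succ t ih =>
    rw [Nat.mul_succ, add_comm (p * t), sum_range_add, sum_congr rfl fun m _ => hp m, ih]
    push_cast
    ring

theorem mper_sq {a b : ℕ} (h : a.Coprime b) : IsSquare (a * b) ↔ IsSquare a ∧ IsSquare b := by
  refine ⟨fun ⟨c, hc⟩ => ?_, fun h => h.1.mul h.2⟩
  rw [← sq] at hc
  obtain ⟨d, hd⟩ := exists_eq_pow_of_mul_eq_pow (a := a) (b := b) (Nat.isUnit_iff.2 h) hc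
  obtain ⟨e, he⟩ := exists_eq_pow_of_mul_eq_pow (a := b) (b := a) (Nat.isUnit_iff.2 h.symm)
    ((mul_comm b a).trans hc)
  exact ⟨⟨d, by rw [hd, sq]⟩, ⟨e, by rw [he, sq]⟩⟩

theorem mper_sq_pow {p k : ℕ} (hp : p.Prime) : IsSquare (p ^ k) ↔ Even k := by
  refine ⟨fun ⟨c, hc⟩ => ?_, fun h => h.isSquare_pow p⟩
  have hc0 : c ≠ 0 := fun e => pow_ne_zero k hp.ne_zero (by rw [hc, e, mul_zero])
  have e := congrArg (fun n : ℕ => n.factorization p) hc
  simp only [Nat.factorization_mul hc0 hc0, hp.factorization_pow, Finsupp.single_eq_same,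
    Finsupp.add_apply] at e
  exact ⟨_, e⟩

theorem mper_per (r : ℕ) (m : ℤ) : (J(m + r | r) : ℝ) = J(m | r) := by
  rw [jacobiSym.mod_left' (Int.add_emod_right m r)]

theorem mper_odd {p : ℕ} (hp : p.Prime) (h2 : Odd p) :
    ∑ m ∈ range p, (J((m : ℤ) | p) : ℝ) = 0 := by
  have := Fact.mk hp
  have e := quadraticChar_sum_zero (F := ZMod p) (by
    rw [ZMod.ringChar_zmod_n]
    rintro rfl
    exact absurd h2 (by decide))
  have e1 : ∑ m ∈ range p, J((m : ℤ) | p) = ∑ a : ZMod p, quadraticChar (ZMod p) a := by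
    refine sum_nbij' (fun m => (m : ZMod p)) ZMod.val (fun _ _ => mem_univ _)
      (fun a _ => mem_range.2 (ZMod.val_lt a)) (fun m hm => ZMod.val_cast_of_lt (mem_range.1 hm))
      (fun a _ => ZMod.natCast_zmod_val a) fun m _ => ?_
    rw [← jacobiSym.legendreSym.to_jacobiSym, legendreSym, Int.cast_natCast]
  exact_mod_cast e1.trans e

theorem mper_even {p k : ℕ} (hp : p.Prime) (hk : Even k) (h0 : k ≠ 0) :
    ∑ m ∈ range p, (J((m : ℤ) | p) : ℝ) ^ k = p - 1 := by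
  obtain ⟨q, rfl⟩ : ∃ q, p = q + 1 := ⟨p - 1, by have := hp.pos; omega⟩
  rw [sum_range_succ', Nat.cast_zero, jacobiSym.zero_left hp.one_lt, Int.cast_zero, zero_pow h0,
    add_zero, sum_congr rfl (g := fun _ => 1) fun m hm => ?_]
  · simp
  · have e : ((m + 1 : ℕ) : ℤ).gcd (q + 1 : ℕ) = 1 := by
      rw [Int.gcd_natCast_natCast]
      exact (Nat.coprime_of_lt_prime (by omega) (by have := mem_range.1 hm; omega) hp).symm
    rcases jacobiSym.eq_one_or_neg_one e with e | e <;> rw [e] <;> simp [hk.neg_one_pow]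

/-- Induction on coprime factorisations (`Nat.recOnPosPrimePosCoprime`) with `sum_range_crt`; for
`r = p ^ k`, `J(m | p ^ k) = J(m | p) ^ k` has period `p`, and `∑ J(m | p) = 0` (`quadraticChar_sum_zero`). -/
theorem sum_jacobi {r : ℕ} (hr : Odd r) : ∑ m ∈ range r, (J((m : ℤ) | r) : ℝ) = r * rho dl0 r := by
  induction r using Nat.recOnPosPrimePosCoprime with
  | zero => exact absurd hr (by decide)
  | one => simp [rho]
  | coprime a b ha hb hab iha ihb =>
    have e := sum_range_crt (g₁ := fun m => (J(m | a) : ℝ)) (g₂ := fun m => (J(m | b) : ℝ)) hab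
      (mper_per a) (mper_per b)
    simp only [jacobiSym.mul_right' _ (show a ≠ 0 by omega) (show b ≠ 0 by omega), Int.cast_mul]
    rw [e, iha (Nat.odd_mul.1 hr).1, ihb (Nat.odd_mul.1 hr).2, rho, rho, rho, hab.primeFactors_mul,
      prod_union hab.disjoint_primeFactors]
    by_cases h1 : IsSquare a <;> by_cases h2 : IsSquare b <;> simp [mper_sq hab, h1, h2]
    ring
  | prime_pow p k hp hk =>
    have hp' : Odd p := (Nat.odd_pow_iff hk.ne').1 hr
    have hp0 : (p : ℝ) ≠ 0 := by exact_mod_cast hp.ne_zero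
    obtain ⟨k, rfl⟩ : ∃ l, k = l + 1 := ⟨k - 1, by omega⟩
    simp only [jacobiSym.pow_right, Int.cast_pow]
    rw [rho, Nat.primeFactors_prime_pow hk.ne' hp, prod_singleton, pow_succ' p,
      mper_sum_mul (h := fun m => (J((m : ℤ) | p) : ℝ) ^ (k + 1)) fun m => by
        rw [Nat.cast_add, add_comm, mper_per], ← pow_succ' p, dl0]
    rcases Nat.even_or_odd (k + 1) with h | h
    · rw [mper_even hp h hk.ne', if_pos ((mper_sq_pow hp).2 h)]
      push_cast
      field_simp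
      ring
    · rw [if_neg (fun e => Nat.not_even_iff_odd.2 h ((mper_sq_pow hp).1 e)), mul_zero,
        sum_congr rfl (g := fun m : ℕ => (J((m : ℤ) | p) : ℝ)) fun m _ => ?_, mper_odd hp hp',
        mul_zero]
      rcases jacobiSym.trichotomy m p with e | e | e <;> rw [e] <;> simp [h.neg_one_pow]

end Pool.Agent.Lib.MP_03e5d0_nt
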