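import Pool.Agent.Lib.MP_03e5d0_nt.TBas
import Pool.Agent.Lib.MP_03e5d0_nt.MDef

set_option autoImplicit false

noncomputable section

namespace Pool.Agent.Lib.MP_03e5d0_nt

open Complex Finset MeasureTheory
open scoped NumberTheorySymbols Real ContDiff

/-! Truncated prime sums. -/

theorem mps1_mertens (n : ℕ) (hn : 1 ≤ n) :
    ∑ p ∈ Nat.primesLE n, Real.log p / p ≤ Real.log n + Real.log 4 := by
  have hn0 : (0 : ℝ) < n := by exact_mod_cast hn
  have h1 : ∑ p ∈ Nat.primesLE n, Real.log p * ((n / p : ℕ) : ℝ) ≤ n * Real.log n := by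
    calc ∑ p ∈ Nat.primesLE n, Real.log p * ((n / p : ℕ) : ℝ)
        = ∑ p ∈ Nat.primesLE n, ∑ m ∈ Ioc 0 n, if p ∣ m then Real.log p else 0 := by
          refine sum_congr rfl fun p _ => ?_
          rw [← sum_filter, sum_const, Nat.Ioc_filter_dvd_card_eq_div, nsmul_eq_mul, mul_comm]
      _ = ∑ m ∈ Ioc 0 n, ∑ p ∈ Nat.primesLE n, if p ∣ m then Real.log p else 0 := sum_comm
      _ ≤ ∑ m ∈ Ioc 0 n, Real.log n := by
          refine sum_le_sum fun m hm => ?_
          obtain ⟨hm0, hmn⟩ := mem_Ioc.mp hm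
          rw [← sum_filter]
          have hsub : (Nat.primesLE n).filter (· ∣ m) ⊆ m.primeFactors := by
            intro p hp
            obtain ⟨hp1, hp2⟩ := mem_filter.mp hp
            exact Nat.mem_primeFactors.mpr ⟨Nat.prime_of_mem_primesLE hp1, hp2, hm0.ne'⟩
          calc _ ≤ ∑ p ∈ m.primeFactors, Real.log p :=
                sum_le_sum_of_subset_of_nonneg hsub fun p _ _ => Real.log_natCast_nonneg p
            _ = Real.log (∏ p ∈ m.primeFactors, (p : ℝ)) := by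
                rw [Real.log_prod]
                intro p hp
                exact_mod_cast (Nat.prime_of_mem_primeFactors hp).ne_zero
            _ ≤ Real.log n := by
                apply Real.log_le_log
                · exact prod_pos fun p hp => by
                    exact_mod_cast (Nat.prime_of_mem_primeFactors hp).pos
                · rw [← Nat.cast_prod]
                  exact_mod_cast (Nat.le_of_dvd hm0 (Nat.prod_primeFactors_dvd m)).trans hmn
      _ = n * Real.log n := by simp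
  have h2 : ∑ p ∈ Nat.primesLE n, Real.log p ≤ Real.log 4 * n := by
    rw [← Chebyshev.theta_eq_sum_primesLE_log]
    exact Chebyshev.theta_le_log4_mul_x hn0.le
  have h3 : n * ∑ p ∈ Nat.primesLE n, Real.log p / p ≤
      ∑ p ∈ Nat.primesLE n, Real.log p * ((n / p : ℕ) : ℝ) + ∑ p ∈ Nat.primesLE n, Real.log p := by
    rw [mul_sum, ← sum_add_distrib]
    refine sum_le_sum fun p hp => ?_
    have hp0 : (0 : ℝ) < p := by exact_mod_cast (Nat.prime_of_mem_primesLE hp).pos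
    have h4 : (n : ℝ) / p ≤ ((n / p : ℕ) : ℝ) + 1 := by
      rw [div_le_iff₀ hp0]
      have := Nat.lt_div_mul_add (a := n) (Nat.prime_of_mem_primesLE hp).pos
      have h5 : (n : ℝ) < ((n / p : ℕ) : ℝ) * p + p := by exact_mod_cast this
      linarith
    have h6 := Real.log_natCast_nonneg p
    calc (n : ℝ) * (Real.log p / p) = Real.log p * (n / p) := by ring
      _ ≤ Real.log p * (((n / p : ℕ) : ℝ) + 1) := by gcongr
      _ = _ := by ring
  have : n * ∑ p ∈ Nat.primesLE n, Real.log p / p ≤ n * (Real.log n + Real.log 4) := by linarith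
  exact le_of_mul_le_mul_left this hn0

/-- See `sum_log_div_le` in `Pool/Agent/Lib/MP_778b46_nt/Mertens.lean` (copy the proof). -/
theorem mertens_log (D : Data) {Λ : ℝ} (hΛ : 0 ≤ Λ) :
    ∑ p ∈ pr D Λ, Real.log p / p ≤ Λ + 2 := by
  have h1 : 1 ≤ ⌊Real.exp Λ⌋₊ := Nat.le_floor (by simpa using Real.one_le_exp hΛ)
  have h2 : Real.log (⌊Real.exp Λ⌋₊ : ℕ) ≤ Λ := by
    rw [Real.log_le_iff_le_exp (by exact_mod_cast h1)]
    exact Nat.floor_le (Real.exp_pos _).le
  have h3 : Real.log 4 ≤ 2 := by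
    rw [show (4 : ℝ) = 2 ^ 2 by norm_num, Real.log_pow]
    have := Real.log_two_lt_d9
    push_cast
    linarith
  refine le_trans (sum_le_sum_of_subset_of_nonneg (t := Nat.primesLE ⌊Real.exp Λ⌋₊) (fun p hp => ?_)
    fun p _ _ => div_nonneg (Real.log_natCast_nonneg p) (Nat.cast_nonneg p))
    ((mps1_mertens _ h1).trans (add_le_add h2 h3))
  rw [pr, mem_filter, mem_range] at hp
  exact Nat.mem_primesLE.2 ⟨by omega, hp.2.1⟩
theorem pr_eq_empty (D : Data) {Λ : ℝ} (h : Λ ≤ 1) : pr D Λ = ∅ := by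
  refine eq_empty_of_forall_notMem fun p hp => ?_
  obtain ⟨h1, h2, h3⟩ := mem_pr.1 hp
  have h4 : (10000 : ℝ) ≤ p := by exact_mod_cast D.big h1 h2
  have h5 : 1 < Real.log p := by
    rw [Real.lt_log_iff_exp_lt (by linarith)]
    linarith [Real.exp_one_lt_d9]
  linarith
theorem pr_mono (D : Data) {Λ Λ' : ℝ} (h : Λ ≤ Λ') : pr D Λ ⊆ pr D Λ' := by
  intro p hp
  obtain ⟨h1, h2, h3⟩ := mem_pr.1 hp
  exact mem_pr.2 ⟨h1, h2, h3.trans h⟩
/-- On the block `1 / p ≤ (log p / p) / (Z / 2 ^ (j + 1))`; the block is empty if `Z / 2 ^ j ≤ 1`. -/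
theorem ps_blk (D : Data) (Z : ℝ) (j : ℕ) : ∑ p ∈ blk D Z j, (1 : ℝ) / p ≤ 6 := by
  obtain ⟨W, hW⟩ : ∃ W, W = Z / 2 ^ (j + 1) := ⟨_, rfl⟩
  have e : Z / 2 ^ j = 2 * W := by
    rw [hW, pow_succ]
    field_simp
  rw [blk, e, ← hW]
  by_cases h : 2 * W ≤ 1
  · simp [pr_eq_empty D h]
  have hW0 : 0 < W := by linarith
  have h1 : ∑ p ∈ pr D (2 * W) \ pr D W, (1 : ℝ) / p ≤
      ∑ p ∈ pr D (2 * W) \ pr D W, Real.log p / p / W := by
    refine sum_le_sum fun p hp => ?_
    obtain ⟨h2, h3⟩ := mem_sdiff.1 hp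
    obtain ⟨h4, h5, -⟩ := mem_pr.1 h2
    have h6 : W < Real.log p := not_le.1 fun hh => h3 (mem_pr.2 ⟨h4, h5, hh⟩)
    rw [div_right_comm]
    exact div_le_div_of_nonneg_right ((one_le_div hW0).2 h6.le) (Nat.cast_nonneg p)
  have h2 : ∑ p ∈ pr D (2 * W) \ pr D W, Real.log p / p ≤ 2 * W + 2 :=
    (sum_le_sum_of_subset_of_nonneg sdiff_subset
      fun p _ _ => div_nonneg (Real.log_natCast_nonneg p) (Nat.cast_nonneg p)).trans
      (mertens_log D (by linarith))
  rw [← sum_div] at h1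
  refine h1.trans ?_
  rw [div_le_iff₀ hW0]
  linarith
theorem mps1_32 (N : ℕ) : ∑ p ∈ range (N + 2), (1 : ℝ) / (p * √p) ≤ 3 - 2 / √(N + 1 : ℕ) := by
  induction N with
  | zero => norm_num [sum_range_succ]
  | succ N ih =>
    rw [sum_range_succ]
    have h0 : (0 : ℝ) < √(N + 1 : ℕ) := Real.sqrt_pos.2 (by positivity)
    have h1 : √(N + 1 : ℕ) ≤ √(N + 1 + 1 : ℕ) := Real.sqrt_le_sqrt (by push_cast; linarith)
    have h2 : √(N + 1 : ℕ) ^ 2 = (N + 1 : ℕ) := Real.sq_sqrt (by positivity)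
    have h3 : √(N + 1 + 1 : ℕ) ^ 2 = (N + 1 + 1 : ℕ) := Real.sq_sqrt (by positivity)
    have h4 : ((N + 2 : ℕ) : ℝ) = √(N + 1 + 1 : ℕ) ^ 2 := h3.symm
    have h5 : √(N + 1 + 1 : ℕ) ^ 2 = √(N + 1 : ℕ) ^ 2 + 1 := by
      rw [h2, h3]
      push_cast
      ring
    have h6 : 1 / (((N + 2 : ℕ) : ℝ) * √(N + 2 : ℕ)) ≤
        2 / √(N + 1 : ℕ) - 2 / √(N + 1 + 1 : ℕ) := by
      change 1 / (((N + 2 : ℕ) : ℝ) * √(N + 1 + 1 : ℕ)) ≤ _
      generalize √(N + 1 : ℕ) = a at *
      generalize √(N + 1 + 1 : ℕ) = b at *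
      rw [h4]
      have hb : 0 < b := by linarith
      rw [div_sub_div _ _ h0.ne' hb.ne', div_le_div_iff₀ (by positivity) (by positivity)]
      have h7 : (b - a) * (b + a) = 1 := by linarith
      have h8 : a * (b + a) ≤ 2 * b ^ 2 := by nlinarith
      have h9 : a ≤ 2 * (b - a) * b ^ 2 := by
        calc a = (b - a) * (a * (b + a)) := by linear_combination (-a) * h7
          _ ≤ (b - a) * (2 * b ^ 2) := mul_le_mul_of_nonneg_left h8 (by linarith)
          _ = _ := by ring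
      nlinarith
    linarith
theorem ps_32 (S : Finset ℕ) : ∑ p ∈ S, (1 : ℝ) / (p * √p) ≤ 3 := by
  refine le_trans (sum_le_sum_of_subset_of_nonneg (t := range (S.sup id + 2)) (fun p hp => ?_)
    fun p _ _ => by positivity) ((mps1_32 _).trans (sub_le_self _ (by positivity)))
  have : p ≤ S.sup id := le_sup (f := id) hp
  rw [mem_range]
  omega
theorem summable_psum (q : ℕ) {a : ℕ → ℝ} {K : ℝ} (ha : ∀ p : ℕ, |a p| ≤ K * (1 + Real.log p) ^ 2)
    {s : ℂ} (hs : 1 < s.re) :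
    Summable fun p : ℕ => ‖if p.Prime ∧ ¬p ∣ q then (a p : ℂ) * (p : ℂ) ^ (-s) else 0‖ := by
  obtain ⟨η, hη⟩ : ∃ η, η = (s.re - 1) / 4 := ⟨_, rfl⟩
  have hη0 : 0 < η := by rw [hη]; linarith
  have hK : 0 ≤ K := by simpa using (abs_nonneg _).trans (ha 1)
  have h1 : Summable fun p : ℕ => K * (1 + 1 / η) ^ 2 * (p : ℝ) ^ (2 * η - s.re) :=
    (Real.summable_nat_rpow.2 (by rw [hη]; linarith)).mul_left _
  refine Summable.of_nonneg_of_le (fun _ => norm_nonneg _) (fun p => ?_) h1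
  split_ifs with h
  · have hp : (1 : ℝ) ≤ p := by exact_mod_cast h.1.one_le
    have h2 : 1 + Real.log p ≤ (1 + 1 / η) * (p : ℝ) ^ η := by
      have h3 := Real.log_le_rpow_div (x := p) (by linarith) hη0
      have h4 := Real.one_le_rpow hp hη0.le
      rw [add_mul, one_mul, one_div_mul_eq_div]
      linarith
    have h5 := Real.log_natCast_nonneg p
    rw [norm_mul, norm_natCast_cpow_of_pos h.1.pos, norm_real, Real.norm_eq_abs, neg_re,
      sub_eq_add_neg, Real.rpow_add (by linarith), ← mul_assoc]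
    refine mul_le_mul_of_nonneg_right ((ha p).trans ?_) (by positivity)
    rw [mul_assoc, mul_comm 2 η, Real.rpow_mul (by linarith), Real.rpow_two, ← mul_pow]
    gcongr
  · rw [norm_zero]
    positivity
theorem mps1_tail (D : Data) {Λ : ℝ} (hΛ : 0 < Λ) (J : ℕ) :
    ∑ p ∈ pr D (2 ^ J * Λ) \ pr D Λ, Real.exp (-(Real.log p / Λ)) / p ≤ 12 - 12 / 2 ^ J := by
  induction J with
  | zero => simp
  | succ J ih =>
    have h1 : Λ ≤ 2 ^ J * Λ := le_mul_of_one_le_left hΛ.le (one_le_pow₀ one_le_two)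
    have h2 : 2 ^ J * Λ ≤ 2 ^ (J + 1) * Λ := by
      rw [pow_succ]
      linarith
    have h3 := ps_blk D (2 ^ (J + 1) * Λ) 0
    rw [blk, pow_zero, div_one, show 2 ^ (J + 1) * Λ / 2 ^ (0 + 1) = 2 ^ J * Λ by
      rw [pow_succ]; ring] at h3
    have h4 : ∑ p ∈ pr D (2 ^ (J + 1) * Λ) \ pr D (2 ^ J * Λ),
        Real.exp (-(Real.log p / Λ)) / p ≤ 6 / 2 ^ J := by
      refine le_trans (sum_le_sum (g := fun p : ℕ => (1 : ℝ) / p / 2 ^ J) fun p hp => ?_) ?_
      · obtain ⟨h5, h6⟩ := mem_sdiff.1 hp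
        obtain ⟨h7, h8, -⟩ := mem_pr.1 h5
        have h9 : 2 ^ J * Λ < Real.log p := not_le.1 fun hh => h6 (mem_pr.2 ⟨h7, h8, hh⟩)
        rw [div_right_comm]
        refine div_le_div_of_nonneg_right ?_ (Nat.cast_nonneg p)
        rw [Real.exp_neg, one_div]
        refine inv_anti₀ (by positivity) ?_
        have := (lt_div_iff₀ hΛ).2 h9
        linarith [Real.add_one_le_exp (Real.log p / Λ)]
      · rw [← sum_div]
        gcongr
    rw [← sdiff_union_sdiff_cancel (pr_mono D h2) (pr_mono D h1),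
      sum_union (disjoint_sdiff_self_left.mono_right sdiff_subset)]
    have : (12 : ℝ) / 2 ^ (J + 1) = 6 / 2 ^ J := by
      rw [pow_succ]
      field_simp
      norm_num
    have : (12 : ℝ) / 2 ^ J = 2 * (6 / 2 ^ J) := by ring
    linarith
theorem mps1_cpow {p : ℕ} (hp : 0 < p) (Λ τ : ℝ) : (p : ℂ) ^ (-(1 + 1 / Λ + I * τ) : ℂ) =
    ((Real.exp (-(Real.log p / Λ)) / p : ℝ) : ℂ) * ex (-τ) (Real.log p) := by
  have h0 : (0 : ℝ) < p := by exact_mod_cast hp
  have h1 : Real.exp (-(Real.log p / Λ)) / p = Real.exp (-(Real.log p / Λ) - Real.log p) := by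
    rw [Real.exp_sub, Real.exp_log h0]
  rw [h1, cpow_def_of_ne_zero (by exact_mod_cast hp.ne'), ex, ofReal_exp, ← Complex.exp_add,
    ← natCast_log]
  congr 1
  push_cast
  ring
/-- For `log p ≤ Λ` use `1 - p ^ (-1 / Λ) ≤ log p / Λ` and `mertens_log`. For `2 ^ i Λ < log p ≤ 2 ^ (i+1) Λ`
the sum of `1 / p` is at most `6` (`ps_blk`) and `p ^ (-1 / Λ) ≤ exp (-2 ^ i)`; bound every finite partial
sum of the tail (`tsum_le_of_sum_le`). -/
theorem psum_trunc : ∃ C : ℝ, ∀ (D : Data) (a : ℕ → ℝ) (Λ τ : ℝ), (∀ p : ℕ, |a p| ≤ 4) → 1 ≤ Λ →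
    ‖PSum D.q a (1 + 1 / Λ + I * τ) - ∑ p ∈ pr D Λ, ((a p / p : ℝ) : ℂ) * ex (-τ) (Real.log p)‖ ≤ C := by
  refine ⟨60, fun D a Λ τ ha hΛ => ?_⟩
  have hΛ0 : 0 < Λ := by linarith
  have hs := summable_psum D.q (a := a) (K := 4) (s := 1 + 1 / Λ + I * τ)
    (fun p => (ha p).trans (by nlinarith [Real.log_natCast_nonneg p])) (by
      have : (1 + 1 / Λ + I * τ : ℂ).re = 1 + 1 / Λ := by
        rw [← ofReal_one, ← ofReal_div]
        simp
      rw [this]
      linarith [one_div_pos.2 hΛ0])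
  rw [PSum, ← hs.of_norm.sum_add_tsum_compl (s := pr D Λ), add_sub_right_comm,
    show (60 : ℝ) = 12 + 48 by norm_num]
  refine (norm_add_le _ _).trans (add_le_add ?_ ?_)
  · rw [← sum_sub_distrib]
    refine (norm_sum_le _ _).trans
      (le_trans (sum_le_sum (g := fun p : ℕ => 4 / Λ * (Real.log p / p)) fun p hp => ?_) ?_)
    · obtain ⟨h1, h2, -⟩ := mem_pr.1 hp
      have h0 : (0 : ℝ) < p := by exact_mod_cast h1.pos
      have h3 := Real.add_one_le_exp (-(Real.log p / Λ))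
      have h4 : Real.exp (-(Real.log p / Λ)) ≤ 1 := Real.exp_le_one_iff.2
        (neg_nonpos.2 (div_nonneg (Real.log_natCast_nonneg p) hΛ0.le))
      rw [if_pos ⟨h1, h2⟩, mps1_cpow h1.pos, ← mul_assoc, ← sub_mul, norm_mul, norm_ex, mul_one,
        ← ofReal_mul, ← ofReal_sub, norm_real, Real.norm_eq_abs,
        show a p * (Real.exp (-(Real.log p / Λ)) / p) - a p / p =
          a p * ((Real.exp (-(Real.log p / Λ)) - 1) / p) by ring, abs_mul, abs_div,
        abs_of_pos h0, abs_sub_comm, abs_of_nonneg (sub_nonneg.2 h4),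
        show 4 / Λ * (Real.log p / p) = 4 * (Real.log p / Λ / p) by ring]
      gcongr
      · exact ha p
      · linarith
    · rw [← mul_sum]
      refine (mul_le_mul_of_nonneg_left (mertens_log D hΛ0.le) (by positivity)).trans ?_
      rw [div_mul_eq_mul_div, div_le_iff₀ hΛ0]
      linarith
  · refine (norm_tsum_le_tsum_norm (hs.subtype _)).trans
      (Real.tsum_le_of_sum_le (fun _ => norm_nonneg _) fun u => ?_)
    obtain ⟨J, hJ⟩ : ∃ J : ℕ, ∀ p ∈ u, Real.log (p.1 : ℕ) ≤ 2 ^ J * Λ := by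
      refine ⟨u.sup fun p => p.1, fun p hp => ?_⟩
      have h1 : p.1 ≤ u.sup fun p => p.1 := le_sup (f := fun p => p.1) hp
      have h2 : (p.1 : ℝ) ≤ 2 ^ (u.sup fun p => p.1) := by
        exact_mod_cast h1.trans Nat.lt_two_pow_self.le
      exact (Real.log_le_self (Nat.cast_nonneg _)).trans
        (h2.trans (le_mul_of_one_le_right (by positivity) hΛ))
    have h1 := mps1_tail D hΛ0 J
    have h2 : (0 : ℝ) ≤ 12 / 2 ^ J := by positivity
    have h3 : ∀ p ∈ u, ‖if p.1.Prime ∧ ¬p.1 ∣ D.q then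
        (a p.1 : ℂ) * (p.1 : ℂ) ^ (-(1 + 1 / Λ + I * τ) : ℂ) else 0‖ ≤
        if p.1 ∈ pr D (2 ^ J * Λ) \ pr D Λ then
          4 * (Real.exp (-(Real.log p.1 / Λ)) / p.1) else 0 := by
      intro p hp
      by_cases h : p.1.Prime ∧ ¬p.1 ∣ D.q
      · rw [if_pos h, if_pos (mem_sdiff.2 ⟨mem_pr.2 ⟨h.1, h.2, hJ p hp⟩, p.2⟩), mps1_cpow h.1.pos,
          norm_mul, norm_mul, norm_ex, mul_one, norm_real, norm_real, Real.norm_eq_abs,
          Real.norm_of_nonneg (by positivity)]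
        exact mul_le_mul_of_nonneg_right (ha _) (by positivity)
      · rw [if_neg h, norm_zero]
        positivity
    refine (sum_le_sum h3).trans ?_
    rw [← sum_image (s := u) (g := Subtype.val) (f := fun p : ℕ =>
      if p ∈ pr D (2 ^ J * Λ) \ pr D Λ then 4 * (Real.exp (-(Real.log p / Λ)) / p) else 0)
      Subtype.val_injective.injOn, sum_ite_mem]
    refine (sum_le_sum_of_subset_of_nonneg inter_subset_right fun p _ _ => by positivity).trans ?_
    rw [← mul_sum]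
    linarith

end Pool.Agent.Lib.MP_03e5d0_nt
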