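import Pool.Agent.Lib.MP_03e5d0_nt.MTr2

set_option autoImplicit false

noncomputable section

namespace Pool.Agent.Lib.MP_03e5d0_nt

open Complex Finset MeasureTheory
open scoped NumberTheorySymbols Real ContDiff

/-! Mollified second moments of a piece, and the number of bad integers. -/

theorem msm2_big {X : ℝ} (hX : Real.exp 3 ≤ X) : 3 ≤ X ∧ 3 ≤ Real.log X ∧ Real.exp (Real.log X) = X ∧
    0 ≤ ll X ∧ ll X ≤ 1 + Real.log X := by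
  have h1 : 3 ≤ X := by linarith [Real.add_one_le_exp (3 : ℝ)]
  have h2 : 3 ≤ Real.log X := (Real.le_log_iff_exp_le (by linarith)).2 hX
  refine ⟨h1, h2, Real.exp_log (by linarith), zero_le_one.trans (one_le_ll (by linarith)), ?_⟩
  have := Real.log_le_sub_one_of_pos (show 0 < 1 + Real.log X by linarith)
  unfold ll
  linarith

theorem msm2_pow {y t : ℝ} {c : ℕ} (hy : 0 ≤ y) (h : (c + 1) * y ≤ t) :
    Real.exp y ^ c ≤ Real.exp t ∧ y ≤ t := by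
  have : 0 ≤ (c : ℝ) * y := by positivity
  rw [← Real.exp_nat_mul]
  exact ⟨Real.exp_le_exp.2 (by linarith), by linarith⟩

/-- Write `L = log X`. `sum_allm_le_gsum`, then `trans2` with `V y = Θ ((L' - y) / U)` (`Sm.affine`,
`pc_supp`), `Lt = L' - U`, `Λ = L`, and `Y = exp (224 c (1 + a) Z / 2 ^ a)` (`poly_VV2`), or `Y = 1` if `a = J`.
With `A₁ = 448 c (c' + 1)` one has `Y ^ (c' + 1) ≤ exp (U / 2)`, so the error is at most
`C B ^ 2 X exp (-U / 2) ll X ^ 2 ≤ C B ^ 2 X / L ^ 2`, and `ly (Z / 2 ^ a) ≤ U ≤ L`. The main term is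
`diag_bound` with `ker`, `Λ' = ly (Z / 2 ^ a)`. -/
theorem sm2 (D : Data) (hFE : D.FE) (hPS : D.PS) {c : ℕ} (hc : 1 ≤ c) : ∃ (j : ℕ) (A₁ C X₀ : ℝ),
    1 ≤ A₁ ∧ 0 ≤ C ∧ ∀ (X Z U L' B : ℝ) (a b J : ℕ) (Θ : ℝ → ℂ), X₀ ≤ X → 0 ≤ Z → Z ≤ 2 ^ J → a ≤ b →
    b ≤ J → (A₁ * (1 + a) * (Z / 2 ^ a) ≤ U ∨ a = J) → 8 * Real.log (Real.log X) ≤ U →
    U ≤ Real.log X → L' ≤ Real.log X → Sm j 1 4 B Θ →
    ∑ m ∈ allm X, VV D c Z a b (jac m) ^ 8 * VV D c Z b J (jac m) ^ 6 * ‖pc D (jac m) L' U Θ‖ ^ 2 ≤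
      C * X * B ^ 2 * U * (2 : ℝ) ^ (2 * ((b : ℝ) - a) / 9) / ly (Z / 2 ^ a) ^ 2 *
        (1 + Real.log (1 + Real.log X / U)) := by
  obtain ⟨c', j₁, C₃, hC₃, H₃⟩ := trans2 D hFE hPS
  obtain ⟨k, C₁, hC₁, H₁⟩ := ker D hPS
  obtain ⟨j₂, C₂, hC₂, H₂⟩ := diag_bound k
  have hc' : (1 : ℝ) ≤ c := by exact_mod_cast hc
  have hA : (1 : ℝ) ≤ 448 * c * (c' + 1) := by nlinarith [(Nat.cast_nonneg c' : (0 : ℝ) ≤ c')]
  refine ⟨max j₁ j₂, 448 * c * (c' + 1), Real.exp π * (C₂ * C₁ + 4 * C₃), Real.exp 3, hA,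
    by positivity, fun X Z U L' B a b J Θ hX hZ hZJ hab hbJ hU h8 hUL hL' hΘ => ?_⟩
  obtain ⟨hX3, hL3, hXe, hl0, hl1⟩ := msm2_big hX
  set L := Real.log X with hL
  have hlog : 1 ≤ Real.log L := (Real.le_log_iff_exp_le (by linarith)).2
    (by linarith [Real.exp_one_lt_d9])
  have hU1 : 1 ≤ U := by linarith
  have hz : 0 ≤ Z / 2 ^ a := by positivity
  set f : (ℕ → ℝ) → ℝ := fun x => VV D c Z a b x ^ 8 * VV D c Z b J x ^ 6 with hf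
  obtain ⟨y, hy0, hy, hP, hzU⟩ : ∃ y : ℝ, 0 ≤ y ∧ (c' + 1) * y ≤ U / 2 ∧ Poly D (Real.exp y) f ∧
      Z / 2 ^ a ≤ U := by
    rcases hU with hU | rfl
    · refine ⟨_, by positivity, by linarith, poly_VV2 D c hZ hab J, le_trans ?_ hU⟩
      refine le_mul_of_one_le_left hz (one_le_mul_of_one_le_of_one_le hA ?_)
      linarith [(Nat.cast_nonneg a : (0 : ℝ) ≤ a)]
    · obtain rfl : a = b := le_antisymm hab hbJ
      refine ⟨0, le_rfl, by linarith, ?_, le_trans ((div_le_one (by positivity)).2 hZJ) hU1⟩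
      simpa [hf, VV_self] using poly_one D
  obtain ⟨hy1, hy2⟩ := msm2_pow hy0 hy
  have hly : ly (Z / 2 ^ a) ≤ U := max_le hU1 hzU
  have hly1 : 1 ≤ ly (Z / 2 ^ a) := le_max_left _ _
  have hB := hΘ.nonneg
  have haf := (hΘ.mono (le_max_left _ _) le_rfl le_rfl le_rfl).affine L' hU1
  have h3 := H₃ X (Real.exp y) B (L' - U) L f (fun y => Θ ((L' - y) / U)) hX3 hP
    (Real.one_le_exp hy0) (hXe ▸ Real.exp_le_exp.2 (by linarith)) haf.1 haf.2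
    (pc_supp hΘ (by linarith)) (by linarith) (by linarith) (by rw [Real.log_exp]; linarith)
  have h2 := H₂ D dl0 f L (ly (Z / 2 ^ a)) _ U L' 1 4 B Θ (by linarith) hU1 (by linarith) hly
    (by positivity) (by norm_num) le_rfl (hΘ.mono (le_max_right _ _) le_rfl le_rfl le_rfl)
    fun t₁ t₂ => H₁ c Z L a b J dl0 t₁ t₂ hc hZ hZJ hab hbJ (by linarith) (by linarith) dl_dl0
  have h1 := sum_allm_le_gsum (X := X) (by linarith) (f := fun x => f x * ‖pc D x L' U Θ‖ ^ 2)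
    (fun x _ => by simp only [hf]; positivity) (K := Real.exp y * (2 * B * Real.exp L') ^ 2)
    fun x hx => mul_le_mul ((le_abs_self _).trans (hP.abs_le hx))
      (pow_le_pow_left₀ (norm_nonneg _) (norm_pc_le hx hΘ (by linarith)) 2) (by positivity)
      (Real.exp_pos _).le
  refine h1.trans ?_
  set w : ℝ := (2 : ℝ) ^ (2 * ((b : ℝ) - a) / 9) with hw
  have hw1 : 1 ≤ w := Real.one_le_rpow one_le_two (by
    have : (a : ℝ) ≤ b := by exact_mod_cast hab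
    linarith)
  set g : ℝ := 1 + Real.log (1 + L / U) with hg
  have hg1 : 1 ≤ g := le_add_of_nonneg_right (Real.log_nonneg (le_add_of_nonneg_right (by positivity)))
  have hL0 : 0 < L := by linarith
  have e1 : Real.exp (U / 2) * Real.exp (L' - U) ≤ X / L ^ 4 := by
    rw [← Real.exp_add, ← hXe, ← Real.exp_log (pow_pos hL0 4), ← Real.exp_sub, Real.log_pow]
    exact Real.exp_le_exp.2 (by push_cast; linarith)
  have e2 : ll X ^ 2 ≤ (2 * L) ^ 2 := pow_le_pow_left₀ hl0 (by linarith) 2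
  have e3 : C₃ * B ^ 2 * Real.exp y ^ c' * Real.exp (L' - U) * ll X ^ 2 ≤
      4 * C₃ * X * B ^ 2 * U * w / ly (Z / 2 ^ a) ^ 2 * g :=
    calc _ = C₃ * B ^ 2 * (Real.exp y ^ c' * Real.exp (L' - U)) * ll X ^ 2 := by ring
      _ ≤ C₃ * B ^ 2 * (X / L ^ 4) * (2 * L) ^ 2 := by
        gcongr
        exact (mul_le_mul_of_nonneg_right hy1 (Real.exp_pos _).le).trans e1
      _ = 4 * C₃ * X * B ^ 2 * 1 * 1 / L ^ 2 * 1 := by field_simp; norm_num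
      _ ≤ _ := by gcongr; linarith
  have e4 := mul_le_mul_of_nonneg_left h2 (show 0 ≤ X by linarith)
  have e5 := (abs_le.1 h3).2
  calc _ ≤ Real.exp π * (X * (C₂ * (C₁ * w / ly (Z / 2 ^ a) ^ 2) * B ^ 2 * U * g) +
        4 * C₃ * X * B ^ 2 * U * w / ly (Z / 2 ^ a) ^ 2 * g) := by
        refine mul_le_mul_of_nonneg_left ?_ (Real.exp_pos _).le
        unfold pc at e4 ⊢
        linarith
    _ = _ := by ring

/-- If `bar i₀ j < VV ^ 3` then `bar i₀ j ^ (2 / 3) < VV ^ 2`. -/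
theorem not_good {D : Data} {c : ℕ} {Z : ℝ} {J i₀ : ℕ} {x : ℕ → ℝ} (h : ¬Good D c Z J i₀ x) :
    1 ≤ ∑ j ∈ range (J + 1), (2 : ℝ) ^ (-(7 * i₀ + 3 * j : ℝ) / 12) * VV D c Z 0 j x ^ 2 := by
  unfold Good at h
  push Not at h
  obtain ⟨j, hj, h⟩ := h
  refine le_trans ?_ (single_le_sum (f := fun j : ℕ => (2 : ℝ) ^ (-(7 * i₀ + 3 * j : ℝ) / 12) *
    VV D c Z 0 j x ^ 2) (fun _ _ => by positivity) (mem_range.2 (Nat.lt_succ_of_le hj)))
  set s : ℝ := 7 * i₀ + 3 * j with hs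
  have h1 : ((2 : ℝ) ^ (s / 24)) ^ 3 = bar i₀ j := by
    rw [← Real.rpow_natCast, ← Real.rpow_mul zero_le_two, bar]
    congr 1
    push_cast
    ring
  have h2 : (2 : ℝ) ^ (s / 24) ≤ VV D c Z 0 j x :=
    (lt_of_pow_lt_pow_left₀ 3 (VV_pos D c Z 0 j x).le (h1 ▸ h)).le
  have h3 : (2 : ℝ) ^ (-s / 12) * ((2 : ℝ) ^ (s / 24)) ^ 2 = 1 := by
    rw [← Real.rpow_natCast, ← Real.rpow_mul zero_le_two, ← Real.rpow_add zero_lt_two]
    rw [show -s / 12 + s / 24 * ((2 : ℕ) : ℝ) = 0 by push_cast; ring, Real.rpow_zero]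
  rw [← h3]
  gcongr

theorem sum_geom36 : ∃ C : ℝ, 0 ≤ C ∧ ∀ i₀ n : ℕ,
    ∑ j ∈ range n, (2 : ℝ) ^ (-(7 * i₀ + 3 * j : ℝ) / 12) * (2 : ℝ) ^ (2 * (j : ℝ) / 9) ≤
      C * (2 : ℝ) ^ (-(7 * i₀ : ℝ) / 12) := by
  have h0 : (0 : ℝ) ≤ (2 : ℝ) ^ (-1 / 36 : ℝ) := by positivity
  have h1 : (2 : ℝ) ^ (-1 / 36 : ℝ) < 1 := Real.rpow_lt_one_of_one_lt_of_neg one_lt_two (by norm_num)
  refine ⟨(1 - (2 : ℝ) ^ (-1 / 36 : ℝ))⁻¹, inv_nonneg.2 (by linarith), fun i₀ n => ?_⟩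
  have h2 : ∀ j : ℕ, (2 : ℝ) ^ (-(7 * i₀ + 3 * j : ℝ) / 12) * (2 : ℝ) ^ (2 * (j : ℝ) / 9) =
      ((2 : ℝ) ^ (-1 / 36 : ℝ)) ^ j * (2 : ℝ) ^ (-(7 * i₀ : ℝ) / 12) := fun j => by
    rw [← Real.rpow_natCast, ← Real.rpow_mul zero_le_two, ← Real.rpow_add zero_lt_two,
      ← Real.rpow_add zero_lt_two]
    congr 1
    ring
  simp only [h2, ← sum_mul]
  refine mul_le_mul_of_nonneg_right ?_ (by positivity)
  rw [← tsum_geometric_of_lt_one h0 h1]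
  exact (summable_geometric_of_lt_one h0 h1).sum_le_tsum _ fun _ _ => by positivity

open Classical in
/-- `not_good`, `sum_allm_le_gsum`, `trans0` with `Y = exp (32 c Z)` (`poly_VV`), `Y ^ (c' + 1) ≤ √X`,
`Λ = log X`, `ker0`, `sum_geom36`. -/
theorem bad_card (D : Data) (hFE : D.FE) (hPS : D.PS) {c : ℕ} (hc : 1 ≤ c) : ∃ A₁ C X₀ : ℝ,
    1 ≤ A₁ ∧ 0 ≤ C ∧ ∀ (X Z : ℝ) (J i₀ : ℕ), X₀ ≤ X → 0 ≤ Z → A₁ * Z ≤ Real.log X →
    (((allm X).filter fun m => ¬Good D c Z J i₀ (jac m)).card : ℝ) ≤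
      C * X * (2 : ℝ) ^ (-(7 * i₀ : ℝ) / 12) := by
  obtain ⟨c', C₁, hC₁, H₁⟩ := trans0 D hFE hPS
  obtain ⟨C₀, hC₀, H₀⟩ := ker0 D hPS
  obtain ⟨C₂, hC₂, H₂⟩ := sum_geom36
  have hc' : (1 : ℝ) ≤ c := by exact_mod_cast hc
  have hA : (1 : ℝ) ≤ 64 * c * (c' + 1) := by nlinarith [(Nat.cast_nonneg c' : (0 : ℝ) ≤ c')]
  refine ⟨64 * c * (c' + 1), Real.exp π * (C₀ + 16 * C₁) * C₂, Real.exp 3, hA, by positivity,
    fun X Z J i₀ hX hZ hAZ => ?_⟩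
  obtain ⟨hX3, hL3, hXe, hl0, hl1⟩ := msm2_big hX
  set L := Real.log X with hL
  obtain ⟨hy1, hy2⟩ := msm2_pow (y := 16 * c * (2 : ℕ) * (1 + (0 : ℕ)) * (Z / 2 ^ 0)) (t := L / 2)
    (c := c') (by positivity) (by push_cast; linarith)
  have key : ∀ j : ℕ, ∑ m ∈ allm X, VV D c Z 0 j (jac m) ^ 2 ≤
      Real.exp π * (C₀ + 16 * C₁) * X * (2 : ℝ) ^ (2 * (j : ℝ) / 9) := fun j => by
    have hP := poly_VV D c hZ 0 j 2
    have h1 := sum_allm_le_gsum (X := X) (by linarith) (f := fun x => VV D c Z 0 j x ^ 2)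
      (fun x _ => by positivity) fun x hx => (le_abs_self _).trans (hP.abs_le hx)
    have h2 := (abs_le.1 (H₁ X _ L _ hX3 hP (Real.one_le_exp (by positivity))
      (hXe ▸ Real.exp_le_exp.2 (by linarith)) hL3 (by rw [Real.log_exp]; linarith))).2
    have h3 := mul_le_mul_of_nonneg_left (H₀ c Z L j dl0 hc hZ
      ((le_mul_of_one_le_left hZ hA).trans hAZ) dl_dl0) (show 0 ≤ X by linarith)
    have hw : (1 : ℝ) ≤ (2 : ℝ) ^ (2 * (j : ℝ) / 9) := Real.one_le_rpow one_le_two (by positivity)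
    have h4 : ll X ≤ 4 * Real.exp (L / 4) := by linarith [Real.add_one_le_exp (L / 4)]
    have h5 : Real.exp (L / 2) * (4 * Real.exp (L / 4)) ^ 2 = 16 * X := by
      rw [mul_pow, ← Real.exp_nat_mul, mul_left_comm, ← Real.exp_add, ← hXe]
      congr 1
      · norm_num
      · congr 1
        push_cast
        ring
    have h6 : C₁ * Real.exp (16 * c * (2 : ℕ) * (1 + (0 : ℕ)) * (Z / 2 ^ 0)) ^ c' * ll X ^ 2 ≤
        C₁ * (16 * X) * (2 : ℝ) ^ (2 * (j : ℝ) / 9) :=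
      calc _ ≤ C₁ * Real.exp (L / 2) * (4 * Real.exp (L / 4)) ^ 2 := by gcongr
        _ = C₁ * (16 * X) * 1 := by rw [mul_assoc, h5, mul_one]
        _ ≤ _ := by gcongr
    refine h1.trans ?_
    rw [mul_assoc, mul_assoc]
    exact mul_le_mul_of_nonneg_left (by linarith) (Real.exp_pos _).le
  calc _ = ∑ m ∈ (allm X).filter fun m => ¬Good D c Z J i₀ (jac m), (1 : ℝ) := by simp
    _ ≤ ∑ m ∈ (allm X).filter fun m => ¬Good D c Z J i₀ (jac m), ∑ j ∈ range (J + 1),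
        (2 : ℝ) ^ (-(7 * i₀ + 3 * j : ℝ) / 12) * VV D c Z 0 j (jac m) ^ 2 :=
      sum_le_sum fun m hm => not_good (mem_filter.1 hm).2
    _ ≤ ∑ m ∈ allm X, ∑ j ∈ range (J + 1),
        (2 : ℝ) ^ (-(7 * i₀ + 3 * j : ℝ) / 12) * VV D c Z 0 j (jac m) ^ 2 :=
      sum_le_sum_of_subset_of_nonneg (filter_subset _ _) fun _ _ _ => by positivity
    _ ≤ ∑ j ∈ range (J + 1), Real.exp π * (C₀ + 16 * C₁) * X *
        ((2 : ℝ) ^ (-(7 * i₀ + 3 * j : ℝ) / 12) * (2 : ℝ) ^ (2 * (j : ℝ) / 9)) := by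
      rw [sum_comm]
      refine sum_le_sum fun j _ => ?_
      rw [← mul_sum, mul_left_comm]
      exact mul_le_mul_of_nonneg_left (key j) (by positivity)
    _ ≤ Real.exp π * (C₀ + 16 * C₁) * X * (C₂ * (2 : ℝ) ^ (-(7 * i₀ : ℝ) / 12)) := by
      rw [← mul_sum]
      exact mul_le_mul_of_nonneg_left (H₂ i₀ _) (by positivity)
    _ = _ := by ring

end Pool.Agent.Lib.MP_03e5d0_nt
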