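import Pool.Agent.Lib.MP_03e5d0_nt.TEx
import Pool.Agent.Lib.MP_03e5d0_nt.MDef

set_option autoImplicit false

noncomputable section

namespace Pool.Agent.Lib.MP_03e5d0_nt

open Complex Finset MeasureTheory
open scoped NumberTheorySymbols Real ContDiff

/-! The sieve for squarefree numbers: arithmetic lemmas. -/

open ArithmeticFunction in
/-- The sum of `μ a / a ^ 2` over `a` coprime to `n`. -/
def ms (n : ℕ) : ℝ := ∑' a : ℕ, if a.Coprime n then (moebius a : ℝ) / (a : ℝ) ^ 2 else 0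

/-- The general term of `ms`. -/
def msv1_f (n a : ℕ) : ℝ :=
  if a.Coprime n then (ArithmeticFunction.moebius a : ℝ) / (a : ℝ) ^ 2 else 0

theorem msv1_ms (n : ℕ) : ms n = ∑' a : ℕ, msv1_f n a := rfl

theorem msv1_mu (a : ℕ) : |(ArithmeticFunction.moebius a : ℝ)| ≤ 1 := by
  exact_mod_cast ArithmeticFunction.abs_moebius_le_one (n := a)

theorem msv1_abs (n a : ℕ) : |msv1_f n a| ≤ ((a : ℝ) ^ 2)⁻¹ := by
  unfold msv1_f
  split_ifs
  · rw [abs_div, abs_of_nonneg (by positivity : (0 : ℝ) ≤ (a : ℝ) ^ 2), ← one_div]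
    exact div_le_div_of_nonneg_right (msv1_mu a) (by positivity)
  · rw [abs_zero]
    positivity

theorem msv1_summ (n : ℕ) : Summable (msv1_f n) :=
  Summable.of_norm_bounded (Real.summable_nat_pow_inv.2 one_lt_two) fun a => msv1_abs n a

theorem msv1_congr {n m : ℕ} (h : ∀ a : ℕ, a.Coprime n ↔ a.Coprime m) : ms n = ms m := by
  unfold ms
  simp only [h]

theorem msv1_range {Z : ℕ} (hZ : 1 ≤ Z) (N : ℕ) :
    ∑ a ∈ range N, (((a + (Z + 1) : ℕ) : ℝ) ^ 2)⁻¹ ≤ 1 / Z - 1 / (Z + N) := by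
  have hZ' : (0 : ℝ) < Z := by exact_mod_cast hZ
  induction N with
  | zero => simp
  | succ N ih =>
    rw [sum_range_succ]
    have h1 : (((N + (Z + 1) : ℕ) : ℝ) ^ 2)⁻¹ ≤ 1 / (Z + N) - 1 / (Z + (N + 1 : ℕ)) := by
      push_cast
      have hN : (0 : ℝ) ≤ N := by positivity
      rw [div_sub_div _ _ (by positivity) (by positivity), ← one_div,
        div_le_div_iff₀ (by positivity) (by positivity)]
      nlinarith
    linarith

theorem msv1_tail (n : ℕ) {Z : ℕ} (hZ : 1 ≤ Z) :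
    |∑ a ∈ range (Z + 1), msv1_f n a - ms n| ≤ 1 / Z := by
  have hs : Summable fun a : ℕ => (((a + (Z + 1) : ℕ) : ℝ) ^ 2)⁻¹ :=
    (summable_nat_add_iff (f := fun a : ℕ => ((a : ℝ) ^ 2)⁻¹) (Z + 1)).2
      (Real.summable_nat_pow_inv.2 one_lt_two)
  rw [msv1_ms, ← (msv1_summ n).sum_add_tsum_nat_add (Z + 1), sub_add_cancel_left, abs_neg]
  refine (tsum_of_norm_bounded (f := fun a : ℕ => msv1_f n (a + (Z + 1))) hs.hasSum
    fun a => msv1_abs n _).trans ?_
  refine Real.tsum_le_of_sum_range_le (fun _ => by positivity) fun N => (msv1_range hZ N).trans ?_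
  have : (0 : ℝ) ≤ 1 / (Z + N) := by positivity
  linarith

/-- Split according to `p ∣ a`; `μ (p a) = -μ a` if `p ∤ a` and `0` otherwise. -/
theorem ms_mul_prime {n p : ℕ} (hp : p.Prime) (h : ¬p ∣ n) :
    ms n = (1 - 1 / (p : ℝ) ^ 2) * ms (n * p) := by
  have hpn : p.Coprime n := (Nat.Prime.coprime_iff_not_dvd hp).2 h
  have hp0 : (p : ℝ) ≠ 0 := by exact_mod_cast hp.ne_zero
  have h1 : ∀ a, msv1_f n a = msv1_f (n * p) a + if p ∣ a then msv1_f n a else 0 := by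
    intro a
    by_cases ha : p ∣ a
    · have : ¬a.Coprime (n * p) := fun e =>
        (Nat.Prime.coprime_iff_not_dvd hp).1 (Nat.Coprime.coprime_mul_left_right e).symm ha
      rw [if_pos ha, msv1_f, msv1_f, if_neg this, zero_add]
    · have : a.Coprime p := ((Nat.Prime.coprime_iff_not_dvd hp).2 ha).symm
      rw [if_neg ha, add_zero, msv1_f, msv1_f]
      simp only [Nat.coprime_mul_iff_right, eq_true this, and_true]
  have h2 : ∀ b, msv1_f n (p * b) = -(1 / (p : ℝ) ^ 2) * msv1_f (n * p) b := by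
    intro b
    unfold msv1_f
    simp only [Nat.coprime_mul_iff_right, Nat.coprime_mul_iff_left, eq_true hpn, true_and]
    by_cases hb : b.Coprime p
    · simp only [eq_true hb, and_true]
      split_ifs
      · rw [ArithmeticFunction.isMultiplicative_moebius.map_mul_of_coprime hb.symm,
          ArithmeticFunction.moebius_apply_prime hp]
        push_cast
        rw [mul_pow, mul_div_mul_comm, neg_div]
      · rw [mul_zero]
    · have hb' : p ∣ b := by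
        by_contra e
        exact hb ((Nat.Prime.coprime_iff_not_dvd hp).2 e).symm
      have : ¬Squarefree (p * b) := fun e =>
        hp.ne_one (Nat.isUnit_iff.1 (e p (Nat.mul_dvd_mul_left p hb')))
      simp [hb, ArithmeticFunction.moebius_eq_zero_of_not_squarefree this]
  have h3 : Summable fun a => if p ∣ a then msv1_f n a else 0 := by
    refine ((msv1_summ n).sub (msv1_summ (n * p))).congr fun a => ?_
    rw [h1 a]
    split_ifs with ha
    · have := h1 a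
      rw [if_pos ha] at this
      linarith
    · ring
  have h4 : (∑' a, if p ∣ a then msv1_f n a else 0) = ∑' b, msv1_f n (p * b) := by
    have hi : Function.Injective fun b : ℕ => p * b := mul_right_injective₀ hp.ne_zero
    rw [← hi.tsum_eq]
    · exact tsum_congr fun b => if_pos (dvd_mul_right p b)
    · intro a ha
      by_cases e : p ∣ a
      · obtain ⟨b, rfl⟩ := e
        exact ⟨b, rfl⟩
      · exact absurd (if_neg e) ha
  rw [msv1_ms, tsum_congr h1, (msv1_summ _).tsum_add h3, h4, tsum_congr h2, tsum_mul_left,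
    ← msv1_ms]
  ring

/-- `ms` depends only on the set of prime factors. -/
theorem ms_mul {q r : ℕ} (hr : r ≠ 0) (h : r.Coprime q) :
    ms q = (∏ p ∈ r.primeFactors, (1 - 1 / (p : ℝ) ^ 2)) * ms (q * r) := by
  induction r using induction_on_primes with
  | zero => exact absurd rfl hr
  | one => simp
  | prime_mul p r hp ih =>
    have hr' : r ≠ 0 := right_ne_zero_of_mul hr
    rw [ih hr' (Nat.Coprime.coprime_mul_left h), Nat.primeFactors_mul hp.ne_zero hr',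
      hp.primeFactors]
    by_cases e : p ∣ r
    · rw [union_eq_right.2 (singleton_subset_iff.2 (Nat.mem_primeFactors.2 ⟨hp, e, hr'⟩))]
      refine congrArg _ (msv1_congr fun a => ?_)
      simp only [Nat.coprime_mul_iff_right]
      exact ⟨fun h => ⟨h.1, Nat.Coprime.coprime_dvd_right e h.2, h.2⟩, fun h => ⟨h.1, h.2.2⟩⟩
    · have e' : ¬p ∣ q * r := fun h' => ((Nat.Prime.dvd_mul hp).1 h').elim
        ((Nat.Prime.coprime_iff_not_dvd hp).1 (Nat.Coprime.coprime_mul_right h)) e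
      rw [ms_mul_prime hp e', singleton_union,
        prod_insert fun h' => e (Nat.dvd_of_mem_primeFactors h'), mul_assoc q r p, mul_comm r p]
      ring

theorem rho_ms {q r : ℕ} (hr : r ≠ 0) (h : r.Coprime q) : rho dl0 r * ms (q * r) = rho dl1 r * ms q := by
  rw [ms_mul hr h, ← mul_assoc]
  refine congrArg (· * _) ?_
  unfold rho
  split_ifs
  · rw [← prod_mul_distrib]
    refine prod_congr rfl fun p hp => ?_
    have hp0 : (0 : ℝ) < p := by exact_mod_cast (Nat.prime_of_mem_primeFactors hp).pos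
    unfold dl0 dl1
    field_simp
    ring
  · rw [zero_mul]

/-- `∑_{a ≥ 2} 1 / a ^ 2 = π ^ 2 / 6 - 1 < 1`. -/
theorem ms_pos (n : ℕ) : 0 < ms n := by
  have h := (abs_le.1 (msv1_tail n (Z := 2) one_le_two)).2
  have h0 : msv1_f n 0 = 0 := by simp [msv1_f]
  have h1 : msv1_f n 1 = 1 := by simp [msv1_f]
  have h2 := (abs_le.1 (msv1_abs n 2)).1
  rw [sum_range_succ, sum_range_succ, sum_range_one, h0, h1] at h
  norm_num at h h2
  linarith

theorem ms_tail (n : ℕ) {Z : ℕ} (hZ : 1 ≤ Z) :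
    |∑ a ∈ (Icc 1 Z).filter (fun a : ℕ => a.Coprime n),
      (ArithmeticFunction.moebius a : ℝ) / (a : ℝ) ^ 2 - ms n| ≤ 1 / Z := by
  have h : ∑ a ∈ (Icc 1 Z).filter (fun a : ℕ => a.Coprime n),
      (ArithmeticFunction.moebius a : ℝ) / (a : ℝ) ^ 2 = ∑ a ∈ range (Z + 1), msv1_f n a := by
    rw [sum_filter, range_eq_Ico, sum_eq_sum_Ico_succ_bot (Nat.succ_pos Z),
      show msv1_f n 0 = 0 by simp [msv1_f], zero_add]
    rfl
  rw [h]
  exact msv1_tail n hZ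

theorem msv1_sq_dvd {a b c : ℕ} (hb : 0 < b) (hc : Squarefree c) : a ^ 2 ∣ b ^ 2 * c ↔ a ∣ b := by
  refine ⟨fun h => ?_, fun h => (pow_dvd_pow_of_dvd h 2).mul_right c⟩
  obtain ⟨a', b', h1, h2, h3⟩ := Nat.exists_coprime a b
  have hg : 0 < a.gcd b := Nat.gcd_pos_of_pos_right a hb
  generalize a.gcd b = g at h2 h3 hg
  subst h2 h3
  have h4 : a' ^ 2 ∣ b' ^ 2 * c := by
    refine Nat.dvd_of_mul_dvd_mul_right (pow_pos hg 2) ?_
    rw [← mul_pow, mul_right_comm, ← mul_pow]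
    exact h
  have h5 : a' ^ 2 ∣ c := (Nat.Coprime.pow 2 2 h1).dvd_of_dvd_mul_left h4
  rw [Nat.isUnit_iff.1 (hc a' (by rwa [← sq])), one_mul]
  exact dvd_mul_left g b'

theorem msv1_int {a : ℕ} {d : ℤ} : (a : ℤ) ^ 2 ∣ d ↔ a ^ 2 ∣ d.natAbs := by
  rw [← Int.natCast_dvd, Nat.cast_pow]

theorem msv1_sum_mu (b : ℕ) :
    ∑ a ∈ b.divisors, (ArithmeticFunction.moebius a : ℝ) = if b = 1 then 1 else 0 := by
  have h := congrArg (fun f : ArithmeticFunction ℝ => f b)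
    (ArithmeticFunction.coe_moebius_mul_coe_zeta (R := ℝ))
  simp only [ArithmeticFunction.coe_mul_zeta_apply, ArithmeticFunction.intCoe_apply,
    ArithmeticFunction.one_apply] at h
  exact h

open Classical in
/-- Write `|d| = b ^ 2 * d'` with `d'` squarefree (`Nat.sq_mul_squarefree`); `a ^ 2 ∣ d ↔ a ∣ b`, so the sum of
`μ a` over all `a` with `a ^ 2 ∣ d` is `1` or `0` (`ArithmeticFunction.coe_moebius_mul_coe_zeta`). -/
theorem sqfree_sub_mulo (Z : ℕ) {d : ℤ} (hd : d ≠ 0) :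
    |(if Squarefree d then 1 else 0) - mulo Z d| ≤ nu Z d := by
  have hn : 0 < d.natAbs := Int.natAbs_pos.2 hd
  obtain ⟨c, b, hc0, hb, e, hc⟩ := Nat.sq_mul_squarefree_of_pos hn
  have h1 : ∀ a : ℕ, (a : ℤ) ^ 2 ∣ d ↔ a ∣ b := fun a => by
    rw [msv1_int, ← e, msv1_sq_dvd hb hc]
  have h2 : Squarefree d ↔ b = 1 := by
    rw [← Int.squarefree_natAbs, ← e]
    refine ⟨fun h => Nat.isUnit_iff.1 (h b (by rw [← sq]; exact dvd_mul_right _ _)), fun h => ?_⟩
    rwa [h, one_pow, one_mul]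
  have hbd : b ≤ d.natAbs := Nat.le_of_dvd hn (e ▸ (dvd_pow_self b two_ne_zero).mul_right c)
  have h3 : mulo Z d = ∑ a ∈ b.divisors.filter fun a => a ≤ Z,
      (ArithmeticFunction.moebius a : ℝ) := by
    unfold mulo
    refine sum_congr ?_ fun _ _ => rfl
    ext a
    simp only [mem_filter, mem_Icc, h1, Nat.mem_divisors]
    exact ⟨fun h => ⟨⟨h.2, hb.ne'⟩, h.1.2⟩, fun h => ⟨⟨Nat.pos_of_dvd_of_pos h.1.1 hb, h.2⟩, h.1.1⟩⟩
  have h4 : nu Z d = (b.divisors.filter fun a => ¬a ≤ Z).card := by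
    unfold nu
    refine congrArg _ ?_
    ext a
    simp only [mem_filter, mem_Ioc, h1, Nat.mem_divisors, not_le]
    exact ⟨fun h => ⟨⟨h.2, hb.ne'⟩, h.1.1⟩,
      fun h => ⟨⟨h.2, (Nat.le_of_dvd hb h.1.1).trans hbd⟩, h.1.1⟩⟩
  simp only [h2]
  rw [← msv1_sum_mu, h3, h4, ← sum_filter_add_sum_filter_not b.divisors fun a => a ≤ Z,
    add_sub_cancel_left]
  refine (abs_sum_le_sum_abs _ _).trans ((sum_le_sum fun a _ => msv1_mu a).trans ?_)
  rw [sum_const, nsmul_eq_mul, mul_one]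

theorem msv1_nu_le (Z : ℕ) (d : ℤ) : nu Z d ≤ d.natAbs.divisors.card := by
  unfold nu
  refine card_le_card fun a ha => ?_
  simp only [mem_filter, mem_Ioc, msv1_int] at ha
  exact Nat.mem_divisors.2 ⟨(dvd_pow_self a two_ne_zero).trans ha.2, by omega⟩

theorem msv1_count (N m : ℕ) :
    ((Icc (-(N : ℤ)) N).filter fun d : ℤ => d ≠ 0 ∧ m ∣ d.natAbs).card ≤ 2 * (N / m) := by
  rw [← Nat.Ioc_filter_dvd_card_eq_div, two_mul]
  refine le_trans (card_le_card (t := ((Ioc 0 N).filter fun k => m ∣ k).image (fun k : ℕ => (k : ℤ)) ∪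
    ((Ioc 0 N).filter fun k => m ∣ k).image fun k : ℕ => -(k : ℤ)) fun d hd => ?_)
    ((card_union_le _ _).trans (add_le_add card_image_le card_image_le))
  simp only [mem_filter, mem_Icc] at hd
  have h1 : d.natAbs ∈ (Ioc 0 N).filter fun k => m ∣ k :=
    mem_filter.2 ⟨mem_Ioc.2 (by omega), hd.2.2⟩
  rcases Int.natAbs_eq d with e | e
  · exact mem_union_left _ (mem_image.2 ⟨_, h1, e.symm⟩)
  · exact mem_union_right _ (mem_image.2 ⟨_, h1, e.symm⟩)

theorem msv1_sum_nu {X : ℝ} {Z : ℕ} (hX : 1 ≤ X) (hZ : 1 ≤ Z) :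
    ∑ d ∈ allm X, (nu Z d : ℝ) ≤ 2 * X / Z := by
  have hX0 : 0 ≤ X := zero_le_one.trans hX
  have h1 : ∀ d ∈ allm X, (nu Z d : ℝ) ≤
      ∑ a ∈ Ioc Z (Z + ⌊X⌋₊), if d ≠ 0 ∧ a ^ 2 ∣ d.natAbs then (1 : ℝ) else 0 := by
    intro d hd
    rw [sum_boole, Nat.cast_le]
    unfold nu
    refine card_le_card fun a ha => ?_
    simp only [mem_filter, mem_Ioc, msv1_int] at ha ⊢
    rw [allm, mem_Icc] at hd
    exact ⟨⟨ha.1.1, by omega⟩, by omega, ha.2⟩
  refine (sum_le_sum h1).trans ?_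
  rw [sum_comm]
  have h2 : ∀ a ∈ Ioc Z (Z + ⌊X⌋₊), (∑ d ∈ allm X,
      if d ≠ 0 ∧ a ^ 2 ∣ d.natAbs then (1 : ℝ) else 0) ≤ 2 * X * ((a : ℝ) ^ 2)⁻¹ := by
    intro a _
    rw [sum_boole, allm]
    refine (Nat.cast_le.2 (msv1_count ⌊X⌋₊ (a ^ 2))).trans ?_
    rw [Nat.cast_mul, Nat.cast_two, mul_assoc, ← div_eq_mul_inv]
    refine mul_le_mul_of_nonneg_left (Nat.cast_div_le.trans ?_) zero_le_two
    rw [Nat.cast_pow]
    exact div_le_div_of_nonneg_right (Nat.floor_le hX0) (by positivity)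
  refine (sum_le_sum h2).trans ?_
  rw [← mul_sum, div_eq_mul_inv]
  refine mul_le_mul_of_nonneg_left
    ((sum_Ioc_inv_sq_le_sub (α := ℝ) (by omega) (Nat.le_add_right _ _)).trans ?_) (by positivity)
  exact sub_le_self _ (by positivity)

/-- `nu Z d ≤ d(|d|) ≤ C X ^ ε` and `∑_d nu Z d ≤ ∑_{a > Z} 2 X / a ^ 2`. -/
theorem sum_nu_sq (ε : ℝ) (hε : 0 < ε) : ∃ C : ℝ, 0 ≤ C ∧ ∀ (X : ℝ) (Z : ℕ), 1 ≤ X → 1 ≤ Z →
    ∑ d ∈ allm X, (nu Z d : ℝ) ^ 2 ≤ C * X ^ (1 + ε) / Z := by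
  obtain ⟨C, hC, h⟩ := card_divisors_le ε hε
  refine ⟨2 * C, by positivity, fun X Z hX hZ => ?_⟩
  have hX0 : 0 < X := zero_lt_one.trans_le hX
  have h1 : ∀ d ∈ allm X, (nu Z d : ℝ) ^ 2 ≤ C * X ^ ε * nu Z d := by
    intro d hd
    rw [sq]
    refine mul_le_mul_of_nonneg_right ((Nat.cast_le.2 (msv1_nu_le Z d)).trans ((h _).trans ?_))
      (by positivity)
    refine mul_le_mul_of_nonneg_left (Real.rpow_le_rpow (by positivity) ?_ hε.le) hC
    rw [Nat.cast_natAbs, Int.cast_abs]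
    exact (mem_allm hX0.le).1 hd
  refine (sum_le_sum h1).trans ?_
  rw [← mul_sum]
  refine (mul_le_mul_of_nonneg_left (msv1_sum_nu hX hZ) (by positivity)).trans (le_of_eq ?_)
  rw [Real.rpow_add hX0, Real.rpow_one]
  ring

theorem msv1_sq {m l n : ℕ} (hm : 0 < m) (hl : Squarefree l) (h : IsSquare (m ^ 2 * l * n)) :
    ∃ b, n = l * b ^ 2 := by
  obtain ⟨s, hs⟩ := h
  rw [← sq, mul_assoc] at hs
  obtain ⟨t, rfl⟩ : m ∣ s := (Nat.pow_dvd_pow_iff two_ne_zero).1 ⟨_, hs.symm⟩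
  rw [mul_pow] at hs
  have h1 := Nat.eq_of_mul_eq_mul_left (pow_pos hm 2) hs
  obtain ⟨b, rfl⟩ : l ∣ t := (hl.dvd_pow_iff_dvd two_ne_zero).1 ⟨_, h1.symm⟩
  refine ⟨b, Nat.eq_of_mul_eq_mul_left (Nat.pos_of_ne_zero hl.ne_zero) ?_⟩
  rw [h1]
  ring

theorem msv1_harm {ℓ : ℕ} (hℓ : ℓ ≠ 0) (N : ℕ) :
    ∑ n ∈ range N, 1 / √n * rho dl0 (ℓ * n) ≤ 1 + Real.log N := by
  obtain ⟨l, m, hl0, hm, e, hl⟩ := Nat.sq_mul_squarefree_of_pos (Nat.pos_of_ne_zero hℓ)
  have h1 : ∑ n ∈ range N, 1 / √n * rho dl0 (ℓ * n) ≤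
      ∑ n ∈ (Icc 1 N).image fun b : ℕ => l * b ^ 2, 1 / √(n : ℝ) * rho dl0 (ℓ * n) := by
    rw [← sum_filter_ne_zero]
    refine sum_le_sum_of_subset_of_nonneg (fun n hn => ?_)
      fun n _ _ => mul_nonneg (by positivity) (rho_mem dl_dl0 _).1
    obtain ⟨hn, h0⟩ := mem_filter.1 hn
    have h2 : IsSquare (ℓ * n) := by
      by_contra e'
      exact h0 (by rw [rho, if_neg e', mul_zero])
    obtain ⟨b, rfl⟩ := msv1_sq hm hl (e ▸ h2)
    have hb : b ≠ 0 := fun e' => h0 (by simp [e'])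
    refine mem_image.2 ⟨b, mem_Icc.2 ⟨Nat.one_le_iff_ne_zero.2 hb, ?_⟩, rfl⟩
    exact ((Nat.le_self_pow two_ne_zero b).trans (Nat.le_mul_of_pos_left _ hl0)).trans
      (mem_range.1 hn).le
  refine h1.trans ?_
  rw [sum_image fun a _ b _ h => Nat.pow_left_injective two_ne_zero
    (Nat.eq_of_mul_eq_mul_left hl0 h)]
  refine le_trans ?_ (harmonic_le_one_add_log N)
  rw [harmonic_eq_sum_Icc, Rat.cast_sum]
  refine sum_le_sum fun b hb => ?_
  have hb0 : (0 : ℝ) < b := by exact_mod_cast (mem_Icc.1 hb).1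
  refine (mul_le_of_le_one_right (by positivity) (rho_mem dl_dl0 _).2).trans ?_
  rw [Rat.cast_inv, Rat.cast_natCast, ← one_div]
  refine one_div_le_one_div_of_le hb0 (Real.le_sqrt_of_sq_le ?_)
  exact_mod_cast Nat.le_mul_of_pos_left _ hl0

/-- If `ℓ n` is a square then `n = ℓ₁ b ^ 2` with `ℓ₁` the squarefree part of `ℓ`; so `n ↦ b` is injective,
`1 / √n ≤ 1 / b`, and the harmonic sum is at most `1 + log N`. `lam_le_card`, `card_divisors_le`. -/
theorem sum_rho (ε : ℝ) (hε : 0 < ε) : ∃ C : ℝ, 0 ≤ C ∧ ∀ (D : Data) (ℓ N : ℕ), ℓ ≠ 0 →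
    ∑ n ∈ range N, |D.lam n| / √n * rho dl0 (ℓ * n) ≤ C * (N : ℝ) ^ ε := by
  have hε2 : 0 < ε / 2 := half_pos hε
  obtain ⟨C, hC, h⟩ := card_divisors_le (ε / 2) hε2
  refine ⟨C * (1 + 2 / ε), by positivity, fun D ℓ N hℓ => ?_⟩
  rcases N.eq_zero_or_pos with rfl | hN
  · rw [sum_range_zero]
    positivity
  have hN1 : (1 : ℝ) ≤ N := by exact_mod_cast hN
  have h1 : ∀ n ∈ range N, |D.lam n| / √n * rho dl0 (ℓ * n) ≤
      C * (N : ℝ) ^ (ε / 2) * (1 / √n * rho dl0 (ℓ * n)) := by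
    intro n hn
    rw [div_eq_mul_one_div, mul_assoc]
    refine mul_le_mul_of_nonneg_right ((D.lam_le_card n).trans ((h n).trans ?_))
      (mul_nonneg (by positivity) (rho_mem dl_dl0 _).1)
    exact mul_le_mul_of_nonneg_left (Real.rpow_le_rpow (by positivity)
      (Nat.cast_le.2 (mem_range.1 hn).le) hε2.le) hC
  refine (sum_le_sum h1).trans ?_
  rw [← mul_sum]
  have h2 : 1 + Real.log N ≤ (1 + 2 / ε) * (N : ℝ) ^ (ε / 2) := by
    have h3 := Real.log_le_rpow_div (zero_le_one.trans hN1) hε2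
    have h4 := Real.one_le_rpow hN1 hε2.le
    have h5 : (N : ℝ) ^ (ε / 2) / (ε / 2) = 2 / ε * (N : ℝ) ^ (ε / 2) := by field_simp
    linarith
  refine (mul_le_mul_of_nonneg_left ((msv1_harm hℓ N).trans h2) (by positivity)).trans
    (le_of_eq ?_)
  rw [mul_mul_mul_comm, ← Real.rpow_add (zero_lt_one.trans_le hN1), add_halves]

end Pool.Agent.Lib.MP_03e5d0_nt
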