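import Pool.Agent.Lib.MP_03e5d0_nt.MPer
import Pool.Agent.Lib.MP_03e5d0_nt.MSv1

set_option autoImplicit false

noncomputable section

namespace Pool.Agent.Lib.MP_03e5d0_nt

open Complex Finset MeasureTheory
open scoped NumberTheorySymbols Real ContDiff

/-! Character sums over the sieved family. -/

theorem Phi_mem (y : ℝ) : 0 ≤ Phi y ∧ Phi y ≤ 1 := by exact psi_mem _

theorem Phi_eq_zero {y : ℝ} (h : y ≤ 1 / 2 ∨ 1 ≤ y) : Phi y = 0 := by exact tsm_psi (h.imp (fun e => by linarith) fun e => by linarith)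

theorem msv2_smooth : ContDiff ℝ ∞ Phi := by
  have h : ContDiff ℝ ∞ psi :=
    (Real.smoothTransition.contDiff.comp (contDiff_id.add contDiff_const)).sub
      Real.smoothTransition.contDiff
  exact h.comp ((contDiff_const.mul contDiff_id).sub contDiff_const)

theorem sm_Phi (j : ℕ) : ∃ B : ℝ, ∀ s : ℤ, (s = 1 ∨ s = -1) →
    Sm j (-1) 1 B fun y => (Phi (s * y) : ℂ) := by
  obtain ⟨B, hB⟩ := exists_sm (a := -1) (b := 1) j (ofRealCLM.contDiff.comp msv2_smooth)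
    fun y hy => ofReal_eq_zero.2 (Phi_eq_zero (hy.imp (fun e => by linarith) le_of_lt))
  refine ⟨B, ?_⟩
  rintro s (rfl | rfl)
  · simp only [Int.cast_one, one_mul]
    exact hB
  · have h := hB.neg_arg
    simp only [Int.cast_neg, Int.cast_one, neg_one_mul]
    rw [neg_neg] at h
    exact h

theorem integral_Phi : 0 < ∫ y, Phi y ∧ ∫ y, Phi y ≤ 1 := by
  constructor
  · refine msv2_smooth.continuous.integral_pos_of_hasCompactSupport_nonneg_nonzero (x := 3 / 4)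
      (HasCompactSupport.intro (isCompact_Icc (a := 0) (b := 1)) fun y hy => Phi_eq_zero ?_)
      (fun y => (Phi_mem y).1) ?_
    · rcases not_and_or.1 hy with h | h
      · exact Or.inl (by linarith [not_le.1 h])
      · exact Or.inr (not_le.1 h).le
    · rw [Phi, show (4 : ℝ) * (3 / 4) - 3 = 0 by norm_num, psi_zero]
      exact one_ne_zero
  · have hn : ∀ y, ‖(Phi y : ℂ)‖ = Phi y := fun y => by
      rw [norm_real, Real.norm_of_nonneg (Phi_mem y).1]
    have h : Sm 0 0 1 1 fun y => (Phi y : ℂ) := ⟨ofRealCLM.contDiff.comp msv2_smooth,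
      fun y hy => ofReal_eq_zero.2 (Phi_eq_zero (hy.imp (fun e => by linarith) le_of_lt)),
      fun i hi y => by
        rw [Nat.le_zero.1 hi, iteratedDeriv_zero, hn]
        exact (Phi_mem y).2⟩
    have h1 := tft_norm_int h le_rfl
    simp only [iteratedDeriv_zero, hn] at h1
    exact h1.trans (by norm_num)

theorem msv2_one {n c : ℕ} (hc : c < n) :
    ∑ m ∈ range n, (if (m : ℤ) ≡ c [ZMOD n] then (1 : ℝ) else 0) = 1 := by
  rw [sum_eq_single_of_mem c (mem_range.2 hc), if_pos (Int.ModEq.refl _)]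
  intro m hm hne
  exact if_neg fun e => hne (Nat.ModEq.eq_of_lt_of_lt (Int.natCast_modEq_iff.1 e)
    (mem_range.1 hm) hc)

theorem msv2_per {n : ℤ} (c m : ℤ) {R : ℤ} (h : n ∣ R) : m + R ≡ c [ZMOD n] ↔ m ≡ c [ZMOD n] := by
  have e : m + R ≡ m [ZMOD n] := by
    simpa using (Int.ModEq.refl m).add (Int.modEq_zero_iff_dvd.2 h)
  exact ⟨fun a => e.symm.trans a, fun a => e.trans a⟩

theorem msv2_jac (m : ℤ) {r : ℕ} {R : ℤ} (h : (r : ℤ) ∣ R) : J(m + R | r) = J(m | r) :=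
  jacobiSym.mod_left' ((msv2_per m m h).2 (Int.ModEq.refl m))

open Classical in
/-- The function is periodic mod `R = 8 q * a ^ 2 * r`. If `a` is coprime to `q r` the three moduli are
pairwise coprime (`2 ∣ q`): `sum_range_crt` twice and `sum_jacobi`. Otherwise the function vanishes. -/
theorem mean_class (D : Data) {a r : ℕ} (ha : a ≠ 0) (hr : r ≠ 0) (h : r.Coprime D.q) :
    ∑ m ∈ range (8 * D.q * a ^ 2 * r),
      (if (m : ℤ) ≡ 1 [ZMOD 8 * D.q] ∧ (a : ℤ) ^ 2 ∣ m then (J((m : ℤ) | r) : ℝ) else 0) =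
      if a.Coprime (D.q * r) then r * rho dl0 r else 0 := by
  split_ifs with hc
  · have hq := Nat.pos_of_ne_zero D.q_ne
    have c1 : a.Coprime D.q := Nat.Coprime.coprime_mul_right_right hc
    have c2 : a.Coprime r := Nat.Coprime.coprime_mul_left_right hc
    have c8 : ∀ n : ℕ, n.Coprime D.q → (8 * D.q).Coprime n := fun n hn =>
      Nat.Coprime.mul_left
        (Nat.Coprime.pow_left 3 (Nat.Coprime.coprime_dvd_right D.two_dvd hn).symm) hn.symm
    have hodd : Odd r := Nat.coprime_two_right.1 (Nat.Coprime.coprime_dvd_right D.two_dvd h)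
    have s1 := sum_range_crt ((c8 a c1).pow_right 2)
      (g₁ := fun m => if m ≡ (1 : ℕ) [ZMOD (8 * D.q : ℕ)] then 1 else 0)
      (g₂ := fun m => if m ≡ (0 : ℕ) [ZMOD (a ^ 2 : ℕ)] then 1 else 0)
      (fun m => by simp only [msv2_per _ m dvd_rfl]) fun m => by simp only [msv2_per _ m dvd_rfl]
    rw [msv2_one (by omega), msv2_one (by positivity), one_mul] at s1
    have s2 := sum_range_crt (Nat.Coprime.mul_left (c8 r h) (c2.pow_left 2))
      (g₁ := fun m => (if m ≡ (1 : ℕ) [ZMOD (8 * D.q : ℕ)] then 1 else 0) *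
        if m ≡ (0 : ℕ) [ZMOD (a ^ 2 : ℕ)] then 1 else 0) (g₂ := fun m => (J(m | r) : ℝ))
      (fun m => by
        simp only [msv2_per _ m (Int.natCast_dvd_natCast.2 (dvd_mul_right (8 * D.q) (a ^ 2))),
          msv2_per _ m (Int.natCast_dvd_natCast.2 (dvd_mul_left (a ^ 2) (8 * D.q)))])
      fun m => by rw [msv2_jac m dvd_rfl]
    rw [s1, one_mul, sum_jacobi hodd] at s2
    rw [← s2]
    refine sum_congr rfl fun m _ => ?_
    push_cast
    simp only [Int.modEq_zero_iff_dvd]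
    by_cases a1 : (m : ℤ) ≡ 1 [ZMOD 8 * D.q] <;> by_cases a2 : (a : ℤ) ^ 2 ∣ m <;> simp [a1, a2]
  · refine sum_eq_zero fun m _ => ?_
    split_ifs with hm
    · obtain ⟨p, hp, p1, p2⟩ := Nat.Prime.not_coprime_iff_dvd.1 hc
      have p3 : (p : ℤ) ∣ m :=
        ((Int.natCast_dvd_natCast.2 p1).trans (dvd_pow_self _ two_ne_zero)).trans hm.2
      rcases (Nat.Prime.dvd_mul hp).1 p2 with p4 | p4
      · have p5 := ((Int.natCast_dvd_natCast.2 p4).mul_left 8).trans hm.1.dvd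
        have p6 : (p : ℤ) ∣ (1 : ℕ) := by simpa using dvd_add p5 p3
        exact absurd (Nat.dvd_one.1 (Int.natCast_dvd_natCast.1 p6)) hp.one_lt.ne'
      · rw [jacobiSym.eq_zero_iff.2 ⟨hr, fun e => ?_⟩, Int.cast_zero]
        have p5 := Int.dvd_gcd p3 (Int.natCast_dvd_natCast.2 p4)
        rw [e] at p5
        exact absurd (Nat.dvd_one.1 p5) hp.one_lt.ne'
    · rfl

open Classical in
/-- `per` and `mean_class`; the sum over `allm X` is the sum over all integers. -/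
theorem class_sum (D : Data) (j : ℕ) (hj : 2 ≤ j) : ∃ C : ℝ, 0 ≤ C ∧ ∀ (X : ℝ) (a r : ℕ) (s : ℤ), 1 ≤ X →
    a ≠ 0 → r ≠ 0 → r.Coprime D.q → (s = 1 ∨ s = -1) →
    |∑ d ∈ (allm X).filter (fun d => d ≡ 1 [ZMOD 8 * D.q] ∧ (a : ℤ) ^ 2 ∣ d),
        Phi (s * d / X) * (J(d | r) : ℝ) -
      (if a.Coprime (D.q * r) then X * (∫ y, Phi y) / (8 * D.q) * rho dl0 r / (a : ℝ) ^ 2 else 0)| ≤
      C * X * (8 * D.q * a ^ 2 * r / X) ^ j := by
  obtain ⟨C, hC, H⟩ := per j hj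
  obtain ⟨B, hB⟩ := sm_Phi j
  refine ⟨C * B, mul_nonneg hC (hB 1 (Or.inl rfl)).nonneg, fun X a r s hX ha hr h hs => ?_⟩
  have hq := Nat.pos_of_ne_zero D.q_ne
  have hX0 : 0 < X := by linarith
  have h1 := H B X (8 * D.q * a ^ 2 * r) _
    (fun m => if m ≡ 1 [ZMOD 8 * D.q] ∧ (a : ℤ) ^ 2 ∣ m then (J(m | r) : ℝ) else 0) (hB s hs) hX0
    (by positivity)
    (fun m => by
      split_ifs
      · rcases jacobiSym.trichotomy m r with e | e | e <;> simp [e]
      · simp)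
    fun m => by
      have d1 : (8 * D.q : ℤ) ∣ (8 * D.q * a ^ 2 * r : ℕ) := ⟨a ^ 2 * r, by push_cast; ring⟩
      have d2 : (a : ℤ) ^ 2 ∣ (8 * D.q * a ^ 2 * r : ℕ) := ⟨8 * D.q * r, by push_cast; ring⟩
      have d3 : (r : ℤ) ∣ (8 * D.q * a ^ 2 * r : ℕ) := ⟨8 * D.q * a ^ 2, by push_cast; ring⟩
      simp only [msv2_per 1 m d1, msv2_jac m d3, dvd_add_left d2]
  have h2 : ∫ y : ℝ, (Phi (s * y) : ℂ) = (∫ y, Phi y : ℝ) := by
    rw [integral_complex_ofReal]
    rcases hs with rfl | rfl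
    · simp only [Int.cast_one, one_mul]
    · simp only [Int.cast_neg, Int.cast_one, neg_one_mul, integral_neg_eq_self]
  rw [mean_class D ha hr h, h2, tsum_eq_sum (s := allm X) fun d hd => by
    have h3 : 1 < |(d : ℝ) / X| := by
      rw [abs_div, abs_of_pos hX0, one_lt_div hX0]
      exact not_le.1 ((mem_allm hX0.le).not.1 hd)
    rw [Phi_eq_zero, ofReal_zero, zero_mul]
    rcases hs with rfl | rfl <;> rcases lt_abs.1 h3 with e | e <;> push_cast <;>
      first | exact Or.inr (by linarith) | exact Or.inl (by linarith)] at h1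
  simp only [← ofReal_mul, ← ofReal_sum, ← ofReal_sub, norm_real, Real.norm_eq_abs] at h1
  push_cast at h1
  rw [sum_filter]
  convert h1 using 3
  · refine sum_congr rfl fun d _ => ?_
    split_ifs
    · rw [mul_div_assoc]
    · rw [mul_zero]
  · split_ifs
    · field_simp
    · simp

open Classical in
/-- `cq = (∫ Phi) / (8 q) * ms q`; exchange the sums, `class_sum`, `ms_tail`, `rho_ms`. -/
theorem sieve_char (D : Data) : ∃ cq : ℝ, 0 < cq ∧ ∀ j : ℕ, 2 ≤ j → ∃ C : ℝ, 0 ≤ C ∧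
    ∀ (X : ℝ) (Z r : ℕ) (s : ℤ), 1 ≤ X → 1 ≤ Z → r ≠ 0 → r.Coprime D.q → (s = 1 ∨ s = -1) →
    |∑ d ∈ (allm X).filter (fun d => d ≡ 1 [ZMOD 8 * D.q]),
        Phi (s * d / X) * mulo Z d * (J(d | r) : ℝ) - cq * X * rho dl1 r| ≤
      X * rho dl0 r / Z + C * Z * X * (8 * D.q * Z ^ 2 * r / X) ^ j := by
  have hq : (0 : ℝ) < D.q := by exact_mod_cast Nat.pos_of_ne_zero D.q_ne
  have hq1 : (1 : ℝ) ≤ D.q := by exact_mod_cast Nat.pos_of_ne_zero D.q_ne
  obtain ⟨i1, i2⟩ := integral_Phi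
  have hm := ms_pos D.q
  refine ⟨(∫ y, Phi y) / (8 * D.q) * ms D.q, by positivity, fun j hj => ?_⟩
  obtain ⟨C, hC, H⟩ := class_sum D j hj
  refine ⟨C, hC, fun X Z r s hX hZ hr h hs => ?_⟩
  have hρ := (rho_mem dl_dl0 r).1
  obtain ⟨S, hS⟩ : ∃ S : ℕ → ℝ, ∀ a, S a =
      ∑ d ∈ (allm X).filter (fun d => d ≡ 1 [ZMOD 8 * D.q] ∧ (a : ℤ) ^ 2 ∣ d),
        Phi (s * d / X) * (J(d | r) : ℝ) := ⟨_, fun _ => rfl⟩
  obtain ⟨M, hM⟩ : ∃ M : ℕ → ℝ, ∀ a, M a = if a.Coprime (D.q * r) then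
      X * (∫ y, Phi y) / (8 * D.q) * rho dl0 r / (a : ℝ) ^ 2 else 0 := ⟨_, fun _ => rfl⟩
  obtain ⟨K, hK⟩ : ∃ K, K = X * (∫ y, Phi y) / (8 * D.q) * rho dl0 r := ⟨_, rfl⟩
  have e1 : ∑ d ∈ (allm X).filter (fun d => d ≡ 1 [ZMOD 8 * D.q]),
      Phi (s * d / X) * mulo Z d * (J(d | r) : ℝ) =
      ∑ a ∈ Icc 1 Z, (ArithmeticFunction.moebius a : ℝ) * S a := by
    simp only [hS, mulo, ← filter_filter, sum_filter (fun d : ℤ => (_ : ℤ) ^ 2 ∣ d),
      sum_filter (fun a : ℕ => (a : ℤ) ^ 2 ∣ _), mul_sum, sum_mul]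
    rw [sum_comm]
    refine sum_congr rfl fun a _ => sum_congr rfl fun d _ => ?_
    split_ifs <;> ring
  have e2 : ∑ a ∈ Icc 1 Z, (ArithmeticFunction.moebius a : ℝ) * M a =
      K * ∑ a ∈ (Icc 1 Z).filter (fun a : ℕ => a.Coprime (D.q * r)),
        (ArithmeticFunction.moebius a : ℝ) / (a : ℝ) ^ 2 := by
    rw [sum_filter, mul_sum]
    refine sum_congr rfl fun a _ => ?_
    rw [hM, hK]
    split_ifs <;> ring
  have e3 : (∫ y, Phi y) / (8 * D.q) * ms D.q * X * rho dl1 r = K * ms (D.q * r) := by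
    rw [hK]
    linear_combination (-(X * (∫ y, Phi y) / (8 * D.q))) * rho_ms hr h
  have hK0 : 0 ≤ K := by rw [hK]; positivity
  have hK1 : K ≤ X * rho dl0 r := by
    rw [hK, mul_div_assoc]
    refine mul_le_mul_of_nonneg_right (mul_le_of_le_one_right (by linarith) ?_) hρ
    rw [div_le_one (by positivity)]
    linarith
  have b1 : |∑ a ∈ Icc 1 Z, (ArithmeticFunction.moebius a : ℝ) * M a - K * ms (D.q * r)| ≤
      X * rho dl0 r / Z := by
    rw [e2, ← mul_sub, abs_mul, abs_of_nonneg hK0, div_eq_mul_one_div]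
    exact mul_le_mul hK1 (ms_tail _ hZ) (abs_nonneg _) (hK0.trans hK1)
  have b2 : |∑ a ∈ Icc 1 Z, (ArithmeticFunction.moebius a : ℝ) * S a -
      ∑ a ∈ Icc 1 Z, (ArithmeticFunction.moebius a : ℝ) * M a| ≤
      C * Z * X * (8 * D.q * Z ^ 2 * r / X) ^ j := by
    rw [← sum_sub_distrib]
    refine (abs_sum_le_sum_abs _ _).trans ((sum_le_card_nsmul _ _
      (C * X * (8 * D.q * Z ^ 2 * r / X) ^ j) fun a ha => ?_).trans_eq ?_)
    · obtain ⟨a1, a2⟩ := mem_Icc.1 ha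
      have a3 : |(ArithmeticFunction.moebius a : ℝ)| ≤ 1 := by
        exact_mod_cast ArithmeticFunction.abs_moebius_le_one
      have a4 := H X a r s hX (by omega) hr h hs
      rw [← hS, ← hM] at a4
      rw [← mul_sub, abs_mul]
      refine (mul_le_of_le_one_left (abs_nonneg _) a3).trans (a4.trans ?_)
      gcongr
    · rw [Nat.card_Icc, nsmul_eq_mul, Nat.add_sub_cancel]
      ring
  rw [e1, e3]
  exact (abs_sub_le _ _ _).trans ((add_le_add b2 b1).trans_eq (add_comm _ _))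

end Pool.Agent.Lib.MP_03e5d0_nt
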