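import Pool.Agent.Lib.MP_03e5d0_nt.AIf
import Pool.Agent.Lib.MP_03e5d0_nt.MPoly
import Pool.Agent.Lib.MP_03e5d0_nt.MWin

set_option autoImplicit false

noncomputable section

namespace Pool.Agent.Lib.MP_03e5d0_nt

open Complex Finset MeasureTheory
open scoped NumberTheorySymbols Real ContDiff

/-! Transfer of twisted second moments to the random model. -/

theorem mtr2_geom (n : ℕ) : ∑ i ∈ range n, Real.exp ((i : ℝ) / 2) ≤ 2 * Real.exp ((n : ℝ) / 2) := by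
  induction n with
  | zero => simp
  | succ n ih =>
    rw [sum_range_succ, show ((n + 1 : ℕ) : ℝ) / 2 = n / 2 + 1 / 2 by push_cast; ring, Real.exp_add]
    have h1 := Real.add_one_le_exp (1 / 2)
    have h2 := Real.exp_pos ((n : ℝ) / 2)
    nlinarith

theorem mtr2_sum (Lt : ℝ) : (∑ i ∈ range ⌈Lt + 1⌉₊, Real.exp ((i : ℝ) / 2)) ^ 2 ≤
    4 * Real.exp 2 * Real.exp Lt := by
  rcases le_or_gt (Lt + 1) 0 with h | h
  · rw [Nat.ceil_eq_zero.2 h, sum_range_zero, sq, mul_zero]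
    positivity
  · have h1 := Nat.ceil_lt_add_one h.le
    refine (pow_le_pow_left₀ (by positivity) (mtr2_geom _) 2).trans ?_
    rw [mul_pow, ← Real.exp_nat_mul, mul_assoc, ← Real.exp_add]
    refine mul_le_mul (by norm_num) (Real.exp_le_exp.2 ?_) (by positivity) (by norm_num)
    push_cast
    linarith

theorem mtr2_bd {D : Data} {j : ℕ} {B : ℝ} {W : ℝ → ℂ} (h : Sm j (-1) 1 B W) (L : ℝ) {x : ℕ → ℝ}
    (hx : Adm x) : ‖sm D x fun y => W (y - L)‖ ≤ 2 * B * Real.exp (L + 1) :=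
  norm_sm_le hx h.nonneg (fun y hy => h.supp _ (Or.inr (by linarith))) fun y => h.norm_le _

theorem mtr2_arg {X Lt L₁ L₂ ℓ : ℝ} (hX : 3 ≤ X) (h0 : 0 ≤ ℓ) (hℓ : ℓ ≤ X) (hL : Lt ≤ Real.log X)
    (h1 : L₁ ≤ Lt + 1) (h2 : L₂ ≤ Lt + 1) :
    0 ≤ ll (1 + Real.exp (L₁ + L₂) * ℓ / X) ∧ ll (1 + Real.exp (L₁ + L₂) * ℓ / X) ≤ 6 * ll X := by
  have hX0 : 0 < X := by linarith
  have a1 : 1 ≤ 1 + Real.exp (L₁ + L₂) * ℓ / X := le_add_of_nonneg_right (by positivity)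
  refine ⟨zero_le_one.trans (one_le_ll a1), (ll_mono a1 ?_).trans
    ((ll_pow (M := X) (by linarith) 5).trans (by norm_num))⟩
  have a2 : Real.exp (L₁ + L₂) ≤ 9 * X ^ 2 := by
    have b1 : Real.exp (Lt + 1) ≤ 3 * X := by
      rw [Real.exp_add, mul_comm]
      refine mul_le_mul (Real.exp_one_lt_d9.le.trans (by norm_num)) ?_ (by positivity) (by norm_num)
      exact (Real.exp_le_exp.2 hL).trans (Real.exp_log hX0).le
    rw [Real.exp_add]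
    calc _ ≤ (3 * X) * (3 * X) := mul_le_mul ((Real.exp_le_exp.2 h1).trans b1)
          ((Real.exp_le_exp.2 h2).trans b1) (by positivity) (by positivity)
      _ = _ := by ring
  have a3 : Real.exp (L₁ + L₂) * ℓ / X ≤ 9 * X ^ 2 := by
    rw [mul_div_assoc]
    exact (mul_le_of_le_one_right (by positivity) ((div_le_one hX0).2 hℓ)).trans a2
  have a4 : 27 ≤ X ^ 3 := le_trans (by norm_num) (pow_le_pow_left₀ (by norm_num) hX 3)
  have a5 : 9 ≤ X ^ 2 := le_trans (by norm_num) (pow_le_pow_left₀ (by norm_num) hX 2)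
  have a6 : X ^ 5 = X ^ 3 * X ^ 2 := by ring
  nlinarith

/-- One monomial. Put `n = ⌈Lt + 1⌉₊`, `sm_windows_fin`; the window `i` is `W (y - i)` with
`W y = psi y * V (y + i)`, which is `Sm j (-1) 1` by `Sm.mul` and `sm_psi`. Expand
`S * conj S` (`sm_conj`, `Sm.conj`), `gsum_sum`, `Ex_sum`, and apply `off` with the `IH` of `li` to each pair
`(i₁, i₂)`, `j = A + c`. Here `i + 1 ≤ Lt + 2`, `1 + exp (i₁ + i₂) ℓ / X ≤ X ^ 5`, `ll_mono`, `ll_pow`,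
`∑_{i < n} exp (i / 2) ≤ 2 exp (n / 2)`. If `n = 0` both terms vanish. -/
theorem trans2_mono (D : Data) (hFE : D.FE) (hPS : D.PS) : ∃ (c j : ℕ) (C : ℝ), 0 ≤ C ∧
    ∀ (X B Lt Λ : ℝ) (ℓ : ℕ) (V : ℝ → ℂ), 3 ≤ X → ℓ ≠ 0 → ℓ.Coprime D.q → (ℓ : ℝ) ≤ X →
    ContDiff ℝ ∞ V → (∀ i ≤ j, ∀ y, ‖iteratedDeriv i V y‖ ≤ B) → (∀ y, Lt < y → V y = 0) →
    Lt ≤ Real.log X → Lt + 2 ≤ Λ → Real.log ℓ ≤ Λ →
    |(gsum X fun x => ((cm x ℓ * ‖sm D x V‖ ^ 2 : ℝ) : ℂ)).re -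
      X * Ex (pr D Λ) dl0 fun x => cm x ℓ * ‖sm D x V‖ ^ 2| ≤
      C * B ^ 2 * (ℓ : ℝ) ^ c * Real.exp Lt * ll X ^ 2 := by
  obtain ⟨c, hc⟩ := off D hPS
  obtain ⟨A, C₁, hC₁, hIH⟩ := li D hFE hPS
  obtain ⟨C₂, hC₂, H⟩ := hc A 1
  obtain ⟨B₀, hB₀⟩ := sm_psi (A + c)
  have hB₀' := hB₀.nonneg
  refine ⟨c, A + c, C₂ * (2 ^ (A + c) * B₀) ^ 2 * (C₁ * 6) ^ 2 * (4 * Real.exp 2), by positivity,
    fun X B Lt Λ ℓ V hX hℓ hq hℓX hV hb hs hL hΛ hℓΛ => ?_⟩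
  have hX0 : 0 < X := by linarith
  have hB : 0 ≤ B := (norm_nonneg _).trans (hb 0 (Nat.zero_le _) 0)
  set n := ⌈Lt + 1⌉₊ with hn
  set W : ℕ → ℝ → ℂ := fun i y => (psi y : ℂ) * V (y + i) with hW
  have hSm : ∀ i, Sm (A + c) (-1) 1 (2 ^ (A + c) * B₀ * B) (W i) := fun i =>
    hB₀.mul (hV.comp (contDiff_id.add contDiff_const)) hB fun k hk y _ => by
      rw [iteratedDeriv_comp_add_const k V (i : ℝ)]
      exact hb k hk _
  set T : ℕ × ℕ → (ℕ → ℝ) → ℂ := fun p x => (cm x ℓ : ℂ) * sm D x (fun y => W p.1 (y - p.1)) *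
    sm D x fun y => starRingEnd ℂ (W p.2 (y - p.2)) with hT
  have e1 : (fun x => ((cm x ℓ * ‖sm D x V‖ ^ 2 : ℝ) : ℂ)) =
      fun x => ∑ p ∈ range n ×ˢ range n, T p x := by
    funext x
    have e2 : sm D x V = ∑ i ∈ range n, sm D x fun y => W i (y - i) := by
      rw [sm_windows_fin hs (Nat.le_ceil _)]
      simp only [hW, sub_add_cancel, hn]
    rw [ofReal_mul, ofReal_pow, ← mul_conj', e2, map_sum, sum_mul_sum, sum_product, mul_sum]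
    refine sum_congr rfl fun i _ => ?_
    rw [mul_sum]
    refine sum_congr rfl fun k _ => ?_
    simp only [hT, sm_conj, mul_assoc]
  have e3 : (gsum X fun x => ((cm x ℓ * ‖sm D x V‖ ^ 2 : ℝ) : ℂ)).re -
      X * Ex (pr D Λ) dl0 (fun x => cm x ℓ * ‖sm D x V‖ ^ 2) =
      (∑ p ∈ range n ×ˢ range n, (gsum X (T p) - X * Ex (pr D Λ) dl0 (T p))).re := by
    rw [sum_sub_distrib, ← mul_sum, ← Ex_sum, ← gsum_sum hX0, ← e1, Ex_ofReal, ← ofReal_mul, sub_re,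
      ofReal_re]
    refine fun p _ => ⟨1 * (2 * (2 ^ (A + c) * B₀ * B) * Real.exp (p.1 + 1)) *
      (2 * (2 ^ (A + c) * B₀ * B) * Real.exp (p.2 + 1)), fun x hx => ?_⟩
    simp only [hT, norm_mul]
    refine mul_le_mul (mul_le_mul ?_ (mtr2_bd (hSm p.1) _ hx) (norm_nonneg _) zero_le_one)
      (mtr2_bd (hSm p.2).conj _ hx) (norm_nonneg _) (by positivity)
    rw [norm_real]
    exact hx.abs_cm ℓ
  rw [e3]
  refine (abs_re_le_norm _).trans ((norm_sum_le _ _).trans ?_)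
  have key : ∀ p ∈ range n ×ˢ range n, ‖gsum X (T p) - X * Ex (pr D Λ) dl0 (T p)‖ ≤
      C₂ * (2 ^ (A + c) * B₀) ^ 2 * (C₁ * 6) ^ 2 * B ^ 2 * (ℓ : ℝ) ^ c * ll X ^ 2 *
        (Real.exp ((p.1 : ℝ) / 2) * Real.exp ((p.2 : ℝ) / 2)) := by
    intro p hp
    obtain ⟨h1, h2⟩ := mem_product.1 hp
    have h1' : (p.1 : ℝ) < Lt + 1 := Nat.lt_ceil.1 (mem_range.1 h1)
    have h2' : (p.2 : ℝ) < Lt + 1 := Nat.lt_ceil.1 (mem_range.1 h2)
    obtain ⟨l0, l1⟩ := mtr2_arg hX (Nat.cast_nonneg ℓ) hℓX hL h1'.le h2'.le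
    refine (H _ hIH X ℓ p.1 p.2 _ _ Λ (W p.1) (fun y => starRingEnd ℂ (W p.2 y)) (by linarith) hℓ hq
      (hSm p.1) (hSm p.2).conj hℓΛ (by linarith) (by linarith)).trans ?_
    refine (mul_le_mul_of_nonneg_left (pow_le_pow_left₀ (mul_nonneg hC₁ l0)
      (mul_le_mul_of_nonneg_left l1 hC₁) 2) (by positivity)).trans (le_of_eq ?_)
    rw [add_div, Real.exp_add]
    ring
  refine (sum_le_sum key).trans ?_
  rw [← mul_sum, sum_product]
  dsimp only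
  rw [← sum_mul_sum, ← sq]
  refine (mul_le_mul_of_nonneg_left (mtr2_sum Lt) (by positivity)).trans (le_of_eq ?_)
  ring

/-- Induction on the list, or `List.sum` as a `Finset.sum` over `Fin l.length`. -/
theorem trans2 (D : Data) (hFE : D.FE) (hPS : D.PS) : ∃ (c j : ℕ) (C : ℝ), 0 ≤ C ∧
    ∀ (X Y B Lt Λ : ℝ) (f : (ℕ → ℝ) → ℝ) (V : ℝ → ℂ), 3 ≤ X → Poly D Y f → 1 ≤ Y → Y ≤ X →
    ContDiff ℝ ∞ V → (∀ i ≤ j, ∀ y, ‖iteratedDeriv i V y‖ ≤ B) → (∀ y, Lt < y → V y = 0) →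
    Lt ≤ Real.log X → Lt + 2 ≤ Λ → Real.log Y ≤ Λ →
    |(gsum X fun x => ((f x * ‖sm D x V‖ ^ 2 : ℝ) : ℂ)).re -
      X * Ex (pr D Λ) dl0 fun x => f x * ‖sm D x V‖ ^ 2| ≤
      C * B ^ 2 * Y ^ c * Real.exp Lt * ll X ^ 2 := by
  obtain ⟨c, j, C, hC, H⟩ := trans2_mono D hFE hPS
  refine ⟨c + 1, j, C, hC, fun X Y B Lt Λ f V hX hf hY hYX hV hb hs hL hΛ hYΛ => ?_⟩
  obtain ⟨l, hl, hm, hf⟩ := hf
  have hX0 : 0 < X := by linarith
  have hB : 0 ≤ B := (norm_nonneg _).trans (hb 0 (Nat.zero_le _) 0)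
  have e0 : ∀ x, f x * ‖sm D x V‖ ^ 2 =
      ∑ i : Fin l.length, l[i.1].2 * (cm x l[i.1].1 * ‖sm D x V‖ ^ 2) := fun x => by
    rw [hf, ← Fin.sum_univ_fun_getElem, sum_mul]
    simp only [mul_assoc]
  have e1 : (gsum X fun x => ((f x * ‖sm D x V‖ ^ 2 : ℝ) : ℂ)).re -
      X * Ex (pr D Λ) dl0 (fun x => f x * ‖sm D x V‖ ^ 2) =
      ∑ i : Fin l.length, l[i.1].2 *
        ((gsum X fun x => ((cm x l[i.1].1 * ‖sm D x V‖ ^ 2 : ℝ) : ℂ)).re -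
          X * Ex (pr D Λ) dl0 fun x => cm x l[i.1].1 * ‖sm D x V‖ ^ 2) := by
    simp only [e0, ofReal_sum]
    rw [Ex_sum, gsum_sum hX0, re_sum, mul_sum, ← sum_sub_distrib]
    · refine sum_congr rfl fun i _ => ?_
      rw [Ex_mul_left]
      simp only [ofReal_mul l[i.1].2]
      rw [gsum_const_mul, re_ofReal_mul]
      ring
    · refine fun i _ => ⟨|l[i.1].2| * (1 * (2 * B * Real.exp Lt) ^ 2), fun x hx => ?_⟩
      rw [norm_real, Real.norm_eq_abs, abs_mul, abs_mul, abs_pow, abs_norm]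
      exact mul_le_mul_of_nonneg_left (mul_le_mul (hx.abs_cm _) (pow_le_pow_left₀ (norm_nonneg _)
        (norm_sm_le hx hB hs (hb 0 (Nat.zero_le _))) 2) (by positivity) zero_le_one) (abs_nonneg _)
  rw [e1]
  refine (abs_sum_le_sum_abs _ _).trans ((sum_le_sum (g := fun i : Fin l.length =>
    |l[i.1].2| * (C * B ^ 2 * Y ^ c * Real.exp Lt * ll X ^ 2)) fun i _ => ?_).trans ?_)
  · obtain ⟨h1, h2, h3⟩ := hl _ (List.getElem_mem i.2)
    rw [abs_mul]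
    refine mul_le_mul_of_nonneg_left ((H X B Lt Λ _ V hX h1 h2 (h3.trans hYX) hV hb hs hL hΛ
      ((Real.log_le_log (by exact_mod_cast Nat.pos_of_ne_zero h1) h3).trans hYΛ)).trans ?_)
      (abs_nonneg _)
    gcongr
  · rw [← sum_mul, Fin.sum_univ_fun_getElem l fun c => |c.2|]
    refine (mul_le_mul_of_nonneg_right hm (by positivity)).trans (le_of_eq ?_)
    ring

/-- `V y = psi (2 y)` (`exists_sm` bounds its derivatives), `Lt = 1 / 2`; then `sm D x V = 1`. -/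
theorem trans0 (D : Data) (hFE : D.FE) (hPS : D.PS) : ∃ (c : ℕ) (C : ℝ), 0 ≤ C ∧
    ∀ (X Y Λ : ℝ) (f : (ℕ → ℝ) → ℝ), 3 ≤ X → Poly D Y f → 1 ≤ Y → Y ≤ X → 3 ≤ Λ → Real.log Y ≤ Λ →
    |(gsum X fun x => (f x : ℂ)).re - X * Ex (pr D Λ) dl0 f| ≤ C * Y ^ c * ll X ^ 2 := by
  obtain ⟨c, j, C, hC, H⟩ := trans2 D hFE hPS
  obtain ⟨B₀, hB₀⟩ := sm_psi 0
  obtain ⟨B, hB⟩ := exists_sm (a := -1 / 2) (b := 1 / 2) (W := fun y => (psi (2 * y) : ℂ)) j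
    (hB₀.smooth.comp (contDiff_const.mul contDiff_id)) fun y hy =>
      hB₀.supp _ (hy.imp (fun h => by linarith) fun h => by linarith)
  refine ⟨c, C * B ^ 2 * Real.exp (1 / 2), by positivity, fun X Y Λ f hX hf hY hYX hΛ hYΛ => ?_⟩
  have e : ∀ x, sm D x (fun y => (psi (2 * y) : ℂ)) = 1 := fun x => by
    rw [sm, tsum_eq_single 1]
    · simp [D.lam_one, cm_one, psi_zero]
    · intro n hn
      rcases Nat.eq_zero_or_pos n with rfl | h0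
      · simp [cm_zero]
      · have h2 : (2 : ℝ) ≤ n := by exact_mod_cast (show 2 ≤ n by omega)
        have h3 := Real.log_le_log two_pos h2
        have h4 := Real.log_two_gt_d9
        rw [tsm_psi (Or.inr (by linarith)), ofReal_zero, mul_zero]
  have hl : 1 / 2 ≤ Real.log X := by
    have h3 := Real.log_le_log two_pos (show 2 ≤ X by linarith)
    linarith [Real.log_two_gt_d9]
  have := H X Y B (1 / 2) Λ f _ hX hf hY hYX hB.smooth hB.bd (fun y hy => hB.supp y (Or.inr hy)) hl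
    (by linarith) hYΛ
  simp only [e, norm_one, one_pow, mul_one] at this
  refine this.trans (le_of_eq ?_)
  ring

end Pool.Agent.Lib.MP_03e5d0_nt
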