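import Pool.Agent.Lib.MP_03e5d0_nt.NWp

set_option autoImplicit false

noncomputable section

namespace Pool.Agent.Lib.MP_03e5d0_nt

open Complex Finset MeasureTheory
open scoped NumberTheorySymbols Real ContDiff

/-! The polynomial weights and their dyadic pieces. -/

theorem nw2_st (j : ℕ) : ∃ B : ℝ, 0 ≤ B ∧ ∀ U W L' R : ℝ, 0 < U → 0 < W → 1 ≤ R → U ≤ R * W →
    ContDiff ℝ ∞ (fun θ : ℝ => (st W (L' - U * θ) : ℂ)) ∧
      ∀ i ≤ j, ∀ y, ‖iteratedDeriv i (fun θ : ℝ => (st W (L' - U * θ) : ℂ)) y‖ ≤ R ^ j * B := by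
  have hS : ContDiff ℝ ∞ fun z : ℝ => (Real.smoothTransition (z - 1) : ℂ) :=
    ofRealCLM.contDiff.comp (Real.smoothTransition.contDiff.comp (contDiff_id.sub contDiff_const))
  obtain ⟨B, hB, h⟩ := mtop_bd j hS (fun y => by
    rw [norm_real, Real.norm_of_nonneg (Real.smoothTransition.nonneg _)]
    exact Real.smoothTransition.le_one _) fun y hy => by
      obtain ⟨c, hc⟩ := mtop_ev hy
      exact ⟨c, hc.mono fun z hz => by simp only [hz]⟩
  refine ⟨B, hB, fun U W L' R hU hW hR hUW => ?_⟩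
  have hT : ContDiff ℝ ∞ fun y : ℝ => (Real.smoothTransition ((L' / W - y) / 1 - 1) : ℂ) :=
    hS.comp ((contDiff_const.sub contDiff_id).div_const 1)
  have e : (fun θ : ℝ => (st W (L' - U * θ) : ℂ)) = fun θ : ℝ =>
      (fun y : ℝ => (Real.smoothTransition ((L' / W - y) / 1 - 1) : ℂ)) (U / W * θ) := by
    funext θ
    simp only [st]
    congr 2
    field_simp
  rw [e]
  refine ⟨hT.comp (contDiff_const.mul contDiff_id), fun i hi y => ?_⟩
  rw [iteratedDeriv_comp_const_smul (hT.of_le (by exact_mod_cast le_top)), norm_smul, norm_pow,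
    Real.norm_of_nonneg (by positivity)]
  refine mul_le_mul ?_ (h (L' / W) 1 le_rfl i hi _) (norm_nonneg _) (by positivity)
  exact (pow_le_pow_left₀ (by positivity) ((div_le_iff₀ hW).2 hUW) i).trans (pow_le_pow_right₀ hR hi)

theorem nw2_Ui (L : ℝ) (i : ℕ) : Ui (2 * L) i = L / 2 ^ i := by
  rw [Ui, pow_succ]
  field_simp

theorem nw2_small (j : ℕ) : ∃ C : ℝ, 0 ≤ C ∧ ∀ (κ k i : ℕ) (s R L : ℝ), 5 ≤ i → 0 ≤ R → 0 < L →
    |s| = R / L → Sm j 1 4 (C * 6 ^ κ * R ^ κ * Real.exp (R / 2) / 2 ^ (κ * i))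
      fun θ => th0 θ * wp κ k s ((Ui (2 * L) i * θ : ℝ) : ℂ) := by
  obtain ⟨C, hC, h⟩ := sm_small j
  refine ⟨C, hC, fun κ k i s R L hi hR hL hs =>
    (h κ k s _ (Ui_pos (by linarith) i).le).mono le_rfl le_rfl le_rfl ?_⟩
  have e : 6 * |s| * Ui (2 * L) i = 6 * R / 2 ^ i := by
    rw [hs, nw2_Ui]
    field_simp
  have h32 : (32 : ℝ) ≤ 2 ^ i := by
    simpa [show (2 : ℝ) ^ 5 = 32 by norm_num] using pow_le_pow_right₀ (one_le_two (α := ℝ)) hi
  have h1 : 6 * R / 2 ^ i ≤ R / 2 := by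
    rw [div_le_iff₀ (by positivity)]
    nlinarith
  rw [e, div_pow, mul_pow, ← pow_mul, mul_comm i κ]
  calc C * (6 ^ κ * R ^ κ / 2 ^ (κ * i) * Real.exp (6 * R / 2 ^ i))
      ≤ C * (6 ^ κ * R ^ κ / 2 ^ (κ * i) * Real.exp (R / 2)) := by gcongr
    _ = _ := by ring

theorem nw2_div {κ i : ℕ} (hi : ¬5 ≤ i) {x : ℝ} (hx : 0 ≤ x) : x ≤ x * 2 ^ (κ * 4) / 2 ^ (κ * i) := by
  rw [le_div_iff₀ (by positivity)]
  exact mul_le_mul_of_nonneg_left
    (pow_le_pow_right₀ one_le_two (Nat.mul_le_mul_left _ (by omega))) hx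

theorem nw2_scale {R L : ℝ} (hR : 0 ≤ R) (hL : 0 < L) (i : ℕ) : R / L * Ui (2 * L) i ≤ R := by
  rw [nw2_Ui, show R / L * (L / 2 ^ i) = R / 2 ^ i by field_simp]
  exact div_le_self hR (one_le_pow₀ one_le_two)

/-- The function `th0 θ * st W (L' - U θ)` vanishes for `b = min 4 ((L' - W) / U) < θ` and is
`Sm j 1 b (C * R ^ j)` (each derivative of `st` costs `U / W ≤ R`); multiply (`Sm.mul`) by
`exp (σ U θ)`, whose `i`-th derivative is at most `R ^ i exp (σ (L' - W))` for `θ ≤ b`; `Sm.mono`. -/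
theorem sm_cutoff (j : ℕ) : ∃ C : ℝ, 0 ≤ C ∧ ∀ σ U W L' R : ℝ, 0 ≤ σ → 0 < U → 0 < W → 1 ≤ R →
    σ * U ≤ R → U ≤ R * W → Sm j 1 4 (C * R ^ (2 * j) * Real.exp (σ * (L' - W)))
      fun θ => th0 θ * ((Real.exp (σ * (U * θ)) * st W (L' - U * θ) : ℝ) : ℂ) := by
  obtain ⟨B₀, h₀⟩ := sm_th0 j
  obtain ⟨B, hB, h⟩ := nw2_st j
  have hB₀ := h₀.nonneg
  refine ⟨2 ^ j * (2 ^ j * B₀ * B), by positivity, fun σ U W L' R hσ hU hW hR hσU hUW => ?_⟩
  obtain ⟨hs, hb⟩ := h U W L' R hU hW hR hUW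
  have h1 := h₀.mul hs (by positivity) fun i hi y _ => hb i hi y
  have h2 : Sm j 1 (min 4 ((L' - W) / U)) (2 ^ j * B₀ * (R ^ j * B))
      fun θ => th0 θ * (st W (L' - U * θ) : ℂ) := by
    refine ⟨h1.smooth, fun y hy => ?_, h1.bd⟩
    rcases hy with hy | hy
    · exact h1.supp y (Or.inl hy)
    rcases min_lt_iff.1 hy with hy | hy
    · exact h1.supp y (Or.inr hy)
    · rw [st_eq_zero hW (by rw [div_lt_iff₀ hU] at hy; linarith), ofReal_zero, mul_zero]
  have h3 := h2.mul (g := fun θ : ℝ => cexp (((σ * U : ℝ) : ℂ) * θ))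
    (B' := R ^ j * Real.exp (σ * (L' - W))) (contDiff_const.mul ofRealCLM.contDiff).cexp
    (by positivity) fun i hi y hy => by
      have := tsm_real (g := fun z => cexp (((σ * U : ℝ) : ℂ) * z)) isOpen_univ (by fun_prop) i y
        trivial
      rw [this, iteratedDeriv_cexp_const_mul, norm_mul, norm_pow, norm_real,
        Real.norm_of_nonneg (by positivity), ← ofReal_mul, norm_exp_ofReal]
      refine mul_le_mul ((pow_le_pow_left₀ (by positivity) hσU i).trans (pow_le_pow_right₀ hR hi))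
        (Real.exp_le_exp.2 ?_) (Real.exp_pos _).le (by positivity)
      have h4 := (le_div_iff₀ hU).1 (hy.2.trans (min_le_right _ _))
      rw [mul_assoc]
      exact mul_le_mul_of_nonneg_left (by linarith) hσ
  convert h3.mono le_rfl le_rfl (min_le_left _ _) le_rfl using 1
  · ring
  · funext θ
    push_cast
    rw [mul_assoc (σ : ℂ)]
    ring

/-- `Ui (2 L) i = L / 2 ^ i`. For `5 ≤ i`: `sm_small`; for `i ≤ 4`: `sm_big`, `sm_expneg`, `mtop_add`,
and the constant absorbs `2 ^ (4 κ)`. -/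
theorem piece_minus (j κ : ℕ) : ∃ (e : ℕ) (C : ℝ), 0 ≤ C ∧ ∀ (k i : ℕ) (R L : ℝ), 1 ≤ R → 0 < L →
    30 * R ≤ k → κ ≤ k → Sm j 1 4 (C * R ^ e * Real.exp (R / 2) / 2 ^ (κ * i))
      fun θ => th0 θ * wp κ k (-(R / L)) ((Ui (2 * L) i * θ : ℝ) : ℂ) := by
  obtain ⟨C₀, hC₀, h₀⟩ := nw2_small j
  obtain ⟨C₁, hC₁, h₁⟩ := sm_big j
  obtain ⟨C₂, hC₂, h₂⟩ := sm_expneg j
  refine ⟨κ, C₀ * 6 ^ κ + (C₁ * ((κ + 1) * 6 ^ κ) + C₂) * 2 ^ (κ * 4), by positivity,
    fun k i R L hR hL hk hκ => ?_⟩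
  have hR0 : 0 ≤ R := by linarith
  have hs : |-(R / L)| = R / L := by rw [abs_neg, abs_of_nonneg (by positivity)]
  have hU := (Ui_pos (show 0 < 2 * L by linarith) i).le
  by_cases hi : 5 ≤ i
  · refine (h₀ κ k i _ R L hi hR0 hL hs).mono le_rfl le_rfl le_rfl ?_
    gcongr
    exact le_add_of_nonneg_right (by positivity)
  · have h3 := mtop_add (h₁ κ k (-(R / L)) _ R hU hR hk hκ (by rw [hs]; exact nw2_scale hR0 hL i))
      (h₂ (R / L) _ (by positivity) hU)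
    simp only [← mul_add, sub_add_cancel] at h3
    refine h3.mono le_rfl le_rfl le_rfl ?_
    have h4 : 1 ≤ R ^ κ := one_le_pow₀ hR
    have h5 : 1 ≤ Real.exp (R / 2) := Real.one_le_exp (by positivity)
    calc C₁ * ((κ + 1) * (6 * R) ^ κ) + C₂
        = (C₁ * ((κ + 1) * 6 ^ κ) * R ^ κ + C₂ * 1) * 1 := by ring
      _ ≤ (C₁ * ((κ + 1) * 6 ^ κ) * R ^ κ + C₂ * R ^ κ) * Real.exp (R / 2) := by gcongr
      _ ≤ _ := nw2_div (κ := κ) hi (by positivity)
      _ = (0 + (C₁ * ((κ + 1) * 6 ^ κ) + C₂) * 2 ^ (κ * 4)) * R ^ κ * Real.exp (R / 2) /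
          2 ^ (κ * i) := by ring
      _ ≤ _ := by gcongr; positivity

/-- For `5 ≤ i`: `hpl = wp` on the support (`st_eq_one`: `2 L / A ≤ L / 8 ≤ L' - u`), `sm_small`; for
`i ≤ 4`: `hpl = (wp - exp) + exp * st`, `sm_big`, `sm_cutoff`. -/
theorem piece_plus (j κ : ℕ) : ∃ (e : ℕ) (C : ℝ), 0 ≤ C ∧ ∀ (k i : ℕ) (A R L L' : ℝ), 16 ≤ A → A ≤ R →
    0 < L → 30 * R ≤ k → κ ≤ k → L / 4 ≤ L' →
    Sm j 1 4 (C * R ^ e * Real.exp (R - R / A) * Real.exp (R / L * max (L' - L) 0) / 2 ^ (κ * i))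
      fun θ => th0 θ * hpl κ k (R / L) (L / A) L' (Ui (2 * L) i * θ) := by
  obtain ⟨C₀, hC₀, h₀⟩ := nw2_small j
  obtain ⟨C₁, hC₁, h₁⟩ := sm_big j
  obtain ⟨C₂, hC₂, h₂⟩ := sm_cutoff j
  refine ⟨κ + 2 * j, C₀ * 6 ^ κ + (C₁ * ((κ + 1) * 6 ^ κ) + C₂) * 2 ^ (κ * 4), by positivity,
    fun k i A R L L' hA hAR hL hk hκ hL' => ?_⟩
  have hA0 : 0 < A := by linarith
  have hR : 1 ≤ R := by linarith
  have hR0 : 0 ≤ R := by linarith
  have hs : |R / L| = R / L := abs_of_nonneg (by positivity)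
  have hU := Ui_pos (show 0 < 2 * L by linarith) i
  have hRA : R / A ≤ R / 2 := div_le_div_of_nonneg_left hR0 two_pos (by linarith)
  have hE : 1 ≤ Real.exp (R / L * max (L' - L) 0) :=
    Real.one_le_exp (mul_nonneg (by positivity) (le_max_right _ _))
  have hκe : R ^ κ ≤ R ^ (κ + 2 * j) := pow_le_pow_right₀ hR (by omega)
  have hje : R ^ (2 * j) ≤ R ^ (κ + 2 * j) := pow_le_pow_right₀ hR (by omega)
  by_cases hi : 5 ≤ i
  · have e : (fun θ => th0 θ * hpl κ k (R / L) (L / A) L' (Ui (2 * L) i * θ)) =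
        fun θ => th0 θ * wp κ k (R / L) ((Ui (2 * L) i * θ : ℝ) : ℂ) := by
      funext θ
      rcases tsm_cases 1 4 θ with hθ | hθ
      · have h32 : (32 : ℝ) ≤ 2 ^ i := by
          simpa [show (2 : ℝ) ^ 5 = 32 by norm_num] using pow_le_pow_right₀ (one_le_two (α := ℝ)) hi
        have h1 : Ui (2 * L) i ≤ L / 32 := by
          rw [nw2_Ui]
          exact div_le_div_of_nonneg_left hL.le (by norm_num) h32
        have h2 : L / A ≤ L / 16 := div_le_div_of_nonneg_left hL.le (by norm_num) hA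
        have h3 : Ui (2 * L) i * θ ≤ L / 32 * 4 :=
          mul_le_mul h1 hθ.2 (by linarith [hθ.1]) (by positivity)
        rw [hpl, st_eq_one (by positivity) (by linarith)]
        simp
      · rw [mww_th0_supp hθ, zero_mul, zero_mul]
    rw [e]
    refine (h₀ κ k i _ R L hi hR0 hL hs).mono le_rfl le_rfl le_rfl ?_
    rw [← mul_one (C₀ * 6 ^ κ * R ^ κ * Real.exp (R / 2))]
    gcongr
    · exact le_add_of_nonneg_right (by positivity)
    · linarith
  · have h3 := mtop_add (h₁ κ k (R / L) _ R hU.le hR hk hκ (by rw [hs]; exact nw2_scale hR0 hL i))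
      (h₂ (R / L) _ (L / A) L' R (by positivity) hU (by positivity) hR (nw2_scale hR0 hL i) (by
        rw [nw2_Ui]
        refine (div_le_self hL.le (one_le_pow₀ one_le_two)).trans ?_
        rw [mul_div_left_comm]
        exact le_mul_of_one_le_right hL.le ((one_le_div hA0).2 hAR)))
    have e : (fun θ => th0 θ * hpl κ k (R / L) (L / A) L' (Ui (2 * L) i * θ)) = fun θ =>
        th0 θ * (wp κ k (R / L) ((Ui (2 * L) i * θ : ℝ) : ℂ) -
          cexp (((R / L : ℝ) : ℂ) * (Ui (2 * L) i * θ : ℝ))) + th0 θ *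
          ((Real.exp (R / L * (Ui (2 * L) i * θ)) * st (L / A) (L' - Ui (2 * L) i * θ) : ℝ) : ℂ) := by
      funext θ
      rw [hpl, ← ofReal_mul, ← ofReal_exp]
      simp only [ofReal_mul (Real.exp _), ofReal_sub, ofReal_one]
      ring
    rw [e]
    refine h3.mono le_rfl le_rfl le_rfl ?_
    have h5 : 1 ≤ Real.exp (R - R / A) * Real.exp (R / L * max (L' - L) 0) :=
      one_le_mul_of_one_le_of_one_le (Real.one_le_exp (by linarith)) hE
    have h6 : Real.exp (R / L * (L' - L / A)) ≤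
        Real.exp (R - R / A) * Real.exp (R / L * max (L' - L) 0) := by
      rw [← Real.exp_add]
      refine Real.exp_le_exp.2 ?_
      have h7 : R / L * (L' - L / A) = R - R / A + R / L * (L' - L) := by field_simp; ring
      rw [h7]
      gcongr
      exact le_max_left _ _
    calc C₁ * ((κ + 1) * (6 * R) ^ κ) + C₂ * R ^ (2 * j) * Real.exp (R / L * (L' - L / A))
        = C₁ * ((κ + 1) * 6 ^ κ) * R ^ κ * 1 + C₂ * R ^ (2 * j) * Real.exp (R / L * (L' - L / A)) := by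
          ring
      _ ≤ C₁ * ((κ + 1) * 6 ^ κ) * R ^ (κ + 2 * j) *
            (Real.exp (R - R / A) * Real.exp (R / L * max (L' - L) 0)) + C₂ * R ^ (κ + 2 * j) *
            (Real.exp (R - R / A) * Real.exp (R / L * max (L' - L) 0)) := by gcongr
      _ ≤ _ := nw2_div (κ := κ) hi (by positivity)
      _ = (0 + (C₁ * ((κ + 1) * 6 ^ κ) + C₂) * 2 ^ (κ * 4)) * R ^ (κ + 2 * j) *
          Real.exp (R - R / A) * Real.exp (R / L * max (L' - L) 0) / 2 ^ (κ * i) := by ring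
      _ ≤ _ := by gcongr; positivity

end Pool.Agent.Lib.MP_03e5d0_nt
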