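import Pool.Agent.Lib.MP_03e5d0_nt.NMom
import Pool.Agent.Lib.MP_03e5d0_nt.NW2

set_option autoImplicit false

noncomputable section

namespace Pool.Agent.Lib.MP_03e5d0_nt

open Complex Finset MeasureTheory
open scoped NumberTheorySymbols Real ContDiff

/-! The approximate functional equation with a polynomial test function. -/

variable {D : Data} {k : ℤ} {C : ℝ} {γ : ℕ → ℝ} {w : ℝ → ℂ} {B : ℝ}

/-- As `integral_log_exp`. -/
theorem integral_w_exp (hc : Continuous w) (hw : ∀ u, 0 < u → ‖w u‖ ≤ B * Real.exp u) {a : ℝ}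
    (ha : 0 < a) :
    IntegrableOn (fun t => w (Real.log t) * (Real.exp (-(a * t)) : ℝ)) (Set.Ioi 1) ∧
      ∫ t in Set.Ioi (1 : ℝ), w (Real.log t) * (Real.exp (-(a * t)) : ℝ) = WG w (Real.log a) / a ∧
      ∫ t in Set.Ioi (1 : ℝ), ‖w (Real.log t) * (Real.exp (-(a * t)) : ℝ)‖ =
        (∫ u in Set.Ioi (0 : ℝ), ‖w u * (rh (Real.log a + u) : ℂ)‖) / a := by
  have e1 : ∀ u : ℝ, |Real.exp u| • (w (Real.log (Real.exp u)) * (Real.exp (-(a * Real.exp u)) : ℝ)) =
      ((a⁻¹ : ℝ) : ℂ) * (w u * (rh (Real.log a + u) : ℂ)) := fun u => by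
    have h0 : (a : ℂ) ≠ 0 := ofReal_ne_zero.mpr ha.ne'
    simp only [Real.log_exp, real_smul, rh, Real.exp_add, Real.exp_log ha, Real.abs_exp, ofReal_mul,
      ofReal_inv]
    field_simp
  have hd : ∀ x ∈ Set.Ioi (0 : ℝ), HasDerivWithinAt Real.exp (Real.exp x) (Set.Ioi 0) x :=
    fun x _ => (Real.hasDerivAt_exp x).hasDerivWithinAt
  have him : Real.exp '' Set.Ioi 0 = Set.Ioi 1 := by rw [Real.image_exp_Ioi, Real.exp_zero]
  refine ⟨?_, ?_, ?_⟩
  · rw [← him, integrableOn_image_iff_integrableOn_abs_deriv_smul measurableSet_Ioi hd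
      Real.exp_injective.injOn]
    simp only [e1]
    exact (WG_integrable hc hw _).const_mul _
  · rw [← him, integral_image_eq_integral_abs_deriv_smul measurableSet_Ioi hd
      Real.exp_injective.injOn]
    simp only [e1]
    rw [integral_const_mul, WG, ofReal_inv, inv_mul_eq_div]
  · rw [← him, integral_image_eq_integral_abs_deriv_smul measurableSet_Ioi hd
      Real.exp_injective.injOn, ← inv_mul_eq_div, ← integral_const_mul]
    refine integral_congr_ae (Filter.Eventually.of_forall fun u => ?_)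
    have e2 := congrArg norm (e1 u)
    rw [norm_smul, Real.norm_eq_abs, abs_abs, norm_mul ((a⁻¹ : ℝ) : ℂ), norm_real,
      Real.norm_of_nonneg (inv_nonneg.mpr ha.le)] at e2
    exact e2

/-- As `integral_log_phi`; summability from `WG_decay`. -/
theorem integral_w_phi (D : Data) (k : ℤ) (hC : 0 < C) (hc : Continuous w) (hB : 0 ≤ B)
    (hw : ∀ u, 0 < u → ‖w u‖ ≤ B * Real.exp u) {n : ℕ} (hn : n ≠ 0) :
    ∫ t in Set.Ioi (1 : ℝ), w (Real.log t) * (n * phi D k C (n * t)) = ((√C / (2 * π) : ℝ) : ℂ) *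
      sm D (jac k) fun y => WG w (y + Real.log n - Real.log (√C / (2 * π))) := by
  obtain ⟨b, hb'⟩ : ∃ b : ℝ, b = √C / (2 * π) := ⟨_, rfl⟩
  have hb0 : 0 < b := by rw [hb']; positivity
  have hb : 2 * π / √C = b⁻¹ := by rw [hb', inv_div]
  have hn0 : (0 : ℝ) < n := Nat.cast_pos.mpr (Nat.pos_of_ne_zero hn)
  rw [← hb']
  let F : ℕ → ℝ → ℂ := fun m t =>
    D.co k m * n * (w (Real.log t) * (Real.exp (-(b⁻¹ * m * n * t)) : ℝ))
  let T : ℕ → ℂ := fun m => ((D.lam m * cm (jac k) m / √m : ℝ) : ℂ) *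
    WG w (Real.log m + Real.log n - Real.log b)
  let V : ℝ → ℂ := fun y =>
    ((∫ u in Set.Ioi (0 : ℝ), ‖w u * (rh (y + Real.log n - Real.log b + u) : ℂ)‖ : ℝ) : ℂ)
  have hV0 : ∀ y : ℝ, ‖V y‖ =
      ∫ u in Set.Ioi (0 : ℝ), ‖w u * (rh (y + Real.log n - Real.log b + u) : ℂ)‖ := fun y => by
    simp only [V]
    rw [norm_real, Real.norm_of_nonneg (integral_nonneg fun u => norm_nonneg _)]
  have h1 : ∀ m, IntegrableOn (F m) (Set.Ioi 1) ∧ ∫ t in Set.Ioi (1 : ℝ), F m t = b * T m ∧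
      ∫ t in Set.Ioi (1 : ℝ), ‖F m t‖ =
        b * ‖((D.lam m * cm (jac k) m / √m : ℝ) : ℂ) * V (Real.log m)‖ := by
    intro m
    rcases Nat.eq_zero_or_pos m with rfl | hm
    · simp [F, T, co_eq]
    have hm0 : (0 : ℝ) < m := Nat.cast_pos.mpr hm
    obtain ⟨a1, a2, a7⟩ := integral_w_exp hc hw (a := b⁻¹ * m * n) (by positivity)
    have a3 : Real.log (b⁻¹ * m * n) = Real.log m + Real.log n - Real.log b := by
      rw [Real.log_mul (by positivity) hn0.ne', Real.log_mul (by positivity) hm0.ne', Real.log_inv]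
      ring
    have a4 : (m : ℂ) ≠ 0 := Nat.cast_ne_zero.mpr hm.ne'
    have a5 : (n : ℂ) ≠ 0 := Nat.cast_ne_zero.mpr hn
    have a6 : (b : ℂ) ≠ 0 := ofReal_ne_zero.mpr hb0.ne'
    refine ⟨Integrable.const_mul a1 _, ?_, ?_⟩
    · simp only [F, T]
      rw [integral_const_mul, a2, a3, co_eq]
      generalize D.lam m * cm (jac k) m / √m = c
      push_cast
      field_simp
    · simp only [F, norm_mul (D.co k m * n)]
      rw [integral_const_mul, a7, a3, co_eq, norm_mul _ (V _), hV0, norm_mul, norm_mul,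
        Complex.norm_natCast, Complex.norm_natCast]
      field_simp
  have e2 : ∀ y : ℝ, 6 * B * Real.exp (-2 * (y + Real.log n - Real.log b)) =
      6 * B * Real.exp (-2 * (Real.log n - Real.log b)) * Real.exp (-2 * y) := fun y => by
    rw [mul_assoc (6 * B), ← Real.exp_add]
    congr 2
    ring
  have h2 : Summable fun m => ‖T m‖ :=
    summable_sm (D := D) (V := fun y => WG w (y + Real.log n - Real.log b))
      (K := 6 * B * Real.exp (-2 * (Real.log n - Real.log b))) (adm_jac k) fun y _ =>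
        (WG_decay hB hw _).2.trans_eq (e2 y)
  have h2' := summable_sm (D := D) (V := V)
      (K := 6 * B * Real.exp (-2 * (Real.log n - Real.log b))) (adm_jac k) fun y _ =>
        (hV0 y).trans_le ((WG_decay hB hw _).1.trans_eq (e2 y))
  have h3 := hasSum_integral_of_summable_integral_norm (F := F) (fun m => (h1 m).1)
    ((h2'.mul_left b).congr fun m => (h1 m).2.2.symm)
  simp only [(h1 _).2.1] at h3
  have h4 := h3.unique (h2.of_norm.hasSum.mul_left (b : ℂ))
  refine Eq.trans (setIntegral_congr_fun measurableSet_Ioi fun t ht => ?_) h4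
  have h5 := ((phi_hasSum (D := D) (k := k) hC
    (mul_pos hn0 (zero_lt_one.trans ht))).mul_left (n : ℂ)).mul_left (w (Real.log t))
  refine (h5.tsum_eq.symm).trans (tsum_congr fun m => ?_)
  simp only [F]
  rw [hb, mul_assoc (b⁻¹ * m)]
  ring

theorem nafe_bound (D : Data) (k : ℤ) (hC : 0 < C) (hc : Continuous w)
    (hw : ∀ u, 0 < u → ‖w u‖ ≤ B * Real.exp u) : ∃ K : ℝ, ∀ n : ℕ,
    IntegrableOn (fun t => w (Real.log t) * (n * phi D k C (n * t))) (Set.Ioi 1) ∧
      ∫ t in Set.Ioi (1 : ℝ), ‖w (Real.log t) * (n * phi D k C (n * t))‖ ≤ K := by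
  obtain ⟨K, b, hK, hb, H⟩ := phi_decay D k hC
  have h1 := (integral_w_exp hc hw hb).1.norm.const_mul K
  refine ⟨∫ t in Set.Ioi (1 : ℝ), K * ‖w (Real.log t) * (Real.exp (-(b * t)) : ℝ)‖, fun n => ?_⟩
  have h2 : ∀ᵐ t ∂(volume.restrict (Set.Ioi (1 : ℝ))),
      ‖w (Real.log t) * (n * phi D k C (n * t))‖ ≤
        K * ‖w (Real.log t) * (Real.exp (-(b * t)) : ℝ)‖ := by
    refine (ae_restrict_iff' measurableSet_Ioi).mpr (Filter.Eventually.of_forall fun t ht => ?_)
    rw [norm_mul, norm_mul (w _), norm_real, Real.norm_of_nonneg (Real.exp_pos _).le, ← neg_mul,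
      mul_left_comm]
    exact mul_le_mul_of_nonneg_left (H n t (le_of_lt ht)) (norm_nonneg _)
  have h3 : IntegrableOn (fun t => w (Real.log t) * (n * phi D k C (n * t))) (Set.Ioi 1) := by
    rcases Nat.eq_zero_or_pos n with rfl | hn
    · simp
    refine Integrable.mono' h1 (ContinuousOn.aestronglyMeasurable ?_ measurableSet_Ioi) h2
    refine (hc.comp_continuousOn (Real.continuousOn_log.mono fun t ht => ?_)).mul
      (continuousOn_const.mul ((phi_continuousOn hC).comp (by fun_prop) fun t ht => ?_))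
    · exact (zero_lt_one.trans ht).ne'
    · exact mul_pos (Nat.cast_pos.mpr hn) (zero_lt_one.trans (Set.mem_Ioi.mp ht))
  exact ⟨h3, integral_mono_ae h3.norm h1 h2⟩

/-- As `integral_log_phi_eq`. -/
theorem afe_gen (hC : 0 < C) (hγ : Summable fun n => |γ n|) (h : D.Dual k C γ) (hc : Continuous w)
    (hB : 0 ≤ B) (hw : ∀ u, ‖w u‖ ≤ B * Real.exp |u|)
    (hi : IntegrableOn (fun t => w (Real.log t) * phi D k C t) (Set.Ioi 0))
    (h0 : ∫ t in Set.Ioi (0 : ℝ), w (Real.log t) * phi D k C t = 0) :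
    HasSum (fun n : ℕ => ((if n = 0 then 0 else γ n : ℝ) : ℂ) * sm D (jac k) fun y =>
        WG (fun u => w (-u)) (y + Real.log n - Real.log (√C / (2 * π))))
      (sm D (jac k) fun y => WG w (y - Real.log (√C / (2 * π)))) := by
  have hc' : Continuous fun u => w (-u) := hc.comp continuous_neg
  have hw1 : ∀ u, 0 < u → ‖w u‖ ≤ B * Real.exp u := fun u hu => by
    simpa only [abs_of_pos hu] using hw u
  have hw2 : ∀ u, 0 < u → ‖w (-u)‖ ≤ B * Real.exp u := fun u hu => by
    simpa only [abs_neg, abs_of_pos hu] using hw (-u)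
  obtain ⟨K, hK⟩ := nafe_bound D k hC hc' hw2
  obtain ⟨S, hS⟩ : ∃ S : ℕ → ℂ, ∀ n, S n = sm D (jac k) fun y =>
    WG (fun u => w (-u)) (y + Real.log n - Real.log (√C / (2 * π))) := ⟨_, fun _ => rfl⟩
  obtain ⟨S₀, hS₀⟩ : ∃ S₀ : ℂ, S₀ = sm D (jac k) fun y =>
    WG w (y - Real.log (√C / (2 * π))) := ⟨_, rfl⟩
  obtain ⟨b, hb⟩ : ∃ b : ℂ, b = ((√C / (2 * π) : ℝ) : ℂ) := ⟨_, rfl⟩
  have hb0 : b ≠ 0 := by
    rw [hb]
    exact ofReal_ne_zero.mpr (by positivity)
  have h2 : ∀ n : ℕ, n ≠ 0 →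
      ∫ t in Set.Ioi (1 : ℝ), w (-Real.log t) * (n * phi D k C (n * t)) = b * S n := by
    intro n hn
    rw [hb, hS]
    exact integral_w_phi D k hC hc' hB hw2 hn
  have h3 : ∫ t in Set.Ioi (1 : ℝ), w (Real.log t) * phi D k C t = b * S₀ := by
    rw [hb, hS₀]
    simpa only [Nat.cast_one, one_mul, Real.log_one, add_zero] using
      integral_w_phi D k hC hc hB hw1 one_ne_zero
  have h4 : ∫ t in Set.Ioc (0 : ℝ) 1, w (Real.log t) * phi D k C t =
      -∫ t in Set.Ioi (1 : ℝ), ∑' n : ℕ, (γ n : ℂ) * (w (-Real.log t) * (n * phi D k C (n * t))) := by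
    have a1 := integral_image_eq_integral_abs_deriv_smul (s := Set.Ioi (1 : ℝ)) measurableSet_Ioi
      (fun x hx => (hasDerivAt_inv (zero_lt_one.trans hx).ne').hasDerivWithinAt)
      inv_injective.injOn fun t => w (Real.log t) * phi D k C t
    rw [Set.image_inv_eq_inv, Set.inv_Ioi₀ zero_lt_one, inv_one] at a1
    rw [integral_Ioc_eq_integral_Ioo, a1, ← integral_neg]
    refine setIntegral_congr_fun measurableSet_Ioi fun t ht => ?_
    have ht' : (0 : ℝ) < t := zero_lt_one.trans ht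
    have ht2 : (t : ℂ) ≠ 0 := ofReal_ne_zero.mpr ht'.ne'
    obtain ⟨a2, a3⟩ := phi_inv hC h ht'
    have a4 := (a2.mul_left (w (-Real.log t))).tsum_eq
    beta_reduce
    rw [a3, abs_neg, abs_of_pos (by positivity), Real.log_inv, real_smul,
      tsum_congr fun n => show (γ n : ℂ) * (w (-Real.log t) * (n * phi D k C (n * t))) =
        w (-Real.log t) * ((γ n : ℂ) * n * phi D k C (n * t)) by ring, a4,
      ofReal_inv, ofReal_pow]
    field_simp
  have h5 := hasSum_integral_of_summable_integral_norm (μ := volume.restrict (Set.Ioi (1 : ℝ)))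
    (F := fun (n : ℕ) (t : ℝ) => (γ n : ℂ) * (w (-Real.log t) * (n * phi D k C (n * t))))
    (fun n => (hK n).1.const_mul _) (by
      refine Summable.of_nonneg_of_le (fun n => integral_nonneg fun t => norm_nonneg _)
        (fun n => ?_) (hγ.mul_right K)
      simp only [norm_mul (γ n : ℂ), norm_real, Real.norm_eq_abs]
      rw [integral_const_mul]
      exact mul_le_mul_of_nonneg_left (hK n).2 (abs_nonneg _))
  have h6 : ∀ n : ℕ, ∫ t in Set.Ioi (1 : ℝ), (γ n : ℂ) * (w (-Real.log t) *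
      (n * phi D k C (n * t))) = b * (((if n = 0 then 0 else γ n : ℝ) : ℂ) * S n) := by
    intro n
    split_ifs with hn
    · simp [hn]
    · rw [integral_const_mul, h2 n hn]
      ring
  simp only [h6] at h5
  rw [← Set.Ioc_union_Ioi_eq_Ioi zero_le_one, setIntegral_union Set.Ioc_disjoint_Ioi_same
    measurableSet_Ioi (hi.mono_set Set.Ioc_subset_Ioi_self)
    (hi.mono_set (Set.Ioi_subset_Ioi zero_le_one)), h3, h4, neg_add_eq_zero] at h0
  rw [h0] at h5
  simp only [← hS, ← hS₀]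
  exact (hasSum_mul_left_iff hb0).mp h5

/-- `afe_gen`, `moment_zero`, `wp_le_exp`, `wp_neg`. -/
theorem afe_poly (hC : 0 < C) (hγ : Summable fun n => |γ n|) (h : D.Dual k C γ) {κ r : ℕ}
    (hr : D.Ord k (r + 1)) {σ : ℝ} (hσ : |σ| ≤ 1) :
    HasSum (fun n : ℕ => ((if n = 0 then 0 else γ n : ℝ) : ℂ) * sm D (jac k) fun y =>
        WG (fun u => wp κ r (-σ) u) (y + Real.log n - Real.log (√C / (2 * π))))
      (sm D (jac k) fun y => WG (fun u => wp κ r σ u) (y - Real.log (√C / (2 * π)))) := by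
  have hm : ∀ j ∈ Ico κ (r + 1),
      IntegrableOn (fun t => (σ : ℂ) ^ j / j.factorial * ((Real.log t : ℂ) ^ j * phi D k C t))
        (Set.Ioi 0) ∧
      ∫ t in Set.Ioi (0 : ℝ), (σ : ℂ) ^ j / j.factorial * ((Real.log t : ℂ) ^ j * phi D k C t) = 0 :=
    fun j hj => by
      obtain ⟨a1, a2⟩ := moment_zero hC hγ h hr (mem_Ico.mp hj).2
      exact ⟨a1.const_mul _, by rw [integral_const_mul, a2, mul_zero]⟩
  have e : ∀ t : ℝ, wp κ r σ (Real.log t : ℝ) * phi D k C t = ∑ j ∈ Ico κ (r + 1),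
      (σ : ℂ) ^ j / j.factorial * ((Real.log t : ℂ) ^ j * phi D k C t) := fun t => by
    rw [wp, sum_mul]
    exact sum_congr rfl fun j _ => by ring
  have h1 := afe_gen (w := fun u : ℝ => wp κ r σ u) (B := 1) hC hγ h
    ((differentiable_wp κ r σ).continuous.comp continuous_ofReal) zero_le_one
    (fun u => by
      refine (wp_le_exp κ r σ u).trans ?_
      rw [one_mul, norm_real, Real.norm_eq_abs]
      exact Real.exp_le_exp.mpr (mul_le_of_le_one_left (abs_nonneg _) hσ))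
    (by
      simp only [e]
      exact integrable_finsetSum _ fun j hj => (hm j hj).1)
    (by
      simp only [e]
      rw [integral_finsetSum _ fun j hj => (hm j hj).1]
      exact sum_eq_zero fun j hj => (hm j hj).2)
  simpa only [ofReal_neg, wp_neg] using h1

end Pool.Agent.Lib.MP_03e5d0_nt
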