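import Pool.Agent.Lib.MP_03e5d0_nt.NBd1

set_option autoImplicit false

noncomputable section

namespace Pool.Agent.Lib.MP_03e5d0_nt

open Complex Finset MeasureTheory
open scoped NumberTheorySymbols Real ContDiff

/-! The two sides of the approximate functional equation. -/

/-- The bound for a fixed length. -/
theorem nbd_point (D : Data) (hFE : D.FE) (hPS : D.PS) : ∃ (κ₀ : ℕ) (A₀ : ℝ), ∀ A, A₀ ≤ A →
    ∀ κ, κ₀ ≤ κ → ∃ (e : ℕ) (C X₀ : ℝ), 0 ≤ C ∧ ∀ (X R : ℝ) (I k : ℕ) (T : Finset ℤ),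
    X₀ ≤ X → Pm A R X I → 30 * R ≤ k → κ ≤ k → T ⊆ allm X →
    (∀ d ∈ T, Gd D A R (Real.log X) I (jac d)) → ∀ v : ℝ,
    ∑ d ∈ T, ‖Ms D A R X d * (sg D (jac d) (fun u => wp κ k (R / Real.log X) u)
      (Ui (2 * Real.log X) I) v - ((Real.exp (R / Real.log X * v) *
        NN D (jac d) (R / Real.log X) (Real.log X / A) : ℝ) : ℂ))‖ ≤
      C * X * R ^ e * Real.exp (R - R / A) *
        Real.exp (max (5 * (v - Real.log X)) (-(3 / 5) * (v - Real.log X))) := by
  obtain ⟨j, κ₀, eg, A₀, hg⟩ := gen D hFE hPS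
  refine ⟨κ₀, A₀, fun A hA κ hκ => ?_⟩
  obtain ⟨Cg, Xg, hCg, hg⟩ := hg A hA
  obtain ⟨ep, Cp, hCp, hp⟩ := piece_plus j κ
  obtain ⟨Xf, hf⟩ := pm_facts A
  refine ⟨ep + eg, Cg * Cp + 24, max Xg Xf, by positivity,
    fun X R I k T hX hP hk hκk hT hG v => ?_⟩
  obtain ⟨h3, hL, hR, hLA, -, hU4, hi⟩ := hf X R I ((le_max_right _ _).trans hX) hP
  have hA16 := hP.hA
  have hAR := hP.hAR
  have hRL := hP.hR
  have hU : 0 < Ui (2 * Real.log X) I := by unfold Ui; positivity
  have hexp : 1 ≤ R ^ (ep + eg) * Real.exp (R - R / A) := by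
    refine one_le_mul_of_one_le_of_one_le (one_le_pow₀ (by linarith)) (Real.one_le_exp ?_)
    have : R / A ≤ R := div_le_self (by linarith) (by linarith)
    linarith
  set L := Real.log X with hLdef
  have hL0 : 0 < L := by linarith
  have hX0 : 0 < X := by linarith
  have hσ0 : 0 ≤ R / L := by positivity
  have hσ1 : R / L ≤ 1 / 10 := by rw [div_le_iff₀ hL0]; linarith
  by_cases hv : L / 4 ≤ v ∧ v ≤ 2 * L
  · have hW : 2 * (L / A) ≤ L / 8 := by
      have : L / A ≤ L / 16 := div_le_div_of_nonneg_left hL0.le (by norm_num) hA16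
      linarith
    have e1 : ∀ d : ℤ, sg D (jac d) (fun u => wp κ k (R / L) u) (Ui (2 * L) I) v -
        ((Real.exp (R / L * v) * NN D (jac d) (R / L) (L / A) : ℝ) : ℂ) =
        sg D (jac d) (hpl κ k (R / L) (L / A) v) (Ui (2 * L) I) v := fun d =>
      sg_sub_main D (jac d) κ k (R / L) hU (by linarith) (by linarith [hv.1])
    simp only [e1]
    have h1 := hg X R v (Cp * R ^ ep * Real.exp (R - R / A) * Real.exp (R / L * max (v - L) 0)) I κ
      (hpl κ k (R / L) (L / A) v) T ((le_max_left _ _).trans hX) hP hκ hv.2 hT hG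
      (fun i _ => hp k i A R L v hA16 hAR hL0 hk hκk hv.1)
    refine h1.trans ?_
    have h2 : Real.exp (R / L * max (v - L) 0) * Real.exp (max (v - L) 0 / 2) ≤
        Real.exp (max (5 * (v - L)) (-(3 / 5) * (v - L))) := by
      rw [← Real.exp_add]
      refine Real.exp_le_exp.2 ?_
      have h0 : 0 ≤ max (v - L) 0 := le_max_right _ _
      have h4 : R / L * max (v - L) 0 ≤ 1 / 10 * max (v - L) 0 := by gcongr
      rcases le_total (v - L) 0 with h | h
      · rw [max_eq_right h] at h4 ⊢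
        exact le_max_of_le_right (by linarith)
      · rw [max_eq_left h] at h4 ⊢
        exact le_max_of_le_left (by linarith)
    have hR0 : 0 ≤ R := by linarith
    calc Cg * X * (Cp * R ^ ep * Real.exp (R - R / A) * Real.exp (R / L * max (v - L) 0)) * R ^ eg *
          Real.exp (max (v - L) 0 / 2)
        = Cg * Cp * X * R ^ (ep + eg) * Real.exp (R - R / A) *
          (Real.exp (R / L * max (v - L) 0) * Real.exp (max (v - L) 0 / 2)) := by ring
      _ ≤ _ := by gcongr; linarith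
  · have h1 := triv_sg D hP h3 (s := R / L) (abs_of_nonneg hσ0) κ k hU hT v
    have h2 := triv_main D hP h3 hT v
    rw [← hLdef] at h1 h2
    have h4 : L / 8 + max v 0 / 10 + v ≤ max (5 * (v - L)) (-(3 / 5) * (v - L)) ∧
        L / 4 + max v 0 / 10 ≤ max (5 * (v - L)) (-(3 / 5) * (v - L)) := by
      rcases not_and_or.1 hv with h | h
      · rcases le_total v 0 with h' | h'
        · rw [max_eq_right h']
          exact ⟨le_max_of_le_right (by linarith), le_max_of_le_right (by linarith)⟩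
        · rw [max_eq_left h']
          exact ⟨le_max_of_le_right (by linarith), le_max_of_le_right (by linarith)⟩
      · rw [max_eq_left (by linarith : 0 ≤ v)]
        exact ⟨le_max_of_le_left (by linarith), le_max_of_le_left (by linarith)⟩
    have h5 := Real.exp_le_exp.2 h4.1
    have h6 := Real.exp_le_exp.2 h4.2
    set E := Real.exp (max (5 * (v - L)) (-(3 / 5) * (v - L))) with hE
    have hE0 : 0 < E := Real.exp_pos _
    calc _ ≤ ∑ d ∈ T, (‖Ms D A R X d * sg D (jac d) (fun u => wp κ k (R / L) u) (Ui (2 * L) I) v‖ +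
          ‖Ms D A R X d * ((Real.exp (R / L * v) * NN D (jac d) (R / L) (L / A) : ℝ) : ℂ)‖) := by
          refine Finset.sum_le_sum fun d _ => ?_
          rw [mul_sub]
          exact norm_sub_le _ _
      _ ≤ 12 * X * E + 12 * X * E := by
          rw [Finset.sum_add_distrib]
          exact add_le_add (h1.trans (by gcongr)) (h2.trans (by gcongr))
      _ = 24 * X * 1 * E := by ring
      _ ≤ (Cg * Cp + 24) * X * (R ^ (ep + eg) * Real.exp (R - R / A)) * E := by
          gcongr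
          nlinarith [mul_nonneg hCg hCp]
      _ = _ := by ring

/-- `wg_split`, `top_gen`, `gd_ge` (integrability), `int_bound` with `L₁ = L` for
`f d v = Ms d * (sg v - exp (σ v) N)`. For `L / 4 ≤ L' ≤ 2 L`: `sg_sub_main`, `gen`, `piece_plus`; else
`triv_sg`, `triv_main`: for `L' ≤ L / 4` the exponents are at most `2 L / 5 ≤ -3 (L' - L) / 5`. -/
theorem primal_bound (D : Data) (hFE : D.FE) (hPS : D.PS) (cb : ℝ) : ∃ (κ₀ : ℕ) (A₀ : ℝ), ∀ A, A₀ ≤ A →
    ∀ κ, κ₀ ≤ κ → ∃ (e : ℕ) (C X₀ : ℝ), 0 ≤ C ∧ ∀ (X R : ℝ) (I k : ℕ) (T : Finset ℤ) (ℒ : ℤ → ℝ),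
    X₀ ≤ X → Pm A R X I → 30 * R ≤ k → κ ≤ k → T ⊆ sqf X →
    (∀ d ∈ T, Gd D A R (Real.log X) I (jac d) ∧ |Real.log X - ℒ d| ≤ cb) →
    ∑ d ∈ T, ‖Ms D A R X d * ((sm D (jac d) fun y =>
      WG (fun u => wp κ k (R / Real.log X) u) (y - ℒ d)) -
        ((gd (R / Real.log X) (ℒ d) * NN D (jac d) (R / Real.log X) (Real.log X / A) : ℝ) : ℂ))‖ ≤
      C * X * R ^ e * Real.exp (R - R / A) := by
  obtain ⟨κ₁, A₁, h₁⟩ := nbd_point D hFE hPS
  obtain ⟨κ₂, A₂, h₂⟩ := top_gen D hFE hPS cb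
  obtain ⟨C₀, hC₀, h₀⟩ := rh_env cb
  refine ⟨max κ₁ κ₂, max A₁ A₂, fun A hA κ hκ => ?_⟩
  obtain ⟨e, C₁, X₁, hC₁, h₁⟩ := h₁ A ((le_max_left _ _).trans hA) κ ((le_max_left _ _).trans hκ)
  obtain ⟨C₂, X₂, hC₂, h₂⟩ := h₂ A ((le_max_right _ _).trans hA) κ ((le_max_right _ _).trans hκ)
  obtain ⟨Xf, hf⟩ := pm_facts A
  refine ⟨e + κ, 3 * C₀ * C₁ + C₂, max (max X₁ X₂) Xf, by positivity,
    fun X R I k T ℒ hX hP hk hκk hT hG => ?_⟩
  obtain ⟨h3, hL, hR, -⟩ := hf X R I ((le_max_right _ _).trans hX) hP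
  have hX1 : X₁ ≤ X := (le_max_left _ _).trans ((le_max_left _ _).trans hX)
  have hX2 : X₂ ≤ X := (le_max_right _ _).trans ((le_max_left _ _).trans hX)
  have hA16 := hP.hA
  have hRL := hP.hR
  have hU : 0 < Ui (2 * Real.log X) I := by unfold Ui; positivity
  have hT' : T ⊆ allm X := fun d hd => by
    classical
    have := hT hd
    unfold sqf at this
    exact Finset.mem_of_mem_filter _ this
  have h₁ := h₁ X R I k T hX1 hP hk hκk hT' fun d hd => (hG d hd).1
  have hσ0 : 0 ≤ R / Real.log X := by positivity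
  have h₂ := h₂ X R (R / Real.log X) (Real.log X) I k T (fun d => Real.log X - ℒ d) hX2 hP
    (abs_of_nonneg hσ0) hT fun d hd => (hG d hd).2
  set L := Real.log X with hLdef
  have hL0 : 0 < L := by linarith
  have hX0 : 0 < X := by linarith
  have hR1 : 1 ≤ R := by linarith
  have hσ1 : R / L ≤ 1 := by rw [div_le_iff₀ hL0]; linarith
  have hc : Continuous fun u : ℝ => wp κ k (R / L) u :=
    (differentiable_wp κ k (R / L)).continuous.comp continuous_ofReal
  have hw : ∀ u : ℝ, 0 < u → ‖wp κ k (R / L) u‖ ≤ 1 * Real.exp u := by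
    intro u hu
    refine (wp_le_exp κ k (R / L) u).trans ?_
    rw [one_mul, abs_of_nonneg hσ0, norm_real, Real.norm_of_nonneg hu.le]
    exact Real.exp_le_exp.2 (mul_le_of_le_one_left hu.le hσ1)
  have key : ∀ d : ℤ, Ms D A R X d * ((sm D (jac d) fun y =>
      WG (fun u => wp κ k (R / L) u) (y - ℒ d)) -
        ((gd (R / L) (ℒ d) * NN D (jac d) (R / L) (L / A) : ℝ) : ℂ)) =
      (∫ v, (rh (v - ℒ d) : ℂ) * (Ms D A R X d * (sg D (jac d) (fun u => wp κ k (R / L) u)
        (Ui (2 * L) I) v - ((Real.exp (R / L * v) * NN D (jac d) (R / L) (L / A) : ℝ) : ℂ)))) +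
      Ms D A R X d * sm D (jac d) fun y => WG (fun u => wp κ k (R / L) u *
        ((1 - st (Ui (2 * L) I) u : ℝ) : ℂ)) (y - L + (L - ℒ d)) := by
    intro d
    have i1 := integrable_sg (D := D) (adm_jac d) hc hU zero_le_one hw (ℒ d)
    have i2 : Integrable fun v : ℝ => ((rh (v - ℒ d) * Real.exp (R / L * v) : ℝ) : ℂ) :=
      (gd_ge hσ0 hσ1 (ℒ d)).1.ofReal
    have e1 : (fun v : ℝ => (rh (v - ℒ d) : ℂ) * (Ms D A R X d * (sg D (jac d)
        (fun u => wp κ k (R / L) u) (Ui (2 * L) I) v -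
          ((Real.exp (R / L * v) * NN D (jac d) (R / L) (L / A) : ℝ) : ℂ)))) =
        fun v : ℝ => Ms D A R X d * ((rh (v - ℒ d) : ℂ) * sg D (jac d)
          (fun u => wp κ k (R / L) u) (Ui (2 * L) I) v -
          ((rh (v - ℒ d) * Real.exp (R / L * v) : ℝ) : ℂ) * (NN D (jac d) (R / L) (L / A) : ℂ)) := by
      funext v
      push_cast
      ring
    have e2 : ∀ y : ℝ, y - L + (L - ℒ d) = y - ℒ d := fun y => by ring
    simp only [e2]
    rw [wg_split (adm_jac d) hc hU zero_le_one hw (ℒ d), e1, integral_const_mul,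
      integral_sub i1 (i2.mul_const _), integral_mul_const, integral_complex_ofReal, ← gd,
      ofReal_mul]
    ring
  have h4 := int_bound T (e := fun d v => rh (v - ℒ d)) (L₁ := L)
    (f := fun d v => Ms D A R X d * (sg D (jac d) (fun u => wp κ k (R / L) u)
        (Ui (2 * L) I) v - ((Real.exp (R / L * v) * NN D (jac d) (R / L) (L / A) : ℝ) : ℂ)))
    hC₀ (K := C₁ * X * R ^ e * Real.exp (R - R / A)) (by positivity)
    (fun d _ => continuous_rh.comp (continuous_id.sub continuous_const))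
    (fun d hd v => by
      have := h₀ (L - ℒ d) (v - L) (hG d hd).2
      rw [show v - L + (L - ℒ d) = v - ℒ d by ring] at this
      rwa [abs_of_nonneg (rh_nonneg _)])
    (fun d _ => continuous_const.mul ((continuous_sg D (jac d) hc hU).sub (by fun_prop))) h₁
  simp only [key]
  refine (Finset.sum_le_sum fun d _ => norm_add_le _ _).trans ?_
  rw [Finset.sum_add_distrib]
  refine (add_le_add h4 h₂).trans ?_
  have h5 : Real.exp (R / 2) ≤ Real.exp (R - R / A) := by
    refine Real.exp_le_exp.2 ?_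
    have : R / A ≤ R / 16 := div_le_div_of_nonneg_left (by linarith) (by norm_num) hA16
    linarith
  have h6 : R ^ e ≤ R ^ (e + κ) := pow_le_pow_right₀ hR1 (by omega)
  have h7 : R ^ κ ≤ R ^ (e + κ) := pow_le_pow_right₀ hR1 (by omega)
  calc 3 * C₀ * (C₁ * X * R ^ e * Real.exp (R - R / A)) + C₂ * X * R ^ κ * Real.exp (R / 2)
      ≤ 3 * C₀ * (C₁ * X * R ^ (e + κ) * Real.exp (R - R / A)) +
        C₂ * X * R ^ (e + κ) * Real.exp (R - R / A) := by gcongr
    _ = _ := by ring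

end Pool.Agent.Lib.MP_03e5d0_nt
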