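import Pool.Agent.Lib.MP_03e5d0_nt.NTop

set_option autoImplicit false

noncomputable section

namespace Pool.Agent.Lib.MP_03e5d0_nt

open Complex Finset MeasureTheory
open scoped NumberTheorySymbols Real ContDiff

/-! The two sides of the approximate functional equation. -/

/-- `wg_split` with `ℒ d - t` (note `y + t - ℒ d = y - (ℒ d - t) = y - (L - t) + (L - ℒ d)`), `top_gen`
with `L₁ = L - t`, `int_bound` with `L₁ = L - t` and `rh_env`. For `L' ≤ 2 L`: `gen`, `piece_minus`; for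
`2 L ≤ L'`: `triv_sg`, `L / 8 + 11 L' / 10 ≤ 5 (L' - L)`. In both cases the exponent is at most
`max (5 (L' - L)) 0 ≤ max (5 v) (-3 v / 5)`, `v = L' - (L - t)`. -/
theorem dual_bound (D : Data) (hFE : D.FE) (hPS : D.PS) (cb : ℝ) : ∃ (κ₀ : ℕ) (A₀ : ℝ), ∀ A, A₀ ≤ A →
    ∀ κ, κ₀ ≤ κ → ∃ (e : ℕ) (C X₀ : ℝ), 0 ≤ C ∧ ∀ (X R t : ℝ) (I k : ℕ) (T : Finset ℤ) (ℒ : ℤ → ℝ),
    X₀ ≤ X → Pm A R X I → 30 * R ≤ k → κ ≤ k → 0 ≤ t → T ⊆ sqf X →
    (∀ d ∈ T, Gd D A R (Real.log X) I (jac d) ∧ |Real.log X - ℒ d| ≤ cb) →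
    ∑ d ∈ T, ‖Ms D A R X d * sm D (jac d) fun y =>
      WG (fun u => wp κ k (-(R / Real.log X)) u) (y + t - ℒ d)‖ ≤
      C * X * R ^ e * Real.exp (R / 2) := by
  obtain ⟨κ₁, A₁, htop⟩ := top_gen D hFE hPS cb
  obtain ⟨j, κ₂, e₂, A₂, hgen⟩ := gen D hFE hPS
  obtain ⟨C₀, hC₀, henv⟩ := rh_env cb
  refine ⟨max κ₁ κ₂, max A₁ A₂, fun A hA κ hκ => ?_⟩
  obtain ⟨C₁, X₁, hC₁, h1⟩ := htop A (le_of_max_le_left hA) κ (le_of_max_le_left hκ)
  obtain ⟨C₂, X₂, hC₂, h2⟩ := hgen A (le_of_max_le_right hA)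
  obtain ⟨e₃, C₃, hC₃, h3⟩ := piece_minus j κ
  obtain ⟨X₃, h4⟩ := pm_facts A
  refine ⟨κ + (e₃ + e₂), 3 * C₀ * (C₂ * C₃ + 12) + C₁, max X₁ (max X₂ X₃), by positivity,
    fun X R t I k T ℒ hX hP hk hκk ht hT hd => ?_⟩
  obtain ⟨hX3, hL, hR, -⟩ := h4 X R I (le_of_max_le_right (le_of_max_le_right hX)) hP
  have hT' : T ⊆ allm X := by
    classical
    exact hT.trans (filter_subset _ _)
  have hL0 : 0 < Real.log X := by linarith
  have hR1 : 1 ≤ R := by linarith
  have hs : |(-(R / Real.log X))| = R / Real.log X := by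
    rw [abs_neg, abs_of_nonneg (by positivity)]
  have hU : 0 < Ui (2 * Real.log X) I := by
    unfold Ui
    positivity
  have hc : Continuous fun u : ℝ => wp κ k (-(R / Real.log X)) u :=
    (differentiable_wp _ _ _).continuous.comp continuous_ofReal
  have hw : ∀ u : ℝ, 0 < u → ‖wp κ k (-(R / Real.log X)) u‖ ≤ 1 * Real.exp u := fun u hu => by
    refine (wp_le_exp _ _ _ _).trans ?_
    rw [one_mul, hs, norm_real, Real.norm_of_nonneg hu.le]
    refine Real.exp_le_exp.2 (mul_le_of_le_one_left hu.le ?_)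
    rw [div_le_one hL0]
    linarith [hP.hR]
  have hE : 1 ≤ Real.exp (R / 2) := Real.one_le_exp (by positivity)
  have hK : 0 ≤ X * R ^ (κ + (e₃ + e₂)) * Real.exp (R / 2) := by positivity
  have h5 := int_bound T (e := fun d v => rh (v - (ℒ d - t)))
    (f := fun d v => Ms D A R X d *
      sg D (jac d) (fun u => wp κ k (-(R / Real.log X)) u) (Ui (2 * Real.log X) I) v)
    (L₁ := Real.log X - t) (K := (C₂ * C₃ + 12) * (X * R ^ (κ + (e₃ + e₂)) * Real.exp (R / 2))) hC₀
    (by positivity) (fun d _ => continuous_rh.comp (continuous_sub_right _))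
    (fun d hd' v => by
      rw [abs_of_nonneg (rh_nonneg _),
        show v - (ℒ d - t) = v - (Real.log X - t) + (Real.log X - ℒ d) by ring]
      exact henv _ _ (hd d hd').2)
    (fun d _ => continuous_const.mul (continuous_sg D _ hc hU)) fun v => by
      rcases le_total v (2 * Real.log X) with hv | hv
      · refine (h2 X R v (C₃ * R ^ e₃ * Real.exp (R / 2)) I κ _ T
          (le_of_max_le_left (le_of_max_le_right hX)) hP (le_of_max_le_right hκ) hv hT'
          (fun m hm => (hd m hm).1) fun i _ => h3 k i R _ hR1 hL0 hk hκk).trans ?_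
        refine mul_le_mul ?_ (Real.exp_le_exp.2 ?_) (by positivity) (by positivity)
        · have a1 : R ^ (e₃ + e₂) ≤ R ^ (κ + (e₃ + e₂)) := pow_le_pow_right₀ hR1 (by omega)
          calc C₂ * X * (C₃ * R ^ e₃ * Real.exp (R / 2)) * R ^ e₂
              = C₂ * C₃ * (X * R ^ (e₃ + e₂) * Real.exp (R / 2)) := by ring
            _ ≤ _ := by gcongr; linarith
        · rcases le_total (v - Real.log X) 0 with a1 | a1
          · rw [max_eq_right a1]
            rcases le_total (v - (Real.log X - t)) 0 with a2 | a2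
            · exact le_max_of_le_right (by linarith)
            · exact le_max_of_le_left (by linarith)
          · rw [max_eq_left a1]
            exact le_max_of_le_left (by linarith)
      · refine (triv_sg D hP hX3 hs κ k hU hT' v).trans ?_
        refine mul_le_mul ?_ (Real.exp_le_exp.2 ?_) (by positivity) (by positivity)
        · have a1 : 1 ≤ R ^ (κ + (e₃ + e₂)) := one_le_pow₀ hR1
          calc 12 * X = 12 * (X * 1 * 1) := by ring
            _ ≤ _ := by gcongr; linarith [mul_nonneg hC₂ hC₃]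
        · rw [max_eq_left (by linarith : (0 : ℝ) ≤ v)]
          exact le_max_of_le_left (by linarith)
  have h6 := h1 X R _ (Real.log X - t) I k T (fun d => Real.log X - ℒ d) (le_of_max_le_left hX) hP
    hs hT fun d hd' => (hd d hd').2
  have h7 : C₁ * X * R ^ κ * Real.exp (R / 2) ≤
      C₁ * (X * R ^ (κ + (e₃ + e₂)) * Real.exp (R / 2)) := by
    have a1 : R ^ κ ≤ R ^ (κ + (e₃ + e₂)) := pow_le_pow_right₀ hR1 (by omega)
    calc _ = C₁ * (X * R ^ κ * Real.exp (R / 2)) := by ring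
      _ ≤ _ := by gcongr
  refine le_trans (sum_le_sum fun d _ => ?_) ((sum_add_distrib.trans_le
    (add_le_add h5 (h6.trans h7))).trans_eq (by ring))
  have h8 := wg_split (D := D) (adm_jac d) hc hU zero_le_one hw (ℒ d - t)
  simp only [show ∀ y, y + t - ℒ d = y - (ℒ d - t) from fun y => by ring,
    show ∀ y, y - (Real.log X - t) + (Real.log X - ℒ d) = y - (ℒ d - t) from fun y => by ring]
  rw [h8, mul_add, ← integral_const_mul]
  refine (norm_add_le _ _).trans (add_le_add (le_of_eq ?_) le_rfl)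
  simp only [mul_left_comm (Ms D A R X d)]

end Pool.Agent.Lib.MP_03e5d0_nt
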