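import Pool.Agent.Lib.MP_03e5d0_nt.NBd
import Pool.Agent.Lib.MP_03e5d0_nt.NAfe

set_option autoImplicit false

noncomputable section

namespace Pool.Agent.Lib.MP_03e5d0_nt

open Complex Finset MeasureTheory
open scoped NumberTheorySymbols Real ContDiff

/-! The exponential tail in a dyadic shell. -/

theorem ncnt_low {D : Data} {A R X ℒ cb : ℝ} {d : ℤ} (hR : 0 < R) (hL : 10 * R ≤ Real.log X)
    (hN : Nr D (jac d) (R / Real.log X) (Real.log X / A)) (hc : |Real.log X - ℒ| ≤ cb) :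
    Real.exp (R - cb - 1) / 2 ≤ ‖Ms D A R X d *
      ((gd (R / Real.log X) ℒ * NN D (jac d) (R / Real.log X) (Real.log X / A) : ℝ) : ℂ)‖ := by
  have hL0 : 0 < Real.log X := by linarith
  have h0 : 0 ≤ R / Real.log X := by positivity
  have h1 : R / Real.log X ≤ 1 := (div_le_one hL0).2 (by linarith)
  have h2 := (gd_ge h0 h1 ℒ).2
  have h3 : R - cb - 1 ≤ R / Real.log X * ℒ - 1 := by
    have e : R / Real.log X * Real.log X = R := div_mul_cancel₀ _ hL0.ne'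
    have h4 : R / Real.log X * (Real.log X - ℒ) ≤ 1 * cb :=
      (mul_le_mul_of_nonneg_left (le_abs_self _) h0).trans
        (mul_le_mul h1 hc (abs_nonneg _) zero_le_one)
    rw [mul_sub, e] at h4
    linarith
  have h5 := (Real.exp_le_exp.2 h3).trans h2
  have h6 : 1 / 2 ≤ NN D (jac d) (R / Real.log X) (Real.log X / A) *
      MM D (jac d) (R / Real.log X) (Real.log X / A) := by
    have := (abs_le.1 hN).1
    linarith
  rw [Ms, ← Complex.ofReal_mul, Complex.norm_real, Real.norm_eq_abs]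
  refine le_trans ?_ (le_abs_self _)
  have h7 := mul_le_mul h5 h6 (by norm_num) ((Real.exp_pos _).le.trans h5)
  linarith

theorem ncnt_fin {N X R A cb a b K₁ K₂ r₁ r₂ : ℝ} (hA : 16 ≤ A) (hR : 0 ≤ R) (hX : 0 ≤ X)
    (ha : 0 ≤ a) (hb : 0 ≤ b) (hK₁ : 0 ≤ K₁) (h₁ : r₁ ≤ K₁ * Real.exp (1 / (2 * A) * R))
    (h₂ : r₂ ≤ K₂ * Real.exp (1 / (2 * A) * R))
    (h : N * (Real.exp (R - cb - 1) / 2) ≤
      b * X * r₂ * Real.exp (R - R / A) + a * X * r₁ * Real.exp (R / 2)) :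
    N ≤ 2 * Real.exp (cb + 1) * (b * K₂ + a * K₁) * X * Real.exp (-(R / (2 * A))) := by
  have hA0 : 0 < A := by linarith
  have e1 : Real.exp (1 / (2 * A) * R) * Real.exp (R - R / A) = Real.exp (R - R / (2 * A)) := by
    rw [← Real.exp_add]
    congr 1
    field_simp
    ring
  have e2 : Real.exp (1 / (2 * A) * R) * Real.exp (R / 2) ≤ Real.exp (R - R / (2 * A)) := by
    rw [← Real.exp_add]
    refine Real.exp_le_exp.2 ?_
    have h3 : R / (2 * A) ≤ R / 4 := div_le_div_of_nonneg_left hR (by norm_num) (by linarith)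
    rw [one_div_mul_eq_div]
    linarith
  have h4 : b * X * r₂ * Real.exp (R - R / A) ≤ b * K₂ * X * Real.exp (R - R / (2 * A)) := by
    rw [← e1]
    calc _ ≤ b * X * (K₂ * Real.exp (1 / (2 * A) * R)) * Real.exp (R - R / A) := by gcongr
      _ = _ := by ring
  have h5 : a * X * r₁ * Real.exp (R / 2) ≤ a * K₁ * X * Real.exp (R - R / (2 * A)) :=
    calc _ ≤ a * X * (K₁ * Real.exp (1 / (2 * A) * R)) * Real.exp (R / 2) := by gcongr
      _ = a * K₁ * X * (Real.exp (1 / (2 * A) * R) * Real.exp (R / 2)) := by ring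
      _ ≤ _ := by gcongr
  have e3 : Real.exp (cb + 1) * Real.exp (-(R / (2 * A))) * Real.exp (R - cb - 1) =
      Real.exp (R - R / (2 * A)) := by
    rw [← Real.exp_add, ← Real.exp_add]
    congr 1
    ring
  refine le_of_mul_le_mul_right (h.trans ((add_le_add h4 h5).trans_eq ?_))
    (half_pos (Real.exp_pos (R - cb - 1)))
  rw [← e3]
  ring

/-- For `d ∈ T` choose the conductor `C d` and the dual coefficients `γ d` from `FE`; `ell_near`;
`exp (R - |cb| - 1) / 2 ≤ ‖Ms d * (gd * N)‖` by `gd_ge` and `Nr`; `afe_poly`, `sum_tsum_le`, `dual_bound`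
with `t = log n`, `primal_bound`; `pow_le_exp`. -/
theorem card_good (D : Data) (hFE : D.FE) (hPS : D.PS) : ∃ A₀ : ℝ, ∀ A, A₀ ≤ A → ∃ (κ : ℕ) (C X₀ : ℝ),
    0 ≤ C ∧ ∀ (X R : ℝ) (I k : ℕ) (T : Finset ℤ), X₀ ≤ X → Pm A R X I → 30 * R ≤ k → κ ≤ k → T ⊆ sqf X →
    (∀ d ∈ T, Gd D A R (Real.log X) I (jac d) ∧ X / 2 ≤ |(d : ℝ)| ∧ D.Ord d (k + 1)) →
    (T.card : ℝ) ≤ C * X * Real.exp (-(R / (2 * A))) := by
  obtain ⟨c₀, C₀, M, gb, γ₁, hc₀, -, hgb, hsum, hD, -⟩ := id hFE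
  choose! Cf γf h1 h2 h3 h4 using hD
  obtain ⟨cb, hcb⟩ := ell_near hc₀ C₀
  obtain ⟨κ₁, A₁, hd⟩ := dual_bound D hFE hPS cb
  obtain ⟨κ₂, A₂, hp⟩ := primal_bound D hFE hPS cb
  have hg : Summable gb := hsum.of_nonneg_of_le hgb fun n =>
    le_mul_of_one_le_right (hgb n) (le_add_of_nonneg_right (Real.log_natCast_nonneg n))
  refine ⟨max (max A₁ A₂) 16, fun A hA => ?_⟩
  rw [max_le_iff, max_le_iff] at hA
  obtain ⟨⟨hA1, hA2⟩, hA3⟩ := hA
  obtain ⟨e₁, C₁, X₁, hC₁, hd⟩ := hd A hA1 (max κ₁ κ₂) (le_max_left _ _)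
  obtain ⟨e₂, C₂, X₂, hC₂, hp⟩ := hp A hA2 (max κ₁ κ₂) (le_max_right _ _)
  have hb : 0 < 1 / (2 * A) := by positivity
  obtain ⟨K₁, hK₁, hk₁⟩ := pow_le_exp e₁ hb
  obtain ⟨K₂, hK₂, hk₂⟩ := pow_le_exp e₂ hb
  have hG : 0 ≤ ∑' n, gb n := tsum_nonneg hgb
  refine ⟨max κ₁ κ₂, 2 * Real.exp (cb + 1) * (C₂ * K₂ + (∑' n, gb n) * C₁ * K₁), max (max X₁ X₂) 1,
    by positivity, fun X R I k T hX hP hk hκ hT H => ?_⟩
  rw [max_le_iff, max_le_iff] at hX
  obtain ⟨⟨hX1, hX2⟩, hX3⟩ := hX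
  have hR : 0 < R := by linarith [hP.hAR]
  have hL := hP.hR
  have hsq : ∀ d ∈ T, Squarefree d ∧ |(d : ℝ)| ≤ X := fun d hd => by
    classical
    have := mem_filter.1 (hT hd)
    exact ⟨this.2, (mem_allm (by linarith)).1 this.1⟩
  have hn : ∀ d ∈ T, 0 < Cf d ∧ |Real.log X - Real.log (√(Cf d) / (2 * π))| ≤ cb := fun d hd =>
    hcb X (Cf d) d (by linarith) (H d hd).2.1 (hsq d hd).2 (h1 d (hsq d hd).1) (h2 d (hsq d hd).1)
  have H' : ∀ d ∈ T, Gd D A R (Real.log X) I (jac d) ∧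
      |Real.log X - Real.log (√(Cf d) / (2 * π))| ≤ cb := fun d hd => ⟨(H d hd).1, (hn d hd).2⟩
  have hσ : |R / Real.log X| ≤ 1 := by
    rw [abs_of_nonneg (div_nonneg hR.le (by linarith))]
    exact (div_le_one (by linarith)).2 (by linarith)
  have q1 := hp X R I k T (fun d => Real.log (√(Cf d) / (2 * π))) hX2 hP hk hκ hT H'
  have q2 := sum_tsum_le T hgb hg (γ := fun d n => if n = 0 then 0 else γf d n)
    (fun d hd n => by
      split_ifs
      · simpa using hgb n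
      · exact h3 d (hsq d hd).1 n)
    (a := fun d n => Ms D A R X d * sm D (jac d) fun y =>
      WG (fun u => wp (max κ₁ κ₂) k (-(R / Real.log X)) u)
        (y + Real.log n - Real.log (√(Cf d) / (2 * π))))
    (b := fun d => Ms D A R X d * sm D (jac d) fun y =>
      WG (fun u => wp (max κ₁ κ₂) k (R / Real.log X) u) (y - Real.log (√(Cf d) / (2 * π))))
    (fun d hd => by
      have := (afe_poly (κ := max κ₁ κ₂) (hn d hd).1
        (hg.of_nonneg_of_le (fun n => abs_nonneg _) (h3 d (hsq d hd).1)) (h4 d (hsq d hd).1)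
        (H d hd).2.2 hσ).mul_left (Ms D A R X d)
      simpa only [mul_left_comm] using this)
    fun n => hd X R (Real.log n) I k T (fun d => Real.log (√(Cf d) / (2 * π))) hX1 hP hk hκ
      (Real.log_natCast_nonneg n) hT H'
  refine ncnt_fin hA3 hR.le (by linarith) (mul_nonneg hG hC₁) hC₂ hK₁ (hk₁ R hR.le) (hk₂ R hR.le) ?_
  rw [← nsmul_eq_mul, ← sum_const]
  refine le_trans (sum_le_sum fun d hd => (ncnt_low hR hL (H d hd).1.1 (hn d hd).2).trans ?_)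
    (le_trans (sum_add_distrib.le.trans (add_le_add q1 q2)) (le_of_eq (by ring)))
  rw [mul_sub, add_comm, norm_sub_rev]
  exact norm_le_insert' _ _

open Classical in
/-- `R = k / 30`, `exists_I`, `card_good`, `card_bad`. -/
theorem ncnt (D : Data) (hFE : D.FE) (hPS : D.PS) : ∃ (c C : ℝ) (K0 : ℕ) (X0 : ℝ), 0 < c ∧
    ∀ X : ℝ, X0 ≤ X → ∀ k : ℕ, K0 ≤ k → (k : ℝ) ≤ 3 * Real.log X →
    (((sqf X).filter fun d : ℤ => X / 2 ≤ |(d : ℝ)| ∧ D.Ord d (k + 1)).card : ℝ) ≤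
      C * X * Real.exp (-(c * k)) := by
  obtain ⟨A₁, h1⟩ := card_good D hFE hPS
  obtain ⟨A₂, h2⟩ := card_bad D hFE hPS
  obtain ⟨A, hA1, hA2, hA3⟩ : ∃ A, A₁ ≤ A ∧ A₂ ≤ A ∧ 16 ≤ A :=
    ⟨max (max A₁ A₂) 16, le_max_of_le_left (le_max_left _ _), le_max_of_le_left (le_max_right _ _),
      le_max_right _ _⟩
  obtain ⟨κ, C₁, X₁, -, h1⟩ := h1 A hA1
  obtain ⟨C₂, X₂, -, h2⟩ := h2 A hA2
  obtain ⟨X₃, h3⟩ := exists_I
  refine ⟨1 / (60 * A), C₁ + C₂, max κ ⌈30 * A⌉₊, max (max X₁ X₂) X₃, by positivity,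
    fun X hX k hk hkX => ?_⟩
  rw [max_le_iff, max_le_iff] at hX
  rw [max_le_iff, Nat.ceil_le] at hk
  obtain ⟨I, hI, hI'⟩ := h3 X hX.2
  have hP : Pm A (k / 30) X I := ⟨hA3, by linarith [hk.2], by linarith, hI, hI'⟩
  have q1 := h1 X (k / 30) I k ((sqf X).filter fun d : ℤ =>
    Gd D A (k / 30) (Real.log X) I (jac d) ∧ X / 2 ≤ |(d : ℝ)| ∧ D.Ord d (k + 1)) hX.1.1 hP
    (by linarith) hk.1 (filter_subset _ _) fun d hd => (mem_filter.1 hd).2
  have q2 := h2 X (k / 30) I hX.1.2 hP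
  have e : (k : ℝ) / 30 / (2 * A) = 1 / (60 * A) * k := by ring
  rw [e] at q1 q2
  refine le_trans ?_ ((add_le_add q1 q2).trans_eq (by ring))
  rw [← Nat.cast_add, Nat.cast_le]
  refine le_trans (card_le_card fun d hd => ?_) (card_union_le _ _)
  rw [mem_filter] at hd
  rw [mem_union, mem_filter, mem_filter]
  by_cases hG : Gd D A (k / 30) (Real.log X) I (jac d)
  · exact Or.inl ⟨hd.1, hG, hd.2⟩
  · exact Or.inr ⟨(mem_filter.1 hd.1).1, hG⟩

end Pool.Agent.Lib.MP_03e5d0_nt
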