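import Pool.Agent.Lib.MP_03e5d0_nt.MDef

set_option autoImplicit false

noncomputable section

namespace Pool.Agent.Lib.MP_03e5d0_nt

open Complex Finset MeasureTheory
open scoped NumberTheorySymbols Real ContDiff

/-! Definitions for the exponential tail of the analytic rank. -/

/-- The Dirichlet inverse of `lam`. -/
def mu (D : Data) (n : ℕ) : ℝ :=
  if n = 0 then 0 else n.factorization.prod fun p a =>
    if a = 1 then -D.lam p else if a = 2 ∧ ¬p ∣ D.q then 1 else 0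

/-- The sum with the coefficients `mu` and the weight `V (log n)`. -/
def smu (D : Data) (x : ℕ → ℝ) (V : ℝ → ℂ) : ℂ :=
  ∑' n : ℕ, ((mu D n * cm x n / √n : ℝ) : ℂ) * V (Real.log n)

/-- Shift by `σ` and smooth truncation at `U`. -/
def cut (σ U y : ℝ) : ℝ := Real.exp (-σ * y) * bump 1 (y / U)

/-- The truncated series. -/
def NN (D : Data) (x : ℕ → ℝ) (σ U : ℝ) : ℝ :=
  ∑' n : ℕ, D.lam n * cm x n / √n * cut σ U (Real.log n)

/-- The truncated inverse series. -/
def MM (D : Data) (x : ℕ → ℝ) (σ U : ℝ) : ℝ :=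
  ∑' n : ℕ, mu D n * cm x n / √n * cut σ U (Real.log n)

/-- The `L²` norm in the random model. -/
def en (P : Finset ℕ) (f : (ℕ → ℝ) → ℂ) : ℝ := √(Ex P dl0 fun x => ‖f x‖ ^ 2)

/-- The density `exp v * exp (-exp v)`. -/
def rh (v : ℝ) : ℝ := Real.exp v * Real.exp (-Real.exp v)

/-- The weight in the approximate functional equation with test function `w`. -/
def WG (w : ℝ → ℂ) (y : ℝ) : ℂ := ∫ u in Set.Ioi (0 : ℝ), w u * (rh (y + u) : ℂ)

/-- A middle part of the exponential series. -/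
def wp (κ k : ℕ) (s : ℝ) (z : ℂ) : ℂ := ∑ j ∈ Ico κ (k + 1), (s * z) ^ j / j.factorial

/-- Zero for `u ≤ U`, one for `2 U ≤ u`. -/
def st (U u : ℝ) : ℝ := Real.smoothTransition (u / U - 1)

/-- The sum of length `exp L'` without its top. -/
def sg (D : Data) (x : ℕ → ℝ) (w : ℝ → ℂ) (U L' : ℝ) : ℂ :=
  sm D x fun y => w (L' - y) * (st U (L' - y) : ℂ)

/-- The weight `wp` without the main term. -/
def hpl (κ k : ℕ) (σ W L' u : ℝ) : ℂ :=
  wp κ k σ u - ((Real.exp (σ * u) * (1 - st W (L' - u)) : ℝ) : ℂ)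

/-- The coefficient of the main term. -/
def gd (σ ℒ : ℝ) : ℝ := ∫ v : ℝ, rh (v - ℒ) * Real.exp (σ * v)

/-- The lengths of the short mollifiers. -/
def Vi (A L : ℝ) (i : ℕ) : ℝ := Ui (2 * L) i / A

/-- The shifts of the short mollifiers. -/
def si (A R L : ℝ) (i : ℕ) : ℝ := R * (1 + i) / Vi A L i

/-- The mollifier works. -/
def Nr (D : Data) (x : ℕ → ℝ) (σ U : ℝ) : Prop := |NN D x σ U * MM D x σ U - 1| ≤ 1 / 2

/-- All the mollifiers work. -/
def Gd (D : Data) (A R L : ℝ) (I : ℕ) (x : ℕ → ℝ) : Prop :=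
  Nr D x (R / L) (L / A) ∧ ∀ i ≤ I, Nr D x (si A R L i) (Vi A L i)

/-- The long mollifier. -/
def Ms (D : Data) (A R X : ℝ) (m : ℤ) : ℂ := MM D (jac m) (R / Real.log X) (Real.log X / A)

/-- The choice of parameters. -/
structure Pm (A R X : ℝ) (I : ℕ) : Prop where
  hA : 16 ≤ A
  hAR : A ≤ R
  hR : 10 * R ≤ Real.log X
  hI : 16 * Real.log (Real.log X) ≤ Ui (2 * Real.log X) I
  hI' : Ui (2 * Real.log X) I ≤ 32 * Real.log (Real.log X)

end Pool.Agent.Lib.MP_03e5d0_nt
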