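import Pool.Agent.Lib.MP_03e5d0_nt.ADef

set_option autoImplicit false

noncomputable section

namespace Pool.Agent.Lib.MP_03e5d0_nt

open Complex Finset MeasureTheory
open scoped NumberTheorySymbols Real ContDiff

/-! Fourier analysis of smooth compactly supported weights. -/

variable {j : ℕ} {a b B : ℝ} {W : ℝ → ℂ}

theorem norm_ex (t y : ℝ) : ‖ex t y‖ = 1 := by
  rw [ex, show I * t * y = ((t * y : ℝ) : ℂ) * I by push_cast; ring, norm_exp_ofReal_mul_I]
theorem ex_add (t y y' : ℝ) : ex t (y + y') = ex t y * ex t y' := by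
  simp only [ex, ← Complex.exp_add]
  congr 1
  push_cast
  ring
theorem ex_add' (t t' y : ℝ) : ex (t + t') y = ex t y * ex t' y := by
  simp only [ex, ← Complex.exp_add]
  congr 1
  push_cast
  ring
theorem ex_zero (t : ℝ) : ex t 0 = 1 := by
  simp [ex]
theorem continuous_ex : Continuous fun p : ℝ × ℝ => ex p.1 p.2 := by
  unfold ex
  fun_prop

open scoped FourierTransform in
theorem tft_eq (W : ℝ → ℂ) (t : ℝ) : ft W t = (2 * π : ℂ)⁻¹ * 𝓕 W (t / (2 * π)) := by
  rw [ft, Real.fourier_real_eq_integral_exp_smul]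
  congr 1
  refine integral_congr_ae (ae_of_all _ fun y => ?_)
  have hp : (π : ℂ) ≠ 0 := ofReal_ne_zero.mpr Real.pi_ne_zero
  simp only [ex, smul_eq_mul]
  rw [mul_comm]
  congr 2
  push_cast
  field_simp

theorem tft_supp (h : Sm j a b B W) (i : ℕ) {y : ℝ} (hy : y < a ∨ b < y) :
    iteratedDeriv i W y = 0 := by
  have e : W =ᶠ[nhds y] fun _ => 0 := by
    rcases hy with hy | hy
    · filter_upwards [Iio_mem_nhds hy] with z hz using h.supp z (Or.inl hz)
    · filter_upwards [Ioi_mem_nhds hy] with z hz using h.supp z (Or.inr hz)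
  rw [e.iteratedDeriv_eq i]
  simp

theorem tft_hcs (h : Sm j a b B W) (i : ℕ) : HasCompactSupport (iteratedDeriv i W) :=
  HasCompactSupport.intro (isCompact_Icc (a := a) (b := b)) fun y hy =>
    tft_supp h i (by
      rw [Set.mem_Icc, not_and_or, not_le, not_le] at hy
      exact hy)

theorem tft_cont (h : Sm j a b B W) (i : ℕ) : Continuous (iteratedDeriv i W) :=
  h.smooth.continuous_iteratedDeriv i (by exact_mod_cast le_top)

theorem tft_int (h : Sm j a b B W) (i : ℕ) : Integrable (iteratedDeriv i W) :=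
  (tft_cont h i).integrable_of_hasCompactSupport (tft_hcs h i)

theorem tft_nonneg (h : Sm j a b B W) : 0 ≤ B :=
  (norm_nonneg _).trans (h.bd 0 (Nat.zero_le _) 0)

theorem tft_norm_int (h : Sm j a b B W) {i : ℕ} (hi : i ≤ j) :
    ∫ y, ‖iteratedDeriv i W y‖ ≤ max (b - a) 0 * B := by
  have e : ∫ y, ‖iteratedDeriv i W y‖ ≤ ∫ y, (Set.Icc a b).indicator (fun _ => B) y := by
    refine integral_mono (tft_int h i).norm ?_ fun y => ?_
    · exact (integrable_indicator_iff measurableSet_Icc).mpr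
        (continuous_const.integrableOn_Icc)
    · by_cases hy : y ∈ Set.Icc a b
      · simpa [hy] using h.bd i hi y
      · have hy' := hy
        rw [Set.mem_Icc, not_and_or, not_le, not_le] at hy'
        simp [hy, tft_supp h i hy']
  rw [integral_indicator_const _ measurableSet_Icc, Real.volume_real_Icc, smul_eq_mul] at e
  exact e

open scoped FourierTransform in
theorem tft_pow (h : Sm j a b B W) {i : ℕ} (hi : i ≤ j) (t : ℝ) :
    |t| ^ i * ‖ft W t‖ ≤ max (b - a) 0 * B := by
  have e := congrFun (Real.fourier_iteratedDeriv (N := ⊤) (n := i) h.smooth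
    (fun n _ => tft_int h n) le_top) (t / (2 * π))
  have e1 : ‖𝓕 (iteratedDeriv i W) (t / (2 * π))‖ ≤ ∫ y, ‖iteratedDeriv i W y‖ :=
    VectorFourier.norm_fourierIntegral_le_integral_norm _ _ _ _ _
  have hp : (π : ℂ) ≠ 0 := ofReal_ne_zero.mpr Real.pi_ne_zero
  have e2 : (2 * π * I * ((t / (2 * π) : ℝ) : ℂ)) = I * t := by
    push_cast
    field_simp
  rw [e, e2, norm_smul, norm_pow, norm_mul, norm_I, one_mul, norm_real, Real.norm_eq_abs] at e1
  have e3 : ‖(2 * π : ℂ)⁻¹‖ ≤ 1 := by
    rw [norm_inv, norm_mul, norm_real, Real.norm_eq_abs, abs_of_pos Real.pi_pos]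
    refine inv_le_one_of_one_le₀ ?_
    have := Real.pi_gt_three
    simp only [Complex.norm_ofNat]
    linarith
  refine le_trans ?_ (e1.trans (tft_norm_int h hi))
  refine mul_le_mul_of_nonneg_left ?_ (by positivity)
  rw [tft_eq, norm_mul]
  exact mul_le_of_le_one_left (norm_nonneg _) e3

theorem tft_inv_sq : Integrable fun t : ℝ => 1 / (1 + |t|) ^ 2 := by
  have := integrable_one_add_norm (E := ℝ) (μ := volume) (r := 2) (by simp)
  refine this.congr (ae_of_all _ fun t => ?_)
  simp only [Real.norm_eq_abs]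
  rw [Real.rpow_neg (by positivity), one_div]
  norm_cast

theorem tft_up (h : Sm j a b B W) (i : ℕ) : ∃ B', Sm i a b B' W := by
  choose C hC using fun n => (tft_cont h n).bounded_above_of_compact_support (tft_hcs h n)
  refine ⟨∑ n ∈ range (i + 1), C n, h.smooth, h.supp, fun n hn y => (hC n y).trans ?_⟩
  exact single_le_sum (f := C) (fun m _ => (norm_nonneg _).trans (hC m 0))
    (mem_range.mpr (by omega))

theorem tft_bound {i : ℕ} {K : ℝ} {t : ℝ} (h : ‖ft W t‖ ≤ K / (1 + |t|) ^ (i + 2)) :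
    ‖ft W t‖ * (1 + |t|) ^ i ≤ K * (1 / (1 + |t|) ^ 2) := by
  have hp : 0 < 1 + |t| := by positivity
  refine (mul_le_mul_of_nonneg_right h (by positivity)).trans (le_of_eq ?_)
  field_simp
  ring

/-- Relate `ft` to Mathlib's Fourier integral: `ft W t = (2π)⁻¹ * 𝓕 W (t / (2π))`; then
`Real.fourier_iteratedDeriv` (or `j` integrations by parts) gives `|t|^i ‖ft W t‖ ≤ (b - a) B`, and
`(1 + |t|)^j ≤ 2^j (1 + |t|^j)`. If `b < a` then `W = 0`. -/
theorem Sm.ft_le (j : ℕ) (ℓ : ℝ) : ∃ C : ℝ, 0 ≤ C ∧ ∀ (a b B : ℝ) (W : ℝ → ℂ), b - a ≤ ℓ →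
    Sm j a b B W → ∀ t, ‖ft W t‖ ≤ C * B / (1 + |t|) ^ j := by
  refine ⟨2 ^ j * (2 * max ℓ 0), by positivity, fun a b B W hl h t => ?_⟩
  have hB := tft_nonneg h
  have e0 := tft_pow h (Nat.zero_le j) t
  have e1 := tft_pow h le_rfl t
  have e2 : max (b - a) 0 * B ≤ max ℓ 0 * B :=
    mul_le_mul_of_nonneg_right (max_le_max hl le_rfl) hB
  have e3 : (1 + |t|) ^ j ≤ 2 ^ j * (1 + |t| ^ j) := by
    refine (add_pow_le zero_le_one (abs_nonneg t) j).trans ?_
    rw [one_pow]
    exact mul_le_mul_of_nonneg_right (pow_le_pow_right₀ one_le_two (Nat.sub_le _ _))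
      (by positivity)
  rw [le_div_iff₀ (by positivity)]
  rw [pow_zero, one_mul] at e0
  calc ‖ft W t‖ * (1 + |t|) ^ j ≤ ‖ft W t‖ * (2 ^ j * (1 + |t| ^ j)) :=
        mul_le_mul_of_nonneg_left e3 (norm_nonneg _)
    _ = 2 ^ j * (‖ft W t‖ + |t| ^ j * ‖ft W t‖) := by ring
    _ ≤ 2 ^ j * (2 * (max ℓ 0 * B)) := mul_le_mul_of_nonneg_left (by linarith) (by positivity)
    _ = _ := by ring
theorem Sm.ft_cont (h : Sm j a b B W) : Continuous (ft W) := by
  have hi : Integrable W := by simpa using tft_int h 0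
  have e : ft W = fun t => (2 * π : ℂ)⁻¹ * FourierTransform.fourier W (t / (2 * π)) :=
    funext (tft_eq W)
  have hc : Continuous (FourierTransform.fourier W) :=
    VectorFourier.fourierIntegral_continuous Real.continuous_fourierChar
      (innerSL ℝ).continuous₂ hi
  rw [e]
  exact continuous_const.mul (hc.comp (continuous_id.div_const _))
/-- All derivatives of `W` are bounded (compact support), so `W` is `Sm (i + 2)` with some bound. -/
theorem Sm.ft_integrable (h : Sm j a b B W) (i : ℕ) :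
    Integrable fun t : ℝ => ‖ft W t‖ * (1 + |t|) ^ i := by
  obtain ⟨B', h'⟩ := tft_up h (i + 2)
  obtain ⟨C, -, hC⟩ := Sm.ft_le (i + 2) (b - a)
  refine (tft_inv_sq.const_mul (C * B')).mono' ?_ (ae_of_all _ fun t => ?_)
  · exact (h.ft_cont.norm.mul (by fun_prop)).aestronglyMeasurable
  · rw [Real.norm_eq_abs, abs_of_nonneg (by positivity)]
    exact tft_bound (hC a b B' W le_rfl h' t)
/-- Fourier inversion (`Continuous.fourierInv_fourier_eq`) and a change of variables. -/
theorem Sm.inv (h : Sm j a b B W) (y : ℝ) : W y = ∫ t : ℝ, ft W t * ex t y := by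
  have hi : Integrable W := by simpa using tft_int h 0
  have hp : (π : ℂ) ≠ 0 := ofReal_ne_zero.mpr Real.pi_ne_zero
  have hp' : (2 * π : ℝ) ≠ 0 := by positivity
  have h1 : Integrable (ft W) := by
    have := h.ft_integrable 0
    simp only [pow_zero, mul_one] at this
    exact (integrable_norm_iff h.ft_cont.aestronglyMeasurable).mp this
  have h2 : Integrable (FourierTransform.fourier W) := by
    refine ((h1.comp_mul_left' hp').const_mul (2 * π : ℂ)).congr (ae_of_all _ fun v => ?_)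
    simp only [tft_eq]
    rw [mul_div_cancel_left₀ _ hp', ← mul_assoc, mul_inv_cancel₀ (mul_ne_zero two_ne_zero hp), one_mul]
  have h3 := congrFun (h.smooth.continuous.fourierInv_fourier_eq hi h2) y
  rw [← h3, Real.fourierInv_eq']
  have h4 := Measure.integral_comp_div (fun v : ℝ =>
    cexp (((2 * π * inner ℝ v y : ℝ) : ℂ) * I) • FourierTransform.fourier W v) (2 * π)
  have h5 : ∀ t : ℝ, ft W t * ex t y = (2 * π : ℂ)⁻¹ *
      (cexp (((2 * π * inner ℝ (t / (2 * π)) y : ℝ) : ℂ) * I) •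
        FourierTransform.fourier W (t / (2 * π))) := by
    intro t
    rw [tft_eq, smul_eq_mul, mul_assoc, mul_comm (FourierTransform.fourier W _)]
    congr 2
    simp only [ex, RCLike.inner_apply, conj_trivial]
    congr 1
    push_cast
    field_simp
  simp only [h5]
  rw [integral_const_mul, h4, abs_of_pos (by positivity), real_smul, ← mul_assoc]
  push_cast
  rw [inv_mul_cancel₀ (mul_ne_zero two_ne_zero hp), one_mul]
theorem integrable_inv_sq : Integrable fun t : ℝ => 1 / (1 + |t|) ^ 2 := tft_inv_sq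
theorem integral_inv_sq : ∫ t : ℝ, 1 / (1 + |t|) ^ 2 = 2 := by
  rw [integral_comp_abs (f := fun x : ℝ => 1 / (1 + x) ^ 2)]
  have e : ∫ x in Set.Ioi (0 : ℝ), 1 / (1 + x) ^ 2 = 0 - (-(1 + (0 : ℝ))⁻¹) := by
    refine integral_Ioi_of_hasDerivAt_of_nonneg' (g := fun x : ℝ => -(1 + x)⁻¹) (fun x hx => ?_)
      (fun x _ => by positivity) ?_
    · have hx' : (1 + x) ≠ 0 := by
        have : (0 : ℝ) ≤ x := hx
        positivity
      have := (((hasDerivAt_id x).const_add 1).inv hx').neg
      refine this.congr_deriv ?_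
      simp only [id]
      ring
    · have := (tendsto_inv_atTop_zero.comp
        (Filter.tendsto_atTop_add_const_left Filter.atTop (1 : ℝ) Filter.tendsto_id)).neg
      simpa using this
  rw [e]
  norm_num
theorem Sm.ft_int (i : ℕ) (ℓ : ℝ) : ∃ C : ℝ, 0 ≤ C ∧ ∀ (a b B : ℝ) (W : ℝ → ℂ), b - a ≤ ℓ →
    Sm (i + 2) a b B W → ∫ t : ℝ, ‖ft W t‖ * (1 + |t|) ^ i ≤ C * B := by
  obtain ⟨C, hC0, hC⟩ := Sm.ft_le (i + 2) ℓ
  refine ⟨2 * C, by positivity, fun a b B W hl h => ?_⟩
  refine (integral_mono (h.ft_integrable i) (tft_inv_sq.const_mul (C * B))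
    fun t => tft_bound (hC a b B W hl h t)).trans (le_of_eq ?_)
  rw [integral_const_mul, integral_inv_sq]
  ring

end Pool.Agent.Lib.MP_03e5d0_nt
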