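import Pool.Agent.Lib.MP_03e5d0_nt.NOrd
import Pool.Agent.Lib.MP_03e5d0_nt.MAfe1
import Pool.Agent.Lib.MP_03e5d0_nt.TFt

/-! The deterministic bound for the order of vanishing. -/

set_option autoImplicit false

noncomputable section

namespace Pool.Agent.Lib.MP_03e5d0_nt

open Complex Finset MeasureTheory Filter Topology
open scoped NumberTheorySymbols Real

variable {D : Data} {k : ℤ} {C : ℝ} {γ : ℕ → ℝ}

/-- The order of vanishing passes to the Mellin transform. -/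
theorem Data.Ord.le_mellin (hC : 0 < C) (hγ : Summable fun n => |γ n|) (h : D.Dual k C γ) {r : ℕ}
    (ho : D.Ord k r) : (r : ℕ∞) ≤ analyticOrderAt (mellin (phi D k C)) 1 := by
  obtain ⟨G, g1, g2, g3⟩ := ho
  obtain ⟨B, hB⟩ : ∃ B : ℂ, B = ((√C / (2 * π) : ℝ) : ℂ) := ⟨_, rfl⟩
  have hB0 : B ≠ 0 := by
    rw [hB]
    exact ofReal_ne_zero.mpr (by positivity)
  have hM : Differentiable ℂ (mellin (phi D k C)) := fun s =>
    (mellin_phi_deriv hC hγ h s).2.2.differentiableAt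
  have hH : Differentiable ℂ fun s : ℂ => B ^ (-s) * (Gamma s)⁻¹ :=
    (differentiable_neg.const_cpow (Or.inl hB0)).mul differentiable_one_div_Gamma
  have e : G = (fun s : ℂ => B ^ (-s) * (Gamma s)⁻¹) * mellin (phi D k C) := by
    refine AnalyticOnNhd.eq_of_eventuallyEq (z₀ := 3) (fun z _ => g1.analyticAt z)
      (fun z _ => (hH.mul hM).analyticAt z) ?_
    filter_upwards [(isOpen_lt continuous_const continuous_re).mem_nhds
      (show (3 : ℂ) ∈ {s : ℂ | 2 < s.re} by norm_num)] with s hs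
    have a1 : Gamma s ≠ 0 := Gamma_ne_zero_of_re_pos (by linarith)
    have a2 : B ^ s ≠ 0 := by simp [hB0]
    rw [g2 s hs, Pi.mul_apply, mellin_phi D k hC hs, ← hB, cpow_neg]
    field_simp
  rw [e, analyticOrderAt_mul (hH.analyticAt 1) (hM.analyticAt 1),
    (hH.analyticAt 1).analyticOrderAt_eq_zero.2 (by simp [hB0]), zero_add] at g3
  exact g3

theorem ndet_phi (D : Data) (k : ℤ) (hC : 0 < C) {u : ℝ} (hu : 0 < u) :
    ‖phi D k C u‖ ≤ 4 * (Nat.factorial 10 : ℝ) * (√C / (2 * π)) ^ 10 / u ^ 10 := by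
  obtain ⟨Q, hQ⟩ : ∃ Q : ℝ, Q = √C / (2 * π) := ⟨_, rfl⟩
  have hQ0 : 0 < Q := by rw [hQ]; positivity
  have hb : 2 * π / √C = Q⁻¹ := by rw [hQ, inv_div]
  rw [mafe1_eq, hb, ← hQ]
  generalize hF : (Nat.factorial 10 : ℝ) = F
  have hF0 : 0 < F := by rw [← hF]; positivity
  have h1 := hasSum_zeta_two.mul_left (2 * F * Q ^ 10 / u ^ 10)
  refine (tsum_of_norm_bounded h1 fun n => (mafe1_term D k n le_rfl).trans ?_).trans ?_
  · rcases Nat.eq_zero_or_pos n with rfl | hn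
    · simp
    have h2 : (1 : ℝ) ≤ n := by exact_mod_cast hn
    have h3 : (Q⁻¹ * n * u) ^ 10 / F ≤ Real.exp (Q⁻¹ * n * u) := by
      rw [← hF]
      exact Real.pow_div_factorial_le_exp _ (by positivity) 10
    have h4 : Real.exp (-(Q⁻¹ * n * u)) ≤ F / (Q⁻¹ * n * u) ^ 10 := by
      rw [Real.exp_neg, ← inv_div]
      exact inv_anti₀ (by positivity) h3
    have h5 : (n : ℝ) ^ 3 ≤ n ^ 10 := pow_le_pow_right₀ h2 (by norm_num)
    calc 2 * n * Real.exp (-(Q⁻¹ * n * u)) ≤ 2 * n * (F / (Q⁻¹ * n * u) ^ 10) := by gcongr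
      _ = 2 * F * Q ^ 10 / u ^ 10 * (n / n ^ 10) := by field_simp
      _ ≤ 2 * F * Q ^ 10 / u ^ 10 * (n / n ^ 3) := by gcongr
      _ = _ := by field_simp
  · have h2 : π ^ 2 / 6 ≤ 2 := by nlinarith [Real.pi_lt_d2, Real.pi_pos]
    calc 2 * F * Q ^ 10 / u ^ 10 * (π ^ 2 / 6) ≤ 2 * F * Q ^ 10 / u ^ 10 * 2 := by gcongr
      _ = _ := by ring

theorem ndet_small (hC : 0 < C) (hγ : Summable fun n => |γ n|) (h : D.Dual k C γ) {t : ℝ}
    (ht : 0 < t) : ‖phi D k C t‖ ≤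
      (∑' n, |γ n|) * (4 * (Nat.factorial 10 : ℝ) * (√C / (2 * π)) ^ 10) * t ^ 8 := by
  have h1 := (phi_inv hC h (inv_pos.2 ht)).2
  rw [inv_inv] at h1
  generalize hK : 4 * (Nat.factorial 10 : ℝ) * (√C / (2 * π)) ^ 10 = K
  have hK0 : 0 ≤ K := by rw [← hK]; positivity
  have h2 : ‖gdu D k C γ t⁻¹‖ ≤ (∑' n, |γ n|) * (K * t ^ 10) := by
    refine tsum_of_norm_bounded (hγ.hasSum.mul_right _) fun n => ?_
    rw [mul_assoc, norm_mul, norm_real, Real.norm_eq_abs]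
    refine mul_le_mul_of_nonneg_left ?_ (abs_nonneg _)
    rcases Nat.eq_zero_or_pos n with rfl | hn
    · simp only [Nat.cast_zero, zero_mul, norm_zero]
      positivity
    have h2 : (1 : ℝ) ≤ n := by exact_mod_cast hn
    have h3 := ndet_phi D k hC (u := n * t⁻¹) (by positivity)
    rw [hK] at h3
    have h5 : (n : ℝ) ≤ n ^ 10 := le_self_pow₀ h2 (by norm_num)
    rw [norm_mul, Complex.norm_natCast]
    calc (n : ℝ) * ‖phi D k C (n * t⁻¹)‖ ≤ n ^ 10 * (K / (n * t⁻¹) ^ 10) := by gcongr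
      _ = K * t ^ 10 := by field_simp
  rw [h1, norm_mul, norm_neg, norm_pow, norm_real, Real.norm_of_nonneg (inv_pos.2 ht).le]
  calc t⁻¹ ^ 2 * ‖gdu D k C γ t⁻¹‖ ≤ t⁻¹ ^ 2 * ((∑' n, |γ n|) * (K * t ^ 10)) := by gcongr
    _ = _ := by field_simp

theorem ndet_mellin (hC : 0 < C) (hγ : Summable fun n => |γ n|) (h : D.Dual k C γ) {s : ℂ}
    (hs : |s.re - 1| ≤ 6) : ‖mellin (phi D k C) s‖ ≤
      8 * ((1 + ∑' n, |γ n|) * (4 * (Nat.factorial 10 : ℝ) * (√C / (2 * π)) ^ 10)) := by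
  have h1 := fun t ht => ndet_small (t := t) hC hγ h ht
  have h2 := fun t ht => ndet_phi (u := t) D k hC ht
  generalize hK : 4 * (Nat.factorial 10 : ℝ) * (√C / (2 * π)) ^ 10 = K at h1 h2
  have hK0 : 0 ≤ K := by rw [← hK]; positivity
  have hG : 0 ≤ ∑' n, |γ n| := tsum_nonneg fun n => abs_nonneg _
  generalize ∑' n, |γ n| = G at h1 hG
  obtain ⟨hs1, hs2⟩ := abs_le.1 hs
  have hi := integrable_inv_sq.const_mul (4 * ((1 + G) * K))
  have h3 : ‖mellin (phi D k C) s‖ ≤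
      ∫ t in Set.Ioi (0 : ℝ), 4 * ((1 + G) * K) * (1 / (1 + |t|) ^ 2) := by
    refine norm_integral_le_of_norm_le hi.integrableOn
      ((ae_restrict_iff' measurableSet_Ioi).2 (Eventually.of_forall fun t ht => ?_))
    have ht0 : (0 : ℝ) < t := ht
    rw [norm_smul, norm_cpow_eq_rpow_re_of_pos ht0, sub_re, one_re, abs_of_pos ht0]
    rcases le_total t 1 with h4 | h4
    · have a1 : t ^ (s.re - 1) ≤ t ^ (-(8 : ℕ) : ℝ) :=
        Real.rpow_le_rpow_of_exponent_ge ht0 h4 (by push_cast; linarith)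
      rw [Real.rpow_neg ht0.le, Real.rpow_natCast] at a1
      have a2 : 1 ≤ 4 * (1 / (1 + t) ^ 2) := by
        rw [mul_one_div, le_div_iff₀ (by positivity)]
        nlinarith
      calc t ^ (s.re - 1) * ‖phi D k C t‖ ≤ (t ^ 8)⁻¹ * (G * K * t ^ 8) := by gcongr; exact h1 t ht0
        _ = G * K * 1 := by field_simp
        _ ≤ (1 + G) * K * (4 * (1 / (1 + t) ^ 2)) := by gcongr; linarith
        _ = _ := by ring
    · have a1 : t ^ (s.re - 1) ≤ t ^ ((8 : ℕ) : ℝ) :=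
        Real.rpow_le_rpow_of_exponent_le h4 (by push_cast; linarith)
      rw [Real.rpow_natCast] at a1
      have a2 : 1 / t ^ 2 ≤ 4 * (1 / (1 + t) ^ 2) := by
        rw [mul_one_div, div_le_div_iff₀ (by positivity) (by positivity)]
        nlinarith
      calc t ^ (s.re - 1) * ‖phi D k C t‖ ≤ t ^ 8 * (K / t ^ 10) := by gcongr; exact h2 t ht0
        _ = 1 * K * (1 / t ^ 2) := by field_simp
        _ ≤ (1 + G) * K * (4 * (1 / (1 + t) ^ 2)) := by gcongr; linarith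
        _ = _ := by ring
  refine h3.trans ((setIntegral_le_integral hi (Eventually.of_forall fun t => ?_)).trans_eq ?_)
  · change 0 ≤ 4 * ((1 + G) * K) * (1 / (1 + |t|) ^ 2)
    positivity
  · rw [integral_const_mul, integral_inv_sq]
    ring

theorem ndet_lseries (D : Data) (k : ℤ) : 1 / 3 ≤ ‖LSeries (D.co k) 4‖ := by
  have h1 : ∀ n : ℕ, ‖LSeries.term (D.co k) 4 n - if n = 1 then 1 else 0‖ ≤
      1 / (n : ℝ) ^ 2 - if n = 1 then 1 else 0 := by
    intro n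
    rcases n with _ | _ | n
    · simp
    · simp [Data.co, D.lam_one]
    have h2 : (2 : ℝ) ≤ ((n + 1 + 1 : ℕ) : ℝ) := by push_cast; linarith [Nat.cast_nonneg (α := ℝ) n]
    rw [if_neg (by omega), if_neg (by omega), sub_zero, sub_zero, LSeries.norm_term_eq,
      if_neg (by omega)]
    generalize hm : n + 1 + 1 = m at h2
    have h3 := norm_co_le D k m
    have h4 : (m : ℝ) ^ (4 : ℂ).re = m ^ 4 := by
      rw [← Real.rpow_natCast]
      norm_num
    rw [h4, div_le_div_iff₀ (by positivity) (by positivity)]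
    calc ‖D.co k m‖ * (m : ℝ) ^ 2 ≤ 2 * m * (m : ℝ) ^ 2 := by gcongr
      _ ≤ m * m * (m : ℝ) ^ 2 := by gcongr
      _ = _ := by ring
  have h2 : HasSum (fun n : ℕ => 1 / (n : ℝ) ^ 2 - if n = 1 then 1 else 0) (π ^ 2 / 6 - 1) :=
    hasSum_zeta_two.sub (hasSum_ite_eq 1 1)
  have h3 : Summable fun n : ℕ => LSeries.term (D.co k) 4 n - if n = 1 then 1 else 0 :=
    h2.summable.of_norm_bounded h1
  have h4 := tsum_of_norm_bounded h2 h1
  have h5 : LSeries (D.co k) 4 =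
      (∑' n : ℕ, (LSeries.term (D.co k) 4 n - if n = 1 then 1 else 0)) + 1 := by
    have := (h3.hasSum.add (hasSum_ite_eq 1 (1 : ℂ))).tsum_eq
    simp only [sub_add_cancel] at this
    exact this
  rw [h5]
  generalize (∑' n : ℕ, (LSeries.term (D.co k) 4 n - if n = 1 then 1 else 0)) = w at h4
  have h6 : ‖(1 : ℂ)‖ ≤ ‖w + 1‖ + ‖w‖ := by simpa using norm_sub_le (w + 1) w
  rw [norm_one] at h6
  nlinarith [Real.pi_lt_d2, Real.pi_pos]

theorem ndet_schwarz {M : ℂ → ℂ} (hM : Differentiable ℂ M) {r : ℕ}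
    (ho : (r : ℕ∞) ≤ analyticOrderAt M 1) {B : ℝ} (hB : ∀ s : ℂ, |s.re - 1| ≤ 6 → ‖M s‖ ≤ B) :
    2 ^ r * ‖M 4‖ ≤ B := by
  rcases r with _ | r
  · simpa using hB 4 (by norm_num)
  obtain ⟨g, g1, g2⟩ := (natCast_le_analyticOrderAt (hM.analyticAt 1)).1 ho
  have h0 : M 1 = 0 := by simpa using g2.self_of_nhds
  have h1 := dist_le_mul_div_pow_of_mapsTo_ball_of_isLittleO (f := M) (c := 1) (z := 4) (R₁ := 6)
    (R₂ := B) (n := r)
    hM.differentiableOn (fun s hs => by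
      rw [h0, mem_closedBall_zero_iff]
      refine hB s ?_
      have := (abs_re_le_norm (s - 1)).trans (mem_ball_iff_norm.1 hs).le
      simpa using this) (by
      have a1 : Tendsto (fun w : ℂ => (w - 1) * g w) (𝓝 1) (𝓝 0) := by
        have a0 : ContinuousAt (fun w : ℂ => (w - 1) * g w) 1 :=
          (by fun_prop : ContinuousAt (fun w : ℂ => w - 1) 1).mul g1.continuousAt
        simpa using a0.tendsto
      have a2 := (Asymptotics.isBigO_refl (fun w : ℂ => (w - 1) ^ r) (𝓝 1)).mul_isLittleO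
        ((Asymptotics.isLittleO_one_iff ℂ).2 a1)
      refine (a2.congr' ?_ (Eventually.of_forall fun w => mul_one _)).norm_right.congr_right
        fun w => norm_pow _ _
      filter_upwards [g2] with w hw
      rw [hw, h0, sub_zero, smul_eq_mul]
      ring) (by rw [mem_ball_iff_norm]; norm_num)
  rw [dist_eq_norm, dist_eq_norm, h0, sub_zero, show (4 : ℂ) - 1 = 3 by norm_num, show ‖(3 : ℂ)‖ / 6 = 2⁻¹ by norm_num,
    inv_pow, ← div_eq_mul_inv, le_div_iff₀ (by positivity)] at h1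
  rwa [mul_comm]

theorem ndet_pow (hC : 0 < C) (hγ : Summable fun n => |γ n|) (h : D.Dual k C γ) {r : ℕ}
    (ho : D.Ord k r) : (2 : ℝ) ^ r ≤ 16 * (Nat.factorial 10 : ℝ) * (1 + ∑' n, |γ n|) * C ^ 3 := by
  have hM : Differentiable ℂ (mellin (phi D k C)) := fun s =>
    (mellin_phi_deriv hC hγ h s).2.2.differentiableAt
  have h1 := ndet_schwarz hM (ho.le_mellin hC hγ h) fun s hs => ndet_mellin hC hγ h hs
  have hG : 0 ≤ ∑' n, |γ n| := tsum_nonneg fun n => abs_nonneg _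
  have h2 := ndet_lseries D k
  obtain ⟨Q, hQ⟩ : ∃ Q : ℝ, Q = √C / (2 * π) := ⟨_, rfl⟩
  have hQ0 : 0 < Q := by rw [hQ]; positivity
  have h3 : Q ^ 2 ≤ C := by
    rw [hQ, div_pow, Real.sq_sqrt hC.le]
    exact div_le_self hC.le (by nlinarith [Real.pi_gt_three])
  have h4 : Gamma 4 = 6 := by
    rw [show (4 : ℂ) = (3 : ℕ) + 1 by norm_num, Gamma_nat_eq_factorial]
    norm_num [Nat.factorial]
  have h5 : ((Q : ℝ) : ℂ) ^ (4 : ℂ) = Q ^ 4 := cpow_ofNat _ 4
  rw [mellin_phi D k hC (by norm_num), ← hQ, h4, h5, norm_mul, norm_mul, norm_pow, norm_real,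
    Real.norm_of_nonneg hQ0.le, show ‖(6 : ℂ)‖ = 6 by norm_num] at h1
  generalize (Nat.factorial 10 : ℝ) = F at h1
  generalize ∑' n, |γ n| = G at h1 hG
  have h6 : (2 : ℝ) ^ r * (6 * Q ^ 4 * (1 / 3)) ≤ 8 * ((1 + G) * (4 * F * Q ^ 10)) :=
    le_trans (by gcongr) h1
  have h7 : (2 : ℝ) ^ r ≤ 16 * F * (1 + G) * (Q ^ 2) ^ 3 := by
    refine le_of_mul_le_mul_right ?_ (show 0 < 2 * Q ^ 4 by positivity)
    calc (2 : ℝ) ^ r * (2 * Q ^ 4) = 2 ^ r * (6 * Q ^ 4 * (1 / 3)) := by ring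
      _ ≤ _ := h6
      _ = _ := by ring
  have h8 : 0 ≤ 16 * F * (1 + G) := by
    by_contra h9
    have := mul_nonpos_of_nonpos_of_nonneg (not_le.1 h9).le (show 0 ≤ (Q ^ 2) ^ 3 by positivity)
    linarith [pow_pos (show (0 : ℝ) < 2 by norm_num) r]
  exact h7.trans (by gcongr)

/-- The order of vanishing is at most logarithmic in the discriminant. -/
theorem ord_le (D : Data) (hFE : D.FE) : ∃ C : ℝ, 0 ≤ C ∧ ∀ d : ℤ, Squarefree d → ∀ r : ℕ, D.Ord d r →
    (r : ℝ) ≤ C * (1 + Real.log |(d : ℝ)|) := by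
  obtain ⟨c₀, C₀, M, gb, γ₁, hc, -, hg0, hgs, hk, -⟩ := hFE
  have hg : Summable gb := by
    refine Summable.of_nonneg_of_le hg0 (fun n => ?_) hgs
    exact le_mul_of_one_le_right (hg0 n) (by linarith [Real.log_natCast_nonneg n])
  obtain ⟨K, hK⟩ : ∃ K : ℝ, K = 16 * (Nat.factorial 10 : ℝ) * (1 + ∑' n, gb n) * |C₀| ^ 3 + 1 :=
    ⟨_, rfl⟩
  have hG : 0 ≤ ∑' n, gb n := tsum_nonneg hg0
  have hK1 : 1 ≤ K := by
    rw [hK]
    exact le_add_of_nonneg_left (by positivity)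
  have hl := Real.log_nonneg hK1
  refine ⟨2 * Real.log K + 12, by positivity, fun d hd r ho => ?_⟩
  obtain ⟨C, γ, h1, h2, h3, h4⟩ := hk d hd
  have hd1 : 1 ≤ |(d : ℝ)| := by exact_mod_cast Int.one_le_abs hd.ne_zero
  have hd2 : 0 < (d : ℝ) ^ 2 := by rw [← sq_abs]; positivity
  have hC : 0 < C := lt_of_lt_of_le (by positivity) h1
  have hγ : Summable fun n => |γ n| := Summable.of_nonneg_of_le (fun n => abs_nonneg _) h3 hg
  have h5 := ndet_pow hC hγ h4 ho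
  have h6 : ∑' n, |γ n| ≤ ∑' n, gb n := hγ.tsum_le_tsum h3 hg
  have h7 : C ≤ |C₀| * |(d : ℝ)| ^ 2 := by
    rw [sq_abs]
    exact h2.trans (by gcongr; exact le_abs_self _)
  have h8 : (2 : ℝ) ^ r ≤ K * |(d : ℝ)| ^ 6 := by
    calc (2 : ℝ) ^ r ≤ 16 * (Nat.factorial 10 : ℝ) * (1 + ∑' n, gb n) * (|C₀| * |(d : ℝ)| ^ 2) ^ 3 :=
          h5.trans (by gcongr)
      _ = (K - 1) * |(d : ℝ)| ^ 6 := by rw [hK]; ring
      _ ≤ _ := by gcongr; linarith
  have h9 := Real.log_le_log (by positivity) h8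
  rw [Real.log_pow, Real.log_mul (by positivity) (by positivity), Real.log_pow] at h9
  have h10 := Real.log_nonneg hd1
  have h11 := Real.log_two_gt_d9
  have h12 : (0 : ℝ) ≤ r := Nat.cast_nonneg r
  push_cast at h9
  nlinarith

end Pool.Agent.Lib.MP_03e5d0_nt
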