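import Pool.Agent.Lib.MP_03e5d0_nt.NFin
import Pool.Agent.Lib.MP_03e5d0_nt.EMod

/-! The exponential tail of the analytic rank when all twists are known to be modular. -/

set_option autoImplicit false

noncomputable section

namespace Pool.Agent.Lib.MP_03e5d0_nt

theorem tail_rank_fun (a b : ℚ) (hab : 4 * a ^ 3 + 27 * b ^ 2 ≠ 0)
    (hm : ∀ d : ℤ, d ≠ 0 → IsModular (twist a b d)) :
    ∃ rk : ℤ → ℕ, (∀ d : ℤ, d ≠ 0 → HasAnRank (twist a b d) (rk d)) ∧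
      ∃ δ C : ℝ, 0 < δ ∧ ∀ X : ℝ, 2 ≤ X → ∀ r : ℕ,
        ({d : ℤ | Squarefree d ∧ |(d : ℝ)| < X ∧ r ≤ rk d}.ncard : ℝ) ≤
          C * Real.exp (-(δ * r)) * countS X := by
  have h : ∀ d : ℤ, ∃ r : ℕ, d ≠ 0 → HasAnRank (twist a b d) r := fun d => by
    by_cases hd : d = 0
    · exact ⟨0, fun h => absurd hd h⟩
    · exact (hm d hd).hasAnRank.imp fun r hr _ => hr
  choose rk hrk using h
  obtain ⟨δ, C, hδ, H⟩ := tail_rank a b hab (hm 1 one_ne_zero)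
  refine ⟨rk, hrk, δ, C, hδ, fun X hX r => le_trans (Nat.cast_le.2 ?_) (H X hX r)⟩
  exact Set.ncard_le_ncard (fun d hd => ⟨hd.1, hd.2.1, rk d, hd.2.2, hrk d hd.1.ne_zero⟩)
    ((Finset.finite_toSet _).subset (subset_Icc_ceil X fun d hd => hd.2.1))

/-- The case of the curve of conductor eleven and of its quadratic twists. -/
theorem tail_eleven {t : ℚ} (ht : t ≠ 0) :
    ∃ rk : ℤ → ℕ, (∀ d : ℤ, d ≠ 0 → HasAnRank (twist (-13392 * t ^ 2) (-1080432 * t ^ 3) d) (rk d)) ∧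
      ∃ δ C : ℝ, 0 < δ ∧ ∀ X : ℝ, 2 ≤ X → ∀ r : ℕ,
        ({d : ℤ | Squarefree d ∧ |(d : ℝ)| < X ∧ r ≤ rk d}.ncard : ℝ) ≤
          C * Real.exp (-(δ * r)) * countS X := by
  refine tail_rank_fun _ _ (fun h => pow_ne_zero 6 ht ?_) fun d hd => modular_eleven_twist ht hd
  linear_combination h / (4 * (-13392) ^ 3 + 27 * (-1080432) ^ 2)

end Pool.Agent.Lib.MP_03e5d0_nt
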