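import Pool.Agent.Lib.MP_03e5d0_nt.TBas

set_option autoImplicit false

noncomputable section

namespace Pool.Agent.Lib.MP_03e5d0_nt

open Complex Finset MeasureTheory
open scoped NumberTheorySymbols Real ContDiff

/-! The random model: linearity, positivity, independence, mean of `cm`. -/

variable {P : Finset ℕ} {δ : ℕ → ℝ}

theorem dl_dl0 : Dl dl0 := by
  intro p _
  exact ⟨by unfold dl0; positivity, le_rfl⟩
theorem dl_dl1 : Dl dl1 := by
  intro p hp
  refine ⟨by unfold dl1; positivity, ?_⟩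
  exact one_div_le_one_div_of_le (by exact_mod_cast hp.pos) (by linarith)
theorem adm_ext (P : Finset ℕ) (w : P → SignType) : Adm (ext P w) := by
  intro p
  unfold ext
  split_ifs with h
  · rcases w ⟨p, h⟩ with _ | _ | _ <;> simp
  · exact Or.inl rfl
theorem ext_notMem {P : Finset ℕ} (w : P → SignType) {p : ℕ} (h : p ∉ P) : ext P w p = 0 := by
  exact dif_neg h

theorem tex_sum3 {M : Type} [AddCommMonoid M] (f : SignType → M) :
    ∑ s, f s = f 0 + (f 1 + f (-1)) := by
  rw [SignType.univ_eq, sum_insert (by decide), sum_insert (by decide), sum_singleton,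
    add_comm (f (-1))]

theorem tex_one (P : Finset ℕ) (δ : ℕ → ℝ) :
    ∑ w : P → SignType, ∏ p : P, wt (δ p) (w p) = 1 := by
  rw [← Fintype.prod_sum fun (p : P) (s : SignType) => wt (δ p) s]
  refine prod_eq_one fun p _ => ?_
  rw [tex_sum3]
  simp [wt]

theorem tex_nonneg (hP : ∀ p ∈ P, p.Prime) (hδ : Dl δ) (w : P → SignType) :
    0 ≤ ∏ p : P, wt (δ p) (w p) := by
  refine prod_nonneg fun p _ => ?_
  obtain ⟨h1, h2⟩ := hδ p (hP p p.2)
  have h3 : (1 : ℝ) / (p : ℕ) ≤ 1 := by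
    rw [div_le_one (by exact_mod_cast (hP p p.2).pos)]
    exact_mod_cast (hP p p.2).one_le
  unfold wt
  split_ifs
  · exact h1
  · linarith

theorem tex_ext_mem (w : P → SignType) {p : ℕ} (h : p ∈ P) :
    ext P w p = ((w ⟨p, h⟩ : SignType) : ℝ) := dif_pos h

theorem tex_congr {E : Type} [AddCommMonoid E] [Module ℝ E] {f g : (ℕ → ℝ) → E}
    (h : ∀ x, Adm x → (∀ p, p ∉ P → x p = 0) → f x = g x) : Ex P δ f = Ex P δ g :=
  sum_congr rfl fun w _ => by rw [h _ (adm_ext P w) fun p hp => ext_notMem w hp]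

theorem tex_sum {E : Type} [AddCommMonoid E] [Module ℝ E] {κ : Type} (S : Finset κ)
    (f : κ → (ℕ → ℝ) → E) : Ex P δ (fun x => ∑ i ∈ S, f i x) = ∑ i ∈ S, Ex P δ (f i) := by
  unfold Ex
  simp only [smul_sum]
  exact sum_comm

theorem tex_const {E : Type} [AddCommMonoid E] [Module ℝ E] (c : E) :
    Ex P δ (fun _ => c) = c := by
  unfold Ex
  rw [← sum_smul, tex_one, one_smul]

theorem tex_prod {R : Type} [CommRing R] [Algebra ℝ R] {S : Finset ℕ} (hS : S ⊆ P)
    (g : ℕ → ℝ → R) : Ex P δ (fun x => ∏ p ∈ S, g p (x p)) = ∏ p ∈ S, e1 (δ p) (g p) := by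
  have h1 : ∀ F : ℕ → R, ∏ p ∈ S, F p = ∏ p : P, if (p : ℕ) ∈ S then F p else 1 := by
    intro F
    rw [prod_coe_sort P fun p => if p ∈ S then F p else 1, prod_ite_mem, inter_eq_right.2 hS]
  unfold Ex
  simp only [h1, ← prod_smul]
  have h2 : ∀ (w : P → SignType) (p : P), ext P w p = ((w p : SignType) : ℝ) :=
    fun w p => tex_ext_mem w p.2
  simp only [h2]
  rw [← Fintype.prod_sum fun (p : P) (s : SignType) =>
    wt (δ p) s • if (p : ℕ) ∈ S then g p ((s : SignType) : ℝ) else 1]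
  refine prod_congr rfl fun p _ => ?_
  rw [tex_sum3]
  split_ifs
  · simp [wt, e1]
  · rw [← add_smul, ← add_smul]
    simp [wt]

section
variable {E : Type} [NormedAddCommGroup E] [NormedSpace ℝ E]

theorem Ex_congr {f g : (ℕ → ℝ) → E} (h : ∀ x, Adm x → (∀ p, p ∉ P → x p = 0) → f x = g x) :
    Ex P δ f = Ex P δ g := by
  exact tex_congr h
theorem Ex_add (f g : (ℕ → ℝ) → E) : Ex P δ (fun x => f x + g x) = Ex P δ f + Ex P δ g := by
  simp only [Ex, smul_add, sum_add_distrib]
theorem Ex_sub (f g : (ℕ → ℝ) → E) : Ex P δ (fun x => f x - g x) = Ex P δ f - Ex P δ g := by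
  simp only [Ex, smul_sub, sum_sub_distrib]
theorem Ex_sum {κ : Type} (S : Finset κ) (f : κ → (ℕ → ℝ) → E) :
    Ex P δ (fun x => ∑ i ∈ S, f i x) = ∑ i ∈ S, Ex P δ (f i) := by
  exact tex_sum S f
theorem Ex_const (c : E) : Ex P δ (fun _ => c) = c := by
  exact tex_const c
theorem norm_Ex_le (hP : ∀ p ∈ P, p.Prime) (hδ : Dl δ) (f : (ℕ → ℝ) → E) :
    ‖Ex P δ f‖ ≤ Ex P δ fun x => ‖f x‖ := by
  refine (norm_sum_le _ _).trans (le_of_eq (sum_congr rfl fun w _ => ?_))
  rw [norm_smul, Real.norm_of_nonneg (tex_nonneg hP hδ w), smul_eq_mul]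
theorem Ex_integral [CompleteSpace E] {f : (ℕ → ℝ) → ℝ → E} (h : ∀ x, Adm x → (∀ p, p ∉ P → x p = 0) → Integrable (f x)) :
    Ex P δ (fun x => ∫ t, f x t) = ∫ t, Ex P δ fun x => f x t := by
  unfold Ex
  refine Eq.trans ?_ (integral_finsetSum _ fun w _ =>
    (h _ (adm_ext P w) fun p hp => ext_notMem w hp).smul (∏ p : P, wt (δ p) (w p))).symm
  exact sum_congr rfl fun w _ => (integral_smul _ _).symm
end

theorem Ex_mono (hP : ∀ p ∈ P, p.Prime) (hδ : Dl δ) {f g : (ℕ → ℝ) → ℝ}
    (h : ∀ x, Adm x → f x ≤ g x) : Ex P δ f ≤ Ex P δ g := by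
  exact sum_le_sum fun w _ => mul_le_mul_of_nonneg_left (h _ (adm_ext P w)) (tex_nonneg hP hδ w)
theorem Ex_ofReal (f : (ℕ → ℝ) → ℝ) : Ex P δ (fun x => (f x : ℂ)) = ((Ex P δ f : ℝ) : ℂ) := by
  unfold Ex
  rw [ofReal_sum]
  exact sum_congr rfl fun w _ => by rw [smul_eq_mul, ofReal_mul, real_smul]

section
variable {R : Type} [CommRing R] [Algebra ℝ R]

theorem Ex_mul_left (c : R) (f : (ℕ → ℝ) → R) : Ex P δ (fun x => c * f x) = c * Ex P δ f := by
  unfold Ex
  rw [mul_sum]
  exact sum_congr rfl fun w _ => (mul_smul_comm _ _ _).symm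
/-- `E f * E g` is a double sum over `(w, w')`; exchange the coordinates outside `S`. -/
theorem Ex_indep {S : Set ℕ} {f g : (ℕ → ℝ) → R} (hf : DependsOn f S) (hg : DependsOn g Sᶜ) :
    Ex P δ (fun x => f x * g x) = Ex P δ f * Ex P δ g := by
  classical
  let φ : (P → SignType) × (P → SignType) → (P → SignType) × (P → SignType) := fun z =>
    (fun p => if (p : ℕ) ∈ S then z.1 p else z.2 p, fun p => if (p : ℕ) ∈ S then z.2 p else z.1 p)
  have hφ : Function.Involutive φ := by
    intro z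
    refine Prod.ext (funext fun p => ?_) (funext fun p => ?_) <;>
      by_cases hp : (p : ℕ) ∈ S <;> simp [φ, hp]
  have h1 : Ex P δ (fun x => f x * g x) = ∑ z : (P → SignType) × (P → SignType),
      ((∏ p : P, wt (δ p) (z.1 p)) * ∏ p : P, wt (δ p) (z.2 p)) •
        (f (ext P z.1) * g (ext P z.1)) := by
    rw [Fintype.sum_prod_type]
    refine sum_congr rfl fun w _ => ?_
    dsimp only
    rw [← sum_smul, ← mul_sum, tex_one, mul_one]
  rw [h1, ← Equiv.sum_comp hφ.toPerm]
  unfold Ex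
  rw [sum_mul_sum, ← Fintype.sum_prod_type']
  refine sum_congr rfl fun z _ => ?_
  rw [smul_mul_smul_comm, Function.Involutive.coe_toPerm]
  have e1 : f (ext P (φ z).1) = f (ext P z.1) := hf fun p hp => by
    by_cases h : p ∈ P
    · rw [tex_ext_mem _ h, tex_ext_mem _ h]
      exact congrArg _ (if_pos hp)
    · rw [ext_notMem _ h, ext_notMem _ h]
  have e2 : g (ext P (φ z).1) = g (ext P z.2) := hg fun p hp => by
    by_cases h : p ∈ P
    · rw [tex_ext_mem _ h, tex_ext_mem _ h]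
      exact congrArg _ (if_neg hp)
    · rw [ext_notMem _ h, ext_notMem _ h]
  rw [e1, e2, ← prod_mul_distrib, ← prod_mul_distrib]
  refine congrArg (· • _) (prod_congr rfl fun p _ => ?_)
  by_cases hp : (p : ℕ) ∈ S
  · simp only [φ, if_pos hp]
  · simp only [φ, if_neg hp, mul_comm]
theorem Ex_prod_indep {κ : Type} (S : Finset κ) (I : κ → Finset ℕ) {f : κ → (ℕ → ℝ) → R}
    (hf : ∀ i ∈ S, DependsOn (f i) (I i : Set ℕ)) (hI : (S : Set κ).PairwiseDisjoint I) :
    Ex P δ (fun x => ∏ i ∈ S, f i x) = ∏ i ∈ S, Ex P δ (f i) := by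
  classical
  induction S using Finset.induction_on with
  | empty => simp only [prod_empty, tex_const]
  | insert i S hi ih =>
    simp only [prod_insert hi]
    rw [← ih (fun j hj => hf j (mem_insert_of_mem hj)) (hI.subset (coe_subset.2 (subset_insert i S)))]
    refine Ex_indep (hf i (mem_insert_self i S)) fun x y hxy => prod_congr rfl fun j hj => ?_
    refine hf j (mem_insert_of_mem hj) fun p hp => hxy p fun hp' => ?_
    exact disjoint_left.1 (hI (mem_coe.2 (mem_insert_self i S)) (mem_coe.2 (mem_insert_of_mem hj))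
      (fun e => hi (e ▸ hj))) (mem_coe.1 hp') (mem_coe.1 hp)
theorem Ex_coord {p : ℕ} (hp : p ∈ P) (g : ℝ → R) : Ex P δ (fun x => g (x p)) = e1 (δ p) g := by
  simpa only [prod_singleton] using tex_prod (δ := δ) (singleton_subset_iff.2 hp) fun _ => g
theorem Ex_prod {S : Finset ℕ} (hS : S ⊆ P) (g : ℕ → ℝ → R) :
    Ex P δ (fun x => ∏ p ∈ S, g p (x p)) = ∏ p ∈ S, e1 (δ p) (g p) := by
  exact tex_prod hS g
/-- The expectation of a function of the coordinates in `S ⊆ P` does not depend on `P`. -/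
theorem Ex_restrict {S : Finset ℕ} (hS : S ⊆ P) {f : (ℕ → ℝ) → R} (hf : DependsOn f (S : Set ℕ)) :
    Ex P δ f = Ex S δ f := by
  classical
  have h1 : ∀ x, Adm x → f x = ∑ v : S → SignType,
      f (ext S v) * ∏ p ∈ S, if x p = ext S v p then (1 : R) else 0 := by
    intro x hx
    have h2 : ∀ p ∈ S, x p = ext S (fun q => SignType.sign (x q)) p := by
      intro p hp
      rw [tex_ext_mem _ hp]
      rcases hx p with h | h | h <;> simp [h]
    rw [sum_eq_single fun q : S => SignType.sign (x q)]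
    · rw [prod_congr rfl fun p hp => if_pos (h2 p hp), prod_const_one, mul_one]
      exact hf fun p hp => h2 p (mem_coe.1 hp)
    · intro v _ hv
      obtain ⟨p, hp⟩ := Function.ne_iff.1 hv
      have h3 : x p ≠ ext S v p := fun e => hp (by
        rw [e, tex_ext_mem _ p.2]
        change v p = SignType.sign ((v p : SignType) : ℝ)
        rcases v p with _ | _ | _ <;> simp)
      rw [prod_eq_zero p.2 (if_neg h3), mul_zero]
    · exact fun h => absurd (mem_univ _) h
  have h2 : ∀ Q : Finset ℕ, S ⊆ Q → Ex Q δ f = ∑ v : S → SignType,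
      f (ext S v) * ∏ p ∈ S, e1 (δ p) fun t => if t = ext S v p then (1 : R) else 0 := by
    intro Q hQ
    rw [tex_congr fun x hx _ => h1 x hx, tex_sum]
    refine sum_congr rfl fun v _ => ?_
    rw [Ex_mul_left, tex_prod hQ fun p t => if t = ext S v p then (1 : R) else 0]
  rw [h2 P hS, h2 S Subset.rfl]
end

theorem tex_isSquare {n : ℕ} (hn : n ≠ 0) :
    IsSquare n ↔ ∀ p ∈ n.primeFactors, Even (n.factorization p) := by
  refine ⟨?_, fun h => ⟨∏ p ∈ n.primeFactors, p ^ (n.factorization p / 2), ?_⟩⟩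
  · rintro ⟨m, rfl⟩ p -
    have hm : m ≠ 0 := left_ne_zero_of_mul hn
    rw [Nat.factorization_mul hm hm, Finsupp.add_apply]
    exact ⟨_, rfl⟩
  · rw [← prod_mul_distrib]
    conv_lhs => rw [← Nat.prod_factorization_pow_eq_self hn]
    rw [Finsupp.prod, Nat.support_factorization]
    refine prod_congr rfl fun p hp => ?_
    obtain ⟨k, hk⟩ := h p hp
    rw [← pow_add, hk]
    exact congrArg _ (by omega)

/-- `cm x n = ∏ p ∈ n.primeFactors, x p ^ n.factorization p`; `e1 δ (· ^ k)` is `1 - δ` for even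
`k > 0` and `0` for odd `k`; `n` is a square iff all exponents are even. -/
theorem Ex_cm {n : ℕ} (hn : n ≠ 0) (h : n.primeFactors ⊆ P) : Ex P δ (fun x => cm x n) = rho δ n := by
  have h1 : ∀ x, cm x n = ∏ p ∈ n.primeFactors, x p ^ n.factorization p := by
    intro x
    rw [cm, if_neg hn, prod_list_map_count, Nat.toFinset_factors]
    simp only [Nat.primeFactorsList_count_eq]
  simp only [h1]
  rw [tex_prod h fun p t => t ^ n.factorization p, rho]
  have h2 : ∀ p ∈ n.primeFactors, n.factorization p ≠ 0 := fun p hp =>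
    Finsupp.mem_support_iff.1 (by rwa [Nat.support_factorization])
  split_ifs with hs
  · refine prod_congr rfl fun p hp => ?_
    rw [e1, zero_pow (h2 p hp), ((tex_isSquare hn).1 hs p hp).neg_one_pow, one_pow, smul_zero,
      smul_eq_mul]
    ring
  · rw [tex_isSquare hn] at hs
    push Not at hs
    obtain ⟨p, hp, hs⟩ := hs
    refine prod_eq_zero hp ?_
    rw [e1, zero_pow (h2 p hp), (Nat.not_even_iff_odd.1 hs).neg_one_pow, one_pow, smul_zero,
      add_neg_cancel, smul_zero, add_zero]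
theorem rho_mem (hδ : Dl δ) (n : ℕ) : 0 ≤ rho δ n ∧ rho δ n ≤ 1 := by
  have h1 : ∀ p ∈ n.primeFactors, 0 ≤ 1 - δ p ∧ 1 - δ p ≤ 1 := by
    intro p hp
    have hp' := Nat.prime_of_mem_primeFactors hp
    obtain ⟨h1, h2⟩ := hδ p hp'
    have h3 : (1 : ℝ) / p ≤ 1 := by
      rw [div_le_one (by exact_mod_cast hp'.pos)]
      exact_mod_cast hp'.one_le
    constructor <;> linarith
  unfold rho
  split_ifs
  · exact ⟨prod_nonneg fun p hp => (h1 p hp).1,
      prod_le_one (fun p hp => (h1 p hp).1) fun p hp => (h1 p hp).2⟩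
  · exact ⟨le_rfl, zero_le_one⟩

end Pool.Agent.Lib.MP_03e5d0_nt
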