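import Pool.Agent.Lib.MP_03e5d0_nt.NDef
import Pool.Agent.Lib.MP_03e5d0_nt.TEx
import Pool.Agent.Lib.MP_03e5d0_nt.MDiag

set_option autoImplicit false

noncomputable section

namespace Pool.Agent.Lib.MP_03e5d0_nt

open Complex Finset MeasureTheory
open scoped NumberTheorySymbols Real ContDiff

/-! The norm of the random model. -/

variable {P : Finset ℕ}

theorem en_nonneg (P : Finset ℕ) (f : (ℕ → ℝ) → ℂ) : 0 ≤ en P f := by
  exact Real.sqrt_nonneg _

theorem en_sq (hP : ∀ p ∈ P, p.Prime) (f : (ℕ → ℝ) → ℂ) :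
    en P f ^ 2 = Ex P dl0 fun x => ‖f x‖ ^ 2 := by
  exact Real.sq_sqrt (sum_nonneg fun w _ => mul_nonneg (tex_nonneg hP dl_dl0 w) (sq_nonneg _))

/-- The weights are nonnegative: `tex_nonneg`, `dl_dl0`. -/
theorem en_eq_nrm (hP : ∀ p ∈ P, p.Prime) (f : (ℕ → ℝ) → ℂ) : en P f =
    nrm (univ : Finset (P → SignType))
      fun w => (√(∏ p : P, wt (dl0 p) (w p)) : ℝ) * f (ext P w) := by
  unfold en nrm Ex
  congr 1
  refine sum_congr rfl fun w _ => ?_
  rw [norm_mul, mul_pow, norm_real, Real.norm_of_nonneg (Real.sqrt_nonneg _),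
    Real.sq_sqrt (tex_nonneg hP dl_dl0 w), smul_eq_mul]

theorem en_congr {f g : (ℕ → ℝ) → ℂ} (h : ∀ x, Adm x → (∀ p, p ∉ P → x p = 0) → f x = g x) :
    en P f = en P g := by
  unfold en
  rw [tex_congr (g := fun x => ‖g x‖ ^ 2) fun x hx h0 => by rw [h x hx h0]]

theorem en_add_le (hP : ∀ p ∈ P, p.Prime) {f g h : (ℕ → ℝ) → ℂ}
    (H : ∀ x, Adm x → (∀ p, p ∉ P → x p = 0) → ‖h x‖ ≤ ‖f x‖ + ‖g x‖) :
    en P h ≤ en P f + en P g := by
  rw [en_eq_nrm hP, en_eq_nrm hP, en_eq_nrm hP]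
  refine nrm_add_le fun w _ => ?_
  rw [norm_mul, norm_mul, norm_mul, ← mul_add]
  exact mul_le_mul_of_nonneg_left (H _ (adm_ext P w) fun p hp => ext_notMem w hp) (norm_nonneg _)

/-- Minkowski: `en_eq_nrm`, `nrm_integral`. -/
theorem en_integral (hP : ∀ p ∈ P, p.Prime) {a : (ℕ → ℝ) → ℂ} {c : (ℕ → ℝ) → ℝ → ℂ} {env γ : ℝ → ℝ}
    (he : ∀ t, 0 ≤ env t) (hm : Continuous env)
    (hc : ∀ x, Adm x → (∀ p, p ∉ P → x p = 0) → Continuous (c x))
    (h : ∀ x, Adm x → (∀ p, p ∉ P → x p = 0) → ‖a x‖ ≤ ∫ t, env t * ‖c x t‖)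
    (hγ : ∀ t, en P (fun x => c x t) ≤ γ t) (hs : Integrable fun t => env t * γ t) :
    en P a ≤ ∫ t, env t * γ t := by
  rw [en_eq_nrm hP]
  refine nrm_integral (c := fun w t => (√(∏ p : P, wt (dl0 p) (w p)) : ℝ) * c (ext P w) t) he hm
    (fun w _ => continuous_const.mul (hc _ (adm_ext P w) fun p hp => ext_notMem w hp))
    (fun w _ => ?_) (fun t => (en_eq_nrm hP fun x => c x t).symm.trans_le (hγ t)) hs
  rw [norm_mul]
  refine (mul_le_mul_of_nonneg_left (h _ (adm_ext P w) fun p hp => ext_notMem w hp)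
    (norm_nonneg _)).trans (le_of_eq ?_)
  rw [← integral_const_mul]
  refine integral_congr_ae (Filter.Eventually.of_forall fun t => ?_)
  simp only [norm_mul]
  ring

/-- `en_integral` with `env = ‖v‖`, `norm_integral_le_integral_norm`, `integral_scaled`. -/
theorem en_int1 (hP : ∀ p ∈ P, p.Prime) {a : (ℕ → ℝ) → ℂ} {c : (ℕ → ℝ) → ℝ → ℂ} {v : ℝ → ℂ}
    {K G U : ℝ} {k : ℕ} (hK : 0 ≤ K) (hG : 0 ≤ G) (hU : 0 < U) (hv : Continuous v)
    (hb : ∀ t, ‖v t‖ ≤ K * U / (1 + U * |t|) ^ (k + 2))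
    (hc : ∀ x, Adm x → (∀ p, p ∉ P → x p = 0) → Continuous (c x))
    (h : ∀ x, Adm x → (∀ p, p ∉ P → x p = 0) → a x = ∫ t, v t * c x t)
    (hγ : ∀ t, en P (fun x => c x t) ≤ G * (1 + U * |t|) ^ k) : en P a ≤ 2 * K * G := by
  obtain ⟨h1, h2⟩ := integral_scaled hU
  have h3 : ∀ t, ‖v t‖ * (G * (1 + U * |t|) ^ k) ≤ K * G * (U / (1 + U * |t|) ^ 2) := fun t => by
    have h4 : 0 < 1 + U * |t| := by positivity
    refine (mul_le_mul_of_nonneg_right (hb t) (by positivity)).trans (le_of_eq ?_)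
    field_simp
    ring
  have h5 : Integrable fun t => ‖v t‖ * (G * (1 + U * |t|) ^ k) :=
    (h1.const_mul (K * G)).mono' (Continuous.aestronglyMeasurable (by fun_prop))
      (Filter.Eventually.of_forall fun t => by
        rw [Real.norm_of_nonneg (by positivity)]
        exact h3 t)
  refine (en_integral hP (env := fun t => ‖v t‖) (fun t => norm_nonneg _) hv.norm hc
    (fun x hx h0 => ?_) hγ h5).trans ((integral_mono h5 (h1.const_mul (K * G)) h3).trans ?_)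
  · rw [h x hx h0]
    refine (norm_integral_le_integral_norm _).trans (le_of_eq ?_)
    simp only [norm_mul]
  · rw [integral_const_mul, h2]
    exact le_of_eq (by ring)

end Pool.Agent.Lib.MP_03e5d0_nt
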