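import Pool.Agent.Lib.MP_03e5d0_nt.NRat1

set_option autoImplicit false

noncomputable section

namespace Pool.Agent.Lib.MP_03e5d0_nt

open Complex Finset MeasureTheory
open scoped NumberTheorySymbols Real ContDiff

/-! Second moments of ratios of Euler products in the random model. -/

/-- Primes with `log p ≤ 1 / σ`: `ps_min` (and `pr_eq_empty` if `1 < σ`); the others: `mps1_tail` with
`Λ = 1 / σ`. -/
theorem ps_rat (D : Data) (hPS : D.PS) : ∃ C : ℝ, ∀ Λ σ r : ℝ, 0 < σ → 0 ≤ r →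
    ∑ p ∈ pr D Λ, Real.exp (-(2 * σ) * Real.log p) * min 1 (r * Real.log p) / p ≤
      Real.log (1 + r / σ) + C := by
  obtain ⟨C, H⟩ := ps_min D hPS
  refine ⟨|C| + 12, fun Λ σ r hσ hr => ?_⟩
  have h0 : 0 < 1 / σ := by positivity
  obtain ⟨J, hJ⟩ := pow_unbounded_of_one_lt (Λ / (1 / σ)) one_lt_two
  have hm : ∀ p : ℕ, 0 ≤ min 1 (r * Real.log p) := fun p =>
    le_min zero_le_one (mul_nonneg hr (Real.log_natCast_nonneg p))
  refine (sum_le_sum_of_subset_of_nonneg (pr_mono D ((div_lt_iff₀ h0).1 hJ).le) fun p _ _ =>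
    div_nonneg (mul_nonneg (Real.exp_pos _).le (hm p)) p.cast_nonneg).trans ?_
  rw [← sum_sdiff (pr_mono D (le_mul_of_one_le_left h0.le (one_le_pow₀ one_le_two))), add_comm,
    ← add_assoc]
  refine add_le_add ?_ ((sum_le_sum fun p _ => ?_).trans ((mps1_tail D h0 J).trans
    (sub_le_self _ (by positivity))))
  · rcases le_total (1 / σ) 1 with h | h
    · rw [pr_eq_empty D h, sum_empty]
      exact add_nonneg (Real.log_nonneg (le_add_of_nonneg_right (by positivity))) (abs_nonneg C)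
    refine (sum_le_sum fun p _ => ?_).trans ((H (1 / σ) r hr).trans ?_)
    · refine div_le_div_of_nonneg_right (mul_le_of_le_one_left (hm p) (Real.exp_le_one_iff.2 ?_))
        p.cast_nonneg
      nlinarith [Real.log_natCast_nonneg p]
    · rw [ly, max_eq_right h, mul_one_div]
      linarith [le_abs_self C]
  · refine div_le_div_of_nonneg_right ((mul_le_of_le_one_right (Real.exp_pos _).le
      (min_le_left _ _)).trans (Real.exp_le_exp.2 ?_)) p.cast_nonneg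
    rw [div_div_eq_mul_div, div_one]
    nlinarith [Real.log_natCast_nonneg p]

theorem nrat_norm {p : ℕ} (hp : 0 < p) {σ : ℝ} {s : ℂ} (h : 1 / 2 + σ ≤ s.re) :
    ‖(p : ℂ) ^ (-s)‖ ≤ Real.exp (-σ * Real.log p) / √p := by
  have h0 : (0 : ℝ) < p := Nat.cast_pos.2 hp
  rw [norm_natCast_cpow_of_pos hp, neg_re, Real.sqrt_eq_rpow, mul_comm,
    ← Real.rpow_def_of_pos h0, ← Real.rpow_sub h0]
  exact Real.rpow_le_rpow_of_exponent_le (Nat.one_le_cast.2 hp) (by linarith)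

theorem nrat_sq (p : ℕ) (σ : ℝ) : Real.exp (-σ * Real.log p) / √p *
    (Real.exp (-σ * Real.log p) / √p) = Real.exp (-(2 * σ) * Real.log p) / p := by
  rw [div_mul_div_comm, Real.mul_self_sqrt p.cast_nonneg, ← Real.exp_add]
  congr 2
  ring

theorem nrat_core (D : Data) (hPS : D.PS) : ∃ (k : ℕ) (C : ℝ), 0 ≤ C ∧
    ∀ (Λ σ r : ℝ) (z₁ z₂ : ℕ → ℂ), 0 < σ → 0 ≤ r →
    (∀ p ∈ pr D Λ, ‖z₁ p‖ ≤ 1 / 10 ∧ ‖z₂ p‖ ≤ 1 / 10 ∧ ‖z₁ p - z₂ p‖ * (‖z₁ p‖ + ‖z₂ p‖) ≤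
      4 * (Real.exp (-(2 * σ) * Real.log p) * min 1 (r * Real.log p) / p)) →
    en (pr D Λ) (fun x => ∏ p ∈ pr D Λ, lf (D.lam p) (x p) (z₁ p) * (lf (D.lam p) (x p) (z₂ p))⁻¹) ≤
      C * (1 + r / σ) ^ k := by
  obtain ⟨A, hA, h1⟩ := rat_local
  obtain ⟨B, h2⟩ := ps_rat D hPS
  refine ⟨⌈2 * A⌉₊, Real.exp (2 * A * B), (Real.exp_pos _).le, fun Λ σ r z₁ z₂ hσ hr h => ?_⟩
  have h3 : 1 ≤ 1 + r / σ := le_add_of_nonneg_right (by positivity)
  simp only [en, norm_prod, ← prod_pow]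
  rw [Ex_prod subset_rfl fun p u => ‖lf (D.lam p) u (z₁ p) * (lf (D.lam p) u (z₂ p))⁻¹‖ ^ 2]
  have h4 : ∀ p ∈ pr D Λ, 0 ≤ dl0 p ∧ dl0 p ≤ 1 := fun p hp =>
    ⟨(dl_dl0 p (mem_pr.1 hp).1).1, (div_le_one (Nat.cast_pos.2 (mem_pr.1 hp).1.pos)).2
      (Nat.one_le_cast.2 (mem_pr.1 hp).1.pos)⟩
  refine (Real.sqrt_le_sqrt (prod_le_prod (fun p hp => ?_) fun p hp =>
    (h1 _ _ _ _ (D.lam_le p (mem_pr.1 hp).1) (h4 p hp).1 (h4 p hp).2 (h p hp).1 (h p hp).2.1).trans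
      (Real.exp_le_exp.2 (mul_le_mul_of_nonneg_left (h p hp).2.2 hA)))).trans ?_
  · have a := (h4 p hp).1
    have b := sub_nonneg.2 (h4 p hp).2
    simp only [e1, smul_eq_mul]
    positivity
  rw [← Real.exp_sum, ← Real.exp_half, ← mul_sum, ← mul_sum, ← Real.exp_log (one_pos.trans_le h3),
    ← Real.exp_nat_mul, ← Real.exp_add, Real.exp_le_exp]
  nlinarith [mul_le_mul_of_nonneg_left (h2 Λ σ r hσ hr) hA,
    mul_le_mul_of_nonneg_right (Nat.le_ceil (2 * A)) (Real.log_nonneg h3)]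

/-- `Ex_prod`, `rat_local`, `cpow_diff`, `ps_rat`. -/
theorem rat_bound (D : Data) (hPS : D.PS) : ∃ (k : ℕ) (C : ℝ), 0 ≤ C ∧ ∀ (Λ σ : ℝ) (s₁ s₂ : ℂ), 0 < σ →
    1 / 2 + σ ≤ s₁.re → 1 / 2 + σ ≤ s₂.re →
    en (pr D Λ) (fun x => LP D (pr D Λ) x s₁ * (LP D (pr D Λ) x s₂)⁻¹) ≤
      C * (1 + ‖s₁ - s₂‖ / σ) ^ k := by
  obtain ⟨k, C, hC, H⟩ := nrat_core D hPS
  refine ⟨k, C, hC, fun Λ σ s₁ s₂ hσ h₁ h₂ => ?_⟩
  simp only [LP, ← prod_inv_distrib, ← prod_mul_distrib]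
  refine H Λ σ _ _ _ hσ (norm_nonneg _) fun p hp => ?_
  obtain ⟨a, b, -⟩ := mem_pr.1 hp
  refine ⟨meul_norm D a b (by linarith), meul_norm D a b (by linarith),
    (mul_le_mul (cpow_diff a.pos h₁ h₂) (add_le_add (nrat_norm a.pos h₁) (nrat_norm a.pos h₂))
      (by positivity) ((norm_nonneg _).trans (cpow_diff a.pos h₁ h₂))).trans (le_of_eq ?_)⟩
  rw [mul_div_right_comm, ← nrat_sq]
  ring

/-- `rat_local` with `z₁ = 0` (`lf_zero`), `ps_rat` with `r = 1` (`1 ≤ log p`). -/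
theorem inv_bound (D : Data) (hPS : D.PS) : ∃ (k : ℕ) (C : ℝ), 0 ≤ C ∧ ∀ (Λ σ : ℝ) (s : ℂ), 0 < σ →
    1 / 2 + σ ≤ s.re → en (pr D Λ) (fun x => (LP D (pr D Λ) x s)⁻¹) ≤ C * (1 + 1 / σ) ^ k := by
  obtain ⟨k, C, hC, H⟩ := nrat_core D hPS
  refine ⟨k, C, hC, fun Λ σ s hσ h => ?_⟩
  have e := H Λ σ 1 (fun _ => 0) (fun p => (p : ℂ) ^ (-s)) hσ zero_le_one fun p hp => by
    obtain ⟨a, b, -⟩ := mem_pr.1 hp
    have h4 : (10000 : ℝ) ≤ p := by exact_mod_cast D.big a b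
    have h5 : 1 ≤ 1 * Real.log p := by
      rw [one_mul, Real.le_log_iff_exp_le (by linarith)]
      linarith [Real.exp_one_lt_d9]
    refine ⟨by norm_num, meul_norm D a b (by linarith), ?_⟩
    rw [zero_sub, norm_neg, norm_zero, zero_add, min_eq_left h5, mul_one]
    exact ((mul_self_le_mul_self (norm_nonneg _) (nrat_norm a.pos h)).trans_eq (nrat_sq p σ)).trans
      (le_mul_of_one_le_left (by positivity) (by norm_num))
  simpa only [LP, ← prod_inv_distrib, lf_zero, one_mul] using e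

end Pool.Agent.Lib.MP_03e5d0_nt
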