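import Pool.Agent.Lib.MP_03e5d0_nt.NRep1

set_option autoImplicit false

noncomputable section

namespace Pool.Agent.Lib.MP_03e5d0_nt

open Complex Finset MeasureTheory
open scoped NumberTheorySymbols Real ContDiff

/-! Fourier representations of the truncation and of its tail. -/

/-- `pc_rep` with `Θ = bump 1` (an even function), `L = 0`, `σ = 0`; then multiply by `exp (-σ y)`. -/
theorem cut_rep (j : ℕ) : ∃ C : ℝ, 0 ≤ C ∧ ∀ U : ℝ, 1 ≤ U → ∃ v : ℝ → ℂ, Continuous v ∧ Integrable v ∧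
    (∀ t, ‖v t‖ ≤ C * U / (1 + U * |t|) ^ j) ∧
    ∀ σ y : ℝ, (cut σ U y : ℂ) = ∫ t, v t * (ex (-t) y * (Real.exp (-σ * y) : ℝ)) := by
  obtain ⟨C, hC, h⟩ := pc_rep j
  obtain ⟨B, hB⟩ := sm_bump j 1
  refine ⟨C * B, mul_nonneg hC hB.nonneg, fun U hU => ?_⟩
  obtain ⟨v, h1, h2, h3, h4⟩ := h _ _ B 0 U 0 _ (by norm_num) (by norm_num) hB hU le_rfl
    (by norm_num) (by norm_num)
  refine ⟨v, h1, h2, h3, fun σ y => ?_⟩
  have h5 : bump 1 ((0 - y) / U) = bump 1 (y / U) := by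
    rw [bump, bump, mul_comm]
    congr 2 <;> ring
  have h6 := h4 y
  simp only [h5, neg_zero, zero_mul, Real.exp_zero, ofReal_one, mul_one] at h6
  simp only [← mul_assoc]
  rw [integral_mul_const, ← h6, cut, ofReal_mul, mul_comm]

theorem nrep_symm (z : ℝ) : Real.smoothTransition (1 - z) = 1 - Real.smoothTransition z := by
  have h := (Real.smoothTransition.pos_denom z).ne'
  rw [Real.smoothTransition, Real.smoothTransition, sub_sub_cancel, add_comm, eq_sub_iff_add_eq,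
    ← add_div, add_comm, div_self h]

/-- For `0 ≤ y`: `cut σ U y = exp (-σ y) * (1 - st U y)`, since
`smoothTransition (1 - z) = 1 - smoothTransition z`. -/
theorem cut_eq {U y : ℝ} (hU : 0 < U) (hy : 0 ≤ y) (σ : ℝ) :
    cut σ U y = Real.exp (-σ * y) * (1 - st U y) := by
  have h : 0 ≤ y / U := div_nonneg hy hU.le
  rw [cut, bump, Real.smoothTransition.one_of_one_le (by linarith), one_mul, st, ← nrep_symm]
  congr 2
  ring

/-- With `a = σ U / 2` and `g` of `tail_fun`: the tail is `exp (-σ y / 2) * g (y / U)`; take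
`v t = U * ft g (-(U * t))`. -/
theorem tail_rep (j : ℕ) : ∃ C : ℝ, 0 ≤ C ∧ ∀ U σ : ℝ, 1 ≤ U → 1 ≤ σ * U →
    ∃ v : ℝ → ℂ, Continuous v ∧ Integrable v ∧
      (∀ t, ‖v t‖ ≤ C * Real.exp (-(σ * U / 4)) * U / (1 + U * |t|) ^ j) ∧
      ∀ y : ℝ, 0 ≤ y → ((Real.exp (-σ * y) - cut σ U y : ℝ) : ℂ) =
        ∫ t, v t * (ex (-t) y * (Real.exp (-(σ / 2) * y) : ℝ)) := by
  obtain ⟨C₁, hC₁, h1⟩ := ft_rep j
  obtain ⟨C₂, hC₂, h2⟩ := tail_fun j
  refine ⟨C₁ * C₂, mul_nonneg hC₁ hC₂, fun U σ hU hσ => ?_⟩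
  have hU0 : 0 < U := by linarith
  obtain ⟨h3, h4, h5⟩ := h2 (σ * U / 2) (by linarith)
  obtain ⟨h6, h7, h8, h9⟩ := h1 _ _ h3 h4 h5
  set g : ℝ → ℂ := fun θ : ℝ =>
    ((Real.exp (-(σ * U / 2) * θ) * Real.smoothTransition (θ - 1) : ℝ) : ℂ) with hg
  have hU1 : -U ≠ 0 := neg_ne_zero.2 hU0.ne'
  refine ⟨fun t => (U : ℂ) * ft g (-U * t),
    continuous_const.mul (h6.comp (continuous_const.mul continuous_id)),
    (h7.comp_mul_left' hU1).const_mul _, fun t => ?_, fun y hy => ?_⟩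
  · have h10 := h8 (-U * t)
    rw [abs_mul, abs_neg, abs_of_pos hU0, show σ * U / 2 / 2 = σ * U / 4 by ring] at h10
    rw [norm_mul, norm_real, Real.norm_eq_abs, abs_of_pos hU0]
    refine (mul_le_mul_of_nonneg_left h10 hU0.le).trans (le_of_eq ?_)
    ring
  · have hUc : (U : ℂ) ≠ 0 := ofReal_ne_zero.2 hU0.ne'
    have h10 := Measure.integral_comp_mul_left (fun τ => ft g τ * ex τ (y / U)) (-U)
    rw [← h9, abs_inv, abs_neg, abs_of_pos hU0, real_smul] at h10
    have h11 : ∀ t : ℝ, (U : ℂ) * ft g (-U * t) * (ex (-t) y * (Real.exp (-(σ / 2) * y) : ℝ)) =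
        (U * (Real.exp (-(σ / 2) * y) : ℝ)) * (ft g (-U * t) * ex (-U * t) (y / U)) := fun t => by
      have e1 : ex (-U * t) (y / U) = ex (-t) y := by
        simp only [ex]
        congr 1
        push_cast
        field_simp
      rw [e1]
      ring
    have h12 : Real.exp (-σ * y) =
        Real.exp (-(σ / 2) * y) * Real.exp (-(σ * U / 2) * (y / U)) := by
      rw [← Real.exp_add]
      congr 1
      field_simp
      ring
    simp only [h11]
    rw [integral_const_mul, h10, ofReal_inv, mul_mul_mul_comm, mul_inv_cancel₀ hUc, one_mul,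
      cut_eq hU0 hy, ← ofReal_mul, st, ← mul_assoc, ← h12]
    congr 1
    ring

end Pool.Agent.Lib.MP_03e5d0_nt
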