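import Pool.Agent.Lib.MP_03e5d0_nt.NMu
import Pool.Agent.Lib.MP_03e5d0_nt.NRep
import Pool.Agent.Lib.MP_03e5d0_nt.NRat
import Pool.Agent.Lib.MP_03e5d0_nt.NEn1

set_option autoImplicit false

noncomputable section

namespace Pool.Agent.Lib.MP_03e5d0_nt

open Complex Finset MeasureTheory
open scoped NumberTheorySymbols Real ContDiff

/-! Second moments of mollified sums in the random model. -/

theorem nen2_pr (D : Data) (Λ : ℝ) : ∀ p ∈ pr D Λ, p.Prime ∧ ¬p ∣ D.q := fun _ hp =>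
  ⟨(mem_pr.1 hp).1, (mem_pr.1 hp).2.1⟩

theorem nen2_ineq {σ U a r b ρ C : ℝ} (k : ℕ) (hσ : 0 < σ) (hU : 0 < U) (ha : 0 ≤ a) (hr : 0 ≤ r)
    (hC : 0 ≤ C) (hb0 : 0 ≤ b) (hb : b ≤ a + r) (hρ : 1 + (a + 1 / U) / σ ≤ ρ) :
    C * (1 + b / σ) ^ k ≤ C * ρ ^ k * (1 + U * r) ^ k := by
  rw [mul_assoc, ← mul_pow]
  refine mul_le_mul_of_nonneg_left (pow_le_pow_left₀ (by positivity) ?_ k) hC
  have h1 : (1 + (a + 1 / U) / σ) * (1 + U * r) =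
      1 + (a + r) / σ + (1 / U / σ + U * r + a * U * r / σ) := by
    field_simp
    ring
  have h2 : 0 ≤ 1 / U / σ + U * r + a * U * r / σ := by positivity
  have h3 := div_le_div_of_nonneg_right hb hσ.le
  have h4 := mul_le_mul_of_nonneg_right hρ (show 0 ≤ 1 + U * r by positivity)
  linarith

theorem nen2_cont {D : Data} {P : Finset ℕ} {x : ℕ → ℝ} (hx : Adm x)
    (hP : ∀ p ∈ P, p.Prime ∧ ¬p ∣ D.q) {σ : ℝ} (hσ : 0 ≤ σ) :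
    Continuous fun t : ℝ => (LP D P x (1 / 2 + σ + I * t))⁻¹ :=
  (continuous_LP hx hP hσ).inv₀ fun t => LP_ne_zero hx hP (by simp; linarith)

theorem nen2_smu (D : Data) (hPS : D.PS) : ∃ (k : ℕ) (C : ℝ), 0 ≤ C ∧
    ∀ (Λ σ σ₂ U K a ρ : ℝ) (s : ℂ) (v V : ℝ → ℂ), 0 < σ → 1 / 2 + σ ≤ s.re → σ ≤ σ₂ → 0 < U →
    0 ≤ K → Continuous v → Integrable v → (∀ t, ‖v t‖ ≤ K * U / (1 + U * |t|) ^ (k + 2)) →
    (∀ y, 0 ≤ y → V y = ∫ t, v t * (ex (-t) y * (Real.exp (-σ₂ * y) : ℝ))) →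
    ‖s - (1 / 2 + σ₂)‖ ≤ a → 1 + (a + 1 / U) / σ ≤ ρ →
    en (pr D Λ) (fun x => LP D (pr D Λ) x s * smu D x V) ≤ C * K * ρ ^ k := by
  obtain ⟨k, C, hC, h⟩ := rat_bound D hPS
  refine ⟨k, 2 * C, by positivity,
    fun Λ σ σ₂ U K a ρ s v V hσ hs h2 hU hK hv hi hb hV ha hρ => ?_⟩
  have hP := nen2_pr D Λ
  have ha0 := (norm_nonneg _).trans ha
  have hρ0 : 0 ≤ ρ := le_trans (by positivity) hρ
  have := en_int1 (a := fun x => LP D (pr D Λ) x s * smu D x V)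
    (c := fun x t => LP D (pr D Λ) x s * (LP D (pr D Λ) x (1 / 2 + σ₂ + I * t))⁻¹)
    (G := C * ρ ^ k) (fun p hp => (hP p hp).1) hK (by positivity) hU hv hb
    (fun x hx _ => (nen2_cont hx hP (hσ.le.trans h2)).const_mul _)
    (fun x hx h0 => by
      rw [smu_eq_LP hx hP h0 (hσ.le.trans h2) hi hV, ← integral_const_mul]
      exact integral_congr_ae (Filter.Eventually.of_forall fun t => by ring))
    fun t => (h Λ σ s _ hσ hs (by simp; linarith)).trans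
      (nen2_ineq k hσ hU ha0 (abs_nonneg t) hC (norm_nonneg _) (by
        rw [← sub_sub]
        refine (norm_sub_le _ _).trans (add_le_add ha (le_of_eq ?_))
        simp) hρ)
  linarith

/-- `MM_smu`, `cut_rep`, `smu_eq_LP`, `en_int1`, `rat_bound`;
`1 + (a + |t'|) / σ ≤ (1 + (a + 1 / U₂) / σ) (1 + U₂ |t'|)`. -/
theorem en_LP_MM (D : Data) (hPS : D.PS) : ∃ (k : ℕ) (C : ℝ), 0 ≤ C ∧ ∀ Λ σ σ₁ σ₂ U₂ t : ℝ, 0 < σ →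
    σ ≤ σ₁ → σ ≤ σ₂ → 1 ≤ U₂ →
    en (pr D Λ) (fun x => LP D (pr D Λ) x (1 / 2 + σ₁ + I * t) * MM D x σ₂ U₂) ≤
      C * (1 + (|σ₁ - σ₂| + |t| + 1 / U₂) / σ) ^ k := by
  obtain ⟨k, C, hC, h⟩ := nen2_smu D hPS
  obtain ⟨C', hC', h'⟩ := cut_rep (k + 2)
  refine ⟨k, C * C', by positivity, fun Λ σ σ₁ σ₂ U₂ t hσ h1 h2 hU => ?_⟩
  obtain ⟨v, hv, hi, hb, hV⟩ := h' U₂ hU
  simp only [MM_smu]
  refine h Λ σ σ₂ U₂ C' (|σ₁ - σ₂| + |t|) _ _ v _ hσ (by simp; linarith) h2 (by linarith) hC' hv hi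
    hb (fun y _ => hV σ₂ y) ?_ le_rfl
  rw [show (1 / 2 + σ₁ + I * t - (1 / 2 + σ₂) : ℂ) = ((σ₁ - σ₂ : ℝ) : ℂ) + I * t by push_cast; ring]
  refine (norm_add_le _ _).trans (le_of_eq ?_)
  rw [Complex.norm_real, Real.norm_eq_abs]
  simp

/-- `sm_eq_LP`, `en_int1`, `en_LP_MM`. -/
theorem en_rep (D : Data) (hPS : D.PS) : ∃ (k : ℕ) (C : ℝ), 0 ≤ C ∧
    ∀ (Λ σ σ₁ σ₂ U₁ U₂ K ρ : ℝ) (v V : ℝ → ℂ), 0 < σ → σ ≤ σ₁ → σ ≤ σ₂ → 0 < U₁ → 1 ≤ U₂ → 0 ≤ K →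
    Continuous v → Integrable v → (∀ t, ‖v t‖ ≤ K * U₁ / (1 + U₁ * |t|) ^ (k + 2)) →
    (∀ y, 0 ≤ y → V y = ∫ t, v t * (ex (-t) y * (Real.exp (-σ₁ * y) : ℝ))) →
    1 + (|σ₁ - σ₂| + 1 / U₁ + 1 / U₂) / σ ≤ ρ →
    en (pr D Λ) (fun x => (MM D x σ₂ U₂ : ℂ) * sm D x V) ≤ C * K * ρ ^ k := by
  obtain ⟨k, C, hC, h⟩ := en_LP_MM D hPS
  refine ⟨k, 2 * C, by positivity,
    fun Λ σ σ₁ σ₂ U₁ U₂ K ρ v V hσ h1 h2 hU₁ hU₂ hK hv hi hb hV hρ => ?_⟩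
  have hP := nen2_pr D Λ
  have hρ0 : 0 ≤ ρ := le_trans (by positivity) hρ
  have := en_int1 (a := fun x => (MM D x σ₂ U₂ : ℂ) * sm D x V)
    (c := fun x t => LP D (pr D Λ) x (1 / 2 + σ₁ + I * t) * MM D x σ₂ U₂)
    (G := C * ρ ^ k) (fun p hp => (hP p hp).1) hK (by positivity) hU₁ hv hb
    (fun x hx _ => (continuous_LP hx hP (hσ.le.trans h1)).mul_const _)
    (fun x hx h0 => by
      rw [sm_eq_LP hx hP h0 (hσ.le.trans h1) hi hV, ← integral_const_mul]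
      exact integral_congr_ae (Filter.Eventually.of_forall fun t => by ring))
    fun t => (h Λ σ σ₁ σ₂ U₂ t hσ h1 h2 hU₂).trans
      (nen2_ineq (a := |σ₁ - σ₂| + 1 / U₂) k hσ hU₁ (by positivity) (abs_nonneg t) hC
        (by positivity) (le_of_eq (by ring)) (by rwa [add_right_comm]))
  linarith

/-- `en_rep`, `cut_rep`, `NN_sm`. -/
theorem en_NM (D : Data) (hPS : D.PS) : ∃ (k : ℕ) (C : ℝ), 0 ≤ C ∧ ∀ Λ σ σ₁ σ₂ U₁ U₂ ρ : ℝ, 0 < σ →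
    σ ≤ σ₁ → σ ≤ σ₂ → 1 ≤ U₁ → 1 ≤ U₂ → 1 + (|σ₁ - σ₂| + 1 / U₁ + 1 / U₂) / σ ≤ ρ →
    en (pr D Λ) (fun x => ((NN D x σ₁ U₁ * MM D x σ₂ U₂ : ℝ) : ℂ)) ≤ C * ρ ^ k := by
  obtain ⟨k, C, hC, h⟩ := en_rep D hPS
  obtain ⟨C', hC', h'⟩ := cut_rep (k + 2)
  refine ⟨k, C * C', by positivity, fun Λ σ σ₁ σ₂ U₁ U₂ ρ hσ h1 h2 hU₁ hU₂ hρ => ?_⟩
  obtain ⟨v, hv, hi, hb, hV⟩ := h' U₁ hU₁
  refine le_of_eq_of_le (en_congr fun x _ _ => ?_) (h Λ σ σ₁ σ₂ U₁ U₂ C' ρ v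
    (fun y => (cut σ₁ U₁ y : ℂ)) hσ h1 h2 (by linarith) hU₂ hC' hv hi hb (fun y _ => hV σ₁ y) hρ)
  rw [← NN_sm, ofReal_mul, mul_comm]

/-- `en_rep`, `pc_rep`. -/
theorem en_pc (D : Data) (hPS : D.PS) : ∃ (j k : ℕ) (C : ℝ), 0 ≤ C ∧
    ∀ (Λ σ σ₂ U U₂ L B ρ : ℝ) (Θ : ℝ → ℂ), 0 < σ → σ ≤ σ₂ → 1 ≤ U → 1 ≤ U₂ → σ * U ≤ 1 → σ * L ≤ 1 →
    Sm j 1 4 B Θ → 1 + (σ₂ + 1 / U + 1 / U₂) / σ ≤ ρ →
    en (pr D Λ) (fun x => (MM D x σ₂ U₂ : ℂ) * pc D x L U Θ) ≤ C * B * ρ ^ k := by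
  obtain ⟨k, C, hC, h⟩ := en_rep D hPS
  obtain ⟨C', hC', h'⟩ := pc_rep (k + 2)
  refine ⟨k + 2, k, C * C', by positivity,
    fun Λ σ σ₂ U U₂ L B ρ Θ hσ h2 hU hU₂ hσU hσL hΘ hρ => ?_⟩
  obtain ⟨v, hv, hi, hb, hV⟩ := h' 1 4 B L U σ Θ (by norm_num) le_rfl hΘ hU hσ.le hσU hσL
  have hB := hΘ.nonneg
  have h3 : |σ - σ₂| ≤ σ₂ := abs_le.2 ⟨by linarith, by linarith⟩
  refine (h Λ σ σ σ₂ U U₂ (C' * B) ρ v (fun y => Θ ((L - y) / U)) hσ le_rfl h2 (by linarith) hU₂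
    (by positivity) hv hi hb (fun y _ => hV y) (le_trans ?_ hρ)).trans (le_of_eq (by ring))
  gcongr

/-- `en_int1` with exponent zero, `inv_bound`. -/
theorem en_MM (D : Data) (hPS : D.PS) : ∃ (k : ℕ) (C : ℝ), 0 ≤ C ∧ ∀ Λ σ U : ℝ, 0 < σ → 1 ≤ U →
    en (pr D Λ) (fun x => (MM D x σ U : ℂ)) ≤ C * (1 + 1 / σ) ^ k := by
  obtain ⟨k, C, hC, h⟩ := inv_bound D hPS
  obtain ⟨C', hC', h'⟩ := cut_rep (0 + 2)
  refine ⟨k, 2 * C' * C, by positivity, fun Λ σ U hσ hU => ?_⟩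
  obtain ⟨v, hv, hi, hb, hV⟩ := h' U hU
  have hP := nen2_pr D Λ
  have := en_int1 (a := fun x => (MM D x σ U : ℂ))
    (c := fun x t => (LP D (pr D Λ) x (1 / 2 + σ + I * t))⁻¹)
    (G := C * (1 + 1 / σ) ^ k) (fun p hp => (hP p hp).1) hC' (by positivity) (by linarith) hv hb
    (fun x hx _ => nen2_cont hx hP hσ.le)
    (fun x hx h0 => by rw [MM_smu, smu_eq_LP hx hP h0 hσ.le hi fun y _ => hV σ y])
    fun t => by simpa using h Λ σ _ hσ (show 1 / 2 + σ ≤ (1 / 2 + σ + I * t : ℂ).re by simp)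
  linarith

/-- With `F = LP (1 / 2 + σ)`: `N M - 1 = -(M * (F - N)) - F * (F⁻¹ - M)`. First term: `LP_sub_NN`,
`tail_rep`, `en_rep` with base `σ / 2`, `σ₁ = σ / 2`, `ρ = 6`. Second term: `LP_sub_MM`, `tail_rep`,
`smu_eq_LP`, `en_int1`, `rat_bound` with base `σ / 2`: `1 + (σ / 2 + |t|) / (σ / 2) ≤ 2 (1 + U |t|)`. -/
theorem en_sub_one (D : Data) (hPS : D.PS) : ∃ C : ℝ, 0 ≤ C ∧ ∀ Λ σ U : ℝ, 1 ≤ U → 1 ≤ σ * U →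
    en (pr D Λ) (fun x => ((NN D x σ U * MM D x σ U - 1 : ℝ) : ℂ)) ≤
      C * Real.exp (-(σ * U / 4)) := by
  obtain ⟨k₁, C₁, hC₁, h₁⟩ := en_rep D hPS
  obtain ⟨k₂, C₂, hC₂, h₂⟩ := nen2_smu D hPS
  obtain ⟨T₁, hT₁, t₁⟩ := tail_rep (k₁ + 2)
  obtain ⟨T₂, hT₂, t₂⟩ := tail_rep (k₂ + 2)
  refine ⟨C₁ * T₁ * 6 ^ k₁ + C₂ * T₂ * 4 ^ k₂, by positivity, fun Λ σ U hU hσU => ?_⟩
  have hU0 : 0 < U := by linarith
  have hσ : 0 < σ := by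
    by_contra hn
    nlinarith
  have hP := nen2_pr D Λ
  have hq : 1 / U / (σ / 2) ≤ 2 := by
    rw [div_le_iff₀ (by positivity), div_le_iff₀ hU0]
    linarith
  have hs : σ / 2 / (σ / 2) = 1 := div_self (by positivity)
  obtain ⟨v₁, a1, a2, a3, a4⟩ := t₁ U σ hU hσU
  obtain ⟨v₂, b1, b2, b3, b4⟩ := t₂ U σ hU hσU
  have e1 := h₁ Λ (σ / 2) (σ / 2) σ U U (T₁ * Real.exp (-(σ * U / 4))) 6 v₁ _ (by positivity) le_rfl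
    (by linarith) hU0 hU (by positivity) a1 a2 a3 a4 (by
      rw [abs_of_neg (by linarith), show -(σ / 2 - σ) = σ / 2 by ring, add_div, add_div, hs]
      linarith)
  have e2 := h₂ Λ (σ / 2) (σ / 2) U (T₂ * Real.exp (-(σ * U / 4))) (σ / 2) 4 (1 / 2 + σ) v₂ _
    (by positivity) (by simp; linarith) le_rfl hU0 (by positivity) b1 b2 b3 b4 (by
      rw [show (1 / 2 + σ - (1 / 2 + ((σ / 2 : ℝ) : ℂ)) : ℂ) = ((σ / 2 : ℝ) : ℂ) by push_cast; ring,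
        Complex.norm_real, Real.norm_of_nonneg (by positivity)]) (by
      rw [add_div, hs]
      linarith)
  refine (en_add_le (fun p hp => (hP p hp).1) fun x hx h0 => ?_).trans
    ((add_le_add e1 e2).trans (le_of_eq (by ring)))
  have hF := LP_ne_zero hx hP (s := 1 / 2 + σ) (by simp; linarith)
  rw [← LP_sub_NN hx hP h0 hσ.le, ← LP_sub_MM hx hP h0 hσ.le, ← norm_neg]
  refine le_of_eq_of_le (congrArg _ ?_) (norm_add_le _ _)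
  push_cast
  rw [mul_sub (LP D (pr D Λ) x _), mul_inv_cancel₀ hF]
  ring

end Pool.Agent.Lib.MP_03e5d0_nt
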