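import Pool.Agent.Lib.MP_03e5d0_nt.RSDefs

/-! Removing the coefficients that are not coprime to a modulus. -/

set_option autoImplicit false

noncomputable section

namespace Pool.Agent.Lib.MP_03e5d0_nt.RS

open scoped UpperHalfPlane Real MatrixGroups ENNReal Topology
open Complex MeasureTheory Filter

variable {N : ℕ} {g : ℍ → ℂ} {c : ℕ → ℂ}

/-- Sketch: `geom_sum_eq`, `Complex.exp_eq_one_iff`. -/
theorem sum_exp_range {m : ℕ} (hm : 0 < m) (k : ℤ) :
    ∑ j ∈ Finset.range m, cexp (2 * π * I * k * j / m) = if (m : ℤ) ∣ k then (m : ℂ) else 0 := by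
  have hm' : (m : ℂ) ≠ 0 := Nat.cast_ne_zero.2 hm.ne'
  have e : ∀ j : ℕ, cexp (2 * π * I * k * j / m) = cexp (2 * π * I * k / m) ^ j := by
    intro j
    rw [← exp_nat_mul]
    exact congrArg _ (by ring)
  simp only [e]
  split_ifs with h
  · obtain ⟨l, rfl⟩ := h
    have e1 : 2 * π * I * ((m * l : ℤ) : ℂ) / m = l * (2 * π * I) := by
      push_cast
      field_simp
    rw [e1, exp_int_mul_two_pi_mul_I]
    simp
  · have h1 : cexp (2 * π * I * k / m) ≠ 1 := by
      intro h1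
      obtain ⟨l, hl⟩ := exp_eq_one_iff.1 h1
      rw [mul_div_assoc, mul_comm (l : ℂ)] at hl
      have h2 := mul_left_cancel₀ two_pi_I_ne_zero hl
      rw [div_eq_iff hm'] at h2
      exact h ⟨l, by rw [mul_comm (m : ℤ)]; exact_mod_cast h2⟩
    have e1 : 2 * π * I * k * m / m = k * (2 * π * I) := by field_simp
    rw [geom_sum_eq h1, ← e, e1, exp_int_mul_two_pi_mul_I, sub_self, zero_div]

/-- Sketch: `hasSum_sum` of `h.sum`, `UpperHalfPlane.coe_vadd`, `sum_exp_range` with `k = n u`. -/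
theorem CF.hasSum_avg (h : CF N g c) {m : ℕ} (hm : 0 < m) {u : ℤ} (hu : IsCoprime u (m : ℤ))
    (z : ℍ) : HasSum (fun n : ℕ => (if m ∣ n then (m : ℂ) * c n else 0) * cexp (2 * π * I * n * z))
      (∑ j ∈ Finset.range m, g (((j : ℝ) * u / m : ℝ) +ᵥ z)) := by
  have h1 := hasSum_sum (s := Finset.range m) fun j _ => h.sum (((j : ℝ) * u / m : ℝ) +ᵥ z)
  refine h1.congr_fun fun n => ?_
  have e : ∀ j : ℕ, c n * cexp (2 * π * I * n * ((((j : ℝ) * u / m : ℝ) +ᵥ z : ℍ) : ℂ)) =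
      cexp (2 * π * I * (n * u : ℤ) * j / m) * (c n * cexp (2 * π * I * n * z)) := by
    intro j
    rw [mul_left_comm, ← exp_add, UpperHalfPlane.coe_vadd]
    refine congrArg (fun t => _ * cexp t) ?_
    push_cast
    ring
  simp only [e]
  rw [← Finset.sum_mul, sum_exp_range hm]
  have h2 : (m : ℤ) ∣ n * u ↔ m ∣ n :=
    ⟨fun h => Int.natCast_dvd_natCast.1 (hu.symm.dvd_of_dvd_mul_right h),
      fun h => (Int.natCast_dvd_natCast.2 h).mul_right u⟩
  by_cases h3 : m ∣ n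
  · rw [if_pos h3, if_pos (h2.2 h3), mul_assoc]
  · rw [if_neg h3, if_neg (mt h2.1 h3), zero_mul, zero_mul]

/-- Sketch: for `(a, b; c', d)` with `c' = N m ^ 2 e` and `j' = j d ^ 2` the matrix
`(a + j c' / m, b + (j d - j' a) / m - j j' c' / m ^ 2; c', d - c' j' / m)` has integer entries
(`j d - j d ^ 2 a = - j d b c'`), determinant one, and maps `z + j' / m` to `w + j / m` with the
same automorphy factor `c' z + d`. Then compare `hasSum_avg` for `u = d ^ 2` and `u = 1`. -/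
theorem CF.avg (h : CF N g c) {m : ℕ} (hm : 0 < m) :
    CF (N * m ^ 2) (fun z => ∑ j ∈ Finset.range m, g (((j : ℝ) / m : ℝ) +ᵥ z))
      fun n => if m ∣ n then (m : ℂ) * c n else 0 := by
  have hm' : (m : ℂ) ≠ 0 := Nat.cast_ne_zero.2 hm.ne'
  have hs : ∀ z : ℍ, HasSum
      (fun n : ℕ => (if m ∣ n then (m : ℂ) * c n else 0) * cexp (2 * π * I * n * z))
      (∑ j ∈ Finset.range m, g (((j : ℝ) / m : ℝ) +ᵥ z)) := fun z => by
    simpa only [Int.cast_one, mul_one] using h.hasSum_avg hm isCoprime_one_left z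
  refine ⟨?_, ?_, by simp [h.zero], hs⟩
  · rintro a b _ d hd ⟨e, rfl⟩ z w hw
    have hu : IsCoprime d (m : ℤ) := ⟨a, -(b * N * m * e), by
      push_cast at hd
      linear_combination hd⟩
    have hd' : (a : ℂ) * d - b * (N * m ^ 2 * e) = 1 := by exact_mod_cast hd
    have h0 : ((((N * m ^ 2 : ℕ) : ℤ) * e : ℤ) : ℂ) * z + d ≠ 0 := by
      intro h0
      have h1 := congrArg Complex.im h0
      rw [add_im, mul_im, intCast_im, intCast_im, intCast_re, zero_mul, add_zero, add_zero,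
        zero_im] at h1
      have h2 : ((N * m ^ 2 : ℕ) : ℤ) * e = 0 :=
        Int.cast_eq_zero.1 ((mul_eq_zero.1 h1).resolve_right z.im_pos.ne')
      rw [h2, Int.cast_zero, zero_mul, zero_add, Int.cast_eq_zero] at h0
      rw [h0, h2] at hd
      simp at hd
    rw [(hs z).unique (h.hasSum_avg hm (hu.pow_left (m := 2)) z), Finset.mul_sum]
    refine Finset.sum_congr rfl fun j _ => ?_
    have e1 : ((((N * m ^ 2 : ℕ) : ℤ) * e : ℤ) : ℂ) *
        ((((j : ℝ) * (d ^ 2 : ℤ) / m : ℝ) +ᵥ z : ℍ) : ℂ) + (d - N * m * e * j * d ^ 2 : ℤ) =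
        ((((N * m ^ 2 : ℕ) : ℤ) * e : ℤ) : ℂ) * z + d := by
      rw [UpperHalfPlane.coe_vadd]
      push_cast
      field_simp
      ring
    rw [← e1]
    refine h.inv (a + j * (N * m * e)) (b - j * d * b * (N * m * e) - j ^ 2 * d ^ 2 * N * e) _ _
      ?_ ⟨m ^ 2 * e, by push_cast; ring⟩ _ _ ?_
    · push_cast at hd ⊢
      linear_combination (1 - j * (N * m * e) * d) * hd
    · rw [e1, eq_div_iff h0, UpperHalfPlane.coe_vadd, UpperHalfPlane.coe_vadd, add_mul, hw,
        div_mul_cancel₀ _ h0]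
      push_cast
      field_simp
      linear_combination (-(j : ℂ) * d) * hd'
  · obtain ⟨C, hC⟩ := h.bdd
    refine ⟨m * C, fun z => ?_⟩
    refine (mul_le_mul_of_nonneg_left (norm_sum_le _ _) z.im_pos.le).trans ?_
    rw [Finset.mul_sum]
    refine (Finset.sum_le_card_nsmul _ _ C fun j _ => ?_).trans (by simp)
    simpa only [UpperHalfPlane.vadd_im] using hC (((j : ℝ) / m : ℝ) +ᵥ z)

/-- Sketch: `g - m⁻¹ * avg`. -/
theorem CF.remove (h : CF N g c) {m : ℕ} (hm : 0 < m) :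
    ∃ g' : ℍ → ℂ, CF (N * m ^ 2) g' fun n => if m ∣ n then 0 else c n := by
  have hm' : (m : ℂ) ≠ 0 := Nat.cast_ne_zero.2 hm.ne'
  have h1 := h.avg hm
  refine ⟨fun z => g z - (m : ℂ)⁻¹ * ∑ j ∈ Finset.range m, g (((j : ℝ) / m : ℝ) +ᵥ z),
    fun a b c' d hd hc z w hw => ?_, ?_, by simp, fun z => ?_⟩
  · have h2 := h1.inv a b c' d hd hc z w hw
    rw [h2, h.inv a b c' d hd ((Int.natCast_dvd_natCast.2 (dvd_mul_right _ _)).trans hc) z w hw]
    ring
  · obtain ⟨C, hC⟩ := h.bdd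
    obtain ⟨C', hC'⟩ := h1.bdd
    refine ⟨C + ‖(m : ℂ)⁻¹‖ * C', fun z => ?_⟩
    refine (mul_le_mul_of_nonneg_left (norm_sub_le _ _) z.im_pos.le).trans ?_
    rw [mul_add, norm_mul, mul_left_comm]
    exact add_le_add (hC z) (mul_le_mul_of_nonneg_left (hC' z) (norm_nonneg _))
  · refine ((h.sum z).sub ((h1.sum z).mul_left (m : ℂ)⁻¹)).congr_fun fun n => ?_
    split_ifs
    · field_simp
      ring
    · ring

/-- Sketch: induction on `q` (`induction_on_primes`), `Nat.coprime_mul_iff_right`,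
`Nat.Prime.coprime_iff_not_dvd`. -/
theorem CF.deplete (h : CF N g c) (hN : 0 < N) {q : ℕ} (hq : q ≠ 0) :
    ∃ (M : ℕ) (g' : ℍ → ℂ), 0 < M ∧ CF M g' fun n => if n.Coprime q then c n else 0 := by
  induction q using induction_on_primes with
  | zero => exact absurd rfl hq
  | one => exact ⟨N, g, hN, by simpa using h⟩
  | prime_mul p s hp ih =>
    obtain ⟨M, g', hM, h1⟩ := ih (right_ne_zero_of_mul hq)
    obtain ⟨g'', h2⟩ := h1.remove hp.pos
    refine ⟨M * p ^ 2, g'', Nat.mul_pos hM (pow_pos hp.pos 2), ?_⟩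
    have e : (fun n => if n.Coprime (p * s) then c n else 0) =
        fun n => if p ∣ n then 0 else if n.Coprime s then c n else 0 := by
      funext n
      have h3 : n.Coprime p ↔ ¬p ∣ n := Nat.coprime_comm.trans hp.coprime_iff_not_dvd
      by_cases h4 : p ∣ n <;> simp only [Nat.coprime_mul_iff_right, h3, h4, not_true, not_false_iff,
        false_and, true_and, if_true, if_false]
    rw [e]
    exact h2

end Pool.Agent.Lib.MP_03e5d0_nt.RS
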