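import Pool.Agent.Lib.MP_03e5d0_nt.RS341

/-! The bounds for the prime sums. -/

set_option autoImplicit false

noncomputable section

namespace Pool.Agent.Lib.MP_03e5d0_nt.RS

open scoped UpperHalfPlane Real MatrixGroups ENNReal Topology
open Complex MeasureTheory Filter

variable {W : ℕ} {β : ℕ → ℝ} {E : ℂ → ℂ}

/-- Sketch: Cauchy estimate with radius `r` (`Complex.norm_deriv_le_of_forall_mem_sphere_norm_le`). -/
theorem deriv_le_of_bdd {f : ℂ → ℂ} {a r C : ℝ} (hr : 0 < r)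
    (hf : DifferentiableOn ℂ f {s | a < s.re}) (hC : ∀ s : ℂ, a < s.re → ‖f s‖ ≤ C) {s : ℂ}
    (hs : a + r < s.re) : ‖deriv f s‖ ≤ C / r := by
  have hsub : Metric.closedBall s r ⊆ {s : ℂ | a < s.re} := by
    intro z hz
    have h1 : |(z - s).re| ≤ r := (Complex.abs_re_le_norm _).trans (mem_closedBall_iff_norm.1 hz)
    rw [Complex.sub_re] at h1
    have h2 := (abs_le.1 h1).1
    change a < z.re
    linarith
  exact Complex.norm_deriv_le_of_forall_mem_sphere_norm_le hr (hf.diffContOnCl_ball hsub)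
    fun z hz => hC z (hsub (Metric.sphere_subset_closedBall hz))

/-- Sketch: `Mu.fac` gives `E = (s - 1) exp (P + h)` on `1 < re s` (an eventual equality near every
such point); differentiate with `Mu.hasDerivAt_PSum`: `E' = E * (1 / (s - 1) - Plog + h')`. This is
again an identity on the open half plane, differentiate `Plog - 1 / (s - 1) = h' - E' / E` with
`Mu.hasDerivAt_PSum_log`. Bounds for `h'`, `h''` by `deriv_le_of_bdd` with `r = 1 / 8`. -/
theorem log_deriv (h : Cont β E) (hm : Mu W β) : ∃ C : ℝ, 0 ≤ C ∧ ∀ s : ℂ, 1 < s.re →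
    E s ≠ 0 ∧ |(PSum W β s).re + Real.log ‖s - 1‖ - Real.log ‖E s‖| ≤ C ∧
    ‖PSum W (fun p => β p * Real.log p) s - 1 / (s - 1) + deriv E s / E s‖ ≤ C ∧
    ‖PSum W (fun p => β p * Real.log p ^ 2) s - 1 / (s - 1) ^ 2 -
      (deriv (deriv E) s / E s - (deriv E s / E s) ^ 2)‖ ≤ C := by
  obtain ⟨u, C, hu, huC, hf⟩ := hm.fac h.summ
  have hC0 : 0 ≤ C := (norm_nonneg _).trans (huC 1 (by rw [Complex.one_re]; norm_num))
  have ho : ∀ a : ℝ, IsOpen {s : ℂ | a < s.re} := fun a =>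
    isOpen_lt continuous_const Complex.continuous_re
  have hE : ∀ s : ℂ, 1 < s.re → E s = (s - 1) * cexp (PSum W β s + u s) := fun s hs => by
    rw [h.eq s hs, hf s hs]
  have hs1 : ∀ s : ℂ, 1 < s.re → s - 1 ≠ 0 := by
    intro s hs h0
    rw [sub_eq_zero.1 h0, Complex.one_re] at hs
    exact lt_irrefl _ hs
  have hne : ∀ s : ℂ, 1 < s.re → E s ≠ 0 := fun s hs => by
    rw [hE s hs]
    exact mul_ne_zero (hs1 s hs) (Complex.exp_ne_zero _)
  have hu' : DifferentiableOn ℂ (deriv u) {s | 3 / 4 < s.re} := hu.deriv (ho _)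
  have hb1 : ∀ s : ℂ, 7 / 8 < s.re → ‖deriv u s‖ ≤ C / (1 / 8) := fun s hs =>
    deriv_le_of_bdd (by norm_num) hu huC (by linarith)
  have hb2 : ∀ s : ℂ, 1 < s.re → ‖deriv (deriv u) s‖ ≤ C / (1 / 8) / (1 / 8) := fun s hs =>
    deriv_le_of_bdd (a := 7 / 8) (by norm_num)
      (hu'.mono fun z (hz : 7 / 8 < z.re) => (by linarith : 3 / 4 < z.re)) hb1 (by linarith)
  have hd1 : ∀ s : ℂ, 1 < s.re → deriv E s / E s =
      1 / (s - 1) - PSum W (fun p => β p * Real.log p) s + deriv u s := by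
    intro s hs
    have e : E =ᶠ[𝓝 s] fun z => (z - 1) * cexp (PSum W β z + u z) :=
      Filter.eventuallyEq_of_mem ((ho 1).mem_nhds hs) fun z hz => hE z hz
    have h1 : HasDerivAt u (deriv u s) s :=
      (hu.differentiableAt ((ho _).mem_nhds (by change 3 / 4 < s.re; linarith))).hasDerivAt
    have h2 := ((hasDerivAt_id s).sub_const 1).mul (((hm.hasDerivAt_PSum hs).add h1).cexp)
    have h3 : deriv E s = _ := (h2.congr_of_eventuallyEq e).deriv
    have h4 := hs1 s hs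
    have h5 := Complex.exp_ne_zero (PSum W β s + u s)
    rw [h3, hE s hs]
    simp only [id, Pi.add_apply]
    field_simp
    ring
  refine ⟨64 * C, by positivity, fun s hs => ⟨hne s hs, ?_, ?_, ?_⟩⟩
  · have h1 := norm_ne_zero_iff.2 (hs1 s hs)
    rw [hE s hs, norm_mul, Complex.norm_exp, Real.log_mul h1 (Real.exp_ne_zero _), Real.log_exp,
      Complex.add_re]
    have h2 := (Complex.abs_re_le_norm (u s)).trans (huC s (by linarith))
    rw [abs_le] at h2 ⊢
    constructor <;> linarith [h2.1, h2.2]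
  · rw [hd1 s hs]
    have e : PSum W (fun p => β p * Real.log p) s - 1 / (s - 1) +
        (1 / (s - 1) - PSum W (fun p => β p * Real.log p) s + deriv u s) = deriv u s := by ring
    rw [e]
    have := hb1 s (by linarith)
    linarith
  · have e : (fun z => deriv E z / E z) =ᶠ[𝓝 s] fun z =>
        1 / (z - 1) - PSum W (fun p => β p * Real.log p) z + deriv u z :=
      Filter.eventuallyEq_of_mem ((ho 1).mem_nhds hs) fun z hz => hd1 z hz
    have hmem : {s : ℂ | 1 / 2 < s.re} ∈ 𝓝 s := (ho _).mem_nhds (by change 1 / 2 < s.re; linarith)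
    have h1 : HasDerivAt E (deriv E s) s := (h.diff.differentiableAt hmem).hasDerivAt
    have h2 : HasDerivAt (deriv E) (deriv (deriv E) s) s :=
      ((h.diff.deriv (ho _)).differentiableAt hmem).hasDerivAt
    have h3 : HasDerivAt (deriv u) (deriv (deriv u) s) s :=
      (hu'.differentiableAt ((ho _).mem_nhds (by change 3 / 4 < s.re; linarith))).hasDerivAt
    have h4 := h2.div h1 (hne s hs)
    have h5 := (((hasDerivAt_const s (1 : ℂ)).div ((hasDerivAt_id s).sub_const 1) (hs1 s hs)).sub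
      (hm.hasDerivAt_PSum_log hs)).add h3
    have h6 := h4.unique (h5.congr_of_eventuallyEq e)
    have h7 := hne s hs
    have h8 := hs1 s hs
    have e2 : deriv (deriv E) s / E s - (deriv E s / E s) ^ 2 =
        (deriv (deriv E) s * E s - deriv E s * deriv E s) / E s ^ 2 := by
      field_simp
    have e3 : PSum W (fun p => β p * Real.log p ^ 2) s - 1 / (s - 1) ^ 2 -
        (deriv (deriv E) s / E s - (deriv E s / E s) ^ 2) = -deriv (deriv u) s := by
      rw [e2, h6]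
      simp only [id]
      ring
    rw [e3, norm_neg]
    have := hb2 s hs
    linarith

/-- Sketch: `log_deriv`, `lower`, `Cont.poly`, `Cont.deriv_poly`; with `T = 2 + |t| ≤ 2 (1 + |t|)`:
`|log ‖E s‖| ≤ C + 13 log T`, `‖E' / E‖ ≤ C T ^ 16`, `‖E'' / E‖ ≤ C T ^ 17`; take `k = 32`. -/
theorem psdata_of_cont (h : Cont β E) (hm : Mu W β) (h1 : E 1 ≠ 0) : PSdata W β := by
  obtain ⟨C₀, hC₀, h0⟩ := log_deriv h hm
  obtain ⟨c, hc, hl⟩ := lower h hm h1
  obtain ⟨C₁, hC₁, hp⟩ := h.poly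
  obtain ⟨C₂, hC₂, hd⟩ := h.deriv_poly
  set K : ℝ := C₂ / c with hK
  have hK0 : 0 ≤ K := by positivity
  have hl2 : 0 ≤ Real.log 2 := Real.log_nonneg one_le_two
  refine ⟨C₀ + |Real.log C₁| + |Real.log c| + 13 * Real.log 2 + 2 ^ 32 * (K + K ^ 2), 32,
    by positivity, fun s hs hs3 => ?_⟩
  obtain ⟨hne, g1, g2, g3⟩ := h0 s hs
  have ht := abs_nonneg s.im
  set T : ℝ := 2 + |s.im| with hT
  set Y : ℝ := 1 + |s.im| with hY
  have hT1 : 1 ≤ T := by linarith
  have hY1 : 1 ≤ Y := by linarith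
  have hTY : T ≤ 2 * Y := by linarith
  have hE0 : 0 < ‖E s‖ := norm_pos_iff.2 hne
  have hlo := hl s hs hs3
  have hup : ‖E s‖ ≤ C₁ * T ^ 2 := by
    refine hp s ?_ (by linarith)
    have : 0 ≤ 1 / (4 * T) := by positivity
    linarith
  obtain ⟨d1, d2⟩ := hd s hs.le hs3
  have hinv : 1 / ‖E s‖ ≤ T ^ 13 / c := by
    rw [div_le_iff₀ (by positivity)] at hlo
    rw [div_le_div_iff₀ hE0 hc]
    linarith
  have hpw : ∀ j : ℕ, j ≤ 32 → T ^ j ≤ 2 ^ 32 * Y ^ 32 := by
    intro j hj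
    calc T ^ j ≤ T ^ 32 := pow_le_pow_right₀ hT1 hj
      _ ≤ (2 * Y) ^ 32 := by gcongr
      _ = 2 ^ 32 * Y ^ 32 := mul_pow _ _ _
  have hY32 : 1 ≤ Y ^ 32 := one_le_pow₀ hY1
  have q1 : ‖deriv E s / E s‖ ≤ K * T ^ 16 := by
    rw [norm_div, div_eq_mul_one_div]
    calc ‖deriv E s‖ * (1 / ‖E s‖) ≤ C₂ * T ^ 3 * (T ^ 13 / c) := by gcongr
      _ = K * T ^ 16 := by rw [hK]; ring
  have q2 : ‖deriv (deriv E) s / E s‖ ≤ K * T ^ 17 := by
    rw [norm_div, div_eq_mul_one_div]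
    calc ‖deriv (deriv E) s‖ * (1 / ‖E s‖) ≤ C₂ * T ^ 4 * (T ^ 13 / c) := by gcongr
      _ = K * T ^ 17 := by rw [hK]; ring
  have q3 : ‖(deriv E s / E s) ^ 2‖ ≤ K ^ 2 * T ^ 32 := by
    rw [norm_pow]
    calc ‖deriv E s / E s‖ ^ 2 ≤ (K * T ^ 16) ^ 2 := by gcongr
      _ = K ^ 2 * T ^ 32 := by ring
  have r1 : K * T ^ 16 ≤ K * (2 ^ 32 * Y ^ 32) := by gcongr; exact hpw 16 (by norm_num)
  have r2 : K * T ^ 17 ≤ K * (2 ^ 32 * Y ^ 32) := by gcongr; exact hpw 17 (by norm_num)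
  have r3 : K ^ 2 * T ^ 32 ≤ K ^ 2 * (2 ^ 32 * Y ^ 32) := by gcongr; exact hpw 32 le_rfl
  have hA : 0 ≤ |Real.log C₁| + |Real.log c| + 13 * Real.log 2 := by positivity
  have hfin : C₀ + K * (2 ^ 32 * Y ^ 32) + K ^ 2 * (2 ^ 32 * Y ^ 32) ≤
      (C₀ + |Real.log C₁| + |Real.log c| + 13 * Real.log 2 + 2 ^ 32 * (K + K ^ 2)) * Y ^ 32 := by
    have a1 : C₀ ≤ C₀ * Y ^ 32 := le_mul_of_one_le_right hC₀ hY32
    have a2 : 0 ≤ (|Real.log C₁| + |Real.log c| + 13 * Real.log 2) * Y ^ 32 := by positivity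
    linarith
  have hK2 : 0 ≤ K ^ 2 * (2 ^ 32 * Y ^ 32) := by positivity
  refine ⟨?_, ?_, ?_⟩
  · have lT : Real.log T ≤ Real.log 2 + Real.log Y := by
      rw [← Real.log_mul two_ne_zero (by positivity)]
      exact Real.log_le_log (by positivity) hTY
    have lT0 : 0 ≤ Real.log T := Real.log_nonneg hT1
    have lY0 : 0 ≤ Real.log Y := Real.log_nonneg hY1
    have u1 : Real.log ‖E s‖ ≤ Real.log C₁ + 2 * Real.log T := by
      have := Real.log_le_log hE0 hup
      rwa [Real.log_mul (by positivity) (by positivity), Real.log_pow, Nat.cast_ofNat] at this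
    have u2 : Real.log c - 13 * Real.log T ≤ Real.log ‖E s‖ := by
      have := Real.log_le_log (by positivity) hlo
      rwa [Real.log_div hc.ne' (by positivity), Real.log_pow, Nat.cast_ofNat] at this
    have v1 := le_abs_self (Real.log C₁)
    have v2 := neg_abs_le (Real.log c)
    have v3 := abs_nonneg (Real.log C₁)
    have v4 := abs_nonneg (Real.log c)
    have v5 : (0 : ℝ) ≤ 2 ^ 32 * (K + K ^ 2) := by positivity
    rw [abs_le] at g1 ⊢
    rw [Nat.cast_ofNat]
    constructor <;> linarith [g1.1, g1.2]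
  · have := norm_sub_le (PSum W (fun p => β p * Real.log p) s - 1 / (s - 1) + deriv E s / E s)
      (deriv E s / E s)
    rw [add_sub_cancel_right] at this
    linarith
  · have a1 := norm_add_le (PSum W (fun p => β p * Real.log p ^ 2) s - 1 / (s - 1) ^ 2 -
      (deriv (deriv E) s / E s - (deriv E s / E s) ^ 2))
      (deriv (deriv E) s / E s - (deriv E s / E s) ^ 2)
    rw [sub_add_cancel] at a1
    have a2 := norm_sub_le (deriv (deriv E) s / E s) ((deriv E s / E s) ^ 2)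
    linarith

theorem psdata_congr {a a' : ℕ → ℝ} (h : PSdata W a)
    (he : ∀ p : ℕ, p.Prime → ¬ p ∣ W → a p = a' p) : PSdata W a' := by
  have key : ∀ (w : ℕ → ℝ) (s : ℂ),
      PSum W (fun p => a' p * w p) s = PSum W (fun p => a p * w p) s := by
    intro w s
    refine tsum_congr fun p => ?_
    split_ifs with hp
    · beta_reduce
      rw [he p hp.1 hp.2]
    · rfl
  obtain ⟨C, k, hC, h⟩ := h
  refine ⟨C, k, hC, fun s hs hs3 => ?_⟩
  have k1 := key (fun _ => 1) s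
  simp only [mul_one] at k1
  rw [key, key, k1]
  exact h s hs hs3

end Pool.Agent.Lib.MP_03e5d0_nt.RS
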