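import Pool.Agent.Lib.MP_03e5d0_nt.RSDefs

/-! A bound for the inverse of the Gamma function. -/

set_option autoImplicit false

noncomputable section

namespace Pool.Agent.Lib.MP_03e5d0_nt.RS

open scoped UpperHalfPlane Real MatrixGroups ENNReal Topology
open Complex MeasureTheory Filter

/-- Sketch: `Complex.Gamma_eq_integral`, `norm_integral_le_integral_norm`,
`Real.Gamma_eq_integral`. -/
theorem norm_Gamma_le {s : ℂ} (hs : 0 < s.re) : ‖Gamma s‖ ≤ Real.Gamma s.re := by
  rw [Complex.Gamma_eq_integral hs, Real.Gamma_eq_integral hs, GammaIntegral]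
  refine (norm_integral_le_integral_norm _).trans (le_of_eq ?_)
  refine setIntegral_congr_fun measurableSet_Ioi fun x hx => ?_
  simp only [norm_mul, Complex.norm_real, Real.norm_of_nonneg (Real.exp_nonneg _)]
  rw [Complex.norm_cpow_eq_rpow_re_of_pos hx]
  simp

theorem norm_sin_le (z : ℂ) : ‖Complex.sin z‖ ≤ Real.exp |z.im| := by
  have h1 : ‖cexp (-z * I)‖ ≤ Real.exp |z.im| := by
    rw [Complex.norm_exp]
    exact Real.exp_le_exp.2 (by simpa using le_abs_self z.im)
  have h2 : ‖cexp (z * I)‖ ≤ Real.exp |z.im| := by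
    rw [Complex.norm_exp]
    exact Real.exp_le_exp.2 (by simpa using neg_le_abs z.im)
  have h3 := norm_sub_le (cexp (-z * I)) (cexp (z * I))
  rw [Complex.sin, norm_div, norm_mul, Complex.norm_I, mul_one, Complex.norm_two]
  linarith

/-- Sketch: for `|im s| ≤ 1` compactness and `Complex.differentiable_one_div_Gamma`. Otherwise
`Complex.Gamma_mul_Gamma_one_sub`: `(Γ s)⁻¹ = Γ (1 - s) sin (π s) / π`, and
`Γ (6 - s) = (5 - s) (4 - s) (3 - s) (2 - s) (1 - s) Γ (1 - s)` where each linear factor has norm at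
least one; `Real.Gamma` is bounded on `[1, 6]` by continuity. -/
theorem norm_inv_Gamma_le : ∃ C : ℝ, 1 ≤ C ∧ ∀ s : ℂ, 3 / 4 ≤ s.re → s.re ≤ 5 →
    ‖(Gamma s)⁻¹‖ ≤ C * Real.exp (4 * |s.im|) := by
  obtain ⟨C₁, h₁⟩ := (isCompact_closedBall (0 : ℂ) 6).exists_bound_of_continuousOn
    Complex.differentiable_one_div_Gamma.continuous.continuousOn
  have hc : ContinuousOn Real.Gamma (Set.Icc 1 6) := fun x hx =>
    (Real.differentiableAt_Gamma fun m hm => by
      have h1 := hx.1
      have h2 : (0 : ℝ) ≤ m := Nat.cast_nonneg m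
      linarith).continuousAt.continuousWithinAt
  obtain ⟨C₂, h₂⟩ := isCompact_Icc.exists_bound_of_continuousOn hc
  refine ⟨max 1 (max C₁ C₂), le_max_left _ _, fun s h1 h2 => ?_⟩
  have hE : 1 ≤ Real.exp (4 * |s.im|) := Real.one_le_exp (by positivity)
  have hM : 0 ≤ max 1 (max C₁ C₂) := zero_le_one.trans (le_max_left _ _)
  rcases le_total |s.im| 1 with h | h
  · have h3 : s ∈ Metric.closedBall (0 : ℂ) 6 := by
      rw [mem_closedBall_zero_iff]
      refine (Complex.norm_le_abs_re_add_abs_im s).trans ?_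
      rw [abs_of_nonneg (by linarith)]
      linarith
    refine (h₁ s h3).trans (le_trans ?_ (le_mul_of_one_le_right hM hE))
    exact (le_max_left _ _).trans (le_max_right _ _)
  · have step : ∀ z : ℂ, 1 ≤ |z.im| → ‖Gamma z‖ ≤ ‖Gamma (z + 1)‖ := by
      intro z hz
      have hz0 : z ≠ 0 := by
        rintro rfl
        simp at hz
        linarith
      rw [Complex.Gamma_add_one z hz0, norm_mul]
      exact le_mul_of_one_le_left (norm_nonneg _) (hz.trans (Complex.abs_im_le_norm z))
    have iter : ∀ (n : ℕ) (z : ℂ), 1 ≤ |z.im| → ‖Gamma z‖ ≤ ‖Gamma (z + n)‖ := by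
      intro n z hz
      induction n with
      | zero => simp
      | succ n ih =>
        refine ih.trans ((step (z + n) (by simpa using hz)).trans (le_of_eq ?_))
        push_cast
        rw [add_assoc]
    have h3 := iter 5 (1 - s) (by simpa using h)
    have h4 : (1 - s + (5 : ℕ)).re = 6 - s.re := by simp; ring
    have h5 := norm_Gamma_le (s := 1 - s + (5 : ℕ)) (by rw [h4]; linarith)
    rw [h4] at h5
    have h6 := (le_abs_self _).trans (h₂ (6 - s.re) ⟨by linarith, by linarith⟩)
    have h7 : ‖Gamma (1 - s)‖ ≤ max 1 (max C₁ C₂) :=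
      (h3.trans (h5.trans h6)).trans ((le_max_right _ _).trans (le_max_right _ _))
    have hG : Gamma s ≠ 0 := Complex.Gamma_ne_zero_of_re_pos (by linarith)
    have hπ : (π : ℂ) ≠ 0 := by exact_mod_cast Real.pi_ne_zero
    have hsin : Complex.sin (π * s) ≠ 0 := by
      intro h0
      obtain ⟨k, hk⟩ := Complex.sin_eq_zero_iff.1 h0
      rw [mul_comm] at hk
      have h8 := congrArg Complex.im (mul_right_cancel₀ hπ hk)
      simp at h8
      rw [h8] at h
      simp at h
      linarith
    have e : (Gamma s)⁻¹ = Gamma (1 - s) * Complex.sin (π * s) / π := by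
      have h8 := Complex.Gamma_mul_Gamma_one_sub s
      rw [eq_div_iff hsin] at h8
      rw [eq_div_iff hπ, inv_mul_eq_iff_eq_mul₀ hG, ← mul_assoc]
      exact h8.symm
    have h8 : ‖Complex.sin (π * s)‖ ≤ Real.exp (4 * |s.im|) := by
      refine (norm_sin_le _).trans (Real.exp_le_exp.2 ?_)
      have : ((π : ℂ) * s).im = π * s.im := by simp
      rw [this, abs_mul, abs_of_pos Real.pi_pos]
      exact mul_le_mul_of_nonneg_right Real.pi_le_four (abs_nonneg _)
    rw [e, norm_div, norm_mul, Complex.norm_real, Real.norm_of_nonneg Real.pi_pos.le]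
    refine (div_le_self (by positivity) (by linarith [Real.pi_gt_three])).trans ?_
    exact mul_le_mul h7 h8 (norm_nonneg _) hM

/-- Bookkeeping for the exponential bound. -/
theorem exp_bound {E : ℂ → ℂ} {C D : ℝ}
    (h : ∀ s : ℂ, 3 / 4 ≤ s.re → s.re ≤ 4 → ‖E s‖ ≤ C * (1 + |s.im|) * Real.exp (D * |s.im|)) :
    ∃ C' : ℝ, 1 ≤ C' ∧ ∀ s : ℂ, 3 / 4 ≤ s.re → s.re ≤ 4 → ‖E s‖ ≤ C' * Real.exp (C' * |s.im|) := by
  refine ⟨|C| + |D| + 1, by linarith [abs_nonneg C, abs_nonneg D], fun s h1 h2 => (h s h1 h2).trans ?_⟩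
  have t0 := abs_nonneg s.im
  have c0 := abs_nonneg C
  have d0 := abs_nonneg D
  have e1 : 1 + |s.im| ≤ Real.exp |s.im| := by linarith [Real.add_one_le_exp |s.im|]
  calc C * (1 + |s.im|) * Real.exp (D * |s.im|)
      ≤ |C| * (1 + |s.im|) * Real.exp (D * |s.im|) := by gcongr; exact le_abs_self C
    _ ≤ (|C| + |D| + 1) * Real.exp |s.im| * Real.exp (D * |s.im|) := by gcongr; linarith
    _ = (|C| + |D| + 1) * Real.exp ((1 + D) * |s.im|) := by
        rw [mul_assoc, ← Real.exp_add]; congr 2; ring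
    _ ≤ _ := mul_le_mul_of_nonneg_left (Real.exp_le_exp.2
        (mul_le_mul_of_nonneg_right (by linarith [le_abs_self D]) t0)) (by linarith)

end Pool.Agent.Lib.MP_03e5d0_nt.RS
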