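import Pool.Agent.Lib.MP_03e5d0_nt.RSDefs

/-! Mellin transform of a function with a pole. -/

set_option autoImplicit false

noncomputable section

namespace Pool.Agent.Lib.MP_03e5d0_nt.RS

open scoped UpperHalfPlane Real MatrixGroups ENNReal Topology
open Complex MeasureTheory Filter

/-- The polar part. -/
def rsmelP (t : ℝ) : ℂ := Set.indicator (Set.Ioc 0 1) (fun t : ℝ => (t : ℂ) ^ (-1 : ℂ)) t

theorem rsmel_loc {Θ : ℝ → ℝ} {κ : ℝ} (h : Pole Θ κ) :
    LocallyIntegrableOn (fun t => (Θ t : ℂ) - κ * rsmelP t) (Set.Ioi 0) := by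
  rw [locallyIntegrableOn_iff isOpen_Ioi.isLocallyClosed]
  intro k hk hc
  have h1 : IntegrableOn (fun t => (Θ t : ℂ)) k :=
    (AntitoneOn.integrableOn_isCompact hc (h.anti.mono hk)).ofReal
  have h2 : ContinuousOn (fun t : ℝ => (t : ℂ) ^ (-1 : ℂ)) k := by
    simp only [cpow_neg_one]
    exact continuous_ofReal.continuousOn.inv₀ fun t ht => ofReal_ne_zero.2 (ne_of_gt (hk ht))
  have h3 : IntegrableOn rsmelP k := (h2.integrableOn_compact hc).indicator measurableSet_Ioc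
  exact h1.sub (h3.const_mul _)

theorem rsmel_top {Θ : ℝ → ℝ} {κ : ℝ} (h : Pole Θ κ) (A : ℕ) :
    (fun t => (Θ t : ℂ) - κ * rsmelP t) =O[atTop] (· ^ (-(A : ℝ))) := by
  obtain ⟨C, hC⟩ := h.top A
  refine Asymptotics.IsBigO.of_bound C ?_
  filter_upwards [eventually_gt_atTop 1] with t ht
  have h0 : 0 < t := zero_lt_one.trans ht
  rw [rsmelP, Set.indicator_of_notMem (fun hm => absurd hm.2 (not_le.2 ht)), mul_zero, sub_zero,
    norm_real, Real.norm_eq_abs, Real.norm_eq_abs, abs_of_pos (Real.rpow_pos_of_pos h0 _),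
    Real.rpow_neg h0.le, Real.rpow_natCast, ← div_eq_mul_inv]
  exact hC t ht.le

theorem rsmel_bot {Θ : ℝ → ℝ} {κ : ℝ} (h : Pole Θ κ) :
    (fun t => (Θ t : ℂ) - κ * rsmelP t) =O[𝓝[>] 0] (· ^ (-(1 / 2 : ℝ))) := by
  obtain ⟨C, hC⟩ := h.zero
  refine Asymptotics.IsBigO.of_bound C ?_
  filter_upwards [Ioc_mem_nhdsGT (zero_lt_one' ℝ)] with t ht
  have e : (Θ t : ℂ) - κ * rsmelP t = ((Θ t - κ / t : ℝ) : ℂ) := by
    rw [rsmelP, Set.indicator_of_mem ht, cpow_neg_one]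
    push_cast
    rw [div_eq_mul_inv]
  rw [e, norm_real, Real.norm_eq_abs, Real.norm_eq_abs,
    abs_of_pos (Real.rpow_pos_of_pos ht.1 _), Real.rpow_neg ht.1.le, ← div_eq_mul_inv,
    ← Real.sqrt_eq_rpow]
  exact hC t ht.1 ht.2

theorem rsmel_bound {f : ℝ → ℂ} {a b : ℝ} (ha : MellinConvergent f a) (hb : MellinConvergent f b) :
    ∃ C : ℝ, 0 ≤ C ∧ ∀ s : ℂ, a ≤ s.re → s.re ≤ b → ‖mellin f s‖ ≤ C := by
  refine ⟨∫ t in Set.Ioi (0 : ℝ), (‖(t : ℂ) ^ ((a : ℂ) - 1) • f t‖ + ‖(t : ℂ) ^ ((b : ℂ) - 1) • f t‖),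
    integral_nonneg fun t => by positivity, fun s h1 h2 => ?_⟩
  refine norm_integral_le_of_norm_le (ha.norm.add hb.norm) ?_
  refine (ae_restrict_iff' measurableSet_Ioi).2 (Eventually.of_forall fun t ht => ?_)
  have h0 : 0 < t := ht
  simp only [norm_smul, norm_cpow_eq_rpow_re_of_pos h0, sub_re, ofReal_re, one_re]
  rw [← add_mul]
  refine mul_le_mul_of_nonneg_right ?_ (norm_nonneg _)
  rcases le_total t 1 with h | h
  · exact le_add_of_le_of_nonneg (Real.rpow_le_rpow_of_exponent_ge h0 h (by linarith))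
      (Real.rpow_nonneg h0.le _)
  · exact le_add_of_nonneg_of_le (Real.rpow_nonneg h0.le _)
      (Real.rpow_le_rpow_of_exponent_le h (by linarith))

/-- Sketch: `Θ₀ t = Θ t - indicator (Ioc 0 1) (κ / t)` is locally integrable on `Ioi 0`
(`AntitoneOn.locallyIntegrableOn`-type lemma: `AntitoneOn.integrableOn_isCompact`), `O(t ^ (-1/2))` at
zero and `O(t ^ (-A))` at infinity. Put `Λ s = (s - 1) * mellin Θ₀ s + κ`. Use
`mellin_differentiableAt_of_isBigO_rpow`, `hasMellin_cpow_Ioc (-1)`, `HasMellin` additivity. For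
the bound: `t ^ (σ - 1) ≤ t ^ (-1/4) + t ^ 3`, so `‖mellin Θ₀ s‖` is at most the sum of the integrals
of the norms at `s = 3/4` and `s = 4`. -/
theorem Pole.cont {Θ : ℝ → ℝ} {κ : ℝ} (h : Pole Θ κ) :
    ∃ Λ : ℂ → ℂ, DifferentiableOn ℂ Λ {s | 1 / 2 < s.re} ∧ Λ 1 = κ ∧
      (∀ s : ℂ, 1 < s.re → Λ s = (s - 1) * mellin (fun t => (Θ t : ℂ)) s) ∧
      ∃ C : ℝ, 0 ≤ C ∧ ∀ s : ℂ, 3 / 4 ≤ s.re → s.re ≤ 4 → ‖Λ s‖ ≤ C * (1 + |s.im|) := by
  have hA : ∀ s : ℂ, s.re < ((⌊s.re⌋₊ + 1 : ℕ) : ℝ) := fun s => by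
    push_cast
    exact Nat.lt_floor_add_one _
  have hconv : ∀ s : ℂ, 1 / 2 < s.re → MellinConvergent (fun t => (Θ t : ℂ) - κ * rsmelP t) s :=
    fun s hs => mellinConvergent_of_isBigO_rpow (rsmel_loc h) (rsmel_top h _) (hA s)
      (rsmel_bot h) hs
  refine ⟨fun s => (s - 1) * mellin (fun t => (Θ t : ℂ) - κ * rsmelP t) s + κ, fun s hs => ?_,
    by simp, fun s hs => ?_, ?_⟩
  · have h1 := mellin_differentiableAt_of_isBigO_rpow (rsmel_loc h) (rsmel_top h _) (hA s)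
      (rsmel_bot h) hs
    exact (((differentiableAt_id.sub_const 1).mul h1).add_const _).differentiableWithinAt
  · have h1 : HasMellin rsmelP s (1 / (s + -1)) := hasMellin_cpow_Ioc (-1) (by simp; linarith)
    have h2 := hasMellin_const_smul h1.1 (κ : ℂ)
    have h3 := (hasMellin_add (hconv s (by linarith)) h2.1).2
    simp only [smul_eq_mul, sub_add_cancel] at h2 h3
    have h4 : s + -1 ≠ 0 := fun e => by
      have := congrArg Complex.re e
      simp at this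
      linarith
    rw [h3, h2.2, h1.2, sub_eq_add_neg s 1]
    field_simp
    ring
  · obtain ⟨C, hC, hb⟩ := rsmel_bound (a := 3 / 4) (b := 4) (hconv _ (by rw [ofReal_re]; norm_num))
      (hconv _ (by rw [ofReal_re]; norm_num))
    refine ⟨3 * C + |κ|, by positivity, fun s h1 h2 => ?_⟩
    have h3 : ‖s - 1‖ ≤ 3 + |s.im| := by
      refine (norm_le_abs_re_add_abs_im _).trans ?_
      simp only [sub_re, one_re, sub_im, one_im, sub_zero]
      exact add_le_add_left (abs_le.2 ⟨by linarith, by linarith⟩) _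
    refine (norm_add_le _ _).trans ?_
    rw [norm_mul, norm_real, Real.norm_eq_abs]
    have h4 := mul_le_mul h3 (hb s h1 h2) (norm_nonneg _) (by positivity)
    nlinarith [abs_nonneg s.im, abs_nonneg κ, mul_nonneg hC (abs_nonneg s.im),
      mul_nonneg (abs_nonneg κ) (abs_nonneg s.im)]

end Pool.Agent.Lib.MP_03e5d0_nt.RS
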