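import Pool.Agent.Lib.MP_03e5d0_nt.RSSer
import Pool.Agent.Lib.MP_03e5d0_nt.RSMel
import Pool.Agent.Lib.MP_03e5d0_nt.RSGam

/-! Continuation of the depleted zeta function. -/

set_option autoImplicit false

noncomputable section

namespace Pool.Agent.Lib.MP_03e5d0_nt.RS

open scoped UpperHalfPlane Real MatrixGroups ENNReal Topology
open Complex MeasureTheory Filter

theorem rszeta_summable (W : ℕ) {t : ℝ} (ht : 0 < t) :
    Summable fun n : ℕ => ind W n * Real.exp (-(n : ℝ) * t) := by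
  refine Summable.of_nonneg_of_le (fun n => mul_nonneg (ind_nonneg _ _) (Real.exp_pos _).le)
    (fun n => ?_) (Real.summable_exp_nat_mul_iff.2 (neg_lt_zero.2 ht))
  rw [mul_neg, ← neg_mul]
  exact mul_le_of_le_one_left (Real.exp_pos _).le (ind_le _ _)

theorem rszeta_hp {W : ℕ} (hW : 2 ≤ W) (n : ℕ) : ind W n = 0 ∨ (0 : ℝ) < n := by
  rcases Nat.eq_zero_or_pos n with rfl | h
  · exact Or.inl (ind_zero hW)
  · exact Or.inr (Nat.cast_pos.2 h)

theorem rszeta_rpow (W : ℕ) {σ : ℝ} (h : 1 < σ) : Summable fun n : ℕ => ind W n / (n : ℝ) ^ σ :=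
  Summable.of_nonneg_of_le (fun n => div_nonneg (ind_nonneg _ _) (by positivity))
    (fun n => div_le_div_of_nonneg_right (ind_le _ _) (by positivity))
    (Real.summable_one_div_nat_rpow.2 h)

/-- Sketch: `Summable.sum_add_tsum_nat_add W` and `ind W (n + W) = ind W n`. -/
theorem es_ind_eq {W : ℕ} (hW : 2 ≤ W) {t : ℝ} (ht : 0 < t) :
    ES (ind W) (fun n => n) t * (1 - Real.exp (-(W * t))) =
      ∑ r ∈ Finset.range W, ind W r * Real.exp (-(r : ℝ) * t) := by
  have h := (rszeta_summable W ht).sum_add_tsum_nat_add W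
  have e : ∀ n : ℕ, ind W (n + W) * Real.exp (-((n + W : ℕ) : ℝ) * t) =
      ind W n * Real.exp (-(n : ℝ) * t) * Real.exp (-(W * t)) := by
    intro n
    rw [mul_assoc, ← Real.exp_add]
    simp only [ind, Nat.coprime_add_self_left]
    push_cast
    ring_nf
  simp only [e, tsum_mul_right] at h
  unfold ES
  linarith

/-- Sketch: for `0 ≤ x ≤ u`, `0 < u`: `1 / u - 1 ≤ exp (-x) / (1 - exp (-u)) ≤ 1 / u + 1`, from
`1 - u ≤ exp (-u)` and `1 + u ≤ exp u`. -/
theorem abs_geom_sub {x u : ℝ} (hx : 0 ≤ x) (hxu : x ≤ u) (hu : 0 < u) :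
    |Real.exp (-x) / (1 - Real.exp (-u)) - 1 / u| ≤ 1 := by
  have h1 := Real.add_one_le_exp (-u)
  have h2 := Real.add_one_le_exp u
  have h3 : Real.exp (-u) < 1 := Real.exp_lt_one_iff.2 (by linarith)
  have h4 : Real.exp (-x) ≤ 1 := Real.exp_le_one_iff.2 (by linarith)
  have h5 : Real.exp (-u) ≤ Real.exp (-x) := Real.exp_le_exp.2 (by linarith)
  have h6 : Real.exp (-u) * Real.exp u = 1 := by rw [← Real.exp_add, neg_add_cancel, Real.exp_zero]
  have h7 := mul_le_mul_of_nonneg_left h2 (Real.exp_pos (-u)).le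
  have h8 : 0 < 1 - Real.exp (-u) := by linarith
  rw [abs_le, le_sub_iff_add_le, sub_le_iff_le_add, le_div_iff₀ h8, div_le_iff₀ h8]
  have e1 : -1 + 1 / u = (1 - u) / u := by field_simp; ring
  have e2 : 1 + 1 / u = (1 + u) / u := by field_simp; ring
  rw [e1, e2, div_mul_eq_mul_div, div_mul_eq_mul_div, div_le_iff₀ hu, le_div_iff₀ hu]
  constructor <;> nlinarith

/-- Sketch: `es_ind_eq`, `abs_geom_sub`, `es_anti`, `es_bound` with the exponent `A + 2`. -/
theorem pole_ind {W : ℕ} (hW : 2 ≤ W) :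
    Pole (ES (ind W) fun n => n) ((∑ r ∈ Finset.range W, ind W r) / W) := by
  have W0 : (0 : ℝ) < W := Nat.cast_pos.2 (by omega)
  refine ⟨es_anti (ind_nonneg W) (fun n => Nat.cast_nonneg n) fun y hy => rszeta_summable W hy,
    ⟨W, fun t ht h1 => ?_⟩, fun A => ?_⟩
  · have h3 : Real.exp (-(W * t)) < 1 := Real.exp_lt_one_iff.2 (neg_lt_zero.2 (mul_pos W0 ht))
    rw [eq_div_of_mul_eq (sub_pos.2 h3).ne' (es_ind_eq hW ht), div_div, Finset.sum_div,
      Finset.sum_div, ← Finset.sum_sub_distrib]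
    refine (Finset.abs_sum_le_sum_abs _ _).trans ((Finset.sum_le_card_nsmul _ _ 1 fun r hr =>
      ?_).trans ?_)
    · have := abs_geom_sub (x := r * t) (u := W * t) (by positivity)
        (mul_le_mul_of_nonneg_right (Nat.cast_le.2 (Finset.mem_range.1 hr).le) ht.le)
        (mul_pos W0 ht)
      rw [mul_div_assoc, div_eq_mul_one_div (ind W r), ← mul_sub, abs_mul, neg_mul,
        abs_of_nonneg (ind_nonneg _ _)]
      exact mul_le_one₀ (ind_le _ _) (abs_nonneg _) this
    · rw [Finset.card_range, nsmul_eq_mul, mul_one]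
      exact le_div_self W0.le (Real.sqrt_pos.2 ht) (Real.sqrt_le_one.2 h1)
  · have hs : Summable fun n : ℕ => ind W n / (n : ℝ) ^ (A + 2) := by
      have h2 : (0 : ℝ) ≤ A := Nat.cast_nonneg A
      simpa only [Real.rpow_natCast] using
        rszeta_rpow W (σ := (A + 2 : ℕ)) (by push_cast; linarith)
    refine ⟨(A + 2).factorial * ∑' n : ℕ, ind W n / (n : ℝ) ^ (A + 2), fun t ht => ?_⟩
    rw [abs_of_nonneg (es_nonneg (ind_nonneg W) t)]
    exact (es_bound (ind_nonneg W) (rszeta_hp hW) hs (by linarith)).2.trans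
      (div_le_div_of_nonneg_left (mul_nonneg (Nat.cast_nonneg _) (tsum_nonneg fun n =>
        div_nonneg (ind_nonneg _ _) (by positivity))) (by positivity)
        (pow_le_pow_right₀ ht (by omega)))

/-- Sketch: `E s = Λ s * (Γ s)⁻¹`, `es_mellin`. -/
theorem cont_ind {W : ℕ} (hW : 2 ≤ W) : ∃ E : ℂ → ℂ, Cont (ind W) E ∧ E 1 ≠ 0 := by
  obtain ⟨Λ, h1, h2, h3, C, hC, h4⟩ := (pole_ind hW).cont
  obtain ⟨C', hC', h5⟩ := norm_inv_Gamma_le
  refine ⟨fun s => Λ s * (Gamma s)⁻¹, ⟨ind_nonneg W,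
    h1.mul differentiable_one_div_Gamma.differentiableOn, fun s hs => ?_, fun s hs => ?_,
    exp_bound (C := C * C') (D := 4) fun s a1 a2 => ?_⟩, ?_⟩
  · refine LSeriesSummable_of_bounded_of_one_lt_re (m := 1) (fun n _ => ?_) hs
    rw [norm_real, Real.norm_of_nonneg (ind_nonneg _ _)]
    exact ind_le _ _
  · have h0 : 0 < s.re := by linarith
    have := (es_mellin (ind_nonneg W) (rszeta_hp hW) (fun y hy => rszeta_summable W hy) h0
      (rszeta_rpow W hs)).tsum_eq
    simp only [mul_div_assoc, tsum_mul_left] at this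
    rw [h3 s hs, ← this, mul_assoc, mul_right_comm, mul_inv_cancel₀ (Gamma_ne_zero_of_re_pos h0),
      one_mul, LSeries]
    congr 2
    funext n
    rw [LSeries.term_def₀ (by simp [ind_zero hW]), cpow_neg, div_eq_mul_inv, ofReal_natCast]
  · rw [norm_mul]
    exact (mul_le_mul (h4 s a1 a2) (h5 s a1 (by linarith)) (norm_nonneg _)
      (by positivity)).trans_eq (by ring)
  · simp only [h2, Gamma_one, inv_one, mul_one]
    refine ofReal_ne_zero.2 (div_pos ?_ (Nat.cast_pos.2 (by omega))).ne'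
    exact Finset.sum_pos' (fun n _ => ind_nonneg _ _)
      ⟨1, Finset.mem_range.2 (by omega), by rw [ind_one]; exact one_pos⟩

end Pool.Agent.Lib.MP_03e5d0_nt.RS
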