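import Pool.Agent.Lib.MP_03e5d0_nt.RSCont
import Pool.Agent.Lib.MP_03e5d0_nt.RSZeta
import Pool.Agent.Lib.MP_03e5d0_nt.RSPS
import Pool.Agent.Lib.MP_03e5d0_nt.RSDep

/-! The results of the Rankin-Selberg block. -/

set_option autoImplicit false

noncomputable section

namespace Pool.Agent.Lib.MP_03e5d0_nt.RS

open scoped UpperHalfPlane Real MatrixGroups ENNReal Topology
open Complex MeasureTheory Filter

/-- A cusp form of Mathlib gives an unbundled one. Sketch: `SlashInvariantForm.slash_action_eqn'`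
or `slash_action_eqn_SL''`, `CuspFormClass.exists_bound`, `CuspFormClass.qExpansion_coeff_zero`
or `zero_at_infty`, `UpperHalfPlane.hasSum_qExpansion`. -/
theorem CF.of_cuspForm {N : ℕ} [NeZero N] (f : CuspForm (CongruenceSubgroup.Gamma0 N) 2) :
    CF N f fun n => (UpperHalfPlane.qExpansion 1 f).coeff n := by
  have hper : (1 : ℝ) ∈ (CongruenceSubgroup.Gamma0 N : Subgroup (GL (Fin 2) ℝ)).strictPeriods := by
    rw [CongruenceSubgroup.strictPeriods_Gamma0]
    exact AddSubgroup.mem_zmultiples 1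
  refine ⟨fun a b c' d hdet hdvd z w hw => ?_, ?_,
    CuspFormClass.qExpansion_coeff_zero f one_pos hper, fun z => ?_⟩
  · let γ : SL(2, ℤ) := ⟨!![a, b; c', d], by rw [Matrix.det_fin_two_of]; exact hdet⟩
    have hγ : γ ∈ CongruenceSubgroup.Gamma0 N := by
      rw [CongruenceSubgroup.Gamma0_mem]
      exact (ZMod.intCast_zmod_eq_zero_iff_dvd c' N).2 hdvd
    have e : w = γ • z := by
      apply UpperHalfPlane.ext
      rw [hw, UpperHalfPlane.coe_specialLinearGroup_apply]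
      simp [γ]
    have h1 := SlashInvariantForm.slash_action_eqn_SL'' f hγ z
    rw [e, h1, ModularGroup.denom_apply]
    simp [γ]
  · obtain ⟨C, hC⟩ := CuspFormClass.exists_bound f
    refine ⟨C, fun z => ?_⟩
    have h1 := hC z
    have h2 : (((2 : ℤ) : ℝ) / 2 : ℝ) = 1 := by norm_num
    rw [h2, Real.rpow_one, le_div_iff₀ z.im_pos] at h1
    rw [mul_comm]
    exact h1
  · have : Fact (IsCusp OnePoint.infty (CongruenceSubgroup.Gamma0 N : Subgroup (GL (Fin 2) ℝ))) :=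
      ⟨Subgroup.isCusp_of_mem_strictPeriods one_pos hper⟩
    have h1 := ModularForm.hasSum_qExpansion f one_pos hper z
    convert h1 using 3 with n
    rw [Function.Periodic.qParam, ← Complex.exp_nat_mul]
    congr 1
    push_cast
    ring

/-- Prime sums weighted by the squares of the eigenvalues. Sketch: `β n = ‖c n‖ ^ 2 / n`,
`(k + 1) ^ 2 ≤ 4 ^ k`, `CF.cont`, `psdata_of_cont`, `psdata_congr`. -/
theorem psdata_sq {W M : ℕ} {lam : ℕ → ℝ} {g : ℍ → ℂ} {c : ℕ → ℂ} (hM : 0 < M) (h : CF M g c)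
    (hbig : ∀ p : ℕ, p.Prime → ¬ p ∣ W → 10000 ≤ p)
    (hc : ∀ n : ℕ, ‖c n‖ ^ 2 = if n.Coprime W then lam n ^ 2 * n else 0) (h1 : lam 1 = 1)
    (hmul : ∀ m n : ℕ, m.Coprime n → lam (m * n) = lam m * lam n)
    (hle : ∀ p k : ℕ, p.Prime → ¬ p ∣ W → |lam (p ^ k)| ≤ k + 1) :
    PSdata W fun p => lam p ^ 2 := by
  have hβ : ∀ n : ℕ, ‖c n‖ ^ 2 / n = if n.Coprime W ∧ n ≠ 0 then lam n ^ 2 else 0 := by
    intro n
    rw [hc n]
    by_cases h0 : n = 0
    · simp [h0]
    · by_cases h2 : n.Coprime W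
      · rw [if_pos h2, if_pos ⟨h2, h0⟩, mul_div_cancel_right₀ _ (Nat.cast_ne_zero.2 h0)]
      · rw [if_neg h2, if_neg fun h3 => h2 h3.1, zero_div]
  obtain ⟨E, hE, hE1⟩ := h.cont hM
  have hc1 : c 1 ≠ 0 := by
    intro h0
    have h2 := hc 1
    rw [h0, if_pos (Nat.coprime_one_left W), h1] at h2
    norm_num at h2
  have hm : Mu W fun n => ‖c n‖ ^ 2 / n := by
    refine ⟨hbig, hE.nonneg, ?_, fun n hn => ?_, fun m n hmn => ?_, fun p k hp => ?_⟩
    · rw [hβ, if_pos ⟨Nat.coprime_one_left W, one_ne_zero⟩, h1, one_pow]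
    · rw [hβ, if_neg fun h3 => hn h3.1]
    · rw [hβ, hβ, hβ, hmul m n hmn]
      by_cases h2 : m.Coprime W ∧ m ≠ 0
      · by_cases h3 : n.Coprime W ∧ n ≠ 0
        · rw [if_pos h2, if_pos h3,
            if_pos ⟨Nat.Coprime.mul_left h2.1 h3.1, mul_ne_zero h2.2 h3.2⟩, mul_pow]
        · rw [if_neg h3, mul_zero, if_neg]
          exact fun h4 => h3 ⟨Nat.Coprime.coprime_mul_left h4.1, right_ne_zero_of_mul h4.2⟩
      · rw [if_neg h2, zero_mul, if_neg]
        exact fun h4 => h2 ⟨Nat.Coprime.coprime_mul_right h4.1, left_ne_zero_of_mul h4.2⟩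
    · rw [hβ]
      split_ifs with h2
      · rcases Nat.eq_zero_or_pos k with rfl | hk
        · rw [pow_zero, h1, one_pow, pow_zero]
        · have h3 : ¬ p ∣ W :=
            hp.coprime_iff_not_dvd.1 ((Nat.coprime_pow_left_iff hk p W).1 h2.1)
          have h4 := hle p k hp h3
          have h5 : (k : ℝ) + 1 ≤ 2 ^ k := by exact_mod_cast Nat.lt_two_pow_self
          calc lam (p ^ k) ^ 2 = |lam (p ^ k)| ^ 2 := (sq_abs _).symm
            _ ≤ (2 ^ k) ^ 2 := pow_le_pow_left₀ (abs_nonneg _) (h4.trans h5) 2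
            _ = 4 ^ k := by rw [← pow_mul, mul_comm, pow_mul]; norm_num
      · positivity
  refine psdata_congr (psdata_of_cont hE hm (hE1 ⟨1, hc1⟩)) fun p hp hpW => ?_
  rw [hβ, if_pos ⟨hp.coprime_iff_not_dvd.2 hpW, hp.ne_zero⟩]

theorem psdata_one {W : ℕ} (hW : W ≠ 0) (hbig : ∀ p : ℕ, p.Prime → ¬ p ∣ W → 10000 ≤ p) :
    PSdata W fun _ => 1 := by
  have h2 : 2 ∣ W := by
    by_contra h
    have := hbig 2 Nat.prime_two h
    omega
  obtain ⟨E, hE, hE1⟩ := cont_ind (Nat.le_of_dvd (Nat.pos_of_ne_zero hW) h2)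
  have hm : Mu W (ind W) := by
    refine ⟨hbig, hE.nonneg, ?_, fun n hn => ?_, fun m n _ => ?_, fun p k _ => ?_⟩
    · rw [ind, if_pos (Nat.coprime_one_left W)]
    · rw [ind, if_neg hn]
    · simp only [ind, Nat.coprime_mul_iff_left]
      by_cases h3 : m.Coprime W
      · by_cases h4 : n.Coprime W
        · rw [if_pos h3, if_pos h4, if_pos ⟨h3, h4⟩, one_mul]
        · rw [if_neg h4, if_neg fun h5 => h4 h5.2, mul_zero]
      · rw [if_neg h3, if_neg fun h5 => h3 h5.1, zero_mul]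
    · rw [ind]
      split_ifs
      · exact one_le_pow₀ (by norm_num)
      · positivity
  refine psdata_congr (psdata_of_cont hE hm hE1) fun p hp hpW => ?_
  rw [ind, if_pos (hp.coprime_iff_not_dvd.2 hpW)]

/-- The bound `|lam (p ^ k)| ≤ k + 1` from the recursion. Sketch: with `x = u 1` the quantity
`u (k+1) ^ 2 - x u (k+1) u k + u k ^ 2` is constant, equal to `1`, and at least
`(|u (k+1)| - |u k|) ^ 2`. -/
theorem abs_le_of_rec {u : ℕ → ℝ} (h0 : u 0 = 1) (hx : |u 1| ≤ 2)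
    (hrec : ∀ k, u (k + 2) = u 1 * u (k + 1) - u k) (k : ℕ) : |u k| ≤ k + 1 := by
  have hQ : ∀ k, u (k + 1) ^ 2 - u 1 * u (k + 1) * u k + u k ^ 2 = 1 := by
    intro k
    induction k with
    | zero => rw [h0]; ring
    | succ k ih => rw [hrec k, ← ih]; ring
  induction k with
  | zero => rw [h0]; norm_num
  | succ k ih =>
    have h1 := hQ k
    have h2 : u 1 * u (k + 1) * u k ≤ 2 * (|u (k + 1)| * |u k|) := by
      refine (le_abs_self _).trans ?_
      rw [abs_mul, abs_mul, mul_assoc]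
      exact mul_le_mul_of_nonneg_right hx (by positivity)
    have h3 : (|u (k + 1)| - |u k|) ^ 2 ≤ 1 := by
      rw [sub_sq, sq_abs, sq_abs]
      linarith
    have h4 := (abs_le.1 ((sq_le_one_iff_abs_le_one _).1 h3)).2
    push_cast
    linarith

end Pool.Agent.Lib.MP_03e5d0_nt.RS

namespace Pool.Agent.Lib.MP_03e5d0_nt

open RS

/-- Part B2. Sketch: `CF.of_cuspForm`, `CF.deplete`, `psdata_sq`, `psdata_one`, `abs_le_of_rec`. -/
theorem ps_of_form {N : ℕ} [NeZero N] (f : CuspForm (CongruenceSubgroup.Gamma0 N) 2) (D : Data)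
    (hN : N ∣ D.q) (ha : ∀ n : ℕ, n.Coprime D.q →
      (UpperHalfPlane.qExpansion 1 f).coeff n = ((D.lam n * √n : ℝ) : ℂ)) : D.PS := by
  have hbig : ∀ p : ℕ, p.Prime → ¬ p ∣ D.q → 10000 ≤ p := fun p hp h =>
    not_lt.1 fun h2 => h (D.small p hp h2)
  refine ⟨?_, psdata_one D.q_ne hbig⟩
  obtain ⟨M, g, hM, hg⟩ := (CF.of_cuspForm f).deplete (NeZero.pos N) D.q_ne
  refine psdata_sq hM hg hbig (fun n => ?_) D.lam_one D.lam_mul fun p k hp hpq => ?_
  · split_ifs with h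
    · rw [ha n h, Complex.norm_real, Real.norm_eq_abs, sq_abs, mul_pow,
        Real.sq_sqrt (Nat.cast_nonneg n)]
    · simp
  · refine abs_le_of_rec (u := fun k => D.lam (p ^ k)) ?_ ?_ (fun j => ?_) k
    · simp only [pow_zero, D.lam_one]
    · simp only [pow_one]
      exact D.lam_le p hp
    · simp only [pow_one]
      exact D.lam_rec p j hp hpq

end Pool.Agent.Lib.MP_03e5d0_nt
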