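import Pool.Agent.Lib.MP_03e5d0_nt.NSum
import Pool.Agent.Lib.MP_03e5d0_nt.NCnt
import Pool.Agent.Lib.MP_03e5d0_nt.BFE
import Pool.Agent.Lib.MP_03e5d0_nt.RSFin
import Pool.Agent.Lib.MP_03e5d0_nt.CAsm
import Pool.Agent.Lib.MP_03e5d0_nt.CAll

/-! The exponential tail of the analytic rank in a family of quadratic twists. -/

set_option autoImplicit false

noncomputable section

namespace Pool.Agent.Lib.MP_03e5d0_nt

open Finset

theorem card_squarefree (N : ℕ) : (N : ℝ) / 4 ≤ ((Ioc 0 N).filter Squarefree).card := by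
  classical
  have h1 : Ioc 0 N ⊆ (Ioc 0 N).filter Squarefree ∪
      (insert 2 (Ioc 2 (N + 2))).biUnion fun a => (Ioc 0 N).filter (a ^ 2 ∣ ·) := by
    intro n hn
    by_cases h : Squarefree n
    · exact mem_union_left _ (mem_filter.2 ⟨hn, h⟩)
    refine mem_union_right _ ?_
    rw [Nat.squarefree_iff_prime_squarefree] at h
    push Not at h
    obtain ⟨p, hp, hd⟩ := h
    have h2 := hp.two_le
    have h3 := mem_Ioc.1 hn
    have h4 : p ≤ n := Nat.le_of_dvd h3.1 ((dvd_mul_right p p).trans hd)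
    refine mem_biUnion.2 ⟨p, ?_, mem_filter.2 ⟨hn, by rwa [sq]⟩⟩
    rw [mem_insert, mem_Ioc]
    omega
  have h2 := (card_le_card h1).trans ((card_union_le _ _).trans
    (Nat.add_le_add_left card_biUnion_le _))
  have h3 := Nat.cast_le (α := ℝ).2 h2
  rw [Nat.card_Ioc, Nat.sub_zero, Nat.cast_add, Nat.cast_sum] at h3
  have h4 : ∑ a ∈ insert 2 (Ioc 2 (N + 2)), (((Ioc 0 N).filter (a ^ 2 ∣ ·)).card : ℝ) ≤
      ∑ a ∈ insert 2 (Ioc 2 (N + 2)), N * ((a : ℝ) ^ 2)⁻¹ := by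
    refine sum_le_sum fun a _ => ?_
    rw [Nat.Ioc_filter_dvd_card_eq_div, ← div_eq_mul_inv, ← Nat.cast_pow]
    exact Nat.cast_div_le
  rw [← mul_sum, sum_insert (f := fun a : ℕ => ((a : ℝ) ^ 2)⁻¹) (by simp)] at h4
  have h5 := sum_Ioc_inv_sq_le_sub (α := ℝ) (k := 2) (n := N + 2) (by norm_num) (by omega)
  have h6 : (0 : ℝ) ≤ ((N + 2 : ℕ) : ℝ)⁻¹ := by positivity
  have h7 : (N : ℝ) * ((((2 : ℕ) : ℝ) ^ 2)⁻¹ + ∑ a ∈ Ioc 2 (N + 2), ((a : ℝ) ^ 2)⁻¹) ≤ N * (3 / 4) := by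
    gcongr
    generalize ((N + 2 : ℕ) : ℝ)⁻¹ = t at h5 h6
    norm_num at h5 ⊢
    linarith
  linarith

theorem le_countS {X : ℝ} (hX : 2 ≤ X) : X / 8 ≤ countS X := by
  classical
  have h0 : 1 ≤ ⌈X⌉₊ := Nat.one_le_ceil_iff.2 (by linarith)
  obtain ⟨N, hN⟩ : ∃ N : ℕ, ⌈X⌉₊ = N + 1 := ⟨⌈X⌉₊ - 1, by omega⟩
  have h1 : X ≤ N + 1 := by exact_mod_cast hN ▸ Nat.le_ceil X
  have h2 : (N : ℝ) < X := Nat.lt_ceil.1 (by omega)
  have h3 : ((Ioc 0 N).filter Squarefree).card ≤ countS X := by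
    rw [← card_image_of_injective _ (Nat.cast_injective (R := ℤ)), ← Set.ncard_coe_finset]
    refine Set.ncard_le_ncard ?_ ((finite_toSet _).subset (subset_Icc_ceil X fun d hd => hd.2))
    intro d hd
    obtain ⟨n, hn, rfl⟩ := mem_image.1 (mem_coe.1 hd)
    rw [mem_filter, mem_Ioc] at hn
    refine ⟨Int.squarefree_natCast.2 hn.2, ?_⟩
    rw [Int.cast_natCast, Nat.abs_cast]
    exact lt_of_le_of_lt (Nat.cast_le.2 hn.1.2) h2
  have h4 := (card_squarefree N).trans (Nat.cast_le.2 h3)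
  linarith

/-- The tail bound for the analytic ranks, for any tail function for which the shells are controlled. -/
theorem tail_of {τ : ℝ → ℝ} (hτ : AntitoneOn τ (Set.Ici 0)) (h0 : ∀ x, 0 ≤ x → 0 < τ x)
    (cnt : ∀ D : Data, D.FE → D.PS → ∃ c : ℝ, 0 < c ∧ Cnt D fun x => τ (c * x))
    (a b : ℚ) (hab : 4 * a ^ 3 + 27 * b ^ 2 ≠ 0) (hm : IsModular (twist a b 1)) :
    ∃ δ C : ℝ, 0 < δ ∧ ∀ X : ℝ, 2 ≤ X → ∀ r : ℕ,
      ({d : ℤ | Squarefree d ∧ |(d : ℝ)| < X ∧ ∃ r' : ℕ, r ≤ r' ∧ HasAnRank (twist a b d) r'}.ncard : ℝ) ≤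
        C * τ (δ * r) * countS X := by
  classical
  obtain ⟨N, hN, f, hf⟩ := hm
  obtain ⟨D, h1, h2, h3⟩ := data_of_curve_all a b hab N (NeZero.ne N) (hecke_bound f hf)
  have ha : ∀ n : ℕ, n.Coprime D.q →
      (UpperHalfPlane.qExpansion 1 f).coeff n = ((D.lam n * √n : ℝ) : ℂ) := fun n hn => by
    rw [hf, ← h2 n hn, Complex.ofReal_intCast]
  have hFE := B.fe_of_form f D h1 ha
  obtain ⟨c, hc, hcnt⟩ := cnt D hFE (ps_of_form f D h1 ha)
  obtain ⟨η, C, hη, hC, H⟩ := tail_all D hFE (τ := fun x => τ (c * x))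
    (fun x hx y hy hxy => hτ (Set.mem_Ici.2 (mul_nonneg hc.le hx))
      (Set.mem_Ici.2 (mul_nonneg hc.le hy)) (by gcongr))
    (fun x hx => h0 _ (mul_nonneg hc.le hx)) hcnt
  refine ⟨c * η, 8 * C, by positivity, fun X hX r => ?_⟩
  have h4 : {d : ℤ | Squarefree d ∧ |(d : ℝ)| < X ∧
      ∃ r' : ℕ, r ≤ r' ∧ HasAnRank (twist a b d) r'}.ncard ≤
      ((sqf X).filter fun d : ℤ => D.Ord d r).card := by
    rw [← Set.ncard_coe_finset]
    refine Set.ncard_le_ncard ?_ (finite_toSet _)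
    rintro d ⟨hd, hdX, r', hr, F, f1, f2, f3⟩
    obtain ⟨P, p1, p2, p3⟩ := h3 d hd
    refine mem_coe.2 (mem_filter.2 ⟨(mem_sqf (by linarith)).2 ⟨hdX.le, hd⟩, P * F, p1.mul f1,
      fun s hs => ?_, ?_⟩)
    · rw [Pi.mul_apply, f2 s hs, p3 s hs]
    · rw [← order_of_mul f1 (p1.mul f1) p1 p2 fun s _ => rfl, f3]
      exact_mod_cast hr
  have h5 := h0 (c * η * r) (by positivity)
  have h6 := le_countS hX
  refine (Nat.cast_le.2 h4).trans ((H X (by linarith) r).trans ?_)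
  rw [← mul_assoc c]
  calc C * X * τ (c * η * r) = 8 * C * τ (c * η * r) * (X / 8) := by ring
    _ ≤ _ := by gcongr

/-- The proportion of the quadratic twists of a modular curve with analytic rank at least `r` decays
exponentially in `r`. -/
theorem tail_rank (a b : ℚ) (hab : 4 * a ^ 3 + 27 * b ^ 2 ≠ 0) (hm : IsModular (twist a b 1)) :
    ∃ δ C : ℝ, 0 < δ ∧ ∀ X : ℝ, 2 ≤ X → ∀ r : ℕ,
      ({d : ℤ | Squarefree d ∧ |(d : ℝ)| < X ∧ ∃ r' : ℕ, r ≤ r' ∧ HasAnRank (twist a b d) r'}.ncard : ℝ) ≤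
        C * Real.exp (-(δ * r)) * countS X := by
  refine tail_of (τ := fun x => Real.exp (-x))
    (fun x _ y _ h => Real.exp_le_exp.2 (neg_le_neg h)) (fun x _ => Real.exp_pos _)
    (fun D hFE hPS => ?_) a b hab hm
  obtain ⟨c, C, K₀, X₀, hc, H⟩ := ncnt D hFE hPS
  exact ⟨c, hc, C, 3, K₀, X₀, by norm_num, H⟩

/-- The same for the number of twists of rank exactly `r`. -/
theorem countN_le (a b : ℚ) (hab : 4 * a ^ 3 + 27 * b ^ 2 ≠ 0) (hm : IsModular (twist a b 1)) :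
    ∃ δ C : ℝ, 0 < δ ∧ ∀ X : ℝ, 2 ≤ X → ∀ r : ℕ,
      (countN a b r X : ℝ) ≤ C * Real.exp (-(δ * r)) * countS X := by
  obtain ⟨δ, C, hδ, H⟩ := tail_rank a b hab hm
  refine ⟨δ, C, hδ, fun X hX r => le_trans (Nat.cast_le.2 ?_) (H X hX r)⟩
  exact Set.ncard_le_ncard (fun d hd => ⟨hd.1, hd.2.1, r, le_rfl, hd.2.2⟩)
    ((finite_toSet _).subset (subset_Icc_ceil X fun d hd => hd.2.1))

/-- All moments of the analytic rank are bounded. -/
theorem moment_rank (a b : ℚ) (hab : 4 * a ^ 3 + 27 * b ^ 2 ≠ 0) (hm : IsModular (twist a b 1))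
    (k : ℕ) : ∃ C : ℝ, ∀ X : ℝ, 2 ≤ X → ∀ n : ℕ,
      ∑ r ∈ range n, (r : ℝ) ^ k * countN a b r X ≤ C * countS X := by
  obtain ⟨δ, C, hδ, H⟩ := countN_le a b hab hm
  have hs := Real.summable_pow_mul_exp_neg_nat_mul k hδ
  refine ⟨|C| * ∑' r : ℕ, (r : ℝ) ^ k * Real.exp (-δ * r), fun X hX n => ?_⟩
  calc ∑ r ∈ range n, (r : ℝ) ^ k * countN a b r X
      ≤ ∑ r ∈ range n, |C| * ((r : ℝ) ^ k * Real.exp (-δ * r)) * countS X := by
        refine sum_le_sum fun r _ => ?_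
        calc (r : ℝ) ^ k * countN a b r X ≤ (r : ℝ) ^ k * (|C| * Real.exp (-(δ * r)) * countS X) := by
              gcongr
              exact (H X hX r).trans (by gcongr; exact le_abs_self C)
          _ = _ := by rw [neg_mul]; ring
    _ ≤ _ := by
        rw [← sum_mul, ← mul_sum]
        gcongr
        exact hs.sum_le_tsum _ fun r _ => by positivity

end Pool.Agent.Lib.MP_03e5d0_nt
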