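import Pool.Agent.Lib.MP_03e5d0_nt.NTr2

set_option autoImplicit false

noncomputable section

namespace Pool.Agent.Lib.MP_03e5d0_nt

open Complex Finset MeasureTheory
open scoped NumberTheorySymbols Real ContDiff

/-! The dyadic pieces. -/

theorem ngen_nr {D : Data} {x : ℕ → ℝ} {σ U : ℝ} (h : Nr D x σ U) (a b : ℂ) :
    ‖a * b‖ ≤ 2 * (‖(NN D x σ U : ℂ) * a‖ * ‖(MM D x σ U : ℂ) * b‖) := by
  have h1 : 1 ≤ 2 * (|NN D x σ U| * |MM D x σ U|) := by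
    rw [← abs_mul]
    have h2 := (abs_le.1 h).1
    have h3 := le_abs_self (NN D x σ U * MM D x σ U)
    linarith
  rw [norm_mul, norm_mul, norm_mul, norm_real, norm_real, Real.norm_eq_abs, Real.norm_eq_abs]
  have h4 := mul_le_mul_of_nonneg_right h1 (mul_nonneg (norm_nonneg a) (norm_nonneg b))
  linarith

theorem ngen_pow {k k' κ : ℕ} (hκ : 2 * (k + k') + 1 ≤ κ) (i : ℕ) :
    ((4 : ℝ) ^ i) ^ k * (4 ^ i) ^ k' / 2 ^ (κ * i) ≤ (1 / 2) ^ i := by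
  have h1 : ((4 : ℝ) ^ i) ^ k * (4 ^ i) ^ k' * 2 ^ i = 2 ^ ((2 * (k + k') + 1) * i) := by
    rw [show (4 : ℝ) = 2 ^ 2 by norm_num]
    simp only [← pow_mul, ← pow_add]
    congr 1
    ring
  rw [one_div, inv_pow, ← one_div, div_le_div_iff₀ (by positivity) (by positivity), h1, one_mul]
  exact pow_le_pow_right₀ one_le_two (Nat.mul_le_mul_right i hκ)

/-- `sg_eq_sum`; if `Nr` holds then `1 ≤ 2 |N_i M_i|`, so `‖Ms * pc‖ ≤ 2 ‖N_i * Ms‖ ‖M_i * pc‖`;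
`sum_mul_le_nrm`, `nrm_NM`, `nrm_Mpc`; `κ₀ = 2 (k + k') + 1` beats the powers of `4 ^ i`. -/
theorem gen (D : Data) (hFE : D.FE) (hPS : D.PS) : ∃ (j κ₀ e : ℕ) (A₀ : ℝ), ∀ A, A₀ ≤ A → ∃ C X₀ : ℝ,
    0 ≤ C ∧ ∀ (X R L' B : ℝ) (I κ : ℕ) (h : ℝ → ℂ) (T : Finset ℤ), X₀ ≤ X → Pm A R X I → κ₀ ≤ κ →
    L' ≤ 2 * Real.log X → T ⊆ allm X → (∀ m ∈ T, Gd D A R (Real.log X) I (jac m)) →
    (∀ i ≤ I, Sm j 1 4 (B / 2 ^ (κ * i)) fun θ => th0 θ * h (Ui (2 * Real.log X) i * θ)) →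
    ∑ m ∈ T, ‖Ms D A R X m * sg D (jac m) h (Ui (2 * Real.log X) I) L'‖ ≤
      C * X * B * R ^ e * Real.exp (max (L' - Real.log X) 0 / 2) := by
  obtain ⟨k, A₁, h₁⟩ := nrm_NM D hFE hPS
  obtain ⟨j, k', A₂, h₂⟩ := nrm_Mpc D hFE hPS
  refine ⟨j, 2 * (k + k') + 1, k + 2 * k', max A₁ A₂, fun A hA => ?_⟩
  obtain ⟨C₁, X₁, hC₁, h₁⟩ := h₁ A ((le_max_left _ _).trans hA)
  obtain ⟨C₂, X₂, hC₂, h₂⟩ := h₂ A ((le_max_right _ _).trans hA)
  obtain ⟨X₃, h₃⟩ := pm_facts A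
  refine ⟨4 * C₁ * C₂, max (max X₁ X₂) X₃, by positivity, ?_⟩
  intro X R L' B I κ h T hX hP hκ hL' hT hG hS
  have hX₁ : X₁ ≤ X := ((le_max_left _ _).trans (le_max_left _ _)).trans hX
  have hX₂ : X₂ ≤ X := ((le_max_right _ _).trans (le_max_left _ _)).trans hX
  obtain ⟨hX3, hL, hR, -⟩ := h₃ X R I ((le_max_right _ _).trans hX) hP
  have hX0 : 0 ≤ X := by linarith
  have hR0 : 0 ≤ R := by linarith
  have hB : 0 ≤ B := by
    have h0 := (norm_nonneg _).trans ((hS 0 (Nat.zero_le _)).bd 0 (Nat.zero_le _) 0)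
    simpa using h0
  have key : ∀ i ∈ range (I + 1), ∑ m ∈ T, ‖Ms D A R X m * pc D (jac m) L' (Ui (2 * Real.log X) i)
      fun θ => th0 θ * h (Ui (2 * Real.log X) i * θ)‖ ≤
      (2 * C₁ * C₂ * X * B * R ^ (k + 2 * k') * Real.exp (max (L' - Real.log X) 0 / 2)) *
        (1 / 2) ^ i := by
    intro i hi
    have hi' : i ≤ I := Nat.lt_succ_iff.1 (mem_range.1 hi)
    have a1 := (nrm_subset hT).trans (h₁ X R I hX₁ hP i hi')
    have a2 := (nrm_subset hT).trans (h₂ X R L' _ I _ hX₂ hP hL' (hS i hi') i hi')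
    have a3 := (sum_mul_le_nrm T _ _).trans (mul_le_mul a1 a2 (nrm_nonneg _ _) (by positivity))
    refine (sum_le_sum fun m hm => ngen_nr ((hG m hm).2 i hi') _ _).trans ?_
    rw [← mul_sum]
    refine (mul_le_mul_of_nonneg_left a3 zero_le_two).trans ?_
    have a4 := ngen_pow (k := k) (k' := k') hκ i
    have a5 : √X * √X = X := Real.mul_self_sqrt hX0
    generalize Real.exp (max (L' - Real.log X) 0 / 2) = E, Real.exp_pos
      (max (L' - Real.log X) 0 / 2) = hE at *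
    have a6 : 2 * (C₁ * √X * (R * 4 ^ i) ^ k *
        (C₂ * (B / 2 ^ (κ * i)) * √X * E * (R ^ 2 * 4 ^ i) ^ k')) =
        (2 * C₁ * C₂ * (√X * √X) * B * R ^ (k + 2 * k') * E) *
          ((4 ^ i) ^ k * (4 ^ i) ^ k' / 2 ^ (κ * i)) := by
      rw [mul_pow, mul_pow, pow_add, pow_mul R]
      ring
    rw [a6, a5]
    exact mul_le_mul_of_nonneg_left a4 (by positivity)
  calc ∑ m ∈ T, ‖Ms D A R X m * sg D (jac m) h (Ui (2 * Real.log X) I) L'‖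
      ≤ ∑ m ∈ T, ∑ i ∈ range (I + 1), ‖Ms D A R X m * pc D (jac m) L' (Ui (2 * Real.log X) i)
          fun θ => th0 θ * h (Ui (2 * Real.log X) i * θ)‖ := by
        refine sum_le_sum fun m _ => ?_
        rw [sg_eq_sum D (jac m) h (by linarith) hL' I, mul_sum]
        exact norm_sum_le _ _
    _ ≤ ∑ i ∈ range (I + 1), (2 * C₁ * C₂ * X * B * R ^ (k + 2 * k') *
          Real.exp (max (L' - Real.log X) 0 / 2)) * (1 / 2) ^ i := by
        rw [sum_comm]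
        exact sum_le_sum key
    _ ≤ (2 * C₁ * C₂ * X * B * R ^ (k + 2 * k') * Real.exp (max (L' - Real.log X) 0 / 2)) * 2 := by
        rw [← mul_sum]
        exact mul_le_mul_of_nonneg_left (sum_geometric_two_le _) (by positivity)
    _ = _ := by ring

end Pool.Agent.Lib.MP_03e5d0_nt
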