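import Pool.Agent.Lib.MP_03e5d0_nt.NOrd
import Pool.Agent.Lib.MP_03e5d0_nt.MAfe2

set_option autoImplicit false

noncomputable section

namespace Pool.Agent.Lib.MP_03e5d0_nt

open Complex Finset MeasureTheory
open scoped NumberTheorySymbols Real ContDiff

/-! Vanishing moments. -/

variable {D : Data} {k : ℤ} {C : ℝ} {γ : ℕ → ℝ}

open Filter Topology Asymptotics in
theorem nmom_bd (hC : 0 < C) (hγ : Summable fun n => |γ n|) (h : D.Dual k C γ) (j : ℕ) :
    LocallyIntegrableOn (fun t => Real.log t ^ j • phi D k C t) (Set.Ioi 0) ∧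
      (∀ a : ℝ, (fun t => Real.log t ^ j • phi D k C t) =O[atTop] fun t => t ^ (-a)) ∧
      ∀ b : ℝ, (fun t => Real.log t ^ j • phi D k C t) =O[𝓝[>] 0] fun t => t ^ (-b) := by
  refine ⟨ContinuousOn.locallyIntegrableOn ?_ measurableSet_Ioi, ?_⟩
  · exact ((Real.continuousOn_log.mono fun t ht => ne_of_gt ht).pow j).smul (phi_continuousOn hC)
  induction j with
  | zero => simpa using ⟨phi_top D k hC, phi_bot hC hγ h⟩
  | succ j ih =>
    simp only [pow_succ', mul_smul]
    exact ⟨fun a => isBigO_rpow_top_log_smul (lt_add_one a) (ih.1 _),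
      fun b => isBigO_rpow_zero_log_smul (sub_one_lt b) (ih.2 _)⟩

/-- Induction with `mellin_hasDerivAt_of_isBigO_rpow`; `phi_top`, `phi_bot` hold for all exponents, so
the same bounds hold for `log t ^ j • phi`. -/
theorem mellin_log_pow (hC : 0 < C) (hγ : Summable fun n => |γ n|) (h : D.Dual k C γ) (j : ℕ) (s : ℂ) :
    MellinConvergent (fun t => Real.log t ^ j • phi D k C t) s ∧
      iteratedDeriv j (mellin (phi D k C)) s = mellin (fun t => Real.log t ^ j • phi D k C t) s := by
  obtain ⟨h1, h2, h3⟩ := nmom_bd hC hγ h j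
  refine ⟨mellinConvergent_of_isBigO_rpow h1 (h2 _) (lt_add_one _) (h3 _) (sub_one_lt _), ?_⟩
  clear h1 h2 h3
  induction j generalizing s with
  | zero => simp
  | succ j ih =>
    obtain ⟨h1, h2, h3⟩ := nmom_bd hC hγ h j
    rw [iteratedDeriv_succ, funext ih,
      (mellin_hasDerivAt_of_isBigO_rpow h1 (h2 _) (lt_add_one _) (h3 _) (sub_one_lt _)).2.deriv]
    simp only [pow_succ', mul_smul]

/-- `mellin phi s * (Gamma s)⁻¹ = (√C / (2 π)) ^ s * G s` for all `s` (identity theorem,
`mellin_phi`), so the order of `mellin phi` at one is at least `r`; the derivatives of order `< r`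
vanish. -/
theorem moment_zero (hC : 0 < C) (hγ : Summable fun n => |γ n|) (h : D.Dual k C γ) {r j : ℕ}
    (hr : D.Ord k r) (hj : j < r) :
    IntegrableOn (fun t => (Real.log t : ℂ) ^ j * phi D k C t) (Set.Ioi 0) ∧
      ∫ t in Set.Ioi (0 : ℝ), (Real.log t : ℂ) ^ j * phi D k C t = 0 := by
  obtain ⟨G, hG, hL, hord⟩ := hr
  obtain ⟨h1, h2⟩ := mellin_log_pow hC hγ h j 1
  have hM : Differentiable ℂ (mellin (phi D k C)) := fun s =>
    (mellin_phi_deriv hC hγ h s).2.2.differentiableAt
  have hB : ((√C / (2 * π) : ℝ) : ℂ) ≠ 0 := ofReal_ne_zero.2 (by positivity)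
  have hP : Differentiable ℂ fun s : ℂ => ((√C / (2 * π) : ℝ) : ℂ) ^ s := fun s =>
    differentiableAt_id.const_cpow (.inl hB)
  have hΓ := differentiable_one_div_Gamma
  have h3 : mellin (phi D k C) * (fun s => (Gamma s)⁻¹) =
      (fun s : ℂ => ((√C / (2 * π) : ℝ) : ℂ) ^ s) * G := by
    refine AnalyticOnNhd.eq_of_eventuallyEq (z₀ := 3)
      ((hM.mul hΓ).differentiableOn.analyticOnNhd isOpen_univ)
      ((hP.mul hG).differentiableOn.analyticOnNhd isOpen_univ) ?_
    have h4 : {s : ℂ | 2 < s.re} ∈ nhds (3 : ℂ) :=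
      (isOpen_lt continuous_const continuous_re).mem_nhds (by norm_num)
    filter_upwards [h4] with s hs
    have h5 : Gamma s ≠ 0 := Gamma_ne_zero_of_re_pos (by linarith)
    simp only [Pi.mul_apply]
    rw [mellin_phi D k hC hs, hL s hs]
    field_simp
  have h4 := congrArg (fun f => analyticOrderAt f 1) h3
  rw [analyticOrderAt_mul (hM.analyticAt 1) (hΓ.analyticAt 1),
    analyticOrderAt_mul (hP.analyticAt 1) (hG.analyticAt 1),
    (hΓ.analyticAt 1).analyticOrderAt_eq_zero.2 (by simp), add_zero] at h4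
  have h5 : (r : ℕ∞) ≤ analyticOrderAt (mellin (phi D k C)) 1 := by
    rw [h4]
    exact hord.trans le_add_self
  have h6 := (natCast_le_analyticOrderAt_iff_iteratedDeriv_eq_zero (hM.analyticAt 1)).1 h5 j hj
  rw [h2] at h6
  unfold MellinConvergent at h1
  unfold mellin at h6
  simp only [sub_self, cpow_zero, one_smul, real_smul, ofReal_pow] at h1 h6
  exact ⟨h1, h6⟩

end Pool.Agent.Lib.MP_03e5d0_nt
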