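import Pool.Agent.Lib.MP_03e5d0_nt.NMu1

set_option autoImplicit false

noncomputable section

namespace Pool.Agent.Lib.MP_03e5d0_nt

open Complex Finset MeasureTheory
open scoped NumberTheorySymbols Real ContDiff

/-! The inverse coefficients and the inverse Euler product. -/

variable {D : Data} {P : Finset ℕ} {x : ℕ → ℝ}

theorem nmu_cut_mem (σ U y : ℝ) : 0 ≤ cut σ U y ∧ cut σ U y ≤ Real.exp (-σ * y) := by
  have h := bump_mem 1 (y / U)
  have h1 := Real.exp_pos (-σ * y)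
  unfold cut
  exact ⟨mul_nonneg h1.le h.1, mul_le_of_le_one_right h1.le h.2⟩

theorem nmu_term (a : ℕ → ℝ) (x : ℕ → ℝ) (σ : ℝ) (n : ℕ) :
    ((a n * cm x n : ℝ) : ℂ) * (n : ℂ) ^ (-(1 / 2 + σ : ℂ)) =
      ((a n * cm x n / √n : ℝ) : ℂ) * ((Real.exp (-σ * Real.log n) : ℝ) : ℂ) := by
  rcases Nat.eq_zero_or_pos n with rfl | hn
  · simp [cm_zero]
  have h1 : (0 : ℝ) < n := by exact_mod_cast hn
  have h2 : √(n : ℝ) = Real.exp (Real.log n / 2) := by
    rw [Real.sqrt_eq_rpow, Real.rpow_def_of_pos h1]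
    congr 1
    ring
  have h3 : (n : ℂ) ^ (-(1 / 2 + σ : ℂ)) = cexp (-(Real.log n / 2 : ℝ)) *
      ((Real.exp (-σ * Real.log n) : ℝ) : ℂ) := by
    rw [cpow_def_of_ne_zero (by exact_mod_cast hn.ne'), ← natCast_log, ofReal_exp,
      ← Complex.exp_add]
    congr 1
    push_cast
    ring
  rw [h3, h2, Complex.exp_neg, ← ofReal_exp, ofReal_div, div_eq_mul_inv]
  ring

theorem nmu_sub (a : ℕ → ℝ) (x : ℕ → ℝ) (σ U : ℝ) {L : ℂ}
    (h1 : Summable fun n : ℕ => ‖((a n * cm x n : ℝ) : ℂ) * (n : ℂ) ^ (-(1 / 2 + σ : ℂ))‖)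
    (h2 : HasSum (fun n : ℕ => ((a n * cm x n : ℝ) : ℂ) * (n : ℂ) ^ (-(1 / 2 + σ : ℂ))) L) :
    L - ∑' n : ℕ, ((a n * cm x n / √n : ℝ) : ℂ) * (cut σ U (Real.log n) : ℂ) =
      ∑' n : ℕ, ((a n * cm x n / √n : ℝ) : ℂ) *
        ((Real.exp (-σ * Real.log n) - cut σ U (Real.log n) : ℝ) : ℂ) := by
  simp only [nmu_term] at h1 h2
  have h3 : Summable fun n : ℕ => ((a n * cm x n / √n : ℝ) : ℂ) * (cut σ U (Real.log n) : ℂ) := by
    refine Summable.of_norm_bounded h1 fun n => ?_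
    rw [norm_mul, norm_mul]
    refine mul_le_mul_of_nonneg_left ?_ (norm_nonneg _)
    have h := nmu_cut_mem σ U (Real.log n)
    rw [norm_real, norm_real, Real.norm_of_nonneg h.1, Real.norm_of_nonneg (Real.exp_pos _).le]
    exact h.2
  rw [← h2.tsum_eq, ← h2.summable.tsum_sub h3]
  refine tsum_congr fun n => ?_
  rw [ofReal_sub, mul_sub]

theorem nmu_poly (D : Data) (a : ℕ → ℝ) (ha0 : ∀ n, ¬n.Coprime D.q → a n = 0)
    (ha : ∀ n : ℕ, |a n| / √n ≤ 2) {σ U : ℝ} (hσ : 0 ≤ σ) (hU : 0 < U) :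
    Poly D (2 * Real.exp (2 * U)) fun x => ∑' n : ℕ, a n * cm x n / √n * cut σ U (Real.log n) := by
  classical
  have hE := Real.exp_pos (2 * U)
  set S : Finset ℕ := (Icc 1 ⌊Real.exp (2 * U)⌋₊).filter fun n => n.Coprime D.q with hS
  refine ⟨S.toList.map fun n => (n, a n / √n * cut σ U (Real.log n)), fun c hc => ?_, ?_,
    fun x => ?_⟩
  · obtain ⟨n, hn, rfl⟩ := List.mem_map.mp hc
    obtain ⟨a1, a2⟩ := mem_filter.mp (mem_toList.mp hn)
    obtain ⟨a3, a4⟩ := mem_Icc.mp a1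
    refine ⟨by omega, a2, ?_⟩
    have a5 : (n : ℝ) ≤ Real.exp (2 * U) := (Nat.cast_le.mpr a4).trans (Nat.floor_le hE.le)
    simp only
    linarith
  · rw [List.map_map, Finset.sum_map_toList]
    refine (sum_le_card_nsmul _ _ 2 fun n _ => ?_).trans ?_
    · simp only [Function.comp]
      have h := nmu_cut_mem σ U (Real.log n)
      have h1 : Real.exp (-σ * Real.log n) ≤ 1 := by
        rw [Real.exp_le_one_iff]
        have := Real.log_natCast_nonneg n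
        nlinarith
      rw [abs_mul, abs_div, abs_of_nonneg (Real.sqrt_nonneg _), abs_of_nonneg h.1]
      calc |a n| / √n * cut σ U (Real.log n) ≤ 2 * 1 :=
            mul_le_mul (ha n) (h.2.trans h1) h.1 zero_le_two
        _ = 2 := by ring
    · have a1 : S.card ≤ ⌊Real.exp (2 * U)⌋₊ := (card_filter_le _ _).trans (by simp)
      rw [nsmul_eq_mul, mul_comm]
      have a2 : (S.card : ℝ) ≤ Real.exp (2 * U) := (Nat.cast_le.mpr a1).trans (Nat.floor_le hE.le)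
      linarith
  · beta_reduce
    rw [List.map_map, Finset.sum_map_toList, tsum_eq_sum (s := S)]
    · refine sum_congr rfl fun n _ => ?_
      simp only [Function.comp]
      ring
    · intro n hn
      rcases Nat.eq_zero_or_pos n with rfl | hn0
      · simp [cm_zero]
      by_cases hc : n.Coprime D.q
      · have a1 : ⌊Real.exp (2 * U)⌋₊ < n := by
          by_contra a2
          exact hn (mem_filter.mpr ⟨mem_Icc.mpr ⟨hn0, not_lt.mp a2⟩, hc⟩)
        have a2 : Real.exp (2 * U) < n := (Nat.floor_lt hE.le).mp a1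
        have a3 : 2 * U ≤ Real.log n := ((Real.lt_log_iff_exp_lt (by exact_mod_cast hn0)).mpr a2).le
        have a4 : 1 + 1 ≤ |Real.log n / U| := by
          refine le_trans ?_ (le_abs_self _)
          rw [le_div_iff₀ hU]
          linarith
        rw [cut, bump_eq_zero a4]
        simp
      · rw [ha0 n hc]
        simp

/-- `lf_den_ne`. -/
theorem LP_ne_zero (hx : Adm x) (hP : ∀ p ∈ P, p.Prime ∧ ¬p ∣ D.q) {s : ℂ} (hs : 1 / 4 ≤ s.re) :
    LP D P x s ≠ 0 := by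
  rw [LP]
  exact prod_ne_zero_iff.mpr fun p hp => inv_ne_zero (lf_den_ne (D.lam_le p (hP p hp).1)
    (meul_abs hx p) (meul_norm D (hP p hp).1 (hP p hp).2 hs))

theorem continuous_LP (hx : Adm x) (hP : ∀ p ∈ P, p.Prime ∧ ¬p ∣ D.q) {σ : ℝ} (hσ : 0 ≤ σ) :
    Continuous fun t : ℝ => LP D P x (1 / 2 + σ + I * t) := by
  refine (LP_differentiableOn hx hP).continuousOn.comp_continuous (by fun_prop) fun t => ?_
  have h : (1 / 2 + σ + I * t : ℂ).re = 1 / 2 + σ := by simp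
  simp only [Set.mem_ofPred_eq, h]
  linarith

theorem norm_LP_inv_le (hx : Adm x) (hP : ∀ p ∈ P, p.Prime ∧ ¬p ∣ D.q) {s : ℂ} (hs : 1 / 4 ≤ s.re) :
    ‖(LP D P x s)⁻¹‖ ≤ 2 ^ P.card := by
  rw [LP, ← prod_inv_distrib, norm_prod, ← prod_const]
  refine prod_le_prod (fun _ _ => norm_nonneg _) fun p hp => ?_
  have hz := meul_norm D (hP p hp).1 (hP p hp).2 hs
  have h1 := D.lam_le p (hP p hp).1
  have h2 := meul_abs hx p
  generalize (p : ℂ) ^ (-s) = z at hz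
  have h3 : |x p ^ 2| ≤ 1 := by
    rw [abs_pow]
    exact pow_le_one₀ (abs_nonneg _) h2
  have h4 := mpp_w (mpp_lu h1 h2) h3 hz
  have h5 := norm_sub_le (1 : ℂ) (((D.lam p * x p : ℝ) : ℂ) * z - ((x p ^ 2 : ℝ) : ℂ) * z ^ 2)
  rw [norm_one, ← sub_add] at h5
  rw [lf, inv_inv]
  linarith

theorem NN_sm (D : Data) (x : ℕ → ℝ) (σ U : ℝ) :
    (NN D x σ U : ℂ) = sm D x fun y => (cut σ U y : ℂ) := by
  rw [NN, sm, ofReal_tsum]
  exact tsum_congr fun n => ofReal_mul _ _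

theorem MM_smu (D : Data) (x : ℕ → ℝ) (σ U : ℝ) :
    (MM D x σ U : ℂ) = smu D x fun y => (cut σ U y : ℂ) := by
  rw [MM, smu, ofReal_tsum]
  exact tsum_congr fun n => ofReal_mul _ _

/-- Both series converge absolutely by `hasSum_LP`; `0 ≤ cut σ U y ≤ exp (-σ y)`. -/
theorem LP_sub_NN (hx : Adm x) (hP : ∀ p ∈ P, p.Prime ∧ ¬p ∣ D.q) (h0 : ∀ p, p ∉ P → x p = 0) {σ : ℝ}
    (hσ : 0 ≤ σ) (U : ℝ) : LP D P x (1 / 2 + σ) - NN D x σ U =
      sm D x fun y => ((Real.exp (-σ * y) - cut σ U y : ℝ) : ℂ) := by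
  have hre : (1 / 2 : ℝ) ≤ (1 / 2 + σ : ℂ).re := by simp [hσ]
  obtain ⟨h1, h2⟩ := hasSum_LP hx hP h0 hre
  rw [NN_sm]
  exact nmu_sub D.lam x σ U h1 h2

theorem LP_sub_MM (hx : Adm x) (hP : ∀ p ∈ P, p.Prime ∧ ¬p ∣ D.q) (h0 : ∀ p, p ∉ P → x p = 0) {σ : ℝ}
    (hσ : 0 ≤ σ) (U : ℝ) : (LP D P x (1 / 2 + σ))⁻¹ - MM D x σ U =
      smu D x fun y => ((Real.exp (-σ * y) - cut σ U y : ℝ) : ℂ) := by
  have hre : (1 / 2 : ℝ) ≤ (1 / 2 + σ : ℂ).re := by simp [hσ]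
  obtain ⟨h1, h2⟩ := hasSum_LPi hx hP h0 hre
  rw [MM_smu]
  exact nmu_sub (mu D) x σ U h1 h2

/-- The list runs over `1 ≤ n ≤ exp (2 U)` coprime to `q`; each coefficient is at most two
(`Data.lam_le_card`, `tbas_card_sqrt`); `cut σ U y = 0` for `2 U ≤ y`. -/
theorem poly_NN (D : Data) {σ U : ℝ} (hσ : 0 ≤ σ) (hU : 0 < U) :
    Poly D (2 * Real.exp (2 * U)) fun x => NN D x σ U := by
  refine nmu_poly D D.lam D.lam_zero (fun n => ?_) hσ hU
  rcases Nat.eq_zero_or_pos n with rfl | hn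
  · simp
  · rw [div_le_iff₀ (Real.sqrt_pos.mpr (by exact_mod_cast hn))]
    exact (D.lam_le_card n).trans (tbas_card_sqrt n)

theorem poly_MM (D : Data) {σ U : ℝ} (hσ : 0 ≤ σ) (hU : 0 < U) :
    Poly D (2 * Real.exp (2 * U)) fun x => MM D x σ U :=
  nmu_poly D (mu D) (fun _ h => mu_eq_zero D h) (abs_mu_le D) hσ hU

end Pool.Agent.Lib.MP_03e5d0_nt
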