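import Pool.Agent.Lib.MP_03e5d0_nt.NDef
import Pool.Agent.Lib.MP_03e5d0_nt.MEul
import Pool.Agent.Lib.MP_03e5d0_nt.MPoly

set_option autoImplicit false

noncomputable section

namespace Pool.Agent.Lib.MP_03e5d0_nt

open Complex Finset MeasureTheory
open scoped NumberTheorySymbols Real ContDiff

/-! The inverse coefficients and the inverse Euler product. -/

variable {D : Data} {P : Finset ℕ} {x : ℕ → ℝ}

theorem mu_zero (D : Data) : mu D 0 = 0 := by

  simp [mu]

theorem mu_one (D : Data) : mu D 1 = 1 := by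

  simp [mu]

/-- `Nat.factorization_mul_of_coprime`, `Finsupp.prod_add_index_of_disjoint`. -/
theorem mu_mul (D : Data) {m n : ℕ} (h : m.Coprime n) : mu D (m * n) = mu D m * mu D n := by

  rcases eq_or_ne m 0 with rfl | hm
  · rw [(Nat.coprime_zero_left _).mp h, mu_one, mul_one, mul_one]
  rcases eq_or_ne n 0 with rfl | hn
  · rw [(Nat.coprime_zero_right _).mp h, mu_one, one_mul, one_mul]
  rw [mu, mu, mu, if_neg (mul_ne_zero hm hn), if_neg hm, if_neg hn,
    Nat.factorization_mul_of_coprime h, Finsupp.prod_add_index_of_disjoint]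
  simpa using h.disjoint_primeFactors

theorem mu_prime_pow (D : Data) {p : ℕ} (hp : p.Prime) (a : ℕ) : mu D (p ^ a) =
    if a = 0 then 1 else if a = 1 then -D.lam p else if a = 2 ∧ ¬p ∣ D.q then 1 else 0 := by

  rcases eq_or_ne a 0 with rfl | ha
  · simp [mu]
  rw [mu, if_neg (pow_ne_zero _ hp.ne_zero), if_neg ha, hp.factorization_pow]
  rw [Finsupp.prod, Finsupp.support_single_ne_zero _ ha, prod_singleton, Finsupp.single_eq_same]

/-- `lam p = 0` if `p ∣ q`. -/
theorem mu_eq_zero (D : Data) {n : ℕ} (h : ¬n.Coprime D.q) : mu D n = 0 := by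

  rcases eq_or_ne n 0 with rfl | hn
  · exact mu_zero D
  obtain ⟨p, hp, h1, h2⟩ := Nat.Prime.not_coprime_iff_dvd.1 h
  rw [mu, if_neg hn, Finsupp.prod]
  refine prod_eq_zero (i := p) (by simp [hp, h1, hn]) ?_
  have h3 : D.lam p = 0 := D.lam_zero p fun hc =>
    hp.one_lt.ne' (Nat.eq_one_of_dvd_coprimes hc dvd_rfl h2)
  simp [h3, h2]


theorem nmu1_pow_le (D : Data) {p : ℕ} (hp : p.Prime) (j : ℕ) : |mu D (p ^ j)| ≤ j + 1 := by
  have hj : (0 : ℝ) ≤ j := Nat.cast_nonneg j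
  rw [mu_prime_pow D hp]
  split_ifs with h1 h2 h3
  · rw [abs_one]; linarith
  · rw [abs_neg, h2]
    have := D.lam_le p hp
    push_cast
    linarith
  · rw [abs_one]; linarith
  · rw [abs_zero]; linarith

theorem nmu1_card (D : Data) (n : ℕ) : |mu D n| ≤ n.divisors.card := by
  induction n using Nat.recOnPosPrimePosCoprime with
  | prime_pow p j hp hj =>
    rw [Nat.divisors_prime_pow hp, card_map, card_range]
    exact_mod_cast nmu1_pow_le D hp j
  | zero => simp [mu_zero]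
  | one => simp [mu_one]
  | coprime a b _ _ hab iha ihb =>
    rw [mu_mul D hab, hab.card_divisors_mul, abs_mul, Nat.cast_mul]
    exact mul_le_mul iha ihb (abs_nonneg _) (Nat.cast_nonneg _)

/-- Each local factor is at most `a + 1`; `Nat.card_divisors`, `tbas_card_sqrt`. -/
theorem abs_mu_le (D : Data) (n : ℕ) : |mu D n| / √n ≤ 2 := by

  rcases eq_or_ne n 0 with rfl | hn
  · simp
  have h1 : (0 : ℝ) < √n := Real.sqrt_pos.2 (by exact_mod_cast Nat.pos_of_ne_zero hn)
  rw [div_le_iff₀ h1]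
  exact (nmu1_card D n).trans (tbas_card_sqrt n)

/-- As `hasSum_LP`; the local series has the three terms `1 - lam p u z + u ^ 2 z ^ 2`. -/
theorem hasSum_LPi (hx : Adm x) (hP : ∀ p ∈ P, p.Prime ∧ ¬p ∣ D.q) (h0 : ∀ p, p ∉ P → x p = 0) {s : ℂ}
    (hs : 1 / 2 ≤ s.re) :
    Summable (fun n : ℕ => ‖((mu D n * cm x n : ℝ) : ℂ) * (n : ℂ) ^ (-s)‖) ∧
      HasSum (fun n : ℕ => ((mu D n * cm x n : ℝ) : ℂ) * (n : ℂ) ^ (-s)) (LP D P x s)⁻¹ := by

  set f : ℕ → ℂ := fun n => ((mu D n * cm x n : ℝ) : ℂ) * (n : ℂ) ^ (-s) with hf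
  have e : ∀ {p : ℕ}, p.Prime → ∀ j : ℕ,
      f (p ^ j) = ((mu D (p ^ j) * x p ^ j : ℝ) : ℂ) * ((p : ℂ) ^ (-s)) ^ j := fun hp j => by
    simp only [hf]
    rw [cm_pow, cm_prime x hp, Nat.cast_pow, ← natCast_cpow_natCast_mul, cpow_nat_mul]
  have z3 : ∀ {p : ℕ}, p.Prime → ∀ j : ℕ, j ∉ range 3 → f (p ^ j) = 0 := fun hp j hj => by
    rw [mem_range] at hj
    rw [e hp, mu_prime_pow D hp, if_neg (by omega), if_neg (by omega), if_neg (by omega)]
    simp
  obtain ⟨h1, h2⟩ := EulerProduct.summable_and_hasSum_factoredNumbers_prod_filter_prime_tsum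
    (f := f) (by simp [hf, mu_one, cm_one]) (fun {m n} h => by
      simp only [hf]
      rw [mu_mul D h, cm_mul, Nat.cast_mul, natCast_mul_natCast_cpow]
      push_cast
      ring) (fun {p} hp => summable_of_ne_finset_zero (s := range 3) fun j hj => by
        rw [z3 hp j hj, norm_zero]) P
  have h3 : ∀ n, n ∉ Nat.factoredNumbers P → f n = 0 := fun n hn => by
    rw [Nat.mem_factoredNumbers'] at hn
    push Not at hn
    obtain ⟨p, hp, ⟨m, rfl⟩, h⟩ := hn
    simp only [hf]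
    rw [cm_mul, cm_prime x hp, h0 p h]
    simp
  have h4 : ∏ p ∈ P with p.Prime, ∑' j : ℕ, f (p ^ j) = (LP D P x s)⁻¹ := by
    rw [filter_true_of_mem fun p hp => (hP p hp).1, LP, ← prod_inv_distrib]
    refine prod_congr rfl fun p hp => ?_
    rw [tsum_eq_sum (z3 (hP p hp).1), lf, inv_inv]
    simp only [sum_range_succ, range_zero, sum_empty, e (hP p hp).1, mu_prime_pow D (hP p hp).1]
    simp [(hP p hp).2]
    ring
  rw [h4] at h2
  refine ⟨?_, (hasSum_subtype_iff_of_support_subset (f := f) fun n hn => ?_).1 h2⟩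
  · refine ⟨_, (hasSum_subtype_iff_of_support_subset (f := fun n => ‖f n‖) fun n hn => ?_).1
      h1.hasSum⟩
    by_contra h
    exact hn (by simp only [h3 n h, norm_zero])
  · by_contra h
    exact hn (h3 n h)

/-- As `sm_eq_LP`. -/
theorem smu_eq_LP (hx : Adm x) (hP : ∀ p ∈ P, p.Prime ∧ ¬p ∣ D.q) (h0 : ∀ p, p ∉ P → x p = 0) {σ : ℝ}
    (hσ : 0 ≤ σ) {v V : ℝ → ℂ} (hv : Integrable v)
    (hV : ∀ y, 0 ≤ y → V y = ∫ t, v t * (ex (-t) y * (Real.exp (-σ * y) : ℝ))) :
    smu D x V = ∫ t, v t * (LP D P x (1 / 2 + σ + I * t))⁻¹ := by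

  have e : ∀ (n : ℕ) (t : ℝ), ((mu D n * cm x n / √n : ℝ) : ℂ) *
      (v t * (ex (-t) (Real.log n) * (Real.exp (-σ * Real.log n) : ℝ))) =
      v t * (((mu D n * cm x n : ℝ) : ℂ) * (n : ℂ) ^ (-(1 / 2 + σ + I * t))) := fun n t => by
    rcases Nat.eq_zero_or_pos n with rfl | hn
    · simp [cm_zero]
    have h1 : (0 : ℝ) < n := by exact_mod_cast hn
    have h2 : √(n : ℝ) = Real.exp (Real.log n / 2) := by
      rw [Real.sqrt_eq_rpow, Real.rpow_def_of_pos h1]
      congr 1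
      ring
    have h3 : (n : ℂ) ^ (-(1 / 2 + σ + I * t)) = cexp (-(Real.log n / 2 : ℝ)) *
        (ex (-t) (Real.log n) * (Real.exp (-σ * Real.log n) : ℝ)) := by
      rw [cpow_def_of_ne_zero (by exact_mod_cast hn.ne'), ← natCast_log, ex, ofReal_exp,
        ← Complex.exp_add, ← Complex.exp_add]
      congr 1
      push_cast
      ring
    rw [h3, h2, Complex.exp_neg, ← ofReal_exp, ofReal_div, div_eq_mul_inv]
    ring
  have hre : ∀ t : ℝ, (1 / 2 : ℝ) ≤ (1 / 2 + σ + I * t : ℂ).re := fun t => by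
    simp [hσ]
  have hn : ∀ (n : ℕ) (t : ℝ),
      ‖((mu D n * cm x n : ℝ) : ℂ) * (n : ℂ) ^ (-(1 / 2 + σ + I * t))‖ =
      ‖((mu D n * cm x n : ℝ) : ℂ) * (n : ℂ) ^ (-(1 / 2 + σ + I * (0 : ℝ)))‖ := fun n t => by
    rcases Nat.eq_zero_or_pos n with rfl | hn
    · simp [cm_zero]
    rw [norm_mul, norm_mul, norm_natCast_cpow_of_pos hn, norm_natCast_cpow_of_pos hn]
    simp
  have h1 := hasSum_integral_of_summable_integral_norm (μ := volume)
    (F := fun (n : ℕ) (t : ℝ) =>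
      v t * (((mu D n * cm x n : ℝ) : ℂ) * (n : ℂ) ^ (-(1 / 2 + σ + I * t))))
    (fun n => by
      simp only [← e]
      refine Integrable.const_mul (hv.mul_bdd (c := Real.exp (-σ * Real.log n))
        (Continuous.aestronglyMeasurable ?_) (ae_of_all _ fun t => ?_)) _
      · exact (continuous_ex.comp (continuous_neg.prodMk continuous_const)).mul continuous_const
      · rw [norm_mul, norm_ex, one_mul, norm_real, Real.norm_eq_abs, abs_of_pos (Real.exp_pos _)])
    (by
      refine ((hasSum_LPi hx hP h0 (hre 0)).1.mul_left (∫ t, ‖v t‖)).congr fun n => ?_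
      rw [← integral_mul_const]
      exact integral_congr_ae (ae_of_all _ fun t => by
        simp only
        rw [norm_mul (v t), hn n t]))
  rw [smu, tsum_congr (g := fun n : ℕ => ∫ t : ℝ,
    v t * (((mu D n * cm x n : ℝ) : ℂ) * (n : ℂ) ^ (-(1 / 2 + σ + I * t)))) fun n => by
      rw [hV _ (Real.log_natCast_nonneg n), ← integral_const_mul]
      exact integral_congr_ae (ae_of_all _ (e n)), h1.tsum_eq]
  exact integral_congr_ae (ae_of_all _ fun t =>
    ((hasSum_LPi hx hP h0 (hre t)).2.mul_left (v t)).tsum_eq)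

end Pool.Agent.Lib.MP_03e5d0_nt
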