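import Pool.Agent.Lib.MP_03e5d0_nt.Iface

set_option autoImplicit false

noncomputable section

namespace Pool.Agent.Lib.MP_03e5d0_nt

/-- The `L`-series of the twist by `d`, without the Euler factors at `q`, vanishes to order at least
`r` at the centre. -/
def Data.Ord (D : Data) (d : ℤ) (r : ℕ) : Prop :=
  ∃ G : ℂ → ℂ, Differentiable ℂ G ∧ (∀ s : ℂ, 2 < s.re → G s = LSeries (D.co d) s) ∧
    (r : ℕ∞) ≤ analyticOrderAt G 1

theorem Data.Ord.mono {D : Data} {d : ℤ} {r r' : ℕ} (h : D.Ord d r) (hr : r' ≤ r) : D.Ord d r' := by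
  obtain ⟨G, h1, h2, h3⟩ := h
  exact ⟨G, h1, h2, le_trans (by exact_mod_cast hr) h3⟩

end Pool.Agent.Lib.MP_03e5d0_nt
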