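import Pool.Agent.Lib.MP_03e5d0_nt.ADef

set_option autoImplicit false

noncomputable section

namespace Pool.Agent.Lib.MP_03e5d0_nt

open Complex Finset MeasureTheory
open scoped NumberTheorySymbols Real ContDiff

/-! Minkowski type inequalities for `nrm`; the sets `allm`, `sqf`; the factor `ll`. -/

variable {ι : Type} {T T' : Finset ι} {a b : ι → ℂ}

theorem nrm_nonneg (T : Finset ι) (a : ι → ℂ) : 0 ≤ nrm T a := by
  exact Real.sqrt_nonneg _

theorem nrm_sq (T : Finset ι) (a : ι → ℂ) : nrm T a ^ 2 = ∑ k ∈ T, ‖a k‖ ^ 2 := by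
  exact Real.sq_sqrt (sum_nonneg fun _ _ => sq_nonneg _)

theorem nrm_le_of_sq {G : ℝ} (hG : 0 ≤ G) (h : ∑ k ∈ T, ‖a k‖ ^ 2 ≤ G ^ 2) : nrm T a ≤ G := by
  exact Real.sqrt_le_iff.2 ⟨hG, h⟩

theorem nrm_mono (h : ∀ k ∈ T, ‖a k‖ ≤ ‖b k‖) : nrm T a ≤ nrm T b := by
  exact Real.sqrt_le_sqrt (sum_le_sum fun k hk => pow_le_pow_left₀ (norm_nonneg _) (h k hk) 2)

theorem nrm_subset (h : T ⊆ T') : nrm T a ≤ nrm T' a := by
  exact Real.sqrt_le_sqrt (sum_le_sum_of_subset_of_nonneg h fun _ _ _ => sq_nonneg _)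

theorem nrm_le_mul {c : ℝ} (hc : 0 ≤ c) (h : ∀ k ∈ T, ‖a k‖ ≤ c * ‖b k‖) :
    nrm T a ≤ c * nrm T b := by
  refine nrm_le_of_sq (mul_nonneg hc (nrm_nonneg _ _)) ?_
  rw [mul_pow, nrm_sq, mul_sum]
  refine sum_le_sum fun k hk => ?_
  rw [← mul_pow]
  exact pow_le_pow_left₀ (norm_nonneg _) (h k hk) 2

theorem nrm_le_const {c : ℝ} (hc : 0 ≤ c) (h : ∀ k ∈ T, ‖a k‖ ≤ c) : nrm T a ≤ √(T.card) * c := by
  refine nrm_le_of_sq (mul_nonneg (Real.sqrt_nonneg _) hc) ?_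
  rw [mul_pow, Real.sq_sqrt (Nat.cast_nonneg _), ← nsmul_eq_mul]
  exact sum_le_card_nsmul _ _ _ fun k hk => pow_le_pow_left₀ (norm_nonneg _) (h k hk) 2

theorem sum_mul_le_nrm (T : Finset ι) (a b : ι → ℂ) :
    ∑ k ∈ T, ‖a k‖ * ‖b k‖ ≤ nrm T a * nrm T b := by
  exact Real.sum_mul_le_sqrt_mul_sqrt T (fun k => ‖a k‖) fun k => ‖b k‖

theorem tnrm_dual {G : ℝ} (hG : 0 ≤ G) (h : ∑ k ∈ T, ‖a k‖ ^ 2 ≤ nrm T a * G) : nrm T a ≤ G := by
  rw [← nrm_sq, sq] at h
  rcases (nrm_nonneg T a).eq_or_lt with e | e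
  · exact e ▸ hG
  · exact le_of_mul_le_mul_left h e

theorem tnrm_single {k : ι} (hk : k ∈ T) (a : ι → ℂ) : ‖a k‖ ≤ nrm T a :=
  Real.le_sqrt_of_sq_le (single_le_sum (f := fun k => ‖a k‖ ^ 2) (fun _ _ => sq_nonneg _) hk)


theorem nrm_add_le {c : ι → ℂ} (h : ∀ k ∈ T, ‖c k‖ ≤ ‖a k‖ + ‖b k‖) :
    nrm T c ≤ nrm T a + nrm T b := by
  refine tnrm_dual (add_nonneg (nrm_nonneg _ _) (nrm_nonneg _ _)) ?_
  rw [mul_add]
  refine le_trans ?_ (add_le_add (sum_mul_le_nrm T c a) (sum_mul_le_nrm T c b))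
  rw [← sum_add_distrib]
  refine sum_le_sum fun k hk => ?_
  rw [← mul_add, sq]
  exact mul_le_mul_of_nonneg_left (h k hk) (norm_nonneg _)

theorem nrm_sum {κ : Type} (S : Finset κ) {c : ι → κ → ℂ} (h : ∀ k ∈ T, ‖a k‖ ≤ ∑ i ∈ S, ‖c k i‖) :
    nrm T a ≤ ∑ i ∈ S, nrm T fun k => c k i := by
  refine tnrm_dual (sum_nonneg fun _ _ => nrm_nonneg _ _) ?_
  rw [mul_sum]
  refine le_trans ?_ (sum_le_sum fun i _ => sum_mul_le_nrm T a fun k => c k i)
  rw [sum_comm]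
  refine sum_le_sum fun k hk => ?_
  rw [← mul_sum, sq]
  exact mul_le_mul_of_nonneg_left (h k hk) (norm_nonneg _)

theorem nrm_biUnion {κ : Type} (S : Finset κ) (U : κ → Finset ι) (h : ∀ k ∈ T, ∃ i ∈ S, k ∈ U i) :
    nrm T a ≤ ∑ i ∈ S, nrm (U i) a := by
  classical
  refine (nrm_sum S (c := fun k i => if k ∈ U i then a k else 0) fun k hk => ?_).trans
    (sum_le_sum fun i _ => Real.sqrt_le_sqrt ?_)
  · obtain ⟨i, hi, hk'⟩ := h k hk
    refine le_trans (le_of_eq ?_)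
      (single_le_sum (f := fun i => ‖if k ∈ U i then a k else 0‖) (fun _ _ => norm_nonneg _) hi)
    simp only [if_pos hk']
  · have e : ∀ k, ‖if k ∈ U i then a k else 0‖ ^ 2 = if k ∈ U i then ‖a k‖ ^ 2 else 0 := by
      intro k
      split_ifs <;> simp
    simp only [e]
    rw [← sum_filter]
    exact sum_le_sum_of_subset_of_nonneg (fun k hk => (mem_filter.1 hk).2) fun _ _ _ => sq_nonneg _

/-- Duality: `∑ ‖a k‖ ^ 2 ≤ ∑' i, env i * ∑ ‖a k‖ ‖c k i‖ ≤ nrm T a * ∑' env i * γ i`. -/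
theorem nrm_tsum {κ : Type} {c : ι → κ → ℂ} {env γ : κ → ℝ} (he : ∀ i, 0 ≤ env i)
    (h : ∀ k ∈ T, ‖a k‖ ≤ ∑' i, env i * ‖c k i‖) (hγ : ∀ i, nrm T (fun k => c k i) ≤ γ i)
    (hs : Summable fun i => env i * γ i) : nrm T a ≤ ∑' i, env i * γ i := by
  have hγ0 : ∀ i, 0 ≤ γ i := fun i => (nrm_nonneg _ _).trans (hγ i)
  have hsum : ∀ k ∈ T, Summable fun i => ‖a k‖ * (env i * ‖c k i‖) := fun k hk =>
    (Summable.of_nonneg_of_le (fun i => mul_nonneg (he i) (norm_nonneg _))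
      (fun i => mul_le_mul_of_nonneg_left ((tnrm_single hk fun k => c k i).trans (hγ i)) (he i))
      hs).mul_left _
  refine tnrm_dual (tsum_nonneg fun i => mul_nonneg (he i) (hγ0 i)) ?_
  calc ∑ k ∈ T, ‖a k‖ ^ 2 ≤ ∑ k ∈ T, ∑' i, ‖a k‖ * (env i * ‖c k i‖) := by
        refine sum_le_sum fun k hk => ?_
        rw [tsum_mul_left, sq]
        exact mul_le_mul_of_nonneg_left (h k hk) (norm_nonneg _)
    _ = ∑' i, ∑ k ∈ T, ‖a k‖ * (env i * ‖c k i‖) := (Summable.tsum_finsetSum hsum).symm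
    _ ≤ ∑' i, nrm T a * (env i * γ i) := by
        refine Summable.tsum_le_tsum (fun i => ?_) (summable_sum hsum) (hs.mul_left _)
        have e : ∑ k ∈ T, ‖a k‖ * (env i * ‖c k i‖) = env i * ∑ k ∈ T, ‖a k‖ * ‖c k i‖ := by
          rw [mul_sum]
          exact sum_congr rfl fun k _ => by ring
        rw [e, mul_left_comm]
        exact mul_le_mul_of_nonneg_left ((sum_mul_le_nrm T a fun k => c k i).trans
          (mul_le_mul_of_nonneg_left (hγ i) (nrm_nonneg _ _))) (he i)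
    _ = _ := tsum_mul_left

/-- The same with integrals; `env * ‖c k ·‖` is dominated by `env * γ`. -/
theorem nrm_integral {c : ι → ℝ → ℂ} {env γ : ℝ → ℝ} (he : ∀ t, 0 ≤ env t) (hm : Continuous env)
    (hc : ∀ k ∈ T, Continuous (c k)) (h : ∀ k ∈ T, ‖a k‖ ≤ ∫ t, env t * ‖c k t‖)
    (hγ : ∀ t, nrm T (fun k => c k t) ≤ γ t) (hs : Integrable fun t => env t * γ t) :
    nrm T a ≤ ∫ t, env t * γ t := by
  have hγ0 : ∀ i, 0 ≤ γ i := fun i => (nrm_nonneg _ _).trans (hγ i)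
  have hint : ∀ k ∈ T, Integrable fun t => ‖a k‖ * (env t * ‖c k t‖) := fun k hk =>
    (hs.mono' (hm.mul (hc k hk).norm).aestronglyMeasurable (Filter.Eventually.of_forall fun t => by
      change ‖env t * ‖c k t‖‖ ≤ _
      rw [Real.norm_of_nonneg (mul_nonneg (he t) (norm_nonneg _))]
      exact mul_le_mul_of_nonneg_left ((tnrm_single hk fun k => c k t).trans (hγ t))
        (he t))).const_mul _
  refine tnrm_dual (integral_nonneg fun i => mul_nonneg (he i) (hγ0 i)) ?_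
  calc ∑ k ∈ T, ‖a k‖ ^ 2 ≤ ∑ k ∈ T, ∫ t, ‖a k‖ * (env t * ‖c k t‖) := by
        refine sum_le_sum fun k hk => ?_
        rw [integral_const_mul, sq]
        exact mul_le_mul_of_nonneg_left (h k hk) (norm_nonneg _)
    _ = ∫ t, ∑ k ∈ T, ‖a k‖ * (env t * ‖c k t‖) := (integral_finsetSum T hint).symm
    _ ≤ ∫ t, nrm T a * (env t * γ t) := by
        refine integral_mono (integrable_finsetSum T hint) (hs.const_mul _) fun i => ?_
        have e : ∑ k ∈ T, ‖a k‖ * (env i * ‖c k i‖) = env i * ∑ k ∈ T, ‖a k‖ * ‖c k i‖ := by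
          rw [mul_sum]
          exact sum_congr rfl fun k _ => by ring
        simp only
        rw [e, mul_left_comm]
        exact mul_le_mul_of_nonneg_left ((sum_mul_le_nrm T a fun k => c k i).trans
          (mul_le_mul_of_nonneg_left (hγ i) (nrm_nonneg _ _))) (he i)
    _ = _ := integral_const_mul _ _

theorem mem_allm {X : ℝ} (hX : 0 ≤ X) {m : ℤ} : m ∈ allm X ↔ |(m : ℝ)| ≤ X := by
  rw [allm, mem_Icc, ← abs_le, ← Int.cast_abs, Int.abs_eq_natAbs, Int.ofNat_le, Nat.le_floor_iff hX,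
    Int.cast_natCast]

theorem card_allm {X : ℝ} (hX : 1 ≤ X) : ((allm X).card : ℝ) ≤ 3 * X := by
  have h1 : (allm X).card = 2 * ⌊X⌋₊ + 1 := by
    rw [allm, Int.card_Icc]
    omega
  have h2 := Nat.floor_le (zero_le_one.trans hX)
  rw [h1]
  push_cast
  linarith

theorem mem_sqf {M : ℝ} (hM : 0 ≤ M) {k : ℤ} : k ∈ sqf M ↔ |(k : ℝ)| ≤ M ∧ Squarefree k := by
  classical
  simp only [sqf, mem_filter, mem_allm hM]

theorem one_le_ll {M : ℝ} (hM : 1 ≤ M) : 1 ≤ ll M := by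
  have := Real.log_nonneg hM
  have := Real.log_nonneg (show 1 ≤ 1 + Real.log M by linarith)
  unfold ll
  linarith

theorem ll_mono {M M' : ℝ} (hM : 1 ≤ M) (h : M ≤ M') : ll M ≤ ll M' := by
  have h1 := Real.log_nonneg hM
  have h2 := Real.log_le_log (by linarith) h
  have := Real.log_le_log (show 0 < 1 + Real.log M by linarith)
    (show 1 + Real.log M ≤ 1 + Real.log M' by linarith)
  unfold ll
  linarith

theorem ll_mul {M T : ℝ} (hM : 1 ≤ M) (hT : 1 ≤ T) : ll (M * T) ≤ ll M * T := by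
  have h1 := Real.log_nonneg hM
  have h2 := Real.log_nonneg hT
  have h3 := one_le_ll hM
  have h4 : Real.log (1 + Real.log (M * T)) ≤
      Real.log (1 + Real.log M) + Real.log (1 + Real.log T) := by
    rw [Real.log_mul (show M ≠ 0 by linarith) (show T ≠ 0 by linarith),
      ← Real.log_mul (show 1 + Real.log M ≠ 0 by linarith) (show 1 + Real.log T ≠ 0 by linarith)]
    exact Real.log_le_log (by linarith) (by nlinarith)
  have h5 := Real.log_le_sub_one_of_pos (show 0 < 1 + Real.log T by linarith)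
  have h6 := Real.log_le_sub_one_of_pos (show 0 < T by linarith)
  have h7 : ll (M * T) ≤ ll M + (T - 1) := by
    unfold ll
    linarith
  nlinarith

theorem ll_pow {M : ℝ} (hM : 1 ≤ M) (n : ℕ) : ll (M ^ n) ≤ (n + 1) * ll M := by
  have h1 := Real.log_nonneg hM
  have h2 : (0 : ℝ) ≤ n := Nat.cast_nonneg n
  have h3 := one_le_ll hM
  have h4 : Real.log (1 + Real.log (M ^ n)) ≤ Real.log (1 + Real.log M) + Real.log (1 + n) := by
    rw [Real.log_pow, ← Real.log_mul (by linarith) (by linarith)]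
    exact Real.log_le_log (by positivity) (by nlinarith)
  have h5 := Real.log_le_sub_one_of_pos (show (0 : ℝ) < 1 + n by linarith)
  have h7 : ll (M ^ n) ≤ ll M + n := by
    unfold ll
    linarith
  nlinarith

/-- The weight is at least `exp (-π)` on `allm X`; `f (jac m)` is bounded, so the series converges. -/
theorem sum_allm_le_gsum {X : ℝ} (hX : 0 < X) {f : (ℕ → ℝ) → ℝ} (h0 : ∀ x, Adm x → 0 ≤ f x) {K : ℝ}
    (hK : ∀ x, Adm x → f x ≤ K) :
    ∑ m ∈ allm X, f (jac m) ≤ Real.exp π * (gsum X fun x => (f x : ℂ)).re := by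
  have hA : ∀ m : ℤ, Adm (jac m) := fun m p => by
    unfold jac
    rcases jacobiSym.trichotomy m p with e | e | e <;> simp [e]
  have h1 : Summable fun m : ℤ => Real.exp (-(π * ((m : ℝ) / X) ^ 2)) := by
    refine (summable_pow_mul_jacobiTheta₂_term_bound 0 (T := 1 / X ^ 2) (by positivity) 0).congr
      fun m => ?_
    rw [pow_zero, one_mul]
    congr 1
    ring
  have h2 : Summable fun m : ℤ => Real.exp (-(π * ((m : ℝ) / X) ^ 2)) * f (jac m) :=
    Summable.of_nonneg_of_le (fun m => mul_nonneg (Real.exp_pos _).le (h0 _ (hA m)))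
      (fun m => mul_le_mul_of_nonneg_left (hK _ (hA m)) (Real.exp_pos _).le) (h1.mul_right K)
  have h3 : (gsum X fun x => (f x : ℂ)).re =
      ∑' m : ℤ, Real.exp (-(π * ((m : ℝ) / X) ^ 2)) * f (jac m) := by
    unfold gsum
    simp only [← Complex.ofReal_mul]
    rw [← Complex.ofReal_tsum, Complex.ofReal_re]
  rw [h3]
  refine le_trans ?_ (mul_le_mul_of_nonneg_left (h2.sum_le_tsum (allm X)
    fun m _ => mul_nonneg (Real.exp_pos _).le (h0 _ (hA m))) (Real.exp_pos _).le)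
  rw [mul_sum]
  refine sum_le_sum fun m hm => ?_
  have h4 : ((m : ℝ) / X) ^ 2 ≤ 1 := by
    rw [sq_le_one_iff_abs_le_one, abs_div, abs_of_pos hX, div_le_one hX]
    exact (mem_allm hX.le).1 hm
  rw [← mul_assoc, ← Real.exp_add]
  refine le_mul_of_one_le_left (h0 _ (hA m)) (Real.one_le_exp ?_)
  nlinarith [Real.pi_pos]


end Pool.Agent.Lib.MP_03e5d0_nt
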