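import Pool.Agent.Lib.MP_03e5d0_nt.NDef
import Pool.Agent.Lib.MP_03e5d0_nt.MWw
import Pool.Agent.Lib.MP_03e5d0_nt.TNrm

set_option autoImplicit false

noncomputable section

namespace Pool.Agent.Lib.MP_03e5d0_nt

open Complex Finset MeasureTheory
open scoped NumberTheorySymbols Real ContDiff

/-! Consequences of the choice of parameters. -/

theorem Ui_two (L : ℝ) (i : ℕ) : Ui (2 * L) i = L / 2 ^ i := by
  rw [Ui, pow_succ]
  field_simp

theorem npm_large (A : ℝ) : ∃ X₀ : ℝ, ∀ X, X₀ ≤ X → 3 ≤ X ∧ 1 ≤ Real.log (Real.log X) ∧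
    A ≤ 16 * Real.log (Real.log X) ∧ 512 * Real.log (Real.log X) ≤ Real.log X := by
  have h1 : ∀ᶠ L : ℝ in Filter.atTop, 1 ≤ Real.log L ∧ A ≤ 16 * Real.log L ∧
      512 * Real.log L ≤ L := by
    filter_upwards [Real.tendsto_log_atTop.eventually_ge_atTop 1,
      Real.tendsto_log_atTop.eventually_ge_atTop (A / 16),
      Real.isLittleO_log_id_atTop.bound (show (0 : ℝ) < 1 / 512 by norm_num),
      Filter.eventually_ge_atTop (0 : ℝ)] with L h1 h2 h3 h4
    rw [id, Real.norm_of_nonneg h4, Real.norm_of_nonneg (by linarith)] at h3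
    exact ⟨h1, by linarith, by linarith⟩
  exact Filter.eventually_atTop.1
    ((Filter.eventually_ge_atTop 3).and (Real.tendsto_log_atTop.eventually h1))

/-- Take the largest `I` with `16 log log X ≤ log X / 2 ^ I`. -/
theorem exists_I : ∃ X₀ : ℝ, ∀ X, X₀ ≤ X → ∃ I : ℕ,
    16 * Real.log (Real.log X) ≤ Ui (2 * Real.log X) I ∧
      Ui (2 * Real.log X) I ≤ 32 * Real.log (Real.log X) := by
  obtain ⟨X₀, hX₀⟩ := npm_large 0
  refine ⟨X₀, fun X hX => ?_⟩
  obtain ⟨-, h1, -, h2⟩ := hX₀ X hX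
  have h3 : 0 < 16 * Real.log (Real.log X) := by linarith
  obtain ⟨I, h4, h5⟩ := exists_nat_pow_near (x := Real.log X / (16 * Real.log (Real.log X)))
    (y := 2) (by rw [le_div_iff₀ h3]; linarith) one_lt_two
  rw [le_div_iff₀ h3] at h4
  rw [div_lt_iff₀ h3, pow_succ] at h5
  refine ⟨I, ?_, ?_⟩
  · rw [Ui_two, le_div_iff₀ (by positivity)]
    linarith
  · rw [Ui_two, div_le_iff₀ (by positivity)]
    linarith

/-- Everything that is used about the parameters, for large `X`. -/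
theorem pm_facts (A : ℝ) : ∃ X₀ : ℝ, ∀ (X R : ℝ) (I : ℕ), X₀ ≤ X → Pm A R X I →
    3 ≤ X ∧ 160 ≤ Real.log X ∧ 16 ≤ R ∧ 1 ≤ Real.log X / A ∧ (I : ℝ) ≤ Real.log X ∧
    4 * Ui (2 * Real.log X) I ≤ Real.log X / 4 ∧ ∀ i ≤ I,
      1 ≤ Vi A (Real.log X) i ∧ Vi A (Real.log X) i ≤ Real.log X / A ∧
      16 * Real.log (Real.log X) ≤ Ui (2 * Real.log X) i ∧ Ui (2 * Real.log X) i ≤ Real.log X ∧
      si A R (Real.log X) i * Vi A (Real.log X) i = R * (1 + i) ∧
      R / Real.log X ≤ si A R (Real.log X) i ∧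
      si A R (Real.log X) i * Real.log X ≤ R ^ 2 * 4 ^ i ∧
      Real.log X / Vi A (Real.log X) i ≤ R * 2 ^ i := by
  obtain ⟨X₀, hX₀⟩ := npm_large A
  refine ⟨X₀, fun X R I hX h => ?_⟩
  obtain ⟨h0, h1, h2, h3⟩ := hX₀ X hX
  obtain ⟨hA, hAR, hR, hI, hI'⟩ := h
  generalize Real.log X = L at *
  have hA0 : 0 < A := by linarith
  have hL0 : 0 < L := by linarith
  have hR0 : 0 < R := by linarith
  have hp : ∀ i : ℕ, (1 : ℝ) + i ≤ 2 ^ i := fun i => by
    have := Nat.lt_two_pow_self (n := i)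
    exact_mod_cast (by omega : 1 + i ≤ 2 ^ i)
  refine ⟨h0, by linarith, by linarith, ?_, ?_, by linarith, fun i hi => ?_⟩
  · rw [le_div_iff₀ hA0]
    linarith
  · rw [Ui_two, le_div_iff₀ (by positivity)] at hI
    have h4 := hp I
    have h5 : (0 : ℝ) < 2 ^ I := by positivity
    nlinarith
  have h4 : Ui (2 * L) I ≤ Ui (2 * L) i := by
    rw [Ui_two, Ui_two]
    exact div_le_div_of_nonneg_left hL0.le (by positivity) (pow_le_pow_right₀ one_le_two hi)
  have h5 : Ui (2 * L) i ≤ L := by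
    rw [Ui_two]
    exact div_le_self hL0.le (one_le_pow₀ one_le_two)
  have h6 : 1 ≤ Vi A L i := by
    rw [Vi, le_div_iff₀ hA0]
    linarith
  have h7 : Vi A L i ≤ L / A := div_le_div_of_nonneg_right h5 hA0.le
  have h8 : L / Vi A L i = A * 2 ^ i := by
    rw [Vi, Ui_two]
    field_simp
  have h9 : L / Vi A L i ≤ R * 2 ^ i := by
    rw [h8]
    gcongr
  have hi0 : (0 : ℝ) ≤ i := Nat.cast_nonneg i
  refine ⟨h6, h7, by linarith, h5, div_mul_cancel₀ _ (by linarith), ?_, ?_, h9⟩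
  · refine div_le_div₀ (by positivity) (by nlinarith) (by linarith) (h7.trans ?_)
    exact div_le_self hL0.le (by linarith)
  · calc si A R L i * L = R * (1 + i) * (L / Vi A L i) := by rw [si]; ring
      _ ≤ R * 2 ^ i * (R * 2 ^ i) := by
          have := hp i
          have h10 : 0 ≤ L / Vi A L i := by positivity
          gcongr
      _ = R ^ 2 * 4 ^ i := by
          rw [show (4 : ℝ) = 2 * 2 by norm_num, mul_pow]
          ring

/-- The conductor is about `X ^ 2`. -/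
theorem ell_near {c₀ : ℝ} (hc : 0 < c₀) (C₀ : ℝ) : ∃ cb : ℝ, ∀ X C d : ℝ, 0 < X → X / 2 ≤ |d| → |d| ≤ X →
    c₀ * d ^ 2 ≤ C → C ≤ C₀ * d ^ 2 → 0 < C ∧ |Real.log X - Real.log (√C / (2 * π))| ≤ cb := by
  refine ⟨|Real.log (2 * π)| + |Real.log c₀| + |Real.log C₀| + Real.log 2,
    fun X C d hX h1 h2 h3 h4 => ?_⟩
  have hd : 0 < |d| := by linarith
  have hd2 : 0 < d ^ 2 := by
    rw [← sq_abs]
    positivity
  have hC : 0 < C := lt_of_lt_of_le (by positivity) h3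
  have hC₀ : 0 < C₀ := (mul_pos_iff_of_pos_right hd2).1 (hC.trans_le h4)
  refine ⟨hC, ?_⟩
  have e1 : Real.log (d ^ 2) = 2 * Real.log |d| := by
    rw [← sq_abs, Real.log_pow]
    norm_num
  have h5 := Real.log_le_log (by positivity) h3
  have h6 := Real.log_le_log hC h4
  rw [Real.log_mul hc.ne' hd2.ne', e1] at h5
  rw [Real.log_mul hC₀.ne' hd2.ne', e1] at h6
  have h7 := Real.log_le_log (by positivity) h1
  have h8 := Real.log_le_log hd h2
  rw [Real.log_div hX.ne' two_ne_zero] at h7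
  rw [Real.log_div (Real.sqrt_pos.2 hC).ne' (by positivity), Real.log_sqrt hC.le, abs_le]
  have h9 : 0 ≤ Real.log 2 := Real.log_nonneg one_le_two
  have a1 := le_abs_self (Real.log (2 * π))
  have a2 := neg_abs_le (Real.log (2 * π))
  have a3 := neg_abs_le (Real.log c₀)
  have a4 := le_abs_self (Real.log C₀)
  have a5 := abs_nonneg (Real.log c₀)
  have a6 := abs_nonneg (Real.log C₀)
  constructor <;> linarith

theorem npm_pow_le_exp (e : ℕ) {b : ℝ} (hb : 0 < b) : ∃ C : ℝ, 0 ≤ C ∧ ∀ R : ℝ, 0 ≤ R →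
    R ^ e ≤ C * Real.exp (b * R) := by
  refine ⟨e.factorial / b ^ e, by positivity, fun R hR => ?_⟩
  have h := Real.pow_div_factorial_le_exp (b * R) (by positivity) e
  rw [div_le_iff₀ (by positivity), mul_pow] at h
  rw [div_mul_eq_mul_div, le_div_iff₀ (by positivity)]
  linarith

/-- Powers of `log X` are small. -/
theorem log_small (K : ℝ) (n : ℕ) {b : ℝ} (hb : 0 < b) : ∃ L₀ : ℝ, ∀ L, L₀ ≤ L →
    K * (1 + L) ^ n ≤ Real.exp (b * L) := by
  obtain ⟨C, hC, h⟩ := npm_pow_le_exp (n + 1) hb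
  refine ⟨|K| * C * Real.exp b, fun L hL => ?_⟩
  have hL0 : 0 ≤ L := le_trans (by positivity) hL
  have h1 := h (1 + L) (by positivity)
  rw [mul_add, mul_one, Real.exp_add, pow_succ] at h1
  refine le_of_mul_le_mul_right ?_ (show 0 < 1 + L by positivity)
  calc K * (1 + L) ^ n * (1 + L) ≤ |K| * ((1 + L) ^ n * (1 + L)) := by
        rw [mul_assoc]
        exact mul_le_mul_of_nonneg_right (le_abs_self K) (by positivity)
    _ ≤ |K| * (C * (Real.exp b * Real.exp (b * L))) := by gcongr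
    _ = Real.exp (b * L) * (|K| * C * Real.exp b) := by ring
    _ ≤ Real.exp (b * L) * (1 + L) := by
        gcongr
        linarith

theorem pow_le_exp (e : ℕ) {b : ℝ} (hb : 0 < b) : ∃ C : ℝ, 0 ≤ C ∧ ∀ R : ℝ, 0 ≤ R →
    R ^ e ≤ C * Real.exp (b * R) := by
  exact npm_pow_le_exp e hb

/-- A finite sum of series. -/
theorem sum_tsum_le {ι : Type} (T : Finset ι) {g : ℕ → ℝ} (hg : ∀ n, 0 ≤ g n) (hs : Summable g)
    {γ : ι → ℕ → ℝ} (hγ : ∀ d ∈ T, ∀ n, |γ d n| ≤ g n) {a : ι → ℕ → ℂ} {b : ι → ℂ} {K : ℝ}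
    (hb : ∀ d ∈ T, HasSum (fun n => (γ d n : ℂ) * a d n) (b d)) (h : ∀ n, ∑ d ∈ T, ‖a d n‖ ≤ K) :
    ∑ d ∈ T, ‖b d‖ ≤ (∑' n, g n) * K := by
  have h1 : ∀ d ∈ T, Summable fun n => g n * ‖a d n‖ := fun d hd =>
    Summable.of_nonneg_of_le (fun n => mul_nonneg (hg n) (norm_nonneg _))
      (fun n => mul_le_mul_of_nonneg_left
        ((single_le_sum (f := fun d => ‖a d n‖) (fun _ _ => norm_nonneg _) hd).trans (h n)) (hg n))
      (hs.mul_right K)
  have h2 : ∀ d ∈ T, ‖b d‖ ≤ ∑' n, g n * ‖a d n‖ := fun d hd => by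
    refine (hb d hd).norm_le_of_bounded (h1 d hd).hasSum fun n => ?_
    rw [norm_mul, Complex.norm_real, Real.norm_eq_abs]
    exact mul_le_mul_of_nonneg_right (hγ d hd n) (norm_nonneg _)
  refine (sum_le_sum h2).trans ?_
  rw [← Summable.tsum_finsetSum h1, ← tsum_mul_right]
  refine Summable.tsum_le_tsum (fun n => ?_) (summable_sum h1) (hs.mul_right K)
  rw [← mul_sum]
  exact mul_le_mul_of_nonneg_left (h n) (hg n)

end Pool.Agent.Lib.MP_03e5d0_nt
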