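import Pool.Agent.Lib.MP_03e5d0_nt.NDef
import Pool.Agent.Lib.MP_03e5d0_nt.MEul
import Pool.Agent.Lib.MP_03e5d0_nt.MPs2
import Pool.Agent.Lib.MP_03e5d0_nt.TEx

set_option autoImplicit false

noncomputable section

namespace Pool.Agent.Lib.MP_03e5d0_nt

open Complex Finset MeasureTheory
open scoped NumberTheorySymbols Real ContDiff

/-! Second moments of ratios of Euler products in the random model. -/

theorem nrat1_one {a : ℝ} {z₁ z₂ : ℂ} (ha : |a| ≤ 2) (h₁ : ‖z₁‖ ≤ 1 / 10) (h₂ : ‖z₂‖ ≤ 1 / 10) :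
    ‖(1 - (a : ℂ) * z₁ + ((1 : ℝ) : ℂ) * z₁ ^ 2)⁻¹ * (1 - (a : ℂ) * z₂ + ((1 : ℝ) : ℂ) * z₂ ^ 2)‖ ^ 2 ≤
      1 + 2 * (a * (z₁ - z₂).re) + 50 * (‖z₁ - z₂‖ * (‖z₁‖ + ‖z₂‖)) := by
  have hd := mpp_den ha (b := 1) (by simp) h₁
  have hw := mpp_w ha (b := 1) (by simp) h₁
  generalize hA : (1 - (a : ℂ) * z₁ + ((1 : ℝ) : ℂ) * z₁ ^ 2) = A at hd
  have hA0 : A ≠ 0 := fun h => by rw [h, norm_zero] at hd; linarith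
  have hi : ‖A⁻¹‖ ≤ 2 := by
    rw [norm_inv]
    exact inv_le_of_inv_le₀ two_pos (by linarith)
  obtain ⟨e, he⟩ : ∃ e : ℂ, e = (z₁ - z₂) * ((a * ((a : ℂ) * z₁ - ((1 : ℝ) : ℂ) * z₁ ^ 2) - (z₁ + z₂)) * A⁻¹) :=
    ⟨_, rfl⟩
  have h1 : A⁻¹ * (1 - (a : ℂ) * z₂ + ((1 : ℝ) : ℂ) * z₂ ^ 2) = 1 + (a * (z₁ - z₂) + e) := by
    rw [he]
    field_simp
    rw [← hA]
    push_cast
    ring
  have n1 := norm_nonneg z₁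
  have n2 := norm_nonneg z₂
  have n3 := norm_nonneg (z₁ - z₂)
  have n4 : ‖z₁ - z₂‖ ≤ ‖z₁‖ + ‖z₂‖ := norm_sub_le _ _
  have ha' : ‖(a : ℂ)‖ ≤ 2 := by rwa [norm_real]
  have h2 : ‖e‖ ≤ ‖z₁ - z₂‖ * (11 * (‖z₁‖ + ‖z₂‖)) := by
    rw [he, norm_mul, norm_mul]
    refine mul_le_mul_of_nonneg_left ?_ n3
    have h3 : ‖a * ((a : ℂ) * z₁ - ((1 : ℝ) : ℂ) * z₁ ^ 2) - (z₁ + z₂)‖ ≤
        2 * (21 / 10 * ‖z₁‖) + (‖z₁‖ + ‖z₂‖) :=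
      norm_sub_le_of_le (norm_mul_le_of_le ha' hw) (norm_add_le _ _)
    calc _ ≤ (2 * (21 / 10 * ‖z₁‖) + (‖z₁‖ + ‖z₂‖)) * 2 := by gcongr
      _ ≤ _ := by linarith
  have h4 : ‖(a : ℂ) * (z₁ - z₂) + e‖ ≤ 5 * ‖z₁ - z₂‖ := by
    refine (norm_add_le_of_le (norm_mul_le_of_le ha' le_rfl) h2).trans ?_
    nlinarith
  have h5 : ∀ w : ℂ, ‖1 + w‖ ^ 2 = 1 + 2 * w.re + ‖w‖ ^ 2 := fun w => by
    rw [← normSq_eq_norm_sq, ← normSq_eq_norm_sq, normSq_apply, normSq_apply]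
    simp
    ring
  have h6 : e.re ≤ ‖e‖ := re_le_norm e
  have h7 : ‖(a : ℂ) * (z₁ - z₂) + e‖ ^ 2 ≤ (5 * ‖z₁ - z₂‖) ^ 2 := by gcongr
  rw [h1, h5, add_re, re_ofReal_mul]
  nlinarith

/-- For `u = ±1` the ratio is `1 + w`, `w = (z₁ - z₂) (l u - z₁ - z₂) * lf l u z₁ =
l u (z₁ - z₂) + O(‖z₁ - z₂‖ (‖z₁‖ + ‖z₂‖))`; `‖1 + w‖ ^ 2 = 1 + 2 re w + ‖w‖ ^ 2`; the terms linear in
`u` cancel; for `u = 0` the ratio is one. -/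
theorem rat_local : ∃ C : ℝ, 0 ≤ C ∧ ∀ (l δ : ℝ) (z₁ z₂ : ℂ), |l| ≤ 2 → 0 ≤ δ → δ ≤ 1 → ‖z₁‖ ≤ 1 / 10 →
    ‖z₂‖ ≤ 1 / 10 → e1 δ (fun u => ‖lf l u z₁ * (lf l u z₂)⁻¹‖ ^ 2) ≤
      Real.exp (C * (‖z₁ - z₂‖ * (‖z₁‖ + ‖z₂‖))) := by
  refine ⟨50, by norm_num, fun l δ z₁ z₂ hl h0 h1 h₁ h₂ => ?_⟩
  have a1 := nrat1_one (a := l * 1) (by rwa [mul_one]) h₁ h₂
  have a2 := nrat1_one (a := l * -1) (by rwa [mul_neg_one, abs_neg]) h₁ h₂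
  have a3 : 0 ≤ ‖z₁ - z₂‖ * (‖z₁‖ + ‖z₂‖) := by positivity
  refine le_trans ?_ (Real.add_one_le_exp _)
  simp only [e1, lf_zero', inv_one, mul_one, norm_one, one_pow, smul_eq_mul]
  simp only [lf, inv_inv, one_pow, neg_one_sq, mul_one] at a1 a2 ⊢
  nlinarith

/-- If `re a ≤ re b` then `exp (-a) - exp (-b) = exp (-a) (1 - exp (a - b))`;
`Complex.norm_exp_sub_one_le`. -/
theorem cpow_diff {p : ℕ} (hp : 0 < p) {σ : ℝ} {s₁ s₂ : ℂ} (h₁ : 1 / 2 + σ ≤ s₁.re)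
    (h₂ : 1 / 2 + σ ≤ s₂.re) : ‖(p : ℂ) ^ (-s₁) - (p : ℂ) ^ (-s₂)‖ ≤
      2 * (Real.exp (-σ * Real.log p) / √p) * min 1 (‖s₁ - s₂‖ * Real.log p) := by
  wlog h : s₁.re ≤ s₂.re generalizing s₁ s₂
  · rw [norm_sub_rev, norm_sub_rev s₁]
    exact this h₂ h₁ (le_of_not_ge h)
  have hp' : (0 : ℝ) < p := by exact_mod_cast hp
  have hl : 0 ≤ Real.log p := Real.log_natCast_nonneg p
  have e : ∀ s : ℂ, (p : ℂ) ^ (-s) = cexp (-(Real.log p * s)) := fun s => by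
    rw [cpow_def_of_ne_zero (by exact_mod_cast hp.ne'), ← natCast_log, mul_neg]
  have h3 : (p : ℂ) ^ (-s₁) - (p : ℂ) ^ (-s₂) =
      -(cexp (-(Real.log p * s₁)) * (cexp (Real.log p * (s₁ - s₂)) - 1)) := by
    rw [e, e, mul_sub, ← Complex.exp_add]
    ring_nf
  have h4 : ‖cexp (-(Real.log p * s₁))‖ ≤ Real.exp (-σ * Real.log p) / √p := by
    rw [norm_exp, neg_re, re_ofReal_mul, Real.sqrt_eq_rpow, Real.rpow_def_of_pos hp', ← Real.exp_sub]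
    exact Real.exp_le_exp.2 (by nlinarith)
  have h5 : ‖cexp (Real.log p * (s₁ - s₂)) - 1‖ ≤ 2 * min 1 (‖s₁ - s₂‖ * Real.log p) := by
    have h6 : ‖(Real.log p : ℂ) * (s₁ - s₂)‖ = ‖s₁ - s₂‖ * Real.log p := by
      rw [norm_mul, norm_real, Real.norm_of_nonneg hl, mul_comm]
    rcases le_total 1 (‖s₁ - s₂‖ * Real.log p) with h7 | h7
    · rw [min_eq_left h7]
      have h8 : ‖cexp (Real.log p * (s₁ - s₂))‖ ≤ 1 := by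
        rw [norm_exp, re_ofReal_mul, sub_re, Real.exp_le_one_iff]
        nlinarith
      exact (norm_sub_le_of_le h8 norm_one.le).trans (by norm_num)
    · rw [min_eq_right h7, ← h6]
      exact Complex.norm_exp_sub_one_le (h6 ▸ h7)
  rw [h3, norm_neg, norm_mul]
  calc _ ≤ Real.exp (-σ * Real.log p) / √p * (2 * min 1 (‖s₁ - s₂‖ * Real.log p)) := by gcongr
    _ = _ := by ring

end Pool.Agent.Lib.MP_03e5d0_nt
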