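import Pool.Agent.Lib.MP_03e5d0_nt.NDef
import Pool.Agent.Lib.MP_03e5d0_nt.MEul
import Pool.Agent.Lib.MP_03e5d0_nt.MTop

set_option autoImplicit false

noncomputable section

namespace Pool.Agent.Lib.MP_03e5d0_nt

open Complex Finset MeasureTheory
open scoped NumberTheorySymbols Real ContDiff

/-! Fourier representations of the truncation and of its tail. -/

open scoped FourierTransform in
theorem nrep1_pow {g : ℝ → ℂ} (hg : ContDiff ℝ ∞ g) (hi : ∀ i, Integrable (iteratedDeriv i g))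
    (i : ℕ) (t : ℝ) : |t| ^ i * ‖ft g t‖ ≤ ∫ y, ‖iteratedDeriv i g y‖ := by
  have e := congrFun (Real.fourier_iteratedDeriv (N := ⊤) (n := i) hg (fun n _ => hi n) le_top)
    (t / (2 * π))
  have e1 : ‖𝓕 (iteratedDeriv i g) (t / (2 * π))‖ ≤ ∫ y, ‖iteratedDeriv i g y‖ :=
    VectorFourier.norm_fourierIntegral_le_integral_norm _ _ _ _ _
  have hp : (π : ℂ) ≠ 0 := ofReal_ne_zero.mpr Real.pi_ne_zero
  have e2 : (2 * π * I * ((t / (2 * π) : ℝ) : ℂ)) = I * t := by
    push_cast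
    field_simp
  rw [e, e2, norm_smul, norm_pow, norm_mul, norm_I, one_mul, norm_real, Real.norm_eq_abs] at e1
  have e3 : ‖(2 * π : ℂ)⁻¹‖ ≤ 1 := by
    rw [norm_inv, norm_mul, norm_real, Real.norm_eq_abs, abs_of_pos Real.pi_pos]
    refine inv_le_one_of_one_le₀ ?_
    have := Real.pi_gt_three
    simp only [Complex.norm_ofNat]
    linarith
  refine le_trans (mul_le_mul_of_nonneg_left ?_ (by positivity)) e1
  rw [tft_eq, norm_mul]
  exact mul_le_of_le_one_left (norm_nonneg _) e3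

theorem nrep1_le {g : ℝ → ℂ} (hg : ContDiff ℝ ∞ g) (hi : ∀ i, Integrable (iteratedDeriv i g))
    {j : ℕ} {K : ℝ} (h0 : ∫ y, ‖iteratedDeriv 0 g y‖ ≤ K) (hj : ∫ y, ‖iteratedDeriv j g y‖ ≤ K)
    (t : ℝ) : ‖ft g t‖ ≤ 2 ^ j * 2 * K / (1 + |t|) ^ j := by
  have e0 := (nrep1_pow hg hi 0 t).trans h0
  have e1 := (nrep1_pow hg hi j t).trans hj
  have e3 : (1 + |t|) ^ j ≤ 2 ^ j * (1 + |t| ^ j) := by
    refine (add_pow_le zero_le_one (abs_nonneg t) j).trans ?_
    rw [one_pow]
    exact mul_le_mul_of_nonneg_right (pow_le_pow_right₀ one_le_two (Nat.sub_le _ _))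
      (by positivity)
  rw [le_div_iff₀ (by positivity)]
  rw [pow_zero, one_mul] at e0
  calc ‖ft g t‖ * (1 + |t|) ^ j ≤ ‖ft g t‖ * (2 ^ j * (1 + |t| ^ j)) :=
        mul_le_mul_of_nonneg_left e3 (norm_nonneg _)
    _ = 2 ^ j * (‖ft g t‖ + |t| ^ j * ‖ft g t‖) := by ring
    _ ≤ 2 ^ j * (2 * K) := mul_le_mul_of_nonneg_left (by linarith) (by positivity)
    _ = _ := by ring

theorem nrep1_inv {W : ℝ → ℂ} (hc : Continuous W) (hi : Integrable W) (h1 : Integrable (ft W))
    (y : ℝ) : W y = ∫ t : ℝ, ft W t * ex t y := by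
  have hp : (π : ℂ) ≠ 0 := ofReal_ne_zero.mpr Real.pi_ne_zero
  have hp' : (2 * π : ℝ) ≠ 0 := by positivity
  have h2 : Integrable (FourierTransform.fourier W) := by
    refine ((h1.comp_mul_left' hp').const_mul (2 * π : ℂ)).congr (ae_of_all _ fun v => ?_)
    simp only [tft_eq]
    rw [mul_div_cancel_left₀ _ hp', ← mul_assoc, mul_inv_cancel₀ (mul_ne_zero two_ne_zero hp), one_mul]
  have h3 := congrFun (hc.fourierInv_fourier_eq hi h2) y
  rw [← h3, Real.fourierInv_eq']
  have h4 := Measure.integral_comp_div (fun v : ℝ =>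
    cexp (((2 * π * inner ℝ v y : ℝ) : ℂ) * I) • FourierTransform.fourier W v) (2 * π)
  have h5 : ∀ t : ℝ, ft W t * ex t y = (2 * π : ℂ)⁻¹ *
      (cexp (((2 * π * inner ℝ (t / (2 * π)) y : ℝ) : ℂ) * I) •
        FourierTransform.fourier W (t / (2 * π))) := by
    intro t
    rw [tft_eq, smul_eq_mul, mul_assoc, mul_comm (FourierTransform.fourier W _)]
    congr 2
    simp only [ex, RCLike.inner_apply, conj_trivial]
    congr 1
    push_cast
    field_simp
  simp only [h5]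
  rw [integral_const_mul, h4, abs_of_pos (by positivity), real_smul, ← mul_assoc]
  push_cast
  rw [inv_mul_cancel₀ (mul_ne_zero two_ne_zero hp), one_mul]

/-- Fourier inversion for a smooth function all of whose derivatives are integrable (no compact
support): as in `TFt` (`tft_eq`, `tft_pow`, `Sm.ft_le`, `Sm.inv`), with `Real.fourier_iteratedDeriv`
and `Continuous.fourierInv_fourier_eq`. -/
theorem ft_rep (j : ℕ) : ∃ C : ℝ, 0 ≤ C ∧ ∀ (g : ℝ → ℂ) (K : ℝ), ContDiff ℝ ∞ g →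
    (∀ i, Integrable (iteratedDeriv i g)) → (∀ i ≤ j, ∫ y, ‖iteratedDeriv i g y‖ ≤ K) →
    Continuous (ft g) ∧ Integrable (ft g) ∧ (∀ t, ‖ft g t‖ ≤ C * K / (1 + |t|) ^ j) ∧
      ∀ y, g y = ∫ t, ft g t * ex t y := by
  refine ⟨2 ^ j * 2, by positivity, fun g K hg hi hK => ?_⟩
  have hi0 : Integrable g := by simpa using hi 0
  have hc : Continuous (ft g) := by
    have e : ft g = fun t => (2 * π : ℂ)⁻¹ * FourierTransform.fourier g (t / (2 * π)) :=
      funext (tft_eq g)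
    have hc : Continuous (FourierTransform.fourier g) :=
      VectorFourier.fourierIntegral_continuous Real.continuous_fourierChar
        (innerSL ℝ).continuous₂ hi0
    rw [e]
    exact continuous_const.mul (hc.comp (continuous_id.div_const _))
  have hI : Integrable (ft g) := by
    refine (tft_inv_sq.const_mul (2 ^ 2 * 2 * max (∫ y, ‖iteratedDeriv 0 g y‖)
      (∫ y, ‖iteratedDeriv 2 g y‖))).mono' hc.aestronglyMeasurable (ae_of_all _ fun t => ?_)
    rw [mul_one_div]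
    exact nrep1_le hg hi (le_max_left _ _) (le_max_right _ _) t
  exact ⟨hc, hI, nrep1_le hg hi (hK 0 (Nat.zero_le j)) (hK j le_rfl),
    nrep1_inv hg.continuous hi0 hI⟩

theorem nrep1_S : ContDiff ℝ ∞ fun z : ℝ => (Real.smoothTransition (z - 1) : ℂ) :=
  ofRealCLM.contDiff.comp (Real.smoothTransition.contDiff.comp (contDiff_id.sub contDiff_const))

theorem nrep1_Sbd (j : ℕ) : ∃ B, 0 ≤ B ∧ ∀ i ≤ j, ∀ y,
    ‖iteratedDeriv i (fun z : ℝ => (Real.smoothTransition (z - 1) : ℂ)) y‖ ≤ B := by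
  obtain ⟨B, hB⟩ := exists_sm j (a := 1) (b := 2) (contDiff_infty_iff_deriv.1 nrep1_S).2
    fun y hy => by
      obtain ⟨c, hc⟩ := mtop_ev hy
      have : (fun z : ℝ => (Real.smoothTransition (z - 1) : ℂ)) =ᶠ[nhds y] fun _ => (c : ℂ) :=
        hc.mono fun z hz => by simp only [hz]
      rw [this.deriv_eq, deriv_const]
  refine ⟨max 1 B, le_max_of_le_left zero_le_one, fun i hi y => ?_⟩
  cases i with
  | zero =>
    rw [iteratedDeriv_zero, norm_real, Real.norm_of_nonneg (Real.smoothTransition.nonneg _)]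
    exact le_max_of_le_left (Real.smoothTransition.le_one _)
  | succ i =>
    rw [iteratedDeriv_succ']
    exact le_max_of_le_right (hB.bd i (by omega) y)

theorem nrep1_exp (a : ℝ) (i : ℕ) : iteratedDeriv i (fun θ : ℝ => (Real.exp (-a * θ) : ℂ)) =
    fun θ : ℝ => (((-a) ^ i * Real.exp (-a * θ) : ℝ) : ℂ) := by
  induction i with
  | zero => simp
  | succ i ih =>
    rw [iteratedDeriv_succ, ih]
    funext θ
    rw [((((hasDerivAt_id' θ).const_mul (-a)).exp.const_mul ((-a) ^ i)).ofReal_comp).deriv]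
    congr 1
    ring

theorem nrep1_E (a : ℝ) : ContDiff ℝ ∞ fun θ : ℝ => (Real.exp (-a * θ) : ℂ) :=
  ofRealCLM.contDiff.comp (Real.contDiff_exp.comp (contDiff_const.mul contDiff_id))

theorem nrep1_pt {j i : ℕ} {B a : ℝ} (ha : 0 < a) (hB : ∀ i ≤ j, ∀ y,
    ‖iteratedDeriv i (fun z : ℝ => (Real.smoothTransition (z - 1) : ℂ)) y‖ ≤ B) (hi : i ≤ j)
    (y : ℝ) : ‖iteratedDeriv i
      (fun θ : ℝ => ((Real.exp (-a * θ) * Real.smoothTransition (θ - 1) : ℝ) : ℂ)) y‖ ≤
      (Set.Ici (1 : ℝ)).indicator (fun y => B * (a + 1) ^ i * Real.exp (-a * y)) y := by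
  by_cases hy : y ∈ Set.Ici (1 : ℝ)
  · rw [Set.indicator_of_mem hy]
    simp only [ofReal_mul]
    rw [iteratedDeriv_fun_mul (tsm_of_le (nrep1_E a).contDiffAt) (tsm_of_le nrep1_S.contDiffAt),
      add_pow, mul_sum, sum_mul]
    refine (norm_sum_le _ _).trans (sum_le_sum fun k _ => ?_)
    rw [nrep1_exp, norm_mul, norm_mul, norm_real, norm_mul, norm_pow, norm_neg, Complex.norm_natCast,
      Real.norm_of_nonneg ha.le, Real.norm_of_nonneg (Real.exp_pos _).le]
    refine (mul_le_mul_of_nonneg_left (hB (i - k) (by omega) y) (by positivity)).trans (le_of_eq ?_)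
    ring
  · rw [Set.indicator_of_notMem hy]
    have e : (fun θ : ℝ => ((Real.exp (-a * θ) * Real.smoothTransition (θ - 1) : ℝ) : ℂ)) =ᶠ[nhds y]
        fun _ => 0 := by
      filter_upwards [Iio_mem_nhds (not_le.1 hy)] with z hz
      rw [Real.smoothTransition.zero_of_nonpos (sub_nonpos.2 (le_of_lt hz)), mul_zero, ofReal_zero]
    rw [e.iteratedDeriv_eq i]
    simp

/-- The function `g θ = exp (-a θ) * smoothTransition (θ - 1)`: the `i`-th derivative vanishes for
`θ < 1` and is at most `C (1 + a) ^ i exp (-a θ)` (Leibniz, `mtop_bd` or a direct bound for the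
derivatives of `smoothTransition`); `∫_1^∞ exp (-a θ) = exp (-a) / a`. -/
theorem tail_fun (j : ℕ) : ∃ C : ℝ, 0 ≤ C ∧ ∀ a : ℝ, 1 / 2 ≤ a →
    ContDiff ℝ ∞ (fun θ : ℝ => ((Real.exp (-a * θ) * Real.smoothTransition (θ - 1) : ℝ) : ℂ)) ∧
    (∀ i, Integrable (iteratedDeriv i
      fun θ : ℝ => ((Real.exp (-a * θ) * Real.smoothTransition (θ - 1) : ℝ) : ℂ))) ∧
    ∀ i ≤ j, ∫ y, ‖iteratedDeriv i
      (fun θ : ℝ => ((Real.exp (-a * θ) * Real.smoothTransition (θ - 1) : ℝ) : ℂ)) y‖ ≤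
        C * Real.exp (-(a / 2)) := by
  obtain ⟨B, hB0, hB⟩ := nrep1_Sbd j
  refine ⟨B * (2 ^ j * j.factorial * Real.exp (1 / 2)) * 2, by positivity, fun a ha => ?_⟩
  have ha0 : 0 < a := by linarith
  have hg : ContDiff ℝ ∞
      (fun θ : ℝ => ((Real.exp (-a * θ) * Real.smoothTransition (θ - 1) : ℝ) : ℂ)) := by
    simpa only [ofReal_mul] using (nrep1_E a).mul nrep1_S
  have hI : ∀ c : ℝ, Integrable ((Set.Ici (1 : ℝ)).indicator fun y => c * Real.exp (-a * y)) :=
    fun c => (integrable_indicator_iff measurableSet_Ici).2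
      (((integrableOn_Ici_iff_integrableOn_Ioi).2 (exp_neg_integrableOn_Ioi 1 ha0)).const_mul c)
  have hi : ∀ i, Integrable (iteratedDeriv i
      fun θ : ℝ => ((Real.exp (-a * θ) * Real.smoothTransition (θ - 1) : ℝ) : ℂ)) := fun i => by
    obtain ⟨B', -, hB'⟩ := nrep1_Sbd i
    exact (hI _).mono' (hg.continuous_iteratedDeriv i
      (by exact_mod_cast le_top)).aestronglyMeasurable (ae_of_all _ (nrep1_pt ha0 hB' le_rfl))
  refine ⟨hg, hi, fun i hij => (integral_mono (hi i).norm (hI _) (nrep1_pt ha0 hB hij)).trans ?_⟩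
  rw [integral_indicator measurableSet_Ici, integral_const_mul, integral_Ici_eq_integral_Ioi,
    integral_exp_mul_Ioi (neg_neg_of_pos ha0), neg_div_neg_eq, mul_one]
  have h1 : (a + 1) ^ i ≤ 2 ^ j * j.factorial * Real.exp (1 / 2) * Real.exp (a / 2) := by
    have h2 := Real.pow_div_factorial_le_exp ((a + 1) / 2) (by positivity) j
    rw [div_le_iff₀ (by positivity), div_pow, div_le_iff₀ (by positivity), add_div,
      Real.exp_add] at h2
    refine (pow_le_pow_right₀ (by linarith) hij).trans (h2.trans (le_of_eq ?_))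
    ring
  have h3 : Real.exp (-a) / a ≤ 2 * Real.exp (-a) := by
    rw [div_le_iff₀ ha0]
    nlinarith [Real.exp_pos (-a)]
  have h4 : Real.exp (a / 2) * Real.exp (-a) = Real.exp (-(a / 2)) := by
    rw [← Real.exp_add]
    congr 1
    ring
  refine (mul_le_mul (mul_le_mul_of_nonneg_left h1 hB0) h3 (by positivity)
    (by positivity)).trans (le_of_eq ?_)
  rw [← h4]
  ring

end Pool.Agent.Lib.MP_03e5d0_nt
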