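import Pool.Agent.Lib.MP_03e5d0_nt.NSp1

set_option autoImplicit false

noncomputable section

namespace Pool.Agent.Lib.MP_03e5d0_nt

open Complex Finset MeasureTheory
open scoped NumberTheorySymbols Real ContDiff

/-! The weight `WG` as an average of truncated sums. -/

variable {D : Data} {x : ℕ → ℝ} {w : ℝ → ℂ} {B U : ℝ}

/-- For `0 ≤ y`: `cut_eq`; `st U (L' - y) = 1` where `1 - st W y ≠ 0`. -/
theorem sg_sub_main (D : Data) (x : ℕ → ℝ) (κ k : ℕ) (σ : ℝ) {W L' : ℝ} (hU : 0 < U) (hW : 0 < W)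
    (h : 2 * W + 2 * U ≤ L') :
    sg D x (fun u => wp κ k σ u) U L' - ((Real.exp (σ * L') * NN D x σ W : ℝ) : ℂ) =
      sg D x (hpl κ k σ W L') U L' := by
  have hN : Real.exp L' < (⌊Real.exp L'⌋₊ + 1 : ℕ) := by
    push_cast
    exact Nat.lt_floor_add_one _
  have h0 : ∀ (w : ℝ → ℂ) (y : ℝ), L' < y → w (L' - y) * (st U (L' - y) : ℂ) = 0 := fun w y hy => by
    rw [st_eq_zero hU (by linarith), ofReal_zero, mul_zero]
  have h1 : ∀ y, L' < y → (cut σ W y : ℂ) = 0 := fun y hy => by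
    rw [cut_eq hW (by linarith), st_eq_one hW (by linarith), sub_self, mul_zero, ofReal_zero]
  rw [ofReal_mul, NN_sm, sg, sg, sm_eq_sum (h0 fun u => wp κ k σ u) hN,
    sm_eq_sum (h0 (hpl κ k σ W L')) hN, sm_eq_sum h1 hN, mul_sum, ← sum_sub_distrib]
  refine sum_congr rfl fun n _ => ?_
  have hy := Real.log_natCast_nonneg n
  generalize Real.log n = y at hy
  have e : Real.exp (σ * L') * cut σ W y =
      Real.exp (σ * (L' - y)) * (1 - st W (L' - (L' - y))) * st U (L' - y) := by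
    rw [cut_eq hW hy, sub_sub_cancel, ← mul_assoc, ← Real.exp_add,
      show σ * L' + -σ * y = σ * (L' - y) by ring]
    rcases le_total (2 * W) y with h2 | h2
    · rw [st_eq_one hW h2, sub_self, mul_zero, zero_mul]
    · rw [st_eq_one hU (by linarith), mul_one]
  rw [mul_left_comm (Real.exp (σ * L') : ℂ), ← ofReal_mul (Real.exp (σ * L')), e, hpl,
    ofReal_mul (_ * _)]
  ring

/-- `sum_th0` with `2 L`, `sm_congr`, `sm_sum`. -/
theorem sg_eq_sum (D : Data) (x : ℕ → ℝ) (h : ℝ → ℂ) {L L' : ℝ} (hL : 0 < L) (hL' : L' ≤ 2 * L) (I : ℕ) :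
    sg D x h (Ui (2 * L) I) L' =
      ∑ i ∈ range (I + 1), pc D x L' (Ui (2 * L) i) fun θ => th0 θ * h (Ui (2 * L) i * θ) := by
  have hU : ∀ i, 0 < Ui (2 * L) i := fun i => by
    unfold Ui
    positivity
  simp only [sg, pc]
  rw [← sm_sum (L := L') _ fun i _ y hy => by
    rw [mww_th0_supp (.inl ((div_neg_of_neg_of_pos (by linarith) (hU i)).trans one_pos)), zero_mul]]
  refine sm_congr fun y hy => ?_
  rw [st, ← sum_th0 (by linarith) (by linarith), mul_sum]
  exact sum_congr rfl fun i _ => by rw [mul_div_cancel₀ _ (hU i).ne', mul_comm]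

theorem nsp_int :
    Integrable (fun t : ℝ => Real.exp (min t (-7 * t)) * Real.exp (max (5 * t) (-(3 / 5) * t))) ∧
      ∫ t : ℝ, Real.exp (min t (-7 * t)) * Real.exp (max (5 * t) (-(3 / 5) * t)) = 3 := by
  have e1 : Set.EqOn (fun t : ℝ => Real.exp (2 / 5 * t))
      (fun t : ℝ => Real.exp (min t (-7 * t)) * Real.exp (max (5 * t) (-(3 / 5) * t)))
      (Set.Iic 0) := fun t ht => by
    have h : t ≤ 0 := ht
    simp only
    rw [min_eq_left (by linarith), max_eq_right (by linarith), ← Real.exp_add]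
    congr 1
    ring
  have e2 : Set.EqOn (fun t : ℝ => Real.exp (-2 * t))
      (fun t : ℝ => Real.exp (min t (-7 * t)) * Real.exp (max (5 * t) (-(3 / 5) * t)))
      (Set.Ioi 0) := fun t ht => by
    have h : 0 < t := ht
    simp only
    rw [min_eq_right (by linarith), max_eq_left (by linarith), ← Real.exp_add]
    congr 1
    ring
  have i1 := (integrableOn_exp_mul_Iic (a := 2 / 5) (by norm_num) 0).congr_fun e1 measurableSet_Iic
  have i2 := (integrableOn_exp_mul_Ioi (a := -2) (by norm_num) 0).congr_fun e2 measurableSet_Ioi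
  refine ⟨?_, ?_⟩
  · have := i1.union i2
    rwa [Set.Iic_union_Ioi, integrableOn_univ] at this
  · rw [← intervalIntegral.integral_Iic_add_Ioi i1 i2, ← setIntegral_congr_fun measurableSet_Iic e1,
      ← setIntegral_congr_fun measurableSet_Ioi e2, integral_exp_mul_Iic (by norm_num),
      integral_exp_mul_Ioi (by norm_num)]
    norm_num

/-- `norm_integral_le_integral_norm`, `integral_finset_sum`; `∫ exp (min v (-7 v) + max (5 v) (-3 v / 5))
= 1 / 2 + 5 / 2`. -/
theorem int_bound {ι : Type} (T : Finset ι) {e : ι → ℝ → ℝ} {f : ι → ℝ → ℂ} {L₁ C₀ K : ℝ} (hC₀ : 0 ≤ C₀)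
    (hK : 0 ≤ K) (he : ∀ d ∈ T, Continuous (e d))
    (he' : ∀ d ∈ T, ∀ v, |e d v| ≤ C₀ * Real.exp (min (v - L₁) (-7 * (v - L₁))))
    (hf : ∀ d ∈ T, Continuous (f d))
    (h : ∀ v, ∑ d ∈ T, ‖f d v‖ ≤ K * Real.exp (max (5 * (v - L₁)) (-(3 / 5) * (v - L₁)))) :
    ∑ d ∈ T, ‖∫ v, (e d v : ℂ) * f d v‖ ≤ 3 * C₀ * K := by
  obtain ⟨g1, g2⟩ := nsp_int
  have g3 := (g1.comp_sub_right L₁).const_mul (C₀ * K)
  have hb : ∀ v, ∑ d ∈ T, ‖(e d v : ℂ) * f d v‖ ≤ C₀ * K * (Real.exp (min (v - L₁) (-7 * (v - L₁))) *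
      Real.exp (max (5 * (v - L₁)) (-(3 / 5) * (v - L₁)))) := fun v =>
    calc _ ≤ ∑ d ∈ T, C₀ * Real.exp (min (v - L₁) (-7 * (v - L₁))) * ‖f d v‖ :=
          sum_le_sum fun d hd => by
            rw [norm_mul, norm_real, Real.norm_eq_abs]
            exact mul_le_mul_of_nonneg_right (he' d hd v) (norm_nonneg _)
      _ ≤ C₀ * Real.exp (min (v - L₁) (-7 * (v - L₁))) *
          (K * Real.exp (max (5 * (v - L₁)) (-(3 / 5) * (v - L₁)))) := by
          rw [← mul_sum]
          exact mul_le_mul_of_nonneg_left (h v) (by positivity)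
      _ = _ := by ring
  have hi : ∀ d ∈ T, Integrable fun v => ‖(e d v : ℂ) * f d v‖ := fun d hd =>
    g3.mono' ((continuous_ofReal.comp (he d hd)).mul (hf d hd)).norm.aestronglyMeasurable
      (Filter.Eventually.of_forall fun v => by
        rw [norm_norm]
        exact (single_le_sum (f := fun d => ‖(e d v : ℂ) * f d v‖) (fun _ _ => norm_nonneg _)
          hd).trans (hb v))
  calc _ ≤ ∑ d ∈ T, ∫ v, ‖(e d v : ℂ) * f d v‖ :=
        sum_le_sum fun d _ => norm_integral_le_integral_norm _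
    _ = ∫ v, ∑ d ∈ T, ‖(e d v : ℂ) * f d v‖ := (integral_finsetSum T hi).symm
    _ ≤ _ := integral_mono (integrable_finsetSum T hi) g3 hb
    _ = _ := by
      rw [integral_const_mul, integral_sub_right_eq_self (fun t : ℝ => Real.exp (min t (-7 * t)) *
        Real.exp (max (5 * t) (-(3 / 5) * t))) L₁, g2]
      ring

end Pool.Agent.Lib.MP_03e5d0_nt
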