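import Pool.Agent.Lib.MP_03e5d0_nt.NW1
import Pool.Agent.Lib.MP_03e5d0_nt.NMu
import Pool.Agent.Lib.MP_03e5d0_nt.NRep

set_option autoImplicit false

noncomputable section

namespace Pool.Agent.Lib.MP_03e5d0_nt

open Complex Finset MeasureTheory
open scoped NumberTheorySymbols Real ContDiff

/-! The weight `WG` as an average of truncated sums. -/

variable {D : Data} {x : ℕ → ℝ} {w : ℝ → ℂ} {B U : ℝ}

/-- Near a point the sum is a finite sum (`sm_eq_sum`, `st_eq_zero`). -/
theorem continuous_sg (D : Data) (x : ℕ → ℝ) (hc : Continuous w) (hU : 0 < U) :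
    Continuous (sg D x w U) := by
  refine continuous_iff_continuousAt.2 fun L₀ => ?_
  have hN : Real.exp (L₀ + 1) < (⌊Real.exp (L₀ + 1)⌋₊ + 1 : ℕ) := by
    push_cast; exact Nat.lt_floor_add_one _
  have h1 : Continuous fun L' : ℝ => ∑ n ∈ range (⌊Real.exp (L₀ + 1)⌋₊ + 1),
      ((D.lam n * cm x n / √n : ℝ) : ℂ) * (w (L' - Real.log n) * (st U (L' - Real.log n) : ℂ)) :=
    continuous_finsetSum _ fun n _ => continuous_const.mul
      ((hc.comp (continuous_sub_right _)).mul
        (continuous_ofReal.comp ((continuous_st U).comp (continuous_sub_right _))))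
  refine h1.continuousAt.congr ?_
  filter_upwards [Iio_mem_nhds (lt_add_one L₀)] with L' hL'
  refine (sm_eq_sum (V := fun y => w (L' - y) * (st U (L' - y) : ℂ)) (fun y hy => ?_) hN).symm
  have h2 : L' < L₀ + 1 := hL'
  rw [st_eq_zero hU (by linarith), ofReal_zero, mul_zero]

/-- `sm_congr`, `norm_sm_le` (or `sm_eq_sum`): only `0 ≤ y` and `0 < L' - y` matter. -/
theorem norm_sg_le (hx : Adm x) (hU : 0 < U) (hB : 0 ≤ B) {L' : ℝ}
    (hw : ∀ u, 0 < u → u ≤ L' → ‖w u‖ ≤ B) : ‖sg D x w U L'‖ ≤ 2 * B * Real.exp L' := by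
  have h1 : sg D x w U L' =
      sm D x fun y => if 0 ≤ y then w (L' - y) * (st U (L' - y) : ℂ) else 0 :=
    sm_congr fun y hy => by rw [if_pos hy]
  rw [h1]
  refine norm_sm_le hx hB (fun y hy => ?_) fun y => ?_
  · rw [st_eq_zero hU (by linarith), ofReal_zero, mul_zero, ite_self]
  · split_ifs with hy
    · by_cases h : L' - y ≤ 0
      · rw [st_eq_zero hU (by linarith), ofReal_zero, mul_zero, norm_zero]
        exact hB
      · rw [norm_mul, norm_real, Real.norm_eq_abs, abs_of_nonneg (st_mem U _).1]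
        exact (mul_le_of_le_one_right (norm_nonneg _) (st_mem U _).2).trans
          (hw _ (not_le.1 h) (by linarith))
    · rw [norm_zero]
      exact hB

theorem nsp1_exp : Integrable fun v : ℝ => Real.exp (-|v|) := by
  rw [← integrableOn_univ, ← Set.Iic_union_Ioi (a := (0 : ℝ))]
  refine IntegrableOn.union ?_ ?_
  · refine (integrableOn_exp_Iic 0).congr_fun (fun v hv => ?_) measurableSet_Iic
    have h : v ≤ 0 := hv
    simp only [abs_of_nonpos h, neg_neg]
  · refine (integrableOn_exp_neg_Ioi 0).congr_fun (fun v hv => ?_) measurableSet_Ioi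
    have h : 0 < v := hv
    simp only [abs_of_pos h]

/-- `norm_sg_le` gives `‖sg L'‖ ≤ 2 B exp (2 L')`; `rh_env`. -/
theorem integrable_sg (hx : Adm x) (hc : Continuous w) (hU : 0 < U) (hB : 0 ≤ B)
    (hw : ∀ u, 0 < u → ‖w u‖ ≤ B * Real.exp u) (ℒ : ℝ) :
    Integrable fun v => (rh (v - ℒ) : ℂ) * sg D x w U v := by
  obtain ⟨C, hC, h⟩ := rh_env |ℒ|
  refine (nsp1_exp.const_mul (C * (2 * B))).mono' ?_ (ae_of_all _ fun v => ?_)
  · exact ((continuous_ofReal.comp (continuous_rh.comp (continuous_sub_right ℒ))).mul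
      (continuous_sg D x hc hU)).aestronglyMeasurable
  · have h1 : ‖sg D x w U v‖ ≤ 2 * (B * Real.exp v) * Real.exp v :=
      norm_sg_le hx hU (by positivity) fun u hu hu' =>
        (hw u hu).trans (mul_le_mul_of_nonneg_left (Real.exp_le_exp.2 hu') hB)
    have h2 := h (-ℒ) v (abs_neg ℒ).le
    rw [← sub_eq_add_neg] at h2
    have h3 : Real.exp (min v (-7 * v)) * (Real.exp v * Real.exp v) ≤ Real.exp (-|v|) := by
      rw [← Real.exp_add, ← Real.exp_add]
      refine Real.exp_le_exp.2 ?_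
      rcases le_total 0 v with hv | hv
      · rw [abs_of_nonneg hv]
        linarith [min_le_right v (-7 * v)]
      · rw [abs_of_nonpos hv]
        linarith [min_le_left v (-7 * v)]
    rw [norm_mul, norm_real, Real.norm_eq_abs, abs_of_nonneg (rh_nonneg _)]
    calc rh (v - ℒ) * ‖sg D x w U v‖
        ≤ C * Real.exp (min v (-7 * v)) * (2 * (B * Real.exp v) * Real.exp v) :=
          mul_le_mul h2 h1 (norm_nonneg _) (by positivity)
      _ = C * (2 * B) * (Real.exp (min v (-7 * v)) * (Real.exp v * Real.exp v)) := by ring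
      _ ≤ _ := mul_le_mul_of_nonneg_left h3 (by positivity)

/-- Change of variables for a function which vanishes on the negative half-line. -/
theorem nsp1_shift {E : Type} [NormedAddCommGroup E] [NormedSpace ℝ E] {g : ℝ → E}
    (hg : ∀ u, u ≤ 0 → g u = 0) (y : ℝ) : ∫ u in Set.Ioi (0 : ℝ), g u = ∫ v, g (v - y) := by
  rw [integral_sub_right_eq_self g y]
  exact setIntegral_eq_integral_of_forall_compl_eq_zero fun u hu => hg u (not_lt.1 hu)

theorem nsp1_int {g : ℝ → ℂ} (hg : ∀ u, u ≤ 0 → g u = 0) (hi : IntegrableOn g (Set.Ioi 0))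
    (y : ℝ) : Integrable fun v => g (v - y) := by
  refine Integrable.comp_sub_right ?_ y
  exact hi.integrable_of_forall_notMem_eq_zero fun u hu => hg u (not_lt.1 hu)

/-- `WG w = WG (w st) + WG (w (1 - st))`, `sm_add_decay`, `WG_decay`;
`WG (w st) (y - ℒ) = ∫ v, rh (v - ℒ) * (w st) (v - y)` because `st U u = 0` for `u ≤ 0`;
`hasSum_integral_of_summable_integral_norm`. -/
theorem wg_split (hx : Adm x) (hc : Continuous w) (hU : 0 < U) (hB : 0 ≤ B)
    (hw : ∀ u, 0 < u → ‖w u‖ ≤ B * Real.exp u) (ℒ : ℝ) :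
    sm D x (fun y => WG w (y - ℒ)) = (∫ v, (rh (v - ℒ) : ℂ) * sg D x w U v) +
      sm D x fun y => WG (fun u => w u * ((1 - st U u : ℝ) : ℂ)) (y - ℒ) := by
  set w₁ : ℝ → ℂ := fun u => w u * (st U u : ℂ) with hw₁
  set w₂ : ℝ → ℂ := fun u => w u * ((1 - st U u : ℝ) : ℂ) with hw₂
  have hc₁ : Continuous w₁ := hc.mul (continuous_ofReal.comp (continuous_st U))
  have hc₂ : Continuous w₂ :=
    hc.mul (continuous_ofReal.comp (continuous_const.sub (continuous_st U)))
  have hb₁ : ∀ u, 0 < u → ‖w₁ u‖ ≤ B * Real.exp u := fun u hu => by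
    rw [hw₁, norm_mul, norm_real, Real.norm_eq_abs, abs_of_nonneg (st_mem U _).1]
    exact (mul_le_of_le_one_right (norm_nonneg _) (st_mem U _).2).trans (hw u hu)
  have hb₂ : ∀ u, 0 < u → ‖w₂ u‖ ≤ B * Real.exp u := fun u hu => by
    rw [hw₂, norm_mul, norm_real, Real.norm_eq_abs, abs_of_nonneg (sub_nonneg.2 (st_mem U _).2)]
    exact (mul_le_of_le_one_right (norm_nonneg _) (sub_le_self _ (st_mem U _).1)).trans (hw u hu)
  have he : ∀ y : ℝ, 6 * B * Real.exp (-2 * (y - ℒ)) =
      6 * B * Real.exp (2 * ℒ) * Real.exp (-2 * y) := fun y => by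
    rw [mul_assoc (6 * B), ← Real.exp_add]
    congr 2
    ring
  have h1 : ∀ y, WG w y = WG w₁ y + WG w₂ y := fun y => by
    unfold WG
    rw [← integral_add (WG_integrable hc₁ hb₁ y) (WG_integrable hc₂ hb₂ y)]
    refine integral_congr_ae (ae_of_all _ fun u => ?_)
    simp only [hw₁, hw₂]
    push_cast
    ring
  simp only [h1]
  rw [sm_add_decay hx (K := 6 * B * Real.exp (2 * ℒ)) (K' := 6 * B * Real.exp (2 * ℒ))
    (fun y _ => ((WG_decay hB hb₁ (y - ℒ)).2.trans_eq (he y)))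
    (fun y _ => ((WG_decay hB hb₂ (y - ℒ)).2.trans_eq (he y)))]
  congr 1
  have h0 : ∀ y u : ℝ, u ≤ 0 → w₁ u * (rh (y + u) : ℂ) = 0 := fun y u hu => by
    simp only [hw₁]
    rw [st_eq_zero hU (by linarith), ofReal_zero, mul_zero, zero_mul]
  let c : ℕ → ℂ := fun n => ((D.lam n * cm x n / √n : ℝ) : ℂ)
  let G : ℕ → ℝ → ℂ := fun n u => w₁ u * (rh (Real.log n - ℒ + u) : ℂ)
  have hG0 : ∀ n u, u ≤ 0 → G n u = 0 := fun n u hu => h0 _ u hu
  have h2 : ∀ n : ℕ, Integrable fun v => c n * G n (v - Real.log n) := fun n =>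
    (nsp1_int (hG0 n) (WG_integrable hc₁ hb₁ _) _).const_mul _
  have h3 : Summable fun n : ℕ => ∫ v, ‖c n * G n (v - Real.log n)‖ := by
    have h4 := summable_sm (D := D) (K := 6 * B * Real.exp (2 * ℒ)) (V := fun y =>
      ((∫ u in Set.Ioi (0 : ℝ), ‖w₁ u * (rh (y - ℒ + u) : ℂ)‖ : ℝ) : ℂ)) hx fun y _ => by
        rw [norm_real, Real.norm_eq_abs, abs_of_nonneg (integral_nonneg fun _ => norm_nonneg _)]
        exact (WG_decay hB hb₁ (y - ℒ)).1.trans_eq (he y)
    refine h4.congr fun n => ?_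
    rw [norm_mul, norm_real (∫ u in Set.Ioi (0 : ℝ), _), Real.norm_eq_abs (∫ u in Set.Ioi (0 : ℝ), _),
      abs_of_nonneg (integral_nonneg fun _ => norm_nonneg _),
      nsp1_shift (g := fun u => ‖G n u‖) (fun u hu => by rw [hG0 n u hu, norm_zero]) (Real.log n),
      ← integral_const_mul]
    exact integral_congr_ae (ae_of_all _ fun v => (norm_mul _ _).symm)
  have h5 := hasSum_integral_of_summable_integral_norm h2 h3
  have h6 : ∀ v, ∑' n, c n * G n (v - Real.log n) = (rh (v - ℒ) : ℂ) * sg D x w U v := fun v => by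
    unfold sg sm
    rw [← tsum_mul_left]
    refine tsum_congr fun n => ?_
    simp only [c, G, hw₁]
    rw [show Real.log n - ℒ + (v - Real.log n) = v - ℒ by ring]
    ring
  simp only [h6] at h5
  rw [← h5.tsum_eq]
  refine tsum_congr fun n => ?_
  rw [integral_const_mul, ← nsp1_shift (hG0 n) (Real.log n)]
  rfl

end Pool.Agent.Lib.MP_03e5d0_nt
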