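import Pool.Agent.Lib.MP_03e5d0_nt.NDet
import Pool.Agent.Lib.MP_03e5d0_nt.TNrm

/-! From the tail bound on dyadic shells to bounds for all discriminants. -/

set_option autoImplicit false

noncomputable section

namespace Pool.Agent.Lib.MP_03e5d0_nt

open Finset

open Classical in
/-- The bound for dyadic shells, for orders up to `c log X`, with the tail function `τ`. -/
def Cnt (D : Data) (τ : ℝ → ℝ) : Prop :=
  ∃ (C c : ℝ) (K₀ : ℕ) (X₀ : ℝ), 0 < c ∧ ∀ X : ℝ, X₀ ≤ X → ∀ k : ℕ, K₀ ≤ k → (k : ℝ) ≤ c * Real.log X →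
    (((sqf X).filter fun d : ℤ => X / 2 ≤ |(d : ℝ)| ∧ D.Ord d (k + 1)).card : ℝ) ≤ C * X * τ k

theorem card_le_sqf {X : ℝ} (hX : 1 ≤ X) {T : Finset ℤ} (h : T ⊆ sqf X) : (T.card : ℝ) ≤ 3 * X := by
  classical
  exact (Nat.cast_le.2 (card_le_card (h.trans (filter_subset _ _)))).trans (card_allm hX)

theorem sqf_mono {X X' : ℝ} (hX : 0 ≤ X) (h : X ≤ X') : sqf X ⊆ sqf X' := fun d hd => by
  rw [mem_sqf hX] at hd
  exact (mem_sqf (hX.trans h)).2 ⟨hd.1.trans h, hd.2⟩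

theorem ord_le_sqf (D : Data) (hFE : D.FE) : ∃ C : ℝ, 0 ≤ C ∧ ∀ X : ℝ, 0 ≤ X → ∀ d ∈ sqf X, ∀ r : ℕ,
    D.Ord d r → (r : ℝ) ≤ C * (1 + Real.log X) := by
  obtain ⟨C, hC, h⟩ := ord_le D hFE
  refine ⟨C, hC, fun X hX d hd r ho => ?_⟩
  rw [mem_sqf hX] at hd
  have h1 : 1 ≤ |(d : ℝ)| := by exact_mod_cast Int.one_le_abs hd.2.ne_zero
  refine (h d hd.2 r ho).trans ?_
  gcongr
  exact hd.1

/-- The choice of the order to which the bound is applied. -/
theorem exists_order {c C L : ℝ} {K₀ r : ℕ} (hc : 0 < c) (hC : 0 ≤ C) (hL : 1 ≤ L)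
    (hK : (K₀ : ℝ) + 2 ≤ c * L) (hr : K₀ + 2 ≤ r) (h : (r : ℝ) ≤ C * (1 + L)) :
    ∃ k : ℕ, K₀ ≤ k ∧ (k : ℝ) ≤ c * L ∧ k + 1 ≤ r ∧ min (1 / 2) (c / (4 * (C + 1))) * r ≤ k := by
  have h0 : (0 : ℝ) ≤ K₀ := Nat.cast_nonneg _
  have h1 : (0 : ℝ) ≤ r := Nat.cast_nonneg _
  obtain ⟨r, rfl⟩ : ∃ m, r = m + 1 := ⟨r - 1, by omega⟩
  by_cases h2 : (r : ℝ) ≤ c * L
  · refine ⟨r, by omega, h2, le_rfl, (mul_le_mul_of_nonneg_right (min_le_left _ _) h1).trans ?_⟩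
    have : (1 : ℝ) ≤ r := by exact_mod_cast (by omega : 1 ≤ r)
    push_cast
    linarith
  · have h3 := Nat.floor_le (show 0 ≤ c * L by linarith)
    have h4 := Nat.lt_floor_add_one (c * L)
    refine ⟨⌊c * L⌋₊, Nat.le_floor (by linarith), h3, ?_,
      (mul_le_mul_of_nonneg_right (min_le_right _ _) h1).trans ?_⟩
    · have : (⌊c * L⌋₊ : ℝ) ≤ r := by linarith
      exact_mod_cast add_le_add_left this 1
    · have h5 : ((r + 1 : ℕ) : ℝ) ≤ (C + 1) * (2 * L) := h.trans (by gcongr <;> linarith)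
      calc c / (4 * (C + 1)) * ((r + 1 : ℕ) : ℝ) ≤ c / (4 * (C + 1)) * ((C + 1) * (2 * L)) := by
            gcongr
        _ = c * L / 2 := by field_simp; ring
        _ ≤ _ := by linarith

open Classical in
theorem shell_all (D : Data) (hFE : D.FE) {τ : ℝ → ℝ} (hτ : AntitoneOn τ (Set.Ici 0))
    (h0 : ∀ x, 0 ≤ x → 0 < τ x) (h : Cnt D τ) : ∃ η C X₀ : ℝ, 0 < η ∧ 0 ≤ C ∧ 1 ≤ X₀ ∧
    ∀ X : ℝ, X₀ ≤ X → ∀ r : ℕ,
    (((sqf X).filter fun d : ℤ => X / 2 ≤ |(d : ℝ)| ∧ D.Ord d r).card : ℝ) ≤ C * X * τ (η * r) := by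
  obtain ⟨C₁, hC₁, H₁⟩ := ord_le_sqf D hFE
  obtain ⟨C, c, K₀, X₀, hc, H⟩ := h
  obtain ⟨η, hη⟩ : ∃ η : ℝ, η = min (1 / 2) (c / (4 * (C₁ + 1))) := ⟨_, rfl⟩
  have hη0 : 0 < η := by rw [hη]; positivity
  have hT := h0 (η * (K₀ + 2 : ℕ)) (by positivity)
  refine ⟨η, |C| + 3 / τ (η * (K₀ + 2 : ℕ)), max X₀ (Real.exp (1 + (K₀ + 2) / c)), hη0,
    by positivity, le_max_of_le_right (Real.one_le_exp (by positivity)), fun X hX r => ?_⟩
  have hX1 : 1 ≤ X := (Real.one_le_exp (by positivity)).trans (le_of_max_le_right hX)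
  have hL : 1 + (K₀ + 2) / c ≤ Real.log X :=
    (Real.le_log_iff_exp_le (by linarith)).2 (le_of_max_le_right hX)
  have hτr := h0 (η * r) (by positivity)
  have hq : 0 ≤ ((K₀ : ℝ) + 2) / c := by positivity
  by_cases hr : K₀ + 2 ≤ r
  · rcases ((sqf X).filter fun d : ℤ => X / 2 ≤ |(d : ℝ)| ∧ D.Ord d r).eq_empty_or_nonempty with
      he | ⟨d, hd⟩
    · rw [he, card_empty, Nat.cast_zero]
      positivity
    rw [mem_filter] at hd
    obtain ⟨k, k1, k2, k3, k4⟩ := exists_order (L := Real.log X) hc hC₁ (by linarith)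
      (by rw [← div_le_iff₀' hc]; linarith) hr (H₁ X (by linarith) d hd.1 r hd.2.2)
    rw [← hη] at k4
    have h1 := hτ (show η * r ∈ Set.Ici 0 by rw [Set.mem_Ici]; positivity)
      (Set.mem_Ici.2 (Nat.cast_nonneg k)) k4
    have h2 := h0 k (Nat.cast_nonneg k)
    refine le_trans (Nat.cast_le.2 (card_le_card fun e he => ?_))
      ((H X (le_of_max_le_left hX) k k1 k2).trans ?_)
    · rw [mem_filter] at he ⊢
      exact ⟨he.1, he.2.1, he.2.2.mono k3⟩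
    · gcongr
      exact (le_abs_self C).trans (le_add_of_nonneg_right (by positivity))
  · have h1 := hτ (show η * r ∈ Set.Ici 0 by rw [Set.mem_Ici]; positivity)
      (show η * (K₀ + 2 : ℕ) ∈ Set.Ici 0 by rw [Set.mem_Ici]; positivity)
      (by gcongr; omega)
    refine (card_le_sqf hX1 (filter_subset _ _)).trans ?_
    calc 3 * X = 3 / τ (η * (K₀ + 2 : ℕ)) * X * τ (η * (K₀ + 2 : ℕ)) := by field_simp
      _ ≤ _ := by gcongr; exact le_add_of_nonneg_left (abs_nonneg C)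

open Classical in
/-- The tail bound for all discriminants and all orders. -/
theorem tail_all (D : Data) (hFE : D.FE) {τ : ℝ → ℝ} (hτ : AntitoneOn τ (Set.Ici 0))
    (h0 : ∀ x, 0 ≤ x → 0 < τ x) (h : Cnt D τ) : ∃ η C : ℝ, 0 < η ∧ 0 ≤ C ∧ ∀ X : ℝ, 1 ≤ X → ∀ r : ℕ,
    (((sqf X).filter fun d : ℤ => D.Ord d r).card : ℝ) ≤ C * X * τ (η * r) := by
  obtain ⟨C₁, hC₁, H₁⟩ := ord_le_sqf D hFE
  obtain ⟨η, C, X₀, hη, hC, hX₀, H⟩ := shell_all D hFE hτ h0 h
  obtain ⟨R, hR⟩ : ∃ R : ℝ, R = C₁ * (1 + Real.log X₀) := ⟨_, rfl⟩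
  have hR0 : 0 ≤ R := by
    have := Real.log_nonneg hX₀
    rw [hR]
    positivity
  have hT := h0 (η * R) (by positivity)
  obtain ⟨B, hB⟩ : ∃ B : ℝ, B = 3 * X₀ / τ (η * R) := ⟨_, rfl⟩
  have hB0 : 0 ≤ B := by rw [hB]; positivity
  refine ⟨η, 2 * C + B, hη, by positivity, fun X hX r => ?_⟩
  have hτr := h0 (η * r) (by positivity)
  have small : ∀ Y : ℝ, 0 ≤ Y → Y ≤ X₀ →
      (((sqf Y).filter fun d : ℤ => D.Ord d r).card : ℝ) ≤ B * τ (η * r) := by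
    intro Y hY hY'
    rcases ((sqf Y).filter fun d : ℤ => D.Ord d r).eq_empty_or_nonempty with he | ⟨d, hd⟩
    · rw [he, card_empty, Nat.cast_zero]
      positivity
    rw [mem_filter] at hd
    have h1 := H₁ X₀ (by linarith) d (sqf_mono hY hY' hd.1) r hd.2
    rw [← hR] at h1
    have h2 := hτ (show η * r ∈ Set.Ici 0 by rw [Set.mem_Ici]; positivity)
      (show η * R ∈ Set.Ici 0 by rw [Set.mem_Ici]; positivity) (by gcongr)
    refine (card_le_sqf hX₀ ((filter_subset _ _).trans (sqf_mono hY hY'))).trans ?_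
    calc 3 * X₀ = B * τ (η * R) := by rw [hB]; field_simp
      _ ≤ _ := by gcongr
  have key : ∀ n : ℕ, ∀ Y : ℝ, 0 ≤ Y → Y ≤ 2 ^ n * X₀ →
      (((sqf Y).filter fun d : ℤ => D.Ord d r).card : ℝ) ≤ (2 * C * Y + B) * τ (η * r) := by
    intro n
    induction n with
    | zero =>
      intro Y hY hY'
      refine (small Y hY (by simpa using hY')).trans ?_
      gcongr
      exact le_add_of_nonneg_left (by positivity)
    | succ n ih =>
      intro Y hY hY'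
      rcases le_total Y X₀ with h1 | h1
      · refine (small Y hY h1).trans ?_
        gcongr
        exact le_add_of_nonneg_left (by positivity)
      have h2 := ih (Y / 2) (by positivity) (by rw [pow_succ] at hY'; linarith)
      have h3 := H Y h1 r
      have h4 : ((sqf Y).filter fun d : ℤ => D.Ord d r) ⊆
          ((sqf Y).filter fun d : ℤ => Y / 2 ≤ |(d : ℝ)| ∧ D.Ord d r) ∪
            (sqf (Y / 2)).filter fun d : ℤ => D.Ord d r := by
        intro d hd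
        rw [mem_filter] at hd
        rw [mem_union, mem_filter, mem_filter]
        rcases le_total (Y / 2) |(d : ℝ)| with h5 | h5
        · exact Or.inl ⟨hd.1, h5, hd.2⟩
        · exact Or.inr ⟨(mem_sqf (by positivity)).2 ⟨h5, ((mem_sqf hY).1 hd.1).2⟩, hd.2⟩
      have h5 := Nat.cast_le (α := ℝ).2 ((card_le_card h4).trans (card_union_le _ _))
      rw [Nat.cast_add] at h5
      linarith
  obtain ⟨n, hn⟩ := pow_unbounded_of_one_lt X (show (1 : ℝ) < 2 by norm_num)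
  refine (key n X (by linarith) (hn.le.trans (le_mul_of_one_le_right (by positivity) hX₀))).trans ?_
  rw [add_mul (2 * C)]
  gcongr
  exact le_mul_of_one_le_right hB0 hX

theorem antitoneOn_inv_sq : AntitoneOn (fun x : ℝ => 1 / (1 + x) ^ 2) (Set.Ici 0) := by
  intro x hx y _ h
  have h1 : (0 : ℝ) ≤ x := hx
  change 1 / (1 + y) ^ 2 ≤ 1 / (1 + x) ^ 2
  gcongr

open Classical in
theorem cnt_of_sq {D : Data} (hcnt : ∃ (C : ℝ) (K₀ : ℕ) (X₀ : ℝ), ∀ X : ℝ, X₀ ≤ X → ∀ k : ℕ, K₀ ≤ k →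
    (k : ℝ) ≤ 3 * Real.log X →
    (((sqf X).filter fun d : ℤ => X / 2 ≤ |(d : ℝ)| ∧ D.Ord d (k + 1)).card : ℝ) ≤ C * X / k ^ 2) :
    Cnt D fun x => 1 / (1 + x) ^ 2 := by
  obtain ⟨C, K₀, X₀, H⟩ := hcnt
  refine ⟨4 * |C|, 3, max K₀ 1, max X₀ 0, by norm_num, fun X hX k hk hk' => ?_⟩
  have h1 : (1 : ℝ) ≤ k := by exact_mod_cast le_of_max_le_right hk
  have h2 : 0 ≤ X := le_of_max_le_right hX
  have h3 : 1 / (k : ℝ) ^ 2 ≤ 4 * (1 / (1 + k) ^ 2) := by
    rw [mul_one_div, div_le_div_iff₀ (by positivity) (by positivity)]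
    nlinarith
  refine (H X (le_of_max_le_left hX) k (le_of_max_le_left hk) hk').trans ?_
  calc C * X / (k : ℝ) ^ 2 = C * X * (1 / (k : ℝ) ^ 2) := by ring
    _ ≤ |C| * X * (4 * (1 / (1 + k) ^ 2)) := by gcongr; exact le_abs_self C
    _ = _ := by ring

theorem sum_inv_sq_le {η : ℝ} (hη : 0 < η) (n : ℕ) :
    ∑ k ∈ range n, 1 / (1 + η * (k + 1 : ℕ)) ^ 2 ≤ 1 / η := by
  have h : ∑ k ∈ range n, 1 / (1 + η * (k + 1 : ℕ)) ^ 2 ≤ 1 / η - 1 / (η * (1 + η * n)) := by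
    induction n with
    | zero => simp
    | succ n ih =>
      rw [sum_range_succ]
      have h1 : (0 : ℝ) ≤ n := Nat.cast_nonneg n
      have h2 : 1 / (1 + η * (n + 1 : ℕ)) ^ 2 ≤
          1 / (η * (1 + η * n)) - 1 / (η * (1 + η * (n + 1 : ℕ))) := by
        push_cast
        calc 1 / (1 + η * (n + 1)) ^ 2 ≤ 1 / ((1 + η * n) * (1 + η * (n + 1))) := by
              rw [sq]
              gcongr
              linarith
          _ = _ := by field_simp; ring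
      linarith
  exact h.trans (sub_le_self _ (by positivity))

/-- The average order of vanishing is bounded. -/
theorem core_avg (D : Data) (hFE : D.FE) (h : Cnt D fun x => 1 / (1 + x) ^ 2) :
    ∃ C : ℝ, 0 ≤ C ∧ ∀ X : ℝ, 1 ≤ X → ∀ r : ℤ → ℕ, (∀ d ∈ sqf X, r d = 0 ∨ D.Ord d (r d)) →
    ∑ d ∈ sqf X, (r d : ℝ) ≤ C * X := by
  classical
  obtain ⟨η, C, hη, hC, H⟩ := tail_all D hFE antitoneOn_inv_sq (fun x hx => by positivity) h
  refine ⟨C / η, by positivity, fun X hX r hr => ?_⟩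
  obtain ⟨n, hn⟩ : ∃ n : ℕ, ∀ d ∈ sqf X, r d ≤ n := ⟨(sqf X).sup r, fun d hd => le_sup hd⟩
  have h1 : ∀ d ∈ sqf X, (r d : ℝ) ≤ ∑ k ∈ range n, if D.Ord d (k + 1) then 1 else 0 := by
    intro d hd
    calc (r d : ℝ) = ∑ k ∈ range (r d), 1 := by simp
      _ = ∑ k ∈ range (r d), if D.Ord d (k + 1) then 1 else 0 := by
          refine sum_congr rfl fun k hk => ?_
          rw [mem_range] at hk
          rw [if_pos (((hr d hd).resolve_left (by omega)).mono hk)]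
      _ ≤ _ := sum_le_sum_of_subset_of_nonneg (range_mono (hn d hd)) fun k _ _ => by positivity
  refine (sum_le_sum h1).trans ?_
  rw [sum_comm]
  calc ∑ k ∈ range n, ∑ d ∈ sqf X, (if D.Ord d (k + 1) then 1 else 0 : ℝ)
      ≤ ∑ k ∈ range n, C * X * (1 / (1 + η * (k + 1 : ℕ)) ^ 2) := by
        refine sum_le_sum fun k _ => ?_
        rw [sum_boole]
        exact H X hX (k + 1)
    _ ≤ C * X * (1 / η) := by
        rw [← mul_sum]
        gcongr
        exact sum_inv_sq_le hη n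
    _ = _ := by ring

end Pool.Agent.Lib.MP_03e5d0_nt
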