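import Pool.Agent.Lib.MP_03e5d0_nt.NGen
import Pool.Agent.Lib.MP_03e5d0_nt.NW2

set_option autoImplicit false

noncomputable section

namespace Pool.Agent.Lib.MP_03e5d0_nt

open Complex Finset MeasureTheory
open scoped NumberTheorySymbols Real ContDiff

/-! The top pieces. -/

theorem ntop_min {a b e : ℝ} (he : 0 ≤ e) (h : a ≤ b + e) :
    min 1 (Real.exp a) ≤ Real.exp e * min 1 (Real.exp b) := by
  have h1 : 1 ≤ Real.exp e := Real.one_le_exp he
  rcases le_total 1 (Real.exp b) with h2 | h2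
  · rw [min_eq_left h2, mul_one]
    exact (min_le_left _ _).trans h1
  · rw [min_eq_right h2, ← Real.exp_add]
    exact (min_le_right _ _).trans (Real.exp_le_exp.2 (by linarith))

theorem ntop_pm {A R X : ℝ} {I : ℕ} (h : Pm A R X I) : 0 < Real.log X ∧ 0 ≤ R / Real.log X ∧
    R / Real.log X ≤ 1 / 10 ∧ 0 < Real.log X / A ∧ 2 * (Real.log X / A) ≤ Real.log X / 8 := by
  have h1 := h.hA
  have h2 := h.hAR
  have h3 := h.hR
  have hL : 0 < Real.log X := by linarith
  have hA : 0 < A := by linarith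
  refine ⟨hL, div_nonneg (by linarith) hL.le, ?_, div_pos hL hA, ?_⟩
  · rw [div_le_iff₀ hL]; linarith
  · have h4 : Real.log X / A ≤ Real.log X / 16 := div_le_div_of_nonneg_left hL.le (by norm_num) h1
    linarith

theorem ntop_sum {X K : ℝ} (hX : 3 ≤ X) (hK : 0 ≤ K) {T : Finset ℤ} (hT : T ⊆ allm X) {f : ℤ → ℝ}
    (h : ∀ m ∈ T, f m ≤ K) : ∑ m ∈ T, f m ≤ 3 * X * K := by
  refine (sum_le_card_nsmul T f K h).trans ?_
  rw [nsmul_eq_mul]
  refine mul_le_mul_of_nonneg_right (le_trans ?_ (card_allm (by linarith))) hK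
  exact_mod_cast card_le_card hT

theorem ntop_sqf (X : ℝ) : sqf X ⊆ allm X := by
  classical
  intro d hd
  exact (mem_filter.1 hd).1

theorem ntop_num {L U : ℝ} {k κ : ℕ} (hL : 160 ≤ L) (hk : k + 1 ≤ κ) (hU0 : 0 ≤ U)
    (hU : U ≤ 32 * Real.log L)
    (h : 64 ^ κ * 33 ^ 2 * 2 * (1 + Real.log L) ^ (κ + 3) ≤ Real.exp (1 * Real.log L)) :
    L ^ k * ((2 * U / L) ^ κ * (1 + U) ^ 2 * (1 + Real.log (1 + L))) ≤ 1 := by
  have hL0 : 0 < L := by linarith
  rw [one_mul, Real.exp_log hL0] at h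
  set l := Real.log L with hl
  have hl0 : 0 ≤ l := Real.log_nonneg (by linarith)
  have h1 : 1 + Real.log (1 + L) ≤ 2 * (1 + l) := by
    have h2 : Real.log (1 + L) ≤ Real.log (2 * L) := Real.log_le_log (by linarith) (by linarith)
    rw [Real.log_mul (by norm_num) hL0.ne'] at h2
    linarith [Real.log_two_lt_d9]
  have h1' : 0 ≤ 1 + Real.log (1 + L) := by
    linarith [Real.log_nonneg (show (1 : ℝ) ≤ 1 + L by linarith)]
  have h2 : (2 * U) ^ κ ≤ (64 * (1 + l)) ^ κ := pow_le_pow_left₀ (by linarith) (by linarith) κ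
  have h3 : (1 + U) ^ 2 ≤ (33 * (1 + l)) ^ 2 := pow_le_pow_left₀ (by linarith) (by linarith) 2
  have h4 : (2 * U) ^ κ * (1 + U) ^ 2 * (1 + Real.log (1 + L)) ≤ L := by
    refine le_trans ?_ h
    calc (2 * U) ^ κ * (1 + U) ^ 2 * (1 + Real.log (1 + L))
        ≤ (64 * (1 + l)) ^ κ * (33 * (1 + l)) ^ 2 * (2 * (1 + l)) := by gcongr
      _ = _ := by rw [mul_pow, mul_pow, pow_add]; ring
  have h5 : L ^ k * L ≤ L ^ κ := by
    rw [← pow_succ]
    exact pow_le_pow_right₀ (by linarith) hk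
  have e : L ^ k * ((2 * U / L) ^ κ * (1 + U) ^ 2 * (1 + Real.log (1 + L))) =
      L ^ k * ((2 * U) ^ κ * (1 + U) ^ 2 * (1 + Real.log (1 + L))) / L ^ κ := by
    rw [div_pow]; ring
  rw [e, div_le_one (by positivity)]
  exact (mul_le_mul_of_nonneg_left h4 (by positivity)).trans h5

/-- As `top_nrm`: `WG_smooth`, `Sm.mul` with `sm_psi`, `tenv`, `WG_decay`. -/
theorem top_nrm' (D : Data) (hFE : D.FE) (hPS : D.PS) (cb : ℝ) : ∃ C : ℝ, 0 ≤ C ∧
    ∀ (X U B L : ℝ) (T : Finset ℤ) (c : ℤ → ℝ) (w : ℝ → ℂ), 1 ≤ X → 1 ≤ U → 0 ≤ B → T ⊆ sqf X →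
    (∀ d ∈ T, |c d| ≤ cb) → Continuous w → (∀ u, 0 < u → ‖w u‖ ≤ B) → (∀ u, 2 * U < u → w u = 0) →
    nrm T (fun d => sm D (jac d) fun y => WG w (y - L + c d)) ≤
      C * B * (1 + U) ^ 2 * ll X * √X := by
  obtain ⟨A, C₀, hC₀, hI⟩ := li D hFE hPS
  obtain ⟨C₁, hC₁, h₁⟩ := nrm_sm_le A 5
  obtain ⟨C₂, hC₂, h₂⟩ := WG_smooth (A + 2)
  obtain ⟨Bp, hp⟩ := sm_psi (A + 2)
  have hBp := hp.nonneg
  set E := Real.exp (|cb| + 1) with hE
  have hE0 : 0 ≤ E := (Real.exp_pos _).le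
  refine ⟨8 * C₀ * C₁ * (2 ^ (A + 2) * Bp * C₂ * E), by positivity,
    fun X U B L T c w hX hU hB hT hc hw hwB hw0 => ?_⟩
  obtain ⟨hs, hs'⟩ := sum_tenv hU L
  obtain ⟨hsm, hbd⟩ := h₂ w B U hw hB (by linarith) hwB hw0
  have hl := one_le_ll hX
  have hG : 0 ≤ C₀ * ll X * √X := by positivity
  have hSm : ∀ d ∈ T, ∀ i : ℕ, Sm (A + 2) (-1) 1 (2 ^ (A + 2) * Bp * (C₂ * B * (E * tenv U (L - i))))
      fun y => (psi y : ℂ) * WG w (y + (i - L + c d)) := by
    intro d hd i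
    have ht := mtop_tenv_nonneg hU (L - i)
    refine hp.mul (g := fun y => WG w (y + (i - L + c d)))
      (hsm.comp (contDiff_id.add contDiff_const)) (by positivity) fun n hn y hy => ?_
    rw [iteratedDeriv_comp_add_const]
    refine (hbd n hn _).trans (mul_le_mul_of_nonneg_left ?_ (by positivity))
    have hc' := abs_le.1 ((hc d hd).trans (le_abs_self cb))
    have h3 : |L - i| ≤ |y + (i - L + c d)| + (|cb| + 1) := by
      have h4 := le_abs_self (y + (i - L + c d))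
      have h5 := neg_abs_le (y + (i - L + c d))
      exact abs_le.2 ⟨by linarith [hy.1], by linarith [hy.2]⟩
    refine (ntop_min (b := 2 * U - |L - i|) (e := |cb| + 1) (by positivity) (by linarith)).trans
      (mul_le_mul_of_nonneg_left ?_ hE0)
    exact le_mul_of_one_le_left (le_min zero_le_one (Real.exp_pos _).le) (by linarith)
  have h := nrm_tsum (T := T) (a := fun d => sm D (jac d) fun y => WG w (y - L + c d))
    (c := fun d (i : ℕ) => sm D (jac d) fun y => (psi (y - i) : ℂ) * WG w (y - L + c d))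
    (env := fun _ => 1)
    (γ := fun i => C₁ * (2 ^ (A + 2) * Bp * C₂ * E) * B * (C₀ * ll X * √X) * tenv U (L - i))
    (fun _ => zero_le_one) (fun d _ => by
      have hK : ∀ y : ℝ, 0 ≤ y → ‖WG w (y - L + c d)‖ ≤
          6 * B * Real.exp (2 * (L - c d)) * Real.exp (-2 * y) := fun y _ => by
        refine (WG_decay hB (fun u hu => (hwB u hu).trans
          (le_mul_of_one_le_right hB (Real.one_le_exp hu.le))) _).2.trans (le_of_eq ?_)
        rw [mul_assoc (6 * B), ← Real.exp_add]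
        congr 2
        ring
      simpa only [one_mul] using sm_windows (D := D) (adm_jac d) hK) (fun i => by
      have ht := mtop_tenv_nonneg hU (L - i)
      have h3 := h₁ D ℤ T jac i _ _ (fun d y => (psi y : ℂ) * WG w (y + (i - L + c d))) hG
        (by positivity) (fun t => (nrm_subset hT).trans (hI.bd X hX i t))
        fun d hd => (hSm d hd i).mono le_rfl (by norm_num) (by norm_num) le_rfl
      have e : ∀ (d : ℤ) (y : ℝ), y - i + (i - L + c d) = y - L + c d := fun d y => by ring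
      simp only [e] at h3
      exact h3.trans (le_of_eq (by ring))) (by simpa only [one_mul] using hs.mul_left _)
  simp only [one_mul] at h
  rw [tsum_mul_left] at h
  exact h.trans ((mul_le_mul_of_nonneg_left hs' (by positivity)).trans (le_of_eq (by ring)))

/-- `sum_mul_le_nrm`, `nrm_Ms`, `top_nrm'` with `B = (2 U R / L) ^ κ exp (R / 2)` (`wp_le_small`,
`st_eq_one`); `κ₀ = k + 1`: `(64 log L) ^ κ (1 + 32 log L) ^ 2 ll X * L ^ k / L ^ κ` is bounded. -/
theorem top_gen (D : Data) (hFE : D.FE) (hPS : D.PS) (cb : ℝ) : ∃ (κ₀ : ℕ) (A₀ : ℝ), ∀ A, A₀ ≤ A →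
    ∀ κ, κ₀ ≤ κ → ∃ C X₀ : ℝ, 0 ≤ C ∧ ∀ (X R s L₁ : ℝ) (I k : ℕ) (T : Finset ℤ) (c : ℤ → ℝ), X₀ ≤ X →
    Pm A R X I → |s| = R / Real.log X → T ⊆ sqf X → (∀ d ∈ T, |c d| ≤ cb) →
    ∑ d ∈ T, ‖Ms D A R X d * sm D (jac d) fun y =>
      WG (fun u => wp κ k s u * ((1 - st (Ui (2 * Real.log X) I) u : ℝ) : ℂ)) (y - L₁ + c d)‖ ≤
      C * X * R ^ κ * Real.exp (R / 2) := by
  obtain ⟨k₀, A₀, h₀⟩ := nrm_Ms D hFE hPS
  obtain ⟨C₂, hC₂, h₂⟩ := top_nrm' D hFE hPS cb
  refine ⟨k₀ + 1, A₀, fun A hA κ hκ => ?_⟩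
  obtain ⟨C₁, X₁, hC₁, h₁⟩ := h₀ A hA
  obtain ⟨X₂, h₃⟩ := pm_facts A
  obtain ⟨L₀, h₄⟩ := log_small (64 ^ κ * 33 ^ 2 * 2) (κ + 3) one_pos
  refine ⟨C₁ * C₂, max (max X₁ X₂) (Real.exp (Real.exp L₀)), by positivity,
    fun X R s L₁ I k T c hX hP hs hT hc => ?_⟩
  obtain ⟨hX3, hL, hR, -, -, hU4, -⟩ :=
    h₃ X R I ((le_max_right _ _).trans ((le_max_left _ _).trans hX)) hP
  have hM := h₁ X R I ((le_max_left _ _).trans ((le_max_left _ _).trans hX)) hP
  have hX0 : 0 < X := by linarith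
  have hL₀ : L₀ ≤ Real.log (Real.log X) := by
    rw [Real.le_log_iff_exp_le (by linarith), Real.le_log_iff_exp_le hX0]
    exact (le_max_right _ _).trans hX
  have hI := hP.hI
  have hI' := hP.hI'
  set L := Real.log X with hLdef
  set U := Ui (2 * L) I with hUdef
  have hL0 : 0 < L := by linarith
  have hl1 : 1 ≤ Real.log L := by
    rw [Real.le_log_iff_exp_le hL0]
    linarith [Real.exp_one_lt_d9]
  have hU1 : 1 ≤ U := by linarith
  have hU0 : 0 < U := by linarith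
  have hR0 : 0 ≤ R := by linarith
  have hN := h₂ X U ((2 * U / L) ^ κ * R ^ κ * Real.exp (R / 2)) L₁ T c
    (fun u => wp κ k s u * ((1 - st U u : ℝ) : ℂ)) (by linarith) hU1 (by positivity) hT hc
    (((differentiable_wp κ k s).continuous.comp continuous_ofReal).mul
      (continuous_ofReal.comp (continuous_const.sub (continuous_st U))))
    (fun u hu => by
      rcases le_total (2 * U) u with h | h
      · rw [st_eq_one hU0 h, sub_self, ofReal_zero, mul_zero, norm_zero]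
        positivity
      · have h5 := st_mem U u
        have h6 : |s| * ‖(u : ℂ)‖ ≤ 2 * U / L * R := by
          rw [hs, norm_real, Real.norm_of_nonneg hu.le]
          calc R / L * u ≤ R / L * (2 * U) := mul_le_mul_of_nonneg_left h (by positivity)
            _ = _ := by ring
        have h7 : 2 * U / L * R ≤ R / 2 := by
          have h8 : 2 * U / L ≤ 1 / 2 := by rw [div_le_iff₀ hL0]; linarith
          nlinarith
        rw [norm_mul, norm_real, Real.norm_of_nonneg (by linarith [h5.2])]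
        refine (mul_le_of_le_one_right (norm_nonneg _) (by linarith [h5.1])).trans
          ((wp_le_small κ k s u).trans ?_)
        rw [← mul_pow]
        exact mul_le_mul (pow_le_pow_left₀ (by positivity) h6 κ)
          (Real.exp_le_exp.2 (h6.trans h7)) (Real.exp_pos _).le (by positivity))
    (fun u hu => by rw [st_eq_one hU0 hu.le, sub_self, ofReal_zero, mul_zero])
  have hnum := ntop_num hL hκ hU0.le hI' (h₄ _ hL₀)
  simp only [norm_mul]
  refine (sum_mul_le_nrm T _ _).trans ((mul_le_mul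
    ((nrm_subset (hT.trans (ntop_sqf X))).trans hM) hN (Real.sqrt_nonneg _)
    (by positivity)).trans ?_)
  have e : C₁ * √X * L ^ k₀ * (C₂ * ((2 * U / L) ^ κ * R ^ κ * Real.exp (R / 2)) * (1 + U) ^ 2 *
      ll X * √X) = C₁ * C₂ * (√X * √X) * R ^ κ * Real.exp (R / 2) *
        (L ^ k₀ * ((2 * U / L) ^ κ * (1 + U) ^ 2 * (1 + Real.log (1 + L)))) := by
    rw [ll]; ring
  rw [e, Real.mul_self_sqrt hX0.le]
  exact mul_le_of_le_one_right (by positivity) hnum

/-- `Poly.abs_le`, `poly_MM`, `16 ≤ A`. -/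
theorem norm_Ms_le (D : Data) {A R X : ℝ} {I : ℕ} (h : Pm A R X I) (m : ℤ) :
    ‖Ms D A R X m‖ ≤ 2 * Real.exp (Real.log X / 8) := by
  obtain ⟨-, h1, -, h2, h3⟩ := ntop_pm h
  rw [Ms, norm_real, Real.norm_eq_abs]
  refine ((poly_MM D h1 h2).abs_le (adm_jac m)).trans ?_
  linarith [Real.exp_le_exp.2 h3]

/-- The trivial bound: `card_allm`, `norm_Ms_le`, `norm_sg_le` with `B = exp (max L' 0 / 10)`. -/
theorem triv_sg (D : Data) {A R X s : ℝ} {I : ℕ} (h : Pm A R X I) (hX : 3 ≤ X) (hs : |s| = R / Real.log X)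
    (κ k : ℕ) {U : ℝ} (hU : 0 < U) {T : Finset ℤ} (hT : T ⊆ allm X) (L' : ℝ) :
    ∑ m ∈ T, ‖Ms D A R X m * sg D (jac m) (fun u => wp κ k s u) U L'‖ ≤
      12 * X * Real.exp (Real.log X / 8 + max L' 0 / 10 + L') := by
  obtain ⟨-, h1, h1', -, -⟩ := ntop_pm h
  refine (ntop_sum (K := 2 * Real.exp (Real.log X / 8) *
    (2 * Real.exp (max L' 0 / 10) * Real.exp L')) hX (by positivity) hT fun m _ => ?_).trans
    (le_of_eq ?_)
  · rw [norm_mul]
    refine mul_le_mul (norm_Ms_le D h m) (norm_sg_le (adm_jac m) hU (Real.exp_pos _).le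
      fun u hu hu' => (wp_le_exp κ k s u).trans (Real.exp_le_exp.2 ?_)) (norm_nonneg _)
      (by positivity)
    rw [hs, norm_real, Real.norm_of_nonneg hu.le]
    have h2 := le_max_left L' 0
    nlinarith
  · rw [Real.exp_add, Real.exp_add]; ring

theorem triv_main (D : Data) {A R X : ℝ} {I : ℕ} (h : Pm A R X I) (hX : 3 ≤ X) {T : Finset ℤ}
    (hT : T ⊆ allm X) (L' : ℝ) :
    ∑ m ∈ T, ‖Ms D A R X m * ((Real.exp (R / Real.log X * L') *
      NN D (jac m) (R / Real.log X) (Real.log X / A) : ℝ) : ℂ)‖ ≤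
      12 * X * Real.exp (Real.log X / 4 + max L' 0 / 10) := by
  obtain ⟨-, h1, h1', h2, h3⟩ := ntop_pm h
  refine (ntop_sum (K := 2 * Real.exp (Real.log X / 8) *
    (Real.exp (max L' 0 / 10) * (2 * Real.exp (Real.log X / 8)))) hX (by positivity) hT
    fun m _ => ?_).trans (le_of_eq ?_)
  · rw [norm_mul, norm_real, Real.norm_eq_abs, abs_mul, abs_of_pos (Real.exp_pos _)]
    refine mul_le_mul (norm_Ms_le D h m) (mul_le_mul (Real.exp_le_exp.2 ?_) ?_ (abs_nonneg _)
      (Real.exp_pos _).le) (by positivity) (by positivity)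
    · have h4 := le_max_left L' 0
      have h5 := le_max_right L' 0
      nlinarith
    · refine ((poly_NN D h1 h2).abs_le (adm_jac m)).trans ?_
      linarith [Real.exp_le_exp.2 h3]
  · rw [show Real.log X / 4 = Real.log X / 8 + Real.log X / 8 by ring, Real.exp_add, Real.exp_add]
    ring

end Pool.Agent.Lib.MP_03e5d0_nt
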