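import Pool.Agent.Lib.MP_03e5d0_nt.NEn2
import Pool.Agent.Lib.MP_03e5d0_nt.NPm
import Pool.Agent.Lib.MP_03e5d0_nt.MTr2

set_option autoImplicit false

noncomputable section

namespace Pool.Agent.Lib.MP_03e5d0_nt

open Complex Finset MeasureTheory
open scoped NumberTheorySymbols Real ContDiff

/-! From the random model to the integers. -/

theorem ntr1_sq {ι : Type} {T : Finset ι} {a : ι → ℂ} {X C E W : ℝ} (hX : 0 ≤ X) (hC : 0 ≤ C)
    (hE : 0 ≤ E) (hW : 0 ≤ W) (h : ∑ k ∈ T, ‖a k‖ ^ 2 ≤ Real.exp π * (X * E ^ 2 + C * W ^ 2)) :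
    nrm T a ≤ Real.exp π * (1 + C) * (√X * E + W) := by
  refine nrm_le_of_sq (by positivity) (h.trans ?_)
  have h1 : 1 ≤ Real.exp π := Real.one_le_exp Real.pi_pos.le
  have h2 : X * E ^ 2 + W ^ 2 ≤ (√X * E + W) ^ 2 := by
    have h3 : (√X * E) ^ 2 = X * E ^ 2 := by rw [mul_pow, Real.sq_sqrt hX]
    have h4 : 0 ≤ √X * E * W := by positivity
    nlinarith
  have h5 : X * E ^ 2 + C * W ^ 2 ≤ (1 + C) * (X * E ^ 2 + W ^ 2) := by
    have h6 : 0 ≤ C * (X * E ^ 2) := by positivity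
    nlinarith [sq_nonneg W]
  have h7 : 1 ≤ Real.exp π * (1 + C) := one_le_mul_of_one_le_of_one_le h1 (by linarith)
  calc Real.exp π * (X * E ^ 2 + C * W ^ 2)
      ≤ Real.exp π * ((1 + C) * (√X * E + W) ^ 2) :=
        mul_le_mul_of_nonneg_left (h5.trans (mul_le_mul_of_nonneg_left h2 (by linarith)))
          (by linarith)
    _ = 1 * (Real.exp π * (1 + C)) * (√X * E + W) ^ 2 := by ring
    _ ≤ (Real.exp π * (1 + C)) * (Real.exp π * (1 + C)) * (√X * E + W) ^ 2 := by gcongr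
    _ = _ := by ring

theorem ntr1_pr (D : Data) (Λ : ℝ) : ∀ p ∈ pr D Λ, p.Prime := fun _ hp => (mem_pr.1 hp).1

/-- `trans0` for `f ^ 2` (`Poly.pow`), `sum_allm_le_gsum`, `Poly.abs_le`, `en_sq`. -/
theorem nrm_poly (D : Data) (hFE : D.FE) (hPS : D.PS) : ∃ (c : ℕ) (C : ℝ), 0 ≤ C ∧
    ∀ (X Y Λ : ℝ) (f : (ℕ → ℝ) → ℝ), 3 ≤ X → Poly D Y f → 1 ≤ Y → Y ^ 2 ≤ X → 3 ≤ Λ → Real.log X ≤ Λ →
    nrm (allm X) (fun m => (f (jac m) : ℂ)) ≤
      C * (√X * en (pr D Λ) (fun x => (f x : ℂ)) + Y ^ c * ll X) := by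
  obtain ⟨c, C, hC, H⟩ := trans0 D hFE hPS
  refine ⟨c, Real.exp π * (1 + C), by positivity, fun X Y Λ f hX hf hY hYX hΛ hL => ?_⟩
  have hl := one_le_ll (M := X) (by linarith)
  have h1 := H X (Y ^ 2) Λ (fun x => f x ^ 2) hX (hf.pow 2) (one_le_pow₀ hY) hYX hΛ
    ((Real.log_le_log (by positivity) hYX).trans hL)
  have h2 := sum_allm_le_gsum (X := X) (by linarith) (f := fun x => f x ^ 2)
    (fun x _ => sq_nonneg _) (K := Y ^ 2) fun x hx => (le_abs_self _).trans ((hf.pow 2).abs_le hx)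
  have e : ∀ t : ℝ, ‖(t : ℂ)‖ ^ 2 = t ^ 2 := fun t => by rw [norm_real, Real.norm_eq_abs, sq_abs]
  refine ntr1_sq (by linarith) hC (en_nonneg _ _) (by positivity) ?_
  rw [en_sq (ntr1_pr D Λ)]
  simp only [e]
  refine h2.trans (mul_le_mul_of_nonneg_left ?_ (Real.exp_pos _).le)
  have h3 := (abs_le.1 h1).2
  have h4 : C * (Y ^ 2) ^ c * ll X ^ 2 = C * (Y ^ c * ll X) ^ 2 := by ring
  linarith

/-- `trans2` for `f ^ 2`. -/
theorem nrm_mul_sm (D : Data) (hFE : D.FE) (hPS : D.PS) : ∃ (c j : ℕ) (C : ℝ), 0 ≤ C ∧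
    ∀ (X Y B Lt Λ : ℝ) (f : (ℕ → ℝ) → ℝ) (V : ℝ → ℂ), 3 ≤ X → Poly D Y f → 1 ≤ Y → Y ^ 2 ≤ X →
    ContDiff ℝ ∞ V → (∀ i ≤ j, ∀ y, ‖iteratedDeriv i V y‖ ≤ B) → (∀ y, Lt < y → V y = 0) →
    Lt ≤ Real.log X → Real.log X + 2 ≤ Λ →
    nrm (allm X) (fun m => (f (jac m) : ℂ) * sm D (jac m) V) ≤
      C * (√X * en (pr D Λ) (fun x => (f x : ℂ) * sm D x V) + B * Y ^ c * Real.exp (Lt / 2) * ll X) := by
  obtain ⟨c, j, C, hC, H⟩ := trans2 D hFE hPS
  refine ⟨c, j, Real.exp π * (1 + C), by positivity,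
    fun X Y B Lt Λ f V hX hf hY hYX hV hB hV0 hLt hL => ?_⟩
  have hl := one_le_ll (M := X) (by linarith)
  have hB0 : 0 ≤ B := (norm_nonneg _).trans (hB 0 (Nat.zero_le _) 0)
  have h1 := H X (Y ^ 2) B Lt Λ (fun x => f x ^ 2) V hX (hf.pow 2) (one_le_pow₀ hY) hYX hV hB hV0
    hLt (by linarith) ((Real.log_le_log (by positivity) hYX).trans (by linarith))
  obtain ⟨K, hK⟩ : ∃ K : ℝ, ∀ x, Adm x → ‖sm D x V‖ ≤ K :=
    ⟨_, fun x hx => norm_sm_le hx hB0 hV0 fun y => by simpa using hB 0 (Nat.zero_le _) y⟩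
  have h2 := sum_allm_le_gsum (X := X) (by linarith) (f := fun x => f x ^ 2 * ‖sm D x V‖ ^ 2)
    (fun x _ => by positivity) (K := Y ^ 2 * K ^ 2) fun x hx =>
      mul_le_mul ((le_abs_self _).trans ((hf.pow 2).abs_le hx))
        (pow_le_pow_left₀ (norm_nonneg _) (hK x hx) 2) (by positivity) (by positivity)
  have e : ∀ (t : ℝ) (z : ℂ), ‖(t : ℂ) * z‖ ^ 2 = t ^ 2 * ‖z‖ ^ 2 := fun t z => by
    rw [norm_mul, mul_pow, norm_real, Real.norm_eq_abs, sq_abs]
  refine ntr1_sq (by linarith) hC (en_nonneg _ _) (by positivity) ?_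
  rw [en_sq (ntr1_pr D Λ)]
  simp only [e]
  refine h2.trans (mul_le_mul_of_nonneg_left ?_ (Real.exp_pos _).le)
  have h3 := (abs_le.1 h1).2
  have h5 : Real.exp Lt = Real.exp (Lt / 2) ^ 2 := by
    rw [← Real.exp_nat_mul]
    congr 1
    push_cast
    ring
  have h4 : C * B ^ 2 * (Y ^ 2) ^ c * Real.exp Lt * ll X ^ 2 =
      C * (B * Y ^ c * Real.exp (Lt / 2) * ll X) ^ 2 := by
    rw [h5]
    ring
  linarith

open Classical in
/-- Chebyshev: `1 ≤ 4 (N M - 1) ^ 2` if `Nr` fails; `nrm_poly` with `Y = 5 exp (4 U)`, `Λ = log X + 3`,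
`en_sub_one`. -/
theorem card_not_nr (D : Data) (hFE : D.FE) (hPS : D.PS) : ∃ (c : ℕ) (C : ℝ), 0 ≤ C ∧
    ∀ X σ U : ℝ, 3 ≤ X → 1 ≤ U → 1 ≤ σ * U → 25 * Real.exp (8 * U) ≤ X →
    (((allm X).filter fun m => ¬Nr D (jac m) σ U).card : ℝ) ≤
      C * (X * Real.exp (-(σ * U / 2)) + Real.exp (c * U) * ll X ^ 2) := by
  obtain ⟨c, C, hC, H⟩ := nrm_poly D hFE hPS
  obtain ⟨C₁, hC₁, H₁⟩ := en_sub_one D hPS
  refine ⟨8 * c, 8 * C ^ 2 * (C₁ ^ 2 + 25 ^ c), by positivity, fun X σ U hX hU hσU hUX => ?_⟩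
  have hσ : 0 ≤ σ := by
    by_contra h
    push Not at h
    nlinarith
  have hX0 : 0 ≤ X := by linarith
  have hl := one_le_ll (M := X) (by linarith)
  have he : 1 ≤ Real.exp (4 * U) := Real.one_le_exp (by linarith)
  have e2 : Real.exp (2 * U) * Real.exp (2 * U) = Real.exp (4 * U) := by
    rw [← Real.exp_add]
    congr 1
    ring
  have e4 : (5 * Real.exp (4 * U)) ^ 2 = 25 * Real.exp (8 * U) := by
    rw [mul_pow, ← Real.exp_nat_mul]
    congr 1
    · norm_num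
    · congr 1
      push_cast
      ring
  have hp : Poly D (5 * Real.exp (4 * U)) fun x => NN D x σ U * MM D x σ U - 1 := by
    have h1 := ((poly_NN D hσ (U := U) (by linarith)).mul (poly_MM D hσ (U := U) (by linarith))).add
      ((poly_one D).smul (c := -1) (by simp))
    simp only [neg_mul, one_mul, ← sub_eq_add_neg] at h1
    refine h1.mono ?_
    nlinarith
  have hlog : 0 ≤ Real.log X := Real.log_nonneg (by linarith)
  have h2 := H X _ (Real.log X + 3) _ hX hp (by linarith) (e4 ▸ hUX) (by linarith) (by linarith)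
  have h3 := H₁ (Real.log X + 3) σ U hU hσU
  have h4 := en_nonneg (pr D (Real.log X + 3))
    fun x => ((NN D x σ U * MM D x σ U - 1 : ℝ) : ℂ)
  set E := en (pr D (Real.log X + 3)) fun x => ((NN D x σ U * MM D x σ U - 1 : ℝ) : ℂ) with hE
  have h5 : (((allm X).filter fun m => ¬Nr D (jac m) σ U).card : ℝ) ≤
      4 * nrm (allm X) (fun m => ((NN D (jac m) σ U * MM D (jac m) σ U - 1 : ℝ) : ℂ)) ^ 2 := by
    rw [nrm_sq, mul_sum, card_eq_sum_ones, Nat.cast_sum]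
    refine (sum_le_sum fun m hm => ?_).trans
      (sum_le_sum_of_subset_of_nonneg (filter_subset _ _) fun _ _ _ => by positivity)
    have h6 := (mem_filter.1 hm).2
    rw [Nr, not_le] at h6
    rw [norm_real, Real.norm_eq_abs]
    push_cast
    nlinarith
  have h7 := pow_le_pow_left₀ (nrm_nonneg _ _) h2 2
  have h8 : (√X * E) ^ 2 ≤ X * (C₁ ^ 2 * Real.exp (-(σ * U / 2))) := by
    rw [mul_pow, Real.sq_sqrt hX0]
    refine mul_le_mul_of_nonneg_left ((pow_le_pow_left₀ h4 h3 2).trans_eq ?_) hX0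
    rw [mul_pow, ← Real.exp_nat_mul]
    congr 2
    push_cast
    ring
  have h9 : ((5 * Real.exp (4 * U)) ^ c * ll X) ^ 2 =
      25 ^ c * (Real.exp ((8 * c : ℕ) * U) * ll X ^ 2) := by
    rw [mul_pow, ← pow_mul, mul_comm c 2, pow_mul, e4, mul_pow, ← Real.exp_nat_mul, mul_assoc]
    congr 3
    push_cast
    ring
  have h10 : (√X * E + (5 * Real.exp (4 * U)) ^ c * ll X) ^ 2 ≤
      2 * ((√X * E) ^ 2 + ((5 * Real.exp (4 * U)) ^ c * ll X) ^ 2) := by
    nlinarith [sq_nonneg (√X * E - (5 * Real.exp (4 * U)) ^ c * ll X)]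
  rw [h9] at h10
  have p1 : 0 ≤ X * Real.exp (-(σ * U / 2)) := by positivity
  have p2 : 0 ≤ Real.exp ((8 * c : ℕ) * U) * ll X ^ 2 := by positivity
  have p3 : (0 : ℝ) ≤ 25 ^ c := by positivity
  have h11 : (√X * E + (5 * Real.exp (4 * U)) ^ c * ll X) ^ 2 ≤ 2 * ((C₁ ^ 2 + 25 ^ c) *
      (X * Real.exp (-(σ * U / 2)) + Real.exp ((8 * c : ℕ) * U) * ll X ^ 2)) := by
    nlinarith [mul_nonneg p3 p1, mul_nonneg (sq_nonneg C₁) p2]
  rw [mul_pow] at h7
  have h12 := mul_le_mul_of_nonneg_left h11 (sq_nonneg C)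
  linarith

open Classical in
/-- `card_not_nr` for the `I + 2` mollifiers; with `2 c ≤ A` the error terms are at most
`(L + 2) exp (L / 2) (1 + L) ^ 2 ≤ X exp (-L / 320) ≤ X exp (-R / (2 A))`. -/
theorem card_bad (D : Data) (hFE : D.FE) (hPS : D.PS) : ∃ A₀ : ℝ, ∀ A, A₀ ≤ A → ∃ C X₀ : ℝ, 0 ≤ C ∧
    ∀ (X R : ℝ) (I : ℕ), X₀ ≤ X → Pm A R X I →
    (((allm X).filter fun m => ¬Gd D A R (Real.log X) I (jac m)).card : ℝ) ≤
      C * X * Real.exp (-(R / (2 * A))) := by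
  obtain ⟨c, C, hC, H⟩ := card_not_nr D hFE hPS
  refine ⟨2 * c, fun A hA => ?_⟩
  obtain ⟨X₁, hX₁⟩ := pm_facts A
  obtain ⟨L₀, hL₀⟩ := log_small 2 3 (b := 1 / 4) (by norm_num)
  refine ⟨4 * C, max X₁ (Real.exp L₀), by positivity, fun X R I hX hP => ?_⟩
  obtain ⟨h3, hL, hR, hLA, hI, -, hi⟩ := hX₁ X R I ((le_max_left _ _).trans hX) hP
  have hX0 : 0 < X := by linarith
  have hL1 : L₀ ≤ Real.log X := (Real.le_log_iff_exp_le hX0).2 ((le_max_right _ _).trans hX)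
  have hXL : Real.exp (Real.log X) = X := Real.exp_log hX0
  have hll : ll X ≤ 1 + Real.log X := by
    have := Real.log_le_sub_one_of_pos (show 0 < 1 + Real.log X by linarith)
    unfold ll
    linarith
  have hl := one_le_ll (M := X) (by linarith)
  have hsm := hL₀ _ hL1
  set L := Real.log X with hLd
  have hA16 := hP.hA
  have hAR := hP.hAR
  have hRL : 10 * R ≤ L := hP.hR
  have hA0 : 0 < A := by linarith
  have key : ∀ σ U : ℝ, 1 ≤ U → U ≤ L / A → 1 ≤ σ * U →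
      (((allm X).filter fun m => ¬Nr D (jac m) σ U).card : ℝ) ≤
        C * (X * Real.exp (-(σ * U / 2)) + Real.exp (L / 2) * (1 + L) ^ 2) := by
    intro σ U h1 h2 h4
    rw [le_div_iff₀ hA0] at h2
    have h5 : 25 * Real.exp (8 * U) ≤ X := by
      have h6 : 25 ≤ Real.exp (L / 2) := by linarith [Real.add_one_le_exp (L / 2)]
      have h7 : Real.exp (8 * U) ≤ Real.exp (L / 2) := Real.exp_le_exp.2 (by nlinarith)
      rw [← hXL, show L = L / 2 + L / 2 by ring, Real.exp_add]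
      exact mul_le_mul h6 h7 (Real.exp_pos _).le (Real.exp_pos _).le
    refine (H X σ U h3 h1 h4 h5).trans (mul_le_mul_of_nonneg_left (add_le_add_right ?_ _) hC)
    exact mul_le_mul (Real.exp_le_exp.2 (by nlinarith)) (pow_le_pow_left₀ (by linarith) hll 2)
      (by positivity) (Real.exp_pos _).le
  set T := Real.exp (-(R / (2 * A))) with hT
  set W := Real.exp (L / 2) * (1 + L) ^ 2 with hW
  have hT0 : 0 < T := Real.exp_pos _
  have hW0 : 0 ≤ W := by positivity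
  have hsub : ((allm X).filter fun m => ¬Gd D A R L I (jac m)) ⊆
      ((allm X).filter fun m => ¬Nr D (jac m) (R / L) (L / A)) ∪ (range (I + 1)).biUnion fun i =>
        (allm X).filter fun m => ¬Nr D (jac m) (si A R L i) (Vi A L i) := by
    intro m hm
    rw [mem_filter, Gd, not_and_or] at hm
    rw [mem_union]
    rcases hm.2 with h | h
    · exact Or.inl (mem_filter.2 ⟨hm.1, h⟩)
    · push Not at h
      obtain ⟨i, h1, h2⟩ := h
      exact Or.inr (mem_biUnion.2 ⟨i, mem_range.2 (by omega), mem_filter.2 ⟨hm.1, h2⟩⟩)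
  have hc := (card_le_card hsub).trans ((card_union_le _ _).trans
    (add_le_add_right card_biUnion_le _))
  have hc' : (((allm X).filter fun m => ¬Gd D A R L I (jac m)).card : ℝ) ≤
      (((allm X).filter fun m => ¬Nr D (jac m) (R / L) (L / A)).card : ℝ) + ∑ i ∈ range (I + 1),
        (((allm X).filter fun m => ¬Nr D (jac m) (si A R L i) (Vi A L i)).card : ℝ) := by
    exact_mod_cast hc
  have e0 : R / L * (L / A) = R / A := by
    have : L ≠ 0 := by linarith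
    field_simp
  have b0 := key (R / L) (L / A) hLA le_rfl (by rw [e0, le_div_iff₀ hA0]; linarith)
  rw [e0, show R / A / 2 = R / (2 * A) by field_simp, ← hT] at b0
  have b1 : ∀ i ∈ range (I + 1),
      (((allm X).filter fun m => ¬Nr D (jac m) (si A R L i) (Vi A L i)).card : ℝ) ≤
        C * (X * T * (1 / 2) ^ i + W) := by
    intro i hi'
    obtain ⟨a1, a2, -, -, a3, -⟩ := hi i (by have := mem_range.1 hi'; omega)
    have hi0 : (0 : ℝ) ≤ i := Nat.cast_nonneg i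
    refine (key _ _ a1 a2 (by rw [a3]; nlinarith)).trans
      (mul_le_mul_of_nonneg_left (add_le_add_left ?_ _) hC)
    rw [a3, mul_assoc]
    refine mul_le_mul_of_nonneg_left ?_ hX0.le
    rw [show -(R * (1 + i) / 2) = -(R / 2) + i * -(R / 2) by ring, Real.exp_add, Real.exp_nat_mul]
    refine mul_le_mul (Real.exp_le_exp.2 (neg_le_neg ?_)) (pow_le_pow_left₀ (Real.exp_pos _).le ?_ i)
      (by positivity) hT0.le
    · exact div_le_div_of_nonneg_left (by linarith) (by norm_num) (by linarith)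
    · rw [Real.exp_neg, one_div]
      exact inv_anti₀ (by norm_num) (by linarith [Real.add_one_le_exp (R / 2)])
  have b2 := sum_le_sum b1
  rw [← mul_sum, sum_add_distrib, ← mul_sum, sum_const, card_range, nsmul_eq_mul] at b2
  have b3 : ∑ i ∈ range (I + 1), (1 / 2 : ℝ) ^ i ≤ 2 := sum_geometric_two_le _
  have b4 : ((I : ℝ) + 2) * W ≤ X * T := by
    have c1 : ((I : ℝ) + 2) * (1 + L) ^ 2 ≤ Real.exp (1 / 4 * L) := by
      refine le_trans ?_ hsm
      rw [pow_succ' (1 + L) 2, ← mul_assoc]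
      exact mul_le_mul_of_nonneg_right (by linarith) (by positivity)
    have c2 : R / (2 * A) ≤ L / 4 := by
      rw [div_le_iff₀ (by linarith)]
      nlinarith
    calc ((I : ℝ) + 2) * W = Real.exp (L / 2) * (((I : ℝ) + 2) * (1 + L) ^ 2) := by rw [hW]; ring
      _ ≤ Real.exp (L / 2) * Real.exp (1 / 4 * L) :=
        mul_le_mul_of_nonneg_left c1 (Real.exp_pos _).le
      _ ≤ X * T := by
        rw [← hXL, hT, ← Real.exp_add, ← Real.exp_add]
        exact Real.exp_le_exp.2 (by linarith)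
  have b5 := mul_le_mul_of_nonneg_left b3 (mul_pos hX0 hT0).le
  push_cast at b2
  have b6 : X * T + W + (X * T * ∑ i ∈ range (I + 1), (1 / 2 : ℝ) ^ i + (I + 1) * W) ≤
      4 * (X * T) := by linarith
  have b7 := mul_le_mul_of_nonneg_left b6 hC
  linarith

end Pool.Agent.Lib.MP_03e5d0_nt
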