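import Pool.Agent.Lib.MP_03e5d0_nt.NTr1
import Pool.Agent.Lib.MP_03e5d0_nt.NSp

set_option autoImplicit false

noncomputable section

namespace Pool.Agent.Lib.MP_03e5d0_nt

open Complex Finset MeasureTheory
open scoped NumberTheorySymbols Real ContDiff

/-! Second moments of the mollified pieces over the integers. -/

theorem ntr2_ll {X : ℝ} (hX : 1 ≤ X) : ll X ≤ 1 + Real.log X := by
  have h1 := Real.log_nonneg hX
  have h2 := Real.log_le_sub_one_of_pos (show 0 < 1 + Real.log X by linarith)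
  unfold ll
  linarith

theorem ntr2_sqrt {X : ℝ} (hX : 0 < X) : √X = Real.exp (Real.log X / 2) := by
  rw [Real.exp_half, Real.exp_log hX]

theorem ntr2_err {X a b : ℝ} (c : ℕ) (hX : 3 ≤ X) (hL : 160 ≤ Real.log X) (ha : 0 ≤ a)
    (hb : c * b ≤ Real.log X / 4) : (a * Real.exp b) ^ c * ll X ≤ a ^ c * √X := by
  have h1 := ntr2_ll (show 1 ≤ X by linarith)
  have h2 := Real.add_one_le_exp (Real.log X / 8)
  have h3 : Real.exp (Real.log X / 4) = Real.exp (Real.log X / 8) * Real.exp (Real.log X / 8) := by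
    rw [← Real.exp_add]; congr 1; ring
  have h4 : ll X ≤ Real.exp (Real.log X / 4) := by
    rw [h3]
    nlinarith
  have h5 : √X = Real.exp (Real.log X / 4) * Real.exp (Real.log X / 4) := by
    rw [ntr2_sqrt (by linarith), ← Real.exp_add]; congr 1; ring
  rw [mul_pow, ← Real.exp_nat_mul, mul_assoc, h5]
  refine mul_le_mul_of_nonneg_left ?_ (pow_nonneg ha _)
  exact mul_le_mul (Real.exp_le_exp.2 hb) h4 ((zero_le_one).trans (one_le_ll (by linarith)))
    (Real.exp_pos _).le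

theorem ntr2_sq {L a b : ℝ} (hL : 160 ≤ L) (ha0 : 0 ≤ a) (ha : a ≤ 4) (hb : b ≤ L / 4) :
    (a * Real.exp b) ^ 2 ≤ Real.exp L := by
  have h1 := Real.add_one_le_exp (L / 4)
  have h2 : Real.exp L = (Real.exp (L / 4) * Real.exp (L / 4)) ^ 2 := by
    rw [← Real.exp_add, ← Real.exp_nat_mul]; congr 1; push_cast; ring
  rw [h2]
  refine pow_le_pow_left₀ (by positivity) ?_ 2
  exact mul_le_mul (by linarith) (Real.exp_le_exp.2 hb) (Real.exp_pos _).le (Real.exp_pos _).le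

theorem ntr2_pow (i : ℕ) : (1 : ℝ) ≤ 2 ^ i ∧ (2 : ℝ) ^ i ≤ 4 ^ i :=
  ⟨one_le_pow₀ (by norm_num), pow_le_pow_left₀ (by norm_num) (by norm_num) i⟩

/-- `nrm_poly` with `Y = 4 exp (4 L / A)`, `en_NM` with base `σ = R / L`, `ρ = 4 R 4 ^ i`;
`Y ^ c * ll X ≤ √X` for `16 c ≤ A` and large `X`. -/
theorem nrm_NM (D : Data) (hFE : D.FE) (hPS : D.PS) : ∃ (k : ℕ) (A₀ : ℝ), ∀ A, A₀ ≤ A → ∃ C X₀ : ℝ,
    0 ≤ C ∧ ∀ (X R : ℝ) (I : ℕ), X₀ ≤ X → Pm A R X I → ∀ i ≤ I,
    nrm (allm X) (fun m => (NN D (jac m) (si A R (Real.log X) i) (Vi A (Real.log X) i) : ℂ) *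
      Ms D A R X m) ≤ C * √X * (R * 4 ^ i) ^ k := by
  obtain ⟨c, C₁, hC₁, h1⟩ := nrm_poly D hFE hPS
  obtain ⟨k, C₂, hC₂, h2⟩ := en_NM D hPS
  refine ⟨k, 16 * c, fun A hA => ?_⟩
  obtain ⟨X₀, h3⟩ := pm_facts A
  refine ⟨C₁ * (C₂ * 4 ^ k + 4 ^ c), X₀, by positivity, fun X R I hX hP i hi => ?_⟩
  obtain ⟨hX3, hL, hR, hLA, -, -, h4⟩ := h3 X R I hX hP
  obtain ⟨hV1, hV2, -, -, -, hs1, hs2, hs3⟩ := h4 i hi
  have hA16 := hP.hA
  have hAR := hP.hAR
  set L := Real.log X with hLdef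
  set s := si A R L i
  set V := Vi A L i
  have hL0 : 0 < L := by linarith
  have hσ : 0 < R / L := by positivity
  have hLA' : L / A ≤ L / 16 := div_le_div_of_nonneg_left hL0.le (by norm_num) hA16
  have hpoly : Poly D (4 * Real.exp (4 * (L / A))) fun x => NN D x s V * MM D x (R / L) (L / A) := by
    refine ((poly_NN D (hσ.le.trans hs1) (by linarith)).mul
      (poly_MM D hσ.le (by linarith))).mono ?_
    rw [mul_mul_mul_comm, ← Real.exp_add]
    exact mul_le_mul (by norm_num) (Real.exp_le_exp.2 (by linarith)) (Real.exp_pos _).le (by norm_num)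
  have hY1 : 1 ≤ 4 * Real.exp (4 * (L / A)) := by
    have := Real.one_le_exp (show 0 ≤ 4 * (L / A) by linarith)
    linarith
  have hY2 : (4 * Real.exp (4 * (L / A))) ^ 2 ≤ X := by
    have := ntr2_sq hL (a := 4) (b := 4 * (L / A)) (by norm_num) le_rfl (by linarith)
    rwa [hLdef, Real.exp_log (by linarith)] at this
  have h5 := h1 X _ L _ hX3 hpoly hY1 hY2 (by linarith) le_rfl
  obtain ⟨p1, p2⟩ := ntr2_pow i
  have hρ : 1 + (|s - R / L| + 1 / V + 1 / (L / A)) / (R / L) ≤ 4 * (R * 4 ^ i) := by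
    rw [abs_of_nonneg (by linarith)]
    have e : (s - R / L + 1 / V + 1 / (L / A)) / (R / L) = (s * L + L / V + A) / R - 1 := by
      field_simp
      ring
    have e2 : (s * L + L / V + A) / R ≤ R * 4 ^ i + 2 ^ i + 1 := by
      rw [div_le_iff₀ (by linarith)]
      nlinarith
    rw [e]
    nlinarith
  have h6 := h2 L (R / L) s (R / L) V (L / A) _ hσ hs1 le_rfl hV1 hLA hρ
  have h7 := ntr2_err (a := 4) (b := 4 * (L / A)) c hX3 hL (by norm_num) (by
    rw [← hLdef, ← mul_assoc, ← mul_div_assoc, div_le_div_iff₀ (by linarith) (by norm_num)]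
    nlinarith)
  have h8 : (1 : ℝ) ≤ (R * 4 ^ i) ^ k := one_le_pow₀ (by nlinarith)
  have hs := Real.sqrt_nonneg X
  have e : (fun m : ℤ => (NN D (jac m) s V : ℂ) * Ms D A R X m) =
      fun m => ((NN D (jac m) s V * MM D (jac m) (R / L) (L / A) : ℝ) : ℂ) := by
    funext m
    rw [Complex.ofReal_mul]
    rfl
  rw [e]
  refine h5.trans ?_
  rw [mul_pow] at h6
  have h9 := mul_le_mul_of_nonneg_left h6 hs
  have h10 := mul_le_mul_of_nonneg_left h8 (show 0 ≤ 4 ^ c * √X by positivity)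
  rw [mul_assoc, mul_assoc]
  refine mul_le_mul_of_nonneg_left ?_ hC₁
  linarith

/-- `nrm_poly`, `en_MM`; `1 + L / R ≤ L`. -/
theorem nrm_Ms (D : Data) (hFE : D.FE) (hPS : D.PS) : ∃ (k : ℕ) (A₀ : ℝ), ∀ A, A₀ ≤ A → ∃ C X₀ : ℝ,
    0 ≤ C ∧ ∀ (X R : ℝ) (I : ℕ), X₀ ≤ X → Pm A R X I →
    nrm (allm X) (Ms D A R X) ≤ C * √X * Real.log X ^ k := by
  obtain ⟨c, C₁, hC₁, h1⟩ := nrm_poly D hFE hPS
  obtain ⟨k, C₂, hC₂, h2⟩ := en_MM D hPS
  refine ⟨k, 16 * c, fun A hA => ?_⟩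
  obtain ⟨X₀, h3⟩ := pm_facts A
  refine ⟨C₁ * (C₂ + 2 ^ c), X₀, by positivity, fun X R I hX hP => ?_⟩
  obtain ⟨hX3, hL, hR, hLA, -, -, -⟩ := h3 X R I hX hP
  have hA16 := hP.hA
  set L := Real.log X with hLdef
  have hL0 : 0 < L := by linarith
  have hσ : 0 < R / L := by positivity
  have hLA' : L / A ≤ L / 16 := div_le_div_of_nonneg_left hL0.le (by norm_num) hA16
  have hpoly := poly_MM D hσ.le (show 0 < L / A by linarith)
  have hY1 : 1 ≤ 2 * Real.exp (2 * (L / A)) := by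
    have := Real.one_le_exp (show 0 ≤ 2 * (L / A) by linarith)
    linarith
  have hY2 : (2 * Real.exp (2 * (L / A))) ^ 2 ≤ X := by
    have := ntr2_sq hL (a := 2) (b := 2 * (L / A)) (by norm_num) (by norm_num) (by linarith)
    rwa [hLdef, Real.exp_log (by linarith)] at this
  have h5 := h1 X _ L _ hX3 hpoly hY1 hY2 (by linarith) le_rfl
  have hρ : 1 + 1 / (R / L) ≤ L := by
    rw [one_div_div]
    have : L / R ≤ L / 16 := div_le_div_of_nonneg_left hL0.le (by norm_num) hR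
    linarith
  have h6 := (h2 L (R / L) (L / A) hσ hLA).trans
    (mul_le_mul_of_nonneg_left (pow_le_pow_left₀ (by positivity) hρ k) hC₂)
  have h7 := ntr2_err (a := 2) (b := 2 * (L / A)) c hX3 hL (by norm_num) (by
    rw [← hLdef, ← mul_assoc, ← mul_div_assoc, div_le_div_iff₀ (by linarith) (by norm_num)]
    have : (0 : ℝ) ≤ c := Nat.cast_nonneg c
    nlinarith)
  have h8 : (1 : ℝ) ≤ L ^ k := one_le_pow₀ (by linarith)
  have hs := Real.sqrt_nonneg X
  refine le_trans h5 ?_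
  have h9 := mul_le_mul_of_nonneg_left h6 hs
  have h10 := mul_le_mul_of_nonneg_left h8 (show 0 ≤ 2 ^ c * √X by positivity)
  rw [mul_assoc, mul_assoc]
  refine mul_le_mul_of_nonneg_left ?_ hC₁
  linarith

/-- `nrm_mul_sm` at `X' = exp (max L L')` (`allm X ⊆ allm X'`), `Y = 2 exp (2 V)`, `Lt = L' - U`
(`pc_supp`, `Sm.affine`), `en_pc` with base `σ = 1 / (2 L)`, `ρ = 7 R ^ 2 4 ^ i`. With `8 c ≤ A` the error
term is at most `2 ^ c exp (U / 4) exp ((L' - U) / 2) ll X' ≤ 2 ^ c √X' ll X' / L ^ 4`. -/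
theorem nrm_Mpc (D : Data) (hFE : D.FE) (hPS : D.PS) : ∃ (j k : ℕ) (A₀ : ℝ), ∀ A, A₀ ≤ A → ∃ C X₀ : ℝ,
    0 ≤ C ∧ ∀ (X R L' B : ℝ) (I : ℕ) (Θ : ℝ → ℂ), X₀ ≤ X → Pm A R X I → L' ≤ 2 * Real.log X →
    Sm j 1 4 B Θ → ∀ i ≤ I,
    nrm (allm X) (fun m => (MM D (jac m) (si A R (Real.log X) i) (Vi A (Real.log X) i) : ℂ) *
      pc D (jac m) L' (Ui (2 * Real.log X) i) Θ) ≤
      C * B * √X * Real.exp (max (L' - Real.log X) 0 / 2) * (R ^ 2 * 4 ^ i) ^ k := by
  obtain ⟨c, j₁, C₁, hC₁, h1⟩ := nrm_mul_sm D hFE hPS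
  obtain ⟨j₂, k, C₂, hC₂, h2⟩ := en_pc D hPS
  refine ⟨max j₁ j₂, k, 8 * c, fun A hA => ?_⟩
  obtain ⟨X₀, h3⟩ := pm_facts A
  refine ⟨C₁ * (C₂ * 7 ^ k + 2 ^ c), X₀, by positivity, fun X R L' B I Θ hX hP hL' hΘ i hi => ?_⟩
  obtain ⟨hX3, hL, hR, hLA, -, -, h4⟩ := h3 X R I hX hP
  obtain ⟨hV1, hV2, hU1, hU2, -, hs1, hs2, hs3⟩ := h4 i hi
  have hA16 := hP.hA
  have hB := hΘ.nonneg
  have hVU : Vi A (Real.log X) i = Ui (2 * Real.log X) i / A := rfl
  set L := Real.log X with hLdef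
  set s := si A R L i
  set V := Vi A L i
  set U := Ui (2 * L) i
  have hL0 : 0 < L := by linarith
  have hσ : 0 < R / L := by positivity
  have hLA' : L / A ≤ L / 16 := div_le_div_of_nonneg_left hL0.le (by norm_num) hA16
  have hAV : V * A = U := by rw [hVU]; field_simp
  have hVU' : V ≤ U := by
    have := mul_le_mul_of_nonneg_left hA16 (show 0 ≤ V by linarith)
    linarith
  set M := max L L' with hM
  have hM1 : L ≤ M := le_max_left _ _
  have hM2 : L' ≤ M := le_max_right _ _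
  have hM3 : M ≤ 2 * L := max_le (by linarith) hL'
  have hXX : X ≤ Real.exp M := by
    rw [← Real.exp_log (show 0 < X by linarith)]
    exact Real.exp_le_exp.2 hM1
  have hsub : allm X ⊆ allm (Real.exp M) := by
    have := Nat.floor_mono hXX
    exact Icc_subset_Icc (by omega) (by omega)
  have hpoly := poly_MM D (hσ.le.trans hs1) (show 0 < V by linarith)
  have hY1 : 1 ≤ 2 * Real.exp (2 * V) := by
    have := Real.one_le_exp (show 0 ≤ 2 * V by linarith)
    linarith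
  have hY2 : (2 * Real.exp (2 * V)) ^ 2 ≤ Real.exp M :=
    (ntr2_sq hL (a := 2) (b := 2 * V) (by norm_num) (by norm_num) (by linarith)).trans
      (Real.exp_le_exp.2 hM1)
  obtain ⟨a1, a2⟩ := (hΘ.mono (le_max_left j₁ j₂) le_rfl le_rfl le_rfl).affine L'
    (show 1 ≤ U by linarith)
  have h5 := h1 (Real.exp M) _ B (L' - U) (M + 2) _ _ (hX3.trans hXX) hpoly hY1 hY2 a1 a2
    (fun y hy => pc_supp hΘ (by linarith) y hy) (by rw [Real.log_exp]; linarith)
    (by rw [Real.log_exp])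
  obtain ⟨p1, p2⟩ := ntr2_pow i
  have hR2 : R * 2 ^ i ≤ R ^ 2 * 4 ^ i := by
    refine mul_le_mul (le_self_pow₀ (by linarith) (by norm_num)) p2 (by positivity) (by positivity)
  have hR3 : 1 ≤ R * 2 ^ i := one_le_mul_of_one_le_of_one_le (by linarith) p1
  have hρ : 1 + (s + 1 / U + 1 / V) / (1 / (2 * L)) ≤ 7 * (R ^ 2 * 4 ^ i) := by
    have e : (s + 1 / U + 1 / V) / (1 / (2 * L)) = 2 * (s * L) + 2 * (L / U) + 2 * (L / V) := by
      field_simp
    have e2 : L / U ≤ L / V := div_le_div_of_nonneg_left hL0.le (by linarith) hVU'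
    rw [e]
    linarith
  have h6 := h2 (M + 2) (1 / (2 * L)) s U V L' B _ Θ (by positivity)
    (le_trans (by
      rw [div_le_div_iff₀ (by linarith) hL0]
      have := mul_le_mul_of_nonneg_right hR hL0.le
      linarith) hs1) (by linarith) hV1
    (by rw [one_div, inv_mul_le_iff₀ (by linarith)]; linarith)
    (by rw [one_div, inv_mul_le_iff₀ (by linarith)]; linarith)
    (hΘ.mono (le_max_right j₁ j₂) le_rfl le_rfl le_rfl) hρ
  have hsq : √(Real.exp M) = √X * Real.exp (max (L' - L) 0 / 2) := by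
    rw [← Real.exp_half, ntr2_sqrt (show 0 < X by linarith), ← Real.exp_add]
    congr 1
    rw [← hLdef, hM]
    rcases le_total L L' with h | h
    · rw [max_eq_right h, max_eq_left (by linarith)]; ring
    · rw [max_eq_left h, max_eq_right (by linarith)]; ring
  have h7 : (2 * Real.exp (2 * V)) ^ c * Real.exp ((L' - U) / 2) * ll (Real.exp M) ≤
      2 ^ c * √(Real.exp M) := by
    have e1 := ntr2_ll (show 1 ≤ Real.exp M by linarith)
    rw [Real.log_exp] at e1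
    have e2 : L ^ 2 ≤ Real.exp (U / 4) := by
      have hl : 0 ≤ Real.log L := Real.log_nonneg (by linarith)
      rw [← Real.exp_log (show 0 < L ^ 2 by positivity), Real.log_pow]
      refine Real.exp_le_exp.2 ?_
      push_cast
      linarith
    have e5 := mul_le_mul_of_nonneg_left hL hL0.le
    have e3 : ll (Real.exp M) ≤ Real.exp (U / 4) := by linarith
    have e6 := mul_le_mul_of_nonneg_left hA (show 0 ≤ V by linarith)
    have e4 : (c : ℝ) * (2 * V) ≤ U / 4 := by linarith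
    rw [mul_pow, ← Real.exp_nat_mul, mul_assoc, mul_assoc, ← Real.exp_half]
    refine mul_le_mul_of_nonneg_left ?_ (by positivity)
    refine (mul_le_mul_of_nonneg_left (mul_le_mul_of_nonneg_left e3 (Real.exp_pos _).le)
      (Real.exp_pos _).le).trans ?_
    rw [← Real.exp_add, ← Real.exp_add]
    exact Real.exp_le_exp.2 (by linarith)
  have h8 : (1 : ℝ) ≤ (R ^ 2 * 4 ^ i) ^ k := one_le_pow₀ (by linarith)
  have hs := Real.sqrt_nonneg (Real.exp M)
  refine (nrm_subset hsub).trans (le_trans h5 ?_)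
  rw [mul_pow] at h6
  have h9 := mul_le_mul_of_nonneg_left h6 hs
  have h10 := mul_le_mul_of_nonneg_left h8 (show 0 ≤ B * (2 ^ c * √(Real.exp M)) by positivity)
  have h11 := mul_le_mul_of_nonneg_left h7 hB
  have e : C₁ * (C₂ * 7 ^ k + 2 ^ c) * B * √X * Real.exp (max (L' - L) 0 / 2) * (R ^ 2 * 4 ^ i) ^ k =
      C₁ * ((C₂ * 7 ^ k + 2 ^ c) * B * √(Real.exp M) * (R ^ 2 * 4 ^ i) ^ k) := by
    rw [hsq]; ring
  rw [e]
  refine mul_le_mul_of_nonneg_left ?_ hC₁
  have h12 : en (pr D (M + 2)) (fun x => (MM D x s V : ℂ) * sm D x fun y => Θ ((L' - y) / U)) =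
      en (pr D (M + 2)) (fun x => (MM D x s V : ℂ) * pc D x L' U Θ) := rfl
  rw [h12]
  linarith

end Pool.Agent.Lib.MP_03e5d0_nt
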