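import Pool.Agent.Lib.MP_03e5d0_nt.NDef
import Pool.Agent.Lib.MP_03e5d0_nt.MWw

set_option autoImplicit false

noncomputable section

namespace Pool.Agent.Lib.MP_03e5d0_nt

open Complex Finset MeasureTheory
open scoped NumberTheorySymbols Real ContDiff

/-! The density `rh` and the weights `WG`. -/

theorem continuous_rh : Continuous rh := by
  unfold rh
  fun_prop

theorem contDiff_rh : ContDiff ℝ ∞ rh := by
  exact Real.contDiff_exp.mul Real.contDiff_exp.neg.exp

theorem rh_nonneg (v : ℝ) : 0 ≤ rh v := by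
  unfold rh
  positivity

theorem rh_le (v : ℝ) : rh v ≤ Real.exp v := by
  exact mul_le_of_le_one_right (Real.exp_pos v).le
    (Real.exp_le_one_iff.2 (neg_nonpos.2 (Real.exp_pos v).le))

/-- `mww_le (k + 1)`. -/
theorem rh_le_pow (k : ℕ) (v : ℝ) : rh v ≤ (k + 1).factorial * Real.exp (-(k * v)) := by
  refine (mul_le_mul_of_nonneg_left (mww_le (k + 1) v) (Real.exp_pos v).le).trans (le_of_eq ?_)
  rw [mul_left_comm, ← Real.exp_add]
  congr 2
  push_cast
  ring

theorem rh_env (cb : ℝ) : ∃ C : ℝ, 0 ≤ C ∧ ∀ c v : ℝ, |c| ≤ cb →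
    rh (v + c) ≤ C * Real.exp (min v (-7 * v)) := by
  refine ⟨((7 + 1).factorial : ℕ) * Real.exp (7 * cb), by positivity, fun c v hc => ?_⟩
  have h0 : 0 ≤ cb := (abs_nonneg c).trans hc
  have h1 := abs_le.1 hc
  rw [mul_assoc, ← Real.exp_add]
  rcases le_total v (-7 * v) with h | h
  · rw [min_eq_left h]
    refine (rh_le _).trans ((Real.exp_le_exp.2 (by linarith [h1.2])).trans
      (le_mul_of_one_le_left (Real.exp_pos _).le ?_))
    exact_mod_cast Nat.factorial_pos _
  · rw [min_eq_right h]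
    refine (rh_le_pow 7 _).trans (mul_le_mul_of_nonneg_left (Real.exp_le_exp.2 ?_) (by positivity))
    push_cast
    linarith [h1.1]

theorem nw0_der (v : ℝ) : HasDerivAt (fun v => -Real.exp (-Real.exp v)) (rh v) v := by
  refine ((Real.hasDerivAt_exp v).neg.exp.neg).congr_deriv ?_
  simp [rh, mul_comm]

/-- `rh` is the derivative of `1 - exp (-exp v)`; `ee_deriv (i + 1)`. -/
theorem rh_deriv (i : ℕ) : ∃ C : ℝ, 0 ≤ C ∧ ∀ y : ℝ, |iteratedDeriv i rh y| ≤ C * Real.exp (-|y|) := by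
  obtain ⟨C, hC, h⟩ := ee_deriv (i + 1)
  have h1 : deriv (fun v => Real.exp (-Real.exp v)) = fun v => -rh v :=
    funext fun v => by simpa using (nw0_der v).neg.deriv
  have h2 : deriv (fun v => 1 - Real.exp (-Real.exp v)) = rh :=
    funext fun v => ((nw0_der v).const_add 1).deriv
  refine ⟨C, hC, fun y => ?_⟩
  obtain ⟨h3, h4⟩ := h y
  rw [iteratedDeriv_succ', h1, iteratedDeriv_fun_neg, abs_neg] at h3
  rw [iteratedDeriv_succ', h2] at h4
  rcases le_total 0 y with hy | hy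
  · rw [abs_of_nonneg hy]
    exact h3.trans (mul_le_mul_of_nonneg_left (min_le_right _ _) hC)
  · rwa [abs_of_nonpos hy, neg_neg]

theorem nw0_int {σ : ℝ} (h0 : 0 ≤ σ) (h1 : σ ≤ 1) :
    Integrable fun t : ℝ => rh t * Real.exp (σ * t) := by
  have hc : Continuous fun t : ℝ => rh t * Real.exp (σ * t) := continuous_rh.mul (by fun_prop)
  have hn : ∀ t, ‖rh t * Real.exp (σ * t)‖ = rh t * Real.exp (σ * t) := fun t =>
    Real.norm_of_nonneg (mul_nonneg (rh_nonneg t) (Real.exp_pos _).le)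
  rw [← integrableOn_univ, ← Set.Iic_union_Ioi (a := (0 : ℝ))]
  refine IntegrableOn.union ((integrableOn_exp_Iic 0).mono' hc.aestronglyMeasurable ?_)
    (((integrableOn_exp_neg_Ioi 0).const_mul 6).mono' hc.aestronglyMeasurable ?_)
  · filter_upwards [ae_restrict_mem measurableSet_Iic] with t ht
    rw [hn]
    exact (mul_le_of_le_one_right (rh_nonneg t) (Real.exp_le_one_iff.2
      (mul_nonpos_of_nonneg_of_nonpos h0 ht))).trans (rh_le t)
  · filter_upwards [ae_restrict_mem measurableSet_Ioi] with t ht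
    rw [hn]
    refine (mul_le_mul (rh_le_pow 2 t) (Real.exp_le_exp.2
      (mul_le_of_le_one_left (le_of_lt ht) h1)) (Real.exp_pos _).le (by positivity)).trans
      (le_of_eq ?_)
    rw [mul_assoc, ← Real.exp_add]
    congr 2
    push_cast
    ring

/-- `∫_{v > 0} rh v = exp (-1)` (`integral_Ioi_of_hasDerivAt_of_tendsto`), and
`exp (σ ℒ) ≤ exp (σ v)` for `ℒ < v`. -/
theorem gd_ge {σ : ℝ} (h0 : 0 ≤ σ) (h1 : σ ≤ 1) (ℒ : ℝ) :
    Integrable (fun v : ℝ => rh (v - ℒ) * Real.exp (σ * v)) ∧ Real.exp (σ * ℒ - 1) ≤ gd σ ℒ := by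
  have h2 : ∀ t : ℝ, rh (t + ℒ - ℒ) * Real.exp (σ * (t + ℒ)) =
      rh t * Real.exp (σ * t) * Real.exp (σ * ℒ) := fun t => by
    rw [add_sub_cancel_right, mul_add, Real.exp_add, mul_assoc]
  have h3 := (nw0_int h0 h1).mul_const (Real.exp (σ * ℒ))
  constructor
  · refine (h3.comp_sub_right ℒ).congr (Filter.Eventually.of_forall fun v => ?_)
    simp only
    rw [mul_assoc, ← Real.exp_add]
    congr 2
    ring
  · have h4 : IntegrableOn rh (Set.Ioi 0) := by
      simpa using (nw0_int le_rfl zero_le_one).integrableOn (s := Set.Ioi 0)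
    have h5 : ∫ t in Set.Ioi (0 : ℝ), rh t = Real.exp (-1) := by
      have h6 : Filter.Tendsto (fun v : ℝ => -Real.exp (-Real.exp v)) Filter.atTop (nhds (-0)) :=
        (Real.tendsto_exp_neg_atTop_nhds_zero.comp Real.tendsto_exp_atTop).neg
      rw [integral_Ioi_of_hasDerivAt_of_tendsto' (fun v _ => nw0_der v) h4 h6]
      simp
    unfold gd
    rw [← integral_add_right_eq_self _ ℒ]
    simp only [h2]
    refine le_trans ?_ (setIntegral_le_integral (s := Set.Ioi 0) h3
      (Filter.Eventually.of_forall fun t => mul_nonneg (mul_nonneg (rh_nonneg t)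
        (Real.exp_pos _).le) (Real.exp_pos _).le))
    rw [integral_mul_const, sub_eq_neg_add, Real.exp_add, ← h5]
    refine mul_le_mul_of_nonneg_right (setIntegral_mono_on h4 (nw0_int h0 h1).integrableOn
      measurableSet_Ioi fun t ht => ?_) (Real.exp_pos _).le
    exact le_mul_of_one_le_right (rh_nonneg t) (Real.one_le_exp (mul_nonneg h0 (le_of_lt ht)))

theorem nw0_bd {w : ℝ → ℂ} {B : ℝ} (hw : ∀ u, 0 < u → ‖w u‖ ≤ B * Real.exp u) (y : ℝ) {u : ℝ}
    (hu : 0 < u) : ‖w u * (rh (y + u) : ℂ)‖ ≤ 6 * B * Real.exp (-2 * y) * Real.exp (-u) := by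
  rw [norm_mul, Complex.norm_real, Real.norm_of_nonneg (rh_nonneg _)]
  refine (mul_le_mul (hw u hu) (rh_le_pow 2 _) (rh_nonneg _)
    ((norm_nonneg _).trans (hw u hu))).trans (le_of_eq ?_)
  have h : Real.exp u * Real.exp (-(((2 : ℕ) : ℝ) * (y + u))) = Real.exp (-2 * y) * Real.exp (-u) := by
    rw [← Real.exp_add, ← Real.exp_add]
    congr 1
    push_cast
    ring
  have h6 : (((2 + 1).factorial : ℕ) : ℝ) = 6 := by norm_num [Nat.factorial]
  rw [h6]
  linear_combination 6 * B * h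

/-- `rh_le_pow 2`. -/
theorem WG_decay {w : ℝ → ℂ} {B : ℝ} (hB : 0 ≤ B) (hw : ∀ u, 0 < u → ‖w u‖ ≤ B * Real.exp u) (y : ℝ) :
    ∫ u in Set.Ioi (0 : ℝ), ‖w u * (rh (y + u) : ℂ)‖ ≤ 6 * B * Real.exp (-2 * y) ∧
      ‖WG w y‖ ≤ 6 * B * Real.exp (-2 * y) := by
  have h : ∫ u in Set.Ioi (0 : ℝ), ‖w u * (rh (y + u) : ℂ)‖ ≤ 6 * B * Real.exp (-2 * y) := by
    refine (integral_mono_of_nonneg (Filter.Eventually.of_forall fun u => norm_nonneg _)
      ((integrableOn_exp_neg_Ioi 0).const_mul (6 * B * Real.exp (-2 * y))) ?_).trans (le_of_eq ?_)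
    · filter_upwards [ae_restrict_mem measurableSet_Ioi] with u hu using nw0_bd hw y hu
    · rw [integral_const_mul, integral_exp_neg_Ioi_zero, mul_one]
  exact ⟨h, (norm_integral_le_integral_norm _).trans h⟩

theorem WG_integrable {w : ℝ → ℂ} {B : ℝ} (hc : Continuous w)
    (hw : ∀ u, 0 < u → ‖w u‖ ≤ B * Real.exp u) (y : ℝ) :
    IntegrableOn (fun u => w u * (rh (y + u) : ℂ)) (Set.Ioi 0) := by
  refine ((integrableOn_exp_neg_Ioi 0).const_mul (6 * B * Real.exp (-2 * y))).mono'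
    (hc.mul (continuous_ofReal.comp (continuous_rh.comp
      (continuous_const.add continuous_id)))).aestronglyMeasurable ?_
  filter_upwards [ae_restrict_mem measurableSet_Ioi] with u hu using nw0_bd hw y hu

theorem continuous_st (U : ℝ) : Continuous (st U) := by
  exact Real.smoothTransition.continuous.comp ((continuous_id.div_const U).sub continuous_const)

theorem st_mem (U u : ℝ) : 0 ≤ st U u ∧ st U u ≤ 1 := by
  exact ⟨Real.smoothTransition.nonneg _, Real.smoothTransition.le_one _⟩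

theorem st_eq_zero {U u : ℝ} (hU : 0 < U) (h : u ≤ U) : st U u = 0 := by
  exact Real.smoothTransition.zero_of_nonpos (sub_nonpos.2 ((div_le_one hU).2 h))

theorem st_eq_one {U u : ℝ} (hU : 0 < U) (h : 2 * U ≤ u) : st U u = 1 := by
  refine Real.smoothTransition.one_of_one_le ?_
  rw [le_sub_iff_add_le, le_div_iff₀ hU]
  linarith

end Pool.Agent.Lib.MP_03e5d0_nt
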