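import Pool.Agent.Lib.MP_03e5d0_nt.NW0

set_option autoImplicit false

noncomputable section

namespace Pool.Agent.Lib.MP_03e5d0_nt

open Complex Finset MeasureTheory
open scoped NumberTheorySymbols Real ContDiff

/-! The density `rh` and the weights `WG`. -/

theorem nw1_int {U : ℝ} (hU : 0 ≤ U) (y : ℝ) :
    ∫ u in Set.Ioc 0 (2 * U), Real.exp (-|y + u|) ≤ 8 * min 1 (Real.exp (2 * U - |y|)) := by
  have hc : IntegrableOn (fun u : ℝ => Real.exp (-|y + u|)) (Set.Ioc 0 (2 * U)) :=
    (Continuous.integrableOn_Icc (by fun_prop)).mono_set Set.Ioc_subset_Icc_self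
  rw [mul_min_of_nonneg _ _ (by norm_num : (0 : ℝ) ≤ 8)]
  refine le_min ?_ ?_
  · have h1 : Integrable fun u : ℝ => 2 * (1 + (y + u) ^ 2)⁻¹ :=
      (integrable_inv_one_add_sq.comp_add_left y).const_mul 2
    refine (setIntegral_mono hc h1.integrableOn fun u => ?_).trans
      ((setIntegral_le_integral h1 (Filter.Eventually.of_forall fun u => by positivity)).trans ?_)
    · have h2 := Real.quadratic_le_exp_of_nonneg (abs_nonneg (y + u))
      rw [sq_abs] at h2
      change Real.exp (-|y + u|) ≤ 2 * (1 + (y + u) ^ 2)⁻¹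
      rw [Real.exp_neg, ← div_eq_mul_inv, ← one_div,
        div_le_div_iff₀ (Real.exp_pos _) (by positivity)]
      linarith [abs_nonneg (y + u)]
    · rw [integral_const_mul, integral_add_left_eq_self (fun t : ℝ => (1 + t ^ 2)⁻¹) y,
        integral_univ_inv_one_add_sq]
      linarith [Real.pi_le_four]
  · have h1 : IntegrableOn (fun u : ℝ => Real.exp u * Real.exp (-|y|)) (Set.Ioc 0 (2 * U)) :=
      (Continuous.integrableOn_Icc (by fun_prop)).mono_set Set.Ioc_subset_Icc_self
    refine (setIntegral_mono_on hc h1 measurableSet_Ioc fun u hu => ?_).trans ?_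
    · rw [← Real.exp_add, Real.exp_le_exp]
      have h2 := abs_add_le (y + u) (-u)
      rw [add_neg_cancel_right, abs_neg, abs_of_pos hu.1] at h2
      linarith
    · rw [integral_mul_const, ← intervalIntegral.integral_of_le (by linarith), integral_exp,
        sub_eq_add_neg (2 * U), Real.exp_add]
      have h2 := Real.exp_pos (2 * U)
      have h3 := Real.exp_pos 0
      have h4 := Real.exp_pos (-|y|)
      nlinarith

/-- The candidate for the `i`-th derivative. -/
def nw1_G (w : ℝ → ℂ) (U : ℝ) (i : ℕ) (y : ℝ) : ℂ :=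
  ∫ u in Set.Ioc 0 (2 * U), w u * ((iteratedDeriv i rh (y + u) : ℝ) : ℂ)

theorem nw1_cont {w : ℝ → ℂ} (hw : Continuous w) (i : ℕ) (y : ℝ) :
    Continuous fun u => w u * ((iteratedDeriv i rh (y + u) : ℝ) : ℂ) :=
  hw.mul (continuous_ofReal.comp ((contDiff_rh.continuous_iteratedDeriv i
    (by exact_mod_cast le_top)).comp (continuous_const.add continuous_id)))

theorem nw1_deriv {w : ℝ → ℂ} {B : ℝ} (hw : Continuous w) (hb : ∀ u, 0 < u → ‖w u‖ ≤ B) (U : ℝ)
    (i : ℕ) (y : ℝ) : HasDerivAt (nw1_G w U i) (nw1_G w U (i + 1) y) y := by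
  obtain ⟨C, hC, h⟩ := rh_deriv (i + 1)
  refine (hasDerivAt_integral_of_dominated_loc_of_deriv_le (bound := fun _ => B * C)
    (F := fun x u => w u * ((iteratedDeriv i rh (x + u) : ℝ) : ℂ))
    (F' := fun x u => w u * ((iteratedDeriv (i + 1) rh (x + u) : ℝ) : ℂ)) Filter.univ_mem
    (Filter.Eventually.of_forall fun x => (nw1_cont hw i x).aestronglyMeasurable)
    ((nw1_cont hw i y).integrableOn_Icc.mono_set Set.Ioc_subset_Icc_self)
    (nw1_cont hw (i + 1) y).aestronglyMeasurable ?_ (integrable_const _)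
    (Filter.Eventually.of_forall fun u x _ => ?_)).2
  · filter_upwards [ae_restrict_mem measurableSet_Ioc] with u hu x _
    rw [norm_mul, Complex.norm_real, Real.norm_eq_abs]
    refine mul_le_mul (hb u hu.1) ((h _).trans (mul_le_of_le_one_right hC ?_)) (abs_nonneg _)
      ((norm_nonneg _).trans (hb u hu.1))
    exact Real.exp_le_one_iff.2 (neg_nonpos.2 (abs_nonneg _))
  · have h1 : HasDerivAt (iteratedDeriv i rh) (iteratedDeriv (i + 1) rh (x + u)) (x + u) := by
      rw [iteratedDeriv_succ]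
      exact (contDiff_rh.differentiable_iteratedDeriv i
        (by exact_mod_cast WithTop.coe_lt_top i) _).hasDerivAt
    exact (h1.comp_add_const x u).ofReal_comp.const_mul (w u)

/-- By induction `iteratedDeriv i (WG w) y = ∫ u in Ioi 0, w u * iteratedDeriv i rh (y + u)`
(`hasDerivAt_integral_of_dominated_loc_of_deriv_le`, `contDiff_of_differentiable_iteratedDeriv`);
`∫_0^{2 U} exp (-|y + u|) du ≤ 2 min 1 (exp (2 U - |y|))`. -/
theorem WG_smooth (j : ℕ) : ∃ C : ℝ, 0 ≤ C ∧ ∀ (w : ℝ → ℂ) (B U : ℝ), Continuous w → 0 ≤ B → 0 ≤ U →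
    (∀ u, 0 < u → ‖w u‖ ≤ B) → (∀ u, 2 * U < u → w u = 0) → ContDiff ℝ ∞ (WG w) ∧
      ∀ i ≤ j, ∀ y, ‖iteratedDeriv i (WG w) y‖ ≤ C * B * min 1 (Real.exp (2 * U - |y|)) := by
  choose C hC h using rh_deriv
  have hS : 0 ≤ ∑ i ∈ range (j + 1), C i := sum_nonneg fun i _ => hC i
  refine ⟨8 * ∑ i ∈ range (j + 1), C i, by positivity, fun w B U hw hB hU hb h0 => ?_⟩
  have h1 : ∀ i, iteratedDeriv i (WG w) = nw1_G w U i := fun i => by
    induction i with
    | zero =>
      funext y
      rw [iteratedDeriv_zero, WG, nw1_G, iteratedDeriv_zero]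
      refine setIntegral_eq_of_subset_of_forall_sdiff_eq_zero measurableSet_Ioi
        Set.Ioc_subset_Ioi_self fun u hu => ?_
      rw [h0 u (not_le.1 fun e => hu.2 ⟨hu.1, e⟩), zero_mul]
    | succ i ih =>
      funext y
      rw [iteratedDeriv_succ, ih, (nw1_deriv hw hb U i y).deriv]
  refine ⟨contDiff_of_differentiable_iteratedDeriv fun m _ y => ?_, fun i hi y => ?_⟩
  · rw [h1]
    exact (nw1_deriv hw hb U m y).differentiableAt
  · have h2 : C i ≤ ∑ i ∈ range (j + 1), C i :=
      single_le_sum (fun i _ => hC i) (mem_range.2 (Nat.lt_succ_of_le hi))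
    have hc : IntegrableOn (fun u : ℝ => B * (∑ i ∈ range (j + 1), C i) * Real.exp (-|y + u|))
        (Set.Ioc 0 (2 * U)) :=
      (Continuous.integrableOn_Icc (by fun_prop)).mono_set Set.Ioc_subset_Icc_self
    rw [h1]
    refine (norm_integral_le_of_norm_le hc ?_).trans ?_
    · filter_upwards [ae_restrict_mem measurableSet_Ioc] with u hu
      rw [norm_mul, Complex.norm_real, Real.norm_eq_abs, mul_assoc]
      exact mul_le_mul (hb u hu.1) ((h i _).trans
        (mul_le_mul_of_nonneg_right h2 (Real.exp_pos _).le)) (abs_nonneg _) hB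
    · rw [integral_const_mul]
      refine (mul_le_mul_of_nonneg_left (nw1_int hU y) (by positivity)).trans (le_of_eq ?_)
      ring

end Pool.Agent.Lib.MP_03e5d0_nt
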