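import Pool.Agent.Lib.MP_03e5d0_nt.NW1
import Pool.Agent.Lib.MP_03e5d0_nt.MTop

set_option autoImplicit false

noncomputable section

namespace Pool.Agent.Lib.MP_03e5d0_nt

open Complex Finset MeasureTheory
open scoped NumberTheorySymbols Real ContDiff

/-! The polynomial weights and their dyadic pieces. -/

theorem differentiable_wp (κ k : ℕ) (s : ℝ) : Differentiable ℂ (wp κ k s) := by
  unfold wp
  fun_prop

theorem wp_neg (κ k : ℕ) (s : ℝ) (z : ℂ) : wp κ k s (-z) = wp κ k (-s) z := by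
  simp [wp]

theorem nwp_term (s : ℝ) (z : ℂ) (j : ℕ) :
    ‖(s * z) ^ j / j.factorial‖ = (|s| * ‖z‖) ^ j / j.factorial := by
  rw [norm_div, norm_pow, norm_mul, norm_real, Real.norm_eq_abs, norm_natCast]

/-- `x ^ j / j! ≤ x ^ κ * (x ^ (j - κ) / (j - κ)!)`, `Real.sum_le_exp_of_nonneg`. -/
theorem wp_le_small (κ k : ℕ) (s : ℝ) (z : ℂ) :
    ‖wp κ k s z‖ ≤ (|s| * ‖z‖) ^ κ * Real.exp (|s| * ‖z‖) := by
  have h0 : 0 ≤ |s| * ‖z‖ := by positivity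
  refine (norm_sum_le _ _).trans (le_trans ?_
    (mul_le_mul_of_nonneg_left (Real.sum_le_exp_of_nonneg h0 (k + 1 - κ)) (pow_nonneg h0 κ)))
  rw [sum_Ico_eq_sum_range, mul_sum]
  refine sum_le_sum fun i _ => ?_
  rw [nwp_term, pow_add, mul_div_assoc]
  gcongr
  exact Nat.le_add_left i κ

theorem wp_le_exp (κ k : ℕ) (s : ℝ) (z : ℂ) : ‖wp κ k s z‖ ≤ Real.exp (|s| * ‖z‖) := by
  have h0 : 0 ≤ |s| * ‖z‖ := by positivity
  refine (norm_sum_le _ _).trans (le_trans ?_ (Real.sum_le_exp_of_nonneg h0 (k + 1)))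
  simp only [nwp_term]
  exact sum_le_sum_of_subset_of_nonneg (fun i hi => mem_range.2 (mem_Ico.1 hi).2)
    fun i _ _ => by positivity

/-- The terms `j < κ` are at most `(6 R) ^ κ` each; the terms `k < j` sum to at most one, because
`x ^ j / j! ≤ (e x / j) ^ j ≤ (e / 5) ^ j` (or `Complex.exp_bound'`). -/
theorem wp_sub_exp {κ k : ℕ} {s R : ℝ} {z : ℂ} (hR : 1 ≤ R) (hk : 30 * R ≤ k) (hκ : κ ≤ k)
    (hz : |s| * ‖z‖ ≤ 6 * R) : ‖wp κ k s z - cexp (s * z)‖ ≤ (κ + 1) * (6 * R) ^ κ := by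
  have h0 : 0 ≤ |s| * ‖z‖ := by positivity
  have h1 : ‖(s : ℂ) * z‖ = |s| * ‖z‖ := by rw [norm_mul, norm_real, Real.norm_eq_abs]
  have h2 := Complex.exp_bound' (x := s * z) (n := k + 1) (by
    rw [h1, div_le_iff₀ (by positivity)]
    push_cast
    linarith)
  have h3 : (|s| * ‖z‖) ^ (k + 1) / (k + 1).factorial ≤ 1 / 2 := by
    have hk2 : 2 ≤ k + 1 := by
      have : (1 : ℝ) ≤ k := by linarith
      have : 1 ≤ k := by exact_mod_cast this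
      omega
    have h4 := Real.pow_div_factorial_le_exp ((k + 1 : ℕ) : ℝ) (Nat.cast_nonneg _) (k + 1)
    rw [← Real.exp_one_pow] at h4
    calc _ ≤ (((k + 1 : ℕ) : ℝ) / 5) ^ (k + 1) / (k + 1).factorial := by
          gcongr
          push_cast
          linarith
      _ = ((k + 1 : ℕ) : ℝ) ^ (k + 1) / (k + 1).factorial / 5 ^ (k + 1) := by
          rw [div_pow, div_right_comm]
      _ ≤ Real.exp 1 ^ (k + 1) / 5 ^ (k + 1) := by gcongr
      _ ≤ (3 / 5) ^ (k + 1) := by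
          rw [div_pow]
          gcongr
          exact Real.exp_one_lt_three.le
      _ ≤ (3 / 5) ^ 2 := pow_le_pow_of_le_one (by norm_num) (by norm_num) hk2
      _ ≤ 1 / 2 := by norm_num
  have h4 : ‖∑ j ∈ range κ, ((s : ℂ) * z) ^ j / j.factorial‖ ≤ κ * (6 * R) ^ κ := by
    refine (norm_sum_le _ _).trans ((sum_le_card_nsmul _ _ ((6 * R) ^ κ) fun j hj => ?_).trans
      (by simp))
    rw [nwp_term]
    exact (div_le_self (by positivity) (by exact_mod_cast j.factorial_pos)).trans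
      ((pow_le_pow_left₀ h0 hz j).trans (pow_le_pow_right₀ (by linarith) (mem_range.1 hj).le))
  have h5 : (1 : ℝ) ≤ (6 * R) ^ κ := one_le_pow₀ (by linarith)
  rw [h1, ← sum_range_add_sum_Ico _ (hκ.trans k.le_succ), norm_sub_rev] at h2
  have h6 := norm_sub_le_of_le h2 h4
  rw [sub_right_comm, add_sub_cancel_left] at h6
  refine h6.trans (by linarith)

theorem nwp_norm {z : ℂ} (h1 : 1 - 1 < z.re) (h2 : z.re < 4 + 1) (h3 : |z.im| < 1) {U : ℝ}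
    (hU : 0 ≤ U) : ‖U * z‖ ≤ 6 * U := by
  have h4 := norm_le_abs_re_add_abs_im z
  rw [abs_of_pos (by linarith : 0 < z.re)] at h4
  rw [norm_mul, norm_real, Real.norm_of_nonneg hU, mul_comm]
  exact mul_le_mul_of_nonneg_right (by linarith) hU

theorem nwp_sm (j : ℕ) : ∃ C : ℝ, 0 ≤ C ∧ ∀ (B : ℝ) (g : ℂ → ℂ), 0 ≤ B → Differentiable ℂ g →
    (∀ z : ℂ, 1 - 1 < z.re → z.re < 4 + 1 → |z.im| < 1 → ‖g z‖ ≤ B) →
    Sm j 1 4 (C * B) fun θ => th0 θ * g θ := by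
  obtain ⟨B₀, h0⟩ := sm_th0 j
  obtain ⟨C, hC, h1⟩ := Sm.mul_holo j
  refine ⟨C * B₀, mul_nonneg hC h0.nonneg, fun B g hB hg hb => ?_⟩
  simpa using h1 1 4 B₀ B 1 th0 g h0 one_pos le_rfl hB hg.differentiableOn hb

/-- `Sm.mul_holo` with `δ = 1`: `‖z‖ ≤ 6` on the region. -/
theorem sm_small (j : ℕ) : ∃ C : ℝ, 0 ≤ C ∧ ∀ (κ k : ℕ) (s U : ℝ), 0 ≤ U →
    Sm j 1 4 (C * ((6 * |s| * U) ^ κ * Real.exp (6 * |s| * U)))
      fun θ => th0 θ * wp κ k s ((U * θ : ℝ) : ℂ) := by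
  obtain ⟨C, hC, h⟩ := nwp_sm j
  refine ⟨C, hC, fun κ k s U hU => ?_⟩
  simp only [ofReal_mul]
  refine h _ (fun z => wp κ k s (U * z)) (by positivity)
    ((differentiable_wp κ k s).comp (by fun_prop)) fun z h1 h2 h3 => (wp_le_small κ k s _).trans ?_
  have h4 : |s| * ‖U * z‖ ≤ 6 * |s| * U := by
    linarith [mul_le_mul_of_nonneg_left (nwp_norm h1 h2 h3 hU) (abs_nonneg s)]
  gcongr

theorem sm_big (j : ℕ) : ∃ C : ℝ, 0 ≤ C ∧ ∀ (κ k : ℕ) (s U R : ℝ), 0 ≤ U → 1 ≤ R → 30 * R ≤ k → κ ≤ k →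
    |s| * U ≤ R → Sm j 1 4 (C * ((κ + 1) * (6 * R) ^ κ))
      fun θ => th0 θ * (wp κ k s ((U * θ : ℝ) : ℂ) - cexp (s * (U * θ : ℝ))) := by
  obtain ⟨C, hC, h⟩ := nwp_sm j
  refine ⟨C, hC, fun κ k s U R hU hR hk hκ hs => ?_⟩
  simp only [ofReal_mul]
  refine h _ (fun z => wp κ k s (U * z) - cexp (s * (U * z))) (by positivity)
    (((differentiable_wp κ k s).comp (by fun_prop)).sub (by fun_prop)) fun z h1 h2 h3 =>
      wp_sub_exp hR hk hκ ?_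
  linarith [mul_le_mul_of_nonneg_left (nwp_norm h1 h2 h3 hU) (abs_nonneg s)]

/-- `0 < re z` on the region. -/
theorem sm_expneg (j : ℕ) : ∃ C : ℝ, 0 ≤ C ∧ ∀ σ U : ℝ, 0 ≤ σ → 0 ≤ U →
    Sm j 1 4 C fun θ => th0 θ * cexp ((-σ : ℝ) * (U * θ : ℝ)) := by
  obtain ⟨C, hC, h⟩ := nwp_sm j
  refine ⟨C, hC, fun σ U hσ hU => ?_⟩
  simp only [ofReal_mul]
  have := h 1 (fun z => cexp ((-σ : ℝ) * (U * z))) one_pos.le (by fun_prop) fun z h1 _ _ => by
    rw [norm_exp, Real.exp_le_one_iff, re_ofReal_mul, re_ofReal_mul]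
    exact mul_nonpos_of_nonpos_of_nonneg (by linarith) (mul_nonneg hU (by linarith))
  rwa [mul_one] at this

end Pool.Agent.Lib.MP_03e5d0_nt
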