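import Pool.Agent.Lib.MP_03e5d0_nt.RSEul

/-! Derivatives and positivity of prime sums. -/

set_option autoImplicit false

noncomputable section

namespace Pool.Agent.Lib.MP_03e5d0_nt.RS

open scoped UpperHalfPlane Real MatrixGroups ENNReal Topology
open Complex MeasureTheory Filter

variable {W : ℕ} {β : ℕ → ℝ}

/-- The coefficients of a prime sum. -/
def rspr_co (W : ℕ) (γ : ℕ → ℝ) (p : ℕ) : ℂ := if p.Prime ∧ ¬ p ∣ W then (γ p : ℂ) else 0

theorem rspr_eq (W : ℕ) (γ : ℕ → ℝ) : PSum W γ = LSeries (rspr_co W γ) := by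
  funext s
  refine tsum_congr fun p => ?_
  rw [LSeries.term_def₀ (by simp [rspr_co, Nat.not_prime_zero]), rspr_co]
  split_ifs <;> simp

theorem rspr_log (W : ℕ) (γ : ℕ → ℝ) :
    rspr_co W (fun p => γ p * Real.log p) = LSeries.logMul (rspr_co W γ) := by
  funext p
  simp only [rspr_co, LSeries.logMul]
  split_ifs
  · rw [ofReal_mul, ← natCast_log, mul_comm]
  · rw [mul_zero]

theorem Mu.rspr_abs (h : Mu W β) {s : ℂ} (hs : 1 < s.re) :
    LSeries.abscissaOfAbsConv (rspr_co W β) < s.re := by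
  refine lt_of_le_of_lt (LSeries.abscissaOfAbsConv_le_of_le_const ⟨4, fun n _ => ?_⟩)
    (by exact_mod_cast hs)
  unfold rspr_co
  split_ifs with hn
  · rw [norm_real, Real.norm_of_nonneg (h.nonneg n)]
    exact h.prime_le hn.1
  · simp

theorem rspr_re {p : ℕ} (hp : p ≠ 0) (σ t : ℝ) :
    ((p : ℂ) ^ (-((σ : ℂ) + t * I))).re =
      Real.exp (-(Real.log p * σ)) * Real.cos (Real.log p * t) := by
  rw [cpow_def_of_ne_zero (by exact_mod_cast hp), ← natCast_log, exp_re]
  generalize Real.log p = L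
  simp

/-- Sketch: `PSum W β = LSeries a` with `a p = if p.Prime ∧ ¬ p ∣ W then β p else 0`, abscissa at
most one (`LSeries.abscissaOfAbsConv_le_of_le_const`), `LSeries_hasDerivAt`, `LSeries.logMul`. -/
theorem Mu.hasDerivAt_PSum (h : Mu W β) {s : ℂ} (hs : 1 < s.re) :
    HasDerivAt (PSum W β) (-PSum W (fun p => β p * Real.log p) s) s := by
  rw [rspr_eq, rspr_eq, rspr_log]
  exact LSeries_hasDerivAt (h.rspr_abs hs)

/-- Sketch: as before with `LSeries.abscissaOfAbsConv_logMul`. -/
theorem Mu.hasDerivAt_PSum_log (h : Mu W β) {s : ℂ} (hs : 1 < s.re) :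
    HasDerivAt (PSum W fun p => β p * Real.log p) (-PSum W (fun p => β p * Real.log p ^ 2) s) s := by
  have e : (fun p : ℕ => β p * Real.log p ^ 2) = fun p : ℕ => β p * Real.log p * Real.log p :=
    funext fun p => by ring
  rw [e, rspr_eq, rspr_eq, rspr_log W fun p => β p * Real.log p]
  refine LSeries_hasDerivAt ?_
  rw [rspr_log, LSeries.abscissaOfAbsConv_logMul]
  exact h.rspr_abs hs

/-- Sketch: `Complex.re_tsum`; termwise `β p * p ^ (-σ) * (3 + 4 cos θ + cos (2 θ)) ≥ 0`. Writing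
`p ^ (-s) = exp (-s log p)`, the real part is `exp (-σ log p) cos (t log p)`. -/
theorem Mu.three_four_one (h : Mu W β) {σ : ℝ} (hσ : 1 < σ) (t : ℝ) :
    0 ≤ 3 * (PSum W β σ).re + 4 * (PSum W β (σ + t * I)).re +
      (PSum W β (σ + (2 * t : ℝ) * I)).re := by
  have key : ∀ u : ℝ, HasSum (fun p : ℕ => if p.Prime ∧ ¬ p ∣ W then
      β p * (Real.exp (-(Real.log p * σ)) * Real.cos (Real.log p * u)) else 0)
      (PSum W β (σ + u * I)).re := fun u => by
    have h1 := hasSum_re (h.summable_PSum (s := σ + u * I) (by simpa using hσ)).of_norm.hasSum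
    convert h1 using 1
    · funext p
      split_ifs with hp
      · rw [re_ofReal_mul, rspr_re hp.1.ne_zero]
      · rfl
    · rfl
  have h0 := key 0
  rw [ofReal_zero, zero_mul, add_zero] at h0
  refine (((h0.mul_left 3).add ((key t).mul_left 4)).add (key (2 * t))).nonneg fun p => ?_
  split_ifs
  · have h1 := mul_nonneg (mul_nonneg (h.nonneg p) (Real.exp_pos (-(Real.log p * σ))).le)
      (sq_nonneg (1 + Real.cos (Real.log p * t)))
    rw [mul_zero, Real.cos_zero, mul_left_comm (Real.log p), Real.cos_two_mul]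
    linarith
  · simp

end Pool.Agent.Lib.MP_03e5d0_nt.RS
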