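import Pool.Agent.Lib.MP_03e5d0_nt.RSLine
import Pool.Agent.Lib.MP_03e5d0_nt.RSPr

/-! The lower bound and the prime sums. -/

set_option autoImplicit false

noncomputable section

namespace Pool.Agent.Lib.MP_03e5d0_nt.RS

open scoped UpperHalfPlane Real MatrixGroups ENNReal Topology
open Complex MeasureTheory Filter

variable {W : ℕ} {β : ℕ → ℝ} {E : ℂ → ℂ}

/-- Sketch: `E s = (s - 1) exp (P s + h s)`, `‖exp z‖ = exp (re z)`, `Mu.three_four_one`; take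
`c = exp (-8 C)`. -/
theorem prod_ge (h : Cont β E) (hm : Mu W β) : ∃ c : ℝ, 0 < c ∧ ∀ σ t : ℝ, 1 < σ →
    c * ((σ - 1) ^ 3 * ‖(σ : ℂ) + t * I - 1‖ ^ 4 * ‖(σ : ℂ) + (2 * t : ℝ) * I - 1‖) ≤
      ‖E σ‖ ^ 3 * ‖E (σ + t * I)‖ ^ 4 * ‖E (σ + (2 * t : ℝ) * I)‖ := by
  obtain ⟨g, C, -, hC, he⟩ := hm.fac h.summ
  have key : ∀ s : ℂ, 1 < s.re → ‖s - 1‖ * Real.exp ((PSum W β s).re - C) ≤ ‖E s‖ := by
    intro s hs
    rw [h.eq s hs, he s hs, norm_mul, Complex.norm_exp, Complex.add_re]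
    refine mul_le_mul_of_nonneg_left (Real.exp_le_exp.mpr ?_) (norm_nonneg _)
    have h1 := (abs_le.mp ((Complex.abs_re_le_norm (g s)).trans (hC s (by linarith)))).1
    linarith
  refine ⟨Real.exp (-(8 * C)), Real.exp_pos _, fun σ t hσ => ?_⟩
  have k1 := key σ (by simpa using hσ)
  have k2 := key (σ + t * I) (by simpa using hσ)
  have k3 := key (σ + (2 * t : ℝ) * I) (by simpa using hσ)
  have e1 : ‖(σ : ℂ) - 1‖ = σ - 1 := by
    rw [← Complex.ofReal_one, ← Complex.ofReal_sub, Complex.norm_real, Real.norm_eq_abs,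
      abs_of_pos (by linarith)]
  rw [e1] at k1
  have h0 : 0 < σ - 1 := by linarith
  have h341 := hm.three_four_one hσ t
  refine le_trans ?_ (mul_le_mul (mul_le_mul (pow_le_pow_left₀ (by positivity) k1 3)
    (pow_le_pow_left₀ (by positivity) k2 4) (by positivity) (by positivity)) k3 (by positivity)
    (by positivity))
  have e2 : Real.exp (-(8 * C)) ≤ Real.exp ((PSum W β σ).re - C) ^ 3 *
      Real.exp ((PSum W β (σ + t * I)).re - C) ^ 4 *
      Real.exp ((PSum W β (σ + (2 * t : ℝ) * I)).re - C) := by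
    rw [← Real.exp_nat_mul, ← Real.exp_nat_mul, ← Real.exp_add, ← Real.exp_add]
    refine Real.exp_le_exp.mpr ?_
    push_cast at h341 ⊢
    linarith
  refine (mul_le_mul_of_nonneg_right e2 (by positivity)).trans (le_of_eq ?_)
  ring

/-- Sketch: `prod_ge` and `Cont.poly` (`‖E σ‖ ≤ 4 C`, `‖E (σ + 2 t i)‖ ≤ 4 C T ^ 2`); both linear
factors have norm at least `τ`. -/
theorem pow_four_ge (h : Cont β E) (hm : Mu W β) {τ : ℝ} (hτ : 0 < τ) : ∃ c : ℝ, 0 < c ∧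
    ∀ s : ℂ, 1 < s.re → s.re ≤ 3 → (τ ≤ |s.im| ∨ τ ≤ s.re - 1) →
      c * (s.re - 1) ^ 3 / (2 + |s.im|) ^ 2 ≤ ‖E s‖ ^ 4 := by
  obtain ⟨c, hc, H⟩ := prod_ge h hm
  obtain ⟨C, hC, HC⟩ := h.poly
  have hC0 : 0 < C := by linarith
  have HC' : ∀ s : ℂ, 1 < s.re → s.re ≤ 3 → ‖E s‖ ≤ C * (2 + |s.im|) ^ 2 := by
    intro s h1 h3
    refine HC s ?_ (by linarith)
    have : 0 ≤ 1 / (4 * (2 + |s.im|)) := by positivity
    linarith
  refine ⟨c * τ ^ 5 / (4 * C) ^ 4, by positivity, fun s h1 h3 hs => ?_⟩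
  have k := H s.re s.im h1
  rw [Complex.re_add_im] at k
  have h0 : 0 < s.re - 1 := by linarith
  have hT : 0 < 2 + |s.im| := by positivity
  have a1 : ‖E s.re‖ ≤ 4 * C := by
    have := HC' s.re (by simpa using h1) (by simpa using h3)
    simp only [Complex.ofReal_im, abs_zero] at this
    linarith
  have a2 : ‖E (s.re + (2 * s.im : ℝ) * I)‖ ≤ 4 * C * (2 + |s.im|) ^ 2 := by
    have h2 := HC' (s.re + (2 * s.im : ℝ) * I) (by simpa using h1) (by simpa using h3)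
    have e : ((s.re : ℂ) + (2 * s.im : ℝ) * I).im = 2 * s.im := by simp
    rw [e, abs_mul, abs_two] at h2
    have h4 : (2 + 2 * |s.im|) ^ 2 ≤ (2 * (2 + |s.im|)) ^ 2 :=
      pow_le_pow_left₀ (by positivity) (by linarith) 2
    nlinarith
  have b1 : τ ≤ ‖s - 1‖ := by
    rcases hs with hs | hs
    · exact hs.trans (by simpa using Complex.abs_im_le_norm (s - 1))
    · exact hs.trans (by simpa using Complex.re_le_norm (s - 1))
  have b2 : τ ≤ ‖(s.re : ℂ) + (2 * s.im : ℝ) * I - 1‖ := by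
    rcases hs with hs | hs
    · refine le_trans ?_ (Complex.abs_im_le_norm _)
      have e : ((s.re : ℂ) + (2 * s.im : ℝ) * I - 1).im = 2 * s.im := by simp
      rw [e, abs_mul, abs_two]
      linarith [abs_nonneg s.im]
    · refine le_trans ?_ (Complex.re_le_norm _)
      simpa using hs
  have k1 : c * ((s.re - 1) ^ 3 * τ ^ 4 * τ) ≤
      (4 * C) ^ 3 * ‖E s‖ ^ 4 * (4 * C * (2 + |s.im|) ^ 2) := by
    refine le_trans ?_ (k.trans ?_)
    · gcongr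
    · gcongr
  rw [div_le_iff₀ (by positivity), div_mul_eq_mul_div, div_le_iff₀ (by positivity)]
  calc c * τ ^ 5 * (s.re - 1) ^ 3 = c * ((s.re - 1) ^ 3 * τ ^ 4 * τ) := by ring
    _ ≤ _ := k1
    _ = _ := by ring

theorem rs341_near (h : Cont β E) (h1 : E 1 ≠ 0) : ∃ τ : ℝ, 0 < τ ∧ τ ≤ 1 ∧
    ∀ s : ℂ, |s.im| ≤ τ → |s.re - 1| ≤ τ → ‖E 1‖ / 2 ≤ ‖E s‖ := by
  have ho : IsOpen {s : ℂ | 1 / 2 < s.re} := isOpen_lt continuous_const Complex.continuous_re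
  have hc : ContinuousAt E 1 :=
    (h.diff.differentiableAt (ho.mem_nhds (by norm_num [Set.mem_ofPred_eq]))).continuousAt
  obtain ⟨ε, hε, H⟩ := Metric.continuousAt_iff.mp hc (‖E 1‖ / 2) (half_pos (norm_pos_iff.mpr h1))
  refine ⟨min 1 (ε / 3), by positivity, min_le_left _ _, fun s h2 h3 => ?_⟩
  have h4 := Complex.norm_le_abs_re_add_abs_im (s - 1)
  simp only [Complex.sub_re, Complex.one_re, Complex.sub_im, Complex.one_im, sub_zero] at h4
  have h5 := min_le_right 1 (ε / 3)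
  have h6 := H (x := s) (by rw [dist_eq_norm]; linarith)
  rw [dist_eq_norm, norm_sub_rev] at h6
  have h7 := norm_sub_norm_le (E 1) (E s)
  linarith

/-- Sketch: by continuity at `1` pick `0 < τ ≤ 1` with `‖E 1‖ / 2 ≤ ‖E s‖` when `|im s| ≤ τ` and
`|re s - 1| ≤ τ`. Otherwise let `c` be from `pow_four_ge`, `c = d ^ 4` (`d = √(√c)`), `C` from
`Cont.lip`, `T = 2 + |im s|`, `x = e / T ^ 4` with `e = min τ (d / (2 C))`, `δ = x ^ 4 ≤ τ`. For
`1 + δ ≤ re s`: `‖E s‖ ^ 4 ≥ (d x ^ 3 / T) ^ 4`, so `‖E s‖ ≥ d x ^ 3 / T`. For `re s ≤ 1 + δ` (then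
`τ ≤ |im s|`) compare with the point of real part `1 + δ`: the loss is at most
`C T ^ 3 x ^ 4 ≤ d x ^ 3 / (2 T)`. -/
theorem lower (h : Cont β E) (hm : Mu W β) (h1 : E 1 ≠ 0) : ∃ c : ℝ, 0 < c ∧
    ∀ s : ℂ, 1 < s.re → s.re ≤ 3 → c / (2 + |s.im|) ^ 13 ≤ ‖E s‖ := by
  obtain ⟨τ, hτ, hτ1, Hτ⟩ := rs341_near h h1
  obtain ⟨c, hc, H⟩ := pow_four_ge h hm hτ
  obtain ⟨C, hC, HC⟩ := h.lip
  obtain ⟨d, hd, hdc⟩ : ∃ d : ℝ, 0 < d ∧ d ^ 4 = c :=
    ⟨√(√c), by positivity, by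
      rw [show (4 : ℕ) = 2 * 2 from rfl, pow_mul, Real.sq_sqrt (by positivity), Real.sq_sqrt hc.le]⟩
  obtain ⟨e, he, he1, he2⟩ : ∃ e : ℝ, 0 < e ∧ e ≤ τ ∧ C * e ≤ d / 2 :=
    ⟨min τ (d / (2 * C)), by positivity, min_le_left _ _, by
      refine (mul_le_mul_of_nonneg_left (min_le_right _ _) (by linarith)).trans (le_of_eq ?_)
      field_simp⟩
  have hE : 0 < ‖E 1‖ := norm_pos_iff.mpr h1
  refine ⟨min (‖E 1‖ / 2) (d * e ^ 3 / 2), by positivity, fun s s1 s3 => ?_⟩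
  obtain ⟨T, hT⟩ : ∃ T, T = 2 + |s.im| := ⟨_, rfl⟩
  have hT1 : 1 ≤ T := by linarith [abs_nonneg s.im]
  have hT0 : 0 < T := by linarith
  rw [← hT]
  by_cases hn : |s.im| ≤ τ ∧ s.re - 1 ≤ τ
  · refine le_trans ?_ (Hτ s hn.1 (by rw [abs_of_pos (by linarith)]; exact hn.2))
    exact (div_le_self (by positivity) (one_le_pow₀ hT1)).trans (min_le_left _ _)
  obtain ⟨x, hx⟩ : ∃ x, x = e / T ^ 4 := ⟨_, rfl⟩
  have hx0 : 0 < x := by rw [hx]; positivity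
  have hxe : x ≤ e := hx ▸ div_le_self he.le (one_le_pow₀ hT1)
  have hδ : x ^ 4 ≤ τ :=
    (pow_le_of_le_one hx0.le (by linarith) (by norm_num)).trans (hxe.trans he1)
  have hδ0 : 0 < x ^ 4 := by positivity
  have key : ∀ s' : ℂ, s'.im = s.im → 1 + x ^ 4 ≤ s'.re → s'.re ≤ 3 →
      (τ ≤ |s'.im| ∨ τ ≤ s'.re - 1) → d * x ^ 3 / T ≤ ‖E s'‖ := by
    intro s' e1 e2 e3 e4
    have k := H s' (by linarith) e3 e4
    rw [e1, ← hT, ← hdc] at k
    refine le_of_pow_le_pow_left₀ (n := 4) (by norm_num) (norm_nonneg _) (le_trans ?_ k)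
    have e5 : (d * x ^ 3 / T) ^ 4 = d ^ 4 * (x ^ 4) ^ 3 / T ^ 4 := by ring
    rw [e5]
    have e6 : x ^ 4 ≤ s'.re - 1 := by linarith
    have e7 : T ^ 2 ≤ T ^ 4 := pow_le_pow_right₀ hT1 (by norm_num)
    have e8 : 0 < s'.re - 1 := by linarith
    gcongr
  have fin : min (‖E 1‖ / 2) (d * e ^ 3 / 2) / T ^ 13 ≤ d * x ^ 3 / T / 2 := by
    refine (div_le_div_of_nonneg_right (min_le_right _ _) (by positivity)).trans (le_of_eq ?_)
    rw [hx]
    field_simp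
  have pos : 0 ≤ d * x ^ 3 / T := by positivity
  refine fin.trans ?_
  by_cases h2 : 1 + x ^ 4 ≤ s.re
  · have := key s rfl h2 s3 (by
      by_contra hc'
      push Not at hc'
      exact hn ⟨hc'.1.le, hc'.2.le⟩)
    linarith
  · push Not at h2
    have h3 : τ ≤ |s.im| := by
      by_contra hc'
      exact hn ⟨(not_le.mp hc').le, by linarith⟩
    have k1 := key ⟨1 + x ^ 4, s.im⟩ rfl le_rfl (by simp only; linarith) (Or.inl h3)
    have k2 := HC s ⟨1 + x ^ 4, s.im⟩ rfl s1.le s3 (by simp only; linarith) (by simp only; linarith)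
    have k3 : ‖(⟨1 + x ^ 4, s.im⟩ : ℂ) - s‖ ≤ x ^ 4 := by
      refine (Complex.norm_le_abs_re_add_abs_im _).trans ?_
      simp only [Complex.sub_re, Complex.sub_im, sub_self, abs_zero, add_zero]
      exact abs_le.mpr ⟨by linarith, by linarith⟩
    rw [← hT] at k2
    have k4 : C * T ^ 3 * ‖(⟨1 + x ^ 4, s.im⟩ : ℂ) - s‖ ≤ d * x ^ 3 / T / 2 := by
      refine (mul_le_mul_of_nonneg_left k3 (by positivity)).trans ?_
      have e1 : C * T ^ 3 * x ^ 4 = C * e * (x ^ 3 / T) := by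
        rw [show x ^ 4 = x ^ 3 * x by ring]
        nth_rewrite 2 [hx]
        field_simp
      rw [e1]
      refine (mul_le_mul_of_nonneg_right he2 (by positivity)).trans (le_of_eq ?_)
      ring
    have k5 := norm_sub_norm_le (E ⟨1 + x ^ 4, s.im⟩) (E s)
    linarith

end Pool.Agent.Lib.MP_03e5d0_nt.RS
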