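import Pool.Agent.Lib.MP_03e5d0_nt.RSDefs

/-! Mellin convolution. -/

set_option autoImplicit false

noncomputable section

namespace Pool.Agent.Lib.MP_03e5d0_nt.RS

open scoped UpperHalfPlane Real MatrixGroups ENNReal Topology
open Complex MeasureTheory Filter

theorem rsconv_inv_cpow {y : ℝ} (hy : 0 < y) (s : ℂ) :
    ((y⁻¹ : ℝ) : ℂ) ^ (-s) = (y : ℂ) ^ s := by
  have harg : (y : ℂ).arg ≠ π := by
    rw [Complex.arg_ofReal_of_nonneg hy.le]
    exact Real.pi_ne_zero.symm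
  rw [Complex.ofReal_inv, Complex.inv_cpow _ _ harg, Complex.cpow_neg, inv_inv]

theorem rsconv_mellin_div (ϑ : ℝ → ℝ) {y : ℝ} (hy : 0 < y) (s : ℂ) :
    (∫ t in Set.Ioi (0 : ℝ), (t : ℂ) ^ (s - 1) * (ϑ (t / y) : ℂ)) =
      (y : ℂ) ^ s * mellin (fun u => (ϑ u : ℂ)) s := by
  have h := mellin_comp_mul_left (fun u => (ϑ u : ℂ)) s (inv_pos.mpr hy)
  rw [rsconv_inv_cpow hy, smul_eq_mul] at h
  rw [← h, mellin]
  refine setIntegral_congr_fun measurableSet_Ioi fun t _ => ?_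
  simp only [smul_eq_mul, div_eq_inv_mul]

theorem rsconv_norm_div (ϑ : ℝ → ℝ) {y : ℝ} (hy : 0 < y) (s : ℂ) :
    (∫ t in Set.Ioi (0 : ℝ), ‖(t : ℂ) ^ (s - 1) * (ϑ (t / y) : ℂ)‖) =
      y ^ s.re * ∫ u in Set.Ioi (0 : ℝ), ‖(u : ℂ) ^ (s - 1) * (ϑ u : ℂ)‖ := by
  have h := integral_comp_mul_left_Ioi
    (fun u : ℝ => ‖(u : ℂ) ^ (s - 1) * (ϑ u : ℂ)‖) 0 (inv_pos.mpr hy)
  rw [mul_zero, inv_inv, smul_eq_mul] at h
  have h2 : y ^ s.re = y ^ (s.re - 1) * y := by
    rw [Real.rpow_sub_one hy.ne', div_mul_cancel₀ _ hy.ne']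
  rw [h2, mul_assoc, ← h, ← integral_const_mul]
  refine setIntegral_congr_fun measurableSet_Ioi fun t ht => ?_
  have ht' : (0 : ℝ) < t := ht
  have hyt : 0 < y⁻¹ * t := mul_pos (inv_pos.mpr hy) ht'
  simp only [norm_mul]
  rw [Complex.norm_cpow_eq_rpow_re_of_pos ht', Complex.norm_cpow_eq_rpow_re_of_pos hyt,
    div_eq_inv_mul, ← mul_assoc, Complex.sub_re, Complex.one_re,
    ← Real.mul_rpow hy.le hyt.le, mul_inv_cancel_left₀ hy.ne']

theorem rsconv_integrable {S ϑ : ℝ → ℝ} (hS : ContinuousOn S (Set.Ioi 0))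
    (hϑ : ContinuousOn ϑ (Set.Ioi 0)) {s : ℂ}
    (h1 : MellinConvergent (fun y => (S y : ℂ)) (s + 1))
    (h2 : MellinConvergent (fun u => (ϑ u : ℂ)) s) :
    Integrable (Function.uncurry fun t y : ℝ =>
        (S y : ℂ) * ((t : ℂ) ^ (s - 1) * (ϑ (t / y) : ℂ)))
      ((volume.restrict (Set.Ioi (0 : ℝ))).prod (volume.restrict (Set.Ioi (0 : ℝ)))) := by
  have hmeas : AEStronglyMeasurable (Function.uncurry fun t y : ℝ =>
        (S y : ℂ) * ((t : ℂ) ^ (s - 1) * (ϑ (t / y) : ℂ)))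
      ((volume.restrict (Set.Ioi (0 : ℝ))).prod (volume.restrict (Set.Ioi (0 : ℝ)))) := by
    rw [Measure.prod_restrict]
    refine ContinuousOn.aestronglyMeasurable ?_ (measurableSet_Ioi.prod measurableSet_Ioi)
    have hA : ContinuousOn (fun p : ℝ × ℝ => (S p.2 : ℂ)) (Set.Ioi 0 ×ˢ Set.Ioi 0) :=
      Complex.continuous_ofReal.comp_continuousOn
        (hS.comp continuous_snd.continuousOn fun p hp => hp.2)
    have hB : ContinuousOn (fun p : ℝ × ℝ => (p.1 : ℂ) ^ (s - 1)) (Set.Ioi 0 ×ˢ Set.Ioi 0) := by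
      refine ContinuousOn.cpow_const
        (Complex.continuous_ofReal.comp continuous_fst).continuousOn fun p hp => ?_
      exact Complex.ofReal_mem_slitPlane.mpr hp.1
    have hC : ContinuousOn (fun p : ℝ × ℝ => (ϑ (p.1 / p.2) : ℂ))
        (Set.Ioi 0 ×ˢ Set.Ioi 0) := by
      refine Complex.continuous_ofReal.comp_continuousOn (hϑ.comp ?_ fun p hp => ?_)
      · exact continuous_fst.continuousOn.div continuous_snd.continuousOn
          fun p hp => ne_of_gt hp.2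
      · exact div_pos (show (0 : ℝ) < p.1 from hp.1) (show (0 : ℝ) < p.2 from hp.2)
    exact hA.mul (hB.mul hC)
  rw [integrable_prod_iff' hmeas]
  constructor
  · refine (ae_restrict_iff' measurableSet_Ioi).mpr (Eventually.of_forall fun y hy => ?_)
    have hy' : (0 : ℝ) < y := hy
    have h3 := (MellinConvergent.comp_mul_left (f := fun u => (ϑ u : ℂ)) (s := s)
      (inv_pos.mpr hy')).mpr h2
    have h4 : Integrable (fun t : ℝ => (t : ℂ) ^ (s - 1) * (ϑ (t / y) : ℂ))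
        (volume.restrict (Set.Ioi (0 : ℝ))) := by
      simpa only [MellinConvergent, IntegrableOn, smul_eq_mul, div_eq_inv_mul] using h3
    exact h4.const_mul (S y : ℂ)
  · have h5 : Integrable (fun y : ℝ => ‖(y : ℂ) ^ (s + 1 - 1) • (S y : ℂ)‖ *
        ∫ u in Set.Ioi (0 : ℝ), ‖(u : ℂ) ^ (s - 1) * (ϑ u : ℂ)‖)
        (volume.restrict (Set.Ioi (0 : ℝ))) := (Integrable.norm h1).mul_const _
    refine h5.congr ((ae_restrict_iff' measurableSet_Ioi).mpr
      (Eventually.of_forall fun y hy => ?_))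
    have hy' : (0 : ℝ) < y := hy
    simp only [Function.uncurry_apply_pair]
    simp_rw [norm_mul (S y : ℂ)]
    rw [integral_const_mul, rsconv_norm_div ϑ hy', add_sub_cancel_right, smul_eq_mul, norm_mul,
      Complex.norm_cpow_eq_rpow_re_of_pos hy']
    ring

/-- Mellin convolution. Sketch: `integral_integral_swap` for
`(t, y) ↦ t ^ (s - 1) * (S y * ϑ (t / y))` on `Ioi 0 × Ioi 0`; measurability from continuity
(`Measure.prod_restrict`, `ContinuousOn.aestronglyMeasurable`); integrability by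
`integrable_prod_iff'`; for fixed `y` use `MellinConvergent.comp_mul_left` and
`mellin_comp_mul_left` with the factor `y⁻¹` (also for the function `|ϑ|` at the real point
`s.re`). -/
theorem mellin_conv {S ϑ : ℝ → ℝ} (hS : ContinuousOn S (Set.Ioi 0))
    (hϑ : ContinuousOn ϑ (Set.Ioi 0)) {s : ℂ}
    (h1 : MellinConvergent (fun y => (S y : ℂ)) (s + 1))
    (h2 : MellinConvergent (fun u => (ϑ u : ℂ)) s) :
    mellin (fun t => ((∫ y in Set.Ioi (0 : ℝ), S y * ϑ (t / y) : ℝ) : ℂ)) s =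
      mellin (fun y => (S y : ℂ)) (s + 1) * mellin (fun u => (ϑ u : ℂ)) s := by
  have hswap := integral_integral_swap (rsconv_integrable hS hϑ h1 h2)
  have hL : mellin (fun t => ((∫ y in Set.Ioi (0 : ℝ), S y * ϑ (t / y) : ℝ) : ℂ)) s =
      ∫ t in Set.Ioi (0 : ℝ), ∫ y in Set.Ioi (0 : ℝ),
        (S y : ℂ) * ((t : ℂ) ^ (s - 1) * (ϑ (t / y) : ℂ)) := by
    rw [mellin]
    refine setIntegral_congr_fun measurableSet_Ioi fun t _ => ?_
    simp only [smul_eq_mul]
    rw [← integral_complex_ofReal, ← integral_const_mul]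
    refine setIntegral_congr_fun measurableSet_Ioi fun y _ => ?_
    simp only [Complex.ofReal_mul]
    ring
  rw [hL, hswap]
  conv_rhs => rw [mellin, ← integral_mul_const]
  refine setIntegral_congr_fun measurableSet_Ioi fun y hy => ?_
  have hy' : (0 : ℝ) < y := hy
  simp only [smul_eq_mul]
  rw [integral_const_mul, rsconv_mellin_div ϑ hy', add_sub_cancel_right]
  ring

end Pool.Agent.Lib.MP_03e5d0_nt.RS
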