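import Pool.Agent.Lib.MP_03e5d0_nt.RSPole
import Pool.Agent.Lib.MP_03e5d0_nt.RSMel
import Pool.Agent.Lib.MP_03e5d0_nt.RSConv
import Pool.Agent.Lib.MP_03e5d0_nt.RSGam

/-! Continuation of the Rankin-Selberg series. -/

set_option autoImplicit false

noncomputable section

namespace Pool.Agent.Lib.MP_03e5d0_nt.RS

open scoped UpperHalfPlane Real MatrixGroups ENNReal Topology
open Complex MeasureTheory Filter

/-- Sketch: `L = LSeries (↗χ * ↗μ)` for the trivial character `χ` modulo `N`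
(`DirichletCharacter.LSeries.mul_mu_eq_one`; `χ n = ind N n` by `MulChar.one_apply`,
`ZMod.isUnit_iff_coprime`); differentiability from `LSeries_differentiableOn` and
`LSeries.abscissaOfAbsConv_le_of_le_const`; the bound from `norm_tsum_le_tsum_norm` and
`∑ n ^ (-3/2)`. -/
theorem exists_inv_zeta (N : ℕ) : ∃ L : ℂ → ℂ, DifferentiableOn ℂ L {s | 1 < s.re} ∧
    (∀ s : ℂ, 1 < s.re → LSeries (fun m => (ind N m : ℂ)) s * L s = 1) ∧
    ∃ C : ℝ, 0 ≤ C ∧ ∀ s : ℂ, 3 / 2 ≤ s.re → ‖L s‖ ≤ C := by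
  let χ : DirichletCharacter ℂ N := 1
  let f : ℕ → ℂ := (fun n : ℕ => χ n) * fun n : ℕ => (ArithmeticFunction.moebius n : ℂ)
  have hχ : (fun m => (ind N m : ℂ)) = fun n : ℕ => χ n := by
    funext n
    unfold ind
    split_ifs with h
    · rw [MulChar.one_apply ((ZMod.isUnit_iff_coprime n N).mpr h), ofReal_one]
    · rw [MulChar.map_nonunit _ fun hu => h ((ZMod.isUnit_iff_coprime n N).mp hu), ofReal_zero]
  have hf : ∀ n ≠ 0, ‖f n‖ ≤ 1 := fun n _ => by
    simp only [f, Pi.mul_apply, norm_mul]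
    refine mul_le_one₀ (χ.norm_le_one _) (norm_nonneg _) ?_
    rw [Complex.norm_intCast]
    exact_mod_cast ArithmeticFunction.abs_moebius_le_one
  have hs : ∀ s : ℂ, 1 < s.re → Summable fun n => ‖LSeries.term f s n‖ := fun s hs =>
    summable_norm_iff.mpr (LSeriesSummable_of_bounded_of_one_lt_re hf hs)
  refine ⟨LSeries f, (LSeries_differentiableOn f).mono fun s hs => ?_, fun s hs => ?_,
    ∑' n, ‖LSeries.term f (3 / 2) n‖, tsum_nonneg fun _ => norm_nonneg _, fun s h => ?_⟩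
  · refine (LSeries.abscissaOfAbsConv_le_of_le_const ⟨1, hf⟩).trans_lt ?_
    exact_mod_cast hs
  · rw [hχ]
    exact DirichletCharacter.LSeries.mul_mu_eq_one χ hs
  · have h1 := hs s (by linarith)
    refine (norm_tsum_le_tsum_norm h1).trans (h1.tsum_le_tsum (fun n => ?_) (hs _ (by norm_num)))
    exact LSeries.norm_term_le_of_re_le_re f (by simpa using h) n

/-- Sketch: replace `N` by `2 N` (`CF.mono`). With `Λ` from `CF.pole` and `Pole.cont` put
`E s = Λ s * π ^ s * (4 π) ^ (s + 1) * (Γ s)⁻¹ * (Γ (s + 1))⁻¹ * L (2 s)`. The identity comes from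
`mellin_conv`, `th_mellin`, `CF.Sq_mellin`, `mellinConvergent_of_le`. -/
theorem CF.cont {N : ℕ} {g : ℍ → ℂ} {c : ℕ → ℂ} (h : CF N g c) (hN : 0 < N) :
    ∃ E : ℂ → ℂ, Cont (fun n => ‖c n‖ ^ 2 / n) E ∧ ((∃ n, c n ≠ 0) → E 1 ≠ 0) := by
  have h2 : 2 ≤ 2 * N := by omega
  have h' := h.mono (dvd_mul_left N 2)
  obtain ⟨κ, hκ, hκ0⟩ := h'.pole h2
  obtain ⟨Λ, d1, e1, e2, C₁, hC₁, b1⟩ := hκ.cont
  obtain ⟨L, d2, e3, C₂, hC₂, b2⟩ := exists_inv_zeta (2 * N)
  obtain ⟨C₃, hC₃, b3⟩ := norm_inv_Gamma_le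
  have hπ : (π : ℂ) ≠ 0 := ofReal_ne_zero.mpr Real.pi_ne_zero
  have hπ4 : ((4 * π : ℝ) : ℂ) ≠ 0 := ofReal_ne_zero.mpr (by positivity)
  refine ⟨fun s => Λ s * (π : ℂ) ^ s * ((4 * π : ℝ) : ℂ) ^ (s + 1) * (Gamma s)⁻¹ *
    (Gamma (s + 1))⁻¹ * L (2 * s), ⟨fun n => by positivity, ?_, fun s hs => h.lsummable hs,
    fun s hs => ?_, ?_⟩, fun hc => ?_⟩
  · refine ((((d1.mul ?_).mul ?_).mul ?_).mul ?_).mul ?_
    · exact (differentiable_id.const_cpow (Or.inl hπ)).differentiableOn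
    · exact ((differentiable_id.add_const 1).const_cpow (Or.inl hπ4)).differentiableOn
    · exact differentiable_one_div_Gamma.differentiableOn
    · exact (differentiable_one_div_Gamma.comp (differentiable_id.add_const 1)).differentiableOn
    · refine d2.comp (differentiable_id.const_mul 2).differentiableOn fun s hs => ?_
      have : 1 / 2 < s.re := hs
      show 1 < (2 * s).re
      simp only [mul_re, re_ofNat, im_ofNat, zero_mul, sub_zero]
      linarith
  · have m1 : MellinConvergent (fun y => (Sq c y : ℂ)) (s + 1) :=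
      mellinConvergent_of_le h.Sq_cont (b := 2) h.Sq_le (by simp; linarith)
    have m2 : MellinConvergent (fun u => (th (2 * N) u : ℂ)) s :=
      mellinConvergent_of_le (th_cont h2) (b := 1)
        (fun A hA => (th_le h2 A hA).imp fun _ hC => hC.2) (by simpa using hs)
    have m3 := mellin_conv h.Sq_cont (th_cont h2) m1 m2
    rw [h.Sq_mellin hs, th_mellin h2 hs] at m3
    have m4 := e3 (2 * s) (by
      simp only [mul_re, re_ofNat, im_ofNat, zero_mul, sub_zero]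
      linarith)
    have g1 : Gamma s ≠ 0 := Gamma_ne_zero_of_re_pos (by linarith)
    have g2 : Gamma (s + 1) ≠ 0 := Gamma_ne_zero_of_re_pos (by simp; linarith)
    have p1 : (π : ℂ) ^ s ≠ 0 := cpow_ne_zero_iff.mpr (Or.inl hπ)
    have p2 : ((4 * π : ℝ) : ℂ) ^ (s + 1) ≠ 0 := cpow_ne_zero_iff.mpr (Or.inl hπ4)
    have m5 : mellin (fun t => (Th c (2 * N) t : ℂ)) s = _ := m3
    show Λ s * _ * _ * _ * _ * _ = _
    rw [e2 s hs, m5, cpow_neg, cpow_neg]
    generalize LSeries (fun m => (ind (2 * N) m : ℂ)) (2 * s) = u at m4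
    generalize L (2 * s) = v at m4
    generalize LSeries (fun n => ((‖c n‖ ^ 2 / n : ℝ) : ℂ)) s = w
    field_simp
    linear_combination (s - 1) * w * m4
  · refine exp_bound (C := C₁ * π ^ (4 : ℝ) * (4 * π) ^ (5 : ℝ) * C₃ * C₃ * C₂) (D := 8)
      fun s h1 h3 => ?_
    have hp := Real.pi_gt_three
    have n1 : ‖(π : ℂ) ^ s‖ ≤ π ^ (4 : ℝ) := by
      rw [norm_cpow_eq_rpow_re_of_pos Real.pi_pos]
      exact Real.rpow_le_rpow_of_exponent_le (by linarith) h3
    have n2 : ‖((4 * π : ℝ) : ℂ) ^ (s + 1)‖ ≤ (4 * π) ^ (5 : ℝ) := by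
      rw [norm_cpow_eq_rpow_re_of_pos (by positivity)]
      exact Real.rpow_le_rpow_of_exponent_le (by linarith) (by simp; linarith)
    have n3 := b3 s h1 (by linarith)
    have n4 := b3 (s + 1) (by simp; linarith) (by simp; linarith)
    have n5 := b2 (2 * s) (by
      simp only [mul_re, re_ofNat, im_ofNat, zero_mul, sub_zero]
      linarith)
    have n6 := b1 s h1 h3
    rw [add_im, one_im, add_zero] at n4
    have n7 : Real.exp (8 * |s.im|) = Real.exp (4 * |s.im|) * Real.exp (4 * |s.im|) := by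
      rw [← Real.exp_add]; ring_nf
    simp only [norm_mul]
    calc _ ≤ C₁ * (1 + |s.im|) * π ^ (4 : ℝ) * (4 * π) ^ (5 : ℝ) * (C₃ * Real.exp (4 * |s.im|)) *
          (C₃ * Real.exp (4 * |s.im|)) * C₂ := by gcongr
      _ = _ := by rw [n7]; ring
  · have m4 := e3 (2 * 1) (by norm_num)
    refine mul_ne_zero (mul_ne_zero (mul_ne_zero (mul_ne_zero (mul_ne_zero ?_
      (cpow_ne_zero_iff.mpr (Or.inl hπ))) (cpow_ne_zero_iff.mpr (Or.inl hπ4)))
      (inv_ne_zero (Gamma_ne_zero_of_re_pos (by simp))))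
      (inv_ne_zero (Gamma_ne_zero_of_re_pos (by simp)))) (right_ne_zero_of_mul_eq_one m4)
    rw [e1]
    exact ofReal_ne_zero.mpr (hκ0 hc)

end Pool.Agent.Lib.MP_03e5d0_nt.RS
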