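import Pool.Agent.Lib.MP_03e5d0_nt.Iface

/-! Definitions for the Rankin-Selberg block. -/

set_option autoImplicit false

noncomputable section

namespace Pool.Agent.Lib.MP_03e5d0_nt.RS

open scoped UpperHalfPlane Real MatrixGroups ENNReal
open Complex MeasureTheory

/-- Weight two cusp form on `Γ₀(N)` with Fourier coefficients `c`, unbundled. -/
structure CF (N : ℕ) (g : ℍ → ℂ) (c : ℕ → ℂ) : Prop where
  inv : ∀ a b c' d : ℤ, a * d - b * c' = 1 → (N : ℤ) ∣ c' → ∀ z w : ℍ,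
    (w : ℂ) = (a * z + b) / (c' * z + d) → g w = ((c' : ℂ) * z + d) ^ 2 * g z
  bdd : ∃ C : ℝ, ∀ z : ℍ, z.im * ‖g z‖ ≤ C
  zero : c 0 = 0
  sum : ∀ z : ℍ, HasSum (fun n : ℕ => c n * cexp (2 * π * I * n * z)) (g z)

/-- A series of exponentials. -/
def ES (a p : ℕ → ℝ) (y : ℝ) : ℝ := ∑' n : ℕ, a n * Real.exp (-p n * y)

/-- Indicator of the integers coprime to `N`. -/
def ind (N n : ℕ) : ℝ := if n.Coprime N then 1 else 0

/-- The integral of `|g| ^ 2` over a horocycle. -/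
def Sq (c : ℕ → ℂ) : ℝ → ℝ := ES (fun n => ‖c n‖ ^ 2) fun n => 4 * π * n

/-- A theta series over the integers coprime to `N`. -/
def th (N : ℕ) : ℝ → ℝ := ES (ind N) fun m => π * (m : ℝ) ^ 2

/-- The Mellin convolution of `Sq` and `th`. -/
def Th (c : ℕ → ℂ) (N : ℕ) (t : ℝ) : ℝ := ∫ y in Set.Ioi (0 : ℝ), Sq c y * th N (t / y)

/-- The invariant function. -/
def FF (g : ℍ → ℂ) (z : ℍ) : ℝ := (z.im * ‖g z‖) ^ 2

/-- The point `x + i y`. -/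
def pt (x y : ℝ) : ℍ := UpperHalfPlane.ofComplex ((x : ℂ) + (y : ℂ) * I)

/-- The standard strip. -/
def strip : Set ℍ := {z | 0 ≤ z.re ∧ z.re < 1}

/-- A matrix whose bottom row is the primitive vector on the ray of `v`. -/
def IsRow (v : ℤ × ℤ) (γ : SL(2, ℤ)) : Prop :=
  v.1 = (Int.gcd v.1 v.2 : ℤ) * γ 1 0 ∧ v.2 = (Int.gcd v.1 v.2 : ℤ) * γ 1 1

/-- The Gaussian attached to a lattice vector. -/
def gs (t : ℝ) (w : ℍ) (v : ℤ × ℤ) : ℝ :=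
  Real.exp (-(π * t * Complex.normSq ((v.1 : ℂ) * w + v.2) / w.im))

/-- Behaviour `κ / t` at zero, rapid decay at infinity. -/
structure Pole (Θ : ℝ → ℝ) (κ : ℝ) : Prop where
  anti : AntitoneOn Θ (Set.Ioi 0)
  zero : ∃ C : ℝ, ∀ t : ℝ, 0 < t → t ≤ 1 → |Θ t - κ / t| ≤ C / √t
  top : ∀ A : ℕ, ∃ C : ℝ, ∀ t : ℝ, 1 ≤ t → |Θ t| ≤ C / t ^ A

/-- `E` continues `(s - 1)` times the Dirichlet series of `β`. -/
structure Cont (β : ℕ → ℝ) (E : ℂ → ℂ) : Prop where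
  nonneg : ∀ n, 0 ≤ β n
  diff : DifferentiableOn ℂ E {s | 1 / 2 < s.re}
  summ : ∀ s : ℂ, 1 < s.re → LSeriesSummable (fun n => (β n : ℂ)) s
  eq : ∀ s : ℂ, 1 < s.re → E s = (s - 1) * LSeries (fun n => (β n : ℂ)) s
  exp : ∃ C : ℝ, 1 ≤ C ∧ ∀ s : ℂ, 3 / 4 ≤ s.re → s.re ≤ 4 → ‖E s‖ ≤ C * Real.exp (C * |s.im|)

/-- Multiplicative coefficients supported on the integers coprime to `W`. -/
structure Mu (W : ℕ) (β : ℕ → ℝ) : Prop where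
  big : ∀ p : ℕ, p.Prime → ¬ p ∣ W → 10000 ≤ p
  nonneg : ∀ n, 0 ≤ β n
  one : β 1 = 1
  cop : ∀ n : ℕ, ¬ n.Coprime W → β n = 0
  mul : ∀ m n : ℕ, m.Coprime n → β (m * n) = β m * β n
  le : ∀ p k : ℕ, p.Prime → β (p ^ k) ≤ 4 ^ k

/-- The Dirichlet series is the exponential of the prime sum up to a harmless factor. -/
def Fac (W : ℕ) (β : ℕ → ℝ) : Prop :=
  ∃ (h : ℂ → ℂ) (C : ℝ), DifferentiableOn ℂ h {s | 3 / 4 < s.re} ∧
    (∀ s : ℂ, 3 / 4 < s.re → ‖h s‖ ≤ C) ∧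
    ∀ s : ℂ, 1 < s.re → LSeries (fun n => (β n : ℂ)) s = cexp (PSum W β s + h s)

end Pool.Agent.Lib.MP_03e5d0_nt.RS
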