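import Pool.Agent.Lib.MP_03e5d0_nt.RSDefs

/-! The Euler product as an exponential. -/

set_option autoImplicit false

noncomputable section

namespace Pool.Agent.Lib.MP_03e5d0_nt.RS

open scoped UpperHalfPlane Real MatrixGroups ENNReal Topology
open Complex MeasureTheory Filter

variable {W : ℕ} {β : ℕ → ℝ}

theorem Mu.zero (h : Mu W β) : β 0 = 0 := by
  refine h.cop 0 fun hc => ?_
  have h1 : W = 1 := by simpa using hc
  have h2 := h.big 2 Nat.prime_two (by rw [h1]; norm_num)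
  omega

theorem Mu.prime_le (h : Mu W β) {p : ℕ} (hp : p.Prime) : β p ≤ 4 := by
  simpa using h.le p 1 hp

theorem rseul_term {b : ℝ} {k : ℕ} (hb : |b| ≤ 4 ^ k) (X : ℂ) :
    ‖(b : ℂ) * X ^ k‖ ≤ (4 * ‖X‖) ^ k := by
  rw [norm_mul, norm_pow, mul_pow, Complex.norm_real, Real.norm_eq_abs]
  exact mul_le_mul_of_nonneg_right hb (by positivity)

theorem Mu.rseul_abs (h : Mu W β) {p : ℕ} (hp : p.Prime) (k : ℕ) : |β (p ^ k)| ≤ 4 ^ k := by
  rw [abs_of_nonneg (h.nonneg _)]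
  exact h.le p k hp

/-- A power series with coefficients at most `4 ^ k`. Sketch: `Y = 4 ‖X‖ ≤ 1 / 25`,
`u = ∑' - 1` has norm at most `Y / (1 - Y) ≤ 2 Y`, `‖u - b 1 X‖ ≤ Y ^ 2 / (1 - Y) ≤ 2 Y ^ 2`
(`Summable.sum_add_tsum_nat_add`, `tsum_of_norm_bounded`, `hasSum_geometric_of_lt_one`), and
`Complex.norm_log_one_add_sub_self_le` gives `‖log (1 + u) - u‖ ≤ ‖u‖ ^ 2 ≤ 4 Y ^ 2`. -/
theorem loc_bound {b : ℕ → ℝ} (h0 : b 0 = 1) (hb : ∀ k, |b k| ≤ 4 ^ k) {X : ℂ}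
    (hX : ‖X‖ ≤ 1 / 100) :
    ‖(∑' k : ℕ, (b k : ℂ) * X ^ k) - 1‖ ≤ 1 / 2 ∧
      ‖Complex.log (∑' k : ℕ, (b k : ℂ) * X ^ k) - b 1 * X‖ ≤ 96 * ‖X‖ ^ 2 := by
  obtain ⟨Y, hY⟩ : ∃ Y : ℝ, Y = 4 * ‖X‖ := ⟨_, rfl⟩
  have hY0 : 0 ≤ Y := by rw [hY]; positivity
  have hY1 : Y ≤ 1 / 25 := by linarith
  have ht : ∀ k, ‖(b k : ℂ) * X ^ k‖ ≤ Y ^ k := fun k => hY ▸ rseul_term (hb k) X
  have hg := hasSum_geometric_of_lt_one hY0 (by linarith : Y < 1)
  have hsum : Summable fun k : ℕ => (b k : ℂ) * X ^ k := Summable.of_norm_bounded hg.summable ht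
  obtain ⟨T, hT⟩ : ∃ T : ℂ, T = ∑' k : ℕ, (b (k + 2) : ℂ) * X ^ (k + 2) := ⟨_, rfl⟩
  have h1 : ∑' k : ℕ, (b k : ℂ) * X ^ k = 1 + (b 1 * X + T) := by
    rw [← hsum.sum_add_tsum_nat_add 2, ← hT]
    simp [Finset.sum_range_succ, h0, add_assoc]
  have h2 : ‖T‖ ≤ 2 * Y ^ 2 := by
    have h3 : ‖T‖ ≤ Y ^ 2 * (1 - Y)⁻¹ := hT ▸ tsum_of_norm_bounded (hg.mul_left (Y ^ 2))
      fun k => (ht (k + 2)).trans_eq (by ring)
    have h4 : (1 - Y)⁻¹ ≤ 2 := inv_le_of_inv_le₀ two_pos (by linarith)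
    exact h3.trans ((mul_le_mul_of_nonneg_left h4 (by positivity)).trans_eq (mul_comm _ _))
  have h3 : ‖(b 1 : ℂ) * X + T‖ ≤ 2 * Y := by
    have h4 := ht 1
    rw [pow_one, pow_one] at h4
    have h5 := norm_add_le ((b 1 : ℂ) * X) T
    nlinarith
  rw [h1]
  generalize hu : (b 1 : ℂ) * X + T = u at h3
  refine ⟨by rw [add_sub_cancel_left]; linarith, ?_⟩
  have h4 := Complex.norm_log_one_add_sub_self_le (z := u) (by linarith)
  have h5 : (1 - ‖u‖)⁻¹ ≤ 2 := inv_le_of_inv_le₀ two_pos (by linarith)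
  have h6 : ‖u‖ ^ 2 * (1 - ‖u‖)⁻¹ ≤ (2 * Y) ^ 2 * 2 :=
    mul_le_mul (pow_le_pow_left₀ (norm_nonneg _) h3 2) h5 (inv_nonneg.2 (by linarith))
      (by positivity)
  have h7 : Complex.log (1 + u) - b 1 * X = (Complex.log (1 + u) - u) + T := by
    rw [← hu]
    ring
  have h8 := norm_add_le (Complex.log (1 + u) - u) T
  have h9 : Y ^ 2 = 16 * ‖X‖ ^ 2 := by rw [hY]; ring
  rw [h7]
  nlinarith

theorem norm_cpow_le {p : ℕ} (hp : 10000 ≤ p) {s : ℂ} (hs : 3 / 4 < s.re) :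
    ‖(p : ℂ) ^ (-s)‖ ≤ 1 / 100 ∧ ‖(p : ℂ) ^ (-s)‖ ^ 2 ≤ (p : ℝ) ^ (-(3 / 2 : ℝ)) := by
  have hp1 : (10000 : ℝ) ≤ p := by exact_mod_cast hp
  have h1 : ‖(p : ℂ) ^ (-s)‖ ^ 2 ≤ (p : ℝ) ^ (-(3 / 2 : ℝ)) := by
    rw [Complex.norm_natCast_cpow_of_pos (by omega), ← Real.rpow_natCast,
      ← Real.rpow_mul (by linarith)]
    refine Real.rpow_le_rpow_of_exponent_le (by linarith) ?_
    rw [Complex.neg_re]
    push_cast
    linarith
  refine ⟨?_, h1⟩
  have h2 : (p : ℝ) ^ (-(3 / 2 : ℝ)) ≤ (p : ℝ) ^ (-(1 : ℝ)) :=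
    Real.rpow_le_rpow_of_exponent_le (by linarith) (by norm_num)
  rw [Real.rpow_neg_one] at h2
  have h3 : (p : ℝ)⁻¹ ≤ (10000 : ℝ)⁻¹ := inv_anti₀ (by norm_num) hp1
  exact (abs_le_of_sq_le_sq' (by linarith) (by norm_num)).2

theorem Mu.rseul_loc (h : Mu W β) {p : ℕ} (hp : p.Prime ∧ ¬ p ∣ W) {s : ℂ} (hs : 3 / 4 < s.re) :
    ‖(∑' k : ℕ, (β (p ^ k) : ℂ) * ((p : ℂ) ^ (-s)) ^ k) - 1‖ ≤ 1 / 2 ∧
      ‖Complex.log (∑' k : ℕ, (β (p ^ k) : ℂ) * ((p : ℂ) ^ (-s)) ^ k) - β p * (p : ℂ) ^ (-s)‖ ≤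
        96 * ‖(p : ℂ) ^ (-s)‖ ^ 2 := by
  have h1 := loc_bound (b := fun k => β (p ^ k)) (by simpa using h.one) (h.rseul_abs hp.1)
    (norm_cpow_le (h.big p hp.1 hp.2) hs).1
  simpa only [pow_one] using h1

theorem rseul_slit {z : ℂ} (h : ‖z - 1‖ ≤ 1 / 2) : z ∈ Complex.slitPlane := by
  have h1 := Complex.mem_slitPlane_of_norm_lt_one (z := z - 1) (by linarith)
  rwa [add_sub_cancel] at h1

/-- The local correction. -/
def hp (W : ℕ) (β : ℕ → ℝ) (p : ℕ) (s : ℂ) : ℂ :=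
  if p.Prime ∧ ¬ p ∣ W then
    Complex.log (∑' k : ℕ, (β (p ^ k) : ℂ) * ((p : ℂ) ^ (-s)) ^ k) - β p * (p : ℂ) ^ (-s)
  else 0

theorem Mu.hp_le (h : Mu W β) (p : ℕ) {s : ℂ} (hs : 3 / 4 < s.re) :
    ‖hp W β p s‖ ≤ 96 * (p : ℝ) ^ (-(3 / 2 : ℝ)) := by
  unfold hp
  split_ifs with h1
  · exact (h.rseul_loc h1 hs).2.trans
      (mul_le_mul_of_nonneg_left (norm_cpow_le (h.big p h1.1 h1.2) hs).2 (by norm_num))
  · rw [norm_zero]
    positivity

/-- Sketch: `Complex.differentiableOn_tsum_of_summable_norm` with the majorant `(1 / 25) ^ k`,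
`DifferentiableOn.clog`, `Complex.mem_slitPlane_of_norm_lt_one'`. -/
theorem Mu.hp_diff (h : Mu W β) (p : ℕ) : DifferentiableOn ℂ (hp W β p) {s | 3 / 4 < s.re} := by
  unfold hp
  split_ifs with h1
  · have h2 : Differentiable ℂ fun s : ℂ => (p : ℂ) ^ (-s) :=
      differentiable_neg.const_cpow (Or.inl (Nat.cast_ne_zero.2 h1.1.ne_zero))
    have h3 : DifferentiableOn ℂ (fun s : ℂ => ∑' k : ℕ, (β (p ^ k) : ℂ) * ((p : ℂ) ^ (-s)) ^ k)
        {s | 3 / 4 < s.re} :=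
      Complex.differentiableOn_tsum_of_summable_norm (u := fun k : ℕ => (1 / 25 : ℝ) ^ k)
        (summable_geometric_of_lt_one (by norm_num) (by norm_num))
        (fun k => ((h2.pow k).const_mul _).differentiableOn)
        (isOpen_lt continuous_const Complex.continuous_re) fun k s hs =>
          (rseul_term (h.rseul_abs h1.1 k) _).trans (pow_le_pow_left₀ (by positivity)
            (by linarith [(norm_cpow_le (h.big p h1.1 h1.2) hs).1]) k)
    exact (h3.clog fun s hs => rseul_slit (h.rseul_loc h1 hs).1).sub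
      (h2.const_mul _).differentiableOn
  · exact differentiableOn_const _

theorem Mu.summable_PSum (h : Mu W β) {s : ℂ} (hs : 1 < s.re) :
    Summable fun p : ℕ => ‖if p.Prime ∧ ¬ p ∣ W then (β p : ℂ) * (p : ℂ) ^ (-s) else 0‖ := by
  refine Summable.of_nonneg_of_le (fun _ => norm_nonneg _) (fun p => ?_)
    ((Real.summable_nat_rpow.2 (by linarith : -s.re < -1)).mul_left 4)
  split_ifs with h1
  · rw [norm_mul, Complex.norm_natCast_cpow_of_pos h1.1.pos, Complex.neg_re, Complex.norm_real,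
      Real.norm_of_nonneg (h.nonneg p)]
    exact mul_le_mul_of_nonneg_right (h.prime_le h1.1) (by positivity)
  · rw [norm_zero]
    positivity

/-- Sketch: `EulerProduct.eulerProduct_hasProd_mulIndicator` for `f = LSeries.term β s`
(multiplicative: `Complex.natCast_mul_natCast_cpow`), and `HasSum.cexp` for the sum of the
summand of `PSum` and `hp`; the two products agree termwise (`Complex.exp_log`; for a prime
`p ∣ W` the local series is `1`), conclude with `HasProd.unique`. Take `h s = ∑' p, hp W β p s`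
(`Complex.differentiableOn_tsum_of_summable_norm`). -/
theorem Mu.fac (h : Mu W β)
    (hs : ∀ s : ℂ, 1 < s.re → LSeriesSummable (fun n => (β n : ℂ)) s) : Fac W β := by
  have hu : Summable fun p : ℕ => 96 * (p : ℝ) ^ (-(3 / 2 : ℝ)) :=
    (Real.summable_nat_rpow.2 (by norm_num)).mul_left 96
  refine ⟨fun s => ∑' p, hp W β p s, ∑' p : ℕ, 96 * (p : ℝ) ^ (-(3 / 2 : ℝ)),
    Complex.differentiableOn_tsum_of_summable_norm hu h.hp_diff
      (isOpen_lt continuous_const Complex.continuous_re) fun p s hs' => h.hp_le p hs',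
    fun s hs' => tsum_of_norm_bounded hu.hasSum fun p => h.hp_le p hs', fun s hs' => ?_⟩
  have hs3 : 3 / 4 < s.re := by linarith
  have ht : ∀ n : ℕ, LSeries.term (fun n => (β n : ℂ)) s n = β n * (n : ℂ) ^ (-s) :=
    LSeries.term_def₀ (by simp [h.zero]) s
  have h1 := EulerProduct.eulerProduct_hasProd_mulIndicator
    (f := LSeries.term (fun n => (β n : ℂ)) s) (by simp [h.one])
    (fun {m n} hmn => by
      rw [ht, ht, ht, h.mul m n hmn, Nat.cast_mul, Complex.natCast_mul_natCast_cpow]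
      push_cast
      ring) (hs s hs').norm (LSeries.term_zero _ _)
  have h2 := ((h.summable_PSum hs').of_norm.hasSum.add
    (Summable.of_norm_bounded hu fun p => h.hp_le p hs3).hasSum).cexp
  refine h1.unique (Eq.mpr (congrArg (HasProd · _) (funext fun p => ?_)) h2)
  have h3 : ∀ k : ℕ, LSeries.term (fun n => (β n : ℂ)) s (p ^ k) =
      β (p ^ k) * ((p : ℂ) ^ (-s)) ^ k := fun k => by
    rw [ht, Nat.cast_pow, ← Complex.natCast_cpow_natCast_mul, Complex.cpow_nat_mul]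
  rw [Function.comp_apply, Set.mulIndicator_apply, hp]
  simp only [h3, Set.mem_ofPred_eq]
  by_cases h4 : p.Prime ∧ ¬ p ∣ W
  · rw [if_pos h4.1, if_pos h4, if_pos h4, add_sub_cancel,
      Complex.exp_log (Complex.slitPlane_ne_zero (rseul_slit (h.rseul_loc h4 hs3).1))]
  · rw [if_neg h4, if_neg h4, add_zero, Complex.exp_zero]
    split_ifs with h5
    · have h6 : p ∣ W := not_not.1 fun h6 => h4 ⟨h5, h6⟩
      rw [tsum_eq_single 0 fun k hk => by
        rw [h.cop _ fun hc => h5.one_lt.ne' (Nat.eq_one_of_dvd_coprimes hc (dvd_pow_self p hk) h6),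
          Complex.ofReal_zero, zero_mul]]
      simp [h.one]
    · rfl

end Pool.Agent.Lib.MP_03e5d0_nt.RS
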