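import Pool.Agent.Lib.MP_03e5d0_nt.RSDefs

/-! Gaussian lattice sums. -/

set_option autoImplicit false

noncomputable section

namespace Pool.Agent.Lib.MP_03e5d0_nt.RS

open scoped UpperHalfPlane Real MatrixGroups ENNReal Topology
open Complex MeasureTheory Filter

lemma rslat_geo {s : ℝ} (hs : 0 < s) : ∃ T : ℝ, T ≤ 2 / s ∧
    HasSum (fun n : ℤ => if n = 0 then 0 else Real.exp (-(s * |(n : ℝ)|))) T := by
  have hr0 : 0 ≤ Real.exp (-s) := (Real.exp_pos _).le
  have hr1 : Real.exp (-s) < 1 := Real.exp_lt_one_iff.2 (neg_lt_zero.2 hs)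
  have h1 : HasSum (fun n : ℕ => Real.exp (-(s * ((n : ℝ) + 1))))
      (Real.exp (-s) * (1 - Real.exp (-s))⁻¹) := by
    have e : (fun n : ℕ => Real.exp (-(s * ((n : ℝ) + 1)))) =
        fun n : ℕ => Real.exp (-s) * Real.exp (-s) ^ n := by
      funext n
      rw [← Real.exp_nat_mul, ← Real.exp_add]
      congr 1
      ring
    rw [e]
    exact (hasSum_geometric_of_lt_one hr0 hr1).mul_left (Real.exp (-s))
  have h2 : Real.exp (-s) * (1 - Real.exp (-s))⁻¹ ≤ 1 / s := by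
    rw [← div_eq_mul_inv, div_le_div_iff₀ (sub_pos.2 hr1) hs]
    have h3 : Real.exp (-s) * (s + 1) ≤ 1 := by
      calc Real.exp (-s) * (s + 1) ≤ Real.exp (-s) * Real.exp s :=
            mul_le_mul_of_nonneg_left (Real.add_one_le_exp s) hr0
        _ = 1 := by rw [← Real.exp_add, neg_add_cancel, Real.exp_zero]
    linarith
  refine ⟨_, ?_, HasSum.of_add_one_of_neg_add_one
    (m := Real.exp (-s) * (1 - Real.exp (-s))⁻¹) (m' := Real.exp (-s) * (1 - Real.exp (-s))⁻¹)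
    ?_ ?_⟩
  · rw [if_pos rfl, show 2 / s = 1 / s + 1 / s by ring]
    linarith
  · convert h1 using 2 with n
    rw [if_neg (by omega)]
    push_cast
    rw [abs_of_nonneg (by positivity)]
  · convert h1 using 2 with n
    rw [if_neg (by omega)]
    push_cast
    rw [abs_neg, abs_of_nonneg (by positivity)]

/-- Sketch: `|j + b| ≥ |j| - |b|`, or `summable_pow_mul_jacobiTheta₂_term_bound`, or compare with
`exp (-x) ≤ 1 / x` and `Real.summable_one_div_int_add_rpow`. -/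
theorem gauss_summable {a : ℝ} (ha : 0 < a) (b : ℝ) :
    Summable fun j : ℤ => Real.exp (-(π * a * ((j : ℝ) + b) ^ 2)) := by
  obtain ⟨T, -, hT⟩ := rslat_geo one_pos
  have h1 : Summable fun j : ℤ => Real.exp (-|(j : ℝ)|) := by
    have h2 := hT.summable.add (hasSum_ite_eq (0 : ℤ) (1 : ℝ)).summable
    refine h2.congr fun j => ?_
    by_cases hj : j = 0
    · simp [hj]
    · simp [hj]
  have hpa : 0 < π * a := mul_pos Real.pi_pos ha
  refine Summable.of_nonneg_of_le (fun j => (Real.exp_pos _).le) (fun j => ?_)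
    (h1.mul_left (Real.exp (1 / (4 * (π * a)) + |b|)))
  rw [← Real.exp_add]
  refine Real.exp_le_exp.2 ?_
  have h3 : |(j : ℝ)| ≤ |(j : ℝ) + b| + |b| := by
    simpa using abs_sub ((j : ℝ) + b) b
  have h4 : |(j : ℝ) + b| ≤ π * a * ((j : ℝ) + b) ^ 2 + 1 / (4 * (π * a)) := by
    rw [← sq_abs ((j : ℝ) + b)]
    generalize |(j : ℝ) + b| = x
    generalize π * a = c at hpa
    have h5 : c * x ^ 2 + 1 / (4 * c) - x = (2 * c * x - 1) ^ 2 / (4 * c) := by
      field_simp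
      ring
    have h6 : 0 ≤ (2 * c * x - 1) ^ 2 / (4 * c) := by positivity
    linarith
  linarith

/-- The terms `n ≠ 0` of the dual sum. Sketch: for `a ≤ 1` use `exp (-x) ≤ 1 / x`, so the sum is at
most `a * ∑ 1 / n ^ 2` and `a ≤ √a`. For `1 ≤ a` use `Real.tsum_exp_neg_mul_int_sq` with `1 / a`:
the full sum is `√a * ∑ exp (-π a n ^ 2) ≤ √a * ∑ exp (-π n ^ 2)`. -/
theorem gauss_dual : ∃ C : ℝ, 0 ≤ C ∧ ∀ a : ℝ, 0 < a →
    ∑' n : ℤ, (if n = 0 then 0 else Real.exp (-π / a * (n : ℝ) ^ 2)) ≤ C * √a := by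
  refine ⟨2 * Real.exp 1, by positivity, fun a ha => ?_⟩
  have hs : 0 < √a := Real.sqrt_pos.2 ha
  obtain ⟨T, hT1, hT⟩ := rslat_geo (one_div_pos.2 hs)
  have h1 := tsum_of_norm_bounded
    (f := fun n : ℤ => if n = 0 then 0 else Real.exp (-π / a * (n : ℝ) ^ 2))
    (hT.mul_left (Real.exp 1)) (fun n => by
      by_cases hn : n = 0
      · simp [hn]
      · rw [if_neg hn, if_neg hn, Real.norm_of_nonneg (Real.exp_pos _).le, ← Real.exp_add]
        refine Real.exp_le_exp.2 ?_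
        have h2 : -π / a * (n : ℝ) ^ 2 = -π * (1 / √a * |(n : ℝ)|) ^ 2 := by
          rw [mul_pow, sq_abs, div_pow, Real.sq_sqrt ha.le]
          ring
        rw [h2]
        generalize 1 / √a * |(n : ℝ)| = x
        nlinarith [Real.pi_gt_three, sq_nonneg x, sq_nonneg (x - 1)])
  refine ((le_abs_self _).trans h1).trans ?_
  rw [div_div_eq_mul_div, div_one] at hT1
  nlinarith [Real.exp_pos 1]

/-- Sketch: `Complex.tsum_exp_neg_quadratic` with the linear coefficient `-(a b)`, multiplied by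
`exp (-π a b ^ 2)`: the sum equals `a ^ (-1/2) ∑ exp (-π n ^ 2 / a) exp (2 π i n b)`; split off
`n = 0` (`Summable.tsum_eq_add_tsum_ite`) and use `gauss_dual`. -/
theorem gauss_one : ∃ C : ℝ, 0 ≤ C ∧ ∀ a b : ℝ, 0 < a →
    |∑' j : ℤ, Real.exp (-(π * a * ((j : ℝ) + b) ^ 2)) - 1 / √a| ≤ C := by
  obtain ⟨C, hC, h⟩ := gauss_dual
  refine ⟨C, hC, fun a b ha => ?_⟩
  have hs : 0 < √a := Real.sqrt_pos.2 ha
  have ha' : (a : ℂ) ≠ 0 := ofReal_ne_zero.2 ha.ne'
  set u : ℤ → ℂ := fun n => cexp (-π / a * (n : ℂ) ^ 2 + 2 * π * b * n * I) with hu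
  have hun : ∀ n : ℤ, ‖u n‖ = Real.exp (-π / a * (n : ℝ) ^ 2) := by
    intro n
    have h1 : u n = cexp ((-π / a * (n : ℝ) ^ 2 : ℝ) + (2 * π * b * n : ℝ) * I) := by
      simp only [hu]
      push_cast
      rfl
    rw [h1, Complex.exp_add, norm_mul, norm_exp_ofReal_mul_I, norm_exp_ofReal, mul_one]
  have hsr : Summable fun n : ℤ => Real.exp (-π / a * (n : ℝ) ^ 2) := by
    refine (gauss_summable (one_div_pos.2 ha) 0).congr fun n => ?_
    congr 1
    ring
  have hsu : Summable u := Summable.of_norm (hsr.congr fun n => (hun n).symm)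
  have h1 := Complex.tsum_exp_neg_quadratic (a := a) (by rwa [ofReal_re]) (-(a * b))
  have h2 : ((∑' j : ℤ, Real.exp (-(π * a * ((j : ℝ) + b) ^ 2)) : ℝ) : ℂ) =
      ((1 / √a : ℝ) : ℂ) * ∑' n, u n := by
    have h3 : (1 : ℂ) / (a : ℂ) ^ (1 / 2 : ℂ) = ((1 / √a : ℝ) : ℂ) := by
      rw [Real.sqrt_eq_rpow, ofReal_div, ofReal_cpow ha.le]
      push_cast
      rfl
    have h4 : ((∑' j : ℤ, Real.exp (-(π * a * ((j : ℝ) + b) ^ 2)) : ℝ) : ℂ) =
        cexp (-π * a * b ^ 2) *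
          ∑' n : ℤ, cexp (-π * a * n ^ 2 + 2 * π * (-(a * b)) * n) := by
      rw [ofReal_tsum, ← tsum_mul_left]
      refine tsum_congr fun n => ?_
      rw [← Complex.exp_add]
      push_cast
      congr 1
      ring
    rw [h4, h1, h3, mul_left_comm, ← tsum_mul_left]
    congr 1
    refine tsum_congr fun n => ?_
    rw [← Complex.exp_add]
    simp only [hu]
    congr 1
    field_simp
    linear_combination (-(a : ℂ) ^ 2 * (b : ℂ) ^ 2) * I_sq
  have h5 : ∑' n, u n = 1 + ∑' n, if n = 0 then 0 else u n := by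
    rw [hsu.tsum_eq_add_tsum_ite 0]
    simp [hu]
  have h6 : ‖∑' n, if n = 0 then 0 else u n‖ ≤ C * √a := by
    refine le_trans (tsum_of_norm_bounded (Summable.hasSum ?_) fun n => ?_) (h a ha)
    · refine Summable.of_nonneg_of_le (fun n => ?_) (fun n => ?_) hsr
      · split_ifs
        · exact le_rfl
        · exact (Real.exp_pos _).le
      · split_ifs
        · exact (Real.exp_pos _).le
        · exact le_rfl
    · split_ifs
      · simp
      · exact (hun n).le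
  have h7 : ((∑' j : ℤ, Real.exp (-(π * a * ((j : ℝ) + b) ^ 2)) - 1 / √a : ℝ) : ℂ) =
      ((1 / √a : ℝ) : ℂ) * ∑' n, if n = 0 then 0 else u n := by
    rw [ofReal_sub, h2, h5]
    ring
  rw [← Real.norm_eq_abs, ← norm_real, h7, norm_mul, norm_real,
    Real.norm_of_nonneg (one_div_pos.2 hs).le]
  calc 1 / √a * ‖∑' n, if n = 0 then 0 else u n‖ ≤ 1 / √a * (C * √a) :=
        mul_le_mul_of_nonneg_left h6 (one_div_pos.2 hs).le
    _ = C := by field_simp

/-- Sketch: with `x = w.re`, `y = w.im`, `c = N i + r.1`, `d = N j + r.2`,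
`normSq (c w + d) / y = y N ^ 2 (i + r.1 / N) ^ 2 + (N ^ 2 / y) (j + (c x + r.2) / N) ^ 2`. -/
theorem gs_eq {N : ℕ} (hN : 1 ≤ N) (t : ℝ) (w : ℍ) (r : ℤ × ℤ) (i j : ℤ) :
    gs t w (N * i + r.1, N * j + r.2) =
      Real.exp (-(π * (t * w.im * N ^ 2) * ((i : ℝ) + r.1 / N) ^ 2)) *
        Real.exp (-(π * (t * N ^ 2 / w.im) *
          ((j : ℝ) + (((N : ℝ) * i + r.1) * w.re + r.2) / N) ^ 2)) := by
  have hN' : (N : ℝ) ≠ 0 := by positivity
  have hy : w.im ≠ 0 := w.im_pos.ne'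
  rw [gs, ← Real.exp_add]
  congr 1
  have h1 : Complex.normSq (((N * i + r.1 : ℤ) : ℂ) * w + ((N * j + r.2 : ℤ) : ℂ)) =
      (((N : ℝ) * i + r.1) * w.re + (N * j + r.2)) ^ 2 + (((N : ℝ) * i + r.1) * w.im) ^ 2 := by
    rw [Complex.normSq_apply]
    simp only [add_re, mul_re, intCast_re, intCast_im, add_im, mul_im, UpperHalfPlane.coe_re,
      UpperHalfPlane.coe_im]
    push_cast
    ring
  simp only
  rw [h1]
  field_simp
  ring

/-- Sketch: `gs_eq`; `summable_prod_of_nonneg`, `Summable.tsum_prod'`. The inner sum is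
`√y / (N √t) + e_i`, `|e_i| ≤ C`; the outer weights sum to `1 / (N √t √y) + e`, `|e| ≤ C`. The error
is at most `C √y / √t + C (1 / (√t √y) + C)`, and `1 / √y ≤ 2 √y`, `1 ≤ 2 √y / √t`. -/
theorem gauss_two : ∃ C : ℝ, 0 ≤ C ∧ ∀ N : ℕ, 1 ≤ N → ∀ (t : ℝ) (w : ℍ) (r : ℤ × ℤ), 0 < t → t ≤ 1 →
    1 / 2 ≤ w.im → Summable (fun q : ℤ × ℤ => gs t w (N * q.1 + r.1, N * q.2 + r.2)) ∧
      |∑' q : ℤ × ℤ, gs t w (N * q.1 + r.1, N * q.2 + r.2) - 1 / (N ^ 2 * t)| ≤
        C * (√w.im / √t) := by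
  obtain ⟨C, hC, h⟩ := gauss_one
  refine ⟨3 * C + 2 * C ^ 2, by positivity, fun N hN t w r ht ht1 hy => ?_⟩
  have hN1 : (1 : ℝ) ≤ N := by exact_mod_cast hN
  have hy0 : 0 < w.im := w.im_pos
  set A : ℝ := t * w.im * N ^ 2 with hA
  set B : ℝ := t * N ^ 2 / w.im with hB
  have hA0 : 0 < A := by positivity
  have hB0 : 0 < B := by positivity
  set p : ℤ → ℝ := fun i => Real.exp (-(π * A * ((i : ℝ) + r.1 / N) ^ 2)) with hp
  set q : ℤ → ℤ → ℝ := fun i j => Real.exp (-(π * B *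
    ((j : ℝ) + (((N : ℝ) * i + r.1) * w.re + r.2) / N) ^ 2)) with hq
  have e : (fun x : ℤ × ℤ => gs t w (N * x.1 + r.1, N * x.2 + r.2)) =
      fun x : ℤ × ℤ => p x.1 * q x.1 x.2 := funext fun x => gs_eq hN t w r x.1 x.2
  have hp0 : ∀ i, 0 ≤ p i := fun i => (Real.exp_pos _).le
  have hq0 : ∀ i j, 0 ≤ q i j := fun i j => (Real.exp_pos _).le
  have hps : Summable p := gauss_summable hA0 _
  have hqs : ∀ i, Summable (q i) := fun i => gauss_summable hB0 _
  have hP : |∑' i, p i - 1 / √A| ≤ C := h A _ hA0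
  have hQ : ∀ i, |∑' j, q i j - 1 / √B| ≤ C := fun i => h B _ hB0
  have hin : ∀ i, ∑' j, p i * q i j = p i * (1 / √B) + p i * (∑' j, q i j - 1 / √B) := by
    intro i
    rw [tsum_mul_left]
    ring
  have hen : ∀ i, ‖p i * (∑' j, q i j - 1 / √B)‖ ≤ p i * C := by
    intro i
    rw [norm_mul, Real.norm_of_nonneg (hp0 i)]
    exact mul_le_mul_of_nonneg_left (hQ i) (hp0 i)
  have hes : Summable fun i => p i * (∑' j, q i j - 1 / √B) :=
    Summable.of_norm_bounded (hps.mul_right C) hen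
  have hsum : Summable fun x : ℤ × ℤ => p x.1 * q x.1 x.2 := by
    refine (summable_prod_of_nonneg fun x => mul_nonneg (hp0 _) (hq0 _ _)).2
      ⟨fun i => (hqs i).mul_left (p i), ?_⟩
    exact ((hps.mul_right (1 / √B)).add hes).congr fun i => (hin i).symm
  rw [e]
  refine ⟨hsum, ?_⟩
  have hE : |∑' i, p i * (∑' j, q i j - 1 / √B)| ≤ (∑' i, p i) * C :=
    tsum_of_norm_bounded (hps.hasSum.mul_right C) hen
  rw [hsum.tsum_prod' fun i => (hqs i).mul_left (p i), tsum_congr hin,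
    (hps.mul_right (1 / √B)).tsum_add hes, tsum_mul_right]
  have hst : 0 < √t := Real.sqrt_pos.2 ht
  have hsy : 0 < √w.im := Real.sqrt_pos.2 hy0
  have hst2 : √t * √t = t := Real.mul_self_sqrt ht.le
  have hsy2 : √w.im * √w.im = w.im := Real.mul_self_sqrt hy0.le
  have hsA : √A = √t * √w.im * N := by
    rw [hA, Real.sqrt_mul (by positivity), Real.sqrt_mul ht.le, Real.sqrt_sq (by positivity)]
  have hsB : √B = √t * N / √w.im := by
    rw [hB, Real.sqrt_div (by positivity), Real.sqrt_mul ht.le, Real.sqrt_sq (by positivity)]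
  have hAB : 1 / ((N : ℝ) ^ 2 * t) = 1 / √A * (1 / √B) := by
    rw [hsA, hsB]
    field_simp
    rw [Real.sq_sqrt ht.le]
  have hD : 0 < √w.im / √t := by positivity
  have hB1 : 1 / √B ≤ √w.im / √t := by
    rw [hsB, one_div_div]
    exact div_le_div_of_nonneg_left hsy.le hst (le_mul_of_one_le_right hst.le hN1)
  have hA1 : 1 / √A ≤ 2 * (√w.im / √t) := by
    rw [hsA, ← mul_div_assoc, div_le_div_iff₀ (by positivity) hst]
    have h1 : 2 * √w.im * (√t * √w.im * N) = 2 * (√w.im * √w.im) * N * √t := by ring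
    rw [h1, hsy2]
    refine mul_le_mul_of_nonneg_right ?_ hst.le
    nlinarith
  have h1 : 1 ≤ 2 * (√w.im / √t) := by
    rw [← mul_div_assoc, le_div_iff₀ hst]
    have h2 : √t ≤ 1 := Real.sqrt_le_one.2 ht1
    have h3 : 1 / 2 ≤ √w.im := Real.le_sqrt_of_sq_le (by linarith)
    linarith
  have hB2 : 0 ≤ 1 / √B := by positivity
  rw [hAB]
  generalize ∑' i, p i * (∑' j, q i j - 1 / √B) = E at hE ⊢
  generalize ∑' i, p i = P at hE hP ⊢
  generalize 1 / √A = x at hP hA1 ⊢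
  generalize 1 / √B = y at hB1 hB2 ⊢
  generalize √w.im / √t = D at hD hB1 hA1 h1 ⊢
  have h4 : P * y + E - x * y = (P - x) * y + E := by ring
  have h5 : |(P - x) * y| ≤ C * D := by
    rw [abs_mul, abs_of_nonneg hB2]
    exact mul_le_mul hP hB1 hB2 hC
  have h6 : P ≤ 2 * D + C * (2 * D) := by
    have := (abs_le.1 hP).2
    nlinarith
  have h7 : P * C ≤ (2 * D + C * (2 * D)) * C := mul_le_mul_of_nonneg_right h6 hC
  rw [h4]
  calc |(P - x) * y + E| ≤ |(P - x) * y| + |E| := abs_add_le _ _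
    _ ≤ C * D + (2 * D + C * (2 * D)) * C := add_le_add h5 (hE.trans h7)
    _ = (3 * C + 2 * C ^ 2) * D := by ring

end Pool.Agent.Lib.MP_03e5d0_nt.RS
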