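import Pool.Agent.Lib.MP_03e5d0_nt.RSDefs

/-! Polynomial bounds near the line of real part one. -/

set_option autoImplicit false

noncomputable section

namespace Pool.Agent.Lib.MP_03e5d0_nt.RS

open scoped UpperHalfPlane Real MatrixGroups ENNReal Topology
open Complex MeasureTheory Filter

variable {β : ℕ → ℝ} {E : ℂ → ℂ}

/-- Sketch: `norm_tsum_le_tsum_norm`; the norm of the term at `s` is the term at `s.re`. -/
theorem norm_LSeries_le (hβ : ∀ n, 0 ≤ β n) {s : ℂ}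
    (hs : LSeriesSummable (fun n => (β n : ℂ)) (s.re : ℂ)) :
    ‖LSeries (fun n => (β n : ℂ)) s‖ ≤ ‖LSeries (fun n => (β n : ℂ)) (s.re : ℂ)‖ := by
  have h1 : ∀ n, LSeries.term (fun n => (β n : ℂ)) (s.re : ℂ) n =
      ((‖LSeries.term (fun n => (β n : ℂ)) s n‖ : ℝ) : ℂ) := by
    intro n
    rw [LSeries.norm_term_eq, LSeries.term_def]
    split_ifs with hn
    · simp
    · rw [norm_real, Real.norm_of_nonneg (hβ n), ofReal_div, ofReal_cpow (Nat.cast_nonneg n),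
        ofReal_natCast]
  have h2 : Summable fun n => ‖LSeries.term (fun n => (β n : ℂ)) s n‖ := by
    have h3 : Summable fun n => ((‖LSeries.term (fun n => (β n : ℂ)) s n‖ : ℝ) : ℂ) := by
      simp only [← h1]
      exact hs
    exact summable_ofReal.mp h3
  unfold LSeries
  refine (norm_tsum_le_tsum_norm h2).trans ?_
  rw [tsum_congr h1, ← ofReal_tsum, norm_real]
  exact le_abs_self _

/-- Sketch: on the real segment `‖E σ‖ ≤ C` by `h.exp`, so the series at `σ` is at most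
`C / (σ - 1)`. -/
theorem Cont.right (h : Cont β E) : ∃ C : ℝ, 1 ≤ C ∧ ∀ s : ℂ, 1 < s.re → s.re ≤ 4 →
    ‖E s‖ ≤ C * ‖s - 1‖ / (s.re - 1) := by
  obtain ⟨C, hC, H⟩ := h.exp
  refine ⟨C, hC, fun s h1 h4 => ?_⟩
  have h0 : 0 < s.re - 1 := sub_pos.mpr h1
  have a1 := H (s.re : ℂ) (by rw [ofReal_re]; linarith) (by rwa [ofReal_re])
  rw [ofReal_im, abs_zero, mul_zero, Real.exp_zero, mul_one, h.eq _ (by rwa [ofReal_re]), norm_mul,
    ← ofReal_one, ← ofReal_sub, norm_real, Real.norm_of_nonneg h0.le] at a1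
  have a2 := norm_LSeries_le h.nonneg (h.summ (s.re : ℂ) (by rwa [ofReal_re]))
  rw [h.eq s h1, norm_mul, le_div_iff₀ h0]
  have a3 := (mul_le_mul_of_nonneg_left a2 h0.le).trans a1
  have a4 := mul_le_mul_of_nonneg_left a3 (norm_nonneg (s - 1))
  linarith

/-- Three lines. Sketch: fix `s`, `t₀ = s.im`, `T = 2 + |t₀|`, `η = 1 / (4 T)`. If `1 + η ≤ s.re` use
`Cont.right` (`‖s - 1‖ ≤ 3 + |t₀| ≤ 2 T`). Otherwise apply
`Complex.HadamardThreeLines.norm_le_interp_of_mem_verticalClosedStrip'` to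
`G z = E z * exp ((z - t₀ I) ^ 2)` on `3/4 ≤ re ≤ 1 + η`; `‖exp ((z - t₀ I) ^ 2)‖ = exp (x ^ 2 - τ ^ 2)`
with `τ = im z - t₀`. Everywhere `‖G‖ ≤ a = C exp (16 + C ^ 2) exp (C T)` since
`C |τ| - τ ^ 2 ≤ C ^ 2`; on the right edge `‖G‖ ≤ b = 8 C' exp 16 * T ^ 2` since
`1 + |τ| ≤ 2 exp (τ ^ 2)`. The exponent of `a` is in `[0, 8 η]`, `8 η ≤ 1`, `8 η T = 2`, `1 ≤ a`,
`1 ≤ b`. -/
theorem Cont.poly (h : Cont β E) : ∃ C : ℝ, 1 ≤ C ∧ ∀ s : ℂ,
    1 - 1 / (4 * (2 + |s.im|)) ≤ s.re → s.re ≤ 4 → ‖E s‖ ≤ C * (2 + |s.im|) ^ 2 := by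
  obtain ⟨C, hC, H⟩ := h.exp
  obtain ⟨C', hC', H'⟩ := h.right
  have e16 : 1 ≤ Real.exp 16 := Real.one_le_exp (by norm_num)
  have eA : 1 ≤ Real.exp (C + 16 + C ^ 2 + 2 * C) := Real.one_le_exp (by positivity)
  have k1 : 8 * C' ≤ 8 * C' * Real.exp 16 := le_mul_of_one_le_right (by positivity) e16
  have k2 : 8 * C' * Real.exp 16 ≤ Real.exp (C + 16 + C ^ 2 + 2 * C) * (8 * C' * Real.exp 16) :=
    le_mul_of_one_le_left (by positivity) eA
  refine ⟨Real.exp (C + 16 + C ^ 2 + 2 * C) * (8 * C' * Real.exp 16), by linarith,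
    fun s h1 h4 => ?_⟩
  obtain ⟨T, hT⟩ : ∃ T, T = 2 + |s.im| := ⟨_, rfl⟩
  rw [← hT] at h1 ⊢
  have t0 := abs_nonneg s.im
  have t2 : 2 ≤ T := by linarith
  obtain ⟨η, hη⟩ : ∃ η, η = 1 / (4 * T) := ⟨_, rfl⟩
  rw [← hη] at h1
  have η0 : 0 < η := by rw [hη]; positivity
  have ηT : η * T = 1 / 4 := by rw [hη]; field_simp
  have η8 : η ≤ 1 / 8 := by nlinarith
  have hdiv : ∀ z : ℂ, 1 + η ≤ z.re → z.re ≤ 4 → ‖E z‖ ≤ C' * ‖z - 1‖ * (4 * T) := by
    intro z hz hz'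
    refine (H' z (by linarith) hz').trans ?_
    rw [div_le_iff₀ (by linarith), mul_assoc (C' * ‖z - 1‖)]
    refine le_mul_of_one_le_right (by positivity) ?_
    nlinarith
  have hn : ∀ z : ℂ, ‖z - 1‖ ≤ |z.re - 1| + |z.im| := fun z => by
    simpa using norm_le_abs_re_add_abs_im (z - 1)
  rcases le_total (1 + η) s.re with c | c
  · have a1 : ‖s - 1‖ ≤ 2 * T := by
      have := hn s
      rw [abs_of_nonneg (show 0 ≤ s.re - 1 by linarith)] at this
      linarith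
    have a2 : C' * ‖s - 1‖ * (4 * T) ≤ C' * (2 * T) * (4 * T) := by gcongr
    have a3 := mul_le_mul_of_nonneg_right (k1.trans k2) (sq_nonneg T)
    have a4 := hdiv s c h4
    linarith
  let G : ℂ → ℂ := fun z => E z * cexp ((z - s.im * I) ^ 2)
  have hG : ∀ z, ‖G z‖ = ‖E z‖ * Real.exp (z.re ^ 2 - (z.im - s.im) ^ 2) := by
    intro z
    simp only [G]
    rw [norm_mul, norm_exp]
    congr 2
    simp [sq]
  have hA : ∀ z : ℂ, 3 / 4 ≤ z.re → z.re ≤ 1 + η → ‖G z‖ ≤ Real.exp (C + 16 + C ^ 2 + C * T) := by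
    intro z hz hz'
    rw [hG]
    have a1 : C ≤ Real.exp C := by linarith [Real.add_one_le_exp C]
    have a2 := (H z hz (by linarith)).trans (mul_le_mul_of_nonneg_right a1 (Real.exp_pos _).le)
    refine (mul_le_mul_of_nonneg_right a2 (Real.exp_pos _).le).trans ?_
    rw [← Real.exp_add, ← Real.exp_add, Real.exp_le_exp, ← sq_abs (z.im - s.im)]
    have a3 : |z.im| ≤ |z.im - s.im| + T := by
      linarith [abs_sub_abs_le_abs_sub z.im s.im]
    have a4 := mul_le_mul_of_nonneg_left a3 (zero_le_one.trans hC)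
    have a5 : z.re ^ 2 ≤ 16 := by nlinarith
    nlinarith [sq_nonneg (|z.im - s.im| - C), sq_nonneg |z.im - s.im|, sq_nonneg C]
  have hB : ∀ z : ℂ, z.re = 1 + η → ‖G z‖ ≤ 8 * C' * Real.exp 16 * T ^ 2 := by
    intro z hz
    rw [hG]
    have a1 : ‖z - 1‖ ≤ T * (2 * Real.exp ((z.im - s.im) ^ 2)) := by
      have b1 := hn z
      rw [abs_of_nonneg (show 0 ≤ z.re - 1 by linarith)] at b1
      have b2 := abs_sub_abs_le_abs_sub z.im s.im
      have b3 := Real.add_one_le_exp ((z.im - s.im) ^ 2)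
      rw [← sq_abs] at b3 ⊢
      have b4 := abs_nonneg (z.im - s.im)
      generalize |z.im - s.im| = τ at *
      have b5 : 1 + τ ≤ 2 * Real.exp (τ ^ 2) := by nlinarith [sq_nonneg (τ - 1)]
      have b6 := mul_le_mul_of_nonneg_left b5 (show 0 ≤ T by linarith)
      nlinarith
    have a2 : Real.exp ((z.im - s.im) ^ 2) * Real.exp (z.re ^ 2 - (z.im - s.im) ^ 2) ≤
        Real.exp 16 := by
      rw [← Real.exp_add, Real.exp_le_exp]
      nlinarith
    have a3 := hdiv z hz.ge (by linarith)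
    calc _ ≤ C' * (T * (2 * Real.exp ((z.im - s.im) ^ 2))) * (4 * T) *
          Real.exp (z.re ^ 2 - (z.im - s.im) ^ 2) := by
          refine mul_le_mul_of_nonneg_right (a3.trans ?_) (Real.exp_pos _).le
          gcongr
      _ = 8 * C' * (Real.exp ((z.im - s.im) ^ 2) * Real.exp (z.re ^ 2 - (z.im - s.im) ^ 2)) *
          T ^ 2 := by ring
      _ ≤ _ := by gcongr
  have hul : (3 / 4 : ℝ) < 1 + η := by linarith
  have hd : DiffContOnCl ℂ G (HadamardThreeLines.verticalStrip (3 / 4) (1 + η)) := by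
    refine DifferentiableOn.diffContOnCl ?_
    rw [HadamardThreeLines.verticalStrip, closure_preimage_re, closure_Ioo hul.ne]
    refine (h.diff.mono fun z hz => ?_).mul (by fun_prop)
    have : 3 / 4 ≤ z.re := hz.1
    change 1 / 2 < z.re
    linarith
  have key := HadamardThreeLines.norm_le_interp_of_mem_verticalClosedStrip' (f := G) (z := s) hul
    ⟨by linarith, c⟩ hd
    ⟨_, by
      rintro _ ⟨z, hz, rfl⟩
      exact hA z hz.1 hz.2⟩
    (fun z hz => hA z (ge_of_eq hz) ((le_of_eq hz).trans hul.le)) (fun z hz => hB z hz)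
  obtain ⟨θ, hθ⟩ : ∃ θ, θ = (s.re - 3 / 4) / (1 + η - 3 / 4) := ⟨_, rfl⟩
  rw [← hθ, hG, sub_self, ← Real.exp_mul] at key
  have θ1 : θ ≤ 1 := by
    rw [hθ, div_le_one (by linarith)]
    linarith
  have θ2 : 1 - 8 * η ≤ θ := by
    rw [hθ, le_div_iff₀ (by linarith)]
    nlinarith
  have b1 : 1 ≤ 8 * C' * Real.exp 16 * T ^ 2 :=
    one_le_mul_of_one_le_of_one_le (by linarith) (one_le_pow₀ (by linarith))
  have b2 : (8 * C' * Real.exp 16 * T ^ 2) ^ θ ≤ 8 * C' * Real.exp 16 * T ^ 2 := by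
    simpa only [Real.rpow_one] using Real.rpow_le_rpow_of_exponent_le b1 θ1
  have b3 : Real.exp ((C + 16 + C ^ 2 + C * T) * (1 - θ)) ≤ Real.exp (C + 16 + C ^ 2 + 2 * C) := by
    rw [Real.exp_le_exp]
    have c1 : (C + 16 + C ^ 2) * (1 - θ) ≤ C + 16 + C ^ 2 :=
      mul_le_of_le_one_right (by positivity) (by linarith)
    have c2 : T * (1 - θ) ≤ 2 := by nlinarith
    have c3 := mul_le_mul_of_nonneg_left c2 (zero_le_one.trans hC)
    linarith
  have b4 : ‖E s‖ ≤ ‖E s‖ * Real.exp (s.re ^ 2 - 0 ^ 2) :=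
    le_mul_of_one_le_right (norm_nonneg _) (Real.one_le_exp (by nlinarith))
  refine (b4.trans key).trans ((mul_le_mul b3 b2 (by positivity) (Real.exp_pos _).le).trans_eq ?_)
  ring

/-- Sketch: `Complex.norm_deriv_le_of_forall_mem_sphere_norm_le` with radius `ρ = a / (4 T)`,
`T = 2 + |im s|`. On the closed ball `2 + |im z| ≤ 2 T` and `1 - a / (2 T) ≤ re z ≤ b`. -/
theorem cauchy_poly {f : ℂ → ℂ} (hf : DifferentiableOn ℂ f {s | 1 / 2 < s.re}) {a b C : ℝ} {k : ℕ}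
    (ha : 0 < a) (ha' : a ≤ 1 / 4) (hC : 1 ≤ C)
    (h : ∀ s : ℂ, 1 - a / (2 + |s.im|) ≤ s.re → s.re ≤ b → ‖f s‖ ≤ C * (2 + |s.im|) ^ k) :
    ∃ C' : ℝ, 1 ≤ C' ∧ ∀ s : ℂ, 1 - a / 4 / (2 + |s.im|) ≤ s.re → s.re ≤ b - 1 / 4 →
      ‖deriv f s‖ ≤ C' * (2 + |s.im|) ^ (k + 1) := by
  refine ⟨4 * C * 2 ^ k / a, ?_, fun s h1 h2 => ?_⟩
  · rw [le_div_iff₀ ha]
    have : (1 : ℝ) ≤ C * 2 ^ k := one_le_mul_of_one_le_of_one_le hC (one_le_pow₀ one_le_two)
    linarith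
  obtain ⟨T, hT⟩ : ∃ T, T = 2 + |s.im| := ⟨_, rfl⟩
  rw [← hT] at h1 ⊢
  have t0 := abs_nonneg s.im
  have t2 : 2 ≤ T := by linarith
  obtain ⟨ρ, hρ⟩ : ∃ ρ, ρ = a / 4 / T := ⟨_, rfl⟩
  rw [← hρ] at h1
  have ρ0 : 0 < ρ := by rw [hρ]; positivity
  have ρT : ρ * T = a / 4 := by rw [hρ]; field_simp
  have ρ1 : ρ ≤ 1 / 32 := by nlinarith
  have hb : ∀ z ∈ Metric.closedBall s ρ, |z.re - s.re| ≤ ρ ∧ |z.im - s.im| ≤ ρ := by
    intro z hz
    rw [mem_closedBall_iff_norm] at hz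
    exact ⟨(abs_re_le_norm (z - s)).trans hz, (abs_im_le_norm (z - s)).trans hz⟩
  have hd : DiffContOnCl ℂ f (Metric.ball s ρ) := by
    refine DifferentiableOn.diffContOnCl (hf.mono fun z hz => ?_)
    have := abs_le.mp (hb z (Metric.closure_ball_subset_closedBall hz)).1
    change 1 / 2 < z.re
    linarith
  have key := norm_deriv_le_of_forall_mem_sphere_norm_le (C := C * (2 * T) ^ k) ρ0 hd
    fun z hz => by
      obtain ⟨a1, a2⟩ := hb z (Metric.sphere_subset_closedBall hz)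
      have a3 := abs_le.mp a1
      have a4 := abs_sub_abs_le_abs_sub z.im s.im
      have a5 : 2 + |z.im| ≤ 2 * T := by linarith
      have a6 : 2 * ρ ≤ a / (2 + |z.im|) := by
        rw [le_div_iff₀ (by positivity)]
        nlinarith
      refine (h z (by linarith) (by linarith)).trans ?_
      gcongr
  refine key.trans_eq ?_
  rw [hρ]
  field_simp
  ring

/-- Sketch: `cauchy_poly` twice (`DifferentiableOn.deriv`). -/
theorem Cont.deriv_poly (h : Cont β E) : ∃ C : ℝ, 1 ≤ C ∧ ∀ s : ℂ, 1 ≤ s.re → s.re ≤ 3 →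
    ‖deriv E s‖ ≤ C * (2 + |s.im|) ^ 3 ∧ ‖deriv (deriv E) s‖ ≤ C * (2 + |s.im|) ^ 4 := by
  obtain ⟨C, hC, H⟩ := h.poly
  obtain ⟨C₁, hC₁, H₁⟩ := cauchy_poly h.diff (a := 1 / 4) (b := 4) (k := 2) (by norm_num) le_rfl hC
    fun s h1 h2 => H s (by rwa [div_div] at h1) h2
  have hd : DifferentiableOn ℂ (deriv E) {s | 1 / 2 < s.re} :=
    h.diff.deriv (isOpen_lt continuous_const continuous_re)
  obtain ⟨C₂, hC₂, H₂⟩ := cauchy_poly hd (a := 1 / 4 / 4) (b := 4 - 1 / 4) (k := 3) (by norm_num)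
    (by norm_num) hC₁ H₁
  refine ⟨max C₁ C₂, le_max_of_le_left hC₁, fun s h1 h2 => ⟨?_, ?_⟩⟩
  · have : (0 : ℝ) ≤ 1 / 4 / 4 / (2 + |s.im|) := by positivity
    exact (H₁ s (by linarith) (by linarith)).trans
      (mul_le_mul_of_nonneg_right (le_max_left _ _) (by positivity))
  · have : (0 : ℝ) ≤ 1 / 4 / 4 / 4 / (2 + |s.im|) := by positivity
    exact (H₂ s (by linarith) (by linarith)).trans
      (mul_le_mul_of_nonneg_right (le_max_right _ _) (by positivity))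

/-- Sketch: mean value inequality on the horizontal segment
(`Convex.norm_image_sub_le_of_norm_deriv_le` on `segment ℝ s s'`). -/
theorem Cont.lip (h : Cont β E) : ∃ C : ℝ, 1 ≤ C ∧ ∀ s s' : ℂ, s.im = s'.im →
    1 ≤ s.re → s.re ≤ 3 → 1 ≤ s'.re → s'.re ≤ 3 →
    ‖E s' - E s‖ ≤ C * (2 + |s.im|) ^ 3 * ‖s' - s‖ := by
  obtain ⟨C, hC, H⟩ := h.deriv_poly
  refine ⟨C, hC, fun s s' him h1 h2 h3 h4 => ?_⟩
  have hc : Convex ℝ ({z : ℂ | 1 ≤ z.re} ∩ {z : ℂ | z.re ≤ 3} ∩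
      ({z : ℂ | s.im ≤ z.im} ∩ {z : ℂ | z.im ≤ s.im})) :=
    ((convex_halfSpace_re_ge 1).inter (convex_halfSpace_re_le 3)).inter
      ((convex_halfSpace_im_ge s.im).inter (convex_halfSpace_im_le s.im))
  refine hc.norm_image_sub_le_of_norm_deriv_le (fun z hz => ?_) (fun z hz => ?_)
    ⟨⟨h1, h2⟩, le_refl s.im, le_refl s.im⟩ ⟨⟨h3, h4⟩, him.le, him.ge⟩
  · refine h.diff.differentiableAt ((isOpen_lt continuous_const continuous_re).mem_nhds ?_)
    have : 1 ≤ z.re := hz.1.1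
    change 1 / 2 < z.re
    linarith
  · have : s.im = z.im := le_antisymm hz.2.1 hz.2.2
    rw [this]
    exact (H z hz.1.1 hz.1.2).1

end Pool.Agent.Lib.MP_03e5d0_nt.RS
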