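import Pool.Agent.Lib.MP_03e5d0_nt.RSDefs

/-! Matrices and lattice vectors. -/

set_option autoImplicit false

noncomputable section

namespace Pool.Agent.Lib.MP_03e5d0_nt.RS

open scoped UpperHalfPlane Real MatrixGroups ENNReal Topology
open Complex MeasureTheory Filter

/-- Sketch: for `v = 0` take `1`. Otherwise `Int.exists_gcd_one` or
`Int.isCoprime_iff_gcd_eq_one` with `Int.gcd_div_gcd_div_gcd`, and
`ModularGroup.bottom_row_surj` (or write the matrix from the Bezout identity). -/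
theorem exists_isRow (v : ℤ × ℤ) : ∃ γ : SL(2, ℤ), IsRow v γ := by
  rcases Nat.eq_zero_or_pos (Int.gcd v.1 v.2) with h | h
  · obtain ⟨h1, h2⟩ := Int.gcd_eq_zero_iff.1 h
    exact ⟨1, by simp [IsRow, h1, h2]⟩
  · obtain ⟨c, d, h1, h2, h3⟩ := Int.exists_gcd_one h
    obtain ⟨u, w, h4⟩ := Int.isCoprime_iff_gcd_eq_one.2 h1
    refine ⟨⟨!![w, -u; c, d], ?_⟩, h2.trans (mul_comm _ _), h3.trans (mul_comm _ _)⟩
    rw [Matrix.det_fin_two_of]
    linear_combination h4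

/-- A chosen matrix for `v`. -/
def gv (v : ℤ × ℤ) : SL(2, ℤ) := (exists_isRow v).choose

theorem gv_spec (v : ℤ × ℤ) : IsRow v (gv v) := (exists_isRow v).choose_spec

theorem T_zpow_mul_row (j : ℤ) (γ : SL(2, ℤ)) :
    (ModularGroup.T ^ j * γ) 1 0 = γ 1 0 ∧ (ModularGroup.T ^ j * γ) 1 1 = γ 1 1 := by
  rw [ModularGroup.T_pow_mul_apply_one]
  exact ⟨rfl, rfl⟩

/-- Sketch: `γ' * γ⁻¹` has bottom row `(0, 1)`. -/
theorem exists_T_zpow {γ γ' : SL(2, ℤ)} (h0 : γ' 1 0 = γ 1 0) (h1 : γ' 1 1 = γ 1 1) :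
    ∃ j : ℤ, γ' = ModularGroup.T ^ j * γ := by
  have d1 := γ.det_coe
  have d2 := γ'.det_coe
  rw [Matrix.det_fin_two] at d1 d2
  rw [h0, h1] at d2
  refine ⟨γ' 0 1 * γ 0 0 - γ' 0 0 * γ 0 1, ?_⟩
  ext i j
  rw [Matrix.SpecialLinearGroup.coe_mul, ModularGroup.coe_T_zpow, Matrix.mul_apply,
    Fin.sum_univ_two]
  fin_cases i <;> fin_cases j <;> simp
  · linear_combination γ 0 0 * d2 - γ' 0 0 * d1
  · linear_combination γ 0 1 * d2 - γ' 0 1 * d1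
  · exact h0
  · exact h1

/-- Sketch: `Int.gcd_mul_left` and `ModularGroup.bottom_row_coprime`. -/
theorem gcd_mul_row (m : ℕ) (γ : SL(2, ℤ)) : Int.gcd (m * γ 1 0) (m * γ 1 1) = m := by
  rw [Int.gcd_mul_left, Int.isCoprime_iff_gcd_eq_one.1 (ModularGroup.bottom_row_coprime γ)]
  simp

/-- Exactly one translate lies in the strip (`ModularGroup.re_T_zpow_smul`, `j = -⌊re z⌋`). -/
theorem tsum_strip (z : ℍ) :
    ∑' j : ℤ, strip.indicator (1 : ℍ → ℝ≥0∞) (ModularGroup.T ^ j • z) = 1 := by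
  rw [tsum_eq_single (-⌊z.re⌋)]
  · refine Set.indicator_of_mem (s := strip) ?_ _
    simp only [strip, Set.mem_ofPred_eq, ModularGroup.re_T_zpow_smul]
    push_cast
    constructor <;> linarith [Int.floor_le z.re, Int.lt_floor_add_one z.re]
  · refine fun j hj => Set.indicator_of_notMem (fun h => hj ?_) _
    simp only [strip, Set.mem_ofPred_eq, ModularGroup.re_T_zpow_smul] at h
    have : ⌊z.re⌋ = -j := Int.floor_eq_iff.2 (by
      push_cast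
      constructor <;> linarith [h.1, h.2])
    omega

/-- Sketch: the map `(v, j) ↦ (T ^ j * gv v, gcd v)` is injective and its range contains all
`(γ, m)` with `m ≠ 0` (`Function.Injective.tsum_eq`); then `ENNReal.tsum_prod'`, `tsum_strip`. -/
theorem tsum_rows {F : ℍ → ℝ≥0∞} (hF : ∀ (j : ℤ) (z : ℍ), F (ModularGroup.T ^ j • z) = F z)
    {ω : ℕ → ℝ≥0∞} (hω : ω 0 = 0) (K : ℤ × ℤ → ℝ≥0∞) (w : ℍ) :
    ∑' γ : SL(2, ℤ), strip.indicator (1 : ℍ → ℝ≥0∞) (γ • w) * F (γ • w) *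
        ∑' m : ℕ, ω m * K (m * γ 1 0, m * γ 1 1) =
      ∑' v : ℤ × ℤ, ω (Int.gcd v.1 v.2) * F (gv v • w) * K v := by
  let φ : (ℤ × ℤ) × ℤ → SL(2, ℤ) × ℕ := fun p =>
    (ModularGroup.T ^ p.2 * gv p.1, Int.gcd p.1.1 p.1.2)
  let G : SL(2, ℤ) × ℕ → ℝ≥0∞ := fun p =>
    strip.indicator (1 : ℍ → ℝ≥0∞) (p.1 • w) * F (p.1 • w) *
      (ω p.2 * K (p.2 * p.1 1 0, p.2 * p.1 1 1))
  have hrow : ∀ p : (ℤ × ℤ) × ℤ,
      (((φ p).2 : ℤ) * (φ p).1 1 0, ((φ p).2 : ℤ) * (φ p).1 1 1) = p.1 := fun p => by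
    simp only [φ, (T_zpow_mul_row _ _).1, (T_zpow_mul_row _ _).2]
    exact Prod.ext (gv_spec p.1).1.symm (gv_spec p.1).2.symm
  have hinj : Function.Injective φ := by
    rintro ⟨v, j⟩ ⟨v', j'⟩ h
    have h1 : v = v' := by
      have := hrow (v, j)
      rw [h, hrow] at this
      exact this.symm
    subst h1
    have h2 := congrArg (fun γ : SL(2, ℤ) => γ.1 0 1) (mul_right_cancel (congrArg Prod.fst h))
    simp only [ModularGroup.coe_T_zpow] at h2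
    simpa using h2
  have hsup : Function.support G ⊆ Set.range φ := by
    rintro ⟨γ, m⟩ h
    have hm : (m : ℤ) ≠ 0 := by
      intro h0
      have : m = 0 := by exact_mod_cast h0
      exact h (by simp [G, this, hω])
    obtain ⟨h1, h2⟩ := gv_spec (m * γ 1 0, m * γ 1 1)
    simp only [gcd_mul_row] at h1 h2
    obtain ⟨j, hj⟩ := exists_T_zpow (mul_left_cancel₀ hm h1) (mul_left_cancel₀ hm h2)
    exact ⟨((m * γ 1 0, m * γ 1 1), j), Prod.ext hj.symm (gcd_mul_row m γ)⟩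
  have h1 := hinj.tsum_eq hsup
  rw [ENNReal.tsum_prod' (f := G), ENNReal.tsum_prod' (f := fun p => G (φ p))] at h1
  simp only [← ENNReal.tsum_mul_left]
  refine h1.symm.trans (tsum_congr fun v => ?_)
  have h2 : ∀ j : ℤ, G (φ (v, j)) =
      strip.indicator (1 : ℍ → ℝ≥0∞) (ModularGroup.T ^ j • gv v • w) *
        (ω (Int.gcd v.1 v.2) * F (gv v • w) * K v) := fun j => by
    simp only [G]
    rw [hrow]
    simp only [φ, mul_smul, hF]
    ring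
  rw [tsum_congr h2, ENNReal.tsum_mul_right, tsum_strip, one_mul]

theorem rsmat_cop {N : ℕ} {a b a' b' : ℤ} (ha : (N : ℤ) ∣ a - a') (hb : (N : ℤ) ∣ b - b')
    (h : (Int.gcd a' b').Coprime N) : (Int.gcd a b).Coprime N := by
  have h1 : ((Nat.gcd (Int.gcd a b) N : ℕ) : ℤ) ∣ N :=
    Int.natCast_dvd_natCast.2 (Nat.gcd_dvd_right _ _)
  have h2 : ((Nat.gcd (Int.gcd a b) N : ℕ) : ℤ) ∣ (Int.gcd a b : ℕ) :=
    Int.natCast_dvd_natCast.2 (Nat.gcd_dvd_left _ _)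
  have h3 := (dvd_sub_right (h2.trans (Int.gcd_dvd_left a b))).1 (h1.trans ha)
  have h4 := (dvd_sub_right (h2.trans (Int.gcd_dvd_right a b))).1 (h1.trans hb)
  exact Nat.eq_one_of_dvd_coprimes h (Int.dvd_gcd h3 h4) (Nat.gcd_dvd_right _ _)

theorem coprime_gcd_congr {N : ℕ} (r q : ℤ × ℤ) :
    (Int.gcd (N * q.1 + r.1) (N * q.2 + r.2)).Coprime N ↔ (Int.gcd r.1 r.2).Coprime N := by
  exact ⟨rsmat_cop ⟨-q.1, by ring⟩ ⟨-q.2, by ring⟩, rsmat_cop ⟨q.1, by ring⟩ ⟨q.2, by ring⟩⟩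

/-- Sketch: with `v = m (c, d)`, `r = m' (c', d')`: the entry is `c d' - d c'`, and
`m m' (c d' - d c') = v.1 r.2 - v.2 r.1` is divisible by `N`. -/
theorem dvd_row {N : ℕ} (r q : ℤ × ℤ) (hr : (Int.gcd r.1 r.2).Coprime N) :
    (N : ℤ) ∣ (gv (N * q.1 + r.1, N * q.2 + r.2) * (gv r)⁻¹) 1 0 := by
  obtain ⟨h1, h2⟩ := gv_spec (N * q.1 + r.1, N * q.2 + r.2)
  obtain ⟨h3, h4⟩ := gv_spec r
  have h5 := (coprime_gcd_congr r q).2 hr
  have h6 := Nat.isCoprime_iff_coprime.2 (h5.mul_left hr).symm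
  simp only at h1 h2
  generalize gv (N * q.1 + r.1, N * q.2 + r.2) = γ at *
  generalize Int.gcd (N * q.1 + r.1) (N * q.2 + r.2) = m at *
  generalize gv r = δ at *
  generalize Int.gcd r.1 r.2 = m' at *
  have e : (γ * δ⁻¹) 1 0 = γ 1 0 * δ 1 1 - γ 1 1 * δ 1 0 := by
    simp [Matrix.SpecialLinearGroup.coe_inv, Matrix.adjugate_fin_two, Matrix.mul_apply,
      Fin.sum_univ_two, sub_eq_add_neg]
  rw [e]
  refine h6.dvd_of_dvd_mul_left ⟨q.1 * r.2 - q.2 * r.1, ?_⟩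
  push_cast
  linear_combination (-r.2) * h1 + r.1 * h2 - (m * γ 1 0) * h4 + (m * γ 1 1) * h3

theorem rsmat_bij {N : ℕ} (hN : 1 ≤ N) :
    Function.Bijective fun p : Fin N × ℤ => (N : ℤ) * p.2 + ((p.1 : ℕ) : ℤ) := by
  have hN' : (0 : ℤ) < N := by exact_mod_cast hN
  refine ⟨fun p p' h => ?_, fun a => ?_⟩
  · have h1 := congrArg (· % (N : ℤ)) h
    simp only [Int.mul_add_emod_self_left] at h1
    rw [Int.emod_eq_of_lt (by positivity) (by exact_mod_cast p.1.2),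
      Int.emod_eq_of_lt (by positivity) (by exact_mod_cast p'.1.2)] at h1
    simp only [h1, add_left_inj] at h
    exact Prod.ext (Fin.ext (by exact_mod_cast h1)) (mul_left_cancel₀ hN'.ne' h)
  · have h1 := Int.emod_nonneg a hN'.ne'
    have h2 := Int.emod_lt_of_pos a hN'
    refine ⟨(⟨(a % N).toNat, by omega⟩, a / N), ?_⟩
    simp only [Int.toNat_of_nonneg h1]
    exact Int.mul_ediv_add_emod a N

/-- Sketch: the map `(r, q) ↦ (N q.1 + r.1, N q.2 + r.2)` is a bijection (`Int.ediv`, `Int.emod`,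
or `Int.divModEquiv`); `ENNReal.tsum_prod'`, `tsum_fintype`, `ENNReal.tsum_mul_left`. -/
theorem tsum_classes {N : ℕ} (hN : 1 ≤ N) (u K : ℤ × ℤ → ℝ≥0∞)
    (hu : ∀ r q : ℤ × ℤ, u (N * q.1 + r.1, N * q.2 + r.2) = u r) :
    ∑' v : ℤ × ℤ, u v * K v =
      ∑ r : Fin N × Fin N, u (((r.1 : ℕ) : ℤ), ((r.2 : ℕ) : ℤ)) *
        ∑' q : ℤ × ℤ, K (N * q.1 + ((r.1 : ℕ) : ℤ), N * q.2 + ((r.2 : ℕ) : ℤ)) := by
  let e := Equiv.ofBijective _ (rsmat_bij hN)
  rw [← ((Equiv.prodProdProdComm (Fin N) (Fin N) ℤ ℤ).trans (e.prodCongr e)).tsum_eq,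
    ENNReal.tsum_prod', tsum_fintype]
  refine Finset.sum_congr rfl fun r _ => ?_
  rw [← ENNReal.tsum_mul_left]
  refine tsum_congr fun q => ?_
  rw [← hu (((r.1 : ℕ) : ℤ), ((r.2 : ℕ) : ℤ)) q]
  rfl

/-- Sketch: `ModularGroup.im_smul_eq_div_normSq`, `ModularGroup.denom_apply`. -/
theorem gs_row (t : ℝ) (w : ℍ) (γ : SL(2, ℤ)) (m : ℕ) :
    Real.exp (-(π * (m : ℝ) ^ 2) * (t / (γ • w).im)) = gs t w (m * γ 1 0, m * γ 1 1) := by
  have e : Complex.normSq ((((m : ℤ) * γ 1 0 : ℤ) : ℂ) * w + (((m : ℤ) * γ 1 1 : ℤ) : ℂ)) =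
      (m : ℝ) ^ 2 * Complex.normSq (UpperHalfPlane.denom γ w) := by
    rw [ModularGroup.denom_apply, sq, ← Complex.normSq_natCast, ← map_mul]
    congr 1
    push_cast
    ring
  rw [gs, ModularGroup.im_smul_eq_div_normSq, e, div_div_eq_mul_div]
  congr 1
  ring

end Pool.Agent.Lib.MP_03e5d0_nt.RS
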