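import Pool.Agent.Lib.MP_03e5d0_nt.RSDefs

/-! The Parseval identity. -/

set_option autoImplicit false

noncomputable section

namespace Pool.Agent.Lib.MP_03e5d0_nt.RS

open scoped UpperHalfPlane Real MatrixGroups ENNReal Topology
open Complex MeasureTheory Filter

theorem rspv_norm (n : ℕ) (x : ℝ) : ‖cexp (2 * π * I * n * x)‖ = 1 := by
  rw [Complex.norm_exp]
  simp

theorem rspv_orth (m n : ℕ) :
    ∫ x in Set.Ico (0 : ℝ) 1, cexp (2 * π * I * m * x) * (starRingEnd ℂ) (cexp (2 * π * I * n * x)) =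
      if m = n then 1 else 0 := by
  have e : ∀ x : ℝ, cexp (2 * π * I * m * x) * (starRingEnd ℂ) (cexp (2 * π * I * n * x)) =
      cexp ((((m : ℤ) - n : ℤ) * (2 * π * I)) * x) := by
    intro x
    rw [← Complex.exp_conj, ← Complex.exp_add]
    congr 1
    simp only [map_mul, conj_ofReal, conj_I, map_natCast, map_ofNat]
    push_cast
    ring
  simp only [e]
  split_ifs with h
  · simp [h]
  · rw [integral_Ico_eq_integral_Ioo, ← integral_Ioc_eq_integral_Ioo,
      ← intervalIntegral.integral_of_le zero_le_one, integral_exp_mul_complex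
        (mul_ne_zero (Int.cast_ne_zero.2 (by omega)) two_pi_I_ne_zero),
      ofReal_one, mul_one, exp_int_mul_two_pi_mul_I]
    simp

/-- Abstract Parseval identity. Sketch: `(‖∑ a n e(n x)‖ ^ 2 : ℂ) = ∑_{(m,n)} a m conj (a n) e((m-n) x)`
(`tsum_mul_tsum_of_summable_norm`), integrate termwise over `Set.Ico 0 1`
(`hasSum_integral_of_summable_integral_norm` or `integral_tsum`), `∫_0^1 e(k x) = 0` for `k ≠ 0`
(`integral_exp_mul_complex`, `Complex.exp_int_mul_two_pi_mul_I`); the sum over `ℕ × ℕ` is supported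
on the diagonal (`Function.Injective.tsum_eq`). The function of `x` is continuous
(`continuous_tsum`). -/
theorem parseval {a : ℕ → ℂ} (ha : Summable fun n => ‖a n‖) :
    ∫⁻ x in Set.Ico (0 : ℝ) 1, ENNReal.ofReal (‖∑' n : ℕ, a n * cexp (2 * π * I * n * x)‖ ^ 2) =
      ENNReal.ofReal (∑' n : ℕ, ‖a n‖ ^ 2) := by
  have hn : ∀ (n : ℕ) (x : ℝ), ‖a n * cexp (2 * π * I * n * x)‖ = ‖a n‖ := fun n x => by
    rw [norm_mul, rspv_norm, mul_one]
  have hc : Continuous fun x : ℝ => ∑' n : ℕ, a n * cexp (2 * π * I * n * x) :=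
    continuous_tsum (fun n => by fun_prop) ha fun n x => (hn n x).le
  have hI : ∀ {f : ℝ → ℂ}, Continuous f → IntegrableOn f (Set.Ico (0 : ℝ) 1) := fun hf =>
    (hf.integrableOn_Icc).mono_set Set.Ico_subset_Icc_self
  have h1 := hasSum_integral_of_summable_integral_norm (μ := volume.restrict (Set.Ico (0 : ℝ) 1))
    (F := fun (p : ℕ × ℕ) (x : ℝ) => a p.1 * cexp (2 * π * I * p.1 * x) *
      (starRingEnd ℂ) (a p.2 * cexp (2 * π * I * p.2 * x)))
    (fun p => hI (Continuous.mul (by fun_prop) (continuous_conj.comp (by fun_prop))))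
    (by
      simp only [norm_mul _ ((starRingEnd ℂ) _), norm_conj, hn]
      simpa using ha.mul_of_nonneg ha (fun _ => norm_nonneg _) fun _ => norm_nonneg _)
  have h2 : ∀ x : ℝ, ∑' p : ℕ × ℕ, a p.1 * cexp (2 * π * I * p.1 * x) *
      (starRingEnd ℂ) (a p.2 * cexp (2 * π * I * p.2 * x)) =
      ((‖∑' n : ℕ, a n * cexp (2 * π * I * n * x)‖ ^ 2 : ℝ) : ℂ) := by
    intro x
    rw [← tsum_mul_tsum_of_summable_norm (f := fun n : ℕ => a n * cexp (2 * π * I * n * x))
      (g := fun n : ℕ => (starRingEnd ℂ) (a n * cexp (2 * π * I * n * x)))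
      (by simpa only [hn] using ha) (by simpa only [norm_conj, hn] using ha), ← conj_tsum,
      mul_conj', ofReal_pow]
  have h3 : ∀ p : ℕ × ℕ, ∫ x in Set.Ico (0 : ℝ) 1, a p.1 * cexp (2 * π * I * p.1 * x) *
      (starRingEnd ℂ) (a p.2 * cexp (2 * π * I * p.2 * x)) =
      a p.1 * (starRingEnd ℂ) (a p.2) * if p.1 = p.2 then 1 else 0 := by
    intro p
    rw [← rspv_orth, ← integral_const_mul]
    simp only [map_mul (starRingEnd ℂ) (a p.2), mul_mul_mul_comm (a p.1)]
  simp only [h2, h3] at h1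
  rw [integral_complex_ofReal] at h1
  have hinj : Function.Injective fun n : ℕ => (n, n) := fun _ _ h => congrArg Prod.fst h
  have h4 := (hinj.hasSum_iff fun p hp => by
    rw [if_neg fun h => hp ⟨p.1, Prod.ext rfl h⟩, mul_zero]).2 h1
  have h5 : HasSum (fun n => ‖a n‖ ^ 2) (∫ x in Set.Ico (0 : ℝ) 1,
      ‖∑' n : ℕ, a n * cexp (2 * π * I * n * x)‖ ^ 2) := by
    refine hasSum_ofReal.1 (h4.congr fun s => Finset.sum_congr rfl fun n _ => ?_)
    simp [mul_conj']
  rw [h5.tsum_eq]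
  exact (ofReal_integral_eq_lintegral_ofReal
    (((hc.norm.pow 2).integrableOn_Icc).mono_set Set.Ico_subset_Icc_self)
    (Eventually.of_forall fun x => sq_nonneg _)).symm

end Pool.Agent.Lib.MP_03e5d0_nt.RS
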