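import Pool.Agent.Lib.MP_03e5d0_nt.RSDefs

/-! Unfolding on the upper half plane. -/

set_option autoImplicit false

noncomputable section

namespace Pool.Agent.Lib.MP_03e5d0_nt.RS

open scoped UpperHalfPlane Real MatrixGroups ENNReal Topology
open Complex MeasureTheory Filter

instance countable_SL : Countable SL(2, ℤ) := by
  have : Countable (Matrix (Fin 2) (Fin 2) ℤ) :=
    inferInstanceAs (Countable (Fin 2 → Fin 2 → ℤ))
  exact inferInstanceAs (Countable {A : Matrix (Fin 2) (Fin 2) ℤ // A.det = 1})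

theorem meas_smul (γ : SL(2, ℤ)) : Measurable fun z : ℍ => γ • z :=
  (continuous_const_smul (Matrix.SpecialLinearGroup.toGL
    (Matrix.SpecialLinearGroup.map (Int.castRingHom ℝ) γ))).measurable

/-- Sketch: `measurePreserving_smul` for the image of `γ` in `GL (Fin 2) ℝ`. -/
theorem lintegral_smul (γ : SL(2, ℤ)) {F : ℍ → ℝ≥0∞} (hF : Measurable F) :
    ∫⁻ z, F (γ • z) = ∫⁻ z, F z := by
  exact (measurePreserving_smul (Matrix.SpecialLinearGroup.toGL
    (Matrix.SpecialLinearGroup.map (Int.castRingHom ℝ) γ)) (volume : Measure ℍ)).lintegral_comp hF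

theorem pt_coe (x : ℝ) {y : ℝ} (hy : 0 < y) : (pt x y : ℂ) = x + y * I := by
  rw [pt, UpperHalfPlane.ofComplex_apply_of_im_pos (by simpa using hy)]

theorem pt_re (x : ℝ) {y : ℝ} (hy : 0 < y) : (pt x y).re = x := by
  rw [← UpperHalfPlane.coe_re, pt_coe x hy]
  simp

theorem pt_im (x : ℝ) {y : ℝ} (hy : 0 < y) : (pt x y).im = y := by
  rw [← UpperHalfPlane.coe_im, pt_coe x hy]
  simp

/-- Sketch: `UpperHalfPlane.ofComplex_apply_eq_ite`, or `measurable_of_restrict_of_restrict_compl`;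
`ofComplex` is continuous on the open half plane and constant outside. -/
theorem meas_ofComplex : Measurable fun w : ℂ => UpperHalfPlane.ofComplex w := by
  rw [← UpperHalfPlane.measurableEmbedding_coe.measurable_comp_iff]
  have e : (UpperHalfPlane.coe ∘ fun w : ℂ => UpperHalfPlane.ofComplex w) = fun w : ℂ =>
      if 0 < w.im then w else ((Classical.choice inferInstance : ℍ) : ℂ) := by
    funext w
    rw [Function.comp_apply, UpperHalfPlane.ofComplex_apply_eq_ite]
    split_ifs <;> rfl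
  rw [e]
  exact Measurable.ite (measurableSet_lt measurable_const Complex.measurable_im) measurable_id
    measurable_const

/-- Sketch: `UpperHalfPlane.volume_def`, `lintegral_withDensity_eq_lintegral_mul`,
`MeasurableEmbedding.lintegral_map` with `map_comap` (write `G z = G (ofComplex z)`),
`Complex.volume_preserving_equiv_real_prod`, `lintegral_prod_symm`. -/
theorem lintegral_pt {G : ℍ → ℝ≥0∞} (hG : Measurable G) :
    ∫⁻ z, G z =
      ∫⁻ y in Set.Ioi (0 : ℝ), (∫⁻ x : ℝ, G (pt x y)) * ENNReal.ofReal (1 / y ^ 2) := by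
  let H : ℂ → ℝ≥0∞ := fun w => G (UpperHalfPlane.ofComplex w) * ENNReal.ofReal (1 / w.im ^ 2)
  have hH : Measurable H := (hG.comp meas_ofComplex).mul (by fun_prop)
  have e1 : (fun z : ℍ => (((1 / NNReal.mk z.im z.im_pos.le : NNReal) ^ 2 : NNReal) : ℝ≥0∞)) =
      fun z : ℍ => ENNReal.ofReal (1 / (z : ℂ).im ^ 2) := by
    funext z
    rw [← ENNReal.ofReal_coe_nnreal]
    simp
  have e2 : Complex.measurableEquivRealProd.symm ⁻¹' Set.range UpperHalfPlane.coe =
      Set.univ ×ˢ Set.Ioi (0 : ℝ) := by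
    ext p
    simp [UpperHalfPlane.range_coe]
  have e3 : ∀ x y : ℝ, Complex.measurableEquivRealProd.symm (x, y) = (x : ℂ) + y * I :=
    fun x y => by
      apply Complex.ext <;> simp
  rw [UpperHalfPlane.volume_def, e1, lintegral_withDensity_eq_lintegral_mul _ (by fun_prop) hG]
  calc _ = ∫⁻ z : ℍ, H z ∂(volume.comap UpperHalfPlane.coe) :=
        lintegral_congr fun z => by simp only [H, Pi.mul_apply, UpperHalfPlane.ofComplex_apply,
          mul_comm]
    _ = ∫⁻ w in Set.range UpperHalfPlane.coe, H w := by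
        rw [← UpperHalfPlane.measurableEmbedding_coe.lintegral_map,
          UpperHalfPlane.measurableEmbedding_coe.map_comap]
    _ = _ := by
        rw [← (Complex.volume_preserving_equiv_real_prod.symm _).setLIntegral_comp_preimage_emb
          Complex.measurableEquivRealProd.symm.measurableEmbedding, e2, Measure.volume_eq_prod,
          ← Measure.prod_restrict, Measure.restrict_univ,
          lintegral_prod_symm (fun a => H (Complex.measurableEquivRealProd.symm a))
          (hH.comp Complex.measurableEquivRealProd.symm.measurable).aemeasurable]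
        refine lintegral_congr fun y => ?_
        rw [← lintegral_mul_const _ (f := fun x : ℝ => G (pt x y))
          (hG.comp (meas_ofComplex.comp (by fun_prop)))]
        refine lintegral_congr fun x => ?_
        simp [H, e3, pt]

theorem meas_strip : MeasurableSet strip := by
  have h : Measurable fun z : ℍ => z.re := UpperHalfPlane.continuous_re.measurable
  exact (measurableSet_le measurable_const h).inter (measurableSet_lt h measurable_const)

/-- Copy `finite_fd` of the file GWt2 in the library of `MP_88d29b_nt` (in outputs/live). -/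
theorem finite_fd (z : ℍ) : {γ : SL(2, ℤ) | γ • z ∈ ModularGroup.fd}.Finite := by
  obtain ⟨g₀, h₀⟩ := ModularGroup.exists_smul_mem_fd z
  let T := ModularGroup.T
  let S := ModularGroup.S
  let F : Set SL(2, ℤ) := {1, -1, T, -T, T⁻¹, -T⁻¹, S, -S, T * S, -(T * S), T⁻¹ * S * T⁻¹,
    -(T⁻¹ * S * T⁻¹), S * T⁻¹, -(S * T⁻¹), S * T, -(S * T), T * S * T, -(T * S * T), T⁻¹ * S,
    -(T⁻¹ * S)}
  have hF : F.Finite := Set.toFinite _
  refine (hF.image fun h => h * g₀).subset fun g hg => ⟨g * g₀⁻¹, ?_, by simp⟩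
  have h1 : (g * g₀⁻¹) • g₀ • z ∈ ModularGroup.fd := by
    rw [smul_smul, inv_mul_cancel_right]
    exact hg
  have := ModularGroup.cases_of_mem_fd_smul_mem_fd h₀ h1
  simp only [F, T, S, Set.mem_insert_iff, Set.mem_singleton_iff]
  generalize g * g₀⁻¹ = u at this
  rcases this with (h | h) | ⟨h | h, -⟩ | ⟨h | h, -⟩ | ⟨h | h, -⟩ | ⟨h | h, -⟩ | ⟨h | h, -⟩ |
    ⟨h | h, -⟩ | ⟨h | h, -⟩ | ⟨h | h, -⟩ | ⟨h | h, -⟩ <;> simp only [h, true_or, or_true]

/-- Copy the proof of `exists_wt_top` of the file GWt2 in the library of `MP_88d29b_nt` (in outputs/live). -/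
theorem exists_wt : ∃ ψ : ℍ → ℝ≥0∞, Measurable ψ ∧ (∀ z : ℍ, ∑' γ : SL(2, ℤ), ψ (γ • z) = 1) ∧
    ∀ z, ψ z ≤ ModularGroup.fd.indicator 1 z := by
  let χ : ℍ → ℝ≥0∞ := ModularGroup.fd.indicator 1
  have hD : MeasurableSet ModularGroup.fd := ModularGroup.isClosed_fd.measurableSet
  have hχ : Measurable χ := measurable_one.indicator hD
  let n : ℍ → ℝ≥0∞ := fun z => ∑' g : SL(2, ℤ), χ (g • z)
  have hn : Measurable n := Measurable.tsum fun g => hχ.comp (meas_smul g)
  have hinv : ∀ (a : SL(2, ℤ)) (z : ℍ), n (a • z) = n z := fun a z => by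
    simp only [n, smul_smul]
    exact (Equiv.mulRight a).tsum_eq fun g => χ (g • z)
  have h1 : ∀ z, 1 ≤ n z := fun z => by
    obtain ⟨g, hg⟩ := ModularGroup.exists_smul_mem_fd z
    refine le_trans (le_of_eq ?_) (ENNReal.le_tsum g)
    exact (Set.indicator_of_mem hg (1 : ℍ → ℝ≥0∞)).symm
  have h2 : ∀ z, n z ≠ ⊤ := fun z => by
    have e : n z = ∑ g ∈ (finite_fd z).toFinset, χ (g • z) := by
      refine tsum_eq_sum fun g hg => ?_
      have h3 : g • z ∉ ModularGroup.fd := fun h => hg ((finite_fd z).mem_toFinset.2 h)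
      exact Set.indicator_of_notMem h3 (1 : ℍ → ℝ≥0∞)
    rw [e]
    refine ENNReal.sum_ne_top.2 fun g _ => ?_
    exact ne_top_of_le_ne_top ENNReal.one_ne_top (Set.indicator_le_self _ _ (g • z))
  refine ⟨fun z => χ z * (n z)⁻¹, hχ.mul hn.inv, fun z => ?_,
    fun z => mul_le_of_le_one_right' (ENNReal.inv_le_one.2 (h1 z))⟩
  simp only [hinv]
  rw [ENNReal.tsum_mul_right]
  exact ENNReal.mul_inv_cancel (lt_of_lt_of_le zero_lt_one (h1 z)).ne' (h2 z)

/-- Sketch: `∫ G = ∑_γ ∫ ψ (γ⁻¹ z) G z = ∑_γ ∫ ψ w G (γ w)` (`lintegral_tsum`, `Equiv.inv`). -/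
theorem unfold {ψ : ℍ → ℝ≥0∞} (hψ : Measurable ψ)
    (h1 : ∀ z : ℍ, ∑' γ : SL(2, ℤ), ψ (γ • z) = 1) {G : ℍ → ℝ≥0∞} (hG : Measurable G) :
    ∫⁻ z, G z = ∫⁻ w, ψ w * ∑' γ : SL(2, ℤ), G (γ • w) := by
  have e : ∀ z : ℍ, G z = ∑' γ : SL(2, ℤ), ψ (γ⁻¹ • z) * G z := fun z => by
    rw [ENNReal.tsum_mul_right]
    have := (Equiv.inv SL(2, ℤ)).tsum_eq fun γ => ψ (γ • z)
    rw [h1] at this
    exact (one_mul _).symm.trans (congrArg (· * G z) this.symm)
  simp only [← ENNReal.tsum_mul_left]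
  rw [lintegral_congr e,
    lintegral_tsum (f := fun (γ : SL(2, ℤ)) (z : ℍ) => ψ (γ⁻¹ • z) * G z)
      fun γ => ((hψ.comp (meas_smul γ⁻¹)).mul hG).aemeasurable,
    lintegral_tsum (f := fun (γ : SL(2, ℤ)) (z : ℍ) => ψ z * G (γ • z))
      fun γ => (hψ.mul (hG.comp (meas_smul γ))).aemeasurable]
  refine tsum_congr fun γ => ?_
  rw [← lintegral_smul γ (F := fun z : ℍ => ψ (γ⁻¹ • z) * G z)
    ((hψ.comp (meas_smul γ⁻¹)).mul hG)]
  simp only [inv_smul_smul]

theorem half_le_im {z : ℍ} (hz : z ∈ ModularGroup.fd) : 1 / 2 ≤ z.im := by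
  have h1 := ModularGroup.three_le_four_mul_im_sq_of_mem_fd hz
  nlinarith [z.im_pos]

/-- Sketch: `lintegral_pt`; the inner integral is at most `√y` for `1 / 2 ≤ y` and zero otherwise;
`∫_{1/2}^∞ y ^ (-3/2) < ∞` (`integrableOn_Ioi_rpow_of_lt`). -/
theorem lintegral_fd_sqrt :
    ∫⁻ z, ModularGroup.fd.indicator (fun z : ℍ => ENNReal.ofReal (√z.im)) z ≠ ⊤ := by
  have h0 : Measurable fun z : ℍ => ENNReal.ofReal (√z.im) :=
    (UpperHalfPlane.continuous_im.sqrt).measurable.ennreal_ofReal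
  rw [lintegral_pt (h0.indicator ModularGroup.isClosed_fd.measurableSet)]
  have h2 : IntegrableOn (fun t : ℝ => t ^ (-(3 / 2) : ℝ)) (Set.Ioi (1 / 4 : ℝ)) :=
    integrableOn_Ioi_rpow_of_lt (by norm_num) (by norm_num)
  refine ne_top_of_le_ne_top h2.lintegral_lt_top.ne ?_
  rw [← lintegral_indicator measurableSet_Ioi (s := Set.Ioi (1 / 4 : ℝ))]
  refine le_trans (setLIntegral_mono' measurableSet_Ioi fun y hy => ?_)
    (setLIntegral_le_lintegral (Set.Ioi 0) _)
  have hy' : (0 : ℝ) < y := hy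
  by_cases h3 : y ∈ Set.Ioi (1 / 4 : ℝ)
  · have h4 : ∫⁻ x : ℝ, ModularGroup.fd.indicator (fun z : ℍ => ENNReal.ofReal (√z.im)) (pt x y) ≤
        ENNReal.ofReal (√y) := by
      refine (lintegral_mono (g := (Set.Icc (-(1 / 2) : ℝ) (1 / 2)).indicator
        fun _ => ENNReal.ofReal (√y)) fun x => ?_).trans (by
          rw [lintegral_indicator_const measurableSet_Icc, Real.volume_Icc]
          norm_num)
      by_cases h5 : pt x y ∈ ModularGroup.fd
      · rw [Set.indicator_of_mem h5, pt_im x hy',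
          Set.indicator_of_mem (Set.mem_Icc.2 (abs_le.1 (pt_re x hy' ▸ h5.2)))]
      · rw [Set.indicator_of_notMem h5]
        exact zero_le
    rw [Set.indicator_of_mem h3]
    refine (mul_le_mul_left h4 _).trans (le_of_eq ?_)
    rw [← ENNReal.ofReal_mul (Real.sqrt_nonneg y), Real.sqrt_eq_rpow, mul_one_div,
      ← Real.rpow_natCast, ← Real.rpow_sub hy']
    norm_num
  · have h4 : ∀ x : ℝ, ModularGroup.fd.indicator (fun z : ℍ => ENNReal.ofReal (√z.im))
        (pt x y) = 0 := fun x => Set.indicator_of_notMem (fun h5 => h3 (by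
      have h6 := half_le_im h5
      rw [pt_im x hy'] at h6
      exact lt_of_lt_of_le (by norm_num) h6)) _
    simp [h4]

end Pool.Agent.Lib.MP_03e5d0_nt.RS
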