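import Pool.Agent.Lib.MP_03e5d0_nt.RSSer
import Pool.Agent.Lib.MP_03e5d0_nt.RSUnf
import Pool.Agent.Lib.MP_03e5d0_nt.RSPv

/-! First properties of the invariant function. -/

set_option autoImplicit false

noncomputable section

namespace Pool.Agent.Lib.MP_03e5d0_nt.RS

open scoped UpperHalfPlane Real MatrixGroups ENNReal Topology
open Complex MeasureTheory Filter

variable {N : ℕ} {g : ℍ → ℂ} {c : ℕ → ℂ}

theorem rspar_split (a : ℂ) (n : ℕ) (x y : ℝ) : a * cexp (2 * π * I * n * (x + y * I)) =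
    a * (Real.exp (-(2 * π * n) * y) : ℂ) * cexp (2 * π * I * n * x) := by
  rw [mul_assoc a, ofReal_exp, ← Complex.exp_add]
  congr 2
  push_cast
  linear_combination (2 * π * n * y : ℂ) * I_mul_I

theorem rspar_norm (n : ℕ) (x : ℝ) : ‖cexp (2 * π * I * n * x)‖ = 1 := by
  have : (2 * π * I * n * x : ℂ) = ((2 * π * n * x : ℝ) : ℂ) * I := by push_cast; ring
  rw [this, norm_exp_ofReal_mul_I]

theorem rspar_sq (r : ℝ) (n : ℕ) (y : ℝ) :
    (r * Real.exp (-(2 * π * n) * y)) ^ 2 = r ^ 2 * Real.exp (-(4 * π * n) * y) := by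
  rw [mul_pow, sq (Real.exp _), ← Real.exp_add]
  congr 2
  ring

theorem rspar_pos (h : CF N g c) (n : ℕ) : ‖c n‖ ^ 2 = 0 ∨ 0 < 4 * π * n := by
  rcases Nat.eq_zero_or_pos n with rfl | hn
  · simp [h.zero]
  · exact Or.inr (by positivity)

theorem CF.mono (h : CF N g c) {M : ℕ} (hM : N ∣ M) : CF M g c := by
  exact ⟨fun a b c' d h1 h2 => h.inv a b c' d h1 ((Int.natCast_dvd_natCast.2 hM).trans h2), h.bdd,
    h.zero, h.sum⟩

/-- Sketch: `g` is the pointwise limit of the finite sums (`measurable_of_tendsto_metrizable`,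
`HasSum.tendsto_sum_nat`). -/
theorem CF.meas (h : CF N g c) : Measurable g := by
  refine measurable_of_tendsto_metrizable
    (f := fun k (z : ℍ) => ∑ n ∈ Finset.range k, c n * cexp (2 * π * I * n * z)) (fun k => ?_)
    (tendsto_pi_nhds.2 fun z => (h.sum z).tendsto_sum_nat)
  refine Continuous.measurable ?_
  have := UpperHalfPlane.continuous_coe
  fun_prop

theorem CF.meas_FF (h : CF N g c) : Measurable (FF g) := by
  exact (UpperHalfPlane.continuous_im.measurable.mul h.meas.norm).pow_const 2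

theorem FF_nonneg (g : ℍ → ℂ) (z : ℍ) : 0 ≤ FF g z := by
  exact sq_nonneg _

theorem CF.FF_le (h : CF N g c) : ∃ B : ℝ, 0 ≤ B ∧ ∀ z, FF g z ≤ B := by
  obtain ⟨C, hC⟩ := h.bdd
  exact ⟨C ^ 2, sq_nonneg _, fun z =>
    pow_le_pow_left₀ (mul_nonneg z.im_pos.le (norm_nonneg _)) (hC z) 2⟩

/-- Sketch: `UpperHalfPlane.specialLinearGroup_apply` (or `ModularGroup.sl_moeb`, `coe_smul_of_det_pos`)
for the formula of `γ • z`, `ModularGroup.im_smul_eq_div_normSq`, `h.inv`. -/
theorem CF.FF_smul (h : CF N g c) {γ : SL(2, ℤ)} (hγ : (N : ℤ) ∣ γ 1 0) (z : ℍ) :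
    FF g (γ • z) = FF g z := by
  have hd : γ 0 0 * γ 1 1 - γ 0 1 * γ 1 0 = 1 := by
    have := γ.det_coe
    rwa [Matrix.det_fin_two] at this
  have h1 := h.inv (γ 0 0) (γ 0 1) (γ 1 0) (γ 1 1) hd hγ z (γ • z) (by
    rw [UpperHalfPlane.coe_specialLinearGroup_apply]
    simp)
  have h2 : (γ • z).im = z.im / ‖((γ 1 0 : ℤ) : ℂ) * z + (γ 1 1 : ℤ)‖ ^ 2 := by
    rw [ModularGroup.im_smul_eq_div_normSq, ModularGroup.denom_apply, normSq_eq_norm_sq]
  have h3 : ‖((γ 1 0 : ℤ) : ℂ) * z + (γ 1 1 : ℤ)‖ ≠ 0 := fun h0 => by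
    have := (γ • z).im_pos
    rw [h2, h0] at this
    simp at this
  rw [FF, FF, h1, h2, norm_mul, norm_pow]
  congr 1
  field_simp

theorem CF.FF_T (h : CF N g c) (j : ℤ) (z : ℍ) : FF g (ModularGroup.T ^ j • z) = FF g z := by
  refine h.FF_smul ?_ z
  have : (ModularGroup.T ^ j) 1 0 = 0 := by
    rw [ModularGroup.coe_T_zpow]
    simp
  rw [this]
  exact dvd_zero _

/-- Sketch: `h.sum (pt 0 y)`, `summable_norm_iff`. -/
theorem CF.summable_norm (h : CF N g c) {y : ℝ} (hy : 0 < y) :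
    Summable fun n : ℕ => ‖c n‖ * Real.exp (-(2 * π * n) * y) := by
  refine (summable_norm_iff.2 (h.sum (pt 0 y)).summable).congr fun n => ?_
  rw [pt_coe 0 hy, rspar_split, norm_mul, norm_mul, rspar_norm, mul_one, norm_real,
    Real.norm_of_nonneg (Real.exp_pos _).le]

/-- Sketch: the square of the previous series (a summable nonnegative sequence is bounded). -/
theorem CF.summable_sq (h : CF N g c) {y : ℝ} (hy : 0 < y) :
    Summable fun n : ℕ => ‖c n‖ ^ 2 * Real.exp (-(4 * π * n) * y) := by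
  have h1 := h.summable_norm hy
  refine Summable.of_nonneg_of_le (fun n => by positivity) (fun n => ?_)
    (h1.mul_left (∑' n : ℕ, ‖c n‖ * Real.exp (-(2 * π * n) * y)))
  rw [← rspar_sq, sq]
  exact mul_le_mul_of_nonneg_right (h1.le_tsum n fun _ _ => by positivity) (by positivity)

theorem CF.parseval (h : CF N g c) {y : ℝ} (hy : 0 < y) :
    ∫⁻ x in Set.Ico (0 : ℝ) 1, ENNReal.ofReal (‖g (pt x y)‖ ^ 2) = ENNReal.ofReal (Sq c y) := by
  have hn : ∀ n : ℕ, ‖c n * (Real.exp (-(2 * π * n) * y) : ℂ)‖ =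
      ‖c n‖ * Real.exp (-(2 * π * n) * y) := fun n => by
    rw [norm_mul, norm_real, Real.norm_of_nonneg (Real.exp_pos _).le]
  have h1 := RS.parseval (a := fun n : ℕ => c n * (Real.exp (-(2 * π * n) * y) : ℂ))
    ((h.summable_norm hy).congr fun n => (hn n).symm)
  simp only [hn, rspar_sq] at h1
  refine Eq.trans (lintegral_congr fun x => ?_) h1
  rw [← (h.sum (pt x y)).tsum_eq, pt_coe x hy]
  simp only [rspar_split]

/-- Sketch: `‖g (pt x y)‖ ^ 2 ≤ B / y ^ 2` and `CF.parseval`. -/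
theorem CF.Sq_le_two (h : CF N g c) : ∃ B : ℝ, 0 ≤ B ∧ ∀ y : ℝ, 0 < y → Sq c y ≤ B / y ^ 2 := by
  obtain ⟨B, hB, H⟩ := h.FF_le
  refine ⟨B, hB, fun y hy => ?_⟩
  rw [← ENNReal.ofReal_le_ofReal_iff (by positivity), ← h.parseval hy]
  refine (lintegral_mono (g := fun _ => ENNReal.ofReal (B / y ^ 2))
    fun x => ENNReal.ofReal_le_ofReal ?_).trans (by simp)
  have := H (pt x y)
  rw [FF, pt_im x hy, mul_pow] at this
  rwa [le_div_iff₀' (by positivity)]

/-- Sketch: `∑_{k ≤ n} ‖c k‖ ^ 2 ≤ e ^ (4 π) Sq c (1 / n) ≤ C n ^ 2`, then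
`LSeriesSummable_of_sum_norm_bigO_and_nonneg` at `s + 1`; the terms agree
(`Complex.cpow_add`, `LSeries.term`). -/
theorem CF.lsummable (h : CF N g c) {s : ℂ} (hs : 1 < s.re) :
    LSeriesSummable (fun n => ((‖c n‖ ^ 2 / n : ℝ) : ℂ)) s := by
  obtain ⟨B, hB, H⟩ := h.Sq_le_two
  have h1 : LSeriesSummable (fun n => ((‖c n‖ ^ 2 : ℝ) : ℂ)) (s + 1) := by
    refine LSeriesSummable_of_sum_norm_bigO_and_nonneg (r := 2) ?_ (fun n => sq_nonneg _)
      zero_le_two (by rw [add_re, one_re]; linarith)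
    refine Asymptotics.IsBigO.of_bound (Real.exp (4 * π) * B) ?_
    filter_upwards [eventually_gt_atTop 0] with n hn
    have hn' : (0 : ℝ) < n := by exact_mod_cast hn
    have h2 := H (1 / n) (by positivity)
    have h3 := (h.summable_sq (y := 1 / n) (by positivity)).sum_le_tsum (Finset.Icc 1 n)
      fun _ _ => by positivity
    rw [Real.norm_of_nonneg (by positivity), Real.norm_of_nonneg (by positivity), Real.rpow_two]
    calc ∑ k ∈ Finset.Icc 1 n, ‖c k‖ ^ 2 ≤ ∑ k ∈ Finset.Icc 1 n,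
          Real.exp (4 * π) * (‖c k‖ ^ 2 * Real.exp (-(4 * π * k) * (1 / n))) := by
          refine Finset.sum_le_sum fun k hk => ?_
          have h4 : (k : ℝ) * (1 / n) ≤ 1 := by
            rw [mul_one_div, div_le_one hn']
            exact_mod_cast (Finset.mem_Icc.1 hk).2
          rw [mul_left_comm, ← Real.exp_add]
          refine le_mul_of_one_le_right (sq_nonneg _) (Real.one_le_exp ?_)
          nlinarith [Real.pi_pos]
      _ ≤ Real.exp (4 * π) * (B / (1 / n) ^ 2) := by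
          rw [← Finset.mul_sum]
          exact mul_le_mul_of_nonneg_left (h3.trans h2) (Real.exp_pos _).le
      _ = _ := by field_simp
  refine Summable.congr h1 fun n => ?_
  rcases eq_or_ne n 0 with rfl | hn
  · simp
  · have hn' : (n : ℂ) ≠ 0 := by exact_mod_cast hn
    rw [LSeries.term_of_ne_zero hn, LSeries.term_of_ne_zero hn, cpow_add _ _ hn', cpow_one]
    push_cast
    rw [div_div, mul_comm]

theorem rspar_summ (h : CF N g c) {σ : ℝ} (hσ : 1 < σ) :
    Summable fun n : ℕ => ‖c n‖ ^ 2 / (4 * π * n) ^ (σ + 1) := by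
  have h1 := (summable_norm_iff.2 (h.lsummable (s := σ) (by simpa using hσ))).mul_left
    ((4 * π) ^ (σ + 1))⁻¹
  refine h1.congr fun n => ?_
  rcases Nat.eq_zero_or_pos n with rfl | hn
  · simp [h.zero]
  · have hn' : (0 : ℝ) < n := by exact_mod_cast hn
    rw [LSeries.norm_term_eq, if_neg hn.ne', norm_real, Real.norm_of_nonneg (by positivity),
      ofReal_re, Real.mul_rpow (x := 4 * π) (by positivity) hn'.le, Real.rpow_add_one hn'.ne']
    field_simp

/-- Sketch: `A = 2` is `Sq_le_two`; for `3 ≤ A` use `es_bound` and `lsummable` at `s = A - 1`. -/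
theorem CF.Sq_le (h : CF N g c) (A : ℕ) (hA : 2 ≤ A) :
    ∃ C : ℝ, ∀ y : ℝ, 0 < y → |Sq c y| ≤ C / y ^ A := by
  have h0 : ∀ y, |Sq c y| = Sq c y := fun y => abs_of_nonneg (es_nonneg (fun n => sq_nonneg _) y)
  simp only [h0]
  rcases hA.eq_or_lt with rfl | hA
  · obtain ⟨B, -, H⟩ := h.Sq_le_two
    exact ⟨B, H⟩
  · have h1 : (2 : ℝ) < A := by exact_mod_cast hA
    have h2 := rspar_summ h (σ := A - 1) (by linarith)
    simp only [sub_add_cancel, Real.rpow_natCast] at h2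
    exact ⟨_, fun y hy => (es_bound (fun n => sq_nonneg _) (rspar_pos h) h2 hy).2⟩

theorem CF.Sq_cont (h : CF N g c) : ContinuousOn (Sq c) (Set.Ioi 0) := by
  exact es_cont (fun n => sq_nonneg _) (fun n => by positivity) fun y hy => h.summable_sq hy

/-- Sketch: `es_mellin`. -/
theorem CF.Sq_mellin (h : CF N g c) {s : ℂ} (hs : 1 < s.re) :
    mellin (fun y => (Sq c y : ℂ)) (s + 1) = Gamma (s + 1) * ((4 * π : ℝ) : ℂ) ^ (-(s + 1)) *
      LSeries (fun n => ((‖c n‖ ^ 2 / n : ℝ) : ℂ)) s := by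
  have h1 := es_mellin (fun n => sq_nonneg ‖c n‖) (rspar_pos h) (fun y hy => h.summable_sq hy)
    (s := s + 1) (by rw [add_re, one_re]; linarith) (by
      rw [add_re, one_re]; exact rspar_summ h hs)
  refine h1.unique ?_
  have h2 := (h.lsummable hs).hasSum.mul_left (Gamma (s + 1) * ((4 * π : ℝ) : ℂ) ^ (-(s + 1)))
  refine (congrArg (fun f => HasSum f _) (funext fun n => ?_)).mp h2
  rcases eq_or_ne n 0 with rfl | hn
  · simp [h.zero]
  · have hn' : (n : ℂ) ≠ 0 := by exact_mod_cast hn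
    rw [LSeries.term_of_ne_zero hn, ofReal_mul (4 * π), mul_cpow_ofReal_nonneg (by positivity)
      (Nat.cast_nonneg n), cpow_neg, ofReal_natCast, cpow_add _ _ hn', cpow_one]
    push_cast
    ring

end Pool.Agent.Lib.MP_03e5d0_nt.RS
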