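import Pool.Agent.Lib.MP_03e5d0_nt.RSTh
import Pool.Agent.Lib.MP_03e5d0_nt.RSLat
import Pool.Agent.Lib.MP_03e5d0_nt.RSMat

/-! The asymptotics of the unfolded integral. -/

set_option autoImplicit false

noncomputable section

namespace Pool.Agent.Lib.MP_03e5d0_nt.RS

open scoped UpperHalfPlane Real MatrixGroups ENNReal Topology
open Complex MeasureTheory Filter

variable {N : ℕ} {g : ℍ → ℂ} {c : ℕ → ℂ}

/-- The weight of a lattice vector. -/
def wv (g : ℍ → ℂ) (N : ℕ) (w : ℍ) (v : ℤ × ℤ) : ℝ≥0∞ :=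
  ENNReal.ofReal (ind N (Int.gcd v.1 v.2)) * ENNReal.ofReal (FF g (gv v • w))

/-- Sketch: `coprime_gcd_congr`, `dvd_row`, `CF.FF_smul`. -/
theorem CF.wv_per (h : CF N g c) (w : ℍ) (r q : ℤ × ℤ) :
    wv g N w (N * q.1 + r.1, N * q.2 + r.2) = wv g N w r := by
  unfold wv ind
  by_cases hr : (Int.gcd r.1 r.2).Coprime N
  · have h1 := (coprime_gcd_congr r q).2 hr
    have h2 := h.FF_smul (dvd_row r q hr) (gv r • w)
    rw [smul_smul, inv_mul_cancel_right] at h2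
    rw [if_pos h1, if_pos hr, h2]
  · have h1 : ¬ (Int.gcd (N * q.1 + r.1) (N * q.2 + r.2)).Coprime N :=
      fun h' => hr ((coprime_gcd_congr r q).1 h')
    rw [if_neg h1, if_neg hr, ENNReal.ofReal_zero, zero_mul, zero_mul]

/-- Sketch: `gs_row`, `tsum_rows`, `tsum_classes`. -/
theorem CF.tsum_GG (h : CF N g c) (hN : 2 ≤ N) (t : ℝ) (w : ℍ) :
    ∑' γ : SL(2, ℤ), GG g N t (γ • w) =
      ∑ r : Fin N × Fin N, wv g N w (((r.1 : ℕ) : ℤ), ((r.2 : ℕ) : ℤ)) *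
        ∑' q : ℤ × ℤ, ENNReal.ofReal
          (gs t w (N * q.1 + ((r.1 : ℕ) : ℤ), N * q.2 + ((r.2 : ℕ) : ℤ))) := by
  have e1 := tsum_rows (F := fun z => ENNReal.ofReal (FF g z))
    (fun j z => by simp only [h.FF_T j z]) (ω := fun m => ENNReal.ofReal (ind N m))
    (by simp only [ind_zero hN, ENNReal.ofReal_zero]) (fun v => ENNReal.ofReal (gs t w v)) w
  have e2 := tsum_classes (le_trans one_le_two hN) (wv g N w) (fun v => ENNReal.ofReal (gs t w v))
    (h.wv_per w)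
  rw [← e2]
  refine Eq.trans ?_ e1
  refine tsum_congr fun γ => ?_
  unfold GG
  simp only [gs_row]

/-- The total weight. -/
def AA (g : ℍ → ℂ) (N : ℕ) (w : ℍ) : ℝ≥0∞ :=
  ∑ r : Fin N × Fin N, wv g N w (((r.1 : ℕ) : ℤ), ((r.2 : ℕ) : ℤ))

theorem CF.meas_AA (h : CF N g c) : Measurable (AA g N) := by
  unfold AA wv
  refine Finset.measurable_sum _ fun r _ => ?_
  exact measurable_const.mul (ENNReal.measurable_ofReal.comp (h.meas_FF.comp (meas_smul _)))

theorem CF.AA_le (h : CF N g c) : ∃ B : ℝ, 0 ≤ B ∧ ∀ w, AA g N w ≤ ENNReal.ofReal B := by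
  obtain ⟨B, hB, hle⟩ := h.FF_le
  refine ⟨∑ _r : Fin N × Fin N, B, Finset.sum_nonneg fun _ _ => hB, fun w => ?_⟩
  rw [ENNReal.ofReal_sum_of_nonneg fun _ _ => hB]
  refine Finset.sum_le_sum fun r _ => ?_
  unfold wv
  calc _ ≤ 1 * ENNReal.ofReal B := by
        refine mul_le_mul' ?_ (ENNReal.ofReal_le_ofReal (hle _))
        rw [← ENNReal.ofReal_one]
        exact ENNReal.ofReal_le_ofReal (ind_le _ _)
    _ = _ := one_mul _

/-- Pointwise comparison. Sketch: `tsum_GG`, `gauss_two`, `ENNReal.ofReal_tsum_of_nonneg`. -/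
theorem CF.tsum_GG_le (h : CF N g c) (hN : 2 ≤ N) : ∃ C : ℝ, 0 ≤ C ∧ ∀ (t : ℝ) (w : ℍ), 0 < t →
    t ≤ 1 → 1 / 2 ≤ w.im →
    (∑' γ : SL(2, ℤ), GG g N t (γ • w) ≤ AA g N w * ENNReal.ofReal (1 / (N ^ 2 * t)) +
      AA g N w * ENNReal.ofReal (√w.im) * ENNReal.ofReal (C / √t)) ∧
    AA g N w * ENNReal.ofReal (1 / (N ^ 2 * t)) ≤ ∑' γ : SL(2, ℤ), GG g N t (γ • w) +
      AA g N w * ENNReal.ofReal (√w.im) * ENNReal.ofReal (C / √t) := by
  obtain ⟨C, hC, hg⟩ := gauss_two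
  refine ⟨C, hC, fun t w ht ht1 hw => ?_⟩
  have key : ∀ r : ℤ × ℤ,
      (∑' q : ℤ × ℤ, ENNReal.ofReal (gs t w (N * q.1 + r.1, N * q.2 + r.2)) ≤
        ENNReal.ofReal (1 / (N ^ 2 * t)) + ENNReal.ofReal (√w.im) * ENNReal.ofReal (C / √t)) ∧
      ENNReal.ofReal (1 / (N ^ 2 * t)) ≤
        ∑' q : ℤ × ℤ, ENNReal.ofReal (gs t w (N * q.1 + r.1, N * q.2 + r.2)) +
          ENNReal.ofReal (√w.im) * ENNReal.ofReal (C / √t) := by
    intro r
    obtain ⟨hs, hb⟩ := hg N (le_trans one_le_two hN) t w r ht ht1 hw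
    have h0 : ∀ q : ℤ × ℤ, 0 ≤ gs t w (N * q.1 + r.1, N * q.2 + r.2) := fun q =>
      (Real.exp_pos _).le
    have e : C * (√w.im / √t) = √w.im * (C / √t) := by ring
    rw [← ENNReal.ofReal_tsum_of_nonneg h0 hs, ← ENNReal.ofReal_mul (Real.sqrt_nonneg _), ← e]
    have h1 := abs_le.1 hb
    constructor
    · exact le_trans (ENNReal.ofReal_le_ofReal (by linarith [h1.2])) ENNReal.ofReal_add_le
    · exact le_trans (ENNReal.ofReal_le_ofReal (by linarith [h1.1])) ENNReal.ofReal_add_le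
  rw [h.tsum_GG hN]
  unfold AA
  simp only [Finset.sum_mul, ← Finset.sum_add_distrib, mul_assoc, ← mul_add]
  constructor
  · exact Finset.sum_le_sum fun r _ => mul_le_mul' le_rfl (key (_, _)).1
  · exact Finset.sum_le_sum fun r _ => mul_le_mul' le_rfl (key (_, _)).2

/-- Sketch: take `ψ` from `exists_wt`, `K₀ = ∫ ψ AA`, `K₁ = ∫ ψ AA √im`. Then `K₁ < ∞` by
`lintegral_fd_sqrt`, `K₀ ≤ 2 K₁` and `K₀ = 0 → K₁ = 0`. By `unfold`, `lintegral_GG`, `tsum_GG_le`: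
`Th t ≤ K₀ / (N ^ 2 t) + K₁ C / √t` and `K₀ / (N ^ 2 t) ≤ Th t + K₁ C / √t`. Take
`κ = K₀.toReal / N ^ 2`; if `κ = 0` then `Th 1 ≤ 0`, against `Th_pos`. -/
theorem CF.pole (h : CF N g c) (hN : 2 ≤ N) :
    ∃ κ : ℝ, Pole (Th c N) κ ∧ ((∃ n, c n ≠ 0) → κ ≠ 0) := by
  obtain ⟨ψ, hψ, h1, hle⟩ := exists_wt
  obtain ⟨C, hC, hcmp⟩ := h.tsum_GG_le hN
  obtain ⟨B, hB, hAA⟩ := h.AA_le
  have hfd : ∀ w : ℍ, ψ w ≠ 0 → w ∈ ModularGroup.fd := fun w hw => by
    by_contra hn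
    have := hle w
    rw [Set.indicator_of_notMem hn] at this
    exact hw (le_antisymm this zero_le)
  have hsq : Measurable fun w : ℍ => ENNReal.ofReal (√w.im) :=
    ENNReal.measurable_ofReal.comp
      (Real.continuous_sqrt.comp UpperHalfPlane.continuous_im).measurable
  have hm0 : Measurable fun w => ψ w * AA g N w := hψ.mul h.meas_AA
  have hm1 : Measurable fun w : ℍ => ψ w * AA g N w * ENNReal.ofReal (√w.im) := hm0.mul hsq
  obtain ⟨K₀, hK₀⟩ : ∃ K, K = ∫⁻ w, ψ w * AA g N w := ⟨_, rfl⟩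
  obtain ⟨K₁, hK₁⟩ : ∃ K, K = ∫⁻ w : ℍ, ψ w * AA g N w * ENNReal.ofReal (√w.im) := ⟨_, rfl⟩
  have hfin1 : K₁ ≠ ⊤ := by
    refine ne_top_of_le_ne_top (ENNReal.mul_ne_top (ENNReal.ofReal_ne_top (r := B))
      lintegral_fd_sqrt) ?_
    rw [hK₁, ← lintegral_const_mul' _ _ ENNReal.ofReal_ne_top]
    refine lintegral_mono fun w => ?_
    by_cases hw : ψ w = 0
    · simp only [hw, zero_mul, zero_le]
    · have h2 := hle w
      rw [Set.indicator_of_mem (hfd w hw)] at h2 ⊢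
      refine mul_le_mul' ?_ le_rfl
      calc ψ w * AA g N w ≤ 1 * ENNReal.ofReal B := mul_le_mul' h2 (hAA w)
        _ = _ := one_mul _
  have hfin0 : K₀ ≠ ⊤ := by
    refine ne_top_of_le_ne_top (ENNReal.mul_ne_top hfin1 (ENNReal.ofReal_ne_top (r := 2))) ?_
    rw [hK₀, hK₁, ← lintegral_mul_const _ hm1]
    refine lintegral_mono fun w => ?_
    by_cases hw : ψ w = 0
    · simp only [hw, zero_mul, zero_le]
    · have h2 := half_le_im (hfd w hw)
      have h3 : (1 / 2 : ℝ) ≤ √w.im := Real.le_sqrt_of_sq_le (by linarith)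
      have h4 : (1 : ℝ≥0∞) ≤ ENNReal.ofReal (√w.im) * ENNReal.ofReal 2 := by
        rw [← ENNReal.ofReal_mul (Real.sqrt_nonneg _), ← ENNReal.ofReal_one]
        exact ENNReal.ofReal_le_ofReal (by linarith)
      calc ψ w * AA g N w = ψ w * AA g N w * 1 := (mul_one _).symm
        _ ≤ ψ w * AA g N w * (ENNReal.ofReal (√w.im) * ENNReal.ofReal 2) := mul_le_mul' le_rfl h4
        _ = _ := (mul_assoc _ _ _).symm
  have hzero : K₀ = 0 → K₁ = 0 := fun h0 => by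
    rw [hK₀, lintegral_eq_zero_iff hm0] at h0
    rw [hK₁, lintegral_eq_zero_iff hm1]
    filter_upwards [h0] with w hw
    simp only [Pi.zero_apply] at hw ⊢
    rw [hw, zero_mul]
  have hmain : ∀ t : ℝ, 0 < t → t ≤ 1 →
      (ENNReal.ofReal (Th c N t) ≤ K₀ * ENNReal.ofReal (1 / (N ^ 2 * t)) +
        K₁ * ENNReal.ofReal (C / √t)) ∧
      K₀ * ENNReal.ofReal (1 / (N ^ 2 * t)) ≤ ENNReal.ofReal (Th c N t) +
        K₁ * ENNReal.ofReal (C / √t) := by
    intro t ht ht1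
    rw [← h.lintegral_GG hN ht, unfold hψ h1 (h.meas_GG t), hK₀, hK₁, ← lintegral_mul_const _ hm0,
      ← lintegral_mul_const _ hm1, ← lintegral_add_right _ (hm1.mul_const _),
      ← lintegral_add_right _ (hm1.mul_const _)]
    constructor
    · refine lintegral_mono fun w => ?_
      by_cases hw : ψ w = 0
      · simp only [hw, zero_mul, zero_le]
      · have h2 := mul_le_mul' (le_refl (ψ w)) (hcmp t w ht ht1 (half_le_im (hfd w hw))).1
        simpa only [mul_add, mul_assoc] using h2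
    · refine lintegral_mono fun w => ?_
      by_cases hw : ψ w = 0
      · simp only [hw, zero_mul, zero_le]
      · have h2 := mul_le_mul' (le_refl (ψ w)) (hcmp t w ht ht1 (half_le_im (hfd w hw))).2
        simpa only [mul_add, mul_assoc] using h2
  have hNpos : (0 : ℝ) < N := by exact_mod_cast lt_of_lt_of_le two_pos hN
  have hreal : ∀ t : ℝ, 0 < t → t ≤ 1 →
      |Th c N t - K₀.toReal / N ^ 2 / t| ≤ K₁.toReal * C / √t := by
    intro t ht ht1
    obtain ⟨h2, h3⟩ := hmain t ht ht1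
    have p1 : (0 : ℝ) ≤ 1 / (N ^ 2 * t) := by positivity
    have p2 : (0 : ℝ) ≤ C / √t := by positivity
    have p3 := h.Th_nonneg hN t
    rw [← ENNReal.ofReal_toReal hfin0, ← ENNReal.ofReal_toReal hfin1,
      ← ENNReal.ofReal_mul ENNReal.toReal_nonneg, ← ENNReal.ofReal_mul ENNReal.toReal_nonneg,
      ← ENNReal.ofReal_add (by positivity) (by positivity),
      ENNReal.ofReal_le_ofReal_iff (by positivity)] at h2 h3
    have e1 : K₀.toReal / N ^ 2 / t = K₀.toReal * (1 / (N ^ 2 * t)) := by field_simp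
    have e2 : K₁.toReal * C / √t = K₁.toReal * (C / √t) := by ring
    rw [e1, e2, abs_le]
    constructor <;> linarith
  refine ⟨K₀.toReal / N ^ 2, ⟨h.Th_anti hN, ⟨_, hreal⟩, h.Th_top hN⟩, fun hc hκ => ?_⟩
  have h0 : K₀ = 0 := by
    rcases div_eq_zero_iff.1 hκ with h2 | h2
    · rcases (ENNReal.toReal_eq_zero_iff _).1 h2 with h3 | h3
      · exact h3
      · exact absurd h3 hfin0
    · exact absurd h2 (by positivity)
  have h2 := hreal 1 one_pos le_rfl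
  rw [hκ, hzero h0] at h2
  have h3 := h.Th_pos hN hc one_pos
  simp only [zero_div, sub_zero, ENNReal.toReal_zero, zero_mul] at h2
  linarith [le_abs_self (Th c N 1)]

end Pool.Agent.Lib.MP_03e5d0_nt.RS
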