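import Pool.Agent.Lib.MP_03e5d0_nt.RSDefs

/-! Series of exponentials. -/

set_option autoImplicit false

noncomputable section

namespace Pool.Agent.Lib.MP_03e5d0_nt.RS

open scoped UpperHalfPlane Real MatrixGroups ENNReal Topology
open Complex MeasureTheory Filter

variable {a p : ℕ → ℝ}

/-- Sketch: `x ^ A / A ! ≤ exp x` (`Real.pow_div_factorial_le_exp`), so
`exp (-p y) ≤ A ! / (p y) ^ A` termwise. -/
theorem es_bound (ha : ∀ n, 0 ≤ a n) (hp : ∀ n, a n = 0 ∨ 0 < p n) {A : ℕ}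
    (hs : Summable fun n => a n / p n ^ A) {y : ℝ} (hy : 0 < y) :
    Summable (fun n => a n * Real.exp (-p n * y)) ∧
      ES a p y ≤ (A.factorial * ∑' n, a n / p n ^ A) / y ^ A := by
  have key : ∀ n, a n * Real.exp (-p n * y) ≤ A.factorial * (a n / p n ^ A) / y ^ A := fun n => by
    rcases hp n with h | h
    · simp [h]
    · have h1 := Real.pow_div_factorial_le_exp (p n * y) (mul_pos h hy).le A
      have h2 : (0 : ℝ) < A.factorial := by exact_mod_cast A.factorial_pos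
      have h3 : Real.exp (-p n * y) ≤ A.factorial / (p n * y) ^ A := by
        rw [neg_mul, Real.exp_neg, ← inv_div]
        exact inv_anti₀ (by positivity) h1
      refine (mul_le_mul_of_nonneg_left h3 (ha n)).trans (le_of_eq ?_)
      rw [mul_pow]
      field_simp
  have h1 := (hs.mul_left (A.factorial : ℝ)).div_const (y ^ A)
  have h2 := Summable.of_nonneg_of_le (fun n => mul_nonneg (ha n) (Real.exp_pos _).le) key h1
  refine ⟨h2, (h2.tsum_le_tsum key h1).trans (le_of_eq ?_)⟩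
  rw [tsum_div_const, tsum_mul_left]

theorem es_nonneg (ha : ∀ n, 0 ≤ a n) (y : ℝ) : 0 ≤ ES a p y := by
  exact tsum_nonneg fun n => mul_nonneg (ha n) (Real.exp_pos _).le

theorem es_pos (ha : ∀ n, 0 ≤ a n) {y : ℝ} (hs : Summable fun n => a n * Real.exp (-p n * y))
    {n : ℕ} (hn : 0 < a n) : 0 < ES a p y := by
  exact hs.tsum_pos (fun n => mul_nonneg (ha n) (Real.exp_pos _).le) n
    (mul_pos hn (Real.exp_pos _))

theorem rsser_le (ha : ∀ n, 0 ≤ a n) (hp : ∀ n, 0 ≤ p n) {x y : ℝ} (h : x ≤ y) (n : ℕ) :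
    a n * Real.exp (-p n * y) ≤ a n * Real.exp (-p n * x) :=
  mul_le_mul_of_nonneg_left (Real.exp_le_exp.2
    (mul_le_mul_of_nonpos_left h (neg_nonpos.2 (hp n)))) (ha n)

theorem es_anti (ha : ∀ n, 0 ≤ a n) (hp : ∀ n, 0 ≤ p n)
    (hs : ∀ y : ℝ, 0 < y → Summable fun n => a n * Real.exp (-p n * y)) :
    AntitoneOn (ES a p) (Set.Ioi 0) := by
  exact fun x hx y hy h => (hs y hy).tsum_le_tsum (fun n => rsser_le ha hp h n) (hs x hx)

/-- Sketch: at `y₀ > 0` use `continuousOn_tsum` on `Set.Ioi (y₀ / 2)` with the majorant at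
`y₀ / 2`. -/
theorem es_cont (ha : ∀ n, 0 ≤ a n) (hp : ∀ n, 0 ≤ p n)
    (hs : ∀ y : ℝ, 0 < y → Summable fun n => a n * Real.exp (-p n * y)) :
    ContinuousOn (ES a p) (Set.Ioi 0) := by
  intro y hy
  have h2 : 0 < y / 2 := half_pos hy
  refine ((continuousOn_tsum (s := Set.Ioi (y / 2)) (fun n => by fun_prop) (hs _ h2)
    fun n x hx => ?_).continuousAt (Ioi_mem_nhds (half_lt_self hy))).continuousWithinAt
  rw [Real.norm_of_nonneg (mul_nonneg (ha n) (Real.exp_pos _).le)]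
  exact rsser_le ha hp (le_of_lt hx) n

/-- Sketch: `hasSum_mellin` with `Complex.hasSum_ofReal`. -/
theorem es_mellin (ha : ∀ n, 0 ≤ a n) (hp : ∀ n, a n = 0 ∨ 0 < p n)
    (hs : ∀ y : ℝ, 0 < y → Summable fun n => a n * Real.exp (-p n * y)) {s : ℂ} (h0 : 0 < s.re)
    (hsum : Summable fun n => a n / p n ^ s.re) :
    HasSum (fun n => Gamma s * (a n : ℂ) / ((p n : ℝ) : ℂ) ^ s)
      (mellin (fun y => (ES a p y : ℂ)) s) := by
  refine hasSum_mellin (fun n => (hp n).imp_left fun h => by rw [h, ofReal_zero]) h0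
    (fun t ht => ?_) ?_
  · simpa only [ofReal_mul, ES] using Complex.hasSum_ofReal.2 (hs t ht).hasSum
  · simpa only [norm_real, Real.norm_of_nonneg (ha _)] using hsum

/-- Sketch: `mellinConvergent_of_isBigO_rpow` with `b` at zero and a natural number
`A > max s.re b` at infinity. -/
theorem mellinConvergent_of_le {f : ℝ → ℝ} (hf : ContinuousOn f (Set.Ioi 0)) {b : ℕ}
    (hb : ∀ A : ℕ, b ≤ A → ∃ C : ℝ, ∀ y : ℝ, 0 < y → |f y| ≤ C / y ^ A) {s : ℂ}
    (hs : (b : ℝ) < s.re) : MellinConvergent (fun y => (f y : ℂ)) s := by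
  have key : ∀ A : ℕ, b ≤ A → ∀ l : Filter ℝ, (∀ᶠ y in l, 0 < y) →
      (fun y => (f y : ℂ)) =O[l] (· ^ (-(A : ℝ))) := fun A hA l hl => by
    obtain ⟨C, hC⟩ := hb A hA
    refine Asymptotics.IsBigO.of_bound C (hl.mono fun y hy => ?_)
    rw [norm_real, Real.norm_of_nonneg (Real.rpow_nonneg hy.le _), Real.rpow_neg hy.le,
      Real.rpow_natCast, ← div_eq_mul_inv]
    exact hC y hy
  obtain ⟨A, hA⟩ := exists_nat_gt s.re
  exact mellinConvergent_of_isBigO_rpow
    ((continuous_ofReal.comp_continuousOn hf).locallyIntegrableOn measurableSet_Ioi)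
    (key A (by exact_mod_cast (hs.trans hA).le) _ (eventually_gt_atTop 0)) hA
    (key b le_rfl _ self_mem_nhdsWithin) hs

theorem ind_nonneg (N n : ℕ) : 0 ≤ ind N n := by
  unfold ind
  split_ifs <;> norm_num

theorem ind_le (N n : ℕ) : ind N n ≤ 1 := by
  unfold ind
  split_ifs <;> norm_num

theorem ind_zero {N : ℕ} (hN : 2 ≤ N) : ind N 0 = 0 := by
  exact if_neg (by rw [Nat.coprime_zero_left]; omega)

theorem ind_one (N : ℕ) : ind N 1 = 1 := by
  exact if_pos (Nat.coprime_one_left N)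

theorem rsser_hp {N : ℕ} (hN : 2 ≤ N) (m : ℕ) : ind N m = 0 ∨ 0 < π * (m : ℝ) ^ 2 := by
  rcases Nat.eq_zero_or_pos m with rfl | h
  · exact Or.inl (ind_zero hN)
  · exact Or.inr (by positivity)

theorem rsser_sum (N : ℕ) {r : ℝ} (hr : 1 ≤ r) :
    Summable fun m : ℕ => ind N m / (π * (m : ℝ) ^ 2) ^ r := by
  refine Summable.of_nonneg_of_le (fun m => div_nonneg (ind_nonneg N m) (by positivity))
    (fun m => ?_) (Real.summable_one_div_nat_pow.2 one_lt_two)
  rcases Nat.eq_zero_or_pos m with rfl | h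
  · simp [Real.zero_rpow (zero_lt_one.trans_le hr).ne']
  · have h1 : (1 : ℝ) ≤ (m : ℝ) ^ 2 := one_le_pow₀ (by exact_mod_cast h)
    have h2 : (m : ℝ) ^ 2 ≤ π * (m : ℝ) ^ 2 :=
      le_mul_of_one_le_left (by positivity) (by linarith [Real.pi_gt_three])
    exact div_le_div₀ zero_le_one (ind_le N m) (by positivity)
      (h2.trans (Real.self_le_rpow_of_one_le (h1.trans h2) hr))

theorem rsser_nat (N : ℕ) {A : ℕ} (hA : 1 ≤ A) :
    Summable fun m : ℕ => ind N m / (π * (m : ℝ) ^ 2) ^ A := by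
  simpa only [Real.rpow_natCast] using rsser_sum N (r := A) (by exact_mod_cast hA)

/-- Sketch: `es_bound` with `A = 1`. -/
theorem th_summable {N : ℕ} (hN : 2 ≤ N) {u : ℝ} (hu : 0 < u) :
    Summable fun m : ℕ => ind N m * Real.exp (-(π * (m : ℝ) ^ 2) * u) := by
  exact (es_bound (ind_nonneg N) (rsser_hp hN) (rsser_nat N le_rfl) hu).1

/-- Sketch: `es_bound`, compare with `∑ 1 / m ^ 2`. -/
theorem th_le {N : ℕ} (hN : 2 ≤ N) (A : ℕ) (hA : 1 ≤ A) :
    ∃ C : ℝ, 0 ≤ C ∧ ∀ u : ℝ, 0 < u → |th N u| ≤ C / u ^ A := by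
  refine ⟨_, ?_, fun u hu => (abs_of_nonneg (es_nonneg (ind_nonneg N) u)).trans_le
    (es_bound (ind_nonneg N) (rsser_hp hN) (rsser_nat N hA) hu).2⟩
  exact mul_nonneg (Nat.cast_nonneg _)
    (tsum_nonneg fun n => div_nonneg (ind_nonneg N n) (by positivity))

theorem th_pos {N : ℕ} (hN : 2 ≤ N) {u : ℝ} (hu : 0 < u) : 0 < th N u := by
  exact es_pos (ind_nonneg N) (th_summable hN hu) (n := 1) (by rw [ind_one]; exact one_pos)

theorem th_cont {N : ℕ} (hN : 2 ≤ N) : ContinuousOn (th N) (Set.Ioi 0) := by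
  exact es_cont (ind_nonneg N) (fun n => by positivity) fun y hy => th_summable hN hy

theorem th_anti {N : ℕ} (hN : 2 ≤ N) : AntitoneOn (th N) (Set.Ioi 0) := by
  exact es_anti (ind_nonneg N) (fun n => by positivity) fun y hy => th_summable hN hy

/-- Sketch: `es_mellin`; `(π m ^ 2) ^ s = π ^ s * m ^ (2 s)` (`Complex.mul_cpow_ofReal_nonneg`,
`Complex.natCast_mul_natCast_cpow` or `Complex.ofReal_cpow`), `LSeries.term_def₀`. -/
theorem th_mellin {N : ℕ} (hN : 2 ≤ N) {s : ℂ} (hs : 1 < s.re) :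
    mellin (fun u => (th N u : ℂ)) s =
      Gamma s * (π : ℂ) ^ (-s) * LSeries (fun m => (ind N m : ℂ)) (2 * s) := by
  rw [th, ← (es_mellin (ind_nonneg N) (rsser_hp hN) (fun y hy => th_summable hN hy)
    (one_pos.trans hs) (rsser_sum N hs.le)).tsum_eq, LSeries, ← tsum_mul_left]
  refine tsum_congr fun m => ?_
  rw [LSeries.term_def₀ (by rw [ind_zero hN, ofReal_zero]), ofReal_mul,
    mul_cpow_ofReal_nonneg Real.pi_pos.le (sq_nonneg _), ofReal_pow, ofReal_natCast,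
    ← natCast_cpow_natCast_mul, cpow_neg, cpow_neg, Nat.cast_ofNat]
  ring

end Pool.Agent.Lib.MP_03e5d0_nt.RS
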