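import Pool.Agent.Lib.MP_03e5d0_nt.RSPar

/-! The unfolded integral. -/

set_option autoImplicit false

noncomputable section

namespace Pool.Agent.Lib.MP_03e5d0_nt.RS

open scoped UpperHalfPlane Real MatrixGroups ENNReal Topology
open Complex MeasureTheory Filter

variable {N : ℕ} {g : ℍ → ℂ} {c : ℕ → ℂ}

theorem rsth_Sq_nonneg (c : ℕ → ℂ) (y : ℝ) : 0 ≤ Sq c y := es_nonneg (fun _ => sq_nonneg _) y

theorem rsth_th_nonneg (N : ℕ) (u : ℝ) : 0 ≤ th N u := es_nonneg (ind_nonneg N) u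

theorem rsth_int (h : CF N g c) {A : ℕ} (hA : 2 ≤ A) :
    IntegrableOn (fun y : ℝ => y ^ A * Sq c y) (Set.Ioi 0) := by
  have h1 : MellinConvergent (fun y => (Sq c y : ℂ)) ((A : ℂ) + 1) :=
    mellinConvergent_of_le h.Sq_cont (b := 2) h.Sq_le (by
      have : (2 : ℝ) ≤ A := by exact_mod_cast hA
      simp
      linarith)
  have h2 := Integrable.re h1
  refine h2.congr (Eventually.of_forall fun y => ?_)
  simp only [add_sub_cancel_right, cpow_natCast, smul_eq_mul, RCLike.re_to_complex]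
  rw [← ofReal_pow, ← ofReal_mul, ofReal_re]

theorem rsth_le {A : ℕ} {C : ℝ} (hC : ∀ u : ℝ, 0 < u → |th N u| ≤ C / u ^ A) {t y : ℝ}
    (ht : 0 < t) (hy : 0 < y) : Sq c y * th N (t / y) ≤ C / t ^ A * (y ^ A * Sq c y) := by
  have h1 := (le_abs_self _).trans (hC (t / y) (div_pos ht hy))
  refine (mul_le_mul_of_nonneg_left h1 (rsth_Sq_nonneg c y)).trans (le_of_eq ?_)
  rw [div_pow]
  field_simp

/-- Sketch: continuity gives measurability; `mellinConvergent_of_le` for `Sq c` at `s = 3` gives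
integrability of `y ^ 2 * Sq c y`, and `th_le` with `A = 2` gives the domination. -/
theorem CF.integrableOn_Th (h : CF N g c) (hN : 2 ≤ N) {t : ℝ} (ht : 0 < t) :
    IntegrableOn (fun y => Sq c y * th N (t / y)) (Set.Ioi 0) := by
  obtain ⟨C, -, hC⟩ := th_le hN 2 (by norm_num)
  have hc : ContinuousOn (fun y => Sq c y * th N (t / y)) (Set.Ioi 0) := by
    refine h.Sq_cont.mul ((th_cont hN).comp
      (continuousOn_const.div continuousOn_id fun y hy => ne_of_gt hy) fun y hy => ?_)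
    exact div_pos ht hy
  refine Integrable.mono' ((rsth_int h le_rfl).const_mul (C / t ^ 2))
    (hc.aestronglyMeasurable measurableSet_Ioi) ?_
  refine (ae_restrict_iff' measurableSet_Ioi).2 (Eventually.of_forall fun y hy => ?_)
  rw [Real.norm_of_nonneg (mul_nonneg (rsth_Sq_nonneg c y) (rsth_th_nonneg N _))]
  exact rsth_le hC ht hy

theorem CF.Th_anti (h : CF N g c) (hN : 2 ≤ N) : AntitoneOn (Th c N) (Set.Ioi 0) := by
  intro s hs t ht hst
  refine setIntegral_mono_on (h.integrableOn_Th hN ht) (h.integrableOn_Th hN hs)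
    measurableSet_Ioi fun y hy => ?_
  have h1 : 0 < s / y := div_pos hs hy
  have h2 : 0 < t / y := div_pos ht hy
  exact mul_le_mul_of_nonneg_left (th_anti hN h1 h2
    (div_le_div_of_nonneg_right hst (le_of_lt hy))) (rsth_Sq_nonneg c y)

theorem CF.Th_nonneg (h : CF N g c) (hN : 2 ≤ N) (t : ℝ) : 0 ≤ Th c N t := by
  have _ := h
  have _ := hN
  exact setIntegral_nonneg measurableSet_Ioi fun y _ =>
    mul_nonneg (rsth_Sq_nonneg c y) (rsth_th_nonneg N _)

/-- Sketch: `setIntegral_pos_iff_support_of_nonneg_ae`, `es_pos`, `th_pos`. -/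
theorem CF.Th_pos (h : CF N g c) (hN : 2 ≤ N) (hc : ∃ n, c n ≠ 0) {t : ℝ} (ht : 0 < t) :
    0 < Th c N t := by
  obtain ⟨n, hn⟩ := hc
  refine (setIntegral_pos_iff_support_of_nonneg_ae (Eventually.of_forall fun y =>
    mul_nonneg (rsth_Sq_nonneg c y) (rsth_th_nonneg N _)) (h.integrableOn_Th hN ht)).2 ?_
  have : Function.support (fun y => Sq c y * th N (t / y)) ∩ Set.Ioi 0 = Set.Ioi 0 := by
    refine Set.inter_eq_right.2 fun y hy => ?_
    have h1 : 0 < Sq c y :=
      es_pos (fun _ => sq_nonneg _) (h.summable_sq hy) (n := n) (by positivity)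
    exact (mul_pos h1 (th_pos hN (div_pos ht hy))).ne'
  rw [this]
  simp

/-- Sketch: with `A' = A + 2`: `th N (t / y) ≤ C y ^ A' / t ^ A'` and `y ^ A' * Sq c y` is
integrable (`mellinConvergent_of_le` at `s = A' + 1`). -/
theorem CF.Th_top (h : CF N g c) (hN : 2 ≤ N) (A : ℕ) :
    ∃ C : ℝ, ∀ t : ℝ, 1 ≤ t → |Th c N t| ≤ C / t ^ A := by
  obtain ⟨C, hC0, hC⟩ := th_le hN (A + 2) (by omega)
  have hi := rsth_int h (A := A + 2) (by omega)
  have h0 : 0 ≤ ∫ y in Set.Ioi (0 : ℝ), y ^ (A + 2) * Sq c y :=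
    setIntegral_nonneg measurableSet_Ioi fun y hy =>
      mul_nonneg (pow_nonneg (le_of_lt hy) _) (rsth_Sq_nonneg c y)
  refine ⟨C * ∫ y in Set.Ioi (0 : ℝ), y ^ (A + 2) * Sq c y, fun t ht => ?_⟩
  have ht0 : 0 < t := by linarith
  rw [abs_of_nonneg (h.Th_nonneg hN t)]
  have h1 := setIntegral_mono_on (h.integrableOn_Th hN ht0) (hi.const_mul (C / t ^ (A + 2)))
    measurableSet_Ioi fun y hy => rsth_le hC ht0 hy
  rw [integral_const_mul] at h1
  refine le_trans h1 ?_
  rw [div_mul_eq_mul_div]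
  exact div_le_div_of_nonneg_left (mul_nonneg hC0 h0) (by positivity)
    (pow_le_pow_right₀ ht (by omega))

/-- The function that is integrated over the half plane. -/
def GG (g : ℍ → ℂ) (N : ℕ) (t : ℝ) (z : ℍ) : ℝ≥0∞ :=
  strip.indicator (1 : ℍ → ℝ≥0∞) z * ENNReal.ofReal (FF g z) *
    ∑' m : ℕ, ENNReal.ofReal (ind N m) * ENNReal.ofReal (Real.exp (-(π * (m : ℝ) ^ 2) * (t / z.im)))

theorem CF.meas_GG (h : CF N g c) (t : ℝ) : Measurable (GG g N t) := by
  refine ((measurable_one.indicator meas_strip).mul h.meas_FF.ennreal_ofReal).mul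
    (Measurable.tsum fun m => measurable_const.mul (Measurable.ennreal_ofReal ?_))
  exact (measurable_const.mul
    (measurable_const.div UpperHalfPlane.continuous_im.measurable)).exp

/-- Sketch: `lintegral_pt`, `CF.parseval`, `ENNReal.ofReal_tsum_of_nonneg`,
`ofReal_integral_eq_lintegral_ofReal`. -/
theorem CF.lintegral_GG (h : CF N g c) (hN : 2 ≤ N) {t : ℝ} (ht : 0 < t) :
    ∫⁻ z, GG g N t z = ENNReal.ofReal (Th c N t) := by
  rw [lintegral_pt (h.meas_GG t), Th, ofReal_integral_eq_lintegral_ofReal (h.integrableOn_Th hN ht)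
    (Eventually.of_forall fun y => mul_nonneg (rsth_Sq_nonneg c y) (rsth_th_nonneg N _))]
  refine setLIntegral_congr_fun measurableSet_Ioi fun y hy => ?_
  have hy0 : 0 < y := hy
  have h1 : ∑' m : ℕ, ENNReal.ofReal (ind N m) *
      ENNReal.ofReal (Real.exp (-(π * (m : ℝ) ^ 2) * (t / y))) = ENNReal.ofReal (th N (t / y)) := by
    simp only [← ENNReal.ofReal_mul (ind_nonneg N _)]
    exact (ENNReal.ofReal_tsum_of_nonneg
      (fun m => mul_nonneg (ind_nonneg N m) (Real.exp_pos _).le)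
      (th_summable hN (div_pos ht hy0))).symm
  have h2 : ∀ x : ℝ, GG g N t (pt x y) =
      (Set.Ico (0 : ℝ) 1).indicator (fun x => ENNReal.ofReal (‖g (pt x y)‖ ^ 2)) x *
        ENNReal.ofReal (y ^ 2 * th N (t / y)) := by
    intro x
    rw [GG, pt_im x hy0, h1]
    by_cases hx : x ∈ Set.Ico (0 : ℝ) 1
    · have : pt x y ∈ strip := by
        rw [strip, Set.mem_ofPred_eq, pt_re x hy0]
        exact hx
      rw [Set.indicator_of_mem hx, Set.indicator_of_mem this, FF, pt_im x hy0, Pi.one_apply,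
        one_mul, ← ENNReal.ofReal_mul (sq_nonneg _), ← ENNReal.ofReal_mul (sq_nonneg _)]
      congr 1
      ring
    · have : pt x y ∉ strip := by
        rw [strip, Set.mem_ofPred_eq, pt_re x hy0]
        exact hx
      rw [Set.indicator_of_notMem hx, Set.indicator_of_notMem this, zero_mul, zero_mul, zero_mul]
  simp only [h2]
  rw [lintegral_mul_const' _ _ ENNReal.ofReal_ne_top, lintegral_indicator measurableSet_Ico,
    h.parseval hy0, ← ENNReal.ofReal_mul (rsth_Sq_nonneg c y), ← ENNReal.ofReal_mul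
      (mul_nonneg (rsth_Sq_nonneg c y) (mul_nonneg (sq_nonneg _) (rsth_th_nonneg N _)))]
  congr 1
  field_simp

end Pool.Agent.Lib.MP_03e5d0_nt.RS
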