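import Pool.Agent.Lib.MP_03e5d0_nt.ADef

set_option autoImplicit false

noncomputable section

namespace Pool.Agent.Lib.MP_03e5d0_nt

open Complex Finset MeasureTheory
open scoped NumberTheorySymbols Real ContDiff

/-! Closure properties of the class `Sm`. -/

variable {j j' : ℕ} {a b a' b' B B' : ℝ} {W : ℝ → ℂ}

theorem tsm_ev (hs : ∀ y, y < a ∨ b < y → W y = 0) {y : ℝ} (hy : y < a ∨ b < y) :
    W =ᶠ[nhds y] fun _ => 0 := by
  rcases hy with hy | hy
  · filter_upwards [Iio_mem_nhds hy] with z hz using hs z (Or.inl hz)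
  · filter_upwards [Ioi_mem_nhds hy] with z hz using hs z (Or.inr hz)

theorem tsm_zero (hs : ∀ y, y < a ∨ b < y → W y = 0) (i : ℕ) {y : ℝ} (hy : y < a ∨ b < y) :
    iteratedDeriv i W y = 0 := by
  rw [(tsm_ev hs hy).iteratedDeriv_eq]
  simp

theorem tsm_cases (a b y : ℝ) : y ∈ Set.Icc a b ∨ (y < a ∨ b < y) := by
  by_cases h1 : y < a
  · exact Or.inr (Or.inl h1)
  by_cases h2 : b < y
  · exact Or.inr (Or.inr h2)
  · exact Or.inl ⟨not_lt.1 h1, not_lt.1 h2⟩

theorem tsm_of_le {i : ℕ} {y : ℝ} (h : ContDiffAt ℝ ∞ W y) : ContDiffAt ℝ i W y :=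
  h.of_le (by exact_mod_cast le_top)

theorem tsm_real {g : ℂ → ℂ} {U : Set ℂ} (hU : IsOpen U) (hg : DifferentiableOn ℂ g U) (i : ℕ) :
    ∀ y : ℝ, (y : ℂ) ∈ U → iteratedDeriv i (fun y : ℝ => g y) y = iteratedDeriv i g y := by
  induction i with
  | zero => simp
  | succ i ih =>
    intro y hy
    have h1 : iteratedDeriv i (fun y : ℝ => g y) =ᶠ[nhds y] fun y : ℝ => iteratedDeriv i g y := by
      filter_upwards [(hU.preimage continuous_ofReal).mem_nhds hy] with z hz using ih z hz
    rw [iteratedDeriv_succ, iteratedDeriv_succ, h1.deriv_eq]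
    refine HasDerivAt.deriv (HasDerivAt.comp_ofReal ?_)
    rw [iteratedDeriv_eq_iterate]
    exact (((hg.analyticOnNhd hU).iterated_deriv i) y hy).differentiableAt.hasDerivAt

theorem Sm.nonneg (h : Sm j a b B W) : 0 ≤ B := (norm_nonneg _).trans (h.bd 0 (Nat.zero_le _) 0)
theorem Sm.mono (h : Sm j a b B W) (hj : j' ≤ j) (ha : a' ≤ a) (hb : b ≤ b') (hB : B ≤ B') :
    Sm j' a' b' B' W :=
  ⟨h.smooth, fun y hy => h.supp y (hy.imp (fun e => e.trans_le ha) fun e => hb.trans_lt e),
    fun i hi y => (h.bd i (hi.trans hj) y).trans hB⟩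
theorem Sm.norm_le (h : Sm j a b B W) (y : ℝ) : ‖W y‖ ≤ B := by simpa using h.bd 0 (Nat.zero_le _) y
theorem Sm.shift (h : Sm j a b B W) (c : ℝ) : Sm j (a - c) (b - c) B fun y => W (y + c) :=
  ⟨h.smooth.comp (contDiff_id.add contDiff_const),
    fun y hy => h.supp _ (hy.imp (fun e => by linarith) fun e => by linarith),
    fun i hi y => by rw [iteratedDeriv_comp_add_const]; exact h.bd i hi _⟩
theorem Sm.neg_arg (h : Sm j a b B W) : Sm j (-b) (-a) B fun y => W (-y) :=
  ⟨h.smooth.comp contDiff_neg,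
    fun y hy => h.supp _ (hy.symm.imp (fun e => by linarith) fun e => by linarith),
    fun i hi y => by
      rw [iteratedDeriv_comp_neg, norm_smul]
      simpa using h.bd i hi _⟩
theorem Sm.conj (h : Sm j a b B W) : Sm j a b B fun y => starRingEnd ℂ (W y) := by
  refine ⟨conjCLE.contDiff.comp h.smooth, fun y hy => by rw [h.supp y hy, map_zero],
    fun i hi y => ?_⟩
  have := conjLIE.norm_iteratedFDeriv_comp_left W y i
  rw [norm_iteratedFDeriv_eq_norm_iteratedDeriv, norm_iteratedFDeriv_eq_norm_iteratedDeriv] at this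
  exact this.le.trans (h.bd i hi y)
theorem Sm.const_mul (h : Sm j a b B W) (c : ℂ) : Sm j a b (‖c‖ * B) fun y => c * W y :=
  ⟨contDiff_const.mul h.smooth, fun y hy => by rw [h.supp y hy, mul_zero], fun i hi y => by
    rw [iteratedDeriv_const_mul_field, norm_mul]
    exact mul_le_mul_of_nonneg_left (h.bd i hi y) (norm_nonneg _)⟩

theorem tsm_mul (h : Sm j a b B W) {g : ℝ → ℂ} (hg : ∀ y ∈ Set.Icc a b, ContDiffAt ℝ ∞ g y)
    (hB' : 0 ≤ B') (hb : ∀ i ≤ j, ∀ y ∈ Set.Icc a b, ‖iteratedDeriv i g y‖ ≤ B') :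
    Sm j a b (2 ^ j * B * B') fun y => W y * g y := by
  have hB := h.nonneg
  have hs : ∀ y, y < a ∨ b < y → W y * g y = 0 := fun y hy => by rw [h.supp y hy, zero_mul]
  refine ⟨contDiff_iff_contDiffAt.2 fun y => ?_, hs, fun i hi y => ?_⟩
  · rcases tsm_cases a b y with hy | hy
    · exact h.smooth.contDiffAt.mul (hg y hy)
    · exact contDiffAt_const.congr_of_eventuallyEq (tsm_ev hs hy)
  rcases tsm_cases a b y with hy | hy
  swap
  · rw [tsm_zero hs i hy, norm_zero]
    positivity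
  rw [iteratedDeriv_fun_mul (tsm_of_le h.smooth.contDiffAt) (tsm_of_le (hg y hy))]
  refine (norm_sum_le_of_le _ (n := fun k => (i.choose k : ℝ) * B * B') fun k hk => ?_).trans ?_
  · have hk' := mem_range.1 hk
    rw [norm_mul, norm_mul, Complex.norm_natCast]
    exact mul_le_mul (mul_le_mul_of_nonneg_left (h.bd k (by omega) y) (Nat.cast_nonneg _))
      (hb _ (by omega) y hy) (norm_nonneg _) (by positivity)
  · rw [← sum_mul, ← sum_mul, ← Nat.cast_sum, Nat.sum_range_choose]
    push_cast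
    gcongr
    norm_num

/-- Leibniz (`norm_iteratedFDeriv_mul_le` or `iteratedDeriv_mul`), `∑ choose i k = 2 ^ i`; outside
`[a, b]` the product vanishes near the point. -/
theorem Sm.mul (h : Sm j a b B W) {g : ℝ → ℂ} (hg : ContDiff ℝ ∞ g) (hB' : 0 ≤ B')
    (hb : ∀ i ≤ j, ∀ y ∈ Set.Icc a b, ‖iteratedDeriv i g y‖ ≤ B') :
    Sm j a b (2 ^ j * B * B') fun y => W y * g y :=
  tsm_mul h (fun _ _ => hg.contDiffAt) hB' hb
theorem Sm.mul_ex (h : Sm j a b B W) (t : ℝ) :
    Sm j a b (2 ^ j * B * (1 + |t|) ^ j) fun y => W y * ex t y := by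
  refine h.mul (g := fun y => ex t y) ?_ (by positivity) fun i hi y _ => ?_
  · exact (contDiff_const.mul ofRealCLM.contDiff).cexp
  · have := tsm_real (g := fun z => cexp (I * t * z)) isOpen_univ (by fun_prop) i y trivial
    unfold ex
    rw [this, iteratedDeriv_cexp_const_mul, norm_mul, norm_pow, norm_mul, norm_I, one_mul,
      norm_real, Real.norm_eq_abs, mul_assoc, ← ofReal_mul, mul_comm I, norm_exp_ofReal_mul_I,
      mul_one]
    exact (pow_le_pow_left₀ (abs_nonneg t) (by linarith) i).trans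
      (pow_le_pow_right₀ (by linarith [abs_nonneg t]) hi)
/-- Cauchy's estimate (`Complex.norm_iteratedDeriv_le_of_forall_mem_sphere_norm_le`) on discs of radius
`δ / 2`; the real iterated derivative of `y ↦ g y` is the complex one. The product is smooth because
`g` is smooth on `(a - δ, b + δ)` and `W` vanishes off `[a, b]`. -/
theorem Sm.mul_holo (j : ℕ) : ∃ C : ℝ, 0 ≤ C ∧ ∀ (a b B B' δ : ℝ) (W : ℝ → ℂ) (g : ℂ → ℂ),
    Sm j a b B W → 0 < δ → δ ≤ 1 → 0 ≤ B' →
    DifferentiableOn ℂ g {z | a - δ < z.re ∧ z.re < b + δ ∧ |z.im| < δ} →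
    (∀ z : ℂ, a - δ < z.re → z.re < b + δ → |z.im| < δ → ‖g z‖ ≤ B') →
    Sm j a b (C * B * B' / δ ^ j) fun y => W y * g y := by
  refine ⟨2 ^ j * (j.factorial * 2 ^ j), by positivity,
    fun a b B B' δ W g h h0 h1 hB' hg hb => ?_⟩
  have hU : IsOpen {z : ℂ | a - δ < z.re ∧ z.re < b + δ ∧ |z.im| < δ} :=
    (isOpen_lt continuous_const continuous_re).inter ((isOpen_lt continuous_re continuous_const).inter
      (isOpen_lt continuous_im.abs continuous_const))
  have hm : ∀ y ∈ Set.Icc a b, Metric.closedBall (y : ℂ) (δ / 2) ⊆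
      {z : ℂ | a - δ < z.re ∧ z.re < b + δ ∧ |z.im| < δ} := fun y hy z hz => by
    rw [mem_closedBall_iff_norm] at hz
    have e1 := abs_le.1 ((abs_re_le_norm _).trans hz)
    have e2 := (abs_im_le_norm _).trans hz
    simp only [sub_re, ofReal_re, sub_im, ofReal_im, sub_zero] at e1 e2
    exact ⟨by linarith [hy.1], by linarith [hy.2], by linarith⟩
  have hm' : ∀ y ∈ Set.Icc a b, (y : ℂ) ∈ {z : ℂ | a - δ < z.re ∧ z.re < b + δ ∧ |z.im| < δ} :=
    fun y hy => hm y hy (Metric.mem_closedBall_self (by linarith))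
  have := tsm_mul h (g := fun y => g y) (B' := j.factorial * 2 ^ j * B' / δ ^ j)
    (fun y hy => (((hg.analyticOnNhd hU) y (hm' y hy)).contDiffAt.restrict_scalars ℝ).comp y
      ofRealCLM.contDiff.contDiffAt) (by positivity) fun i hi y hy => by
      rw [tsm_real hU hg i y (hm' y hy)]
      refine (norm_iteratedDeriv_le_of_forall_mem_sphere_norm_le i (half_pos h0)
        (hg.diffContOnCl_ball (hm y hy)) fun z hz => ?_).trans (b := i.factorial * B' / (δ / 2) ^ i)
        ?_
      · obtain ⟨e1, e2, e3⟩ := hm y hy (Metric.sphere_subset_closedBall hz)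
        exact hb z e1 e2 e3
      · rw [show (j.factorial : ℝ) * 2 ^ j * B' / δ ^ j = j.factorial * B' / (δ / 2) ^ j by
          rw [div_pow]; field_simp]
        exact div_le_div₀ (by positivity) (mul_le_mul_of_nonneg_right
          (by exact_mod_cast Nat.factorial_le hi) hB') (by positivity)
          (pow_le_pow_of_le_one (by positivity) (by linarith) hi)
  exact this.mono le_rfl le_rfl le_rfl (le_of_eq (by ring))
/-- `iteratedDeriv_comp_const_mul` type formulas; each derivative gains `1 / U ≤ 1`. -/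
theorem Sm.affine (h : Sm j a b B W) (c : ℝ) {U : ℝ} (hU : 1 ≤ U) :
    ContDiff ℝ ∞ (fun y => W ((c - y) / U)) ∧
      ∀ i ≤ j, ∀ y, ‖iteratedDeriv i (fun y => W ((c - y) / U)) y‖ ≤ B := by
  refine ⟨h.smooth.comp ((contDiff_const.sub contDiff_id).div_const U), fun i hi y => ?_⟩
  have e : (fun y => W ((c - y) / U)) = fun y => (fun z => W (U⁻¹ * z)) (c - y) := by
    funext y; rw [div_eq_inv_mul]
  rw [e, iteratedDeriv_comp_const_sub i (fun z => W (U⁻¹ * z)) c, iteratedDeriv_comp_const_smul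
    (h.smooth.of_le (by exact_mod_cast le_top)), norm_smul, norm_smul]
  simp only [norm_pow, norm_neg, norm_one, one_pow, one_mul, norm_inv, Real.norm_eq_abs]
  refine (mul_le_of_le_one_left (norm_nonneg _) (pow_le_one₀ (by positivity) ?_)).trans
    (h.bd i hi _)
  exact inv_le_one_of_one_le₀ (hU.trans (le_abs_self U))
/-- A smooth function vanishing off `[a, b]` is `Sm` with some bound. -/
theorem exists_sm (j : ℕ) (hW : ContDiff ℝ ∞ W) (hs : ∀ y, y < a ∨ b < y → W y = 0) :
    ∃ B, Sm j a b B W := by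
  have key : ∀ i : ℕ, ∃ C, 0 ≤ C ∧ ∀ y, ‖iteratedDeriv i W y‖ ≤ C := fun i => by
    obtain ⟨C, hC⟩ := (isCompact_Icc (a := a) (b := b)).exists_bound_of_continuousOn
      (hW.continuous_iteratedDeriv i (by exact_mod_cast le_top)).continuousOn
    refine ⟨max C 0, le_max_right _ _, fun y => ?_⟩
    rcases tsm_cases a b y with hy | hy
    · exact (hC y hy).trans (le_max_left _ _)
    · rw [tsm_zero hs i hy, norm_zero]
      exact le_max_right _ _
  choose C h0 hC using key
  exact ⟨∑ i ∈ range (j + 1), C i, hW, hs, fun i hi y => (hC i y).trans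
    (single_le_sum (fun k _ => h0 k) (mem_range.2 (by omega)))⟩
theorem sm_bump (j : ℕ) (ρ : ℝ) : ∃ B, Sm j (-ρ - 1) (ρ + 1) B fun y => (bump ρ y : ℂ) := by
  refine exists_sm j (ofRealCLM.contDiff.comp (f := bump ρ) ?_) fun y hy => ?_
  · exact (Real.smoothTransition.contDiff.comp ((contDiff_id.add contDiff_const).add
      contDiff_const)).mul (Real.smoothTransition.contDiff.comp (contDiff_const.sub contDiff_id))
  · rcases hy with hy | hy
    · simp [bump, Real.smoothTransition.zero_of_nonpos (show y + ρ + 1 ≤ 0 by linarith)]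
    · simp [bump, Real.smoothTransition.zero_of_nonpos (show ρ + 1 - y ≤ 0 by linarith)]

theorem tsm_psi {y : ℝ} (h : y ≤ -1 ∨ 1 ≤ y) : psi y = 0 := by
  rcases h with h | h
  · rw [psi, Real.smoothTransition.zero_of_nonpos (by linarith),
      Real.smoothTransition.zero_of_nonpos (by linarith), sub_self]
  · rw [psi, Real.smoothTransition.one_of_one_le (by linarith),
      Real.smoothTransition.one_of_one_le h, sub_self]

theorem sm_psi (j : ℕ) : ∃ B, Sm j (-1) 1 B fun y => (psi y : ℂ) := by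
  refine exists_sm j (ofRealCLM.contDiff.comp (f := psi) ?_) fun y hy => ?_
  · exact (Real.smoothTransition.contDiff.comp (contDiff_id.add contDiff_const)).sub
      Real.smoothTransition.contDiff
  · rw [tsm_psi (hy.imp le_of_lt le_of_lt), ofReal_zero]
theorem bump_eq_one {ρ y : ℝ} (h : |y| ≤ ρ) : bump ρ y = 1 := by
  rw [bump, Real.smoothTransition.one_of_one_le (by linarith [(abs_le.1 h).1]),
    Real.smoothTransition.one_of_one_le (by linarith [(abs_le.1 h).2]), mul_one]
theorem bump_eq_zero {ρ y : ℝ} (h : ρ + 1 ≤ |y|) : bump ρ y = 0 := by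
  rcases le_abs.1 h with h | h
  · rw [bump, Real.smoothTransition.zero_of_nonpos (x := ρ + 1 - y) (by linarith), mul_zero]
  · rw [bump, Real.smoothTransition.zero_of_nonpos (by linarith), zero_mul]
theorem bump_mem (ρ y : ℝ) : 0 ≤ bump ρ y ∧ bump ρ y ≤ 1 :=
  ⟨mul_nonneg (Real.smoothTransition.nonneg _) (Real.smoothTransition.nonneg _),
    mul_le_one₀ (Real.smoothTransition.le_one _) (Real.smoothTransition.nonneg _)
      (Real.smoothTransition.le_one _)⟩
theorem psi_eq_zero {y : ℝ} (h : 1 ≤ |y|) : psi y = 0 :=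
  tsm_psi ((le_abs.1 h).symm.imp (fun e => by linarith) id)
theorem psi_mem (y : ℝ) : 0 ≤ psi y ∧ psi y ≤ 1 :=
  ⟨sub_nonneg.2 (Real.smoothTransition.monotone (by linarith)), by
    linarith [Real.smoothTransition.le_one (y + 1), Real.smoothTransition.nonneg y,
      show psi y = _ - _ from rfl]⟩
theorem psi_zero : psi 0 = 1 := by simp [psi]

theorem tsm_tel (y : ℝ) (n : ℕ) : ∑ i ∈ range n, psi (y - i) =
    Real.smoothTransition (y + 1) - Real.smoothTransition (y + 1 - n) := by
  induction n with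
  | zero => simp
  | succ n ih =>
    rw [sum_range_succ, ih, psi, show y - n + 1 = y + 1 - n by ring,
      show y + 1 - ((n + 1 : ℕ) : ℝ) = y - n by push_cast; ring]
    ring

/-- Telescoping. -/
theorem sum_psi {y : ℝ} (hy : 0 ≤ y) {n : ℕ} (hn : y + 1 ≤ n) :
    ∑ i ∈ range n, psi (y - i) = 1 := by
  rw [tsm_tel, Real.smoothTransition.one_of_one_le (by linarith),
    Real.smoothTransition.zero_of_nonpos (by linarith), sub_zero]
theorem sum_psi_int {y : ℝ} {n : ℕ} (hy : |y| ≤ n) :
    ∑ i ∈ Icc (-(n : ℤ)) n, psi (y - i) = 1 := by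
  rw [← sum_psi (y := y + n) (by linarith [(abs_le.1 hy).1]) (n := 2 * n + 1)
    (by push_cast; linarith [(abs_le.1 hy).2])]
  refine sum_nbij' (fun i => (i + n).toNat) (fun i => (i : ℤ) - n) (fun i hi => ?_) (fun i hi => ?_)
    (fun i hi => ?_) (fun i hi => ?_) fun i hi => ?_
  · simp only [mem_Icc, mem_range] at hi ⊢; omega
  · simp only [mem_Icc, mem_range] at hi ⊢; omega
  · simp only [mem_Icc] at hi ⊢; omega
  · simp
  · have : (((i + n).toNat : ℤ) : ℝ) = ((i + n : ℤ) : ℝ) := by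
      rw [Int.toNat_of_nonneg (by have := (mem_Icc.1 hi).1; omega)]
    push_cast at this
    rw [this]
    congr 1; ring

end Pool.Agent.Lib.MP_03e5d0_nt
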