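import Pool.Agent.Lib.MP_03e5d0_nt.TFt
import Pool.Agent.Lib.MP_03e5d0_nt.TSm
import Pool.Agent.Lib.MP_03e5d0_nt.TNrm

set_option autoImplicit false

noncomputable section

namespace Pool.Agent.Lib.MP_03e5d0_nt

open Complex Finset MeasureTheory
open scoped NumberTheorySymbols Real ContDiff

/-! Elementary facts about `cm`, `lam`, `sm`, `tw`. -/

variable {D : Data} {x : ℕ → ℝ}

theorem cm_zero (x : ℕ → ℝ) : cm x 0 = 0 := by simp [cm]
theorem cm_one (x : ℕ → ℝ) : cm x 1 = 1 := by simp [cm]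
theorem cm_mul (x : ℕ → ℝ) (m n : ℕ) : cm x (m * n) = cm x m * cm x n := by
  rcases eq_or_ne m 0 with rfl | hm
  · simp [cm]
  rcases eq_or_ne n 0 with rfl | hn
  · simp [cm]
  simp only [cm, hm, hn, mul_ne_zero hm hn, if_false]
  rw [((Nat.perm_primeFactorsList_mul hm hn).map x).prod_eq, List.map_append, List.prod_append]
theorem cm_prime (x : ℕ → ℝ) {p : ℕ} (hp : p.Prime) : cm x p = x p := by
  simp [cm, hp.ne_zero, Nat.primeFactorsList_prime hp]
theorem cm_pow (x : ℕ → ℝ) (n i : ℕ) : cm x (n ^ i) = cm x n ^ i := by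
  induction i with
  | zero => simp [cm_one]
  | succ i ih => rw [pow_succ, cm_mul, ih, pow_succ]
theorem cm_congr {x x' : ℕ → ℝ} {n : ℕ} (h : ∀ p, p.Prime → p ∣ n → x p = x' p) :
    cm x n = cm x' n := by
  unfold cm
  split_ifs with hn
  · rfl
  · congr 1
    exact List.map_congr_left fun p hp =>
      h p (Nat.prime_of_mem_primeFactorsList hp) (Nat.dvd_of_mem_primeFactorsList hp)
theorem Adm.abs_cm (h : Adm x) (n : ℕ) : |cm x n| ≤ 1 := by
  induction n using induction_on_primes with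
  | zero => simp [cm_zero]
  | one => simp [cm_one]
  | prime_mul p a hp ih =>
    rw [cm_mul, cm_prime x hp, abs_mul]
    refine mul_le_one₀ ?_ (abs_nonneg _) ih
    rcases h p with e | e | e <;> simp [e]
theorem adm_jac (m : ℤ) : Adm (jac m) := by
  intro p
  rcases jacobiSym.trichotomy m p with e | e | e <;> simp [jac, e]
theorem cm_jac (m : ℤ) {n : ℕ} (hn : n ≠ 0) : cm (jac m) n = (J(m | n) : ℝ) := by
  induction n using induction_on_primes with
  | zero => exact absurd rfl hn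
  | one => simp [cm_one]
  | prime_mul p a hp ih =>
    have ha : a ≠ 0 := fun e => hn (by simp [e])
    rw [cm_mul, cm_prime _ hp, ih ha, jacobiSym.mul_right' m hp.ne_zero ha]
    simp [jac]
theorem Data.lam0 (D : Data) : D.lam 0 = 0 := by
  refine D.lam_zero 0 fun h => ?_
  have h1 := D.small 2 Nat.prime_two (by norm_num)
  rw [(Nat.coprime_zero_left _).mp h] at h1
  norm_num at h1
theorem Data.two_dvd (D : Data) : 2 ∣ D.q := D.small 2 Nat.prime_two (by norm_num)
theorem Data.big (D : Data) {p : ℕ} (hp : p.Prime) (h : ¬p ∣ D.q) : 10000 ≤ p :=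
  not_lt.mp fun h' => h (D.small p hp h')
theorem Data.lam_sq (D : Data) {p : ℕ} (hp : p.Prime) (h : ¬p ∣ D.q) :
    D.lam (p ^ 2) = D.lam p ^ 2 - 1 := by
  have := D.lam_rec p 0 hp h
  simp only [zero_add, pow_one, pow_zero, D.lam_one] at this
  rw [this, sq]
/-- Write `lam p = 2 cos θ`, or show by induction that `|u (j+1) - α u j| ≤ 1` for a root `α` of
`z ^ 2 - lam p z + 1`, which has modulus one. For `p ∣ q` the value is `0` unless `j = 0`. -/
theorem Data.lam_pow_le (D : Data) {p : ℕ} (hp : p.Prime) (j : ℕ) : |D.lam (p ^ j)| ≤ j + 1 := by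
  by_cases h : p ∣ D.q
  · rcases Nat.eq_zero_or_pos j with rfl | hj
    · simp [D.lam_one]
    · rw [D.lam_zero _ fun hc => hp.one_lt.ne'
        (Nat.eq_one_of_dvd_coprimes hc (dvd_pow_self p hj.ne') h), abs_zero]
      positivity
  have inv : ∀ i : ℕ, D.lam (p ^ (i + 1)) ^ 2 - D.lam p * D.lam (p ^ (i + 1)) * D.lam (p ^ i) +
      D.lam (p ^ i) ^ 2 = 1 := by
    intro i
    induction i with
    | zero => simp only [zero_add, pow_one, pow_zero, D.lam_one]; ring
    | succ i ih => rw [D.lam_rec p i hp h]; linear_combination ih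
  induction j with
  | zero => simp [D.lam_one]
  | succ i ih =>
    have e := inv i
    set u := D.lam (p ^ (i + 1))
    set w := D.lam (p ^ i)
    have e1 : D.lam p * u * w ≤ 2 * (|u| * |w|) := by
      refine (le_abs_self _).trans ?_
      rw [mul_assoc, abs_mul, abs_mul]
      exact mul_le_mul_of_nonneg_right (D.lam_le p hp) (by positivity)
    have e2 : (|u| - |w|) ^ 2 ≤ 1 := by nlinarith [sq_abs u, sq_abs w]
    have e3 : |u| - |w| ≤ 1 := by nlinarith
    push_cast
    linarith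
theorem Data.lam_le_card (D : Data) (n : ℕ) : |D.lam n| ≤ n.divisors.card := by
  induction n using Nat.recOnPosPrimePosCoprime with
  | prime_pow p j hp hj =>
    rw [Nat.divisors_prime_pow hp, card_map, card_range]
    exact_mod_cast D.lam_pow_le hp j
  | zero => simp [D.lam0]
  | one => simp [D.lam_one]
  | coprime a b _ _ hab iha ihb =>
    rw [D.lam_mul a b hab, hab.card_divisors_mul, abs_mul, Nat.cast_mul]
    exact mul_le_mul iha ihb (abs_nonneg _) (by positivity)
theorem tbas_succ_pow {k : ℕ} (hk : 0 < k) (v : ℕ) : (v + 1) ^ k ≤ 2 ^ v * k ^ k := by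
  have h1 : v + 1 ≤ 2 ^ (v / k) * k := by
    have h2 : v / k + 1 ≤ 2 ^ (v / k) := Nat.lt_two_pow_self
    have h3 : v < (v / k + 1) * k := by
      rw [mul_comm]; exact Nat.lt_mul_div_succ v hk
    calc v + 1 ≤ (v / k + 1) * k := h3
      _ ≤ _ := Nat.mul_le_mul_right _ h2
  calc (v + 1) ^ k ≤ (2 ^ (v / k) * k) ^ k := Nat.pow_le_pow_left h1 _
    _ = 2 ^ (v / k * k) * k ^ k := by rw [mul_pow, ← pow_mul]
    _ ≤ _ := Nat.mul_le_mul_right _ (Nat.pow_le_pow_right (by norm_num) (Nat.div_mul_le_self _ _))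

theorem tbas_card_pow {k n : ℕ} (hk : 0 < k) (hn : n ≠ 0) :
    n.divisors.card ^ k ≤ n * (k ^ k) ^ 2 ^ k := by
  have h1 : ∀ p ∈ n.primeFactors, (n.factorization p + 1) ^ k ≤
      p ^ n.factorization p * (if p < 2 ^ k then k ^ k else 1) := by
    intro p hp
    have hp2 := (Nat.prime_of_mem_primeFactors hp).two_le
    split_ifs with h
    · exact (tbas_succ_pow hk _).trans (Nat.mul_le_mul_right _ (Nat.pow_le_pow_left hp2 _))
    · rw [mul_one]
      calc (n.factorization p + 1) ^ k ≤ (2 ^ n.factorization p) ^ k :=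
            Nat.pow_le_pow_left Nat.lt_two_pow_self _
        _ = (2 ^ k) ^ n.factorization p := by rw [← pow_mul, ← pow_mul, mul_comm]
        _ ≤ _ := Nat.pow_le_pow_left (not_lt.1 h) _
  rw [Nat.card_divisors hn, ← prod_pow]
  refine (prod_le_prod' h1).trans ?_
  rw [prod_mul_distrib, ← prod_filter, prod_const]
  refine Nat.mul_le_mul (le_of_eq ?_) (Nat.pow_le_pow_right (by positivity) ?_)
  · conv_rhs => rw [← Nat.prod_factorization_pow_eq_self hn]
    rfl
  · calc _ ≤ (range (2 ^ k)).card := card_le_card fun p hp => mem_range.2 (mem_filter.1 hp).2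
      _ = _ := card_range _

/-- See `Pool/Agent/Lib/MP_ecd12e_nt/Sep.lean`, `card_divisors_pow_le` (copy, do not import). -/
theorem card_divisors_le (ε : ℝ) (hε : 0 < ε) :
    ∃ C : ℝ, 0 ≤ C ∧ ∀ n : ℕ, (n.divisors.card : ℝ) ≤ C * (n : ℝ) ^ ε := by
  obtain ⟨k, hk⟩ := exists_nat_gt ε⁻¹
  have hk0 : (0 : ℝ) < k := (inv_pos.mpr hε).trans hk
  have hk1 : 0 < k := by exact_mod_cast hk0
  have hk2 : (k : ℝ)⁻¹ ≤ ε := (inv_lt_of_inv_lt₀ hε hk).le
  refine ⟨(((k : ℝ) ^ k) ^ 2 ^ k) ^ (k : ℝ)⁻¹, by positivity, fun n => ?_⟩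
  rcases eq_or_ne n 0 with rfl | hn
  · simp only [Nat.divisors_zero, card_empty, Nat.cast_zero]
    positivity
  have h2 : (n.divisors.card : ℝ) ^ k ≤ n * ((k : ℝ) ^ k) ^ 2 ^ k := by
    exact_mod_cast tbas_card_pow hk1 hn
  have h3 := Real.rpow_le_rpow (by positivity) h2 (inv_pos.mpr hk0).le
  rw [Real.pow_rpow_inv_natCast (by positivity) hk1.ne',
    Real.mul_rpow (by positivity) (by positivity), mul_comm] at h3
  refine h3.trans (mul_le_mul_of_nonneg_left ?_ (by positivity))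
  exact Real.rpow_le_rpow_of_exponent_le (by exact_mod_cast Nat.pos_of_ne_zero hn) hk2
theorem mem_pr {Λ : ℝ} {p : ℕ} : p ∈ pr D Λ ↔ p.Prime ∧ ¬p ∣ D.q ∧ Real.log p ≤ Λ := by
  rw [pr, mem_filter, mem_range, Nat.lt_succ_iff, Nat.le_floor_iff (Real.exp_pos _).le]
  constructor
  · rintro ⟨h1, h2, h3⟩
    exact ⟨h2, h3, (Real.log_le_iff_le_exp (by exact_mod_cast h2.pos)).mpr h1⟩
  · rintro ⟨h2, h3, h1⟩
    exact ⟨(Real.log_le_iff_le_exp (by exact_mod_cast h2.pos)).mp h1, h2, h3⟩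
theorem sm_eq_sum {V : ℝ → ℂ} {L : ℝ} (hV : ∀ y, L < y → V y = 0) {N : ℕ} (hN : Real.exp L < N) :
    sm D x V = ∑ n ∈ range N, ((D.lam n * cm x n / √n : ℝ) : ℂ) * V (Real.log n) := by
  refine tsum_eq_sum fun n hn => ?_
  have h1 : (N : ℝ) ≤ n := by exact_mod_cast not_lt.mp (mem_range.not.mp hn)
  have h2 : Real.exp L < n := hN.trans_le h1
  rw [hV _ ((Real.lt_log_iff_exp_lt ((Real.exp_pos _).trans h2)).mpr h2), mul_zero]
theorem sm_congr {V V' : ℝ → ℂ} (h : ∀ y, 0 ≤ y → V y = V' y) : sm D x V = sm D x V' := by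
  unfold sm
  exact tsum_congr fun n => by rw [h _ (Real.log_natCast_nonneg n)]
theorem sm_const_mul (c : ℂ) (V : ℝ → ℂ) : sm D x (fun y => c * V y) = c * sm D x V := by
  unfold sm
  rw [← tsum_mul_left]
  exact tsum_congr fun n => by ring
theorem sm_conj (V : ℝ → ℂ) : sm D x (fun y => starRingEnd ℂ (V y)) = starRingEnd ℂ (sm D x V) := by
  unfold sm
  rw [Complex.conj_tsum]
  exact tsum_congr fun n => by rw [map_mul, conj_ofReal]
theorem sm_sum {κ : Type} (S : Finset κ) {V : κ → ℝ → ℂ} {L : ℝ} (hV : ∀ i ∈ S, ∀ y, L < y → V i y = 0) :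
    sm D x (fun y => ∑ i ∈ S, V i y) = ∑ i ∈ S, sm D x (V i) := by
  have hN : Real.exp L < (⌊Real.exp L⌋₊ + 1 : ℕ) := by
    push_cast; exact Nat.lt_floor_add_one _
  rw [sm_eq_sum (fun y hy => sum_eq_zero fun i hi => hV i hi y hy) hN,
    sum_congr rfl fun i hi => sm_eq_sum (hV i hi) hN, sum_comm]
  simp only [mul_sum]
theorem tbas_card_sqrt (n : ℕ) : (n.divisors.card : ℝ) ≤ 2 * √n := by
  have h1 : (n.divisors.filter fun d => d * d ≤ n).card ≤ n.sqrt := by
    refine (card_le_card (t := Icc 1 n.sqrt) fun d hd => ?_).trans (by simp)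
    rw [mem_filter] at hd
    exact mem_Icc.mpr ⟨Nat.pos_of_mem_divisors hd.1, Nat.le_sqrt.mpr hd.2⟩
  have h2 : (n.divisors.filter fun d => ¬ d * d ≤ n).card ≤ n.sqrt := by
    refine (card_le_card_of_injOn (t := Icc 1 n.sqrt) (fun d => n / d) (fun d hd => ?_)
      fun d hd d' hd' e => ?_).trans (by simp)
    · rw [coe_filter, Set.mem_ofPred_eq, Nat.mem_divisors] at hd
      obtain ⟨⟨⟨c, rfl⟩, h0⟩, h⟩ := hd
      have hd0 : 0 < d := Nat.pos_of_ne_zero fun e => h0 (by simp [e])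
      have hc0 : 0 < c := Nat.pos_of_ne_zero fun e => h0 (by simp [e])
      simp only [Nat.mul_div_cancel_left _ hd0, coe_Icc, Set.mem_Icc]
      refine ⟨hc0, Nat.le_sqrt.mpr (Nat.mul_le_mul_right _ ?_)⟩
      by_contra hlt
      exact h (Nat.mul_le_mul_left _ (not_le.mp hlt).le)
    · rw [coe_filter, Set.mem_ofPred_eq, Nat.mem_divisors] at hd hd'
      rw [← Nat.div_div_self hd.1.1 hd.1.2, ← Nat.div_div_self hd'.1.1 hd'.1.2]
      exact congrArg (n / ·) e
  have h3 := card_filter_add_card_filter_not (s := n.divisors) fun d => d * d ≤ n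
  have h4 : (n.divisors.card : ℝ) ≤ 2 * (n.sqrt : ℝ) := by exact_mod_cast (by omega)
  exact h4.trans (mul_le_mul_of_nonneg_left Real.nat_sqrt_le_real_sqrt zero_le_two)

/-- `d(n) / √n ≤ 2`. -/
theorem norm_sm_le (hx : Adm x) {V : ℝ → ℂ} {L B : ℝ} (hB : 0 ≤ B) (hV : ∀ y, L < y → V y = 0)
    (hb : ∀ y, ‖V y‖ ≤ B) : ‖sm D x V‖ ≤ 2 * B * Real.exp L := by
  have hN : Real.exp L < (⌊Real.exp L⌋₊ + 1 : ℕ) := by
    push_cast; exact Nat.lt_floor_add_one _
  rw [sm_eq_sum hV hN, sum_range_succ', cm_zero]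
  simp only [mul_zero, zero_div, ofReal_zero, zero_mul, add_zero]
  refine (norm_sum_le _ _).trans ((sum_le_card_nsmul _ _ (2 * B) fun n _ => ?_).trans ?_)
  · rw [norm_mul, norm_real, Real.norm_eq_abs]
    refine mul_le_mul ?_ (hb _) (norm_nonneg _) zero_le_two
    have h0 : 0 < √((n + 1 : ℕ) : ℝ) := Real.sqrt_pos.mpr (by positivity)
    rw [abs_div, abs_of_pos h0, div_le_iff₀ h0, abs_mul]
    exact (mul_le_of_le_one_right (abs_nonneg _) (hx.abs_cm _)).trans
      ((D.lam_le_card _).trans (tbas_card_sqrt _))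
  · rw [card_range, nsmul_eq_mul, mul_comm]
    exact mul_le_mul_of_nonneg_left (Nat.floor_le (Real.exp_pos _).le) (by positivity)
theorem tbas_bump {ρ L y : ℝ} (hy : L + |ρ| + 1 < y) : bump ρ (y - L) = 0 :=
  bump_eq_zero (by linarith [le_abs_self ρ, le_abs_self (y - L)])

theorem tbas_tw (D : Data) (x : ℕ → ℝ) (ρ L t : ℝ) : tw D x ρ L t =
    ∑ n ∈ range (⌊Real.exp (L + |ρ| + 1)⌋₊ + 1), ((D.lam n * cm x n / √n : ℝ) : ℂ) *
      ((bump ρ (Real.log n - L) : ℂ) * ex t (Real.log n - L)) :=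
  sm_eq_sum (L := L + |ρ| + 1) (fun y hy => by simp [tbas_bump hy])
    (by push_cast; exact Nat.lt_floor_add_one _)

theorem continuous_tw (D : Data) (x : ℕ → ℝ) (ρ L : ℝ) : Continuous (tw D x ρ L) := by
  rw [funext (tbas_tw D x ρ L)]
  refine continuous_finsetSum _ fun n _ => continuous_const.mul (continuous_const.mul ?_)
  exact continuous_ex.comp (continuous_id.prodMk continuous_const)
/-- `W y = W y * bump ρ y = ∫ ft W t * (bump ρ y * ex t y)`; finite sums. -/
theorem sm_eq_integral {j : ℕ} {a b B ρ : ℝ} {W : ℝ → ℂ} (h : Sm j a b B W) (ha : -ρ ≤ a) (hb : b ≤ ρ)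
    (L : ℝ) : sm D x (fun y => W (y - L)) = ∫ t, ft W t * tw D x ρ L t := by
  have h1 : ∀ y, W y = bump ρ y * W y := by
    intro y
    by_cases hy : y < a ∨ b < y
    · simp [h.supp y hy]
    · rw [not_or, not_lt, not_lt] at hy
      rw [bump_eq_one (abs_le.mpr ⟨by linarith [hy.1], by linarith [hy.2]⟩), ofReal_one, one_mul]
  have h2 : ∀ y, Integrable fun t => ft W t * ex t y := by
    intro y
    refine (integrable_norm_iff (h.ft_cont.mul (continuous_ex.comp
      (continuous_id.prodMk continuous_const))).aestronglyMeasurable).mp ?_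
    simpa [norm_ex] using h.ft_integrable 0
  rw [sm_eq_sum (L := L + |ρ| + 1) (N := ⌊Real.exp (L + |ρ| + 1)⌋₊ + 1)
    (fun y hy => by rw [h1, tbas_bump hy]; simp) (by push_cast; exact Nat.lt_floor_add_one _)]
  have h3 : ∀ (c d : ℂ) (y t : ℝ), ft W t * (c * (d * ex t y)) = c * d * (ft W t * ex t y) :=
    fun c d y t => by ring
  simp only [tbas_tw, mul_sum, h3]
  rw [integral_finsetSum _ fun n _ => (h2 _).const_mul _]
  refine sum_congr rfl fun n _ => ?_
  rw [integral_const_mul, ← h.inv, mul_assoc, ← h1]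
/-- From the basic family to arbitrary weights, which may depend on the index:
`nrm_integral` with `env t = C B / (1 + |t|) ^ (A + 2)`. -/
theorem nrm_sm_le (A : ℕ) (ρ : ℝ) : ∃ C : ℝ, 0 ≤ C ∧ ∀ (D : Data) (ι : Type) (T : Finset ι)
    (x : ι → ℕ → ℝ) (L G B : ℝ) (W : ι → ℝ → ℂ), 0 ≤ G → 0 ≤ B →
    (∀ t, nrm T (fun k => tw D (x k) ρ L t) ≤ G * (1 + |t|) ^ A) →
    (∀ k ∈ T, Sm (A + 2) (-ρ) ρ B (W k)) →
    nrm T (fun k => sm D (x k) fun y => W k (y - L)) ≤ C * B * G := by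
  obtain ⟨C, hC0, hC⟩ := Sm.ft_le (A + 2) (ρ - -ρ)
  refine ⟨2 * C, by positivity, fun D ι T x L G B W hG hB h1 h2 => ?_⟩
  have e0 : ∀ t : ℝ, C * B / (1 + |t|) ^ (A + 2) * (G * (1 + |t|) ^ A) =
      C * B * G * (1 / (1 + |t|) ^ 2) := fun t => by
    have : 0 < 1 + |t| := by positivity
    field_simp
    ring
  have e1 : Integrable fun t : ℝ => C * B / (1 + |t|) ^ (A + 2) * (G * (1 + |t|) ^ A) := by
    simp only [e0]
    exact integrable_inv_sq.const_mul _
  have e2 : Continuous fun t : ℝ => C * B / (1 + |t|) ^ (A + 2) :=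
    continuous_const.div (by fun_prop) fun t => by positivity
  refine (nrm_integral (c := fun k t => tw D (x k) ρ L t)
    (env := fun t => C * B / (1 + |t|) ^ (A + 2)) (fun t => by positivity) e2
    (fun k _ => continuous_tw D _ ρ L) (fun k hk => ?_) h1 e1).trans (le_of_eq ?_)
  · rw [sm_eq_integral (h2 k hk) le_rfl le_rfl]
    refine norm_integral_le_of_norm_le (e1.mono' (e2.mul
      (continuous_tw D _ ρ L).norm).aestronglyMeasurable (ae_of_all _ fun t => ?_))
      (ae_of_all _ fun t => ?_)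
    · rw [Real.norm_eq_abs, abs_of_nonneg (by positivity)]
      refine mul_le_mul_of_nonneg_left (le_trans ?_ (h1 t)) (by positivity)
      exact Real.le_sqrt_of_sq_le (single_le_sum (f := fun k => ‖tw D (x k) ρ L t‖ ^ 2)
        (fun _ _ => by positivity) hk)
    · rw [norm_mul]
      exact mul_le_mul_of_nonneg_right (hC _ _ _ _ le_rfl (h2 k hk) t) (norm_nonneg _)
  · simp only [e0]
    rw [integral_const_mul, integral_inv_sq]
    ring

end Pool.Agent.Lib.MP_03e5d0_nt
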