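import Pool.Agent.Lib.MP_03e5d0_nt.MF4
import Pool.Agent.Lib.MP_03e5d0_nt.BFE
import Pool.Agent.Lib.MP_03e5d0_nt.BEnt
import Pool.Agent.Lib.MP_03e5d0_nt.RSFin
import Pool.Agent.Lib.MP_03e5d0_nt.CAsm

/-! The main theorem. -/

set_option autoImplicit false

noncomputable section

namespace Pool.Agent.Lib.MP_03e5d0_nt

/-- A positive proportion of the quadratic twists of a modular curve have analytic rank one. -/
theorem main (a b : ℚ) (hab : 4 * a ^ 3 + 27 * b ^ 2 ≠ 0) (hm : IsModular (twist a b 1)) :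
    ∃ c : ℝ, 0 < c ∧ ∃ X₀ : ℝ, ∀ X : ℝ, X₀ ≤ X → c * countS X ≤ countN a b 1 X :=
  main_of core B.fe_of_form ps_of_form B.entire_twist a b hab hm

end Pool.Agent.Lib.MP_03e5d0_nt
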