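import Pool.Agent.Lib.MP_03e5d0_nt.ZEta
import Pool.Agent.Lib.MP_03e5d0_nt.MAfe2

set_option autoImplicit false

noncomputable section

namespace Pool.Agent.Lib.MP_03e5d0_nt

open Complex Finset MeasureTheory
open scoped NumberTheorySymbols Real ContDiff

/-! Approximate functional equations for the central value. -/

variable {D : Data} {k : ℤ} {C : ℝ} {γ : ℕ → ℝ}

theorem phi_scale (D : Data) (k : ℤ) (hC : 0 < C) {r : ℝ} (hr : 0 < r) (t : ℝ) :
    phi D k C (r * t) = phi D k (C / r ^ 2) t := by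
  have h1 : ((√C : ℝ) : ℂ) ≠ 0 := ofReal_ne_zero.2 (Real.sqrt_pos.2 hC).ne'
  have h2 : (r : ℂ) ≠ 0 := ofReal_ne_zero.2 hr.ne'
  rw [phi, phi, Real.sqrt_div hC.le, Real.sqrt_sq hr.le]
  congr 1
  push_cast
  field_simp

/-- `phi_decay` for the conductor `C / r ^ 2` (`phi_scale`). -/
theorem phi_decay' (D : Data) (k : ℤ) (hC : 0 < C) {r : ℝ} (hr : 0 < r) : ∃ K b : ℝ, 0 ≤ K ∧ 0 < b ∧
    ∀ (n : ℕ) (t : ℝ), r ≤ t → ‖(n : ℂ) * phi D k C (n * t)‖ ≤ K * Real.exp (-b * t) := by
  obtain ⟨K, b, hK, hb, h⟩ := phi_decay D k (C := C / r ^ 2) (by positivity)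
  refine ⟨K, b / r, hK, by positivity, fun n t ht => ?_⟩
  have h1 := h n (t / r) ((one_le_div hr).2 ht)
  rw [← phi_scale D k hC hr, show r * (n * (t / r)) = n * t by field_simp] at h1
  refine h1.trans_eq ?_
  congr 2
  ring

/-- Substitute `a t = exp g` (`integral_comp_mul_left_Ioi`, `integral_image_eq_integral_abs_deriv_smul` with
`exp`, or `integral_comp_log_Ioi`-type lemmas). -/
theorem integral_eta_exp {η : ℝ → ℝ} {a : ℝ} (ha : 0 < a) :
    ∫ t in Set.Ioi (0 : ℝ), η (Real.log t) * Real.exp (-(a * t)) =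
      (∫ g, gam g * η (g - Real.log a)) / a := by
  have h1 := integral_image_eq_integral_abs_deriv_smul (s := Set.univ) MeasurableSet.univ
    (fun x _ => (Real.hasDerivAt_exp x).hasDerivWithinAt) Real.exp_injective.injOn
    fun t => η (Real.log t) * Real.exp (-(a * t))
  rw [Set.image_univ, Real.range_exp, Measure.restrict_univ] at h1
  rw [h1, ← integral_add_right_eq_self (fun g => gam g * η (g - Real.log a)) (Real.log a),
    ← integral_div]
  refine integral_congr_ae (Filter.Eventually.of_forall fun u => ?_)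
  simp only [gam, Real.log_exp, smul_eq_mul, Real.exp_add, Real.exp_log ha, Real.abs_exp,
    add_sub_cancel_right, mul_comm a]
  field_simp

theorem zafe_V {η : ℝ → ℝ} {W : ℝ} (h01 : ∀ v, 0 ≤ η v ∧ η v ≤ 1) (h0 : ∀ v, v < -W → η v = 0)
    (y : ℝ) : 0 ≤ ∫ g, gam g * η (g - y) ∧
      ∫ g, gam g * η (g - y) ≤ 2 * Real.exp (-(2 * (y - W))) := by
  have h1 : ∀ g, 0 ≤ gam g * η (g - y) := fun g => mul_nonneg (gam_nonneg g) (h01 _).1
  refine ⟨integral_nonneg h1, (integral_mono_of_nonneg (g := (Set.Ici (y - W)).indicator gam)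
    (Filter.Eventually.of_forall h1) (integrable_gam.indicator measurableSet_Ici)
    (Filter.Eventually.of_forall fun g => ?_)).trans ?_⟩
  · by_cases hg : g ∈ Set.Ici (y - W)
    · rw [Set.indicator_of_mem hg]
      exact mul_le_of_le_one_right (gam_nonneg g) (h01 _).2
    · rw [Set.indicator_of_notMem hg]
      simp only [Set.mem_Ici, not_le] at hg
      simp only [h0 (g - y) (by linarith), mul_zero, le_refl]
  · rw [integral_indicator measurableSet_Ici, integral_Ici_eq_integral_Ioi, integral_gam_Ioi]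
    simpa [EE] using mww_le 2 (y - W)

theorem zafe_int {η : ℝ → ℝ} (hm : Measurable η) (h01 : ∀ v, 0 ≤ η v ∧ η v ≤ 1) {a : ℝ}
    (ha : 0 < a) : IntegrableOn (fun t => η (Real.log t) * Real.exp (-(a * t))) (Set.Ioi 0) := by
  refine Integrable.mono' (exp_neg_integrableOn_Ioi 0 ha)
    (by fun_prop : Measurable fun t => η (Real.log t) * Real.exp (-(a * t))).aestronglyMeasurable
    (Filter.Eventually.of_forall fun t => ?_)
  rw [Real.norm_of_nonneg (mul_nonneg (h01 _).1 (Real.exp_pos _).le), neg_mul]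
  exact mul_le_of_le_one_left (Real.exp_pos _).le (h01 _).2

/-- Termwise integration of `phi_hasSum`, as in `integral_log_phi`; the integrand vanishes for `t < exp (-W)`,
which gives the summability. -/
theorem integral_eta_phi (D : Data) (k : ℤ) (hC : 0 < C) {η : ℝ → ℝ} {W : ℝ} (hm : Measurable η)
    (h01 : ∀ v, 0 ≤ η v ∧ η v ≤ 1) (h0 : ∀ v, v < -W → η v = 0) {n : ℕ} (hn : n ≠ 0) :
    ∫ t in Set.Ioi (0 : ℝ), (η (Real.log t) : ℂ) * (n * phi D k C (n * t)) = ((√C / (2 * π) : ℝ) : ℂ) *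
      sm D (jac k) fun y =>
        ((∫ g, gam g * η (g - (y + Real.log n - Real.log (√C / (2 * π)))) : ℝ) : ℂ) := by
  obtain ⟨B, hB⟩ : ∃ B : ℝ, B = √C / (2 * π) := ⟨_, rfl⟩
  have hB0 : 0 < B := by rw [hB]; positivity
  have hb : 2 * π / √C = B⁻¹ := by rw [hB, inv_div]
  have hn0 : (0 : ℝ) < n := Nat.cast_pos.mpr (Nat.pos_of_ne_zero hn)
  rw [← hB]
  let F : ℕ → ℝ → ℂ := fun m t =>
    D.co k m * n * ((η (Real.log t) * Real.exp (-(B⁻¹ * m * n * t)) : ℝ) : ℂ)
  let T : ℕ → ℂ := fun m => ((D.lam m * cm (jac k) m / √m : ℝ) : ℂ) *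
    ((∫ g, gam g * η (g - (Real.log m + Real.log n - Real.log B)) : ℝ) : ℂ)
  have h1 : ∀ m, IntegrableOn (F m) (Set.Ioi 0) ∧ ∫ t in Set.Ioi (0 : ℝ), F m t = B * T m := by
    intro m
    rcases Nat.eq_zero_or_pos m with rfl | hm'
    · simp [F, T, co_eq]
    have hm0 : (0 : ℝ) < m := Nat.cast_pos.mpr hm'
    have a1 := zafe_int hm h01 (a := B⁻¹ * m * n) (by positivity)
    have a2 := integral_eta_exp (η := η) (a := B⁻¹ * m * n) (by positivity)
    refine ⟨Integrable.const_mul a1.ofReal _, ?_⟩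
    have a3 : Real.log (B⁻¹ * m * n) = Real.log m + Real.log n - Real.log B := by
      rw [Real.log_mul (by positivity) hn0.ne', Real.log_mul (by positivity) hm0.ne', Real.log_inv]
      ring
    have a4 : (m : ℂ) ≠ 0 := Nat.cast_ne_zero.mpr hm'.ne'
    have a5 : (n : ℂ) ≠ 0 := Nat.cast_ne_zero.mpr hn
    have a6 : (B : ℂ) ≠ 0 := ofReal_ne_zero.mpr hB0.ne'
    simp only [F, T]
    rw [integral_const_mul, integral_complex_ofReal, a2, a3, co_eq]
    generalize D.lam m * cm (jac k) m / √m = c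
    generalize ∫ g, gam g * η (g - (Real.log m + Real.log n - Real.log B)) = e
    push_cast
    field_simp
  have h2 : Summable fun m => ‖T m‖ :=
    summable_sm (D := D) (V := fun y =>
      ((∫ g, gam g * η (g - (y + Real.log n - Real.log B)) : ℝ) : ℂ))
      (K := 2 * Real.exp (-2 * (Real.log n - Real.log B - W))) (adm_jac k) fun y _ => by
        rw [norm_real, Real.norm_of_nonneg (zafe_V h01 h0 _).1, mul_assoc, ← Real.exp_add]
        refine (zafe_V h01 h0 _).2.trans_eq ?_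
        congr 2
        ring
  have h3 := hasSum_integral_of_summable_integral_norm (F := F) (fun m => (h1 m).1) (by
    refine (h2.mul_left ‖(B : ℂ)‖).congr fun m => ?_
    rw [← norm_mul, ← (h1 m).2]
    exact (mafe2_norm _ measurableSet_Ioi fun t _ =>
      mul_nonneg (h01 _).1 (Real.exp_pos _).le).symm)
  simp only [(h1 _).2] at h3
  have h4 := h3.unique (h2.of_norm.hasSum.mul_left (B : ℂ))
  refine Eq.trans (setIntegral_congr_fun measurableSet_Ioi fun t ht => ?_) h4
  have h5 := ((phi_hasSum (D := D) (k := k) hC (mul_pos hn0 ht)).mul_left (n : ℂ)).mul_left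
    (η (Real.log t) : ℂ)
  refine (h5.tsum_eq.symm).trans (tsum_congr fun m => ?_)
  simp only [F]
  rw [hb, ofReal_mul, mul_assoc (B⁻¹ * m)]
  ring

theorem zafe_bound (D : Data) (k : ℤ) (hC : 0 < C) {η : ℝ → ℝ} {W : ℝ} (hm : Measurable η)
    (h01 : ∀ v, 0 ≤ η v ∧ η v ≤ 1) (h0 : ∀ v, v < -W → η v = 0) : ∃ K : ℝ, ∀ n : ℕ,
    IntegrableOn (fun t => (η (Real.log t) : ℂ) * (n * phi D k C (n * t))) (Set.Ioi 0) ∧
      ∫ t in Set.Ioi (0 : ℝ), ‖(η (Real.log t) : ℂ) * (n * phi D k C (n * t))‖ ≤ K := by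
  obtain ⟨K, b, hK, hb, H⟩ := phi_decay' D k hC (Real.exp_pos (-W))
  have h1 := (exp_neg_integrableOn_Ioi 0 hb).const_mul K
  refine ⟨∫ t in Set.Ioi (0 : ℝ), K * Real.exp (-b * t), fun n => ?_⟩
  have h2 : ∀ᵐ t ∂(volume.restrict (Set.Ioi (0 : ℝ))),
      ‖(η (Real.log t) : ℂ) * (n * phi D k C (n * t))‖ ≤ K * Real.exp (-b * t) := by
    refine (ae_restrict_iff' measurableSet_Ioi).mpr (Filter.Eventually.of_forall fun t ht => ?_)
    rcases le_or_gt (Real.exp (-W)) t with h3 | h3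
    · rw [norm_mul, norm_real, Real.norm_of_nonneg (h01 _).1]
      exact (mul_le_of_le_one_left (norm_nonneg _) (h01 _).2).trans (H n t h3)
    · rw [h0 _ ((Real.log_lt_iff_lt_exp ht).mpr h3), ofReal_zero, zero_mul, norm_zero]
      positivity
  have h3 : IntegrableOn (fun t => (η (Real.log t) : ℂ) * (n * phi D k C (n * t))) (Set.Ioi 0) := by
    rcases Nat.eq_zero_or_pos n with rfl | hn
    · simp
    refine Integrable.mono' h1 (AEStronglyMeasurable.mul
      (by fun_prop : Measurable fun t => (η (Real.log t) : ℂ)).aestronglyMeasurable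
      (ContinuousOn.aestronglyMeasurable ?_ measurableSet_Ioi)) h2
    exact continuousOn_const.mul ((phi_continuousOn hC).comp (by fun_prop) fun t ht =>
      mul_pos (Nat.cast_pos.mpr hn) (Set.mem_Ioi.mp ht))
  exact ⟨h3, integral_mono_ae h3.norm h1 h2⟩

/-- `∫ phi = ∫ η (log t) phi t + ∫ η (-log t) phi t` (almost everywhere); in the second integral substitute
`t ↦ t⁻¹` (`integral_comp_rpow_Ioi` with `p = -1`, `phi_inv`); termwise integration with `phi_decay'`; compare
`integral_log_phi_eq`. -/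
theorem afe_genZ (hC : 0 < C) (hγ : Summable fun n => |γ n|) (h : D.Dual k C γ) {η : ℝ → ℝ} {W : ℝ}
    (hm : Measurable η) (h01 : ∀ v, 0 ≤ η v ∧ η v ≤ 1) (h0 : ∀ v, v < -W → η v = 0)
    (hs : ∀ v, v ≠ 0 → η v + η (-v) = 1) :
    ∫ t in Set.Ioi (0 : ℝ), phi D k C t = ((√C / (2 * π) : ℝ) : ℂ) *
      ∑' n : ℕ, (kap (fun n => -γ n) n : ℂ) * sm D (jac k) fun y =>
        ((∫ g, gam g * η (g - (y + Real.log n - Real.log (√C / (2 * π)))) : ℝ) : ℂ) := by
  obtain ⟨K, hK⟩ := zafe_bound D k hC hm h01 h0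
  have h1 := (mafe2_int hC hγ h).1
  obtain ⟨S, hS⟩ : ∃ S : ℕ → ℂ, ∀ n, S n = sm D (jac k) fun y =>
    ((∫ g, gam g * η (g - (y + Real.log n - Real.log (√C / (2 * π)))) : ℝ) : ℂ) :=
    ⟨_, fun _ => rfl⟩
  obtain ⟨B, hB⟩ : ∃ B : ℂ, B = ((√C / (2 * π) : ℝ) : ℂ) := ⟨_, rfl⟩
  have h2 : ∀ n : ℕ, n ≠ 0 →
      ∫ t in Set.Ioi (0 : ℝ), (η (Real.log t) : ℂ) * (n * phi D k C (n * t)) = B * S n := by
    intro n hn
    rw [hB, hS]
    exact integral_eta_phi D k hC hm h01 h0 hn
  have h3 : ∫ t in Set.Ioi (0 : ℝ), (η (Real.log t) : ℂ) * phi D k C t = B * S 1 := by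
    simpa only [Nat.cast_one, one_mul] using h2 1 one_ne_zero
  have h4 : ∫ t in Set.Ioi (0 : ℝ), (η (-Real.log t) : ℂ) * phi D k C t =
      ∫ t in Set.Ioi (0 : ℝ), ∑' n : ℕ,
        ((-γ n : ℝ) : ℂ) * ((η (Real.log t) : ℂ) * (n * phi D k C (n * t))) := by
    rw [← integral_comp_rpow_Ioi _ (p := -1) (by norm_num)]
    refine setIntegral_congr_fun measurableSet_Ioi fun t ht => ?_
    have ht' : (0 : ℝ) < t := ht
    have ht2 : (t : ℂ) ≠ 0 := ofReal_ne_zero.mpr ht'.ne'
    obtain ⟨a2, a3⟩ := phi_inv hC h ht'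
    have a4 := (a2.mul_left (-η (Real.log t) : ℂ)).tsum_eq
    rw [Real.rpow_neg_one, a3, show (-1 - 1 : ℝ) = -(2 : ℕ) by norm_num,
      Real.rpow_neg ht'.le, Real.rpow_natCast, real_smul, Real.log_inv, neg_neg,
      tsum_congr fun n => show ((-γ n : ℝ) : ℂ) * ((η (Real.log t) : ℂ) * (n * phi D k C (n * t))) =
        (-η (Real.log t) : ℂ) * ((γ n : ℂ) * n * phi D k C (n * t)) by push_cast; ring, a4,
      abs_neg, abs_one, one_mul, ofReal_inv, ofReal_pow]
    field_simp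
  have h5 := hasSum_integral_of_summable_integral_norm (μ := volume.restrict (Set.Ioi (0 : ℝ)))
    (F := fun (n : ℕ) (t : ℝ) =>
      ((-γ n : ℝ) : ℂ) * ((η (Real.log t) : ℂ) * (n * phi D k C (n * t))))
    (fun n => (hK n).1.const_mul _) (by
      refine Summable.of_nonneg_of_le (fun n => integral_nonneg fun t => norm_nonneg _)
        (fun n => ?_) (hγ.mul_right K)
      simp only [norm_mul ((-γ n : ℝ) : ℂ), norm_real, Real.norm_eq_abs, abs_neg]
      rw [integral_const_mul]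
      exact mul_le_mul_of_nonneg_left (hK n).2 (abs_nonneg _))
  have h6 : ∀ n : ℕ, ∫ t in Set.Ioi (0 : ℝ), ((-γ n : ℝ) : ℂ) * ((η (Real.log t) : ℂ) *
      (n * phi D k C (n * t))) = B * (((if n = 0 then 0 else -γ n : ℝ) : ℂ) * S n) := by
    intro n
    split_ifs with hn
    · simp [hn]
    · rw [integral_const_mul, h2 n hn]
      ring
  simp only [h6] at h5
  have h7 : HasSum (fun n : ℕ => B * (((if n = 1 then 1 else 0 : ℝ) : ℂ) * S n)) (B * S 1) := by
    have := hasSum_single (f := fun n : ℕ => B * (((if n = 1 then 1 else 0 : ℝ) : ℂ) * S n)) 1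
      fun n hn => by simp [hn]
    simpa using this
  have h8 := (h7.add h5).tsum_eq
  have h9 : ∀ u : ℝ → ℝ, Measurable u →
      IntegrableOn (fun t => (η (u t) : ℂ) * phi D k C t) (Set.Ioi 0) := fun u hu =>
    Integrable.bdd_mul (c := 1) h1
      (by fun_prop : Measurable fun t => (η (u t) : ℂ)).aestronglyMeasurable
      (Filter.Eventually.of_forall fun t => by
        rw [norm_real, Real.norm_of_nonneg (h01 _).1]
        exact (h01 _).2)
  have h10 : ∫ t in Set.Ioi (0 : ℝ), phi D k C t = ∫ t in Set.Ioi (0 : ℝ),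
      ((η (Real.log t) : ℂ) * phi D k C t + (η (-Real.log t) : ℂ) * phi D k C t) := by
    refine setIntegral_congr_ae measurableSet_Ioi ?_
    filter_upwards [compl_mem_ae_iff.mpr (measure_singleton (μ := volume) (1 : ℝ))] with t h1 ht
    rw [← add_mul, ← ofReal_add, hs _ (Real.log_ne_zero_of_pos_of_ne_one ht h1), ofReal_one, one_mul]
  rw [h10, integral_add (h9 _ Real.measurable_log)
    (h9 (fun t => -Real.log t) Real.measurable_log.neg), h3, h4, ← h8, ← hB, ← tsum_mul_left]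
  refine tsum_congr fun n => ?_
  rw [← hS, kap, ofReal_add]
  ring

/-- `η` is the indicator function of `(0, ∞)`; `integral_gam_Ioi`. -/
theorem afe_L0 (hC : 0 < C) (hγ : Summable fun n => |γ n|) (h : D.Dual k C γ) :
    ∫ t in Set.Ioi (0 : ℝ), phi D k C t = ((√C / (2 * π) : ℝ) : ℂ) *
      L0 D (kap fun n => -γ n) (jac k) (Real.log (√C / (2 * π))) := by
  have h1 : ∀ y : ℝ, ∫ g, gam g * (Set.Ioi (0 : ℝ)).indicator (fun _ => (1 : ℝ)) (g - y) = EE y :=
    fun y => by
      rw [← integral_gam_Ioi, ← integral_indicator measurableSet_Ioi]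
      refine integral_congr_ae (Filter.Eventually.of_forall fun g => ?_)
      simp [Set.indicator_apply]
  have h2 := afe_genZ hC hγ h (η := (Set.Ioi (0 : ℝ)).indicator fun _ => (1 : ℝ)) (W := 0)
    (measurable_const.indicator measurableSet_Ioi)
    (fun v => by rw [Set.indicator_apply]; split_ifs <;> simp)
    (fun v hv => Set.indicator_of_notMem (by simpa using hv.le) _)
    (fun v hv => by
      rcases lt_or_gt_of_ne hv with h3 | h3 <;> simp [h3, h3.not_gt])
  simp only [h1] at h2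
  exact h2

theorem afe_Lw (hC : 0 < C) (hγ : Summable fun n => |γ n|) (h : D.Dual k C γ) {W : ℝ} (hW : 0 < W) :
    Lw D (kap fun n => -γ n) W (jac k) (Real.log (√C / (2 * π))) =
      L0 D (kap fun n => -γ n) (jac k) (Real.log (√C / (2 * π))) := by
  have h1 := afe_genZ hC hγ h (continuous_eta W).measurable (eta_mem W)
    (fun v hv => eta_zero hW hv.le) fun v _ => eta_add W v
  rw [afe_L0 hC hγ h] at h1
  exact (mul_left_cancel₀ (ofReal_ne_zero.mpr (by positivity)) h1).symm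

/-- `G` as in `afe`; `mellin phi 1 = ∫ phi`. -/
theorem nonZ_of (hC : 0 < C) (hγ : Summable fun n => |γ n|) (h : D.Dual k C γ)
    (hL : L0 D (kap fun n => -γ n) (jac k) (Real.log (√C / (2 * π))) ≠ 0) : D.NonZ k := by
  obtain ⟨B, hB⟩ : ∃ B : ℂ, B = ((√C / (2 * π) : ℝ) : ℂ) := ⟨_, rfl⟩
  have hB0 : B ≠ 0 := by
    rw [hB]
    exact ofReal_ne_zero.mpr (by positivity)
  have hM : Differentiable ℂ (mellin (phi D k C)) := fun s =>
    (mellin_phi_deriv hC hγ h s).2.2.differentiableAt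
  have hH : Differentiable ℂ fun s : ℂ => B ^ (-s) * (Gamma s)⁻¹ :=
    (differentiable_neg.const_cpow (Or.inl hB0)).mul differentiable_one_div_Gamma
  have h1 : mellin (phi D k C) 1 =
      B * L0 D (kap fun n => -γ n) (jac k) (Real.log (√C / (2 * π))) := by
    rw [hB, ← afe_L0 hC hγ h]
    simp [mellin]
  refine ⟨fun s => mellin (phi D k C) s * (B ^ (-s) * (Gamma s)⁻¹), hM.mul hH, fun s hs => ?_, ?_⟩
  · have a1 : Gamma s ≠ 0 := Gamma_ne_zero_of_re_pos (by linarith)
    have a2 : B ^ s ≠ 0 := by simp [hB0]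
    beta_reduce
    rw [mellin_phi D k hC hs, ← hB, cpow_neg]
    field_simp
  · beta_reduce
    rw [h1, Gamma_one, inv_one, mul_one, cpow_neg_one]
    exact mul_ne_zero (mul_ne_zero hB0 hL) (inv_ne_zero hB0)

end Pool.Agent.Lib.MP_03e5d0_nt
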