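import Pool.Agent.Lib.MP_03e5d0_nt.ZDef
import Pool.Agent.Lib.MP_03e5d0_nt.BFE

set_option autoImplicit false

noncomputable section

namespace Pool.Agent.Lib.MP_03e5d0_nt

open Complex Finset MeasureTheory
open scoped NumberTheorySymbols Real ContDiff

/-! The functional equation in the larger family. -/

theorem zb_smooth {D : Data} {d : ℤ} (hd : D.Sq d) {n : ℕ}
    (hn : n ∈ Nat.factoredNumbers D.q.primeFactors) : J((n : ℤ) | d.natAbs) = 1 := by
  rw [← B.jac_eight hd.1 hn.1]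
  induction n using induction_on_primes with
  | zero => exact jacobiSym.zero_right d
  | one => exact jacobiSym.one_right d
  | prime_mul p a hp ih =>
    have h1 := Nat.mem_factoredNumbers_of_dvd hn (dvd_mul_left a p)
    have h2 := Nat.mem_factoredNumbers'.1 hn p hp (dvd_mul_right p a)
    have h3 : J(d | p) = 1 := by
      by_cases h : p = 2
      · have h8 : d % 8 = 1 := hd.1
        rw [h, jacobiSym.mod_left' (a₂ := 1) (by omega), jacobiSym.one_left]
      · exact hd.2 p hp (Nat.dvd_of_mem_primeFactors h2) h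
    rw [jacobiSym.mul_right' d hp.ne_zero h1.1, ih h1, h3, one_mul]

theorem zb_cop {D : Data} {d : ℤ} (hd : D.Sq d) : d.natAbs.Coprime D.q := by
  refine Nat.coprime_of_dvd fun p hp a1 a2 => ?_
  have a3 : (p : ℤ) ∣ d := Int.natCast_dvd.2 a1
  by_cases h : p = 2
  · have h8 : d % 8 = 1 := hd.1
    subst h
    omega
  · have h1 := hd.2 p hp a2 h
    rw [jacobiSym.mod_left, Int.emod_eq_zero_of_dvd a3, jacobiSym.zero_left hp.one_lt] at h1
    exact zero_ne_one h1

/-- As the last clause of `B.fe_of_form`: `J(p | |d|) = J(d | p) = 1` for odd `p ∣ q` by reciprocity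
(`d ≡ 1 mod 4`), and `J(2 | |d|) = 1`. -/
theorem fe2_of_form {N : ℕ} [NeZero N] (f : CuspForm (CongruenceSubgroup.Gamma0 N) 2) (D : Data)
    (hN : N ∣ D.q) (ha : ∀ n : ℕ, n.Coprime D.q →
      (UpperHalfPlane.qExpansion 1 f).coeff n = ((D.lam n * √n : ℝ) : ℂ)) : D.FE2 := by
  classical
  have h2 : 2 ∣ D.q := D.small 2 Nat.prime_two (by norm_num)
  have hq := D.q_ne
  have hN0 := NeZero.ne N
  obtain ⟨g, b, hg, hQ, hb, hb0, hbm, hbs⟩ := B.exists_base f D hN ha (k := 1) (one_dvd _)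
  set M := N * (4 * D.q) ^ 2 with hM
  have hM0 : 0 < M := by positivity
  let sm : ℕ → Prop := fun n => n ∈ Nat.factoredNumbers D.q.primeFactors
  have hodd : ∀ n : ℕ, n.Coprime D.q → Odd n := fun n hn =>
    Nat.coprime_two_right.1 (Nat.Coprime.coprime_dvd_right h2 hn)
  have hcM : ∀ c : ℕ, c.Coprime D.q → c.Coprime M := by
    intro c h1
    have h4 : c.Coprime 4 := (Nat.Coprime.coprime_dvd_right h2 h1).pow_right 2
    exact (Nat.Coprime.coprime_dvd_right hN h1).mul_right ((h4.mul_right h1).pow_right 2)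
  have key : ∀ (k : ℤ) (c : ℕ), Squarefree c → c.Coprime D.q →
      (∀ n : ℕ, Odd n → J(k | n) = J(1 | n) * J((n : ℤ) | c)) →
      D.Dual k ((M * c ^ 2 : ℕ) : ℝ) fun n =>
        if sm n then (J(-(M : ℤ) | c) : ℝ) * (J((n : ℤ) | c) : ℝ) * (b n / n) else 0 := by
    intro k c hc hcq hJ
    obtain ⟨G, -, hG, hG'⟩ := B.twist_sqfree hM0 hg hQ hb hc (hodd c hcq) (hcM c hcq)
    have e : ∀ n : ℕ, D.co 1 n * ((J((n : ℤ) | c) : ℤ) : ℂ) = D.co k n := by
      intro n
      by_cases hn : n.Coprime D.q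
      · rw [Data.co, Data.co, hJ n (hodd n hn)]
        push_cast
        ring
      · simp [Data.co, D.lam_zero n hn]
    simp only [e] at hG
    have hc0 : 0 < c := Nat.pos_of_ne_zero hc.ne_zero
    refine B.dual_of_qs D (by positivity) hG hG' (by simp [hb0]) (fun n hn => if_neg hn)
      fun n₀ h0 n' h' => ?_
    have hn₀ : (n₀ : ℂ) ≠ 0 := by exact_mod_cast h0.1
    rw [if_pos h0, hbm n₀ h0 n' h', ← e n', Nat.cast_mul n₀ n', jacobiSym.mul_left]
    push_cast
    field_simp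
  refine ⟨M, fun n => if sm n then b n / n else 0, by positivity, hbs.congr fun n => ?_,
    fun d hd => ?_⟩
  · simp only [sm]
    split_ifs
    · rw [abs_div, Nat.abs_cast]
    · rw [abs_zero, zero_mul]
  have hd8 : d ≡ 1 [ZMOD 8] := hd.2.1
  have hd4 : d ≡ 1 [ZMOD 4] := hd8.of_dvd (by norm_num)
  have h1 := key d d.natAbs (Int.squarefree_natAbs.2 hd.1) (zb_cop hd.2) fun n hn => by
    rw [jacobiSym.one_left, one_mul, B.jac_eight hd8 hn.pos.ne']
  have hMs : sm M := by
    refine Nat.mem_factoredNumbers'.2 fun p hp hpM => ?_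
    refine Nat.mem_primeFactors.2 ⟨hp, ?_, hq⟩
    by_contra hpq
    exact (Nat.Prime.coprime_iff_not_dvd hp).1
      (hcM p ((Nat.Prime.coprime_iff_not_dvd hp).2 hpq)) hpM
  have e1 : J(-(M : ℤ) | d.natAbs) = d.sign := by
    rw [← neg_one_mul, jacobiSym.mul_left, B.jac_neg_one hd4, zb_smooth hd.2 hMs, mul_one]
  have e2 : ((M * d.natAbs ^ 2 : ℕ) : ℝ) = M * (d : ℝ) ^ 2 := by
    rw [Nat.cast_mul, Nat.cast_pow, Nat.cast_natAbs, Int.cast_abs, sq_abs]
  have e3 : (fun n : ℕ => if sm n then (J(-(M : ℤ) | d.natAbs) : ℝ) *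
      (J((n : ℤ) | d.natAbs) : ℝ) * (b n / n) else 0)
      = fun n : ℕ => (d.sign : ℝ) * if sm n then b n / n else 0 := by
    funext n
    split_ifs with hn
    · rw [e1, zb_smooth hd.2 hn, Int.cast_one, mul_one]
    · rw [mul_zero]
  rw [e2, e3] at h1
  exact h1

end Pool.Agent.Lib.MP_03e5d0_nt
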