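import Pool.Agent.Lib.MP_03e5d0_nt.ZPoly
import Pool.Agent.Lib.MP_03e5d0_nt.MSm2

set_option autoImplicit false

noncomputable section

namespace Pool.Agent.Lib.MP_03e5d0_nt

open Complex Finset MeasureTheory
open scoped NumberTheorySymbols Real ContDiff

/-! The weight of the bad integers. -/

theorem not_good2 {D : Data} {n K : ℕ} (hn : 1 ≤ n) {x : ℕ → ℝ} (h : ¬Good2 D n K x) :
    1 ≤ ∑ k ∈ range K, (xb D n k x / (3 * (n : ℝ) ^ 2)) ^ (2 * n ^ 2) := by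
  unfold Good2 at h
  push Not at h
  obtain ⟨k, hk, h⟩ := h
  have h2 : (0 : ℝ) < n := by exact_mod_cast hn
  have h3 : (0 : ℝ) < 3 * (n : ℝ) ^ 2 := by positivity
  refine le_trans ?_ (single_le_sum (f := fun k => (xb D n k x / (3 * (n : ℝ) ^ 2)) ^ (2 * n ^ 2))
    (fun i _ => (even_two_mul _).pow_nonneg _) (mem_range.2 hk))
  rw [← (even_two_mul _).pow_abs]
  refine one_le_pow₀ ?_
  rw [abs_div, abs_of_pos h3, le_div_iff₀ h3]
  linarith

/-- `Ex_prod_indep` with the factors `cap ^ 2` for `k' ≠ k` (`blk_cap_up` with `e = 2`, `c = 0`, `z = 0`, where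
`GG = 1` and `mn = 0`) and `cap ^ 2 * moment` for `k' = k` (`blk_cap_mom`); `zb_sums`, `zb_subset`,
`zb_disjoint`; `20 * ep k₀ ≤ 1`. -/
theorem mom_model (D : Data) (hPS : D.PS) {k₀ : ℕ} (hk : 4800000 ≤ k₀) (K : ℕ) : ∃ (n₀ : ℕ) (C : ℝ), 0 ≤ C ∧
    ∀ (n k : ℕ) (Λ : ℝ), n₀ ≤ n → k < K → Real.exp (K * n) ≤ Λ →
    Ex (pr D Λ) dl0 (fun x => QQ D k₀ n 0 K x ^ 2 * (xb D n k x / (3 * (n : ℝ) ^ 2)) ^ (2 * n ^ 2)) ≤
      C * Real.exp (K * n - (n : ℝ) ^ 2) := by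
  obtain ⟨n₁, C, hC, H⟩ := blk_cap_up (k₀ := k₀) (by omega)
  obtain ⟨n₂, E₀, -, H₂⟩ := zb_sums D hPS
  obtain ⟨n₃, H₃⟩ := blk_cap_mom k₀
  obtain ⟨e1, e2⟩ := ep_mem hk
  refine ⟨max n₁ (max n₂ n₃), C ^ K, by positivity, fun n k Λ hn hkK hΛ => ?_⟩
  have hn1 : n₁ ≤ n := (le_max_left _ _).trans hn
  have hn2 : n₂ ≤ n := ((le_max_left _ _).trans (le_max_right _ _)).trans hn
  have hn3 : n₃ ≤ n := ((le_max_right _ _).trans (le_max_right _ _)).trans hn
  have hS : pr D (Real.exp (K * n)) ⊆ pr D Λ := pr_mono D hΛ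
  have hk' : k ∈ Ico 0 K := mem_Ico.2 ⟨Nat.zero_le _, hkK⟩
  have e : (fun x => QQ D k₀ n 0 K x ^ 2 * (xb D n k x / (3 * (n : ℝ) ^ 2)) ^ (2 * n ^ 2)) =
      fun x => ∏ j ∈ Ico 0 K, cap k₀ n (xb D n j x) ^ 2 *
        if j = k then (xb D n j x / (3 * (n : ℝ) ^ 2)) ^ (2 * n ^ 2) else 1 := by
    funext x
    rw [prod_mul_distrib, prod_pow, prod_ite_eq', if_pos hk', QQ]
  rw [e, Ex_prod_indep (Ico 0 K) (zb D n) (fun j _ x y h => by
    unfold xb PI
    rw [sum_congr rfl fun p hp => by rw [h p hp]]) (zb_disjoint D n _)]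
  have hCn : 1 ≤ C * Real.exp n :=
    one_le_mul_of_one_le_of_one_le hC (Real.one_le_exp (Nat.cast_nonneg n))
  have h1 : ∀ j ∈ Ico 0 K, Ex (pr D Λ) dl0 (fun x => cap k₀ n (xb D n j x) ^ 2 *
        if j = k then (xb D n j x / (3 * (n : ℝ) ^ 2)) ^ (2 * n ^ 2) else 1) ≤
      C * Real.exp n * if j = k then Real.exp (-(n : ℝ) ^ 2) else 1 := fun j hj => by
    have hj2 := (zb_subset D n (mem_Ico.1 hj).2).trans hS
    by_cases hjk : j = k
    · simp only [if_pos hjk]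
      exact (H₃ D _ _ dl0 n hn3 hj2 (fun p hp => mker_mem hp) dl_dl0 (H₂ n j hn2).1).trans
        (le_mul_of_one_le_left (Real.exp_pos _).le hCn)
    · simp only [if_neg hjk, mul_one]
      have h2 := H D _ _ dl0 n 2 0 (fun _ => 0) (fun _ => 0) hn1 hj2 (fun p hp => mker_mem hp)
        dl_dl0 (Or.inr rfl) (by norm_num) (H₂ n j hn2).1 (fun p _ => by rw [norm_zero]; positivity)
        fun p _ => by rw [norm_zero]; positivity
      simp only [GG, lf_zero, norm_one, mul_one, prod_const_one, mn, zero_div, zero_re, add_zero,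
        ne_eq, OfNat.ofNat_ne_zero, not_false_eq_true, zero_pow, mul_zero, sum_const_zero, zero_mul,
        sub_zero] at h2
      refine h2.trans (mul_le_mul_of_nonneg_left (Real.exp_le_exp.2 ?_) (by linarith))
      exact mul_le_of_le_one_left (Nat.cast_nonneg n) (by linarith)
  refine (prod_le_prod (fun j _ => ?_) h1).trans (le_of_eq ?_)
  · refine (Ex_const (P := pr D Λ) (δ := dl0) (0 : ℝ)).ge.trans
      (Ex_mono (fun p hp => (mker_mem hp).1) dl_dl0 fun x _ => mul_nonneg (sq_nonneg _) ?_)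
    split_ifs
    · exact (even_two_mul _).pow_nonneg _
    · exact zero_le_one
  · rw [prod_mul_distrib, prod_const, prod_ite_eq', if_pos hk', Nat.card_Ico, Nat.sub_zero, mul_pow,
      ← Real.exp_nat_mul, mul_assoc, ← Real.exp_add, sub_eq_add_neg]

theorem zbad_err {B L : ℝ} (hL : 1 ≤ L) (hB : 0 ≤ B) (h : 2 ^ 11 * (11 : ℕ).factorial * (8 * B) ≤ L) :
    B * (Real.exp (L / 2) * (1 + L) ^ 2) ≤ Real.exp L / (2 * L ^ 8) := by
  have h1 := Real.pow_div_factorial_le_exp (L / 2) (by linarith) 11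
  have h2 : 8 * B * L ^ 10 ≤ Real.exp (L / 2) := by
    refine le_trans ?_ h1
    rw [le_div_iff₀ (by positivity), div_pow, le_div_iff₀ (by positivity)]
    calc 8 * B * L ^ 10 * ((11 : ℕ).factorial : ℝ) * 2 ^ 11
        = 2 ^ 11 * (11 : ℕ).factorial * (8 * B) * L ^ 10 := by ring
      _ ≤ L * L ^ 10 := by gcongr
      _ = L ^ 11 := by ring
  have h3 : (1 + L) ^ 2 ≤ (2 * L) ^ 2 := by gcongr; linarith
  rw [le_div_iff₀ (by positivity)]
  calc B * (Real.exp (L / 2) * (1 + L) ^ 2) * (2 * L ^ 8)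
      ≤ B * (Real.exp (L / 2) * (2 * L) ^ 2) * (2 * L ^ 8) := by gcongr
    _ = Real.exp (L / 2) * (8 * B * L ^ 10) := by ring
    _ ≤ Real.exp (L / 2) * Real.exp (L / 2) := by gcongr
    _ = Real.exp L := by rw [← Real.exp_add, add_halves]

open Classical in
/-- As `bad_card`: `not_good2`, `sum_allm_le_gsum`, `trans0` with `Y` from `poly_QQ_mom`, `Y ^ (c + 1) ≤ √X`,
`Λ = log X`, `mom_model`, `par2_large`. -/
theorem bad2 (D : Data) (hFE : D.FE) (hPS : D.PS) {k₀ K : ℕ} (hk : 4800000 ≤ k₀) (hK : 1 ≤ K) :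
    ∃ X₀ : ℝ, ∀ (X : ℝ) (n : ℕ), X₀ ≤ X → Par2 k₀ K X n →
    nrm ((allm X).filter fun m => ¬Good2 D n K (jac m)) (qK D k₀ n K) ≤ √X / Real.log X ^ 4 := by
  obtain ⟨c, C₁, hC₁, H₁⟩ := trans0 D hFE hPS
  obtain ⟨n₀, C, hC, H₀⟩ := mom_model D hPS hk K
  obtain ⟨X₁, P₁⟩ := par2_large hk hK (max n₀ 1) (104 * k₀ * (c + 1))
  obtain ⟨X₂, P₂⟩ := par2_large hk hK 0 (2 * (K * Real.exp π * C))
  refine ⟨max (max X₁ X₂) (max (Real.exp 3)
    (Real.exp (2 ^ 11 * (11 : ℕ).factorial * (8 * (K * Real.exp π * C₁))))), fun X n hX hP => ?_⟩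
  obtain ⟨hn, -, a1, -⟩ := P₁ X n (((le_max_left _ _).trans (le_max_left _ _)).trans hX) hP
  obtain ⟨-, -, -, a2⟩ := P₂ X n (((le_max_right _ _).trans (le_max_left _ _)).trans hX) hP
  obtain ⟨hX3, hL3, hXe, hl0, hl1⟩ := msm2_big (((le_max_left _ _).trans (le_max_right _ _)).trans hX)
  have a3 : 2 ^ 11 * (11 : ℕ).factorial * (8 * (K * Real.exp π * C₁)) ≤ Real.log X :=
    (Real.le_log_iff_exp_le (by linarith)).2 (((le_max_right _ _).trans (le_max_right _ _)).trans hX)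
  set L := Real.log X with hL
  have hn1 : 1 ≤ n := (le_max_right _ _).trans hn
  have hn' : (1 : ℝ) ≤ n := by exact_mod_cast hn1
  have hk' : (1 : ℝ) ≤ k₀ := by exact_mod_cast (by omega : 1 ≤ k₀)
  have hc0 : (0 : ℝ) ≤ c := Nat.cast_nonneg c
  obtain ⟨hy1, hy2⟩ := msm2_pow (y := 52 * k₀ * (n : ℝ) ^ 4 * Real.exp (K * n)) (t := L / 2)
    (c := c) (by positivity) (by linarith)
  have hKn : Real.exp (K * n) ≤ L := by
    have b1 : (1 : ℝ) ≤ 52 * k₀ * (n : ℝ) ^ 4 :=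
      one_le_mul_of_one_le_of_one_le (by linarith) (one_le_pow₀ hn')
    have b2 := le_mul_of_one_le_left (Real.exp_pos (K * n)).le b1
    linarith
  have key : ∀ k ∈ range K, ∑ m ∈ allm X, QQ D k₀ n 0 K (jac m) ^ 2 *
      (xb D n k (jac m) / (3 * (n : ℝ) ^ 2)) ^ (2 * n ^ 2) ≤
      Real.exp π * (X * (C * Real.exp (K * n - (n : ℝ) ^ 2)) +
        C₁ * (Real.exp (L / 2) * (1 + L) ^ 2)) := fun k hk₁ => by
    have hQ := poly_QQ_mom D (k₀ := k₀) (by omega) hn1 (mem_range.1 hk₁)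
    have h1 := sum_allm_le_gsum (X := X) (by linarith)
      (f := fun x => QQ D k₀ n 0 K x ^ 2 * (xb D n k x / (3 * (n : ℝ) ^ 2)) ^ (2 * n ^ 2))
      (fun x _ => mul_nonneg (sq_nonneg _) ((even_two_mul _).pow_nonneg _))
      fun x hx => (le_abs_self _).trans (hQ.abs_le hx)
    have h2 := (abs_le.1 (H₁ X _ L _ hX3 hQ (Real.one_le_exp (by positivity))
      (hXe ▸ Real.exp_le_exp.2 (by linarith)) hL3 (by rw [Real.log_exp]; linarith))).2
    have h3 := mul_le_mul_of_nonneg_left (H₀ n k L ((le_max_left _ _).trans hn) (mem_range.1 hk₁) hKn)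
      (show 0 ≤ X by linarith)
    have h6 : C₁ * Real.exp (52 * k₀ * (n : ℝ) ^ 4 * Real.exp (K * n)) ^ c * ll X ^ 2 ≤
        C₁ * (Real.exp (L / 2) * (1 + L) ^ 2) := by
      rw [mul_assoc]
      gcongr
    exact h1.trans (mul_le_mul_of_nonneg_left (by linarith) (Real.exp_pos _).le)
  have b1 := zbad_err (B := K * Real.exp π * C₁) (by linarith) (by positivity) a3
  rw [hXe] at b1
  have b2 : K * Real.exp π * (X * (C * Real.exp (K * n - (n : ℝ) ^ 2))) ≤ X / (2 * L ^ 8) := by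
    have d1 : 1 / L ^ 10 ≤ 1 / L ^ 8 :=
      one_div_le_one_div_of_le (by positivity) (pow_le_pow_right₀ (by linarith) (by norm_num))
    have d2 := mul_le_mul_of_nonneg_left (a2.trans d1) (show 0 ≤ X / 2 by linarith)
    refine le_of_eq_of_le (by ring) (d2.trans_eq ?_)
    field_simp
  have hsq : √X / L ^ 4 = √(X / L ^ 8) := by
    rw [Real.sqrt_div' _ (by positivity), show L ^ 8 = (L ^ 4) ^ 2 by ring,
      Real.sqrt_sq (by positivity)]
  rw [hsq, nrm]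
  refine Real.sqrt_le_sqrt ?_
  calc _ ≤ ∑ m ∈ (allm X).filter fun m => ¬Good2 D n K (jac m), ∑ k ∈ range K,
        QQ D k₀ n 0 K (jac m) ^ 2 * (xb D n k (jac m) / (3 * (n : ℝ) ^ 2)) ^ (2 * n ^ 2) := by
        refine sum_le_sum fun m hm => ?_
        rw [qK, Complex.norm_real, Real.norm_eq_abs, sq_abs, ← mul_sum]
        exact le_mul_of_one_le_right (sq_nonneg _) (not_good2 hn1 (mem_filter.1 hm).2)
    _ ≤ ∑ m ∈ allm X, ∑ k ∈ range K,
        QQ D k₀ n 0 K (jac m) ^ 2 * (xb D n k (jac m) / (3 * (n : ℝ) ^ 2)) ^ (2 * n ^ 2) :=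
      sum_le_sum_of_subset_of_nonneg (filter_subset _ _) fun _ _ _ =>
        sum_nonneg fun _ _ => mul_nonneg (sq_nonneg _) ((even_two_mul _).pow_nonneg _)
    _ ≤ ∑ k ∈ range K, Real.exp π * (X * (C * Real.exp (K * n - (n : ℝ) ^ 2)) +
        C₁ * (Real.exp (L / 2) * (1 + L) ^ 2)) := by
      rw [sum_comm]
      exact sum_le_sum key
    _ = K * Real.exp π * (X * (C * Real.exp (K * n - (n : ℝ) ^ 2))) +
        K * Real.exp π * C₁ * (Real.exp (L / 2) * (1 + L) ^ 2) := by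
      rw [sum_const, card_range, nsmul_eq_mul]
      ring
    _ ≤ X / (2 * L ^ 8) + X / (2 * L ^ 8) := add_le_add b2 b1
    _ = X / L ^ 8 := by field_simp; ring

end Pool.Agent.Lib.MP_03e5d0_nt
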