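import Pool.Agent.Lib.MP_03e5d0_nt.ZCap
import Pool.Agent.Lib.MP_03e5d0_nt.MBl2

set_option autoImplicit false

noncomputable section

namespace Pool.Agent.Lib.MP_03e5d0_nt

open Complex Finset MeasureTheory
open scoped NumberTheorySymbols Real ContDiff

/-! Estimates for one block. -/

theorem zblk_one {s l δ c : ℝ} {z₁ z₂ : ℂ} (hs : 0 ≤ s) (hs' : s ≤ 1 / 100) (hl : |l| ≤ 2) (hδ : 0 ≤ δ)
    (hδ' : δ ≤ 1) (h₁ : ‖z₁‖ ≤ 3 * s) (h₂ : ‖z₂‖ ≤ 3 * s) :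
    e1 δ (fun u => ‖lf l u z₁‖ * ‖lf l u z₂‖ * Real.exp (c * (l * u * s))) ≤
      Real.exp ((168 + 4 * c ^ 2) * s ^ 2) := by
  obtain ⟨ε₁, a₁, b₁⟩ := mpp_f (c := c) hs' hl (Or.inl rfl) h₁ h₂
  obtain ⟨ε₂, a₂, b₂⟩ := mpp_f (c := c) hs' hl (Or.inr rfl) h₁ h₂
  have hα : |l * (z₁.re + z₂.re + c * s)| ≤ 2 * ((6 + |c|) * s) := by
    have h3 : |c * s| = |c| * s := by rw [abs_mul, abs_of_nonneg hs]
    have h4 : |z₁.re + z₂.re + c * s| ≤ (6 + |c|) * s := by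
      linarith [abs_add_three z₁.re z₂.re (c * s), Complex.abs_re_le_norm z₁,
        Complex.abs_re_le_norm z₂]
    exact norm_mul_le_of_le (α := ℝ) hl h4
  have hα2 : (l * (z₁.re + z₂.re + c * s)) ^ 2 / 2 ≤ (144 + 4 * c ^ 2) * s ^ 2 := by
    have h3 := pow_le_pow_left₀ (abs_nonneg _) hα 2
    rw [sq_abs] at h3
    have h4 : (6 + |c|) ^ 2 ≤ 72 + 2 * c ^ 2 := by
      rw [← sq_abs c]
      nlinarith [sq_nonneg (|c| - 6)]
    have h5 := mul_le_mul_of_nonneg_right h4 (sq_nonneg s)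
    nlinarith
  have hβ : |(l ^ 2 - 2) / 2 * (z₁ ^ 2 + z₂ ^ 2).re| ≤ 18 * s ^ 2 := by
    have h3 : |(l ^ 2 - 2) / 2| ≤ 1 := by
      rw [abs_le] at hl ⊢
      constructor <;> nlinarith [sq_nonneg l]
    have h4 : |(z₁ ^ 2 + z₂ ^ 2).re| ≤ 18 * s ^ 2 := by
      have c₁ : ‖z₁‖ ^ 2 ≤ (3 * s) ^ 2 := by gcongr
      have c₂ : ‖z₂‖ ^ 2 ≤ (3 * s) ^ 2 := by gcongr
      have c₃ := norm_add_le (z₁ ^ 2) (z₂ ^ 2)
      rw [norm_pow, norm_pow] at c₃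
      linarith [Complex.abs_re_le_norm (z₁ ^ 2 + z₂ ^ 2)]
    have h5 : |(l ^ 2 - 2) / 2 * (z₁ ^ 2 + z₂ ^ 2).re| ≤ 1 * (18 * s ^ 2) :=
      norm_mul_le_of_le (α := ℝ) h3 h4
    linarith
  have h6 : 540 * s ^ 3 ≤ 6 * s ^ 2 := by nlinarith [sq_nonneg s]
  simp only [e1, smul_eq_mul]
  rw [b₁, b₂, lf_zero', lf_zero']
  generalize l * (z₁.re + z₂.re + c * s) = α at *
  generalize (l ^ 2 - 2) / 2 * (z₁ ^ 2 + z₂ ^ 2).re = β at *
  have h7 : Real.exp (1 * α + (β + ε₁)) + Real.exp (-1 * α + (β + ε₂)) ≤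
      2 * Real.exp ((168 + 4 * c ^ 2) * s ^ 2) := by
    have h8 := Real.cosh_le_exp_half_sq α
    rw [Real.cosh_eq] at h8
    have h9 : Real.exp (β + ε₁) ≤ Real.exp (24 * s ^ 2) :=
      Real.exp_le_exp.2 (by linarith [(abs_le.1 hβ).2, (abs_le.1 a₁).2])
    have h10 : Real.exp (β + ε₂) ≤ Real.exp (24 * s ^ 2) :=
      Real.exp_le_exp.2 (by linarith [(abs_le.1 hβ).2, (abs_le.1 a₂).2])
    have h11 : Real.exp (α ^ 2 / 2) * Real.exp (24 * s ^ 2) ≤ Real.exp ((168 + 4 * c ^ 2) * s ^ 2) := by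
      rw [← Real.exp_add]
      exact Real.exp_le_exp.2 (by linarith)
    rw [one_mul, neg_one_mul, Real.exp_add α, Real.exp_add (-α)]
    have h12 := mul_le_mul_of_nonneg_left h9 (Real.exp_pos α).le
    have h13 := mul_le_mul_of_nonneg_left h10 (Real.exp_pos (-α)).le
    have h14 := mul_le_mul_of_nonneg_right h8 (Real.exp_pos (24 * s ^ 2)).le
    linarith
  have h15 : 1 ≤ Real.exp ((168 + 4 * c ^ 2) * s ^ 2) := Real.one_le_exp (by positivity)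
  have h16 := mul_le_mul_of_nonneg_left h7 (show 0 ≤ (1 - δ) / 2 by linarith)
  have h17 := mul_le_mul_of_nonneg_left h15 hδ
  simp only [norm_one, mul_zero, zero_mul, Real.exp_zero, mul_one]
  linarith

theorem zblk_GG (D : Data) (S : Finset ℕ) (z₁ z₂ : ℕ → ℂ) (x : ℕ → ℝ) : 0 ≤ GG D S z₁ z₂ x :=
  prod_nonneg fun p _ => by positivity

theorem zblk_abs {c m : ℝ} (hc : 0 ≤ c) (hm : 0 ≤ m) (y : ℝ) :
    Real.exp (c * |y - m|) ≤ Real.exp (c * m) * (Real.exp (c * y) + Real.exp (-c * y)) := by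
  rw [mul_add, ← Real.exp_add, ← Real.exp_add]
  rcases abs_cases (y - m) with h | h
  · refine le_add_of_le_of_nonneg (Real.exp_le_exp.2 ?_) (Real.exp_pos _).le
    rw [h.1]
    nlinarith [mul_nonneg hc hm]
  · refine le_add_of_nonneg_of_le (Real.exp_pos _).le (Real.exp_le_exp.2 ?_)
    rw [h.1]
    linarith

theorem zblk_exp : ∃ C : ℝ, 0 ≤ C ∧ ∀ (D : Data) (P S : Finset ℕ) (δ : ℕ → ℝ) (c : ℝ) (z₁ z₂ : ℕ → ℂ),
    S ⊆ P → (∀ p ∈ P, p.Prime ∧ ¬p ∣ D.q) → Dl δ → |c| ≤ 4 → (∀ p ∈ S, ‖z₁ p‖ ≤ 3 / √p) →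
    (∀ p ∈ S, ‖z₂ p‖ ≤ 3 / √p) →
    Real.exp (∑ p ∈ S, mn (D.lam p) (c / √p) (z₁ p) (z₂ p) - C) ≤
      Ex P δ (fun x => Real.exp (c * PI D S x) * GG D S z₁ z₂ x) ∧
    Ex P δ (fun x => Real.exp (c * PI D S x) * GG D S z₁ z₂ x) ≤
      Real.exp (∑ p ∈ S, mn (D.lam p) (c / √p) (z₁ p) (z₂ p) + C) := by
  obtain ⟨C, hC, h⟩ := blk_exp
  refine ⟨3 * C, by positivity, fun D P S δ c z₁ z₂ hS hp hδ hc h₁ h₂ => ?_⟩
  obtain ⟨a1, a2⟩ := h D P S δ c z₁ z₂ hS (fun p h => hp p (hS h)) hδ hc h₁ h₂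
  have a4 := mul_le_mul_of_nonneg_left (ps_32 S) hC
  have a5 := abs_le.1 a2
  rw [← Real.le_log_iff_exp_le a1, ← Real.log_le_iff_le_exp a1]
  constructor <;> linarith

theorem zblk_mn {D : Data} {S : Finset ℕ} {c : ℝ} {n : ℕ} {z₁ z₂ : ℕ → ℂ} (hp : ∀ p ∈ S, p.Prime)
    (hc : |c| ≤ 4) (hn : ∑ p ∈ S, (1 : ℝ) / p ≤ 2 * n) (h₁ : ∀ p ∈ S, ‖z₁ p‖ ≤ 3 / √p)
    (h₂ : ∀ p ∈ S, ‖z₂ p‖ ≤ 3 / √p) :
    |∑ p ∈ S, mn (D.lam p) (c / √p) (z₁ p) (z₂ p)| ≤ 440 * n := by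
  have a3 : |∑ p ∈ S, mn (D.lam p) (c / √p) (z₁ p) (z₂ p)| ≤ 220 * ∑ p ∈ S, (1 : ℝ) / p := by
    rw [mul_sum]
    exact (abs_sum_le_sum_abs _ _).trans (sum_le_sum fun p h =>
      (abs_mn_le (by exact_mod_cast (hp p h).pos) (D.lam_le p (hp p h)) hc (h₁ p h)
        (h₂ p h)).trans (by rw [mul_one_div]))
  linarith

theorem zblk_shift (P : Finset ℕ) (δ : ℕ → ℝ) (a : ℝ) (f g : (ℕ → ℝ) → ℝ) :
    Ex P δ (fun x => Real.exp (f x + a) * g x) = Real.exp a * Ex P δ fun x => Real.exp (f x) * g x := by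
  rw [← Ex_mul_left]
  congr 1
  funext x
  rw [Real.exp_add]
  ring

/-- `Ex_prod`; at one prime `‖lf l u z‖ ≤ exp (l u re z + C₁ / p)` for `u = ±1` (`log_norm_lf`), and
`cosh a ≤ exp (a ^ 2 / 2)` (`Real.cosh_le_exp_half_sq`) with `|a| ≤ 2 (6 + |c|) / √p`. -/
theorem blk_exp_all : ∃ C : ℝ, 0 ≤ C ∧ ∀ (D : Data) (P S : Finset ℕ) (δ : ℕ → ℝ) (c : ℝ) (z₁ z₂ : ℕ → ℂ),
    S ⊆ P → (∀ p ∈ S, p.Prime ∧ ¬p ∣ D.q) → Dl δ → (∀ p ∈ S, ‖z₁ p‖ ≤ 3 / √p) →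
    (∀ p ∈ S, ‖z₂ p‖ ≤ 3 / √p) →
    Ex P δ (fun x => Real.exp (c * PI D S x) * GG D S z₁ z₂ x) ≤
      Real.exp ((C + 4 * c ^ 2) * ∑ p ∈ S, (1 : ℝ) / p) := by
  refine ⟨168, by norm_num, fun D P S δ c z₁ z₂ hS hp hδ h₁ h₂ => ?_⟩
  have e : Ex P δ (fun x => Real.exp (c * PI D S x) * GG D S z₁ z₂ x) = ∏ p ∈ S,
      e1 (δ p) fun u => ‖lf (D.lam p) u (z₁ p)‖ * ‖lf (D.lam p) u (z₂ p)‖ *
        Real.exp (c * (D.lam p * u / √p)) := by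
    rw [← Ex_prod hS]
    congr 1
    funext x
    rw [PI, GG, mul_sum, Real.exp_sum, mul_comm, ← prod_mul_distrib]
  rw [e, mul_sum, Real.exp_sum]
  have hd : ∀ p ∈ S, 0 ≤ δ p ∧ δ p ≤ 1 := fun p h => by
    obtain ⟨a1, a2⟩ := hδ p (hp p h).1
    refine ⟨a1, a2.trans ?_⟩
    rw [div_le_one (by exact_mod_cast (hp p h).1.pos)]
    exact_mod_cast (hp p h).1.one_le
  refine prod_le_prod (fun p h => ?_) fun p h => ?_
  · have a1 := (hd p h).1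
    have a2 : 0 ≤ (1 - δ p) / 2 := by linarith [(hd p h).2]
    simp only [e1, smul_eq_mul]
    positivity
  · obtain ⟨hs, hs', e₂, -⟩ := mpp_s (p := p) (by exact_mod_cast D.big (hp p h).1 (hp p h).2)
    have a1 := zblk_one (c := c) hs hs' (D.lam_le p (hp p h).1) (hd p h).1 (hd p h).2
      ((h₁ p h).trans_eq (div_eq_mul_one_div _ _)) ((h₂ p h).trans_eq (div_eq_mul_one_div _ _))
    rw [e₂]
    simpa only [mul_one_div] using a1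

/-- `exp (c |P - m|) ≤ exp (c m) (exp (c P) + exp (-c P))`. -/
theorem blk_abs_all : ∃ C : ℝ, 0 ≤ C ∧ ∀ (D : Data) (P S : Finset ℕ) (δ : ℕ → ℝ) (c : ℝ) (n : ℕ)
    (z₁ z₂ : ℕ → ℂ), S ⊆ P → (∀ p ∈ P, p.Prime ∧ ¬p ∣ D.q) → Dl δ → 0 ≤ c →
    ∑ p ∈ S, (1 : ℝ) / p ≤ 2 * n → (∀ p ∈ S, ‖z₁ p‖ ≤ 3 / √p) → (∀ p ∈ S, ‖z₂ p‖ ≤ 3 / √p) →
    Ex P δ (fun x => Real.exp (c * |PI D S x - kk * n|) * GG D S z₁ z₂ x) ≤
      2 * Real.exp ((c + 2 * C + 8 * c ^ 2) * n) := by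
  obtain ⟨C, hC, H⟩ := blk_exp_all
  refine ⟨C, hC, fun D P S δ c n z₁ z₂ hS hp hδ hc hn h₁ h₂ => ?_⟩
  have hP : ∀ p ∈ P, p.Prime := fun p h => (hp p h).1
  have hn0 : (0 : ℝ) ≤ n := Nat.cast_nonneg n
  obtain ⟨k1, k2⟩ := kk_mem
  have key : ∀ c' : ℝ, c' ^ 2 = c ^ 2 → Ex P δ (fun x => Real.exp (c' * PI D S x) * GG D S z₁ z₂ x) ≤
      Real.exp ((2 * C + 8 * c ^ 2) * n) := fun c' hc' => by
    refine (H D P S δ c' z₁ z₂ hS (fun p h => hp p (hS h)) hδ h₁ h₂).trans (Real.exp_le_exp.2 ?_)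
    rw [hc']
    have := mul_le_mul_of_nonneg_left hn (show 0 ≤ C + 4 * c ^ 2 by positivity)
    linarith
  have b1 := key c rfl
  have b2 := key (-c) (neg_sq c)
  calc
    _ ≤ Ex P δ fun x => Real.exp (c * n) * (Real.exp (c * PI D S x) * GG D S z₁ z₂ x +
        Real.exp (-c * PI D S x) * GG D S z₁ z₂ x) := by
      refine Ex_mono hP hδ fun x _ => ?_
      rw [← add_mul, ← mul_assoc]
      refine mul_le_mul_of_nonneg_right ((zblk_abs hc (by positivity) _).trans ?_) (zblk_GG _ _ _ _ _)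
      refine mul_le_mul_of_nonneg_right (Real.exp_le_exp.2 ?_) (by positivity)
      exact mul_le_mul_of_nonneg_left (by nlinarith) hc
    _ ≤ Real.exp (c * n) * (2 * Real.exp ((2 * C + 8 * c ^ 2) * n)) := by
      rw [Ex_mul_left, Ex_add]
      gcongr
      linarith
    _ = _ := by
      rw [mul_left_comm, ← Real.exp_add]
      congr 2
      ring

/-- `cap_pow_le`. First term: `blk_exp`, `ps_32`. The right side is at least `C exp (-443 n)` by `abs_mn_le`.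
Second term: `blk_exp` with `c = ±4` gives `exp (440 n + O(1))`. Third term: `blk_abs_all`. -/
theorem blk_cap_up {k₀ : ℕ} (hk : 1 ≤ k₀) : ∃ (n₀ : ℕ) (C : ℝ), 1 ≤ C ∧ ∀ (D : Data) (P S : Finset ℕ)
    (δ : ℕ → ℝ) (n e : ℕ) (c : ℝ) (z₁ z₂ : ℕ → ℂ), n₀ ≤ n → S ⊆ P → (∀ p ∈ P, p.Prime ∧ ¬p ∣ D.q) →
    Dl δ → (e = 1 ∨ e = 2) → |c| ≤ 4 → ∑ p ∈ S, (1 : ℝ) / p ≤ 2 * n → (∀ p ∈ S, ‖z₁ p‖ ≤ 3 / √p) →
    (∀ p ∈ S, ‖z₂ p‖ ≤ 3 / √p) →
    Ex P δ (fun x => cap k₀ n (PI D S x - kk * n) ^ e * GG D S z₁ z₂ x) ≤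
      C * Real.exp (20 * ep k₀ * n - c * kk * n +
        ∑ p ∈ S, mn (D.lam p) (c / √p) (z₁ p) (z₂ p)) := by
  obtain ⟨C, hC, H⟩ := zblk_exp
  obtain ⟨C', hC', H'⟩ := blk_abs_all
  obtain ⟨n₁, H₁⟩ := cap_pow_le hk
  obtain ⟨n₂, H₂⟩ := exists_nat_ge ((k₀ : ℝ) / 50 + 2 * C' + 8 * ((k₀ : ℝ) / 50) ^ 2 + 443)
  have hE := Real.one_le_exp hC
  refine ⟨max n₁ n₂, 6 * Real.exp C + 4, by linarith,
    fun D P S δ n e c z₁ z₂ hn hS hp hδ he hc hs h₁ h₂ => ?_⟩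
  have hP : ∀ p ∈ P, p.Prime := fun p h => (hp p h).1
  have hn0 : (0 : ℝ) ≤ n := Nat.cast_nonneg n
  have hn2 : (n₂ : ℝ) ≤ n := by exact_mod_cast le_of_max_le_right hn
  obtain ⟨k1, k2⟩ := kk_mem
  have hm := fun (c : ℝ) (hc : |c| ≤ 4) =>
    abs_le.1 (zblk_mn (D := D) (fun p h => hP p (hS h)) hc hs h₁ h₂)
  set R := Real.exp (20 * ep k₀ * n - c * kk * n + ∑ p ∈ S, mn (D.lam p) (c / √p) (z₁ p) (z₂ p))
    with hR
  have hR' : Real.exp (-443 * n) ≤ R := by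
    refine Real.exp_le_exp.2 ?_
    have a1 : 0 ≤ 20 * ep k₀ * n := by unfold ep; positivity
    have a2 : c * kk ≤ 3 := by nlinarith [(abs_le.1 hc).2]
    have a3 := mul_le_mul_of_nonneg_right a2 hn0
    linarith [(hm c hc).1]
  have t1 : Ex P δ (fun x => Real.exp (c * (PI D S x - kk * n) + 20 * ep k₀ * n) * GG D S z₁ z₂ x) ≤
      Real.exp C * R := by
    have e : ∀ x, c * (PI D S x - kk * n) + 20 * ep k₀ * n =
        c * PI D S x + (20 * ep k₀ * n - c * kk * n) := fun x => by ring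
    simp only [e]
    rw [zblk_shift]
    refine (mul_le_mul_of_nonneg_left (H D P S δ c z₁ z₂ hS hp hδ hc h₁ h₂).2
      (Real.exp_pos _).le).trans_eq ?_
    rw [hR, ← Real.exp_add, ← Real.exp_add]
    congr 1
    ring
  have t2 : Ex P δ (fun x => Real.exp (4 * |PI D S x - kk * n| - 1600 * n) * GG D S z₁ z₂ x) ≤
      2 * Real.exp C * R := by
    have key : ∀ c' : ℝ, |c'| ≤ 4 → Ex P δ (fun x => Real.exp (c' * PI D S x) * GG D S z₁ z₂ x) ≤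
        Real.exp (440 * n + C) := fun c' hc' =>
      (H D P S δ c' z₁ z₂ hS hp hδ hc' h₁ h₂).2.trans (Real.exp_le_exp.2 (by linarith [(hm c' hc').2]))
    have b1 := key 4 (by norm_num)
    have b2 := key (-4) (by norm_num)
    calc
      _ ≤ Ex P δ fun x => Real.exp (-883 * n) * (Real.exp (4 * PI D S x) * GG D S z₁ z₂ x +
          Real.exp (-4 * PI D S x) * GG D S z₁ z₂ x) := by
        refine Ex_mono hP hδ fun x _ => ?_
        rw [← add_mul, ← mul_assoc]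
        refine mul_le_mul_of_nonneg_right ?_ (zblk_GG _ _ _ _ _)
        rw [sub_eq_add_neg _ (1600 * (n : ℝ)), Real.exp_add, mul_comm]
        refine (mul_le_mul_of_nonneg_left (zblk_abs (by norm_num) (by positivity) _)
          (Real.exp_pos _).le).trans ?_
        rw [← mul_assoc, ← Real.exp_add]
        refine mul_le_mul_of_nonneg_right (Real.exp_le_exp.2 ?_) (by positivity)
        nlinarith
      _ ≤ Real.exp (-883 * n) * (2 * Real.exp (440 * n + C)) := by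
        rw [Ex_mul_left, Ex_add]
        gcongr
        linarith
      _ = 2 * Real.exp C * Real.exp (-443 * n) := by
        rw [mul_left_comm, mul_assoc, ← Real.exp_add, ← Real.exp_add]
        congr 2
        ring
      _ ≤ _ := by gcongr
  have t3 : Ex P δ (fun x => Real.exp (k₀ / 50 * |PI D S x - kk * n| - (n : ℝ) ^ 3) * GG D S z₁ z₂ x) ≤
      2 * R := by
    simp only [sub_eq_add_neg _ ((n : ℝ) ^ 3)]
    rw [zblk_shift]
    refine (mul_le_mul_of_nonneg_left (H' D P S δ (k₀ / 50) n z₁ z₂ hS hp hδ (by positivity) hs h₁ h₂)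
      (Real.exp_pos _).le).trans ?_
    rw [mul_left_comm, ← Real.exp_add]
    refine mul_le_mul_of_nonneg_left (le_trans (Real.exp_le_exp.2 ?_) hR') zero_le_two
    have a0 : 0 ≤ (k₀ : ℝ) / 50 + 2 * C' + 8 * ((k₀ : ℝ) / 50) ^ 2 := by positivity
    generalize (k₀ : ℝ) / 50 + 2 * C' + 8 * ((k₀ : ℝ) / 50) ^ 2 = K at *
    have a1 := mul_le_mul_of_nonneg_right (H₂.trans hn2) hn0
    have a2 : (n : ℝ) * n ≤ n ^ 3 := by nlinarith [mul_nonneg hn0 hn0]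
    linarith
  calc
    _ ≤ Ex P δ fun x => 2 * (Real.exp (c * (PI D S x - kk * n) + 20 * ep k₀ * n) * GG D S z₁ z₂ x +
        Real.exp (4 * |PI D S x - kk * n| - 1600 * n) * GG D S z₁ z₂ x +
        Real.exp (k₀ / 50 * |PI D S x - kk * n| - (n : ℝ) ^ 3) * GG D S z₁ z₂ x) := by
      refine Ex_mono hP hδ fun x _ => ?_
      rw [← add_mul, ← add_mul, ← mul_assoc]
      exact mul_le_mul_of_nonneg_right (H₁ n (le_of_max_le_left hn) e c _ he hc) (zblk_GG _ _ _ _ _)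
    _ ≤ _ := by
      rw [Ex_mul_left, Ex_add, Ex_add]
      linarith

/-- `cap_le_exp`, `mom_le`, `blk_abs_all` with `z = 0`. -/
theorem blk_cap_mom (k₀ : ℕ) : ∃ n₀ : ℕ, ∀ (D : Data) (P S : Finset ℕ) (δ : ℕ → ℝ) (n : ℕ), n₀ ≤ n →
    S ⊆ P → (∀ p ∈ P, p.Prime ∧ ¬p ∣ D.q) → Dl δ → ∑ p ∈ S, (1 : ℝ) / p ≤ 2 * n →
    Ex P δ (fun x => cap k₀ n (PI D S x - kk * n) ^ 2 *
      ((PI D S x - kk * n) / (3 * (n : ℝ) ^ 2)) ^ (2 * n ^ 2)) ≤ Real.exp (-(n : ℝ) ^ 2) := by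
  obtain ⟨C, hC, H⟩ := blk_abs_all
  obtain ⟨n₀, H₀⟩ := exists_nat_ge ((k₀ : ℝ) / 100 + 2 + 2 * C + 8 * ((k₀ : ℝ) / 100 + 2) ^ 2 + 1)
  refine ⟨n₀, fun D P S δ n hn hS hp hδ hs => ?_⟩
  have hP : ∀ p ∈ P, p.Prime := fun p h => (hp p h).1
  have hn0 : (n₀ : ℝ) ≤ n := by exact_mod_cast hn
  have a0 : 0 ≤ (k₀ : ℝ) / 100 + 2 + 2 * C + 8 * ((k₀ : ℝ) / 100 + 2) ^ 2 := by positivity
  have hn1 : (1 : ℝ) ≤ n := by linarith
  have h0 : ∀ p ∈ S, ‖(0 : ℕ → ℂ) p‖ ≤ 3 / √p := fun p _ => by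
    rw [Pi.zero_apply, norm_zero]
    positivity
  have h1 := H D P S δ (k₀ / 100 + 2) n 0 0 hS hp hδ (by positivity) hs h0 h0
  simp only [GG, Pi.zero_apply, lf_zero, norm_one, mul_one, prod_const_one] at h1
  calc
    _ ≤ Ex P δ fun x => Real.exp (-2 * (n : ℝ) ^ 2) *
        Real.exp ((k₀ / 100 + 2) * |PI D S x - kk * n|) := by
      refine Ex_mono hP hδ fun x _ => ?_
      refine (mul_le_mul_of_nonneg_left (mom_le (by exact_mod_cast hn1) _) (sq_nonneg _)).trans ?_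
      refine (mul_le_mul_of_nonneg_right (pow_le_pow_left₀ (cap_nonneg _ _ _) (cap_le_exp _ _ _) 2)
        (Real.exp_pos _).le).trans_eq ?_
      rw [← Real.exp_nat_mul, ← Real.exp_add, ← Real.exp_add]
      congr 1
      push_cast
      ring
    _ ≤ Real.exp (-2 * (n : ℝ) ^ 2) * (Real.exp n *
        Real.exp ((k₀ / 100 + 2 + 2 * C + 8 * ((k₀ : ℝ) / 100 + 2) ^ 2) * n)) := by
      rw [Ex_mul_left]
      refine mul_le_mul_of_nonneg_left (h1.trans ?_) (Real.exp_pos _).le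
      exact mul_le_mul_of_nonneg_right (by linarith [Real.add_one_le_exp (n : ℝ)]) (Real.exp_pos _).le
    _ ≤ _ := by
      rw [← Real.exp_add, ← Real.exp_add, Real.exp_le_exp]
      generalize (k₀ : ℝ) / 100 + 2 + 2 * C + 8 * ((k₀ : ℝ) / 100 + 2) ^ 2 = K at *
      have a1 := mul_le_mul_of_nonneg_right (H₀.trans hn0) (zero_le_one.trans hn1)
      nlinarith

/-- With `z = p ^ (-1/2) η`, `‖η‖ ≤ 3`, `‖η - 1‖ ≤ C min 1 (‖α‖ log p)` (see `mn_one`). -/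
theorem mn_tau : ∃ C : ℝ, 0 ≤ C ∧ ∀ (p : ℕ) (l c : ℝ) (α : ℂ), 0 < p → |l| ≤ 2 → |c| ≤ 4 →
    -1 ≤ α.re * Real.log p →
    |mn l (c / √p) ((p : ℂ) ^ (-(1 / 2 + α))) 0 - (l ^ 2 * (1 + c) ^ 2 / 2 + (l ^ 2 - 2) / 2) / p| ≤
      C * (min 1 (‖α‖ * Real.log p) / p) := by
  refine ⟨112, by norm_num, fun p l c α hp hl hc h => ?_⟩
  have hL : 0 ≤ Real.log p := Real.log_natCast_nonneg p
  rw [mbl2_cpow hp]
  set η := cexp (-(α * Real.log p)) with hη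
  have h1 : ‖η‖ ≤ 3 := by
    rw [hη, norm_exp, neg_re, re_mul_ofReal]
    exact (Real.exp_le_exp.2 (by linarith)).trans (Real.exp_one_lt_three).le
  have h2 : ‖η - 1‖ ≤ 4 := (norm_sub_le _ _).trans (by rw [norm_one]; linarith)
  have h2' : ‖η + 1‖ ≤ 4 := (norm_add_le _ _).trans (by rw [norm_one]; linarith)
  have h3 : ‖η - 1‖ ≤ 4 * min 1 (‖α‖ * Real.log p) := by
    rcases le_total 1 (‖α‖ * Real.log p) with h4 | h4
    · rwa [min_eq_left h4, mul_one]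
    · have h5 : ‖-(α * Real.log p)‖ = ‖α‖ * Real.log p := by
        rw [norm_neg, norm_mul, norm_real, Real.norm_of_nonneg hL]
      have h6 := norm_exp_sub_one_le (x := -(α * Real.log p)) (h5.le.trans h4)
      rw [min_eq_right h4]
      rw [h5] at h6
      have : 0 ≤ ‖α‖ * Real.log p := by positivity
      linarith
  have h4 : |η.re - 1| ≤ ‖η - 1‖ := by simpa using abs_re_le_norm (η - 1)
  have h5 : |(η ^ 2).re - 1| ≤ 4 * ‖η - 1‖ := by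
    have h6 : η ^ 2 - 1 = (η + 1) * (η - 1) := by ring
    have h7 := abs_re_le_norm (η ^ 2 - 1)
    rw [sub_re, one_re, h6, norm_mul] at h7
    exact h7.trans (mul_le_mul_of_nonneg_right h2' (norm_nonneg _))
  have hr := mbl2_sq (p := p)
  have hl2 : l ^ 2 ≤ 4 := by nlinarith [abs_nonneg l, sq_abs l]
  have h6 : mn l (c / √p) ((((√p)⁻¹ : ℝ) : ℂ) * η) 0 - (l ^ 2 * (1 + c) ^ 2 / 2 + (l ^ 2 - 2) / 2) / p =
      (l ^ 2 / 2 * ((η.re + 1 + 2 * c) * (η.re - 1)) + (l ^ 2 - 2) / 2 * ((η ^ 2).re - 1)) *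
        (1 / p) := by
    rw [mn, mul_pow, ← ofReal_pow, zero_pow two_ne_zero, add_zero, re_ofReal_mul, re_ofReal_mul,
      zero_re, div_eq_mul_one_div _ (p : ℝ), ← hr, div_eq_mul_inv c]
    ring
  rw [h6, abs_mul, abs_of_nonneg (show (0 : ℝ) ≤ 1 / p by positivity),
    div_eq_mul_one_div (min _ _), ← mul_assoc 112]
  refine mul_le_mul_of_nonneg_right ((abs_add_le _ _).trans ?_) (by positivity)
  have h7 : |l ^ 2 / 2 * ((η.re + 1 + 2 * c) * (η.re - 1))| ≤ 2 * (12 * ‖η - 1‖) := by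
    have h8 : |η.re + 1 + 2 * c| ≤ 12 := by
      have h9 := abs_le.1 ((abs_re_le_norm η).trans h1)
      have h10 := abs_le.1 hc
      exact abs_le.2 ⟨by linarith, by linarith⟩
    have h9 : |l ^ 2 / 2| ≤ 2 := abs_le.2 ⟨by nlinarith [sq_nonneg l], by linarith⟩
    exact norm_mul_le_of_le (α := ℝ) h9 (norm_mul_le_of_le (α := ℝ) h8 h4)
  have h8 : |(l ^ 2 - 2) / 2 * ((η ^ 2).re - 1)| ≤ 1 * (4 * ‖η - 1‖) :=
    norm_mul_le_of_le (α := ℝ) (abs_le.2 ⟨by nlinarith [sq_nonneg l], by linarith⟩) h5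
  linarith

/-- `cap_low` with `τ = kk - 1`. Put `A c = exp (-c kk n) * Ex (exp (c P) GG)`. By `blk_exp` and `mn_tau`,
`log A (τ ± ε) - log A τ = ε ^ 2 n / 2 + O(1)`, because `(1 + τ ± ε) ^ 2 / 2 - (1 + τ) ^ 2 / 2 ∓ ε kk = ε ^ 2 / 2`.
So the bracket has expectation at least `A τ / 2` for large `n`; `A τ ≥ exp (-443 n - O(1))` and the error
term is at most `exp (O(n) - n ^ 3)` by `blk_abs_all`. -/
theorem blk_cap_low {k₀ : ℕ} (hk : 80000 ≤ k₀) (E₀ : ℝ) : ∃ (n₀ : ℕ) (cl : ℝ), 0 < cl ∧ cl ≤ 1 ∧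
    ∀ (D : Data) (P S : Finset ℕ) (δ : ℕ → ℝ) (n : ℕ) (σ : ℝ), n₀ ≤ n → S ⊆ P →
    (∀ p ∈ P, p.Prime ∧ ¬p ∣ D.q) → Dl δ → 0 ≤ σ → ∑ p ∈ S, (1 : ℝ) / p ≤ 2 * n →
    |∑ p ∈ S, D.lam p ^ 2 / p - n| ≤ E₀ → ∑ p ∈ S, min 1 (σ * Real.log p) / p ≤ E₀ →
    cl * Real.exp (-2 * ep k₀ * n - (kk - 1) * kk * n +
        ∑ p ∈ S, mn (D.lam p) ((kk - 1) / √p) ((p : ℂ) ^ (-(1 / 2 + (σ : ℂ)))) 0) ≤
      Ex P δ fun x => cap k₀ n (PI D S x - kk * n) *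
        GG D S (fun p => (p : ℂ) ^ (-(1 / 2 + (σ : ℂ)))) (fun _ => 0) x := by
  obtain ⟨C, hC, H⟩ := zblk_exp
  obtain ⟨C', hC', H'⟩ := blk_abs_all
  obtain ⟨C₂, hC₂, H₂⟩ := mn_tau
  obtain ⟨n₁, H₁⟩ := cap_low hk
  have hk' : (80000 : ℝ) ≤ k₀ := by exact_mod_cast hk
  have hε0 : 0 < ep k₀ := by unfold ep; positivity
  have hε1 : ep k₀ ≤ 1 := by
    unfold ep
    rw [div_le_one (by linarith)]
    exact hk'
  obtain ⟨n₂, G₂⟩ :=
    exists_nat_ge ((k₀ : ℝ) / 100 + 2 * C' + 8 * ((k₀ : ℝ) / 100) ^ 2 + (443 + C + 5))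
  obtain ⟨n₃, G₃⟩ := exists_nat_ge (2 * (2 * ((C₂ + 13) * E₀) + 2 * C + 5) / ep k₀ ^ 2)
  refine ⟨max n₁ (max n₂ n₃), Real.exp (-C) / 3, by positivity, ?_,
    fun D P S δ n σ hn hS hp hδ hσ hs hE hE' => ?_⟩
  · linarith [Real.exp_le_one_iff.2 (neg_nonpos.2 hC)]
  have hP : ∀ p ∈ P, p.Prime := fun p h => (hp p h).1
  have hn0 : (0 : ℝ) ≤ n := Nat.cast_nonneg n
  have hn2 : (n₂ : ℝ) ≤ n := by exact_mod_cast le_of_max_le_left (le_of_max_le_right hn)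
  have hn3 : (n₃ : ℝ) ≤ n := by exact_mod_cast le_of_max_le_right (le_of_max_le_right hn)
  obtain ⟨k1, k2⟩ := kk_mem
  have hre : ∀ p : ℕ, -1 ≤ (σ : ℂ).re * Real.log p := fun p => by
    have := mul_nonneg hσ (Real.log_natCast_nonneg p)
    rw [ofReal_re]
    linarith
  have h₁ : ∀ p ∈ S, ‖(p : ℂ) ^ (-(1 / 2 + (σ : ℂ)))‖ ≤ 3 / √p := fun p h =>
    norm_cpow_le (hP p (hS h)).pos (hre p)
  have h₂ : ∀ p ∈ S, ‖(0 : ℂ)‖ ≤ 3 / √p := fun p _ => by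
    rw [norm_zero]
    positivity
  have hE0 : 0 ≤ E₀ := (abs_nonneg _).trans hE
  have hM : ∀ c : ℝ, |c| ≤ 4 →
      |∑ p ∈ S, mn (D.lam p) (c / √p) ((p : ℂ) ^ (-(1 / 2 + (σ : ℂ)))) 0 -
        ((1 + c) ^ 2 / 2 * n + ∑ p ∈ S, (D.lam p ^ 2 - 2) / 2 / p)| ≤ (C₂ + 13) * E₀ := fun c hc => by
    have a1 : |∑ p ∈ S, mn (D.lam p) (c / √p) ((p : ℂ) ^ (-(1 / 2 + (σ : ℂ)))) 0 -
        ∑ p ∈ S, (D.lam p ^ 2 * (1 + c) ^ 2 / 2 + (D.lam p ^ 2 - 2) / 2) / p| ≤ C₂ * E₀ := by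
      rw [← sum_sub_distrib]
      refine (abs_sum_le_sum_abs _ _).trans ((sum_le_sum fun p h =>
        H₂ p (D.lam p) c σ (hP p (hS h)).pos (D.lam_le p (hP p (hS h))) hc (hre p)).trans ?_)
      rw [← mul_sum, norm_real, Real.norm_of_nonneg hσ]
      exact mul_le_mul_of_nonneg_left hE' hC₂
    have a2 : ∑ p ∈ S, (D.lam p ^ 2 * (1 + c) ^ 2 / 2 + (D.lam p ^ 2 - 2) / 2) / p =
        (1 + c) ^ 2 / 2 * ∑ p ∈ S, D.lam p ^ 2 / p + ∑ p ∈ S, (D.lam p ^ 2 - 2) / 2 / p := by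
      rw [mul_sum, ← sum_add_distrib]
      exact sum_congr rfl fun p _ => by ring
    have a3 : |(1 + c) ^ 2 / 2 * (∑ p ∈ S, D.lam p ^ 2 / p - n)| ≤ 13 * E₀ := by
      refine norm_mul_le_of_le (α := ℝ) (abs_le.2 ⟨by nlinarith [sq_nonneg (1 + c)], ?_⟩) hE
      nlinarith [abs_le.1 hc]
    rw [a2] at a1
    have a4 := abs_le.1 a1
    have a5 := abs_le.1 a3
    exact abs_le.2 ⟨by linarith, by linarith⟩
  have hτ : |kk - 1| ≤ 1 := abs_le.2 ⟨by linarith, by linarith⟩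
  have hτ4 : |kk - 1| ≤ 4 := by linarith
  have hm := (abs_le.1 (zblk_mn (D := D) (fun p h => hP p (hS h)) hτ4 hs h₁ h₂)).1
  have hM0 := (abs_le.1 (hM _ hτ4)).1
  have hH := fun (c : ℝ) (hc : |c| ≤ 4) => H D P S δ c _ _ hS hp hδ hc h₁ h₂
  have hH' := H' D P S δ (k₀ / 100) n _ _ hS hp hδ (by positivity) hs h₁ h₂
  have hG := zblk_GG D S (fun p => (p : ℂ) ^ (-(1 / 2 + (σ : ℂ)))) (fun _ => 0)
  generalize GG D S (fun p => (p : ℂ) ^ (-(1 / 2 + (σ : ℂ)))) (fun _ => 0) = G at *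
  have hA : ∀ c : ℝ, Ex P δ (fun x => Real.exp (c * (PI D S x - kk * n)) * G x) =
      Real.exp (-(c * kk * n)) * Ex P δ fun x => Real.exp (c * PI D S x) * G x := fun c => by
    rw [← zblk_shift]
    congr 1
    funext x
    congr 2
    ring
  set M := ∑ p ∈ S, mn (D.lam p) ((kk - 1) / √p) ((p : ℂ) ^ (-(1 / 2 + (σ : ℂ)))) 0 with hMd
  set T := Real.exp (-((kk - 1) * kk * n) + M) with hT
  have h6 : (6 : ℝ) ≤ Real.exp 5 := by linarith [Real.add_one_le_exp (5 : ℝ)]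
  have h7 : Real.exp (-5) * Real.exp (-C) ≤ Real.exp (-C) / 6 := by
    rw [Real.exp_neg 5, mul_comm, ← div_eq_mul_inv]
    gcongr
  have t0 : Real.exp (-C) * T ≤ Ex P δ (fun x => Real.exp ((kk - 1) * (PI D S x - kk * n)) * G x) := by
    rw [hA]
    refine le_trans (le_of_eq ?_) (mul_le_mul_of_nonneg_left (hH _ hτ4).1 (Real.exp_pos _).le)
    rw [hT, ← Real.exp_add, ← Real.exp_add]
    congr 1
    ring
  have t1 : ∀ ε : ℝ, ε ^ 2 = ep k₀ ^ 2 → |ε| ≤ 1 → Real.exp (-ep k₀ ^ 2 * n) *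
      Ex P δ (fun x => Real.exp ((kk - 1 + ε) * (PI D S x - kk * n)) * G x) ≤
        Real.exp (-C) / 6 * T := fun ε h1 h2 => by
    have hc : |kk - 1 + ε| ≤ 4 := (abs_add_le _ _).trans (by linarith)
    have a1 := (abs_le.1 (hM _ hc)).2
    rw [hA]
    refine (mul_le_mul_of_nonneg_left (mul_le_mul_of_nonneg_left (hH _ hc).2 (Real.exp_pos _).le)
      (Real.exp_pos _).le).trans (le_trans ?_ (mul_le_mul_of_nonneg_right h7 (Real.exp_pos _).le))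
    rw [← Real.exp_add, ← Real.exp_add, ← Real.exp_add, ← Real.exp_add, Real.exp_le_exp]
    have a2 := G₃.trans hn3
    rw [div_le_iff₀ (by positivity)] at a2
    have a3 : (1 + (kk - 1 + ε)) ^ 2 / 2 * n =
        (1 + (kk - 1)) ^ 2 / 2 * n + ε * kk * n + ep k₀ ^ 2 * n / 2 := by
      rw [← h1]
      ring
    linarith
  have t2 := t1 (ep k₀) rfl (by rw [abs_of_pos hε0]; exact hε1)
  have t3 := t1 (-ep k₀) (neg_sq _) (by rw [abs_neg, abs_of_pos hε0]; exact hε1)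
  simp only [← sub_eq_add_neg] at t3
  have t4 : Ex P δ (fun x => Real.exp (k₀ / 100 * |PI D S x - kk * n| - (n : ℝ) ^ 3) * G x) ≤
      2 * (Real.exp (-C) / 6 * (Real.exp (-2 * ep k₀ * n) * T)) := by
    simp only [sub_eq_add_neg _ ((n : ℝ) ^ 3)]
    rw [zblk_shift]
    refine (mul_le_mul_of_nonneg_left hH' (Real.exp_pos _).le).trans ?_
    rw [mul_left_comm]
    refine mul_le_mul_of_nonneg_left (le_trans ?_
      (mul_le_mul_of_nonneg_right h7 (mul_pos (Real.exp_pos _) (Real.exp_pos _)).le)) zero_le_two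
    rw [hT, ← Real.exp_add, ← Real.exp_add, ← Real.exp_add, ← Real.exp_add, Real.exp_le_exp]
    have a0 : 0 ≤ (k₀ : ℝ) / 100 + 2 * C' + 8 * ((k₀ : ℝ) / 100) ^ 2 := by positivity
    generalize (k₀ : ℝ) / 100 + 2 * C' + 8 * ((k₀ : ℝ) / 100) ^ 2 = K at *
    have a1 := mul_le_mul_of_nonneg_right (G₂.trans hn2) hn0
    have a2 : (1 : ℝ) ≤ n := by linarith
    have a3 : (n : ℝ) * n ≤ n ^ 3 := by nlinarith [mul_nonneg hn0 hn0]
    have a4 := mul_le_mul_of_nonneg_right hε1 hn0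
    have a5 : (kk - 1) * kk * n ≤ 0 :=
      mul_nonpos_of_nonpos_of_nonneg (mul_nonpos_of_nonpos_of_nonneg (by linarith) (by linarith)) hn0
    have a6 := mul_le_mul_of_nonneg_left a2 (show 0 ≤ C + 5 by linarith)
    linarith
  calc
    _ = Real.exp (-C) / 3 * (Real.exp (-2 * ep k₀ * n) * T) := by
      rw [hT, ← Real.exp_add]
      congr 2
      ring
    _ ≤ Ex P δ fun x => Real.exp (-2 * ep k₀ * n) * (Real.exp ((kk - 1) * (PI D S x - kk * n)) * G x -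
        Real.exp (-ep k₀ ^ 2 * n) * (Real.exp ((kk - 1 + ep k₀) * (PI D S x - kk * n)) * G x +
          Real.exp ((kk - 1 - ep k₀) * (PI D S x - kk * n)) * G x)) -
        Real.exp (k₀ / 100 * |PI D S x - kk * n| - (n : ℝ) ^ 3) * G x := by
      rw [Ex_sub, Ex_mul_left, Ex_sub, Ex_mul_left, Ex_add, mul_add]
      have a1 := mul_le_mul_of_nonneg_left t0 (Real.exp_pos (-2 * ep k₀ * n)).le
      have a2 := mul_le_mul_of_nonneg_left t2 (Real.exp_pos (-2 * ep k₀ * n)).le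
      have a3 := mul_le_mul_of_nonneg_left t3 (Real.exp_pos (-2 * ep k₀ * n)).le
      linarith
    _ ≤ _ := by
      refine Ex_mono hP hδ fun x _ => le_trans (le_of_eq ?_) (mul_le_mul_of_nonneg_right
        (H₁ n (le_of_max_le_left hn) (kk - 1) (PI D S x - kk * n) hτ) (hG x))
      ring

end Pool.Agent.Lib.MP_03e5d0_nt
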