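import Pool.Agent.Lib.MP_03e5d0_nt.ZDef
import Pool.Agent.Lib.MP_03e5d0_nt.CAsm

set_option autoImplicit false

noncomputable section

namespace Pool.Agent.Lib.MP_03e5d0_nt

open Complex Finset MeasureTheory
open scoped NumberTheorySymbols Real ContDiff

/-! The curve side for the larger family, and the assembly. -/

section curve

open WeierstrassCurve Polynomial ArithmeticFunction

theorem zc_jac {p : ℕ} {d : ℤ} (h8 : d ≡ 1 [ZMOD 8]) (h : p ≠ 2 → J(d | p) = 1) : J(d | p) = 1 := by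
  rcases eq_or_ne p 2 with rfl | hp
  · rw [jacobiSym.mod_left' (a₂ := 1) (h8.of_dvd (by norm_num)), jacobiSym.one_left]
  · exact h hp

theorem zc_sqrt {p : ℕ} [hp : Fact p.Prime] {d : ℤ} (h8 : d ≡ 1 [ZMOD 8])
    (h : p ≠ 2 → J(d | p) = 1) : ∃ u : Kp p, u ^ 2 = d := by
  rcases eq_or_ne p 2 with rfl | h2
  · exact exists_sqrt h8.symm.dvd
  have h1 := h h2
  rw [← jacobiSym.legendreSym.to_jacobiSym] at h1
  have hd : (d : ZMod p) ≠ 0 := fun h0 => by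
    rw [(legendreSym.eq_zero_iff p d).2 h0] at h1
    exact zero_ne_one h1
  obtain ⟨r, hr⟩ := (legendreSym.eq_one_iff p hd).1 h1
  obtain ⟨t, rfl⟩ := ZMod.intCast_surjective r
  have hp' : Prime (p : ℤ) := Nat.prime_iff_prime_int.1 hp.out
  have e0 : (p : ℤ) ∣ t ^ 2 - d := (ZMod.intCast_zmod_eq_zero_iff_dvd _ _).1 (by
    push_cast
    rw [hr]
    ring)
  have e3 : ¬(p : ℤ) ∣ 2 * t := fun h0 => by
    rcases hp'.dvd_or_dvd h0 with h3 | h3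
    · exact h2 ((Nat.prime_dvd_prime_iff_eq hp.out Nat.prime_two).1 (by exact_mod_cast h3))
    · rw [(ZMod.intCast_zmod_eq_zero_iff_dvd _ _).2 h3, mul_zero] at hr
      exact hd hr
  obtain ⟨z, hz, -⟩ := hensels_lemma (p := p) (F := (X ^ 2 - C d : ℤ[X])) (a := t) (by
    have e1 : aeval (t : ℤ_[p]) (X ^ 2 - C d : ℤ[X]) = ((t ^ 2 - d : ℤ) : ℤ_[p]) := by simp
    have e2 : aeval (t : ℤ_[p]) (derivative (X ^ 2 - C d : ℤ[X])) = ((2 * t : ℤ) : ℤ_[p]) := by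
      rw [derivative_sub, derivative_X_pow, derivative_C, sub_zero, map_mul, aeval_C]
      simp
    have e4 : ‖((2 * t : ℤ) : ℤ_[p])‖ = 1 := le_antisymm (PadicInt.norm_le_one _)
      (not_lt.1 fun h0 => e3 ((PadicInt.norm_int_lt_one_iff_dvd _).1 h0))
    rw [e1, e2, e4, one_pow]
    exact (PadicInt.norm_int_lt_one_iff_dvd _).2 e0)
  refine ⟨algebraMap (Op p) (Kp p) (eO p z), ?_⟩
  have : z ^ 2 = d := by simpa [sub_eq_zero] using hz
  rw [← map_pow, ← map_pow, this, map_intCast, map_intCast]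

theorem zc_lpoly {p : ℕ} [Fact p.Prime] {a b : ℚ} (h : 4 * a ^ 3 + 27 * b ^ 2 ≠ 0) {d : ℤ}
    (hd0 : d ≠ 0) (h8 : d ≡ 1 [ZMOD 8]) (hd : p ≠ 2 → J(d | p) = 1) :
    lpoly p (twist a b d) = lpoly p (twist a b 1) := by
  obtain ⟨u, hu⟩ := zc_sqrt h8 hd
  have hu0 : u ≠ 0 := fun h0 => by
    rw [h0, ← map_intCast (algebraMap ℚ (Kp p)), zero_pow two_ne_zero, eq_comm,
      _root_.map_eq_zero] at hu
    exact hd0 (by exact_mod_cast hu)
  exact lpoly_congr p _ _ (twist_Δ_ne h one_ne_zero) _ (smul_twist a b hu0 hu)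

theorem zc_LF_twist {A B d : ℤ} (h : 4 * A ^ 3 + 27 * B ^ 2 ≠ 0) {q : ℕ}
    (hq : 2 * (4 * A ^ 3 + 27 * B ^ 2) ∣ (q : ℤ)) (hs : Squarefree d) 
    (hd : d ≡ 1 [ZMOD 8] ∧ ∀ p : ℕ, p.Prime → p ∣ q → p ≠ 2 → J(d | p) = 1)
    (n : ℕ) :
    (twist A B d).LFunction n = (twist A B 1).LFunction n * J(d | n) := by
  let g : ArithmeticFunction ℤ := ⟨fun n => (twist A B 1).LFunction n * J(d | n), by simp⟩
  have hm := LF_mult (twist A B 1)
  have hg : g.IsMultiplicative := by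
    rw [IsMultiplicative.iff_ne_zero]
    refine ⟨by simp [g, hm.1], fun {m n} h0 h1 hc => ?_⟩
    simp only [g, coe_mk, hm.2 hc, jacobiSym.mul_right' d h0 h1]
    ring
  have h' : 4 * (A : ℚ) ^ 3 + 27 * (B : ℚ) ^ 2 ≠ 0 := by exact_mod_cast h
  suffices (twist A B d).LFunction = g by rw [this]; rfl
  rw [(LF_mult _).eq_iff_eq_on_prime_powers _ _ hg]
  intro p j hp
  have : Fact p.Prime := ⟨hp⟩
  simp only [g, coe_mk, jacobiSym.pow_right]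
  by_cases h1 : (p : ℤ) ∣ 2 * (4 * A ^ 3 + 27 * B ^ 2)
  · have h2 := hd.2 p hp (Int.natCast_dvd_natCast.1 (h1.trans hq))
    rw [zc_jac hd.1 h2, LF_pow, LF_pow, zc_lpoly h' hs.ne_zero hd.1 h2, one_pow, mul_one]
  have h4 := lpoly_twist_good (d := 1) h1 fun h0 =>
    (Nat.prime_iff_prime_int.1 hp).not_isUnit (isUnit_of_dvd_one h0)
  rw [jacobiSym.one_left, one_mul] at h4
  refine LF_pow_twist h4 ?_ j
  by_cases h5 : (p : ℤ) ∣ d
  · have h6 : J(d | p) = 0 := by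
      rw [← jacobiSym.legendreSym.to_jacobiSym, legendreSym.eq_zero_iff,
        ZMod.intCast_zmod_eq_zero_iff_dvd]
      exact h5
    simp [lpoly_twist_add h1 h5 hs, h6]
  · have h6 : J(d | p) ^ 2 = 1 := by
      rw [← jacobiSym.legendreSym.to_jacobiSym]
      exact legendreSym.sq_one p fun h0 => h5 ((ZMod.intCast_zmod_eq_zero_iff_dvd _ _).1 h0)
    rw [lpoly_twist_good h1 h5, h6, one_mul]

theorem zc_data_of_int (A B : ℤ) (hab : 4 * A ^ 3 + 27 * B ^ 2 ≠ 0) (N : ℕ) (hN : N ≠ 0)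
    (hbd : ∃ C : ℝ, ∀ n : ℕ, |((twist A B 1).LFunction n : ℝ)| ≤ C * n) :
    ∃ D : Data, N ∣ D.q ∧
      (∀ n : ℕ, n.Coprime D.q → ((twist A B 1).LFunction n : ℝ) = D.lam n * √n) ∧
      (∀ d : ℤ, D.Fam2 d → ∀ n : ℕ, (twist A B d).LFunction n = (twist A B 1).LFunction n * J(d | n)) ∧
      ∃ P : ℂ → ℂ, Differentiable ℂ P ∧ P 1 ≠ 0 ∧ ∀ d : ℤ, D.Fam2 d → ∀ s : ℂ, 2 < s.re →
        LSeries (D.co d) s = P s * (twist A B d).LSeries s := by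
  obtain ⟨F, hF0, hF⟩ := exists_mul_primes 10000
  obtain ⟨q, hq0, hNq, hFq, hq⟩ : ∃ q : ℕ, q ≠ 0 ∧ N ∣ q ∧ F ∣ q ∧
      2 * (4 * A ^ 3 + 27 * B ^ 2) ∣ (q : ℤ) := by
    refine ⟨N * F * (2 * (4 * A ^ 3 + 27 * B ^ 2)).natAbs, mul_ne_zero (mul_ne_zero hN hF0)
      (Int.natAbs_ne_zero.2 (mul_ne_zero two_ne_zero hab)), (dvd_mul_right _ _).mul_right _,
      (dvd_mul_left _ _).mul_right _, ?_⟩
    rw [Nat.cast_mul]
    exact (Int.dvd_natAbs.2 dvd_rfl).mul_left _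
  set L := (twist A B 1).LFunction with hL
  have hm : L.IsMultiplicative := LF_mult _
  have hgood : ∀ p : ℕ, p.Prime → ¬p ∣ q → (L p : ℝ) ^ 2 ≤ 4 * p ∧
      ∀ j, (L (p ^ (j + 2)) : ℝ) = L p * L (p ^ (j + 1)) - p * L (p ^ j) := by
    intro p hp hpq
    have : Fact p.Prime := ⟨hp⟩
    have h1 : ¬(p : ℤ) ∣ 2 * (4 * A ^ 3 + 27 * B ^ 2) := fun h =>
      hpq (Int.natCast_dvd_natCast.1 (h.trans hq))
    have h4 := lpoly_twist_good (d := 1) h1 fun h0 =>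
      (Nat.prime_iff_prime_int.1 hp).not_isUnit (isUnit_of_dvd_one h0)
    rw [jacobiSym.one_left, one_mul] at h4
    obtain ⟨a1, a2⟩ := LF_rec p _ h4
    rw [← hL] at a1 a2
    refine ⟨by rw [a1]; exact_mod_cast ap_sq_le h1, fun j => by rw [a2, a1]; push_cast; ring⟩
  obtain ⟨D, rfl, hlam⟩ := exists_data L hm q hq0 (fun p hp h => (hF p hp h).trans hFq) hgood
  have htw : ∀ d : ℤ, D.Fam2 d → ∀ n : ℕ, (twist A B d).LFunction n = L n * J(d | n) :=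
    fun d hd n => zc_LF_twist hab hq hd.1 hd.2 n
  have hαβ : ∀ p : ℕ, ∃ α β : ℤ, ∀ [Fact p.Prime],
      lpoly p (twist A B 1) = 1 - C α * X + C β * X ^ 2 ∧ (p : ℤ) ^ 2 - α * p + β ≠ 0 := by
    intro p
    by_cases hp : p.Prime
    · have : Fact p.Prime := ⟨hp⟩
      obtain ⟨α, β, h⟩ := lpoly_form p (twist A B 1)
      exact ⟨α, β, h⟩
    · exact ⟨0, 0, fun [h : Fact p.Prime] => absurd h.out hp⟩
  choose α β hαβ using hαβ
  refine ⟨D, hNq, hlam, htw, fun s => ∏ p ∈ D.q.primeFactors,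
    (1 - (α p : ℂ) * (p : ℂ) ^ (-s) + (β p : ℂ) * ((p : ℂ) ^ (-s)) ^ 2), ?_, ?_, ?_⟩
  · refine Differentiable.fun_finsetProd fun p hp => ?_
    have : Differentiable ℂ fun s : ℂ => (p : ℂ) ^ (-s) := differentiable_id.neg.const_cpow
      (Or.inl (Nat.cast_ne_zero.2 (Nat.prime_of_mem_primeFactors hp).ne_zero))
    fun_prop
  · refine Finset.prod_ne_zero_iff.2 fun p hp h => ?_
    have : Fact p.Prime := ⟨Nat.prime_of_mem_primeFactors hp⟩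
    have hp0 : (p : ℂ) ≠ 0 := Nat.cast_ne_zero.2 this.out.ne_zero
    refine (hαβ p).2 ?_
    rw [Complex.cpow_neg_one] at h
    field_simp at h
    have : ((p : ℂ)) ^ 2 - α p * p + β p = 0 := by linear_combination h
    exact_mod_cast this
  intro d hd s hs
  obtain ⟨C, hC⟩ := hbd
  have hsum : LSeriesSummable ((↑) ∘ (twist A B d).LFunction) s := by
    refine LSeriesSummable_of_le_const_mul_rpow hs ⟨C, fun n _ => ?_⟩
    rw [Function.comp_apply, Complex.norm_intCast, htw d hd, Int.cast_mul, abs_mul,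
      show (2 : ℝ) - 1 = 1 by norm_num, Real.rpow_one]
    refine (mul_le_of_le_one_right (abs_nonneg _) ?_).trans (hC n)
    rcases jacobiSym.trichotomy d n with h | h | h <;> simp [h]
  have h' : 4 * (A : ℚ) ^ 3 + 27 * (B : ℚ) ^ 2 ≠ 0 := by exact_mod_cast hab
  rw [WeierstrassCurve.LSeries, ← lseries_depl _ (LF_mult _) α β D.q.primeFactors (fun p hp => by
      have : Fact p.Prime := ⟨Nat.prime_of_mem_primeFactors hp⟩
      have h2 := hd.2.2 p this.out (Nat.dvd_of_mem_primeFactors hp)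
      exact ⟨this.out, LF_rec p _ ((zc_lpoly h' hd.1.ne_zero hd.2.1 h2).trans (hαβ p).1)⟩) hsum]
  congr 1
  funext n
  have e : (∀ p ∈ D.q.primeFactors, ¬p ∣ n) ↔ n.Coprime D.q := by
    rw [Nat.coprime_iff_gcd_eq_one, Nat.eq_one_iff_not_exists_prime_dvd]
    simp only [Nat.mem_primeFactors, Nat.dvd_gcd_iff]
    exact ⟨fun h p hp hh => h p ⟨hp, hh.2, hq0⟩ hh.1, fun h p hp hh => h p hp.1 ⟨hh, hp.2.1⟩⟩
  unfold depl Data.co
  by_cases h : n.Coprime D.q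
  · rw [if_pos (e.2 h), mul_right_comm, ← hlam n h, Function.comp_apply, htw d hd]
    push_cast
    rfl
  · rw [if_neg (mt e.1 h), D.lam_zero n h]
    simp

end curve

/-- As `data_of_curve`; `d` is a square in `ℚ_p` for `p ∣ q` (Hensel from `J(d | p) = 1`, or `d ≡ 1 mod 8`). -/
theorem data_of_curve2 (a b : ℚ) (hab : 4 * a ^ 3 + 27 * b ^ 2 ≠ 0) (N : ℕ) (hN : N ≠ 0)
    (hbd : ∃ C : ℝ, ∀ n : ℕ, |((twist a b 1).LFunction n : ℝ)| ≤ C * n) :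
    ∃ D : Data, N ∣ D.q ∧
      (∀ n : ℕ, n.Coprime D.q → ((twist a b 1).LFunction n : ℝ) = D.lam n * √n) ∧
      (∀ d : ℤ, D.Fam2 d → ∀ n : ℕ, (twist a b d).LFunction n = (twist a b 1).LFunction n * J(d | n)) ∧
      ∃ P : ℂ → ℂ, Differentiable ℂ P ∧ P 1 ≠ 0 ∧ ∀ d : ℤ, D.Fam2 d → ∀ s : ℂ, 2 < s.re →
        LSeries (D.co d) s = P s * (twist a b d).LSeries s := by
  have hu : ((a.den * b.den : ℕ) : ℚ) ≠ 0 := Nat.cast_ne_zero.2 (mul_ne_zero a.den_nz b.den_nz)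
  obtain ⟨A, hA⟩ : ∃ A : ℤ, (A : ℚ) = ((a.den * b.den : ℕ) : ℚ) ^ 4 * a :=
    ⟨a.den ^ 3 * b.den ^ 4 * a.num, by push_cast; rw [← a.mul_den_eq_num]; ring⟩
  obtain ⟨B, hB⟩ : ∃ B : ℤ, (B : ℚ) = ((a.den * b.den : ℕ) : ℚ) ^ 6 * b :=
    ⟨a.den ^ 6 * b.den ^ 5 * b.num, by push_cast; rw [← b.mul_den_eq_num]; ring⟩
  have hAB : 4 * A ^ 3 + 27 * B ^ 2 ≠ 0 := fun h => by
    have h1 : 4 * (A : ℚ) ^ 3 + 27 * (B : ℚ) ^ 2 = 0 := by exact_mod_cast h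
    rw [hA, hB] at h1
    exact mul_ne_zero (pow_ne_zero 12 hu) hab (by linear_combination h1)
  have e : ∀ d : ℤ, d ≠ 0 → (twist A B d).LFunction = (twist a b d).LFunction := fun d hd => by
    rw [hA, hB, LF_twist_scale hab hd hu]
  obtain ⟨D, h1, h2, h3, P, h4, h5, h6⟩ := zc_data_of_int A B hAB N hN (by rwa [e 1 one_ne_zero])
  rw [e 1 one_ne_zero] at h2 h3
  refine ⟨D, h1, h2, fun d hd n => by rw [← h3 d hd, e d hd.1.ne_zero], P, h4, h5,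
    fun d hd s hs => ?_⟩
  rw [h6 d hd s hs, WeierstrassCurve.LSeries, WeierstrassCurve.LSeries, e d hd.1.ne_zero]

/-- As `main_of`. -/
theorem main0_of
    (core0 : ∀ D : Data, D.FE → D.FE2 → D.PS → ∀ α : ℝ, 3 - 2 * √2 < α → ∃ X₀ : ℝ, ∀ X : ℝ, X₀ ≤ X →
      X / Real.log X ^ α ≤ ({d : ℤ | D.Fam2 d ∧ |(d : ℝ)| < X ∧ D.NonZ d}.ncard : ℝ))
    (fe : ∀ {N : ℕ} [NeZero N] (f : CuspForm (CongruenceSubgroup.Gamma0 N) 2) (D : Data),
      N ∣ D.q → (∀ n : ℕ, n.Coprime D.q →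
        (UpperHalfPlane.qExpansion 1 f).coeff n = ((D.lam n * √n : ℝ) : ℂ)) → D.FE ∧ D.FE2 ∧ D.PS)
    (ent : ∀ {N : ℕ} [NeZero N] (f : CuspForm (CongruenceSubgroup.Gamma0 N) 2) {d : ℤ},
      d ≡ 1 [ZMOD 8] → ∃ F : ℂ → ℂ, Differentiable ℂ F ∧ ∀ s : ℂ, 2 < s.re →
        F s = LSeries (fun n => (UpperHalfPlane.qExpansion 1 f).coeff n * (J(d | n) : ℂ)) s)
    (a b : ℚ) (hab : 4 * a ^ 3 + 27 * b ^ 2 ≠ 0) (hm : IsModular (twist a b 1)) (α : ℝ)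
    (hα : 3 - 2 * √2 < α) :
    ∃ X₀ : ℝ, ∀ X : ℝ, X₀ ≤ X → X / Real.log X ^ α ≤ countN a b 0 X := by
  obtain ⟨N, hN, f, hf⟩ := hm
  obtain ⟨D, h1, h2, h3, P, h4, h5, h6⟩ :=
    data_of_curve2 a b hab N (NeZero.ne N) (hecke_bound f hf)
  have ha : ∀ n : ℕ, n.Coprime D.q →
      (UpperHalfPlane.qExpansion 1 f).coeff n = ((D.lam n * √n : ℝ) : ℂ) := fun n hn => by
    rw [hf, ← h2 n hn, ofReal_intCast]
  obtain ⟨e1, e2, e3⟩ := fe f D h1 ha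
  obtain ⟨X₀, hX⟩ := core0 D e1 e2 e3 α hα
  refine ⟨X₀, fun X h => (hX X h).trans (Nat.cast_le.2 ?_)⟩
  refine Set.ncard_le_ncard ?_
    ((Finset.finite_toSet _).subset (subset_Icc_ceil X fun d hd => hd.2.1))
  rintro d ⟨hd, hdX, G, g1, g2, g3⟩
  obtain ⟨F, f1, f2⟩ := ent f hd.2.1
  have f3 : ∀ s : ℂ, 2 < s.re → F s = (twist a b d).LSeries s := fun s hs => by
    rw [f2 s hs, WeierstrassCurve.LSeries]
    congr 1
    funext n
    rw [hf, Function.comp_apply, h3 d hd, Int.cast_mul]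
  refine ⟨hd.1, hdX, F, f1, f3, ?_⟩
  rw [order_of_mul f1 g1 h4 h5 fun s hs => by rw [g2 s hs, h6 d hd s hs, f3 s hs],
    (g1.analyticAt 1).analyticOrderAt_eq_zero.2 g3]
  rfl

end Pool.Agent.Lib.MP_03e5d0_nt
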