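import Pool.Agent.Lib.MP_03e5d0_nt.ZDef

set_option autoImplicit false

noncomputable section

namespace Pool.Agent.Lib.MP_03e5d0_nt

open Complex Finset MeasureTheory
open scoped NumberTheorySymbols Real ContDiff

/-! The cap polynomial. -/

theorem zcap_cosh (y : ℝ) : Real.cosh y ≤ Real.exp |y| := by
  rw [Real.cosh_eq]
  have h1 := Real.exp_le_exp.2 (le_abs_self y)
  have h2 := Real.exp_le_exp.2 (neg_le_abs y)
  linarith

theorem zcap_abs (j : ℕ) (y : ℝ) :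
    |(-1) ^ j * y ^ (2 * j) / ((2 * j).factorial : ℝ)| = |y| ^ (2 * j) / (2 * j).factorial := by
  rw [abs_div, abs_mul, abs_pow, abs_pow, abs_neg, abs_one, one_pow, one_mul, Nat.abs_cast]

theorem zcap_num (N : ℕ) : (N : ℝ) * Real.exp N ≤ 4 ^ (N + 1) := by
  have h3 : Real.exp 1 ≤ 3 := Real.exp_one_lt_three.le
  have h1 : Real.exp N ≤ 3 ^ N := by
    rw [← Real.exp_one_pow]
    exact pow_le_pow_left₀ (Real.exp_pos 1).le h3 N
  have h2 : ∀ N : ℕ, (N : ℝ) * 3 ^ N ≤ 4 ^ (N + 1) := fun N => by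
    induction N with
    | zero => norm_num
    | succ N ih =>
      have h4 : (3 : ℝ) ^ N ≤ 4 ^ N := pow_le_pow_left₀ (by norm_num) (by norm_num) N
      have h5 : (0 : ℝ) < 4 ^ N := by positivity
      rw [pow_succ] at ih
      rw [pow_succ, pow_succ, pow_succ]
      push_cast
      nlinarith
  exact (mul_le_mul_of_nonneg_left h1 N.cast_nonneg).trans (h2 N)

theorem zcap_cos (y : ℝ) (m : ℕ) : 0 ≤ Real.cos y ^ (2 * m) ∧ Real.cos y ^ (2 * m) ≤ 1 := by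
  rw [pow_mul]
  exact ⟨pow_nonneg (sq_nonneg _) _, pow_le_one₀ (sq_nonneg _) (Real.cos_sq_le_one y)⟩

theorem zcap_ep {k₀ : ℕ} (hk : 1 ≤ k₀) : 0 < ep k₀ := by
  have : (0 : ℝ) < k₀ := by exact_mod_cast hk
  unfold ep
  positivity

theorem zcap_sq {k₀ n : ℕ} (hk : 1 ≤ k₀) (hn : 1 ≤ n) (x : ℝ) :
    ((2 * (k₀ * n) : ℕ) : ℝ) * (x / (400 * n)) ^ 2 = x ^ 2 / (ep k₀ * n) := by
  have h1 : (0 : ℝ) < k₀ := by exact_mod_cast hk
  have h2 : (0 : ℝ) < n := by exact_mod_cast hn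
  unfold ep
  push_cast
  field_simp
  ring

/-- `Real.hasSum_cos`; the tail is at most `4 ^ (-(l + 1)) ∑ (2 |y|) ^ (2 j) / (2 j)! ≤ 4 ^ (-(l+1)) exp (2 |y|)`. -/
theorem tcos_sub (l : ℕ) (y : ℝ) : |tcos l y - Real.cos y| ≤ Real.exp (2 * |y|) / 4 ^ (l + 1) := by
  have h1 := (hasSum_nat_add_iff' (l + 1)).2 (Real.hasSum_cos y)
  have h2 := ((hasSum_nat_add_iff' (l + 1)).2 (Real.hasSum_cosh (2 * |y|))).div_const (4 ^ (l + 1))
  have h3 := h1.norm_le_of_bounded h2 fun j => by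
    rw [Real.norm_eq_abs, zcap_abs, mul_pow, pow_mul (2 : ℝ), show (2 : ℝ) ^ 2 = 4 by norm_num,
      le_div_iff₀ (by positivity), mul_div_assoc, mul_comm]
    exact mul_le_mul_of_nonneg_right (pow_le_pow_right₀ (by norm_num) (by omega)) (by positivity)
  rw [Real.norm_eq_abs, abs_sub_comm] at h3
  refine h3.trans (div_le_div_of_nonneg_right ?_ (by positivity))
  have h4 := zcap_cosh (2 * |y|)
  rw [abs_of_nonneg (by positivity : 0 ≤ 2 * |y|)] at h4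
  have h5 : 0 ≤ ∑ i ∈ range (l + 1), (2 * |y|) ^ (2 * i) / ((2 * i).factorial : ℝ) :=
    sum_nonneg fun i _ => by positivity
  linarith

theorem abs_tcos_le (l : ℕ) (y : ℝ) : |tcos l y| ≤ Real.exp |y| := by
  refine (abs_sum_le_sum_abs _ _).trans ?_
  simp only [zcap_abs]
  refine (sum_le_hasSum _ (fun j _ => by positivity) (Real.hasSum_cosh |y|)).trans ?_
  simpa using zcap_cosh |y|

theorem cap_nonneg (k₀ n : ℕ) (x : ℝ) : 0 ≤ cap k₀ n x := by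
  rw [cap, pow_mul]
  exact pow_nonneg (sq_nonneg _) _

theorem cap_le_exp (k₀ n : ℕ) (x : ℝ) : cap k₀ n x ≤ Real.exp (k₀ / 200 * |x|) := by
  rcases Nat.eq_zero_or_pos n with rfl | hn
  · rw [cap, mul_zero, mul_zero, pow_zero]
    exact Real.one_le_exp (by positivity)
  have h2 : (0 : ℝ) < n := by exact_mod_cast hn
  refine (le_abs_self _).trans ?_
  rw [cap, abs_pow]
  refine (pow_le_pow_left₀ (abs_nonneg _) (abs_tcos_le _ _) _).trans (le_of_eq ?_)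
  rw [← Real.exp_nat_mul, abs_div, abs_of_pos (by positivity : (0 : ℝ) < 400 * n)]
  congr 1
  push_cast
  field_simp
  ring

theorem kk_mem : 1 / 2 ≤ kk ∧ kk ≤ 3 / 5 := by
  have h1 : √2 ≤ 3 / 2 := Real.sqrt_le_iff.2 ⟨by norm_num, by norm_num⟩
  have h2 : 7 / 5 ≤ √2 := Real.le_sqrt_of_sq_le (by norm_num)
  unfold kk
  constructor <;> linarith

/-- `|a ^ m - b ^ m| ≤ m * max |a| |b| ^ (m - 1) * |a - b|` (`abs_pow_sub_pow_le`), `m = 2 k₀ n`, and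
`2 k₀ n ≤ (4 / e) ^ (n ^ 3)` for large `n`. -/
theorem cap_sub {k₀ : ℕ} (hk : 1 ≤ k₀) : ∃ n₀ : ℕ, ∀ n : ℕ, n₀ ≤ n → ∀ x : ℝ,
    |cap k₀ n x - Real.cos (x / (400 * n)) ^ (2 * (k₀ * n))| ≤
      Real.exp (k₀ / 100 * |x| - (n : ℝ) ^ 3) := by
  refine ⟨2 * k₀, fun n hn x => ?_⟩
  have hn1 : 1 ≤ n := by omega
  have h2 : (0 : ℝ) < n := by exact_mod_cast hn1
  have hm : 1 ≤ 2 * (k₀ * n) := by
    have := Nat.mul_pos hk hn1
    omega
  have hy : ((2 * (k₀ * n) : ℕ) : ℝ) * |x / (400 * n)| = k₀ / 200 * |x| := by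
    rw [abs_div, abs_of_pos (by positivity : (0 : ℝ) < 400 * n)]
    push_cast
    field_simp
    ring
  have hN : 2 * (k₀ * n) ≤ n ^ 3 := by
    have h3 : 2 * k₀ * n ≤ n * n := Nat.mul_le_mul_right n hn
    have h4 : n * n * 1 ≤ n * n * n := Nat.mul_le_mul_left _ hn1
    calc 2 * (k₀ * n) = 2 * k₀ * n := by ring
      _ ≤ n * n * n := by omega
      _ = n ^ 3 := by ring
  rw [cap]
  generalize 2 * (k₀ * n) = m at hm hy hN
  generalize x / (400 * n) = y at hy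
  obtain ⟨m, rfl⟩ : ∃ m', m = m' + 1 := ⟨m - 1, by omega⟩
  have h5 : max |tcos (n ^ 3) y| |Real.cos y| ≤ Real.exp |y| :=
    max_le (abs_tcos_le _ _) ((Real.abs_cos_le_one y).trans (Real.one_le_exp (abs_nonneg y)))
  have h6 := zcap_num (n ^ 3)
  have h7 : ((m + 1 : ℕ) : ℝ) ≤ (n ^ 3 : ℕ) := by exact_mod_cast hN
  refine (abs_pow_sub_pow_le _ _ _).trans ?_
  rw [Nat.add_sub_cancel]
  refine (mul_le_mul (mul_le_mul (tcos_sub _ y) h7 (by positivity) (by positivity))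
    (pow_le_pow_left₀ (le_max_of_le_left (abs_nonneg _)) h5 m) (by positivity)
    (by positivity)).trans ?_
  have h8 : ((n ^ 3 : ℕ) : ℝ) / 4 ^ (n ^ 3 + 1) ≤ Real.exp (-(n : ℝ) ^ 3) := by
    rw [Real.exp_neg, div_le_iff₀ (by positivity), inv_mul_eq_div, le_div_iff₀ (Real.exp_pos _)]
    simpa using h6
  have h9 : Real.exp (2 * |y|) * Real.exp |y| ^ m ≤ Real.exp (k₀ / 100 * |x|) := by
    rw [← Real.exp_nat_mul, ← Real.exp_add, Real.exp_le_exp]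
    have h10 : 0 ≤ (m : ℝ) * |y| := by positivity
    push_cast at hy
    linarith
  calc Real.exp (2 * |y|) / 4 ^ (n ^ 3 + 1) * ((n ^ 3 : ℕ) : ℝ) * Real.exp |y| ^ m
      = Real.exp (2 * |y|) * Real.exp |y| ^ m * (((n ^ 3 : ℕ) : ℝ) / 4 ^ (n ^ 3 + 1)) := by ring
    _ ≤ Real.exp (k₀ / 100 * |x|) * Real.exp (-(n : ℝ) ^ 3) :=
        mul_le_mul h9 h8 (by positivity) (by positivity)
    _ = _ := by rw [← Real.exp_add, sub_eq_add_neg]

theorem cap_le_two {k₀ : ℕ} (hk : 1 ≤ k₀) : ∃ n₀ : ℕ, ∀ n : ℕ, n₀ ≤ n → ∀ x : ℝ, |x| ≤ 3 * (n : ℝ) ^ 2 →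
    cap k₀ n x ≤ 2 := by
  obtain ⟨n₀, h⟩ := cap_sub hk
  refine ⟨max n₀ k₀, fun n hn x hx => ?_⟩
  have h1 := (abs_le.1 (h n ((le_max_left _ _).trans hn) x)).2
  have h2 := (zcap_cos (x / (400 * n)) (k₀ * n)).2
  have h3 : (k₀ : ℝ) ≤ n := by exact_mod_cast (le_max_right _ _).trans hn
  have h4 : Real.exp (k₀ / 100 * |x| - (n : ℝ) ^ 3) ≤ 1 := by
    rw [Real.exp_le_one_iff]
    have h5 : (k₀ : ℝ) / 100 * |x| ≤ n / 100 * (3 * (n : ℝ) ^ 2) :=
      mul_le_mul (by linarith) hx (abs_nonneg _) (by positivity)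
    have h6 : (0 : ℝ) ≤ (n : ℝ) ^ 3 := by positivity
    linarith
  linarith

/-- For `|x| ≤ 400 n`, `y = x / (400 n)`: `0 ≤ cos y ≤ exp (-y ^ 2 / 5)` (`Real.cos_quadratic_upper_bound`),
`2 k₀ n y ^ 2 = x ^ 2 / (ep k₀ * n)`, and `-x ^ 2 / (5 s) ≤ c x + 5 c ^ 2 s / 4`. -/
theorem cos_pow_le {k₀ n : ℕ} (hk : 1 ≤ k₀) (hn : 1 ≤ n) {c : ℝ} (hc : |c| ≤ 4) (x : ℝ) :
    Real.cos (x / (400 * n)) ^ (2 * (k₀ * n)) ≤
      Real.exp (c * x + 20 * ep k₀ * n) + Real.exp (4 * |x| - 1600 * n) := by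
  have h2 : (0 : ℝ) < n := by exact_mod_cast hn
  rcases le_total (400 * (n : ℝ)) |x| with hx | hx
  · have h3 := (zcap_cos (x / (400 * n)) (k₀ * n)).2
    have h4 : 1 ≤ Real.exp (4 * |x| - 1600 * n) := Real.one_le_exp (by linarith)
    have h5 := Real.exp_pos (c * x + 20 * ep k₀ * n)
    linarith
  refine le_add_of_le_of_nonneg ?_ (Real.exp_pos _).le
  have hy : |x / (400 * n)| ≤ 1 := by
    rwa [abs_div, abs_of_pos (by positivity : (0 : ℝ) < 400 * n), div_le_one (by positivity)]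
  have e := zcap_sq hk hn x
  generalize x / (400 * n) = y at hy e
  have h3 : y ^ 2 ≤ 1 := (sq_le_one_iff_abs_le_one y).2 hy
  have h4 : 0 ≤ Real.cos y := le_trans (by linarith) Real.one_sub_sq_div_two_le_cos
  have h5 : Real.cos y ≤ Real.exp (-(y ^ 2 / 5)) := by
    have p1 := Real.cos_le_one_sub_mul_cos_sq (hy.trans (by linarith [Real.pi_gt_three]))
    have p2 : (1 : ℝ) / 5 ≤ 2 / π ^ 2 := by
      rw [div_le_div_iff₀ (by norm_num) (by positivity)]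
      have := Real.pi_lt_d2
      have := Real.pi_pos
      nlinarith
    have p3 := mul_le_mul_of_nonneg_right p2 (sq_nonneg y)
    have p4 := Real.add_one_le_exp (-(y ^ 2 / 5))
    linarith
  refine (pow_le_pow_left₀ h4 h5 _).trans ?_
  rw [← Real.exp_nat_mul, Real.exp_le_exp]
  have hs : 0 < ep k₀ * n := mul_pos (zcap_ep hk) h2
  rw [mul_assoc 20]
  generalize ep k₀ * n = s at hs e
  have h6 : c ^ 2 ≤ 16 := by
    have := sq_le_sq' (abs_le.1 hc).1 (abs_le.1 hc).2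
    linarith
  have h7 : 0 ≤ x ^ 2 / s / 5 + c * x + 5 * c ^ 2 * s / 4 := by
    rw [show x ^ 2 / s / 5 + c * x + 5 * c ^ 2 * s / 4 = (x + 5 * c * s / 2) ^ 2 / (5 * s) by
      field_simp; ring]
    positivity
  have h8 := mul_le_mul_of_nonneg_right h6 hs.le
  linarith

/-- For `e = 2`: `(a + δ) ^ 2 ≤ 2 a ^ 2 + 2 δ ^ 2` and `a ^ 2 ≤ a` for `0 ≤ a ≤ 1`. -/
theorem cap_pow_le {k₀ : ℕ} (hk : 1 ≤ k₀) : ∃ n₀ : ℕ, ∀ n : ℕ, n₀ ≤ n → ∀ (e : ℕ) (c x : ℝ),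
    (e = 1 ∨ e = 2) → |c| ≤ 4 → cap k₀ n x ^ e ≤ 2 * (Real.exp (c * x + 20 * ep k₀ * n) +
      Real.exp (4 * |x| - 1600 * n) + Real.exp (k₀ / 50 * |x| - (n : ℝ) ^ 3)) := by
  obtain ⟨n₀, h⟩ := cap_sub hk
  refine ⟨max n₀ 1, fun n hn e c x he hc => ?_⟩
  have h1 := (abs_le.1 (h n ((le_max_left _ _).trans hn) x)).2
  obtain ⟨h2, h3⟩ := zcap_cos (x / (400 * n)) (k₀ * n)
  have h4 := cos_pow_le hk ((le_max_right _ _).trans hn) hc x
  have h5 := cap_nonneg k₀ n x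
  have h6 : 0 ≤ (k₀ : ℝ) * |x| := by positivity
  have h7 : (0 : ℝ) ≤ (n : ℝ) ^ 3 := by positivity
  have h8 : Real.exp (k₀ / 100 * |x| - (n : ℝ) ^ 3) ≤ Real.exp (k₀ / 50 * |x| - (n : ℝ) ^ 3) :=
    Real.exp_le_exp.2 (by linarith)
  have h9 : Real.exp (k₀ / 100 * |x| - (n : ℝ) ^ 3) ^ 2 ≤
      Real.exp (k₀ / 50 * |x| - (n : ℝ) ^ 3) := by
    rw [← Real.exp_nat_mul, Real.exp_le_exp]
    push_cast
    linarith
  have h10 := Real.exp_pos (k₀ / 100 * |x| - (n : ℝ) ^ 3)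
  generalize Real.cos (x / (400 * n)) ^ (2 * (k₀ * n)) = a at h1 h2 h3 h4
  generalize Real.exp (k₀ / 100 * |x| - (n : ℝ) ^ 3) = δ at h1 h8 h9 h10
  rcases he with rfl | rfl
  · rw [pow_one]
    linarith
  · have p1 : cap k₀ n x ^ 2 ≤ (a + δ) ^ 2 := pow_le_pow_left₀ h5 (by linarith) 2
    have p2 : a ^ 2 ≤ a := by nlinarith
    have p3 := sq_nonneg (a - δ)
    nlinarith

/-- If `|x| > ε n` the bracket is nonpositive. Otherwise `cos y ≥ exp (-y ^ 2)` for `|y| ≤ 1 / 400`, so the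
power of the cosine is at least `exp (-ε n)`, and `exp (τ x) ≤ exp (ε n)`. -/
theorem cap_low {k₀ : ℕ} (hk : 80000 ≤ k₀) : ∃ n₀ : ℕ, ∀ n : ℕ, n₀ ≤ n → ∀ τ x : ℝ, |τ| ≤ 1 →
    Real.exp (-2 * ep k₀ * n) * (Real.exp (τ * x) - Real.exp (-ep k₀ ^ 2 * n) *
      (Real.exp ((τ + ep k₀) * x) + Real.exp ((τ - ep k₀) * x))) -
      Real.exp (k₀ / 100 * |x| - (n : ℝ) ^ 3) ≤ cap k₀ n x := by
  have hk1 : 1 ≤ k₀ := by omega
  obtain ⟨n₀, h⟩ := cap_sub hk1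
  refine ⟨max n₀ 1, fun n hn τ x hτ => ?_⟩
  have hn1 : 1 ≤ n := (le_max_right _ _).trans hn
  have h2 : (0 : ℝ) < n := by exact_mod_cast hn1
  have h1 := (abs_le.1 (h n ((le_max_left _ _).trans hn) x)).1
  have hε := zcap_ep hk1
  have hε1 : ep k₀ ≤ 1 := by
    have : (80000 : ℝ) ≤ k₀ := by exact_mod_cast hk
    unfold ep
    rwa [div_le_one (by linarith)]
  have e := zcap_sq hk1 hn1 x
  generalize ep k₀ = ε at hε hε1 e ⊢
  have q1 := Real.exp_pos ((τ + ε) * x)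
  have q2 := Real.exp_pos ((τ - ε) * x)
  have q3 := Real.exp_pos (-ε ^ 2 * n)
  have q4 := Real.exp_pos (-2 * ε * n)
  rcases le_total (ε * n) |x| with hx | hx
  · have h3 : Real.exp (τ * x) ≤
        Real.exp (-ε ^ 2 * n) * (Real.exp ((τ + ε) * x) + Real.exp ((τ - ε) * x)) := by
      have p1 := mul_le_mul_of_nonneg_left hx hε.le
      rw [mul_add]
      rcases le_total 0 x with h0 | h0
      · rw [abs_of_nonneg h0] at p1
        refine le_add_of_le_of_nonneg ?_ (by positivity)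
        rw [← Real.exp_add, Real.exp_le_exp]
        linarith
      · rw [abs_of_nonpos h0] at p1
        refine le_add_of_nonneg_of_le (by positivity) ?_
        rw [← Real.exp_add, Real.exp_le_exp]
        linarith
    have h4 := mul_nonneg q4.le (sub_nonneg.2 h3)
    have h5 := cap_nonneg k₀ n x
    have h6 := Real.exp_pos (k₀ / 100 * |x| - (n : ℝ) ^ 3)
    linarith
  have hy : |x / (400 * n)| ≤ 1 := by
    rw [abs_div, abs_of_pos (by positivity : (0 : ℝ) < 400 * n), div_le_one (by positivity)]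
    have := mul_le_mul_of_nonneg_right hε1 h2.le
    linarith
  generalize x / (400 * n) = y at hy e h1
  have h3 : y ^ 2 ≤ 1 := (sq_le_one_iff_abs_le_one y).2 hy
  have h4 : Real.exp (-y ^ 2) ≤ Real.cos y := by
    refine le_trans ?_ Real.one_sub_sq_div_two_le_cos
    have p1 := Real.add_one_le_exp (y ^ 2)
    have p2 := sq_nonneg y
    rw [Real.exp_neg, inv_le_iff_one_le_mul₀ (Real.exp_pos _)]
    have p3 := mul_le_mul_of_nonneg_left p1 (show 0 ≤ 1 - y ^ 2 / 2 by linarith)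
    nlinarith
  have h5 : Real.exp (-(ε * n)) ≤ Real.cos y ^ (2 * (k₀ * n)) := by
    refine le_trans ?_ (pow_le_pow_left₀ (Real.exp_pos _).le h4 _)
    rw [← Real.exp_nat_mul, Real.exp_le_exp, mul_neg, e, neg_le_neg_iff,
      div_le_iff₀ (by positivity), ← sq, ← sq_abs x]
    exact pow_le_pow_left₀ (abs_nonneg _) hx 2
  have h6 : Real.exp (-2 * ε * n) * Real.exp (τ * x) ≤ Real.exp (-(ε * n)) := by
    rw [← Real.exp_add, Real.exp_le_exp]
    have p1 := le_abs_self (τ * x)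
    rw [abs_mul] at p1
    have p2 := mul_le_mul_of_nonneg_right hτ (abs_nonneg x)
    linarith
  have h7 : 0 ≤ Real.exp (-2 * ε * n) * (Real.exp (-ε ^ 2 * n) *
      (Real.exp ((τ + ε) * x) + Real.exp ((τ - ε) * x))) := by positivity
  linarith

/-- `(2 x) ^ (2 m) / (2 m)! ≤ exp (2 |x|)` and `(2 m)! ≤ (2 m) ^ (2 m)` with `m = n ^ 2`. -/
theorem mom_le {n : ℕ} (hn : 1 ≤ n) (x : ℝ) :
    (x / (3 * (n : ℝ) ^ 2)) ^ (2 * n ^ 2) ≤ Real.exp (2 * |x| - 2 * (n : ℝ) ^ 2) := by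
  have h2 : (0 : ℝ) < n := by exact_mod_cast hn
  have h3 : |x / (3 * (n : ℝ) ^ 2)| ≤ Real.exp (|x| / (n : ℝ) ^ 2 - 1) := by
    have p1 := Real.add_one_le_exp (|x| / (n : ℝ) ^ 2 - 1)
    have p2 : 0 ≤ |x| / (n : ℝ) ^ 2 := by positivity
    rw [abs_div, abs_of_pos (by positivity : (0 : ℝ) < 3 * (n : ℝ) ^ 2),
      show |x| / (3 * (n : ℝ) ^ 2) = |x| / (n : ℝ) ^ 2 / 3 by field_simp]
    linarith
  refine (le_abs_self _).trans ?_
  rw [abs_pow]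
  refine (pow_le_pow_left₀ (abs_nonneg _) h3 _).trans (le_of_eq ?_)
  rw [← Real.exp_nat_mul]
  congr 1
  push_cast
  field_simp

end Pool.Agent.Lib.MP_03e5d0_nt
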