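import Pool.Agent.Lib.MP_03e5d0_nt.ZDef
import Pool.Agent.Lib.MP_03e5d0_nt.LPo
import Pool.Agent.Lib.MP_03e5d0_nt.MPer

set_option autoImplicit false

noncomputable section

namespace Pool.Agent.Lib.MP_03e5d0_nt

open Complex Finset MeasureTheory
open scoped NumberTheorySymbols Real ContDiff

/-! The class of discriminants and its decomposition into real characters. -/

theorem cls_mem (D : Data) (d : ℤ) : 0 ≤ cls D d ∧ cls D d ≤ 1 := by
  unfold cls
  split_ifs <;> simp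

theorem zcls_iff (D : Data) {d e : ℤ} (h : D.Sq d ↔ D.Sq e) : cls D d = cls D e := by
  unfold cls
  by_cases h1 : D.Sq e
  · rw [if_pos h1, if_pos (h.2 h1)]
  · rw [if_neg h1, if_neg fun h2 => h1 (h.1 h2)]

theorem zcls_two (D : Data) : 2 ∣ D.q := D.small 2 Nat.prime_two (by norm_num)

theorem zcls_odd (D : Data) {n : ℕ} (hn : n.Coprime D.q) : Odd n :=
  Nat.coprime_two_right.1 (hn.coprime_dvd_right (zcls_two D))

theorem zcls_zero (D : Data) {d : ℤ} {p : ℕ} (hp : p.Prime) (hq : p ∣ D.q) (hd : (p : ℤ) ∣ d) :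
    cls D d = 0 := by
  refine if_neg fun h => ?_
  by_cases h2 : p = 2
  · subst h2
    have h1 : d % 8 = 1 % 8 := h.1
    push_cast at hd
    omega
  · have h1 := h.2 p hp hq h2
    rw [jacobiSym.mod_left' (show d ≡ 0 [ZMOD p] from Int.modEq_zero_iff_dvd.2 hd),
      jacobiSym.zero_left hp.one_lt] at h1
    exact zero_ne_one h1

/-- `jacobiSym.mod_left'`. -/
theorem cls_congr (D : Data) {d e : ℤ} (h : d ≡ e [ZMOD ((8 * D.q : ℕ) : ℤ)]) : cls D d = cls D e := by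
  have key : ∀ {d e : ℤ}, d ≡ e [ZMOD ((8 * D.q : ℕ) : ℤ)] → D.Sq e → D.Sq d := by
    intro d e h he
    refine ⟨(h.of_dvd (by push_cast; exact dvd_mul_right _ _)).trans he.1, fun p hp hq h2 => ?_⟩
    rw [← he.2 p hp hq h2]
    exact jacobiSym.mod_left' (h.of_dvd (Int.natCast_dvd_natCast.2 (hq.mul_left 8)))
  exact zcls_iff D ⟨key h.symm, key h⟩

/-- `a ^ 2 ≡ 1 mod 8` for odd `a` (`2 ∣ q`), `jacobiSym.mul_left`, `jacobiSym.sq_one'`. If a prime `p` divides
`a` and `q`, then `a ^ 2 * e` is even or `J(a ^ 2 * e | p) = 0`. -/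
theorem cls_sq_mul (D : Data) (a : ℕ) (e : ℤ) :
    cls D ((a : ℤ) ^ 2 * e) = if a.Coprime D.q then cls D e else 0 := by
  split_ifs with h
  · have h8 : (a : ℤ) ^ 2 * e ≡ e [ZMOD 8] := by
      have h1 : (a : ℤ) ^ 2 ≡ 1 [ZMOD 8] := by
        obtain ⟨k, rfl⟩ := zcls_odd D h
        obtain ⟨m, hm⟩ := Int.even_mul_succ_self (k : ℤ)
        refine (Int.modEq_iff_dvd.2 ⟨-m, ?_⟩)
        push_cast
        linear_combination (-4 : ℤ) * hm
      simpa using h1.mul_right e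
    have hJ : ∀ p : ℕ, p ∣ D.q → J((a : ℤ) ^ 2 * e | p) = J(e | p) := fun p hp => by
      rw [jacobiSym.mul_left, jacobiSym.sq_one' (by
        rw [Int.gcd_natCast_natCast]; exact h.coprime_dvd_right hp), one_mul]
    refine zcls_iff D ⟨fun h1 => ⟨h8.symm.trans h1.1, fun p hp hq h2 => ?_⟩,
      fun h1 => ⟨h8.trans h1.1, fun p hp hq h2 => ?_⟩⟩
    · rw [← hJ p hq]
      exact h1.2 p hp hq h2
    · rw [hJ p hq]
      exact h1.2 p hp hq h2
  · obtain ⟨p, hp, h1, h2⟩ := Nat.Prime.not_coprime_iff_dvd.1 h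
    exact zcls_zero D hp h2
      ((dvd_pow (Int.natCast_dvd_natCast.2 h1) two_ne_zero).mul_right e)

/-- The term `b = 1`. -/
theorem mu0_mem (D : Data) : 0 < mu0 D ∧ mu0 D ≤ 1 := by
  have hq : 0 < D.q := Nat.pos_of_ne_zero D.q_ne
  have hq' : (0 : ℝ) < 8 * D.q := by positivity
  have h1 : cls D ((1 : ℕ) : ℤ) = 1 :=
    if_pos ⟨Int.ModEq.refl _, fun p _ _ _ => jacobiSym.one_left p⟩
  refine ⟨div_pos ?_ hq', (div_le_one hq').2 ?_⟩
  · refine sum_pos' (fun b _ => (cls_mem D b).1) ⟨1, mem_range.2 (by omega), ?_⟩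
    rw [h1]
    exact one_pos
  · refine (sum_le_sum (g := fun _ => (1 : ℝ)) fun (b : ℕ) _ => (cls_mem D b).2).trans ?_
    simp

/-- The generators of the group of real characters. -/
def gens (D : Data) : Finset ℤ := insert (-1) (D.q.primeFactors.image fun p : ℕ => (p : ℤ))

theorem zcls_gens (D : Data) {k : ℤ} (hk : k ∈ gens D) :
    k = -1 ∨ ∃ p : ℕ, p.Prime ∧ p ∣ D.q ∧ k = p := by
  rcases mem_insert.1 hk with h | h
  · exact Or.inl h
  · obtain ⟨p, hp, rfl⟩ := mem_image.1 h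
    exact Or.inr ⟨p, Nat.prime_of_mem_primeFactors hp, Nat.dvd_of_mem_primeFactors hp, rfl⟩

theorem zcls_cop (D : Data) {k : ℤ} (hk : k ∈ gens D) {r : ℕ} (hr : r.Coprime D.q) :
    IsCoprime (r : ℤ) k := by
  rcases zcls_gens D hk with rfl | ⟨p, -, hq, rfl⟩
  · exact isCoprime_one_right.neg_right
  · exact Nat.isCoprime_iff_coprime.2 (hr.coprime_dvd_right hq)

theorem zcls_prod (S : Finset ℤ) (n : ℕ) : (J(∏ k ∈ S, k | n) : ℝ) = ∏ k ∈ S, (J(k | n) : ℝ) := by
  induction S using Finset.induction_on with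
  | empty => simp
  | insert a S ha ih => rw [prod_insert ha, prod_insert ha, jacobiSym.mul_left, Int.cast_mul, ih]

/-- For `n` coprime to `q` (so odd) all the symbols are `±1`. `J(-1 | n) = 1 ↔ n % 4 = 1`
(`jacobiSym.at_neg_one`), `J(2 | n) = 1 ↔ n ≡ ±1 mod 8` (`jacobiSym.at_two`), and for `n % 4 = 1`
`J(p | n) = J(n | p)` (`jacobiSym.quadratic_reciprocity_one_mod_four`). -/
theorem cls_eq_prod (D : Data) {n : ℕ} (hn : n.Coprime D.q) :
    cls D n = ∏ k ∈ gens D, (1 + (J(k | n) : ℝ)) / 2 := by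
  have ho := zcls_odd D hn
  have key : D.Sq n ↔ ∀ k ∈ gens D, J(k | n) = 1 := by
    constructor
    · intro h k hk
      have h8 : n % 8 = 1 := by
        have h1 : (n : ℤ) % 8 = 1 % 8 := h.1
        omega
      rcases zcls_gens D hk with rfl | ⟨p, hp, hq, rfl⟩
      · rw [jacobiSym.at_neg_one ho, ZMod.χ₄_nat_one_mod_four (by omega)]
      · by_cases h2 : p = 2
        · subst h2
          rw [Nat.cast_ofNat, jacobiSym.at_two ho, ZMod.χ₈_nat_eq_if_mod_eight, if_neg (by omega),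
            if_pos (Or.inl h8)]
        · rw [← jacobiSym.quadratic_reciprocity_one_mod_four (by omega) (hp.odd_of_ne_two h2)]
          exact h.2 p hp hq h2
    · intro h
      have hm : ∀ p : ℕ, p.Prime → p ∣ D.q → J((p : ℤ) | n) = 1 := fun p hp hq =>
        h _ (mem_insert_of_mem (mem_image_of_mem _ (Nat.mem_primeFactors.2 ⟨hp, hq, D.q_ne⟩)))
      have h1 := h _ (mem_insert_self _ _)
      have h2 := hm 2 Nat.prime_two (zcls_two D)
      have ho' := Nat.odd_iff.1 ho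
      rw [jacobiSym.at_neg_one ho, ZMod.χ₄_nat_eq_if_mod_four, if_neg (by omega)] at h1
      rw [Nat.cast_ofNat, jacobiSym.at_two ho, ZMod.χ₈_nat_eq_if_mod_eight, if_neg (by omega)] at h2
      have h4 : n % 4 = 1 := by
        by_contra hc
        rw [if_neg hc] at h1
        norm_num at h1
      have h8 : n % 8 = 1 ∨ n % 8 = 7 := by
        by_contra hc
        rw [if_neg hc] at h2
        norm_num at h2
      refine ⟨show (n : ℤ) % 8 = 1 % 8 by omega, fun p hp hq hp2 => ?_⟩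
      rw [jacobiSym.quadratic_reciprocity_one_mod_four h4 (hp.odd_of_ne_two hp2)]
      exact hm p hp hq
  unfold cls
  split_ifs with h
  · refine (prod_eq_one fun k hk => ?_).symm
    rw [key.1 h k hk]
    norm_num
  · rw [key] at h
    push Not at h
    obtain ⟨k, hk, hk'⟩ := h
    refine (prod_eq_zero hk ?_).symm
    rw [(jacobiSym.eq_one_or_neg_one
      (Int.isCoprime_iff_gcd_eq_one.1 (zcls_cop D hk hn).symm)).resolve_left hk']
    norm_num

theorem cls_eq_zero (D : Data) {n : ℕ} (hn : ¬n.Coprime D.q) : cls D n = 0 := by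
  obtain ⟨p, hp, h1, h2⟩ := Nat.Prime.not_coprime_iff_dvd.1 hn
  exact zcls_zero D hp h2 (Int.natCast_dvd_natCast.2 h1)

/-- `Finset.prod_one_add` (or `prod_add`), `jacobiSym.mul_left`, `jacobiSym.mul_right'`. -/
theorem cls_mul (D : Data) (u : ℕ) {r : ℕ} (hr : r.Coprime D.q) :
    cls D ((u * r : ℕ) : ℤ) = ∑ S ∈ (gens D).powerset,
      (if u.Coprime D.q then (J(∏ k ∈ S, k | u) : ℝ) / 2 ^ (gens D).card else 0) *
        (J(∏ k ∈ S, k | r) : ℝ) := by
  split_ifs with hu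
  · rw [cls_eq_prod D (Nat.Coprime.mul_left hu hr), prod_div_distrib, prod_const, prod_one_add,
      sum_div]
    refine sum_congr rfl fun S _ => ?_
    rw [zcls_prod, zcls_prod, div_mul_eq_mul_div, ← prod_mul_distrib]
    congr 1
    refine prod_congr rfl fun k _ => ?_
    rw [jacobiSym.mul_right' _ (zcls_odd D hu).pos.ne' (zcls_odd D hr).pos.ne', Int.cast_mul]
  · rw [cls_eq_zero D fun h => hu (Nat.Coprime.coprime_mul_right h)]
    simp

theorem gens_prod_ne (D : Data) {S : Finset ℤ} (hS : S ⊆ gens D) : ∏ k ∈ S, k ≠ 0 := by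
  refine prod_ne_zero_iff.2 fun k hk => ?_
  rcases zcls_gens D (hS hk) with rfl | ⟨p, hp, -, rfl⟩
  · norm_num
  · exact_mod_cast hp.ne_zero

theorem gens_prod_coprime (D : Data) {S : Finset ℤ} (hS : S ⊆ gens D) {r : ℕ} (hr : r.Coprime D.q) :
    IsCoprime (r : ℤ) (∏ k ∈ S, k) := by
  exact IsCoprime.prod_right fun k hk => zcls_cop D (hS hk) hr

/-- `lLGc_scale` for `gt`, then real and imaginary parts; `J(u | r) ^ 2 = 1`. -/
theorem gn_scale (k : ℤ) {r : ℕ} (hr : r ≠ 0) {u : ℤ} (hu : IsCoprime (r : ℤ) u) :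
    gn (k * u) r = J(u | r) * gn k r := by
  have h1 : (J(u | r) : ℂ) ^ 2 = 1 := by
    exact_mod_cast jacobiSym.sq_one (Int.isCoprime_iff_gcd_eq_one.1 hu.symm)
  have h2 : gt (k * u) r = ((J(u | r) : ℝ) : ℂ) * gt k r := by
    rw [lLGc_scale k hr hu, ← mul_assoc, ofReal_intCast, ← sq, h1, one_mul, mul_comm]
  rw [gn, gn, gs, gs, h2, re_ofReal_mul, im_ofReal_mul]
  ring

/-- `gt_of_one`, `gt_of_three`, and `gn (-k) r = J(-1 | r) * gn k r` (`gn_scale`). -/
theorem gt_eq_gn (k : ℤ) {r : ℕ} (hr : Odd r) :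
    gt k r = (√r : ℝ) * ((1 + I) / 2 * (gn k r : ℝ) + (1 - I) / 2 * (gn (-k) r : ℝ)) := by
  have h0 : r ≠ 0 := hr.pos.ne'
  have hs : √(r : ℝ) ≠ 0 := (Real.sqrt_pos.2 (Nat.cast_pos.2 hr.pos)).ne'
  have h1 : gn (-k) r = J(-1 | r) * gn k r := by
    rw [← gn_scale k h0 isCoprime_one_right.neg_right, mul_neg_one]
  have h2 : (gs k r : ℂ) = (√r : ℝ) * (gn k r : ℝ) := by
    rw [← ofReal_mul, gn, mul_div_cancel₀ _ hs]
  rw [h1, jacobiSym.at_neg_one hr]
  rcases Nat.odd_mod_four_iff.1 (Nat.odd_iff.1 hr) with h | h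
  · rw [gt_of_one h, h2, ZMod.χ₄_nat_one_mod_four h]
    push_cast
    ring
  · rw [gt_of_three h, h2, ZMod.χ₄_nat_three_mod_four h]
    push_cast
    ring

theorem zcls_cop8 (D : Data) {r : ℕ} (hr : r.Coprime D.q) : r.Coprime (8 * D.q) :=
  Nat.Coprime.mul_right
    (Nat.Coprime.pow_right 3 (hr.coprime_dvd_right (zcls_two D))) hr

/-- Chinese remainder theorem: `a = u r + v M` with `(u, v) : Fin M × Fin r`, `M = 8 q`
(`sum_range_eq_of_inj`, as in `gt_mul`). -/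
theorem cls_gauss (D : Data) (h : ℤ) {r : ℕ} (hr0 : r ≠ 0) (hr : r.Coprime D.q) :
    ∑ a ∈ range (8 * D.q * r), ((cls D a * J((a : ℤ) | r) : ℝ) : ℂ) *
        cexp (2 * π * I * (a * h / (8 * D.q * r : ℕ))) =
      (∑ u ∈ range (8 * D.q), (cls D ((u * r : ℕ) : ℤ) : ℂ) * cexp (2 * π * I * (u * h / (8 * D.q : ℕ)))) *
        (J(((8 * D.q : ℕ) : ℤ) | r) : ℂ) * gt h r := by
  have hM := zcls_cop8 D hr
  have hM0 : 8 * D.q ≠ 0 := mul_ne_zero (by norm_num) D.q_ne
  generalize hMd : 8 * D.q = M at hM hM0 ⊢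
  have hr' : (r : ℂ) ≠ 0 := Nat.cast_ne_zero.2 hr0
  have hM' : (M : ℂ) ≠ 0 := Nat.cast_ne_zero.2 hM0
  have h1 := sum_range_eq_of_inj (ι := Fin M × Fin r) (n := M * r) (by simp)
    (fun x => (x.1 : ℤ) * r + (x.2 : ℤ) * M) (fun x y hxy => by
      rw [Nat.cast_mul] at hxy
      have h1 := hxy.of_mul_right
      have h2 := hxy.of_mul_left
      rw [add_comm, add_comm ((y.1 : ℤ) * r)] at h2
      rw [Int.ModEq, Int.add_mul_emod_self_right, Int.add_mul_emod_self_right] at h1 h2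
      exact Prod.ext (lLGa_fin (lLGa_cancel hM.symm h1)) (lLGa_fin (lLGa_cancel hM h2)))
    (F := fun a => ((cls D a * J(a | r) : ℝ) : ℂ) * cexp (2 * π * I * ((a * h : ℤ) / (M * r : ℕ))))
    (fun a b hab => by
      have h2 := hab
      rw [Nat.cast_mul] at h2
      rw [cls_congr D (d := a) (e := b) (by rw [hMd]; exact h2.of_mul_right),
        jacobiSym.mod_left' h2.of_mul_left,
        lLGc_exp_congr (mul_ne_zero hM0 hr0) (hab.mul_right h)])
  simp only [Int.cast_mul, Int.cast_natCast] at h1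
  rw [h1, lLGa_gt', sum_range, sum_mul, sum_mul_sum, ← Fintype.sum_prod_type']
  refine sum_congr rfl fun x _ => ?_
  have e1 : cls D ((x.1 : ℤ) * r + (x.2 : ℤ) * M) = cls D (((x.1 : ℕ) * r : ℕ) : ℤ) := by
    refine cls_congr D ?_
    rw [hMd, Nat.cast_mul]
    exact Int.add_mul_emod_self_right _ _ _
  have e2 : J((x.1 : ℤ) * r + (x.2 : ℤ) * M | r) = J((x.2 : ℤ) | r) * J((M : ℤ) | r) := by
    rw [← jacobiSym.mul_left, add_comm]
    exact jacobiSym.mod_left' (Int.add_mul_emod_self_right _ _ _)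
  have e3 : 2 * π * I * ((((x.1 : ℤ) * r + (x.2 : ℤ) * M : ℤ) : ℂ) * h / (M * r : ℕ)) =
      2 * π * I * ((x.1 : ℕ) * h / M) + 2 * π * I * ((x.2 : ℤ) * h / r) := by
    push_cast
    field_simp
  rw [e1, e2, e3, exp_add]
  push_cast
  ring

/-- The frequency zero: `gt 0 r = gs 0 r = r * rho dl0 r` (`gs_zero`; for `r % 4 = 3` both vanish), which is zero
unless `r = a ^ 2`; then `cls_sq_mul` and `J(M | a ^ 2) = 1`. -/
theorem cls_gauss_zero (D : Data) {r : ℕ} (hr0 : r ≠ 0) (hr : r.Coprime D.q) :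
    ∑ a ∈ range (8 * D.q * r), (cls D a * J((a : ℤ) | r) : ℝ) = 8 * D.q * r * (mu0 D * rho dl0 r) := by
  have h := cls_gauss D 0 hr0 hr
  simp only [Int.cast_zero, mul_zero, zero_div, exp_zero, mul_one] at h
  have ho := zcls_odd D hr
  have hq : (D.q : ℝ) ≠ 0 := Nat.cast_ne_zero.2 D.q_ne
  apply ofReal_injective
  rw [ofReal_sum, h]
  by_cases hs : IsSquare r
  · obtain ⟨a, rfl⟩ := hs
    have ha : a.Coprime D.q := Nat.Coprime.coprime_mul_right hr
    have ha0 : a ≠ 0 := left_ne_zero_of_mul hr0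
    have h4 : a * a % 4 = 1 := by
      obtain ⟨k, rfl⟩ := zcls_odd D ha
      have : (2 * k + 1) * (2 * k + 1) = 4 * (k * k + k) + 1 := by ring
      omega
    have e1 : ∀ u : ℕ, cls D ((u * (a * a) : ℕ) : ℤ) = cls D u := fun u => by
      have := cls_sq_mul D a u
      rw [if_pos ha] at this
      rw [← this]
      congr 1
      push_cast
      ring
    have e2 : J(((8 * D.q : ℕ) : ℤ) | a * a) = 1 := by
      rw [jacobiSym.mul_right' _ ha0 ha0, ← sq]
      exact jacobiSym.sq_one (by rw [Int.gcd_natCast_natCast]; exact (zcls_cop8 D ha).symm)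
    simp only [e1]
    rw [e2, gt_of_one h4, gs_zero ho, ← ofReal_sum, Int.cast_one, mul_one, ← ofReal_mul, mu0]
    congr 1
    push_cast
    field_simp
  · have h1 : rho dl0 r = 0 := if_neg hs
    have h2 : gt 0 r = 0 := by
      rcases Nat.odd_mod_four_iff.1 (Nat.odd_iff.1 ho) with h4 | h4
      · rw [gt_of_one h4, gs_zero ho, h1]
        simp
      · rw [gt_of_three h4, gs_zero ho, h1]
        simp
    rw [h1, h2]
    simp

/-- Index set `(gens D).powerset ×ˢ {1, -1}`, `m₀ (S, e) = e * (8 q) * ∏ S`,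
`a (S, e) h = (1 + e I) / 2 * ∑_u (coefficient of cls_mul) * exp (2 π i u h / (8 q))`, of norm at most `8 q`.
`cls_gauss`, `cls_mul`, `gt_eq_gn`, `gn_scale`. -/
theorem cls_gauss_expand (D : Data) : ∃ (ι : Type) (S : Finset ι) (m₀ : ι → ℤ) (a : ι → ℤ → ℂ),
    (∀ i ∈ S, m₀ i ≠ 0) ∧ (∀ i ∈ S, ∀ h, ‖a i h‖ ≤ 8 * D.q) ∧ ∀ (h : ℤ) (r : ℕ), r ≠ 0 → r.Coprime D.q →
    ∑ b ∈ range (8 * D.q * r), ((cls D b * J((b : ℤ) | r) : ℝ) : ℂ) *
        cexp (2 * π * I * (b * h / (8 * D.q * r : ℕ))) =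
      (√r : ℝ) * ∑ i ∈ S, a i h * (gn (h * m₀ i) r : ℝ) := by
  obtain ⟨c, hc⟩ : ∃ c : Finset ℤ → ℕ → ℝ, c = fun S u =>
    if u.Coprime D.q then (J(∏ k ∈ S, k | u) : ℝ) / 2 ^ (gens D).card else 0 := ⟨_, rfl⟩
  have hc1 : ∀ S u, |c S u| ≤ 1 := by
    intro S u
    rw [hc]
    beta_reduce
    split_ifs
    · rw [abs_div, abs_of_pos (by positivity : (0 : ℝ) < 2 ^ (gens D).card)]
      refine div_le_one_of_le₀ (le_trans ?_ (one_le_pow₀ one_le_two)) (by positivity)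
      rcases jacobiSym.trichotomy (∏ k ∈ S, k) u with h | h | h <;> simp [h]
    · simp
  refine ⟨Finset ℤ × ℤ, (gens D).powerset ×ˢ {1, -1},
    fun i => i.2 * (((8 * D.q : ℕ) : ℤ) * ∏ k ∈ i.1, k),
    fun i h => (1 + i.2 * I) / 2 * ∑ u ∈ range (8 * D.q),
      (c i.1 u : ℂ) * cexp (2 * π * I * (u * h / (8 * D.q : ℕ))), fun i hi => ?_,
    fun i hi h => ?_, fun h r hr0 hr => ?_⟩
  · obtain ⟨h1, h2⟩ := mem_product.1 hi
    refine mul_ne_zero ?_ (mul_ne_zero ?_ (gens_prod_ne D (mem_powerset.1 h1)))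
    · rcases mem_insert.1 h2 with h | h
      · rw [h]; norm_num
      · rw [mem_singleton.1 h]; norm_num
    · exact_mod_cast mul_ne_zero (by norm_num) D.q_ne
  · have h2 : ‖(i.2 : ℂ)‖ = 1 := by
      rcases mem_insert.1 (mem_product.1 hi).2 with h | h
      · rw [h]; simp
      · rw [mem_singleton.1 h]; simp
    have h3 : ‖(1 + i.2 * I : ℂ) / 2‖ ≤ 1 := by
      have := norm_add_le (1 : ℂ) (i.2 * I)
      rw [norm_mul, h2, norm_I, norm_one] at this
      rw [norm_div, Complex.norm_two]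
      linarith
    rw [norm_mul]
    refine (mul_le_of_le_one_left (norm_nonneg _) h3).trans ((norm_sum_le _ _).trans ?_)
    refine (sum_le_sum (g := fun _ => (1 : ℝ)) fun u _ => ?_).trans (by simp)
    have e : 2 * π * I * ((u : ℂ) * h / (8 * D.q : ℕ)) =
        ((2 * π * (u * h / (8 * D.q : ℕ)) : ℝ) : ℂ) * I := by
      push_cast
      ring
    rw [norm_mul, e, norm_exp_ofReal_mul_I, mul_one, norm_real, Real.norm_eq_abs]
    exact hc1 _ _
  · have e1 : ∀ u : ℕ, cls D ((u * r : ℕ) : ℤ) =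
        ∑ S ∈ (gens D).powerset, c S u * (J(∏ k ∈ S, k | r) : ℝ) := fun u => by
      rw [cls_mul D u hr, hc]
    have e2 : ∀ S ∈ (gens D).powerset, ∀ e : ℤ,
        gn (h * (e * (((8 * D.q : ℕ) : ℤ) * ∏ k ∈ S, k))) r =
          J(((8 * D.q : ℕ) : ℤ) | r) * J(∏ k ∈ S, k | r) * gn (h * e) r := fun S hS e => by
      rw [← mul_assoc h, gn_scale _ hr0 ((Nat.isCoprime_iff_coprime.2 (zcls_cop8 D hr)).mul_right
        (gens_prod_coprime D (mem_powerset.1 hS) hr)), jacobiSym.mul_left, Int.cast_mul]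
    rw [cls_gauss D h hr0 hr, gt_eq_gn h (zcls_odd D hr), sum_product]
    simp only [e1, ofReal_sum, sum_mul]
    rw [sum_comm, mul_sum]
    refine sum_congr rfl fun S hS => ?_
    rw [sum_pair (by norm_num), e2 S hS, e2 S hS, mul_one, mul_neg_one]
    simp only [← sum_mul, ofReal_mul, mul_right_comm _ (((J(∏ k ∈ S, k | r) : ℝ) : ℂ))]
    push_cast
    ring

end Pool.Agent.Lib.MP_03e5d0_nt
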