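import Pool.Agent.Lib.MP_03e5d0_nt.ZDef
import Pool.Agent.Lib.MP_03e5d0_nt.MTop

set_option autoImplicit false

noncomputable section

namespace Pool.Agent.Lib.MP_03e5d0_nt

open Complex Finset MeasureTheory
open scoped NumberTheorySymbols Real ContDiff

/-! The top piece of the central value. -/

theorem EE_mem (y : ℝ) : 0 ≤ EE y ∧ EE y ≤ 1 := by
  exact ⟨(Real.exp_pos _).le, Real.exp_le_one_iff.2 (neg_nonpos.2 (Real.exp_pos _).le)⟩

theorem EE_le (y : ℝ) : EE y ≤ 2 * Real.exp (-2 * y) := by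
  have h := mww_le 2 y
  rw [show ((2 : ℕ).factorial : ℝ) = 2 by norm_num [Nat.factorial], Nat.cast_ofNat, ← neg_mul] at h
  exact h

theorem ztop_deriv (j : ℕ) : ∃ C : ℝ, 0 ≤ C ∧ ∀ i ≤ j, ∀ y : ℝ,
    |iteratedDeriv i EE y| ≤ C * min 1 (Real.exp (-y)) ∧
    |iteratedDeriv i (fun v => -(1 - EE v)) y| ≤ C * Real.exp y := by
  choose C h0 hC using ee_deriv
  refine ⟨∑ i ∈ range (j + 1), C i, sum_nonneg fun i _ => h0 i, fun i hi y => ?_⟩
  have h1 : C i ≤ ∑ i ∈ range (j + 1), C i :=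
    single_le_sum (fun k _ => h0 k) (mem_range.2 (by omega))
  refine ⟨(hC i y).1.trans (mul_le_mul_of_nonneg_right h1 (by positivity)), ?_⟩
  rw [iteratedDeriv_fun_neg, abs_neg]
  exact (hC i y).2.trans (mul_le_mul_of_nonneg_right h1 (by positivity))

theorem ztop_smooth : ContDiff ℝ ∞ EE := Real.contDiff_exp.neg.exp

theorem ztop_EE (ℒ : ℝ) {t : ℝ} (ht : 0 ≤ t) (y : ℝ) :
    ‖(EE (y + t - ℒ) : ℂ)‖ ≤ 2 * Real.exp (2 * ℒ) * Real.exp (-2 * y) := by
  rw [norm_real, Real.norm_of_nonneg (EE_mem _).1, mul_assoc, ← Real.exp_add]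
  exact (EE_le _).trans (mul_le_mul_of_nonneg_left (Real.exp_le_exp.2 (by linarith)) (by norm_num))

/-- As `top_sm`: `top0 c U u = EE (c - u) * (1 - S (u / U - 1)) - (1 - EE (c - u)) * S (u / U - 1)`; `ee_deriv`,
`mtop_bd`, `mtop_term`. -/
theorem top0_sm (j : ℕ) (cb : ℝ) : ∃ C : ℝ, 0 ≤ C ∧ ∀ c U v : ℝ, |c| ≤ cb → 1 ≤ U →
    Sm j (-1) 1 (C * tenv U v) fun y => (psi y : ℂ) * (top0 c U (v - y) : ℂ) := by
  obtain ⟨Bp, hp⟩ := sm_psi j
  obtain ⟨C, hC, hW⟩ := ztop_deriv j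
  have hS : ContDiff ℝ ∞ fun z : ℝ => (Real.smoothTransition (z - 1) : ℂ) :=
    ofRealCLM.contDiff.comp (Real.smoothTransition.contDiff.comp (contDiff_id.sub contDiff_const))
  have hS' : ContDiff ℝ ∞ fun z : ℝ => 1 - (Real.smoothTransition (z - 1) : ℂ) :=
    contDiff_const.sub hS
  obtain ⟨B₂, hB₂, h₂⟩ := mtop_bd j hS (fun y => by
    rw [norm_real, Real.norm_of_nonneg (Real.smoothTransition.nonneg _)]
    exact Real.smoothTransition.le_one _) fun y hy => by
      obtain ⟨c, hc⟩ := mtop_ev hy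
      exact ⟨c, hc.mono fun z hz => by simp only [hz]⟩
  obtain ⟨B₁, hB₁, h₁⟩ := mtop_bd j hS' (fun y => by
    rw [← ofReal_one, ← ofReal_sub, norm_real,
      Real.norm_of_nonneg (sub_nonneg.2 (Real.smoothTransition.le_one _))]
    linarith [Real.smoothTransition.nonneg (y - 1)]) fun y hy => by
      obtain ⟨c, hc⟩ := mtop_ev hy
      exact ⟨1 - c, hc.mono fun z hz => by simp only [hz]⟩
  have hBp := hp.nonneg
  set E := Real.exp (|cb| + 3) with hE
  have hE0 : 0 ≤ E := (Real.exp_pos _).le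
  refine ⟨2 ^ j * (2 ^ j * Bp * (C * E)) * (B₁ + B₂), by positivity, fun c U v hc hU => ?_⟩
  have ht := mtop_tenv_nonneg hU v
  have he := mtop_exp_le hU v
  have hc' := abs_le.1 (hc.trans (le_abs_self cb))
  have hU0 : 0 < U := by linarith
  have t₁ : Sm j (-1) 1 (2 ^ j * (2 ^ j * Bp * (C * E * tenv U v)) * B₁) fun y => (psi y : ℂ) *
      (EE (y + (c - v)) : ℂ) * (1 - (Real.smoothTransition ((v - y) / U - 1) : ℂ)) := by
    by_cases hv : 2 * U + 1 ≤ v
    · refine mtop_zero (fun y => ?_) (by positivity)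
      by_cases hy : y ∈ Set.Icc (-1 : ℝ) 1
      · rw [Real.smoothTransition.one_of_one_le (by
          rw [le_sub_iff_add_le, le_div_iff₀ hU0]; linarith [hy.2])]
        simp
      · simp [mtop_psi hy]
    · refine mtop_term hp ztop_smooth (by positivity) (fun i hi y hy => ?_) hS' hB₁ (h₁ v U hU)
      refine (hW i hi _).1.trans ?_
      rw [mul_assoc]
      refine mul_le_mul_of_nonneg_left ?_ hC
      rcases le_total v 0 with h0 | h0
      · refine (min_le_right _ _).trans (le_trans ?_ (mul_le_mul_of_nonneg_left he hE0))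
        rw [hE, ← Real.exp_add, abs_of_nonpos h0]
        exact Real.exp_le_exp.2 (by linarith [hy.1])
      · refine (min_le_left _ _).trans ?_
        have h3 : Real.exp (-1) ≤ min 1 (Real.exp (2 * U - |v|)) :=
          le_min (Real.exp_le_one_iff.2 (by norm_num))
            (Real.exp_le_exp.2 (by rw [abs_of_nonneg h0]; linarith))
        have h4 : |cb| + 3 ≤ E * Real.exp (-1) := by
          rw [hE, ← Real.exp_add]
          linarith [Real.add_one_le_exp (|cb| + 3 + -1)]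
        have h6 : E * Real.exp (-1) ≤ E * min 1 (Real.exp (2 * U - |v|)) :=
          mul_le_mul_of_nonneg_left h3 hE0
        have h7 := mul_le_mul_of_nonneg_left (h4.trans h6) (show 0 ≤ 1 + U by linarith)
        unfold tenv
        nlinarith [abs_nonneg cb]
  have t₂ : Sm j (-1) 1 (2 ^ j * (2 ^ j * Bp * (C * E * tenv U v)) * B₂) fun y => (psi y : ℂ) *
      ((fun v => -(1 - EE v)) (y + (c - v)) : ℝ) *
        (Real.smoothTransition ((v - y) / U - 1) : ℂ) := by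
    rcases le_total v 0 with h0 | h0
    · refine mtop_zero (fun y => ?_) (by positivity)
      by_cases hy : y ∈ Set.Icc (-1 : ℝ) 1
      · rw [Real.smoothTransition.zero_of_nonpos (by
          rw [sub_nonpos, div_le_one hU0]; linarith [hy.1])]
        simp
      · simp [mtop_psi hy]
    · refine mtop_term hp (contDiff_const.sub ztop_smooth).neg (by positivity)
        (fun i hi y hy => ?_) hS hB₂ (h₂ v U hU)
      refine (hW i hi _).2.trans ?_
      rw [mul_assoc]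
      refine mul_le_mul_of_nonneg_left (le_trans ?_ (mul_le_mul_of_nonneg_left he hE0)) hC
      rw [hE, ← Real.exp_add, abs_of_nonneg h0]
      exact Real.exp_le_exp.2 (by linarith [hy.2])
  have e : (fun y => (psi y : ℂ) * (top0 c U (v - y) : ℂ)) = fun y => (psi y : ℂ) *
      (EE (y + (c - v)) : ℂ) * (1 - (Real.smoothTransition ((v - y) / U - 1) : ℂ)) + (psi y : ℂ) *
      ((fun v => -(1 - EE v)) (y + (c - v)) : ℝ) *
        (Real.smoothTransition ((v - y) / U - 1) : ℂ) := by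
    funext y
    rw [top0, show c - (v - y) = y + (c - v) by ring]
    push_cast
    ring
  rw [e]
  exact (mtop_add t₁ t₂).mono le_rfl le_rfl le_rfl (le_of_eq (by ring))

theorem top0_decay (c L : ℝ) {U : ℝ} (hU : 0 < U) : ∃ K : ℝ, ∀ y, 0 ≤ y →
    ‖(top0 c U (L - y) : ℂ)‖ ≤ K * Real.exp (-2 * y) := by
  refine ⟨2 * Real.exp (2 * (L - c)) + Real.exp (2 * |L|), fun y hy => ?_⟩
  rw [norm_real, Real.norm_eq_abs, top0, add_mul]
  refine (abs_sub _ _).trans (add_le_add ?_ ?_)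
  · rw [abs_of_nonneg (EE_mem _).1, mul_assoc, ← Real.exp_add]
    exact (EE_le _).trans (le_of_eq (by congr 2; ring))
  · rcases le_total L y with h | h
    · rw [Real.smoothTransition.zero_of_nonpos (by
        rw [sub_nonpos, div_le_one hU]; linarith), abs_zero]
      positivity
    · have h1 := le_abs_self L
      rw [abs_of_nonneg (Real.smoothTransition.nonneg _), ← Real.exp_add]
      exact (Real.smoothTransition.le_one _).trans (Real.one_le_exp (by linarith))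

/-- As `top_nrm`. -/
theorem top0_nrm (D : Data) (hFE : D.FE) (hPS : D.PS) (cb : ℝ) : ∃ C : ℝ, 0 ≤ C ∧
    ∀ (X U L : ℝ) (T : Finset ℤ) (c : ℤ → ℝ), 1 ≤ X → 1 ≤ U → T ⊆ sqf X → (∀ d ∈ T, |c d| ≤ cb) →
    nrm T (fun d => sm D (jac d) fun y => (top0 (c d) U (L - y) : ℂ)) ≤
      C * (1 + U) ^ 2 * ll X * √X := by
  obtain ⟨A, C₀, hC₀, hI⟩ := li D hFE hPS
  obtain ⟨C₁, hC₁, h₁⟩ := nrm_sm_le A 5
  obtain ⟨C₂, hC₂, h₂⟩ := top0_sm (A + 2) cb
  refine ⟨8 * C₀ * C₁ * C₂, by positivity, fun X U L T c hX hU hT hc => ?_⟩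
  obtain ⟨hs, hs'⟩ := sum_tenv hU L
  have hl := one_le_ll hX
  have hG : 0 ≤ C₀ * ll X * √X := by positivity
  have h := nrm_tsum (T := T) (a := fun d => sm D (jac d) fun y => (top0 (c d) U (L - y) : ℂ))
    (c := fun d (i : ℕ) => sm D (jac d) fun y => (psi (y - i) : ℂ) * (top0 (c d) U (L - y) : ℂ))
    (env := fun _ => 1) (γ := fun i => C₁ * C₂ * (C₀ * ll X * √X) * tenv U (L - i))
    (fun _ => zero_le_one) (fun d _ => by
      obtain ⟨K, hK⟩ := top0_decay (c d) L (show 0 < U by linarith)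
      simpa only [one_mul] using sm_windows (D := D) (adm_jac d) hK) (fun i => by
      have h3 := h₁ D ℤ T jac i _ _ (fun d y => (psi y : ℂ) * (top0 (c d) U (L - i - y) : ℂ)) hG
        (mul_nonneg hC₂ (mtop_tenv_nonneg hU (L - i)))
        (fun t => (nrm_subset hT).trans (hI.bd X hX i t))
        fun d hd => (h₂ (c d) U (L - i) (hc d hd) hU).mono le_rfl (by norm_num) (by norm_num) le_rfl
      simp only [sub_sub_sub_cancel_right] at h3
      exact h3.trans (le_of_eq (by ring))) (by simpa only [one_mul] using hs.mul_left _)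
  simp only [one_mul] at h
  rw [tsum_mul_left] at h
  exact h.trans ((mul_le_mul_of_nonneg_left hs' (by positivity)).trans (le_of_eq (by ring)))

theorem norm_sm_EE_le (D : Data) {x : ℕ → ℝ} (hx : Adm x) (ℒ : ℝ) {t : ℝ} (ht : 0 ≤ t) :
    ‖sm D x fun y => (EE (y + t - ℒ) : ℂ)‖ ≤ 8 * Real.exp (2 * ℒ) := by
  exact (norm_sm_le_decay hx fun y _ => ztop_EE ℒ ht y).trans (le_of_eq (by ring))

/-- As `ld_term`: `sum_th0` with `u = L - t - y ≤ L`. -/
theorem l0_term (D : Data) {x : ℕ → ℝ} (hx : Adm x) {L t : ℝ} (hL : 0 < L) (ht : 0 ≤ t) (ℒ : ℝ) (I : ℕ) :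
    sm D x (fun y => (EE (y + t - ℒ) : ℂ)) = ∑ i ∈ range (I + 1), pc D x (L - t) (Ui L i) th0 +
      sm D x fun y => (top0 (L - ℒ) (Ui L I) (L - t - y) : ℂ) := by
  obtain ⟨B₀, hB₀⟩ := sm_th0 0
  obtain ⟨K₀, h₀⟩ := mtop_dec hB₀ hL (L - t) (I + 1) fun _ => 1
  obtain ⟨K₂, h₂⟩ := top0_decay (L - ℒ) (L - t) (Ui_pos hL I)
  simp only [one_mul] at h₀
  have e₀ : ∑ i ∈ range (I + 1), pc D x (L - t) (Ui L i) th0 =
      sm D x fun y => ∑ i ∈ range (I + 1), th0 ((L - t - y) / Ui L i) := by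
    rw [sm_sum (L := L - t) _ fun i _ y hy => mtop_supp hB₀ (Ui_pos hL i) y hy]
    rfl
  rw [e₀, ← sm_add_decay hx h₀ h₂]
  refine sm_congr fun y hy => ?_
  have hu : L - t - y ≤ L := by linarith
  rw [sum_th0 hL hu, top0, show L - ℒ - (L - t - y) = y + t - ℒ by ring]
  push_cast
  ring

/-- With `U = L` the step vanishes (`sm_congr`). -/
theorem l0_all (D : Data) (x : ℕ → ℝ) {L t : ℝ} (hL : 0 < L) (ht : 0 ≤ t) (ℒ : ℝ) :
    sm D x (fun y => (EE (y + t - ℒ) : ℂ)) = sm D x fun y => (top0 (L - ℒ) L (L - t - y) : ℂ) := by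
  refine sm_congr fun y hy => ?_
  rw [top0, Real.smoothTransition.zero_of_nonpos (by rw [sub_nonpos, div_le_one hL]; linarith),
    sub_zero, show L - ℒ - (L - t - y) = y + t - ℒ by ring]

/-- As `mf2_Bot`: `nrm_tsum` with `env n = |κ n|`; `norm_sm_EE_le` gives the convergence. -/
theorem nrm_L0 (D : Data) {κ : ℕ → ℝ} (hκ : Kap κ) (T : Finset ℤ) (w : ℤ → ℂ) (ℒ : ℤ → ℝ) {G : ℝ}
    (h : ∀ t, 0 ≤ t → nrm T (fun d => w d * sm D (jac d) fun y => (EE (y + t - ℒ d) : ℂ)) ≤ G) :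
    nrm T (fun d => w d * L0 D κ (jac d) (ℒ d)) ≤ (∑' n : ℕ, |κ n|) * G := by
  have hs : Summable fun n : ℕ => |κ n| :=
    hκ.summ.of_nonneg_of_le (fun _ => abs_nonneg _) fun n =>
      le_mul_of_one_le_right (abs_nonneg _) (by have := Real.log_natCast_nonneg n; linarith)
  rw [← tsum_mul_right]
  refine nrm_tsum (env := fun n : ℕ => |κ n|) (γ := fun _ => G)
    (c := fun d (n : ℕ) => w d * sm D (jac d) fun y => (EE (y + Real.log n - ℒ d) : ℂ))
    (fun _ => abs_nonneg _) (fun m _ => ?_) (fun n => h _ (Real.log_natCast_nonneg n))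
    (hs.mul_right G)
  have e : ∀ n : ℕ, ‖w m * ((κ n : ℂ) * sm D (jac m) fun y => (EE (y + Real.log n - ℒ m) : ℂ))‖ =
      |κ n| * ‖w m * sm D (jac m) fun y => (EE (y + Real.log n - ℒ m) : ℂ)‖ := fun n => by
    rw [mul_left_comm, norm_mul, Complex.norm_real, Real.norm_eq_abs]
  rw [L0, ← tsum_mul_left]
  refine (norm_tsum_le_tsum_norm ?_).trans (le_of_eq (tsum_congr e))
  refine (hs.mul_right (‖w m‖ * (8 * Real.exp (2 * ℒ m)))).of_nonneg_of_le (fun _ => norm_nonneg _)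
    fun n => ?_
  rw [e, norm_mul]
  exact mul_le_mul_of_nonneg_left (mul_le_mul_of_nonneg_left
    (norm_sm_EE_le D (adm_jac m) _ (Real.log_natCast_nonneg n)) (norm_nonneg _)) (abs_nonneg _)

/-- `nrm_L0` with `w = 1`, `l0_all`, `top0_nrm`; `C (1 + L) ^ 2 ll X ≤ L ^ 3` for large `X`. -/
theorem sec_all (D : Data) (hFE : D.FE) (hPS : D.PS) {κ : ℕ → ℝ} (hκ : Kap κ) (cb : ℝ) : ∃ X₀ : ℝ,
    ∀ (X : ℝ) (T : Finset ℤ) (ℒ : ℤ → ℝ), X₀ ≤ X → T ⊆ sqf X → (∀ d ∈ T, |Real.log X - ℒ d| ≤ cb) →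
    nrm T (fun d => L0 D κ (jac d) (ℒ d)) ≤ √X * Real.log X ^ 3 := by
  obtain ⟨C, hC, h⟩ := top0_nrm D hFE hPS cb
  set K := (∑' n : ℕ, |κ n|) * C with hK
  have hK0 : 0 ≤ K := mul_nonneg (tsum_nonneg fun _ => abs_nonneg _) hC
  refine ⟨Real.exp ((16 * K) ^ 2 + 1), fun X T ℒ hX hT hc => ?_⟩
  have hX0 : 0 < X := (Real.exp_pos _).trans_le hX
  have hL : (16 * K) ^ 2 + 1 ≤ Real.log X := (Real.le_log_iff_exp_le hX0).2 hX
  have hL1 : 1 ≤ Real.log X := by nlinarith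
  have hX1 : 1 ≤ X := (Real.one_le_exp (by positivity)).trans hX
  have h1 := nrm_L0 D hκ T (fun _ => 1) ℒ
    (G := C * (1 + Real.log X) ^ 2 * ll X * √X) fun t ht => by
      have h2 := h X (Real.log X) (Real.log X - t) T (fun d => Real.log X - ℒ d) hX1 hL1 hT hc
      simp only [one_mul, l0_all D _ (zero_lt_one.trans_le hL1) ht]
      exact h2
  simp only [one_mul] at h1
  refine h1.trans ?_
  unfold ll
  set L := Real.log X with hLd
  set s := √L with hs
  have hs0 : 0 ≤ s := Real.sqrt_nonneg _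
  have hs2 : s ^ 2 = L := Real.sq_sqrt (by linarith)
  have hs1 : 1 ≤ s := Real.one_le_sqrt.2 hL1
  have hs3 : 16 * K ≤ s := Real.le_sqrt_of_sq_le (by linarith)
  have h3 : Real.log (1 + L) ≤ 2 * s := by
    have h4 : Real.log (1 + L) ≤ Real.log ((1 + s) ^ 2) :=
      Real.log_le_log (by linarith) (by nlinarith)
    rw [Real.log_pow] at h4
    have h5 := Real.log_le_sub_one_of_pos (show 0 < 1 + s by linarith)
    push_cast at h4
    linarith
  have h4 : 0 ≤ Real.log (1 + L) := Real.log_nonneg (by linarith)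
  have h5 : K * ((1 + L) ^ 2 * (1 + Real.log (1 + L))) ≤ L ^ 3 := by
    calc K * ((1 + L) ^ 2 * (1 + Real.log (1 + L))) ≤ K * ((2 * L) ^ 2 * (4 * s)) := by
          gcongr <;> linarith
      _ = 16 * K * (s * L ^ 2) := by ring
      _ ≤ s * (s * L ^ 2) := by gcongr
      _ = s ^ 2 * L ^ 2 := by ring
      _ = L ^ 3 := by rw [hs2]; ring
  calc (∑' n : ℕ, |κ n|) * (C * (1 + L) ^ 2 * (1 + Real.log (1 + L)) * √X)
      = √X * (K * ((1 + L) ^ 2 * (1 + Real.log (1 + L)))) := by rw [hK]; ring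
    _ ≤ √X * L ^ 3 := mul_le_mul_of_nonneg_left h5 (Real.sqrt_nonneg _)

end Pool.Agent.Lib.MP_03e5d0_nt
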