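import Pool.Agent.Lib.MP_03e5d0_nt.ZSm2
import Pool.Agent.Lib.MP_03e5d0_nt.ZTop

set_option autoImplicit false

noncomputable section

namespace Pool.Agent.Lib.MP_03e5d0_nt

open Complex Finset MeasureTheory
open scoped NumberTheorySymbols Real ContDiff

/-! The weighted second moment of the central value on the good set. -/

/-- `I` is the least index with `Ui L (I + 1) < 8 log L`; `2 ^ (I + 1) ≤ L`. -/
theorem exists_IZ : ∃ L₀ : ℝ, ∀ L : ℝ, L₀ ≤ L → ∃ I : ℕ, 8 * Real.log L ≤ Ui L I ∧ Ui L I ≤ 16 * Real.log L ∧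
    (I + 1 : ℝ) ≤ 2 * Real.log L := by
  have h1 : ∀ᶠ L : ℝ in Filter.atTop, 1 ≤ Real.log L ∧ 16 * Real.log L ≤ L ∧ 1 ≤ L := by
    refine (Real.tendsto_log_atTop.eventually_ge_atTop 1).and (Filter.Eventually.and ?_
      (Filter.eventually_ge_atTop 1))
    filter_upwards [Real.isLittleO_log_id_atTop.bound (c := 1 / 16) (by norm_num),
      Filter.eventually_ge_atTop 0] with L hL h0
    rw [id, Real.norm_eq_abs, Real.norm_eq_abs, abs_of_nonneg h0] at hL
    linarith [le_abs_self (Real.log L)]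
  obtain ⟨L₀, h⟩ := Filter.eventually_atTop.1 h1
  refine ⟨L₀, fun L hL => ?_⟩
  obtain ⟨h1, h2, h3⟩ := h L hL
  have hex : ∃ i : ℕ, Ui L (i + 1) < 8 * Real.log L := by
    obtain ⟨i, hi⟩ := pow_unbounded_of_one_lt L (one_lt_two (α := ℝ))
    refine ⟨i, lt_of_le_of_lt ?_ (show (1 : ℝ) < 8 * Real.log L by linarith)⟩
    rw [Ui, div_le_one (by positivity)]
    exact hi.le.trans (pow_le_pow_right₀ one_le_two (by omega))
  classical
  have h4 := Nat.find_spec hex
  have h5 : 8 * Real.log L ≤ Ui L (Nat.find hex) := by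
    rcases Nat.eq_zero_or_pos (Nat.find hex) with h0 | h0
    · rw [h0, Ui]
      norm_num
      linarith
    · have := Nat.find_min hex (m := Nat.find hex - 1) (by omega)
      rwa [Nat.sub_add_cancel h0, not_lt] at this
  refine ⟨Nat.find hex, h5, by linarith [mww_Ui_succ L (Nat.find hex)], ?_⟩
  have h6 : (2 : ℝ) ^ (Nat.find hex + 1) ≤ L := by
    rw [← one_le_div (by positivity)]
    exact le_trans (by linarith) h5
  have h7 := Real.log_le_log (by positivity) h6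
  rw [Real.log_pow] at h7
  push_cast at h7
  have h8 := Real.log_two_gt_d9
  have h9 : (0 : ℝ) ≤ Nat.find hex := Nat.cast_nonneg _
  nlinarith

theorem zsec_log {a X : ℝ} (h : Real.exp (Real.exp (max 1 a)) ≤ X) :
    1 ≤ Real.log X ∧ max 1 a ≤ Real.log (Real.log X) := by
  have h1 := Real.log_le_log (Real.exp_pos _) h
  rw [Real.log_exp] at h1
  have h2 := Real.log_le_log (Real.exp_pos _) h1
  rw [Real.log_exp] at h2
  exact ⟨(Real.one_le_exp (zero_le_one.trans (le_max_left _ _))).trans h1, h2⟩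

theorem top_size {ε : ℝ} (hε : 0 < ε) (C : ℝ) : ∃ X₀ : ℝ, ∀ X : ℝ, X₀ ≤ X →
    C * (1 + 16 * Real.log (Real.log X)) ^ 2 * ll X ≤ Real.log X ^ ε := by
  refine ⟨Real.exp (Real.exp (max 1 (867 * 24 * |C| / ε ^ 4))), fun X hX => ?_⟩
  obtain ⟨h1, h2⟩ := zsec_log hX
  have h3 := (le_max_left _ _).trans h2
  have h4 := (le_max_right _ _).trans h2
  have h5 : ll X ≤ 3 * Real.log (Real.log X) := by
    have h6 := Real.log_le_log (by linarith) (show 1 + Real.log X ≤ 2 * Real.log X by linarith)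
    rw [Real.log_mul two_ne_zero (by linarith)] at h6
    have h7 := Real.log_two_lt_d9
    unfold ll
    linarith
  have h6 : 0 ≤ ll X := by
    have := Real.log_nonneg (show 1 ≤ 1 + Real.log X by linarith)
    unfold ll
    linarith
  rw [Real.rpow_def_of_pos (by linarith)]
  generalize Real.log (Real.log X) = l at h2 h3 h4 h5 ⊢
  have h7 := Real.pow_div_factorial_le_exp (l * ε) (by positivity) 4
  rw [div_le_iff₀ (by positivity)] at h4
  calc C * (1 + 16 * l) ^ 2 * ll X ≤ |C| * (17 * l) ^ 2 * (3 * l) := by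
        gcongr
        · exact le_abs_self C
        · linarith
    _ = 867 * 24 * |C| * (l ^ 3 / 24) := by ring
    _ ≤ l * ε ^ 4 * (l ^ 3 / 24) := by gcongr
    _ = (l * ε) ^ 4 / (Nat.factorial 4 : ℕ) := by
        norm_num [Nat.factorial]
        ring
    _ ≤ _ := h7

/-- `nrm_L0`, `l0_term`, `nrm_add_le`, `nrm_sum`; the `I + 1 ≤ 2 log L` pieces by `piece3` (`sm_th0`, `Ui_anti`,
`Ui_le`) and `piece_size`; the top piece by `qK_le` with `a = 0`, `top0_nrm`, `top_size`. -/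
theorem sec_good (D : Data) (hFE : D.FE) (hPS : D.PS) {κ : ℕ → ℝ} (hκ : Kap κ) (cb : ℝ) {k₀ K : ℕ}
    (hk : 4800000 ≤ k₀) (hK : 1 ≤ K) : ∃ X₀ : ℝ, ∀ (X : ℝ) (n : ℕ) (T : Finset ℤ) (ℒ : ℤ → ℝ), X₀ ≤ X →
    Par2 k₀ K X n → T ⊆ sqf X → (∀ d ∈ T, Good2 D n K (jac d) ∧ |Real.log X - ℒ d| ≤ cb) →
    nrm T (fun d => qK D k₀ n K d * L0 D κ (jac d) (ℒ d)) ≤
      √X * Real.log X ^ (26 * ep k₀ + 1 / (2 * K)) := by
  have hk1 : 1 ≤ k₀ := by omega
  have hS : 0 ≤ ∑' n : ℕ, |κ n| := tsum_nonneg fun _ => abs_nonneg _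
  have he : 0 < 26 * ep k₀ + 1 / (2 * K) := by
    have : (0 : ℝ) < K := by exact_mod_cast hK
    have : 0 ≤ ep k₀ := by unfold ep; positivity
    positivity
  obtain ⟨L₀, hI⟩ := exists_IZ
  obtain ⟨n₁, j, C₃, X₁, hC₃, h3⟩ := piece3 D hFE hPS hk1 K
  obtain ⟨B, hB⟩ := sm_th0 j
  obtain ⟨n₂, hq⟩ := qK_le D hk1
  obtain ⟨Ct, hCt, ht⟩ := top0_nrm D hFE hPS cb
  obtain ⟨X₂, hp⟩ := piece_size hk hK (4 * (∑' n : ℕ, |κ n|) * C₃ * B)
  obtain ⟨X₃, hs⟩ := top_size he (2 * (∑' n : ℕ, |κ n|) * 2 ^ K * Ct)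
  obtain ⟨X₄, hl⟩ := par2_large hk hK (max n₁ n₂) 0
  refine ⟨max (max (max X₁ X₂) (max X₃ X₄)) (max (Real.exp L₀) (Real.exp (Real.exp (max 1 1)))),
    fun X n T ℒ hX hP hT hG => ?_⟩
  simp only [max_le_iff] at hX
  obtain ⟨⟨⟨e1, e2⟩, e3, e4⟩, e5, e6⟩ := hX
  obtain ⟨h1, h2⟩ := zsec_log e6
  have h2' := (le_max_left _ _).trans h2
  have hX1 : 1 ≤ X := (Real.one_le_exp (Real.exp_pos _).le).trans e6
  have hL : 0 < Real.log X := by linarith
  obtain ⟨I, i1, i2, i3⟩ := hI (Real.log X) ((Real.le_log_iff_exp_le (by linarith)).2 e5)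
  have hn := max_le_iff.1 (hl X n e4 hP).1
  have hp' := hp X n e2 hP
  have hs' := hs X e3
  have hll := one_le_ll hX1
  have hsq := Real.sqrt_nonneg X
  have hsub : sqf X ⊆ allm X := by
    classical
    exact fun d hd => (mem_filter.1 hd).1
  set Q := √(Real.exp (20 * ep k₀ * (K * n)) * ((n : ℝ) ^ 4 * Real.exp n +
    Real.log X / Real.exp (K * n)) * (1 + Real.log (1 + Real.log X))) with hQ
  have hpc : ∀ t, 0 ≤ t → ∀ i ∈ range (I + 1), nrm T (fun m => qK D k₀ n K m *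
      pc D (jac m) (Real.log X - t) (Ui (Real.log X) i) th0) ≤ C₃ * B * √X * Q := fun t h0 i hi =>
    h3 X _ _ B n th0 T e1 hn.1 (i1.trans (Ui_anti hL (Nat.lt_succ_iff.1 (mem_range.1 hi))))
      ((Ui_le hL i).trans (by linarith)) (by linarith) hB (hT.trans hsub)
      fun d hd => (hG d hd).1
  have hP0 : 0 ≤ C₃ * B * √X * Q :=
    (nrm_nonneg _ _).trans (hpc 0 le_rfl 0 (mem_range.2 (Nat.succ_pos I)))
  refine (nrm_L0 D hκ T _ ℒ (G := 2 * Real.log (Real.log X) * (C₃ * B * √X * Q) +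
    2 ^ K * (Ct * (1 + 16 * Real.log (Real.log X)) ^ 2 * ll X * √X)) fun t h0 => ?_).trans ?_
  · refine (nrm_add_le (a := fun d => ∑ i ∈ range (I + 1), qK D k₀ n K d *
        pc D (jac d) (Real.log X - t) (Ui (Real.log X) i) th0)
      (b := fun d => qK D k₀ n K d * sm D (jac d) fun y =>
        (top0 (Real.log X - ℒ d) (Ui (Real.log X) I) (Real.log X - t - y) : ℂ))
      fun d _ => ?_).trans (add_le_add ?_ ?_)
    · rw [l0_term D (adm_jac d) hL h0 (ℒ d) I, mul_add, mul_sum]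
      exact norm_add_le _ _
    · refine (nrm_sum (range (I + 1)) fun d _ => norm_sum_le _ _).trans ?_
      refine (sum_le_card_nsmul _ _ _ (hpc t h0)).trans ?_
      rw [card_range, nsmul_eq_mul]
      exact mul_le_mul_of_nonneg_right (by push_cast; exact i3) hP0
    · refine (nrm_le_mul (c := 2 ^ K) (b := fun d => sm D (jac d) fun y =>
        (top0 (Real.log X - ℒ d) (Ui (Real.log X) I) (Real.log X - t - y) : ℂ)) (by positivity)
        fun d hd => ?_).trans (mul_le_mul_of_nonneg_left ?_ (by positivity))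
      · rw [norm_mul]
        refine mul_le_mul_of_nonneg_right ?_ (norm_nonneg _)
        simpa [QQ] using hq n 0 K d hn.2 (Nat.zero_le K) (hG d hd).1
      · refine (ht X _ (Real.log X - t) T (fun d => Real.log X - ℒ d) hX1 (by linarith) hT
          fun d hd => (hG d hd).2).trans ?_
        have := Ui_pos hL I
        gcongr
  · have h4 := mul_le_mul_of_nonneg_left hp' hsq
    have h5 := mul_le_mul_of_nonneg_left hs' hsq
    linarith

end Pool.Agent.Lib.MP_03e5d0_nt
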