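import Pool.Agent.Lib.MP_03e5d0_nt.ZF2
import Pool.Agent.Lib.MP_03e5d0_nt.ZSec
import Pool.Agent.Lib.MP_03e5d0_nt.ZBad
import Pool.Agent.Lib.MP_03e5d0_nt.ZAfe
import Pool.Agent.Lib.MP_03e5d0_nt.MF4

set_option autoImplicit false

noncomputable section

namespace Pool.Agent.Lib.MP_03e5d0_nt

open Complex Finset MeasureTheory
open scoped NumberTheorySymbols Real ContDiff

/-! Counting the nonzero central values. -/

open Classical in
/-- `mf4_cs` on the good `d` with `b d ≠ 0`, `sum_mul_le_nrm` on the bad `d`. -/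
theorem split_two {S : Finset ℤ} {φ : ℤ → ℝ} (hφ : ∀ d, 0 ≤ φ d ∧ φ d ≤ 1) (w b : ℤ → ℂ) (G : ℤ → Prop) :
    ‖∑ d ∈ S, (φ d : ℂ) * (w d * b d)‖ ≤
      √((S.filter fun d => b d ≠ 0).card) * nrm (S.filter G) (fun d => w d * b d) +
        nrm (S.filter fun d => ¬G d) w * nrm S b := by
  have h1 : ∑ d ∈ S.filter G, ‖w d * b d‖ = ∑ d ∈ (S.filter G).filter fun d => b d ≠ 0, ‖w d * b d‖ :=
    (sum_filter_of_ne (p := fun d => b d ≠ 0) fun d _ h e => h (by rw [e, mul_zero, norm_zero])).symm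
  have h2 := mf4_cs ((S.filter G).filter fun d => b d ≠ 0) fun d => w d * b d
  have h3 := sum_mul_le_nrm (S.filter fun d => ¬G d) w b
  refine (norm_sum_le _ _).trans ((sum_le_sum (g := fun d => ‖w d * b d‖) fun d _ => ?_).trans ?_)
  · rw [norm_mul, norm_real, Real.norm_of_nonneg (hφ d).1]
    exact mul_le_of_le_one_left (norm_nonneg _) (hφ d).2
  · rw [← sum_filter_add_sum_filter_not S G, h1]
    refine add_le_add (h2.trans (mul_le_mul (Real.sqrt_le_sqrt (Nat.cast_le.2 (card_le_card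
      (filter_subset_filter _ (filter_subset _ _))))) (nrm_subset (filter_subset _ _))
      (nrm_nonneg _ _) (Real.sqrt_nonneg _))) ?_
    simp only [norm_mul]
    exact h3.trans (mul_le_mul_of_nonneg_left (nrm_subset (filter_subset _ _)) (nrm_nonneg _ _))

theorem fam2_mem {D : Data} {s : ℤ} {X : ℝ} (hX : 0 < X) (hs : s = 1 ∨ s = -1) {d : ℤ} (hd : d ∈ fam2 D s X) :
    d ∈ sqf X ∧ D.Fam2 d ∧ d.sign = s ∧ |(d : ℝ)| = s * d ∧ X / 2 ≤ s * d ∧ (s * d : ℝ) ≤ X := by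
  classical
  obtain ⟨h1, h2, h3⟩ := mem_filter.1 hd
  rw [mem_allm hX.le] at h1
  rw [Int.cast_mul] at h3
  have h4 : (0 : ℝ) < s * d := by linarith
  have h5 : 0 < s * d := by exact_mod_cast h4
  have h6 : |(d : ℝ)| = s * d := by
    rw [← abs_of_pos h4]
    rcases hs with rfl | rfl <;> simp
  refine ⟨(mem_sqf hX.le).2 ⟨h1, h2.1⟩, h2, ?_, h6, h3, h6 ▸ h1⟩
  rcases hs with rfl | rfl
  · exact Int.sign_eq_one_of_pos (by omega)
  · exact Int.sign_eq_neg_one_of_neg (by omega)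

open Classical in
/-- `exists_par2`, `first0`, `split_two`, `sec_good`, `bad2`, `sec_all` with `cb = log 2 + |c₀|`: with
`a = (3 - 2 √2) / 2 + 2 ε ≤ 1 / 2` and `b = 26 ε + 1 / (2 K)` one gets `cl X L ^ (-a) ≤ √N √X L ^ b + X / L`. -/
theorem count0 (D : Data) (hFE : D.FE) (hPS : D.PS) {κ : ℕ → ℝ} (hκ : Kap κ) {k₀ K : ℕ} (hk : 4800000 ≤ k₀)
    (hK : 1 ≤ K) (c₀ : ℝ) {s : ℤ} (hs : s = 1 ∨ s = -1) : ∃ c X₀ : ℝ, 0 < c ∧ ∀ (X : ℝ) (ℒ : ℤ → ℝ), X₀ ≤ X →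
    (∀ d ∈ fam2 D s X, ℒ d = Real.log (s * d) + c₀) →
    (∀ d ∈ fam2 D s X, Lw D κ (Real.log X / 200) (jac d) (ℒ d) = L0 D κ (jac d) (ℒ d)) →
    c * X * Real.log X ^ (-(3 - 2 * √2 + 56 * ep k₀ + 1 / K)) ≤
      (((fam2 D s X).filter fun d => L0 D κ (jac d) (ℒ d) ≠ 0).card : ℝ) := by
  obtain ⟨e1, e2⟩ := ep_mem hk
  obtain ⟨X₁, h1⟩ := exists_par2 hk hK
  obtain ⟨cl, X₂, hcl, h2⟩ := first0 D hFE hPS hκ hk hK c₀
  obtain ⟨X₃, h3⟩ := sec_good D hFE hPS hκ (Real.log 2 + |c₀|) hk hK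
  obtain ⟨X₄, h4⟩ := bad2 D hFE hPS hk hK
  obtain ⟨X₅, h5⟩ := sec_all D hFE hPS hκ (Real.log 2 + |c₀|)
  refine ⟨(cl / 2) ^ 2, max (max (max X₁ X₂) (max X₃ X₄)) (max X₅ (Real.exp (max 1 ((2 / cl) ^ 2)))),
    by positivity, fun X ℒ hX hℒ hL => ?_⟩
  simp only [max_le_iff] at hX
  obtain ⟨⟨⟨x1, x2⟩, x3, x4⟩, x5, x6⟩ := hX
  have X0 : 0 < X := (Real.exp_pos _).trans_le x6
  obtain ⟨l1, l2⟩ := max_le_iff.1 ((Real.le_log_iff_exp_le X0).2 x6)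
  obtain ⟨n, hP⟩ := h1 X x1
  have hcb : ∀ d ∈ fam2 D s X, |Real.log X - ℒ d| ≤ Real.log 2 + |c₀| := fun d hd => by
    obtain ⟨-, -, -, -, k1, k2⟩ := fam2_mem X0 hs hd
    have k5 := Real.log_le_log (by linarith) k2
    have k6 := Real.log_le_log (by linarith) k1
    have k7 := Real.log_nonneg one_le_two
    rw [Real.log_div X0.ne' two_ne_zero] at k6
    rw [hℒ d hd, abs_le]
    constructor <;> linarith [le_abs_self c₀, neg_abs_le c₀]
  have k1 := h2 X n s ℒ x2 hP hs hℒ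
  rw [sum_congr rfl fun d hd => by rw [hL d hd]] at k1
  have k2 := h3 X n ((fam2 D s X).filter fun d => Good2 D n K (jac d)) ℒ x3 hP
    (fun d hd => (fam2_mem X0 hs (mem_filter.1 hd).1).1)
    fun d hd => ⟨(mem_filter.1 hd).2, hcb d (mem_filter.1 hd).1⟩
  have k3 := (nrm_subset (filter_subset_filter _ (filter_subset _ _ : fam2 D s X ⊆ allm X))).trans
    (h4 X n x4 hP)
  have k4 := h5 X (fam2 D s X) ℒ x5 (fun d hd => (fam2_mem X0 hs hd).1) hcb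
  have k5 := (k1.trans (split_two (φ := fun d => Phi (s * d / X)) (fun d => Phi_mem _) (qK D k₀ n K)
    (fun d => L0 D κ (jac d) (ℒ d)) fun d => Good2 D n K (jac d))).trans (add_le_add
      (mul_le_mul_of_nonneg_left k2 (Real.sqrt_nonneg _))
      (mul_le_mul k3 k4 (nrm_nonneg _ _) (by positivity)))
  have N0 := Nat.cast_nonneg (α := ℝ) ((fam2 D s X).filter fun d => L0 D κ (jac d) (ℒ d) ≠ 0).card
  generalize (((fam2 D s X).filter fun d => L0 D κ (jac d) (ℒ d) ≠ 0).card : ℝ) = N at k5 N0 ⊢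
  generalize Real.log X = L at k5 l1 l2 ⊢
  have L0 : 0 < L := by linarith
  have e3 : -(3 - 2 * √2 + 56 * ep k₀ + 1 / K) = (-((3 - 2 * √2) / 2 + 2 * ep k₀) -
      (26 * ep k₀ + 1 / (2 * K))) * (2 : ℕ) := by
    rw [one_div (2 * K : ℝ), mul_inv, one_div]
    push_cast
    ring
  have e4 : L ^ (-(1 / 2) : ℝ) ≤ L ^ (-((3 - 2 * √2) / 2 + 2 * ep k₀)) :=
    Real.rpow_le_rpow_of_exponent_le l1 (by linarith [Real.lt_sqrt_of_sq_lt (show (1.4 : ℝ) ^ 2 < 2 by norm_num)])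
  rw [Real.rpow_neg L0.le, ← Real.sqrt_eq_rpow] at e4
  rw [e3, Real.rpow_mul_natCast L0.le, Real.rpow_sub L0]
  have b0 := Real.rpow_pos_of_pos L0 (26 * ep k₀ + 1 / (2 * K))
  have a0 := Real.rpow_pos_of_pos L0 (-((3 - 2 * √2) / 2 + 2 * ep k₀))
  generalize L ^ (-((3 - 2 * √2) / 2 + 2 * ep k₀)) = A at k5 e4 a0 ⊢
  generalize L ^ (26 * ep k₀ + 1 / (2 * K)) = B at k5 b0 ⊢
  have hu : √X * √X = X := Real.mul_self_sqrt X0.le
  have u0 : 0 < √X := Real.sqrt_pos.2 X0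
  generalize √X = u at k5 hu u0
  subst hu
  have e5 : 1 / L ≤ cl / 2 * A := by
    have h6 := Real.le_sqrt_of_sq_le l2
    have h7 := Real.sqrt_pos.2 L0
    refine le_trans ?_ (mul_le_mul_of_nonneg_left e4 (by positivity))
    rw [← div_eq_mul_inv, div_le_div_iff₀ L0 h7]
    rw [div_le_iff₀ hcl] at h6
    nth_rewrite 2 [← Real.mul_self_sqrt L0.le]
    nlinarith
  have e6 : u / L ^ 4 * (u * L ^ 3) = u * u * (1 / L) := by field_simp
  have k6 : cl / 2 * u * (A / B) * (u * B) ≤ √N * (u * B) := by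
    have h6 := mul_le_mul_of_nonneg_left e5 (mul_self_nonneg u)
    have h7 : cl / 2 * u * (A / B) * (u * B) = cl / 2 * (u * u) * A := by field_simp
    rw [e6] at k5
    linarith
  have k7 := pow_le_pow_left₀ (by positivity) (le_of_mul_le_mul_right k6 (by positivity)) 2
  rw [Real.sq_sqrt N0] at k7
  linarith

theorem exists_kK {α : ℝ} (hα : 3 - 2 * √2 < α) : ∃ k₀ K : ℕ, 4800000 ≤ k₀ ∧ 1 ≤ K ∧
    3 - 2 * √2 + 56 * ep k₀ + 1 / K < α := by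
  obtain ⟨m, hm⟩ := exists_nat_gt (4480001 / (α - (3 - 2 * √2)))
  have h0 := sub_pos.2 hα
  have h1 : (0 : ℝ) < (m + 4800000 : ℕ) := by positivity
  refine ⟨m + 4800000, m + 4800000, by omega, by omega, ?_⟩
  rw [div_lt_iff₀ h0] at hm
  have h2 : (4480001 : ℝ) / (m + 4800000 : ℕ) < α - (3 - 2 * √2) := by
    rw [div_lt_iff₀ h1]
    push_cast
    nlinarith
  have h3 : (4480001 : ℝ) / (m + 4800000 : ℕ) =
      56 * (80000 / (m + 4800000 : ℕ)) + 1 / (m + 4800000 : ℕ) := by ring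
  rw [ep]
  linarith

/-- As `core`: `s` is chosen with `0 ≤ ∑_{n ≥ 1} -(s γ₁ n)`, `κ = kap (-(s γ₁))` (`mf4_kap` with `gb = |γ₁|`),
`ℒ d = log (√(M d ^ 2) / (2 π)) = log (s d) + log (√M / (2 π))`; `count0` at `X / 2`, `afe_Lw`, `nonZ_of`. -/
theorem core0 (D : Data) (hFE : D.FE) (hFE2 : D.FE2) (hPS : D.PS) (α : ℝ) (hα : 3 - 2 * √2 < α) :
    ∃ X₀ : ℝ, ∀ X : ℝ, X₀ ≤ X →
      X / Real.log X ^ α ≤ ({d : ℤ | D.Fam2 d ∧ |(d : ℝ)| < X ∧ D.NonZ d}.ncard : ℝ) := by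
  classical
  obtain ⟨M, γ₁, hM, hs, hD⟩ := hFE2
  obtain ⟨s, hs1, h0⟩ : ∃ s : ℤ, (s = 1 ∨ s = -1) ∧
      0 ≤ ∑' n, if n = 0 then 0 else -((s : ℝ) * γ₁ n) := by
    rcases le_total 0 (∑' n, if n = 0 then 0 else γ₁ n) with h | h
    · exact ⟨-1, Or.inr rfl, by simpa using h⟩
    · refine ⟨1, Or.inl rfl, ?_⟩
      rw [← neg_nonneg, ← tsum_neg] at h
      refine h.trans (le_of_eq (tsum_congr fun n => ?_))
      split_ifs <;> simp
  obtain ⟨s1, hκ⟩ := mf4_kap (γ := fun n => -((s : ℝ) * γ₁ n)) hs (fun n => by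
    rcases hs1 with rfl | rfl <;> simp) h0
  simp only [abs_neg] at s1
  obtain ⟨k₀, K, hk, hK, hβ⟩ := exists_kK hα
  obtain ⟨c, X₀, hc, h⟩ := count0 D hFE hPS hκ hk hK (Real.log (√M / (2 * π))) hs1
  have β0 : 0 ≤ 3 - 2 * √2 + 56 * ep k₀ + 1 / K := by
    have h1 := (ep_mem hk).1
    have h2 := Real.sqrt_le_iff.2 (show (0 : ℝ) ≤ 3 / 2 ∧ (2 : ℝ) ≤ (3 / 2) ^ 2 by norm_num)
    have h3 : (0 : ℝ) ≤ 1 / K := by positivity
    linarith
  generalize 3 - 2 * √2 + 56 * ep k₀ + 1 / K = β at h hβ β0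
  obtain ⟨X₁, hX₁⟩ := Filter.eventually_atTop.1 (((tendsto_rpow_atTop (sub_pos.2 hβ)).comp
    Real.tendsto_log_atTop).eventually_ge_atTop (2 / c))
  refine ⟨max (max (2 * X₀) X₁) 4, fun X hX => ?_⟩
  simp only [max_le_iff] at hX
  obtain ⟨⟨x0, x1⟩, x2⟩ := hX
  have X0 : 0 < X / 2 := by linarith
  have key : ∀ d ∈ fam2 D s (X / 2), 0 < M * (d : ℝ) ^ 2 ∧
      D.Dual d (M * (d : ℝ) ^ 2) fun n => s * γ₁ n := fun d hd => by
    obtain ⟨-, k0, k1, k2, k3, -⟩ := fam2_mem X0 hs1 hd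
    have k4 : (d : ℝ) ≠ 0 := abs_pos.1 (by linarith)
    exact ⟨by positivity, k1 ▸ hD d k0⟩
  have l0 := Real.log_pos (show 1 < X / 2 by linarith)
  have l1 := Real.log_le_log X0 (show X / 2 ≤ X by linarith)
  have h1 := h (X / 2) (fun d => Real.log (√(M * (d : ℝ) ^ 2) / (2 * π))) (by linarith)
    (fun d hd => by
      obtain ⟨-, -, -, k2, k3, -⟩ := fam2_mem X0 hs1 hd
      have k4 : 0 < √M / (2 * π) := by have := Real.sqrt_pos.2 hM; positivity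
      rw [Real.sqrt_mul hM.le, Real.sqrt_sq_eq_abs, mul_div_right_comm, k2,
        Real.log_mul k4.ne' (by linarith), add_comm])
    fun d hd => afe_Lw (key d hd).1 s1 (key d hd).2 (by positivity)
  have hfin : {d : ℤ | D.Fam2 d ∧ |(d : ℝ)| < X ∧ D.NonZ d}.Finite :=
    (allm X).finite_toSet.subset fun d hd => (mem_allm (by linarith)).2 hd.2.1.le
  rw [← Set.ncard_coe_finset] at h1
  refine le_trans ?_ (h1.trans (Nat.cast_le.2 (Set.ncard_le_ncard (fun d hd => ?_) hfin)))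
  · have h2 : 2 / c ≤ Real.log X ^ (α - β) := hX₁ X x1
    have h3 := Real.rpow_le_rpow_of_nonpos l0 l1 (neg_nonpos.2 β0)
    have l2 : 0 < Real.log X := by linarith
    have h4 := Real.rpow_pos_of_pos l2 α
    rw [sub_eq_add_neg, Real.rpow_add l2, div_le_iff₀ hc] at h2
    refine le_trans ?_ (mul_le_mul_of_nonneg_left h3 (by positivity))
    rw [div_le_iff₀ h4]
    nlinarith
  · obtain ⟨h2, h3⟩ := mem_filter.1 (mem_coe.1 hd)
    obtain ⟨-, k0, -, k2, -, k3⟩ := fam2_mem X0 hs1 h2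
    exact ⟨k0, by linarith, nonZ_of (key d h2).1 s1 (key d h2).2 h3⟩

end Pool.Agent.Lib.MP_03e5d0_nt
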