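import Pool.Agent.Lib.MP_03e5d0_nt.ZOff

set_option autoImplicit false

noncomputable section

namespace Pool.Agent.Lib.MP_03e5d0_nt

open Complex Finset MeasureTheory
open scoped NumberTheorySymbols Real ContDiff

/-! Removal of a coprimality condition. -/

theorem zcop_sum {d : ℕ} (hd : 0 < d) (g : ℕ → ℝ) {F : ℕ → ℂ} {N : ℕ} (hF : ∀ n, N ≤ n → F n = 0) :
    ∑ n ∈ range N, ((if d ∣ n then g (n / d) else 0 : ℝ) : ℂ) * F n =
      ∑ n ∈ range N, (g n : ℂ) * F (d * n) := by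
  rw [← sum_filter_of_ne (s := range N) (f := fun n => (g n : ℂ) * F (d * n))
    (p := fun n => d * n < N) fun n _ h => not_le.1 fun h1 => h (by rw [hF _ h1, mul_zero])]
  refine (sum_of_injOn (fun n => d * n) (fun x _ y _ h => Nat.eq_of_mul_eq_mul_left hd h)
    (fun x hx => ?_) (fun n hn h => ?_) fun n _ => ?_).symm
  · exact mem_coe.2 (mem_range.2 (mem_filter.1 (mem_coe.1 hx)).2)
  · rw [if_neg, ofReal_zero, zero_mul]
    rintro ⟨m, rfl⟩
    have h1 := mem_range.1 hn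
    exact h ⟨m, mem_coe.2 (mem_filter.2
      ⟨mem_range.2 ((Nat.le_mul_of_pos_left m hd).trans_lt h1), h1⟩), rfl⟩
  · rw [if_pos (dvd_mul_right _ _), Nat.mul_div_cancel_left _ hd]

theorem zcop_ne (D : Data) {a : ℕ} (hq : a.Coprime D.q) : a ≠ 0 := by
  rintro rfl
  have h1 := D.two_dvd
  rw [(Nat.coprime_zero_left _).mp hq] at h1
  norm_num at h1

/-- Write `n = p ^ j * m` with `p ∤ m`; `lam_mul`, `lam_rec`. -/
theorem lam_cop_prime (D : Data) {p : ℕ} (hp : p.Prime) (hq : ¬p ∣ D.q) (n : ℕ) :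
    (if n.Coprime p then D.lam n else 0) = D.lam n - (if p ∣ n then D.lam p * D.lam (n / p) else 0) +
      if p ^ 2 ∣ n then D.lam (n / p ^ 2) else 0 := by
  rcases eq_or_ne n 0 with rfl | hn
  · simp [D.lam0]
  obtain ⟨j, m, h1, rfl⟩ := Nat.exists_eq_pow_mul_and_not_dvd hn p hp.ne_one
  have hc : ∀ i, D.lam (p ^ i * m) = D.lam (p ^ i) * D.lam m := fun i =>
    D.lam_mul _ _ (Nat.Coprime.pow_left i (hp.coprime_iff_not_dvd.2 h1))
  have hnc : ∀ k : ℕ, ¬(p * k).Coprime p := fun k h =>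
    hp.coprime_iff_not_dvd.1 h.symm (dvd_mul_right _ _)
  rcases j with _ | _ | j
  · rw [pow_zero, one_mul, if_pos (hp.coprime_iff_not_dvd.2 h1).symm, if_neg h1,
      if_neg fun h => h1 ((dvd_pow_self p two_ne_zero).trans h)]
    ring
  · have h2 := hc 1
    rw [pow_one] at h2
    rw [zero_add, pow_one, if_neg (hnc m), if_pos (dvd_mul_right _ _), Nat.mul_div_cancel_left _ hp.pos,
      if_neg fun h => h1 (by rwa [sq, Nat.mul_dvd_mul_iff_left hp.pos] at h), h2]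
    ring
  · have e1 : p ^ (j + 1 + 1) * m = p * (p ^ (j + 1) * m) := by ring
    have e2 : p ^ (j + 1 + 1) * m = p ^ 2 * (p ^ j * m) := by ring
    have e3 : p ^ (j + 1 + 1) * m / p = p ^ (j + 1) * m := by
      rw [e1, Nat.mul_div_cancel_left _ hp.pos]
    have e4 : p ^ (j + 1 + 1) * m / p ^ 2 = p ^ j * m := by
      rw [e2, Nat.mul_div_cancel_left _ (pow_pos hp.pos 2)]
    rw [if_neg (e1 ▸ hnc _), if_pos (e1 ▸ dvd_mul_right _ _), if_pos (e2 ▸ dvd_mul_right _ _), e3, e4,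
      hc, hc, hc, D.lam_rec p j hp hq]
    ring

theorem sum_cop_prime (D : Data) {p : ℕ} (hp : p.Prime) (hq : ¬p ∣ D.q) {F : ℕ → ℂ} {N : ℕ}
    (hF : ∀ n, N ≤ n → F n = 0) :
    ∑ n ∈ range N, ((if n.Coprime p then D.lam n else 0 : ℝ) : ℂ) * F n =
      ∑ n ∈ range N, (D.lam n : ℂ) * F n - (D.lam p : ℂ) * ∑ n ∈ range N, (D.lam n : ℂ) * F (p * n) +
        ∑ n ∈ range N, (D.lam n : ℂ) * F (p ^ 2 * n) := by
  have h1 := zcop_sum hp.pos (fun n => D.lam p * D.lam n) hF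
  have h2 := zcop_sum (pow_pos hp.pos 2) D.lam hF
  simp only [lam_cop_prime D hp hq, ofReal_add, ofReal_sub, add_mul, sub_mul, sum_add_distrib,
    sum_sub_distrib]
  rw [h1, h2, mul_sum]
  simp only [ofReal_mul, mul_assoc]

/-- Induction on `a` (`induction_on_primes`). For `a = p a'` with `p ∣ a'` keep the data of `a'`; otherwise take
`ι × Fin 3`, `b (i, e) = p ^ e * b i`, `c (i, e) = ![1, -lam p, 1] e * c i`, and apply `sum_cop_prime` to
`n ↦ 1[n coprime to a'] F n`; `|lam p| ≤ 2 ≤ √p` (`Data.big`). -/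
theorem cop_expand (D : Data) {a : ℕ} (hq : a.Coprime D.q) :
    ∃ (ι : Type) (S : Finset ι) (b : ι → ℕ) (c : ι → ℝ), S.card ≤ a ^ 2 ∧
    (∀ i ∈ S, b i ∣ a ^ 2 ∧ |c i| ≤ √(b i)) ∧ ∀ (F : ℕ → ℂ) (N : ℕ), (∀ n, N ≤ n → F n = 0) →
    ∑ n ∈ range N, ((if n.Coprime a then D.lam n else 0 : ℝ) : ℂ) * F n =
      ∑ i ∈ S, (c i : ℂ) * ∑ n ∈ range N, (D.lam n : ℂ) * F (b i * n) := by
  induction a using induction_on_primes with
  | zero => exact absurd rfl (zcop_ne D hq)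
  | one => exact ⟨Unit, univ, fun _ => 1, fun _ => 1, by simp, by simp, fun F N _ => by simp⟩
  | prime_mul p a hp ih =>
    obtain ⟨ι, S, b, c, h1, h2, h3⟩ := ih (Nat.Coprime.coprime_mul_left hq)
    have hp1 : 1 ≤ p ^ 2 := Nat.one_le_pow _ _ hp.pos
    by_cases hpa : p ∣ a
    · refine ⟨ι, S, b, c, h1.trans (by rw [mul_pow]; exact Nat.le_mul_of_pos_left _ hp1),
        fun i hi => ⟨(h2 i hi).1.trans (by rw [mul_pow]; exact dvd_mul_left _ _), (h2 i hi).2⟩,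
        fun F N hF => ?_⟩
      rw [← h3 F N hF]
      refine sum_congr rfl fun n _ => ?_
      have : n.Coprime (p * a) ↔ n.Coprime a := by
        rw [Nat.coprime_mul_iff_right]
        exact ⟨fun h => h.2, fun h => ⟨h.coprime_dvd_right hpa, h⟩⟩
      simp only [this]
    have hpq : ¬p ∣ D.q := hp.coprime_iff_not_dvd.1 (Nat.Coprime.coprime_mul_right hq)
    have hbig := D.big hp hpq
    have hpc : p.Coprime a := hp.coprime_iff_not_dvd.2 hpa
    refine ⟨ι × Fin 3, S ×ˢ univ, fun x => p ^ (x.2 : ℕ) * b x.1,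
      fun x => ![1, -D.lam p, 1] x.2 * c x.1, ?_, fun x hx => ⟨?_, ?_⟩, fun F N hF => ?_⟩
    · rw [card_product, card_univ, Fintype.card_fin, mul_pow, mul_comm]
      exact Nat.mul_le_mul (by nlinarith) h1
    · rw [mul_pow]
      exact mul_dvd_mul (pow_dvd_pow p (Nat.lt_succ_iff.1 x.2.2)) (h2 _ (mem_product.1 hx).1).1
    · have h4 : (10000 : ℝ) ≤ p := by exact_mod_cast hbig
      rw [abs_mul, Nat.cast_mul, Real.sqrt_mul (Nat.cast_nonneg _)]
      refine mul_le_mul ?_ (h2 _ (mem_product.1 hx).1).2 (abs_nonneg _) (Real.sqrt_nonneg _)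
      obtain ⟨i, e⟩ := x
      fin_cases e
      · simp
      · have h5 : (2 : ℝ) ≤ √p := Real.le_sqrt_of_sq_le (by linarith)
        simpa using (D.lam_le p hp).trans h5
      · simpa using (by linarith : (1 : ℝ) ≤ p)
    · have h4 : ∀ e : ℕ, ∑ n ∈ range N, (D.lam n : ℂ) *
          (if (p ^ e * n).Coprime a then F (p ^ e * n) else 0) =
          ∑ i ∈ S, (c i : ℂ) * ∑ n ∈ range N, (D.lam n : ℂ) * F (p ^ e * b i * n) := fun e => by
        have h5 := h3 (fun n => F (p ^ e * n)) N fun n hn =>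
          hF _ (hn.trans (Nat.le_mul_of_pos_left _ (pow_pos hp.pos e)))
        simp only [← mul_assoc] at h5
        rw [← h5]
        refine sum_congr rfl fun n _ => ?_
        have : (p ^ e * n).Coprime a ↔ n.Coprime a := by
          rw [Nat.coprime_mul_iff_left]
          exact ⟨fun h => h.2, fun h => ⟨hpc.pow_left e, h⟩⟩
        by_cases h : n.Coprime a
        · rw [if_pos h, if_pos (this.2 h)]
        · rw [if_neg h, if_neg (mt this.1 h), ofReal_zero, zero_mul, mul_zero]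
      have h5 := sum_cop_prime D hp hpq (F := fun n => if n.Coprime a then F n else 0) (N := N)
        fun n hn => by simp [hF n hn]
      have h6 := h4 0
      have h7 := h4 1
      simp only [pow_zero, one_mul, pow_one] at h6 h7
      rw [h6, h7, h4 2] at h5
      refine Eq.trans (sum_congr rfl fun n _ => ?_) (h5.trans ?_)
      · by_cases h : n.Coprime a
        · rw [if_pos h]
          by_cases h' : n.Coprime p
          · rw [if_pos h', if_pos (Nat.coprime_mul_iff_right.2 ⟨h', h⟩)]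
          · rw [if_neg h', if_neg fun h8 => h' (Nat.coprime_mul_iff_right.1 h8).1]
        · rw [if_neg h, if_neg fun h8 => h (Nat.coprime_mul_iff_right.1 h8).2, ofReal_zero, zero_mul,
            mul_zero]
      · rw [sum_product, mul_sum, ← sum_sub_distrib, ← sum_add_distrib]
        refine sum_congr rfl fun i _ => ?_
        simp [Fin.sum_univ_three]
        ring

/-- `cop_expand` with `F n = V (log n) * dlt (ℓ n) / √n`; `off1V` with `ℓ * b i` and `y ↦ V (y + log (b i))`. -/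
theorem off_cop (D : Data) (hFE : D.FE) (hPS : D.PS) : ∃ (j : ℕ) (C : ℝ), 0 ≤ C ∧
    ∀ (X Lt B BΦ : ℝ) (ℓ a N : ℕ) (V Φ : ℝ → ℂ), 0 < X → ℓ ≠ 0 → ℓ.Coprime D.q → a.Coprime D.q →
    ContDiff ℝ ∞ V → (∀ i ≤ j, ∀ y, ‖iteratedDeriv i V y‖ ≤ B) → (∀ y, Lt < y → V y = 0) →
    Sm j (-1) 1 BΦ Φ → Real.exp Lt < N →
    ‖∑ n ∈ range N, (((if n.Coprime a then D.lam n else 0) / √n : ℝ) : ℂ) *
        (V (Real.log n) * dlt D Φ X (ℓ * n))‖ ≤
      C * BΦ * B * (ℓ : ℝ) ^ 2 * (a : ℝ) ^ 6 * Real.exp (Lt / 2) *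
        ll (1 + Real.exp (Lt + 1) * (ℓ * (a : ℝ) ^ 2) / X) ^ 2 := by
  obtain ⟨j, C, hC, H⟩ := off1V D hFE hPS
  refine ⟨j, C, hC, fun X Lt B BΦ ℓ a N V Φ hX hℓ hℓq haq hV hB hLt hΦ hN => ?_⟩
  obtain ⟨ι, S, b, c, h1, h2, h3⟩ := cop_expand D haq
  have ha := zcop_ne D haq
  have hB0 : 0 ≤ B := (norm_nonneg _).trans (hB 0 (Nat.zero_le _) 0)
  have hΦ0 : 0 ≤ BΦ := (norm_nonneg _).trans (hΦ.bd 0 (Nat.zero_le _) 0)
  have h4 := h3 (fun n => (((√n)⁻¹ : ℝ) : ℂ) * (V (Real.log n) * dlt D Φ X (ℓ * n))) N fun n hn => by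
    have h5 : Real.exp Lt < n := hN.trans_le (by exact_mod_cast hn)
    rw [hLt _ ((Real.lt_log_iff_exp_lt ((Real.exp_pos _).trans h5)).2 h5), zero_mul, mul_zero]
  have h5 : ∀ i ∈ S, ‖(c i : ℂ) * ∑ n ∈ range N, (D.lam n : ℂ) * ((((√(b i * n : ℕ))⁻¹ : ℝ) : ℂ) *
      (V (Real.log (b i * n : ℕ)) * dlt D Φ X (ℓ * (b i * n))))‖ ≤
      C * BΦ * B * (ℓ : ℝ) ^ 2 * (a : ℝ) ^ 4 * Real.exp (Lt / 2) *
        ll (1 + Real.exp (Lt + 1) * (ℓ * (a : ℝ) ^ 2) / X) ^ 2 := fun i hi => by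
    obtain ⟨h6, h7⟩ := h2 i hi
    have hb0 : b i ≠ 0 := ne_zero_of_dvd_ne_zero (pow_ne_zero 2 ha) h6
    have hb1 : (1 : ℝ) ≤ b i := by exact_mod_cast Nat.one_le_iff_ne_zero.2 hb0
    have hb2 : (b i : ℝ) ≤ (a : ℝ) ^ 2 := by
      exact_mod_cast Nat.le_of_dvd (pow_pos (Nat.pos_of_ne_zero ha) 2) h6
    have hs : 0 < √(b i : ℝ) := Real.sqrt_pos.2 (by linarith)
    have h8 := H X Lt B BΦ (ℓ * b i) N (fun y => V (y + Real.log (b i))) Φ hX (mul_ne_zero hℓ hb0)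
      (Nat.Coprime.mul_left hℓq ((haq.pow_left 2).coprime_dvd_left h6))
      (hV.comp (contDiff_id.add contDiff_const))
      (fun k hk y => by rw [iteratedDeriv_comp_add_const]; exact hB k hk _)
      (fun y hy => hLt _ (by linarith [Real.log_nonneg hb1])) hΦ hN
    have h9 : (c i : ℂ) * ∑ n ∈ range N, (D.lam n : ℂ) * ((((√(b i * n : ℕ))⁻¹ : ℝ) : ℂ) *
        (V (Real.log (b i * n : ℕ)) * dlt D Φ X (ℓ * (b i * n)))) =
        ((c i / √(b i) : ℝ) : ℂ) * ∑ n ∈ range N, ((D.lam n / √n : ℝ) : ℂ) *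
          (V (Real.log n + Real.log (b i)) * dlt D Φ X (ℓ * b i * n)) := by
      rw [mul_sum, mul_sum]
      refine sum_congr rfl fun n _ => ?_
      rcases eq_or_ne n 0 with rfl | hn
      · simp [D.lam0]
      rw [Nat.cast_mul, Real.sqrt_mul (Nat.cast_nonneg _), Real.log_mul (by exact_mod_cast hb0)
        (by exact_mod_cast hn), add_comm (Real.log (b i)), mul_assoc ℓ]
      push_cast
      ring
    have h10 : ‖((c i / √(b i) : ℝ) : ℂ)‖ ≤ 1 := by
      rw [norm_real, Real.norm_eq_abs, abs_div, abs_of_pos hs]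
      exact (div_le_one hs).2 h7
    have h11 : (1 : ℝ) ≤ 1 + Real.exp (Lt + 1) * (ℓ * b i : ℕ) / X :=
      le_add_of_nonneg_right (by positivity)
    have h12 : ll (1 + Real.exp (Lt + 1) * (ℓ * b i : ℕ) / X) ≤
        ll (1 + Real.exp (Lt + 1) * (ℓ * (a : ℝ) ^ 2) / X) := ll_mono h11 (by
      push_cast
      gcongr)
    have h13 := one_le_ll h11
    have h14 : ((ℓ * b i : ℕ) : ℝ) ^ 2 ≤ (ℓ : ℝ) ^ 2 * (a : ℝ) ^ 4 := by
      rw [show (ℓ : ℝ) ^ 2 * (a : ℝ) ^ 4 = (ℓ * (a : ℝ) ^ 2) ^ 2 by ring]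
      push_cast
      gcongr
    rw [h9, norm_mul]
    refine (mul_le_of_le_one_left (norm_nonneg _) h10).trans (h8.trans ?_)
    rw [mul_assoc (C * BΦ * B) ((ℓ : ℝ) ^ 2)]
    gcongr
  have h6 : (S.card : ℝ) ≤ (a : ℝ) ^ 2 := by exact_mod_cast h1
  have h7 : ∑ n ∈ range N, (((if n.Coprime a then D.lam n else 0) / √n : ℝ) : ℂ) *
      (V (Real.log n) * dlt D Φ X (ℓ * n)) =
      ∑ n ∈ range N, ((if n.Coprime a then D.lam n else 0 : ℝ) : ℂ) *
        ((((√n)⁻¹ : ℝ) : ℂ) * (V (Real.log n) * dlt D Φ X (ℓ * n))) :=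
    sum_congr rfl fun n _ => by rw [div_eq_mul_inv, ofReal_mul, mul_assoc]
  rw [h7, h4]
  refine (norm_sum_le _ _).trans ((sum_le_card_nsmul _ _ _ h5).trans ?_)
  rw [nsmul_eq_mul]
  exact (mul_le_mul_of_nonneg_right h6 (by positivity)).trans_eq (by ring)

end Pool.Agent.Lib.MP_03e5d0_nt
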