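import Pool.Agent.Lib.MP_03e5d0_nt.MDef

set_option autoImplicit false

noncomputable section

namespace Pool.Agent.Lib.MP_03e5d0_nt

open Complex Finset MeasureTheory
open scoped NumberTheorySymbols Real ContDiff

/-! Definitions for the lower bound on the number of twists with nonzero central value. -/

/-- `d` is a square at all primes dividing `q`. -/
def Data.Sq (D : Data) (d : ℤ) : Prop :=
  d ≡ 1 [ZMOD 8] ∧ ∀ p : ℕ, p.Prime → p ∣ D.q → p ≠ 2 → J(d | p) = 1

/-- The larger family of discriminants. -/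
def Data.Fam2 (D : Data) (d : ℤ) : Prop := Squarefree d ∧ D.Sq d

/-- Functional equations in the larger family. -/
def Data.FE2 (D : Data) : Prop :=
  ∃ (M : ℝ) (γ₁ : ℕ → ℝ), 0 < M ∧ Summable (fun n : ℕ => |γ₁ n| * (1 + Real.log n)) ∧
    ∀ d : ℤ, D.Fam2 d → D.Dual d (M * (d : ℝ) ^ 2) fun n => d.sign * γ₁ n

/-- The `L`-series of the twist by `d`, without the Euler factors at `q`, is nonzero at the centre. -/
def Data.NonZ (D : Data) (d : ℤ) : Prop :=
  ∃ G : ℂ → ℂ, Differentiable ℂ G ∧ (∀ s : ℂ, 2 < s.re → G s = LSeries (D.co d) s) ∧ G 1 ≠ 0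

open Classical in
/-- The indicator of the class. -/
def cls (D : Data) (d : ℤ) : ℝ := if D.Sq d then 1 else 0

/-- The density of the class. -/
def mu0 (D : Data) : ℝ := (∑ b ∈ range (8 * D.q), cls D b) / (8 * D.q)

open Classical in
/-- The discriminants of sign `s` and size about `X`. -/
def fam2 (D : Data) (s : ℤ) (X : ℝ) : Finset ℤ :=
  (allm X).filter fun d => D.Fam2 d ∧ X / 2 ≤ ((s * d : ℤ) : ℝ)

/-- The error term of a character sum over the class. -/
def dlt (D : Data) (Φ : ℝ → ℂ) (X : ℝ) (r : ℕ) : ℂ :=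
  ∑' m : ℤ, Φ (m / X) * ((cls D m * J(m | r) : ℝ) : ℂ) - (X * mu0 D * rho dl0 r : ℝ) * ∫ y, Φ y

/-- The weight that couples the variables after Poisson summation. -/
def PhF (Φ : ℝ → ℂ) (ξ v : ℝ) : ℂ :=
  (bump 2 v : ℂ) * ((Real.exp (-(v / 2)) : ℝ) * ft Φ (ξ * Real.exp (-v)))

/-- Truncated cosine. -/
def tcos (l : ℕ) (y : ℝ) : ℝ := ∑ j ∈ range (l + 1), (-1) ^ j * y ^ (2 * j) / (2 * j).factorial

/-- The tilt. -/
def kk : ℝ := 2 - √2

/-- The width of the cap. -/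
def ep (k₀ : ℕ) : ℝ := 80000 / k₀

/-- A polynomial close to `exp (-x ^ 2 / (2 * ep k₀ * n))`. -/
def cap (k₀ n : ℕ) (x : ℝ) : ℝ := tcos (n ^ 3) (x / (400 * n)) ^ (2 * (k₀ * n))

/-- The primes with `exp (k n) < log p ≤ exp ((k + 1) n)`. -/
def zb (D : Data) (n k : ℕ) : Finset ℕ :=
  pr D (Real.exp ((k + 1) * n)) \ pr D (Real.exp (k * n))

/-- The centred prime sum of a block. -/
def xb (D : Data) (n k : ℕ) (x : ℕ → ℝ) : ℝ := PI D (zb D n k) x - kk * n

/-- The product of the caps of the blocks `a ≤ k < b`. -/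
def QQ (D : Data) (k₀ n a b : ℕ) (x : ℕ → ℝ) : ℝ := ∏ k ∈ Ico a b, cap k₀ n (xb D n k x)

/-- The full weight. -/
def qK (D : Data) (k₀ n K : ℕ) (m : ℤ) : ℂ := ((QQ D k₀ n 0 K (jac m) : ℝ) : ℂ)

/-- The range where the caps are bounded. -/
def Good2 (D : Data) (n K : ℕ) (x : ℕ → ℝ) : Prop := ∀ k < K, |xb D n k x| ≤ 3 * (n : ℝ) ^ 2

/-- The choice of parameters. -/
structure Par2 (k₀ K : ℕ) (X : ℝ) (n : ℕ) : Prop where
  up : Real.exp (K * n) ≤ Real.log X ^ (1 - 30 * ep k₀)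
  low : Real.log X ^ (1 - 30 * ep k₀) ≤ Real.exp (K * (n + 1))

/-- The weight of the central value. -/
def EE (y : ℝ) : ℝ := Real.exp (-Real.exp y)

/-- A probability density. -/
def gam (g : ℝ) : ℝ := Real.exp g * Real.exp (-Real.exp g)

/-- A smooth step of width `W`. -/
def eta (W v : ℝ) : ℝ := Real.smoothTransition ((v / W + 1) / 2)

/-- The wide weight of the central value. -/
def EW (W y : ℝ) : ℝ := ∫ g, gam g * eta W (g - y)

/-- The series for the central value. -/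
def L0 (D : Data) (κ : ℕ → ℝ) (x : ℕ → ℝ) (ℒ : ℝ) : ℂ :=
  ∑' n : ℕ, (κ n : ℂ) * sm D x fun y => (EE (y + Real.log n - ℒ) : ℂ)

/-- The wide series for the central value. -/
def Lw (D : Data) (κ : ℕ → ℝ) (W : ℝ) (x : ℕ → ℝ) (ℒ : ℝ) : ℂ :=
  ∑' n : ℕ, (κ n : ℂ) * sm D x fun y => (EW W (y + Real.log n - ℒ) : ℂ)

/-- The weight of the top piece. -/
def top0 (c U u : ℝ) : ℝ := EE (c - u) - Real.smoothTransition (u / U - 1)

/-- The step, cut off at `3`. -/
def thw (x : ℝ) : ℂ := (Real.smoothTransition ((200 * x + 1) / 2) * Real.smoothTransition (3 - x) : ℝ)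

/-- The weight of the first moment at the shift `g`. -/
def Phg (c₀ g x : ℝ) : ℂ := (Phi x * gam (g - Real.log x - c₀) : ℝ)

/-- The contribution of the primes of the blocks. -/
def Om3 (D : Data) (f : (ℕ → ℝ) → ℝ) (Z : ℝ) (α : ℂ) : ℂ :=
  Ex (pr D Z) dl1 fun x => (f x : ℂ) * LP D (pr D Z) x (1 / 2 + α)

end Pool.Agent.Lib.MP_03e5d0_nt
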