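import Pool.Agent.Lib.MP_03e5d0_nt.ZDef
import Pool.Agent.Lib.MP_03e5d0_nt.MSv2
import Pool.Agent.Lib.MP_03e5d0_nt.MWw
import Pool.Agent.Lib.MP_03e5d0_nt.MWin

set_option autoImplicit false

noncomputable section

namespace Pool.Agent.Lib.MP_03e5d0_nt

open Complex Finset MeasureTheory
open scoped NumberTheorySymbols Real ContDiff

/-! The wide weights. -/

theorem gam_nonneg (g : ℝ) : 0 ≤ gam g := by
  unfold gam
  positivity

theorem continuous_gam : Continuous gam := by
  unfold gam
  fun_prop

/-- `mww_le`. -/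
theorem gam_le (m : ℕ) (g : ℝ) : gam g ≤ Real.exp g ∧ gam g ≤ (m + 1).factorial * Real.exp (-(m * g)) := by
  refine ⟨mul_le_of_le_one_right (Real.exp_pos g).le
    (Real.exp_le_one_iff.2 (neg_nonpos.2 (Real.exp_pos g).le)), ?_⟩
  refine (mul_le_mul_of_nonneg_left (mww_le (m + 1) g) (Real.exp_pos g).le).trans_eq ?_
  rw [mul_left_comm, ← Real.exp_add]
  congr 2
  push_cast
  ring

theorem zeta_int {f : ℝ → ℝ} (hf : Continuous f) (h0 : ∀ g, 0 ≤ f g) {C C' : ℝ}
    (h1 : ∀ g, f g ≤ C * Real.exp g) (h2 : ∀ g, f g ≤ C' * Real.exp (-g)) : Integrable f := by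
  rw [← integrableOn_univ, ← Set.Iic_union_Ioi (a := (0 : ℝ))]
  refine IntegrableOn.union
    (((integrableOn_exp_Iic 0).const_mul C).mono' hf.aestronglyMeasurable
      (Filter.Eventually.of_forall fun g => ?_))
    (((integrableOn_exp_neg_Ioi 0).const_mul C').mono' hf.aestronglyMeasurable
      (Filter.Eventually.of_forall fun g => ?_))
  · rw [Real.norm_of_nonneg (h0 g)]
    exact h1 g
  · rw [Real.norm_of_nonneg (h0 g)]
    exact h2 g

theorem zeta_deriv (g : ℝ) : HasDerivAt (fun y => -EE y) (gam g) g := by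
  refine ((Real.hasDerivAt_exp g).neg.exp).neg.congr_deriv ?_
  simp only [gam, Pi.neg_apply]
  ring

theorem zeta_top : Filter.Tendsto (fun y => -EE y) Filter.atTop (nhds 0) := by
  simpa [EE, Function.comp_def] using
    (Real.tendsto_exp_neg_atTop_nhds_zero.comp Real.tendsto_exp_atTop).neg

theorem zeta_bot : Filter.Tendsto (fun y => -EE y) Filter.atBot (nhds (-1)) := by
  simpa [EE, Function.comp_def] using
    ((Real.continuous_exp.tendsto _).comp Real.tendsto_exp_atBot.neg).neg

theorem integrable_gam : Integrable gam := by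
  refine zeta_int continuous_gam gam_nonneg (C := 1) (C' := (1 + 1).factorial) (fun g => ?_) fun g => ?_
  · simpa using (gam_le 0 g).1
  · simpa using (gam_le 1 g).2

theorem integrable_gam_exp : Integrable fun g => gam g * Real.exp g := by
  refine zeta_int (continuous_gam.mul Real.continuous_exp)
    (fun g => mul_nonneg (gam_nonneg g) (Real.exp_pos g).le) (C := 1) (C' := (2 + 1).factorial)
    (fun g => mul_le_mul_of_nonneg_right ?_ (Real.exp_pos g).le) fun g => ?_
  · simpa using (gam_le 0 g).2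
  · refine (mul_le_mul_of_nonneg_right (gam_le 2 g).2 (Real.exp_pos g).le).trans_eq ?_
    rw [mul_assoc, ← Real.exp_add]
    congr 2
    push_cast
    ring

/-- `gam` is the derivative of `-EE` (`integral_Ioi_of_hasDerivAt_of_tendsto'`). -/
theorem integral_gam_Ioi (y : ℝ) : ∫ g in Set.Ioi y, gam g = EE y := by
  rw [integral_Ioi_of_hasDerivAt_of_tendsto' (fun g _ => zeta_deriv g) integrable_gam.integrableOn
    zeta_top]
  ring

theorem integral_gam : ∫ g, gam g = 1 := by
  rw [integral_of_hasDerivAt_of_tendsto zeta_deriv integrable_gam zeta_bot zeta_top]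
  ring

theorem eta_mem (W v : ℝ) : 0 ≤ eta W v ∧ eta W v ≤ 1 := by
  exact ⟨Real.smoothTransition.nonneg _, Real.smoothTransition.le_one _⟩

theorem continuous_eta (W : ℝ) : Continuous (eta W) := by
  exact Real.smoothTransition.continuous.comp (by fun_prop)

theorem eta_zero {W v : ℝ} (hW : 0 < W) (h : v ≤ -W) : eta W v = 0 := by
  have h1 : v / W ≤ -1 := by
    rw [div_le_iff₀ hW]
    linarith
  exact Real.smoothTransition.zero_of_nonpos (by linarith)

/-- `smoothTransition x + smoothTransition (1 - x) = 1`, from the definition. -/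
theorem eta_add (W v : ℝ) : eta W v + eta W (-v) = 1 := by
  have h1 : (-v / W + 1) / 2 = 1 - (v / W + 1) / 2 := by ring
  unfold eta
  rw [h1]
  generalize (v / W + 1) / 2 = u
  unfold Real.smoothTransition
  rw [sub_sub_cancel, add_comm (expNegInvGlue (1 - u)), ← add_div,
    div_self (Real.smoothTransition.pos_denom u).ne']

theorem sm_thw (j : ℕ) : ∃ B : ℝ, Sm j (-4) 4 B thw := by
  refine exists_sm j (ofRealCLM.contDiff.comp (f := fun x : ℝ =>
    Real.smoothTransition ((200 * x + 1) / 2) * Real.smoothTransition (3 - x))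
    ((Real.smoothTransition.contDiff.comp
      (((contDiff_const.mul contDiff_id).add contDiff_const).div_const 2)).mul
      (Real.smoothTransition.contDiff.comp (contDiff_const.sub contDiff_id)))) fun y hy => ?_
  unfold thw
  rcases hy with hy | hy
  · rw [Real.smoothTransition.zero_of_nonpos (by linarith), zero_mul, ofReal_zero]
  · rw [Real.smoothTransition.zero_of_nonpos (x := 3 - y) (by linarith), mul_zero, ofReal_zero]

theorem thw_zero {x : ℝ} (h : x ≤ -(1 / 200)) : thw x = 0 := by
  rw [thw, Real.smoothTransition.zero_of_nonpos (by linarith), zero_mul, ofReal_zero]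

theorem thw_one {x : ℝ} (h : 1 / 200 ≤ x) (h' : x ≤ 2) : thw x = 1 := by
  rw [thw, Real.smoothTransition.one_of_one_le (by linarith),
    Real.smoothTransition.one_of_one_le (by linarith), one_mul, ofReal_one]

theorem norm_thw_sub (x : ℝ) : ‖thw x - 1‖ ≤ 1 := by
  have h1 := Real.smoothTransition.nonneg ((200 * x + 1) / 2)
  have h2 := Real.smoothTransition.nonneg (3 - x)
  have h3 := mul_le_one₀ (Real.smoothTransition.le_one ((200 * x + 1) / 2)) h2
    (Real.smoothTransition.le_one (3 - x))
  rw [thw, ← ofReal_one, ← ofReal_sub, norm_real, Real.norm_eq_abs, abs_le]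
  constructor <;> linarith [mul_nonneg h1 h2]

theorem eta_eq_thw {L v : ℝ} (hL : 0 < L) (h : v ≤ 2 * L) : (eta (L / 200) v : ℂ) = thw (v / L) := by
  have h1 : v / L ≤ 2 := (div_le_iff₀ hL).2 h
  have h2 : v / (L / 200) = 200 * (v / L) := by field_simp
  rw [thw, Real.smoothTransition.one_of_one_le (x := 3 - v / L) (by linarith), mul_one, eta, h2]

theorem zeta_int_eta (W c : ℝ) : Integrable fun g => gam g * eta W (g - c) :=
  integrable_gam.mono' (continuous_gam.mul ((continuous_eta W).comp (by fun_prop))).aestronglyMeasurable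
    (Filter.Eventually.of_forall fun g => by
      rw [Real.norm_of_nonneg (mul_nonneg (gam_nonneg g) (eta_mem W _).1)]
      exact mul_le_of_le_one_right (gam_nonneg g) (eta_mem W _).2)

/-- `eta W (g - y)` vanishes for `g ≤ y - W`, so `EW W y ≤ EE (y - W)`; `mww_le`. -/
theorem EW_mem {W : ℝ} (hW : 0 < W) (y : ℝ) :
    0 ≤ EW W y ∧ EW W y ≤ 2 * Real.exp (2 * W) * Real.exp (-2 * y) := by
  refine ⟨integral_nonneg fun g => mul_nonneg (gam_nonneg g) (eta_mem W _).1, ?_⟩
  have h1 : EW W y ≤ EE (y - W) := by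
    rw [← integral_gam_Ioi, ← integral_indicator measurableSet_Ioi]
    refine integral_mono (zeta_int_eta W y) (integrable_gam.indicator measurableSet_Ioi) fun g => ?_
    by_cases hg : g ∈ Set.Ioi (y - W)
    · rw [Set.indicator_of_mem hg]
      exact mul_le_of_le_one_right (gam_nonneg g) (eta_mem W _).2
    · rw [Set.indicator_of_notMem hg]
      exact le_of_eq (by
        rw [eta_zero hW (by linarith [not_lt.1 (Set.mem_Ioi.not.1 hg)]), mul_zero])
  refine h1.trans ((mww_le 2 (y - W)).trans_eq ?_)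
  rw [mul_assoc, ← Real.exp_add]
  congr 2
  push_cast
  ring

theorem zeta_cont (D : Data) (x : ℕ → ℝ) {W : ℝ} (hW : 0 < W) :
    Continuous fun v => sm D x fun y => (eta W (v - y) : ℂ) := by
  refine continuous_iff_continuousAt.2 fun v₀ => ?_
  have hN : Real.exp (v₀ + 1 + W) < (⌊Real.exp (v₀ + 1 + W)⌋₊ + 1 : ℕ) := by
    push_cast
    exact Nat.lt_floor_add_one _
  have h1 : Continuous fun v => ∑ n ∈ range (⌊Real.exp (v₀ + 1 + W)⌋₊ + 1),
      ((D.lam n * cm x n / √n : ℝ) : ℂ) * (eta W (v - Real.log n) : ℂ) :=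
    continuous_finsetSum _ fun n _ => continuous_const.mul
      (continuous_ofReal.comp ((continuous_eta W).comp (by fun_prop)))
  refine h1.continuousAt.congr ?_
  filter_upwards [gt_mem_nhds (lt_add_one v₀)] with v hv
  exact (sm_eq_sum (V := fun y => (eta W (v - y) : ℂ))
    (fun y hy => by rw [eta_zero hW (by linarith), ofReal_zero]) hN).symm

theorem zeta_EW_decay {W : ℝ} (hW : 0 < W) (t ℒ y : ℝ) : ‖(EW W (y + t - ℒ) : ℂ)‖ ≤
    2 * Real.exp (2 * (W + ℒ - t)) * Real.exp (-2 * y) := by
  rw [norm_real, Real.norm_of_nonneg (EW_mem hW _).1]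
  refine (EW_mem hW _).2.trans_eq ?_
  rw [mul_assoc, mul_assoc, ← Real.exp_add, ← Real.exp_add]
  congr 2
  ring

theorem norm_sm_EW_le (D : Data) {x : ℕ → ℝ} (hx : Adm x) {W : ℝ} (hW : 0 < W) (ℒ : ℝ) {t : ℝ} (ht : 0 ≤ t) :
    ‖sm D x fun y => (EW W (y + t - ℒ) : ℂ)‖ ≤ 8 * Real.exp (2 * (W + ℒ)) := by
  refine (norm_sm_le_decay hx fun y _ => zeta_EW_decay hW t ℒ y).trans ?_
  have := Real.exp_le_exp.2 (show 2 * (W + ℒ - t) ≤ 2 * (W + ℒ) by linarith)
  linarith

/-- `norm_sm_le`. -/
theorem norm_sm_eta_le (D : Data) {x : ℕ → ℝ} (hx : Adm x) {W : ℝ} (hW : 0 < W) (v : ℝ) :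
    ‖sm D x fun y => (eta W (v - y) : ℂ)‖ ≤ 2 * Real.exp (v + W) := by
  have := norm_sm_le (D := D) hx (V := fun y => (eta W (v - y) : ℂ)) (L := v + W) zero_le_one
    (fun y hy => by rw [eta_zero hW (by linarith), ofReal_zero]) fun y => by
      rw [norm_real, Real.norm_of_nonneg (eta_mem W _).1]
      exact (eta_mem W _).2
  rwa [mul_one] at this

/-- `integral_add_right_eq_self`, `hasSum_integral_of_summable_integral_norm` (`summable_sm`, `EW_mem`).
Integrability: the sum is locally finite, hence continuous in `g` (or a pointwise limit of continuous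
functions), and bounded by `norm_sm_eta_le`; `integrable_gam_exp`. -/
theorem sm_EW (D : Data) {x : ℕ → ℝ} (hx : Adm x) {W : ℝ} (hW : 0 < W) (L t ℒ : ℝ) :
    Integrable (fun g => (gam (g + L - ℒ) : ℂ) * sm D x fun y => (eta W (L + g - t - y) : ℂ)) ∧
    sm D x (fun y => (EW W (y + t - ℒ) : ℂ)) =
      ∫ g, (gam (g + L - ℒ) : ℂ) * sm D x fun y => (eta W (L + g - t - y) : ℂ) := by
  have hc : Continuous fun g : ℝ => sm D x fun y => (eta W (L + g - t - y) : ℂ) :=
    (zeta_cont D x hW).comp (f := fun g => L + g - t) (by fun_prop)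
  refine ⟨?_, ?_⟩
  · refine (((integrable_gam_exp.comp_add_right (L - ℒ))).const_mul
      (2 * Real.exp (ℒ - t + W))).mono' ((continuous_ofReal.comp (continuous_gam.comp
        (by fun_prop))).mul hc).aestronglyMeasurable (Filter.Eventually.of_forall fun g => ?_)
    rw [norm_mul, norm_real, Real.norm_of_nonneg (gam_nonneg _)]
    refine (mul_le_mul_of_nonneg_left (norm_sm_eta_le D hx hW _) (gam_nonneg _)).trans_eq ?_
    rw [show L + g - t + W = (ℒ - t + W) + (g + (L - ℒ)) by ring, Real.exp_add, add_sub_assoc]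
    ring
  have h1 : ∀ c : ℝ, Integrable (fun g => gam (g + L - ℒ) * eta W (L + g - t - c)) ∧
      ∫ g, gam (g + L - ℒ) * eta W (L + g - t - c) = EW W (c + t - ℒ) := fun c => by
    have e : (fun g => gam (g + L - ℒ) * eta W (L + g - t - c)) =
        fun g => (fun g => gam g * eta W (g - (c + t - ℒ))) (g + (L - ℒ)) := by
      funext g
      congr 2 <;> ring
    rw [e]
    exact ⟨(zeta_int_eta W _).comp_add_right _,
      integral_add_right_eq_self (fun g => gam g * eta W (g - (c + t - ℒ))) _⟩
  have h2 := hasSum_integral_of_summable_integral_norm (μ := volume)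
    (F := fun (n : ℕ) g => ((D.lam n * cm x n / √n : ℝ) : ℂ) *
      ((gam (g + L - ℒ) * eta W (L + g - t - Real.log n) : ℝ) : ℂ))
    (fun n => (h1 _).1.ofReal.const_mul _) (by
      refine (summable_sm (D := D) hx fun y _ => zeta_EW_decay hW t ℒ y).congr fun n => ?_
      simp only [norm_mul, norm_real]
      rw [integral_const_mul, Real.norm_of_nonneg (EW_mem hW _).1, ← (h1 _).2]
      congr 2
      funext g
      rw [Real.norm_of_nonneg (gam_nonneg _), Real.norm_of_nonneg (eta_mem W _).1])
  simp only [integral_const_mul, integral_complex_ofReal, fun c => (h1 c).2] at h2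
  refine h2.tsum_eq.trans (integral_congr_ae (Filter.Eventually.of_forall fun g => ?_))
  simp only [sm]
  rw [← tsum_mul_left]
  refine tsum_congr fun n => ?_
  push_cast
  ring

/-- `Sm.mul_holo` with `δ = 1 / 4`, the weight `Phi` (`exists_sm`, `Phi_eq_zero`) and `z ↦ (a / z) exp (-a / z)`,
`a = exp (g - c₀)`; on the rectangle `‖1 / z‖ ≤ 4` and `re (1 / z) ≥ 1 / 8`. For `x ≤ 0` both sides vanish. -/
theorem sm_Phg (j m : ℕ) (c₀ : ℝ) : ∃ C : ℝ, 0 ≤ C ∧ ∀ g : ℝ,
    Sm j (1 / 2) 1 (C * min (Real.exp g) (Real.exp (-(m * g)))) (Phg c₀ g) := by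
  obtain ⟨C, hC, h⟩ := Sm.mul_holo j
  obtain ⟨B, hB⟩ := exists_sm (a := 1 / 2) (b := 1) j (ofRealCLM.contDiff.comp msv2_smooth)
    fun y hy => ofReal_eq_zero.2 (Phi_eq_zero (hy.imp le_of_lt le_of_lt))
  have hB0 := hB.nonneg
  obtain ⟨K, hK⟩ : ∃ K : ℝ, K = Real.exp (-(c₀ + 1)) + (m + 1).factorial * Real.exp (m * (c₀ + 1)) :=
    ⟨_, rfl⟩
  have hK0 : 0 ≤ K := by rw [hK]; positivity
  refine ⟨C * B * (4 * Real.exp 1 * K) * 4 ^ j, by positivity, fun g => ?_⟩
  have hg : gam (g - (c₀ + 1)) ≤ K * min (Real.exp g) (Real.exp (-(m * g))) := by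
    obtain ⟨h1, h2⟩ := gam_le m (g - (c₀ + 1))
    rw [sub_eq_add_neg, Real.exp_add, ← sub_eq_add_neg] at h1
    rw [show -(m * (g - (c₀ + 1))) = m * (c₀ + 1) + -(m * g) by ring, Real.exp_add] at h2
    have h3 : 0 ≤ ((m + 1).factorial : ℝ) * Real.exp (m * (c₀ + 1)) * Real.exp g := by positivity
    have h4 : 0 ≤ Real.exp (-(c₀ + 1)) * Real.exp (-(m * g)) := by positivity
    rw [mul_min_of_nonneg _ _ hK0, hK]
    exact le_min (by linarith) (by linarith)
  have ha := Real.exp_pos (g - c₀)
  have k := h (1 / 2) 1 B (4 * Real.exp 1 * K * min (Real.exp g) (Real.exp (-(m * g)))) (1 / 4) _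
    (fun z => (Real.exp (g - c₀) : ℂ) * z⁻¹ * cexp (-((Real.exp (g - c₀) : ℂ) * z⁻¹))) hB
    (by norm_num) (by norm_num) (by positivity) (fun z hz => by
      have hz0 : z ≠ 0 := by
        rintro rfl
        have := hz.1
        norm_num at this
      have h1 : DifferentiableAt ℂ (fun z : ℂ => (Real.exp (g - c₀) : ℂ) * z⁻¹) z :=
        (differentiableAt_inv hz0).const_mul _
      exact (h1.mul h1.neg.cexp).differentiableWithinAt) fun z h1 h2 h3 => by
      have a1 : 1 / 4 ≤ ‖z‖ := le_trans (by linarith) (re_le_norm z)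
      have a2 : ‖z⁻¹‖ ≤ 4 := by
        rw [norm_inv]
        exact inv_le_of_inv_le₀ (by norm_num) (by linarith)
      have a3 : 1 / 2 ≤ (z⁻¹).re := by
        obtain ⟨h4, h5⟩ := abs_lt.1 h3
        rw [inv_re, le_div_iff₀ (normSq_pos.2 (norm_pos_iff.1 (by linarith))), normSq_apply]
        nlinarith
      have a4 : Real.exp (g - c₀) = Real.exp 1 * Real.exp (g - (c₀ + 1)) := by
        rw [← Real.exp_add]
        congr 1
        ring
      have a5 : Real.exp (g - (c₀ + 1)) ≤ Real.exp (g - c₀) * (z⁻¹).re := by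
        have a6 := mul_le_mul_of_nonneg_left a3 ha.le
        have a7 := mul_le_mul_of_nonneg_right (Real.add_one_le_exp 1) (Real.exp_pos (g - (c₀ + 1))).le
        linarith
      rw [norm_mul, norm_mul, Complex.norm_exp, norm_real, Real.norm_of_nonneg ha.le, neg_re,
        re_ofReal_mul, mul_assoc (4 * Real.exp 1)]
      refine le_trans ?_ (mul_le_mul_of_nonneg_left hg (by positivity))
      refine (mul_le_mul (mul_le_mul_of_nonneg_left a2 ha.le) (Real.exp_le_exp.2 (neg_le_neg a5))
        (Real.exp_pos _).le (by positivity)).trans_eq ?_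
      rw [a4, gam]
      ring
  convert k using 1
  · rw [one_div, inv_pow, div_inv_eq_mul]
    ring
  · funext y
    rcases le_or_gt y 0 with hy | hy
    · simp [Phg, Phi_eq_zero (Or.inl (by linarith : y ≤ 1 / 2))]
    · have e : Real.exp (g - Real.log y - c₀) = Real.exp (g - c₀) * y⁻¹ := by
        rw [sub_right_comm, Real.exp_sub (g - c₀), Real.exp_log hy, div_eq_mul_inv]
      simp only [Phg, gam, e, ofReal_mul, ofReal_exp, ofReal_neg, ofReal_inv, Function.comp_apply,
        ofRealCLM_apply]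

/-- Fubini (`integral_integral_swap`, `Integrable.integral_prod_left`); integrability on the product by
`integrable_prod_iff'` or by the bound `Phi x * gam (g - log x - c₀) ≤ 1_{[1/2, 1]} x * C exp (-|g|)`. -/
theorem integral_Phg (c₀ : ℝ) : Integrable (fun g => ∫ x, Phg c₀ g x) ∧
    ∫ g, ∫ x, Phg c₀ g x = ((∫ x, Phi x : ℝ) : ℂ) := by
  have h1 : ∀ x : ℝ, Integrable (fun g => Phi x * gam (g - Real.log x - c₀)) ∧
      ∫ g, Phi x * gam (g - Real.log x - c₀) = Phi x := fun x => by
    simp only [sub_sub]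
    exact ⟨(integrable_gam.comp_sub_right _).const_mul _, by
      rw [integral_const_mul, integral_sub_right_eq_self gam, integral_gam, mul_one]⟩
  have hP : Integrable Phi := msv2_smooth.continuous.integrable_of_hasCompactSupport
    (HasCompactSupport.intro (isCompact_Icc (a := 1 / 2) (b := 1)) fun y hy => Phi_eq_zero
      (((tsm_cases (1 / 2) 1 y).resolve_left hy).imp le_of_lt le_of_lt))
  have hm : Measurable fun p : ℝ × ℝ => Phg c₀ p.1 p.2 :=
    measurable_ofReal.comp ((msv2_smooth.continuous.measurable.comp measurable_snd).mul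
      (continuous_gam.measurable.comp
        ((measurable_fst.sub (Real.measurable_log.comp measurable_snd)).sub measurable_const)))
  have h2 : Integrable (Function.uncurry fun g x => Phg c₀ g x) (volume.prod volume) := by
    refine (integrable_prod_iff' hm.aestronglyMeasurable).2
      ⟨Filter.Eventually.of_forall fun x => (h1 x).1.ofReal, hP.congr
        (Filter.Eventually.of_forall fun x => ?_)⟩
    refine (h1 x).2.symm.trans (integral_congr_ae (Filter.Eventually.of_forall fun g => ?_))
    simp only [Phg]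
    rw [norm_real, Real.norm_of_nonneg (mul_nonneg (Phi_mem x).1 (gam_nonneg _))]
  refine ⟨h2.integral_prod_left, ?_⟩
  rw [integral_integral_swap h2, ← integral_complex_ofReal]
  refine integral_congr_ae (Filter.Eventually.of_forall fun x => ?_)
  simp only [Phg]
  rw [integral_complex_ofReal, (h1 x).2]

end Pool.Agent.Lib.MP_03e5d0_nt
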