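import Pool.Agent.Lib.MP_03e5d0_nt.ZSv

set_option autoImplicit false

noncomputable section

namespace Pool.Agent.Lib.MP_03e5d0_nt

open Complex Finset MeasureTheory
open scoped NumberTheorySymbols Real ContDiff

/-! Transfer of the first moment to the random model, for sums slightly longer than the family. -/

theorem ztr3_large {b K : ℝ} (hb : 0 < b) (hK : 0 ≤ K) : ∃ L₀ : ℝ, ∀ L, L₀ ≤ L →
    2 ≤ L ∧ 2 ≤ Real.exp (b * L) ∧ K * L ^ 5 ≤ Real.exp (b * L) := by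
  refine ⟨max (max 2 (1 / b)) (720 * K / b ^ 6), fun L hL => ?_⟩
  have h0 : 2 ≤ L := ((le_max_left _ _).trans (le_max_left _ _)).trans hL
  have h1 : 1 / b ≤ L := ((le_max_right _ _).trans (le_max_left _ _)).trans hL
  have h2 : 720 * K / b ^ 6 ≤ L := (le_max_right _ _).trans hL
  have h00 : 0 ≤ L := by linarith
  rw [div_le_iff₀ hb] at h1
  rw [div_le_iff₀ (by positivity)] at h2
  refine ⟨h0, ?_, ?_⟩
  · have := Real.add_one_le_exp (b * L)
    linarith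
  · have h3 := Real.pow_div_factorial_le_exp (b * L) (by positivity) 6
    refine le_trans ?_ h3
    rw [show ((6 : ℕ).factorial : ℝ) = 720 by norm_num [Nat.factorial], le_div_iff₀ (by norm_num)]
    have h4 := mul_le_mul_of_nonneg_right h2 (pow_nonneg h00 5)
    calc K * L ^ 5 * 720 = 720 * K * L ^ 5 := by ring
      _ ≤ L * b ^ 6 * L ^ 5 := h4
      _ = (b * L) ^ 6 := by ring

theorem ztr3_sign {j : ℕ} {B : ℝ} {Φ : ℝ → ℂ} (h : Sm j (1 / 2) 1 B Φ) {s : ℤ} (hs : s = 1 ∨ s = -1) :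
    Sm j (-1) 1 B (fun y => Φ (s * y)) ∧ ∫ y, Φ (s * y) = ∫ y, Φ y := by
  rcases hs with rfl | rfl
  · simp only [Int.cast_one, one_mul]
    exact ⟨h.mono le_rfl (by norm_num) le_rfl le_rfl, trivial⟩
  · simp only [Int.cast_neg, Int.cast_one, neg_mul, one_mul]
    exact ⟨h.neg_arg.mono le_rfl le_rfl (by norm_num) le_rfl, integral_neg_eq_self _ _⟩

theorem ztr3_ll {u L l Z : ℝ} (hu : 2 ≤ u) (hL : 2 ≤ L) (hX : Real.exp L = u ^ 200) (hl0 : 0 ≤ l)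
    (hl : l ≤ u ^ 2) (hZ0 : 0 ≤ Z) (hZ : Z ≤ 2 * u ^ 10) :
    ll (1 + u ^ 202 * Real.exp 1 * (l * Z ^ 4) / u ^ 200) ^ 2 ≤ 4 * L ^ 2 := by
  have hu0 : 0 < u := by linarith
  have hu1 : 1 ≤ u := by linarith
  have he : Real.exp 1 ≤ 3 := (Real.exp_one_lt_d9.trans (by norm_num)).le
  have h1 : u ^ 202 * Real.exp 1 * (l * Z ^ 4) / u ^ 200 ≤
      u ^ 202 * 3 * (u ^ 2 * (2 * u ^ 10) ^ 4) / u ^ 200 := by gcongr
  have h2 : u ^ 202 * 3 * (u ^ 2 * (2 * u ^ 10) ^ 4) / u ^ 200 = 48 * u ^ 44 := by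
    field_simp
    ring
  have h3 : (64 : ℝ) ≤ u ^ 156 := by
    refine le_trans ?_ (pow_le_pow_right₀ hu1 (show 6 ≤ 156 by norm_num))
    exact le_trans (by norm_num) (pow_le_pow_left₀ (by norm_num) hu 6)
  have h4 : 1 ≤ u ^ 44 := one_le_pow₀ hu1
  have h5 : 64 * u ^ 44 ≤ u ^ 200 := by
    rw [show u ^ 200 = u ^ 156 * u ^ 44 by ring]
    exact mul_le_mul_of_nonneg_right h3 (by positivity)
  have h6 : 1 ≤ 1 + u ^ 202 * Real.exp 1 * (l * Z ^ 4) / u ^ 200 :=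
    le_add_of_nonneg_right (div_nonneg (mul_nonneg (mul_nonneg (pow_nonneg hu0.le _) (Real.exp_pos _).le)
      (mul_nonneg hl0 (pow_nonneg hZ0 _))) (pow_nonneg hu0.le _))
  have h7 := ll_mono h6 (show _ ≤ Real.exp L by rw [hX]; linarith)
  have h8 : ll (Real.exp L) ≤ 2 * L := by
    rw [ll, Real.log_exp]
    have := Real.log_le_sub_one_of_pos (show 0 < 1 + L by linarith)
    linarith
  calc _ ≤ (2 * L) ^ 2 := pow_le_pow_left₀ (zero_le_one.trans (one_le_ll h6)) (h7.trans h8) 2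
    _ = 4 * L ^ 2 := by ring

/-- Compare `trans1`. `cq = mu0 D * ms D.q`, `L = log X`, `Z = ⌈exp (L / 20)⌉₊ ≤ 2 exp (L / 20)`,
`N = ⌊exp (1.01 L)⌋₊ + 1`, weight `y ↦ Φ (s y)` (`Sm.mono`, `Sm.neg_arg`, `integral_neg_eq_self`).
`fam2_sub_mulo` with `sum_nu_sq` (`ε = 1 / 200`), `Poly.abs_le`, and `allm_sm_le` at `X₁ = exp (1.01 L)`
(`nrm_subset`): exponent `0.9925`. `mtr1_list` and `sv_mono` with `sum_rho` (`ε = 1 / 100`): exponents `0.9701` and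
`0.885`; the argument of `ll` is at most `X`, and `ll X ≤ 1 + L`. -/
theorem trans3 (D : Data) (hFE : D.FE) (hPS : D.PS) : ∃ (cq : ℝ) (j : ℕ) (X₀ : ℝ), 0 < cq ∧
    ∀ (X Y B BΦ Λ : ℝ) (s : ℤ) (f : (ℕ → ℝ) → ℝ) (V Φ : ℝ → ℂ), X₀ ≤ X → (s = 1 ∨ s = -1) → Poly D Y f →
    Y ≤ Real.exp (Real.log X / 100) → ContDiff ℝ ∞ V → (∀ i ≤ j, ∀ y, ‖iteratedDeriv i V y‖ ≤ B) →
    (∀ y, 101 / 100 * Real.log X < y → V y = 0) → Sm j (1 / 2) 1 BΦ Φ → 2 * Real.log X ≤ Λ →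
    ‖∑ d ∈ fam2 D s X, Φ (s * d / X) * ((f (jac d) : ℂ) * sm D (jac d) V) -
      ((cq * X : ℝ) : ℂ) * (∫ y, Φ y) * Ex (pr D Λ) dl1 fun x => (f x : ℂ) * sm D x V‖ ≤
      BΦ * B * X / Real.log X ^ 3 := by
  classical
  obtain ⟨j₁, C, hC, hs⟩ := sv_mono D hFE hPS
  obtain ⟨j₂, C₃, hC₃, h3⟩ := allm_sm_le D hFE hPS
  obtain ⟨C₁, hC₁, h1⟩ := sum_nu_sq (1 / 100) (by positivity)
  obtain ⟨C₂, hC₂, h2⟩ := sum_rho (1 / 200) (by positivity)
  obtain ⟨L₀, hL⟩ := ztr3_large (b := 1 / 200) (K := 2 * √C₁ * C₃ + 2 * C₂ + 512 * C)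
    (by positivity) (by positivity)
  refine ⟨mu0 D * ms D.q, max j₁ j₂, Real.exp L₀, mul_pos (mu0_mem D).1 (ms_pos _),
    fun X Y B BΦ Λ s f V Φ hX hsg hf hY hV hB hV0 hΦ hΛ => ?_⟩
  have hX0 : 0 < X := (Real.exp_pos _).trans_le hX
  obtain ⟨hL2, hu2, huK⟩ := hL (Real.log X) ((Real.le_log_iff_exp_le hX0).2 hX)
  obtain ⟨L, rfl⟩ : ∃ L, X = Real.exp L := ⟨_, (Real.exp_log hX0).symm⟩
  rw [Real.log_exp] at hL2 hu2 huK hY hV0 hΛ ⊢
  have hB0 : 0 ≤ B := (norm_nonneg _).trans (hB 0 (Nat.zero_le _) 0)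
  have hBΦ : 0 ≤ BΦ := hΦ.nonneg
  set X := Real.exp L with hXL
  set u := Real.exp (1 / 200 * L) with hu
  have hL0 : 0 < L := by linarith
  have hX1 : 1 ≤ X := Real.one_le_exp hL0.le
  have hu0 : 0 < u := Real.exp_pos _
  have hu1 : 1 ≤ u := by linarith
  have hpow : ∀ (k : ℕ) (t : ℝ), t = k * (1 / 200 * L) → Real.exp t = u ^ k := fun k t ht => by
    rw [ht, Real.exp_nat_mul]
  have hXu : X = u ^ 200 := hpow 200 L (by push_cast; ring)
  have hY2 : Y ≤ u ^ 2 := hY.trans (hpow 2 _ (by push_cast; ring)).le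
  have hLt : Real.exp (101 / 100 * L) = u ^ 202 := hpow 202 _ (by push_cast; ring)
  have hLt2 : Real.exp (101 / 100 * L / 2) = u ^ 101 := hpow 101 _ (by push_cast; ring)
  have h400 : Real.exp (2 * L) = u ^ 400 := hpow 400 _ (by push_cast; ring)
  have hr1 : X ^ (1 + 1 / 100 : ℝ) = u ^ 202 := by
    rw [hXL, ← Real.exp_mul]
    exact hpow 202 _ (by push_cast; ring)
  have hr2 : (u ^ 400) ^ (1 / 200 : ℝ) = u ^ 2 := by
    rw [← h400, ← Real.exp_mul]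
    exact hpow 2 _ (by push_cast; ring)
  obtain ⟨Z, hZ1, hZ2⟩ : ∃ Z : ℕ, u ^ 10 ≤ Z ∧ (Z : ℝ) ≤ 2 * u ^ 10 :=
    ⟨⌈u ^ 10⌉₊, Nat.le_ceil _, (Nat.ceil_lt_add_one (by positivity)).le.trans
      (by linarith [one_le_pow₀ (n := 10) hu1])⟩
  have hZ0 : 1 ≤ Z := by exact_mod_cast (one_le_pow₀ (n := 10) hu1).trans hZ1
  obtain ⟨N, hN1, hN2⟩ : ∃ N : ℕ, u ^ 202 < N ∧ (N : ℝ) ≤ 2 * u ^ 202 := by
    refine ⟨⌊u ^ 202⌋₊ + 1, by push_cast; exact Nat.lt_floor_add_one _, ?_⟩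
    have h4 : 1 ≤ u ^ 202 := one_le_pow₀ hu1
    have h5 := Nat.floor_le (a := u ^ 202) (by positivity)
    push_cast
    linarith
  have hN4 : u ^ 2 * N ≤ u ^ 400 := by
    calc u ^ 2 * N ≤ u ^ 2 * (u * u ^ 202) := by gcongr; exact hN2.trans (by gcongr)
      _ = u ^ 205 := by ring
      _ ≤ u ^ 400 := pow_le_pow_right₀ hu1 (by norm_num)
  have hN5 : (N : ℝ) ≤ u ^ 400 :=
    (le_mul_of_one_le_left (Nat.cast_nonneg _) (one_le_pow₀ hu1)).trans hN4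
  obtain ⟨hΦs, hint⟩ := ztr3_sign hΦ hsg
  have hn : nrm (allm X) (fun m => (f (jac m) : ℂ) * sm D (jac m) V) ≤
      u ^ 2 * (C₃ * B * u ^ 101 * (2 * L ^ 2)) := by
    refine (nrm_le_mul (b := fun m => sm D (jac m) V) (c := u ^ 2) (by positivity)
      fun m _ => ?_).trans (mul_le_mul_of_nonneg_left ?_ (by positivity))
    · rw [norm_mul, norm_real, Real.norm_eq_abs]
      exact mul_le_mul_of_nonneg_right ((hf.abs_le (adm_jac m)).trans hY2) (norm_nonneg _)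
    · have h4 : allm X ⊆ allm (Real.exp (101 / 100 * L)) := fun m hm => by
        rw [mem_allm (by positivity)] at hm ⊢
        exact hm.trans (Real.exp_le_exp.2 (by linarith))
      have h5 : 3 ≤ Real.exp (101 / 100 * L) := by
        have := Real.add_one_le_exp (101 / 100 * L)
        linarith
      have h6 := h3 _ (101 / 100 * L) B V h5 hV (fun i hi => hB i (hi.trans (le_max_right _ _))) hV0
        (Real.log_exp _).ge
      rw [Real.log_exp, ← Real.exp_half, hLt2] at h6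
      refine (nrm_subset h4).trans (h6.trans (mul_le_mul_of_nonneg_left ?_ (by positivity)))
      nlinarith [sq_nonneg L]
  obtain ⟨l, hl1, hl2, hl3⟩ := hf
  have e1 := fam2_sub_mulo D hX0 s Z (Φ := Φ) (B := BΦ) (fun y hy => hΦ.supp y (Or.inl hy))
    hΦ.norm_le fun m => (f (jac m) : ℂ) * sm D (jac m) V
  have e2 := mtr1_list (allm X) (fun d => Φ (s * d / X) * ((cls D d * mulo Z d : ℝ) : ℂ)) (pr D Λ) dl1
    (((mu0 D * ms D.q * X : ℝ) : ℂ) * ∫ y, Φ y) (fun x => sm D x V)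
    (2 * BΦ * B * u ^ 190 * (C₂ * u ^ 2) +
      C * BΦ * B * (u ^ 2) ^ 2 * (2 * u ^ 10) ^ 7 * u ^ 101 * (4 * L ^ 2)) l (by
      intro c hc
      obtain ⟨hc0, hcq', hcY⟩ := hl1 c hc
      have hcu : (c.1 : ℝ) ≤ u ^ 2 := hcY.trans hY2
      have hc1 : (c.1 : ℝ) * N ≤ u ^ 2 * N := mul_le_mul_of_nonneg_right hcu (Nat.cast_nonneg _)
      have hc2 : (0 : ℝ) < c.1 * N := by
        refine mul_pos (by exact_mod_cast Nat.pos_of_ne_zero hc0) (lt_trans ?_ hN1)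
        positivity
      have h4 := hs X (101 / 100 * L) B BΦ Λ c.1 Z N V (fun y => Φ (s * y)) hX0 hc0 hcq' hZ0 hV
        (fun i hi => hB i (hi.trans (le_max_left _ _))) hV0
        (hΦs.mono (le_max_left _ _) le_rfl le_rfl le_rfl) (hLt ▸ hN1)
        (le_trans ((Real.log_le_iff_le_exp hc2).2 (h400 ▸ hc1.trans hN4)) hΛ)
      simp only [← mul_div_assoc] at h4
      rw [hint] at h4
      simp only [mul_div_assoc] at h4 ⊢
      refine h4.trans (add_le_add ?_ ?_)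
      · have h5 := (h2 D c.1 N hc0).trans (mul_le_mul_of_nonneg_left
          (Real.rpow_le_rpow (Nat.cast_nonneg _) hN5 (by positivity)) hC₂)
        rw [hr2] at h5
        have h6 : X / Z ≤ u ^ 190 := by
          rw [div_le_iff₀ (by positivity), hXu, show u ^ 200 = u ^ 190 * u ^ 10 by ring]
          exact mul_le_mul_of_nonneg_left hZ1 (by positivity)
        refine mul_le_mul (mul_le_mul_of_nonneg_left h6 (by positivity)) h5
          (sum_nonneg fun n _ => ?_) (by positivity)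
        exact mul_nonneg (by positivity) (rho_mem dl_dl0 _).1
      · have h5 := ztr3_ll hu2 hL2 hXu (Nat.cast_nonneg c.1) hcu (Nat.cast_nonneg Z) hZ2
        rw [← hLt, ← Real.exp_add, ← hXu] at h5
        simp only [mul_div_assoc] at h5 hLt2
        rw [hLt2]
        gcongr)
  simp only [← hl3] at e2
  have e3 : √(∑ d ∈ allm X, (nu Z d : ℝ) ^ 2) ≤ √C₁ * u ^ 96 := by
    have h4 := h1 X Z hX1 hZ0
    rw [hr1] at h4
    have h5 : C₁ * u ^ 202 / Z ≤ C₁ * (u ^ 96) ^ 2 := by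
      refine (div_le_div_of_nonneg_left (by positivity) (by positivity) hZ1).trans (le_of_eq ?_)
      field_simp
    refine (Real.sqrt_le_sqrt (h4.trans h5)).trans (le_of_eq ?_)
    rw [Real.sqrt_mul hC₁, Real.sqrt_sq (by positivity)]
  have e4 := mul_le_mul_of_nonneg_left
    (mul_le_mul e3 hn (nrm_nonneg _ _) (by positivity)) hBΦ
  have e6 := mul_le_mul_of_nonneg_right (hl2.trans hY2) (show 0 ≤ 2 * BΦ * B * u ^ 190 * (C₂ * u ^ 2) +
      C * BΦ * B * (u ^ 2) ^ 2 * (2 * u ^ 10) ^ 7 * u ^ 101 * (4 * L ^ 2) by positivity)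
  refine (norm_sub_le_norm_sub_add_norm_sub _ _ _).trans
    ((add_le_add (e1.trans e4) (e2.trans e6)).trans ?_)
  have p1 : u ^ 194 ≤ u ^ 199 * L ^ 2 :=
    (pow_le_pow_right₀ hu1 (by norm_num)).trans
      (le_mul_of_one_le_right (by positivity) (one_le_pow₀ (by linarith)))
  have p2 : u ^ 177 ≤ u ^ 199 := pow_le_pow_right₀ hu1 (by norm_num)
  calc _ = BΦ * B * (2 * √C₁ * C₃ * (u ^ 199 * L ^ 2) + 2 * C₂ * u ^ 194 +
        512 * C * (u ^ 177 * L ^ 2)) := by ring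
    _ ≤ BΦ * B * (2 * √C₁ * C₃ * (u ^ 199 * L ^ 2) + 2 * C₂ * (u ^ 199 * L ^ 2) +
        512 * C * (u ^ 199 * L ^ 2)) := by gcongr
    _ = BΦ * B * (u ^ 199 * ((2 * √C₁ * C₃ + 2 * C₂ + 512 * C) * L ^ 5)) / L ^ 3 := by
      field_simp
    _ ≤ BΦ * B * (u ^ 199 * u) / L ^ 3 := by gcongr
    _ = _ := by rw [hXu, ← pow_succ]

end Pool.Agent.Lib.MP_03e5d0_nt
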