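import Pool.Agent.Lib.MP_03e5d0_nt.ZFm
import Pool.Agent.Lib.MP_03e5d0_nt.ZEta
import Pool.Agent.Lib.MP_03e5d0_nt.ZTr3

set_option autoImplicit false

noncomputable section

namespace Pool.Agent.Lib.MP_03e5d0_nt

open Complex Finset MeasureTheory
open scoped NumberTheorySymbols Real ContDiff

/-! The first moment for one shift. -/

/-- `card_allm`, `Poly.abs_le`, `norm_sm_eta_le`. -/
theorem first_triv (D : Data) {X Y B W : ℝ} (hX : 1 ≤ X) (s : ℤ) {f : (ℕ → ℝ) → ℝ} (hf : Poly D Y f)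
    {Φ : ℝ → ℂ} (hΦ : ∀ y, ‖Φ y‖ ≤ B) (hW : 0 < W) (v : ℝ) :
    ‖∑ d ∈ fam2 D s X, Φ (s * d / X) * ((f (jac d) : ℂ) * sm D (jac d) fun y => (eta W (v - y) : ℂ))‖ ≤
      6 * X * B * Y * Real.exp (v + W) := by
  classical
  have hB : 0 ≤ B := (norm_nonneg _).trans (hΦ 0)
  have hY := hf.nonneg
  refine (norm_sum_le _ _).trans ((sum_le_card_nsmul _ _ (B * (Y * (2 * Real.exp (v + W))))
    fun d _ => ?_).trans ?_)
  · rw [norm_mul, norm_mul, norm_real, Real.norm_eq_abs]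
    exact mul_le_mul (hΦ _) (mul_le_mul (hf.abs_le (adm_jac d)) (norm_sm_eta_le D (adm_jac d) hW v)
      (norm_nonneg _) hY) (by positivity) hB
  · have h1 : ((fam2 D s X).card : ℝ) ≤ 3 * X :=
      le_trans (by exact_mod_cast card_filter_le _ _) (card_allm hX)
    rw [nsmul_eq_mul]
    exact (mul_le_mul_of_nonneg_right h1 (by positivity)).trans (le_of_eq (by ring))

/-- If the weight is not one then `t + |g| ≥ L / 2`. -/
theorem thw_approx {L g t : ℝ} (hL : 0 < L) (ht : 0 ≤ t) (hg : g ≤ L / 200) :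
    ‖thw ((L + g - t) / L) - 1‖ ≤ 2 * (t + |g|) / L := by
  by_cases h : 1 / 200 ≤ (L + g - t) / L
  · rw [thw_one h (by rw [div_le_iff₀ hL]; linarith), sub_self, norm_zero]
    positivity
  · refine (norm_thw_sub _).trans ?_
    rw [not_le, div_lt_iff₀ hL] at h
    rw [le_div_iff₀ hL]
    linarith [neg_abs_le g]

/-- `H = cq * H'` with `cq` from `trans3` and `H'` from `first_model`; `Y = exp (24 k₀ n ^ 4 exp (K n)) ≤ exp (L / 100)`
(`poly_QQ` with `e = 1`, `par2_large`); `sm_Phg` with `m = 500`; `‖∫ Phg‖ ≤ BΦ` (`tft_norm_int`).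
For `g ≤ L / 200`: the sum is `pc D x (L + g - t) L thw` (`sm_congr`, `eta_eq_thw`), `trans3` with `Λ = 6 L`
(`Sm.affine`, `thw_zero`), `first_model`, `thw_approx`; `1 / L ^ 3 ≤ C H L ^ (-8 ε)` since `H ≥ cl / L`.
For `g > L / 200`: `first_triv` and `exp (-500 g) exp (g + 1.015 L) ≤ exp (-g) exp (-L)`. -/
theorem first_g (D : Data) (hFE : D.FE) (hPS : D.PS) {k₀ K : ℕ} (hk : 4800000 ≤ k₀) (hK : 1 ≤ K) (c₀ : ℝ) :
    ∃ cl C X₀ : ℝ, 0 < cl ∧ 0 ≤ C ∧ ∀ (X : ℝ) (n : ℕ) (s : ℤ), X₀ ≤ X → Par2 k₀ K X n → (s = 1 ∨ s = -1) →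
    ∃ H : ℝ, cl * Real.log X ^ (-((3 - 2 * √2) / 2 + 2 * ep k₀)) ≤ H ∧ ∀ g t : ℝ, 0 ≤ t →
    ‖∑ d ∈ fam2 D s X, Phg c₀ g (s * d / X) * (qK D k₀ n K d *
        sm D (jac d) fun y => (eta (Real.log X / 200) (Real.log X + g - t - y) : ℂ)) -
      ((X * H : ℝ) : ℂ) * ∫ x, Phg c₀ g x‖ ≤
      C * X * H * Real.log X ^ (-(8 * ep k₀)) * (Real.exp (-|g|) * (1 + t + |g|)) := by
  obtain ⟨cq, j₁, X₁, hcq, T⟩ := trans3 D hFE hPS
  obtain ⟨j₂, cl, C₂, X₂, hcl, hC₂, F⟩ := first_model D hPS hk hK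
  obtain ⟨Bθ, hθ⟩ := sm_thw (j₁ + j₂)
  obtain ⟨CΦ, hCΦ, hΦ⟩ := sm_Phg j₁ 500 c₀
  obtain ⟨X₃, P⟩ := par2_large hk hK 1 (2400 * k₀)
  obtain ⟨e1, e2⟩ := ep_mem hk
  have hθ0 := hθ.nonneg
  refine ⟨cq * cl, CΦ * ((Bθ + 12) * (cq * cl)⁻¹ + C₂ * Bθ + 2), max (max X₁ X₂) (max X₃ 3),
    by positivity, by positivity, fun X n s hX hP hs => ?_⟩
  simp only [max_le_iff] at hX
  obtain ⟨⟨hX1, hX2⟩, hX3, hX4⟩ := hX
  obtain ⟨H, hH, F⟩ := F X n hX2 hP
  obtain ⟨hn, -, hY, -⟩ := P X n hX3 hP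
  have hX0 : 0 < X := by linarith
  have hL : 1 ≤ Real.log X := by
    rw [Real.le_log_iff_exp_le hX0]
    linarith [Real.exp_one_lt_three]
  have hpoly : Poly D (Real.exp (Real.log X / 100)) (QQ D k₀ n 0 K) := by
    have h1 := poly_QQ D k₀ hn K 1
    simp only [pow_one, Nat.cast_one, mul_one] at h1
    exact h1.mono (Real.exp_le_exp.2 (by linarith))
  have T := fun B BΦ V Φ => T X _ B BΦ (6 * Real.log X) s _ V Φ hX1 hs hpoly le_rfl
  set L := Real.log X with hLd
  have hL0 : 0 < L := by linarith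
  have u1 : L⁻¹ ≤ L ^ (-(8 * ep k₀)) := by
    rw [← Real.rpow_neg_one]
    exact Real.rpow_le_rpow_of_exponent_le hL (by linarith)
  have u2 : L⁻¹ ≤ (cq * cl)⁻¹ * (cq * H) := by
    have h1 : L⁻¹ ≤ L ^ (-((3 - 2 * √2) / 2 + 2 * ep k₀)) := by
      rw [← Real.rpow_neg_one]
      exact Real.rpow_le_rpow_of_exponent_le hL (by linarith [Real.one_lt_sqrt_two])
    rw [le_inv_mul_iff₀ (by positivity), mul_assoc]
    exact mul_le_mul_of_nonneg_left ((mul_le_mul_of_nonneg_left h1 hcl.le).trans hH) hcq.le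
  have hH0 : 0 ≤ H := le_trans (by positivity) hH
  refine ⟨cq * H, by rw [mul_assoc]; exact mul_le_mul_of_nonneg_left hH hcq.le, fun g t ht => ?_⟩
  have hΦg := hΦ g
  have i1 : ‖∫ x, Phg c₀ g x‖ ≤ CΦ * min (Real.exp g) (Real.exp (-((500 : ℕ) * g))) := by
    have h1 := tft_norm_int hΦg (Nat.zero_le j₁)
    simp only [iteratedDeriv_zero] at h1
    refine (norm_integral_le_integral_norm _).trans (h1.trans ?_)
    exact mul_le_of_le_one_left hΦg.nonneg (by norm_num)
  set Le := L ^ (-(8 * ep k₀)) with hLe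
  have hLe0 : 0 ≤ Le := by positivity
  set R := (cq * cl)⁻¹ with hR
  have hR0 : 0 ≤ R := by positivity
  have g0 := abs_nonneg g
  by_cases hg : g ≤ L / 200
  · have b1 : CΦ * min (Real.exp g) (Real.exp (-((500 : ℕ) * g))) ≤ CΦ * Real.exp (-|g|) := by
      refine mul_le_mul_of_nonneg_left ?_ hCΦ
      rcases le_total g 0 with h | h
      · rw [abs_of_nonpos h, neg_neg]
        exact min_le_left _ _
      · rw [abs_of_nonneg h]
        exact (min_le_right _ _).trans (Real.exp_le_exp.2 (by push_cast; linarith))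
    obtain ⟨a1, a2⟩ := (hθ.mono (Nat.le_add_right j₁ j₂) le_rfl le_rfl le_rfl).affine (L + g - t) hL
    have t1 := T Bθ _ _ _ a1 a2 (fun y hy => thw_zero (by rw [div_le_iff₀ hL0]; linarith))
      (hΦg.mono le_rfl le_rfl le_rfl b1) (by linarith)
    have t2 := F (L + g - t) Bθ thw (by linarith) (hθ.mono (Nat.le_add_left j₂ j₁) le_rfl le_rfl le_rfl)
    have t3 := thw_approx hL0 ht hg
    have t4 : ∀ x, (sm D x fun y => (eta (L / 200) (L + g - t - y) : ℂ)) =
        sm D x fun y => thw ((L + g - t - y) / L) :=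
      fun x => sm_congr fun y hy => eta_eq_thw hL0 (by linarith)
    simp only [t4, qK]
    simp only [pc] at t2
    have i2 := i1.trans b1
    generalize (∫ x, Phg c₀ g x) = I at *
    generalize Ex (pr D (6 * L)) dl1 (fun x => (QQ D k₀ n 0 K x : ℂ) *
      sm D x fun y => thw ((L + g - t - y) / L)) = E at *
    generalize thw ((L + g - t) / L) = θ at *
    generalize ∑ d ∈ fam2 D s X, Phg c₀ g (s * d / X) * ((QQ D k₀ n 0 K (jac d) : ℂ) *
      sm D (jac d) fun y => thw ((L + g - t - y) / L)) = S at *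
    have e : S - ((X * (cq * H) : ℝ) : ℂ) * I = (S - ((cq * X : ℝ) : ℂ) * I * E) +
        ((cq * X : ℝ) : ℂ) * (I * ((E - H * θ) + H * (θ - 1))) := by
      push_cast
      ring
    have t5 : ‖(E - H * θ) + H * (θ - 1)‖ ≤ C₂ * Bθ * H * Le + H * (2 * (t + |g|) * Le) := by
      refine (norm_add_le _ _).trans (add_le_add t2 ?_)
      rw [norm_mul, norm_real, Real.norm_of_nonneg hH0]
      refine mul_le_mul_of_nonneg_left (t3.trans ?_) hH0
      rw [div_eq_mul_inv]
      gcongr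
    have t6 : (L ^ 3)⁻¹ ≤ R * (cq * H) * Le := by
      calc (L ^ 3)⁻¹ ≤ (L ^ 2)⁻¹ := inv_anti₀ (by positivity) (pow_le_pow_right₀ hL (by norm_num))
        _ = L⁻¹ * L⁻¹ := by rw [sq, mul_inv]
        _ ≤ _ := by gcongr
    rw [e]
    refine (norm_add_le _ _).trans ?_
    rw [norm_mul, norm_mul, norm_real, Real.norm_of_nonneg (by positivity)]
    rw [div_eq_mul_inv] at t1
    calc _ ≤ CΦ * Real.exp (-|g|) * Bθ * X * (R * (cq * H) * Le) +
          cq * X * (CΦ * Real.exp (-|g|) * (C₂ * Bθ * H * Le + H * (2 * (t + |g|) * Le))) := by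
          refine add_le_add (t1.trans ?_) ?_ <;> gcongr
      _ = CΦ * X * (cq * H) * Le * Real.exp (-|g|) * ((Bθ * R + C₂ * Bθ) * 1 + 2 * (t + |g|)) := by ring
      _ ≤ CΦ * X * (cq * H) * Le * Real.exp (-|g|) *
          (((Bθ + 12) * R + C₂ * Bθ) * (1 + t + |g|) + 2 * (1 + t + |g|)) := by
          gcongr <;> linarith
      _ = _ := by ring
  · rw [not_le] at hg
    have hg0 : 0 < g := lt_trans (by positivity) hg
    have b1 : CΦ * min (Real.exp g) (Real.exp (-((500 : ℕ) * g))) ≤ CΦ * Real.exp (-(500 * g)) :=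
      mul_le_mul_of_nonneg_left ((min_le_right _ _).trans (by norm_num)) hCΦ
    have t1 := first_triv D (by linarith : 1 ≤ X) s hpoly
      (fun y => (hΦg.norm_le y).trans b1) (by positivity : 0 < L / 200) (L + g - t)
    have i2 := i1.trans b1
    have x1 : Real.exp (-L) ≤ L⁻¹ := by
      rw [Real.exp_neg]
      exact inv_anti₀ hL0 (by linarith [Real.add_one_le_exp L])
    have x2 : Real.exp (-L) ≤ 2 * (L⁻¹ * L⁻¹) := by
      have h1 := Real.pow_div_factorial_le_exp L hL0.le 2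
      rw [Real.exp_neg]
      refine (inv_anti₀ (by positivity) h1).trans (le_of_eq ?_)
      norm_num [Nat.factorial]
      ring
    have x3 : Real.exp (-(500 * g)) * Real.exp (L / 100) * Real.exp (L + g - t + L / 200) ≤
        Real.exp (-g) * Real.exp (-L) := by
      simp only [← Real.exp_add]
      exact Real.exp_le_exp.2 (by linarith)
    have x4 : Real.exp (-(500 * g)) ≤ Real.exp (-g) * Real.exp (-L) := by
      simp only [← Real.exp_add]
      exact Real.exp_le_exp.2 (by linarith)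
    have x5 : Real.exp (-L) ≤ 2 * (R * (cq * H) * Le) := x2.trans (by gcongr)
    have x6 := x1.trans u1
    simp only [qK]
    refine (norm_sub_le _ _).trans ?_
    rw [norm_mul, norm_real, Real.norm_of_nonneg (by positivity), abs_of_pos hg0]
    calc _ ≤ 6 * X * CΦ * (Real.exp (-(500 * g)) * Real.exp (L / 100) *
          Real.exp (L + g - t + L / 200)) + X * (cq * H) * (CΦ * Real.exp (-(500 * g))) :=
          add_le_add (t1.trans (le_of_eq (by ring))) (by gcongr)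
      _ ≤ 6 * X * CΦ * (Real.exp (-g) * (2 * (R * (cq * H) * Le))) +
          X * (cq * H) * (CΦ * (Real.exp (-g) * Le)) := by
          have y1 := x3.trans (mul_le_mul_of_nonneg_left x5 (Real.exp_pos _).le)
          have y2 := x4.trans (mul_le_mul_of_nonneg_left x6 (Real.exp_pos _).le)
          exact add_le_add (mul_le_mul_of_nonneg_left y1 (by positivity))
            (mul_le_mul_of_nonneg_left (mul_le_mul_of_nonneg_left y2 hCΦ) (by positivity))
      _ = CΦ * X * (cq * H) * Le * Real.exp (-g) * ((12 * R + 1) * 1) := by ring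
      _ ≤ CΦ * X * (cq * H) * Le * Real.exp (-g) *
          (((Bθ + 12) * R + C₂ * Bθ + 2) * (1 + t + g)) := by
          refine mul_le_mul_of_nonneg_left (mul_le_mul ?_ (by linarith) zero_le_one (by positivity))
            (by positivity)
          linarith [mul_nonneg hθ0 hR0, mul_nonneg hC₂ hθ0]
      _ = _ := by ring

end Pool.Agent.Lib.MP_03e5d0_nt
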