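import Pool.Agent.Lib.MP_03e5d0_nt.ZF1

set_option autoImplicit false

noncomputable section

namespace Pool.Agent.Lib.MP_03e5d0_nt

open Complex Finset MeasureTheory
open scoped NumberTheorySymbols Real ContDiff

/-! The first moment of the central value. -/

theorem integrable_exp_abs : Integrable (fun g : ℝ => Real.exp (-|g|) * (1 + |g|)) := by
  refine (integrable_inv_sq.const_mul (6 * Real.exp 1)).mono' (by fun_prop) (ae_of_all _ fun g => ?_)
  have h0 : 0 < 1 + |g| := by positivity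
  have h1 := Real.pow_div_factorial_le_exp (1 + |g|) h0.le 3
  rw [Real.exp_add, div_le_iff₀ (by positivity)] at h1
  have h2 : Real.exp (-|g|) * Real.exp |g| = 1 := by rw [← Real.exp_add, neg_add_cancel, Real.exp_zero]
  have h3 := mul_le_mul_of_nonneg_left h1 (Real.exp_pos (-|g|)).le
  rw [Real.norm_of_nonneg (by positivity), mul_one_div, le_div_iff₀ (by positivity)]
  calc Real.exp (-|g|) * (1 + |g|) * (1 + |g|) ^ 2 = Real.exp (-|g|) * (1 + |g|) ^ 3 := by ring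
    _ ≤ _ := h3
    _ = 6 * Real.exp 1 * (Real.exp (-|g|) * Real.exp |g|) := by norm_num [Nat.factorial]; ring
    _ = _ := by rw [h2, mul_one]

/-- `sm_EW` with `L = log X`; `Phi (s d / X) * gam (g + L - ℒ d) = Phg c₀ g (s d / X)` as `s d > 0`;
`integral_finsetSum`, `integral_Phg`, `first_g`, `norm_integral_le_of_norm_le`; `1 + t + |g| ≤ (1 + t) (1 + |g|)`.
The new `H` is `H * ∫ Phi` (`integral_Phi`). -/
theorem first_t (D : Data) (hFE : D.FE) (hPS : D.PS) {k₀ K : ℕ} (hk : 4800000 ≤ k₀) (hK : 1 ≤ K) (c₀ : ℝ) :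
    ∃ cl C X₀ : ℝ, 0 < cl ∧ 0 ≤ C ∧ ∀ (X : ℝ) (n : ℕ) (s : ℤ) (ℒ : ℤ → ℝ), X₀ ≤ X → Par2 k₀ K X n →
    (s = 1 ∨ s = -1) → (∀ d ∈ fam2 D s X, ℒ d = Real.log (s * d) + c₀) →
    ∃ H : ℝ, cl * Real.log X ^ (-((3 - 2 * √2) / 2 + 2 * ep k₀)) ≤ H ∧ ∀ t : ℝ, 0 ≤ t →
    ‖∑ d ∈ fam2 D s X, (Phi (s * d / X) : ℂ) * (qK D k₀ n K d *
        sm D (jac d) fun y => (EW (Real.log X / 200) (y + t - ℒ d) : ℂ)) - ((X * H : ℝ) : ℂ)‖ ≤
      C * X * H * Real.log X ^ (-(8 * ep k₀)) * (1 + t) := by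
  obtain ⟨cl, C, X₀, hcl, hC, h⟩ := first_g D hFE hPS hk hK c₀
  obtain ⟨hP, -⟩ := integral_Phi
  obtain ⟨iP, eP⟩ := integral_Phg c₀
  have hK₀ : 0 ≤ ∫ g : ℝ, Real.exp (-|g|) * (1 + |g|) := integral_nonneg fun g => by positivity
  refine ⟨cl * ∫ y, Phi y, C * (∫ g : ℝ, Real.exp (-|g|) * (1 + |g|)) / ∫ y, Phi y, max X₀ 2,
    by positivity, by positivity, fun X n s ℒ hX hpar hs hℒ => ?_⟩
  obtain ⟨H, hH, h⟩ := h X n s ((le_max_left _ _).trans hX) hpar hs
  have hX2 : 2 ≤ X := (le_max_right _ _).trans hX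
  have hL : 0 < Real.log X := Real.log_pos (by linarith)
  have hX0 : 0 < X := by linarith
  have hH0 : 0 ≤ H := le_trans (by positivity) hH
  refine ⟨H * ∫ y, Phi y, (le_of_eq (by ring)).trans (mul_le_mul_of_nonneg_right hH hP.le), fun t ht => ?_⟩
  have hW : 0 < Real.log X / 200 := by positivity
  have e1 : ∀ d ∈ fam2 D s X, ∀ g : ℝ, Phg c₀ g (s * d / X) * (qK D k₀ n K d *
      sm D (jac d) fun y => (eta (Real.log X / 200) (Real.log X + g - t - y) : ℂ)) =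
      (Phi (s * d / X) : ℂ) * (qK D k₀ n K d * ((gam (g + Real.log X - ℒ d) : ℂ) *
        sm D (jac d) fun y => (eta (Real.log X / 200) (Real.log X + g - t - y) : ℂ))) := fun d hd g => by
    have h1 : X / 2 ≤ ((s * d : ℤ) : ℝ) := by
      classical
      rw [fam2, mem_filter] at hd
      exact hd.2.2
    rw [Int.cast_mul] at h1
    rw [Phg, hℒ d hd, Real.log_div (by linarith) hX0.ne',
      show g - (Real.log (s * d) - Real.log X) - c₀ = g + Real.log X - (Real.log (s * d) + c₀) by ring]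
    push_cast
    ring
  have i1 : ∀ d ∈ fam2 D s X, Integrable fun g : ℝ => Phg c₀ g (s * d / X) * (qK D k₀ n K d *
      sm D (jac d) fun y => (eta (Real.log X / 200) (Real.log X + g - t - y) : ℂ)) := fun d hd => by
    simp only [e1 d hd]
    exact ((sm_EW D (adm_jac d) hW (Real.log X) t (ℒ d)).1.const_mul _).const_mul _
  have e2 : ∑ d ∈ fam2 D s X, (Phi (s * d / X) : ℂ) * (qK D k₀ n K d *
        sm D (jac d) fun y => (EW (Real.log X / 200) (y + t - ℒ d) : ℂ)) =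
      ∫ g : ℝ, ∑ d ∈ fam2 D s X, Phg c₀ g (s * d / X) * (qK D k₀ n K d *
        sm D (jac d) fun y => (eta (Real.log X / 200) (Real.log X + g - t - y) : ℂ)) := by
    rw [integral_finsetSum _ i1]
    refine sum_congr rfl fun d hd => ?_
    simp only [e1 d hd]
    rw [integral_const_mul, integral_const_mul, ← (sm_EW D (adm_jac d) hW (Real.log X) t (ℒ d)).2]
  have e3 : ((X * (H * ∫ y, Phi y) : ℝ) : ℂ) = ∫ g : ℝ, ((X * H : ℝ) : ℂ) * ∫ x, Phg c₀ g x := by
    rw [integral_const_mul, eP]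
    push_cast
    ring
  rw [e2, e3, ← integral_sub (integrable_finsetSum _ i1) (iP.const_mul _)]
  have hq : 0 ≤ C * X * H * Real.log X ^ (-(8 * ep k₀)) := by positivity
  refine (norm_integral_le_of_norm_le
    (integrable_exp_abs.const_mul (C * X * H * Real.log X ^ (-(8 * ep k₀)) * (1 + t)))
    (ae_of_all _ fun g => (h g t ht).trans ?_)).trans (le_of_eq ?_)
  · rw [mul_assoc _ (1 + t)]
    refine mul_le_mul_of_nonneg_left ?_ hq
    rw [mul_left_comm]
    refine mul_le_mul_of_nonneg_left ?_ (Real.exp_pos _).le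
    nlinarith [mul_nonneg ht (abs_nonneg g)]
  · rw [integral_const_mul]
    field_simp

/-- As `first_moment`: exchange the finite sum and the series (`norm_sm_EW_le`); `1 ≤ ∑ κ n`, and
`C L ^ (-8 ε) ∑ |κ n| (1 + log n) ≤ 1 / 2` for large `X`. -/
theorem first0 (D : Data) (hFE : D.FE) (hPS : D.PS) {κ : ℕ → ℝ} (hκ : Kap κ) {k₀ K : ℕ} (hk : 4800000 ≤ k₀)
    (hK : 1 ≤ K) (c₀ : ℝ) : ∃ cl X₀ : ℝ, 0 < cl ∧ ∀ (X : ℝ) (n : ℕ) (s : ℤ) (ℒ : ℤ → ℝ), X₀ ≤ X →
    Par2 k₀ K X n → (s = 1 ∨ s = -1) → (∀ d ∈ fam2 D s X, ℒ d = Real.log (s * d) + c₀) →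
    cl * X * Real.log X ^ (-((3 - 2 * √2) / 2 + 2 * ep k₀)) ≤
      ‖∑ d ∈ fam2 D s X, (Phi (s * d / X) : ℂ) *
        (qK D k₀ n K d * Lw D κ (Real.log X / 200) (jac d) (ℒ d))‖ := by
  obtain ⟨cl, C, X₀, hcl, hC, h⟩ := first_t D hFE hPS hk hK c₀
  have hl : ∀ n : ℕ, 0 ≤ Real.log n := fun n => Real.log_natCast_nonneg n
  have hK' : 0 ≤ ∑' n : ℕ, |κ n| * (1 + Real.log n) :=
    tsum_nonneg fun n => mul_nonneg (abs_nonneg _) (by linarith [hl n])
  have hε : 0 < 8 * ep k₀ := by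
    have : (0 : ℝ) < k₀ := by exact_mod_cast (show 0 < k₀ by omega)
    rw [ep]
    positivity
  have t1 := ((tendsto_rpow_neg_atTop hε).comp Real.tendsto_log_atTop).const_mul
    (C * ∑' n : ℕ, |κ n| * (1 + Real.log n))
  rw [mul_zero] at t1
  obtain ⟨X₁, hX₁⟩ := Filter.eventually_atTop.1 (t1.eventually (ge_mem_nhds (show (0 : ℝ) < 1 / 2 by norm_num)))
  refine ⟨cl / 2, max (max X₀ X₁) 2, by positivity, fun X n s ℒ hX hpar hs hℒ => ?_⟩
  obtain ⟨H, hH, h⟩ := h X n s ℒ (((le_max_left _ _).trans (le_max_left _ _)).trans hX) hpar hs hℒ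
  have hsm := hX₁ X (((le_max_right _ _).trans (le_max_left _ _)).trans hX)
  have hX2 : 2 ≤ X := (le_max_right _ _).trans hX
  have hL : 0 < Real.log X := Real.log_pos (by linarith)
  have hX0 : 0 < X := by linarith
  simp only [Function.comp_apply] at hsm
  generalize Real.log X = L at *
  have hW : 0 < L / 200 := by positivity
  have hH0 : 0 ≤ H := le_trans (by positivity) hH
  have hs1 : Summable fun n => |κ n| := hκ.summ.of_nonneg_of_le (fun n => abs_nonneg _)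
    fun n => le_mul_of_one_le_right (abs_nonneg _) (by linarith [hl n])
  have hs2 : Summable κ := hs1.of_abs
  have hs3 : ∀ d : ℤ, Summable fun m : ℕ => (κ m : ℂ) *
      sm D (jac d) fun y => (EW (L / 200) (y + Real.log m - ℒ d) : ℂ) := by
    intro d
    refine (hs1.mul_right (8 * Real.exp (2 * (L / 200 + ℒ d)))).of_norm_bounded fun m => ?_
    rw [norm_mul, norm_real, Real.norm_eq_abs]
    exact mul_le_mul_of_nonneg_left (norm_sm_EW_le D (adm_jac d) hW (ℒ d) (hl m)) (abs_nonneg _)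
  set S : ℕ → ℂ := fun m => ∑ d ∈ fam2 D s X, (Phi (s * d / X) : ℂ) *
    (qK D k₀ n K d * sm D (jac d) fun y => (EW (L / 200) (y + Real.log m - ℒ d) : ℂ)) with hS
  have e1 : HasSum (fun m => (κ m : ℂ) * S m)
      (∑ d ∈ fam2 D s X, (Phi (s * d / X) : ℂ) * (qK D k₀ n K d * Lw D κ (L / 200) (jac d) (ℒ d))) := by
    have := hasSum_sum (s := fam2 D s X) fun d _ =>
      (((hs3 d).hasSum.mul_left (qK D k₀ n K d)).mul_left (Phi (s * d / X) : ℂ))
    refine this.congr_fun fun m => ?_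
    rw [hS, mul_sum]
    exact sum_congr rfl fun d _ => by ring
  have e2 : HasSum (fun m => (κ m : ℂ) * ((X * H : ℝ) : ℂ))
      (((∑' m, κ m : ℝ) : ℂ) * ((X * H : ℝ) : ℂ)) := (hasSum_ofReal.2 hs2.hasSum).mul_right _
  have e3 := (e1.sub e2).norm_le_of_bounded
    (hκ.summ.hasSum.mul_left (C * X * H * L ^ (-(8 * ep k₀)))) fun m => by
      rw [← mul_sub, norm_mul, norm_real, Real.norm_eq_abs]
      exact (mul_le_mul_of_nonneg_left (h _ (hl m)) (abs_nonneg _)).trans (le_of_eq (by ring))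
  have h0 : 0 ≤ X * H := by positivity
  have e4 : X * H ≤ ‖((∑' m, κ m : ℝ) : ℂ) * ((X * H : ℝ) : ℂ)‖ := by
    rw [← ofReal_mul, norm_real]
    exact (le_mul_of_one_le_left h0 hκ.one_le).trans (le_abs_self _)
  have e5 := norm_sub_norm_le (((∑' m, κ m : ℝ) : ℂ) * ((X * H : ℝ) : ℂ))
    (∑ d ∈ fam2 D s X, (Phi (s * d / X) : ℂ) * (qK D k₀ n K d * Lw D κ (L / 200) (jac d) (ℒ d)))
  rw [norm_sub_rev] at e5
  have e6 := mul_le_mul_of_nonneg_left hsm h0
  have e7 := mul_le_mul_of_nonneg_left hH hX0.le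
  linarith

end Pool.Agent.Lib.MP_03e5d0_nt
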