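import Pool.Agent.Lib.MP_03e5d0_nt.ZKer
import Pool.Agent.Lib.MP_03e5d0_nt.MPoly

set_option autoImplicit false

noncomputable section

namespace Pool.Agent.Lib.MP_03e5d0_nt

open Complex Finset MeasureTheory
open scoped NumberTheorySymbols Real ContDiff

/-! The caps as Dirichlet polynomials, and the parameters. -/

theorem zpoly_const (D : Data) {Y c : ℝ} (h1 : 1 ≤ Y) (h2 : |c| ≤ Y) : Poly D Y fun _ => c := by
  refine ⟨[(1, c)], ?_, by simpa using h2, fun x => by simp [cm_one]⟩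
  simpa using h1

theorem zpoly_geom {n : ℕ} (hn : 1 ≤ n) (a : ℕ) :
    ∑ k ∈ Ico 0 a, Real.exp (((k : ℝ) + 1) * n) ≤ 2 * Real.exp (a * n) := by
  have hn' : (1 : ℝ) ≤ n := by exact_mod_cast hn
  induction a with
  | zero => simp
  | succ a ih =>
    rw [sum_Ico_succ_top (Nat.zero_le a)]
    push_cast
    have h1 : Real.exp (((a : ℝ) + 1) * n) = Real.exp (a * n) * Real.exp n := by
      rw [← Real.exp_add]
      congr 1
      ring
    have h2 := Real.add_one_le_exp (n : ℝ)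
    have h3 := Real.exp_pos ((a : ℝ) * n)
    rw [h1]
    nlinarith

theorem poly_xb (D : Data) (n k : ℕ) : Poly D (Real.exp (2 * Real.exp ((k + 1) * n))) (xb D n k) := by
  have h1 : (((k : ℝ) + 1) * n) + 1 ≤ Real.exp ((k + 1) * n) := Real.add_one_le_exp _
  have hn : (0 : ℝ) ≤ n := Nat.cast_nonneg n
  have hk : (0 : ℝ) ≤ k * n := by positivity
  have h2 : Poly D (Real.exp ((k + 1) * n)) fun _ => -(kk * n) := by
    refine zpoly_const D (by nlinarith) ?_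
    have a1 : (1 : ℝ) ≤ √2 := Real.one_le_sqrt.mpr one_le_two
    have a2 : √2 ≤ (2 : ℝ) := Real.sqrt_le_iff.mpr ⟨zero_le_two, by norm_num⟩
    have a3 : 0 ≤ kk := by unfold kk; linarith
    have a4 : kk ≤ 1 := by unfold kk; linarith
    rw [abs_neg, abs_of_nonneg (mul_nonneg a3 hn)]
    nlinarith
  refine ((poly_PI D (S := zb D n k) sdiff_subset).add h2).mono ?_
  have h3 : (1 : ℝ) ≤ Real.exp ((k + 1) * n) := by nlinarith
  generalize Real.exp ((k + 1) * n) = Λ at *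
  have h4 := Real.add_one_le_exp Λ
  rw [two_mul, Real.exp_add]
  nlinarith

/-- With `y = exp (2 exp ((k + 1) n)) ≥ 2`, `l = n ^ 3`: `∑_{j ≤ l} y ^ (2 j) ≤ (l + 1) y ^ (2 l) ≤ y ^ (3 l)`. -/
theorem poly_cap (D : Data) (k₀ : ℕ) {n : ℕ} (hn : 1 ≤ n) (k : ℕ) :
    Poly D (Real.exp (12 * k₀ * (n : ℝ) ^ 4 * Real.exp ((k + 1) * n)))
      fun x => cap k₀ n (xb D n k x) := by
  have hn' : (1 : ℝ) ≤ n := by exact_mod_cast hn
  have h0 : (1 : ℝ) ≤ Real.exp ((k + 1) * n) := Real.one_le_exp (by positivity)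
  have h2 : 2 ≤ Real.exp (2 * Real.exp ((k + 1) * n)) := by
    linarith [Real.add_one_le_exp (2 * Real.exp ((k + 1) * n))]
  have h1 : Poly D (Real.exp (2 * Real.exp ((k + 1) * n))) fun x => 1 / (400 * n) * xb D n k x :=
    (poly_xb D n k).smul (by
      rw [abs_of_nonneg (by positivity), div_le_one (by positivity)]
      linarith)
  have h3 := mpoly_sum (range (n ^ 3 + 1)) fun i _ =>
    (h1.pow (2 * i)).smul (c := (-1) ^ i / ((2 * i).factorial : ℝ)) (by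
      rw [abs_div, abs_pow, abs_neg, abs_one, one_pow, abs_of_nonneg (by positivity),
        div_le_one (by positivity)]
      exact_mod_cast (2 * i).factorial_pos)
  have h4 : (fun x => cap k₀ n (xb D n k x)) = fun x => (∑ i ∈ range (n ^ 3 + 1),
      (-1) ^ i / ((2 * i).factorial : ℝ) * (1 / (400 * n) * xb D n k x) ^ (2 * i)) ^
        (2 * (k₀ * n)) := by
    funext x
    unfold cap tcos
    congr 1
    refine sum_congr rfl fun i _ => ?_
    rw [show xb D n k x / (400 * n) = 1 / (400 * n) * xb D n k x by ring]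
    ring
  rw [h4]
  have h5 : ∑ i ∈ range (n ^ 3 + 1), Real.exp (2 * Real.exp ((k + 1) * n)) ^ (2 * i) ≤
      Real.exp (2 * Real.exp ((k + 1) * n)) ^ (3 * n ^ 3) := by
    generalize Real.exp (2 * Real.exp ((k + 1) * n)) = y at *
    generalize n ^ 3 = l
    refine (sum_le_card_nsmul _ _ (y ^ (2 * l)) fun i hi => ?_).trans ?_
    · exact pow_le_pow_right₀ (by linarith)
        (Nat.mul_le_mul_left 2 (Nat.lt_succ_iff.mp (mem_range.mp hi)))
    · rw [card_range, nsmul_eq_mul, show 3 * l = l + 2 * l by ring, pow_add]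
      refine mul_le_mul_of_nonneg_right ?_ (by positivity)
      refine le_trans ?_ (pow_le_pow_left₀ zero_le_two h2 l)
      exact_mod_cast Nat.lt_two_pow_self
  refine ((h3.mono h5).pow (2 * (k₀ * n))).mono (le_of_eq ?_)
  rw [← pow_mul, ← Real.exp_nat_mul]
  congr 1
  push_cast
  ring

/-- `∑_{k < a} exp ((k + 1) n) ≤ 2 exp (a n)`. -/
theorem poly_QQ (D : Data) (k₀ : ℕ) {n : ℕ} (hn : 1 ≤ n) (a e : ℕ) :
    Poly D (Real.exp (24 * e * k₀ * (n : ℝ) ^ 4 * Real.exp (a * n))) fun x => QQ D k₀ n 0 a x ^ e := by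
  refine ((Poly.prod (Ico 0 a) fun k _ => poly_cap D k₀ hn k).pow e).mono ?_
  rw [← Real.exp_sum, ← Real.exp_nat_mul, Real.exp_le_exp, ← mul_sum]
  have h1 := mul_le_mul_of_nonneg_left (zpoly_geom hn a)
    (show (0 : ℝ) ≤ e * (12 * k₀ * (n : ℝ) ^ 4) by positivity)
  refine le_of_eq_of_le (by ring) (h1.trans_eq (by ring))

theorem poly_QQ_mom (D : Data) {k₀ n K k : ℕ} (hk₀ : 1 ≤ k₀) (hn : 1 ≤ n) (hk : k < K) :
    Poly D (Real.exp (52 * k₀ * (n : ℝ) ^ 4 * Real.exp (K * n)))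
      fun x => QQ D k₀ n 0 K x ^ 2 * (xb D n k x / (3 * (n : ℝ) ^ 2)) ^ (2 * n ^ 2) := by
  have hn' : (1 : ℝ) ≤ n := by exact_mod_cast hn
  have hk' : (1 : ℝ) ≤ k₀ := by exact_mod_cast hk₀
  have hK : (k : ℝ) + 1 ≤ K := by exact_mod_cast hk
  have hn2 : (1 : ℝ) ≤ (n : ℝ) ^ 2 := one_le_pow₀ hn'
  have h1 : Poly D (Real.exp (2 * Real.exp ((k + 1) * n)))
      fun x => 1 / (3 * (n : ℝ) ^ 2) * xb D n k x :=
    (poly_xb D n k).smul (by
      rw [abs_of_nonneg (by positivity), div_le_one (by positivity)]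
      linarith)
  have h2 := (poly_QQ D k₀ hn K 2).mul (h1.pow (2 * n ^ 2))
  have h3 : (fun x => QQ D k₀ n 0 K x ^ 2 * (xb D n k x / (3 * (n : ℝ) ^ 2)) ^ (2 * n ^ 2)) =
      fun x => QQ D k₀ n 0 K x ^ 2 * (1 / (3 * (n : ℝ) ^ 2) * xb D n k x) ^ (2 * n ^ 2) := by
    funext x
    rw [one_div, inv_mul_eq_div]
  rw [h3]
  refine h2.mono ?_
  rw [← Real.exp_nat_mul, ← Real.exp_add, Real.exp_le_exp]
  have h4 : Real.exp ((k + 1) * n) ≤ Real.exp (K * n) := Real.exp_le_exp.mpr (by gcongr)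
  have h5 : (n : ℝ) ^ 2 ≤ k₀ * (n : ℝ) ^ 4 := by
    calc (n : ℝ) ^ 2 = 1 * ((n : ℝ) ^ 2 * 1) := by ring
      _ ≤ k₀ * ((n : ℝ) ^ 2 * (n : ℝ) ^ 2) := by gcongr
      _ = _ := by ring
  have h6 : (n : ℝ) ^ 2 * Real.exp ((k + 1) * n) ≤ k₀ * (n : ℝ) ^ 4 * Real.exp (K * n) := by
    gcongr
  push_cast
  linarith

theorem ep_mem {k₀ : ℕ} (hk : 4800000 ≤ k₀) : 0 < ep k₀ ∧ ep k₀ ≤ 1 / 60 := by
  have h : (4800000 : ℝ) ≤ k₀ := by exact_mod_cast hk
  unfold ep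
  refine ⟨by positivity, ?_⟩
  rw [div_le_div_iff₀ (by linarith) (by norm_num)]
  linarith

/-- `n = ⌊(1 - 30 ε) log L / K⌋₊`. -/
theorem exists_par2 {k₀ K : ℕ} (hk : 4800000 ≤ k₀) (hK : 1 ≤ K) : ∃ X₀ : ℝ, ∀ X : ℝ, X₀ ≤ X →
    ∃ n : ℕ, Par2 k₀ K X n := by
  obtain ⟨e1, e2⟩ := ep_mem hk
  have hK' : (0 : ℝ) < K := by exact_mod_cast hK
  refine ⟨Real.exp 1, fun X hX => ?_⟩
  have hL : 1 ≤ Real.log X := (Real.le_log_iff_exp_le ((Real.exp_pos 1).trans_le hX)).mpr hX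
  have hl : 0 ≤ Real.log (Real.log X) := Real.log_nonneg hL
  have h0 : 0 ≤ Real.log (Real.log X) * (1 - 30 * ep k₀) / K :=
    div_nonneg (mul_nonneg hl (by linarith)) hK'.le
  refine ⟨⌊Real.log (Real.log X) * (1 - 30 * ep k₀) / K⌋₊, ?_, ?_⟩
  · rw [Real.rpow_def_of_pos (by linarith), Real.exp_le_exp, ← le_div_iff₀' hK']
    exact Nat.floor_le h0
  · rw [Real.rpow_def_of_pos (by linarith), Real.exp_le_exp, ← div_le_iff₀' hK']
    exact (Nat.lt_floor_add_one _).le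

/-- With `L = log X`: `log L / (2 K) - 1 ≤ n ≤ log L`. -/
theorem par2_large {k₀ K : ℕ} (hk : 4800000 ≤ k₀) (hK : 1 ≤ K) (n₀ : ℕ) (A : ℝ) : ∃ X₀ : ℝ,
    ∀ (X : ℝ) (n : ℕ), X₀ ≤ X → Par2 k₀ K X n → n₀ ≤ n ∧ (n : ℝ) ≤ Real.log (Real.log X) ∧
      A * (n : ℝ) ^ 4 * Real.exp (K * n) ≤ Real.log X ∧
      A * Real.exp (K * n - (n : ℝ) ^ 2) ≤ 1 / Real.log X ^ 10 := by
  obtain ⟨e1, e2⟩ := ep_mem hk
  have hK' : (1 : ℝ) ≤ K := by exact_mod_cast hK
  set c := 30 * ep k₀ with hc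
  have c0 : 0 < c := by positivity
  have c1 : c ≤ 1 / 2 := by linarith
  obtain ⟨T, T1, T2, T3, T4⟩ : ∃ T : ℝ, 2 * K * (n₀ + 1) ≤ T ∧ 120 * |A| / c ^ 5 ≤ T ∧
      192 * (K : ℝ) ^ 2 ≤ T ∧ |A| ≤ T := by
    have a1 : (0 : ℝ) ≤ 2 * K * (n₀ + 1) := by positivity
    have a2 : 0 ≤ 120 * |A| / c ^ 5 := by positivity
    have a3 : 0 ≤ 192 * (K : ℝ) ^ 2 := by positivity
    have a4 := abs_nonneg A
    exact ⟨2 * K * (n₀ + 1) + 120 * |A| / c ^ 5 + 192 * (K : ℝ) ^ 2 + |A|, by linarith,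
      by linarith, by linarith, by linarith⟩
  refine ⟨Real.exp (Real.exp T), fun X n hX hP => ?_⟩
  have hL : Real.exp T ≤ Real.log X :=
    (Real.le_log_iff_exp_le ((Real.exp_pos _).trans_le hX)).mpr hX
  have hL0 : 0 < Real.log X := (Real.exp_pos T).trans_le hL
  have hl : T ≤ Real.log (Real.log X) := (Real.le_log_iff_exp_le hL0).mpr hL
  have up := hP.up
  have low := hP.low
  rw [Real.rpow_def_of_pos hL0, Real.exp_le_exp, ← hc] at up low
  have hE : Real.log X = Real.exp (Real.log (Real.log X)) := (Real.exp_log hL0).symm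
  generalize Real.log (Real.log X) = ℓ at *
  have hn : (0 : ℝ) ≤ n := Nat.cast_nonneg n
  have hK2 : (K : ℝ) ≤ (K : ℝ) ^ 2 := by nlinarith
  have l0 : 0 ≤ ℓ := by linarith
  have lc : 0 ≤ ℓ * c := by positivity
  have lc' : ℓ * c ≤ ℓ * (1 / 2) := by gcongr
  have b1 : (K : ℝ) * n ≤ ℓ := by linarith
  have b2 : (n : ℝ) ≤ ℓ := by nlinarith
  have b3 : ℓ ≤ 2 * K * (n + 1) := by linarith
  refine ⟨?_, b2, ?_, ?_⟩
  · have : 2 * (K : ℝ) * (n₀ + 1) ≤ 2 * K * (n + 1) := by linarith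
    have : (n₀ : ℝ) + 1 ≤ n + 1 := le_of_mul_le_mul_left this (by linarith)
    exact_mod_cast (by linarith : (n₀ : ℝ) ≤ n)
  · have a1 := Real.pow_div_factorial_le_exp (ℓ * c) lc 5
    have a2 : 120 * |A| ≤ ℓ * c ^ 5 := by
      rw [← div_le_iff₀ (by positivity)]
      linarith
    have a3 : |A| * ℓ ^ 4 ≤ Real.exp (ℓ * c) := by
      refine le_trans ?_ a1
      rw [le_div_iff₀ (by positivity)]
      calc |A| * ℓ ^ 4 * ((5 : ℕ).factorial : ℝ) = 120 * |A| * ℓ ^ 4 := by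
            norm_num [Nat.factorial]; ring
        _ ≤ ℓ * c ^ 5 * ℓ ^ 4 := by gcongr
        _ = _ := by ring
    calc A * (n : ℝ) ^ 4 * Real.exp (K * n) ≤ |A| * ℓ ^ 4 * Real.exp (ℓ * (1 - c)) := by
          gcongr
          exact le_abs_self A
      _ ≤ Real.exp (ℓ * c) * Real.exp (ℓ * (1 - c)) := by gcongr
      _ = Real.log X := by rw [hE, ← Real.exp_add]; congr 1; ring
  · have a1 : ℓ ≤ 4 * K * n := by nlinarith
    have a2 : 12 * ℓ ≤ (n : ℝ) ^ 2 := by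
      have d1 : ℓ * ℓ ≤ (4 * K * n) * (4 * K * n) := by gcongr
      have d2 : 192 * (K : ℝ) ^ 2 * ℓ ≤ ℓ * ℓ := by gcongr; linarith
      have d3 : (16 * (K : ℝ) ^ 2) * (12 * ℓ) ≤ (16 * (K : ℝ) ^ 2) * (n : ℝ) ^ 2 := by nlinarith
      exact le_of_mul_le_mul_left d3 (by positivity)
    have a3 : A ≤ Real.exp ℓ := by linarith [le_abs_self A, Real.add_one_le_exp ℓ]
    calc A * Real.exp (K * n - (n : ℝ) ^ 2) ≤ Real.exp ℓ * Real.exp (ℓ - 12 * ℓ) := by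
          gcongr
      _ = 1 / Real.log X ^ 10 := by
          rw [hE, ← Real.exp_add, ← Real.exp_nat_mul, one_div, ← Real.exp_neg]
          congr 1
          push_cast
          ring

end Pool.Agent.Lib.MP_03e5d0_nt
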