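import Pool.Agent.Lib.MP_03e5d0_nt.ZOm
import Pool.Agent.Lib.MP_03e5d0_nt.ZPoly

set_option autoImplicit false

noncomputable section

namespace Pool.Agent.Lib.MP_03e5d0_nt

open Complex Finset MeasureTheory
open scoped NumberTheorySymbols Real ContDiff

/-! The first moment in the random model. -/

/-- As `Ex_VV_LP`. -/
theorem Ex_f_LP (D : Data) {f : (ℕ → ℝ) → ℝ} {Z Λ : ℝ} (hf : DependsOn f (pr D Z : Set ℕ)) (hΛ : Z ≤ Λ)
    (α : ℂ) : Ex (pr D Λ) dl1 (fun x => (f x : ℂ) * LP D (pr D Λ) x (1 / 2 + α)) =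
      Om3 D f Z α * Om2 D (pr D Λ \ pr D Z) α := by
  have hs := pr_mono D hΛ
  have h1 : DependsOn (fun x => (f x : ℂ) * LP D (pr D Z) x (1 / 2 + α)) (pr D Z : Set ℕ) := by
    intro x y h
    simp only
    rw [hf h, show LP D (pr D Z) x (1 / 2 + α) = LP D (pr D Z) y (1 / 2 + α) from
      mfm_LP_depends D _ _ h]
  have h2 : DependsOn (fun x => LP D (pr D Λ \ pr D Z) x (1 / 2 + α)) (pr D Z : Set ℕ)ᶜ :=
    (mfm_LP_depends D _ _).mono fun p hp => (Finset.mem_sdiff.1 hp).2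
  have h3 : Ex (pr D Λ) dl1 (fun x => LP D (pr D Λ \ pr D Z) x (1 / 2 + α)) =
      Om2 D (pr D Λ \ pr D Z) α :=
    Ex_prod Finset.sdiff_subset fun p u => lf (D.lam p) u ((p : ℂ) ^ (-(1 / 2 + α)))
  rw [Om3, ← Ex_restrict hs h1, ← h3, ← Ex_indep h1 h2]
  congr 1
  funext x
  rw [mul_assoc, LP, LP, LP, ← Finset.prod_sdiff hs, mul_comm (∏ p ∈ pr D Z, _)]

theorem zfm_diff (D : Data) {k : ℕ} {Z M σ : ℝ} {f : (ℕ → ℝ) → ℝ} (hZ : 1 ≤ Z) (hM : 0 ≤ M) (hσ : 0 ≤ σ)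
    (hσZ : σ * Z ≤ 1) (H : ∀ α : ℂ, -1 ≤ α.re * Z → ‖Om3 D f Z α‖ ≤ M * (1 + ‖α‖ * Z) ^ k) :
    ‖Om3 D f Z σ‖ ≤ 8 * 3 ^ k * M * √Z / √Z ∧ ∀ t : ℝ,
      ‖Om3 D f Z (σ + I * t) - Om3 D f Z σ‖ ≤ 8 * 3 ^ k * M * √Z * |t| * √Z * (1 + |t| * Z) ^ k := by
  have hZ0 : 0 < Z := by linarith
  have h0 : √Z ≠ 0 := (Real.sqrt_pos.2 hZ0).ne'
  refine ⟨?_, fun t => ?_⟩
  · have h1 : 0 ≤ σ * Z := mul_nonneg hσ hZ0.le
    have h3 := H σ (by rw [ofReal_re]; linarith)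
    rw [Complex.norm_real, Real.norm_of_nonneg hσ] at h3
    have h4 : (1 + σ * Z) ^ k ≤ 8 * 3 ^ k :=
      (pow_le_pow_left₀ (by linarith) (show 1 + σ * Z ≤ 3 by linarith) k).trans
        (by linarith [pow_pos (show (0 : ℝ) < 3 by norm_num) k])
    rw [mul_div_cancel_right₀ _ h0, mul_comm]
    exact h3.trans (mul_le_mul_of_nonneg_left h4 hM)
  · have hr : 0 < 1 / (8 * Z) := by positivity
    have hrZ : 1 / (8 * Z) * Z = 1 / 8 := by field_simp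
    have hr1 : 1 / (8 * Z) ≤ 1 / 8 := by nlinarith
    have htZ : 0 ≤ |t| * Z := by positivity
    refine (vert_diff (M := M * (3 * (1 + |t| * Z)) ^ k) hr
      ((Om3_differentiableOn D f Z).mono fun α hα => ?_) fun α h1 h2 => ?_).trans (le_of_eq ?_)
    · simp only [Set.mem_ofPred_eq] at hα ⊢
      linarith
    · obtain ⟨h3, h4⟩ := abs_le.1 h1
      have h5 : |α.re| ≤ σ + 1 / (8 * Z) := abs_le.2 ⟨by linarith, by linarith⟩
      have h6 := mul_le_mul_of_nonneg_right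
        ((norm_le_abs_re_add_abs_im α).trans (add_le_add h5 h2)) hZ0.le
      have h7 := mul_le_mul_of_nonneg_right (show -(1 / (8 * Z)) ≤ α.re by linarith) hZ0.le
      refine (H α (by linarith)).trans
        (mul_le_mul_of_nonneg_left (pow_le_pow_left₀ (by positivity) (by linarith) k) hM)
    · have h4 : √Z ^ 2 = Z := Real.sq_sqrt hZ0.le
      rw [mul_pow]
      field_simp
      rw [h4]

/-- As `fm_main`, with `σ = 1 / (2 L)`, `U = L`, `Λ' = max Λ₀ (6 L)`, `H = H₁ * Om2 σ`. The weight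
`Θ ((L' - y) / L)` vanishes for `y > 6 L`, so `Ex_restrict` (`sm_depends`) replaces `pr D (6 L)` by `pr D Λ'`.
`vert_diff` with `r = 1 / (8 Z)` gives `‖Om3 (σ + i t) - Om3 σ‖ ≤ 8 * 2 ^ k M Z |t| (1 + |t| Z) ^ k`. -/
theorem fm_gen (D : Data) (hPS : D.PS) (k : ℕ) : ∃ (j : ℕ) (cl C : ℝ), 0 < cl ∧ 0 ≤ C ∧
    ∀ (Z L M H₁ : ℝ) (f : (ℕ → ℝ) → ℝ), 1 ≤ Z → Z ≤ L → DependsOn f (pr D Z : Set ℕ) → 0 ≤ H₁ →
    Om3 D f Z ((1 / (2 * L) : ℝ) : ℂ) = H₁ →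
    (∀ α : ℂ, -1 ≤ α.re * Z → ‖Om3 D f Z α‖ ≤ M * (1 + ‖α‖ * Z) ^ k) →
    ∃ H : ℝ, cl * H₁ ≤ H ∧ ∀ (L' B : ℝ) (Θ : ℝ → ℂ), L' ≤ 2 * L → Sm j (-4) 4 B Θ →
    ‖Ex (pr D (6 * L)) dl1 (fun x => (f x : ℂ) * pc D x L' L Θ) - H * Θ (L' / L)‖ ≤ C * B * M * Z / L := by
  obtain ⟨k₂, cl₂, C₂, hcl₂, hC₂, h₂⟩ := om2 D hPS
  obtain ⟨C₃, hC₃, h₃⟩ := pc_rep (k + k₂ + 1 + 2)
  refine ⟨k + k₂ + 1 + 2, cl₂, 2 * (2 * (8 * 3 ^ k) * C₂ * 2 ^ k₂ * C₃), hcl₂, by positivity,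
    fun Z L M H₁ f hZ hL hf p₁ e₁ hb => ?_⟩
  have hL0 : 0 < L := by linarith
  have hσ : 0 < 1 / (2 * L) := by positivity
  have hσ' : ∀ y, y ≤ 2 * L → 1 / (2 * L) * y ≤ 1 := fun y hy => by
    rw [one_div, inv_mul_le_iff₀ (by positivity)]
    linarith
  generalize 1 / (2 * L) = σ at hσ hσ' e₁
  have hM : 0 ≤ M := by
    simpa using (norm_nonneg _).trans (hb 0 (by simp))
  obtain ⟨u₁, d₁⟩ := zfm_diff D hZ hM hσ.le (hσ' Z (by linarith)) hb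
  obtain ⟨Λ₀, h₄⟩ := h₂ Z σ hZ hσ (hσ' Z (by linarith))
  have hΛ : 6 * L ≤ max Λ₀ (6 * L) := le_max_right _ _
  have hZΛ : Z ≤ max Λ₀ (6 * L) := by linarith
  obtain ⟨⟨H₂, e₂, l₂, -⟩, d₂⟩ := h₄ (max Λ₀ (6 * L)) (le_max_left _ _) hZΛ
  generalize max Λ₀ (6 * L) = Λ at hΛ hZΛ e₂ d₂
  refine ⟨H₁ * H₂, ?_, fun L' B Θ hL' hΘ => ?_⟩
  · rw [mul_comm]
    exact mul_le_mul_of_nonneg_left l₂ p₁
  have hB := hΘ.nonneg
  obtain ⟨v, -, hv, hv', hrep⟩ := h₃ (-4) 4 B L' L σ Θ le_rfl le_rfl hΘ (hZ.trans hL) hσ.le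
    (hσ' L (by linarith)) (hσ' L' hL')
  have hP : ∀ p ∈ pr D Λ, p.Prime ∧ ¬p ∣ D.q := fun p hp => ⟨(mem_pr.1 hp).1, (mem_pr.1 hp).2.1⟩
  have hdep : DependsOn (fun x => (f x : ℂ) * pc D x L' L Θ) (pr D (6 * L) : Set ℕ) := by
    intro x y h
    simp only
    rw [hf.mono (pr_mono D (by linarith)) h,
      show pc D x L' L Θ = pc D y L' L Θ from
        sm_depends D (fun y hy => hΘ.supp _ (.inl ((div_lt_iff₀ hL0).2 (by linarith)))) h]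
  have hint : ∀ x, Adm x → Integrable fun t : ℝ => v t *
      ((f x : ℂ) * LP D (pr D Λ) x (1 / 2 + (σ + I * t))) := by
    intro x hx
    refine ((mfm_LP_int hx hP hσ.le hv).const_mul (f x : ℂ)).congr
      (Filter.Eventually.of_forall fun t => ?_)
    simp only
    rw [add_assoc, mul_left_comm]
  have hE : ∀ t : ℝ, Ex (pr D Λ) dl1 (fun x => v t *
      ((f x : ℂ) * LP D (pr D Λ) x (1 / 2 + (σ + I * t)))) =
      v t * (Om3 D f Z (σ + I * t) * Om2 D (pr D Λ \ pr D Z) (σ + I * t)) := fun t => by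
    rw [Ex_mul_left, Ex_f_LP D hf hZΛ]
  have a₁ : Ex (pr D (6 * L)) dl1 (fun x => (f x : ℂ) * pc D x L' L Θ) =
      ∫ t : ℝ, v t * (Om3 D f Z (σ + I * t) * Om2 D (pr D Λ \ pr D Z) (σ + I * t)) := by
    simp only [← hE]
    rw [← Ex_restrict (pr_mono D hΛ) hdep, ← Ex_integral fun x hx _ => hint x hx]
    refine Ex_congr fun x hx h0 => ?_
    rw [pc, sm_eq_LP hx hP h0 hσ.le hv fun y _ => hrep y, ← integral_const_mul]
    congr 1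
    funext t
    rw [add_assoc, mul_left_comm]
  have a₂ : ((H₁ * H₂ : ℝ) : ℂ) * Θ (L' / L) =
      ∫ t : ℝ, v t * (Om3 D f Z σ * Om2 D (pr D Λ \ pr D Z) σ) := by
    have h5 := hrep 0
    simp only [sub_zero, ex_zero, mul_zero, Real.exp_zero, ofReal_one, mul_one] at h5
    rw [integral_mul_const, ← h5, e₁, e₂, mul_comm]
    push_cast
    rfl
  have a₃ := mfm_int (P := pr D Λ) (δ := dl1) hint
  simp only [hE] at a₃
  rw [a₁, a₂, ← integral_sub a₃ (hv.mul_const _)]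
  obtain ⟨i₁, i₂⟩ := integral_scaled hL0
  refine (norm_integral_le_of_norm_le
    (i₁.const_mul (2 * (8 * 3 ^ k) * C₂ * 2 ^ k₂ * C₃ * B * M * Z / L))
    (Filter.Eventually.of_forall fun t => ?_)).trans (le_of_eq ?_)
  · have b₁ := mfm_bd (a := Om3 D f Z σ) (by positivity) hC₂ hZ hL u₁ (d₁ t) (d₂ t).1 (d₂ t).2
    rw [← mul_sub]
    refine (norm_mul_le_of_le (hv' t) b₁).trans (le_of_eq ?_)
    have hw : 0 < 1 + L * |t| := by positivity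
    have h4 : Z = √Z ^ 2 := (Real.sq_sqrt (by linarith)).symm
    generalize √Z = s at h4
    subst h4
    field_simp
    ring
  · rw [integral_const_mul, i₂]
    ring

/-- `om3_low`, `om3_up`, `fm_gen` with `Z = exp (K n) ≤ L ^ (1 - 30 ε) ≤ L`, `QQ_depends`, `par2_large`:
`M ≤ C H exp (22 ε K n) ≤ C H L ^ (22 ε)` and `Z / L ≤ L ^ (-30 ε)`. -/
theorem first_model (D : Data) (hPS : D.PS) {k₀ K : ℕ} (hk : 4800000 ≤ k₀) (hK : 1 ≤ K) :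
    ∃ (j : ℕ) (cl C X₀ : ℝ), 0 < cl ∧ 0 ≤ C ∧ ∀ (X : ℝ) (n : ℕ), X₀ ≤ X → Par2 k₀ K X n →
    ∃ H : ℝ, cl * Real.log X ^ (-((3 - 2 * √2) / 2 + 2 * ep k₀)) ≤ H ∧
    ∀ (L' B : ℝ) (Θ : ℝ → ℂ), L' ≤ 2 * Real.log X → Sm j (-4) 4 B Θ →
    ‖Ex (pr D (6 * Real.log X)) dl1 (fun x => (QQ D k₀ n 0 K x : ℂ) * pc D x L' (Real.log X) Θ) -
      H * Θ (L' / Real.log X)‖ ≤ C * B * H * Real.log X ^ (-(8 * ep k₀)) := by
  obtain ⟨e1, e2⟩ := ep_mem hk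
  obtain ⟨n₁, k, C₁, hC₁, h₁⟩ := om3_up D hPS (k₀ := k₀) (by omega) K
  obtain ⟨n₂, cl₂, hcl₂, h₂⟩ := om3_low D hPS (k₀ := k₀) (by omega) K
  obtain ⟨j, cl₃, C₃, hcl₃, hC₃, h₃⟩ := fm_gen D hPS k
  obtain ⟨X₀, h₄⟩ := par2_large hk hK (n₁ + n₂ + 1) 1
  refine ⟨j, cl₃ * cl₂, C₃ * C₁ / (cl₃ * cl₂), X₀, by positivity, by positivity, fun X n hX hP => ?_⟩
  obtain ⟨b₁, -, b₂, -⟩ := h₄ X n hX hP
  have hu : (0 : ℝ) ≤ K * n := by positivity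
  have hZ : 1 ≤ Real.exp (K * n) := Real.one_le_exp hu
  have hn : (1 : ℝ) ≤ (n : ℝ) ^ 4 := one_le_pow₀ (by exact_mod_cast (show 1 ≤ n by omega))
  have hL : Real.exp (K * n) ≤ Real.log X := by nlinarith
  have hL0 : 0 < Real.log X := by linarith
  have up := hP.up
  generalize Real.log X = L at *
  obtain ⟨H₁, a₁, a₂⟩ := h₂ n (1 / (2 * L)) (by omega) (by positivity) (by
    rw [one_div, inv_mul_le_iff₀ (by positivity)]
    linarith)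
  obtain ⟨H, a₃, a₄⟩ := h₃ _ L _ H₁ _ hZ hL (QQ_depends D k₀ n K) (le_trans (by positivity) a₂) a₁
    fun α hα => h₁ n α (by omega) hα
  have a₅ := (mul_le_mul_of_nonneg_left a₂ hcl₃.le).trans a₃
  have hκ : 0 ≤ (3 - 2 * √2) / 2 := by
    have : √2 ≤ 3 / 2 := Real.sqrt_le_iff.2 (by norm_num)
    linarith
  rw [← Real.le_log_iff_exp_le hL0] at hL
  rw [Real.rpow_def_of_pos hL0, Real.exp_le_exp] at up
  generalize (3 - 2 * √2) / 2 = κ at *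
  generalize (K : ℝ) * n = u at *
  generalize ep k₀ = ε at *
  refine ⟨H, le_trans ?_ a₅, fun L' B Θ hL' hΘ => (a₄ L' B Θ hL' hΘ).trans ?_⟩
  · rw [mul_assoc, Real.rpow_def_of_pos hL0]
    refine mul_le_mul_of_nonneg_left (mul_le_mul_of_nonneg_left (Real.exp_le_exp.2 ?_) hcl₂.le) hcl₃.le
    linarith [mul_le_mul_of_nonneg_left hL (show 0 ≤ κ + 2 * ε by positivity)]
  · have hB := hΘ.nonneg
    have a₆ : Real.exp ((20 * ε - κ) * u) * Real.exp u / L ≤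
        Real.exp ((-2 * ε - κ) * u) * L ^ (-(8 * ε)) := by
      rw [Real.rpow_def_of_pos hL0, div_le_iff₀ hL0, ← Real.exp_add, ← Real.exp_add]
      nth_rewrite 2 [← Real.exp_log hL0]
      rw [← Real.exp_add, Real.exp_le_exp]
      nlinarith [mul_le_mul_of_nonneg_left hL e1.le]
    calc C₃ * B * (C₁ * Real.exp ((20 * ε - κ) * u)) * Real.exp u / L
        = C₃ * C₁ * B * (Real.exp ((20 * ε - κ) * u) * Real.exp u / L) := by ring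
      _ ≤ C₃ * C₁ * B * (Real.exp ((-2 * ε - κ) * u) * L ^ (-(8 * ε))) := by gcongr
      _ = C₃ * C₁ / (cl₃ * cl₂) * B * (cl₃ * (cl₂ * Real.exp ((-2 * ε - κ) * u))) *
          L ^ (-(8 * ε)) := by field_simp
      _ ≤ _ := by gcongr

end Pool.Agent.Lib.MP_03e5d0_nt
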