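import Pool.Agent.Lib.MP_03e5d0_nt.ZBlk
import Pool.Agent.Lib.MP_03e5d0_nt.MKer

set_option autoImplicit false

noncomputable section

namespace Pool.Agent.Lib.MP_03e5d0_nt

open Complex Finset MeasureTheory
open scoped NumberTheorySymbols Real ContDiff

/-! Several blocks, and the kernel bound. -/

theorem zker_ly {y : ℝ} (hy : 0 ≤ y) : ly (Real.exp y) = Real.exp y :=
  max_eq_right (Real.one_le_exp hy)

theorem zker_GG_nonneg (D : Data) (S : Finset ℕ) (z₁ z₂ : ℕ → ℂ) (x : ℕ → ℝ) : 0 ≤ GG D S z₁ z₂ x :=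
  prod_nonneg fun _ _ => by positivity

theorem zb_subset (D : Data) (n : ℕ) {k a : ℕ} (h : k < a) : zb D n k ⊆ pr D (Real.exp (a * n)) := by
  refine sdiff_subset.trans (pr_mono D (Real.exp_le_exp.2 ?_))
  have h1 : ((k : ℝ) + 1) ≤ a := by exact_mod_cast h
  exact mul_le_mul_of_nonneg_right h1 (Nat.cast_nonneg n)

theorem zb_disjoint (D : Data) (n : ℕ) (S : Set ℕ) : S.PairwiseDisjoint (zb D n) := by
  have key : ∀ i j, i < j → Disjoint (zb D n i) (zb D n j) := fun i j h =>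
    disjoint_of_subset_left (zb_subset D n h) disjoint_sdiff
  intro i _ j _ hij
  rcases lt_or_gt_of_ne hij with h | h
  · exact key i j h
  · exact (key j i h).symm

theorem biUnion_zb (D : Data) (n a : ℕ) : (Ico 0 a).biUnion (zb D n) = pr D (Real.exp (a * n)) := by
  induction a with
  | zero => simp [pr_eq_empty D le_rfl]
  | succ a ih =>
    rw [← insert_Ico_right_eq_Ico_add_one (Nat.zero_le a), biUnion_insert, ih, zb]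
    push_cast
    refine sdiff_union_of_subset (pr_mono D (Real.exp_le_exp.2 ?_))
    exact mul_le_mul_of_nonneg_right (by linarith) (Nat.cast_nonneg n)

/-- `ps_sq`, `ps_one`. -/
theorem zb_sums (D : Data) (hPS : D.PS) : ∃ (n₀ : ℕ) (E₀ : ℝ), 0 ≤ E₀ ∧ ∀ n k : ℕ, n₀ ≤ n →
    ∑ p ∈ zb D n k, (1 : ℝ) / p ≤ 2 * n ∧ |∑ p ∈ zb D n k, D.lam p ^ 2 / p - n| ≤ E₀ := by
  obtain ⟨C₁, H₁⟩ := ps_one D hPS
  obtain ⟨C₂, H₂⟩ := ps_sq D hPS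
  have hC₂ : 0 ≤ C₂ := (abs_nonneg _).trans (H₂ 0)
  refine ⟨⌈2 * C₁⌉₊, 2 * C₂, by positivity, fun n k hn => ?_⟩
  have hn' : 2 * C₁ ≤ n := Nat.ceil_le.1 hn
  have hS : pr D (Real.exp (k * n)) ⊆ pr D (Real.exp ((k + 1) * n)) :=
    pr_mono D (Real.exp_le_exp.2 (mul_le_mul_of_nonneg_right (by linarith) (Nat.cast_nonneg n)))
  have s1 := sum_sdiff (f := fun p : ℕ => (1 : ℝ) / p) hS
  have s2 := sum_sdiff (f := fun p : ℕ => D.lam p ^ 2 / p) hS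
  have a1 := abs_le.1 (H₁ (Real.exp (k * n)))
  have a2 := abs_le.1 (H₁ (Real.exp ((k + 1) * n)))
  have a3 := abs_le.1 (H₂ (Real.exp (k * n)))
  have a4 := abs_le.1 (H₂ (Real.exp ((k + 1) * n)))
  rw [zker_ly (by positivity), Real.log_exp] at a1 a2 a3 a4
  unfold zb
  refine ⟨by linarith [a1.1, a2.2], abs_le.2 ⟨by linarith [a3.2, a4.1], by linarith [a3.1, a4.2]⟩⟩

theorem QQ_nonneg (D : Data) (k₀ n a b : ℕ) (x : ℕ → ℝ) : 0 ≤ QQ D k₀ n a b x := by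
  exact prod_nonneg fun k _ => cap_nonneg _ _ _

theorem QQ_mul (D : Data) (k₀ n : ℕ) {a b e : ℕ} (hab : a ≤ b) (hbe : b ≤ e) (x : ℕ → ℝ) :
    QQ D k₀ n a b x * QQ D k₀ n b e x = QQ D k₀ n a e x := by
  exact prod_Ico_consecutive _ hab hbe

theorem QQ_depends (D : Data) (k₀ n a : ℕ) :
    DependsOn (QQ D k₀ n 0 a) (pr D (Real.exp (a * n)) : Set ℕ) := by
  intro x y h
  refine prod_congr rfl fun k hk => ?_
  unfold xb PI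
  rw [sum_congr rfl fun p hp => by rw [h p (zb_subset D n (mem_Ico.1 hk).2 hp)]]

theorem QQ_GG (D : Data) (k₀ n a e : ℕ) (z₁ z₂ : ℕ → ℂ) (x : ℕ → ℝ) :
    QQ D k₀ n 0 a x ^ e * GG D (pr D (Real.exp (a * n))) z₁ z₂ x =
      ∏ k ∈ Ico 0 a, cap k₀ n (PI D (zb D n k) x - kk * n) ^ e * GG D (zb D n k) z₁ z₂ x := by
  rw [prod_mul_distrib, prod_pow, ← biUnion_zb]
  congr 1
  exact prod_biUnion (zb_disjoint D n _)

/-- `QQ_GG`, `Ex_prod_indep`, `blk_cap_up`. -/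
theorem QQ_up (D : Data) (hPS : D.PS) {k₀ : ℕ} (hk : 1 ≤ k₀) (K : ℕ) : ∃ (n₀ : ℕ) (C : ℝ), 0 ≤ C ∧
    ∀ (δ : ℕ → ℝ) (n a e : ℕ) (c Λ : ℝ) (z₁ z₂ : ℕ → ℂ), n₀ ≤ n → a ≤ K → Real.exp (a * n) ≤ Λ → Dl δ →
    (e = 1 ∨ e = 2) → |c| ≤ 4 →
    (∀ p ∈ pr D (Real.exp (a * n)), ‖z₁ p‖ ≤ 3 / √p ∧ ‖z₂ p‖ ≤ 3 / √p) →
    Ex (pr D Λ) δ (fun x => QQ D k₀ n 0 a x ^ e * GG D (pr D (Real.exp (a * n))) z₁ z₂ x) ≤
      C * Real.exp (20 * ep k₀ * (K * n) - c * kk * (a * n) +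
        ∑ p ∈ pr D (Real.exp (a * n)), mn (D.lam p) (c / √p) (z₁ p) (z₂ p)) := by
  obtain ⟨n₁, C, hC, H⟩ := blk_cap_up hk
  obtain ⟨n₂, E₀, -, H₂⟩ := zb_sums D hPS
  refine ⟨max n₁ n₂, C ^ K, by positivity,
    fun δ n a e c Λ z₁ z₂ hn ha hΛ hδ he hc hz => ?_⟩
  have hS : pr D (Real.exp (a * n)) ⊆ pr D Λ := pr_mono D hΛ
  simp only [QQ_GG]
  rw [Ex_prod_indep (Ico 0 a) (zb D n) (fun k _ x y h => by
    unfold PI GG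
    rw [sum_congr rfl fun p hp => by rw [h p hp], prod_congr rfl fun p hp => by rw [h p hp]])
    (zb_disjoint D n _)]
  have h1 : ∀ k ∈ Ico 0 a, Ex (pr D Λ) δ (fun x => cap k₀ n (PI D (zb D n k) x - kk * n) ^ e *
      GG D (zb D n k) z₁ z₂ x) ≤ C * Real.exp (20 * ep k₀ * n - c * kk * n +
        ∑ p ∈ zb D n k, mn (D.lam p) (c / √p) (z₁ p) (z₂ p)) := fun k hk' => by
    have hk2 := zb_subset D n (mem_Ico.1 hk').2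
    exact H D _ _ δ n e c z₁ z₂ ((le_max_left _ _).trans hn) (hk2.trans hS) (fun p hp => mker_mem hp)
      hδ he hc (H₂ n k ((le_max_right _ _).trans hn)).1 (fun p hp => (hz p (hk2 hp)).1)
      fun p hp => (hz p (hk2 hp)).2
  refine (prod_le_prod (fun k _ => ?_) h1).trans ?_
  · refine (Ex_const (P := pr D Λ) (δ := δ) (0 : ℝ)).ge.trans
      (Ex_mono (fun p hp => (mker_mem hp).1) hδ
        fun x _ => mul_nonneg (pow_nonneg (cap_nonneg _ _ _) _) (zker_GG_nonneg _ _ _ _ _))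
  · rw [prod_mul_distrib, prod_const, ← Real.exp_sum, sum_add_distrib, sum_const,
      ← sum_biUnion (zb_disjoint D n _), biUnion_zb, Nat.card_Ico, Nat.sub_zero, nsmul_eq_mul]
    refine mul_le_mul (pow_le_pow_right₀ hC ha) (Real.exp_le_exp.2 ?_) (Real.exp_pos _).le
      (by positivity)
    have h2 : (a : ℝ) ≤ K := by exact_mod_cast ha
    have h3 : 0 ≤ ep k₀ * n := by unfold ep; positivity
    nlinarith [mul_le_mul_of_nonneg_right h2 h3]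

/-- The probabilistic part. -/
theorem zker_prob : ∃ C : ℝ, ∀ (D : Data) (Z Λ : ℝ) (f : (ℕ → ℝ) → ℝ) (δ : ℕ → ℝ) (z₁ z₂ : ℕ → ℂ),
    Z ≤ Λ → Dl δ → DependsOn f (pr D Z : Set ℕ) → (∀ x, 0 ≤ f x) →
    (∀ p : ℕ, 0 < p → ‖z₁ p‖ ≤ 3 / √p ∧ ‖z₂ p‖ ≤ 3 / √p) →
    ‖Ex (pr D Λ) δ fun x => (f x : ℂ) *
        ((∏ p ∈ pr D Λ, lf (D.lam p) (x p) (z₁ p)) * ∏ p ∈ pr D Λ, lf (D.lam p) (x p) (z₂ p))‖ ≤
      Ex (pr D Λ) δ (fun x => f x * GG D (pr D Z) z₁ z₂ x) *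
        Real.exp (∑ p ∈ pr D Λ \ pr D Z, (un (D.lam p) (z₁ p) (z₂ p)).re + C) := by
  obtain ⟨C₂, hC₂, H₂⟩ := pp_prod_le
  refine ⟨C₂ * 3, fun D Z Λ f δ z₁ z₂ hΛ hδ hdf hf0 hz => ?_⟩
  have hS : pr D Z ⊆ pr D Λ := pr_mono D hΛ
  obtain ⟨F, hF⟩ : ∃ F : (ℕ → ℝ) → ℂ, F = fun x => (f x : ℂ) *
    ∏ p ∈ pr D Z, (lf (D.lam p) (x p) (z₁ p) * lf (D.lam p) (x p) (z₂ p)) := ⟨_, rfl⟩
  obtain ⟨g, hg⟩ : ∃ g : (ℕ → ℝ) → ℂ, g = fun x =>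
    ∏ p ∈ pr D Λ \ pr D Z, (lf (D.lam p) (x p) (z₁ p) * lf (D.lam p) (x p) (z₂ p)) :=
    ⟨_, rfl⟩
  have e1 : (fun x => (f x : ℂ) *
        ((∏ p ∈ pr D Λ, lf (D.lam p) (x p) (z₁ p)) * ∏ p ∈ pr D Λ, lf (D.lam p) (x p) (z₂ p))) =
      fun x => F x * g x := by
    funext x
    rw [hF, hg, ← prod_mul_distrib, ← prod_sdiff hS]
    ring
  have hdF : DependsOn F (pr D Z : Set ℕ) := by
    intro x y hxy
    rw [hF]
    simp only [hdf hxy]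
    congr 1
    exact prod_congr rfl fun p hp => by rw [hxy p hp]
  have hdg : DependsOn g (pr D Z : Set ℕ)ᶜ := by
    intro x y hxy
    rw [hg]
    exact prod_congr rfl fun p hp => by rw [hxy p (mem_sdiff.1 hp).2]
  have hnf : (fun x => ‖F x‖) = fun x => f x * GG D (pr D Z) z₁ z₂ x := by
    funext x
    rw [hF, norm_mul, Complex.norm_real, Real.norm_of_nonneg (hf0 x), norm_prod]
    simp only [GG, norm_mul]
  have b1 := norm_Ex_le (P := pr D Λ) (fun p hp => (mker_mem hp).1) hδ F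
  rw [hnf] at b1
  have b2 : ‖Ex (pr D Λ) δ g‖ ≤ Real.exp (∑ p ∈ pr D Λ \ pr D Z,
      (un (D.lam p) (z₁ p) (z₂ p)).re + C₂ * 3) := by
    rw [hg, Ex_prod sdiff_subset fun p u => lf (D.lam p) u (z₁ p) * lf (D.lam p) u (z₂ p), norm_prod]
    refine (prod_le_prod (fun p _ => norm_nonneg _) fun p hp => ?_ :
      _ ≤ ∏ p ∈ pr D Λ \ pr D Z,
        Real.exp ((un (D.lam p) (z₁ p) (z₂ p)).re + C₂ / (p * √p))).trans ?_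
    · have hp' := (mem_sdiff.1 hp).1
      have h1 := (mker_mem hp').1
      exact H₂ p _ _ _ _ (mker_big hp') (D.lam_le p h1) (hδ p h1).1 (hδ p h1).2 (hz p h1.pos).1
        (hz p h1.pos).2
    · rw [← Real.exp_sum, sum_add_distrib]
      refine Real.exp_le_exp.2 (add_le_add le_rfl ?_)
      refine le_trans (le_of_eq ?_) (mul_le_mul_of_nonneg_left
        (ps_32 (pr D Λ \ pr D Z)) hC₂)
      rw [mul_sum]
      exact sum_congr rfl fun p _ => by ring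
  rw [e1, Ex_indep hdF hdg, norm_mul]
  exact mul_le_mul b1 b2 (norm_nonneg _) ((norm_nonneg _).trans b1)

/-- The proof of `ker` (file `MKer`) with the estimate on `S = pr D Z` as a hypothesis. -/
theorem ker_gen (D : Data) (hPS : D.PS) : ∃ (k : ℕ) (C : ℝ), 0 ≤ C ∧ ∀ (Z Λ θ M t₁ t₂ : ℝ)
    (f : (ℕ → ℝ) → ℝ) (δ : ℕ → ℝ), 1 ≤ Λ → Z ≤ Λ → |θ| ≤ 4 → 0 ≤ M → Dl δ →
    DependsOn f (pr D Z : Set ℕ) → (∀ x, 0 ≤ f x) →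
    Ex (pr D Λ) δ (fun x => f x * GG D (pr D Z) (fun p => (p : ℂ) ^ (-(1 / 2 + I * t₁)))
        (fun p => (p : ℂ) ^ (-(1 / 2 - I * t₂))) x) ≤
      M * Real.exp (∑ p ∈ pr D Z, mn (D.lam p) (-θ / √p) ((p : ℂ) ^ (-(1 / 2 + I * t₁)))
        ((p : ℂ) ^ (-(1 / 2 - I * t₂)))) →
    ‖Ex (pr D Λ) δ fun x => (f x : ℂ) *
        (LP D (pr D Λ) x (1 / 2 + I * t₁) * LP D (pr D Λ) x (1 / 2 - I * t₂))‖ ≤
      C * M * ly Z ^ ((2 - θ) ^ 2 / 2 - 2) *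
        ((1 + |t₁| * ly Z) * (1 + |t₂| * ly Z) * (2 + |t₁|) * (2 + |t₂|)) ^ k * kr Λ (t₁ - t₂) := by
  obtain ⟨C₀, H₀⟩ := zker_prob
  obtain ⟨C₁, hC₁, H₁⟩ := mn_sub_un
  obtain ⟨C₂, H₂⟩ := ps_sq D hPS
  obtain ⟨C₃, H₃⟩ := ps_min D hPS
  obtain ⟨C₄, k₄, H₄⟩ := ps_cos_sym D hPS
  obtain ⟨C₅, k₅, H₅⟩ := ps_cos_sq D hPS
  refine ⟨⌈C₁⌉₊ + 2 * k₄ + k₅, Real.exp (C₀ + 16 * C₂ + 2 * (C₁ * C₃) + 2 * C₄ + C₅),
    by positivity, fun Z Λ θ M t₁ t₂ f δ hΛ1 hΛ hθ hM hδ hdf hf hE => ?_⟩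
  obtain ⟨z₁, hz₁⟩ : ∃ z₁ : ℕ → ℂ, z₁ = fun p : ℕ => (p : ℂ) ^ (-(1 / 2 + I * t₁)) := ⟨_, rfl⟩
  obtain ⟨z₂, hz₂⟩ : ∃ z₂ : ℕ → ℂ, z₂ = fun p : ℕ => (p : ℂ) ^ (-(1 / 2 - I * t₂)) := ⟨_, rfl⟩
  have h0 := H₀ D Z Λ f δ z₁ z₂ hΛ hδ hdf hf fun p hp => by
    constructor
    · rw [hz₁]
      exact norm_cpow_le hp (by simp)
    · rw [hz₂]
      simp only [sub_eq_add_neg]
      exact norm_cpow_le hp (by simp)
  have e0 : ∀ x, LP D (pr D Λ) x (1 / 2 + I * t₁) * LP D (pr D Λ) x (1 / 2 - I * t₂) =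
      (∏ p ∈ pr D Λ, lf (D.lam p) (x p) (z₁ p)) * ∏ p ∈ pr D Λ, lf (D.lam p) (x p) (z₂ p) := by
    intro x
    rw [hz₁, hz₂]
    rfl
  have hE' : Ex (pr D Λ) δ (fun x => f x * GG D (pr D Z) z₁ z₂ x) ≤
      M * Real.exp (∑ p ∈ pr D Z, mn (D.lam p) (-θ / √p) (z₁ p) (z₂ p)) := by
    rw [hz₁, hz₂]
    exact hE
  simp only [e0]
  refine (h0.trans (mul_le_mul_of_nonneg_right hE' (Real.exp_pos _).le)).trans ?_
  have hS : pr D Z ⊆ pr D Λ := pr_mono D hΛ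
  obtain ⟨u, hu⟩ : ∃ u : ℕ → ℝ, u = fun p => (un (D.lam p) (z₁ p) (z₂ p)).re := ⟨_, rfl⟩
  obtain ⟨q, hq⟩ : ∃ q : ℕ → ℝ, q = fun p : ℕ => D.lam p ^ 2 / p := ⟨_, rfl⟩
  obtain ⟨m₁, hm₁⟩ : ∃ m : ℕ → ℝ, m = fun p : ℕ => min 1 (|t₁| * Real.log p) / p := ⟨_, rfl⟩
  obtain ⟨m₂, hm₂⟩ : ∃ m : ℕ → ℝ, m = fun p : ℕ => min 1 (|t₂| * Real.log p) / p := ⟨_, rfl⟩
  obtain ⟨κ, hκ⟩ : ∃ κ : ℝ, κ = (2 - θ) ^ 2 / 2 - 2 := ⟨_, rfl⟩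
  have hκ' : |κ| ≤ 16 := by
    obtain ⟨h1, h2⟩ := abs_le.1 hθ
    rw [hκ, abs_le]
    constructor <;> nlinarith [sq_nonneg (2 - θ)]
  have a1 : ∑ p ∈ pr D Z, mn (D.lam p) (-θ / √p) (z₁ p) (z₂ p) ≤
      ∑ p ∈ pr D Z, u p + κ * ∑ p ∈ pr D Z, q p +
        C₁ * (∑ p ∈ pr D Z, m₁ p + ∑ p ∈ pr D Z, m₂ p) := by
    rw [← sum_add_distrib, mul_sum, mul_sum, ← sum_add_distrib, ← sum_add_distrib]
    refine sum_le_sum fun p hp => ?_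
    have h1 := (mker_mem hp).1
    have h2 := H₁ p (D.lam p) θ t₁ t₂ h1.pos (D.lam_le p h1) hθ
    rw [hu, hq, hm₁, hm₂, hz₁, hz₂, hκ]
    have h3 : D.lam p ^ 2 * ((2 - θ) ^ 2 / 2 - 2) / p =
        ((2 - θ) ^ 2 / 2 - 2) * (D.lam p ^ 2 / p) := by ring
    dsimp only
    linarith
  have s5 := sum_sdiff (f := u) hS
  have q1 : κ * ∑ p ∈ pr D Z, q p ≤ κ * Real.log (ly Z) + 16 * C₂ := by
    have h1 : |∑ p ∈ pr D Z, q p - Real.log (ly Z)| ≤ C₂ := by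
      rw [hq]
      exact H₂ Z
    have h2 : |κ * (∑ p ∈ pr D Z, q p - Real.log (ly Z))| ≤ 16 * C₂ := by
      rw [abs_mul]
      exact mul_le_mul hκ' h1 (abs_nonneg _) (by norm_num)
    linarith [(abs_le.1 h2).2]
  have q3 := H₃ Z _ (abs_nonneg t₁)
  have q4 := H₃ Z _ (abs_nonneg t₂)
  have q5 := (abs_le.1 (H₄ Λ (2 * t₁) hΛ1)).2
  have q6 := (abs_le.1 (H₄ Λ (2 * t₂) hΛ1)).2
  have q7 := H₅ Λ (t₁ - t₂) hΛ1
  have s6 : ∑ p ∈ pr D Λ, u p =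
      ∑ p ∈ pr D Λ, (D.lam p ^ 2 - 1) * Real.cos (2 * t₁ * Real.log p) / p +
        ∑ p ∈ pr D Λ, (D.lam p ^ 2 - 1) * Real.cos (2 * t₂ * Real.log p) / p +
        ∑ p ∈ pr D Λ, D.lam p ^ 2 * Real.cos ((t₁ - t₂) * Real.log p) / p := by
    rw [← sum_add_distrib, ← sum_add_distrib]
    refine sum_congr rfl fun p hp => ?_
    rw [hu, hz₁, hz₂]
    exact un_re p _ _ _ (mker_mem hp).1.pos
  have hYa : 1 ≤ ly Z := le_max_left _ _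
  have n1 := abs_nonneg t₁
  have n2 := abs_nonneg t₂
  obtain ⟨A₁, hA₁⟩ : ∃ A, A = Real.log (1 + |t₁| * ly Z) := ⟨_, rfl⟩
  obtain ⟨A₂, hA₂⟩ : ∃ A, A = Real.log (1 + |t₂| * ly Z) := ⟨_, rfl⟩
  obtain ⟨B₁, hB₁⟩ : ∃ A, A = Real.log (2 + |t₁|) := ⟨_, rfl⟩
  obtain ⟨B₂, hB₂⟩ : ∃ A, A = Real.log (2 + |t₂|) := ⟨_, rfl⟩
  have p1 : 0 ≤ A₁ := hA₁ ▸ Real.log_nonneg (by nlinarith)
  have p2 : 0 ≤ A₂ := hA₂ ▸ Real.log_nonneg (by nlinarith)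
  have p3 : 0 ≤ B₁ := hB₁ ▸ Real.log_nonneg (by linarith)
  have p4 : 0 ≤ B₂ := hB₂ ▸ Real.log_nonneg (by linarith)
  have l2 := mul_le_mul_of_nonneg_left (mker_log1 t₁) (Nat.cast_nonneg (α := ℝ) k₄)
  have l3 := mul_le_mul_of_nonneg_left (mker_log1 t₂) (Nat.cast_nonneg (α := ℝ) k₄)
  have l4 := mul_le_mul_of_nonneg_left (mker_log2 t₁ t₂) (Nat.cast_nonneg (α := ℝ) k₅)
  have l5 : C₁ * (∑ p ∈ pr D Z, m₁ p + ∑ p ∈ pr D Z, m₂ p) ≤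
      ⌈C₁⌉₊ * (A₁ + A₂) + 2 * (C₁ * C₃) := by
    have h1 : ∑ p ∈ pr D Z, m₁ p + ∑ p ∈ pr D Z, m₂ p ≤ A₁ + A₂ + 2 * C₃ := by
      rw [hm₁, hm₂, hA₁, hA₂]
      linarith
    have h2 := mul_le_mul_of_nonneg_left h1 hC₁
    have h3 := mul_le_mul_of_nonneg_right (Nat.le_ceil C₁) (add_nonneg p1 p2)
    linarith
  rw [← hB₁] at l2 l4
  rw [← hB₂] at l3 l4
  have hkr : 0 < kr Λ (t₁ - t₂) := by
    unfold kr
    have := abs_nonneg (t₁ - t₂)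
    positivity
  have fin : Real.exp (C₀ + 16 * C₂ + 2 * (C₁ * C₃) + 2 * C₄ + C₅) * M * ly Z ^ κ *
        ((1 + |t₁| * ly Z) * (1 + |t₂| * ly Z) * (2 + |t₁|) * (2 + |t₂|)) ^
          (⌈C₁⌉₊ + 2 * k₄ + k₅) * kr Λ (t₁ - t₂) =
      M * Real.exp (C₀ + 16 * C₂ + 2 * (C₁ * C₃) + 2 * C₄ + C₅ + Real.log (ly Z) * κ +
        (⌈C₁⌉₊ + 2 * k₄ + k₅ : ℕ) * (A₁ + A₂ + B₁ + B₂) + Real.log (kr Λ (t₁ - t₂))) := by
    rw [Real.exp_add _ (Real.log _), Real.exp_add _ (_ * (_ + B₂)),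
      Real.exp_add _ (Real.log _ * κ), Real.exp_nat_mul, Real.exp_log hkr,
      ← Real.rpow_def_of_pos (by linarith), Real.exp_add _ B₂,
      Real.exp_add _ B₁, Real.exp_add _ A₂, hA₁, hA₂, hB₁, hB₂, Real.exp_log (by positivity),
      Real.exp_log (by positivity), Real.exp_log (by positivity), Real.exp_log (by positivity)]
    ring
  rw [← hκ, fin, mul_assoc, ← Real.exp_add]
  refine mul_le_mul_of_nonneg_left (Real.exp_le_exp.2 ?_) hM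
  have e7 : ∑ p ∈ pr D Λ \ pr D Z, (un (D.lam p) (z₁ p) (z₂ p)).re =
      ∑ p ∈ pr D Λ \ pr D Z, u p := by rw [hu]
  have r1 := mul_nonneg (Nat.cast_nonneg (α := ℝ) ⌈C₁⌉₊) (add_nonneg p3 p4)
  have r2 := mul_nonneg (Nat.cast_nonneg (α := ℝ) k₄) (add_nonneg p1 p2)
  have r3 := mul_nonneg (Nat.cast_nonneg (α := ℝ) k₅) (add_nonneg p1 p2)
  rw [e7]
  push_cast
  linarith

/-- `θ = √2`, `c = -√2`; `√2 kk + kk ^ 2 / 2 - 2 = -1`. -/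
theorem ker2 (D : Data) (hPS : D.PS) {k₀ : ℕ} (hk : 1 ≤ k₀) (K : ℕ) : ∃ (n₀ k : ℕ) (C : ℝ), 0 ≤ C ∧
    ∀ (δ : ℕ → ℝ) (n a : ℕ) (Λ t₁ t₂ : ℝ), n₀ ≤ n → a ≤ K → Real.exp (a * n) ≤ Λ → Dl δ →
    ‖Ex (pr D Λ) δ fun x => ((QQ D k₀ n 0 a x ^ 2 : ℝ) : ℂ) *
        (LP D (pr D Λ) x (1 / 2 + I * t₁) * LP D (pr D Λ) x (1 / 2 - I * t₂))‖ ≤
      C * Real.exp (20 * ep k₀ * (K * n)) / Real.exp (a * n) *
        ((1 + |t₁| * Real.exp (a * n)) * (1 + |t₂| * Real.exp (a * n)) * (2 + |t₁|) * (2 + |t₂|)) ^ k *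
        kr Λ (t₁ - t₂) := by
  obtain ⟨n₀, C₀, hC₀, H₀⟩ := QQ_up D hPS hk K
  obtain ⟨k, C₁, hC₁, H₁⟩ := ker_gen D hPS
  refine ⟨n₀, k, C₁ * C₀, by positivity, fun δ n a Λ t₁ t₂ hn ha hΛ hδ => ?_⟩
  have hs : (√2 : ℝ) ^ 2 = 2 := Real.sq_sqrt (by norm_num)
  have hs0 : (0 : ℝ) ≤ √2 := Real.sqrt_nonneg 2
  have hs4 : |(√2 : ℝ)| ≤ 4 := by
    rw [abs_of_nonneg hs0]
    nlinarith
  have h1 : 1 ≤ Real.exp (a * n) := Real.one_le_exp (by positivity)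
  have h2 := H₀ δ n a 2 (-√2) Λ (fun p => (p : ℂ) ^ (-(1 / 2 + I * t₁)))
    (fun p => (p : ℂ) ^ (-(1 / 2 - I * t₂))) hn ha hΛ hδ (Or.inr rfl) (by rwa [abs_neg])
    fun p hp => by
      have hp' := (mker_mem hp).1.pos
      constructor
      · exact norm_cpow_le hp' (by simp)
      · simp only [sub_eq_add_neg]
        exact norm_cpow_le hp' (by simp)
  rw [Real.exp_add, ← mul_assoc] at h2
  have h3 := H₁ (Real.exp (a * n)) Λ (√2) _ t₁ t₂ (fun x => QQ D k₀ n 0 a x ^ 2) δ (h1.trans hΛ) hΛ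
    hs4 (by positivity) hδ (fun x y h => by simp only [QQ_depends D k₀ n a h])
    (fun x => sq_nonneg _) h2
  rw [zker_ly (by positivity)] at h3
  refine h3.trans (le_of_eq ?_)
  have e : Real.exp (20 * ep k₀ * (K * n) - -√2 * kk * (a * n)) *
      Real.exp (a * n) ^ ((2 - √2) ^ 2 / 2 - 2 : ℝ) =
      Real.exp (20 * ep k₀ * (K * n)) / Real.exp (a * n) := by
    rw [← Real.exp_mul, ← Real.exp_add, ← Real.exp_sub]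
    congr 1
    unfold kk
    linear_combination (-(a * n : ℝ) / 2) * hs
  congr 2
  rw [mul_div_assoc, ← e]
  ring

end Pool.Agent.Lib.MP_03e5d0_nt
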