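import Pool.Agent.Lib.MP_03e5d0_nt.ZCnt
import Pool.Agent.Lib.MP_03e5d0_nt.ZB
import Pool.Agent.Lib.MP_03e5d0_nt.ZC
import Pool.Agent.Lib.MP_03e5d0_nt.BEnt
import Pool.Agent.Lib.MP_03e5d0_nt.RSFin

/-! The lower bound for the number of twists of analytic rank zero. -/

set_option autoImplicit false

noncomputable section

namespace Pool.Agent.Lib.MP_03e5d0_nt

/-- Twists of analytic rank zero of a modular curve. -/
theorem main0 (a b : ℚ) (hab : 4 * a ^ 3 + 27 * b ^ 2 ≠ 0) (hm : IsModular (twist a b 1)) (α : ℝ)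
    (hα : 3 - 2 * √2 < α) :
    ∃ X₀ : ℝ, ∀ X : ℝ, X₀ ≤ X → X / Real.log X ^ α ≤ countN a b 0 X :=
  main0_of core0 (fun f D h1 h2 => ⟨B.fe_of_form f D h1 h2, fe2_of_form f D h1 h2, ps_of_form f D h1 h2⟩)
    B.entire_twist a b hab hm α hα

end Pool.Agent.Lib.MP_03e5d0_nt
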