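import Pool.Agent.Lib.MP_03e5d0_nt.ZPoi
import Pool.Agent.Lib.MP_03e5d0_nt.AIf
import Pool.Agent.Lib.MP_03e5d0_nt.MTr2

set_option autoImplicit false

noncomputable section

namespace Pool.Agent.Lib.MP_03e5d0_nt

open Complex Finset MeasureTheory
open scoped NumberTheorySymbols Real ContDiff

/-! The off-diagonal terms of the first moment. -/

/-- The core of the proof of `off'` (file `KOff`) with general coupling weights `G k`: `tk_integral`,
`Sm.ft_le`, `tk_ex_cont`, `tk_le`, `ksum`. -/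
theorem off_gen (D : Data) (hPS : D.PS) : ∃ c : ℕ, ∀ A a : ℕ, ∃ C : ℝ, 0 ≤ C ∧ ∀ Θ : ℝ → ℝ, IH D A a Θ →
    ∀ (ℓ : ℕ) (L₁ L₂ B₁ B₂ BG K : ℝ) (W₁ W₂ : ℝ → ℂ) (G : ℤ → ℝ → ℂ) (S : Finset ℤ), ℓ ≠ 0 →
    ℓ.Coprime D.q → 0 < K → 0 ≤ BG → Sm (A + c) (-1) 1 B₁ W₁ → Sm (A + c) (-1) 1 B₂ W₂ → 0 ∉ S →
    (∀ k ∈ S, Sm (2 * (A + c) + 2) (-3) 3 (BG / (1 + |(k : ℝ)| / K) ^ (2 * a + 4)) (G k)) →
    ∑ k ∈ S, ‖tk D k ℓ fun y₁ y₂ => W₁ (y₁ - L₁) * W₂ (y₂ - L₂) * G k (y₁ + y₂ - (L₁ + L₂))‖ ≤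
      C * BG * B₁ * B₂ * ℓ * K * Θ (1 + K) ^ 2 := by
  obtain ⟨c, hc⟩ := tk_le D hPS
  refine ⟨c, fun A a => ?_⟩
  obtain ⟨C1, hC10, hC1⟩ := hc A
  obtain ⟨C3, hC30, hC3⟩ := Sm.ft_le (2 * (A + c) + 2) 6
  obtain ⟨C4, hC40, hC4⟩ := ksum a
  refine ⟨C3 * C4 * (2 * C1 * 2 ^ (A + c) * 2 ^ (A + c)), by positivity, ?_⟩
  intro Θ hΘ ℓ L₁ L₂ B₁ B₂ BG K W₁ W₂ G S hℓ hq hK hBG h1 h2 hS hG
  have hB₁ := h1.nonneg
  have hB₂ := h2.nonneg
  set J := 2 * (A + c) + 2 with hJ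
  set v : ℤ → ℝ → ℂ := fun k τ => tk D k ℓ fun y₁ y₂ =>
    W₁ (y₁ - L₁) * ex τ (y₁ - L₁) * (W₂ (y₂ - L₂) * ex τ (y₂ - L₂)) with hv
  have hint : ∀ k, Integrable fun τ => ‖v k τ‖ / (1 + |τ|) ^ J := by
    intro k
    obtain ⟨hcont, K, hKb⟩ := tk_ex_cont D k ℓ h1.supp h2.supp L₁ L₂
    refine Integrable.mono' (integrable_inv_sq.const_mul K) ?_ (ae_of_all _ fun τ => ?_)
    · refine Continuous.aestronglyMeasurable ?_
      exact hcont.norm.div (by fun_prop) fun τ => by positivity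
    · have h0 : 0 ≤ K := (norm_nonneg _).trans (hKb τ)
      have h3 : (1 + |τ|) ^ 2 ≤ (1 + |τ|) ^ J :=
        pow_le_pow_right₀ (by have := abs_nonneg τ; linarith) (by omega)
      rw [Real.norm_of_nonneg (by positivity), mul_one_div]
      exact div_le_div₀ h0 (hKb τ) (by positivity) h3
  set F : ℤ → ℝ := fun k => ∫ τ, ‖v k τ‖ / (1 + |τ|) ^ J with hF
  have hF0 : ∀ k, 0 ≤ F k := fun k => integral_nonneg fun τ => by positivity
  set E := 2 * C1 * 2 ^ (A + c) * 2 ^ (A + c) * ℓ * (B₁ * B₂) with hE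
  have hFs : ∀ k₂ : ℕ, k₂ ≠ 0 → ∀ M, 1 ≤ M →
      ∑ k₁ ∈ sqf M, F (k₁ * (k₂ : ℤ) ^ 2) ≤ E * √k₂ * (Θ M ^ 2 * M) := by
    intro k₂ hk₂ M hM
    have hΘ0 := hΘ.pos M hM
    simp only [hF]
    rw [← integral_finsetSum _ fun k _ => hint _]
    have hle : ∀ τ, ∑ k₁ ∈ sqf M, ‖v (k₁ * (k₂ : ℤ) ^ 2) τ‖ / (1 + |τ|) ^ J ≤
        E * √k₂ * (Θ M ^ 2 * M) / 2 * (1 / (1 + |τ|) ^ 2) := by
      intro τ
      have h3 := hC1 (sqf M) k₂ ℓ (Θ M * √M) _ _ L₁ L₂ _ _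
        (fun k hk => ((mem_sqf (by linarith)).1 hk).2) hk₂ hℓ hq (by positivity) (hΘ.bd M hM)
        (h1.mul_ex τ) (h2.mul_ex τ)
      rw [← sum_div, div_le_iff₀ (by positivity)]
      refine h3.trans (le_of_eq ?_)
      have h4 : (0 : ℝ) < 1 + |τ| := by positivity
      rw [mul_pow, Real.sq_sqrt (by linarith), hE, hJ]
      field_simp
      ring
    refine (integral_mono (integrable_finsetSum _ fun k _ => hint _)
      (integrable_inv_sq.const_mul _) hle).trans (le_of_eq ?_)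
    rw [integral_const_mul, integral_inv_sq]
    ring
  have h6 := hC4 Θ F E K hΘ.pos hΘ.mono hΘ.grow hK (by positivity) hF0 hFs S hS
  refine (sum_le_sum (g := fun k : ℤ => C3 * BG * (F k / (1 + |(k : ℝ)| / K) ^ (2 * a + 4)))
    fun k hk => ?_).trans ?_
  · rw [tk_integral D k ℓ (V₁ := fun y => W₁ (y - L₁)) (V₂ := fun y => W₂ (y - L₂))
      (L := max L₁ L₂ + 1) (fun y hy => h1.supp _ (Or.inr (by linarith [le_max_left L₁ L₂])))
      (fun y hy => h2.supp _ (Or.inr (by linarith [le_max_right L₁ L₂]))) (hG k hk) L₁ L₂]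
    refine (norm_integral_le_of_norm_le ((hint k).const_mul
      (C3 * BG / (1 + |(k : ℝ)| / K) ^ (2 * a + 4))) (ae_of_all _ fun τ => ?_)).trans
      (le_of_eq ?_)
    · rw [norm_mul]
      refine (mul_le_mul_of_nonneg_right (hC3 (-3) 3 _ _ (by norm_num) (hG k hk) τ)
        (norm_nonneg _)).trans (le_of_eq ?_)
      simp only [hv]
      ring
    · rw [integral_const_mul]
      ring
  · rw [← mul_sum]
    refine (mul_le_mul_of_nonneg_left h6 (by positivity)).trans (le_of_eq ?_)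
    rw [hE]
    ring

/-- `tk_eq_sum`; only `n₂ = 1` contributes (`psi_zero`, `psi_eq_zero`, `2 log 2 > 1`, `lam0`). -/
theorem tk_one (D : Data) (k : ℤ) (ℓ : ℕ) {V g : ℝ → ℂ} {L : ℝ} (hL : 1 ≤ L) (hV : ∀ y, L < y → V y = 0)
    {N : ℕ} (hN : Real.exp L < N) :
    (tk D k ℓ fun y₁ y₂ => V y₁ * (psi (2 * y₂) : ℂ) * g (y₁ + y₂)) =
      ∑ n ∈ range N, ((D.lam n / √n * gn k (ℓ * n) : ℝ) : ℂ) * (V (Real.log n) * g (Real.log n)) := by
  rw [tk_eq_sum D k ℓ (L := L) (fun y₁ y₂ h => by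
    rcases h with h | h
    · rw [hV _ h, zero_mul, zero_mul]
    · rw [tsm_psi (Or.inr (by linarith)), ofReal_zero, mul_zero, zero_mul]) hN]
  refine sum_congr rfl fun n _ => ?_
  rw [sum_eq_single_of_mem 1 (mem_range.2 ?_) fun m _ hm => ?_]
  · simp [D.lam_one, psi_zero, mul_comm n ℓ]
  · exact_mod_cast (Real.one_le_exp (by linarith)).trans_lt hN
  · rcases Nat.eq_zero_or_pos m with rfl | h0
    · simp [D.lam0]
    · have h2 : (2 : ℝ) ≤ m := by exact_mod_cast (show 2 ≤ m by omega)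
      have h3 := Real.log_le_log two_pos h2
      rw [tsm_psi (Or.inr (by linarith [Real.log_two_gt_d9])), ofReal_zero, mul_zero, zero_mul,
        mul_zero]

theorem zoff_pt {n l M : ℝ} (hn : 0 < n) (hl : 0 < l) (X L h : ℝ) (hv : |Real.log n - L| ≤ 2)
    (Φ : ℝ → ℂ) : ((X / √(l * n) : ℝ) : ℂ) * ft Φ (2 * π * X / (M * (l * n)) * h) =
      ((X / √(Real.exp L * l) : ℝ) : ℂ) *
        PhF Φ (2 * π * X * h / (M * (Real.exp L * l))) (Real.log n - L) := by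
  have h1 : Real.exp (-(Real.log n - L)) = Real.exp L / n := by
    rw [neg_sub, Real.exp_sub, Real.exp_log hn]
  have h2 : X / √(l * n) = X / √(Real.exp L * l) * Real.exp (-((Real.log n - L) / 2)) := by
    have := Real.sqrt_pos.2 (Real.exp_pos L)
    rw [← neg_div, Real.exp_half, h1, Real.sqrt_div' _ hn.le, Real.sqrt_mul hl.le,
      Real.sqrt_mul (Real.exp_pos L).le]
    field_simp
  rw [PhF, bump_eq_one hv, h1, h2, ofReal_one, one_mul, ofReal_mul, mul_assoc]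
  congr 3
  field_simp

/-- One window. `dlt_expand` for `r = ℓ n` (if `lam n ≠ 0`), `hasSum_sum`, `le_of_tendsto'` as at the end of
`off'`. With `R = exp L * ℓ`, `v = log n - L ∈ [-1, 1]`, `M = 8 q`:
`X / √(ℓ n) * ft Φ (2 π X h / (M ℓ n)) = X / √R * PhF Φ ξ v`, `ξ = 2 π X h / (M R)` (`bump_eq_one`). For each `i`
apply `off_gen` to the image of the frequencies under `h ↦ h * m₀ i`, `G k = PhF Φ (2 π X (k / m₀ i) / (M R))`,
`K = |m₀ i| M R / (2 π X)`, `W₂ y = psi (2 y)` (`exists_sm`), `L₂ = 0`, the `IH` of `li`, `sm_PhF`, `tk_one`;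
`X / √R * K = |m₀ i| M √R / (2 π)`, and `ll (1 + K) ≤ ll (1 + R / X) * (1 + |m₀ i| M)` (`ll_mono`, `ll_mul`). -/
theorem off1 (D : Data) (hFE : D.FE) (hPS : D.PS) : ∃ (j : ℕ) (C : ℝ), 0 ≤ C ∧
    ∀ (X L B BΦ : ℝ) (ℓ N : ℕ) (W Φ : ℝ → ℂ), 0 < X → 0 ≤ L → ℓ ≠ 0 → ℓ.Coprime D.q →
    Sm j (-1) 1 B W → Sm j (-1) 1 BΦ Φ → Real.exp (L + 1) < N →
    ‖∑ n ∈ range N, ((D.lam n / √n : ℝ) : ℂ) * (W (Real.log n - L) * dlt D Φ X (ℓ * n))‖ ≤
      C * BΦ * B * (ℓ : ℝ) ^ 2 * Real.exp (L / 2) * ll (1 + Real.exp L * ℓ / X) ^ 2 := by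
  obtain ⟨ι, S, m₀, a, hm, ha, hexp⟩ := dlt_expand D
  obtain ⟨c, hc⟩ := off_gen D hPS
  obtain ⟨A, C₁, hC₁, hIH⟩ := li D hFE hPS
  obtain ⟨C₂, hC₂, H⟩ := hc A 1
  obtain ⟨j', C₃, hC₃, hP⟩ := sm_PhF (2 * (A + c) + 2) (2 * 1 + 4)
  obtain ⟨B₁, hB₁⟩ := sm_psi 0
  obtain ⟨B₀, hB₀⟩ := exists_sm (a := -1) (b := 1) (W := fun y => (psi (2 * y) : ℂ)) (A + c)
    (hB₁.smooth.comp (contDiff_const.mul contDiff_id)) fun y hy =>
      hB₁.supp _ (hy.imp (fun h => by linarith) fun h => by linarith)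
  have hB₀' := hB₀.nonneg
  obtain ⟨M, hM⟩ : ∃ M : ℝ, M = 8 * D.q := ⟨_, rfl⟩
  have hM0 : 0 < M := hM ▸ mul_pos (by norm_num) (Nat.cast_pos.2 (Nat.pos_of_ne_zero D.q_ne))
  refine ⟨max (A + c) j', ∑ i ∈ S, 7 * C₂ * C₃ * B₀ * (|(m₀ i : ℝ)| * M / (2 * π)) *
    (C₁ * (1 + |(m₀ i : ℝ)| * M)) ^ 2, by positivity,
    fun X L B BΦ ℓ N W Φ hX hL hℓ hq hW hΦ hN => ?_⟩
  have hB := hW.nonneg
  have hBΦ := hΦ.nonneg
  have hℓ1 : (1 : ℝ) ≤ ℓ := by exact_mod_cast Nat.one_le_iff_ne_zero.2 hℓ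
  obtain ⟨R, hR⟩ : ∃ R : ℝ, R = Real.exp L * ℓ := ⟨_, rfl⟩
  have hR0 : 0 < R := by rw [hR]; positivity
  obtain ⟨U, hU⟩ : ∃ U : ι → ℤ → ℂ, U = fun i k => tk D k ℓ fun y₁ y₂ => W (y₁ - L) *
    (psi (2 * (y₂ - 0)) : ℂ) * PhF Φ (2 * π * X * (k / m₀ i) / (M * R)) (y₁ + y₂ - (L + 0)) := ⟨_, rfl⟩
  have hsum : HasSum (fun h : ℤ => if h = 0 then 0 else ∑ i ∈ S, a i h *
      (((X / √R : ℝ) : ℂ) * U i (h * m₀ i)))
      (∑ n ∈ range N, ((D.lam n / √n : ℝ) : ℂ) * (W (Real.log n - L) * dlt D Φ X (ℓ * n))) := by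
    have h1 : ∀ n ∈ range N, HasSum (fun h : ℤ => if h = 0 then 0 else ∑ i ∈ S, a i h *
        (((X / √R : ℝ) : ℂ) * (((D.lam n / √n * gn (h * m₀ i) (ℓ * n) : ℝ) : ℂ) *
          (W (Real.log n - L) * PhF Φ (2 * π * X * h / (M * R)) (Real.log n - L)))))
        (((D.lam n / √n : ℝ) : ℂ) * (W (Real.log n - L) * dlt D Φ X (ℓ * n))) := by
      intro n _
      by_cases h2 : D.lam n = 0
      · simpa [h2] using hasSum_zero
      by_cases h3 : W (Real.log n - L) = 0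
      · simpa [h3] using hasSum_zero
      have h4 : n ≠ 0 := fun e => h2 (e ▸ D.lam0)
      have h5 : |Real.log n - L| ≤ 2 := abs_le.2
        ⟨not_lt.1 fun e => h3 (hW.supp _ (Or.inl (by linarith))),
          not_lt.1 fun e => h3 (hW.supp _ (Or.inr (by linarith)))⟩
      have h6 := ((hexp _ _ X (ℓ * n) Φ hΦ hX (mul_ne_zero hℓ h4) (hq.mul_left
        (by_contra fun e => h2 (D.lam_zero n e)))).mul_left (W (Real.log n - L))).mul_left
        ((D.lam n / √n : ℝ) : ℂ)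
      refine (congrArg (HasSum · _) (funext fun h => ?_)).mp h6
      split_ifs
      · rw [mul_zero, mul_zero]
      rw [mul_sum, mul_sum]
      refine sum_congr rfl fun i _ => ?_
      have h7 := zoff_pt (M := M) (Nat.cast_pos.2 (Nat.pos_of_ne_zero h4)) (by linarith : (0 : ℝ) < ℓ)
        X L h h5 Φ
      rw [← hR] at h7
      rw [Nat.cast_mul, ← hM, ofReal_mul, ofReal_mul]
      linear_combination ((D.lam n / √n : ℝ) : ℂ) * W (Real.log n - L) * a i h *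
        (gn (h * m₀ i) (ℓ * n) : ℝ) * h7
    refine (congrArg (HasSum · _) (funext fun h => ?_)).mp (hasSum_sum h1)
    split_ifs
    · exact sum_const_zero
    rw [sum_comm]
    refine sum_congr rfl fun i hi => ?_
    rw [← mul_sum, ← mul_sum, hU]
    simp only [sub_zero, add_zero]
    rw [tk_one D _ ℓ (V := fun y => W (y - L)) (L := L + 1) (by linarith)
      (g := fun y => PhF Φ _ (y - L)) (fun y hy => hW.supp _ (Or.inr (by linarith))) hN,
      Int.cast_mul, mul_div_cancel_right₀ _ (Int.cast_ne_zero.2 (hm i hi))]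
  refine le_of_tendsto' (Filter.Tendsto.norm hsum) fun T => ?_
  have hsR : √R ≤ Real.exp (L / 2) * ℓ := by
    rw [hR, Real.sqrt_mul (Real.exp_pos _).le, Real.exp_half]
    exact mul_le_mul_of_nonneg_left (Real.sqrt_le_iff.2 ⟨by positivity, by nlinarith⟩)
      (Real.sqrt_nonneg _)
  calc _ ≤ ∑ h ∈ T.erase 0, ∑ i ∈ S, 7 * (X / √R * ‖U i (h * m₀ i)‖) := by
        rw [← sum_erase (s := T) (a := 0) (by simp)]
        refine (norm_sum_le _ _).trans (sum_le_sum fun h hh => ?_)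
        rw [if_neg (ne_of_mem_erase hh)]
        refine (norm_sum_le _ _).trans (sum_le_sum fun i hi => ?_)
        rw [norm_mul, norm_mul, norm_real, Real.norm_of_nonneg (by positivity)]
        exact mul_le_mul_of_nonneg_right (ha i hi h) (by positivity)
    _ ≤ _ := by
        rw [sum_comm, sum_mul, sum_mul, sum_mul, sum_mul, sum_mul]
        refine sum_le_sum fun i hi => ?_
        have h1 : 0 < |(m₀ i : ℝ)| := abs_pos.2 (Int.cast_ne_zero.2 (hm i hi))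
        have h2 := H _ hIH ℓ L 0 B B₀ (C₃ * BΦ) (|(m₀ i : ℝ)| * M / (2 * π) * (R / X)) W _
          (fun k => PhF Φ (2 * π * X * (k / m₀ i) / (M * R))) ((T.erase 0).image (· * m₀ i)) hℓ hq
          (by positivity) (by positivity) (hW.mono (le_max_left _ _) le_rfl le_rfl le_rfl) hB₀
          (by simp [hm i hi]) fun k _ => by
            refine (hP BΦ _ Φ (hΦ.mono (le_max_right _ _) le_rfl le_rfl le_rfl)).mono le_rfl le_rfl
              le_rfl (le_of_eq ?_)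
            rw [abs_div, abs_mul, abs_div, abs_of_pos (by positivity : 0 < 2 * π * X),
              abs_of_pos (mul_pos hM0 hR0)]
            congr 3
            field_simp
        rw [sum_image fun x _ y _ e => mul_right_cancel₀ (hm i hi) e] at h2
        have h3 : 1 ≤ 1 + |(m₀ i : ℝ)| * M / (2 * π) * (R / X) :=
          le_add_of_nonneg_right (by positivity)
        have h4 : ll (1 + |(m₀ i : ℝ)| * M / (2 * π) * (R / X)) ≤
            ll (1 + R / X) * (1 + |(m₀ i : ℝ)| * M) := by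
          refine (ll_mono h3 ?_).trans (ll_mul (le_add_of_nonneg_right (by positivity))
            (le_add_of_nonneg_right (by positivity)))
          have h5 : |(m₀ i : ℝ)| * M / (2 * π) ≤ |(m₀ i : ℝ)| * M :=
            div_le_self (by positivity) (by linarith [Real.pi_gt_three])
          nlinarith [mul_le_mul_of_nonneg_right h5 (div_pos hR0 hX).le, div_pos hR0 hX,
            mul_pos h1 hM0]
        have h5 := zero_le_one.trans (one_le_ll h3)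
        have h6 : X / √R * (R / X) = √R := by
          have := Real.sqrt_pos.2 hR0
          field_simp
          rw [Real.sq_sqrt hR0.le]
        rw [← mul_sum, ← mul_sum, hU, ← hR]
        refine (mul_le_mul_of_nonneg_left (mul_le_mul_of_nonneg_left h2 (by positivity))
          (by norm_num)).trans ?_
        calc _ = 7 * C₂ * C₃ * B₀ * (|(m₀ i : ℝ)| * M / (2 * π)) * BΦ * B * ℓ * (X / √R * (R / X)) *
              (C₁ * ll (1 + |(m₀ i : ℝ)| * M / (2 * π) * (R / X))) ^ 2 := by ring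
          _ ≤ 7 * C₂ * C₃ * B₀ * (|(m₀ i : ℝ)| * M / (2 * π)) * BΦ * B * ℓ * (Real.exp (L / 2) * ℓ) *
              (C₁ * (ll (1 + R / X) * (1 + |(m₀ i : ℝ)| * M))) ^ 2 := by
            rw [h6]
            gcongr
          _ = _ := by ring

/-- Windows as in `trans2_mono`: `V y = ∑_{i < ⌈Lt + 1⌉₊} psi (y - i) V y` for `0 ≤ y` (`sum_psi`); enlarge `N`
first; `mtr2_geom`, `ll_mono`. -/
theorem off1V (D : Data) (hFE : D.FE) (hPS : D.PS) : ∃ (j : ℕ) (C : ℝ), 0 ≤ C ∧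
    ∀ (X Lt B BΦ : ℝ) (ℓ N : ℕ) (V Φ : ℝ → ℂ), 0 < X → ℓ ≠ 0 → ℓ.Coprime D.q → ContDiff ℝ ∞ V →
    (∀ i ≤ j, ∀ y, ‖iteratedDeriv i V y‖ ≤ B) → (∀ y, Lt < y → V y = 0) → Sm j (-1) 1 BΦ Φ →
    Real.exp Lt < N →
    ‖∑ n ∈ range N, ((D.lam n / √n : ℝ) : ℂ) * (V (Real.log n) * dlt D Φ X (ℓ * n))‖ ≤
      C * BΦ * B * (ℓ : ℝ) ^ 2 * Real.exp (Lt / 2) * ll (1 + Real.exp (Lt + 1) * ℓ / X) ^ 2 := by
  obtain ⟨j, C, hC, H⟩ := off1 D hFE hPS
  obtain ⟨B₀, hB₀⟩ := sm_psi j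
  have hB₀' := hB₀.nonneg
  refine ⟨j, C * (2 ^ j * B₀) * (2 * Real.exp 1), by positivity,
    fun X Lt B BΦ ℓ N V Φ hX hℓ hq hV hb hs hΦ hN => ?_⟩
  have hB : 0 ≤ B := (norm_nonneg _).trans (hb 0 (Nat.zero_le _) 0)
  have hBΦ := hΦ.nonneg
  obtain ⟨N', hN'⟩ := exists_nat_gt (Real.exp (Lt + 2))
  rw [sum_subset (range_subset_range.2 (le_max_left N N')) fun n _ hn => by
    have h1 : (N : ℝ) ≤ n := by exact_mod_cast not_lt.1 (mt mem_range.2 hn)
    rw [hs _ ((Real.lt_log_iff_exp_lt ((Real.exp_pos _).trans (hN.trans_le h1))).2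
      (hN.trans_le h1)), zero_mul, mul_zero]]
  have e : ∀ n : ℕ, V (Real.log n) = ∑ i ∈ range ⌈Lt + 1⌉₊,
      (psi (Real.log n - i) : ℂ) * V (Real.log n - i + i) := fun n => by
    simp only [sub_add_cancel]
    by_cases h : Lt < Real.log n
    · simp [hs _ h]
    · rw [← sum_mul, ← ofReal_sum, sum_psi (Real.log_natCast_nonneg n)
        (by linarith [not_lt.1 h, Nat.le_ceil (Lt + 1)]), ofReal_one, one_mul]
  rw [sum_congr rfl fun n _ => by rw [e n, sum_mul, mul_sum], sum_comm]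
  refine (norm_sum_le _ _).trans ((sum_le_sum (g := fun i : ℕ => C * BΦ * (2 ^ j * B₀ * B) *
    (ℓ : ℝ) ^ 2 * ll (1 + Real.exp (Lt + 1) * ℓ / X) ^ 2 * Real.exp ((i : ℝ) / 2))
    fun i hi => ?_).trans ?_)
  · have h1 : (i : ℝ) < Lt + 1 := Nat.lt_ceil.1 (mem_range.1 hi)
    have h2 : 1 ≤ 1 + Real.exp i * ℓ / X := le_add_of_nonneg_right (by positivity)
    have h3 := zero_le_one.trans (one_le_ll h2)
    refine (H X i _ BΦ ℓ _ (fun y => (psi y : ℂ) * V (y + i)) Φ hX i.cast_nonneg hℓ hq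
      (hB₀.mul (hV.comp (contDiff_id.add contDiff_const)) hB fun k hk y _ => ?_) hΦ
      ((Real.exp_lt_exp.2 (by linarith)).trans (hN'.trans_le (Nat.cast_le.2
        (le_max_right N N'))))).trans ?_
    · rw [iteratedDeriv_comp_add_const k V (i : ℝ)]
      exact hb k hk _
    · rw [mul_right_comm _ (Real.exp _)]
      gcongr
      exact ll_mono h2 (by gcongr)
  · have h1 : ∑ i ∈ range ⌈Lt + 1⌉₊, Real.exp ((i : ℝ) / 2) ≤ 2 * Real.exp 1 * Real.exp (Lt / 2) :=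
      le_of_pow_le_pow_left₀ two_ne_zero (by positivity) ((mtr2_sum Lt).trans_eq (by
        rw [mul_pow, mul_pow, ← Real.exp_nat_mul, ← Real.exp_nat_mul]
        norm_num [mul_div_cancel₀]))
    rw [← mul_sum]
    exact (mul_le_mul_of_nonneg_left h1 (by positivity)).trans_eq (by ring)

end Pool.Agent.Lib.MP_03e5d0_nt
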