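import Pool.Agent.Lib.MP_03e5d0_nt.ZKer
import Pool.Agent.Lib.MP_03e5d0_nt.MFm

set_option autoImplicit false

noncomputable section

namespace Pool.Agent.Lib.MP_03e5d0_nt

open Complex Finset MeasureTheory
open scoped NumberTheorySymbols Real ContDiff

/-! The contribution of the primes of the blocks to the first moment. -/

/-- As `Om1_differentiableOn`. -/
theorem Om3_differentiableOn (D : Data) (f : (ℕ → ℝ) → ℝ) (Z : ℝ) :
    DifferentiableOn ℂ (Om3 D f Z) {α | -1 / 4 < α.re} := by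
  unfold Om3 Ex
  refine DifferentiableOn.fun_sum fun w _ => DifferentiableOn.const_smul ?_ _
  refine DifferentiableOn.const_mul ((LP_differentiableOn (adm_ext _ w)
    fun p hp => ⟨(mem_pr.1 hp).1, (mem_pr.1 hp).2.1⟩).comp
      (differentiableOn_id.const_add _) fun α hα => ?_) _
  simp only [Set.mem_ofPred_eq, add_re, id] at hα ⊢
  norm_num
  linarith

/-- As `sum_mn_one`, with `mn_tau`. -/
theorem sum_mn_tau (D : Data) (hPS : D.PS) : ∃ C : ℝ, 0 ≤ C ∧ ∀ (Z c : ℝ) (α : ℂ), 1 ≤ Z → |c| ≤ 4 →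
    -1 ≤ α.re * Z →
    |∑ p ∈ pr D Z, mn (D.lam p) (c / √p) ((p : ℂ) ^ (-(1 / 2 + α))) 0 - ((1 + c) ^ 2 - 1) / 2 * Real.log Z| ≤
      C + C * Real.log (1 + ‖α‖ * Z) := by
  obtain ⟨C₁, h₁, H₁⟩ := mn_tau
  obtain ⟨C₂, H₂⟩ := ps_sq D hPS
  obtain ⟨C₃, H₃⟩ := ps_one D hPS
  obtain ⟨C₄, H₄⟩ := ps_min D hPS
  have h₂ : 0 ≤ C₂ := (abs_nonneg _).trans (H₂ 0)
  have h₃ : 0 ≤ C₃ := (abs_nonneg _).trans (H₃ 0)
  have h₄ : 0 ≤ C₁ * |C₄| := by positivity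
  refine ⟨C₁ + C₁ * |C₄| + 13 * C₂ + C₃, by positivity, fun Z c α hZ hc hα => ?_⟩
  have hl : ly Z = Z := max_eq_right hZ
  have e₂ := H₂ Z
  have e₃ := H₃ Z
  have e₄ := H₄ Z ‖α‖ (norm_nonneg _)
  rw [hl] at e₂ e₃ e₄
  have e₁ : |∑ p ∈ pr D Z, (mn (D.lam p) (c / √p) ((p : ℂ) ^ (-(1 / 2 + α))) 0 -
      (D.lam p ^ 2 * (1 + c) ^ 2 / 2 + (D.lam p ^ 2 - 2) / 2) / p)| ≤
        C₁ * (Real.log (1 + ‖α‖ * Z) + |C₄|) := by
    refine (abs_sum_le_sum_abs _ _).trans ((sum_le_sum fun p hp =>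
      H₁ p _ c α (mem_pr.1 hp).1.pos (D.lam_le p (mem_pr.1 hp).1) hc (mfm1_re hα hp)).trans ?_)
    rw [← mul_sum]
    exact mul_le_mul_of_nonneg_left (by linarith [le_abs_self C₄]) h₁
  have e₅ : ∑ p ∈ pr D Z, (D.lam p ^ 2 * (1 + c) ^ 2 / 2 + (D.lam p ^ 2 - 2) / 2) / p =
      ((1 + c) ^ 2 + 1) / 2 * (∑ p ∈ pr D Z, D.lam p ^ 2 / p) - ∑ p ∈ pr D Z, (1 : ℝ) / p := by
    rw [mul_sum, ← sum_sub_distrib]
    exact sum_congr rfl fun p _ => by ring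
  have e₈ : |((1 + c) ^ 2 + 1) / 2 * (∑ p ∈ pr D Z, D.lam p ^ 2 / p - Real.log Z)| ≤ 13 * C₂ := by
    refine norm_mul_le_of_le (α := ℝ) (abs_le.2 ⟨by nlinarith [sq_nonneg (1 + c)], ?_⟩) e₂
    nlinarith [abs_le.1 hc]
  rw [sum_sub_distrib, e₅] at e₁
  have e₆ : 0 ≤ Real.log (1 + ‖α‖ * Z) :=
    Real.log_nonneg (le_add_of_nonneg_right (by positivity))
  have e₇ : 0 ≤ (C₁ * |C₄| + 13 * C₂ + C₃) * Real.log (1 + ‖α‖ * Z) := by positivity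
  rw [abs_le] at e₁ e₃ e₈ ⊢
  constructor <;> linarith [e₁.1, e₁.2, e₈.1, e₈.2, e₃.1, e₃.2]

theorem kk_eq : -((kk - 1) * kk) + ((1 + (kk - 1)) ^ 2 - 1) / 2 = -((3 - 2 * √2) / 2) := by
  unfold kk
  linear_combination (-1 / 2 : ℝ) * Real.sq_sqrt (show (0 : ℝ) ≤ 2 by norm_num)

theorem zom_norm (D : Data) {y : ℝ} (hy : 0 ≤ y) (S : Finset ℕ) (x : ℕ → ℝ) (s : ℂ) :
    ‖(y : ℂ) * LP D S x s‖ = y ^ 1 * GG D S (fun p => (p : ℂ) ^ (-s)) (fun _ => 0) x := by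
  rw [norm_mul, Complex.norm_real, Real.norm_of_nonneg hy, LP, norm_prod, pow_one]
  simp only [GG, lf_zero, norm_one, mul_one]

theorem zom_real (D : Data) {y Z σ : ℝ} (hy : 0 ≤ y) (hσ : -1 ≤ σ * Z) {x : ℕ → ℝ} (hx : Adm x) :
    (y : ℂ) * LP D (pr D Z) x (1 / 2 + σ) = (‖(y : ℂ) * LP D (pr D Z) x (1 / 2 + σ)‖ : ℝ) := by
  have h := mfm1_real D 0 0 hσ hx
  simp only [VV, Ico_self, prod_empty, one_pow, ofReal_one, one_mul] at h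
  rw [norm_mul, Complex.norm_real, Real.norm_of_nonneg hy, ofReal_mul, ← h]

theorem zom_kk : |kk - 1| ≤ 4 := abs_le.2 ⟨by linarith [kk_mem.1], by linarith [kk_mem.2]⟩

/-- `norm_Ex_le`, `‖QQ * LP‖ = QQ * GG z 0` (`lf_zero`), `QQ_up` with `a = K`, `e = 1`, `c = kk - 1`,
`norm_cpow_le`, `sum_mn_tau`, `kk_eq`. -/
theorem om3_up (D : Data) (hPS : D.PS) {k₀ : ℕ} (hk : 1 ≤ k₀) (K : ℕ) : ∃ (n₀ k : ℕ) (C : ℝ), 0 ≤ C ∧
    ∀ (n : ℕ) (α : ℂ), n₀ ≤ n → -1 ≤ α.re * Real.exp (K * n) →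
    ‖Om3 D (QQ D k₀ n 0 K) (Real.exp (K * n)) α‖ ≤
      C * Real.exp ((20 * ep k₀ - (3 - 2 * √2) / 2) * (K * n)) * (1 + ‖α‖ * Real.exp (K * n)) ^ k := by
  obtain ⟨n₀, C₀, h₀, H₀⟩ := QQ_up D hPS hk K
  obtain ⟨C₁, h₁, H₁⟩ := sum_mn_tau D hPS
  refine ⟨n₀, ⌈C₁⌉₊, C₀ * Real.exp C₁, by positivity, fun n α hn hα => ?_⟩
  have hZ : 1 ≤ Real.exp (K * n) := Real.one_le_exp (by positivity)
  refine (norm_Ex_le (fun p hp => (mem_pr.1 hp).1) dl_dl1 _).trans ?_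
  simp only [zom_norm D (QQ_nonneg D k₀ n 0 K _)]
  refine (H₀ dl1 n K 1 (kk - 1) _ _ _ hn le_rfl le_rfl dl_dl1 (Or.inl rfl) zom_kk fun p hp =>
    ⟨norm_cpow_le (mem_pr.1 hp).1.pos (mfm1_re hα hp), by rw [norm_zero]; positivity⟩).trans ?_
  have h1 : 1 ≤ 1 + ‖α‖ * Real.exp (K * n) := le_add_of_nonneg_right (by positivity)
  have h2 := mul_le_mul_of_nonneg_right (Nat.le_ceil C₁) (Real.log_nonneg h1)
  have h3 := (abs_le.1 (H₁ _ _ α hZ zom_kk hα)).2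
  have h4 := congrArg (· * ((K : ℝ) * n)) kk_eq
  rw [Real.log_exp] at h3
  calc _ ≤ C₀ * Real.exp (C₁ + (20 * ep k₀ - (3 - 2 * √2) / 2) * (K * n) +
        ⌈C₁⌉₊ * Real.log (1 + ‖α‖ * Real.exp (K * n))) :=
        mul_le_mul_of_nonneg_left (Real.exp_le_exp.2 (by linarith)) h₀
    _ = _ := by
        rw [Real.exp_add, Real.exp_add, Real.exp_nat_mul, Real.exp_log (by linarith)]
        ring

/-- The real value as in `mfm1_real` (`lf_real`, `Ex_ofReal`); `QQ_GG` with `e = 1`, `Ex_prod_indep`,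
`blk_cap_low` (`zb_sums`, `ps_min`), `biUnion_zb`, `sum_mn_tau`, `kk_eq`. -/
theorem om3_low (D : Data) (hPS : D.PS) {k₀ : ℕ} (hk : 80000 ≤ k₀) (K : ℕ) : ∃ (n₀ : ℕ) (cl : ℝ), 0 < cl ∧
    ∀ (n : ℕ) (σ : ℝ), n₀ ≤ n → 0 ≤ σ → σ * Real.exp (K * n) ≤ 1 →
    ∃ H : ℝ, Om3 D (QQ D k₀ n 0 K) (Real.exp (K * n)) σ = H ∧
      cl * Real.exp ((-2 * ep k₀ - (3 - 2 * √2) / 2) * (K * n)) ≤ H := by
  obtain ⟨n₁, E₀, hE, H₀⟩ := zb_sums D hPS
  obtain ⟨C₄, H₄⟩ := ps_min D hPS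
  obtain ⟨n₂, cl, hcl, -, H₂⟩ := blk_cap_low hk (E₀ + (1 + |C₄|))
  obtain ⟨C₁, h₁, H₁⟩ := sum_mn_tau D hPS
  refine ⟨max n₁ n₂, cl ^ K * Real.exp (-(2 * C₁)), by positivity, fun n σ hn hσ hσZ => ?_⟩
  have hZ : 1 ≤ Real.exp (K * n) := Real.one_le_exp (by positivity)
  have h1 : 0 ≤ σ * Real.exp (K * n) := by positivity
  have hα : -1 ≤ (σ : ℂ).re * Real.exp (K * n) := by rw [ofReal_re]; linarith
  have hlog := Real.log_le_sub_one_of_pos (x := 1 + σ * Real.exp (K * n)) (by linarith)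
  refine ⟨Ex (pr D (Real.exp (K * n))) dl1 fun x => QQ D k₀ n 0 K x ^ 1 *
    GG D (pr D (Real.exp (K * n))) (fun p => (p : ℂ) ^ (-(1 / 2 + σ : ℂ))) (fun _ => 0) x, ?_, ?_⟩
  · rw [← Ex_ofReal]
    exact Ex_congr fun x hx _ => by
      rw [zom_real D (σ := σ) (QQ_nonneg D k₀ n 0 K x) hα hx, zom_norm D (QQ_nonneg D k₀ n 0 K x)]
  simp only [QQ_GG]
  rw [Ex_prod_indep (Ico 0 K) (zb D n) (fun k _ x y h => by
    unfold PI GG
    rw [sum_congr rfl fun p hp => by rw [h p hp], prod_congr rfl fun p hp => by rw [h p hp]])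
    (zb_disjoint D n _)]
  simp only [pow_one]
  refine le_trans ?_ (prod_le_prod (fun k _ => by positivity) fun k hk' =>
    H₂ D _ _ dl1 n σ ((le_max_right _ _).trans hn) (zb_subset D n (mem_Ico.1 hk').2)
      (fun p hp => mker_mem hp) dl_dl1 hσ (H₀ n k ((le_max_left _ _).trans hn)).1
      ((H₀ n k ((le_max_left _ _).trans hn)).2.trans (le_add_of_nonneg_right (by positivity))) ?_)
  · rw [prod_mul_distrib, prod_const, ← Real.exp_sum, sum_add_distrib, sum_const,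
      ← sum_biUnion (zb_disjoint D n _), biUnion_zb, Nat.card_Ico, Nat.sub_zero, nsmul_eq_mul,
      mul_assoc, ← Real.exp_add]
    refine mul_le_mul_of_nonneg_left (Real.exp_le_exp.2 ?_) (by positivity)
    have h3 := (abs_le.1 (H₁ _ _ σ hZ zom_kk hα)).1
    have h4 := congrArg (· * ((K : ℝ) * n)) kk_eq
    rw [Real.log_exp, Complex.norm_real, Real.norm_of_nonneg hσ] at h3
    linarith [mul_le_mul_of_nonneg_left
      (show Real.log (1 + σ * Real.exp (K * n)) ≤ 1 by linarith) h₁]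
  · have h3 := H₄ (Real.exp (K * n)) σ hσ
    rw [zker_ly (by positivity)] at h3
    refine (sum_le_sum_of_subset_of_nonneg (zb_subset D n (mem_Ico.1 hk').2) fun p _ _ =>
      div_nonneg (le_min zero_le_one (mul_nonneg hσ (Real.log_natCast_nonneg p)))
        (Nat.cast_nonneg p)).trans (by linarith [le_abs_self C₄])

end Pool.Agent.Lib.MP_03e5d0_nt
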