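import Pool.Agent.Lib.MP_03e5d0_nt.ZCls

set_option autoImplicit false

noncomputable section

namespace Pool.Agent.Lib.MP_03e5d0_nt

open Complex Finset MeasureTheory
open scoped NumberTheorySymbols Real ContDiff

/-! Exact Poisson summation over the class. -/

/-- `mper_ft` with `j = 2` (all derivatives are bounded: `tft_up`), or `Sm.ft_le`. -/
theorem summable_ft {j : ℕ} {B c : ℝ} {Φ : ℝ → ℂ} (h : Sm j (-1) 1 B Φ) (hc : 0 < c) :
    Summable fun k : ℤ => ‖ft Φ (c * k)‖ := by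
  obtain ⟨B', h'⟩ := tft_up h 2
  have hs : Summable fun n : ℤ => 1 / (n : ℝ) ^ 2 := Real.summable_one_div_int_pow.2 one_lt_two
  refine (hs.mul_left (2 * B' / c ^ 2)).of_norm_bounded_eventually ?_
  filter_upwards [Filter.eventually_cofinite_ne 0] with n hn
  have h1 : (n : ℝ) ≠ 0 := by exact_mod_cast hn
  have h2 := tft_pow h' le_rfl (c * n)
  rw [show max ((1 : ℝ) - -1) 0 = 2 by norm_num, sq_abs] at h2
  rw [norm_norm, div_mul_div_comm, mul_one, le_div_iff₀ (by positivity)]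
  calc ‖ft Φ (c * n)‖ * (c ^ 2 * (n : ℝ) ^ 2) = (c * n) ^ 2 * ‖ft Φ (c * n)‖ := by ring
    _ ≤ 2 * B' := h2

open scoped FourierTransform in
theorem zpoi_scale (Φ : ℝ → ℂ) {Y R : ℝ} (hY : 0 < Y) (hR : 0 < R) (t : ℝ) :
    𝓕 (fun x => Φ (x * (R / Y))) t = ((2 * π * Y / R : ℝ) : ℂ) * ft Φ (2 * π * Y / R * t) := by
  have hp : (π : ℂ) ≠ 0 := ofReal_ne_zero.mpr Real.pi_ne_zero
  have hp' := Real.pi_pos
  have hY' : (Y : ℂ) ≠ 0 := ofReal_ne_zero.mpr hY.ne'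
  have hR' : (R : ℂ) ≠ 0 := ofReal_ne_zero.mpr hR.ne'
  rw [mper_scale Φ (div_pos hR hY), tft_eq,
    show 2 * π * Y / R * t / (2 * π) = t / (R / Y) by field_simp, ← mul_assoc]
  congr 1
  push_cast
  field_simp

/-- Poisson summation for `y ↦ Φ ((r + y R) / Y)`, as in the proof of `per_class`; `tft_eq`, `mper_scale`. -/
theorem poisson_class {j : ℕ} {B Y R : ℝ} {Φ : ℝ → ℂ} (h : Sm j (-1) 1 B Φ) (hY : 0 < Y) (hR : 0 < R) (r : ℝ) :
    ∑' k : ℤ, Φ ((r + k * R) / Y) =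
      ∑' k : ℤ, ((2 * π * Y / R : ℝ) : ℂ) * ft Φ (2 * π * Y / R * k) * cexp (2 * π * I * (r * k / R)) := by
  have ha0 : 0 < R / Y := div_pos hR hY
  have hc : 0 < 2 * π * Y / R := by have := Real.pi_pos; positivity
  have sm : Summable fun n : ℤ => FourierTransform.fourier (fun x => Φ (x * (R / Y))) (n : ℝ) := by
    simp only [zpoi_scale Φ hY hR]
    exact (summable_ft h hc).of_norm.mul_left _
  have hcs : HasCompactSupport fun x => Φ (x * (R / Y)) :=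
    (show HasCompactSupport Φ by simpa using tft_hcs h 0).comp_homeomorph
      (Homeomorph.mulRight₀ (R / Y) ha0.ne')
  have po := Real.tsum_eq_tsum_fourier_of_rpow_decay_of_summable (f := fun x => Φ (x * (R / Y)))
    (h.smooth.continuous.comp (by fun_prop)) one_lt_two
    ((Asymptotics.isBigO_zero _ _).congr' (by
      rw [← Filter.coclosedCompact_eq_cocompact]
      exact (hasCompactSupport_iff_eventuallyEq.1 hcs).symm) Filter.EventuallyEq.rfl) sm (r / R)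
  have e1 : ∀ k : ℤ, (r + k * R) / Y = (r / R + k) * (R / Y) := fun k => by
    field_simp
  simp only [e1]
  rw [po]
  refine tsum_congr fun k => ?_
  rw [zpoi_scale Φ hY hR, fourier_coe_apply]
  congr 2
  push_cast
  ring

/-- Split the integers into classes mod `R`, as in the proof of `per`; `hasSum_sum`. -/
theorem poisson_per {j : ℕ} {B Y : ℝ} {R : ℕ} {Φ : ℝ → ℂ} (h : Sm j (-1) 1 B Φ) (hY : 0 < Y) (hR : 0 < R)
    {g : ℤ → ℂ} (hg : ∀ m, g (m + R) = g m) :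
    HasSum (fun k : ℤ => ((2 * π * Y / R : ℝ) : ℂ) * ft Φ (2 * π * Y / R * k) *
        ∑ b ∈ range R, g b * cexp (2 * π * I * (b * k / R)))
      (∑' m : ℤ, Φ (m / Y) * g m) := by
  have : NeZero R := ⟨hR.ne'⟩
  have hR' : (0 : ℝ) < R := by exact_mod_cast hR
  have hc : 0 < 2 * π * Y / R := by have := Real.pi_pos; positivity
  have sm : Summable fun m : ℤ => Φ (m / Y) * g m := by
    refine summable_of_ne_finset_zero (s := Icc (-⌈Y⌉) ⌈Y⌉) fun m hm => ?_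
    rw [mem_Icc, not_and_or, not_le, not_le] at hm
    have h1 := Int.le_ceil Y
    rw [h.supp _ (hm.imp (fun e => ?_) fun e => ?_), zero_mul]
    · have e' : (m : ℝ) < -⌈Y⌉ := by exact_mod_cast e
      rw [div_lt_iff₀ hY]
      linarith
    · have e' : (⌈Y⌉ : ℝ) < m := by exact_mod_cast e
      rw [lt_div_iff₀ hY]
      linarith
  let e : Fin R × ℤ ≃ ℤ := (Equiv.prodComm _ _).trans (Int.divModEquiv R).symm
  have he : ∀ (r : Fin R) (k : ℤ), e (r, k) = (r : ℕ) + k * R := fun _ _ => add_comm _ _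
  have e1 : ∑' m : ℤ, Φ (m / Y) * g m =
      ∑ r ∈ range R, (∑' k : ℤ, Φ (((r : ℝ) + k * (R : ℝ)) / Y)) * g r := by
    rw [← e.tsum_eq, sum_range, ← tsum_fintype (L := SummationFilter.unconditional _)]
    refine (e.summable_iff.2 sm).tsum_prod.trans (tsum_congr fun r => ?_)
    rw [← tsum_mul_right]
    refine tsum_congr fun k => ?_
    rw [Function.comp_apply, he,
      show g (((r : ℕ) : ℤ) + k * R) = g (r : ℕ) from Function.Periodic.int_mul (f := g) hg k _]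
    push_cast
    rfl
  have hb : ∀ b ∈ range R, HasSum (fun k : ℤ => ((2 * π * Y / R : ℝ) : ℂ) * ft Φ (2 * π * Y / R * k) *
      cexp (2 * π * I * (((b : ℝ) : ℂ) * k / ((R : ℝ) : ℂ))) * g b)
      ((∑' k : ℤ, Φ (((b : ℝ) + k * (R : ℝ)) / Y)) * g b) := fun b _ => by
    rw [poisson_class h hY hR' b]
    refine HasSum.mul_right _ (Summable.hasSum ?_)
    refine ((summable_ft h hc).mul_left ‖((2 * π * Y / R : ℝ) : ℂ)‖).of_norm_bounded fun k => ?_
    rw [norm_mul, norm_mul, show 2 * π * I * (((b : ℝ) : ℂ) * k / ((R : ℝ) : ℂ)) =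
      ((2 * π * (b * k / R) : ℝ) : ℂ) * I by push_cast; ring, norm_exp_ofReal_mul_I, mul_one]
  rw [e1]
  refine (hasSum_sum hb).congr_fun fun k => ?_
  rw [mul_sum]
  refine sum_congr rfl fun b _ => ?_
  push_cast
  ring

/-- `poisson_per` with `R = 8 q r`, `cls_gauss_expand` (divide `a` by `8 q / (2 π)`), and `cls_gauss_zero` for
`k = 0`, where `2 π ft Φ 0 = ∫ Φ`. -/
theorem dlt_expand (D : Data) : ∃ (ι : Type) (S : Finset ι) (m₀ : ι → ℤ) (a : ι → ℤ → ℂ),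
    (∀ i ∈ S, m₀ i ≠ 0) ∧ (∀ i ∈ S, ∀ h, ‖a i h‖ ≤ 7) ∧
    ∀ (j : ℕ) (B X : ℝ) (r : ℕ) (Φ : ℝ → ℂ), Sm j (-1) 1 B Φ → 0 < X → r ≠ 0 → r.Coprime D.q →
    HasSum (fun h : ℤ => if h = 0 then 0 else ∑ i ∈ S, a i h *
        (((X / √r * gn (h * m₀ i) r : ℝ) : ℂ) * ft Φ (2 * π * X / (8 * D.q * r) * h)))
      (dlt D Φ X r) := by
  obtain ⟨ι, S, m₀, a, h0, ha, h⟩ := cls_gauss_expand D
  have hq : (0 : ℝ) < D.q := by exact_mod_cast Nat.pos_of_ne_zero D.q_ne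
  have hp := Real.pi_pos
  refine ⟨ι, S, m₀, fun i k => ((2 * π / (8 * D.q) : ℝ) : ℂ) * a i k, h0, fun i hi k => ?_,
    fun j B X r Φ hΦ hX hr0 hr => ?_⟩
  · rw [norm_mul, norm_real, Real.norm_of_nonneg (by positivity)]
    calc 2 * π / (8 * D.q) * ‖a i k‖ ≤ 2 * π / (8 * D.q) * (8 * D.q) := by gcongr; exact ha i hi k
      _ = 2 * π := by field_simp
      _ ≤ 7 := by linarith [Real.pi_lt_d2]
  have hr' : (0 : ℝ) < r := by exact_mod_cast Nat.pos_of_ne_zero hr0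
  have hR : 0 < 8 * D.q * r := Nat.mul_pos (Nat.mul_pos (by norm_num) (Nat.pos_of_ne_zero D.q_ne))
    (Nat.pos_of_ne_zero hr0)
  have hg : ∀ m : ℤ, ((cls D (m + (8 * D.q * r : ℕ)) * J(m + (8 * D.q * r : ℕ) | r) : ℝ) : ℂ) =
      ((cls D m * J(m | r) : ℝ) : ℂ) := fun m => by
    rw [cls_congr D (e := m) (by
        rw [Nat.cast_mul (8 * D.q) r]
        exact Int.add_mul_emod_self_left _ _ _),
      jacobiSym.mod_left' (a₂ := m) (by
        rw [Nat.cast_mul (8 * D.q) r]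
        exact Int.add_mul_emod_self_right _ _ _)]
  have hs := poisson_per (g := fun m => ((cls D m * J(m | r) : ℝ) : ℂ)) hΦ hX hR hg
  have hz := hs.sub (hasSum_ite_eq (0 : ℤ) (((X * mu0 D * rho dl0 r : ℝ) : ℂ) * ∫ y, Φ y))
  refine hz.congr_fun fun k => ?_
  have hq' : (D.q : ℂ) ≠ 0 := by exact_mod_cast D.q_ne
  have hr'' : (r : ℂ) ≠ 0 := by exact_mod_cast hr0
  have hp' : (π : ℂ) ≠ 0 := ofReal_ne_zero.mpr Real.pi_ne_zero
  split_ifs with hk
  · have e0 : ∑ b ∈ range (8 * D.q * r), ((cls D b * J((b : ℤ) | r) : ℝ) : ℂ) =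
        ((8 * D.q * r * (mu0 D * rho dl0 r) : ℝ) : ℂ) := by
      rw [← cls_gauss_zero D hr0 hr, ofReal_sum]
    subst hk
    simp only [Int.cast_zero, mul_zero, zero_div, Complex.exp_zero, mul_one, ft, neg_zero, ex,
      ofReal_zero, zero_mul]
    rw [e0]
    push_cast
    field_simp
    ring
  · rw [h k r hr0 hr, sub_zero, mul_sum, mul_sum]
    refine sum_congr rfl fun i _ => ?_
    have e1 : (√r : ℝ) ≠ 0 := (Real.sqrt_pos.2 hr').ne'
    have e2 : (2 * π * X / ((8 * D.q * r : ℕ) : ℝ) * √r : ℝ) = 2 * π / (8 * D.q) * (X / √r) := by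
      push_cast
      field_simp
      rw [Real.sq_sqrt hr'.le]
    have e3 : ((2 * π * X / ((8 * D.q * r : ℕ) : ℝ) : ℝ) : ℂ) * (√r : ℝ) =
        ((2 * π / (8 * D.q) : ℝ) : ℂ) * ((X / √r : ℝ) : ℂ) := by
      rw [← ofReal_mul, e2, ofReal_mul]
    rw [ofReal_mul (X / √r), show ((8 * D.q * r : ℕ) : ℝ) = 8 * D.q * r by push_cast; rfl] at *
    linear_combination (-(a i k * (gn (k * m₀ i) r : ℝ) * ft Φ (2 * π * X / (8 * D.q * r) * k))) * e3

theorem zpoi_id (i : ℕ) {y : ℝ} (hy : y ∈ Set.Icc (-1 : ℝ) 1) :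
    ‖iteratedDeriv i (fun y : ℝ => (y : ℂ)) y‖ ≤ 1 := by
  rcases i with _ | i
  · simpa using abs_le.2 hy
  · have e : deriv (fun y : ℝ => (y : ℂ)) = fun _ => 1 :=
      funext fun y => (hasDerivAt_id (y : ℂ)).comp_ofReal.deriv
    rw [iteratedDeriv_succ', e]
    rcases i with _ | i <;> simp [iteratedDeriv_const]

theorem zpoi_mul {j : ℕ} {B : ℝ} {Φ : ℝ → ℂ} (h : Sm j (-1) 1 B Φ) :
    Sm j (-1) 1 (2 ^ j * B * 1) fun y => Φ y * y :=
  h.mul (g := fun y : ℝ => (y : ℂ)) ofRealCLM.contDiff zero_le_one fun i _ _ hy => zpoi_id i hy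

theorem zpoi_der {j : ℕ} {a b B : ℝ} {Φ : ℝ → ℂ} (h : Sm (j + 1) a b B Φ) : Sm j a b B (deriv Φ) where
  smooth := by simpa using h.smooth.iterate_deriv 1
  supp y hy := by simpa using tft_supp h 1 hy
  bd i hi y := by
    rw [← iteratedDeriv_succ']
    exact h.bd _ (by omega) y

open scoped FourierTransform in
theorem zpoi_deriv {j : ℕ} {B : ℝ} {Φ : ℝ → ℂ} (h : Sm j (-1) 1 B Φ) (ξ v : ℝ) :
    HasDerivAt (fun v => ft Φ (ξ * Real.exp (-v)))
      (ft (deriv fun y => Φ y * y) (ξ * Real.exp (-v))) v := by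
  have h1 := zpoi_mul h
  have i0 : Integrable Φ := by simpa using tft_int h 0
  have i1 : Integrable fun y => Φ y * y := by simpa using tft_int h1 0
  have i2 : Integrable (deriv fun y => Φ y * y) := by simpa using tft_int h1 1
  have hp : (π : ℂ) ≠ 0 := ofReal_ne_zero.mpr Real.pi_ne_zero
  have d1 := Real.hasDerivAt_fourier i0 (by simpa [mul_comm] using i1) (ξ * Real.exp (-v) / (2 * π))
  have d2 : HasDerivAt (fun v => ξ * Real.exp (-v) / (2 * π)) (-(ξ * Real.exp (-v) / (2 * π))) v := by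
    exact ((((hasDerivAt_neg v).exp).const_mul ξ).div_const (2 * π)).congr_deriv (by ring)
  have d3 := (d1.scomp v d2).const_mul (2 * π : ℂ)⁻¹
  have e1 : ∀ t : ℝ, 𝓕 (fun x : ℝ => (-2 * π * I * x) • Φ x) t =
      (-2 * π * I : ℂ) * 𝓕 (fun y => Φ y * y) t := fun t => by
    rw [Real.fourier_real_eq_integral_exp_smul, Real.fourier_real_eq_integral_exp_smul,
      ← integral_const_mul]
    refine integral_congr_ae (ae_of_all _ fun y => ?_)
    simp only [smul_eq_mul]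
    ring
  simp only [tft_eq]
  rw [Real.fourier_deriv i1 (h1.smooth.differentiable (by simp)) i2]
  refine d3.congr_deriv ?_
  rw [e1]
  simp only [smul_eq_mul, real_smul]
  push_cast
  ring

theorem zpoi_smooth (ξ : ℝ) (n : ℕ) : ∀ (j : ℕ) (B : ℝ) (Φ : ℝ → ℂ), Sm j (-1) 1 B Φ →
    ContDiff ℝ n fun v => ft Φ (ξ * Real.exp (-v)) := by
  induction n with
  | zero =>
    intro j B Φ h
    exact contDiff_zero.2 (continuous_iff_continuousAt.2 fun v => (zpoi_deriv h ξ v).continuousAt)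
  | succ n ih =>
    intro j B Φ h
    obtain ⟨B', h'⟩ := tft_up h 1
    rw [Nat.cast_succ, contDiff_succ_iff_deriv]
    refine ⟨fun v => (zpoi_deriv h ξ v).differentiableAt, by simp, ?_⟩
    rw [funext fun v => (zpoi_deriv h ξ v).deriv]
    exact ih _ _ _ (zpoi_der (zpoi_mul h'))

theorem zpoi_bd (e j : ℕ) : ∃ C : ℝ, 0 ≤ C ∧ ∀ (B ξ : ℝ) (Φ : ℝ → ℂ), Sm (j + e) (-1) 1 B Φ →
    ∀ i ≤ j, ∀ v ∈ Set.Icc (-3 : ℝ) 3,
      ‖iteratedDeriv i (fun v => ft Φ (ξ * Real.exp (-v))) v‖ ≤ C * B / (1 + |ξ|) ^ e := by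
  induction j with
  | zero =>
    obtain ⟨C, hC, h⟩ := Sm.ft_le e 2
    refine ⟨C * Real.exp 3 ^ e, by positivity, fun B ξ Φ hΦ i hi v hv => ?_⟩
    rw [Nat.le_zero.1 hi, iteratedDeriv_zero]
    rw [zero_add] at hΦ
    have hB := hΦ.nonneg
    refine (h _ _ B Φ (by norm_num) hΦ _).trans ?_
    have h1 : 1 ≤ Real.exp 3 := Real.one_le_exp (by norm_num)
    have h2 : 1 ≤ Real.exp 3 * Real.exp (-v) := by
      rw [← Real.exp_add]
      exact Real.one_le_exp (by linarith [hv.2])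
    have h3 : 1 + |ξ| ≤ Real.exp 3 * (1 + |ξ * Real.exp (-v)|) := by
      rw [abs_mul, abs_of_pos (Real.exp_pos _)]
      nlinarith [abs_nonneg ξ]
    have h4 := pow_le_pow_left₀ (by positivity) h3 e
    rw [mul_pow] at h4
    rw [div_le_div_iff₀ (by positivity) (by positivity)]
    calc C * B * (1 + |ξ|) ^ e ≤ C * B * (Real.exp 3 ^ e * (1 + |ξ * Real.exp (-v)|) ^ e) := by gcongr
      _ = _ := by ring
  | succ j ih =>
    obtain ⟨C, hC, h⟩ := ih
    refine ⟨C * 2 ^ (j + e + 1), by positivity, fun B ξ Φ hΦ i hi v hv => ?_⟩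
    have hB := hΦ.nonneg
    rw [show j + 1 + e = j + e + 1 by ring] at hΦ
    rcases i with _ | i
    · refine (h B ξ Φ (hΦ.mono (by omega) le_rfl le_rfl le_rfl) 0 (by omega) v hv).trans ?_
      have h1 : (1 : ℝ) ≤ 2 ^ (j + e + 1) := one_le_pow₀ one_le_two
      gcongr
      nlinarith
    · rw [iteratedDeriv_succ', funext fun v => (zpoi_deriv hΦ ξ v).deriv]
      refine (h _ ξ _ (zpoi_der (zpoi_mul hΦ)) i (by omega) v hv).trans (le_of_eq ?_)
      ring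

/-- The coupling weight. Apply `Sm.mul_holo` to `bump 2` and `g z = exp (-z / 2) * F (ξ exp (-z))`, where
`F w = (2 π)⁻¹ ∫ Φ y exp (-i w y)` is entire, with `δ = 1 / (1 + |ξ|)`: on the rectangle `|im (ξ exp (-z))| ≤ exp 4`,
`|re (ξ exp (-z))| ≥ |ξ| exp (-4) / 2`, and `F (u + i v) = ft (fun y => Φ y * exp (v y)) u` is bounded by `Sm.mul`,
`Sm.ft_le` with order `j + e`. Alternatively differentiate directly: `w F'(w) = -F - ft (y Φ')`, so the `i`-th
derivative in `v` of `exp (-v / 2) ft Φ (ξ exp (-v))` has the same shape with `Φ` replaced by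
`(1 / 2 + y d/dy) ^ i Φ`. -/
theorem sm_PhF (j e : ℕ) : ∃ (j' : ℕ) (C : ℝ), 0 ≤ C ∧ ∀ (B ξ : ℝ) (Φ : ℝ → ℂ), Sm j' (-1) 1 B Φ →
    Sm j (-3) 3 (C * B / (1 + |ξ|) ^ e) (PhF Φ ξ) := by
  obtain ⟨C, hC, h⟩ := zpoi_bd e j
  obtain ⟨B₀, h₀⟩ := sm_bump j 2
  obtain ⟨B₁, h₁⟩ : ∃ B₁, Sm j (-3) 3 B₁ fun v : ℝ => (bump 2 v : ℂ) * (Real.exp (-(v / 2)) : ℝ) := by
    refine exists_sm j (h₀.smooth.mul (ofRealCLM.contDiff.comp
      (show ContDiff ℝ ∞ fun v : ℝ => Real.exp (-(v / 2)) by fun_prop))) fun y hy => ?_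
    rw [h₀.supp y (hy.imp (fun e => by linarith) fun e => by linarith), zero_mul]
  have hB₁ := h₁.nonneg
  refine ⟨j + e, 2 ^ j * B₁ * C, by positivity, fun B ξ Φ hΦ => ?_⟩
  have hB := hΦ.nonneg
  have h2 := h₁.mul (g := fun v => ft Φ (ξ * Real.exp (-v)))
    (contDiff_infty.2 fun n => zpoi_smooth ξ n _ _ _ hΦ) (by positivity) (h B ξ Φ hΦ)
  have e1 : PhF Φ ξ = fun v : ℝ => (bump 2 v : ℂ) * (Real.exp (-(v / 2)) : ℝ) * ft Φ (ξ * Real.exp (-v)) :=
    funext fun v => (mul_assoc _ _ _).symm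
  rw [e1]
  exact h2.mono le_rfl le_rfl le_rfl (le_of_eq (by ring))

end Pool.Agent.Lib.MP_03e5d0_nt
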