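import Pool.Agent.Lib.MP_03e5d0_nt.ZPoly
import Pool.Agent.Lib.MP_03e5d0_nt.MSm2

set_option autoImplicit false

noncomputable section

namespace Pool.Agent.Lib.MP_03e5d0_nt

open Complex Finset MeasureTheory
open scoped NumberTheorySymbols Real ContDiff

/-! Weighted second moments of a piece. -/

/-- The proof of `sm2` (file `MSm2`) with the polynomial and the kernel bound as hypotheses; `c'` comes from
`trans2`; the error is at most `C B ^ 2 X / L ^ 2`. -/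
theorem sm2_gen (D : Data) (hFE : D.FE) (hPS : D.PS) (k : ℕ) : ∃ (c' j : ℕ) (C X₀ : ℝ), 0 ≤ C ∧
    ∀ (X y U L' B Λ' Ms : ℝ) (f : (ℕ → ℝ) → ℝ) (Θ : ℝ → ℂ), X₀ ≤ X → (∀ x, 0 ≤ f x) →
    Poly D (Real.exp y) f → 0 ≤ y → (c' + 1) * y ≤ U / 2 → 0 ≤ Λ' → Λ' ≤ U → 0 ≤ Ms →
    8 * Real.log (Real.log X) ≤ U → U ≤ Real.log X → L' ≤ Real.log X → Sm j 1 4 B Θ →
    (∀ t₁ t₂ : ℝ, ‖Ex (pr D (Real.log X)) dl0 fun x => (f x : ℂ) *
        (LP D (pr D (Real.log X)) x (1 / 2 + I * t₁) * LP D (pr D (Real.log X)) x (1 / 2 - I * t₂))‖ ≤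
      Ms * ((1 + |t₁| * Λ') * (1 + |t₂| * Λ') * (2 + |t₁|) * (2 + |t₂|)) ^ k * kr (Real.log X) (t₁ - t₂)) →
    ∑ m ∈ allm X, f (jac m) * ‖pc D (jac m) L' U Θ‖ ^ 2 ≤
      C * X * B ^ 2 * (Ms * U * (1 + Real.log (1 + Real.log X / U)) + 1) := by
  obtain ⟨c', j₁, C₃, hC₃, H₃⟩ := trans2 D hFE hPS
  obtain ⟨j₂, C₂, hC₂, H₂⟩ := diag_bound k
  refine ⟨c', max j₁ j₂, Real.exp π * (C₂ + 4 * C₃), Real.exp 3, by positivity,
    fun X y U L' B Λ' Ms f Θ hX hf hP hy0 hy h0 hΛ hM h8 hUL hL' hΘ hK => ?_⟩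
  obtain ⟨hX3, hL3, hXe, hl0, hl1⟩ := msm2_big hX
  set L := Real.log X with hL
  have hlog : 1 ≤ Real.log L := (Real.le_log_iff_exp_le (by linarith)).2
    (by linarith [Real.exp_one_lt_d9])
  have hU1 : 1 ≤ U := by linarith
  obtain ⟨hy1, hy2⟩ := msm2_pow hy0 hy
  have hB := hΘ.nonneg
  have haf := (hΘ.mono (le_max_left _ _) le_rfl le_rfl le_rfl).affine L' hU1
  have h3 := H₃ X (Real.exp y) B (L' - U) L f (fun y => Θ ((L' - y) / U)) hX3 hP
    (Real.one_le_exp hy0) (hXe ▸ Real.exp_le_exp.2 (by linarith)) haf.1 haf.2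
    (pc_supp hΘ (by linarith)) (by linarith) (by linarith) (by rw [Real.log_exp]; linarith)
  have h2 := H₂ D dl0 f L Λ' Ms U L' 1 4 B Θ (by linarith) hU1 h0 hΛ hM (by norm_num) le_rfl
    (hΘ.mono (le_max_right _ _) le_rfl le_rfl le_rfl) hK
  have h1 := sum_allm_le_gsum (X := X) (by linarith) (f := fun x => f x * ‖pc D x L' U Θ‖ ^ 2)
    (fun x _ => mul_nonneg (hf x) (sq_nonneg _)) (K := Real.exp y * (2 * B * Real.exp L') ^ 2)
    fun x hx => mul_le_mul ((le_abs_self _).trans (hP.abs_le hx))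
      (pow_le_pow_left₀ (norm_nonneg _) (norm_pc_le hx hΘ (by linarith)) 2) (by positivity)
      (Real.exp_pos _).le
  refine h1.trans ?_
  set g : ℝ := 1 + Real.log (1 + L / U) with hg
  have hg1 : 1 ≤ g := le_add_of_nonneg_right (Real.log_nonneg (le_add_of_nonneg_right (by positivity)))
  have hL0 : 0 < L := by linarith
  have e1 : Real.exp (U / 2) * Real.exp (L' - U) ≤ X / L ^ 4 := by
    rw [← Real.exp_add, ← hXe, ← Real.exp_log (pow_pos hL0 4), ← Real.exp_sub, Real.log_pow]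
    exact Real.exp_le_exp.2 (by push_cast; linarith)
  have e2 : ll X ^ 2 ≤ (2 * L) ^ 2 := pow_le_pow_left₀ hl0 (by linarith) 2
  have e3 : C₃ * B ^ 2 * Real.exp y ^ c' * Real.exp (L' - U) * ll X ^ 2 ≤ 4 * C₃ * X * B ^ 2 :=
    calc _ = C₃ * B ^ 2 * (Real.exp y ^ c' * Real.exp (L' - U)) * ll X ^ 2 := by ring
      _ ≤ C₃ * B ^ 2 * (X / L ^ 4) * (2 * L) ^ 2 := by
        gcongr
        exact (mul_le_mul_of_nonneg_right hy1 (Real.exp_pos _).le).trans e1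
      _ = 4 * C₃ * X * B ^ 2 / L ^ 2 := by field_simp; norm_num
      _ ≤ _ := div_le_self (by positivity) (one_le_pow₀ (by linarith))
  have e4 := mul_le_mul_of_nonneg_left h2 (show 0 ≤ X by linarith)
  have e5 := (abs_le.1 h3).2
  have e6 : 0 ≤ C₂ * X * B ^ 2 := by positivity
  have e7 : 0 ≤ C₃ * X * B ^ 2 * (Ms * U * g) := by positivity
  rw [mul_assoc, mul_assoc, mul_assoc]
  refine mul_le_mul_of_nonneg_left ?_ (Real.exp_pos _).le
  unfold pc at e4 ⊢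
  linarith

/-- `sm2_gen` with `ker2`, `Λ' = exp (a n)`, `y = 48 k₀ n ^ 4 exp (a n)` (`poly_QQ` with `e = 2`), or `y = 0` if
`a = 0`; `A = 96 k₀ (c' + 1)`. In both cases `exp (a n) ≤ U`; `L / U ≤ L`. -/
theorem piece2 (D : Data) (hFE : D.FE) (hPS : D.PS) {k₀ : ℕ} (hk : 1 ≤ k₀) (K : ℕ) :
    ∃ (n₀ j : ℕ) (A C X₀ : ℝ), 1 ≤ A ∧ 0 ≤ C ∧ ∀ (X U L' B : ℝ) (n a : ℕ) (Θ : ℝ → ℂ), X₀ ≤ X → n₀ ≤ n →
    a ≤ K → (A * (n : ℝ) ^ 4 * Real.exp (a * n) ≤ U ∨ a = 0) → 8 * Real.log (Real.log X) ≤ U →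
    U ≤ Real.log X → L' ≤ Real.log X → Sm j 1 4 B Θ →
    ∑ m ∈ allm X, QQ D k₀ n 0 a (jac m) ^ 2 * ‖pc D (jac m) L' U Θ‖ ^ 2 ≤
      C * X * B ^ 2 * (Real.exp (20 * ep k₀ * (K * n)) * (U / Real.exp (a * n)) *
        (1 + Real.log (1 + Real.log X))) := by
  obtain ⟨n₀, k, C₁, hC₁, H₁⟩ := ker2 D hPS hk K
  obtain ⟨c', j, C, X₀, hC, H⟩ := sm2_gen D hFE hPS k
  have hk' : (1 : ℝ) ≤ k₀ := by exact_mod_cast hk
  have hA : (1 : ℝ) ≤ 96 * k₀ * (c' + 1) := by nlinarith [(Nat.cast_nonneg c' : (0 : ℝ) ≤ c')]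
  refine ⟨max n₀ 1, j, 96 * k₀ * (c' + 1), C * (C₁ + 1), max X₀ (Real.exp 3), hA, by positivity,
    fun X U L' B n a Θ hX hn ha hU h8 hUL hL' hΘ => ?_⟩
  rw [max_le_iff] at hX hn
  obtain ⟨hX3, hL3, -⟩ := msm2_big hX.2
  have hlog : 1 ≤ Real.log (Real.log X) := (Real.le_log_iff_exp_le (by linarith)).2
    (by linarith [Real.exp_one_lt_d9])
  have hU1 : 1 ≤ U := by linarith
  obtain ⟨y, hy0, hy, hP, hz⟩ : ∃ y : ℝ, 0 ≤ y ∧ (c' + 1) * y ≤ U / 2 ∧
      Poly D (Real.exp y) (fun x => QQ D k₀ n 0 a x ^ 2) ∧ Real.exp (a * n) ≤ U := by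
    rcases hU with hU | rfl
    · refine ⟨_, by positivity, by push_cast; linarith, poly_QQ D k₀ hn.2 a 2, le_trans ?_ hU⟩
      exact le_mul_of_one_le_left (Real.exp_pos _).le (one_le_mul_of_one_le_of_one_le hA
        (one_le_pow₀ (by exact_mod_cast hn.2)))
    · exact ⟨0, le_rfl, by linarith, by simpa [QQ] using poly_one D, by simpa using hU1⟩
  refine (H X y U L' B _ _ _ Θ hX.1 (fun x => sq_nonneg _) hP hy0 hy (Real.exp_pos _).le hz
    (by positivity) h8 hUL hL' hΘ fun t₁ t₂ =>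
      H₁ dl0 n a _ t₁ t₂ hn.1 ha (hz.trans hUL) dl_dl0).trans ?_
  have h1 : 1 ≤ Real.exp (20 * ep k₀ * (K * n)) := Real.one_le_exp (by unfold ep; positivity)
  have h2 : 1 ≤ U / Real.exp (a * n) := (one_le_div (Real.exp_pos _)).2 hz
  have h3 : 0 ≤ Real.log (1 + Real.log X) := Real.log_nonneg (by linarith)
  have h4 : Real.log (1 + Real.log X / U) ≤ Real.log (1 + Real.log X) :=
    Real.log_le_log (by positivity) (by linarith [div_le_self (by linarith : 0 ≤ Real.log X) hU1])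
  have h5 := one_le_mul_of_one_le_of_one_le (one_le_mul_of_one_le_of_one_le h1 h2)
    (le_add_of_nonneg_right h3)
  calc _ ≤ C * X * B ^ 2 * (C₁ * Real.exp (20 * ep k₀ * (K * n)) / Real.exp (a * n) * U *
        (1 + Real.log (1 + Real.log X)) + Real.exp (20 * ep k₀ * (K * n)) * (U / Real.exp (a * n)) *
        (1 + Real.log (1 + Real.log X))) := by gcongr
    _ = _ := by ring

/-- On the good set `qK ≤ 2 ^ (K - a) * QQ 0 a` (`QQ_mul`, `cap_le_two`). -/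
theorem qK_le (D : Data) {k₀ : ℕ} (hk : 1 ≤ k₀) : ∃ n₀ : ℕ, ∀ (n a K : ℕ) (m : ℤ), n₀ ≤ n → a ≤ K →
    Good2 D n K (jac m) → ‖qK D k₀ n K m‖ ≤ 2 ^ K * QQ D k₀ n 0 a (jac m) := by
  obtain ⟨n₀, H⟩ := cap_le_two hk
  refine ⟨n₀, fun n a K m hn ha hg => ?_⟩
  rw [qK, norm_real, Real.norm_of_nonneg (QQ_nonneg ..), ← QQ_mul D k₀ n (Nat.zero_le a) ha, mul_comm]
  refine mul_le_mul_of_nonneg_right ((prod_le_prod (fun _ _ => cap_nonneg ..) fun k hk =>
    H n hn _ (hg k (mem_Ico.1 hk).2)).trans ?_) (QQ_nonneg ..)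
  rw [prod_const, Nat.card_Ico]
  exact pow_le_pow_right₀ one_le_two (Nat.sub_le _ _)

/-- Take the largest `a ≤ K` with `A n ^ 4 exp (a n) ≤ U` or `a = 0` (`Nat.findGreatest`). If `a < K` then
`U ≤ A n ^ 4 exp ((a + 1) n)`; if `a = K` then `U / exp (a n) ≤ L / exp (K n)`. -/
theorem piece3 (D : Data) (hFE : D.FE) (hPS : D.PS) {k₀ : ℕ} (hk : 1 ≤ k₀) (K : ℕ) :
    ∃ (n₀ j : ℕ) (C X₀ : ℝ), 0 ≤ C ∧ ∀ (X U L' B : ℝ) (n : ℕ) (Θ : ℝ → ℂ) (T : Finset ℤ), X₀ ≤ X → n₀ ≤ n →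
    8 * Real.log (Real.log X) ≤ U → U ≤ Real.log X → L' ≤ Real.log X → Sm j 1 4 B Θ → T ⊆ allm X →
    (∀ d ∈ T, Good2 D n K (jac d)) →
    nrm T (fun m => qK D k₀ n K m * pc D (jac m) L' U Θ) ≤ C * B * √X *
      √(Real.exp (20 * ep k₀ * (K * n)) * ((n : ℝ) ^ 4 * Real.exp n + Real.log X / Real.exp (K * n)) *
        (1 + Real.log (1 + Real.log X))) := by
  classical
  obtain ⟨n₀, j, A, C, X₀, hA, hC, H⟩ := piece2 D hFE hPS hk K
  obtain ⟨n₁, H₁⟩ := qK_le D hk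
  refine ⟨max n₀ n₁, j, 2 ^ K * √(C * A), max X₀ (Real.exp 3), by positivity,
    fun X U L' B n Θ T hX hn h8 hUL hL' hΘ hT hg => ?_⟩
  rw [max_le_iff] at hX hn
  obtain ⟨hX3, hL3, -⟩ := msm2_big hX.2
  have hB := hΘ.nonneg
  have h0 : 0 ≤ Real.log (1 + Real.log X) := Real.log_nonneg (by linarith)
  obtain ⟨a, h1, h2, h3⟩ : ∃ a ≤ K, (A * (n : ℝ) ^ 4 * Real.exp (a * n) ≤ U ∨ a = 0) ∧
      U / Real.exp (a * n) ≤ A * ((n : ℝ) ^ 4 * Real.exp n + Real.log X / Real.exp (K * n)) := by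
    obtain ⟨a, ha⟩ : ∃ a, Nat.findGreatest (fun a : ℕ => A * (n : ℝ) ^ 4 * Real.exp (a * n) ≤ U) K = a :=
      ⟨_, rfl⟩
    have h1 : a ≤ K := ha ▸ Nat.findGreatest_le K
    refine ⟨a, h1, or_iff_not_imp_right.2 (Nat.findGreatest_of_ne_zero ha), ?_⟩
    have h2 : 0 ≤ Real.log X / Real.exp (K * n) := by positivity
    rcases h1.eq_or_lt with rfl | h3
    · refine le_trans ?_ (le_mul_of_one_le_left (by positivity) hA)
      exact (div_le_div_of_nonneg_right hUL (Real.exp_pos _).le).trans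
        (le_add_of_nonneg_left (by positivity))
    · have h4 := Nat.findGreatest_is_greatest (ha.trans_lt (Nat.lt_succ_self a)) h3
      rw [not_le, Nat.cast_succ, add_mul, one_mul, Real.exp_add] at h4
      refine le_trans ?_ (mul_le_mul_of_nonneg_left (le_add_of_nonneg_right h2) (by linarith))
      rw [div_le_iff₀ (Real.exp_pos _)]
      linarith
  refine (nrm_le_mul (b := fun m => (QQ D k₀ n 0 a (jac m) : ℂ) * pc D (jac m) L' U Θ)
    (c := 2 ^ K) (by positivity) fun m hm => ?_).trans ?_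
  · rw [norm_mul, norm_mul, norm_real, Real.norm_of_nonneg (QQ_nonneg ..), ← mul_assoc]
    exact mul_le_mul_of_nonneg_right (H₁ n a K m hn.2 h1 (hg m hm)) (norm_nonneg _)
  rw [mul_assoc, mul_assoc, mul_assoc]
  refine mul_le_mul_of_nonneg_left ((nrm_subset hT).trans (nrm_le_of_sq (by positivity) ?_))
    (by positivity)
  simp only [norm_mul, mul_pow, norm_real, Real.norm_eq_abs, sq_abs]
  refine (H X U L' B n a Θ hX.1 hn.1 h1 h2 h8 hUL hL' hΘ).trans ?_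
  rw [Real.sq_sqrt (by positivity), Real.sq_sqrt (by positivity), Real.sq_sqrt (by positivity)]
  calc _ ≤ C * X * B ^ 2 * (Real.exp (20 * ep k₀ * (K * n)) * (A * ((n : ℝ) ^ 4 * Real.exp n +
        Real.log X / Real.exp (K * n))) * (1 + Real.log (1 + Real.log X))) := by gcongr
    _ = _ := by ring

/-- With `L = log X`, `ε = ep k₀`: `exp (K n) ≤ L`, so `exp (20 ε K n) ≤ L ^ (20 ε)` and `exp n ≤ L ^ (1 / K)`;
`L / exp (K n) ≤ exp K * L ^ (30 ε)` by `Par2.low`; `n ≤ log L` (`par2_large`); and `C (log L) ^ 5 ≤ L ^ ε` for large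
`X`. -/
theorem piece_size {k₀ K : ℕ} (hk : 4800000 ≤ k₀) (hK : 1 ≤ K) (C : ℝ) : ∃ X₀ : ℝ, ∀ (X : ℝ) (n : ℕ), X₀ ≤ X →
    Par2 k₀ K X n → C * Real.log (Real.log X) *
      √(Real.exp (20 * ep k₀ * (K * n)) * ((n : ℝ) ^ 4 * Real.exp n + Real.log X / Real.exp (K * n)) *
        (1 + Real.log (1 + Real.log X))) ≤ Real.log X ^ (26 * ep k₀ + 1 / (2 * K)) := by
  obtain ⟨e1, e2⟩ := ep_mem hk
  have hK' : (1 : ℝ) ≤ K := by exact_mod_cast hK
  obtain ⟨c, hc⟩ : ∃ c : ℝ, c = 3 * (1 + Real.exp K) := ⟨_, rfl⟩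
  have hc1 : 1 ≤ c := by linarith [Real.exp_pos (K : ℝ)]
  refine ⟨Real.exp (Real.exp (1 + 120 * (|C| * c) / ep k₀ ^ 5)), fun X n hX hP => ?_⟩
  have hL := (Real.le_log_iff_exp_le ((Real.exp_pos _).trans_le hX)).mpr hX
  have hL0 : 0 < Real.log X := (Real.exp_pos _).trans_le hL
  have hl := (Real.le_log_iff_exp_le hL0).mpr hL
  have up := hP.up
  have low := hP.low
  rw [Real.rpow_def_of_pos hL0, Real.exp_le_exp] at up low
  rw [Real.rpow_def_of_pos hL0]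
  have hE : Real.log X = Real.exp (Real.log (Real.log X)) := (Real.exp_log hL0).symm
  generalize Real.log (Real.log X) = l at *
  generalize ep k₀ = ε at *
  rw [hE]
  have hn : (0 : ℝ) ≤ n := Nat.cast_nonneg n
  have a0 : 0 ≤ 120 * (|C| * c) / ε ^ 5 := by positivity
  have l1 : 1 ≤ l := by linarith
  have a1 : (K : ℝ) * n ≤ l := by nlinarith
  have a2 : (n : ℝ) ≤ l / K := (le_div_iff₀' (by linarith)).2 a1
  have a3 : (n : ℝ) ≤ l := by nlinarith
  have a4 : 1 + Real.log (1 + Real.exp l) ≤ 3 * l := by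
    have : Real.log (1 + Real.exp l) ≤ 1 + l := by
      rw [Real.log_le_iff_le_exp (by positivity), Real.exp_add]
      nlinarith [Real.add_one_le_exp 1, Real.add_one_le_exp l]
    linarith
  have a5 : (n : ℝ) ^ 4 * Real.exp n ≤ l ^ 4 * Real.exp (30 * ε * l + l / K) := by
    gcongr
    exact a2.trans (le_add_of_nonneg_left (by positivity))
  have a6 : Real.exp l / Real.exp (K * n) ≤ Real.exp K * (l ^ 4 * Real.exp (30 * ε * l + l / K)) := by
    refine le_trans ?_ (mul_le_mul_of_nonneg_left (le_mul_of_one_le_left (Real.exp_pos _).le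
      (one_le_pow₀ l1)) (Real.exp_pos _).le)
    rw [← Real.exp_sub, ← Real.exp_add, Real.exp_le_exp]
    linarith [hn.trans a2]
  have a7 : √(Real.exp (20 * ε * (K * n)) * ((n : ℝ) ^ 4 * Real.exp n + Real.exp l / Real.exp (K * n)) *
      (1 + Real.log (1 + Real.exp l))) ≤ c * l ^ 3 * Real.exp (25 * ε * l + l / (2 * K)) := by
    refine Real.sqrt_le_iff.2 ⟨by positivity, ?_⟩
    calc _ ≤ Real.exp (20 * ε * l) * (l ^ 4 * Real.exp (30 * ε * l + l / K) +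
          Real.exp K * (l ^ 4 * Real.exp (30 * ε * l + l / K))) * (3 * l) := by
          have := Real.log_nonneg (le_add_of_nonneg_right (Real.exp_pos l).le)
          gcongr
      _ = c * 1 * (l ^ 5 * 1) * (Real.exp (20 * ε * l) * Real.exp (30 * ε * l + l / K)) := by
          rw [hc]
          ring
      _ ≤ c * c * (l ^ 5 * l) * (Real.exp (20 * ε * l) * Real.exp (30 * ε * l + l / K)) := by
          gcongr
      _ = _ := by
          rw [mul_pow, ← Real.exp_add, ← Real.exp_nat_mul]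
          congr 1
          · ring
          · congr 1
            push_cast
            field_simp
            ring
  have a8 : |C| * c * l ^ 4 ≤ Real.exp (ε * l) := by
    refine le_trans ?_ (Real.pow_div_factorial_le_exp (ε * l) (by positivity) 5)
    have b1 : 120 * (|C| * c) ≤ l * ε ^ 5 := by
      rw [← div_le_iff₀ (by positivity)]
      linarith
    rw [le_div_iff₀ (by positivity)]
    calc |C| * c * l ^ 4 * ((5 : ℕ).factorial : ℝ) = 120 * (|C| * c) * l ^ 4 := by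
          norm_num [Nat.factorial]
          ring
      _ ≤ l * ε ^ 5 * l ^ 4 := by gcongr
      _ = _ := by ring
  calc _ ≤ |C| * l * (c * l ^ 3 * Real.exp (25 * ε * l + l / (2 * K))) := by
        gcongr
        exact le_abs_self C
    _ = |C| * c * l ^ 4 * Real.exp (25 * ε * l + l / (2 * K)) := by ring
    _ ≤ Real.exp (ε * l) * Real.exp (25 * ε * l + l / (2 * K)) := by gcongr
    _ = _ := by
        rw [← Real.exp_add]
        congr 1
        ring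

end Pool.Agent.Lib.MP_03e5d0_nt
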