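import Pool.Agent.Lib.MP_03e5d0_nt.ZCop
import Pool.Agent.Lib.MP_03e5d0_nt.MTr1

set_option autoImplicit false

noncomputable section

namespace Pool.Agent.Lib.MP_03e5d0_nt

open Complex Finset MeasureTheory
open scoped NumberTheorySymbols Real ContDiff

/-! The sieve for squarefree numbers in the class. -/

/-- The sum over `allm X` is the series over all integers; `d = a ^ 2 * e`, `cls_sq_mul`, and
`J(a ^ 2 * e | r) = J(a | r) ^ 2 * J(e | r)`. -/
theorem sv_class (D : Data) {X : ℝ} (hX : 0 < X) {a r : ℕ} (ha : a ≠ 0) (hr : r ≠ 0) {Φ : ℝ → ℂ}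
    (hΦ : ∀ y, y < -1 ∨ 1 < y → Φ y = 0) :
    ∑ d ∈ (allm X).filter (fun d => (a : ℤ) ^ 2 ∣ d), Φ (d / X) * ((cls D d * J(d | r) : ℝ) : ℂ) =
      if a.Coprime (D.q * r) then
        ((X / (a : ℝ) ^ 2 * mu0 D * rho dl0 r : ℝ) : ℂ) * (∫ y, Φ y) + dlt D Φ (X / (a : ℝ) ^ 2) r
      else 0 := by
  classical
  have ha' : (a : ℝ) ≠ 0 := Nat.cast_ne_zero.2 ha
  have hinj : Function.Injective fun e : ℤ => (a : ℤ) ^ 2 * e :=
    mul_right_injective₀ (pow_ne_zero 2 (Int.natCast_ne_zero.2 ha))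
  have h1 := hinj.tsum_eq (f := fun d : ℤ =>
    if (a : ℤ) ^ 2 ∣ d then Φ (d / X) * ((cls D d * J(d | r) : ℝ) : ℂ) else 0) fun d hd => by
      by_contra h
      exact hd (if_neg fun ⟨e, he⟩ => h ⟨e, he.symm⟩)
  have h0 := tsum_eq_sum (L := SummationFilter.unconditional ℤ) (s := allm X) (f := fun d : ℤ =>
    if (a : ℤ) ^ 2 ∣ d then Φ (d / X) * ((cls D d * J(d | r) : ℝ) : ℂ) else 0) fun d hd => by
      have h3 : 1 < |(d : ℝ) / X| := by
        rw [abs_div, abs_of_pos hX, one_lt_div hX]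
        exact not_le.1 ((mem_allm hX.le).not.1 hd)
      rw [hΦ _ ((lt_abs.1 h3).symm.imp (fun e => by linarith) id), zero_mul, ite_self]
  rw [sum_filter, ← h0, ← h1]
  have h2 : ∀ e : ℤ, (((a : ℤ) ^ 2 * e : ℤ) : ℝ) / X = e / (X / (a : ℝ) ^ 2) := fun e => by
    push_cast
    field_simp
  simp only [dvd_mul_right, if_true, h2, cls_sq_mul, jacobiSym.mul_left, jacobiSym.pow_left]
  split_ifs with h3 h4 h4
  · have h5 : (a : ℤ).gcd r = 1 := Nat.Coprime.coprime_mul_left_right h4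
    rw [jacobiSym.sq_one h5, dlt]
    simp only [one_mul, add_sub_cancel]
  · have h5 : J((a : ℤ) | r) = 0 :=
      jacobiSym.eq_zero_iff.2 ⟨hr, fun e => h4 (Nat.Coprime.mul_right h3 e)⟩
    simp [h5]
  · exact absurd (Nat.Coprime.coprime_mul_right_right h4) h3
  · simp

/-- Exchange the sums, `sv_class`, `ms_tail`, `rho_ms`, `mu0_mem`, `‖∫ Φ‖ ≤ 2 B` (`tft_norm_int`). -/
theorem sv_char (D : Data) {X B : ℝ} (hX : 0 < X) {Z r j : ℕ} (hZ : 1 ≤ Z) (hr : r ≠ 0) (hq : r.Coprime D.q)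
    {Φ : ℝ → ℂ} (hΦ : Sm j (-1) 1 B Φ) :
    ‖∑ d ∈ allm X, Φ (d / X) * ((cls D d * mulo Z d * J(d | r) : ℝ) : ℂ) -
      ((mu0 D * ms D.q * X * rho dl1 r : ℝ) : ℂ) * (∫ y, Φ y) -
      ∑ a ∈ (Icc 1 Z).filter (fun a : ℕ => a.Coprime (D.q * r)),
        ((ArithmeticFunction.moebius a : ℝ) : ℂ) * dlt D Φ (X / (a : ℝ) ^ 2) r‖ ≤
      2 * B * X * rho dl0 r / Z := by
  classical
  have hρ := (rho_mem dl_dl0 r).1
  obtain ⟨m0, m1⟩ := mu0_mem D
  have e1 : ∑ d ∈ allm X, Φ (d / X) * ((cls D d * mulo Z d * J(d | r) : ℝ) : ℂ) =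
      ∑ a ∈ Icc 1 Z, ((ArithmeticFunction.moebius a : ℝ) : ℂ) *
        ∑ d ∈ (allm X).filter (fun d => (a : ℤ) ^ 2 ∣ d),
          Φ (d / X) * ((cls D d * J(d | r) : ℝ) : ℂ) := by
    simp only [mulo, sum_filter, mul_sum, sum_mul, ofReal_sum]
    rw [sum_comm]
    refine sum_congr rfl fun a _ => sum_congr rfl fun d _ => ?_
    split_ifs
    · push_cast
      ring
    · simp
  have e2 : ∑ d ∈ allm X, Φ (d / X) * ((cls D d * mulo Z d * J(d | r) : ℝ) : ℂ) =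
      ((X * mu0 D * rho dl0 r * ∑ a ∈ (Icc 1 Z).filter (fun a : ℕ => a.Coprime (D.q * r)),
        (ArithmeticFunction.moebius a : ℝ) / (a : ℝ) ^ 2 : ℝ) : ℂ) * (∫ y, Φ y) +
      ∑ a ∈ (Icc 1 Z).filter (fun a : ℕ => a.Coprime (D.q * r)),
        ((ArithmeticFunction.moebius a : ℝ) : ℂ) * dlt D Φ (X / (a : ℝ) ^ 2) r := by
    rw [e1, mul_sum, ofReal_sum, sum_mul, ← sum_add_distrib, sum_filter]
    refine sum_congr rfl fun a ha => ?_
    rw [sv_class D hX (by have := (mem_Icc.1 ha).1; omega) hr hΦ.supp]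
    split_ifs
    · simp only [ofReal_mul, ofReal_div]
      ring
    · rw [mul_zero]
  have e3 : mu0 D * ms D.q * X * rho dl1 r = X * mu0 D * rho dl0 r * ms (D.q * r) := by
    linear_combination (-(X * mu0 D)) * rho_ms hr hq
  have i1 : ‖∫ y, Φ y‖ ≤ 2 * B := by
    have h1 := tft_norm_int hΦ (Nat.zero_le j)
    simp only [iteratedDeriv_zero] at h1
    refine (norm_integral_le_integral_norm _).trans (h1.trans (le_of_eq ?_))
    norm_num
  rw [e2, e3, sub_right_comm, add_sub_cancel_right, ← sub_mul, ← ofReal_sub, ← mul_sub, norm_mul,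
    norm_real, Real.norm_eq_abs, abs_mul, abs_of_nonneg (by positivity)]
  have h2 : X * mu0 D * rho dl0 r ≤ X * 1 * rho dl0 r := by gcongr
  refine (mul_le_mul (mul_le_mul h2 (ms_tail _ hZ) (abs_nonneg _) (by positivity)) i1
    (norm_nonneg _) (by positivity)).trans (le_of_eq ?_)
  ring

/-- One monomial, as `trans1_mono`. In the last sum of `sv_char`, with `r = ℓ n`, exchange `a` and `n`
(`a` is coprime to `q ℓ n` iff it is coprime to `q`, `ℓ` and `n`) and use `off_cop` with `X / a ^ 2`. -/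
theorem sv_mono (D : Data) (hFE : D.FE) (hPS : D.PS) : ∃ (j : ℕ) (C : ℝ), 0 ≤ C ∧
    ∀ (X Lt B BΦ Λ : ℝ) (ℓ Z N : ℕ) (V Φ : ℝ → ℂ), 0 < X → ℓ ≠ 0 → ℓ.Coprime D.q → 1 ≤ Z →
    ContDiff ℝ ∞ V → (∀ i ≤ j, ∀ y, ‖iteratedDeriv i V y‖ ≤ B) → (∀ y, Lt < y → V y = 0) →
    Sm j (-1) 1 BΦ Φ → Real.exp Lt < N → Real.log (ℓ * N) ≤ Λ →
    ‖∑ d ∈ allm X, Φ (d / X) * ((cls D d * mulo Z d : ℝ) : ℂ) * ((cm (jac d) ℓ : ℂ) * sm D (jac d) V) -
      ((mu0 D * ms D.q * X : ℝ) : ℂ) * (∫ y, Φ y) * Ex (pr D Λ) dl1 fun x => (cm x ℓ : ℂ) * sm D x V‖ ≤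
      2 * BΦ * B * X / Z * ∑ n ∈ range N, |D.lam n| / √n * rho dl0 (ℓ * n) +
        C * BΦ * B * (ℓ : ℝ) ^ 2 * (Z : ℝ) ^ 7 * Real.exp (Lt / 2) *
          ll (1 + Real.exp (Lt + 1) * (ℓ * (Z : ℝ) ^ 4) / X) ^ 2 := by
  classical
  obtain ⟨j, C, hC, H⟩ := off_cop D hFE hPS
  refine ⟨j, C, hC, fun X Lt B BΦ Λ ℓ Z N V Φ hX hℓ hq hZ hVs hVb hV hΦ hN hΛ => ?_⟩
  have hB : ∀ y, ‖V y‖ ≤ B := fun y => by simpa using hVb 0 (Nat.zero_le _) y
  have hB0 : 0 ≤ B := (norm_nonneg _).trans (hB 0)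
  have hΦ0 := hΦ.nonneg
  let c : ℕ → ℂ := fun n => ((D.lam n / √n : ℝ) : ℂ) * V (Real.log n)
  let T : ℕ → ℂ := fun r => ∑ a ∈ (Icc 1 Z).filter (fun a : ℕ => a.Coprime (D.q * r)),
    ((ArithmeticFunction.moebius a : ℝ) : ℂ) * dlt D Φ (X / (a : ℝ) ^ 2) r
  let E : ℕ → ℂ := fun r => ∑ d ∈ allm X, Φ (d / X) * ((cls D d * mulo Z d * J(d | r) : ℝ) : ℂ) -
    ((mu0 D * ms D.q * X * rho dl1 r : ℝ) : ℂ) * (∫ y, Φ y) - T r
  have h1 : ∀ x, (cm x ℓ : ℂ) * sm D x V = ∑ n ∈ range N, c n * (cm x (ℓ * n) : ℂ) := by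
    intro x
    rw [sm_eq_sum hV hN, mul_sum]
    refine sum_congr rfl fun n _ => ?_
    simp only [c, cm_mul]
    push_cast
    ring
  have hn : ∀ n, D.lam n ≠ 0 → ℓ * n ≠ 0 ∧ (ℓ * n).Coprime D.q := fun n hl => by
    refine ⟨mul_ne_zero hℓ ?_, Nat.Coprime.mul_left hq ?_⟩
    · rintro rfl
      exact hl D.lam0
    · by_contra h
      exact hl (D.lam_zero n h)
  have h2 : ∑ d ∈ allm X, Φ (d / X) * ((cls D d * mulo Z d : ℝ) : ℂ) *
        ((cm (jac d) ℓ : ℂ) * sm D (jac d) V) -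
      ((mu0 D * ms D.q * X : ℝ) : ℂ) * (∫ y, Φ y) *
        Ex (pr D Λ) dl1 (fun x => (cm x ℓ : ℂ) * sm D x V) =
      ∑ n ∈ range N, c n * E (ℓ * n) + ∑ n ∈ range N, c n * T (ℓ * n) := by
    simp only [h1]
    rw [Ex_sum, mul_sum]
    simp only [mul_sum (s := range N)]
    rw [sum_comm, ← sum_sub_distrib, ← sum_add_distrib]
    refine sum_congr rfl fun n hnN => ?_
    by_cases hl : D.lam n = 0
    · have : c n = 0 := by simp [c, hl]
      simp only [this, zero_mul, mul_zero, sum_const_zero, Ex_const, sub_zero, add_zero]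
    obtain ⟨hr0, hrq⟩ := hn n hl
    have hrN : ℓ * n ≤ ℓ * N := Nat.mul_le_mul_left _ (mem_range.1 hnN).le
    have hsub : (ℓ * n).primeFactors ⊆ pr D Λ := by
      intro p hp
      have hpp := Nat.prime_of_mem_primeFactors hp
      have hpd := Nat.dvd_of_mem_primeFactors hp
      refine mem_pr.2 ⟨hpp, fun h => hpp.one_lt.ne' (Nat.eq_one_of_dvd_coprimes hrq hpd h), ?_⟩
      refine le_trans (Real.log_le_log (by exact_mod_cast hpp.pos) ?_) hΛ
      exact_mod_cast (Nat.le_of_dvd (Nat.pos_of_ne_zero hr0) hpd).trans hrN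
    rw [← mul_add, Ex_mul_left, Ex_ofReal, Ex_cm hr0 hsub]
    simp only [E, sub_add_cancel]
    rw [mul_sub, mul_sum]
    congr 1
    · refine sum_congr rfl fun d _ => ?_
      rw [cm_jac d hr0]
      simp only [ofReal_mul]
      ring
    · simp only [ofReal_mul]
      ring
  have h3 : ∑ n ∈ range N, c n * T (ℓ * n) =
      ∑ a ∈ (Icc 1 Z).filter (fun a : ℕ => a.Coprime (D.q * ℓ)),
        ((ArithmeticFunction.moebius a : ℝ) : ℂ) *
          ∑ n ∈ range N, (((if n.Coprime a then D.lam n else 0) / √n : ℝ) : ℂ) *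
            (V (Real.log n) * dlt D Φ (X / (a : ℝ) ^ 2) (ℓ * n)) := by
    simp only [T, sum_filter, mul_sum]
    rw [sum_comm]
    refine sum_congr rfl fun a _ => ?_
    by_cases h4 : a.Coprime (D.q * ℓ)
    · rw [if_pos h4]
      refine sum_congr rfl fun n _ => ?_
      by_cases h5 : n.Coprime a
      · rw [if_pos h5, if_pos (by rw [← mul_assoc]; exact Nat.Coprime.mul_right h4 h5.symm)]
        simp only [c]
        ring
      · rw [if_neg h5, if_neg fun h6 => h5 (by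
          rw [← mul_assoc] at h6
          exact (Nat.Coprime.coprime_mul_left_right h6).symm)]
        simp
    · rw [if_neg h4]
      refine sum_eq_zero fun n _ => ?_
      rw [if_neg fun h6 => h4 (by
        rw [← mul_assoc] at h6
        exact Nat.Coprime.coprime_mul_right_right h6), mul_zero]
  rw [h2, h3]
  refine (norm_add_le _ _).trans (add_le_add ?_ ?_)
  · rw [mul_sum]
    refine (norm_sum_le _ _).trans (sum_le_sum fun n _ => ?_)
    have hr := (rho_mem dl_dl0 (ℓ * n)).1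
    by_cases hl : D.lam n = 0
    · have : c n = 0 := by simp [c, hl]
      rw [this, zero_mul, norm_zero]
      positivity
    have h4 : ‖c n‖ ≤ |D.lam n| / √n * B := by
      simp only [c]
      rw [norm_mul, norm_real, Real.norm_eq_abs, abs_div, abs_of_nonneg (Real.sqrt_nonneg _)]
      exact mul_le_mul_of_nonneg_left (hB _) (by positivity)
    rw [norm_mul]
    refine (mul_le_mul h4 (sv_char D hX hZ (hn n hl).1 (hn n hl).2 hΦ) (norm_nonneg _)
      (by positivity)).trans (le_of_eq ?_)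
    ring
  · refine (norm_sum_le _ _).trans ((sum_le_card_nsmul _ _
      (C * BΦ * B * (ℓ : ℝ) ^ 2 * (Z : ℝ) ^ 6 * Real.exp (Lt / 2) *
        ll (1 + Real.exp (Lt + 1) * (ℓ * (Z : ℝ) ^ 4) / X) ^ 2) fun a ha => ?_).trans ?_)
    · obtain ⟨ha1, ha2⟩ := mem_filter.1 ha
      obtain ⟨ha3, ha4⟩ := mem_Icc.1 ha1
      have a0 : (0 : ℝ) < a := by exact_mod_cast ha3
      have aZ : (a : ℝ) ≤ Z := by exact_mod_cast ha4
      have h4 : ‖((ArithmeticFunction.moebius a : ℝ) : ℂ)‖ ≤ 1 := by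
        rw [norm_real, Real.norm_eq_abs]
        exact_mod_cast ArithmeticFunction.abs_moebius_le_one
      rw [norm_mul]
      refine (mul_le_of_le_one_left (norm_nonneg _) h4).trans ((H (X / (a : ℝ) ^ 2) Lt B BΦ ℓ a N V Φ
        (by positivity) hℓ hq (Nat.Coprime.coprime_mul_right_right ha2) hVs hVb hV hΦ hN).trans ?_)
      have h5 : Real.exp (Lt + 1) * (ℓ * (a : ℝ) ^ 2) / (X / (a : ℝ) ^ 2) =
          Real.exp (Lt + 1) * (ℓ * (a : ℝ) ^ 4) / X := by field_simp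
      rw [h5]
      have h6 : (1 : ℝ) ≤ 1 + Real.exp (Lt + 1) * (ℓ * (a : ℝ) ^ 4) / X :=
        le_add_of_nonneg_right (by positivity)
      have h7 := ll_mono h6 (M' := 1 + Real.exp (Lt + 1) * (ℓ * (Z : ℝ) ^ 4) / X) (by gcongr)
      have h8 := one_le_ll h6
      gcongr
    · have h4 : (((Icc 1 Z).filter fun a : ℕ => a.Coprime (D.q * ℓ)).card : ℝ) ≤ Z := by
        exact_mod_cast (card_filter_le _ _).trans (by simp)
      rw [nsmul_eq_mul]
      refine (mul_le_mul_of_nonneg_right h4 (by positivity)).trans (le_of_eq ?_)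
      ring

/-- As `fam_sub_mulo`; `cls D 0 = 0`. -/
theorem fam2_sub_mulo (D : Data) {X B : ℝ} (hX : 0 < X) (s : ℤ) (Z : ℕ) {Φ : ℝ → ℂ}
    (h0 : ∀ y, y < 1 / 2 → Φ y = 0) (hB : ∀ y, ‖Φ y‖ ≤ B) (g : ℤ → ℂ) :
    ‖∑ d ∈ fam2 D s X, Φ (s * d / X) * g d -
      ∑ d ∈ allm X, Φ (s * d / X) * ((cls D d * mulo Z d : ℝ) : ℂ) * g d‖ ≤
      B * (√(∑ d ∈ allm X, (nu Z d : ℝ) ^ 2) * nrm (allm X) g) := by
  classical
  have hB0 : 0 ≤ B := (norm_nonneg _).trans (hB 0)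
  have h1 : ∑ d ∈ fam2 D s X, Φ (s * d / X) * g d = ∑ d ∈ allm X,
      Φ (s * d / X) * ((cls D d * (if Squarefree d then 1 else 0) : ℝ) : ℂ) * g d := by
    unfold fam2
    rw [sum_filter]
    refine sum_congr rfl fun d _ => ?_
    by_cases h : D.Sq d
    · by_cases hs : Squarefree d
      · by_cases hd : X / 2 ≤ ((s * d : ℤ) : ℝ)
        · rw [if_pos ⟨⟨hs, h⟩, hd⟩, cls, if_pos h, if_pos hs]
          simp
        · rw [if_neg fun hh => hd hh.2, h0]
          · simp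
          · push_cast at hd
            rw [div_lt_iff₀ hX]
            linarith
      · rw [if_neg fun hh => hs hh.1.1, if_neg hs]
        simp
    · rw [if_neg fun hh => h hh.1.2, cls, if_neg h]
      simp
  have h2 : √(∑ d ∈ allm X, (nu Z d : ℝ) ^ 2) = nrm (allm X) fun d => (nu Z d : ℂ) := by
    simp only [nrm, Complex.norm_natCast]
  rw [h1, ← sum_sub_distrib, h2]
  refine le_trans ?_ (mul_le_mul_of_nonneg_left (sum_mul_le_nrm _ _ _) hB0)
  rw [mul_sum]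
  refine (norm_sum_le _ _).trans (sum_le_sum fun d _ => ?_)
  rw [← sub_mul, ← mul_sub, ← ofReal_sub, ← mul_sub, norm_mul, norm_mul, norm_real,
    Complex.norm_natCast, Real.norm_eq_abs, ← mul_assoc]
  refine mul_le_mul_of_nonneg_right (mul_le_mul (hB _) ?_ (abs_nonneg _) hB0) (norm_nonneg _)
  by_cases hd0 : d = 0
  · have h3 : ¬D.Sq d := fun h => by
      have h8 : d % 8 = 1 := h.1
      omega
    rw [cls, if_neg h3, zero_mul, abs_zero]
    positivity
  · rw [abs_mul, abs_of_nonneg (cls_mem D d).1]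
    exact (mul_le_of_le_one_left (abs_nonneg _) (cls_mem D d).2).trans (sqfree_sub_mulo Z hd0)

/-- `sm_windows_fin` (at most `3 log X` windows), `nrm_sum`, `nrm_sm_le` with `ρ = 5`, and `allm_le` with
`diag_one`, `off'` and the `IH` of `li`; each window is `O(B √X log X)`. -/
theorem allm_sm_le (D : Data) (hFE : D.FE) (hPS : D.PS) : ∃ (j : ℕ) (C : ℝ), 0 ≤ C ∧
    ∀ (X Lt B : ℝ) (V : ℝ → ℂ), 3 ≤ X → ContDiff ℝ ∞ V → (∀ i ≤ j, ∀ y, ‖iteratedDeriv i V y‖ ≤ B) →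
    (∀ y, Lt < y → V y = 0) → Lt ≤ Real.log X →
    nrm (allm X) (fun m => sm D (jac m) V) ≤ C * B * √X * Real.log X ^ 2 := by
  obtain ⟨j₀, c, hjc⟩ := allm_le D (diag_one D hPS) (off' D hPS)
  obtain ⟨A, C₁, hC₁, hIH⟩ := li D hFE hPS
  obtain ⟨C₂, hC₂, h2⟩ := hjc A 1
  obtain ⟨C₃, hC₃, h3⟩ := nrm_sm_le (j₀ + (A + c)) 5
  obtain ⟨Bψ, hψ⟩ := sm_psi (j₀ + (A + c) + 2)
  have hψ0 := hψ.nonneg
  refine ⟨j₀ + (A + c) + 2, 3 * (C₃ * (2 ^ (j₀ + (A + c) + 2) * Bψ) * (C₂ * (10 + 34 * C₁))),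
    by positivity, fun X Lt B V hX hVs hVb hV hLt => ?_⟩
  have hB0 : 0 ≤ B := (norm_nonneg _).trans (hVb 0 (Nat.zero_le _) 0)
  have hX0 : 0 < X := by linarith
  have hL : 1 ≤ Real.log X := by
    rw [Real.le_log_iff_exp_le hX0]
    linarith [Real.exp_one_lt_three]
  have hn : Lt + 1 ≤ (⌈Real.log X + 1⌉₊ : ℕ) := le_trans (by linarith) (Nat.le_ceil _)
  have hn' : ((⌈Real.log X + 1⌉₊ : ℕ) : ℝ) ≤ 3 * Real.log X := by
    linarith [Nat.ceil_lt_add_one (show 0 ≤ Real.log X + 1 by linarith)]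
  refine (nrm_sum (range ⌈Real.log X + 1⌉₊)
    (c := fun m i => sm D (jac m) fun y => (psi (y - i) : ℂ) * V y) fun m _ => by
      rw [sm_windows_fin hV hn]
      exact norm_sum_le _ _).trans ((sum_le_card_nsmul _ _
        (C₃ * (2 ^ (j₀ + (A + c) + 2) * Bψ * B) * (C₂ * (10 + 34 * C₁) * (√X * Real.log X)))
        fun i hi => ?_).trans ?_)
  · have hi' : (i : ℝ) ≤ Real.log X + 1 := (Nat.lt_ceil.1 (mem_range.1 hi)).le
    have i0 : (0 : ℝ) ≤ i := Nat.cast_nonneg i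
    have h4 := h3 D ℤ (allm X) jac i (C₂ * (10 + 34 * C₁) * (√X * Real.log X))
      (2 ^ (j₀ + (A + c) + 2) * Bψ * B) (fun _ y => (psi y : ℂ) * V (y + i)) (by positivity)
      (by positivity) (fun t => ?_) fun _ _ => (hψ.mul (g := fun y => V (y + i))
        (hVs.comp (contDiff_id.add contDiff_const)) hB0 fun k hk y _ => by
          rw [iteratedDeriv_comp_add_const]
          exact hVb k hk _).mono le_rfl (by norm_num) (by norm_num) le_rfl
    · simpa only [sub_add_cancel] using h4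
    refine (h2 _ hIH X i t (by linarith)).trans ?_
    have t1 : 1 ≤ 1 + |t| := le_add_of_nonneg_right (abs_nonneg t)
    have b1 : (1 + |t|) ^ j₀ ≤ (1 + |t|) ^ (j₀ + (A + c)) := pow_le_pow_right₀ t1 (by omega)
    have b2 : (1 + |t|) ^ (A + c) ≤ (1 + |t|) ^ (j₀ + (A + c)) := pow_le_pow_right₀ t1 (by omega)
    have b3 : 1 + Real.log (1 + max 1 ((i : ℝ) + 7)) ≤ 10 * Real.log X := by
      rw [max_eq_right (by linarith)]
      linarith [Real.log_le_sub_one_of_pos (show 0 < 1 + ((i : ℝ) + 7) by linarith)]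
    have b3' : 0 ≤ 1 + Real.log (1 + max 1 ((i : ℝ) + 7)) := by
      linarith [Real.log_nonneg (show 1 ≤ 1 + max 1 ((i : ℝ) + 7) by
        linarith [le_max_left 1 ((i : ℝ) + 7)])]
    have b4 : Real.exp (i / 2) ≤ 2 * √X := by
      refine abs_le_of_sq_le_sq' ?_ (by positivity) |>.2
      rw [← Real.exp_nat_mul, mul_pow, Real.sq_sqrt hX0.le]
      refine (Real.exp_le_exp.2 (show _ ≤ Real.log X + 1 by push_cast; linarith)).trans ?_
      rw [Real.exp_add, Real.exp_log hX0]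
      nlinarith [Real.exp_one_lt_three]
    have m1 : (1 : ℝ) ≤ 1 + Real.exp (2 * i + 12) / X := le_add_of_nonneg_right (by positivity)
    have b5 : ll (1 + Real.exp (2 * i + 12) / X) ≤ 17 * Real.log X := by
      have c1 : Real.exp (2 * i + 12) / X ≤ Real.exp (Real.log X + 14) := by
        rw [div_le_iff₀ hX0]
        nth_rewrite 2 [← Real.exp_log hX0]
        rw [← Real.exp_add]
        exact Real.exp_le_exp.2 (by linarith)
      have c2 : 1 + Real.exp (2 * i + 12) / X ≤ Real.exp (Real.log X + 15) := by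
        rw [show Real.log X + 15 = Real.log X + 14 + 1 by ring, Real.exp_add _ 1]
        nlinarith [Real.one_le_exp (show 0 ≤ Real.log X + 14 by linarith), Real.add_one_le_exp 1]
      have c3 := (Real.log_le_iff_le_exp (by linarith)).2 c2
      have c4 := Real.log_nonneg m1
      have c5 := Real.log_le_sub_one_of_pos
        (show 0 < 1 + Real.log (1 + Real.exp (2 * i + 12) / X) by linarith)
      unfold ll
      linarith
    have b6 := one_le_ll m1
    calc _ ≤ C₂ * (√X * (1 + |t|) ^ (j₀ + (A + c)) * (10 * Real.log X) +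
          (1 + |t|) ^ (j₀ + (A + c)) * (2 * √X) * (C₁ * (17 * Real.log X))) := by gcongr
      _ = _ := by ring
  · rw [nsmul_eq_mul, card_range]
    refine (mul_le_mul_of_nonneg_right hn' (by positivity)).trans (le_of_eq ?_)
    ring

end Pool.Agent.Lib.MP_03e5d0_nt
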